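import Pool.Agent.P.MP_dba4bb_co.Ex.Defs
import Pool.Agent.P.MP_dba4bb_co.A

/-! Basic facts about covers. -/

namespace Pool.Agent.P.MP_dba4bb_co.Ex

open Set

variable {k a b : ℝ} {F : P2 → P3}

theorem d2_nonneg (P Q : P2) : 0 ≤ d2 P Q := by unfold d2; positivity
theorem e2_nonneg (p q : P3) : 0 ≤ e2 p q := by unfold e2; positivity
theorem d2_comm (P Q : P2) : d2 P Q = d2 Q P := by unfold d2; ring
theorem e2_comm (p q : P3) : e2 p q = e2 q p := by unfold e2; ring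

theorem e2_eq_zero {p q : P3} (h : e2 p q ≤ 0) : p = q := by
  unfold e2 at h
  have h1 := sq_nonneg (p.1 - q.1)
  have h2 := sq_nonneg (p.2.1 - q.2.1)
  have h3 := sq_nonneg (p.2.2 - q.2.2)
  have e1 : p.1 - q.1 = 0 := pow_eq_zero_iff two_ne_zero |>.1 (by linarith)
  have e2 : p.2.1 - q.2.1 = 0 := pow_eq_zero_iff two_ne_zero |>.1 (by linarith)
  have e3 : p.2.2 - q.2.2 = 0 := pow_eq_zero_iff two_ne_zero |>.1 (by linarith)
  exact Prod.ext (by linarith) (Prod.ext (by linarith) (by linarith))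

theorem cp_eta (q : P3) : cp (cx q) (cy q) (cz q) = q := by
  unfold cp cx cy cz
  exact Prod.ext (by simp only; ring) (Prod.ext (by simp only; ring) (by simp only; ring))

@[simp] theorem cx_cp (x y z : ℝ) : cx (cp x y z) = x := by unfold cx cp; ring
@[simp] theorem cy_cp (x y z : ℝ) : cy (cp x y z) = y := by unfold cy cp; ring
@[simp] theorem cz_cp (x y z : ℝ) : cz (cp x y z) = z := by unfold cz cp; ring

theorem e2_cp (x y z x' y' z' : ℝ) :
    e2 (cp x y z) (cp x' y' z') = 2 * ((x - x') ^ 2 + (y - y') ^ 2 + 2 * (z - z') ^ 2) := by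
  unfold e2 cp; ring

theorem top_mem {x y : ℝ} (h1 : x + y ≤ 1) (h2 : -1 ≤ x + y) (h3 : x - y ≤ 1) (h4 : -1 ≤ x - y) :
    cp x y 1 ∈ Sf := by
  unfold cp Sf; norm_num; exact ⟨⟨h2, h1⟩, by linarith, by linarith⟩

theorem Cover.weak (h : Cover k a b F) : Cover 1 a b F :=
  ⟨le_rfl, h.mem, fun P Q => by nlinarith [h.lip P Q, h.one_le, e2_nonneg (F P) (F Q)], h.surj⟩

theorem Cover.mono (h : Cover k a b F) {a' b' : ℝ} (ha : a ≤ a') (hb : b ≤ b') :
    Cover k a' b' F :=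
  ⟨h.one_le, h.mem, h.lip, fun q hq => by
    obtain ⟨P, h1, h2, h3⟩ := h.surj q hq
    exact ⟨P, h1.trans ha, h2.trans hb, h3⟩⟩

theorem Cover.sym (h : Cover k a b F) {g : P3 → P3} (hg : Sym g) : Cover k a b fun P => g (F P) :=
  ⟨h.one_le, fun P => hg.mem _ (h.mem P), fun P Q => by rw [hg.iso]; exact h.lip P Q,
    fun q hq => by
      obtain ⟨p, hp, rfl⟩ := hg.surj q hq
      obtain ⟨P, h1, h2, rfl⟩ := h.surj p hp
      exact ⟨P, h1, h2, rfl⟩⟩

theorem Sym.comp {g g' : P3 → P3} (hg : Sym g) (hg' : Sym g') : Sym fun q => g (g' q) :=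
  ⟨fun p q => by rw [hg.iso, hg'.iso], fun q hq => hg.mem _ (hg'.mem q hq), fun q hq => by
    obtain ⟨p, hp, rfl⟩ := hg.surj q hq
    obtain ⟨p', hp', rfl⟩ := hg'.surj p hp
    exact ⟨p', hp', rfl⟩⟩

theorem Sym.of_invol {g : P3 → P3} (h1 : ∀ p q, e2 (g p) (g q) = e2 p q)
    (h2 : ∀ q ∈ Sf, g q ∈ Sf) (h3 : ∀ q, g (g q) = q) : Sym g :=
  ⟨h1, h2, fun q hq => ⟨g q, h2 q hq, h3 q⟩⟩

theorem sym_id : Sym fun q => q := Sym.of_invol (fun _ _ => rfl) (fun _ h => h) fun _ => rfl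

theorem sym_neg1 : Sym fun q => (-q.1, q.2.1, q.2.2) :=
  Sym.of_invol (fun p q => by unfold e2; ring)
    (fun q ⟨h1, h2, h3, h4⟩ => ⟨⟨by linarith [h1.2], by linarith [h1.1]⟩, h2, h3, by
      simp only [neg_eq_iff_eq_neg, neg_neg]; tauto⟩) (by simp)

theorem sym_swap12 : Sym fun q => (q.2.1, q.1, q.2.2) :=
  Sym.of_invol (fun p q => by unfold e2; ring)
    (fun q ⟨h1, h2, h3, h4⟩ => ⟨h2, h1, h3, by simp only; tauto⟩) (by simp)

theorem sym_swap23 : Sym fun q => (q.1, q.2.2, q.2.1) :=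
  Sym.of_invol (fun p q => by unfold e2; ring)
    (fun q ⟨h1, h2, h3, h4⟩ => ⟨h1, h3, h2, by simp only; tauto⟩) (by simp)

theorem sym_swap13 : Sym fun q => (q.2.2, q.2.1, q.1) :=
  Sym.of_invol (fun p q => by unfold e2; ring)
    (fun q ⟨h1, h2, h3, h4⟩ => ⟨h3, h2, h1, by simp only; tauto⟩) (by simp)

theorem sym_neg2 : Sym fun q => (q.1, -q.2.1, q.2.2) := by
  simpa using (sym_swap12.comp sym_neg1).comp sym_swap12

theorem sym_neg3 : Sym fun q => (q.1, q.2.1, -q.2.2) := by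
  simpa using (sym_swap13.comp sym_neg1).comp sym_swap13

theorem Cover.flip (h : Cover k a b F) : Cover k a b (flip F) := by
  have g : Sym fun q : P3 => (-q.2.1, -q.1, q.2.2) := by
    simpa using (sym_neg1.comp sym_neg2).comp sym_swap12
  have h1 : Cover k a b fun P => F (-P.1, P.2) :=
    ⟨h.one_le, fun P => h.mem _, fun P Q => (h.lip _ _).trans_eq (by unfold d2; ring),
      fun q hq => by
        obtain ⟨P, h1, h2, rfl⟩ := h.surj q hq
        exact ⟨(-P.1, P.2), by simpa using h1, h2, by simp⟩⟩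
  exact h1.sym g

theorem Cover.rot (h : Cover k a b F) : Cover k a b (rot F) := by
  have g : Sym fun q : P3 => (-q.1, -q.2.1, q.2.2) := by simpa using sym_neg1.comp sym_neg2
  have h1 : Cover k a b fun P => F (-P.1, -P.2) :=
    ⟨h.one_le, fun P => h.mem _, fun P Q => (h.lip _ _).trans_eq (by unfold d2; ring),
      fun q hq => by
        obtain ⟨P, h1, h2, rfl⟩ := h.surj q hq
        exact ⟨(-P.1, -P.2), by simpa using h1, by simpa using h2, by simp⟩⟩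
  exact h1.sym g

theorem Cover.cont (h : Cover k a b F) : Continuous F := by
  refine (LipschitzWith.of_dist_le_mul (K := 2) fun P Q => ?_).continuous
  have h0 := h.weak.lip P Q
  have hd : 0 ≤ dist P Q := dist_nonneg
  have h1 : |P.1 - Q.1| ≤ dist P Q := by rw [Prod.dist_eq, ← Real.dist_eq]; exact le_max_left _ _
  have h2 : |P.2 - Q.2| ≤ dist P Q := by rw [Prod.dist_eq, ← Real.dist_eq]; exact le_max_right _ _
  have h3 := sq_le_sq' (abs_le.1 h1).1 (abs_le.1 h1).2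
  have h4 := sq_le_sq' (abs_le.1 h2).1 (abs_le.1 h2).2
  unfold e2 d2 at h0
  have s1 := sq_nonneg ((F P).1 - (F Q).1)
  have s2 := sq_nonneg ((F P).2.1 - (F Q).2.1)
  have s3 := sq_nonneg ((F P).2.2 - (F Q).2.2)
  simp only [Prod.dist_eq, Real.dist_eq, NNReal.coe_ofNat] at *
  refine max_le ?_ (max_le ?_ ?_) <;> refine abs_le_of_sq_le_sq' ?_ (by positivity) |> abs_le.2 <;>
    nlinarith

/-- the Euclidean strut in diagonal coordinates -/
theorem Cover.eu (h : Cover k a b F) {P Q : P2} {x y z x' y' z' : ℝ} (hP : F P = cp x y z)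
    (hQ : F Q = cp x' y' z') :
    k * ((x - x') ^ 2 + (y - y') ^ 2 + 2 * (z - z') ^ 2) ≤ d2 P Q := by
  have := h.lip P Q
  rw [hP, hQ, e2_cp] at this
  linarith

theorem isClosed_face (i : Fin 6) : IsClosed
    {q : P3 | (![q.1, -q.1, q.2.1, -q.2.1, q.2.2, -q.2.2] : Fin 6 → ℝ) i = 1} := by
  refine isClosed_eq ?_ continuous_const
  fin_cases i <;> simp <;> fun_prop

/-- a map that does not increase distances on faces gives lower bounds for paper distances -/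
theorem Cover.face (h : Cover k a b F) (Φ : P3 → P2)
    (hΦ : ∀ p ∈ Sf, ∀ q ∈ Sf, SameFace p q → d2 (Φ p) (Φ q) ≤ e2 p q) (P Q : P2) :
    k * d2 (Φ (F P)) (Φ (F Q)) ≤ 2 * d2 P Q := by
  have k0 : 0 ≤ k / 2 := by linarith [h.one_le]
  set c := √(k / 2) with hc
  have c2 : c ^ 2 = k / 2 := Real.sq_sqrt k0
  let ι : ℂ → P2 := fun z => (z.re, z.im)
  have hι : Continuous ι := by fun_prop
  let g : ℂ → ℂ := fun z => ⟨c * (Φ (F (ι z))).1, c * (Φ (F (ι z))).2⟩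
  have key : ∀ z w : ℂ, dist (g z) (g w) ≤ dist z w ↔
      k * d2 (Φ (F (ι z))) (Φ (F (ι w))) ≤ 2 * d2 (ι z) (ι w) := fun z w => by
    rw [Complex.dist_eq_re_im, Complex.dist_eq_re_im, Real.sqrt_le_sqrt_iff (by positivity)]
    simp only [g, ι, d2]
    rw [← mul_sub, ← mul_sub, mul_pow, mul_pow, c2]
    constructor <;> intro h <;> linarith
  let 𝓕 : Set (Set ℂ) := range fun i : Fin 6 => (fun z => F (ι z)) ⁻¹'
    {q : P3 | (![q.1, -q.1, q.2.1, -q.2.1, q.2.2, -q.2.2] : Fin 6 → ℝ) i = 1}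
  have := glue (g := g) (K := univ) convex_univ (𝓕 := 𝓕) (finite_range _)
    (by rintro _ ⟨i, rfl⟩; exact (isClosed_face i).preimage (h.cont.comp hι))
    (fun z _ => by
      obtain ⟨-, -, -, h4⟩ := h.mem (ι z)
      rcases h4 with e | e | e | e | e | e
      exacts [⟨_, ⟨0, rfl⟩, by simp [e]⟩, ⟨_, ⟨1, rfl⟩, by simp [e]⟩, ⟨_, ⟨2, rfl⟩, by simp [e]⟩,
        ⟨_, ⟨3, rfl⟩, by simp [e]⟩, ⟨_, ⟨4, rfl⟩, by simp [e]⟩, ⟨_, ⟨5, rfl⟩, by simp [e]⟩])
    (by
      rintro _ ⟨i, rfl⟩ z ⟨hz, -⟩ w ⟨hw, -⟩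
      rw [key]
      refine le_trans (mul_le_mul_of_nonneg_left (hΦ _ (h.mem _) _ (h.mem _) ?_)
        (by linarith)) (h.lip _ _)
      unfold SameFace
      fin_cases i <;> simp [neg_eq_iff_eq_neg] at hz hw <;> simp [hz, hw])
    (p := ⟨P.1, P.2⟩) (q := ⟨Q.1, Q.2⟩) trivial trivial
  exact (key _ _).1 this

/-- the real-valued form -/
theorem Cover.face1 (h : Cover k a b F) (φ : P3 → ℝ)
    (hφ : ∀ p ∈ Sf, ∀ q ∈ Sf, SameFace p q → (φ p - φ q) ^ 2 ≤ e2 p q) (P Q : P2) :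
    k * (φ (F P) - φ (F Q)) ^ 2 ≤ 2 * d2 P Q := by
  simpa [d2] using h.face (fun q => (φ q, 0)) (fun p hp q hq s => by
    simpa [d2] using hφ p hp q hq s) P Q

end Pool.Agent.P.MP_dba4bb_co.Ex
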