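import Pool.Agent.P.MP_dba4bb_co.Ex.Lin2

/-! Leaves of the branch and bound. -/

namespace Pool.Agent.P.MP_dba4bb_co.Ex

variable {τ : ℝ} {c : Cfg}

theorem lfP1 (h : Lin2 τ c) (e : CsP c) (hτ : 0 ≤ τ) (h0 : τ ≤ 1 / 10 ^ 7)
    (l0 : (-3 / 4) ≤ c.z1Ny - c.p2y) (u0 : c.z1Ny - c.p2y ≤ (1 / 2)) (l1 : (-17 / 4) ≤ c.z1Ey - c.p4y) (u1 : c.z1Ey - c.p4y ≤ (-11 / 8))
    (l2 : (-9 / 4) ≤ c.z3Wy - c.p2y) (u2 : c.z3Wy - c.p2y ≤ (1 / 2)) (l3 : (-15 / 4) ≤ c.z3Sy - c.p4y) (u3 : c.z3Sy - c.p4y ≤ (-35 / 16))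
    (l4 : 0 ≤ c.s1) (u4 : c.s1 ≤ 1) : False := by
  have : 0 ≤ -(1 / 10) + 35 * τ := by
    linear_combination
      (417 / 2048) * h.toLin.p2_p4 + (3085 / 6144) * h.toLin.p2_z3Wv + (833 / 768) * h.toLin.p2_eN1
      + (153 / 704) * h.toLin.p2_eW1 + (15 / 176) * h.toLin.p2_hW + (153 / 128) * h.toLin.p4_p1
      + (269 / 512) * h.toLin.p4_p3 + (10885 / 6144) * h.toLin.p4_z1Ev
      + (1429 / 1536) * h.toLin.p4_z3Sv + (473 / 512) * h.toLin.p4_eS2 + (33 / 32) * h.toLin.p4_hWv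
      + (153 / 128) * h.toLin.p1_z1Nu + (269 / 512) * h.toLin.p3_z3Wu
      + (553 / 1024) * h.toLin.z1N_t1N + (247 / 768) * h.toLin.z1N_k2N
      + (833 / 2304) * h.toLin.z1N_eN1 + (45 / 32) * h.toLin.z1E_t2E + (45 / 8) * h.toLin.z3W_gWh
      + (553 / 1024) * h.toLin.z3S_t1S + (247 / 512) * h.toLin.z3S_t2S
      + (473 / 512) * h.toLin.z3S_eS2 + (473 / 256) * h.toLin.t2N_k2N
      + (473 / 256) * h.toLin.t2S_eS2 + (833 / 192) * h.toLin.k2N_eN1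
      + (153 / 128) * h.toLin.k2W_eW1 + (9 / 8) * h.toLin.k2W_gWh + (153 / 1760) * h.toLin.eW1_hW
      + (261 / 212) * h.toLin.gW_hW + (4999 / 3072) * h.toLin.wRz1N + (10885 / 3072) * h.toLin.wRz1E
      + (8749 / 3072) * h.toLin.wLz3W + (7135 / 3072) * h.toLin.wLz3S + (553 / 1024) * h.toLin.wTt1N
      + (553 / 1024) * h.toLin.wBt1S + (473 / 512) * h.toLin.wRt2N + (473 / 512) * h.toLin.wLt2S
      + (45 / 32) * h.toLin.wBt2S + (45 / 32) * h.toLin.wBt2E + (45 / 32) * h.toLin.wTk2N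
      + (45 / 32) * h.toLin.wTk2W + (805 / 512) * h.c3 + (1593 / 512) * e.2.1 + h.hG
      + (1 / 4) * mul_nonneg (sub_nonneg.2 l0) (sub_nonneg.2 u0)
      + (1 / 4) * mul_nonneg (sub_nonneg.2 l1) (sub_nonneg.2 u1)
      + (1 / 4) * mul_nonneg (sub_nonneg.2 l2) (sub_nonneg.2 u2)
      + (1 / 4) * mul_nonneg (sub_nonneg.2 l3) (sub_nonneg.2 u3) + sq_nonneg (c.s1 - (1 / 2))
      + (19523851 / 53729280) * hτ
  linarith only [this, h0]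

theorem lfP3 (h : Lin2 τ c) (e : CsP c) (hτ : 0 ≤ τ) (h0 : τ ≤ 1 / 10 ^ 7)
    (l0 : (-5 / 8) ≤ c.z1Ny - c.p2y) (u0 : c.z1Ny - c.p2y ≤ (1 / 2)) (l1 : (-17 / 4) ≤ c.z1Ey - c.p4y) (u1 : c.z1Ey - c.p4y ≤ (-7 / 2))
    (l2 : (-9 / 4) ≤ c.z3Wy - c.p2y) (u2 : c.z3Wy - c.p2y ≤ (1 / 2)) (l3 : (-35 / 16) ≤ c.z3Sy - c.p4y) (u3 : c.z3Sy - c.p4y ≤ (-1 / 2))
    (l4 : 0 ≤ c.s1) (u4 : c.s1 ≤ 1) : False := by
  have : 0 ≤ -(1 / 100) + 40 * τ := by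
    linear_combination
      (7151 / 26880) * h.toLin.p2_p4 + (2603 / 5376) * h.toLin.p2_z3Wv
      + (781 / 672) * h.toLin.p2_eN1 + (527 / 1760) * h.toLin.p2_eW1 + (31 / 264) * h.toLin.p2_hW
      + (983 / 896) * h.toLin.p4_p1 + (143 / 256) * h.toLin.p4_p3 + (3343 / 1536) * h.toLin.p4_z1Ev
      + (12889 / 10752) * h.toLin.p4_z3Sv + (347 / 448) * h.toLin.p4_eS2
      + (341 / 240) * h.toLin.p4_hWv + (983 / 896) * h.toLin.p1_z1Nu + (143 / 256) * h.toLin.p3_z3Wu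
      + (521 / 672) * h.toLin.z1N_k2N + (781 / 2016) * h.toLin.z1N_eN1 + (31 / 16) * h.toLin.z1E_t2E
      + (31 / 4) * h.toLin.z3W_gWh + (521 / 448) * h.toLin.z3S_t2S + (347 / 448) * h.toLin.z3S_eS2
      + (347 / 224) * h.toLin.t2N_k2N + (347 / 224) * h.toLin.t2S_eS2
      + (781 / 168) * h.toLin.k2N_eN1 + (527 / 320) * h.toLin.k2W_eW1 + (31 / 20) * h.toLin.k2W_gWh
      + (527 / 4400) * h.toLin.eW1_hW + (899 / 530) * h.toLin.gW_hW + (1193 / 672) * h.toLin.wRz1N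
      + (3343 / 768) * h.toLin.wRz1E + (8987 / 2688) * h.toLin.wLz3W
      + (14971 / 5376) * h.toLin.wLz3S + (347 / 448) * h.toLin.wRt2N + (347 / 448) * h.toLin.wLt2S
      + (31 / 16) * h.toLin.wBt2S + (31 / 16) * h.toLin.wBt2E + (31 / 16) * h.toLin.wTk2N
      + (31 / 16) * h.toLin.wTk2W + (2995 / 1792) * h.c3 + (6585 / 1792) * e.2.1
      + (787 / 896) * (sub_nonneg.2 u3) + h.hG
      + (1 / 4) * mul_nonneg (sub_nonneg.2 l0) (sub_nonneg.2 u0)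
      + (1 / 4) * mul_nonneg (sub_nonneg.2 l1) (sub_nonneg.2 u1)
      + (1 / 4) * mul_nonneg (sub_nonneg.2 l2) (sub_nonneg.2 u2)
      + (1 / 4) * mul_nonneg (sub_nonneg.2 l3) (sub_nonneg.2 u3) + sq_nonneg (c.s1 - (1 / 2))
      + (66975851 / 117532800) * hτ
  linarith only [this, h0]

theorem lfP5 (h : Lin2 τ c) (e : CsP c) (hτ : 0 ≤ τ) (h0 : τ ≤ 1 / 10 ^ 7)
    (l0 : (-5 / 2) ≤ c.z1Ny - c.p2y) (u0 : c.z1Ny - c.p2y ≤ (-1 / 2)) (l1 : (-17 / 4) ≤ c.z1Ey - c.p4y) (u1 : c.z1Ey - c.p4y ≤ (-11 / 8))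
    (l2 : (-9 / 4) ≤ c.z3Wy - c.p2y) (u2 : c.z3Wy - c.p2y ≤ (1 / 2)) (l3 : (-1 / 2) ≤ c.z3Sy - c.p4y) (u3 : c.z3Sy - c.p4y ≤ (1 / 2))
    (l4 : 0 ≤ c.s1) (u4 : c.s1 ≤ 1) : False := by
  have : 0 ≤ -(1 / 10) + 39 * τ := by
    linear_combination
      (533 / 816) * h.toLin.p2_z1Nv + (9 / 8) * h.toLin.p2_k3Wv + (45 / 32) * h.toLin.p2_eN1
      + (1063 / 1632) * h.toLin.p2_eW1 + (4395 / 2176) * h.toLin.p4_p1
      + (1687 / 2176) * h.toLin.p4_p3 + (21239 / 13056) * h.toLin.p4_z1Ev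
      + (1733 / 13056) * h.toLin.p4_z3Sv + (45 / 16) * h.toLin.p4_eS2 + (1 / 68) * h.toLin.p4_hWv
      + (4395 / 2176) * h.toLin.p1_z1Nu + (1687 / 2176) * h.toLin.p3_z3Wu
      + (15 / 32) * h.toLin.z1N_eN1 + (45 / 32) * h.toLin.z1E_t2E + (4157 / 23664) * h.toLin.z3W_k2W
      + (1051 / 4896) * h.toLin.z3W_eW1 + (35 / 493) * h.toLin.z3W_gWh + (45 / 16) * h.toLin.t2N_k2N
      + (45 / 16) * h.toLin.t2S_eS2 + (45 / 8) * h.toLin.k2N_eN1 + (9 / 8) * h.toLin.k2W_k3W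
      + (2135 / 816) * h.toLin.k2W_eW1 + (7 / 493) * h.toLin.k2W_gWh + (45 / 8) * h.toLin.k3S_eS2
      + (1 / 340) * h.toLin.eW1_hW + (14 / 901) * h.toLin.gW_hW + (3001 / 816) * h.toLin.wRz1N
      + (21239 / 6528) * h.toLin.wRz1E + (3397 / 3264) * h.toLin.wLz3W
      + (1733 / 6528) * h.toLin.wLz3S + (45 / 32) * h.toLin.wRt2N + (45 / 32) * h.toLin.wLt2S
      + (45 / 32) * h.toLin.wBt2S + (45 / 32) * h.toLin.wBt2E + (45 / 32) * h.toLin.wTk2N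
      + (45 / 32) * h.toLin.wTk2W + (45 / 16) * h.toLin.wLk3W + (45 / 16) * h.toLin.wLk3S
      + (735 / 2176) * h.c3 + (217 / 136) * e.2.1 + (999 / 1088) * (sub_nonneg.2 u0) + h.hG
      + (1 / 4) * mul_nonneg (sub_nonneg.2 l0) (sub_nonneg.2 u0)
      + (1 / 4) * mul_nonneg (sub_nonneg.2 l1) (sub_nonneg.2 u1)
      + (1 / 4) * mul_nonneg (sub_nonneg.2 l2) (sub_nonneg.2 u2)
      + (1 / 4) * mul_nonneg (sub_nonneg.2 l3) (sub_nonneg.2 u3) + sq_nonneg (c.s1 - (1 / 4))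
      + (99969619 / 150503040) * hτ
  linarith only [this, h0]

theorem lfP7 (h : Lin2 τ c) (e : CsP c) (hτ : 0 ≤ τ) (h0 : τ ≤ 1 / 10 ^ 7)
    (l0 : (-1 / 2) ≤ c.z1Ny - c.p2y) (u0 : c.z1Ny - c.p2y ≤ (1 / 2)) (l1 : (-17 / 4) ≤ c.z1Ey - c.p4y) (u1 : c.z1Ey - c.p4y ≤ (-7 / 2))
    (l2 : (-1 / 2) ≤ c.z3Wy - c.p2y) (u2 : c.z3Wy - c.p2y ≤ (1 / 2)) (l3 : (-1 / 2) ≤ c.z3Sy - c.p4y) (u3 : c.z3Sy - c.p4y ≤ (1 / 2))
    (l4 : (1 / 2) ≤ c.s1) (u4 : c.s1 ≤ 1) : False := by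
  have : 0 ≤ -(1 / 10) + 32 * τ := by
    linear_combination
      (1483 / 2900) * h.toLin.p2_p4 + (31 / 145) * h.toLin.p2_p1 + (8693 / 7540) * h.toLin.p2_z3Wv
      + (1206 / 725) * h.toLin.p2_eN1 + (128 / 9425) * h.toLin.p2_hN + (2983 / 2900) * h.toLin.p4_p3
      + (1772919 / 603200) * h.toLin.p4_z1Ev + (779719 / 603200) * h.toLin.p4_z3Sv
      + (6 / 145) * h.toLin.p4_k3Sv + (744 / 725) * h.toLin.p4_eS1 + (909 / 1450) * h.toLin.p4_eS2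
      + (32 / 725) * h.toLin.p4_hNv + (93 / 725) * h.toLin.p1_z1Nu + (124 / 725) * h.toLin.p1_k4Ev
      + (917 / 23200) * h.toLin.p3_z3Wu + (909 / 2900) * h.toLin.p3_z3Su
      + (28866 / 94975) * h.toLin.p3_k2Wv + (64962 / 94975) * h.toLin.p3_gW
      + (164 / 725) * h.toLin.z1N_eN1 + (96 / 1885) * h.toLin.z1N_hNu
      + (601 / 725) * h.toLin.z1E_t2E + (124 / 725) * h.toLin.z1E_k4E
      + (1834 / 725) * h.toLin.z3W_gWh + (909 / 1450) * h.toLin.z3S_eS2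
      + (496 / 725) * h.toLin.t1N_eN1 + (248 / 725) * h.toLin.t1W_k3W
      + (744 / 725) * h.toLin.t1S_k4S + (1698 / 725) * h.toLin.t2N_k2N
      + (218 / 725) * h.toLin.t2N_eN1 + (6 / 145) * h.toLin.t2S_k3S + (744 / 725) * h.toLin.t2S_eS1
      + (909 / 725) * h.toLin.t2S_eS2 + (3396 / 725) * h.toLin.k2N_eN1
      + (54336 / 94975) * h.toLin.k2W_gWh + (256 / 725) * h.toLin.k3W_gWh
      + (1488 / 725) * h.toLin.k4S_eS1 + (3318 / 9425) * h.toLin.wRz1N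
      + (1798711 / 301600) * h.toLin.wRz1E + (27693 / 9425) * h.toLin.wLz3W
      + (968791 / 301600) * h.toLin.wLz3S + (372 / 725) * h.toLin.wRt1N
      + (124 / 725) * h.toLin.wTt1N + (124 / 725) * h.toLin.wTt1W + (372 / 725) * h.toLin.wLt1S
      + (81 / 58) * h.toLin.wRt2N + (109 / 1450) * h.toLin.wTt2N + (81 / 58) * h.toLin.wLt2S
      + (1311 / 1450) * h.toLin.wBt2S + (601 / 725) * h.toLin.wBt2E + (849 / 725) * h.toLin.wTk2N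
      + (849 / 725) * h.toLin.wTk2W + (12 / 145) * h.toLin.wLk3W + (12 / 145) * h.toLin.wLk3S
      + (372 / 725) * h.toLin.wBk4S + (372 / 725) * h.toLin.wBk4E + (8189 / 23200) * h.c3
      + (1745623 / 301600) * e.2.1 + (sub_nonneg.2 u1) + (49403 / 11600) * (sub_nonneg.2 l4)
      + (2691617 / 7901920) * hτ
  linarith only [this, h0]

theorem lfP9 (h : Lin2 τ c) (e : CsP c) (hτ : 0 ≤ τ) (h0 : τ ≤ 1 / 10 ^ 7)
    (l0 : (1 / 2) ≤ c.z1Ny - c.p2y) (u0 : c.z1Ny - c.p2y ≤ (5 / 2)) (l1 : (-17 / 4) ≤ c.z1Ey - c.p4y) (u1 : c.z1Ey - c.p4y ≤ (-11 / 8))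
    (l2 : (-9 / 4) ≤ c.z3Wy - c.p2y) (u2 : c.z3Wy - c.p2y ≤ (1 / 2)) (l3 : (-15 / 4) ≤ c.z3Sy - c.p4y) (u3 : c.z3Sy - c.p4y ≤ (-1 / 2))
    (l4 : 0 ≤ c.s1) (u4 : c.s1 ≤ 1) : False := by
  have : 0 ≤ -(1 / 10) + 23 * τ := by
    linear_combination
      (1117873 / 2676480) * h.toLin.p2_p4 + (7007 / 178432) * h.toLin.p2_z1Nu
      + (911 / 11152) * h.toLin.p2_eN1 + (911 / 72160) * h.toLin.p2_eW1
      + (4045 / 23001) * h.toLin.p2_hW + (86599 / 178432) * h.toLin.p4_p3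
      + (553711 / 356864) * h.toLin.p4_z1Ev + (120737 / 356864) * h.toLin.p4_z3Sv
      + (14295 / 44608) * h.toLin.p4_k3Sv + (911 / 11152) * h.toLin.p4_eS2
      + (210151 / 167280) * h.toLin.p4_hWv + (86599 / 178432) * h.toLin.p3_z3Wu
      + (29543 / 22304) * h.toLin.z1N_t1N + (911 / 33456) * h.toLin.z1N_eN1
      + (45 / 32) * h.toLin.z1E_t2E + (8535 / 2788) * h.toLin.z3W_gWh
      + (103877 / 89216) * h.toLin.z3S_t2S + (911 / 11152) * h.toLin.z3S_eS2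
      + (29543 / 11152) * h.toLin.t1W_k3W + (911 / 5576) * h.toLin.t2N_k2N
      + (14295 / 44608) * h.toLin.t2S_k3S + (911 / 5576) * h.toLin.t2S_eS2
      + (911 / 2788) * h.toLin.k2N_eN1 + (911 / 13120) * h.toLin.k2W_eW1
      + (911 / 13940) * h.toLin.k2W_gWh + (1906 / 697) * h.toLin.k3W_gWh
      + (911 / 180400) * h.toLin.eW1_hW + (598219 / 369410) * h.toLin.gW_hW
      + (8829 / 89216) * h.toLin.wRz1N + (553711 / 178432) * h.toLin.wRz1E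
      + (6707 / 5576) * h.toLin.wLz3W + (128025 / 178432) * h.toLin.wLz3S
      + (29543 / 22304) * h.toLin.wTt1N + (29543 / 22304) * h.toLin.wTt1W
      + (911 / 11152) * h.toLin.wRt2N + (911 / 11152) * h.toLin.wLt2S + (45 / 32) * h.toLin.wBt2S
      + (45 / 32) * h.toLin.wBt2E + (911 / 11152) * h.toLin.wTk2N + (911 / 11152) * h.toLin.wTk2W
      + (14295 / 22304) * h.toLin.wLk3W + (14295 / 22304) * h.toLin.wLk3S + (223577 / 178432) * h.c3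
      + (135765 / 44608) * e.2.1 + (26541 / 44608) * (sub_nonneg.2 l0)
      + (12729 / 89216) * (sub_nonneg.2 u3) + h.hG
      + (1 / 4) * mul_nonneg (sub_nonneg.2 l0) (sub_nonneg.2 u0)
      + (1 / 4) * mul_nonneg (sub_nonneg.2 l1) (sub_nonneg.2 u1)
      + (1 / 4) * mul_nonneg (sub_nonneg.2 l2) (sub_nonneg.2 u2)
      + (1 / 4) * mul_nonneg (sub_nonneg.2 l3) (sub_nonneg.2 u3) + sq_nonneg (c.s1 - (1 / 2))
      + (2485365097 / 7801939200) * hτ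
  linarith only [this, h0]

theorem lfP11 (h : Lin2 τ c) (e : CsP c) (hτ : 0 ≤ τ) (h0 : τ ≤ 1 / 10 ^ 7)
    (l0 : (1 / 2) ≤ c.z1Ny - c.p2y) (u0 : c.z1Ny - c.p2y ≤ (5 / 2)) (l1 : (-7 / 2) ≤ c.z1Ey - c.p4y) (u1 : c.z1Ey - c.p4y ≤ (-11 / 8))
    (l2 : (-9 / 4) ≤ c.z3Wy - c.p2y) (u2 : c.z3Wy - c.p2y ≤ (1 / 2)) (l3 : (-1 / 2) ≤ c.z3Sy - c.p4y) (u3 : c.z3Sy - c.p4y ≤ (1 / 2))
    (l4 : 0 ≤ c.s1) (u4 : c.s1 ≤ 1) : False := by
  have : 0 ≤ -(1 / 10) + 14 * τ := by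
    linear_combination
      (228199 / 420576) * h.toLin.p2_p4 + (25749 / 17524) * h.toLin.p2_z1Nu
      + (39211 / 26286) * h.toLin.p2_k3Wv + (470 / 13143) * h.toLin.p2_eN1
      + (95039 / 210288) * h.toLin.p4_p3 + (487099 / 280384) * h.toLin.p4_z1Ev
      + (85 / 280384) * h.toLin.p4_z3Sv + (38959 / 26286) * h.toLin.p4_k3Sv
      + (2023 / 52572) * h.toLin.p4_eS2 + (184019 / 420576) * h.toLin.p3_z3Wu
      + (188 / 13143) * h.toLin.p3_k2Wv + (193 / 17524) * h.toLin.p3_eS2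
      + (10 / 4381) * h.toLin.p3_gW + (38959 / 52572) * h.toLin.z1N_t1N
      + (470 / 39429) * h.toLin.z1N_eN1 + (13613 / 17524) * h.toLin.z1E_t2E
      + (34 / 13143) * h.toLin.z3W_gWh + (38959 / 26286) * h.toLin.t1W_k3W
      + (940 / 13143) * h.toLin.t2N_k2N + (38959 / 26286) * h.toLin.t2S_k3S
      + (940 / 13143) * h.toLin.t2S_eS2 + (1880 / 13143) * h.toLin.k2N_eN1
      + (188 / 13143) * h.toLin.k2W_k3W + (64 / 13143) * h.toLin.k3W_gWh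
      + (722 / 13143) * h.toLin.k3S_eS2 + (38741 / 13143) * h.toLin.wRz1N
      + (487099 / 140192) * h.toLin.wRz1E + (92137 / 210288) * h.toLin.wLz3W
      + (85 / 140192) * h.toLin.wLz3S + (38959 / 52572) * h.toLin.wTt1N
      + (38959 / 52572) * h.toLin.wTt1W + (470 / 13143) * h.toLin.wRt2N
      + (470 / 13143) * h.toLin.wLt2S + (13613 / 17524) * h.toLin.wBt2S
      + (13613 / 17524) * h.toLin.wBt2E + (470 / 13143) * h.toLin.wTk2N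
      + (470 / 13143) * h.toLin.wTk2W + (39320 / 13143) * h.toLin.wLk3W
      + (39320 / 13143) * h.toLin.wLk3S + (17 / 420576) * h.c3 + (839561 / 420576) * e.2.1
      + (61955 / 140192) * (sub_nonneg.2 l1) + h.hG
      + (1 / 4) * mul_nonneg (sub_nonneg.2 l0) (sub_nonneg.2 u0)
      + (1 / 4) * mul_nonneg (sub_nonneg.2 l1) (sub_nonneg.2 u1)
      + (1 / 4) * mul_nonneg (sub_nonneg.2 l2) (sub_nonneg.2 u2)
      + (1 / 4) * mul_nonneg (sub_nonneg.2 l3) (sub_nonneg.2 u3) + sq_nonneg (c.s1 - (1 / 2))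
      + (540629 / 1261728) * hτ
  linarith only [this, h0]

theorem lfP13 (h : Lin2 τ c) (e : CsP c) (hτ : 0 ≤ τ) (h0 : τ ≤ 1 / 10 ^ 7)
    (l0 : (-5 / 2) ≤ c.z1Ny - c.p2y) (u0 : c.z1Ny - c.p2y ≤ (-5 / 8)) (l1 : (-13 / 8) ≤ c.z1Ey - c.p4y) (u1 : c.z1Ey - c.p4y ≤ (-11 / 8))
    (l2 : (1 / 2) ≤ c.z3Wy - c.p2y) (u2 : c.z3Wy - c.p2y ≤ (13 / 8)) (l3 : (-15 / 4) ≤ c.z3Sy - c.p4y) (u3 : c.z3Sy - c.p4y ≤ (-27 / 8))
    (l4 : 0 ≤ c.s1) (u4 : c.s1 ≤ 1) : False := by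
  have : 0 ≤ -1 + 18388 * τ := by
    linear_combination
      (37318 / 33) * h.toLin.p2_z3Wv + (9360 / 11) * h.toLin.p2_k1Nv
      + (85532 / 165) * h.toLin.p2_eN1 + (3876 / 55) * h.toLin.p2_eW1
      + (5436223 / 5610) * h.toLin.p4_p1 + (93809 / 220) * h.toLin.p4_z1Ev
      + (797957 / 660) * h.toLin.p4_z3Sv + (9360 / 11) * h.toLin.p4_k1Ev
      + (29826 / 55) * h.toLin.p4_eS2 + (291384 / 935) * h.toLin.p4_hWv
      + (328019 / 330) * h.toLin.p1_z1Nu + (320 / 11) * h.toLin.p1_gE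
      + (4560 / 187) * h.toLin.p1_hWv + (64948 / 495) * h.toLin.z1N_eN1 + 64 * h.toLin.z1E_gEh
      + 1824 * h.toLin.z3W_gWh + (61108 / 165) * h.toLin.z3S_t2S + (29826 / 55) * h.toLin.z3S_eS2
      + (9360 / 11) * h.toLin.t2N_k1N + 912 * h.toLin.t2N_k2N + (20584 / 165) * h.toLin.t2N_eN1
      + (59652 / 55) * h.toLin.t2S_eS2 + (9360 / 11) * h.toLin.t2E_k1E
      + (1024 / 33) * h.toLin.t2E_gEh + 1824 * h.toLin.k2N_eN1 + (1938 / 5) * h.toLin.k2W_eW1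
      + (1824 / 5) * h.toLin.k2W_gWh + (7752 / 275) * h.toLin.eW1_hW
      + (105792 / 265) * h.toLin.gW_hW + (360493 / 330) * h.toLin.wRz1N
      + (95459 / 110) * h.toLin.wRz1E + (177487 / 66) * h.toLin.wLz3W
      + (177487 / 66) * h.toLin.wLz3S + (30226 / 55) * h.toLin.wRt2N + (75346 / 165) * h.toLin.wTt2N
      + (29826 / 55) * h.toLin.wLt2S + (150586 / 165) * h.toLin.wBt2S + (80 / 11) * h.toLin.wRt2E
      + 456 * h.toLin.wBt2E + (18720 / 11) * h.toLin.wRk1N + (18720 / 11) * h.toLin.wRk1E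
      + 456 * h.toLin.wTk2N + 456 * h.toLin.wTk2W + (221099 / 330) * h.c3 + (253903 / 330) * e.2.1
      + (sub_nonneg.2 u1) + (57 / 2) * (sub_nonneg.2 l2) + (105847 / 165) * (sub_nonneg.2 u3)
      + (19703 / 22) * (sub_nonneg.2 u0) + (3536309 / 4459950) * hτ
  linarith only [this, h0]

theorem lfP15 (h : Lin2 τ c) (e : CsP c) (hτ : 0 ≤ τ) (h0 : τ ≤ 1 / 10 ^ 7)
    (l0 : (-5 / 8) ≤ c.z1Ny - c.p2y) (u0 : c.z1Ny - c.p2y ≤ (-3 / 8)) (l1 : (-13 / 8) ≤ c.z1Ey - c.p4y) (u1 : c.z1Ey - c.p4y ≤ (-11 / 8))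
    (l2 : (11 / 8) ≤ c.z3Wy - c.p2y) (u2 : c.z3Wy - c.p2y ≤ (13 / 8)) (l3 : (-15 / 4) ≤ c.z3Sy - c.p4y) (u3 : c.z3Sy - c.p4y ≤ (-27 / 8))
    (l4 : 0 ≤ c.s1) (u4 : c.s1 ≤ (3 / 8)) : False := by
  have : 0 ≤ -(1 / 10) + 8 * τ := by
    linear_combination
      (1 / 3) * h.toLin.p2_z1Nu + (1 / 3) * h.toLin.p2_z3Wv + h.toLin.p4_p1
      + (1 / 6) * h.toLin.p4_z1Ev + (2 / 3) * h.toLin.p4_z3Su + h.toLin.p1_z1Nu + h.toLin.z1N_t1N
      + h.toLin.z3S_t1S + (5 / 3) * h.toLin.wRz1N + (1 / 3) * h.toLin.wRz1E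
      + (2 / 3) * h.toLin.wLz3W + (4 / 3) * h.toLin.wLz3S + h.toLin.wTt1N + h.toLin.wBt1S
      + (5 / 3) * h.c3 + (sub_nonneg.2 u3) + 3 * (sub_nonneg.2 u4) + (5 / 6) * hτ
  linarith only [this, h0]

theorem lfP17 (h : Lin2 τ c) (e : CsP c) (hτ : 0 ≤ τ) (h0 : τ ≤ 1 / 10 ^ 7)
    (l0 : (-5 / 8) ≤ c.z1Ny - c.p2y) (u0 : c.z1Ny - c.p2y ≤ (-3 / 8)) (l1 : (-13 / 8) ≤ c.z1Ey - c.p4y) (u1 : c.z1Ey - c.p4y ≤ (-11 / 8))
    (l2 : (11 / 8) ≤ c.z3Wy - c.p2y) (u2 : c.z3Wy - c.p2y ≤ (13 / 8)) (l3 : (-15 / 4) ≤ c.z3Sy - c.p4y) (u3 : c.z3Sy - c.p4y ≤ (-27 / 8))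
    (l4 : (5 / 8) ≤ c.s1) (u4 : c.s1 ≤ 1) : False := by
  have : 0 ≤ -1 + 866 * τ := by
    linear_combination
      (26 / 55) * h.toLin.p2_p4 + (285 / 11) * h.toLin.p2_p1 + (621 / 22) * h.toLin.p2_z3Wv
      + (336 / 11) * h.toLin.p2_eN1 + (2856 / 605) * h.toLin.p2_eW1 + (224 / 121) * h.toLin.p2_hW
      + 4 * h.toLin.p4_p1 + (1379 / 22) * h.toLin.p4_z1Ev + (404 / 11) * h.toLin.p4_z3Sv
      + (256 / 11) * h.toLin.p4_eS2 + (112 / 5) * h.toLin.p4_hWv + (84 / 11) * h.toLin.p1_z1Nu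
      + (320 / 11) * h.toLin.p1_gE + (112 / 11) * h.toLin.z1N_eN1 + 64 * h.toLin.z1E_gEh
      + (1344 / 11) * h.toLin.z3W_gWh + (80 / 11) * h.toLin.z3S_t2S + (256 / 11) * h.toLin.z3S_eS2
      + (672 / 11) * h.toLin.t2N_k2N + (512 / 11) * h.toLin.t2S_eS2 + (1024 / 33) * h.toLin.t2E_gEh
      + (1344 / 11) * h.toLin.k2N_eN1 + (1428 / 55) * h.toLin.k2W_eW1
      + (1344 / 55) * h.toLin.k2W_gWh + (5712 / 3025) * h.toLin.eW1_hW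
      + (77952 / 2915) * h.toLin.gW_hW + (168 / 11) * h.toLin.wRz1N + (1544 / 11) * h.toLin.wRz1E
      + (936 / 11) * h.toLin.wLz3W + (936 / 11) * h.toLin.wLz3S + (336 / 11) * h.toLin.wRt2N
      + (256 / 11) * h.toLin.wLt2S + (336 / 11) * h.toLin.wBt2S + (80 / 11) * h.toLin.wRt2E
      + (336 / 11) * h.toLin.wBt2E + (336 / 11) * h.toLin.wTk2N + (336 / 11) * h.toLin.wTk2W
      + (229 / 11) * h.c3 + (1460 / 11) * e.2.1 + (sub_nonneg.2 u1) + (208 / 11) * (sub_nonneg.2 u3)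
      + (21 / 11) * (sub_nonneg.2 l2) + (1136 / 11) * (sub_nonneg.2 l4) + (413042 / 480975) * hτ
  linarith only [this, h0]

theorem lfP19 (h : Lin2 τ c) (e : CsP c) (hτ : 0 ≤ τ) (h0 : τ ≤ 1 / 10 ^ 7)
    (l0 : (-5 / 2) ≤ c.z1Ny - c.p2y) (u0 : c.z1Ny - c.p2y ≤ (-3 / 8)) (l1 : (-17 / 4) ≤ c.z1Ey - c.p4y) (u1 : c.z1Ey - c.p4y ≤ (-13 / 8))
    (l2 : (1 / 2) ≤ c.z3Wy - c.p2y) (u2 : c.z3Wy - c.p2y ≤ (13 / 8)) (l3 : (-27 / 8) ≤ c.z3Sy - c.p4y) (u3 : c.z3Sy - c.p4y ≤ (-2))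
    (l4 : 0 ≤ c.s1) (u4 : c.s1 ≤ 1) : False := by
  have : 0 ≤ -(1 / 10) + 46 * τ := by
    linear_combination
      (6943 / 12000) * h.toLin.p2_p4 + (81 / 100) * h.toLin.p2_z3Wv + (41 / 25) * h.toLin.p2_eN1
      + (731 / 2750) * h.toLin.p2_eW1 + (86 / 825) * h.toLin.p2_hW + (653 / 400) * h.toLin.p4_p1
      + (1753 / 800) * h.toLin.p4_z1Ev + (973 / 800) * h.toLin.p4_z3Sv + (8 / 5) * h.toLin.p4_eS2
      + (473 / 375) * h.toLin.p4_hWv + (653 / 400) * h.toLin.p1_z1Nu + (339 / 800) * h.toLin.z1N_t1N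
      + (2 / 25) * h.toLin.z1N_k2N + (41 / 75) * h.toLin.z1N_eN1 + (343 / 160) * h.toLin.z1E_t2E
      + (339 / 800) * h.toLin.z3W_t1W + (172 / 25) * h.toLin.z3W_gWh + (87 / 160) * h.toLin.z3S_t2S
      + (8 / 5) * h.toLin.z3S_eS2 + (16 / 5) * h.toLin.t2N_k2N + (16 / 5) * h.toLin.t2S_eS2
      + (164 / 25) * h.toLin.k2N_eN1 + (731 / 500) * h.toLin.k2W_eW1 + (172 / 125) * h.toLin.k2W_gWh
      + (731 / 6875) * h.toLin.eW1_hW + (9976 / 6625) * h.toLin.gW_hW + (833 / 400) * h.toLin.wRz1N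
      + (1753 / 400) * h.toLin.wRz1E + (1293 / 400) * h.toLin.wLz3W + (1293 / 400) * h.toLin.wLz3S
      + (339 / 800) * h.toLin.wTt1N + (339 / 800) * h.toLin.wTt1W + (8 / 5) * h.toLin.wRt2N
      + (8 / 5) * h.toLin.wLt2S + (343 / 160) * h.toLin.wBt2S + (343 / 160) * h.toLin.wBt2E
      + (43 / 25) * h.toLin.wTk2N + (43 / 25) * h.toLin.wTk2W + (15 / 8) * h.c3
      + (1573 / 400) * e.2.1 + (27 / 40) * (sub_nonneg.2 u1) + h.hG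
      + (1 / 4) * mul_nonneg (sub_nonneg.2 l0) (sub_nonneg.2 u0)
      + (1 / 4) * mul_nonneg (sub_nonneg.2 l1) (sub_nonneg.2 u1)
      + (1 / 4) * mul_nonneg (sub_nonneg.2 l2) (sub_nonneg.2 u2)
      + (1 / 4) * mul_nonneg (sub_nonneg.2 l3) (sub_nonneg.2 u3) + sq_nonneg (c.s1 - (1 / 2))
      + (4922297 / 34980000) * hτ
  linarith only [this, h0]

theorem lfP21 (h : Lin2 τ c) (e : CsP c) (hτ : 0 ≤ τ) (h0 : τ ≤ 1 / 10 ^ 7)
    (l0 : (-5 / 2) ≤ c.z1Ny - c.p2y) (u0 : c.z1Ny - c.p2y ≤ (-3 / 8)) (l1 : (-17 / 4) ≤ c.z1Ey - c.p4y) (u1 : c.z1Ey - c.p4y ≤ (-11 / 8))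
    (l2 : (13 / 8) ≤ c.z3Wy - c.p2y) (u2 : c.z3Wy - c.p2y ≤ (7 / 2)) (l3 : (-27 / 8) ≤ c.z3Sy - c.p4y) (u3 : c.z3Sy - c.p4y ≤ (-2))
    (l4 : 0 ≤ c.s1) (u4 : c.s1 ≤ 1) : False := by
  have : 0 ≤ -(1 / 100) + 51 * τ := by
    linear_combination
      (33149 / 27040) * h.toLin.p2_p4 + (11343 / 13520) * h.toLin.p2_p1
      + (117257 / 81120) * h.toLin.p2_z3Wv + (796 / 5915) * h.toLin.p2_k1Nv
      + (24911 / 11830) * h.toLin.p2_eN1 + (53 / 78) * h.toLin.p2_eW1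
      + (17811 / 13520) * h.toLin.p4_p1 + (30159 / 13520) * h.toLin.p4_z1Ev
      + (36789 / 27040) * h.toLin.p4_z3Sv + (53 / 26) * h.toLin.p4_eS2
      + (19403 / 13520) * h.toLin.p1_z1Nu + (796 / 845) * h.toLin.p1_gE
      + (135 / 416) * h.toLin.z1N_t1N + (883 / 1690) * h.toLin.z1N_eN1
      + (563609 / 405600) * h.toLin.z1E_t2E + (13532 / 12675) * h.toLin.z1E_gEh
      + (135 / 416) * h.toLin.z3W_t1W + (53 / 39) * h.toLin.z3W_k2W + (53 / 234) * h.toLin.z3W_eW1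
      + (135 / 416) * h.toLin.z3S_t2S + (53 / 26) * h.toLin.z3S_eS2 + (53 / 13) * h.toLin.t2N_k2N
      + (53 / 13) * h.toLin.t2S_eS2 + (24676 / 12675) * h.toLin.t2E_k1E
      + (1592 / 5915) * h.toLin.k1N_eN1 + (25472 / 12675) * h.toLin.k1E_gEh
      + (106 / 13) * h.toLin.k2N_eN1 + (106 / 39) * h.toLin.k2W_eW1
      + (24701 / 13520) * h.toLin.wRz1N + (63701 / 13520) * h.toLin.wRz1E
      + (50569 / 13520) * h.toLin.wLz3W + (50569 / 13520) * h.toLin.wLz3S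
      + (135 / 416) * h.toLin.wTt1N + (135 / 416) * h.toLin.wTt1W + (53 / 26) * h.toLin.wRt2N
      + (53 / 26) * h.toLin.wLt2S + (983 / 416) * h.toLin.wBt2S + (983 / 416) * h.toLin.wBt2E
      + (398 / 845) * h.toLin.wRk1N + (398 / 845) * h.toLin.wRk1E + (53 / 26) * h.toLin.wTk2N
      + (53 / 26) * h.toLin.wTk2W + (665 / 208) * h.c3 + (58403 / 13520) * e.2.1
      + (119 / 208) * (sub_nonneg.2 l2) + h.hG
      + (1 / 4) * mul_nonneg (sub_nonneg.2 l0) (sub_nonneg.2 u0)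
      + (1 / 4) * mul_nonneg (sub_nonneg.2 l1) (sub_nonneg.2 u1)
      + (1 / 4) * mul_nonneg (sub_nonneg.2 l2) (sub_nonneg.2 u2)
      + (1 / 4) * mul_nonneg (sub_nonneg.2 l3) (sub_nonneg.2 u3) + sq_nonneg (c.s1 - (1 / 2))
      + (267793 / 1216800) * hτ
  linarith only [this, h0]

theorem lfP23 (h : Lin2 τ c) (e : CsP c) (hτ : 0 ≤ τ) (h0 : τ ≤ 1 / 10 ^ 7)
    (l0 : (-5 / 2) ≤ c.z1Ny - c.p2y) (u0 : c.z1Ny - c.p2y ≤ (-3 / 8)) (l1 : (-13 / 4) ≤ c.z1Ey - c.p4y) (u1 : c.z1Ey - c.p4y ≤ (-11 / 8))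
    (l2 : (1 / 2) ≤ c.z3Wy - c.p2y) (u2 : c.z3Wy - c.p2y ≤ (13 / 8)) (l3 : (-2) ≤ c.z3Sy - c.p4y) (u3 : c.z3Sy - c.p4y ≤ (1 / 2))
    (l4 : 0 ≤ c.s1) (u4 : c.s1 ≤ 1) : False := by
  have : 0 ≤ -(1 / 10) + 19 * τ := by
    linear_combination
      (777889 / 2662320) * h.toLin.p2_p4 + (765 / 88744) * h.toLin.p2_p1
      + (1143187 / 3194784) * h.toLin.p2_z3Wv + (35637 / 44372) * h.toLin.p2_eN1
      + (118562 / 499185) * h.toLin.p2_eW1 + (319861 / 354976) * h.toLin.p4_p1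
      + (313017 / 709952) * h.toLin.p4_z1Ev + (247625 / 709952) * h.toLin.p4_z3Sv
      + (1179 / 22186) * h.toLin.p4_eS1 + (3 / 4) * h.toLin.p4_eS2 + (1044 / 11093) * h.toLin.p4_gE
      + (21311 / 332790) * h.toLin.p4_hWv + (29 / 32) * h.toLin.p1_z1Nu
      + (153 / 22186) * h.toLin.p1_k4Ev + (1 / 4) * h.toLin.z1N_eN1
      + (8418 / 11093) * h.toLin.z1E_t2E + (8028 / 11093) * h.toLin.z1E_gEh
      + (393 / 44372) * h.toLin.z3W_t1W + (1349746 / 2895273) * h.toLin.z3W_k2W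
      + (82063 / 1198044) * h.toLin.z3W_eW1 + (298354 / 965091) * h.toLin.z3W_gWh
      + (3 / 4) * h.toLin.z3S_eS2 + (393 / 11093) * h.toLin.t1N_eN1
      + (1179 / 22186) * h.toLin.t1S_k4S + (17229 / 11093) * h.toLin.t2N_k2N
      + (393 / 22186) * h.toLin.t2N_eN1 + (1179 / 22186) * h.toLin.t2S_eS1
      + (3 / 2) * h.toLin.t2S_eS2 + (34458 / 11093) * h.toLin.k2N_eN1
      + (3985783 / 3993480) * h.toLin.k2W_eW1 + (298354 / 4825455) * h.toLin.k2W_gWh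
      + (1179 / 11093) * h.toLin.k4S_eS1 + (144 / 11093) * h.toLin.k4E_gEh
      + (21311 / 1663950) * h.toLin.eW1_hW + (596708 / 8818935) * h.toLin.gW_hW
      + (35 / 32) * h.toLin.wRz1N + (373227 / 354976) * h.toLin.wRz1E
      + (380741 / 354976) * h.toLin.wLz3W + (380741 / 354976) * h.toLin.wLz3S
      + (1179 / 44372) * h.toLin.wRt1N + (393 / 44372) * h.toLin.wTt1N
      + (393 / 44372) * h.toLin.wTt1W + (1179 / 44372) * h.toLin.wLt1S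
      + (70095 / 88744) * h.toLin.wRt2N + (393 / 88744) * h.toLin.wTt2N
      + (70095 / 88744) * h.toLin.wLt2S + (67737 / 88744) * h.toLin.wBt2S
      + (8418 / 11093) * h.toLin.wBt2E + (17229 / 22186) * h.toLin.wTk2N
      + (17229 / 22186) * h.toLin.wTk2W + (1179 / 44372) * h.toLin.wBk4S
      + (1179 / 44372) * h.toLin.wBk4E + (29 / 32) * h.c3 + (306669 / 354976) * e.2.1
      + (137051 / 354976) * (sub_nonneg.2 l1) + h.hG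
      + (1 / 4) * mul_nonneg (sub_nonneg.2 l0) (sub_nonneg.2 u0)
      + (1 / 4) * mul_nonneg (sub_nonneg.2 l1) (sub_nonneg.2 u1)
      + (1 / 4) * mul_nonneg (sub_nonneg.2 l2) (sub_nonneg.2 u2)
      + (1 / 4) * mul_nonneg (sub_nonneg.2 l3) (sub_nonneg.2 u3) + sq_nonneg (c.s1 - (1 / 2))
      + (337168222717 / 368278725600) * hτ
  linarith only [this, h0]

theorem lfP25 (h : Lin2 τ c) (e : CsP c) (hτ : 0 ≤ τ) (h0 : τ ≤ 1 / 10 ^ 7)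
    (l0 : (-3 / 8) ≤ c.z1Ny - c.p2y) (u0 : c.z1Ny - c.p2y ≤ (7 / 8)) (l1 : (-17 / 4) ≤ c.z1Ey - c.p4y) (u1 : c.z1Ey - c.p4y ≤ (-3))
    (l2 : (1 / 2) ≤ c.z3Wy - c.p2y) (u2 : c.z3Wy - c.p2y ≤ (7 / 2)) (l3 : (-15 / 4) ≤ c.z3Sy - c.p4y) (u3 : c.z3Sy - c.p4y ≤ (-1 / 2))
    (l4 : 0 ≤ c.s1) (u4 : c.s1 ≤ 1) : False := by
  have : 0 ≤ -(1 / 10) + 38 * τ := by
    linear_combination
      (6601 / 4800) * h.toLin.p2_p4 + (1087 / 1440) * h.toLin.p2_z3Wv + (27 / 16) * h.toLin.p2_eN1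
      + (1727 / 3600) * h.toLin.p2_eW1 + (151 / 320) * h.toLin.p4_p1 + (129 / 64) * h.toLin.p4_z1Ev
      + (273 / 320) * h.toLin.p4_z3Sv + (8 / 5) * h.toLin.p4_eS2 + (127 / 300) * h.toLin.p4_hWv
      + (151 / 320) * h.toLin.p1_z1Nu + (7 / 40) * h.toLin.z1N_k2N + (9 / 16) * h.toLin.z1N_eN1
      + (149 / 80) * h.toLin.z1E_t2E + (9407 / 10440) * h.toLin.z3W_k2W
      + (193 / 2160) * h.toLin.z3W_eW1 + (889 / 435) * h.toLin.z3W_gWh + (21 / 80) * h.toLin.z3S_t2S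
      + (8 / 5) * h.toLin.z3S_eS2 + (16 / 5) * h.toLin.t2N_k2N + (16 / 5) * h.toLin.t2S_eS2
      + (27 / 4) * h.toLin.k2N_eN1 + (8051 / 3600) * h.toLin.k2W_eW1
      + (889 / 2175) * h.toLin.k2W_gWh + (127 / 1500) * h.toLin.eW1_hW
      + (1778 / 3975) * h.toLin.gW_hW + (157 / 160) * h.toLin.wRz1N + (129 / 32) * h.toLin.wRz1E
      + (401 / 160) * h.toLin.wLz3W + (401 / 160) * h.toLin.wLz3S + (8 / 5) * h.toLin.wRt2N
      + (8 / 5) * h.toLin.wLt2S + (149 / 80) * h.toLin.wBt2S + (149 / 80) * h.toLin.wBt2E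
      + (149 / 80) * h.toLin.wTk2N + (149 / 80) * h.toLin.wTk2W + (33 / 16) * h.c3
      + (1127 / 320) * e.2.1 + (1 / 20) * (sub_nonneg.2 u1) + h.hG
      + (1 / 4) * mul_nonneg (sub_nonneg.2 l0) (sub_nonneg.2 u0)
      + (1 / 4) * mul_nonneg (sub_nonneg.2 l1) (sub_nonneg.2 u1)
      + (1 / 4) * mul_nonneg (sub_nonneg.2 l2) (sub_nonneg.2 u2)
      + (1 / 4) * mul_nonneg (sub_nonneg.2 l3) (sub_nonneg.2 u3) + sq_nonneg (c.s1 - (1 / 2))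
      + (325586069 / 331992000) * hτ
  linarith only [this, h0]

theorem lfP27 (h : Lin2 τ c) (e : CsP c) (hτ : 0 ≤ τ) (h0 : τ ≤ 1 / 10 ^ 7)
    (l0 : (-3 / 8) ≤ c.z1Ny - c.p2y) (u0 : c.z1Ny - c.p2y ≤ (7 / 8)) (l1 : (-17 / 4) ≤ c.z1Ey - c.p4y) (u1 : c.z1Ey - c.p4y ≤ (-3))
    (l2 : (25 / 16) ≤ c.z3Wy - c.p2y) (u2 : c.z3Wy - c.p2y ≤ (7 / 2)) (l3 : (-1 / 2) ≤ c.z3Sy - c.p4y) (u3 : c.z3Sy - c.p4y ≤ (1 / 2))
    (l4 : 0 ≤ c.s1) (u4 : c.s1 ≤ 1) : False := by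
  have : 0 ≤ -(1 / 10) + 44 * τ := by
    linear_combination
      (322919 / 219872) * h.toLin.p2_p4 + (3315 / 54968) * h.toLin.p2_p1
      + (91875 / 109936) * h.toLin.p2_p3 + (110455 / 219872) * h.toLin.p2_z3Wv
      + (112311 / 54968) * h.toLin.p2_eN1 + (34031 / 54968) * h.toLin.p2_eW1
      + (605139 / 439744) * h.toLin.p4_z1Ev + (207315 / 439744) * h.toLin.p4_z3Sv
      + (5109 / 13742) * h.toLin.p4_eS1 + (91875 / 54968) * h.toLin.p4_eS2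
      + (4524 / 6871) * h.toLin.p4_gE + (1989 / 54968) * h.toLin.p1_z1Nu
      + (663 / 13742) * h.toLin.p1_k4Ev + (91875 / 109936) * h.toLin.p3_z3Su
      + (30625 / 54968) * h.toLin.z1N_eN1 + (95281 / 54968) * h.toLin.z1E_t2E
      + (34788 / 6871) * h.toLin.z1E_gEh + (1703 / 27484) * h.toLin.z3W_t1W
      + (34031 / 27484) * h.toLin.z3W_k2W + (34031 / 164904) * h.toLin.z3W_eW1
      + (91875 / 54968) * h.toLin.z3S_eS2 + (5109 / 13742) * h.toLin.t1N_eN1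
      + (5109 / 13742) * h.toLin.t1S_k4S + (1703 / 13742) * h.toLin.t1S_eS1
      + (102093 / 27484) * h.toLin.t2N_k2N + (1703 / 6871) * h.toLin.t2S_eS1
      + (91875 / 27484) * h.toLin.t2S_eS2 + (102093 / 13742) * h.toLin.k2N_eN1
      + (34031 / 13742) * h.toLin.k2W_eW1 + (5109 / 6871) * h.toLin.k4S_eS1
      + (624 / 6871) * h.toLin.k4E_gEh + (99831 / 219872) * h.toLin.wRz1N
      + (866049 / 219872) * h.toLin.wRz1E + (391065 / 219872) * h.toLin.wLz3W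
      + (574815 / 219872) * h.toLin.wLz3S + (15327 / 54968) * h.toLin.wRt1N
      + (5109 / 54968) * h.toLin.wTt1N + (1703 / 27484) * h.toLin.wTt1W
      + (15327 / 54968) * h.toLin.wLt1S + (1703 / 54968) * h.toLin.wBt1S
      + (102093 / 54968) * h.toLin.wRt2N + (102093 / 54968) * h.toLin.wLt2S
      + (95281 / 54968) * h.toLin.wBt2S + (95281 / 54968) * h.toLin.wBt2E
      + (102093 / 54968) * h.toLin.wTk2N + (102093 / 54968) * h.toLin.wTk2W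
      + (5109 / 27484) * h.toLin.wBk4S + (5109 / 27484) * h.toLin.wBk4E + (503653 / 219872) * h.c3
      + (387087 / 109936) * e.2.1 + (56435 / 219872) * (sub_nonneg.2 l0)
      + (83255 / 439744) * (sub_nonneg.2 l2) + h.hG
      + (1 / 4) * mul_nonneg (sub_nonneg.2 l0) (sub_nonneg.2 u0)
      + (1 / 4) * mul_nonneg (sub_nonneg.2 l1) (sub_nonneg.2 u1)
      + (1 / 4) * mul_nonneg (sub_nonneg.2 l2) (sub_nonneg.2 u2)
      + (1 / 4) * mul_nonneg (sub_nonneg.2 l3) (sub_nonneg.2 u3) + sq_nonneg (c.s1 - (1 / 2))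
      + (87803 / 329808) * hτ
  linarith only [this, h0]

theorem lfP29 (h : Lin2 τ c) (e : CsP c) (hτ : 0 ≤ τ) (h0 : τ ≤ 1 / 10 ^ 7)
    (l0 : (7 / 8) ≤ c.z1Ny - c.p2y) (u0 : c.z1Ny - c.p2y ≤ (5 / 2)) (l1 : (-17 / 4) ≤ c.z1Ey - c.p4y) (u1 : c.z1Ey - c.p4y ≤ (-3))
    (l2 : (25 / 16) ≤ c.z3Wy - c.p2y) (u2 : c.z3Wy - c.p2y ≤ (7 / 2)) (l3 : (-15 / 4) ≤ c.z3Sy - c.p4y) (u3 : c.z3Sy - c.p4y ≤ (1 / 2))
    (l4 : 0 ≤ c.s1) (u4 : c.s1 ≤ 1) : False := by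
  have : 0 ≤ -(1 / 10) + 44 * τ := by
    linear_combination
      (1889 / 864) * h.toLin.p2_p4 + (2405 / 2592) * h.toLin.p2_z3Wv + (53 / 24) * h.toLin.p2_eN1
      + (469 / 648) * h.toLin.p2_eW1 + (1451 / 576) * h.toLin.p4_z1Ev
      + (487 / 576) * h.toLin.p4_z3Sv + (53 / 24) * h.toLin.p4_eS2 + (1 / 27) * h.toLin.p4_hWv
      + (53 / 72) * h.toLin.z1N_eN1 + (53 / 24) * h.toLin.z1E_t2E + (13553 / 9396) * h.toLin.z3W_k2W
      + (457 / 1944) * h.toLin.z3W_eW1 + (140 / 783) * h.toLin.z3W_gWh + (53 / 24) * h.toLin.z3S_eS2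
      + (53 / 12) * h.toLin.t2N_k2N + (53 / 12) * h.toLin.t2S_eS2 + (53 / 6) * h.toLin.k2N_eN1
      + (947 / 324) * h.toLin.k2W_eW1 + (28 / 783) * h.toLin.k2W_gWh + (1 / 135) * h.toLin.eW1_hW
      + (56 / 1431) * h.toLin.gW_hW + (53 / 96) * h.toLin.wRz1N + (1451 / 288) * h.toLin.wRz1E
      + (805 / 288) * h.toLin.wLz3W + (805 / 288) * h.toLin.wLz3S + (53 / 24) * h.toLin.wRt2N
      + (53 / 24) * h.toLin.wLt2S + (53 / 24) * h.toLin.wBt2S + (53 / 24) * h.toLin.wBt2E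
      + (53 / 24) * h.toLin.wTk2N + (53 / 24) * h.toLin.wTk2W + (7 / 24) * h.toLin.wl
      + (785 / 288) * h.c3 + (323 / 72) * e.2.1 + (5 / 48) * (sub_nonneg.2 u1)
      + (373 / 576) * (sub_nonneg.2 l2) + h.hG
      + (1 / 4) * mul_nonneg (sub_nonneg.2 l0) (sub_nonneg.2 u0)
      + (1 / 4) * mul_nonneg (sub_nonneg.2 l1) (sub_nonneg.2 u1)
      + (1 / 4) * mul_nonneg (sub_nonneg.2 l2) (sub_nonneg.2 u2)
      + (1 / 4) * mul_nonneg (sub_nonneg.2 l3) (sub_nonneg.2 u3) + sq_nonneg (c.s1 - (1 / 2))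
      + (28001867 / 29879280) * hτ
  linarith only [this, h0]

theorem lfP31 (h : Lin2 τ c) (e : CsP c) (hτ : 0 ≤ τ) (h0 : τ ≤ 1 / 10 ^ 7)
    (l0 : (-3 / 8) ≤ c.z1Ny - c.p2y) (u0 : c.z1Ny - c.p2y ≤ (5 / 2)) (l1 : (-3) ≤ c.z1Ey - c.p4y) (u1 : c.z1Ey - c.p4y ≤ (-11 / 8))
    (l2 : (1 / 2) ≤ c.z3Wy - c.p2y) (u2 : c.z3Wy - c.p2y ≤ (7 / 4)) (l3 : (-27 / 8) ≤ c.z3Sy - c.p4y) (u3 : c.z3Sy - c.p4y ≤ (1 / 2))
    (l4 : 0 ≤ c.s1) (u4 : c.s1 ≤ 1) : False := by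
  have : 0 ≤ -(1 / 100) + 30 * τ := by
    linear_combination
      (3953 / 4800) * h.toLin.p2_p4 + (53 / 80) * h.toLin.p2_z1Nu + (51 / 80) * h.toLin.p2_eN1
      + (867 / 8800) * h.toLin.p2_eW1 + (157 / 140) * h.toLin.p2_gW + (1843 / 92400) * h.toLin.p2_hW
      + (9 / 320) * h.toLin.p4_p1 + (269 / 160) * h.toLin.p4_z1Ev + (339 / 320) * h.toLin.p4_z3Sv
      + (51 / 80) * h.toLin.p4_eS2 + (101 / 300) * h.toLin.p4_hWv + (9 / 320) * h.toLin.p1_z1Nu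
      + (2 / 5) * h.toLin.z1N_t1N + (17 / 80) * h.toLin.z1N_eN1 + (83 / 80) * h.toLin.z1E_t2E
      + (2 / 5) * h.toLin.z3W_t1W + (52 / 5) * h.toLin.z3W_gWh + (2 / 5) * h.toLin.z3S_t2S
      + (51 / 80) * h.toLin.z3S_eS2 + (51 / 40) * h.toLin.t2N_k2N + (51 / 40) * h.toLin.t2S_eS2
      + (51 / 20) * h.toLin.k2N_eN1 + (867 / 1600) * h.toLin.k2W_eW1 + (51 / 100) * h.toLin.k2W_gWh
      + (867 / 22000) * h.toLin.eW1_hW + (7213 / 18550) * h.toLin.gW_hW + (121 / 80) * h.toLin.wRz1N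
      + (269 / 80) * h.toLin.wRz1E + (39 / 16) * h.toLin.wLz3W + (39 / 16) * h.toLin.wLz3S
      + (2 / 5) * h.toLin.wTt1N + (2 / 5) * h.toLin.wTt1W + (51 / 80) * h.toLin.wRt2N
      + (51 / 80) * h.toLin.wLt2S + (83 / 80) * h.toLin.wBt2S + (83 / 80) * h.toLin.wBt2E
      + (51 / 80) * h.toLin.wTk2N + (51 / 80) * h.toLin.wTk2W + (41 / 32) * h.c3
      + (813 / 320) * e.2.1 + (9 / 160) * (sub_nonneg.2 l1) + h.hG
      + (1 / 4) * mul_nonneg (sub_nonneg.2 l0) (sub_nonneg.2 u0)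
      + (1 / 4) * mul_nonneg (sub_nonneg.2 l1) (sub_nonneg.2 u1)
      + (1 / 4) * mul_nonneg (sub_nonneg.2 l2) (sub_nonneg.2 u2)
      + (1 / 4) * mul_nonneg (sub_nonneg.2 l3) (sub_nonneg.2 u3) + sq_nonneg (c.s1 - (1 / 2))
      + (16867407 / 32648000) * hτ
  linarith only [this, h0]

theorem lfP33 (h : Lin2 τ c) (e : CsP c) (hτ : 0 ≤ τ) (h0 : τ ≤ 1 / 10 ^ 7)
    (l0 : (-3 / 8) ≤ c.z1Ny - c.p2y) (u0 : c.z1Ny - c.p2y ≤ (5 / 2)) (l1 : (-3) ≤ c.z1Ey - c.p4y) (u1 : c.z1Ey - c.p4y ≤ (-11 / 8))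
    (l2 : (7 / 4) ≤ c.z3Wy - c.p2y) (u2 : c.z3Wy - c.p2y ≤ (7 / 2)) (l3 : (-3 / 2) ≤ c.z3Sy - c.p4y) (u3 : c.z3Sy - c.p4y ≤ (1 / 2))
    (l4 : 0 ≤ c.s1) (u4 : c.s1 ≤ 1) : False := by
  have : 0 ≤ -(1 / 10) + 27 * τ := by
    linear_combination
      (9421 / 7680) * h.toLin.p2_p4 + (21 / 128) * h.toLin.p2_p3 + (133 / 288) * h.toLin.p2_z3Wv
      + (3811 / 2880) * h.toLin.p2_eN1 + (29 / 64) * h.toLin.p2_eW1
      + (6331 / 4608) * h.toLin.p4_z1Ev + (1867 / 4608) * h.toLin.p4_z3Sv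
      + (87 / 64) * h.toLin.p4_eS2 + (13 / 120) * h.toLin.p4_hNv + (21 / 128) * h.toLin.p3_z3Su
      + (7 / 512) * h.toLin.z1N_t1N + (10601 / 25920) * h.toLin.z1N_eN1
      + (91 / 1080) * h.toLin.z1N_hNu + (703 / 512) * h.toLin.z1E_t2E + (7 / 512) * h.toLin.z3W_t1W
      + (29 / 32) * h.toLin.z3W_k2W + (29 / 192) * h.toLin.z3W_eW1 + (7 / 512) * h.toLin.z3S_t2S
      + (87 / 64) * h.toLin.z3S_eS2 + (87 / 32) * h.toLin.t2N_k2N + (87 / 32) * h.toLin.t2S_eS2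
      + (87 / 16) * h.toLin.k2N_eN1 + (29 / 16) * h.toLin.k2W_eW1 + (26 / 675) * h.toLin.eN1_hN
      + (913 / 2304) * h.toLin.wRz1N + (6331 / 2304) * h.toLin.wRz1E + (3433 / 2304) * h.toLin.wLz3W
      + (3811 / 2304) * h.toLin.wLz3S + (7 / 512) * h.toLin.wTt1N + (7 / 512) * h.toLin.wTt1W
      + (87 / 64) * h.toLin.wRt2N + (87 / 64) * h.toLin.wLt2S + (703 / 512) * h.toLin.wBt2S
      + (703 / 512) * h.toLin.wBt2E + (87 / 64) * h.toLin.wTk2N + (87 / 64) * h.toLin.wTk2W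
      + (143 / 512) * h.toLin.wl + (221 / 128) * h.c3 + (175 / 72) * e.2.1 + h.hG
      + (1 / 4) * mul_nonneg (sub_nonneg.2 l0) (sub_nonneg.2 u0)
      + (1 / 4) * mul_nonneg (sub_nonneg.2 l1) (sub_nonneg.2 u1)
      + (1 / 4) * mul_nonneg (sub_nonneg.2 l2) (sub_nonneg.2 u2)
      + (1 / 4) * mul_nonneg (sub_nonneg.2 l3) (sub_nonneg.2 u3) + sq_nonneg (c.s1 - (1 / 2))
      + (190399 / 1036800) * hτ
  linarith only [this, h0]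

theorem lfP35 (h : Lin2 τ c) (e : CsP c) (hτ : 0 ≤ τ) (h0 : τ ≤ 1 / 10 ^ 7)
    (l0 : (-3 / 16) ≤ c.z1Ny - c.p2y) (u0 : c.z1Ny - c.p2y ≤ (5 / 2)) (l1 : (-17 / 4) ≤ c.z1Ey - c.p4y) (u1 : c.z1Ey - c.p4y ≤ (-23 / 8))
    (l2 : (-9 / 4) ≤ c.z3Wy - c.p2y) (u2 : c.z3Wy - c.p2y ≤ (7 / 8)) (l3 : (1 / 2) ≤ c.z3Sy - c.p4y) (u3 : c.z3Sy - c.p4y ≤ (9 / 4))
    (l4 : 0 ≤ c.s1) (u4 : c.s1 ≤ 1) : False := by
  have : 0 ≤ -(1 / 10) + 47 * τ := by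
    linear_combination
      (3341 / 1280) * h.toLin.p2_p3 + (4291 / 1920) * h.toLin.p2_z1Nu + (131 / 80) * h.toLin.p2_k3Wv
      + (77 / 48) * h.toLin.p2_eN1 + (151 / 320) * h.toLin.p2_eW1 + (227 / 320) * h.toLin.p4_p3
      + (401 / 128) * h.toLin.p4_z1Ev + (17 / 40) * h.toLin.p4_k3Sv + (251 / 80) * h.toLin.p4_eS2
      + (11 / 32) * h.toLin.p3_z3Wu + (913 / 320) * h.toLin.p3_z3Su + (1 / 6) * h.toLin.p3_k2Wv
      + (151 / 960) * h.toLin.p3_eW1 + (17 / 160) * h.toLin.z1N_t1N + (17 / 240) * h.toLin.z1N_k2N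
      + (77 / 144) * h.toLin.z1N_eN1 + (57 / 32) * h.toLin.z1E_t2E + (17 / 80) * h.toLin.t1W_k3W
      + (251 / 80) * h.toLin.t2N_k2N + (17 / 40) * h.toLin.t2S_k3S + (251 / 80) * h.toLin.t2S_eS2
      + (77 / 12) * h.toLin.k2N_eN1 + (57 / 40) * h.toLin.k2W_k3W + (151 / 60) * h.toLin.k2W_eW1
      + (251 / 40) * h.toLin.k3S_eS2 + (157 / 32) * h.toLin.wRz1N + (401 / 64) * h.toLin.wRz1E
      + (11 / 32) * h.toLin.wLz3W + (913 / 320) * h.toLin.wLz3S + (17 / 160) * h.toLin.wTt1N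
      + (17 / 160) * h.toLin.wTt1W + (251 / 160) * h.toLin.wRt2N + (251 / 160) * h.toLin.wLt2S
      + (57 / 32) * h.toLin.wBt2S + (57 / 32) * h.toLin.wBt2E + (67 / 40) * h.toLin.wTk2N
      + (67 / 40) * h.toLin.wTk2W + (319 / 80) * h.toLin.wLk3W + (319 / 80) * h.toLin.wLk3S
      + (6901 / 1920) * e.2.1 + (693 / 320) * (sub_nonneg.2 l3) + h.hG
      + (1 / 4) * mul_nonneg (sub_nonneg.2 l0) (sub_nonneg.2 u0)
      + (1 / 4) * mul_nonneg (sub_nonneg.2 l1) (sub_nonneg.2 u1)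
      + (1 / 4) * mul_nonneg (sub_nonneg.2 l2) (sub_nonneg.2 u2)
      + (1 / 4) * mul_nonneg (sub_nonneg.2 l3) (sub_nonneg.2 u3) + sq_nonneg (c.s1 - (1 / 2))
      + (1099 / 2304) * hτ
  linarith only [this, h0]

theorem lfP37 (h : Lin2 τ c) (e : CsP c) (hτ : 0 ≤ τ) (h0 : τ ≤ 1 / 10 ^ 7)
    (l0 : (-5 / 2) ≤ c.z1Ny - c.p2y) (u0 : c.z1Ny - c.p2y ≤ (-1 / 4)) (l1 : (-17 / 4) ≤ c.z1Ey - c.p4y) (u1 : c.z1Ey - c.p4y ≤ (-25 / 8))
    (l2 : (7 / 8) ≤ c.z3Wy - c.p2y) (u2 : c.z3Wy - c.p2y ≤ (7 / 2)) (l3 : (1 / 2) ≤ c.z3Sy - c.p4y) (u3 : c.z3Sy - c.p4y ≤ (9 / 4))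
    (l4 : 0 ≤ c.s1) (u4 : c.s1 ≤ 1) : False := by
  have : 0 ≤ -(1 / 10) + 182 * τ := by
    linear_combination
      (1077564889 / 373908480) * h.toLin.p2_p3 + (13602263 / 1557952) * h.toLin.p2_z1Nu
      + (492559 / 730290) * h.toLin.p2_k3Wv + (145237 / 53112) * h.toLin.p2_eN1
      + (56660089 / 155795200) * h.toLin.p2_eW1 + (22900693 / 2556015) * h.toLin.p2_gW
      + (81855911 / 204481200) * h.toLin.p2_hW + (1346501 / 2336928) * h.toLin.p4_p1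
      + (37114501 / 4673856) * h.toLin.p4_z1Ev + (3138973 / 389488) * h.toLin.p4_z3Sv
      + (12707 / 8852) * h.toLin.p4_eS1 + (2363231 / 1168464) * h.toLin.p4_eS2
      + (5626 / 2213) * h.toLin.p4_gE + (700459 / 1168464) * h.toLin.p1_z1Nu
      + (1649 / 8852) * h.toLin.p1_k4Ev + (8245 / 4426) * h.toLin.p1_hN
      + (2868935 / 778976) * h.toLin.p3_z3Su + (56660089 / 467385600) * h.toLin.p3_eW1
      + (8245 / 24343) * h.toLin.p3_hNv + (81855911 / 29211600) * h.toLin.p3_hW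
      + (68995 / 159336) * h.toLin.z1N_eN1 + (24735 / 48686) * h.toLin.z1N_hNu
      + (13617 / 8852) * h.toLin.z1E_t2E + (43262 / 2213) * h.toLin.z1E_gEh + 70 * h.toLin.z3W_gWh
      + (224183 / 389488) * h.toLin.z3S_eS2 + (12707 / 13278) * h.toLin.t1N_eN1
      + (12707 / 26556) * h.toLin.t1W_k3W + (12707 / 8852) * h.toLin.t1S_k4S
      + (26779 / 6639) * h.toLin.t2N_k2N + (12707 / 26556) * h.toLin.t2N_eN1
      + (12707 / 8852) * h.toLin.t2S_eS1 + (68995 / 26556) * h.toLin.t2S_eS2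
      + (53558 / 6639) * h.toLin.k2N_eN1 + (95411 / 486860) * h.toLin.k2W_k3W
      + (56660089 / 29211600) * h.toLin.k2W_eW1 + (2659457 / 1825725) * h.toLin.k2W_gWh
      + (845341 / 292116) * h.toLin.k3S_eS2 + (12707 / 4426) * h.toLin.k4S_eS1
      + (776 / 2213) * h.toLin.k4E_gEh + (163711822 / 677343975) * h.toLin.gW_hW
      + (44228137 / 2336928) * h.toLin.wRz1N + (23910923 / 1168464) * h.toLin.wRz1E
      + (525 / 32) * h.toLin.wLz3W + (7824505 / 389488) * h.toLin.wLz3S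
      + (12707 / 17704) * h.toLin.wRt1N + (12707 / 53112) * h.toLin.wTt1N
      + (12707 / 53112) * h.toLin.wTt1W + (12707 / 17704) * h.toLin.wLt1S
      + (252353 / 106224) * h.toLin.wRt2N + (12707 / 106224) * h.toLin.wTt2N
      + (252353 / 106224) * h.toLin.wLt2S + (176111 / 106224) * h.toLin.wBt2S
      + (13617 / 8852) * h.toLin.wBt2E + (26779 / 13278) * h.toLin.wTk2N
      + (26779 / 13278) * h.toLin.wTk2W + (845341 / 584232) * h.toLin.wLk3W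
      + (845341 / 584232) * h.toLin.wLk3S + (12707 / 17704) * h.toLin.wBk4S
      + (12707 / 17704) * h.toLin.wBk4E + (269047 / 194744) * h.c3 + (53022193 / 4673856) * e.2.1
      + (95873 / 35408) * (sub_nonneg.2 l3) + h.hG
      + (1 / 4) * mul_nonneg (sub_nonneg.2 l0) (sub_nonneg.2 u0)
      + (1 / 4) * mul_nonneg (sub_nonneg.2 l1) (sub_nonneg.2 u1)
      + (1 / 4) * mul_nonneg (sub_nonneg.2 l2) (sub_nonneg.2 u2)
      + (1 / 4) * mul_nonneg (sub_nonneg.2 l3) (sub_nonneg.2 u3) + sq_nonneg (c.s1 - (1 / 2))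
      + (1385114257819 / 2080800691200) * hτ
  linarith only [this, h0]

theorem lfP39 (h : Lin2 τ c) (e : CsP c) (hτ : 0 ≤ τ) (h0 : τ ≤ 1 / 10 ^ 7)
    (l0 : (-1 / 4) ≤ c.z1Ny - c.p2y) (u0 : c.z1Ny - c.p2y ≤ (5 / 2)) (l1 : (-17 / 4) ≤ c.z1Ey - c.p4y) (u1 : c.z1Ey - c.p4y ≤ (-47 / 16))
    (l2 : (7 / 8) ≤ c.z3Wy - c.p2y) (u2 : c.z3Wy - c.p2y ≤ (7 / 2)) (l3 : (1 / 2) ≤ c.z3Sy - c.p4y) (u3 : c.z3Sy - c.p4y ≤ (9 / 4))
    (l4 : 0 ≤ c.s1) (u4 : c.s1 ≤ 1) : False := by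
  have : 0 ≤ -(1 / 100) + 122 * τ := by
    linear_combination
      (2598811 / 1893376) * h.toLin.p2_p4 + (20145 / 1893376) * h.toLin.p2_p1
      + (2037515 / 1893376) * h.toLin.p2_p3 + (1250288771 / 189337600) * h.toLin.p2_z1Nu
      + (851533 / 1183360) * h.toLin.p2_k3Wv + (1834953 / 946688) * h.toLin.p2_eN1
      + (28661597 / 47334400) * h.toLin.p2_eW1 + (20723719 / 2958400) * h.toLin.p2_gW
      + (1544420821 / 189337600) * h.toLin.p4_z1Ev + (1163192671 / 189337600) * h.toLin.p4_z3Sv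
      + (31047 / 473344) * h.toLin.p4_eS1 + (5238435 / 1893376) * h.toLin.p4_eS2
      + (6873 / 59168) * h.toLin.p4_gE + (12087 / 1893376) * h.toLin.p1_z1Nu
      + (4029 / 473344) * h.toLin.p1_k4Ev + (2037515 / 1893376) * h.toLin.p3_z3Su
      + (590953 / 946688) * h.toLin.z1N_eN1 + (222901 / 118336) * h.toLin.z1E_t2E
      + (52851 / 59168) * h.toLin.z1E_gEh + (28661597 / 142003200) * h.toLin.z3W_eW1
      + (159358253 / 2958400) * h.toLin.z3W_gWh + (1853001 / 1893376) * h.toLin.z3S_eS2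
      + (10349 / 236672) * h.toLin.t1N_eN1 + (10349 / 473344) * h.toLin.t1W_k3W
      + (31047 / 473344) * h.toLin.t1S_k4S + (901953 / 236672) * h.toLin.t2N_k2N
      + (10349 / 473344) * h.toLin.t2N_eN1 + (31047 / 473344) * h.toLin.t2S_eS1
      + (1772859 / 473344) * h.toLin.t2S_eS2 + (901953 / 118336) * h.toLin.k2N_eN1
      + (1651321 / 2366720) * h.toLin.k2W_k3W + (28661597 / 11833600) * h.toLin.k2W_eW1
      + (714611 / 739600) * h.toLin.k2W_gWh + (1692717 / 473344) * h.toLin.k3S_eS2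
      + (31047 / 236672) * h.toLin.k4S_eS1 + (237 / 14792) * h.toLin.k4E_gEh
      + (323803649 / 23667200) * h.toLin.wRz1N + (782119973 / 47334400) * h.toLin.wRz1E
      + (9449357 / 739600) * h.toLin.wLz3W + (15248761 / 1100800) * h.toLin.wLz3S
      + (31047 / 946688) * h.toLin.wRt1N + (10349 / 946688) * h.toLin.wTt1N
      + (10349 / 946688) * h.toLin.wTt1W + (31047 / 946688) * h.toLin.wLt1S
      + (3638859 / 1893376) * h.toLin.wRt2N + (10349 / 1893376) * h.toLin.wTt2N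
      + (3638859 / 1893376) * h.toLin.wLt2S + (3576765 / 1893376) * h.toLin.wBt2S
      + (222901 / 118336) * h.toLin.wBt2E + (901953 / 473344) * h.toLin.wTk2N
      + (901953 / 473344) * h.toLin.wTk2W + (1692717 / 946688) * h.toLin.wLk3W
      + (1692717 / 946688) * h.toLin.wLk3S + (31047 / 946688) * h.toLin.wBk4S
      + (31047 / 946688) * h.toLin.wBk4E + (381363 / 3786752) * h.toLin.wl
      + (2806699 / 1893376) * h.c3 + (1789548171 / 189337600) * e.2.1 + h.hG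
      + (1 / 4) * mul_nonneg (sub_nonneg.2 l0) (sub_nonneg.2 u0)
      + (1 / 4) * mul_nonneg (sub_nonneg.2 l1) (sub_nonneg.2 u1)
      + (1 / 4) * mul_nonneg (sub_nonneg.2 l2) (sub_nonneg.2 u2)
      + (1 / 4) * mul_nonneg (sub_nonneg.2 l3) (sub_nonneg.2 u3) + sq_nonneg (c.s1 - (1 / 2))
      + (109160251 / 568012800) * hτ
  linarith only [this, h0]

theorem lfP41 (h : Lin2 τ c) (e : CsP c) (hτ : 0 ≤ τ) (h0 : τ ≤ 1 / 10 ^ 7)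
    (l0 : (-5 / 2) ≤ c.z1Ny - c.p2y) (u0 : c.z1Ny - c.p2y ≤ (-1 / 4)) (l1 : (-11 / 8) ≤ c.z1Ey - c.p4y) (u1 : c.z1Ey - c.p4y ≤ (1 / 4))
    (l2 : (-9 / 4) ≤ c.z3Wy - c.p2y) (u2 : c.z3Wy - c.p2y ≤ (-3 / 16)) (l3 : (-15 / 4) ≤ c.z3Sy - c.p4y) (u3 : c.z3Sy - c.p4y ≤ (-17 / 16))
    (l4 : 0 ≤ c.s1) (u4 : c.s1 ≤ 1) : False := by
  have : 0 ≤ -(1 / 10) + 72 * τ := by
    linear_combination
      (819089 / 563200) * h.toLin.p2_z1Nu + (2723 / 1760) * h.toLin.p2_k1Nv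
      + (833 / 1760) * h.toLin.p2_eN1 + (20953 / 140800) * h.toLin.p2_eW1
      + (31941 / 8800) * h.toLin.p2_gW + (1073 / 1408) * h.toLin.p4_p1
      + (3771 / 3520) * h.toLin.p4_p3 + (134819 / 25600) * h.toLin.p4_z1Ev
      + (1917649 / 281600) * h.toLin.p4_z3Su + (1589 / 880) * h.toLin.p4_k1Ev
      + (101 / 440) * h.toLin.p4_hWv + (1073 / 1408) * h.toLin.p1_z1Nu
      + (3771 / 3520) * h.toLin.p3_z3Wu + (35 / 352) * h.toLin.z1N_eN1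
      + (4793 / 422400) * h.toLin.z3W_eW1 + (255367 / 8800) * h.toLin.z3W_gWh
      + (77 / 64) * h.toLin.z3S_t2S + (1057 / 1760) * h.toLin.t2N_k1N
      + (1589 / 880) * h.toLin.t2E_k1E + (1589 / 1760) * h.toLin.k1N_k2N
      + (7 / 80) * h.toLin.k1N_eN1 + (1589 / 880) * h.toLin.k2N_eN1
      + (27013 / 35200) * h.toLin.k2W_eW1 + (1589 / 2200) * h.toLin.k2W_gWh
      + (101 / 2200) * h.toLin.eW1_hW + (707 / 2915) * h.toLin.gW_hW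
      + (1054689 / 281600) * h.toLin.wRz1N + (134819 / 12800) * h.toLin.wRz1E
      + (2219329 / 281600) * h.toLin.wLz3W + (1917649 / 140800) * h.toLin.wLz3S
      + (1057 / 3520) * h.toLin.wTt2N + (77 / 64) * h.toLin.wBt2S + (1589 / 1760) * h.toLin.wBt2E
      + (1589 / 440) * h.toLin.wRk1N + (1589 / 440) * h.toLin.wRk1E + (1589 / 1760) * h.toLin.wTk2N
      + (1589 / 1760) * h.toLin.wTk2W + (2386529 / 281600) * h.c3 + (5070947 / 563200) * e.2.1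
      + (9 / 32) * (sub_nonneg.2 l1) + h.hG
      + (1 / 4) * mul_nonneg (sub_nonneg.2 l0) (sub_nonneg.2 u0)
      + (1 / 4) * mul_nonneg (sub_nonneg.2 l1) (sub_nonneg.2 u1)
      + (1 / 4) * mul_nonneg (sub_nonneg.2 l2) (sub_nonneg.2 u2)
      + (1 / 4) * mul_nonneg (sub_nonneg.2 l3) (sub_nonneg.2 u3) + sq_nonneg (c.s1 - (1 / 2))
      + (16150679 / 89548800) * hτ
  linarith only [this, h0]

theorem lfP43 (h : Lin2 τ c) (e : CsP c) (hτ : 0 ≤ τ) (h0 : τ ≤ 1 / 10 ^ 7)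
    (l0 : (-5 / 2) ≤ c.z1Ny - c.p2y) (u0 : c.z1Ny - c.p2y ≤ (-1 / 4)) (l1 : (1 / 4) ≤ c.z1Ey - c.p4y) (u1 : c.z1Ey - c.p4y ≤ (9 / 4))
    (l2 : (-9 / 4) ≤ c.z3Wy - c.p2y) (u2 : c.z3Wy - c.p2y ≤ (17 / 16)) (l3 : (-15 / 4) ≤ c.z3Sy - c.p4y) (u3 : c.z3Sy - c.p4y ≤ (-17 / 16))
    (l4 : 0 ≤ c.s1) (u4 : c.s1 ≤ 1) : False := by
  have : 0 ≤ -(1 / 10) + 80 * τ := by
    linear_combination
      (19293 / 54656) * h.toLin.p2_p1 + (1625 / 976) * h.toLin.p2_z1Nu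
      + (21183 / 13664) * h.toLin.p2_k1Nv + (6563 / 13664) * h.toLin.p2_eN1
      + (30141 / 162992) * h.toLin.p2_eW1 + (288879 / 71309) * h.toLin.p2_gW
      + (70515 / 132736) * h.toLin.p4_p1 + (23435 / 3904) * h.toLin.p4_z1Ev
      + (7523 / 976) * h.toLin.p4_z3Su + (1773 / 976) * h.toLin.p4_k1Ev
      + (6673 / 8296) * h.toLin.p4_hWv + (5897 / 7808) * h.toLin.p1_z1Nu + (5 / 8) * h.toLin.p1_z1Eu
      + (14867 / 58072) * h.toLin.p1_hWv + (529 / 5856) * h.toLin.z1N_eN1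
      + (1974 / 61) * h.toLin.z3W_gWh + (241 / 244) * h.toLin.z3W_hWu + (77 / 64) * h.toLin.z3S_t2S
      + (1151 / 1952) * h.toLin.t2N_k1N + (1773 / 976) * h.toLin.t2E_k1E
      + (1773 / 1952) * h.toLin.k1N_k2N + (715 / 6832) * h.toLin.k1N_eN1
      + (1773 / 976) * h.toLin.k2N_eN1 + (30141 / 39040) * h.toLin.k2W_eW1
      + (1773 / 2440) * h.toLin.k2W_gWh + (30141 / 407480) * h.toLin.eW1_gW
      + (5484 / 22631) * h.toLin.gW_hW + (16213 / 3904) * h.toLin.wRz1N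
      + (24655 / 1952) * h.toLin.wRz1E + (33707 / 3904) * h.toLin.wLz3W
      + (7523 / 488) * h.toLin.wLz3S + (1151 / 3904) * h.toLin.wTt2N + (77 / 64) * h.toLin.wBt2S
      + (1773 / 1952) * h.toLin.wBt2E + (1773 / 488) * h.toLin.wRk1N + (1773 / 488) * h.toLin.wRk1E
      + (1773 / 1952) * h.toLin.wTk2N + (1773 / 1952) * h.toLin.wTk2W + (37245 / 3904) * h.c3
      + (80211 / 7808) * e.2.1 + h.hG + (1 / 4) * mul_nonneg (sub_nonneg.2 l0) (sub_nonneg.2 u0)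
      + (1 / 4) * mul_nonneg (sub_nonneg.2 l1) (sub_nonneg.2 u1)
      + (1 / 4) * mul_nonneg (sub_nonneg.2 l2) (sub_nonneg.2 u2)
      + (1 / 4) * mul_nonneg (sub_nonneg.2 l3) (sub_nonneg.2 u3) + sq_nonneg (c.s1 - (1 / 2))
      + (60652574923 / 61679432640) * hτ
  linarith only [this, h0]

theorem lfP45 (h : Lin2 τ c) (e : CsP c) (hτ : 0 ≤ τ) (h0 : τ ≤ 1 / 10 ^ 7)
    (l0 : (-5 / 2) ≤ c.z1Ny - c.p2y) (u0 : c.z1Ny - c.p2y ≤ (1 / 16)) (l1 : (-11 / 8) ≤ c.z1Ey - c.p4y) (u1 : c.z1Ey - c.p4y ≤ (9 / 4))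
    (l2 : (-9 / 4) ≤ c.z3Wy - c.p2y) (u2 : c.z3Wy - c.p2y ≤ (17 / 16)) (l3 : (-17 / 16) ≤ c.z3Sy - c.p4y) (u3 : c.z3Sy - c.p4y ≤ (9 / 4))
    (l4 : 0 ≤ c.s1) (u4 : c.s1 ≤ 1) : False := by
  have : 0 ≤ -(1 / 10) + 13 * τ := by
    linear_combination
      (13 / 96) * h.toLin.p2_z1Nu + (13 / 96) * h.toLin.p2_z3Wv + (29 / 32) * h.toLin.p2_k1Nv
      + (29 / 32) * h.toLin.p2_k3Wv + (45 / 128) * h.toLin.p4_p1 + (5 / 128) * h.toLin.p4_p3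
      + (7 / 128) * h.toLin.p4_z1Eu + (23 / 384) * h.toLin.p4_z1Ev + (13 / 48) * h.toLin.p4_z3Su
      + (29 / 32) * h.toLin.p4_k1Ev + (29 / 32) * h.toLin.p4_k3Sv + (29 / 384) * h.toLin.p1_p3
      + (91 / 256) * h.toLin.p1_z1Nu + (7 / 32) * h.toLin.p1_z1Eu + (55 / 48) * h.toLin.p1_hN
      + (19 / 64) * h.toLin.p3_z3Wu + (19 / 64) * h.toLin.p3_z3Su + (5 / 24) * h.toLin.p3_hNv
      + (5 / 16) * h.toLin.z1N_hNu + (29 / 32) * h.toLin.t1N_k1N + (29 / 32) * h.toLin.t1W_k3W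
      + (29 / 32) * h.toLin.t2S_k3S + (29 / 32) * h.toLin.t2E_k1E + (23 / 24) * h.toLin.wRz1N
      + (43 / 96) * h.toLin.wRz1E + (109 / 192) * h.toLin.wLz3W + (161 / 192) * h.toLin.wLz3S
      + (29 / 64) * h.toLin.wTt1N + (29 / 64) * h.toLin.wTt1W + (29 / 64) * h.toLin.wBt2S
      + (29 / 64) * h.toLin.wBt2E + (29 / 16) * h.toLin.wRk1N + (29 / 16) * h.toLin.wRk1E
      + (29 / 16) * h.toLin.wLk3W + (29 / 16) * h.toLin.wLk3S + (13 / 48) * h.c3 + h.hG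
      + (1 / 4) * mul_nonneg (sub_nonneg.2 l0) (sub_nonneg.2 u0)
      + (1 / 4) * mul_nonneg (sub_nonneg.2 l1) (sub_nonneg.2 u1)
      + (1 / 4) * mul_nonneg (sub_nonneg.2 l2) (sub_nonneg.2 u2)
      + (1 / 4) * mul_nonneg (sub_nonneg.2 l3) (sub_nonneg.2 u3) + sq_nonneg (c.s1 - (1 / 4))
      + (401 / 768) * hτ
  linarith only [this, h0]

theorem lfP47 (h : Lin2 τ c) (e : CsP c) (hτ : 0 ≤ τ) (h0 : τ ≤ 1 / 10 ^ 7)
    (l0 : (-5 / 2) ≤ c.z1Ny - c.p2y) (u0 : c.z1Ny - c.p2y ≤ (-5 / 8)) (l1 : (-11 / 8) ≤ c.z1Ey - c.p4y) (u1 : c.z1Ey - c.p4y ≤ (-1 / 16))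
    (l2 : (17 / 16) ≤ c.z3Wy - c.p2y) (u2 : c.z3Wy - c.p2y ≤ (13 / 8)) (l3 : (-15 / 4) ≤ c.z3Sy - c.p4y) (u3 : c.z3Sy - c.p4y ≤ (-27 / 8))
    (l4 : 0 ≤ c.s1) (u4 : c.s1 ≤ 1) : False := by
  have : 0 ≤ -(1 / 10) + 1101 * τ := by
    linear_combination
      (1366 / 27) * h.toLin.p2_z3Wv + (992 / 135) * h.toLin.p2_eN1 + 64 * h.toLin.p2_eN2
      + (136 / 55) * h.toLin.p2_eW1 + (32 / 33) * h.toLin.p2_hW + (751 / 15) * h.toLin.p4_p1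
      + (1982 / 27) * h.toLin.p4_z1Ev + (13321 / 135) * h.toLin.p4_z3Su + 32 * h.toLin.p4_k1Ev
      + (1576 / 45) * h.toLin.p4_eS2 + (176 / 15) * h.toLin.p4_hWv + (751 / 15) * h.toLin.p1_z1Nu
      + (1168 / 135) * h.toLin.z1N_k2N + (992 / 405) * h.toLin.z1N_eN1 + 64 * h.toLin.z3W_gWh
      + (584 / 45) * h.toLin.z3S_t2S + (1576 / 45) * h.toLin.z3S_eS2 + 64 * h.toLin.t1N_eN2
      + 64 * h.toLin.t1S_eS2 + (272 / 45) * h.toLin.t2N_k2N + (272 / 45) * h.toLin.t2S_eS2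
      + 32 * h.toLin.t2E_k1E + 128 * h.toLin.k1N_eN2 + (3968 / 135) * h.toLin.k2N_eN1
      + (68 / 5) * h.toLin.k2W_eW1 + (64 / 5) * h.toLin.k2W_gWh + (272 / 275) * h.toLin.eW1_hW
      + (3712 / 265) * h.toLin.gW_hW + (7591 / 135) * h.toLin.wRz1N + (3964 / 27) * h.toLin.wRz1E
      + (3137 / 27) * h.toLin.wLz3W + (29006 / 135) * h.toLin.wLz3S + 32 * h.toLin.wRt1N
      + 32 * h.toLin.wTt1N + 32 * h.toLin.wLt1S + 32 * h.toLin.wBt1S + (136 / 45) * h.toLin.wRt2N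
      + (136 / 45) * h.toLin.wLt2S + 16 * h.toLin.wBt2S + 16 * h.toLin.wBt2E + 64 * h.toLin.wRk1N
      + 64 * h.toLin.wRk1E + 16 * h.toLin.wTk2N + 16 * h.toLin.wTk2W + (17572 / 135) * h.c3
      + (18988 / 135) * e.2.1 + (sub_nonneg.2 l2) + (1372 / 45) * (sub_nonneg.2 u3)
      + (1781 / 45) * (sub_nonneg.2 u0) + (595184 / 1180575) * hτ
  linarith only [this, h0]

theorem lfP49 (h : Lin2 τ c) (e : CsP c) (hτ : 0 ≤ τ) (h0 : τ ≤ 1 / 10 ^ 7)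
    (l0 : (-3 / 8) ≤ c.z1Ny - c.p2y) (u0 : c.z1Ny - c.p2y ≤ (-1 / 4)) (l1 : (-11 / 8) ≤ c.z1Ey - c.p4y) (u1 : c.z1Ey - c.p4y ≤ (-1 / 16))
    (l2 : (17 / 16) ≤ c.z3Wy - c.p2y) (u2 : c.z3Wy - c.p2y ≤ (13 / 8)) (l3 : (-15 / 4) ≤ c.z3Sy - c.p4y) (u3 : c.z3Sy - c.p4y ≤ (-27 / 8))
    (l4 : 0 ≤ c.s1) (u4 : c.s1 ≤ 1) : False := by
  have : 0 ≤ -(1 / 10) + 29 * τ := by
    linear_combination
      (587821 / 507904) * h.toLin.p2_p4 + (34185 / 63488) * h.toLin.p2_p1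
      + (565335 / 507904) * h.toLin.p2_z3Wv + (142865 / 126976) * h.toLin.p2_eN2
      + (1263215 / 507904) * h.toLin.p4_z1Ev + (216395 / 126976) * h.toLin.p4_z3Su
      + (132545 / 126976) * h.toLin.p4_eS2 + (645 / 7936) * h.toLin.p1_eN2
      + (645 / 992) * h.toLin.p1_gE + (43 / 64) * h.toLin.z1N_t1N
      + (149183 / 253952) * h.toLin.z1N_t2N + (91265 / 126976) * h.toLin.z1N_eN2
      + (731 / 992) * h.toLin.z1E_gEh + (43 / 64) * h.toLin.z3W_t1W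
      + (319807 / 253952) * h.toLin.z3S_t2S + (132545 / 126976) * h.toLin.z3S_eS2
      + (132545 / 63488) * h.toLin.t1N_eN2 + (132545 / 63488) * h.toLin.t1S_eS2
      + (43 / 32) * h.toLin.t2E_k1E + (645 / 992) * h.toLin.k1N_eN2 + (43 / 31) * h.toLin.k1E_gEh
      + (91265 / 253952) * h.toLin.wRz1N + (1307075 / 253952) * h.toLin.wRz1E
      + (565335 / 253952) * h.toLin.wLz3W + (998125 / 253952) * h.toLin.wLz3S
      + (132545 / 126976) * h.toLin.wRt1N + (217857 / 126976) * h.toLin.wTt1N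
      + (43 / 64) * h.toLin.wTt1W + (132545 / 126976) * h.toLin.wLt1S
      + (132545 / 126976) * h.toLin.wBt1S + (149183 / 253952) * h.toLin.wTt2N
      + (319807 / 253952) * h.toLin.wBt2S + (43 / 64) * h.toLin.wBt2E + (645 / 1984) * h.toLin.wRk1N
      + (645 / 1984) * h.toLin.wRk1E + (527883 / 126976) * h.c3 + (607905 / 126976) * e.2.1
      + (22085 / 63488) * (sub_nonneg.2 l1) + (7043 / 3968) * (sub_nonneg.2 l0) + h.hG
      + (1 / 4) * mul_nonneg (sub_nonneg.2 l0) (sub_nonneg.2 u0)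
      + (1 / 4) * mul_nonneg (sub_nonneg.2 l1) (sub_nonneg.2 u1)
      + (1 / 4) * mul_nonneg (sub_nonneg.2 l2) (sub_nonneg.2 u2)
      + (1 / 4) * mul_nonneg (sub_nonneg.2 l3) (sub_nonneg.2 u3) + sq_nonneg (c.s1 - (1 / 2))
      + (353233 / 507904) * hτ
  linarith only [this, h0]

theorem lfP51 (h : Lin2 τ c) (e : CsP c) (hτ : 0 ≤ τ) (h0 : τ ≤ 1 / 10 ^ 7)
    (l0 : (-5 / 2) ≤ c.z1Ny - c.p2y) (u0 : c.z1Ny - c.p2y ≤ (-1 / 4)) (l1 : (-11 / 8) ≤ c.z1Ey - c.p4y) (u1 : c.z1Ey - c.p4y ≤ (-1 / 16))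
    (l2 : (17 / 16) ≤ c.z3Wy - c.p2y) (u2 : c.z3Wy - c.p2y ≤ (13 / 8)) (l3 : (-27 / 8) ≤ c.z3Sy - c.p4y) (u3 : c.z3Sy - c.p4y ≤ (-19 / 16))
    (l4 : 0 ≤ c.s1) (u4 : c.s1 ≤ 1) : False := by
  have : 0 ≤ -(1 / 100) + 22 * τ := by
    linear_combination
      (22805 / 69216) * h.toLin.p2_p4 + (3135 / 23072) * h.toLin.p2_p1
      + (559891 / 415296) * h.toLin.p2_z3Wv + (26207 / 23072) * h.toLin.p2_k1Nv
      + (1199 / 4326) * h.toLin.p2_eN1 + (1199 / 25956) * h.toLin.p2_eW1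
      + (7711 / 11536) * h.toLin.p4_p1 + (24377 / 17304) * h.toLin.p4_z1Ev
      + (178637 / 69216) * h.toLin.p4_z3Su + (25327 / 23072) * h.toLin.p4_k1Ev
      + (5995 / 17304) * h.toLin.p4_eS2 + (11 / 16) * h.toLin.p1_z1Nu + (110 / 721) * h.toLin.p1_gE
      + (374 / 2163) * h.toLin.z1E_gEh + (26207 / 46144) * h.toLin.z3W_t1W
      + (1199 / 12978) * h.toLin.z3W_k2W + (1199 / 77868) * h.toLin.z3W_eW1
      + (8491 / 19776) * h.toLin.z3S_t2S + (5995 / 17304) * h.toLin.z3S_eS2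
      + (26207 / 23072) * h.toLin.t1N_k1N + (1199 / 4326) * h.toLin.t2N_k2N
      + (1199 / 4326) * h.toLin.t2N_eN1 + (5995 / 8652) * h.toLin.t2S_eS2
      + (97805 / 69216) * h.toLin.t2E_k1E + (704 / 2163) * h.toLin.k1E_gEh
      + (1199 / 2163) * h.toLin.k2N_eN1 + (1199 / 6489) * h.toLin.k2W_eW1
      + (11 / 16) * h.toLin.wRz1N + (197821 / 69216) * h.toLin.wRz1E
      + (190627 / 69216) * h.toLin.wLz3W + (1099 / 206) * h.toLin.wLz3S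
      + (26207 / 46144) * h.toLin.wTt1N + (26207 / 46144) * h.toLin.wTt1W
      + (5995 / 17304) * h.toLin.wRt2N + (1199 / 17304) * h.toLin.wTt2N
      + (5995 / 17304) * h.toLin.wLt2S + (35799 / 46144) * h.toLin.wBt2S
      + (97805 / 138432) * h.toLin.wBt2E + (26207 / 11536) * h.toLin.wRk1N
      + (26207 / 11536) * h.toLin.wRk1E + (1199 / 8652) * h.toLin.wTk2N
      + (1199 / 8652) * h.toLin.wTk2W + (44475 / 11536) * h.c3 + (197821 / 69216) * e.2.1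
      + (49375 / 138432) * (sub_nonneg.2 l1) + (37241 / 69216) * (sub_nonneg.2 l3) + h.hG
      + (1 / 4) * mul_nonneg (sub_nonneg.2 l0) (sub_nonneg.2 u0)
      + (1 / 4) * mul_nonneg (sub_nonneg.2 l1) (sub_nonneg.2 u1)
      + (1 / 4) * mul_nonneg (sub_nonneg.2 l2) (sub_nonneg.2 u2)
      + (1 / 4) * mul_nonneg (sub_nonneg.2 l3) (sub_nonneg.2 u3) + sq_nonneg (c.s1 - (1 / 2))
      + (553747 / 1245888) * hτ
  linarith only [this, h0]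

theorem lfP53 (h : Lin2 τ c) (e : CsP c) (hτ : 0 ≤ τ) (h0 : τ ≤ 1 / 10 ^ 7)
    (l0 : (-5 / 2) ≤ c.z1Ny - c.p2y) (u0 : c.z1Ny - c.p2y ≤ (-1 / 4)) (l1 : (-1 / 16) ≤ c.z1Ey - c.p4y) (u1 : c.z1Ey - c.p4y ≤ (9 / 4))
    (l2 : (17 / 16) ≤ c.z3Wy - c.p2y) (u2 : c.z3Wy - c.p2y ≤ (7 / 2)) (l3 : (-15 / 4) ≤ c.z3Sy - c.p4y) (u3 : c.z3Sy - c.p4y ≤ (-19 / 16))
    (l4 : 0 ≤ c.s1) (u4 : c.s1 ≤ 1) : False := by
  have : 0 ≤ -(1 / 10) + 43 * τ := by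
    linear_combination
      (9 / 5) * h.toLin.p2_p1 + (2113 / 640) * h.toLin.p2_z3Wv + (1231 / 560) * h.toLin.p2_k1Nv
      + (33 / 280) * h.toLin.p2_eN1 + (9 / 40) * h.toLin.p2_eN2 + (1 / 16) * h.toLin.p2_eW1
      + (11 / 16) * h.toLin.p4_p1 + (2557 / 640) * h.toLin.p4_z1Ev + (2117 / 320) * h.toLin.p4_z3Su
      + (19 / 8) * h.toLin.p4_k1Ev + (21 / 160) * h.toLin.p4_eS2 + (11 / 16) * h.toLin.p1_z1Nu
      + (9 / 5) * h.toLin.p1_z1Eu + h.toLin.z3W_t1W + (1 / 8) * h.toLin.z3W_k2W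
      + (1 / 48) * h.toLin.z3W_eW1 + (187 / 160) * h.toLin.z3S_t2S + (21 / 160) * h.toLin.z3S_eS2
      + 2 * h.toLin.t1N_k1N + (9 / 40) * h.toLin.t1N_eN2 + (9 / 40) * h.toLin.t1S_eS2
      + (3 / 80) * h.toLin.t2N_k2N + (3 / 80) * h.toLin.t2S_eS2 + (19 / 8) * h.toLin.t2E_k1E
      + (27 / 160) * h.toLin.k1N_k2N + (33 / 560) * h.toLin.k1N_eN1 + (9 / 20) * h.toLin.k1N_eN2
      + (33 / 80) * h.toLin.k2N_eN1 + (1 / 4) * h.toLin.k2W_eW1 + (11 / 16) * h.toLin.wRz1N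
      + (3133 / 320) * h.toLin.wRz1E + (1069 / 160) * h.toLin.wLz3W + (851 / 64) * h.toLin.wLz3S
      + (9 / 80) * h.toLin.wRt1N + (89 / 80) * h.toLin.wTt1N + h.toLin.wTt1W
      + (9 / 80) * h.toLin.wLt1S + (9 / 80) * h.toLin.wBt1S + (3 / 160) * h.toLin.wRt2N
      + (3 / 160) * h.toLin.wLt2S + (19 / 16) * h.toLin.wBt2S + (19 / 16) * h.toLin.wBt2E
      + (19 / 4) * h.toLin.wRk1N + (19 / 4) * h.toLin.wRk1E + (3 / 16) * h.toLin.wTk2N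
      + (3 / 16) * h.toLin.wTk2W + (2877 / 320) * h.c3 + (2557 / 320) * e.2.1
      + (401 / 320) * (sub_nonneg.2 l1) + h.hG
      + (1 / 4) * mul_nonneg (sub_nonneg.2 l0) (sub_nonneg.2 u0)
      + (1 / 4) * mul_nonneg (sub_nonneg.2 l1) (sub_nonneg.2 u1)
      + (1 / 4) * mul_nonneg (sub_nonneg.2 l2) (sub_nonneg.2 u2)
      + (1 / 4) * mul_nonneg (sub_nonneg.2 l3) (sub_nonneg.2 u3) + sq_nonneg (c.s1 - (1 / 2))
      + (313 / 960) * hτ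
  linarith only [this, h0]

theorem lfP55 (h : Lin2 τ c) (e : CsP c) (hτ : 0 ≤ τ) (h0 : τ ≤ 1 / 10 ^ 7)
    (l0 : (-1 / 4) ≤ c.z1Ny - c.p2y) (u0 : c.z1Ny - c.p2y ≤ (5 / 2)) (l1 : (-11 / 8) ≤ c.z1Ey - c.p4y) (u1 : c.z1Ey - c.p4y ≤ (-1 / 16))
    (l2 : (17 / 16) ≤ c.z3Wy - c.p2y) (u2 : c.z3Wy - c.p2y ≤ (7 / 2)) (l3 : (-23 / 8) ≤ c.z3Sy - c.p4y) (u3 : c.z3Sy - c.p4y ≤ (-19 / 16))
    (l4 : 0 ≤ c.s1) (u4 : c.s1 ≤ 1) : False := by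
  have : 0 ≤ -(1 / 10) + 24 * τ := by
    linear_combination
      (97569 / 117568) * h.toLin.p2_p4 + (21033 / 29392) * h.toLin.p2_p1
      + (275321 / 352704) * h.toLin.p2_z3Wv + (369 / 1837) * h.toLin.p2_k1Nv
      + (3131 / 7348) * h.toLin.p2_eN1 + (3131 / 44088) * h.toLin.p2_eW1
      + (209639 / 117568) * h.toLin.p4_z1Ev + (81337 / 58784) * h.toLin.p4_z3Su
      + (15655 / 29392) * h.toLin.p4_eS2 + (369 / 3674) * h.toLin.p1_z1Nu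
      + (1476 / 1837) * h.toLin.p1_gE + (9311 / 10688) * h.toLin.z1N_t1N
      + (208321 / 587840) * h.toLin.z1E_t2E + (8364 / 9185) * h.toLin.z1E_gEh
      + (114229 / 117568) * h.toLin.z3W_t1W + (3131 / 22044) * h.toLin.z3W_k2W
      + (3131 / 132264) * h.toLin.z3W_eW1 + (89181 / 117568) * h.toLin.z3S_t2S
      + (15655 / 29392) * h.toLin.z3S_eS2 + (369 / 1837) * h.toLin.t1N_k1N
      + (3131 / 7348) * h.toLin.t2N_k2N + (3131 / 7348) * h.toLin.t2N_eN1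
      + (15655 / 14696) * h.toLin.t2S_eS2 + (15252 / 9185) * h.toLin.t2E_k1E
      + (15744 / 9185) * h.toLin.k1E_gEh + (3131 / 3674) * h.toLin.k2N_eN1
      + (3131 / 11022) * h.toLin.k2W_eW1 + (369 / 3674) * h.toLin.wRz1N
      + (222185 / 58784) * h.toLin.wRz1E + (3031 / 1837) * h.toLin.wLz3W
      + (178329 / 58784) * h.toLin.wLz3S + (114229 / 117568) * h.toLin.wTt1N
      + (114229 / 117568) * h.toLin.wTt1W + (15655 / 29392) * h.toLin.wRt2N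
      + (3131 / 29392) * h.toLin.wTt2N + (15655 / 29392) * h.toLin.wLt2S
      + (151801 / 117568) * h.toLin.wBt2S + (139277 / 117568) * h.toLin.wBt2E
      + (738 / 1837) * h.toLin.wRk1N + (738 / 1837) * h.toLin.wRk1E + (3131 / 14696) * h.toLin.wTk2N
      + (3131 / 14696) * h.toLin.wTk2W + (543 / 58784) * h.toLin.wl + (104045 / 29392) * h.c3
      + (222185 / 58784) * e.2.1 + (25567 / 117568) * (sub_nonneg.2 l0) + h.hG
      + (1 / 4) * mul_nonneg (sub_nonneg.2 l0) (sub_nonneg.2 u0)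
      + (1 / 4) * mul_nonneg (sub_nonneg.2 l1) (sub_nonneg.2 u1)
      + (1 / 4) * mul_nonneg (sub_nonneg.2 l2) (sub_nonneg.2 u2)
      + (1 / 4) * mul_nonneg (sub_nonneg.2 l3) (sub_nonneg.2 u3) + sq_nonneg (c.s1 - (1 / 2))
      + (3379531 / 5290560) * hτ
  linarith only [this, h0]

theorem lfP57 (h : Lin2 τ c) (e : CsP c) (hτ : 0 ≤ τ) (h0 : τ ≤ 1 / 10 ^ 7)
    (l0 : (-5 / 2) ≤ c.z1Ny - c.p2y) (u0 : c.z1Ny - c.p2y ≤ (-3 / 16)) (l1 : (-11 / 8) ≤ c.z1Ey - c.p4y) (u1 : c.z1Ey - c.p4y ≤ (9 / 4))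
    (l2 : (17 / 16) ≤ c.z3Wy - c.p2y) (u2 : c.z3Wy - c.p2y ≤ (7 / 2)) (l3 : (-19 / 16) ≤ c.z3Sy - c.p4y) (u3 : c.z3Sy - c.p4y ≤ (9 / 4))
    (l4 : 0 ≤ c.s1) (u4 : c.s1 ≤ 1) : False := by
  have : 0 ≤ -(1 / 10) + 21 * τ := by
    linear_combination
      (16745 / 905536) * h.toLin.p2_p1 + (1751441 / 2716608) * h.toLin.p2_z3Wv
      + (459821 / 1584688) * h.toLin.p2_k1Nv + (1153165 / 1584688) * h.toLin.p2_eN1
      + (59495 / 339576) * h.toLin.p2_eW1 + (1174513 / 905536) * h.toLin.p4_p1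
      + (1931433 / 3622144) * h.toLin.p4_z1Ev + (1091859 / 905536) * h.toLin.p4_z3Su
      + (335997 / 905536) * h.toLin.p4_k1Ev + (25807 / 226384) * h.toLin.p4_eS1
      + (274085 / 452768) * h.toLin.p4_eS2 + (5713 / 28298) * h.toLin.p4_gE
      + (74035 / 56596) * h.toLin.p1_z1Nu + (3349 / 226384) * h.toLin.p1_k4Ev
      + (712203 / 1811072) * h.toLin.z1E_t2E + (43931 / 28298) * h.toLin.z1E_gEh
      + (49877 / 452768) * h.toLin.z3W_t1W + (59495 / 169788) * h.toLin.z3W_k2W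
      + (59495 / 1018728) * h.toLin.z3W_eW1 + (274085 / 452768) * h.toLin.z3S_eS2
      + (7739 / 42447) * h.toLin.t1N_k1N + (25807 / 339576) * h.toLin.t1N_eN1
      + (25807 / 226384) * h.toLin.t1S_k4S + (59495 / 56596) * h.toLin.t2N_k2N
      + (49877 / 226384) * h.toLin.t2N_eN1 + (25807 / 226384) * h.toLin.t2S_eS1
      + (274085 / 226384) * h.toLin.t2S_eS2 + (335997 / 905536) * h.toLin.t2E_k1E
      + (512695 / 2377032) * h.toLin.k1N_eN1 + (59495 / 28298) * h.toLin.k2N_eN1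
      + (59495 / 84894) * h.toLin.k2W_eW1 + (25807 / 113192) * h.toLin.k4S_eS1
      + (394 / 14149) * h.toLin.k4E_gEh + (74035 / 56596) * h.toLin.wRz1N
      + (1295199 / 905536) * h.toLin.wRz1E + (170743 / 113192) * h.toLin.wLz3W
      + (2457803 / 905536) * h.toLin.wLz3S + (25807 / 452768) * h.toLin.wRt1N
      + (49877 / 452768) * h.toLin.wTt1N + (49877 / 452768) * h.toLin.wTt1W
      + (25807 / 452768) * h.toLin.wLt1S + (625591 / 905536) * h.toLin.wRt2N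
      + (49877 / 905536) * h.toLin.wTt2N + (625591 / 905536) * h.toLin.wLt2S
      + (573977 / 905536) * h.toLin.wBt2S + (131025 / 226384) * h.toLin.wBt2E
      + (335997 / 452768) * h.toLin.wRk1N + (335997 / 452768) * h.toLin.wRk1E
      + (59495 / 113192) * h.toLin.wTk2N + (59495 / 113192) * h.toLin.wTk2W
      + (25807 / 452768) * h.toLin.wBk4S + (25807 / 452768) * h.toLin.wBk4E
      + (576153 / 905536) * h.toLin.wl + (455667 / 226384) * h.c3 + (1295199 / 905536) * e.2.1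
      + (61535 / 905536) * (sub_nonneg.2 l3) + h.hG
      + (1 / 4) * mul_nonneg (sub_nonneg.2 l0) (sub_nonneg.2 u0)
      + (1 / 4) * mul_nonneg (sub_nonneg.2 l1) (sub_nonneg.2 u1)
      + (1 / 4) * mul_nonneg (sub_nonneg.2 l2) (sub_nonneg.2 u2)
      + (1 / 4) * mul_nonneg (sub_nonneg.2 l3) (sub_nonneg.2 u3) + sq_nonneg (c.s1 - (1 / 2))
      + (25925465 / 32599296) * hτ
  linarith only [this, h0]


end Pool.Agent.P.MP_dba4bb_co.Ex
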