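import Pool.Agent.P.MP_dba4bb_co.Ex.BbP0
import Pool.Agent.P.MP_dba4bb_co.Ex.BbP1

/-! Branch and bound for the second order term. -/

namespace Pool.Agent.P.MP_dba4bb_co.Ex

variable {τ : ℝ} {c : Cfg}

theorem rtPu0 (h : Lin2 τ c) (e : CsP c) (hτ : 0 ≤ τ) (h0 : τ ≤ 1 / 10 ^ 7) :
    c.z1Ny - c.p2y ≤ (5 / 2) := by
  linear_combination
    (61 / 2104) * h.toLin.p2_p4 + (13993 / 10520) * h.toLin.p2_z1Nu
    + (1811 / 1315) * h.toLin.p2_z3Wv + (53 / 526) * h.toLin.p2_eN2 + (16 / 263) * h.toLin.p2_hW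
    + (128 / 263) * h.toLin.p4_p3 + (7161 / 2104) * h.toLin.p4_z1Ev + (30 / 263) * h.toLin.p4_k3Sv
    + (848 / 263) * h.toLin.p4_gS + (112 / 263) * h.toLin.p4_hWv + (128 / 263) * h.toLin.p3_z3Wu
    + (503 / 1052) * h.toLin.z1N_t1N + (53 / 526) * h.toLin.z1N_eN2
    + (124 / 263) * h.toLin.z1E_t2E + (256 / 263) * h.toLin.z3W_gWh
    + (519 / 5260) * h.toLin.z3S_t2S + (31376 / 1315) * h.toLin.z3S_gSu
    + (248 / 263) * h.toLin.t1W_k3W + (7 / 526) * h.toLin.t1S_k3S + (53 / 263) * h.toLin.t2N_eN2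
    + (53 / 526) * h.toLin.t2S_k3S + (1696 / 3945) * h.toLin.t2S_gSh
    + (256 / 263) * h.toLin.k3W_gWh + (7680 / 13939) * h.toLin.gW_hW
    + (7129 / 2630) * h.toLin.wRz1N + (7161 / 1052) * h.toLin.wRz1E
    + (4562 / 1315) * h.toLin.wLz3W + (5883 / 1052) * h.toLin.wLz3S + (503 / 1052) * h.toLin.wTt1N
    + (124 / 263) * h.toLin.wTt1W + (7 / 1052) * h.toLin.wBt1S + (53 / 526) * h.toLin.wRt2N
    + (53 / 526) * h.toLin.wTt2N + (53 / 526) * h.toLin.wLt2S + (301 / 526) * h.toLin.wBt2S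
    + (124 / 263) * h.toLin.wBt2E + (60 / 263) * h.toLin.wLk3W + (60 / 263) * h.toLin.wLk3S
    + (124 / 263) * h.toLin.wl + (16287 / 5260) * h.c3 + (57087 / 10520) * e.2.1
    + (72478543 / 1672680) * h0

theorem rtPl0 (h : Lin2 τ c) (e : CsP c) (hτ : 0 ≤ τ) (h0 : τ ≤ 1 / 10 ^ 7) :
    (-5 / 2) ≤ c.z1Ny - c.p2y := by
  linear_combination
    (8697 / 162079) * h.toLin.p2_z1Nu + (49384 / 162079) * h.toLin.p2_z3Wv
    + (73630 / 162079) * h.toLin.p2_k1Nv + (771654 / 1134553) * h.toLin.p2_k3Wv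
    + (32274 / 162079) * h.toLin.p2_eN1 + (83847 / 162079) * h.toLin.p2_eN2
    + (64548 / 1134553) * h.toLin.p2_eW1 + (322151 / 324158) * h.toLin.p4_p1
    + (98991 / 324158) * h.toLin.p4_z3Sv + (115440 / 162079) * h.toLin.p4_k1Ev
    + (45086 / 162079) * h.toLin.p4_k3Sv + (9082 / 162079) * h.toLin.p4_eS1
    + (141827 / 162079) * h.toLin.p4_eS2 + (12064 / 162079) * h.toLin.p4_gE
    + (2453 / 972474) * h.toLin.p1_p3 + (327057 / 324158) * h.toLin.p1_z1Nu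
    + (1338 / 162079) * h.toLin.p1_k4Ev + (3568 / 486237) * h.toLin.p1_hWv
    + (2453 / 324158) * h.toLin.p3_z3Su + (19624 / 486237) * h.toLin.p3_hW
    + (92768 / 162079) * h.toLin.z1E_gEh + (1784 / 162079) * h.toLin.z3W_hWu
    + (2676 / 162079) * h.toLin.z3S_t2S + (73630 / 162079) * h.toLin.t1N_k1N
    + (83847 / 162079) * h.toLin.t1N_eN2 + (91794 / 162079) * h.toLin.t1W_k3W
    + (9082 / 162079) * h.toLin.t1S_k4S + (9082 / 162079) * h.toLin.t1S_eS1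
    + (61142 / 162079) * h.toLin.t1S_eS2 + (32274 / 162079) * h.toLin.t2N_k2N
    + (32274 / 162079) * h.toLin.t2N_eN1 + (45086 / 162079) * h.toLin.t2S_k3S
    + (80685 / 162079) * h.toLin.t2S_eS2 + (114986 / 162079) * h.toLin.t2E_k1E
    + (167694 / 162079) * h.toLin.k1N_eN2 + (454 / 162079) * h.toLin.k1E_k4E
    + (64548 / 162079) * h.toLin.k2N_eN1 + (16137 / 162079) * h.toLin.k2W_k3W
    + (32274 / 162079) * h.toLin.k2W_eW1 + (32274 / 1134553) * h.toLin.k3W_eW1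
    + (283654 / 162079) * h.toLin.k3S_eS2 + (18164 / 162079) * h.toLin.k4S_eS1
    + (1664 / 162079) * h.toLin.k4E_gEh + (361845 / 324158) * h.toLin.wRz1N
    + (43485 / 324158) * h.toLin.wRz1E + (201327 / 324158) * h.toLin.wLz3W
    + (200435 / 324158) * h.toLin.wLz3S + (83847 / 324158) * h.toLin.wRt1N
    + (157477 / 324158) * h.toLin.wTt1N + (45897 / 162079) * h.toLin.wTt1W
    + (83847 / 324158) * h.toLin.wLt1S + (65683 / 324158) * h.toLin.wBt1S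
    + (80685 / 324158) * h.toLin.wRt2N + (16137 / 324158) * h.toLin.wTt2N
    + (80685 / 324158) * h.toLin.wLt2S + (131123 / 324158) * h.toLin.wBt2S
    + (57493 / 162079) * h.toLin.wBt2E + (231107 / 162079) * h.toLin.wRk1N
    + (231107 / 162079) * h.toLin.wRk1E + (16137 / 162079) * h.toLin.wTk2N
    + (16137 / 162079) * h.toLin.wTk2W + (231999 / 162079) * h.toLin.wLk3W
    + (231999 / 162079) * h.toLin.wLk3S + (4541 / 162079) * h.toLin.wBk4S
    + (4541 / 162079) * h.toLin.wBk4E + (2899 / 324158) * h.toLin.wl + (2899 / 162079) * h.c3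
    + (26091 / 324158) * e.2.1 + (4797601 / 324158) * h0

theorem rtPu1 (h : Lin2 τ c) (e : CsP c) (hτ : 0 ≤ τ) (h0 : τ ≤ 1 / 10 ^ 7) :
    c.z1Ey - c.p4y ≤ (9 / 4) := by
  linear_combination
    (41 / 55) * h.toLin.p2_p1 + (29 / 110) * h.toLin.p2_z3Wu + (21 / 55) * h.toLin.p2_z3Wv
    + (276 / 385) * h.toLin.p2_k1Nv + (156 / 385) * h.toLin.p2_k3Wv + (96 / 385) * h.toLin.p2_eN1
    + (24 / 77) * h.toLin.p2_eW1 + (1 / 4) * h.toLin.p4_z1Ev + (109 / 220) * h.toLin.p4_z3Sv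
    + (48 / 55) * h.toLin.p4_k1Ev + (6 / 11) * h.toLin.p4_k3Sv + (6 / 55) * h.toLin.p4_eS2
    + (1 / 30) * h.toLin.p1_p3 + (13 / 110) * h.toLin.p1_z1Nu + (97 / 110) * h.toLin.p1_z1Eu
    + (16 / 165) * h.toLin.p1_hWv + (1 / 10) * h.toLin.p3_z3Su + (8 / 15) * h.toLin.p3_hW
    + (8 / 55) * h.toLin.z3W_hWu + (9 / 55) * h.toLin.z3S_t2S + (6 / 55) * h.toLin.z3S_eS2
    + (12 / 55) * h.toLin.t1N_k1N + (12 / 55) * h.toLin.t1W_k2W + (12 / 55) * h.toLin.t1S_eS2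
    + (6 / 11) * h.toLin.t2S_k3S + (48 / 55) * h.toLin.t2E_k1E + (24 / 55) * h.toLin.k1N_k2N
    + (48 / 385) * h.toLin.k1N_eN1 + (48 / 55) * h.toLin.k2N_eN1 + (18 / 55) * h.toLin.k2W_k3W
    + (12 / 11) * h.toLin.k2W_eW1 + (12 / 77) * h.toLin.k3W_eW1 + (13 / 110) * h.toLin.wRz1N
    + (76 / 55) * h.toLin.wRz1E + (159 / 110) * h.toLin.wLz3W + (63 / 55) * h.toLin.wLz3S
    + (6 / 55) * h.toLin.wTt1N + (6 / 55) * h.toLin.wLt1W + (6 / 55) * h.toLin.wLt1S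
    + (6 / 55) * h.toLin.wBt1S + (24 / 55) * h.toLin.wBt2S + (24 / 55) * h.toLin.wBt2E
    + (96 / 55) * h.toLin.wRk1N + (96 / 55) * h.toLin.wRk1E + (24 / 55) * h.toLin.wTk2N
    + (24 / 55) * h.toLin.wTk2W + (12 / 11) * h.toLin.wLk3W + (12 / 11) * h.toLin.wLk3S
    + (13 / 110) * h.toLin.wl + (1 / 2) * h.c3 + (1 / 2) * e.2.1 + (721 / 55) * h0

theorem rtPl1 (h : Lin2 τ c) (e : CsP c) (hτ : 0 ≤ τ) (h0 : τ ≤ 1 / 10 ^ 7) :
    (-17 / 4) ≤ c.z1Ey - c.p4y := by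
  linear_combination
    (3 / 8) * h.toLin.p2_p4 + (3 / 40) * h.toLin.p2_p3 + (1 / 12) * h.toLin.p2_z3Wv
    + (2 / 5) * h.toLin.p2_k3Wv + (5 / 6) * h.toLin.p2_eN1 + (3 / 8) * h.toLin.p4_p1
    + (5 / 16) * h.toLin.p4_p3 + (5 / 6) * h.toLin.p4_z1Ev + (1 / 12) * h.toLin.p4_z3Sv
    + (1 / 2) * h.toLin.p4_k3Sv + (3 / 8) * h.toLin.p4_eS2 + (3 / 8) * h.toLin.p1_z1Nu
    + (2 / 5) * h.toLin.p3_k2Wv + (3 / 8) * h.toLin.p3_eS2 + (1 / 6) * h.toLin.z1N_k2N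
    + (5 / 18) * h.toLin.z1N_eN1 + h.toLin.z1E_t2E + (3 / 2) * h.toLin.t2N_k2N
    + (1 / 2) * h.toLin.t2S_k3S + (3 / 2) * h.toLin.t2S_eS2 + (10 / 3) * h.toLin.k2N_eN1
    + (2 / 5) * h.toLin.k2W_k3W + (2 / 3) * h.toLin.wRz1N + (5 / 3) * h.toLin.wRz1E
    + (1 / 6) * h.toLin.wLz3W + (1 / 6) * h.toLin.wLz3S + (3 / 4) * h.toLin.wRt2N
    + (3 / 4) * h.toLin.wLt2S + h.toLin.wBt2S + h.toLin.wBt2E + h.toLin.wTk2N + h.toLin.wTk2W
    + h.toLin.wLk3W + h.toLin.wLk3S + (11 / 8) * e.2.1 + (10133 / 720) * h0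

theorem rtPu2 (h : Lin2 τ c) (e : CsP c) (hτ : 0 ≤ τ) (h0 : τ ≤ 1 / 10 ^ 7) :
    c.z3Wy - c.p2y ≤ (7 / 2) := by
  linear_combination
    (9 / 32) * h.toLin.p2_p4 + (3 / 16) * h.toLin.p2_p1 + (3 / 8) * h.toLin.p2_z3Wv
    + (3 / 8) * h.toLin.p2_eN2 + (7 / 16) * h.toLin.p4_p1 + (17 / 32) * h.toLin.p4_z1Ev
    + (9 / 32) * h.toLin.p4_z3Sv + (3 / 4) * h.toLin.p4_eS1 + (1 / 4) * h.toLin.p1_z1Nu
    + (123 / 524) * h.toLin.p1_k4Ev + (3 / 8) * h.toLin.p1_eN2 + (12 / 131) * h.toLin.p1_gE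
    + (1 / 32) * h.toLin.z1N_t1N + (1 / 32) * h.toLin.z1E_t2E + (21 / 116) * h.toLin.z1E_k4E
    + (12 / 29) * h.toLin.z1E_gEh + (25 / 32) * h.toLin.z3W_t1W + (1 / 32) * h.toLin.z3S_t2S
    + (1 / 4) * h.toLin.z3S_eS1 + (3 / 2) * h.toLin.t1N_eN2 + (3 / 2) * h.toLin.t1S_k4S
    + 3 * h.toLin.k4S_eS1 + (384 / 3799) * h.toLin.k4E_gEh + (1 / 4) * h.toLin.wRz1N
    + (5 / 4) * h.toLin.wRz1E + (3 / 4) * h.toLin.wLz3W + (3 / 4) * h.toLin.wLz3S
    + (3 / 4) * h.toLin.wRt1N + (25 / 32) * h.toLin.wTt1N + (25 / 32) * h.toLin.wTt1W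
    + (3 / 4) * h.toLin.wLt1S + (1 / 32) * h.toLin.wBt2S + (1 / 32) * h.toLin.wBt2E
    + (3 / 4) * h.toLin.wBk4S + (3 / 4) * h.toLin.wBk4E + (7 / 32) * h.toLin.wl + h.c3
    + (5 / 4) * e.2.1 + (1579289 / 121568) * h0

theorem rtPl2 (h : Lin2 τ c) (e : CsP c) (hτ : 0 ≤ τ) (h0 : τ ≤ 1 / 10 ^ 7) :
    (-9 / 4) ≤ c.z3Wy - c.p2y := by
  linear_combination
    h.toLin.p2_k1Nv + h.toLin.p2_k3Wv + h.toLin.p4_p3 + (1 / 2) * h.toLin.p4_z1Eu
    + h.toLin.p4_k1Ev + h.toLin.p4_k3Sv + h.toLin.p3_z3Wu + h.toLin.t1N_k1N + h.toLin.t1W_k3W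
    + h.toLin.t2S_k3S + h.toLin.t2E_k1E + h.toLin.wRz1E + h.toLin.wLz3W + (1 / 2) * h.toLin.wTt1N
    + (1 / 2) * h.toLin.wTt1W + (1 / 2) * h.toLin.wBt2S + (1 / 2) * h.toLin.wBt2E
    + 2 * h.toLin.wRk1N + 2 * h.toLin.wRk1E + 2 * h.toLin.wLk3W + 2 * h.toLin.wLk3S
    + (1 / 2) * e.2.1 + (21 / 2) * h0

theorem rtPu3 (h : Lin2 τ c) (e : CsP c) (hτ : 0 ≤ τ) (h0 : τ ≤ 1 / 10 ^ 7) :
    c.z3Sy - c.p4y ≤ (9 / 4) := by
  linear_combination
    (65 / 86) * h.toLin.p2_p3 + (29 / 86) * h.toLin.p2_z1Nu + (205 / 602) * h.toLin.p2_k1Nv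
    + (144 / 301) * h.toLin.p2_k3Wv + (158 / 301) * h.toLin.p2_eN1 + (72 / 301) * h.toLin.p2_eW1
    + (79 / 172) * h.toLin.p4_z1Ev + (18 / 43) * h.toLin.p4_k1Ev + (11 / 86) * h.toLin.p4_k3Sv
    + h.toLin.p4_eS2 + (11 / 344) * h.toLin.p1_p3 + (33 / 344) * h.toLin.p1_z1Eu
    + (22 / 43) * h.toLin.p1_hN + (39 / 344) * h.toLin.p3_z3Wu + (305 / 344) * h.toLin.p3_z3Su
    + (4 / 43) * h.toLin.p3_hNv + (6 / 43) * h.toLin.z1N_hNu + (9 / 43) * h.toLin.z1E_t2E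
    + (17 / 602) * h.toLin.t1N_k1N + (17 / 602) * h.toLin.t1S_k3S + (64 / 301) * h.toLin.t2N_k2N
    + (158 / 301) * h.toLin.t2N_eN1 + (30 / 301) * h.toLin.t2S_k3S + h.toLin.t2S_eS2
    + (18 / 43) * h.toLin.t2E_k1E + (94 / 301) * h.toLin.k1N_k2N + (316 / 301) * h.toLin.k2N_eN1
    + (18 / 43) * h.toLin.k2W_k3W + (36 / 43) * h.toLin.k2W_eW1 + (36 / 301) * h.toLin.k3W_eW1
    + 2 * h.toLin.k3S_eS2 + (283 / 344) * h.toLin.wRz1N + (349 / 344) * h.toLin.wRz1E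
    + (39 / 344) * h.toLin.wLz3W + (305 / 344) * h.toLin.wLz3S + (17 / 1204) * h.toLin.wTt1N
    + (17 / 1204) * h.toLin.wBt1S + (1 / 2) * h.toLin.wRt2N + (79 / 602) * h.toLin.wTt2N
    + (1 / 2) * h.toLin.wLt2S + (331 / 602) * h.toLin.wBt2S + (18 / 43) * h.toLin.wBt2E
    + (36 / 43) * h.toLin.wRk1N + (36 / 43) * h.toLin.wRk1E + (18 / 43) * h.toLin.wTk2N
    + (18 / 43) * h.toLin.wTk2W + (54 / 43) * h.toLin.wLk3W + (54 / 43) * h.toLin.wLk3S
    + (39 / 344) * h.toLin.wl + (97 / 172) * e.2.1 + (16631 / 1204) * h0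

theorem rtPl3 (h : Lin2 τ c) (e : CsP c) (hτ : 0 ≤ τ) (h0 : τ ≤ 1 / 10 ^ 7) :
    (-15 / 4) ≤ c.z3Sy - c.p4y := by
  linear_combination
    (3 / 8) * h.toLin.p2_p4 + (419 / 128) * h.toLin.p2_z3Wv + (91 / 64) * h.toLin.p2_eN2
    + (5 / 2) * h.toLin.p2_gN + h.toLin.p4_p1 + (411 / 64) * h.toLin.p4_z1Ev
    + (371 / 64) * h.toLin.p4_z3Su + (3 / 2) * h.toLin.p4_eS2 + h.toLin.p1_z1Nu
    + (91 / 64) * h.toLin.z1N_eN2 + (37 / 2) * h.toLin.z1N_gNu + (1 / 4) * h.toLin.z3S_t1S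
    + (3 / 2) * h.toLin.z3S_eS2 + (91 / 32) * h.toLin.t1N_eN2 + (1 / 3) * h.toLin.t1N_gNh
    + 3 * h.toLin.t1S_eS2 + (387 / 64) * h.toLin.wRz1N + (411 / 32) * h.toLin.wRz1E
    + (419 / 64) * h.toLin.wLz3W + (395 / 32) * h.toLin.wLz3S + (3 / 2) * h.toLin.wRt1N
    + (7 / 4) * h.toLin.wTt1N + (3 / 2) * h.toLin.wLt1S + (7 / 4) * h.toLin.wBt1S
    + (435 / 64) * h.c3 + (1257 / 128) * e.2.1 + (22247 / 384) * h0

theorem rtPu4 (h : Lin2 τ c) (e : CsP c) (hτ : 0 ≤ τ) (h0 : τ ≤ 1 / 10 ^ 7) :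
    c.s1 ≤ 1 := by
  linear_combination
    (198071 / 12552375) * h.toLin.p2_p4 + (5726 / 49225) * h.toLin.p2_p1
    + (175106 / 836825) * h.toLin.p2_z3Wv + (166064 / 836825) * h.toLin.p2_eN1
    + (48292 / 836825) * h.toLin.p2_eN2 + (41516 / 2707375) * h.toLin.p2_eW1
    + (390992 / 27615225) * h.toLin.p2_hW + (38727 / 1673650) * h.toLin.p4_p3
    + (1286797 / 1673650) * h.toLin.p4_z1Ev + (882289 / 1673650) * h.toLin.p4_z3Su
    + (166064 / 836825) * h.toLin.p4_eS1 + (2020 / 33473) * h.toLin.p4_eS2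
    + (1629032 / 12552375) * h.toLin.p4_hWv + (1532 / 49225) * h.toLin.p1_z1Nu
    + (166064 / 6448475) * h.toLin.p1_k4Ev + (609152 / 6448475) * h.toLin.p1_gE
    + (38727 / 1673650) * h.toLin.p3_z3Wu + (2468 / 76075) * h.toLin.z1N_eN2
    + (45632 / 4184125) * h.toLin.z1E_t2E + (1069952 / 4184125) * h.toLin.z1E_gEh
    + (25952 / 49225) * h.toLin.z3W_gWh + (4988 / 167365) * h.toLin.z3S_eS2
    + (166064 / 836825) * h.toLin.t1N_eN1 + (15088 / 167365) * h.toLin.t1N_eN2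
    + (105648 / 836825) * h.toLin.t1W_k3W + (166064 / 836825) * h.toLin.t1S_k4S
    + (105648 / 836825) * h.toLin.t1S_eS1 + (166064 / 836825) * h.toLin.t2N_k2N
    + (60416 / 836825) * h.toLin.t2S_eS1 + (15088 / 167365) * h.toLin.t2S_eS2
    + (436976 / 4184125) * h.toLin.t2E_k1E + (42288 / 836825) * h.toLin.k1N_eN2
    + (451072 / 4184125) * h.toLin.k1E_gEh + (332128 / 836825) * h.toLin.k2N_eN1
    + (20758 / 246125) * h.toLin.k2W_eW1 + (332128 / 4184125) * h.toLin.k2W_gWh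
    + (109056 / 836825) * h.toLin.k3W_gWh + (10224 / 167365) * h.toLin.k3S_eS2
    + (332128 / 836825) * h.toLin.k4S_eS1 + (5314048 / 109624075) * h.toLin.k4E_gEh
    + (83032 / 13536875) * h.toLin.eW1_hW + (35621824 / 221758625) * h.toLin.gW_hW
    + (39618 / 836825) * h.toLin.wRz1N + (679 / 425) * h.toLin.wRz1E
    + (42998 / 76075) * h.toLin.wLz3W + (894759 / 836825) * h.toLin.wLz3S
    + (162268 / 836825) * h.toLin.wRt1N + (79236 / 836825) * h.toLin.wTt1N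
    + (52824 / 836825) * h.toLin.wTt1W + (162268 / 836825) * h.toLin.wLt1S
    + (26412 / 836825) * h.toLin.wBt1S + (83032 / 836825) * h.toLin.wRt2N
    + (83032 / 836825) * h.toLin.wLt2S + (52824 / 836825) * h.toLin.wBt2S
    + (52824 / 836825) * h.toLin.wBt2E + (21144 / 836825) * h.toLin.wRk1N
    + (21144 / 836825) * h.toLin.wRk1E + (83032 / 836825) * h.toLin.wTk2N
    + (83032 / 836825) * h.toLin.wTk2W + (5112 / 167365) * h.toLin.wLk3W
    + (5112 / 167365) * h.toLin.wLk3S + (83032 / 836825) * h.toLin.wBk4S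
    + (83032 / 836825) * h.toLin.wBk4E + (2494 / 167365) * h.toLin.wl + (460508 / 836825) * h.c3
    + (120307 / 76075) * e.2.1 + (624338402341 / 93986523125) * h0

theorem bbP (h : Lin2 τ c) (e : CsP c) (hτ : 0 ≤ τ) (h0 : τ ≤ 1 / 10 ^ 7) :
    NearI c ∨ NearIII c := by
  have u0 := rtPu0 h e hτ h0
  have l0 := rtPl0 h e hτ h0
  have u1 := rtPu1 h e hτ h0
  have l1 := rtPl1 h e hτ h0
  have u2 := rtPu2 h e hτ h0
  have l2 := rtPl2 h e hτ h0
  have u3 := rtPu3 h e hτ h0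
  have l3 := rtPl3 h e hτ h0
  have u4 := rtPu4 h e hτ h0
  have l4 : 0 ≤ c.s1 := e.2.2
  rcases le_total (c.z1Ey - c.p4y) (-11 / 8) with u1 | l1
  · rcases le_total (c.z3Sy - c.p4y) (1 / 2) with u3 | l3
    · rcases le_total (c.z3Wy - c.p2y) (1 / 2) with u2 | l2
      · rcases le_total (c.z1Ny - c.p2y) (1 / 2) with u0 | l0
        · rcases le_total (c.z3Sy - c.p4y) (-1 / 2) with u3 | l3
          · rcases le_total (c.z3Sy - c.p4y) (-35 / 16) with u3 | l3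
            · rcases le_total (c.z1Ny - c.p2y) (-3 / 4) with u0 | l0
              · exact (lfP0 h e hτ h0 l0 u0 l1 u1 l2 u2 l3 u3 l4 u4).elim
              · exact (lfP1 h e hτ h0 l0 u0 l1 u1 l2 u2 l3 u3 l4 u4).elim
            · rcases le_total (c.z1Ny - c.p2y) (-5 / 8) with u0 | l0
              · exact (lfP2 h e hτ h0 l0 u0 l1 u1 l2 u2 l3 u3 l4 u4).elim
              · rcases le_total (c.z1Ey - c.p4y) (-7 / 2) with u1 | l1
                · exact (lfP3 h e hτ h0 l0 u0 l1 u1 l2 u2 l3 u3 l4 u4).elim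
                · exact (lfP4 h e hτ h0 l0 u0 l1 u1 l2 u2 l3 u3 l4 u4).elim
          · rcases le_total (c.z1Ny - c.p2y) (-1 / 2) with u0 | l0
            · exact (lfP5 h e hτ h0 l0 u0 l1 u1 l2 u2 l3 u3 l4 u4).elim
            · rcases le_total (c.z1Ey - c.p4y) (-7 / 2) with u1 | l1
              · rcases le_total (c.z3Wy - c.p2y) (-1 / 2) with u2 | l2
                · exact (lfP6 h e hτ h0 l0 u0 l1 u1 l2 u2 l3 u3 l4 u4).elim
                · rcases le_total (c.s1) (1 / 2) with u4 | l4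
                  · exact .inl ⟨by linarith only [l0], by linarith only [u0], by linarith only [l1], by linarith only [u1], by linarith only [l2], by linarith only [u2], by linarith only [l3], by linarith only [u3], by linarith only [l4], by linarith only [u4]⟩
                  · exact (lfP7 h e hτ h0 l0 u0 l1 u1 l2 u2 l3 u3 l4 u4).elim
              · exact (lfP8 h e hτ h0 l0 u0 l1 u1 l2 u2 l3 u3 l4 u4).elim
        · rcases le_total (c.z3Sy - c.p4y) (-1 / 2) with u3 | l3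
          · exact (lfP9 h e hτ h0 l0 u0 l1 u1 l2 u2 l3 u3 l4 u4).elim
          · rcases le_total (c.z1Ey - c.p4y) (-7 / 2) with u1 | l1
            · exact (lfP10 h e hτ h0 l0 u0 l1 u1 l2 u2 l3 u3 l4 u4).elim
            · exact (lfP11 h e hτ h0 l0 u0 l1 u1 l2 u2 l3 u3 l4 u4).elim
      · rcases le_total (c.z1Ny - c.p2y) (-3 / 8) with u0 | l0
        · rcases le_total (c.z3Sy - c.p4y) (-27 / 8) with u3 | l3
          · rcases le_total (c.z3Wy - c.p2y) (13 / 8) with u2 | l2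
            · rcases le_total (c.z1Ey - c.p4y) (-13 / 8) with u1 | l1
              · exact (lfP12 h e hτ h0 l0 u0 l1 u1 l2 u2 l3 u3 l4 u4).elim
              · rcases le_total (c.z1Ny - c.p2y) (-5 / 8) with u0 | l0
                · exact (lfP13 h e hτ h0 l0 u0 l1 u1 l2 u2 l3 u3 l4 u4).elim
                · rcases le_total (c.z3Wy - c.p2y) (11 / 8) with u2 | l2
                  · exact (lfP14 h e hτ h0 l0 u0 l1 u1 l2 u2 l3 u3 l4 u4).elim
                  · rcases le_total (c.s1) (5 / 8) with u4 | l4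
                    · rcases le_total (c.s1) (3 / 8) with u4 | l4
                      · exact (lfP15 h e hτ h0 l0 u0 l1 u1 l2 u2 l3 u3 l4 u4).elim
                      · rcases le_total (c.z3Sy - c.p4y) (-29 / 8) with u3 | l3
                        · exact (lfP16 h e hτ h0 l0 u0 l1 u1 l2 u2 l3 u3 l4 u4).elim
                        · exact .inr ⟨by linarith only [l0], by linarith only [u0], by linarith only [l1], by linarith only [u1], by linarith only [l2], by linarith only [u2], by linarith only [l3], by linarith only [u3], by linarith only [l4], by linarith only [u4]⟩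
                    · exact (lfP17 h e hτ h0 l0 u0 l1 u1 l2 u2 l3 u3 l4 u4).elim
            · exact (lfP18 h e hτ h0 l0 u0 l1 u1 l2 u2 l3 u3 l4 u4).elim
          · rcases le_total (c.z3Sy - c.p4y) (-2) with u3 | l3
            · rcases le_total (c.z3Wy - c.p2y) (13 / 8) with u2 | l2
              · rcases le_total (c.z1Ey - c.p4y) (-13 / 8) with u1 | l1
                · exact (lfP19 h e hτ h0 l0 u0 l1 u1 l2 u2 l3 u3 l4 u4).elim
                · exact (lfP20 h e hτ h0 l0 u0 l1 u1 l2 u2 l3 u3 l4 u4).elim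
              · exact (lfP21 h e hτ h0 l0 u0 l1 u1 l2 u2 l3 u3 l4 u4).elim
            · rcases le_total (c.z3Wy - c.p2y) (13 / 8) with u2 | l2
              · rcases le_total (c.z1Ey - c.p4y) (-13 / 4) with u1 | l1
                · exact (lfP22 h e hτ h0 l0 u0 l1 u1 l2 u2 l3 u3 l4 u4).elim
                · exact (lfP23 h e hτ h0 l0 u0 l1 u1 l2 u2 l3 u3 l4 u4).elim
              · exact (lfP24 h e hτ h0 l0 u0 l1 u1 l2 u2 l3 u3 l4 u4).elim
        · rcases le_total (c.z1Ey - c.p4y) (-3) with u1 | l1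
          · rcases le_total (c.z1Ny - c.p2y) (7 / 8) with u0 | l0
            · rcases le_total (c.z3Sy - c.p4y) (-1 / 2) with u3 | l3
              · exact (lfP25 h e hτ h0 l0 u0 l1 u1 l2 u2 l3 u3 l4 u4).elim
              · rcases le_total (c.z3Wy - c.p2y) (25 / 16) with u2 | l2
                · exact (lfP26 h e hτ h0 l0 u0 l1 u1 l2 u2 l3 u3 l4 u4).elim
                · exact (lfP27 h e hτ h0 l0 u0 l1 u1 l2 u2 l3 u3 l4 u4).elim
            · rcases le_total (c.z3Wy - c.p2y) (25 / 16) with u2 | l2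
              · exact (lfP28 h e hτ h0 l0 u0 l1 u1 l2 u2 l3 u3 l4 u4).elim
              · exact (lfP29 h e hτ h0 l0 u0 l1 u1 l2 u2 l3 u3 l4 u4).elim
          · rcases le_total (c.z3Wy - c.p2y) (7 / 4) with u2 | l2
            · rcases le_total (c.z3Sy - c.p4y) (-27 / 8) with u3 | l3
              · exact (lfP30 h e hτ h0 l0 u0 l1 u1 l2 u2 l3 u3 l4 u4).elim
              · exact (lfP31 h e hτ h0 l0 u0 l1 u1 l2 u2 l3 u3 l4 u4).elim
            · rcases le_total (c.z3Sy - c.p4y) (-3 / 2) with u3 | l3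
              · exact (lfP32 h e hτ h0 l0 u0 l1 u1 l2 u2 l3 u3 l4 u4).elim
              · exact (lfP33 h e hτ h0 l0 u0 l1 u1 l2 u2 l3 u3 l4 u4).elim
    · rcases le_total (c.z3Wy - c.p2y) (7 / 8) with u2 | l2
      · rcases le_total (c.z1Ny - c.p2y) (-3 / 16) with u0 | l0
        · exact (lfP34 h e hτ h0 l0 u0 l1 u1 l2 u2 l3 u3 l4 u4).elim
        · rcases le_total (c.z1Ey - c.p4y) (-23 / 8) with u1 | l1
          · exact (lfP35 h e hτ h0 l0 u0 l1 u1 l2 u2 l3 u3 l4 u4).elim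
          · exact (lfP36 h e hτ h0 l0 u0 l1 u1 l2 u2 l3 u3 l4 u4).elim
      · rcases le_total (c.z1Ny - c.p2y) (-1 / 4) with u0 | l0
        · rcases le_total (c.z1Ey - c.p4y) (-25 / 8) with u1 | l1
          · exact (lfP37 h e hτ h0 l0 u0 l1 u1 l2 u2 l3 u3 l4 u4).elim
          · exact (lfP38 h e hτ h0 l0 u0 l1 u1 l2 u2 l3 u3 l4 u4).elim
        · rcases le_total (c.z1Ey - c.p4y) (-47 / 16) with u1 | l1
          · exact (lfP39 h e hτ h0 l0 u0 l1 u1 l2 u2 l3 u3 l4 u4).elim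
          · exact (lfP40 h e hτ h0 l0 u0 l1 u1 l2 u2 l3 u3 l4 u4).elim
  · rcases le_total (c.z3Wy - c.p2y) (17 / 16) with u2 | l2
    · rcases le_total (c.z3Sy - c.p4y) (-17 / 16) with u3 | l3
      · rcases le_total (c.z1Ny - c.p2y) (-1 / 4) with u0 | l0
        · rcases le_total (c.z1Ey - c.p4y) (1 / 4) with u1 | l1
          · rcases le_total (c.z3Wy - c.p2y) (-3 / 16) with u2 | l2
            · exact (lfP41 h e hτ h0 l0 u0 l1 u1 l2 u2 l3 u3 l4 u4).elim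
            · exact (lfP42 h e hτ h0 l0 u0 l1 u1 l2 u2 l3 u3 l4 u4).elim
          · exact (lfP43 h e hτ h0 l0 u0 l1 u1 l2 u2 l3 u3 l4 u4).elim
        · exact (lfP44 h e hτ h0 l0 u0 l1 u1 l2 u2 l3 u3 l4 u4).elim
      · rcases le_total (c.z1Ny - c.p2y) (1 / 16) with u0 | l0
        · exact (lfP45 h e hτ h0 l0 u0 l1 u1 l2 u2 l3 u3 l4 u4).elim
        · exact (lfP46 h e hτ h0 l0 u0 l1 u1 l2 u2 l3 u3 l4 u4).elim
    · rcases le_total (c.z3Sy - c.p4y) (-19 / 16) with u3 | l3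
      · rcases le_total (c.z1Ny - c.p2y) (-1 / 4) with u0 | l0
        · rcases le_total (c.z1Ey - c.p4y) (-1 / 16) with u1 | l1
          · rcases le_total (c.z3Sy - c.p4y) (-27 / 8) with u3 | l3
            · rcases le_total (c.z3Wy - c.p2y) (13 / 8) with u2 | l2
              · rcases le_total (c.z1Ny - c.p2y) (-3 / 8) with u0 | l0
                · rcases le_total (c.z1Ny - c.p2y) (-5 / 8) with u0 | l0
                  · exact (lfP47 h e hτ h0 l0 u0 l1 u1 l2 u2 l3 u3 l4 u4).elim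
                  · exact (lfP48 h e hτ h0 l0 u0 l1 u1 l2 u2 l3 u3 l4 u4).elim
                · exact (lfP49 h e hτ h0 l0 u0 l1 u1 l2 u2 l3 u3 l4 u4).elim
              · exact (lfP50 h e hτ h0 l0 u0 l1 u1 l2 u2 l3 u3 l4 u4).elim
            · rcases le_total (c.z3Wy - c.p2y) (13 / 8) with u2 | l2
              · exact (lfP51 h e hτ h0 l0 u0 l1 u1 l2 u2 l3 u3 l4 u4).elim
              · exact (lfP52 h e hτ h0 l0 u0 l1 u1 l2 u2 l3 u3 l4 u4).elim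
          · exact (lfP53 h e hτ h0 l0 u0 l1 u1 l2 u2 l3 u3 l4 u4).elim
        · rcases le_total (c.z1Ey - c.p4y) (-1 / 16) with u1 | l1
          · rcases le_total (c.z3Sy - c.p4y) (-23 / 8) with u3 | l3
            · exact (lfP54 h e hτ h0 l0 u0 l1 u1 l2 u2 l3 u3 l4 u4).elim
            · exact (lfP55 h e hτ h0 l0 u0 l1 u1 l2 u2 l3 u3 l4 u4).elim
          · exact (lfP56 h e hτ h0 l0 u0 l1 u1 l2 u2 l3 u3 l4 u4).elim
      · rcases le_total (c.z1Ny - c.p2y) (-3 / 16) with u0 | l0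
        · exact (lfP57 h e hτ h0 l0 u0 l1 u1 l2 u2 l3 u3 l4 u4).elim
        · exact (lfP58 h e hτ h0 l0 u0 l1 u1 l2 u2 l3 u3 l4 u4).elim

end Pool.Agent.P.MP_dba4bb_co.Ex
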