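import Pool.Agent.P.MP_dba4bb_co.Ex.Lin2

/-! Leaves of the branch and bound. -/

namespace Pool.Agent.P.MP_dba4bb_co.Ex

variable {τ : ℝ} {c : Cfg}

theorem lfP0 (h : Lin2 τ c) (e : CsP c) (hτ : 0 ≤ τ) (h0 : τ ≤ 1 / 10 ^ 7)
    (l0 : (-5 / 2) ≤ c.z1Ny - c.p2y) (u0 : c.z1Ny - c.p2y ≤ (-3 / 4)) (l1 : (-17 / 4) ≤ c.z1Ey - c.p4y) (u1 : c.z1Ey - c.p4y ≤ (-11 / 8))
    (l2 : (-9 / 4) ≤ c.z3Wy - c.p2y) (u2 : c.z3Wy - c.p2y ≤ (1 / 2)) (l3 : (-15 / 4) ≤ c.z3Sy - c.p4y) (u3 : c.z3Sy - c.p4y ≤ (-35 / 16))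
    (l4 : 0 ≤ c.s1) (u4 : c.s1 ≤ 1) : False := by
  have : 0 ≤ -(1 / 10) + 42 * τ := by
    linear_combination
      (5269 / 6464) * h.toLin.p2_z3Wv + (61 / 101) * h.toLin.p2_k1Nv
      + (3537 / 3232) * h.toLin.p2_eN1 + (19601 / 71104) * h.toLin.p2_eW1
      + (1615 / 5656) * h.toLin.p2_gW + (25719 / 248864) * h.toLin.p2_hW
      + (19049 / 12928) * h.toLin.p4_p1 + (7501 / 12928) * h.toLin.p4_p3
      + (40873 / 25856) * h.toLin.p4_z1Ev + (44881 / 25856) * h.toLin.p4_z3Sv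
      + (305 / 404) * h.toLin.p4_k1Ev + (1935 / 3232) * h.toLin.p4_eS2
      + (515 / 404) * h.toLin.p4_hWv + (19049 / 12928) * h.toLin.p1_z1Nu
      + (7501 / 12928) * h.toLin.p3_z3Wu + (313 / 808) * h.toLin.z1N_k2N
      + (1179 / 3232) * h.toLin.z1N_eN1 + (45 / 32) * h.toLin.z1E_t2E
      + (1845 / 202) * h.toLin.z3W_gWh + (1915 / 1616) * h.toLin.z3S_t2S
      + (1935 / 3232) * h.toLin.z3S_eS2 + (1935 / 1616) * h.toLin.t2N_k2N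
      + (1935 / 1616) * h.toLin.t2S_eS2 + (305 / 404) * h.toLin.t2E_k1E
      + (61 / 101) * h.toLin.k1N_k2N + (3537 / 808) * h.toLin.k2N_eN1
      + (19601 / 12928) * h.toLin.k2W_eW1 + (1153 / 808) * h.toLin.k2W_gWh
      + (19601 / 177760) * h.toLin.eW1_hW + (227599 / 149884) * h.toLin.gW_hW
      + (12545 / 6464) * h.toLin.wRz1N + (40873 / 12928) * h.toLin.wRz1E
      + (14063 / 3232) * h.toLin.wLz3W + (48751 / 12928) * h.toLin.wLz3S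
      + (1935 / 3232) * h.toLin.wRt2N + (1935 / 3232) * h.toLin.wLt2S
      + (5765 / 3232) * h.toLin.wBt2S + (5765 / 3232) * h.toLin.wBt2E + (305 / 202) * h.toLin.wRk1N
      + (305 / 202) * h.toLin.wRk1E + (5765 / 3232) * h.toLin.wTk2N + (5765 / 3232) * h.toLin.wTk2W
      + (21035 / 12928) * h.c3 + (2177 / 808) * e.2.1 + h.hG
      + (1 / 4) * mul_nonneg (sub_nonneg.2 l0) (sub_nonneg.2 u0)
      + (1 / 4) * mul_nonneg (sub_nonneg.2 l1) (sub_nonneg.2 u1)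
      + (1 / 4) * mul_nonneg (sub_nonneg.2 l2) (sub_nonneg.2 u2)
      + (1 / 4) * mul_nonneg (sub_nonneg.2 l3) (sub_nonneg.2 u3) + sq_nonneg (c.s1 - (1 / 2))
      + (95923771 / 263795840) * hτ
  linarith only [this, h0]

theorem lfP2 (h : Lin2 τ c) (e : CsP c) (hτ : 0 ≤ τ) (h0 : τ ≤ 1 / 10 ^ 7)
    (l0 : (-5 / 2) ≤ c.z1Ny - c.p2y) (u0 : c.z1Ny - c.p2y ≤ (-5 / 8)) (l1 : (-17 / 4) ≤ c.z1Ey - c.p4y) (u1 : c.z1Ey - c.p4y ≤ (-11 / 8))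
    (l2 : (-9 / 4) ≤ c.z3Wy - c.p2y) (u2 : c.z3Wy - c.p2y ≤ (1 / 2)) (l3 : (-35 / 16) ≤ c.z3Sy - c.p4y) (u3 : c.z3Sy - c.p4y ≤ (-1 / 2))
    (l4 : 0 ≤ c.s1) (u4 : c.s1 ≤ 1) : False := by
  have : 0 ≤ -(1 / 10) + 33 * τ := by
    linear_combination
      (15 / 64) * h.toLin.p2_z3Wu + (569 / 1920) * h.toLin.p2_z3Wv + (1 / 20) * h.toLin.p2_k3Wv
      + (45 / 32) * h.toLin.p2_eN1 + (229 / 480) * h.toLin.p2_eW1 + (173 / 128) * h.toLin.p4_p1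
      + (187 / 128) * h.toLin.p4_p3 + (389 / 256) * h.toLin.p4_z1Ev + (93 / 256) * h.toLin.p4_z3Sv
      + (47 / 32) * h.toLin.p4_eS2 + (173 / 128) * h.toLin.p1_z1Nu + (187 / 128) * h.toLin.p3_z3Wu
      + (15 / 32) * h.toLin.z1N_eN1 + (45 / 32) * h.toLin.z1E_t2E + (217 / 240) * h.toLin.z3W_k2W
      + (229 / 1440) * h.toLin.z3W_eW1 + (43 / 32) * h.toLin.z3S_eS2 + (45 / 16) * h.toLin.t2N_k2N
      + (45 / 16) * h.toLin.t2S_eS2 + (45 / 8) * h.toLin.k2N_eN1 + (1 / 20) * h.toLin.k2W_k3W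
      + (229 / 120) * h.toLin.k2W_eW1 + (1 / 4) * h.toLin.k3S_eS2 + (109 / 64) * h.toLin.wRz1N
      + (389 / 128) * h.toLin.wRz1E + (99 / 32) * h.toLin.wLz3W + (179 / 128) * h.toLin.wLz3S
      + (45 / 32) * h.toLin.wRt2N + (45 / 32) * h.toLin.wLt2S + (45 / 32) * h.toLin.wBt2S
      + (45 / 32) * h.toLin.wBt2E + (45 / 32) * h.toLin.wTk2N + (45 / 32) * h.toLin.wTk2W
      + (1 / 8) * h.toLin.wLk3W + (1 / 8) * h.toLin.wLk3S + (247 / 128) * h.c3 + (43 / 16) * e.2.1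
      + (7 / 32) * (sub_nonneg.2 u0) + h.hG
      + (1 / 4) * mul_nonneg (sub_nonneg.2 l0) (sub_nonneg.2 u0)
      + (1 / 4) * mul_nonneg (sub_nonneg.2 l1) (sub_nonneg.2 u1)
      + (1 / 4) * mul_nonneg (sub_nonneg.2 l2) (sub_nonneg.2 u2)
      + (1 / 4) * mul_nonneg (sub_nonneg.2 l3) (sub_nonneg.2 u3) + sq_nonneg (c.s1 - (1 / 2))
      + (5123 / 5760) * hτ
  linarith only [this, h0]

theorem lfP4 (h : Lin2 τ c) (e : CsP c) (hτ : 0 ≤ τ) (h0 : τ ≤ 1 / 10 ^ 7)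
    (l0 : (-5 / 8) ≤ c.z1Ny - c.p2y) (u0 : c.z1Ny - c.p2y ≤ (1 / 2)) (l1 : (-7 / 2) ≤ c.z1Ey - c.p4y) (u1 : c.z1Ey - c.p4y ≤ (-11 / 8))
    (l2 : (-9 / 4) ≤ c.z3Wy - c.p2y) (u2 : c.z3Wy - c.p2y ≤ (1 / 2)) (l3 : (-35 / 16) ≤ c.z3Sy - c.p4y) (u3 : c.z3Sy - c.p4y ≤ (-1 / 2))
    (l4 : 0 ≤ c.s1) (u4 : c.s1 ≤ 1) : False := by
  have : 0 ≤ -(1 / 10) + 22 * τ := by
    linear_combination
      (6525 / 33344) * h.toLin.p2_z3Wv + (2205 / 4168) * h.toLin.p2_eN1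
      + (3825 / 22924) * h.toLin.p2_eW1 + (375 / 5731) * h.toLin.p2_hW
      + (5953 / 8336) * h.toLin.p4_p1 + (8419 / 16672) * h.toLin.p4_p3
      + (18259 / 16672) * h.toLin.p4_z1Ev + (21285 / 33344) * h.toLin.p4_z3Sv
      + (2115 / 8336) * h.toLin.p4_eS2 + (825 / 1042) * h.toLin.p4_hWv
      + (5953 / 8336) * h.toLin.p1_z1Nu + (8419 / 16672) * h.toLin.p3_z3Wu
      + (2295 / 4168) * h.toLin.z1N_k2N + (735 / 4168) * h.toLin.z1N_eN1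
      + (1125 / 1042) * h.toLin.z1E_t2E + (2250 / 521) * h.toLin.z3W_gWh
      + (6885 / 8336) * h.toLin.z3S_t2S + (2115 / 8336) * h.toLin.z3S_eS2
      + (2115 / 4168) * h.toLin.t2N_k2N + (2115 / 4168) * h.toLin.t2S_eS2
      + (2205 / 1042) * h.toLin.k2N_eN1 + (3825 / 4168) * h.toLin.k2W_eW1
      + (450 / 521) * h.toLin.k2W_gWh + (765 / 11462) * h.toLin.eW1_hW
      + (26100 / 27613) * h.toLin.gW_hW + (18701 / 16672) * h.toLin.wRz1N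
      + (18259 / 8336) * h.toLin.wRz1E + (31819 / 16672) * h.toLin.wLz3W
      + (2925 / 2084) * h.toLin.wLz3S + (2115 / 8336) * h.toLin.wRt2N
      + (2115 / 8336) * h.toLin.wLt2S + (1125 / 1042) * h.toLin.wBt2S
      + (1125 / 1042) * h.toLin.wBt2E + (1125 / 1042) * h.toLin.wTk2N
      + (1125 / 1042) * h.toLin.wTk2W + (8505 / 8336) * h.c3 + (29723 / 16672) * e.2.1
      + (9367 / 33344) * (sub_nonneg.2 u3) + (2319 / 16672) * (sub_nonneg.2 l1) + h.hG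
      + (1 / 4) * mul_nonneg (sub_nonneg.2 l0) (sub_nonneg.2 u0)
      + (1 / 4) * mul_nonneg (sub_nonneg.2 l1) (sub_nonneg.2 u1)
      + (1 / 4) * mul_nonneg (sub_nonneg.2 l2) (sub_nonneg.2 u2)
      + (1 / 4) * mul_nonneg (sub_nonneg.2 l3) (sub_nonneg.2 u3) + sq_nonneg (c.s1 - (1 / 2))
      + (3286387 / 4859888) * hτ
  linarith only [this, h0]

theorem lfP6 (h : Lin2 τ c) (e : CsP c) (hτ : 0 ≤ τ) (h0 : τ ≤ 1 / 10 ^ 7)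
    (l0 : (-1 / 2) ≤ c.z1Ny - c.p2y) (u0 : c.z1Ny - c.p2y ≤ (1 / 2)) (l1 : (-17 / 4) ≤ c.z1Ey - c.p4y) (u1 : c.z1Ey - c.p4y ≤ (-7 / 2))
    (l2 : (-9 / 4) ≤ c.z3Wy - c.p2y) (u2 : c.z3Wy - c.p2y ≤ (-1 / 2)) (l3 : (-1 / 2) ≤ c.z3Sy - c.p4y) (u3 : c.z3Sy - c.p4y ≤ (1 / 2))
    (l4 : 0 ≤ c.s1) (u4 : c.s1 ≤ 1) : False := by
  have : 0 ≤ -(1 / 10) + 22 * τ := by
    linear_combination
      (5 / 4) * h.toLin.p2_z1Nv + (1 / 16) * h.toLin.p2_z3Wv + (8 / 7) * h.toLin.p2_k3Wv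
      + (1 / 2) * h.toLin.p2_eN1 + (4 / 7) * h.toLin.p2_eW1 + (1083 / 680) * h.toLin.p4_p3
      + (189 / 80) * h.toLin.p4_z1Ev + (3 / 2) * h.toLin.p4_k3Sv + (1 / 4) * h.toLin.p4_eS2
      + (22 / 85) * h.toLin.p4_hNv + (67 / 40) * h.toLin.p3_z3Wu + (1 / 10) * h.toLin.p3_z3Su
      + (8 / 85) * h.toLin.p3_hNv + (1 / 2) * h.toLin.z1N_k2N + (1 / 6) * h.toLin.z1N_eN1
      + (2 / 5) * h.toLin.z1N_hNu + h.toLin.z1E_t2E + (1 / 4) * h.toLin.z3S_eS2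
      + (1 / 2) * h.toLin.t2N_k2N + (3 / 2) * h.toLin.t2S_k3S + (1 / 2) * h.toLin.t2S_eS2
      + 2 * h.toLin.k2N_eN1 + h.toLin.k2W_k3W + 2 * h.toLin.k2W_eW1 + (2 / 7) * h.toLin.k3W_eW1
      + (33 / 10) * h.toLin.wRz1N + (189 / 40) * h.toLin.wRz1E + (9 / 5) * h.toLin.wLz3W
      + (9 / 40) * h.toLin.wLz3S + (1 / 4) * h.toLin.wRt2N + (1 / 4) * h.toLin.wLt2S + h.toLin.wBt2S
      + h.toLin.wBt2E + h.toLin.wTk2N + h.toLin.wTk2W + 3 * h.toLin.wLk3W + 3 * h.toLin.wLk3S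
      + (1 / 8) * h.c3 + (9 / 5) * e.2.1 + (1 / 40) * (sub_nonneg.2 u3)
      + (3 / 10) * (sub_nonneg.2 l0) + (sub_nonneg.2 u1) + (67 / 40) * (sub_nonneg.2 u2)
      + (421 / 1020) * hτ
  linarith only [this, h0]

theorem lfP8 (h : Lin2 τ c) (e : CsP c) (hτ : 0 ≤ τ) (h0 : τ ≤ 1 / 10 ^ 7)
    (l0 : (-1 / 2) ≤ c.z1Ny - c.p2y) (u0 : c.z1Ny - c.p2y ≤ (1 / 2)) (l1 : (-7 / 2) ≤ c.z1Ey - c.p4y) (u1 : c.z1Ey - c.p4y ≤ (-11 / 8))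
    (l2 : (-9 / 4) ≤ c.z3Wy - c.p2y) (u2 : c.z3Wy - c.p2y ≤ (1 / 2)) (l3 : (-1 / 2) ≤ c.z3Sy - c.p4y) (u3 : c.z3Sy - c.p4y ≤ (1 / 2))
    (l4 : 0 ≤ c.s1) (u4 : c.s1 ≤ 1) : False := by
  have : 0 ≤ -(1 / 10) + 11 * τ := by
    linear_combination
      (8 / 9) * h.toLin.p2_z1Nv + (55 / 96) * h.toLin.p2_z3Wu + (1 / 3) * h.toLin.p2_k3Wv
      + (7 / 36) * h.toLin.p2_eN1 + (1 / 6) * h.toLin.p2_eW1 + (7 / 48) * h.toLin.p4_p1
      + (7 / 16) * h.toLin.p4_p3 + (181 / 192) * h.toLin.p4_z1Ev + (55 / 192) * h.toLin.p4_z3Sv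
      + (7 / 24) * h.toLin.p4_k3Sv + (7 / 24) * h.toLin.p4_eS2 + (7 / 48) * h.toLin.p1_z1Nu
      + (7 / 16) * h.toLin.p3_z3Wu + (7 / 72) * h.toLin.z1N_k2N + (7 / 108) * h.toLin.z1N_eN1
      + (7 / 24) * h.toLin.z1E_t2E + (7 / 24) * h.toLin.t2N_k2N + (7 / 24) * h.toLin.t2S_k3S
      + (7 / 24) * h.toLin.t2S_eS2 + (7 / 9) * h.toLin.k2N_eN1 + (7 / 24) * h.toLin.k2W_k3W
      + (7 / 12) * h.toLin.k2W_eW1 + (1 / 12) * h.toLin.k3W_eW1 + (7 / 12) * h.toLin.k3S_eS2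
      + (97 / 48) * h.toLin.wRz1N + (181 / 96) * h.toLin.wRz1E + (19 / 12) * h.toLin.wLz3W
      + (55 / 96) * h.toLin.wLz3S + (7 / 48) * h.toLin.wRt2N + (7 / 48) * h.toLin.wLt2S
      + (7 / 24) * h.toLin.wBt2S + (7 / 24) * h.toLin.wBt2E + (7 / 24) * h.toLin.wTk2N
      + (7 / 24) * h.toLin.wTk2W + (7 / 8) * h.toLin.wLk3W + (7 / 8) * h.toLin.wLk3S
      + (55 / 96) * h.c3 + (1 / 96) * e.2.1 + (89 / 96) * (sub_nonneg.2 l1) + h.hG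
      + (1 / 4) * mul_nonneg (sub_nonneg.2 l0) (sub_nonneg.2 u0)
      + (1 / 4) * mul_nonneg (sub_nonneg.2 l1) (sub_nonneg.2 u1)
      + (1 / 4) * mul_nonneg (sub_nonneg.2 l2) (sub_nonneg.2 u2)
      + (1 / 4) * mul_nonneg (sub_nonneg.2 l3) (sub_nonneg.2 u3) + sq_nonneg (c.s1 - (1 / 2))
      + (139 / 216) * hτ
  linarith only [this, h0]

theorem lfP10 (h : Lin2 τ c) (e : CsP c) (hτ : 0 ≤ τ) (h0 : τ ≤ 1 / 10 ^ 7)
    (l0 : (1 / 2) ≤ c.z1Ny - c.p2y) (u0 : c.z1Ny - c.p2y ≤ (5 / 2)) (l1 : (-17 / 4) ≤ c.z1Ey - c.p4y) (u1 : c.z1Ey - c.p4y ≤ (-7 / 2))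
    (l2 : (-9 / 4) ≤ c.z3Wy - c.p2y) (u2 : c.z3Wy - c.p2y ≤ (1 / 2)) (l3 : (-1 / 2) ≤ c.z3Sy - c.p4y) (u3 : c.z3Sy - c.p4y ≤ (1 / 2))
    (l4 : 0 ≤ c.s1) (u4 : c.s1 ≤ 1) : False := by
  have : 0 ≤ -(1 / 10) + 33 * τ := by
    linear_combination
      (13639901 / 10159968) * h.toLin.p2_p4 + (220975 / 120952) * h.toLin.p2_z1Nu
      + (6019925 / 2539992) * h.toLin.p2_k3Wv + (275890 / 317499) * h.toLin.p2_eN1
      + (572257 / 725712) * h.toLin.p4_p3 + (21945709 / 6773312) * h.toLin.p4_z1Ev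
      + (49895 / 6773312) * h.toLin.p4_z3Sv + (5428229 / 2539992) * h.toLin.p4_k3Sv
      + (169643 / 181428) * h.toLin.p4_eS2 + (4454965 / 10159968) * h.toLin.p3_z3Wu
      + (110356 / 317499) * h.toLin.p3_k2Wv + (113291 / 423332) * h.toLin.p3_eS2
      + (5870 / 105833) * h.toLin.p3_gW + (5428229 / 5079984) * h.toLin.z1N_t1N
      + (275890 / 952497) * h.toLin.z1N_eN1 + (31 / 16) * h.toLin.z1E_t2E
      + (19958 / 317499) * h.toLin.z3W_gWh + (5428229 / 2539992) * h.toLin.t1W_k3W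
      + (551780 / 317499) * h.toLin.t2N_k2N + (5428229 / 2539992) * h.toLin.t2S_k3S
      + (551780 / 317499) * h.toLin.t2S_eS2 + (1103560 / 317499) * h.toLin.k2N_eN1
      + (110356 / 317499) * h.toLin.k2W_k3W + (37568 / 317499) * h.toLin.k3W_gWh
      + (423814 / 317499) * h.toLin.k3S_eS2 + (4916365 / 1269996) * h.toLin.wRz1N
      + (21945709 / 3386656) * h.toLin.wRz1E + (2302325 / 5079984) * h.toLin.wLz3W
      + (49895 / 3386656) * h.toLin.wLz3S + (5428229 / 5079984) * h.toLin.wTt1N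
      + (5428229 / 5079984) * h.toLin.wTt1W + (275890 / 317499) * h.toLin.wRt2N
      + (275890 / 317499) * h.toLin.wLt2S + (31 / 16) * h.toLin.wBt2S + (31 / 16) * h.toLin.wBt2E
      + (275890 / 317499) * h.toLin.wTk2N + (275890 / 317499) * h.toLin.wTk2W
      + (896551 / 181428) * h.toLin.wLk3W + (896551 / 181428) * h.toLin.wLk3S
      + (9979 / 10159968) * h.c3 + (6438301 / 1451424) * e.2.1
      + (907267 / 1693328) * (sub_nonneg.2 l0) + h.hG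
      + (1 / 4) * mul_nonneg (sub_nonneg.2 l0) (sub_nonneg.2 u0)
      + (1 / 4) * mul_nonneg (sub_nonneg.2 l1) (sub_nonneg.2 u1)
      + (1 / 4) * mul_nonneg (sub_nonneg.2 l2) (sub_nonneg.2 u2)
      + (1 / 4) * mul_nonneg (sub_nonneg.2 l3) (sub_nonneg.2 u3) + sq_nonneg (c.s1 - (4 / 13))
      + (330991 / 334944) * hτ
  linarith only [this, h0]

theorem lfP12 (h : Lin2 τ c) (e : CsP c) (hτ : 0 ≤ τ) (h0 : τ ≤ 1 / 10 ^ 7)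
    (l0 : (-5 / 2) ≤ c.z1Ny - c.p2y) (u0 : c.z1Ny - c.p2y ≤ (-3 / 8)) (l1 : (-17 / 4) ≤ c.z1Ey - c.p4y) (u1 : c.z1Ey - c.p4y ≤ (-13 / 8))
    (l2 : (1 / 2) ≤ c.z3Wy - c.p2y) (u2 : c.z3Wy - c.p2y ≤ (13 / 8)) (l3 : (-15 / 4) ≤ c.z3Sy - c.p4y) (u3 : c.z3Sy - c.p4y ≤ (-27 / 8))
    (l4 : 0 ≤ c.s1) (u4 : c.s1 ≤ 1) : False := by
  have : 0 ≤ -(1 / 10) + 181 * τ := by
    linear_combination
      (4301 / 1680) * h.toLin.p2_p4 + (647 / 224) * h.toLin.p2_z3Wv + (177 / 28) * h.toLin.p2_eN1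
      + (289 / 220) * h.toLin.p2_eW1 + (17 / 33) * h.toLin.p2_hW + (1003 / 224) * h.toLin.p4_p1
      + (651 / 64) * h.toLin.p4_z1Ev + (2493 / 448) * h.toLin.p4_z3Sv + (293 / 56) * h.toLin.p4_eS2
      + (187 / 30) * h.toLin.p4_hWv + (1003 / 224) * h.toLin.p1_z1Nu + (61 / 28) * h.toLin.z1N_k2N
      + (59 / 28) * h.toLin.z1N_eN1 + (17 / 2) * h.toLin.z1E_t2E + 34 * h.toLin.z3W_gWh
      + (183 / 56) * h.toLin.z3S_t2S + (293 / 56) * h.toLin.z3S_eS2 + (293 / 28) * h.toLin.t2N_k2N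
      + (293 / 28) * h.toLin.t2S_eS2 + (177 / 7) * h.toLin.k2N_eN1 + (289 / 40) * h.toLin.k2W_eW1
      + (34 / 5) * h.toLin.k2W_gWh + (289 / 550) * h.toLin.eW1_hW + (1972 / 265) * h.toLin.gW_hW
      + (1601 / 224) * h.toLin.wRz1N + (651 / 32) * h.toLin.wRz1E + (3079 / 224) * h.toLin.wLz3W
      + (3079 / 224) * h.toLin.wLz3S + (293 / 56) * h.toLin.wRt2N + (293 / 56) * h.toLin.wLt2S
      + (17 / 2) * h.toLin.wBt2S + (17 / 2) * h.toLin.wBt2E + (17 / 2) * h.toLin.wTk2N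
      + (17 / 2) * h.toLin.wTk2W + (1437 / 224) * h.c3 + (3959 / 224) * e.2.1
      + (919 / 224) * (sub_nonneg.2 u3) + (225 / 32) * (sub_nonneg.2 u1) + h.hG
      + (1 / 4) * mul_nonneg (sub_nonneg.2 l0) (sub_nonneg.2 u0)
      + (1 / 4) * mul_nonneg (sub_nonneg.2 l1) (sub_nonneg.2 u1)
      + (1 / 4) * mul_nonneg (sub_nonneg.2 l2) (sub_nonneg.2 u2)
      + (1 / 4) * mul_nonneg (sub_nonneg.2 l3) (sub_nonneg.2 u3) + sq_nonneg (c.s1 - (1 / 2))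
      + (1099221 / 3264800) * hτ
  linarith only [this, h0]

theorem lfP14 (h : Lin2 τ c) (e : CsP c) (hτ : 0 ≤ τ) (h0 : τ ≤ 1 / 10 ^ 7)
    (l0 : (-5 / 8) ≤ c.z1Ny - c.p2y) (u0 : c.z1Ny - c.p2y ≤ (-3 / 8)) (l1 : (-13 / 8) ≤ c.z1Ey - c.p4y) (u1 : c.z1Ey - c.p4y ≤ (-11 / 8))
    (l2 : (1 / 2) ≤ c.z3Wy - c.p2y) (u2 : c.z3Wy - c.p2y ≤ (11 / 8)) (l3 : (-15 / 4) ≤ c.z3Sy - c.p4y) (u3 : c.z3Sy - c.p4y ≤ (-27 / 8))
    (l4 : 0 ≤ c.s1) (u4 : c.s1 ≤ 1) : False := by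
  have : 0 ≤ -(1 / 100) + 36 * τ := by
    linear_combination
      (1319 / 2560) * h.toLin.p2_p4 + (477 / 512) * h.toLin.p2_z3Wv + (3 / 2) * h.toLin.p2_eN1
      + (15 / 128) * h.toLin.p2_eN2 + (51 / 440) * h.toLin.p2_eW1 + (1 / 22) * h.toLin.p2_hW
      + (59 / 32) * h.toLin.p4_p1 + (827 / 512) * h.toLin.p4_z1Ev + (201 / 256) * h.toLin.p4_z3Sv
      + (255 / 128) * h.toLin.p4_eS2 + (11 / 20) * h.toLin.p4_hWv + (59 / 32) * h.toLin.p1_z1Nu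
      + (201 / 256) * h.toLin.z1N_t1N + (3 / 4) * h.toLin.z1N_t2N + (15 / 128) * h.toLin.z1N_eN2
      + (3 / 4) * h.toLin.z1E_t2E + 3 * h.toLin.z3W_gWh + (201 / 256) * h.toLin.z3S_t1S
      + (255 / 128) * h.toLin.z3S_eS2 + (3 / 2) * h.toLin.t2N_k2N + (3 / 2) * h.toLin.t2N_eN1
      + (15 / 64) * h.toLin.t2N_eN2 + (255 / 64) * h.toLin.t2S_eS2 + 3 * h.toLin.k2N_eN1
      + (51 / 80) * h.toLin.k2W_eW1 + (3 / 5) * h.toLin.k2W_gWh + (51 / 1100) * h.toLin.eW1_hW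
      + (174 / 265) * h.toLin.gW_hW + (487 / 256) * h.toLin.wRz1N + (827 / 256) * h.toLin.wRz1E
      + (657 / 256) * h.toLin.wLz3W + (657 / 256) * h.toLin.wLz3S + (201 / 256) * h.toLin.wTt1N
      + (201 / 256) * h.toLin.wBt1S + (255 / 128) * h.toLin.wRt2N + (159 / 128) * h.toLin.wTt2N
      + (255 / 128) * h.toLin.wLt2S + (255 / 128) * h.toLin.wBt2S + (3 / 4) * h.toLin.wBt2E
      + (3 / 4) * h.toLin.wTk2N + (3 / 4) * h.toLin.wTk2W + (117 / 64) * h.c3 + (203 / 64) * e.2.1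
      + (27 / 64) * (sub_nonneg.2 u2) + h.hG
      + (1 / 4) * mul_nonneg (sub_nonneg.2 l0) (sub_nonneg.2 u0)
      + (1 / 4) * mul_nonneg (sub_nonneg.2 l1) (sub_nonneg.2 u1)
      + (1 / 4) * mul_nonneg (sub_nonneg.2 l2) (sub_nonneg.2 u2)
      + (1 / 4) * mul_nonneg (sub_nonneg.2 l3) (sub_nonneg.2 u3) + sq_nonneg (c.s1 - (1 / 2))
      + (7294241 / 7462400) * hτ
  linarith only [this, h0]

theorem lfP16 (h : Lin2 τ c) (e : CsP c) (hτ : 0 ≤ τ) (h0 : τ ≤ 1 / 10 ^ 7)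
    (l0 : (-5 / 8) ≤ c.z1Ny - c.p2y) (u0 : c.z1Ny - c.p2y ≤ (-3 / 8)) (l1 : (-13 / 8) ≤ c.z1Ey - c.p4y) (u1 : c.z1Ey - c.p4y ≤ (-11 / 8))
    (l2 : (11 / 8) ≤ c.z3Wy - c.p2y) (u2 : c.z3Wy - c.p2y ≤ (13 / 8)) (l3 : (-15 / 4) ≤ c.z3Sy - c.p4y) (u3 : c.z3Sy - c.p4y ≤ (-29 / 8))
    (l4 : (3 / 8) ≤ c.s1) (u4 : c.s1 ≤ (5 / 8)) : False := by
  have : 0 ≤ -1 + 692 * τ := by
    linear_combination
      (5091 / 220) * h.toLin.p2_p1 + (11159 / 660) * h.toLin.p2_z3Wv + (496 / 33) * h.toLin.p2_eN1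
      + (357 / 55) * h.toLin.p2_eW1 + (187313 / 11220) * h.toLin.p4_p1
      + (2837 / 88) * h.toLin.p4_z1Ev + (42289 / 1320) * h.toLin.p4_z3Sv
      + (17052 / 935) * h.toLin.p4_hWv + (14923 / 660) * h.toLin.p1_z1Nu
      + (320 / 11) * h.toLin.p1_gE + (2436 / 935) * h.toLin.p1_hWv + (1123 / 165) * h.toLin.z1N_t1N
      + (512 / 33) * h.toLin.z1N_k2N + (496 / 99) * h.toLin.z1N_eN1 + 64 * h.toLin.z1E_gEh
      + (119 / 55) * h.toLin.z3W_eW1 + (1344 / 11) * h.toLin.z3W_gWh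
      + (1123 / 165) * h.toLin.z3S_t1S + (336 / 11) * h.toLin.z3S_t2S + (160 / 11) * h.toLin.t2N_k2N
      + (1024 / 33) * h.toLin.t2E_gEh + (1984 / 33) * h.toLin.k2N_eN1
      + (1428 / 55) * h.toLin.k2W_eW1 + (1344 / 55) * h.toLin.k2W_gWh
      + (77952 / 2915) * h.toLin.gW_hW + (22523 / 660) * h.toLin.wRz1N + (3497 / 44) * h.toLin.wRz1E
      + (42289 / 660) * h.toLin.wLz3W + (42289 / 660) * h.toLin.wLz3S + (1123 / 165) * h.toLin.wTt1N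
      + (1123 / 165) * h.toLin.wBt1S + (80 / 11) * h.toLin.wRt2N + (336 / 11) * h.toLin.wBt2S
      + (80 / 11) * h.toLin.wRt2E + (336 / 11) * h.toLin.wBt2E + (336 / 11) * h.toLin.wTk2N
      + (336 / 11) * h.toLin.wTk2W + (2453 / 60) * h.c3 + (8971 / 132) * e.2.1 + (sub_nonneg.2 u1)
      + (763 / 220) * (sub_nonneg.2 l0) + (777 / 220) * (sub_nonneg.2 l2)
      + (6163 / 165) * (sub_nonneg.2 u3) + (59021 / 356796) * hτ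
  linarith only [this, h0]

theorem lfP18 (h : Lin2 τ c) (e : CsP c) (hτ : 0 ≤ τ) (h0 : τ ≤ 1 / 10 ^ 7)
    (l0 : (-5 / 2) ≤ c.z1Ny - c.p2y) (u0 : c.z1Ny - c.p2y ≤ (-3 / 8)) (l1 : (-17 / 4) ≤ c.z1Ey - c.p4y) (u1 : c.z1Ey - c.p4y ≤ (-11 / 8))
    (l2 : (13 / 8) ≤ c.z3Wy - c.p2y) (u2 : c.z3Wy - c.p2y ≤ (7 / 2)) (l3 : (-15 / 4) ≤ c.z3Sy - c.p4y) (u3 : c.z3Sy - c.p4y ≤ (-27 / 8))
    (l4 : 0 ≤ c.s1) (u4 : c.s1 ≤ 1) : False := by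
  have : 0 ≤ -(1 / 10) + 1235 * τ := by
    linear_combination
      (5237 / 289) * h.toLin.p2_p4 + (855 / 17) * h.toLin.p2_p1 + (88435 / 1734) * h.toLin.p2_z3Wv
      + (240 / 17) * h.toLin.p2_k1Nv + (8140 / 289) * h.toLin.p2_eN1 + (8140 / 867) * h.toLin.p2_eW1
      + (6679 / 289) * h.toLin.p4_p1 + (34331 / 578) * h.toLin.p4_z1Ev
      + (14400 / 289) * h.toLin.p4_z3Sv + (8140 / 289) * h.toLin.p4_eS2
      + (8719 / 289) * h.toLin.p1_z1Nu + (960 / 17) * h.toLin.p1_gE + (6684 / 289) * h.toLin.z1N_t1N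
      + (8140 / 867) * h.toLin.z1N_eN1 + 64 * h.toLin.z1E_gEh + (8724 / 289) * h.toLin.z3W_t1W
      + (16280 / 867) * h.toLin.z3W_k2W + (8140 / 2601) * h.toLin.z3W_eW1
      + (8724 / 289) * h.toLin.z3S_t2S + (8140 / 289) * h.toLin.z3S_eS2
      + (240 / 17) * h.toLin.t1N_k1N + (16280 / 289) * h.toLin.t2N_k2N
      + (16280 / 289) * h.toLin.t2S_eS2 + (1984 / 17) * h.toLin.t2E_k1E
      + (2048 / 17) * h.toLin.k1E_gEh + (32560 / 289) * h.toLin.k2N_eN1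
      + (32560 / 867) * h.toLin.k2W_eW1 + (10754 / 289) * h.toLin.wRz1N
      + (38666 / 289) * h.toLin.wRz1E + (32870 / 289) * h.toLin.wLz3W
      + (32870 / 289) * h.toLin.wLz3S + (8724 / 289) * h.toLin.wTt1N + (8724 / 289) * h.toLin.wTt1W
      + (8140 / 289) * h.toLin.wRt2N + (8140 / 289) * h.toLin.wLt2S + (992 / 17) * h.toLin.wBt2S
      + (992 / 17) * h.toLin.wBt2E + (480 / 17) * h.toLin.wRk1N + (480 / 17) * h.toLin.wRk1E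
      + (8140 / 289) * h.toLin.wTk2N + (8140 / 289) * h.toLin.wTk2W + (27623 / 289) * h.c3
      + (36631 / 289) * e.2.1 + (sub_nonneg.2 u1) + (12794 / 289) * (sub_nonneg.2 u3)
      + (14829 / 289) * (sub_nonneg.2 l2) + (128 / 2601) * hτ
  linarith only [this, h0]

theorem lfP20 (h : Lin2 τ c) (e : CsP c) (hτ : 0 ≤ τ) (h0 : τ ≤ 1 / 10 ^ 7)
    (l0 : (-5 / 2) ≤ c.z1Ny - c.p2y) (u0 : c.z1Ny - c.p2y ≤ (-3 / 8)) (l1 : (-13 / 8) ≤ c.z1Ey - c.p4y) (u1 : c.z1Ey - c.p4y ≤ (-11 / 8))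
    (l2 : (1 / 2) ≤ c.z3Wy - c.p2y) (u2 : c.z3Wy - c.p2y ≤ (13 / 8)) (l3 : (-27 / 8) ≤ c.z3Sy - c.p4y) (u3 : c.z3Sy - c.p4y ≤ (-2))
    (l4 : 0 ≤ c.s1) (u4 : c.s1 ≤ 1) : False := by
  have : 0 ≤ -(1 / 100) + 18 * τ := by
    linear_combination
      (151 / 480) * h.toLin.p2_p4 + (13 / 32) * h.toLin.p2_z3Wv + (1 / 21) * h.toLin.p2_k1Nv
      + (137 / 168) * h.toLin.p2_eN1 + (29 / 120) * h.toLin.p2_eW1 + (7 / 8) * h.toLin.p4_p1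
      + (95 / 192) * h.toLin.p4_z1Ev + (25 / 64) * h.toLin.p4_z3Sv + (1 / 12) * h.toLin.p4_k1Ev
      + (19 / 24) * h.toLin.p4_eS2 + (1 / 15) * h.toLin.p4_hWv + (7 / 8) * h.toLin.p1_z1Nu
      + (5 / 24) * h.toLin.z1N_eN1 + (3 / 4) * h.toLin.z1E_t2E + (55 / 116) * h.toLin.z3W_k2W
      + (5 / 72) * h.toLin.z3W_eW1 + (28 / 87) * h.toLin.z3W_gWh + (19 / 24) * h.toLin.z3S_eS2
      + (19 / 12) * h.toLin.t2N_k2N + (19 / 12) * h.toLin.t2S_eS2 + (1 / 12) * h.toLin.t2E_k1E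
      + (2 / 21) * h.toLin.k1N_eN1 + (19 / 6) * h.toLin.k2N_eN1 + (61 / 60) * h.toLin.k2W_eW1
      + (28 / 435) * h.toLin.k2W_gWh + (1 / 75) * h.toLin.eW1_hW + (56 / 795) * h.toLin.gW_hW
      + (33 / 32) * h.toLin.wRz1N + (95 / 96) * h.toLin.wRz1E + (113 / 96) * h.toLin.wLz3W
      + (113 / 96) * h.toLin.wLz3S + (19 / 24) * h.toLin.wRt2N + (19 / 24) * h.toLin.wLt2S
      + (19 / 24) * h.toLin.wBt2S + (19 / 24) * h.toLin.wBt2E + (1 / 6) * h.toLin.wRk1N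
      + (1 / 6) * h.toLin.wRk1E + (19 / 24) * h.toLin.wTk2N + (19 / 24) * h.toLin.wTk2W
      + (89 / 96) * h.c3 + (5 / 6) * e.2.1 + (91 / 96) * (sub_nonneg.2 l3) + h.hG
      + (1 / 4) * mul_nonneg (sub_nonneg.2 l0) (sub_nonneg.2 u0)
      + (1 / 4) * mul_nonneg (sub_nonneg.2 l1) (sub_nonneg.2 u1)
      + (1 / 4) * mul_nonneg (sub_nonneg.2 l2) (sub_nonneg.2 u2)
      + (1 / 4) * mul_nonneg (sub_nonneg.2 l3) (sub_nonneg.2 u3) + sq_nonneg (c.s1 - (1 / 2))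
      + (523031 / 1383300) * hτ
  linarith only [this, h0]

theorem lfP22 (h : Lin2 τ c) (e : CsP c) (hτ : 0 ≤ τ) (h0 : τ ≤ 1 / 10 ^ 7)
    (l0 : (-5 / 2) ≤ c.z1Ny - c.p2y) (u0 : c.z1Ny - c.p2y ≤ (-3 / 8)) (l1 : (-17 / 4) ≤ c.z1Ey - c.p4y) (u1 : c.z1Ey - c.p4y ≤ (-13 / 4))
    (l2 : (1 / 2) ≤ c.z3Wy - c.p2y) (u2 : c.z3Wy - c.p2y ≤ (13 / 8)) (l3 : (-2) ≤ c.z3Sy - c.p4y) (u3 : c.z3Sy - c.p4y ≤ (1 / 2))
    (l4 : 0 ≤ c.s1) (u4 : c.s1 ≤ 1) : False := by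
  have : 0 ≤ -(1 / 10) + 45 * τ := by
    linear_combination
      (491 / 912) * h.toLin.p2_p3 + (1241 / 1824) * h.toLin.p2_z3Wv + (15 / 8) * h.toLin.p2_eN1
      + (799 / 2280) * h.toLin.p2_eW1 + (2 / 285) * h.toLin.p2_hW + (17 / 8) * h.toLin.p4_p1
      + (11 / 64) * h.toLin.p4_p3 + (105 / 64) * h.toLin.p4_z1Ev + (55 / 64) * h.toLin.p4_z3Sv
      + (15 / 8) * h.toLin.p4_eS2 + (3 / 4) * h.toLin.p4_hWv + (17 / 8) * h.toLin.p1_z1Nu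
      + (9 / 16) * h.toLin.p3_z3Su + (11 / 57) * h.toLin.p3_gW + (5 / 8) * h.toLin.z1N_eN1
      + (15 / 8) * h.toLin.z1E_t2E + (3043 / 6612) * h.toLin.z3W_k2W
      + (7514 / 1653) * h.toLin.z3W_gWh + (15 / 8) * h.toLin.z3S_eS2 + (15 / 4) * h.toLin.t2N_k2N
      + (15 / 4) * h.toLin.t2S_eS2 + (15 / 2) * h.toLin.k2N_eN1 + (8789 / 4560) * h.toLin.k2W_eW1
      + (2611 / 2755) * h.toLin.k2W_gWh + (799 / 5700) * h.toLin.eW1_hW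
      + (12146 / 15105) * h.toLin.gW_hW + (83 / 32) * h.toLin.wRz1N + (105 / 32) * h.toLin.wRz1E
      + (85 / 32) * h.toLin.wLz3W + (103 / 32) * h.toLin.wLz3S + (15 / 8) * h.toLin.wRt2N
      + (15 / 8) * h.toLin.wLt2S + (15 / 8) * h.toLin.wBt2S + (15 / 8) * h.toLin.wBt2E
      + (15 / 8) * h.toLin.wTk2N + (15 / 8) * h.toLin.wTk2W + (47 / 32) * h.c3 + (45 / 16) * e.2.1
      + (15 / 16) * (sub_nonneg.2 u0) + h.hG
      + (1 / 4) * mul_nonneg (sub_nonneg.2 l0) (sub_nonneg.2 u0)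
      + (1 / 4) * mul_nonneg (sub_nonneg.2 l1) (sub_nonneg.2 u1)
      + (1 / 4) * mul_nonneg (sub_nonneg.2 l2) (sub_nonneg.2 u2)
      + (1 / 4) * mul_nonneg (sub_nonneg.2 l3) (sub_nonneg.2 u3) + sq_nonneg (c.s1 - (1 / 2))
      + (4259563 / 7377600) * hτ
  linarith only [this, h0]

theorem lfP24 (h : Lin2 τ c) (e : CsP c) (hτ : 0 ≤ τ) (h0 : τ ≤ 1 / 10 ^ 7)
    (l0 : (-5 / 2) ≤ c.z1Ny - c.p2y) (u0 : c.z1Ny - c.p2y ≤ (-3 / 8)) (l1 : (-17 / 4) ≤ c.z1Ey - c.p4y) (u1 : c.z1Ey - c.p4y ≤ (-11 / 8))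
    (l2 : (13 / 8) ≤ c.z3Wy - c.p2y) (u2 : c.z3Wy - c.p2y ≤ (7 / 2)) (l3 : (-2) ≤ c.z3Sy - c.p4y) (u3 : c.z3Sy - c.p4y ≤ (1 / 2))
    (l4 : 0 ≤ c.s1) (u4 : c.s1 ≤ 1) : False := by
  have : 0 ≤ -(1 / 10) + 50 * τ := by
    linear_combination
      (28651 / 51728) * h.toLin.p2_p4 + (7395 / 51728) * h.toLin.p2_p1
      + (2081 / 12932) * h.toLin.p2_p3 + (5545 / 206912) * h.toLin.p2_z1Nu
      + (286603 / 310368) * h.toLin.p2_z3Wv + (12629 / 6466) * h.toLin.p2_eN1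
      + (39119 / 77592) * h.toLin.p2_eW1 + (98013 / 51728) * h.toLin.p4_p1
      + (200823 / 206912) * h.toLin.p4_z3Sv + (11397 / 12932) * h.toLin.p4_eS1
      + (13861 / 12932) * h.toLin.p4_eS2 + (5046 / 3233) * h.toLin.p4_gE
      + (51225 / 25864) * h.toLin.p1_z1Nu + (1479 / 12932) * h.toLin.p1_k4Ev
      + (2081 / 12932) * h.toLin.p3_z3Su + (13861 / 38796) * h.toLin.z1N_eN1
      + (31521 / 25864) * h.toLin.z1E_t2E + (38802 / 3233) * h.toLin.z1E_gEh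
      + (3799 / 25864) * h.toLin.z3W_t1W + (39119 / 38796) * h.toLin.z3W_k2W
      + (39119 / 232776) * h.toLin.z3W_eW1 + (13861 / 12932) * h.toLin.z3S_eS2
      + (3799 / 6466) * h.toLin.t1N_eN1 + (11397 / 12932) * h.toLin.t1S_k4S
      + (39119 / 12932) * h.toLin.t2N_k2N + (3799 / 12932) * h.toLin.t2N_eN1
      + (11397 / 12932) * h.toLin.t2S_eS1 + (13861 / 6466) * h.toLin.t2S_eS2
      + (39119 / 6466) * h.toLin.k2N_eN1 + (39119 / 19398) * h.toLin.k2W_eW1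
      + (11397 / 6466) * h.toLin.k4S_eS1 + (696 / 3233) * h.toLin.k4E_gEh
      + (238167 / 103456) * h.toLin.wRz1N + (291015 / 103456) * h.toLin.wRz1E
      + (256267 / 103456) * h.toLin.wLz3W + (272915 / 103456) * h.toLin.wLz3S
      + (11397 / 25864) * h.toLin.wRt1N + (3799 / 25864) * h.toLin.wTt1N
      + (3799 / 25864) * h.toLin.wTt1W + (11397 / 25864) * h.toLin.wLt1S
      + (89635 / 51728) * h.toLin.wRt2N + (3799 / 51728) * h.toLin.wTt2N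
      + (89635 / 51728) * h.toLin.wLt2S + (66841 / 51728) * h.toLin.wBt2S
      + (31521 / 25864) * h.toLin.wBt2E + (39119 / 25864) * h.toLin.wTk2N
      + (39119 / 25864) * h.toLin.wTk2W + (11397 / 25864) * h.toLin.wBk4S
      + (11397 / 25864) * h.toLin.wBk4E + (187997 / 103456) * h.c3 + (521041 / 206912) * e.2.1
      + (102819 / 103456) * (sub_nonneg.2 u0) + h.hG
      + (1 / 4) * mul_nonneg (sub_nonneg.2 l0) (sub_nonneg.2 u0)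
      + (1 / 4) * mul_nonneg (sub_nonneg.2 l1) (sub_nonneg.2 u1)
      + (1 / 4) * mul_nonneg (sub_nonneg.2 l2) (sub_nonneg.2 u2)
      + (1 / 4) * mul_nonneg (sub_nonneg.2 l3) (sub_nonneg.2 u3) + sq_nonneg (c.s1 - (1 / 2))
      + (26329 / 58194) * hτ
  linarith only [this, h0]

theorem lfP26 (h : Lin2 τ c) (e : CsP c) (hτ : 0 ≤ τ) (h0 : τ ≤ 1 / 10 ^ 7)
    (l0 : (-3 / 8) ≤ c.z1Ny - c.p2y) (u0 : c.z1Ny - c.p2y ≤ (7 / 8)) (l1 : (-17 / 4) ≤ c.z1Ey - c.p4y) (u1 : c.z1Ey - c.p4y ≤ (-3))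
    (l2 : (1 / 2) ≤ c.z3Wy - c.p2y) (u2 : c.z3Wy - c.p2y ≤ (25 / 16)) (l3 : (-1 / 2) ≤ c.z3Sy - c.p4y) (u3 : c.z3Sy - c.p4y ≤ (1 / 2))
    (l4 : 0 ≤ c.s1) (u4 : c.s1 ≤ 1) : False := by
  have : 0 ≤ -(1 / 100) + 35 * τ := by
    linear_combination
      (547 / 576) * h.toLin.p2_p4 + (587 / 960) * h.toLin.p2_p3 + (1001 / 1440) * h.toLin.p2_z3Wv
      + (29 / 16) * h.toLin.p2_eN1 + (19 / 90) * h.toLin.p2_eW1 + (21 / 64) * h.toLin.p4_p1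
      + (283 / 576) * h.toLin.p4_p3 + (551 / 288) * h.toLin.p4_z1Ev + (17 / 36) * h.toLin.p4_z3Sv
      + (29 / 16) * h.toLin.p4_eS2 + (21 / 64) * h.toLin.p1_z1Nu + (29 / 32) * h.toLin.p3_z3Su
      + (283 / 720) * h.toLin.p3_k2Wv + (29 / 48) * h.toLin.z1N_eN1 + (29 / 16) * h.toLin.z1E_t2E
      + (587 / 720) * h.toLin.z3W_k2W + (19 / 270) * h.toLin.z3W_eW1 + (29 / 16) * h.toLin.z3S_eS2
      + (29 / 8) * h.toLin.t2N_k2N + (29 / 8) * h.toLin.t2S_eS2 + (29 / 4) * h.toLin.k2N_eN1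
      + (38 / 45) * h.toLin.k2W_eW1 + (25 / 32) * h.toLin.wRz1N + (551 / 144) * h.toLin.wRz1E
      + (533 / 288) * h.toLin.wLz3W + (397 / 144) * h.toLin.wLz3S + (29 / 16) * h.toLin.wRt2N
      + (29 / 16) * h.toLin.wLt2S + (29 / 16) * h.toLin.wBt2S + (29 / 16) * h.toLin.wBt2E
      + (29 / 16) * h.toLin.wTk2N + (29 / 16) * h.toLin.wTk2W + (511 / 288) * h.c3
      + (1943 / 576) * e.2.1 + (203 / 576) * (sub_nonneg.2 l2) + h.hG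
      + (1 / 4) * mul_nonneg (sub_nonneg.2 l0) (sub_nonneg.2 u0)
      + (1 / 4) * mul_nonneg (sub_nonneg.2 l1) (sub_nonneg.2 u1)
      + (1 / 4) * mul_nonneg (sub_nonneg.2 l2) (sub_nonneg.2 u2)
      + (1 / 4) * mul_nonneg (sub_nonneg.2 l3) (sub_nonneg.2 u3) + sq_nonneg (c.s1 - (1 / 3))
      + (7273 / 8640) * hτ
  linarith only [this, h0]

theorem lfP28 (h : Lin2 τ c) (e : CsP c) (hτ : 0 ≤ τ) (h0 : τ ≤ 1 / 10 ^ 7)
    (l0 : (7 / 8) ≤ c.z1Ny - c.p2y) (u0 : c.z1Ny - c.p2y ≤ (5 / 2)) (l1 : (-17 / 4) ≤ c.z1Ey - c.p4y) (u1 : c.z1Ey - c.p4y ≤ (-3))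
    (l2 : (1 / 2) ≤ c.z3Wy - c.p2y) (u2 : c.z3Wy - c.p2y ≤ (25 / 16)) (l3 : (-15 / 4) ≤ c.z3Sy - c.p4y) (u3 : c.z3Sy - c.p4y ≤ (1 / 2))
    (l4 : 0 ≤ c.s1) (u4 : c.s1 ≤ 1) : False := by
  have : 0 ≤ -(1 / 10) + 30 * τ := by
    linear_combination
      (29421 / 27040) * h.toLin.p2_p4 + (8221 / 54080) * h.toLin.p2_p3
      + (30827 / 54080) * h.toLin.p2_z3Wv + (215 / 208) * h.toLin.p2_eN1
      + (54193 / 54080) * h.toLin.p4_p3 + (104999 / 54080) * h.toLin.p4_z1Ev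
      + (64087 / 108160) * h.toLin.p4_z3Sv + (1967 / 27040) * h.toLin.p4_k3Sv
      + (215 / 208) * h.toLin.p4_eS2 + (24163 / 54080) * h.toLin.p3_z3Su
      + (3655 / 13624) * h.toLin.p3_k2Wv + (82869 / 110695) * h.toLin.p3_gW
      + (81 / 104) * h.toLin.z1N_t1N + (215 / 624) * h.toLin.z1N_eN1 + (29 / 16) * h.toLin.z1E_t2E
      + (96973 / 202800) * h.toLin.z3W_t1W + (30383 / 12675) * h.toLin.z3W_gWh
      + (40153 / 54080) * h.toLin.z3S_t2S + (215 / 208) * h.toLin.z3S_eS2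
      + (60977 / 101400) * h.toLin.t1W_k3W + (215 / 104) * h.toLin.t2N_k2N
      + (1967 / 27040) * h.toLin.t2S_k3S + (215 / 104) * h.toLin.t2S_eS2
      + (215 / 52) * h.toLin.k2N_eN1 + (860 / 1703) * h.toLin.k2W_gWh
      + (7868 / 12675) * h.toLin.k3W_gWh + (215 / 832) * h.toLin.wRz1N
      + (104999 / 27040) * h.toLin.wRz1E + (92037 / 54080) * h.toLin.wLz3W
      + (2905 / 1352) * h.toLin.wLz3S + (81 / 104) * h.toLin.wTt1N + (81 / 104) * h.toLin.wTt1W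
      + (215 / 208) * h.toLin.wRt2N + (215 / 208) * h.toLin.wLt2S + (29 / 16) * h.toLin.wBt2S
      + (29 / 16) * h.toLin.wBt2E + (215 / 208) * h.toLin.wTk2N + (215 / 208) * h.toLin.wTk2W
      + (1967 / 13520) * h.toLin.wLk3W + (1967 / 13520) * h.toLin.wLk3S + (23997 / 13520) * h.c3
      + (196023 / 54080) * e.2.1 + (161 / 832) * (sub_nonneg.2 l0) + h.hG
      + (1 / 4) * mul_nonneg (sub_nonneg.2 l0) (sub_nonneg.2 u0)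
      + (1 / 4) * mul_nonneg (sub_nonneg.2 l1) (sub_nonneg.2 u1)
      + (1 / 4) * mul_nonneg (sub_nonneg.2 l2) (sub_nonneg.2 u2)
      + (1 / 4) * mul_nonneg (sub_nonneg.2 l3) (sub_nonneg.2 u3) + sq_nonneg (c.s1 - (1 / 2))
      + (131499481 / 212534400) * hτ
  linarith only [this, h0]

theorem lfP30 (h : Lin2 τ c) (e : CsP c) (hτ : 0 ≤ τ) (h0 : τ ≤ 1 / 10 ^ 7)
    (l0 : (-3 / 8) ≤ c.z1Ny - c.p2y) (u0 : c.z1Ny - c.p2y ≤ (5 / 2)) (l1 : (-3) ≤ c.z1Ey - c.p4y) (u1 : c.z1Ey - c.p4y ≤ (-11 / 8))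
    (l2 : (1 / 2) ≤ c.z3Wy - c.p2y) (u2 : c.z3Wy - c.p2y ≤ (7 / 4)) (l3 : (-15 / 4) ≤ c.z3Sy - c.p4y) (u3 : c.z3Sy - c.p4y ≤ (-27 / 8))
    (l4 : 0 ≤ c.s1) (u4 : c.s1 ≤ 1) : False := by
  have : 0 ≤ -(1 / 10) + 31 * τ := by
    linear_combination
      (92333 / 57600) * h.toLin.p2_p4 + (1039 / 1280) * h.toLin.p2_z3Wv + (17 / 15) * h.toLin.p2_eN1
      + (223 / 960) * h.toLin.p2_eN2 + (289 / 3300) * h.toLin.p2_eW1 + (17 / 495) * h.toLin.p2_hW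
      + (8051 / 3840) * h.toLin.p4_z1Ev + (1277 / 1920) * h.toLin.p4_z3Sv
      + (1583 / 960) * h.toLin.p4_eS2 + (187 / 450) * h.toLin.p4_hWv + (253 / 480) * h.toLin.z1N_t1N
      + (1913 / 1920) * h.toLin.z1N_t2N + (223 / 960) * h.toLin.z1N_eN2
      + (35 / 32) * h.toLin.z1E_t2E + (253 / 480) * h.toLin.z3W_t1W + (34 / 15) * h.toLin.z3W_gWh
      + (1837 / 1920) * h.toLin.z3S_t2S + (1583 / 960) * h.toLin.z3S_eS2
      + (17 / 15) * h.toLin.t2N_k2N + (17 / 15) * h.toLin.t2N_eN1 + (223 / 480) * h.toLin.t2N_eN2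
      + (1583 / 480) * h.toLin.t2S_eS2 + (34 / 15) * h.toLin.k2N_eN1 + (289 / 600) * h.toLin.k2W_eW1
      + (34 / 75) * h.toLin.k2W_gWh + (289 / 8250) * h.toLin.eW1_hW + (1972 / 3975) * h.toLin.gW_hW
      + (223 / 1920) * h.toLin.wRz1N + (8051 / 1920) * h.toLin.wRz1E + (1379 / 640) * h.toLin.wLz3W
      + (1379 / 640) * h.toLin.wLz3S + (253 / 480) * h.toLin.wTt1N + (253 / 480) * h.toLin.wTt1W
      + (1583 / 960) * h.toLin.wRt2N + (2903 / 1920) * h.toLin.wTt2N + (1583 / 960) * h.toLin.wLt2S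
      + (5003 / 1920) * h.toLin.wBt2S + (35 / 32) * h.toLin.wBt2E + (17 / 30) * h.toLin.wTk2N
      + (17 / 30) * h.toLin.wTk2W + (75 / 32) * h.c3 + (1957 / 480) * e.2.1
      + (133 / 120) * (sub_nonneg.2 l0) + h.hG
      + (1 / 4) * mul_nonneg (sub_nonneg.2 l0) (sub_nonneg.2 u0)
      + (1 / 4) * mul_nonneg (sub_nonneg.2 l1) (sub_nonneg.2 u1)
      + (1 / 4) * mul_nonneg (sub_nonneg.2 l2) (sub_nonneg.2 u2)
      + (1 / 4) * mul_nonneg (sub_nonneg.2 l3) (sub_nonneg.2 u3) + sq_nonneg (c.s1 - (1 / 2))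
      + (51313049 / 55968000) * hτ
  linarith only [this, h0]

theorem lfP32 (h : Lin2 τ c) (e : CsP c) (hτ : 0 ≤ τ) (h0 : τ ≤ 1 / 10 ^ 7)
    (l0 : (-3 / 8) ≤ c.z1Ny - c.p2y) (u0 : c.z1Ny - c.p2y ≤ (5 / 2)) (l1 : (-3) ≤ c.z1Ey - c.p4y) (u1 : c.z1Ey - c.p4y ≤ (-11 / 8))
    (l2 : (7 / 4) ≤ c.z3Wy - c.p2y) (u2 : c.z3Wy - c.p2y ≤ (7 / 2)) (l3 : (-15 / 4) ≤ c.z3Sy - c.p4y) (u3 : c.z3Sy - c.p4y ≤ (-3 / 2))
    (l4 : 0 ≤ c.s1) (u4 : c.s1 ≤ 1) : False := by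
  have : 0 ≤ -(1 / 10) + 32 * τ := by
    linear_combination
      (39841 / 25232) * h.toLin.p2_p4 + (195 / 332) * h.toLin.p2_p1
      + (109505 / 100928) * h.toLin.p2_z3Wv + (260 / 1577) * h.toLin.p2_k1Nv
      + (7587 / 6308) * h.toLin.p2_eN1 + (2529 / 12616) * h.toLin.p2_eW1
      + (49505 / 25232) * h.toLin.p4_z1Ev + (84215 / 100928) * h.toLin.p4_z3Sv
      + (37935 / 25232) * h.toLin.p4_eS2 + (130 / 1577) * h.toLin.p1_z1Nu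
      + (1040 / 1577) * h.toLin.p1_gE + (54487 / 50464) * h.toLin.z1N_t1N
      + (163817 / 151392) * h.toLin.z1E_t2E + (3536 / 4731) * h.toLin.z1E_gEh
      + (58647 / 50464) * h.toLin.z3W_t1W + (2529 / 6308) * h.toLin.z3W_k2W
      + (843 / 12616) * h.toLin.z3W_eW1 + (28299 / 50464) * h.toLin.z3S_t2S
      + (37935 / 25232) * h.toLin.z3S_eS2 + (260 / 1577) * h.toLin.t1N_k1N
      + (7587 / 6308) * h.toLin.t2N_k2N + (7587 / 6308) * h.toLin.t2N_eN1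
      + (37935 / 12616) * h.toLin.t2S_eS2 + (6448 / 4731) * h.toLin.t2E_k1E
      + (6656 / 4731) * h.toLin.k1E_gEh + (7587 / 3154) * h.toLin.k2N_eN1
      + (2529 / 3154) * h.toLin.k2W_eW1 + (130 / 1577) * h.toLin.wRz1N
      + (51715 / 12616) * h.toLin.wRz1E + (61075 / 25232) * h.toLin.wLz3W
      + (61075 / 25232) * h.toLin.wLz3S + (58647 / 50464) * h.toLin.wTt1N
      + (58647 / 50464) * h.toLin.wTt1W + (37935 / 25232) * h.toLin.wRt2N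
      + (7587 / 25232) * h.toLin.wTt2N + (37935 / 25232) * h.toLin.wLt2S
      + (104169 / 50464) * h.toLin.wBt2S + (88995 / 50464) * h.toLin.wBt2E
      + (520 / 1577) * h.toLin.wRk1N + (520 / 1577) * h.toLin.wRk1E + (7587 / 12616) * h.toLin.wTk2N
      + (7587 / 12616) * h.toLin.wTk2W + (73821 / 25232) * h.c3 + (51715 / 12616) * e.2.1
      + (11759 / 25232) * (sub_nonneg.2 l0) + (7587 / 25232) * (sub_nonneg.2 l2) + h.hG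
      + (1 / 4) * mul_nonneg (sub_nonneg.2 l0) (sub_nonneg.2 u0)
      + (1 / 4) * mul_nonneg (sub_nonneg.2 l1) (sub_nonneg.2 u1)
      + (1 / 4) * mul_nonneg (sub_nonneg.2 l2) (sub_nonneg.2 u2)
      + (1 / 4) * mul_nonneg (sub_nonneg.2 l3) (sub_nonneg.2 u3) + sq_nonneg (c.s1 - (1 / 2))
      + (1397 / 25232) * hτ
  linarith only [this, h0]

theorem lfP34 (h : Lin2 τ c) (e : CsP c) (hτ : 0 ≤ τ) (h0 : τ ≤ 1 / 10 ^ 7)
    (l0 : (-5 / 2) ≤ c.z1Ny - c.p2y) (u0 : c.z1Ny - c.p2y ≤ (-3 / 16)) (l1 : (-17 / 4) ≤ c.z1Ey - c.p4y) (u1 : c.z1Ey - c.p4y ≤ (-11 / 8))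
    (l2 : (-9 / 4) ≤ c.z3Wy - c.p2y) (u2 : c.z3Wy - c.p2y ≤ (7 / 8)) (l3 : (1 / 2) ≤ c.z3Sy - c.p4y) (u3 : c.z3Sy - c.p4y ≤ (9 / 4))
    (l4 : 0 ≤ c.s1) (u4 : c.s1 ≤ 1) : False := by
  have : 0 ≤ -(1 / 100) + 37 * τ := by
    linear_combination
      (1821991 / 2073600) * h.toLin.p2_p3 + (7619 / 7776) * h.toLin.p2_z1Nu
      + (75431 / 64800) * h.toLin.p2_k3Wv + (106819 / 77760) * h.toLin.p2_eN1
      + (38981 / 103680) * h.toLin.p2_eW1 + (714511 / 1762560) * h.toLin.p4_p3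
      + (249 / 128) * h.toLin.p4_z1Ev + (2531 / 25920) * h.toLin.p4_k3Sv
      + (70369 / 25920) * h.toLin.p4_eS2 + (91927 / 110160) * h.toLin.p4_hNv
      + (11 / 32) * h.toLin.p3_z3Wu + (36707 / 25920) * h.toLin.p3_z3Su
      + (7847 / 48600) * h.toLin.p3_k2Wv + (38981 / 311040) * h.toLin.p3_eW1
      + (8357 / 27540) * h.toLin.p3_hNv + (2531 / 77760) * h.toLin.z1N_k2N
      + (106819 / 233280) * h.toLin.z1N_eN1 + (8357 / 6480) * h.toLin.z1N_hNu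
      + (45 / 32) * h.toLin.z1E_t2E + (70369 / 25920) * h.toLin.t2N_k2N
      + (2531 / 25920) * h.toLin.t2S_k3S + (70369 / 25920) * h.toLin.t2S_eS2
      + (106819 / 19440) * h.toLin.k2N_eN1 + (75431 / 64800) * h.toLin.k2W_k3W
      + (38981 / 19440) * h.toLin.k2W_eW1 + (70369 / 12960) * h.toLin.k3S_eS2
      + (1771 / 480) * h.toLin.wRz1N + (249 / 64) * h.toLin.wRz1E + (11 / 32) * h.toLin.wLz3W
      + (36707 / 25920) * h.toLin.wLz3S + (70369 / 51840) * h.toLin.wRt2N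
      + (70369 / 51840) * h.toLin.wLt2S + (45 / 32) * h.toLin.wBt2S + (45 / 32) * h.toLin.wBt2E
      + (45 / 32) * h.toLin.wTk2N + (45 / 32) * h.toLin.wTk2W + (75431 / 25920) * h.toLin.wLk3W
      + (75431 / 25920) * h.toLin.wLk3S + (743357 / 311040) * e.2.1
      + (18887 / 25920) * (sub_nonneg.2 l3) + h.hG
      + (1 / 4) * mul_nonneg (sub_nonneg.2 l0) (sub_nonneg.2 u0)
      + (1 / 4) * mul_nonneg (sub_nonneg.2 l1) (sub_nonneg.2 u1)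
      + (1 / 4) * mul_nonneg (sub_nonneg.2 l2) (sub_nonneg.2 u2)
      + (1 / 4) * mul_nonneg (sub_nonneg.2 l3) (sub_nonneg.2 u3) + sq_nonneg (c.s1 - (4 / 15))
      + (22996829 / 317260800) * hτ
  linarith only [this, h0]

theorem lfP36 (h : Lin2 τ c) (e : CsP c) (hτ : 0 ≤ τ) (h0 : τ ≤ 1 / 10 ^ 7)
    (l0 : (-3 / 16) ≤ c.z1Ny - c.p2y) (u0 : c.z1Ny - c.p2y ≤ (5 / 2)) (l1 : (-23 / 8) ≤ c.z1Ey - c.p4y) (u1 : c.z1Ey - c.p4y ≤ (-11 / 8))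
    (l2 : (-9 / 4) ≤ c.z3Wy - c.p2y) (u2 : c.z3Wy - c.p2y ≤ (7 / 8)) (l3 : (1 / 2) ≤ c.z3Sy - c.p4y) (u3 : c.z3Sy - c.p4y ≤ (9 / 4))
    (l4 : 0 ≤ c.s1) (u4 : c.s1 ≤ 1) : False := by
  have : 0 ≤ -(1 / 10) + 20 * τ := by
    linear_combination
      (7 / 6) * h.toLin.p2_p3 + (25 / 16) * h.toLin.p2_z1Nu + (119 / 96) * h.toLin.p2_k3Wv
      + (5 / 12) * h.toLin.p2_eN1 + (43 / 96) * h.toLin.p4_p3 + (335 / 192) * h.toLin.p4_z1Ev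
      + (71 / 96) * h.toLin.p4_k3Sv + (25 / 24) * h.toLin.p4_eS2 + (11 / 32) * h.toLin.p3_z3Wu
      + (59 / 48) * h.toLin.p3_z3Su + (1 / 12) * h.toLin.p3_k2Wv + (37 / 64) * h.toLin.z1N_t1N
      + (151 / 192) * h.toLin.z1E_t2E + (37 / 32) * h.toLin.t1W_k3W + (5 / 12) * h.toLin.t2N_k2N
      + (5 / 12) * h.toLin.t2N_eN1 + (71 / 96) * h.toLin.t2S_k3S + (25 / 24) * h.toLin.t2S_eS2
      + (5 / 6) * h.toLin.k2N_eN1 + (1 / 12) * h.toLin.k2W_k3W + (25 / 12) * h.toLin.k3S_eS2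
      + (25 / 8) * h.toLin.wRz1N + (335 / 96) * h.toLin.wRz1E + (11 / 32) * h.toLin.wLz3W
      + (59 / 48) * h.toLin.wLz3S + (37 / 64) * h.toLin.wTt1N + (37 / 64) * h.toLin.wTt1W
      + (25 / 48) * h.toLin.wRt2N + (5 / 48) * h.toLin.wTt2N + (25 / 48) * h.toLin.wLt2S
      + (57 / 64) * h.toLin.wBt2S + (151 / 192) * h.toLin.wBt2E + (5 / 24) * h.toLin.wTk2N
      + (5 / 24) * h.toLin.wTk2W + (121 / 48) * h.toLin.wLk3W + (121 / 48) * h.toLin.wLk3S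
      + (185 / 96) * e.2.1 + (13 / 24) * (sub_nonneg.2 l3) + (53 / 192) * (sub_nonneg.2 l1) + h.hG
      + (1 / 4) * mul_nonneg (sub_nonneg.2 l0) (sub_nonneg.2 u0)
      + (1 / 4) * mul_nonneg (sub_nonneg.2 l1) (sub_nonneg.2 u1)
      + (1 / 4) * mul_nonneg (sub_nonneg.2 l2) (sub_nonneg.2 u2)
      + (1 / 4) * mul_nonneg (sub_nonneg.2 l3) (sub_nonneg.2 u3) + sq_nonneg (c.s1 - (1 / 2))
      + (163 / 192) * hτ
  linarith only [this, h0]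

theorem lfP38 (h : Lin2 τ c) (e : CsP c) (hτ : 0 ≤ τ) (h0 : τ ≤ 1 / 10 ^ 7)
    (l0 : (-5 / 2) ≤ c.z1Ny - c.p2y) (u0 : c.z1Ny - c.p2y ≤ (-1 / 4)) (l1 : (-25 / 8) ≤ c.z1Ey - c.p4y) (u1 : c.z1Ey - c.p4y ≤ (-11 / 8))
    (l2 : (7 / 8) ≤ c.z3Wy - c.p2y) (u2 : c.z3Wy - c.p2y ≤ (7 / 2)) (l3 : (1 / 2) ≤ c.z3Sy - c.p4y) (u3 : c.z3Sy - c.p4y ≤ (9 / 4))
    (l4 : 0 ≤ c.s1) (u4 : c.s1 ≤ 1) : False := by
  have : 0 ≤ -(1 / 10) + 126 * τ := by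
    linear_combination
      (6477 / 37040) * h.toLin.p2_p1 + (343437 / 185200) * h.toLin.p2_p3
      + (182046139 / 29632000) * h.toLin.p2_z1Nu + (16277 / 9260) * h.toLin.p2_eN1
      + (1918603 / 7408000) * h.toLin.p2_eW1 + (3272911 / 463000) * h.toLin.p2_gW
      + (17421 / 23150) * h.toLin.p4_p1 + (158661139 / 29632000) * h.toLin.p4_z1Ev
      + (184680139 / 29632000) * h.toLin.p4_z3Sv + (49911 / 46300) * h.toLin.p4_eS1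
      + (15737 / 23150) * h.toLin.p4_eS2 + (22098 / 11575) * h.toLin.p4_gE
      + (158799 / 185200) * h.toLin.p1_z1Nu + (6477 / 46300) * h.toLin.p1_k4Ev
      + (343437 / 185200) * h.toLin.p3_z3Su + (15737 / 69450) * h.toLin.z1N_eN1
      + (15917 / 18520) * h.toLin.z1E_t2E + (169926 / 11575) * h.toLin.z1E_gEh
      + (16637 / 92600) * h.toLin.z3W_t1W + (1918603 / 22224000) * h.toLin.z3W_eW1
      + (25167557 / 463000) * h.toLin.z3W_gWh + (15737 / 23150) * h.toLin.z3S_eS2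
      + (16637 / 23150) * h.toLin.t1N_eN1 + (49911 / 46300) * h.toLin.t1S_k4S
      + (112859 / 46300) * h.toLin.t2N_k2N + (16637 / 46300) * h.toLin.t2N_eN1
      + (49911 / 46300) * h.toLin.t2S_eS1 + (15737 / 11575) * h.toLin.t2S_eS2
      + (112859 / 23150) * h.toLin.k2N_eN1 + (1918603 / 1852000) * h.toLin.k2W_eW1
      + (112859 / 115750) * h.toLin.k2W_gWh + (49911 / 23150) * h.toLin.k4S_eS1
      + (3048 / 11575) * h.toLin.k4E_gEh + (197267979 / 14816000) * h.toLin.wRz1N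
      + (209638939 / 14816000) * h.toLin.wRz1E + (189715979 / 14816000) * h.toLin.wLz3W
      + (217190939 / 14816000) * h.toLin.wLz3S + (49911 / 92600) * h.toLin.wRt1N
      + (16637 / 92600) * h.toLin.wTt1N + (16637 / 92600) * h.toLin.wTt1W
      + (49911 / 92600) * h.toLin.wLt1S + (275629 / 185200) * h.toLin.wRt2N
      + (16637 / 185200) * h.toLin.wTt2N + (275629 / 185200) * h.toLin.wLt2S
      + (175807 / 185200) * h.toLin.wBt2S + (15917 / 18520) * h.toLin.wBt2E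
      + (112859 / 92600) * h.toLin.wTk2N + (112859 / 92600) * h.toLin.wTk2W
      + (49911 / 92600) * h.toLin.wBk4S + (49911 / 92600) * h.toLin.wBk4E + (531021 / 370400) * h.c3
      + (232195899 / 29632000) * e.2.1 + (38291 / 46300) * (sub_nonneg.2 l3)
      + (13397 / 370400) * (sub_nonneg.2 l1) + h.hG
      + (1 / 4) * mul_nonneg (sub_nonneg.2 l0) (sub_nonneg.2 u0)
      + (1 / 4) * mul_nonneg (sub_nonneg.2 l1) (sub_nonneg.2 u1)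
      + (1 / 4) * mul_nonneg (sub_nonneg.2 l2) (sub_nonneg.2 u2)
      + (1 / 4) * mul_nonneg (sub_nonneg.2 l3) (sub_nonneg.2 u3) + sq_nonneg (c.s1 - (1 / 2))
      + (3864709 / 88896000) * hτ
  linarith only [this, h0]

theorem lfP40 (h : Lin2 τ c) (e : CsP c) (hτ : 0 ≤ τ) (h0 : τ ≤ 1 / 10 ^ 7)
    (l0 : (-1 / 4) ≤ c.z1Ny - c.p2y) (u0 : c.z1Ny - c.p2y ≤ (5 / 2)) (l1 : (-47 / 16) ≤ c.z1Ey - c.p4y) (u1 : c.z1Ey - c.p4y ≤ (-11 / 8))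
    (l2 : (7 / 8) ≤ c.z3Wy - c.p2y) (u2 : c.z3Wy - c.p2y ≤ (7 / 2)) (l3 : (1 / 2) ≤ c.z3Sy - c.p4y) (u3 : c.z3Sy - c.p4y ≤ (9 / 4))
    (l4 : 0 ≤ c.s1) (u4 : c.s1 ≤ 1) : False := by
  have : 0 ≤ -(1 / 10) + 72 * τ := by
    linear_combination
      (2703 / 38672) * h.toLin.p2_p1 + (294343 / 193360) * h.toLin.p2_p3
      + (122433993 / 30937600) * h.toLin.p2_z1Nu + (45571 / 48340) * h.toLin.p2_eN1
      + (1195321 / 7734400) * h.toLin.p2_eW1 + (2039077 / 483400) * h.toLin.p2_gW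
      + (113603473 / 30937600) * h.toLin.p4_z1Ev + (114237433 / 30937600) * h.toLin.p4_z3Sv
      + (20829 / 48340) * h.toLin.p4_eS1 + (12371 / 24170) * h.toLin.p4_eS2
      + (9222 / 12085) * h.toLin.p4_gE + (8109 / 193360) * h.toLin.p1_z1Nu
      + (2703 / 48340) * h.toLin.p1_k4Ev + (294343 / 193360) * h.toLin.p3_z3Su
      + (12371 / 72510) * h.toLin.z1N_eN1 + (56427 / 96680) * h.toLin.z1E_t2E
      + (70914 / 12085) * h.toLin.z1E_gEh + (6943 / 96680) * h.toLin.z3W_t1W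
      + (1195321 / 23203200) * h.toLin.z3W_eW1 + (15679799 / 483400) * h.toLin.z3W_gWh
      + (12371 / 24170) * h.toLin.z3S_eS2 + (6943 / 24170) * h.toLin.t1N_eN1
      + (20829 / 48340) * h.toLin.t1S_k4S + (70313 / 48340) * h.toLin.t2N_k2N
      + (6943 / 48340) * h.toLin.t2N_eN1 + (20829 / 48340) * h.toLin.t2S_eS1
      + (12371 / 12085) * h.toLin.t2S_eS2 + (70313 / 24170) * h.toLin.k2N_eN1
      + (1195321 / 1933600) * h.toLin.k2W_eW1 + (70313 / 120850) * h.toLin.k2W_gWh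
      + (20829 / 24170) * h.toLin.k4S_eS1 + (1272 / 12085) * h.toLin.k4E_gEh
      + (125062073 / 15468800) * h.toLin.wRz1N + (134877673 / 15468800) * h.toLin.wRz1E
      + (118196153 / 15468800) * h.toLin.wLz3W + (141743593 / 15468800) * h.toLin.wLz3S
      + (20829 / 96680) * h.toLin.wRt1N + (6943 / 96680) * h.toLin.wTt1N
      + (6943 / 96680) * h.toLin.wTt1W + (20829 / 96680) * h.toLin.wLt1S
      + (32291 / 38672) * h.toLin.wRt2N + (6943 / 193360) * h.toLin.wTt2N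
      + (32291 / 38672) * h.toLin.wLt2S + (119797 / 193360) * h.toLin.wBt2S
      + (56427 / 96680) * h.toLin.wBt2E + (70313 / 96680) * h.toLin.wTk2N
      + (70313 / 96680) * h.toLin.wTk2W + (20829 / 96680) * h.toLin.wBk4S
      + (20829 / 96680) * h.toLin.wBk4E + (23033 / 48340) * h.toLin.wl + (337679 / 386720) * h.c3
      + (143362633 / 30937600) * e.2.1 + (25507 / 24170) * (sub_nonneg.2 l3)
      + (680063 / 773440) * (sub_nonneg.2 l1) + h.hG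
      + (1 / 4) * mul_nonneg (sub_nonneg.2 l0) (sub_nonneg.2 u0)
      + (1 / 4) * mul_nonneg (sub_nonneg.2 l1) (sub_nonneg.2 u1)
      + (1 / 4) * mul_nonneg (sub_nonneg.2 l2) (sub_nonneg.2 u2)
      + (1 / 4) * mul_nonneg (sub_nonneg.2 l3) (sub_nonneg.2 u3) + sq_nonneg (c.s1 - (1 / 2))
      + (2826103 / 92812800) * hτ
  linarith only [this, h0]

theorem lfP42 (h : Lin2 τ c) (e : CsP c) (hτ : 0 ≤ τ) (h0 : τ ≤ 1 / 10 ^ 7)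
    (l0 : (-5 / 2) ≤ c.z1Ny - c.p2y) (u0 : c.z1Ny - c.p2y ≤ (-1 / 4)) (l1 : (-11 / 8) ≤ c.z1Ey - c.p4y) (u1 : c.z1Ey - c.p4y ≤ (1 / 4))
    (l2 : (-3 / 16) ≤ c.z3Wy - c.p2y) (u2 : c.z3Wy - c.p2y ≤ (17 / 16)) (l3 : (-15 / 4) ≤ c.z3Sy - c.p4y) (u3 : c.z3Sy - c.p4y ≤ (-17 / 16))
    (l4 : 0 ≤ c.s1) (u4 : c.s1 ≤ 1) : False := by
  have : 0 ≤ -(1 / 100) + 24 * τ := by
    linear_combination
      (35 / 512) * h.toLin.p2_p4 + (633 / 512) * h.toLin.p2_z3Wv + (211 / 128) * h.toLin.p2_eN2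
      + (121 / 64) * h.toLin.p4_p1 + (571 / 512) * h.toLin.p4_z1Ev + (211 / 256) * h.toLin.p4_z3Sv
      + (211 / 128) * h.toLin.p4_eS2 + (121 / 64) * h.toLin.p1_z1Nu + (97 / 256) * h.toLin.z1N_t2N
      + (211 / 128) * h.toLin.z1N_eN2 + (97 / 256) * h.toLin.z3S_t2S + (211 / 128) * h.toLin.z3S_eS2
      + (211 / 64) * h.toLin.t2N_eN2 + (211 / 64) * h.toLin.t2S_eS2 + (695 / 256) * h.toLin.wRz1N
      + (571 / 256) * h.toLin.wRz1E + (633 / 256) * h.toLin.wLz3W + (633 / 256) * h.toLin.wLz3S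
      + (211 / 128) * h.toLin.wRt2N + (519 / 256) * h.toLin.wTt2N + (211 / 128) * h.toLin.wLt2S
      + (519 / 256) * h.toLin.wBt2S + (77 / 64) * h.c3 + (45 / 32) * e.2.1
      + (9 / 32) * (sub_nonneg.2 l1) + (7 / 32) * (sub_nonneg.2 u2) + h.hG
      + (1 / 4) * mul_nonneg (sub_nonneg.2 l0) (sub_nonneg.2 u0)
      + (1 / 4) * mul_nonneg (sub_nonneg.2 l1) (sub_nonneg.2 u1)
      + (1 / 4) * mul_nonneg (sub_nonneg.2 l2) (sub_nonneg.2 u2)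
      + (1 / 4) * mul_nonneg (sub_nonneg.2 l3) (sub_nonneg.2 u3) + sq_nonneg (c.s1 - (1 / 2))
      + (423 / 512) * hτ
  linarith only [this, h0]

theorem lfP44 (h : Lin2 τ c) (e : CsP c) (hτ : 0 ≤ τ) (h0 : τ ≤ 1 / 10 ^ 7)
    (l0 : (-1 / 4) ≤ c.z1Ny - c.p2y) (u0 : c.z1Ny - c.p2y ≤ (5 / 2)) (l1 : (-11 / 8) ≤ c.z1Ey - c.p4y) (u1 : c.z1Ey - c.p4y ≤ (9 / 4))
    (l2 : (-9 / 4) ≤ c.z3Wy - c.p2y) (u2 : c.z3Wy - c.p2y ≤ (17 / 16)) (l3 : (-15 / 4) ≤ c.z3Sy - c.p4y) (u3 : c.z3Sy - c.p4y ≤ (-17 / 16))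
    (l4 : 0 ≤ c.s1) (u4 : c.s1 ≤ 1) : False := by
  have : 0 ≤ -(1 / 10) + 13 * τ := by
    linear_combination
      (233 / 512) * h.toLin.p2_p4 + (7 / 32) * h.toLin.p2_p1 + (227 / 512) * h.toLin.p2_z3Wv
      + (57 / 128) * h.toLin.p2_eN2 + (19 / 64) * h.toLin.p4_p3 + (587 / 512) * h.toLin.p4_z1Ev
      + (85 / 128) * h.toLin.p4_z3Su + (57 / 128) * h.toLin.p4_eS2 + (7 / 32) * h.toLin.p1_z1Eu
      + (19 / 64) * h.toLin.p3_z3Wu + (251 / 256) * h.toLin.z1N_t2N + (57 / 128) * h.toLin.z1N_eN2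
      + (251 / 256) * h.toLin.z3S_t2S + (57 / 128) * h.toLin.z3S_eS2 + (57 / 64) * h.toLin.t2N_eN2
      + (57 / 64) * h.toLin.t2S_eS2 + (57 / 256) * h.toLin.wRz1N + (643 / 256) * h.toLin.wRz1E
      + (303 / 256) * h.toLin.wLz3W + (397 / 256) * h.toLin.wLz3S + (57 / 128) * h.toLin.wRt2N
      + (365 / 256) * h.toLin.wTt2N + (57 / 128) * h.toLin.wLt2S + (365 / 256) * h.toLin.wBt2S
      + (239 / 128) * h.c3 + (265 / 128) * e.2.1 + (41 / 64) * (sub_nonneg.2 l0) + h.hG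
      + (1 / 4) * mul_nonneg (sub_nonneg.2 l0) (sub_nonneg.2 u0)
      + (1 / 4) * mul_nonneg (sub_nonneg.2 l1) (sub_nonneg.2 u1)
      + (1 / 4) * mul_nonneg (sub_nonneg.2 l2) (sub_nonneg.2 u2)
      + (1 / 4) * mul_nonneg (sub_nonneg.2 l3) (sub_nonneg.2 u3) + sq_nonneg (c.s1 - (1 / 2))
      + (445 / 512) * hτ
  linarith only [this, h0]

theorem lfP46 (h : Lin2 τ c) (e : CsP c) (hτ : 0 ≤ τ) (h0 : τ ≤ 1 / 10 ^ 7)
    (l0 : (1 / 16) ≤ c.z1Ny - c.p2y) (u0 : c.z1Ny - c.p2y ≤ (5 / 2)) (l1 : (-11 / 8) ≤ c.z1Ey - c.p4y) (u1 : c.z1Ey - c.p4y ≤ (9 / 4))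
    (l2 : (-9 / 4) ≤ c.z3Wy - c.p2y) (u2 : c.z3Wy - c.p2y ≤ (17 / 16)) (l3 : (-17 / 16) ≤ c.z3Sy - c.p4y) (u3 : c.z3Sy - c.p4y ≤ (9 / 4))
    (l4 : 0 ≤ c.s1) (u4 : c.s1 ≤ 1) : False := by
  have : 0 ≤ -(1 / 10) + 8 * τ := by
    linear_combination
      (1 / 3) * h.toLin.p2_z1Nv + (25 / 96) * h.toLin.p2_k1Nv + (19 / 32) * h.toLin.p2_k3Wv
      + (131 / 192) * h.toLin.p4_p3 + (75 / 128) * h.toLin.p4_z1Eu + (17 / 192) * h.toLin.p4_z1Ev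
      + (25 / 96) * h.toLin.p4_k1Ev + (19 / 32) * h.toLin.p4_k3Sv + (131 / 192) * h.toLin.p3_z3Wu
      + (49 / 192) * h.toLin.z1N_t1N + (1 / 6) * h.toLin.z1E_t2E + (17 / 192) * h.toLin.z3S_t1S
      + (25 / 96) * h.toLin.t1N_k1N + (19 / 32) * h.toLin.t1W_k3W + (19 / 32) * h.toLin.t2S_k3S
      + (25 / 96) * h.toLin.t2E_k1E + (2 / 3) * h.toLin.wRz1N + (259 / 192) * h.toLin.wRz1E
      + (131 / 192) * h.toLin.wLz3W + (37 / 96) * h.toLin.wTt1N + (19 / 64) * h.toLin.wTt1W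
      + (17 / 192) * h.toLin.wBt1S + (19 / 64) * h.toLin.wBt2S + (19 / 64) * h.toLin.wBt2E
      + (25 / 48) * h.toLin.wRk1N + (25 / 48) * h.toLin.wRk1E + (19 / 16) * h.toLin.wLk3W
      + (19 / 16) * h.toLin.wLk3S + (37 / 96) * h.toLin.wl + (17 / 192) * h.c3 + (37 / 384) * e.2.1
      + h.hG + (1 / 4) * mul_nonneg (sub_nonneg.2 l0) (sub_nonneg.2 u0)
      + (1 / 4) * mul_nonneg (sub_nonneg.2 l1) (sub_nonneg.2 u1)
      + (1 / 4) * mul_nonneg (sub_nonneg.2 l2) (sub_nonneg.2 u2)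
      + (1 / 4) * mul_nonneg (sub_nonneg.2 l3) (sub_nonneg.2 u3) + sq_nonneg (c.s1 - (1 / 2))
      + (235 / 384) * hτ
  linarith only [this, h0]

theorem lfP48 (h : Lin2 τ c) (e : CsP c) (hτ : 0 ≤ τ) (h0 : τ ≤ 1 / 10 ^ 7)
    (l0 : (-5 / 8) ≤ c.z1Ny - c.p2y) (u0 : c.z1Ny - c.p2y ≤ (-3 / 8)) (l1 : (-11 / 8) ≤ c.z1Ey - c.p4y) (u1 : c.z1Ey - c.p4y ≤ (-1 / 16))
    (l2 : (17 / 16) ≤ c.z3Wy - c.p2y) (u2 : c.z3Wy - c.p2y ≤ (13 / 8)) (l3 : (-15 / 4) ≤ c.z3Sy - c.p4y) (u3 : c.z3Sy - c.p4y ≤ (-27 / 8))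
    (l4 : 0 ≤ c.s1) (u4 : c.s1 ≤ 1) : False := by
  have : 0 ≤ -(1 / 100) + 48 * τ := by
    linear_combination
      (531 / 512) * h.toLin.p2_p4 + (1269 / 512) * h.toLin.p2_z3Wv + (423 / 128) * h.toLin.p2_eN2
      + (87 / 64) * h.toLin.p4_p1 + (1753 / 512) * h.toLin.p4_z1Ev + (509 / 128) * h.toLin.p4_z3Su
      + (43 / 32) * h.toLin.p4_k1Ev + (251 / 128) * h.toLin.p4_eS2 + (87 / 64) * h.toLin.p1_z1Nu
      + (43 / 64) * h.toLin.z1N_t1N + (33 / 256) * h.toLin.z1N_t2N + (79 / 128) * h.toLin.z1N_eN2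
      + (43 / 64) * h.toLin.z3W_t1W + (205 / 256) * h.toLin.z3S_t2S + (251 / 128) * h.toLin.z3S_eS2
      + (251 / 64) * h.toLin.t1N_eN2 + (251 / 64) * h.toLin.t1S_eS2 + (43 / 32) * h.toLin.t2E_k1E
      + (43 / 8) * h.toLin.k1N_eN2 + (427 / 256) * h.toLin.wRz1N + (1753 / 256) * h.toLin.wRz1E
      + (1269 / 256) * h.toLin.wLz3W + (2287 / 256) * h.toLin.wLz3S + (251 / 128) * h.toLin.wRt1N
      + (337 / 128) * h.toLin.wTt1N + (43 / 64) * h.toLin.wTt1W + (251 / 128) * h.toLin.wLt1S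
      + (251 / 128) * h.toLin.wBt1S + (33 / 256) * h.toLin.wTt2N + (205 / 256) * h.toLin.wBt2S
      + (43 / 64) * h.toLin.wBt2E + (43 / 16) * h.toLin.wRk1N + (43 / 16) * h.toLin.wRk1E
      + (823 / 128) * h.c3 + (837 / 128) * e.2.1 + (23 / 64) * (sub_nonneg.2 l1) + h.hG
      + (1 / 4) * mul_nonneg (sub_nonneg.2 l0) (sub_nonneg.2 u0)
      + (1 / 4) * mul_nonneg (sub_nonneg.2 l1) (sub_nonneg.2 u1)
      + (1 / 4) * mul_nonneg (sub_nonneg.2 l2) (sub_nonneg.2 u2)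
      + (1 / 4) * mul_nonneg (sub_nonneg.2 l3) (sub_nonneg.2 u3) + sq_nonneg (c.s1 - (1 / 2))
      + (467 / 512) * hτ
  linarith only [this, h0]

theorem lfP50 (h : Lin2 τ c) (e : CsP c) (hτ : 0 ≤ τ) (h0 : τ ≤ 1 / 10 ^ 7)
    (l0 : (-5 / 2) ≤ c.z1Ny - c.p2y) (u0 : c.z1Ny - c.p2y ≤ (-1 / 4)) (l1 : (-11 / 8) ≤ c.z1Ey - c.p4y) (u1 : c.z1Ey - c.p4y ≤ (-1 / 16))
    (l2 : (13 / 8) ≤ c.z3Wy - c.p2y) (u2 : c.z3Wy - c.p2y ≤ (7 / 2)) (l3 : (-15 / 4) ≤ c.z3Sy - c.p4y) (u3 : c.z3Sy - c.p4y ≤ (-27 / 8))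
    (l4 : 0 ≤ c.s1) (u4 : c.s1 ≤ 1) : False := by
  have : 0 ≤ -(1 / 10) + 2645 * τ := by
    linear_combination
      (939 / 11) * h.toLin.p2_p4 + (296 / 11) * h.toLin.p2_p1 + (5551 / 33) * h.toLin.p2_z3Wv
      + (1394 / 11) * h.toLin.p2_k1Nv + (592 / 11) * h.toLin.p2_eN1 + (296 / 33) * h.toLin.p2_eW1
      + (2595 / 11) * h.toLin.p4_z1Ev + (3494 / 11) * h.toLin.p4_z3Su
      + (1394 / 11) * h.toLin.p4_k1Ev + 60 * h.toLin.p4_eS2 + (40 / 11) * h.toLin.p1_z1Nu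
      + h.toLin.p1_z1Eu + (320 / 11) * h.toLin.p1_gE + (40 / 11) * h.toLin.z1N_t1N
      + 64 * h.toLin.z1E_gEh + 67 * h.toLin.z3W_t1W + (592 / 33) * h.toLin.z3W_k2W
      + (296 / 99) * h.toLin.z3W_eW1 + (521 / 11) * h.toLin.z3S_t2S + 60 * h.toLin.z3S_eS2
      + (1394 / 11) * h.toLin.t1N_k1N + (592 / 11) * h.toLin.t2N_k2N + (592 / 11) * h.toLin.t2N_eN1
      + 120 * h.toLin.t2S_eS2 + (1394 / 11) * h.toLin.t2E_k1E + (1024 / 33) * h.toLin.t2E_gEh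
      + (1184 / 11) * h.toLin.k2N_eN1 + (1184 / 33) * h.toLin.k2W_eW1 + (40 / 11) * h.toLin.wRz1N
      + (5366 / 11) * h.toLin.wRz1E + (3824 / 11) * h.toLin.wLz3W + (7318 / 11) * h.toLin.wLz3S
      + 67 * h.toLin.wTt1N + 67 * h.toLin.wTt1W + (740 / 11) * h.toLin.wRt2N
      + (148 / 11) * h.toLin.wTt2N + 60 * h.toLin.wLt2S + (1181 / 11) * h.toLin.wBt2S
      + (80 / 11) * h.toLin.wRt2E + (1033 / 11) * h.toLin.wBt2E + (2788 / 11) * h.toLin.wRk1N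
      + (2788 / 11) * h.toLin.wRk1E + (296 / 11) * h.toLin.wTk2N + (296 / 11) * h.toLin.wTk2W
      + (5304 / 11) * h.c3 + (5355 / 11) * e.2.1 + (851 / 11) * (sub_nonneg.2 u3)
      + (959 / 11) * (sub_nonneg.2 l2) + (25 / 99) * hτ
  linarith only [this, h0]

theorem lfP52 (h : Lin2 τ c) (e : CsP c) (hτ : 0 ≤ τ) (h0 : τ ≤ 1 / 10 ^ 7)
    (l0 : (-5 / 2) ≤ c.z1Ny - c.p2y) (u0 : c.z1Ny - c.p2y ≤ (-1 / 4)) (l1 : (-11 / 8) ≤ c.z1Ey - c.p4y) (u1 : c.z1Ey - c.p4y ≤ (-1 / 16))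
    (l2 : (13 / 8) ≤ c.z3Wy - c.p2y) (u2 : c.z3Wy - c.p2y ≤ (7 / 2)) (l3 : (-27 / 8) ≤ c.z3Sy - c.p4y) (u3 : c.z3Sy - c.p4y ≤ (-19 / 16))
    (l4 : 0 ≤ c.s1) (u4 : c.s1 ≤ 1) : False := by
  have : 0 ≤ -(1 / 10) + 41 * τ := by
    linear_combination
      (171237 / 179744) * h.toLin.p2_p4 + (53865 / 179744) * h.toLin.p2_p1
      + (933461 / 359488) * h.toLin.p2_z3Wv + (382573 / 179744) * h.toLin.p2_k1Nv
      + (6867 / 11234) * h.toLin.p2_eN1 + (2289 / 22468) * h.toLin.p2_eW1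
      + (58007 / 89872) * h.toLin.p4_p1 + (6893 / 2192) * h.toLin.p4_z1Ev
      + (887681 / 179744) * h.toLin.p4_z3Su + (367453 / 179744) * h.toLin.p4_k1Ev
      + (34335 / 44936) * h.toLin.p4_eS2 + (11 / 16) * h.toLin.p1_z1Nu
      + (1890 / 5617) * h.toLin.p1_gE + (2142 / 5617) * h.toLin.z1E_gEh
      + (382573 / 359488) * h.toLin.z3W_t1W + (2289 / 11234) * h.toLin.z3W_k2W
      + (763 / 22468) * h.toLin.z3W_eW1 + (272701 / 359488) * h.toLin.z3S_t2S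
      + (34335 / 44936) * h.toLin.z3S_eS2 + (382573 / 179744) * h.toLin.t1N_k1N
      + (6867 / 11234) * h.toLin.t2N_k2N + (6867 / 11234) * h.toLin.t2N_eN1
      + (34335 / 22468) * h.toLin.t2S_eS2 + (492445 / 179744) * h.toLin.t2E_k1E
      + (4032 / 5617) * h.toLin.k1E_gEh + (6867 / 5617) * h.toLin.k2N_eN1
      + (2289 / 5617) * h.toLin.k2W_eW1 + (11 / 16) * h.toLin.wRz1N
      + (1146517 / 179744) * h.toLin.wRz1E + (956351 / 179744) * h.toLin.wLz3W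
      + (57626 / 5617) * h.toLin.wLz3S + (382573 / 359488) * h.toLin.wTt1N
      + (382573 / 359488) * h.toLin.wTt1W + (34335 / 44936) * h.toLin.wRt2N
      + (6867 / 44936) * h.toLin.wTt2N + (34335 / 44936) * h.toLin.wLt2S
      + (547381 / 359488) * h.toLin.wBt2S + (492445 / 359488) * h.toLin.wBt2E
      + (382573 / 89872) * h.toLin.wRk1N + (382573 / 89872) * h.toLin.wRk1E
      + (6867 / 22468) * h.toLin.wTk2N + (6867 / 22468) * h.toLin.wTk2W + (662595 / 89872) * h.c3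
      + (1146517 / 179744) * e.2.1 + (127049 / 359488) * (sub_nonneg.2 l1)
      + (4383 / 359488) * (sub_nonneg.2 l2) + h.hG
      + (1 / 4) * mul_nonneg (sub_nonneg.2 l0) (sub_nonneg.2 u0)
      + (1 / 4) * mul_nonneg (sub_nonneg.2 l1) (sub_nonneg.2 u1)
      + (1 / 4) * mul_nonneg (sub_nonneg.2 l2) (sub_nonneg.2 u2)
      + (1 / 4) * mul_nonneg (sub_nonneg.2 l3) (sub_nonneg.2 u3) + sq_nonneg (c.s1 - (1 / 2))
      + (73011 / 359488) * hτ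
  linarith only [this, h0]

theorem lfP54 (h : Lin2 τ c) (e : CsP c) (hτ : 0 ≤ τ) (h0 : τ ≤ 1 / 10 ^ 7)
    (l0 : (-1 / 4) ≤ c.z1Ny - c.p2y) (u0 : c.z1Ny - c.p2y ≤ (5 / 2)) (l1 : (-11 / 8) ≤ c.z1Ey - c.p4y) (u1 : c.z1Ey - c.p4y ≤ (-1 / 16))
    (l2 : (17 / 16) ≤ c.z3Wy - c.p2y) (u2 : c.z3Wy - c.p2y ≤ (7 / 2)) (l3 : (-15 / 4) ≤ c.z3Sy - c.p4y) (u3 : c.z3Sy - c.p4y ≤ (-23 / 8))
    (l4 : 0 ≤ c.s1) (u4 : c.s1 ≤ 1) : False := by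
  have : 0 ≤ -(1 / 10) + 31 * τ := by
    linear_combination
      (521215 / 507904) * h.toLin.p2_p4 + (58035 / 63488) * h.toLin.p2_p1
      + (606669 / 507904) * h.toLin.p2_z3Wv + (1095 / 3968) * h.toLin.p2_k1Nv
      + (78123 / 126976) * h.toLin.p2_eN2 + (1308981 / 507904) * h.toLin.p4_z1Ev
      + (255513 / 126976) * h.toLin.p4_z3Su + (95643 / 126976) * h.toLin.p4_eS2
      + (1095 / 7936) * h.toLin.p1_eN2 + (1095 / 992) * h.toLin.p1_gE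
      + (7957 / 7936) * h.toLin.z1N_t1N + (35301 / 253952) * h.toLin.z1N_t2N
      + (60603 / 126976) * h.toLin.z1N_eN2 + (1241 / 992) * h.toLin.z1E_gEh
      + (73 / 64) * h.toLin.z3W_t1W + (324965 / 253952) * h.toLin.z3S_t2S
      + (95643 / 126976) * h.toLin.z3S_eS2 + (1095 / 3968) * h.toLin.t1N_k1N
      + (95643 / 63488) * h.toLin.t1N_eN2 + (95643 / 63488) * h.toLin.t1S_eS2
      + (73 / 32) * h.toLin.t2E_k1E + (73 / 31) * h.toLin.k1E_gEh + (60603 / 253952) * h.toLin.wRz1N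
      + (1383441 / 253952) * h.toLin.wRz1E + (606669 / 253952) * h.toLin.wLz3W
      + (1117695 / 253952) * h.toLin.wLz3S + (95643 / 126976) * h.toLin.wRt1N
      + (240475 / 126976) * h.toLin.wTt1N + (73 / 64) * h.toLin.wTt1W
      + (95643 / 126976) * h.toLin.wLt1S + (95643 / 126976) * h.toLin.wBt1S
      + (35301 / 253952) * h.toLin.wTt2N + (324965 / 253952) * h.toLin.wBt2S
      + (73 / 64) * h.toLin.wBt2E + (1095 / 1984) * h.toLin.wRk1N + (1095 / 1984) * h.toLin.wRk1E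
      + (610649 / 126976) * h.c3 + (661419 / 126976) * e.2.1 + (21575 / 63488) * (sub_nonneg.2 l1)
      + (3245 / 3968) * (sub_nonneg.2 l0) + h.hG
      + (1 / 4) * mul_nonneg (sub_nonneg.2 l0) (sub_nonneg.2 u0)
      + (1 / 4) * mul_nonneg (sub_nonneg.2 l1) (sub_nonneg.2 u1)
      + (1 / 4) * mul_nonneg (sub_nonneg.2 l2) (sub_nonneg.2 u2)
      + (1 / 4) * mul_nonneg (sub_nonneg.2 l3) (sub_nonneg.2 u3) + sq_nonneg (c.s1 - (1 / 2))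
      + (310763 / 507904) * hτ
  linarith only [this, h0]

theorem lfP56 (h : Lin2 τ c) (e : CsP c) (hτ : 0 ≤ τ) (h0 : τ ≤ 1 / 10 ^ 7)
    (l0 : (-1 / 4) ≤ c.z1Ny - c.p2y) (u0 : c.z1Ny - c.p2y ≤ (5 / 2)) (l1 : (-1 / 16) ≤ c.z1Ey - c.p4y) (u1 : c.z1Ey - c.p4y ≤ (9 / 4))
    (l2 : (17 / 16) ≤ c.z3Wy - c.p2y) (u2 : c.z3Wy - c.p2y ≤ (7 / 2)) (l3 : (-15 / 4) ≤ c.z3Sy - c.p4y) (u3 : c.z3Sy - c.p4y ≤ (-19 / 16))
    (l4 : 0 ≤ c.s1) (u4 : c.s1 ≤ 1) : False := by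
  have : 0 ≤ -(1 / 10) + 31 * τ := by
    linear_combination
      (8849 / 24064) * h.toLin.p2_p4 + (18827 / 12032) * h.toLin.p2_p1
      + (47563 / 24064) * h.toLin.p2_z3Wv + (449 / 376) * h.toLin.p2_k1Nv
      + (34995 / 12032) * h.toLin.p4_z1Ev + (47563 / 12032) * h.toLin.p4_z3Su
      + (1571 / 1504) * h.toLin.p4_k1Ev + (225 / 3008) * h.toLin.p1_z1Nu
      + (24829 / 24064) * h.toLin.p1_z1Eu + (225 / 376) * h.toLin.p1_gE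
      + (1635 / 3008) * h.toLin.z1N_t1N + (3 / 32) * h.toLin.z1N_t2N + (255 / 376) * h.toLin.z1E_gEh
      + (73 / 64) * h.toLin.z3W_t1W + (79 / 64) * h.toLin.z3S_t2S + (449 / 376) * h.toLin.t1N_k1N
      + (73 / 32) * h.toLin.t2E_k1E + (60 / 47) * h.toLin.k1E_gEh + (225 / 3008) * h.toLin.wRz1N
      + (84317 / 12032) * h.toLin.wRz1E + (47563 / 12032) * h.toLin.wLz3W
      + (47563 / 6016) * h.toLin.wLz3S + (73 / 64) * h.toLin.wTt1N + (73 / 64) * h.toLin.wTt1W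
      + (3 / 32) * h.toLin.wTt2N + (79 / 64) * h.toLin.wBt2S + (73 / 64) * h.toLin.wBt2E
      + (449 / 188) * h.toLin.wRk1N + (449 / 188) * h.toLin.wRk1E + (76139 / 12032) * h.c3
      + (143805 / 24064) * e.2.1 + (5707 / 12032) * (sub_nonneg.2 l1) + h.hG
      + (1 / 4) * mul_nonneg (sub_nonneg.2 l0) (sub_nonneg.2 u0)
      + (1 / 4) * mul_nonneg (sub_nonneg.2 l1) (sub_nonneg.2 u1)
      + (1 / 4) * mul_nonneg (sub_nonneg.2 l2) (sub_nonneg.2 u2)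
      + (1 / 4) * mul_nonneg (sub_nonneg.2 l3) (sub_nonneg.2 u3) + sq_nonneg (c.s1 - (1 / 2))
      + (12399 / 24064) * hτ
  linarith only [this, h0]

theorem lfP58 (h : Lin2 τ c) (e : CsP c) (hτ : 0 ≤ τ) (h0 : τ ≤ 1 / 10 ^ 7)
    (l0 : (-3 / 16) ≤ c.z1Ny - c.p2y) (u0 : c.z1Ny - c.p2y ≤ (5 / 2)) (l1 : (-11 / 8) ≤ c.z1Ey - c.p4y) (u1 : c.z1Ey - c.p4y ≤ (9 / 4))
    (l2 : (17 / 16) ≤ c.z3Wy - c.p2y) (u2 : c.z3Wy - c.p2y ≤ (7 / 2)) (l3 : (-19 / 16) ≤ c.z3Sy - c.p4y) (u3 : c.z3Sy - c.p4y ≤ (9 / 4))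
    (l4 : 0 ≤ c.s1) (u4 : c.s1 ≤ 1) : False := by
  have : 0 ≤ -(1 / 10) + 3 * τ := by
    linear_combination
      (1 / 4) * h.toLin.p2_p4 + (1 / 4) * h.toLin.z1N_t1N + (1 / 4) * h.toLin.z1E_t2E
      + (1 / 4) * h.toLin.z3W_t1W + (1 / 4) * h.toLin.z3S_t2S + (1 / 4) * h.toLin.wTt1N
      + (1 / 4) * h.toLin.wTt1W + (1 / 4) * h.toLin.wBt2S + (1 / 4) * h.toLin.wBt2E
      + (57 / 64) * h.toLin.wl + (1 / 2) * h.c3 + (27 / 64) * (sub_nonneg.2 l1)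
      + (3 / 8) * (sub_nonneg.2 l3) + (9 / 16) * (sub_nonneg.2 l0) + h.hG
      + (1 / 4) * mul_nonneg (sub_nonneg.2 l0) (sub_nonneg.2 u0)
      + (1 / 4) * mul_nonneg (sub_nonneg.2 l1) (sub_nonneg.2 u1)
      + (1 / 4) * mul_nonneg (sub_nonneg.2 l2) (sub_nonneg.2 u2)
      + (1 / 4) * mul_nonneg (sub_nonneg.2 l3) (sub_nonneg.2 u3) + sq_nonneg (c.s1 - (1 / 2))
      + (1 / 4) * hτ
  linarith only [this, h0]


end Pool.Agent.P.MP_dba4bb_co.Ex
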