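import Pool.Agent.P.MP_dba4bb_co.Ex.Lin2

/-! Leaves of the branch and bound. -/

namespace Pool.Agent.P.MP_dba4bb_co.Ex

variable {τ : ℝ} {c : Cfg}

theorem lfQ1 (h : Lin2 τ c) (e : CsQ c) (hτ : 0 ≤ τ) (h0 : τ ≤ 1 / 10 ^ 7)
    (l0 : (-9 / 4) ≤ c.z1Ny - c.p2y) (u0 : c.z1Ny - c.p2y ≤ (1 / 4)) (l1 : (-17 / 4) ≤ c.z1Ey - c.p4y) (u1 : c.z1Ey - c.p4y ≤ (-7 / 2))
    (l2 : (-1 / 2) ≤ c.z3Wy - c.p2y) (u2 : c.z3Wy - c.p2y ≤ (1 / 2)) (l3 : (-5 / 2) ≤ c.z3Sy - c.p4y) (u3 : c.z3Sy - c.p4y ≤ (-1 / 2))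
    (l4 : 0 ≤ c.s1) (u4 : c.s1 ≤ (7 / 4)) : False := by
  have : 0 ≤ -(1 / 100) + 38 * τ := by
    linear_combination
      (7157 / 13440) * h.toLin.p2_p4 + (5195 / 2688) * h.toLin.p2_z1Nv
      + (3371 / 2352) * h.toLin.p2_k3Wv + (93 / 560) * h.toLin.p2_eN1
      + (1135 / 1176) * h.toLin.p2_eW1 + (541 / 896) * h.toLin.p4_p1 + (167 / 336) * h.toLin.p4_p3
      + (3517 / 2688) * h.toLin.p4_z1Eu + (167 / 1344) * h.toLin.p4_z3Sv
      + (1285 / 672) * h.toLin.p4_k3Sv + (403 / 280) * h.toLin.p4_hNv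
      + (541 / 896) * h.toLin.p1_z1Nu + (167 / 336) * h.toLin.p3_z3Wu + (93 / 14) * h.toLin.z1N_gNh
      + (31 / 16) * h.toLin.z1E_t2E + (167 / 336) * h.toLin.z3W_k2W
      + (1319 / 1344) * h.toLin.z3S_t2S + (1285 / 672) * h.toLin.t2S_k3S
      + (1023 / 1120) * h.toLin.k2N_eN1 + (1643 / 952) * h.toLin.k2N_eN2
      + (1023 / 1190) * h.toLin.k2N_gNh + (267 / 224) * h.toLin.k2W_k3W
      + (1135 / 336) * h.toLin.k2W_eW1 + (1135 / 2352) * h.toLin.k3W_eW1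
      + (93 / 1400) * h.toLin.eN1_hN + (93 / 119) * h.toLin.eN2_gN + (31 / 84) * h.toLin.eN2_hN
      + (2511 / 1855) * h.toLin.gN_hN + (1157 / 192) * h.toLin.wRz1N + (3517 / 1344) * h.toLin.wRz1E
      + (167 / 224) * h.toLin.wLz3W + (167 / 672) * h.toLin.wLz3S + (31 / 16) * h.toLin.wBt2S
      + (31 / 16) * h.toLin.wBt2E + (31 / 16) * h.toLin.wTk2N + (31 / 16) * h.toLin.wTk2W
      + (1285 / 336) * h.toLin.wLk3W + (1285 / 336) * h.toLin.wLk3S + (1987 / 1344) * h.c3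
      + (1843 / 448) * e.2.1 + (311 / 1344) * (sub_nonneg.2 u3) + h.hG
      + (1 / 4) * mul_nonneg (sub_nonneg.2 l0) (sub_nonneg.2 u0)
      + (1 / 4) * mul_nonneg (sub_nonneg.2 l1) (sub_nonneg.2 u1)
      + (1 / 4) * mul_nonneg (sub_nonneg.2 l2) (sub_nonneg.2 u2)
      + (1 / 4) * mul_nonneg (sub_nonneg.2 l3) (sub_nonneg.2 u3) + sq_nonneg (c.s1 - (5 / 14))
      + (8338137 / 20182400) * hτ
  linarith only [this, h0]

theorem lfQ4 (h : Lin2 τ c) (e : CsQ c) (hτ : 0 ≤ τ) (h0 : τ ≤ 1 / 10 ^ 7)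
    (l0 : (1 / 4) ≤ c.z1Ny - c.p2y) (u0 : c.z1Ny - c.p2y ≤ (9 / 4)) (l1 : (-17 / 4) ≤ c.z1Ey - c.p4y) (u1 : c.z1Ey - c.p4y ≤ (-7 / 2))
    (l2 : (-7 / 2) ≤ c.z3Wy - c.p2y) (u2 : c.z3Wy - c.p2y ≤ (-5 / 8)) (l3 : (-5 / 2) ≤ c.z3Sy - c.p4y) (u3 : c.z3Sy - c.p4y ≤ (1 / 2))
    (l4 : 0 ≤ c.s1) (u4 : c.s1 ≤ (7 / 4)) : False := by
  have : 0 ≤ -1 + 5162 * τ := by
    linear_combination
      (108322 / 2329) * h.toLin.p2_p3 + (743183 / 2329) * h.toLin.p2_z1Nv + 15 * h.toLin.p2_z3Wu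
      + (27904 / 119) * h.toLin.p2_k3Wv + (83596 / 2329) * h.toLin.p2_eN2
      + (13952 / 119) * h.toLin.p2_eW1 + (30933 / 2329) * h.toLin.p4_p1
      + (6557176 / 39593) * h.toLin.p4_p3 + (702154 / 2329) * h.toLin.p4_z1Eu
      + (4992 / 17) * h.toLin.p4_k3Sv + (42128 / 289) * h.toLin.p4_hNv
      + (30933 / 2329) * h.toLin.p1_z1Nu + (24196 / 137) * h.toLin.p3_z3Wu + h.toLin.p3_z3Su
      + (960 / 17) * h.toLin.p3_gS + (178272 / 39593) * h.toLin.p3_hNv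
      + (1979712 / 2329) * h.toLin.z1N_gNh + (3488 / 17) * h.toLin.z1E_t2E + 64 * h.toLin.z3S_gSh
      + (6976 / 17) * h.toLin.t2S_k3S + (6976 / 17) * h.toLin.k2N_eN2
      + (3488 / 17) * h.toLin.k2W_k3W + (6976 / 17) * h.toLin.k2W_eW1
      + (6976 / 119) * h.toLin.k3W_eW1 + (2048 / 17) * h.toLin.k3S_gSh
      + (659904 / 2329) * h.toLin.eN2_gN + (266096 / 6987) * h.toLin.eN2_hN
      + (18477312 / 123437) * h.toLin.gN_hN + (14462 / 17) * h.toLin.wRz1N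
      + (1404308 / 2329) * h.toLin.wRz1E + (28306 / 137) * h.toLin.wLz3W + 16 * h.toLin.wLz3S
      + (3488 / 17) * h.toLin.wBt2S + (3488 / 17) * h.toLin.wBt2E + (3488 / 17) * h.toLin.wTk2N
      + (3488 / 17) * h.toLin.wTk2W + (10464 / 17) * h.toLin.wLk3W + (10464 / 17) * h.toLin.wLk3S
      + 16 * h.c3 + (9111 / 17) * e.2.1 + (3488 / 17) * (sub_nonneg.2 u1)
      + (24196 / 137) * (sub_nonneg.2 u2) + (2845891 / 6295287) * hτ
  linarith only [this, h0]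

theorem lfQ7 (h : Lin2 τ c) (e : CsQ c) (hτ : 0 ≤ τ) (h0 : τ ≤ 1 / 10 ^ 7)
    (l0 : (11 / 8) ≤ c.z1Ny - c.p2y) (u0 : c.z1Ny - c.p2y ≤ (13 / 8)) (l1 : (-17 / 4) ≤ c.z1Ey - c.p4y) (u1 : c.z1Ey - c.p4y ≤ (-29 / 8))
    (l2 : (-5 / 8) ≤ c.z3Wy - c.p2y) (u2 : c.z3Wy - c.p2y ≤ (-3 / 8)) (l3 : (-13 / 8) ≤ c.z3Sy - c.p4y) (u3 : c.z3Sy - c.p4y ≤ (-11 / 8))
    (l4 : 0 ≤ c.s1) (u4 : c.s1 ≤ (5 / 8)) : False := by
  have : 0 ≤ -(1 / 10) + 200 * τ := by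
    linear_combination
      (127237 / 29072) * h.toLin.p2_p3 + (2240 / 1817) * h.toLin.p2_k3Wv
      + (88789 / 39974) * h.toLin.p2_eN2 + (15457 / 7268) * h.toLin.p2_eW1
      + (69832 / 19987) * h.toLin.p2_gN + (120404 / 30889) * h.toLin.p4_p3
      + (223 / 10902) * h.toLin.p4_z1Eu + (1586 / 5451) * h.toLin.p4_z3Sv
      + (146256 / 30889) * h.toLin.p4_hNv + (24194 / 5451) * h.toLin.p3_z3Wu
      + (15457 / 21804) * h.toLin.p3_eW1 + (11200 / 1817) * h.toLin.p3_gS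
      + (214 / 391) * h.toLin.p3_hNv + 64 * h.toLin.z1N_gNh + (14337 / 1817) * h.toLin.z1E_t2E
      + (24194 / 5451) * h.toLin.z3W_k2W + (8291 / 5451) * h.toLin.z3S_t2S
      + (38080 / 5451) * h.toLin.z3S_gSh + (69440 / 5451) * h.toLin.t2S_k3S
      + (28674 / 1817) * h.toLin.k2N_eN2 + (2240 / 1817) * h.toLin.k2W_k3W
      + (61828 / 5451) * h.toLin.k2W_eW1 + (71680 / 5451) * h.toLin.k3S_gSh
      + (263448 / 19987) * h.toLin.eN2_gN + (1642 / 5451) * h.toLin.eN2_hN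
      + (619808 / 96301) * h.toLin.gN_hN + 15 * h.toLin.wRz1N + (223 / 5451) * h.toLin.wRz1E
      + (12097 / 1817) * h.toLin.wLz3W + (12097 / 5451) * h.toLin.wLz3S
      + (14337 / 1817) * h.toLin.wBt2S + (14337 / 1817) * h.toLin.wBt2E
      + (14337 / 1817) * h.toLin.wTk2N + (14337 / 1817) * h.toLin.wTk2W
      + (5600 / 1817) * h.toLin.wLk3W + (5600 / 1817) * h.toLin.wLk3S + (33080 / 5451) * h.c3
      + (163307 / 10902) * e.2.1 + (2962 / 1817) * (sub_nonneg.2 u3) + (sub_nonneg.2 l0)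
      + (14337 / 1817) * (sub_nonneg.2 u1) + (586080343 / 864397776) * hτ
  linarith only [this, h0]

theorem lfQ10 (h : Lin2 τ c) (e : CsQ c) (hτ : 0 ≤ τ) (h0 : τ ≤ 1 / 10 ^ 7)
    (l0 : (13 / 8) ≤ c.z1Ny - c.p2y) (u0 : c.z1Ny - c.p2y ≤ (9 / 4)) (l1 : (-17 / 4) ≤ c.z1Ey - c.p4y) (u1 : c.z1Ey - c.p4y ≤ (-7 / 2))
    (l2 : (-5 / 8) ≤ c.z3Wy - c.p2y) (u2 : c.z3Wy - c.p2y ≤ (-3 / 8)) (l3 : (-5 / 2) ≤ c.z3Sy - c.p4y) (u3 : c.z3Sy - c.p4y ≤ (-11 / 8))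
    (l4 : 0 ≤ c.s1) (u4 : c.s1 ≤ (7 / 4)) : False := by
  have : 0 ≤ -1 + 1275 * τ := by
    linear_combination
      (258 / 17) * h.toLin.p2_p4 + (60480 / 1037) * h.toLin.p2_p3 + (64775 / 1037) * h.toLin.p2_z1Nv
      + (15 / 2) * h.toLin.p2_z3Wv + (240 / 17) * h.toLin.p2_k3Wv + (296 / 61) * h.toLin.p2_eN1
      + (24420 / 1037) * h.toLin.p2_eW1 + (200404 / 17629) * h.toLin.p4_p3
      + (15347 / 2074) * h.toLin.p4_z1Eu + (16280 / 1037) * h.toLin.p4_eS2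
      + (378288 / 17629) * h.toLin.p4_hNv + (20632 / 1037) * h.toLin.p3_z3Wu
      + (8140 / 1037) * h.toLin.p3_eW1 + (16280 / 1037) * h.toLin.p3_eS2
      + (960 / 17) * h.toLin.p3_gS + (29600 / 17629) * h.toLin.p3_hNv + (992 / 17) * h.toLin.z1N_t1N
      + (130240 / 1037) * h.toLin.z1N_gNh + (992 / 17) * h.toLin.z1E_t2E
      + (20632 / 1037) * h.toLin.z3W_t1W + 64 * h.toLin.z3S_gSh + (65120 / 1037) * h.toLin.t1W_k2W
      + (240 / 17) * h.toLin.t1W_k3W + (65120 / 1037) * h.toLin.t1S_eS2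
      + (1984 / 17) * h.toLin.t2S_k3S + (1628 / 61) * h.toLin.k2N_eN1
      + (26048 / 1037) * h.toLin.k2N_gNh + (130240 / 1037) * h.toLin.k2W_eW1
      + (2048 / 17) * h.toLin.k3S_gSh + (592 / 305) * h.toLin.eN1_hN
      + (1510784 / 54961) * h.toLin.gN_hN + (160075 / 1037) * h.toLin.wRz1N
      + (15347 / 1037) * h.toLin.wRz1E + (36187 / 1037) * h.toLin.wLz3W + 15 * h.toLin.wLz3S
      + (992 / 17) * h.toLin.wTt1N + (32560 / 1037) * h.toLin.wLt1W + (27952 / 1037) * h.toLin.wTt1W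
      + (32560 / 1037) * h.toLin.wLt1S + (32560 / 1037) * h.toLin.wBt1S + (992 / 17) * h.toLin.wBt2S
      + (992 / 17) * h.toLin.wBt2E + (32560 / 1037) * h.toLin.wTk2N + (32560 / 1037) * h.toLin.wTk2W
      + (480 / 17) * h.toLin.wLk3W + (480 / 17) * h.toLin.wLk3S + (21669 / 1037) * h.c3
      + (304803 / 2074) * e.2.1 + (992 / 17) * (sub_nonneg.2 u1) + (sub_nonneg.2 u3)
      + (62547 / 1037) * (sub_nonneg.2 l0) + (3234406 / 4671685) * hτ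
  linarith only [this, h0]

theorem lfQ13 (h : Lin2 τ c) (e : CsQ c) (hτ : 0 ≤ τ) (h0 : τ ≤ 1 / 10 ^ 7)
    (l0 : (19 / 16) ≤ c.z1Ny - c.p2y) (u0 : c.z1Ny - c.p2y ≤ (9 / 4)) (l1 : (-17 / 4) ≤ c.z1Ey - c.p4y) (u1 : c.z1Ey - c.p4y ≤ (-7 / 2))
    (l2 : (-5 / 8) ≤ c.z3Wy - c.p2y) (u2 : c.z3Wy - c.p2y ≤ (-3 / 8)) (l3 : (-11 / 8) ≤ c.z3Sy - c.p4y) (u3 : c.z3Sy - c.p4y ≤ (1 / 2))
    (l4 : (5 / 8) ≤ c.s1) (u4 : c.s1 ≤ (7 / 4)) : False := by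
  have : 0 ≤ -1 + 3093 * τ := by
    linear_combination
      (560333 / 9435) * h.toLin.p2_p4 + (64924 / 1887) * h.toLin.p2_p3
      + (397217 / 1887) * h.toLin.p2_z1Nv + 15 * h.toLin.p2_z3Wu
      + (1974592 / 13209) * h.toLin.p2_k3Wv + (12784 / 555) * h.toLin.p2_eN1
      + (304384 / 4403) * h.toLin.p2_eW1 + (252173 / 1887) * h.toLin.p4_z1Eu
      + (342272 / 1887) * h.toLin.p4_k3Sv + (320352 / 3145) * h.toLin.p4_hNv + h.toLin.p3_z3Su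
      + (21184 / 1887) * h.toLin.p3_k2Wv + (960 / 17) * h.toLin.p3_gS
      + (15040 / 1887) * h.toLin.p3_hNv + (66176 / 111) * h.toLin.z1N_gNh
      + (16544 / 111) * h.toLin.z1E_t2E + 64 * h.toLin.z3S_gSh + (33088 / 111) * h.toLin.t2S_k3S
      + (70312 / 555) * h.toLin.k2N_eN1 + (66176 / 555) * h.toLin.k2N_gNh
      + (249472 / 1887) * h.toLin.k2W_k3W + (152192 / 629) * h.toLin.k2W_eW1
      + (152192 / 4403) * h.toLin.k3W_eW1 + (2048 / 17) * h.toLin.k3S_gSh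
      + (25568 / 2775) * h.toLin.eN1_hN + (3838208 / 29415) * h.toLin.gN_hN
      + (1058104 / 1887) * h.toLin.wRz1N + (504346 / 1887) * h.toLin.wRz1E + 30 * h.toLin.wLz3W
      + 16 * h.toLin.wLz3S + (16544 / 111) * h.toLin.wBt2S + (16544 / 111) * h.toLin.wBt2E
      + (16544 / 111) * h.toLin.wTk2N + (16544 / 111) * h.toLin.wTk2W
      + (737824 / 1887) * h.toLin.wLk3W + (737824 / 1887) * h.toLin.wLk3S + 16 * h.c3
      + (805931 / 1887) * e.2.1 + (16544 / 111) * (sub_nonneg.2 u1)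
      + (1034 / 111) * (sub_nonneg.2 l0) + (13220 / 111) * (sub_nonneg.2 l4)
      + (905632 / 2500275) * hτ
  linarith only [this, h0]

theorem lfQ16 (h : Lin2 τ c) (e : CsQ c) (hτ : 0 ≤ τ) (h0 : τ ≤ 1 / 10 ^ 7)
    (l0 : (1 / 4) ≤ c.z1Ny - c.p2y) (u0 : c.z1Ny - c.p2y ≤ (1 / 2)) (l1 : (-17 / 4) ≤ c.z1Ey - c.p4y) (u1 : c.z1Ey - c.p4y ≤ (-7 / 2))
    (l2 : (-3 / 8) ≤ c.z3Wy - c.p2y) (u2 : c.z3Wy - c.p2y ≤ (1 / 2)) (l3 : (-17 / 16) ≤ c.z3Sy - c.p4y) (u3 : c.z3Sy - c.p4y ≤ (-1 / 2))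
    (l4 : 0 ≤ c.s1) (u4 : c.s1 ≤ (1 / 2)) : False := by
  have : 0 ≤ -(1 / 10) + 40 * τ := by
    linear_combination
      (3053 / 2880) * h.toLin.p2_p4 + (2935 / 1248) * h.toLin.p2_z1Nv
      + (2657 / 1344) * h.toLin.p2_k3Wv + (119 / 320) * h.toLin.p2_eN1
      + (715 / 672) * h.toLin.p2_eW1 + (13 / 80) * h.toLin.p2_hN + (23 / 585) * h.toLin.p2_hW
      + (20749 / 9984) * h.toLin.p4_z1Eu + (469 / 9984) * h.toLin.p4_z3Sv
      + (125 / 48) * h.toLin.p4_k3Sv + (27 / 20) * h.toLin.p4_hNv + (23 / 180) * h.toLin.p4_hWv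
      + (17 / 192) * h.toLin.z1N_eN1 + (31 / 4) * h.toLin.z1N_gNh + (31 / 16) * h.toLin.z1E_t2E
      + (29 / 192) * h.toLin.z3W_k2W + (23 / 156) * h.toLin.z3W_hWu + (61 / 96) * h.toLin.z3S_t2S
      + (125 / 48) * h.toLin.t2S_k3S + (527 / 320) * h.toLin.k2N_eN1 + (31 / 20) * h.toLin.k2N_gNh
      + (219 / 128) * h.toLin.k2W_k3W + (715 / 192) * h.toLin.k2W_eW1
      + (715 / 1344) * h.toLin.k3W_eW1 + (17 / 400) * h.toLin.eN1_hN + (899 / 530) * h.toLin.gN_hN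
      + (32879 / 4992) * h.toLin.wRz1N + (20749 / 4992) * h.toLin.wRz1E
      + (1159 / 4992) * h.toLin.wLz3W + (469 / 4992) * h.toLin.wLz3S + (31 / 16) * h.toLin.wBt2S
      + (31 / 16) * h.toLin.wBt2E + (31 / 16) * h.toLin.wTk2N + (31 / 16) * h.toLin.wTk2W
      + (125 / 24) * h.toLin.wLk3W + (125 / 24) * h.toLin.wLk3S + (2009 / 2496) * h.c3
      + (15003 / 3328) * e.2.1 + (47 / 192) * (sub_nonneg.2 u3) + h.hG
      + (1 / 4) * mul_nonneg (sub_nonneg.2 l0) (sub_nonneg.2 u0)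
      + (1 / 4) * mul_nonneg (sub_nonneg.2 l1) (sub_nonneg.2 u1)
      + (1 / 4) * mul_nonneg (sub_nonneg.2 l2) (sub_nonneg.2 u2)
      + (1 / 4) * mul_nonneg (sub_nonneg.2 l3) (sub_nonneg.2 u3) + sq_nonneg (c.s1 - (1 / 4))
      + (102651 / 137800) * hτ
  linarith only [this, h0]

theorem lfQ19 (h : Lin2 τ c) (e : CsQ c) (hτ : 0 ≤ τ) (h0 : τ ≤ 1 / 10 ^ 7)
    (l0 : (1 / 2) ≤ c.z1Ny - c.p2y) (u0 : c.z1Ny - c.p2y ≤ (5 / 4)) (l1 : (-17 / 4) ≤ c.z1Ey - c.p4y) (u1 : c.z1Ey - c.p4y ≤ (-7 / 2))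
    (l2 : (-3 / 8) ≤ c.z3Wy - c.p2y) (u2 : c.z3Wy - c.p2y ≤ (1 / 2)) (l3 : (-1 / 2) ≤ c.z3Sy - c.p4y) (u3 : c.z3Sy - c.p4y ≤ (1 / 2))
    (l4 : 0 ≤ c.s1) (u4 : c.s1 ≤ (1 / 2)) : False := by
  have : 0 ≤ -(1 / 10) + 38 * τ := by
    linear_combination
      (22867657 / 19054720) * h.toLin.p2_p4 + (41425 / 119092) * h.toLin.p2_p3
      + (12681673 / 3810944) * h.toLin.p2_z1Nv + (422535 / 3810944) * h.toLin.p2_z3Wu
      + (9073663 / 3334576) * h.toLin.p2_k3Wv + (120747 / 1190920) * h.toLin.p2_eN1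
      + (128444 / 208411) * h.toLin.p2_eW1 + (9910209 / 3810944) * h.toLin.p4_z1Eu
      + (717495 / 238184) * h.toLin.p4_k3Sv + (523237 / 595460) * h.toLin.p4_hNv
      + (28169 / 3810944) * h.toLin.p3_z3Su + (4971 / 119092) * h.toLin.p3_k2Wv
      + (24855 / 59546) * h.toLin.p3_gS + (359477 / 476368) * h.toLin.z1N_t1N
      + (120747 / 29773) * h.toLin.z1N_gNh + (31 / 16) * h.toLin.z1E_t2E
      + (1 / 32) * h.toLin.z3W_t1W + (28169 / 59546) * h.toLin.z3S_gSh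
      + (689181 / 476368) * h.toLin.t1W_k3W + (31 / 8) * h.toLin.t2S_k3S
      + (1328217 / 2381840) * h.toLin.k2N_eN1 + (2133197 / 2024564) * h.toLin.k2N_eN2
      + (1328217 / 2530705) * h.toLin.k2N_gNh + (133415 / 119092) * h.toLin.k2W_k3W
      + (64222 / 29773) * h.toLin.k2W_eW1 + (64222 / 208411) * h.toLin.k3W_eW1
      + (26512 / 29773) * h.toLin.k3S_gSh + (120747 / 2977300) * h.toLin.eN1_hN
      + (241494 / 506141) * h.toLin.eN2_gN + (40249 / 178638) * h.toLin.eN2_hN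
      + (6520338 / 7889845) * h.toLin.gN_hN + (7246439 / 952736) * h.toLin.wRz1N
      + (9910209 / 1905472) * h.toLin.wRz1E + (422535 / 1905472) * h.toLin.wLz3W
      + (28169 / 238184) * h.toLin.wLz3S + (359477 / 476368) * h.toLin.wTt1N
      + (359477 / 476368) * h.toLin.wTt1W + (31 / 16) * h.toLin.wBt2S + (31 / 16) * h.toLin.wBt2E
      + (281743 / 238184) * h.toLin.wTk2N + (281743 / 238184) * h.toLin.wTk2W
      + (371175 / 59546) * h.toLin.wLk3W + (371175 / 59546) * h.toLin.wLk3S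
      + (142449 / 952736) * h.c3 + (19075547 / 3810944) * e.2.1
      + (725011 / 1905472) * (sub_nonneg.2 l0) + h.hG
      + (1 / 4) * mul_nonneg (sub_nonneg.2 l0) (sub_nonneg.2 u0)
      + (1 / 4) * mul_nonneg (sub_nonneg.2 l1) (sub_nonneg.2 u1)
      + (1 / 4) * mul_nonneg (sub_nonneg.2 l2) (sub_nonneg.2 u2)
      + (1 / 4) * mul_nonneg (sub_nonneg.2 l3) (sub_nonneg.2 u3) + sq_nonneg (c.s1 - (1 / 4))
      + (183321276263 / 257524540800) * hτ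
  linarith only [this, h0]

theorem lfQ22 (h : Lin2 τ c) (e : CsQ c) (hτ : 0 ≤ τ) (h0 : τ ≤ 1 / 10 ^ 7)
    (l0 : (-9 / 4) ≤ c.z1Ny - c.p2y) (u0 : c.z1Ny - c.p2y ≤ (9 / 4)) (l1 : (-17 / 4) ≤ c.z1Ey - c.p4y) (u1 : c.z1Ey - c.p4y ≤ (-7 / 2))
    (l2 : (-7 / 2) ≤ c.z3Wy - c.p2y) (u2 : c.z3Wy - c.p2y ≤ (1 / 2)) (l3 : (1 / 2) ≤ c.z3Sy - c.p4y) (u3 : c.z3Sy - c.p4y ≤ (9 / 4))
    (l4 : 0 ≤ c.s1) (u4 : c.s1 ≤ (7 / 4)) : False := by
  have : 0 ≤ -1 + 3156 * τ := by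
    linear_combination
      (27153255 / 173312) * h.toLin.p2_p3 + (3794445 / 21664) * h.toLin.p2_z1Nv
      + (36968355 / 303296) * h.toLin.p2_k3Wv + (2642805 / 43328) * h.toLin.p2_eN1
      + (531165 / 21664) * h.toLin.p2_eN2 + (7627425 / 151648) * h.toLin.p2_eW1
      + (12994275 / 86656) * h.toLin.p4_z1Eu + (1718475 / 10832) * h.toLin.p4_k3Sv
      + (2683425 / 86656) * h.toLin.p4_eS2 + (737625 / 10832) * h.toLin.p4_hNv
      + (13448925 / 86656) * h.toLin.p3_z3Su + (922665 / 43328) * h.toLin.p3_k2Wv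
      + (2683425 / 86656) * h.toLin.p3_eS2 + (68925 / 5416) * h.toLin.p3_hNv
      + (2534485 / 129984) * h.toLin.z1N_eN1 + (281205 / 677) * h.toLin.z1N_gNh
      + (281485 / 10832) * h.toLin.z1N_hNu + (6120375 / 43328) * h.toLin.z1E_t2E
      + (2683425 / 21664) * h.toLin.t2N_k2N + (1718475 / 10832) * h.toLin.t2S_k3S
      + (2683425 / 21664) * h.toLin.t2S_eS2 + (2683425 / 10832) * h.toLin.k2N_eN1
      + (1718475 / 10832) * h.toLin.k2N_eN2 + (9472755 / 86656) * h.toLin.k2W_k3W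
      + (7627425 / 43328) * h.toLin.k2W_eW1 + (7627425 / 303296) * h.toLin.k3W_eW1 + h.toLin.eN1_hN
      + (93735 / 677) * h.toLin.eN2_gN + (2624580 / 35881) * h.toLin.gN_hN
      + (42451575 / 86656) * h.toLin.wRz1N + (12994275 / 43328) * h.toLin.wRz1E
      + (13448925 / 86656) * h.toLin.wLz3S + (2683425 / 43328) * h.toLin.wRt2N
      + (2683425 / 43328) * h.toLin.wLt2S + (6120375 / 43328) * h.toLin.wBt2S
      + (6120375 / 43328) * h.toLin.wBt2E + (6120375 / 43328) * h.toLin.wTk2N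
      + (6120375 / 43328) * h.toLin.wTk2W + (1718475 / 5416) * h.toLin.wLk3W
      + (1718475 / 5416) * h.toLin.wLk3S + (54692325 / 173312) * e.2.1
      + (6120375 / 43328) * (sub_nonneg.2 u1) + (13448925 / 86656) * (sub_nonneg.2 l3)
      + (18005965 / 27556608) * hτ
  linarith only [this, h0]

theorem lfQ25 (h : Lin2 τ c) (e : CsQ c) (hτ : 0 ≤ τ) (h0 : τ ≤ 1 / 10 ^ 7)
    (l0 : (1 / 2) ≤ c.z1Ny - c.p2y) (u0 : c.z1Ny - c.p2y ≤ (9 / 4)) (l1 : (-17 / 4) ≤ c.z1Ey - c.p4y) (u1 : c.z1Ey - c.p4y ≤ (-7 / 2))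
    (l2 : (1 / 2) ≤ c.z3Wy - c.p2y) (u2 : c.z3Wy - c.p2y ≤ (11 / 4)) (l3 : (-5 / 2) ≤ c.z3Sy - c.p4y) (u3 : c.z3Sy - c.p4y ≤ (1 / 2))
    (l4 : 0 ≤ c.s1) (u4 : c.s1 ≤ (7 / 4)) : False := by
  have : 0 ≤ -1 + 938 * τ := by
    linear_combination
      (203249 / 12325) * h.toLin.p2_p4 + (800 / 17) * h.toLin.p2_p3
      + (257393 / 4930) * h.toLin.p2_z1Nv + (67249 / 4930) * h.toLin.p2_z3Wv
      + (240 / 17) * h.toLin.p2_k3Wv + (30384 / 12325) * h.toLin.p2_eN1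
      + (9712 / 2465) * h.toLin.p2_eW1 + (24687 / 2465) * h.toLin.p4_z3Sv
      + (263328 / 12325) * h.toLin.p4_hNv + h.toLin.p3_z3Su + (96 / 17) * h.toLin.p3_k2Wv
      + (960 / 17) * h.toLin.p3_gS + (72944 / 2465) * h.toLin.z1N_t1N
      + (243072 / 2465) * h.toLin.z1N_gNh + (992 / 17) * h.toLin.z1E_t2E
      + (55544 / 2465) * h.toLin.z3W_t1W + (33344 / 2465) * h.toLin.z3W_k2W
      + (9712 / 7395) * h.toLin.z3W_eW1 + 64 * h.toLin.z3S_gSh + (240 / 17) * h.toLin.t1W_k3W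
      + (1984 / 17) * h.toLin.t2S_k3S + (121536 / 12325) * h.toLin.k2N_eN1
      + (1438176 / 41905) * h.toLin.k2N_eN2 + (1944576 / 209525) * h.toLin.k2N_gNh
      + (38848 / 2465) * h.toLin.k2W_eW1 + (2048 / 17) * h.toLin.k3S_gSh
      + (30384 / 12325) * h.toLin.eN1_eN2 + (729216 / 41905) * h.toLin.eN2_gN
      + (87776 / 12325) * h.toLin.eN2_hN + (12639744 / 653225) * h.toLin.gN_hN
      + (314363 / 2465) * h.toLin.wRz1N + (86349 / 2465) * h.toLin.wLz3W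
      + (88814 / 2465) * h.toLin.wLz3S + (72944 / 2465) * h.toLin.wTt1N
      + (72944 / 2465) * h.toLin.wTt1W + (992 / 17) * h.toLin.wBt2S + (992 / 17) * h.toLin.wBt2E
      + (70896 / 2465) * h.toLin.wTk2N + (70896 / 2465) * h.toLin.wTk2W + (480 / 17) * h.toLin.wLk3W
      + (480 / 17) * h.toLin.wLk3S + (93781 / 2465) * h.c3 + (314363 / 2465) * e.2.1
      + (992 / 17) * (sub_nonneg.2 u1) + (91316 / 2465) * (sub_nonneg.2 l2)
      + (76742 / 2465) * (sub_nonneg.2 l0) + (25071781 / 33314475) * hτ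
  linarith only [this, h0]

theorem lfQ28 (h : Lin2 τ c) (e : CsQ c) (hτ : 0 ≤ τ) (h0 : τ ≤ 1 / 10 ^ 7)
    (l0 : (-9 / 8) ≤ c.z1Ny - c.p2y) (u0 : c.z1Ny - c.p2y ≤ (5 / 16)) (l1 : (-7 / 2) ≤ c.z1Ey - c.p4y) (u1 : c.z1Ey - c.p4y ≤ (-15 / 16))
    (l2 : (-7 / 2) ≤ c.z3Wy - c.p2y) (u2 : c.z3Wy - c.p2y ≤ (-13 / 8)) (l3 : (-5 / 2) ≤ c.z3Sy - c.p4y) (u3 : c.z3Sy - c.p4y ≤ 0)
    (l4 : 0 ≤ c.s1) (u4 : c.s1 ≤ (7 / 4)) : False := by
  have : 0 ≤ -(1 / 10) + 32 * τ := by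
    linear_combination
      (29851943 / 20184832) * h.toLin.p2_z1Nv + (35260579 / 35323456) * h.toLin.p2_k3Wv
      + (9285 / 157694) * h.toLin.p2_eN1 + (14624177 / 17661728) * h.toLin.p2_eW1
      + (6573541 / 5046208) * h.toLin.p4_p3 + (32096395 / 20184832) * h.toLin.p4_z1Eu
      + (108087 / 20184832) * h.toLin.p4_z3Sv + (162315 / 2523104) * h.toLin.p4_k1Ev
      + (651643 / 630776) * h.toLin.p4_k3Sv + (100355 / 157694) * h.toLin.p4_eS2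
      + (344897 / 315388) * h.toLin.p4_hNv + (6573541 / 5046208) * h.toLin.p3_z3Wu
      + (65969 / 1261552) * h.toLin.z1N_t1N + (326373 / 78847) * h.toLin.z1N_gNh
      + (71 / 64) * h.toLin.z1E_t2E + (108087 / 5046208) * h.toLin.z3W_k2W
      + (5 / 8) * h.toLin.z3S_t2S + (335451 / 630776) * h.toLin.t1N_k1N
      + (100355 / 157694) * h.toLin.t1W_k2W + (100355 / 157694) * h.toLin.t1S_eS2
      + (651643 / 630776) * h.toLin.t2S_k3S + (162315 / 2523104) * h.toLin.t2E_k1E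
      + (43284 / 78847) * h.toLin.k1N_gNh + (102135 / 315388) * h.toLin.k2N_eN1
      + (16311121 / 10723192) * h.toLin.k2N_eN2 + (408540 / 1340399) * h.toLin.k2N_gNh
      + (7985283 / 10092416) * h.toLin.k2W_k3W + (14624177 / 5046208) * h.toLin.k2W_eW1
      + (14624177 / 35323456) * h.toLin.k3W_eW1 + (100355 / 78847) * h.toLin.k3S_eS2
      + (1857 / 78847) * h.toLin.eN1_hN + (923271 / 1340399) * h.toLin.eN2_gN
      + (307757 / 946164) * h.toLin.eN2_hN + (4213044 / 4178891) * h.toLin.gN_hN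
      + (39643133 / 10092416) * h.toLin.wRz1N + (32096395 / 10092416) * h.toLin.wRz1E
      + (13255169 / 10092416) * h.toLin.wLz3W + (108087 / 10092416) * h.toLin.wLz3S
      + (100355 / 315388) * h.toLin.wTt1N + (100355 / 315388) * h.toLin.wLt1W
      + (100355 / 315388) * h.toLin.wLt1S + (100355 / 315388) * h.toLin.wBt1S
      + (1440113 / 1261552) * h.toLin.wBt2S + (1440113 / 1261552) * h.toLin.wBt2E
      + (162315 / 1261552) * h.toLin.wRk1N + (162315 / 1261552) * h.toLin.wRk1E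
      + (1440113 / 1261552) * h.toLin.wTk2N + (1440113 / 1261552) * h.toLin.wTk2W
      + (852353 / 315388) * h.toLin.wLk3W + (852353 / 315388) * h.toLin.wLk3S
      + (3261967 / 5046208) * h.c3 + (47189871 / 20184832) * e.2.1
      + (403815 / 1261552) * (sub_nonneg.2 l0) + h.hG
      + (1 / 4) * mul_nonneg (sub_nonneg.2 l0) (sub_nonneg.2 u0)
      + (1 / 4) * mul_nonneg (sub_nonneg.2 l1) (sub_nonneg.2 u1)
      + (1 / 4) * mul_nonneg (sub_nonneg.2 l2) (sub_nonneg.2 u2)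
      + (1 / 4) * mul_nonneg (sub_nonneg.2 l3) (sub_nonneg.2 u3) + sq_nonneg (c.s1 - (9 / 16))
      + (54089861359 / 54559600896) * hτ
  linarith only [this, h0]

theorem lfQ31 (h : Lin2 τ c) (e : CsQ c) (hτ : 0 ≤ τ) (h0 : τ ≤ 1 / 10 ^ 7)
    (l0 : (5 / 16) ≤ c.z1Ny - c.p2y) (u0 : c.z1Ny - c.p2y ≤ (21 / 16)) (l1 : (-7 / 2) ≤ c.z1Ey - c.p4y) (u1 : c.z1Ey - c.p4y ≤ (-15 / 16))
    (l2 : (-7 / 2) ≤ c.z3Wy - c.p2y) (u2 : c.z3Wy - c.p2y ≤ (-21 / 16)) (l3 : (-5 / 2) ≤ c.z3Sy - c.p4y) (u3 : c.z3Sy - c.p4y ≤ (-25 / 16))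
    (l4 : 0 ≤ c.s1) (u4 : c.s1 ≤ (7 / 4)) : False := by
  have : 0 ≤ -(1 / 10) + 51 * τ := by
    linear_combination
      (121288181 / 74499456) * h.toLin.p2_z1Nv + (1233155 / 24833152) * h.toLin.p2_z3Wv
      + (3511461 / 2716126) * h.toLin.p2_k3Wv + (9707 / 40844) * h.toLin.p2_eN1
      + (5659559 / 8148378) * h.toLin.p2_eW1 + (267909653 / 158311344) * h.toLin.p4_p3
      + (45030713 / 577370784) * h.toLin.p4_z1Eu + (2354205 / 48114232) * h.toLin.p4_k1Ev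
      + (15857627 / 9312432) * h.toLin.p4_k3Sv + (12891555 / 6014279) * h.toLin.p4_gE
      + (784735 / 694348) * h.toLin.p4_hNv + (606989 / 326752) * h.toLin.p3_z3Wu
      + (112105 / 582027) * h.toLin.p3_gS + (112105 / 694348) * h.toLin.p3_hNv
      + (39623165 / 96228464) * h.toLin.z1N_t2N + (38609122 / 6014279) * h.toLin.z1N_gNh
      + (165808151 / 192456928) * h.toLin.z1E_t2E + (95397507 / 6014279) * h.toLin.z1E_gEu
      + (9396281 / 9312432) * h.toLin.z3S_t2S + (246631 / 582027) * h.toLin.z3S_gSh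
      + (156947 / 388018) * h.toLin.t1N_k1N + (112105 / 1164054) * h.toLin.t1W_k2W
      + (358736 / 1746081) * h.toLin.t1S_gSh + (1718874 / 6014279) * h.toLin.t2N_gNh
      + (15857627 / 9312432) * h.toLin.t2S_k3S + (2354205 / 48114232) * h.toLin.t2E_k1E
      + (1718874 / 6014279) * h.toLin.t2E_gEh + (2511152 / 6014279) * h.toLin.k1N_gNh
      + (1621069 / 1633760) * h.toLin.k2N_eN1 + (95357 / 102110) * h.toLin.k2N_gNh
      + (5211139 / 4656216) * h.toLin.k2W_k3W + (5659559 / 2328108) * h.toLin.k2W_eW1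
      + (5659559 / 16296756) * h.toLin.k3W_eW1 + (9707 / 102110) * h.toLin.eN1_gN
      + (896840 / 541183) * h.toLin.gN_hN + (5497344101 / 1154741568) * h.toLin.wRz1N
      + (4473010667 / 1154741568) * h.toLin.wRz1E + (24298737 / 12416576) * h.toLin.wLz3W
      + (1233155 / 12416576) * h.toLin.wLz3S + (156947 / 776036) * h.toLin.wTt1N
      + (112105 / 2328108) * h.toLin.wLt1W + (112105 / 2328108) * h.toLin.wLt1S
      + (156947 / 776036) * h.toLin.wBt1S + (12891555 / 192456928) * h.toLin.wRt2N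
      + (4302931 / 6208288) * h.toLin.wTt2N + (11550063 / 6208288) * h.toLin.wBt2S
      + (12891555 / 192456928) * h.toLin.wRt2E + (95357 / 81688) * h.toLin.wBt2E
      + (2354205 / 24057116) * h.toLin.wRk1N + (2354205 / 24057116) * h.toLin.wRk1E
      + (95357 / 81688) * h.toLin.wTk2N + (95357 / 81688) * h.toLin.wTk2W
      + (15857627 / 4656216) * h.toLin.wLk3W + (15857627 / 4656216) * h.toLin.wLk3S
      + (65 / 64) * h.c3 + (3117742507 / 1154741568) * e.2.1 + (2161 / 20422) * (sub_nonneg.2 l0)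
      + (427731 / 653504) * (sub_nonneg.2 u2) + h.hG
      + (1 / 4) * mul_nonneg (sub_nonneg.2 l0) (sub_nonneg.2 u0)
      + (1 / 4) * mul_nonneg (sub_nonneg.2 l1) (sub_nonneg.2 u1)
      + (1 / 4) * mul_nonneg (sub_nonneg.2 l2) (sub_nonneg.2 u2)
      + (1 / 4) * mul_nonneg (sub_nonneg.2 l3) (sub_nonneg.2 u3) + sq_nonneg (c.s1 - (7 / 8))
      + (497978197297 / 7803166145760) * hτ
  linarith only [this, h0]

theorem lfQ34 (h : Lin2 τ c) (e : CsQ c) (hτ : 0 ≤ τ) (h0 : τ ≤ 1 / 10 ^ 7)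
    (l0 : (5 / 16) ≤ c.z1Ny - c.p2y) (u0 : c.z1Ny - c.p2y ≤ (21 / 16)) (l1 : (-45 / 16) ≤ c.z1Ey - c.p4y) (u1 : c.z1Ey - c.p4y ≤ (-15 / 16))
    (l2 : (-21 / 16) ≤ c.z3Wy - c.p2y) (u2 : c.z3Wy - c.p2y ≤ (-3 / 8)) (l3 : (-5 / 2) ≤ c.z3Sy - c.p4y) (u3 : c.z3Sy - c.p4y ≤ (-25 / 16))
    (l4 : 0 ≤ c.s1) (u4 : c.s1 ≤ (7 / 4)) : False := by
  have : 0 ≤ -(1 / 10) + 12 * τ := by
    linear_combination
      (108637 / 3126400) * h.toLin.p2_p4 + (22651 / 312640) * h.toLin.p2_z1Nv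
      + (9487 / 78160) * h.toLin.p2_eW1 + (711 / 97700) * h.toLin.p2_hN
      + (108639 / 156320) * h.toLin.p4_p3 + (14419 / 125056) * h.toLin.p4_z1Eu
      + (9487 / 125056) * h.toLin.p4_z3Sv + (2547 / 39080) * h.toLin.p4_k1Ev
      + (25311 / 48850) * h.toLin.p4_hNv + (108639 / 156320) * h.toLin.p3_z3Wu
      + (597301 / 1563200) * h.toLin.z1N_t2N + (37749 / 24425) * h.toLin.z1N_gNh
      + (12957 / 39080) * h.toLin.z1E_t2E + (9487 / 39080) * h.toLin.z3W_k2W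
      + (9487 / 234480) * h.toLin.z3W_eW1 + (26319 / 97700) * h.toLin.z3S_t1S
      + (1166521 / 1563200) * h.toLin.z3S_t2S + (26319 / 48850) * h.toLin.t1N_k1N
      + (2547 / 39080) * h.toLin.t2E_k1E + (13584 / 24425) * h.toLin.k1N_gNh
      + (28461 / 39080) * h.toLin.k2N_eN2 + (9487 / 19540) * h.toLin.k2W_eW1
      + (1611 / 4885) * h.toLin.eN2_gN + (3043 / 19540) * h.toLin.eN2_hN
      + (126612 / 258905) * h.toLin.gN_hN + (158549 / 312640) * h.toLin.wRz1N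
      + (14419 / 62528) * h.toLin.wRz1E + (264713 / 312640) * h.toLin.wLz3W
      + (9487 / 62528) * h.toLin.wLz3S + (26319 / 97700) * h.toLin.wTt1N
      + (26319 / 97700) * h.toLin.wBt1S + (597301 / 1563200) * h.toLin.wTt2N
      + (1166521 / 1563200) * h.toLin.wBt2S + (28461 / 78160) * h.toLin.wBt2E
      + (2547 / 19540) * h.toLin.wRk1N + (2547 / 19540) * h.toLin.wRk1E
      + (28461 / 78160) * h.toLin.wTk2N + (28461 / 78160) * h.toLin.wTk2W + (100727 / 78160) * h.c3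
      + (245003 / 625280) * e.2.1 + (47361 / 78160) * (sub_nonneg.2 l1) + h.hG
      + (1 / 4) * mul_nonneg (sub_nonneg.2 l0) (sub_nonneg.2 u0)
      + (1 / 4) * mul_nonneg (sub_nonneg.2 l1) (sub_nonneg.2 u1)
      + (1 / 4) * mul_nonneg (sub_nonneg.2 l2) (sub_nonneg.2 u2)
      + (1 / 4) * mul_nonneg (sub_nonneg.2 l3) (sub_nonneg.2 u3) + sq_nonneg (c.s1 - (7 / 8))
      + (40220069 / 99419520) * hτ
  linarith only [this, h0]

theorem lfQ37 (h : Lin2 τ c) (e : CsQ c) (hτ : 0 ≤ τ) (h0 : τ ≤ 1 / 10 ^ 7)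
    (l0 : (21 / 16) ≤ c.z1Ny - c.p2y) (u0 : c.z1Ny - c.p2y ≤ (13 / 8)) (l1 : (-7 / 2) ≤ c.z1Ey - c.p4y) (u1 : c.z1Ey - c.p4y ≤ (-45 / 16))
    (l2 : (-5 / 4) ≤ c.z3Wy - c.p2y) (u2 : c.z3Wy - c.p2y ≤ (-5 / 8)) (l3 : (-31 / 16) ≤ c.z3Sy - c.p4y) (u3 : c.z3Sy - c.p4y ≤ (-25 / 16))
    (l4 : 0 ≤ c.s1) (u4 : c.s1 ≤ (5 / 8)) : False := by
  have : 0 ≤ -(1 / 100) + 88 * τ := by
    linear_combination
      (21634881 / 40027328) * h.toLin.p2_p3 + (13058602367 / 1681147776) * h.toLin.p2_z1Nv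
      + (366847055 / 70047824) * h.toLin.p2_z3Wu + (808195463 / 490334768) * h.toLin.p2_k3Wv
      + (53320 / 625427) * h.toLin.p2_eN1 + (782993591 / 735502152) * h.toLin.p2_eW1
      + (85772609 / 47532452) * h.toLin.p4_p3 + (2012855945 / 420286944) * h.toLin.p4_z1Eu
      + (1778365 / 20013664) * h.toLin.p4_k1Ev + (57615739 / 26267934) * h.toLin.p4_k3Sv
      + (708499739 / 249545373) * h.toLin.p4_gS + (3863907 / 2501708) * h.toLin.p4_hNv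
      + (9408255 / 5003416) * h.toLin.p3_z3Wu + (7211627 / 11883113) * h.toLin.p3_gS
      + (38581529 / 60040992) * h.toLin.z1N_t1N + (11022149 / 1876281) * h.toLin.z1N_gNh
      + (101 / 64) * h.toLin.z1E_t2E + (110506127 / 210143472) * h.toLin.z3S_t2S
      + (293477644 / 13133967) * h.toLin.z3S_gSh + (11025863 / 15010248) * h.toLin.t1N_k1N
      + (101055425 / 210143472) * h.toLin.t1W_k2W + (40422170 / 39401901) * h.toLin.t1S_gSh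
      + (57615739 / 26267934) * h.toLin.t2S_k3S + (1778365 / 20013664) * h.toLin.t2E_k1E
      + (1422692 / 1876281) * h.toLin.k1N_gNh + (26660 / 56857) * h.toLin.k2N_eN1
      + (182179391 / 85058072) * h.toLin.k2N_eN2 + (426560 / 966569) * h.toLin.k2N_gNh
      + (580882741 / 420286944) * h.toLin.k2W_k3W + (782993591 / 210143472) * h.toLin.k2W_eW1
      + (782993591 / 1471004304) * h.toLin.k3W_eW1 + (21328 / 625427) * h.toLin.eN1_hN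
      + (10312041 / 10632259) * h.toLin.eN2_gN + (3437347 / 7505124) * h.toLin.eN2_hN
      + (47220004 / 33147631) * h.toLin.gN_hN + (323089273 / 19103952) * h.toLin.wRz1N
      + (2012855945 / 210143472) * h.toLin.wRz1E + (54088105 / 4377989) * h.toLin.wLz3W
      + (366847055 / 70047824) * h.toLin.wLz3S + (20211085 / 20013664) * h.toLin.wTt1N
      + (101055425 / 420286944) * h.toLin.wLt1W + (101055425 / 420286944) * h.toLin.wLt1S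
      + (20211085 / 20013664) * h.toLin.wBt1S + (16236623 / 10006832) * h.toLin.wBt2S
      + (16236623 / 10006832) * h.toLin.wBt2E + (1778365 / 10006832) * h.toLin.wRk1N
      + (1778365 / 10006832) * h.toLin.wRk1E + (16236623 / 10006832) * h.toLin.wTk2N
      + (16236623 / 10006832) * h.toLin.wTk2W + (57615739 / 13133967) * h.toLin.wLk3W
      + (57615739 / 13133967) * h.toLin.wLk3S + (428138901 / 70047824) * h.c3
      + (5095108061 / 420286944) * e.2.1 + (28251615 / 20013664) * (sub_nonneg.2 u2) + h.hG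
      + (1 / 4) * mul_nonneg (sub_nonneg.2 l0) (sub_nonneg.2 u0)
      + (1 / 4) * mul_nonneg (sub_nonneg.2 l1) (sub_nonneg.2 u1)
      + (1 / 4) * mul_nonneg (sub_nonneg.2 l2) (sub_nonneg.2 u2)
      + (1 / 4) * mul_nonneg (sub_nonneg.2 l3) (sub_nonneg.2 u3) + sq_nonneg (c.s1 - (6 / 11))
      + (4411923843875 / 4544142438528) * hτ
  linarith only [this, h0]

theorem lfQ40 (h : Lin2 τ c) (e : CsQ c) (hτ : 0 ≤ τ) (h0 : τ ≤ 1 / 10 ^ 7)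
    (l0 : (11 / 8) ≤ c.z1Ny - c.p2y) (u0 : c.z1Ny - c.p2y ≤ (3 / 2)) (l1 : (-7 / 2) ≤ c.z1Ey - c.p4y) (u1 : c.z1Ey - c.p4y ≤ (-27 / 8))
    (l2 : (-5 / 8) ≤ c.z3Wy - c.p2y) (u2 : c.z3Wy - c.p2y ≤ (-1 / 2)) (l3 : (-31 / 16) ≤ c.z3Sy - c.p4y) (u3 : c.z3Sy - c.p4y ≤ (-13 / 8))
    (l4 : (3 / 8) ≤ c.s1) (u4 : c.s1 ≤ (5 / 8)) : False := by
  have : 0 ≤ -(1 / 100) + 63 * τ := by
    linear_combination
      (3827011 / 4515840) * h.toLin.p2_p4 + (2947897 / 18063360) * h.toLin.p2_p3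
      + (23496539 / 4515840) * h.toLin.p2_z1Nv + (965267 / 301056) * h.toLin.p2_z3Wu
      + (59065 / 37632) * h.toLin.p2_k3Wv + (33 / 224) * h.toLin.p2_eN1
      + (70295 / 100352) * h.toLin.p2_eW1 + (17182063 / 36771840) * h.toLin.p4_p3
      + (28263617 / 9031680) * h.toLin.p4_z1Eu + (295325 / 150528) * h.toLin.p4_k3Sv
      + (1745239 / 1005480) * h.toLin.p4_gS + (143 / 112) * h.toLin.p4_hNv
      + (9 / 32) * h.toLin.p3_z3Wu + (70295 / 301056) * h.toLin.p3_eW1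
      + (1527793 / 4021920) * h.toLin.p3_gS + (1123 / 1792) * h.toLin.z1N_t1N
      + (165 / 28) * h.toLin.z1N_gNh + (55 / 32) * h.toLin.z1E_t2E
      + (222115 / 301056) * h.toLin.z3S_t2S + (965267 / 70560) * h.toLin.z3S_gSh
      + (5615 / 18816) * h.toLin.t1W_k2W + (1123 / 1764) * h.toLin.t1S_gSh
      + (295325 / 150528) * h.toLin.t2S_k3S + (363 / 448) * h.toLin.k2N_eN1
      + (2915 / 1904) * h.toLin.k2N_eN2 + (363 / 476) * h.toLin.k2N_gNh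
      + (59065 / 37632) * h.toLin.k2W_k3W + (70295 / 18816) * h.toLin.k2W_eW1
      + (33 / 560) * h.toLin.eN1_hN + (165 / 238) * h.toLin.eN2_gN + (55 / 168) * h.toLin.eN2_hN
      + (891 / 742) * h.toLin.gN_hN + (26615039 / 2257920) * h.toLin.wRz1N
      + (28263617 / 4515840) * h.toLin.wRz1E + (1007603 / 150528) * h.toLin.wLz3W
      + (965267 / 301056) * h.toLin.wLz3S + (1123 / 1792) * h.toLin.wTt1N
      + (5615 / 37632) * h.toLin.wLt1W + (5615 / 37632) * h.toLin.wLt1S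
      + (1123 / 1792) * h.toLin.wBt1S + (55 / 32) * h.toLin.wBt2S + (55 / 32) * h.toLin.wBt2E
      + (55 / 32) * h.toLin.wTk2N + (55 / 32) * h.toLin.wTk2W + (295325 / 75264) * h.toLin.wLk3W
      + (295325 / 75264) * h.toLin.wLk3S + (18775997 / 4515840) * h.c3
      + (26065513 / 3010560) * e.2.1 + (307 / 5040) * (sub_nonneg.2 u3) + h.hG
      + (1 / 4) * mul_nonneg (sub_nonneg.2 l0) (sub_nonneg.2 u0)
      + (1 / 4) * mul_nonneg (sub_nonneg.2 l1) (sub_nonneg.2 u1)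
      + (1 / 4) * mul_nonneg (sub_nonneg.2 l2) (sub_nonneg.2 u2)
      + (1 / 4) * mul_nonneg (sub_nonneg.2 l3) (sub_nonneg.2 u3) + sq_nonneg (c.s1 - (8 / 15))
      + (4821336577 / 16275087360) * hτ
  linarith only [this, h0]

theorem lfQ43 (h : Lin2 τ c) (e : CsQ c) (hτ : 0 ≤ τ) (h0 : τ ≤ 1 / 10 ^ 7)
    (l0 : (21 / 16) ≤ c.z1Ny - c.p2y) (u0 : c.z1Ny - c.p2y ≤ (11 / 8)) (l1 : (-7 / 2) ≤ c.z1Ey - c.p4y) (u1 : c.z1Ey - c.p4y ≤ (-27 / 8))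
    (l2 : (-5 / 8) ≤ c.z3Wy - c.p2y) (u2 : c.z3Wy - c.p2y ≤ (-3 / 8)) (l3 : (-13 / 8) ≤ c.z3Sy - c.p4y) (u3 : c.z3Sy - c.p4y ≤ (-25 / 16))
    (l4 : (3 / 8) ≤ c.s1) (u4 : c.s1 ≤ (5 / 8)) : False := by
  have : 0 ≤ -(1 / 100) + 35 * τ := by
    linear_combination
      (3683 / 5376) * h.toLin.p2_p4 + (324383 / 161280) * h.toLin.p2_z1Nv
      + (5311 / 3360) * h.toLin.p2_k3Wv + (33 / 224) * h.toLin.p2_eN1
      + (16861 / 20160) * h.toLin.p2_eW1 + (2963 / 5376) * h.toLin.p4_p3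
      + (287153 / 161280) * h.toLin.p4_z1Eu + (2939 / 23040) * h.toLin.p4_z3Sv
      + (5311 / 2688) * h.toLin.p4_k3Sv + (143 / 112) * h.toLin.p4_hNv
      + (2963 / 5376) * h.toLin.p3_z3Wu + (165 / 28) * h.toLin.z1N_gNh + (55 / 32) * h.toLin.z1E_t2E
      + (29 / 315) * h.toLin.z3W_k2W + (16861 / 60480) * h.toLin.z3W_eW1
      + (3929 / 5376) * h.toLin.z3S_t2S + (5311 / 2688) * h.toLin.t2S_k3S
      + (363 / 448) * h.toLin.k2N_eN1 + (2915 / 1904) * h.toLin.k2N_eN2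
      + (363 / 476) * h.toLin.k2N_gNh + (5311 / 3360) * h.toLin.k2W_k3W
      + (16861 / 5040) * h.toLin.k2W_eW1 + (33 / 560) * h.toLin.eN1_hN
      + (165 / 238) * h.toLin.eN2_gN + (55 / 168) * h.toLin.eN2_hN + (891 / 742) * h.toLin.gN_hN
      + (217879 / 40320) * h.toLin.wRz1N + (287153 / 80640) * h.toLin.wRz1E
      + (32509 / 40320) * h.toLin.wLz3W + (2939 / 11520) * h.toLin.wLz3S + (55 / 32) * h.toLin.wBt2S
      + (55 / 32) * h.toLin.wBt2E + (55 / 32) * h.toLin.wTk2N + (55 / 32) * h.toLin.wTk2W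
      + (5311 / 1344) * h.toLin.wLk3W + (5311 / 1344) * h.toLin.wLk3S + (1387 / 1344) * h.c3
      + (584363 / 161280) * e.2.1 + (355 / 5376) * (sub_nonneg.2 l3)
      + (1039 / 1792) * (sub_nonneg.2 u0) + h.hG
      + (1 / 4) * mul_nonneg (sub_nonneg.2 l0) (sub_nonneg.2 u0)
      + (1 / 4) * mul_nonneg (sub_nonneg.2 l1) (sub_nonneg.2 u1)
      + (1 / 4) * mul_nonneg (sub_nonneg.2 l2) (sub_nonneg.2 u2)
      + (1 / 4) * mul_nonneg (sub_nonneg.2 l3) (sub_nonneg.2 u3) + sq_nonneg (c.s1 - (1 / 2))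
      + (193944481 / 435939840) * hτ
  linarith only [this, h0]

theorem lfQ46 (h : Lin2 τ c) (e : CsQ c) (hτ : 0 ≤ τ) (h0 : τ ≤ 1 / 10 ^ 7)
    (l0 : (21 / 16) ≤ c.z1Ny - c.p2y) (u0 : c.z1Ny - c.p2y ≤ (9 / 4)) (l1 : (-7 / 2) ≤ c.z1Ey - c.p4y) (u1 : c.z1Ey - c.p4y ≤ (-45 / 16))
    (l2 : (-5 / 4) ≤ c.z3Wy - c.p2y) (u2 : c.z3Wy - c.p2y ≤ (-3 / 4)) (l3 : (-31 / 16) ≤ c.z3Sy - c.p4y) (u3 : c.z3Sy - c.p4y ≤ (-25 / 16))
    (l4 : (5 / 8) ≤ c.s1) (u4 : c.s1 ≤ (7 / 4)) : False := by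
  have : 0 ≤ -(1 / 10) + 48 * τ := by
    linear_combination
      (239143 / 603696) * h.toLin.p2_p3 + (183787369 / 68821344) * h.toLin.p2_z1Nv
      + (31245071 / 91761792) * h.toLin.p2_z3Wu + (5694373 / 3345482) * h.toLin.p2_k3Wv
      + (198271 / 603696) * h.toLin.p2_eN1 + (122381941 / 120437352) * h.toLin.p2_eW1
      + (4944984319 / 2339925696) * h.toLin.p4_p3 + (1458056525 / 550570752) * h.toLin.p4_z1Eu
      + (84611 / 1207392) * h.toLin.p4_k1Ev + (310336603 / 137642688) * h.toLin.p4_k3Sv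
      + (6491219 / 5131416) * h.toLin.p4_hNv + (2842175 / 1207392) * h.toLin.p3_z3Wu
      + (2840461 / 4301334) * h.toLin.p3_gS + (927317 / 5131416) * h.toLin.p3_hNv
      + (69463483 / 172053360) * h.toLin.z1N_t1N + (42034127 / 114702240) * h.toLin.z1N_t2N
      + (4362179 / 565965) * h.toLin.z1N_gNh + (101 / 64) * h.toLin.z1E_t2E
      + (1173128449 / 1376426880) * h.toLin.z3S_t2S + (31245071 / 21506670) * h.toLin.z3S_gSh
      + (2622941 / 4527720) * h.toLin.t1N_k1N + (2840461 / 8602668) * h.toLin.t1W_k2W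
      + (22723688 / 32260005) * h.toLin.t1S_gSh + (310336603 / 137642688) * h.toLin.t2S_k3S
      + (84611 / 1207392) * h.toLin.t2E_k1E + (338444 / 565965) * h.toLin.k1N_gNh
      + (33111257 / 24147840) * h.toLin.k2N_eN1 + (1947721 / 1509240) * h.toLin.k2N_gNh
      + (99658253 / 68821344) * h.toLin.k2W_k3W + (122381941 / 34410672) * h.toLin.k2W_eW1
      + (122381941 / 240874704) * h.toLin.k3W_eW1 + (198271 / 1509240) * h.toLin.eN1_gN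
      + (3709268 / 1999743) * h.toLin.gN_hN + (983793679 / 137642688) * h.toLin.wRz1N
      + (1458056525 / 275285376) * h.toLin.wRz1E + (46415907 / 15293632) * h.toLin.wLz3W
      + (31245071 / 91761792) * h.toLin.wLz3S + (19883227 / 28675560) * h.toLin.wTt1N
      + (2840461 / 17205336) * h.toLin.wLt1W + (2840461 / 17205336) * h.toLin.wLt1S
      + (19883227 / 28675560) * h.toLin.wBt1S + (42034127 / 114702240) * h.toLin.wTt2N
      + (113533811 / 57351120) * h.toLin.wBt2S + (1947721 / 1207392) * h.toLin.wBt2E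
      + (84611 / 603696) * h.toLin.wRk1N + (84611 / 603696) * h.toLin.wRk1E
      + (1947721 / 1207392) * h.toLin.wTk2N + (1947721 / 1207392) * h.toLin.wTk2W
      + (310336603 / 68821344) * h.toLin.wLk3W + (310336603 / 68821344) * h.toLin.wLk3S
      + (111536639 / 91761792) * h.c3 + (2477118191 / 550570752) * e.2.1
      + (2238479 / 1207392) * (sub_nonneg.2 u2) + h.hG
      + (1 / 4) * mul_nonneg (sub_nonneg.2 l0) (sub_nonneg.2 u0)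
      + (1 / 4) * mul_nonneg (sub_nonneg.2 l1) (sub_nonneg.2 u1)
      + (1 / 4) * mul_nonneg (sub_nonneg.2 l2) (sub_nonneg.2 u2)
      + (1 / 4) * mul_nonneg (sub_nonneg.2 l3) (sub_nonneg.2 u3) + sq_nonneg (c.s1 - (11 / 12))
      + (5403325748953 / 7440963713280) * hτ
  linarith only [this, h0]

theorem lfQ49 (h : Lin2 τ c) (e : CsQ c) (hτ : 0 ≤ τ) (h0 : τ ≤ 1 / 10 ^ 7)
    (l0 : (21 / 16) ≤ c.z1Ny - c.p2y) (u0 : c.z1Ny - c.p2y ≤ (9 / 4)) (l1 : (-7 / 2) ≤ c.z1Ey - c.p4y) (u1 : c.z1Ey - c.p4y ≤ (-45 / 16))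
    (l2 : (-3 / 4) ≤ c.z3Wy - c.p2y) (u2 : c.z3Wy - c.p2y ≤ (-3 / 8)) (l3 : (-31 / 16) ≤ c.z3Sy - c.p4y) (u3 : c.z3Sy - c.p4y ≤ (-25 / 16))
    (l4 : (7 / 8) ≤ c.s1) (u4 : c.s1 ≤ (7 / 4)) : False := by
  have : 0 ≤ -1 + 461 * τ := by
    linear_combination
      (10181715 / 901093) * h.toLin.p2_p3 + (162207133 / 5406558) * h.toLin.p2_z1Nv
      + (6328960 / 901093) * h.toLin.p2_z3Wu + (219149408 / 18922953) * h.toLin.p2_k3Wv
      + (58005008 / 6307651) * h.toLin.p2_eW1 + (5309974 / 2703279) * h.toLin.p4_z1Eu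
      + (3118080 / 901093) * h.toLin.p4_k1Ev + (42241234 / 2703279) * h.toLin.p4_k3Sv
      + (58830976 / 2703279) * h.toLin.p4_hNv + (6456130 / 2703279) * h.toLin.p3_z3Wu
      + (36823040 / 2703279) * h.toLin.p3_gS + (706000 / 901093) * h.toLin.p3_hNv
      + 64 * h.toLin.z1N_gNh + (29620876 / 2703279) * h.toLin.z1E_t2E
      + (13177379 / 2703279) * h.toLin.z3S_t2S + (81010688 / 2703279) * h.toLin.z3S_gSh
      + (25776128 / 901093) * h.toLin.t1N_k1N + (18411520 / 2703279) * h.toLin.t1W_k2W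
      + (117833728 / 8109837) * h.toLin.t1S_gSh + (42241234 / 2703279) * h.toLin.t2S_k3S
      + (3118080 / 901093) * h.toLin.t2E_k1E + (26607616 / 901093) * h.toLin.k1N_gNh
      + (68595992 / 2703279) * h.toLin.k2N_eN2 + (25092236 / 2703279) * h.toLin.k2W_k3W
      + (29002504 / 901093) * h.toLin.k2W_eW1 + (29002504 / 6307651) * h.toLin.k3W_eW1
      + (10354112 / 901093) * h.toLin.eN2_gN + (44004976 / 8109837) * h.toLin.eN2_hN
      + (1088143616 / 47757929) * h.toLin.gN_hN + (202756318 / 2703279) * h.toLin.wRz1N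
      + (10619948 / 2703279) * h.toLin.wRz1E + (44429890 / 2703279) * h.toLin.wLz3W
      + (6328960 / 901093) * h.toLin.wLz3S + (12888064 / 901093) * h.toLin.wTt1N
      + (9205760 / 2703279) * h.toLin.wLt1W + (9205760 / 2703279) * h.toLin.wLt1S
      + (12888064 / 901093) * h.toLin.wBt1S + (34297996 / 2703279) * h.toLin.wBt2S
      + (34297996 / 2703279) * h.toLin.wBt2E + (6236160 / 901093) * h.toLin.wRk1N
      + (6236160 / 901093) * h.toLin.wRk1E + (34297996 / 2703279) * h.toLin.wTk2N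
      + (34297996 / 2703279) * h.toLin.wTk2W + (84482468 / 2703279) * h.toLin.wLk3W
      + (84482468 / 2703279) * h.toLin.wLk3S + (33430051 / 2703279) * h.c3
      + (65815448 / 901093) * e.2.1 + (6456130 / 2703279) * (sub_nonneg.2 u2)
      + (14443171 / 2703279) * (sub_nonneg.2 u3) + (sub_nonneg.2 l0)
      + (29620876 / 2703279) * (sub_nonneg.2 u1) + (42127388 / 901093) * (sub_nonneg.2 l4)
      + (363162349 / 859642722) * hτ
  linarith only [this, h0]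

theorem lfQ52 (h : Lin2 τ c) (e : CsQ c) (hτ : 0 ≤ τ) (h0 : τ ≤ 1 / 10 ^ 7)
    (l0 : (13 / 8) ≤ c.z1Ny - c.p2y) (u0 : c.z1Ny - c.p2y ≤ (9 / 4)) (l1 : (-7 / 2) ≤ c.z1Ey - c.p4y) (u1 : c.z1Ey - c.p4y ≤ (-27 / 8))
    (l2 : (-7 / 2) ≤ c.z3Wy - c.p2y) (u2 : c.z3Wy - c.p2y ≤ (-5 / 8)) (l3 : (-25 / 16) ≤ c.z3Sy - c.p4y) (u3 : c.z3Sy - c.p4y ≤ 0)
    (l4 : 0 ≤ c.s1) (u4 : c.s1 ≤ (7 / 4)) : False := by
  have : 0 ≤ -1 + 411 * τ := by
    linear_combination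
      (79162 / 2687) * h.toLin.p2_p3 + (301391 / 8061) * h.toLin.p2_z1Nv + 15 * h.toLin.p2_z3Wu
      + (76652 / 18809) * h.toLin.p2_k3Wv + (7568 / 2687) * h.toLin.p2_eN1
      + (482408 / 56427) * h.toLin.p2_eW1 + (86996 / 8061) * h.toLin.p4_p3
      + (81266 / 8061) * h.toLin.p4_z1Eu + (37768 / 8061) * h.toLin.p4_k3Sv
      + (39732 / 2687) * h.toLin.p3_z3Wu + h.toLin.p3_z3Su + (257600 / 8061) * h.toLin.p3_gS
      + (73486 / 2687) * h.toLin.z1N_t1N + (15136 / 2687) * h.toLin.z1N_k2N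
      + (7568 / 8061) * h.toLin.z1N_eN1 + (22704 / 2687) * h.toLin.z1E_t2E + 64 * h.toLin.z3S_gSh
      + (104980 / 8061) * h.toLin.t1W_k2W + (671872 / 24183) * h.toLin.t1S_gSh
      + (45408 / 2687) * h.toLin.t2S_k3S + (30272 / 2687) * h.toLin.k2N_eN1
      + (15622 / 8061) * h.toLin.k2W_k3W + (241204 / 8061) * h.toLin.k2W_eW1
      + (241204 / 56427) * h.toLin.k3W_eW1 + (101632 / 8061) * h.toLin.k3S_gSh
      + (631162 / 8061) * h.toLin.wRz1N + (162532 / 8061) * h.toLin.wRz1E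
      + (120342 / 2687) * h.toLin.wLz3W + 16 * h.toLin.wLz3S + (73486 / 2687) * h.toLin.wTt1N
      + (52490 / 8061) * h.toLin.wLt1W + (52490 / 8061) * h.toLin.wLt1S
      + (73486 / 2687) * h.toLin.wBt1S + (22704 / 2687) * h.toLin.wBt2S
      + (22704 / 2687) * h.toLin.wBt2E + (22704 / 2687) * h.toLin.wTk2N
      + (22704 / 2687) * h.toLin.wTk2W + (99356 / 8061) * h.toLin.wLk3W
      + (99356 / 8061) * h.toLin.wLk3S + 16 * h.c3 + (549896 / 8061) * e.2.1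
      + (39732 / 2687) * (sub_nonneg.2 u2) + (22704 / 2687) * (sub_nonneg.2 u1)
      + (90514 / 2687) * (sub_nonneg.2 l0) + (7808 / 24183) * hτ
  linarith only [this, h0]

theorem lfQ55 (h : Lin2 τ c) (e : CsQ c) (hτ : 0 ≤ τ) (h0 : τ ≤ 1 / 10 ^ 7)
    (l0 : (5 / 16) ≤ c.z1Ny - c.p2y) (u0 : c.z1Ny - c.p2y ≤ (11 / 8)) (l1 : (-7 / 2) ≤ c.z1Ey - c.p4y) (u1 : c.z1Ey - c.p4y ≤ (-27 / 8))
    (l2 : (-5 / 8) ≤ c.z3Wy - c.p2y) (u2 : c.z3Wy - c.p2y ≤ (-3 / 8)) (l3 : (-25 / 16) ≤ c.z3Sy - c.p4y) (u3 : c.z3Sy - c.p4y ≤ (-11 / 8))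
    (l4 : 0 ≤ c.s1) (u4 : c.s1 ≤ (5 / 8)) : False := by
  have : 0 ≤ -(1 / 100) + 35 * τ := by
    linear_combination
      (4019 / 5376) * h.toLin.p2_p4 + (46831 / 21504) * h.toLin.p2_z1Nv
      + (63503 / 37632) * h.toLin.p2_k3Wv + (33 / 224) * h.toLin.p2_eN1
      + (17533 / 18816) * h.toLin.p2_eW1 + (2291 / 5376) * h.toLin.p4_p3
      + (5789 / 3072) * h.toLin.p4_z1Eu + (947 / 21504) * h.toLin.p4_z3Sv
      + (5983 / 2688) * h.toLin.p4_k3Sv + (143 / 112) * h.toLin.p4_hNv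
      + (2291 / 5376) * h.toLin.p3_z3Wu + (165 / 28) * h.toLin.z1N_gNh + (55 / 32) * h.toLin.z1E_t2E
      + (947 / 5376) * h.toLin.z3W_k2W + (3257 / 5376) * h.toLin.z3S_t2S
      + (5983 / 2688) * h.toLin.t2S_k3S + (363 / 448) * h.toLin.k2N_eN1
      + (2915 / 1904) * h.toLin.k2N_eN2 + (363 / 476) * h.toLin.k2N_gNh
      + (5213 / 3584) * h.toLin.k2W_k3W + (17533 / 5376) * h.toLin.k2W_eW1
      + (17533 / 37632) * h.toLin.k3W_eW1 + (33 / 560) * h.toLin.eN1_hN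
      + (165 / 238) * h.toLin.eN2_gN + (55 / 168) * h.toLin.eN2_hN + (891 / 742) * h.toLin.gN_hN
      + (61681 / 10752) * h.toLin.wRz1N + (5789 / 1536) * h.toLin.wRz1E
      + (1843 / 3584) * h.toLin.wLz3W + (947 / 10752) * h.toLin.wLz3S + (55 / 32) * h.toLin.wBt2S
      + (55 / 32) * h.toLin.wBt2E + (55 / 32) * h.toLin.wTk2N + (55 / 32) * h.toLin.wTk2W
      + (5983 / 1344) * h.toLin.wLk3W + (5983 / 1344) * h.toLin.wLk3S + (1051 / 1344) * h.c3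
      + (27613 / 7168) * e.2.1 + (691 / 5376) * (sub_nonneg.2 l3) + (591 / 1792) * (sub_nonneg.2 u0)
      + h.hG + (1 / 4) * mul_nonneg (sub_nonneg.2 l0) (sub_nonneg.2 u0)
      + (1 / 4) * mul_nonneg (sub_nonneg.2 l1) (sub_nonneg.2 u1)
      + (1 / 4) * mul_nonneg (sub_nonneg.2 l2) (sub_nonneg.2 u2)
      + (1 / 4) * mul_nonneg (sub_nonneg.2 l3) (sub_nonneg.2 u3) + sq_nonneg (c.s1 - (5 / 16))
      + (5540989 / 96875520) * hτ
  linarith only [this, h0]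

theorem lfQ58 (h : Lin2 τ c) (e : CsQ c) (hτ : 0 ≤ τ) (h0 : τ ≤ 1 / 10 ^ 7)
    (l0 : (5 / 16) ≤ c.z1Ny - c.p2y) (u0 : c.z1Ny - c.p2y ≤ (13 / 8)) (l1 : (-7 / 2) ≤ c.z1Ey - c.p4y) (u1 : c.z1Ey - c.p4y ≤ (-27 / 8))
    (l2 : (-5 / 8) ≤ c.z3Wy - c.p2y) (u2 : c.z3Wy - c.p2y ≤ (-3 / 8)) (l3 : (-25 / 16) ≤ c.z3Sy - c.p4y) (u3 : c.z3Sy - c.p4y ≤ 0)
    (l4 : (5 / 8) ≤ c.s1) (u4 : c.s1 ≤ (7 / 4)) : False := by
  have : 0 ≤ -(1 / 10) + 55 * τ := by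
    linear_combination
      (4672316243 / 2719437760) * h.toLin.p2_p3 + (3120470233 / 1087775104) * h.toLin.p2_z1Nv
      + (54373279 / 135971888) * h.toLin.p2_z3Wu + (425736131 / 594877010) * h.toLin.p2_k3Wv
      + (2404023 / 67985944) * h.toLin.p2_eN1 + (87200055 / 59487701) * h.toLin.p2_eW1
      + (14021221 / 1087775104) * h.toLin.p4_z3Sv + (27046875 / 135971888) * h.toLin.p4_k1Ev
      + (6167341 / 8498243) * h.toLin.p4_k3Sv + (5091556 / 8498243) * h.toLin.p4_eS2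
      + (71723683 / 33992972) * h.toLin.p4_hNv + (1 / 4) * h.toLin.p3_z3Wu
      + (15338673 / 84982430) * h.toLin.p3_k2Wv + (5091556 / 8498243) * h.toLin.p3_eS2
      + (11968935 / 8498243) * h.toLin.p3_gS + (25568021 / 67985944) * h.toLin.z1N_t1N
      + (58901365 / 8498243) * h.toLin.z1N_gNh + (55 / 32) * h.toLin.z1E_t2E
      + (13564793 / 8498243) * h.toLin.z3S_gSh + (55896875 / 33992972) * h.toLin.t1N_k1N
      + (20366224 / 8498243) * h.toLin.t1W_k2W + (20366224 / 8498243) * h.toLin.t1S_eS2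
      + (30903140 / 8498243) * h.toLin.t2S_k3S + (27046875 / 135971888) * h.toLin.t2E_k1E
      + (14425000 / 8498243) * h.toLin.k1N_gNh + (26444253 / 135971888) * h.toLin.k2N_eN1
      + (918485495 / 288940262) * h.toLin.k2N_eN2 + (26444253 / 144470131) * h.toLin.k2N_gNh
      + (59353141 / 169964860) * h.toLin.k2W_k3W + (87200055 / 16996486) * h.toLin.k2W_eW1
      + (87200055 / 118975402) * h.toLin.k3W_eW1 + (25533728 / 8498243) * h.toLin.k3S_gSh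
      + (2404023 / 169964860) * h.toLin.eN1_hN + (207958980 / 144470131) * h.toLin.eN2_gN
      + (17329915 / 25494729) * h.toLin.eN2_hN + (865492242 / 450406879) * h.toLin.gN_hN
      + (1000997677 / 135971888) * h.toLin.wRz1N + (71369765 / 67985944) * h.toLin.wLz3W
      + (54373279 / 135971888) * h.toLin.wLz3S + (10183112 / 8498243) * h.toLin.wTt1N
      + (10183112 / 8498243) * h.toLin.wLt1W + (10183112 / 8498243) * h.toLin.wLt1S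
      + (10183112 / 8498243) * h.toLin.wBt1S + (15451570 / 8498243) * h.toLin.wBt2S
      + (15451570 / 8498243) * h.toLin.wBt2E + (27046875 / 67985944) * h.toLin.wRk1N
      + (27046875 / 67985944) * h.toLin.wRk1E + (15451570 / 8498243) * h.toLin.wTk2N
      + (15451570 / 8498243) * h.toLin.wTk2W + (36638299 / 16996486) * h.toLin.wLk3W
      + (36638299 / 16996486) * h.toLin.wLk3S + (231057909 / 543887552) * h.c3
      + (1000997677 / 135971888) * e.2.1 + (99445641 / 271943776) * (sub_nonneg.2 l3)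
      + (4899904617 / 747845384) * (sub_nonneg.2 l4) + h.hG
      + (1 / 4) * mul_nonneg (sub_nonneg.2 l0) (sub_nonneg.2 u0)
      + (1 / 4) * mul_nonneg (sub_nonneg.2 l1) (sub_nonneg.2 u1)
      + (1 / 4) * mul_nonneg (sub_nonneg.2 l2) (sub_nonneg.2 u2)
      + (1 / 4) * mul_nonneg (sub_nonneg.2 l3) (sub_nonneg.2 u3) + sq_nonneg (c.s1 - (10 / 11))
      + (6368226677713 / 7350640265280) * hτ
  linarith only [this, h0]

theorem lfQ61 (h : Lin2 τ c) (e : CsQ c) (hτ : 0 ≤ τ) (h0 : τ ≤ 1 / 10 ^ 7)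
    (l0 : (13 / 8) ≤ c.z1Ny - c.p2y) (u0 : c.z1Ny - c.p2y ≤ (9 / 4)) (l1 : (-27 / 8) ≤ c.z1Ey - c.p4y) (u1 : c.z1Ey - c.p4y ≤ (-15 / 16))
    (l2 : (-5 / 8) ≤ c.z3Wy - c.p2y) (u2 : c.z3Wy - c.p2y ≤ (-3 / 8)) (l3 : (-25 / 16) ≤ c.z3Sy - c.p4y) (u3 : c.z3Sy - c.p4y ≤ 0)
    (l4 : 0 ≤ c.s1) (u4 : c.s1 ≤ (7 / 4)) : False := by
  have : 0 ≤ -(1 / 10) + 32 * τ := by
    linear_combination
      (147 / 128) * h.toLin.p2_p4 + (23 / 16) * h.toLin.p2_p3 + (5635 / 1824) * h.toLin.p2_z1Nv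
      + (391 / 1824) * h.toLin.p2_z3Wv + (69 / 32) * h.toLin.p2_k3Wv + (11 / 228) * h.toLin.p4_p3
      + (3241 / 1824) * h.toLin.p4_z1Eu + (3197 / 1824) * h.toLin.p4_k3Sv
      + (1 / 4) * h.toLin.p3_z3Wu + (92 / 57) * h.toLin.p3_gS + (69 / 64) * h.toLin.z1N_t1N
      + (117 / 64) * h.toLin.z1N_t2N + (69 / 64) * h.toLin.z1E_t2E
      + (19811 / 54720) * h.toLin.z3S_t2S + (1564 / 855) * h.toLin.z3S_gSh
      + (69 / 32) * h.toLin.t1W_k3W + (139219 / 27360) * h.toLin.t2S_k3S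
      + (2944 / 855) * h.toLin.k3S_gSh + (5635 / 912) * h.toLin.wRz1N + (3241 / 912) * h.toLin.wRz1E
      + (619 / 912) * h.toLin.wLz3W + (391 / 912) * h.toLin.wLz3S + (69 / 64) * h.toLin.wTt1N
      + (69 / 64) * h.toLin.wTt1W + (117 / 64) * h.toLin.wTt2N + (93 / 32) * h.toLin.wBt2S
      + (69 / 64) * h.toLin.wBt2E + (69 / 16) * h.toLin.wLk3W + (69 / 16) * h.toLin.wLk3S
      + (25 / 64) * h.c3 + (8029 / 1824) * e.2.1 + (31 / 16) * (sub_nonneg.2 l0) + h.hG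
      + (1 / 4) * mul_nonneg (sub_nonneg.2 l0) (sub_nonneg.2 u0)
      + (1 / 4) * mul_nonneg (sub_nonneg.2 l1) (sub_nonneg.2 u1)
      + (1 / 4) * mul_nonneg (sub_nonneg.2 l2) (sub_nonneg.2 u2)
      + (1 / 4) * mul_nonneg (sub_nonneg.2 l3) (sub_nonneg.2 u3) + sq_nonneg (c.s1 - (7 / 8))
      + (3137 / 12160) * hτ
  linarith only [this, h0]

theorem lfQ64 (h : Lin2 τ c) (e : CsQ c) (hτ : 0 ≤ τ) (h0 : τ ≤ 1 / 10 ^ 7)
    (l0 : (5 / 16) ≤ c.z1Ny - c.p2y) (u0 : c.z1Ny - c.p2y ≤ (21 / 16)) (l1 : (-7 / 2) ≤ c.z1Ey - c.p4y) (u1 : c.z1Ey - c.p4y ≤ (-27 / 8))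
    (l2 : (-3 / 8) ≤ c.z3Wy - c.p2y) (u2 : c.z3Wy - c.p2y ≤ (1 / 2)) (l3 : (-21 / 16) ≤ c.z3Sy - c.p4y) (u3 : c.z3Sy - c.p4y ≤ 0)
    (l4 : 0 ≤ c.s1) (u4 : c.s1 ≤ (7 / 4)) : False := by
  have : 0 ≤ -(1 / 10) + 4 * τ := by
    linear_combination
      (5 / 16) * h.toLin.p2_p4 + (5 / 16) * h.toLin.z1N_t1N + (5 / 16) * h.toLin.z1E_t2E
      + (5 / 16) * h.toLin.z3W_t1W + (5 / 16) * h.toLin.z3S_t2S + (5 / 16) * h.toLin.wTt1N
      + (5 / 16) * h.toLin.wTt1W + (5 / 16) * h.toLin.wBt2S + (5 / 16) * h.toLin.wBt2E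
      + (5 / 8) * h.c3 + (45 / 32) * (sub_nonneg.2 l1) + (9 / 32) * (sub_nonneg.2 l2)
      + (1 / 64) * (sub_nonneg.2 l3) + (3 / 32) * (sub_nonneg.2 u0) + h.hG
      + (1 / 4) * mul_nonneg (sub_nonneg.2 l0) (sub_nonneg.2 u0)
      + (1 / 4) * mul_nonneg (sub_nonneg.2 l1) (sub_nonneg.2 u1)
      + (1 / 4) * mul_nonneg (sub_nonneg.2 l2) (sub_nonneg.2 u2)
      + (1 / 4) * mul_nonneg (sub_nonneg.2 l3) (sub_nonneg.2 u3) + sq_nonneg (c.s1 - (5 / 8))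
      + (13 / 16) * hτ
  linarith only [this, h0]

theorem lfQ67 (h : Lin2 τ c) (e : CsQ c) (hτ : 0 ≤ τ) (h0 : τ ≤ 1 / 10 ^ 7)
    (l0 : (13 / 8) ≤ c.z1Ny - c.p2y) (u0 : c.z1Ny - c.p2y ≤ (9 / 4)) (l1 : (-27 / 8) ≤ c.z1Ey - c.p4y) (u1 : c.z1Ey - c.p4y ≤ (-15 / 16))
    (l2 : (-3 / 8) ≤ c.z3Wy - c.p2y) (u2 : c.z3Wy - c.p2y ≤ (1 / 2)) (l3 : (-5 / 2) ≤ c.z3Sy - c.p4y) (u3 : c.z3Sy - c.p4y ≤ (-11 / 8))
    (l4 : 0 ≤ c.s1) (u4 : c.s1 ≤ (7 / 4)) : False := by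
  have : 0 ≤ -(1 / 10) + 52 * τ := by
    linear_combination
      (5075 / 4096) * h.toLin.p2_p4 + (3819 / 1024) * h.toLin.p2_p3
      + (8241 / 2048) * h.toLin.p2_z1Nv + (1139 / 1024) * h.toLin.p2_z3Wu
      + (67 / 64) * h.toLin.p2_k3Wv + (67 / 128) * h.toLin.p3_z3Wu + (67 / 16) * h.toLin.p3_gS
      + (69 / 64) * h.toLin.z1N_t1N + (9369 / 2048) * h.toLin.z1N_t2N + (69 / 64) * h.toLin.z1E_t2E
      + (71 / 128) * h.toLin.z3W_t1W + (40727 / 30720) * h.toLin.z3S_t2S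
      + (1139 / 240) * h.toLin.z3S_gSh + (67 / 64) * h.toLin.t1W_k3W
      + (2077 / 240) * h.toLin.t2S_k3S + (134 / 15) * h.toLin.k3S_gSh
      + (8241 / 1024) * h.toLin.wRz1N + (1407 / 512) * h.toLin.wLz3W + (1139 / 1024) * h.toLin.wLz3S
      + (69 / 64) * h.toLin.wTt1N + (69 / 64) * h.toLin.wTt1W + (9369 / 2048) * h.toLin.wTt2N
      + (11577 / 2048) * h.toLin.wBt2S + (69 / 64) * h.toLin.wBt2E + (67 / 32) * h.toLin.wLk3W
      + (67 / 32) * h.toLin.wLk3S + (6281 / 2048) * h.c3 + (8241 / 1024) * e.2.1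
      + (883 / 2048) * (sub_nonneg.2 u3) + (9593 / 2048) * (sub_nonneg.2 l0) + h.hG
      + (1 / 4) * mul_nonneg (sub_nonneg.2 l0) (sub_nonneg.2 u0)
      + (1 / 4) * mul_nonneg (sub_nonneg.2 l1) (sub_nonneg.2 u1)
      + (1 / 4) * mul_nonneg (sub_nonneg.2 l2) (sub_nonneg.2 u2)
      + (1 / 4) * mul_nonneg (sub_nonneg.2 l3) (sub_nonneg.2 u3) + sq_nonneg (c.s1 - (7 / 8))
      + (1617 / 20480) * hτ
  linarith only [this, h0]

theorem lfQ70 (h : Lin2 τ c) (e : CsQ c) (hτ : 0 ≤ τ) (h0 : τ ≤ 1 / 10 ^ 7)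
    (l0 : (-9 / 4) ≤ c.z1Ny - c.p2y) (u0 : c.z1Ny - c.p2y ≤ (-1 / 8)) (l1 : (-7 / 2) ≤ c.z1Ey - c.p4y) (u1 : c.z1Ey - c.p4y ≤ (-15 / 16))
    (l2 : (-2) ≤ c.z3Wy - c.p2y) (u2 : c.z3Wy - c.p2y ≤ (1 / 2)) (l3 : 0 ≤ c.z3Sy - c.p4y) (u3 : c.z3Sy - c.p4y ≤ (9 / 4))
    (l4 : 0 ≤ c.s1) (u4 : c.s1 ≤ (7 / 4)) : False := by
  have : 0 ≤ -(1 / 10) + 44 * τ := by
    linear_combination
      (123 / 448) * h.toLin.p2_p3 + (1015 / 1312) * h.toLin.p2_z3Wv + (79 / 82) * h.toLin.p2_k3Wv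
      + (553 / 1312) * h.toLin.p2_eN1 + (14931 / 144320) * h.toLin.p2_eN2
      + (79 / 164) * h.toLin.p2_eW1 + (32799 / 15785) * h.toLin.p2_gN + (75 / 544) * h.toLin.p4_p3
      + (5061 / 2624) * h.toLin.p4_z1Eu + (1015 / 1312) * h.toLin.p4_z3Sv
      + (553 / 656) * h.toLin.p4_k3Sv + (553 / 656) * h.toLin.p4_eS2
      + (1157 / 1394) * h.toLin.p4_hNv + (3 / 8) * h.toLin.p3_z3Wu + (9 / 16) * h.toLin.p3_z3Su
      + (129 / 476) * h.toLin.p3_hNv + (717 / 41) * h.toLin.z1N_gNh + (175 / 164) * h.toLin.z1N_hNu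
      + (553 / 656) * h.toLin.z1E_t2E + (553 / 656) * h.toLin.t2N_k2N
      + (553 / 656) * h.toLin.t2S_k3S + (553 / 656) * h.toLin.t2S_eS2
      + (553 / 328) * h.toLin.k2N_eN1 + (553 / 656) * h.toLin.k2N_eN2
      + (553 / 656) * h.toLin.k2W_k3W + (553 / 328) * h.toLin.k2W_eW1 + (79 / 328) * h.toLin.k3W_eW1
      + (553 / 328) * h.toLin.k3S_eS2 + (553 / 1312) * h.toLin.eN1_eN2
      + (2212 / 2255) * h.toLin.eN2_gN + (3112 / 15211) * h.toLin.gN_hN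
      + (6865 / 1312) * h.toLin.wRz1N + (5061 / 1312) * h.toLin.wRz1E + (1261 / 656) * h.toLin.wLz3W
      + (173 / 82) * h.toLin.wLz3S + (553 / 1312) * h.toLin.wRt2N + (553 / 1312) * h.toLin.wLt2S
      + (553 / 656) * h.toLin.wBt2S + (553 / 656) * h.toLin.wBt2E + (553 / 656) * h.toLin.wTk2N
      + (553 / 656) * h.toLin.wTk2W + (1659 / 656) * h.toLin.wLk3W + (1659 / 656) * h.toLin.wLk3S
      + (1511 / 656) * e.2.1 + (699 / 2624) * (sub_nonneg.2 l1) + h.hG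
      + (1 / 4) * mul_nonneg (sub_nonneg.2 l0) (sub_nonneg.2 u0)
      + (1 / 4) * mul_nonneg (sub_nonneg.2 l1) (sub_nonneg.2 u1)
      + (1 / 4) * mul_nonneg (sub_nonneg.2 l2) (sub_nonneg.2 u2)
      + (1 / 4) * mul_nonneg (sub_nonneg.2 l3) (sub_nonneg.2 u3) + sq_nonneg (c.s1 - (7 / 16))
      + (746919611 / 910226240) * hτ
  linarith only [this, h0]

theorem lfQ73 (h : Lin2 τ c) (e : CsQ c) (hτ : 0 ≤ τ) (h0 : τ ≤ 1 / 10 ^ 7)
    (l0 : (-9 / 4) ≤ c.z1Ny - c.p2y) (u0 : c.z1Ny - c.p2y ≤ (1 / 8)) (l1 : (-7 / 2) ≤ c.z1Ey - c.p4y) (u1 : c.z1Ey - c.p4y ≤ (-15 / 16))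
    (l2 : (1 / 2) ≤ c.z3Wy - c.p2y) (u2 : c.z3Wy - c.p2y ≤ (11 / 4)) (l3 : (-5 / 2) ≤ c.z3Sy - c.p4y) (u3 : c.z3Sy - c.p4y ≤ (-1 / 8))
    (l4 : 0 ≤ c.s1) (u4 : c.s1 ≤ (7 / 4)) : False := by
  have : 0 ≤ -(1 / 10) + 15 * τ := by
    linear_combination
      (269 / 1600) * h.toLin.p2_p4 + (623 / 480) * h.toLin.p2_z1Nv + (61 / 48) * h.toLin.p2_z3Wu
      + (3 / 200) * h.toLin.p2_eN1 + (7 / 120) * h.toLin.p2_eW1 + (391 / 320) * h.toLin.p4_p1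
      + (43 / 64) * h.toLin.p4_z3Sv + (13 / 100) * h.toLin.p4_hNv + (391 / 320) * h.toLin.p1_z1Nu
      + (109 / 160) * h.toLin.z1N_t1N + (3 / 5) * h.toLin.z1N_gNh + (137 / 160) * h.toLin.z1E_t2E
      + (109 / 160) * h.toLin.z3W_t1W + (7 / 60) * h.toLin.z3W_k2W + (7 / 360) * h.toLin.z3W_eW1
      + (137 / 160) * h.toLin.z3S_t2S + (33 / 400) * h.toLin.k2N_eN1 + (53 / 340) * h.toLin.k2N_eN2
      + (33 / 425) * h.toLin.k2N_gNh + (7 / 30) * h.toLin.k2W_eW1 + (3 / 500) * h.toLin.eN1_hN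
      + (6 / 85) * h.toLin.eN2_gN + (1 / 30) * h.toLin.eN2_hN + (162 / 1325) * h.toLin.gN_hN
      + (95 / 24) * h.toLin.wRz1N + (251 / 96) * h.toLin.wLz3W + (43 / 32) * h.toLin.wLz3S
      + (109 / 160) * h.toLin.wTt1N + (109 / 160) * h.toLin.wTt1W + (137 / 160) * h.toLin.wBt2S
      + (137 / 160) * h.toLin.wBt2E + (7 / 40) * h.toLin.wTk2N + (7 / 40) * h.toLin.wTk2W
      + (1411 / 480) * h.c3 + (2627 / 960) * e.2.1 + (81 / 320) * (sub_nonneg.2 l1)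
      + (1 / 5) * (sub_nonneg.2 u3) + h.hG
      + (1 / 4) * mul_nonneg (sub_nonneg.2 l0) (sub_nonneg.2 u0)
      + (1 / 4) * mul_nonneg (sub_nonneg.2 l1) (sub_nonneg.2 u1)
      + (1 / 4) * mul_nonneg (sub_nonneg.2 l2) (sub_nonneg.2 u2)
      + (1 / 4) * mul_nonneg (sub_nonneg.2 l3) (sub_nonneg.2 u3) + sq_nonneg (c.s1 - (7 / 8))
      + (13361159 / 32436000) * hτ
  linarith only [this, h0]

theorem lfQ76 (h : Lin2 τ c) (e : CsQ c) (hτ : 0 ≤ τ) (h0 : τ ≤ 1 / 10 ^ 7)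
    (l0 : (-3 / 16) ≤ c.z1Ny - c.p2y) (u0 : c.z1Ny - c.p2y ≤ (9 / 4)) (l1 : (-7 / 2) ≤ c.z1Ey - c.p4y) (u1 : c.z1Ey - c.p4y ≤ (-15 / 16))
    (l2 : (1 / 2) ≤ c.z3Wy - c.p2y) (u2 : c.z3Wy - c.p2y ≤ (11 / 4)) (l3 : (-1 / 8) ≤ c.z3Sy - c.p4y) (u3 : c.z3Sy - c.p4y ≤ (9 / 4))
    (l4 : 0 ≤ c.s1) (u4 : c.s1 ≤ (7 / 4)) : False := by
  have : 0 ≤ -(1 / 10) + 16 * τ := by
    linear_combination
      (2043013 / 1448448) * h.toLin.p2_p3 + (1030225 / 724224) * h.toLin.p2_z1Nv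
      + (72937 / 120704) * h.toLin.p2_z3Wu + (21859 / 181056) * h.toLin.p2_k3Wv
      + (1 / 48) * h.toLin.p2_eN1 + (25 / 2944) * h.toLin.p2_eW1 + (50475 / 120704) * h.toLin.p4_p1
      + (25545 / 120704) * h.toLin.p4_z3Sv + (1 / 184) * h.toLin.p4_hNv
      + (50475 / 120704) * h.toLin.p1_z1Nu + (8653 / 120704) * h.toLin.p3_z3Wu
      + (319261 / 362112) * h.toLin.p3_z3Su + (25 / 8832) * h.toLin.p3_eW1
      + (3373 / 5658) * h.toLin.p3_gS + (168967 / 181056) * h.toLin.z1N_t1N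
      + (5 / 138) * h.toLin.z1N_gNh + (57689 / 60352) * h.toLin.z1E_t2E
      + (106725 / 120704) * h.toLin.z3W_t1W + (306299 / 905280) * h.toLin.z3S_t2S
      + (21847 / 28290) * h.toLin.z3S_gSh + (17759 / 181056) * h.toLin.t1W_k3W
      + (25 / 552) * h.toLin.t2N_k2N + (59117 / 56580) * h.toLin.t2S_k3S
      + (20 / 207) * h.toLin.t2S_gSh + (25 / 276) * h.toLin.k2N_eN1 + (25 / 1104) * h.toLin.k2W_k3W
      + (25 / 552) * h.toLin.k2W_eW1 + (15256 / 14145) * h.toLin.k3S_gSh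
      + (1 / 138) * h.toLin.eN1_gN + (1 / 920) * h.toLin.eN1_hN + (7 / 1219) * h.toLin.gN_hN
      + (1184725 / 362112) * h.toLin.wRz1N + (154527 / 120704) * h.toLin.wLz3W
      + (67259 / 45264) * h.toLin.wLz3S + (168967 / 181056) * h.toLin.wTt1N
      + (168967 / 181056) * h.toLin.wTt1W + (25 / 1104) * h.toLin.wRt2N
      + (25 / 1104) * h.toLin.wLt2S + (57689 / 60352) * h.toLin.wBt2S
      + (57689 / 60352) * h.toLin.wBt2E + (25 / 1104) * h.toLin.wTk2N + (25 / 1104) * h.toLin.wTk2W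
      + (1907 / 7544) * h.toLin.wLk3W + (1907 / 7544) * h.toLin.wLk3S + (665875 / 362112) * h.c3
      + (258325 / 90528) * e.2.1 + (579 / 3772) * (sub_nonneg.2 l1) + h.hG
      + (1 / 4) * mul_nonneg (sub_nonneg.2 l0) (sub_nonneg.2 u0)
      + (1 / 4) * mul_nonneg (sub_nonneg.2 l1) (sub_nonneg.2 u1)
      + (1 / 4) * mul_nonneg (sub_nonneg.2 l2) (sub_nonneg.2 u2)
      + (1 / 4) * mul_nonneg (sub_nonneg.2 l3) (sub_nonneg.2 u3) + sq_nonneg (c.s1 - (7 / 16))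
      + (589549699 / 1151516160) * hτ
  linarith only [this, h0]

theorem lfQ79 (h : Lin2 τ c) (e : CsQ c) (hτ : 0 ≤ τ) (h0 : τ ≤ 1 / 10 ^ 7)
    (l0 : (-9 / 16) ≤ c.z1Ny - c.p2y) (u0 : c.z1Ny - c.p2y ≤ (9 / 4)) (l1 : (-15 / 16) ≤ c.z1Ey - c.p4y) (u1 : c.z1Ey - c.p4y ≤ 3)
    (l2 : (-7 / 2) ≤ c.z3Wy - c.p2y) (u2 : c.z3Wy - c.p2y ≤ (-1)) (l3 : (-5 / 2) ≤ c.z3Sy - c.p4y) (u3 : c.z3Sy - c.p4y ≤ 0)
    (l4 : 0 ≤ c.s1) (u4 : c.s1 ≤ (7 / 4)) : False := by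
  have : 0 ≤ -(1 / 10) + 75 * τ := by
    linear_combination
      (4254853 / 1100352) * h.toLin.p2_z1Nv + (8105447 / 1467136) * h.toLin.p2_z3Wu
      + (133709981 / 279856192) * h.toLin.p2_k1Nv + (31291 / 320936) * h.toLin.p2_k3Wv
      + (31291 / 240702) * h.toLin.p2_eN1 + (31291 / 80234) * h.toLin.p2_eW1
      + (185273 / 113578) * h.toLin.p2_gN + (31111 / 1467136) * h.toLin.p4_p1
      + (1603200727 / 2676056064) * h.toLin.p4_p3 + (1866663 / 733568) * h.toLin.p4_z1Eu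
      + (31291 / 45848) * h.toLin.p4_k1Ev + (31291 / 183392) * h.toLin.p4_k3Sv
      + (1706273 / 23474176) * h.toLin.p4_eS2 + (64250159 / 20906688) * h.toLin.p4_gS
      + (1703047 / 4401408) * h.toLin.p1_p3 + (33 / 64) * h.toLin.p1_z1Eu
      + (5931 / 11462) * h.toLin.p1_gN + (16573 / 275088) * h.toLin.p1_hWv
      + (3085607 / 2934272) * h.toLin.p3_z3Wu + (1706273 / 23474176) * h.toLin.p3_eS2
      + (8348927 / 20906688) * h.toLin.p3_gS + (16573 / 50016) * h.toLin.p3_hW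
      + (31291 / 137544) * h.toLin.z1N_k2N + (213883 / 17193) * h.toLin.z1N_gNh
      + (16573 / 183392) * h.toLin.z3W_hWu + (93873 / 366784) * h.toLin.z3S_t2S
      + (135367 / 5731) * h.toLin.z3S_gSh + (1363 / 704) * h.toLin.t1N_k1N
      + (31291 / 45848) * h.toLin.t1W_k2W + (1706273 / 5868544) * h.toLin.t1S_eS2
      + (153265 / 183392) * h.toLin.t1S_gSh + (31291 / 183392) * h.toLin.t2S_k3S
      + (31291 / 45848) * h.toLin.t2E_k1E + (31291 / 481404) * h.toLin.k1N_eN1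
      + (2883934 / 1874037) * h.toLin.k1N_gNh + (31291 / 68772) * h.toLin.k2N_eN1
      + (31291 / 22924) * h.toLin.k2W_eW1 + (31291 / 160468) * h.toLin.k3W_eW1
      + (3947705 / 366784) * h.toLin.wRz1N + (1027893 / 183392) * h.toLin.wRz1E
      + (2236821 / 183392) * h.toLin.wLz3W + (2030505 / 366784) * h.toLin.wLz3S
      + (1363 / 1408) * h.toLin.wTt1N + (31291 / 91696) * h.toLin.wLt1W
      + (31291 / 91696) * h.toLin.wLt1S + (1363 / 1408) * h.toLin.wBt1S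
      + (31291 / 91696) * h.toLin.wBt2S + (31291 / 91696) * h.toLin.wBt2E
      + (31291 / 22924) * h.toLin.wRk1N + (31291 / 22924) * h.toLin.wRk1E
      + (31291 / 91696) * h.toLin.wTk2N + (31291 / 91696) * h.toLin.wTk2W
      + (31291 / 91696) * h.toLin.wLk3W + (31291 / 91696) * h.toLin.wLk3S
      + (2259745 / 366784) * h.c3 + (6028747 / 733568) * e.2.1 + h.hG
      + (1 / 4) * mul_nonneg (sub_nonneg.2 l0) (sub_nonneg.2 u0)
      + (1 / 4) * mul_nonneg (sub_nonneg.2 l1) (sub_nonneg.2 u1)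
      + (1 / 4) * mul_nonneg (sub_nonneg.2 l2) (sub_nonneg.2 u2)
      + (1 / 4) * mul_nonneg (sub_nonneg.2 l3) (sub_nonneg.2 u3) + sq_nonneg (c.s1 - (5 / 11))
      + (1897524785 / 5117370368) * hτ
  linarith only [this, h0]

theorem lfQ82 (h : Lin2 τ c) (e : CsQ c) (hτ : 0 ≤ τ) (h0 : τ ≤ 1 / 10 ^ 7)
    (l0 : (-9 / 4) ≤ c.z1Ny - c.p2y) (u0 : c.z1Ny - c.p2y ≤ (-3 / 8)) (l1 : (-15 / 16) ≤ c.z1Ey - c.p4y) (u1 : c.z1Ey - c.p4y ≤ 3)
    (l2 : (-1) ≤ c.z3Wy - c.p2y) (u2 : c.z3Wy - c.p2y ≤ (11 / 4)) (l3 : (-5 / 2) ≤ c.z3Sy - c.p4y) (u3 : c.z3Sy - c.p4y ≤ (-1 / 8))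
    (l4 : 0 ≤ c.s1) (u4 : c.s1 ≤ (7 / 4)) : False := by
  have : 0 ≤ -(1 / 10) + 15 * τ := by
    linear_combination
      (1561 / 3200) * h.toLin.p2_p1 + (7 / 64) * h.toLin.p2_z1Nv + (5087 / 3840) * h.toLin.p2_z3Wv
      + (10397 / 11200) * h.toLin.p2_k1Nv + (59 / 280) * h.toLin.p2_eN1
      + (17 / 120) * h.toLin.p2_eW1 + (89 / 128) * h.toLin.p4_p1 + (1809 / 1280) * h.toLin.p4_z3Sv
      + (341 / 320) * h.toLin.p4_k1Ev + (427 / 640) * h.toLin.p1_z1Nu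
      + (323 / 640) * h.toLin.p1_z1Eu + (9 / 400) * h.toLin.p1_k2Nv + (69 / 640) * h.toLin.z3W_t1W
      + (17 / 60) * h.toLin.z3W_k2W + (17 / 360) * h.toLin.z3W_eW1 + (427 / 640) * h.toLin.z3S_t2S
      + (69 / 320) * h.toLin.t1N_k1N + (43 / 160) * h.toLin.t2N_k1N + (341 / 320) * h.toLin.t2E_k1E
      + (313 / 800) * h.toLin.k1N_k2N + (59 / 560) * h.toLin.k1N_eN1 + (59 / 80) * h.toLin.k2N_eN1
      + (17 / 30) * h.toLin.k2W_eW1 + (567 / 640) * h.toLin.wRz1N + (323 / 640) * h.toLin.wRz1E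
      + (1809 / 640) * h.toLin.wLz3W + (1809 / 640) * h.toLin.wLz3S + (69 / 640) * h.toLin.wTt1N
      + (69 / 640) * h.toLin.wTt1W + (43 / 320) * h.toLin.wTt2N + (427 / 640) * h.toLin.wBt2S
      + (341 / 640) * h.toLin.wBt2E + (341 / 160) * h.toLin.wRk1N + (341 / 160) * h.toLin.wRk1E
      + (17 / 40) * h.toLin.wTk2N + (17 / 40) * h.toLin.wTk2W + (7 / 640) * h.toLin.wl
      + (35 / 32) * h.c3 + (7 / 32) * e.2.1 + h.hG
      + (1 / 4) * mul_nonneg (sub_nonneg.2 l0) (sub_nonneg.2 u0)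
      + (1 / 4) * mul_nonneg (sub_nonneg.2 l1) (sub_nonneg.2 u1)
      + (1 / 4) * mul_nonneg (sub_nonneg.2 l2) (sub_nonneg.2 u2)
      + (1 / 4) * mul_nonneg (sub_nonneg.2 l3) (sub_nonneg.2 u3) + sq_nonneg (c.s1 - (7 / 16))
      + (25307 / 28800) * hτ
  linarith only [this, h0]

theorem lfQ85 (h : Lin2 τ c) (e : CsQ c) (hτ : 0 ≤ τ) (h0 : τ ≤ 1 / 10 ^ 7)
    (l0 : (-3 / 8) ≤ c.z1Ny - c.p2y) (u0 : c.z1Ny - c.p2y ≤ (9 / 4)) (l1 : (1 / 2) ≤ c.z1Ey - c.p4y) (u1 : c.z1Ey - c.p4y ≤ 3)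
    (l2 : (-1) ≤ c.z3Wy - c.p2y) (u2 : c.z3Wy - c.p2y ≤ (11 / 4)) (l3 : (-5 / 2) ≤ c.z3Sy - c.p4y) (u3 : c.z3Sy - c.p4y ≤ (9 / 4))
    (l4 : 0 ≤ c.s1) (u4 : c.s1 ≤ (7 / 4)) : False := by
  have : 0 ≤ -(1 / 10) + 7 * τ := by
    linear_combination
      (1 / 2) * h.toLin.p2_p1 + (3 / 16) * h.toLin.p2_z1Nu + (1 / 4) * h.toLin.p2_z1Nv
      + (13 / 16) * h.toLin.p2_z3Wv + (1 / 8) * h.toLin.p2_k1Nv + (11 / 16) * h.toLin.p4_z1Eu
      + (13 / 16) * h.toLin.p4_z3Sv + (1 / 8) * h.toLin.p4_k1Ev + (1 / 2) * h.toLin.p1_z1Eu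
      + (3 / 8) * h.toLin.z1N_t1N + (1 / 16) * h.toLin.z3W_t1W + (3 / 8) * h.toLin.z3S_t1S
      + (1 / 16) * h.toLin.z3S_t2S + (1 / 8) * h.toLin.t1N_k1N + (1 / 8) * h.toLin.t2E_k1E
      + (7 / 8) * h.toLin.wRz1N + (15 / 8) * h.toLin.wRz1E + (13 / 8) * h.toLin.wLz3W
      + (13 / 8) * h.toLin.wLz3S + (7 / 16) * h.toLin.wTt1N + (1 / 16) * h.toLin.wTt1W
      + (3 / 8) * h.toLin.wBt1S + (1 / 16) * h.toLin.wBt2S + (1 / 16) * h.toLin.wBt2E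
      + (1 / 4) * h.toLin.wRk1N + (1 / 4) * h.toLin.wRk1E + (3 / 8) * h.toLin.wl + (1 / 2) * h.c3
      + (9 / 32) * (sub_nonneg.2 l0) + h.hG
      + (1 / 4) * mul_nonneg (sub_nonneg.2 l0) (sub_nonneg.2 u0)
      + (1 / 4) * mul_nonneg (sub_nonneg.2 l1) (sub_nonneg.2 u1)
      + (1 / 4) * mul_nonneg (sub_nonneg.2 l2) (sub_nonneg.2 u2)
      + (1 / 4) * mul_nonneg (sub_nonneg.2 l3) (sub_nonneg.2 u3) + sq_nonneg (c.s1 - (7 / 8))
      + (3 / 8) * hτ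
  linarith only [this, h0]


end Pool.Agent.P.MP_dba4bb_co.Ex
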