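import Pool.Agent.P.MP_dba4bb_co.Ex.Lin2

/-! Leaves of the branch and bound. -/

namespace Pool.Agent.P.MP_dba4bb_co.Ex

variable {τ : ℝ} {c : Cfg}

theorem lfQ2 (h : Lin2 τ c) (e : CsQ c) (hτ : 0 ≤ τ) (h0 : τ ≤ 1 / 10 ^ 7)
    (l0 : (-9 / 4) ≤ c.z1Ny - c.p2y) (u0 : c.z1Ny - c.p2y ≤ (-1 / 2)) (l1 : (-17 / 4) ≤ c.z1Ey - c.p4y) (u1 : c.z1Ey - c.p4y ≤ (-7 / 2))
    (l2 : (-1 / 2) ≤ c.z3Wy - c.p2y) (u2 : c.z3Wy - c.p2y ≤ (1 / 2)) (l3 : (-1 / 2) ≤ c.z3Sy - c.p4y) (u3 : c.z3Sy - c.p4y ≤ (1 / 2))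
    (l4 : 0 ≤ c.s1) (u4 : c.s1 ≤ (7 / 4)) : False := by
  have : 0 ≤ -(1 / 100) + 23 * τ := by
    linear_combination
      (6611 / 116920) * h.toLin.p2_p3 + (4385 / 23384) * h.toLin.p2_z1Nu
      + (2982 / 2923) * h.toLin.p2_z1Nv + (883 / 11692) * h.toLin.p2_z3Wv
      + (109003 / 102305) * h.toLin.p2_k3Wv + (2633 / 5846) * h.toLin.p2_eN1
      + (10474 / 20461) * h.toLin.p2_eW1 + (31665 / 23384) * h.toLin.p4_p1
      + (3 / 4) * h.toLin.p4_z1Eu + (4080 / 2923) * h.toLin.p4_k3Sv + (883 / 2923) * h.toLin.p4_eS2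
      + (1218 / 2923) * h.toLin.p4_hNv + (31665 / 23384) * h.toLin.p1_z1Nu
      + (883 / 5846) * h.toLin.p3_z3Su + (609 / 14615) * h.toLin.p3_k2Wv
      + (174 / 2923) * h.toLin.p3_hNv + (2633 / 17538) * h.toLin.z1N_eN1
      + (8160 / 2923) * h.toLin.z1N_gNh + h.toLin.z1E_t2E + (883 / 2923) * h.toLin.z3S_eS2
      + (1766 / 2923) * h.toLin.t2N_k2N + (4080 / 2923) * h.toLin.t2S_k3S
      + (1766 / 2923) * h.toLin.t2S_eS2 + (5266 / 2923) * h.toLin.k2N_eN1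
      + (1632 / 2923) * h.toLin.k2N_gNh + (27403 / 29230) * h.toLin.k2W_k3W
      + (5237 / 2923) * h.toLin.k2W_eW1 + (5237 / 20461) * h.toLin.k3W_eW1
      + (94656 / 154919) * h.toLin.gN_hN + (13260 / 2923) * h.toLin.wRz1N + (3 / 2) * h.toLin.wRz1E
      + (883 / 5846) * h.toLin.wLz3W + (883 / 2923) * h.toLin.wLz3S + (883 / 2923) * h.toLin.wRt2N
      + (883 / 2923) * h.toLin.wLt2S + h.toLin.wBt2S + h.toLin.wBt2E + h.toLin.wTk2N + h.toLin.wTk2W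
      + (8160 / 2923) * h.toLin.wLk3W + (8160 / 2923) * h.toLin.wLk3S + (883 / 5846) * h.c3
      + (13123 / 5846) * e.2.1 + (sub_nonneg.2 u1) + (7003 / 5846) * (sub_nonneg.2 u0)
      + (7921871 / 9295140) * hτ
  linarith only [this, h0]

theorem lfQ5 (h : Lin2 τ c) (e : CsQ c) (hτ : 0 ≤ τ) (h0 : τ ≤ 1 / 10 ^ 7)
    (l0 : (1 / 4) ≤ c.z1Ny - c.p2y) (u0 : c.z1Ny - c.p2y ≤ (11 / 8)) (l1 : (-17 / 4) ≤ c.z1Ey - c.p4y) (u1 : c.z1Ey - c.p4y ≤ (-7 / 2))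
    (l2 : (-5 / 8) ≤ c.z3Wy - c.p2y) (u2 : c.z3Wy - c.p2y ≤ (-3 / 8)) (l3 : (-5 / 2) ≤ c.z3Sy - c.p4y) (u3 : c.z3Sy - c.p4y ≤ (-11 / 8))
    (l4 : 0 ≤ c.s1) (u4 : c.s1 ≤ (5 / 8)) : False := by
  have : 0 ≤ -(1 / 100) + 54 * τ := by
    linear_combination
      (81577 / 75200) * h.toLin.p2_p3 + (387061 / 225600) * h.toLin.p2_z1Nv
      + (969 / 1175) * h.toLin.p2_k3Wv + (223 / 940) * h.toLin.p2_eN1
      + (44839 / 56400) * h.toLin.p2_eW1 + (1048169 / 642960) * h.toLin.p4_p3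
      + (55357 / 84600) * h.toLin.p4_z1Eu + (1702999 / 12859200) * h.toLin.p4_z3Sv
      + (21557 / 32148) * h.toLin.p4_k3Sv + (2899 / 1410) * h.toLin.p4_hNv
      + (65369 / 42300) * h.toLin.p3_z3Wu + (44839 / 169200) * h.toLin.p3_eW1
      + (57914 / 40185) * h.toLin.p3_gS + (446 / 47) * h.toLin.z1N_gNh
      + (1561 / 564) * h.toLin.z1E_t2E + (27397 / 21150) * h.toLin.z3W_k2W
      + (4548439 / 4822200) * h.toLin.z3S_t2S + (984538 / 602775) * h.toLin.z3S_gSh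
      + (8798111 / 2411100) * h.toLin.t2S_k3S + (37241 / 37600) * h.toLin.k2N_eN1
      + (153647 / 47940) * h.toLin.k2N_eN2 + (37241 / 39950) * h.toLin.k2N_gNh
      + (969 / 1175) * h.toLin.k2W_k3W + (44839 / 10575) * h.toLin.k2W_eW1
      + (1853248 / 602775) * h.toLin.k3S_gSh + (223 / 2350) * h.toLin.eN1_gN
      + (5798 / 3995) * h.toLin.eN2_gN + (2899 / 4230) * h.toLin.eN2_hN
      + (23192 / 12455) * h.toLin.gN_hN + (39871 / 7050) * h.toLin.wRz1N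
      + (55357 / 42300) * h.toLin.wRz1E + (15461 / 7050) * h.toLin.wLz3W
      + (27397 / 42300) * h.toLin.wLz3S + (1561 / 564) * h.toLin.wBt2S
      + (1561 / 564) * h.toLin.wBt2E + (1561 / 564) * h.toLin.wTk2N + (1561 / 564) * h.toLin.wTk2W
      + (969 / 470) * h.toLin.wLk3W + (969 / 470) * h.toLin.wLk3S + (766177 / 338400) * h.c3
      + (84619 / 16920) * e.2.1 + (1873 / 2256) * (sub_nonneg.2 u1) + (97 / 376) * (sub_nonneg.2 u0)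
      + h.hG + (1 / 4) * mul_nonneg (sub_nonneg.2 l0) (sub_nonneg.2 u0)
      + (1 / 4) * mul_nonneg (sub_nonneg.2 l1) (sub_nonneg.2 u1)
      + (1 / 4) * mul_nonneg (sub_nonneg.2 l2) (sub_nonneg.2 u2)
      + (1 / 4) * mul_nonneg (sub_nonneg.2 l3) (sub_nonneg.2 u3) + sq_nonneg (c.s1 - (5 / 12))
      + (140254209 / 257469760) * hτ
  linarith only [this, h0]

theorem lfQ8 (h : Lin2 τ c) (e : CsQ c) (hτ : 0 ≤ τ) (h0 : τ ≤ 1 / 10 ^ 7)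
    (l0 : (11 / 8) ≤ c.z1Ny - c.p2y) (u0 : c.z1Ny - c.p2y ≤ (13 / 8)) (l1 : (-29 / 8) ≤ c.z1Ey - c.p4y) (u1 : c.z1Ey - c.p4y ≤ (-7 / 2))
    (l2 : (-5 / 8) ≤ c.z3Wy - c.p2y) (u2 : c.z3Wy - c.p2y ≤ (-3 / 8)) (l3 : (-13 / 8) ≤ c.z3Sy - c.p4y) (u3 : c.z3Sy - c.p4y ≤ (-11 / 8))
    (l4 : 0 ≤ c.s1) (u4 : c.s1 ≤ (3 / 8)) : False := by
  have : 0 ≤ -(1 / 10) + 84 * τ := by
    linear_combination
      (5415 / 9056) * h.toLin.p2_p4 + (49387 / 9056) * h.toLin.p2_z3Wu + (4 / 283) * h.toLin.p2_k3Wv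
      + (17 / 55) * h.toLin.p2_eN2 + (285 / 1132) * h.toLin.p2_eW1 + (336 / 55) * h.toLin.p2_gN
      + (829 / 1132) * h.toLin.p4_p3 + (58825 / 18112) * h.toLin.p4_z1Eu
      + (52193 / 18112) * h.toLin.p4_z3Sv + (186 / 283) * h.toLin.p3_z3Wu
      + (95 / 1132) * h.toLin.p3_eW1 + (20 / 283) * h.toLin.p3_gS + 48 * h.toLin.z1N_gNh
      + h.toLin.z1E_t2E + (186 / 283) * h.toLin.z3W_k2W + (787 / 849) * h.toLin.z3S_t2S
      + (68 / 849) * h.toLin.z3S_gSh + (124 / 849) * h.toLin.t2S_k3S + 2 * h.toLin.k2N_eN2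
      + (4 / 283) * h.toLin.k2W_k3W + (380 / 283) * h.toLin.k2W_eW1 + (128 / 849) * h.toLin.k3S_gSh
      + (96 / 55) * h.toLin.eN2_gN + (45 / 4) * h.toLin.wRz1N + (58825 / 9056) * h.toLin.wRz1E
      + (53851 / 4528) * h.toLin.wLz3W + (52363 / 9056) * h.toLin.wLz3S + h.toLin.wBt2S
      + h.toLin.wBt2E + h.toLin.wTk2N + h.toLin.wTk2W + (10 / 283) * h.toLin.wLk3W
      + (10 / 283) * h.toLin.wLk3S + (63745 / 9056) * h.c3 + (144935 / 18112) * e.2.1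
      + (sub_nonneg.2 u1) + (4203 / 4528) * (sub_nonneg.2 u3) + (3 / 4) * (sub_nonneg.2 l0)
      + (18269 / 4528) * (sub_nonneg.2 u4) + (15201 / 31130) * hτ
  linarith only [this, h0]

theorem lfQ11 (h : Lin2 τ c) (e : CsQ c) (hτ : 0 ≤ τ) (h0 : τ ≤ 1 / 10 ^ 7)
    (l0 : (1 / 4) ≤ c.z1Ny - c.p2y) (u0 : c.z1Ny - c.p2y ≤ (19 / 16)) (l1 : (-17 / 4) ≤ c.z1Ey - c.p4y) (u1 : c.z1Ey - c.p4y ≤ (-7 / 2))
    (l2 : (-5 / 8) ≤ c.z3Wy - c.p2y) (u2 : c.z3Wy - c.p2y ≤ (-3 / 8)) (l3 : (-11 / 8) ≤ c.z3Sy - c.p4y) (u3 : c.z3Sy - c.p4y ≤ (1 / 2))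
    (l4 : 0 ≤ c.s1) (u4 : c.s1 ≤ (7 / 4)) : False := by
  have : 0 ≤ -(1 / 100) + 43 * τ := by
    linear_combination
      (1951 / 3300) * h.toLin.p2_p4 + (281 / 2640) * h.toLin.p2_p3
      + (163297 / 54720) * h.toLin.p2_z1Nv + (1649 / 27360) * h.toLin.p2_z3Wu
      + (681 / 280) * h.toLin.p2_k3Wv + (1717 / 6600) * h.toLin.p2_eN1
      + (101 / 105) * h.toLin.p2_eW1 + (11214941 / 10232640) * h.toLin.p4_p3
      + (81679 / 27360) * h.toLin.p4_z1Eu + (509 / 171) * h.toLin.p4_k3Sv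
      + (21513 / 18700) * h.toLin.p4_hNv + (77 / 64) * h.toLin.p3_z3Wu + (194 / 855) * h.toLin.p3_gS
      + (101 / 1122) * h.toLin.p3_hNv + (61 / 240) * h.toLin.z1N_t1N + (101 / 15) * h.toLin.z1N_gNh
      + (31 / 16) * h.toLin.z1E_t2E + (44063 / 205200) * h.toLin.z3S_t2S
      + (3298 / 12825) * h.toLin.z3S_gSh + (61 / 120) * h.toLin.t1W_k3W
      + (44189 / 12825) * h.toLin.t2S_k3S + (1717 / 1200) * h.toLin.k2N_eN1
      + (101 / 75) * h.toLin.k2N_gNh + (101 / 60) * h.toLin.k2W_k3W + (101 / 30) * h.toLin.k2W_eW1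
      + (101 / 210) * h.toLin.k3W_eW1 + (6208 / 12825) * h.toLin.k3S_gSh
      + (1717 / 16500) * h.toLin.eN1_hN + (5858 / 3975) * h.toLin.gN_hN
      + (412949 / 54720) * h.toLin.wRz1N + (81679 / 13680) * h.toLin.wRz1E
      + (72431 / 54720) * h.toLin.wLz3W + (1649 / 27360) * h.toLin.wLz3S
      + (61 / 240) * h.toLin.wTt1N + (61 / 240) * h.toLin.wTt1W + (31 / 16) * h.toLin.wBt2S
      + (31 / 16) * h.toLin.wBt2E + (101 / 60) * h.toLin.wTk2N + (101 / 60) * h.toLin.wTk2W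
      + (91 / 15) * h.toLin.wLk3W + (91 / 15) * h.toLin.wLk3S + (3817 / 13680) * h.c3
      + (83197 / 18240) * e.2.1 + (61 / 64) * (sub_nonneg.2 u2) + h.hG
      + (1 / 4) * mul_nonneg (sub_nonneg.2 l0) (sub_nonneg.2 u0)
      + (1 / 4) * mul_nonneg (sub_nonneg.2 l1) (sub_nonneg.2 u1)
      + (1 / 4) * mul_nonneg (sub_nonneg.2 l2) (sub_nonneg.2 u2)
      + (1 / 4) * mul_nonneg (sub_nonneg.2 l3) (sub_nonneg.2 u3) + sq_nonneg (c.s1 - (1 / 2))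
      + (624518729 / 713592000) * hτ
  linarith only [this, h0]

theorem lfQ14 (h : Lin2 τ c) (e : CsQ c) (hτ : 0 ≤ τ) (h0 : τ ≤ 1 / 10 ^ 7)
    (l0 : (1 / 4) ≤ c.z1Ny - c.p2y) (u0 : c.z1Ny - c.p2y ≤ (21 / 16)) (l1 : (-17 / 4) ≤ c.z1Ey - c.p4y) (u1 : c.z1Ey - c.p4y ≤ (-7 / 2))
    (l2 : (-3 / 8) ≤ c.z3Wy - c.p2y) (u2 : c.z3Wy - c.p2y ≤ (1 / 2)) (l3 : (-5 / 2) ≤ c.z3Sy - c.p4y) (u3 : c.z3Sy - c.p4y ≤ (-17 / 16))
    (l4 : 0 ≤ c.s1) (u4 : c.s1 ≤ (7 / 4)) : False := by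
  have : 0 ≤ -(1 / 100) + 121 * τ := by
    linear_combination
      (691 / 840) * h.toLin.p2_p4 + (953 / 1824) * h.toLin.p2_p3 + (3233 / 896) * h.toLin.p2_z1Nv
      + (391 / 1200) * h.toLin.p2_eN2 + (31 / 28) * h.toLin.p2_eW1 + (61 / 25) * h.toLin.p2_gN
      + (2284 / 399) * h.toLin.p2_gW + (433 / 1824) * h.toLin.p4_p3 + (2341 / 448) * h.toLin.p4_z1Eu
      + (61763 / 12768) * h.toLin.p4_z3Sv + (10223 / 12768) * h.toLin.p4_k3Sv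
      + (17 / 15) * h.toLin.p4_hNv + (142 / 399) * h.toLin.p3_gW + (254 / 399) * h.toLin.p3_gS
      + 25 * h.toLin.z1N_gNh + (31 / 16) * h.toLin.z1E_t2E + 42 * h.toLin.z3W_gWh
      + (336827 / 383040) * h.toLin.z3S_t2S + (4318 / 5985) * h.toLin.z3S_gSh
      + (405313 / 191520) * h.toLin.t2S_k3S + (31 / 8) * h.toLin.k2N_eN2
      + (31 / 16) * h.toLin.k2W_k3W + (31 / 8) * h.toLin.k2W_eW1 + (31 / 56) * h.toLin.k3W_eW1
      + (16 / 7) * h.toLin.k3W_gWh + (8128 / 5985) * h.toLin.k3S_gSh + (66 / 25) * h.toLin.eN2_gN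
      + (17 / 45) * h.toLin.eN2_hN + (272 / 265) * h.toLin.gN_hN + (2929 / 224) * h.toLin.wRz1N
      + (2341 / 224) * h.toLin.wRz1E + (315 / 32) * h.toLin.wLz3W + (315 / 32) * h.toLin.wLz3S
      + (31 / 16) * h.toLin.wBt2S + (31 / 16) * h.toLin.wBt2E + (31 / 16) * h.toLin.wTk2N
      + (31 / 16) * h.toLin.wTk2W + (215 / 112) * h.toLin.wLk3W + (215 / 112) * h.toLin.wLk3S
      + (99 / 64) * h.c3 + (3517 / 448) * e.2.1 + (5 / 8) * (sub_nonneg.2 l2) + h.hG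
      + (1 / 4) * mul_nonneg (sub_nonneg.2 l0) (sub_nonneg.2 u0)
      + (1 / 4) * mul_nonneg (sub_nonneg.2 l1) (sub_nonneg.2 u1)
      + (1 / 4) * mul_nonneg (sub_nonneg.2 l2) (sub_nonneg.2 u2)
      + (1 / 4) * mul_nonneg (sub_nonneg.2 l3) (sub_nonneg.2 u3) + sq_nonneg (c.s1 - (5 / 8))
      + (18711683 / 203011200) * hτ
  linarith only [this, h0]

theorem lfQ17 (h : Lin2 τ c) (e : CsQ c) (hτ : 0 ≤ τ) (h0 : τ ≤ 1 / 10 ^ 7)
    (l0 : (1 / 4) ≤ c.z1Ny - c.p2y) (u0 : c.z1Ny - c.p2y ≤ (1 / 2)) (l1 : (-17 / 4) ≤ c.z1Ey - c.p4y) (u1 : c.z1Ey - c.p4y ≤ (-7 / 2))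
    (l2 : (-3 / 8) ≤ c.z3Wy - c.p2y) (u2 : c.z3Wy - c.p2y ≤ (1 / 2)) (l3 : (-17 / 16) ≤ c.z3Sy - c.p4y) (u3 : c.z3Sy - c.p4y ≤ (1 / 2))
    (l4 : (1 / 2) ≤ c.s1) (u4 : c.s1 ≤ (7 / 4)) : False := by
  have : 0 ≤ -(1 / 10) + 166 * τ := by
    linear_combination
      (32583 / 76160) * h.toLin.p2_p4 + (7047 / 1088) * h.toLin.p2_p3
      + (65679 / 7616) * h.toLin.p2_z1Nv + (6519 / 2176) * h.toLin.p2_z3Wv
      + (1287 / 952) * h.toLin.p2_k3Wv + (837 / 1190) * h.toLin.p2_eN1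
      + (1125 / 476) * h.toLin.p2_eW1 + (30 / 119) * h.toLin.p4_p1 + (1623 / 544) * h.toLin.p4_z3Sv
      + (3627 / 595) * h.toLin.p4_hNv + (30 / 119) * h.toLin.p1_z1Nu + (27 / 34) * h.toLin.p3_k2Wv
      + (135 / 17) * h.toLin.p3_gS + (3348 / 119) * h.toLin.z1N_gNh + (279 / 34) * h.toLin.z1E_t2E
      + (567 / 136) * h.toLin.z3W_k2W + 9 * h.toLin.z3S_gSh + (279 / 17) * h.toLin.t2S_k3S
      + (9207 / 2380) * h.toLin.k2N_eN1 + (14787 / 2023) * h.toLin.k2N_eN2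
      + (36828 / 10115) * h.toLin.k2N_gNh + (207 / 272) * h.toLin.k2W_k3W
      + (1125 / 136) * h.toLin.k2W_eW1 + (1125 / 952) * h.toLin.k3W_eW1
      + (288 / 17) * h.toLin.k3S_gSh + (837 / 2975) * h.toLin.eN1_hN
      + (6696 / 2023) * h.toLin.eN2_gN + (186 / 119) * h.toLin.eN2_hN
      + (180792 / 31535) * h.toLin.gN_hN + (771 / 32) * h.toLin.wRz1N
      + (8787 / 1088) * h.toLin.wLz3W + (8787 / 1088) * h.toLin.wLz3S + (279 / 34) * h.toLin.wBt2S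
      + (279 / 34) * h.toLin.wBt2E + (279 / 34) * h.toLin.wTk2N + (279 / 34) * h.toLin.wTk2W
      + (135 / 34) * h.toLin.wLk3W + (135 / 34) * h.toLin.wLk3S + (4689 / 1088) * h.c3
      + (90789 / 3808) * e.2.1 + (1705 / 272) * (sub_nonneg.2 u1) + (2251 / 544) * (sub_nonneg.2 l2)
      + (100047 / 7616) * (sub_nonneg.2 l4) + h.hG
      + (1 / 4) * mul_nonneg (sub_nonneg.2 l0) (sub_nonneg.2 u0)
      + (1 / 4) * mul_nonneg (sub_nonneg.2 l1) (sub_nonneg.2 u1)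
      + (1 / 4) * mul_nonneg (sub_nonneg.2 l2) (sub_nonneg.2 u2)
      + (1 / 4) * mul_nonneg (sub_nonneg.2 l3) (sub_nonneg.2 u3) + sq_nonneg (c.s1 - (9 / 8))
      + (110625057 / 171550400) * hτ
  linarith only [this, h0]

theorem lfQ20 (h : Lin2 τ c) (e : CsQ c) (hτ : 0 ≤ τ) (h0 : τ ≤ 1 / 10 ^ 7)
    (l0 : (5 / 4) ≤ c.z1Ny - c.p2y) (u0 : c.z1Ny - c.p2y ≤ (9 / 4)) (l1 : (-17 / 4) ≤ c.z1Ey - c.p4y) (u1 : c.z1Ey - c.p4y ≤ (-7 / 2))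
    (l2 : (-3 / 8) ≤ c.z3Wy - c.p2y) (u2 : c.z3Wy - c.p2y ≤ (1 / 2)) (l3 : (-17 / 16) ≤ c.z3Sy - c.p4y) (u3 : c.z3Sy - c.p4y ≤ (1 / 2))
    (l4 : 0 ≤ c.s1) (u4 : c.s1 ≤ (1 / 2)) : False := by
  have : 0 ≤ -(1 / 10) + 31 * τ := by
    linear_combination
      (14933 / 23200) * h.toLin.p2_p4 + (783 / 512) * h.toLin.p2_p3
      + (247041 / 148480) * h.toLin.p2_z1Nv + (72861 / 148480) * h.toLin.p2_z3Wv
      + (93731 / 259840) * h.toLin.p2_k3Wv + (3081 / 46400) * h.toLin.p2_eN1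
      + (3709 / 25984) * h.toLin.p2_eW1 + (40053 / 148480) * h.toLin.p4_z3Sv
      + (13351 / 23200) * h.toLin.p4_hNv + (3 / 16) * h.toLin.p3_k2Wv + (15 / 8) * h.toLin.p3_gS
      + (10791 / 9280) * h.toLin.z1N_t1N + (3081 / 1160) * h.toLin.z1N_gNh
      + (31 / 16) * h.toLin.z1E_t2E + (10791 / 9280) * h.toLin.z3W_t1W
      + (4167 / 37120) * h.toLin.z3W_k2W + (17 / 8) * h.toLin.z3S_gSh + (31 / 8) * h.toLin.t2S_k3S
      + (33891 / 92800) * h.toLin.k2N_eN1 + (54431 / 78880) * h.toLin.k2N_eN2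
      + (33891 / 98600) * h.toLin.k2N_gNh + (24131 / 74240) * h.toLin.k2W_k3W
      + (3709 / 7424) * h.toLin.k2W_eW1 + (3709 / 51968) * h.toLin.k3W_eW1 + 4 * h.toLin.k3S_gSh
      + (3081 / 116000) * h.toLin.eN1_hN + (3081 / 9860) * h.toLin.eN2_gN
      + (1027 / 6960) * h.toLin.eN2_hN + (83187 / 153700) * h.toLin.gN_hN
      + (36657 / 9280) * h.toLin.wRz1N + (19257 / 18560) * h.toLin.wLz3W
      + (19257 / 18560) * h.toLin.wLz3S + (10791 / 9280) * h.toLin.wTt1N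
      + (10791 / 9280) * h.toLin.wTt1W + (31 / 16) * h.toLin.wBt2S + (31 / 16) * h.toLin.wBt2E
      + (7189 / 9280) * h.toLin.wTk2N + (7189 / 9280) * h.toLin.wTk2W + (15 / 16) * h.toLin.wLk3W
      + (15 / 16) * h.toLin.wLk3S + (97127 / 74240) * h.c3 + (36657 / 9280) * e.2.1
      + (46171 / 37120) * (sub_nonneg.2 l2) + (55 / 512) * (sub_nonneg.2 l3)
      + (24449 / 74240) * (sub_nonneg.2 l0) + h.hG
      + (1 / 4) * mul_nonneg (sub_nonneg.2 l0) (sub_nonneg.2 u0)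
      + (1 / 4) * mul_nonneg (sub_nonneg.2 l1) (sub_nonneg.2 u1)
      + (1 / 4) * mul_nonneg (sub_nonneg.2 l2) (sub_nonneg.2 u2)
      + (1 / 4) * mul_nonneg (sub_nonneg.2 l3) (sub_nonneg.2 u3) + sq_nonneg (c.s1 - (1 / 4))
      + (5341895549 / 10033536000) * hτ
  linarith only [this, h0]

theorem lfQ23 (h : Lin2 τ c) (e : CsQ c) (hτ : 0 ≤ τ) (h0 : τ ≤ 1 / 10 ^ 7)
    (l0 : (-9 / 4) ≤ c.z1Ny - c.p2y) (u0 : c.z1Ny - c.p2y ≤ (1 / 2)) (l1 : (-17 / 4) ≤ c.z1Ey - c.p4y) (u1 : c.z1Ey - c.p4y ≤ (-7 / 2))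
    (l2 : (1 / 2) ≤ c.z3Wy - c.p2y) (u2 : c.z3Wy - c.p2y ≤ (11 / 4)) (l3 : (-5 / 2) ≤ c.z3Sy - c.p4y) (u3 : c.z3Sy - c.p4y ≤ (-1 / 2))
    (l4 : 0 ≤ c.s1) (u4 : c.s1 ≤ (7 / 4)) : False := by
  have : 0 ≤ -(1 / 100) + 18 * τ := by
    linear_combination
      (14321 / 50120) * h.toLin.p2_p4 + (4959 / 12530) * h.toLin.p2_p3
      + (3473 / 5012) * h.toLin.p2_z1Nv + (19807 / 75180) * h.toLin.p2_z3Wv
      + (608 / 6265) * h.toLin.p2_k3Wv + (3 / 35) * h.toLin.p2_eN1 + (5657 / 18795) * h.toLin.p2_eW1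
      + (3 / 56) * h.toLin.p4_p1 + (3 / 8) * h.toLin.p4_z3Sv + (26 / 35) * h.toLin.p4_hNv
      + (3 / 56) * h.toLin.p1_z1Nu + (304 / 6265) * h.toLin.p3_k2Wv + (608 / 1253) * h.toLin.p3_gS
      + (24 / 7) * h.toLin.z1N_gNh + h.toLin.z1E_t2E + (1486 / 2685) * h.toLin.z3W_k2W
      + (5657 / 56385) * h.toLin.z3W_eW1 + (9371 / 18795) * h.toLin.z3S_t2S
      + (10336 / 18795) * h.toLin.z3S_gSh + (18848 / 18795) * h.toLin.t2S_k3S
      + (33 / 70) * h.toLin.k2N_eN1 + (106 / 119) * h.toLin.k2N_eN2 + (264 / 595) * h.toLin.k2N_gNh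
      + (608 / 6265) * h.toLin.k2W_k3W + (22628 / 18795) * h.toLin.k2W_eW1
      + (19456 / 18795) * h.toLin.k3S_gSh + (6 / 175) * h.toLin.eN1_hN + (48 / 119) * h.toLin.eN2_gN
      + (4 / 21) * h.toLin.eN2_hN + (1296 / 1855) * h.toLin.gN_hN + (803 / 358) * h.toLin.wRz1N
      + (4405 / 5012) * h.toLin.wLz3W + (4405 / 5012) * h.toLin.wLz3S + h.toLin.wBt2S
      + h.toLin.wBt2E + h.toLin.wTk2N + h.toLin.wTk2W + (304 / 1253) * h.toLin.wLk3W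
      + (304 / 1253) * h.toLin.wLk3S + (5693 / 5012) * h.c3 + (21947 / 10024) * e.2.1
      + (sub_nonneg.2 u1) + (3151 / 5012) * (sub_nonneg.2 l2) + (1271 / 2506) * (sub_nonneg.2 u3)
      + (193670713 / 508028850) * hτ
  linarith only [this, h0]

theorem lfQ26 (h : Lin2 τ c) (e : CsQ c) (hτ : 0 ≤ τ) (h0 : τ ≤ 1 / 10 ^ 7)
    (l0 : (-9 / 4) ≤ c.z1Ny - c.p2y) (u0 : c.z1Ny - c.p2y ≤ (9 / 4)) (l1 : (-17 / 4) ≤ c.z1Ey - c.p4y) (u1 : c.z1Ey - c.p4y ≤ (-7 / 2))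
    (l2 : (1 / 2) ≤ c.z3Wy - c.p2y) (u2 : c.z3Wy - c.p2y ≤ (11 / 4)) (l3 : (1 / 2) ≤ c.z3Sy - c.p4y) (u3 : c.z3Sy - c.p4y ≤ (9 / 4))
    (l4 : 0 ≤ c.s1) (u4 : c.s1 ≤ (7 / 4)) : False := by
  have : 0 ≤ -1 + 177 * τ := by
    linear_combination
      (284914 / 30395) * h.toLin.p2_p3 + (66174 / 6079) * h.toLin.p2_z1Nv
      + (63943 / 182370) * h.toLin.p2_z3Wv + (38368 / 6079) * h.toLin.p2_k3Wv
      + (23400 / 6079) * h.toLin.p2_eN1 + (283396 / 91185) * h.toLin.p2_eW1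
      + (2230 / 6079) * h.toLin.p4_p1 + (104517 / 12158) * h.toLin.p4_z1Eu
      + (47960 / 6079) * h.toLin.p4_k3Sv + (19328 / 6079) * h.toLin.p4_eS2
      + (19376 / 6079) * h.toLin.p4_hNv + (2230 / 6079) * h.toLin.p1_z1Nu
      + (61377 / 6079) * h.toLin.p3_z3Su + (9688 / 30395) * h.toLin.p3_k2Wv
      + (2768 / 6079) * h.toLin.p3_hNv + (142720 / 6079) * h.toLin.z1N_gNh
      + (43308 / 6079) * h.toLin.z1E_t2E + (20336 / 91185) * h.toLin.z3W_k2W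
      + (283396 / 273555) * h.toLin.z3W_eW1 + (19328 / 6079) * h.toLin.z3S_eS2
      + (38656 / 6079) * h.toLin.t2N_k2N + (47960 / 6079) * h.toLin.t2S_k3S
      + (38656 / 6079) * h.toLin.t2S_eS2 + (93600 / 6079) * h.toLin.k2N_eN1
      + (163800 / 103343) * h.toLin.k2N_eN2 + (260608 / 103343) * h.toLin.k2N_gNh
      + (38368 / 6079) * h.toLin.k2W_k3W + (1133584 / 91185) * h.toLin.k2W_eW1
      + (23400 / 6079) * h.toLin.eN1_eN2 + (374400 / 103343) * h.toLin.eN2_gN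
      + (1505792 / 322187) * h.toLin.gN_hN + (168028 / 6079) * h.toLin.wRz1N
      + (104517 / 6079) * h.toLin.wRz1E + (9664 / 6079) * h.toLin.wLz3W
      + (71041 / 6079) * h.toLin.wLz3S + (19328 / 6079) * h.toLin.wRt2N
      + (19328 / 6079) * h.toLin.wLt2S + (43308 / 6079) * h.toLin.wBt2S
      + (43308 / 6079) * h.toLin.wBt2E + (43308 / 6079) * h.toLin.wTk2N
      + (43308 / 6079) * h.toLin.wTk2W + (95920 / 6079) * h.toLin.wLk3W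
      + (95920 / 6079) * h.toLin.wLk3S + (15743 / 6079) * h.c3 + (227079 / 12158) * e.2.1
      + (43308 / 6079) * (sub_nonneg.2 u1) + (sub_nonneg.2 l2) + (51713 / 6079) * (sub_nonneg.2 l3)
      + (8272616 / 246473055) * hτ
  linarith only [this, h0]

theorem lfQ29 (h : Lin2 τ c) (e : CsQ c) (hτ : 0 ≤ τ) (h0 : τ ≤ 1 / 10 ^ 7)
    (l0 : (-9 / 4) ≤ c.z1Ny - c.p2y) (u0 : c.z1Ny - c.p2y ≤ (5 / 16)) (l1 : (-7 / 2) ≤ c.z1Ey - c.p4y) (u1 : c.z1Ey - c.p4y ≤ (-15 / 16))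
    (l2 : (-13 / 8) ≤ c.z3Wy - c.p2y) (u2 : c.z3Wy - c.p2y ≤ (1 / 2)) (l3 : (-5 / 2) ≤ c.z3Sy - c.p4y) (u3 : c.z3Sy - c.p4y ≤ (-25 / 16))
    (l4 : 0 ≤ c.s1) (u4 : c.s1 ≤ (7 / 4)) : False := by
  have : 0 ≤ -(1 / 100) + 24 * τ := by
    linear_combination
      (5457877 / 9704256) * h.toLin.p2_z1Nv + (304403 / 1213032) * h.toLin.p2_k3Wv
      + (148429 / 2021720) * h.toLin.p2_eN1 + (57799 / 101086) * h.toLin.p2_eW1
      + (5307701 / 9704256) * h.toLin.p4_p1 + (11310549 / 16173760) * h.toLin.p4_p3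
      + (2977417 / 16173760) * h.toLin.p4_z1Eu + (1007231 / 9704256) * h.toLin.p4_z3Sv
      + (62275 / 1617376) * h.toLin.p4_k1Ev + (1868809 / 4852128) * h.toLin.p4_k3Sv
      + (386105 / 2426064) * h.toLin.p4_eS2 + (249021 / 252715) * h.toLin.p4_hNv
      + (5307701 / 9704256) * h.toLin.p1_z1Nu + (11310549 / 16173760) * h.toLin.p3_z3Wu
      + (607202 / 151629) * h.toLin.z1N_gNh + (71 / 64) * h.toLin.z1E_t2E
      + (174167 / 303258) * h.toLin.z3W_k2W + (9083675 / 9704256) * h.toLin.z3S_t2S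
      + (386105 / 2426064) * h.toLin.z3S_eS2 + (386105 / 1213032) * h.toLin.t1N_k1N
      + (386105 / 1213032) * h.toLin.t1W_k2W + (386105 / 1213032) * h.toLin.t1S_eS2
      + (1868809 / 4852128) * h.toLin.t2S_k3S + (62275 / 1617376) * h.toLin.t2E_k1E
      + (49820 / 151629) * h.toLin.k1N_gNh + (1632719 / 4043440) * h.toLin.k2N_eN1
      + (8985143 / 6873848) * h.toLin.k2N_eN2 + (1632719 / 4296155) * h.toLin.k2N_gNh
      + (65503 / 606516) * h.toLin.k2W_k3W + (404593 / 202172) * h.toLin.k2W_eW1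
      + (57799 / 202172) * h.toLin.k3W_eW1 + (148429 / 5054300) * h.toLin.eN1_hN
      + (508593 / 859231) * h.toLin.eN2_gN + (169531 / 606516) * h.toLin.eN2_hN
      + (12249866 / 13393895) * h.toLin.gN_hN + (25331485 / 9704256) * h.toLin.wRz1N
      + (2977417 / 8086880) * h.toLin.wRz1E + (47865007 / 48521280) * h.toLin.wLz3W
      + (174167 / 606516) * h.toLin.wLz3S + (386105 / 2426064) * h.toLin.wTt1N
      + (386105 / 2426064) * h.toLin.wLt1W + (386105 / 2426064) * h.toLin.wLt1S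
      + (386105 / 2426064) * h.toLin.wBt1S + (912707 / 808688) * h.toLin.wBt2S
      + (912707 / 808688) * h.toLin.wBt2E + (62275 / 808688) * h.toLin.wRk1N
      + (62275 / 808688) * h.toLin.wRk1E + (912707 / 808688) * h.toLin.wTk2N
      + (912707 / 808688) * h.toLin.wTk2W + (1868809 / 2426064) * h.toLin.wLk3W
      + (1868809 / 2426064) * h.toLin.wLk3S + (15429229 / 9704256) * h.c3
      + (91186669 / 48521280) * e.2.1 + (7581683 / 48521280) * (sub_nonneg.2 l2) + h.hG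
      + (1 / 4) * mul_nonneg (sub_nonneg.2 l0) (sub_nonneg.2 u0)
      + (1 / 4) * mul_nonneg (sub_nonneg.2 l1) (sub_nonneg.2 u1)
      + (1 / 4) * mul_nonneg (sub_nonneg.2 l2) (sub_nonneg.2 u2)
      + (1 / 4) * mul_nonneg (sub_nonneg.2 l3) (sub_nonneg.2 u3) + sq_nonneg (c.s1 - (8 / 15))
      + (88624381319 / 109294183200) * hτ
  linarith only [this, h0]

theorem lfQ32 (h : Lin2 τ c) (e : CsQ c) (hτ : 0 ≤ τ) (h0 : τ ≤ 1 / 10 ^ 7)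
    (l0 : (5 / 16) ≤ c.z1Ny - c.p2y) (u0 : c.z1Ny - c.p2y ≤ (21 / 16)) (l1 : (-7 / 2) ≤ c.z1Ey - c.p4y) (u1 : c.z1Ey - c.p4y ≤ (-45 / 16))
    (l2 : (-21 / 16) ≤ c.z3Wy - c.p2y) (u2 : c.z3Wy - c.p2y ≤ (-3 / 8)) (l3 : (-5 / 2) ≤ c.z3Sy - c.p4y) (u3 : c.z3Sy - c.p4y ≤ (-31 / 16))
    (l4 : 0 ≤ c.s1) (u4 : c.s1 ≤ (7 / 4)) : False := by
  have : 0 ≤ -(1 / 10) + 90 * τ := by
    linear_combination
      (86957 / 1008960) * h.toLin.p2_p4 + (343037 / 134528) * h.toLin.p2_z1Nv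
      + (465191 / 201792) * h.toLin.p2_z3Wv + (17861 / 25224) * h.toLin.p2_eW1
      + (26627 / 63060) * h.toLin.p2_hN + (135543 / 67264) * h.toLin.p4_p3
      + (2888 / 1051) * h.toLin.p4_z3Sv + (36737 / 33632) * h.toLin.p4_k1Ev
      + (358259 / 63060) * h.toLin.p4_hNv + (135543 / 67264) * h.toLin.p3_z3Wu
      + (10747 / 63060) * h.toLin.z1N_t2N + (237938 / 15765) * h.toLin.z1N_gNh
      + (101 / 64) * h.toLin.z1E_t2E + (17861 / 12612) * h.toLin.z3W_k2W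
      + (17861 / 75672) * h.toLin.z3W_eW1 + (1138847 / 252240) * h.toLin.z3S_t1S
      + (289409 / 126120) * h.toLin.z3S_t2S + (1138847 / 126120) * h.toLin.t1N_k1N
      + (36737 / 33632) * h.toLin.t2E_k1E + (146948 / 15765) * h.toLin.k1N_gNh
      + (17861 / 4204) * h.toLin.k2N_eN2 + (17861 / 6306) * h.toLin.k2W_eW1
      + (2022 / 1051) * h.toLin.eN2_gN + (5729 / 6306) * h.toLin.eN2_hN
      + (350512 / 55703) * h.toLin.gN_hN + (580975 / 67264) * h.toLin.wRz1N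
      + (505207 / 67264) * h.toLin.wLz3W + (5776 / 1051) * h.toLin.wLz3S
      + (1138847 / 252240) * h.toLin.wTt1N + (1138847 / 252240) * h.toLin.wBt1S
      + (10747 / 63060) * h.toLin.wTt2N + (289409 / 126120) * h.toLin.wBt2S
      + (17861 / 8408) * h.toLin.wBt2E + (36737 / 16816) * h.toLin.wRk1N
      + (36737 / 16816) * h.toLin.wRk1E + (17861 / 8408) * h.toLin.wTk2N
      + (17861 / 8408) * h.toLin.wTk2W + (282605 / 33632) * h.c3 + (580975 / 67264) * e.2.1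
      + (383423 / 67264) * (sub_nonneg.2 u3) + h.hG
      + (1 / 4) * mul_nonneg (sub_nonneg.2 l0) (sub_nonneg.2 u0)
      + (1 / 4) * mul_nonneg (sub_nonneg.2 l1) (sub_nonneg.2 u1)
      + (1 / 4) * mul_nonneg (sub_nonneg.2 l2) (sub_nonneg.2 u2)
      + (1 / 4) * mul_nonneg (sub_nonneg.2 l3) (sub_nonneg.2 u3) + sq_nonneg (c.s1 - (7 / 8))
      + (1370849 / 64169856) * hτ
  linarith only [this, h0]

theorem lfQ35 (h : Lin2 τ c) (e : CsQ c) (hτ : 0 ≤ τ) (h0 : τ ≤ 1 / 10 ^ 7)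
    (l0 : (21 / 16) ≤ c.z1Ny - c.p2y) (u0 : c.z1Ny - c.p2y ≤ (9 / 4)) (l1 : (-7 / 2) ≤ c.z1Ey - c.p4y) (u1 : c.z1Ey - c.p4y ≤ (-15 / 16))
    (l2 : (-7 / 2) ≤ c.z3Wy - c.p2y) (u2 : c.z3Wy - c.p2y ≤ (-5 / 4)) (l3 : (-5 / 2) ≤ c.z3Sy - c.p4y) (u3 : c.z3Sy - c.p4y ≤ (-25 / 16))
    (l4 : 0 ≤ c.s1) (u4 : c.s1 ≤ (7 / 4)) : False := by
  have : 0 ≤ -(1 / 10) + 91 * τ := by
    linear_combination
      (1990627 / 342016) * h.toLin.p2_p3 + (4621177 / 684032) * h.toLin.p2_z1Nv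
      + (5893 / 2048) * h.toLin.p2_z3Wu + (71 / 224) * h.toLin.p2_k3Wv
      + (1207 / 5344) * h.toLin.p2_eN1 + (71 / 56) * h.toLin.p2_eW1
      + (45873563 / 17442816) * h.toLin.p4_p3 + (2014339 / 2052096) * h.toLin.p4_z1Ev
      + (32305 / 45424) * h.toLin.p4_hNv + (3643363 / 1026048) * h.toLin.p3_z3Wu
      + (213 / 32) * h.toLin.p3_gS + (4615 / 45424) * h.toLin.p3_hNv
      + (1491 / 320) * h.toLin.z1N_t1N + (4305047 / 1282560) * h.toLin.z1N_t2N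
      + (1633 / 334) * h.toLin.z1N_gNh + (71 / 64) * h.toLin.z1E_t2E
      + (929117 / 427520) * h.toLin.z3S_t2S + (5893 / 480) * h.toLin.z3S_gSh
      + (71 / 32) * h.toLin.t1W_k2W + (71 / 15) * h.toLin.t1S_gSh + (2201 / 480) * h.toLin.t2S_k3S
      + (1207 / 1280) * h.toLin.k2N_eN1 + (71 / 80) * h.toLin.k2N_gNh + (71 / 16) * h.toLin.k2W_eW1
      + (71 / 112) * h.toLin.k3W_eW1 + (71 / 15) * h.toLin.k3S_gSh + (1207 / 13360) * h.toLin.eN1_gN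
      + (9230 / 8851) * h.toLin.gN_hN + (5013097 / 342016) * h.toLin.wRz1N
      + (2014339 / 1026048) * h.toLin.wRz1E + (9548149 / 1026048) * h.toLin.wLz3W
      + (5893 / 2048) * h.toLin.wLz3S + (1491 / 320) * h.toLin.wTt1N + (71 / 64) * h.toLin.wLt1W
      + (71 / 64) * h.toLin.wLt1S + (1491 / 320) * h.toLin.wBt1S
      + (4305047 / 1282560) * h.toLin.wTt2N + (5727887 / 1282560) * h.toLin.wBt2S
      + (71 / 64) * h.toLin.wBt2E + (71 / 64) * h.toLin.wTk2N + (71 / 64) * h.toLin.wTk2W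
      + (71 / 64) * h.toLin.wLk3W + (71 / 64) * h.toLin.wLk3S + (1344775 / 256512) * h.c3
      + (1628119 / 128256) * e.2.1 + (1384627 / 1026048) * (sub_nonneg.2 u3)
      + (1847335 / 256512) * (sub_nonneg.2 l0) + (2424931 / 1026048) * (sub_nonneg.2 u2) + h.hG
      + (1 / 4) * mul_nonneg (sub_nonneg.2 l0) (sub_nonneg.2 u0)
      + (1 / 4) * mul_nonneg (sub_nonneg.2 l1) (sub_nonneg.2 u1)
      + (1 / 4) * mul_nonneg (sub_nonneg.2 l2) (sub_nonneg.2 u2)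
      + (1 / 4) * mul_nonneg (sub_nonneg.2 l3) (sub_nonneg.2 u3) + sq_nonneg (c.s1 - (7 / 8))
      + (84122833 / 924469248) * hτ
  linarith only [this, h0]

theorem lfQ38 (h : Lin2 τ c) (e : CsQ c) (hτ : 0 ≤ τ) (h0 : τ ≤ 1 / 10 ^ 7)
    (l0 : (21 / 16) ≤ c.z1Ny - c.p2y) (u0 : c.z1Ny - c.p2y ≤ (13 / 8)) (l1 : (-7 / 2) ≤ c.z1Ey - c.p4y) (u1 : c.z1Ey - c.p4y ≤ (-27 / 8))
    (l2 : (-5 / 8) ≤ c.z3Wy - c.p2y) (u2 : c.z3Wy - c.p2y ≤ (-3 / 8)) (l3 : (-31 / 16) ≤ c.z3Sy - c.p4y) (u3 : c.z3Sy - c.p4y ≤ (-25 / 16))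
    (l4 : 0 ≤ c.s1) (u4 : c.s1 ≤ (3 / 8)) : False := by
  have : 0 ≤ -1 + 210 * τ := by
    linear_combination
      (3141 / 1325) * h.toLin.p2_p4 + (2953 / 1590) * h.toLin.p2_z1Nv
      + (1336 / 1325) * h.toLin.p2_eN1 + (3164 / 795) * h.toLin.p2_eW1
      + (6979 / 795) * h.toLin.p4_p3 + (4421 / 1590) * h.toLin.p4_z1Eu + (448 / 159) * h.toLin.p4_gS
      + (34736 / 3975) * h.toLin.p4_hNv + (6979 / 795) * h.toLin.p3_z3Wu
      + (98 / 265) * h.toLin.z1N_t1N + (10688 / 265) * h.toLin.z1N_gNh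
      + (9352 / 795) * h.toLin.z1E_t2E + (6188 / 795) * h.toLin.z3W_k2W
      + (3164 / 2385) * h.toLin.z3W_eW1 + (9352 / 795) * h.toLin.z3S_t2S
      + (16576 / 795) * h.toLin.z3S_gSh + (28 / 159) * h.toLin.t1W_k2W
      + (896 / 2385) * h.toLin.t1S_gSh + (7348 / 1325) * h.toLin.k2N_eN1
      + (2672 / 255) * h.toLin.k2N_eN2 + (117568 / 22525) * h.toLin.k2N_gNh
      + (12656 / 795) * h.toLin.k2W_eW1 + (2672 / 6625) * h.toLin.eN1_hN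
      + (21376 / 4505) * h.toLin.eN2_gN + (5344 / 2385) * h.toLin.eN2_hN
      + (577152 / 70225) * h.toLin.gN_hN + (10468 / 795) * h.toLin.wRz1N
      + (4421 / 795) * h.toLin.wRz1E + (10864 / 795) * h.toLin.wLz3W + (259 / 53) * h.toLin.wLz3S
      + (98 / 265) * h.toLin.wTt1N + (14 / 159) * h.toLin.wLt1W + (14 / 159) * h.toLin.wLt1S
      + (98 / 265) * h.toLin.wBt1S + (9352 / 795) * h.toLin.wBt2S + (9352 / 795) * h.toLin.wBt2E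
      + (9352 / 795) * h.toLin.wTk2N + (9352 / 795) * h.toLin.wTk2W + (1106 / 53) * h.c3
      + (1101 / 106) * e.2.1 + (9611 / 795) * (sub_nonneg.2 u3) + (sub_nonneg.2 l0)
      + (9352 / 795) * (sub_nonneg.2 u1) + (4138 / 159) * (sub_nonneg.2 u4)
      + (27411802 / 53722125) * hτ
  linarith only [this, h0]

theorem lfQ41 (h : Lin2 τ c) (e : CsQ c) (hτ : 0 ≤ τ) (h0 : τ ≤ 1 / 10 ^ 7)
    (l0 : (11 / 8) ≤ c.z1Ny - c.p2y) (u0 : c.z1Ny - c.p2y ≤ (3 / 2)) (l1 : (-7 / 2) ≤ c.z1Ey - c.p4y) (u1 : c.z1Ey - c.p4y ≤ (-27 / 8))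
    (l2 : (-1 / 2) ≤ c.z3Wy - c.p2y) (u2 : c.z3Wy - c.p2y ≤ (-3 / 8)) (l3 : (-31 / 16) ≤ c.z3Sy - c.p4y) (u3 : c.z3Sy - c.p4y ≤ (-13 / 8))
    (l4 : (3 / 8) ≤ c.s1) (u4 : c.s1 ≤ (5 / 8)) : False := by
  have : 0 ≤ -(1 / 100) + 34 * τ := by
    linear_combination
      (72197 / 91648) * h.toLin.p2_p4 + (244749 / 320768) * h.toLin.p2_p3
      + (795187 / 641536) * h.toLin.p2_z1Nv + (7578001 / 14434560) * h.toLin.p2_z3Wv
      + (607379 / 8420160) * h.toLin.p2_k3Wv + (33 / 224) * h.toLin.p2_eN1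
      + (7132591 / 12630240) * h.toLin.p2_eW1 + (2145 / 3584) * h.toLin.p4_z3Sv
      + (143 / 112) * h.toLin.p4_hNv + (4799 / 40096) * h.toLin.p3_eW1
      + (4799 / 5012) * h.toLin.p3_gS + (1123 / 1792) * h.toLin.z1N_t1N
      + (165 / 28) * h.toLin.z1N_gNh + (55 / 32) * h.toLin.z1E_t2E
      + (50433659 / 50520960) * h.toLin.z3W_k2W + (81173 / 1184085) * h.toLin.z3W_eW1
      + (68004151 / 50520960) * h.toLin.z3S_t2S + (679582 / 394695) * h.toLin.z3S_gSh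
      + (5615 / 18816) * h.toLin.t1W_k2W + (1123 / 1764) * h.toLin.t1S_gSh
      + (18828749 / 25260480) * h.toLin.t2S_k3S + (363 / 448) * h.toLin.k2N_eN1
      + (2915 / 1904) * h.toLin.k2N_eN2 + (363 / 476) * h.toLin.k2N_gNh
      + (607379 / 8420160) * h.toLin.k2W_k3W + (2161069 / 789390) * h.toLin.k2W_eW1
      + (607379 / 789390) * h.toLin.k3S_gSh + (33 / 560) * h.toLin.eN1_hN
      + (165 / 238) * h.toLin.eN2_gN + (55 / 168) * h.toLin.eN2_hN + (891 / 742) * h.toLin.gN_hN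
      + (309553 / 80192) * h.toLin.wRz1N + (10781383 / 6736128) * h.toLin.wLz3W
      + (10781383 / 6736128) * h.toLin.wLz3S + (1123 / 1792) * h.toLin.wTt1N
      + (5615 / 37632) * h.toLin.wLt1W + (5615 / 37632) * h.toLin.wLt1S
      + (1123 / 1792) * h.toLin.wBt1S + (55 / 32) * h.toLin.wBt2S + (55 / 32) * h.toLin.wBt2E
      + (55 / 32) * h.toLin.wTk2N + (55 / 32) * h.toLin.wTk2W + (607379 / 3368064) * h.toLin.wLk3W
      + (607379 / 3368064) * h.toLin.wLk3S + (194277 / 80192) * h.c3 + (309553 / 80192) * e.2.1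
      + (77359 / 160384) * (sub_nonneg.2 u3) + (203437 / 160384) * (sub_nonneg.2 l2) + h.hG
      + (1 / 4) * mul_nonneg (sub_nonneg.2 l0) (sub_nonneg.2 u0)
      + (1 / 4) * mul_nonneg (sub_nonneg.2 l1) (sub_nonneg.2 u1)
      + (1 / 4) * mul_nonneg (sub_nonneg.2 l2) (sub_nonneg.2 u2)
      + (1 / 4) * mul_nonneg (sub_nonneg.2 l3) (sub_nonneg.2 u3) + sq_nonneg (c.s1 - (1 / 2))
      + (55562519485 / 109246523904) * hτ
  linarith only [this, h0]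

theorem lfQ44 (h : Lin2 τ c) (e : CsQ c) (hτ : 0 ≤ τ) (h0 : τ ≤ 1 / 10 ^ 7)
    (l0 : (21 / 16) ≤ c.z1Ny - c.p2y) (u0 : c.z1Ny - c.p2y ≤ (13 / 8)) (l1 : (-27 / 8) ≤ c.z1Ey - c.p4y) (u1 : c.z1Ey - c.p4y ≤ (-45 / 16))
    (l2 : (-5 / 8) ≤ c.z3Wy - c.p2y) (u2 : c.z3Wy - c.p2y ≤ (-3 / 8)) (l3 : (-31 / 16) ≤ c.z3Sy - c.p4y) (u3 : c.z3Sy - c.p4y ≤ (-25 / 16))
    (l4 : 0 ≤ c.s1) (u4 : c.s1 ≤ (5 / 8)) : False := by
  have : 0 ≤ -(1 / 100) + 6 * τ := by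
    linear_combination
      (96349 / 405120) * h.toLin.p2_p4 + (319 / 20256) * h.toLin.p2_z1Nv
      + (267 / 13504) * h.toLin.p2_z3Wu + (53 / 10128) * h.toLin.p2_eW1
      + (197 / 12660) * h.toLin.p2_hN + (3535 / 13504) * h.toLin.p4_p3
      + (4225 / 81024) * h.toLin.p4_z1Ev + (533 / 40512) * h.toLin.p4_z3Sv
      + (53 / 1688) * h.toLin.p4_k1Ev + (817 / 6330) * h.toLin.p4_hNv
      + (3535 / 13504) * h.toLin.p3_z3Wu + (36943 / 50640) * h.toLin.z1N_t2N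
      + (983 / 3165) * h.toLin.z1N_gNh + (53 / 5064) * h.toLin.z3W_k2W
      + (53 / 30384) * h.toLin.z3W_eW1 + (1643 / 12660) * h.toLin.z3S_t1S
      + (18869 / 25320) * h.toLin.z3S_t2S + (1643 / 6330) * h.toLin.t1N_k1N
      + (53 / 1688) * h.toLin.t2E_k1E + (848 / 3165) * h.toLin.k1N_gNh
      + (53 / 1688) * h.toLin.k2N_eN2 + (53 / 2532) * h.toLin.k2W_eW1 + (3 / 211) * h.toLin.eN2_gN
      + (17 / 2532) * h.toLin.eN2_hN + (1780 / 11183) * h.toLin.gN_hN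
      + (4225 / 40512) * h.toLin.wRz1N + (4225 / 40512) * h.toLin.wRz1E
      + (1559 / 5064) * h.toLin.wLz3W + (533 / 20256) * h.toLin.wLz3S
      + (1643 / 12660) * h.toLin.wTt1N + (1643 / 12660) * h.toLin.wBt1S
      + (36943 / 50640) * h.toLin.wTt2N + (18869 / 25320) * h.toLin.wBt2S
      + (53 / 3376) * h.toLin.wBt2E + (53 / 844) * h.toLin.wRk1N + (53 / 844) * h.toLin.wRk1E
      + (53 / 3376) * h.toLin.wTk2N + (53 / 3376) * h.toLin.wTk2W + (6121 / 6752) * h.c3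
      + (143329 / 202560) * (sub_nonneg.2 u4) + (99 / 64) * (sub_nonneg.2 l1) + h.hG
      + (1 / 4) * mul_nonneg (sub_nonneg.2 l0) (sub_nonneg.2 u0)
      + (1 / 4) * mul_nonneg (sub_nonneg.2 l1) (sub_nonneg.2 u1)
      + (1 / 4) * mul_nonneg (sub_nonneg.2 l2) (sub_nonneg.2 u2)
      + (1 / 4) * mul_nonneg (sub_nonneg.2 l3) (sub_nonneg.2 u3) + sq_nonneg (c.s1 - (7 / 15))
      + (2134421 / 6441408) * hτ
  linarith only [this, h0]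

theorem lfQ47 (h : Lin2 τ c) (e : CsQ c) (hτ : 0 ≤ τ) (h0 : τ ≤ 1 / 10 ^ 7)
    (l0 : (21 / 16) ≤ c.z1Ny - c.p2y) (u0 : c.z1Ny - c.p2y ≤ (9 / 4)) (l1 : (-7 / 2) ≤ c.z1Ey - c.p4y) (u1 : c.z1Ey - c.p4y ≤ (-13 / 4))
    (l2 : (-3 / 4) ≤ c.z3Wy - c.p2y) (u2 : c.z3Wy - c.p2y ≤ (-3 / 8)) (l3 : (-31 / 16) ≤ c.z3Sy - c.p4y) (u3 : c.z3Sy - c.p4y ≤ (-25 / 16))
    (l4 : (5 / 8) ≤ c.s1) (u4 : c.s1 ≤ (7 / 8)) : False := by
  have : 0 ≤ -(1 / 100) + 58 * τ := by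
    linear_combination
      (509713 / 1412096) * h.toLin.p2_p4 + (8223039 / 5648384) * h.toLin.p2_p3
      + (5417193 / 1412096) * h.toLin.p2_z1Nv + (1276935 / 1412096) * h.toLin.p2_z3Wu
      + (1900205 / 1235584) * h.toLin.p2_k3Wv + (10536011 / 9884672) * h.toLin.p2_eW1
      + (41057 / 201728) * h.toLin.p4_p3 + (2132747 / 2824192) * h.toLin.p4_z1Eu
      + (405 / 1576) * h.toLin.p4_k1Ev + (1413897 / 706048) * h.toLin.p4_k3Sv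
      + (459 / 197) * h.toLin.p4_hNv + (9 / 32) * h.toLin.p3_z3Wu
      + (199807 / 1412096) * h.toLin.p3_eW1 + (38695 / 22064) * h.toLin.p3_gS
      + (9825 / 12608) * h.toLin.z1N_t1N + (1404 / 197) * h.toLin.z1N_gNh
      + (27 / 16) * h.toLin.z1E_t2E + (1150455 / 1412096) * h.toLin.z3S_t2S
      + (85129 / 22064) * h.toLin.z3S_gSh + (837 / 394) * h.toLin.t1N_k1N
      + (38695 / 44128) * h.toLin.t1W_k2W + (7739 / 4137) * h.toLin.t1S_gSh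
      + (1413897 / 706048) * h.toLin.t2S_k3S + (405 / 1576) * h.toLin.t2E_k1E
      + (432 / 197) * h.toLin.k1N_gNh + (1431 / 394) * h.toLin.k2N_eN2
      + (121577 / 88256) * h.toLin.k2W_k3W + (198967 / 44128) * h.toLin.k2W_eW1
      + (198127 / 617792) * h.toLin.k3W_eW1 + (324 / 197) * h.toLin.eN2_gN
      + (153 / 197) * h.toLin.eN2_hN + (22032 / 10441) * h.toLin.gN_hN
      + (6596553 / 706048) * h.toLin.wRz1N + (2132747 / 1412096) * h.toLin.wRz1E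
      + (1475511 / 706048) * h.toLin.wLz3W + (1276935 / 1412096) * h.toLin.wLz3S
      + (23217 / 12608) * h.toLin.wTt1N + (38695 / 88256) * h.toLin.wLt1W
      + (38695 / 88256) * h.toLin.wLt1S + (23217 / 12608) * h.toLin.wBt1S
      + (1431 / 788) * h.toLin.wBt2S + (1431 / 788) * h.toLin.wBt2E + (405 / 788) * h.toLin.wRk1N
      + (405 / 788) * h.toLin.wRk1E + (1431 / 788) * h.toLin.wTk2N + (1431 / 788) * h.toLin.wTk2W
      + (1413897 / 353024) * h.toLin.wLk3W + (1413897 / 353024) * h.toLin.wLk3S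
      + (2512519 / 1412096) * h.c3 + (24253465 / 2824192) * e.2.1
      + (61151 / 12608) * (sub_nonneg.2 l4) + h.hG
      + (1 / 4) * mul_nonneg (sub_nonneg.2 l0) (sub_nonneg.2 u0)
      + (1 / 4) * mul_nonneg (sub_nonneg.2 l1) (sub_nonneg.2 u1)
      + (1 / 4) * mul_nonneg (sub_nonneg.2 l2) (sub_nonneg.2 u2)
      + (1 / 4) * mul_nonneg (sub_nonneg.2 l3) (sub_nonneg.2 u3) + sq_nonneg (c.s1 - (11 / 16))
      + (335282669 / 898093056) * hτ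
  linarith only [this, h0]

theorem lfQ50 (h : Lin2 τ c) (e : CsQ c) (hτ : 0 ≤ τ) (h0 : τ ≤ 1 / 10 ^ 7)
    (l0 : (21 / 16) ≤ c.z1Ny - c.p2y) (u0 : c.z1Ny - c.p2y ≤ (9 / 4)) (l1 : (-45 / 16) ≤ c.z1Ey - c.p4y) (u1 : c.z1Ey - c.p4y ≤ (-15 / 16))
    (l2 : (-5 / 4) ≤ c.z3Wy - c.p2y) (u2 : c.z3Wy - c.p2y ≤ (-3 / 8)) (l3 : (-5 / 2) ≤ c.z3Sy - c.p4y) (u3 : c.z3Sy - c.p4y ≤ (-25 / 16))
    (l4 : 0 ≤ c.s1) (u4 : c.s1 ≤ (7 / 4)) : False := by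
  have : 0 ≤ -(1 / 10) + 8 * τ := by
    linear_combination
      (24245 / 107968) * h.toLin.p2_p4 + (6563 / 107968) * h.toLin.p2_p3
      + (922393 / 10580864) * h.toLin.p2_z1Nv + (165359 / 5290432) * h.toLin.p2_z3Wu
      + (689 / 94472) * h.toLin.p2_k3Wv + (689 / 23618) * h.toLin.p2_eW1
      + (66878837 / 179874688) * h.toLin.p4_p3 + (556575 / 10580864) * h.toLin.p4_z1Eu
      + (689 / 13496) * h.toLin.p4_k1Ev + (44827 / 5290432) * h.toLin.p4_eS2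
      + (5421 / 28679) * h.toLin.p4_hNv + (13 / 32) * h.toLin.p3_z3Wu
      + (44827 / 5290432) * h.toLin.p3_eS2 + (7057 / 82663) * h.toLin.p3_gS
      + (2561 / 114716) * h.toLin.p3_hNv + (714803 / 809760) * h.toLin.z1N_t2N
      + (12779 / 25305) * h.toLin.z1N_gNh + (3135269 / 19839120) * h.toLin.z3S_t1S
      + (19793 / 23136) * h.toLin.z3S_t2S + (165359 / 1239945) * h.toLin.z3S_gSh
      + (21359 / 50610) * h.toLin.t1N_k1N + (689 / 13496) * h.toLin.t1W_k2W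
      + (44827 / 1322608) * h.toLin.t1S_eS2 + (3026 / 82663) * h.toLin.t1S_gSh
      + (21359 / 202440) * h.toLin.t2S_k3S + (689 / 13496) * h.toLin.t2E_k1E
      + (11024 / 25305) * h.toLin.k1N_gNh + (689 / 13496) * h.toLin.k2N_eN2
      + (689 / 6748) * h.toLin.k2W_eW1 + (689 / 47236) * h.toLin.k3W_eW1
      + (2756 / 25305) * h.toLin.k3S_gSh + (39 / 1687) * h.toLin.eN2_gN
      + (221 / 20244) * h.toLin.eN2_hN + (23140 / 89411) * h.toLin.gN_hN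
      + (387141 / 1322608) * h.toLin.wRz1N + (556575 / 5290432) * h.toLin.wRz1E
      + (619989 / 1322608) * h.toLin.wLz3W + (165359 / 5290432) * h.toLin.wLz3S
      + (21359 / 101220) * h.toLin.wTt1N + (689 / 26992) * h.toLin.wLt1W
      + (689 / 26992) * h.toLin.wLt1S + (21359 / 101220) * h.toLin.wBt1S
      + (714803 / 809760) * h.toLin.wTt2N + (735473 / 809760) * h.toLin.wBt2S
      + (689 / 26992) * h.toLin.wBt2E + (689 / 6748) * h.toLin.wRk1N + (689 / 6748) * h.toLin.wRk1E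
      + (689 / 26992) * h.toLin.wTk2N + (689 / 26992) * h.toLin.wTk2W
      + (689 / 26992) * h.toLin.wLk3W + (689 / 26992) * h.toLin.wLk3S + (2769227 / 2645216) * h.c3
      + (2540553 / 10580864) * e.2.1 + (15 / 16) * (sub_nonneg.2 l1) + h.hG
      + (1 / 4) * mul_nonneg (sub_nonneg.2 l0) (sub_nonneg.2 u0)
      + (1 / 4) * mul_nonneg (sub_nonneg.2 l1) (sub_nonneg.2 u1)
      + (1 / 4) * mul_nonneg (sub_nonneg.2 l2) (sub_nonneg.2 u2)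
      + (1 / 4) * mul_nonneg (sub_nonneg.2 l3) (sub_nonneg.2 u3) + sq_nonneg (c.s1 - (7 / 8))
      + (316986161 / 4085725056) * hτ
  linarith only [this, h0]

theorem lfQ53 (h : Lin2 τ c) (e : CsQ c) (hτ : 0 ≤ τ) (h0 : τ ≤ 1 / 10 ^ 7)
    (l0 : (5 / 16) ≤ c.z1Ny - c.p2y) (u0 : c.z1Ny - c.p2y ≤ (13 / 8)) (l1 : (-27 / 8) ≤ c.z1Ey - c.p4y) (u1 : c.z1Ey - c.p4y ≤ (-15 / 16))
    (l2 : (-7 / 2) ≤ c.z3Wy - c.p2y) (u2 : c.z3Wy - c.p2y ≤ (-5 / 8)) (l3 : (-25 / 16) ≤ c.z3Sy - c.p4y) (u3 : c.z3Sy - c.p4y ≤ 0)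
    (l4 : 0 ≤ c.s1) (u4 : c.s1 ≤ (7 / 4)) : False := by
  have : 0 ≤ -(1 / 100) + 20 * τ := by
    linear_combination
      (57 / 1120) * h.toLin.p2_p3 + (417743 / 2918400) * h.toLin.p2_z1Nv
      + (121 / 2432) * h.toLin.p2_z3Wu + (53 / 95) * h.toLin.p2_k3Wv
      + (1377 / 12800) * h.toLin.p2_eN1 + (691 / 2280) * h.toLin.p2_eW1
      + (3883 / 5600) * h.toLin.p2_gN + (307081 / 310080) * h.toLin.p4_p3
      + (16375 / 14592) * h.toLin.p4_z1Eu + (13411 / 18240) * h.toLin.p4_k3Sv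
      + (157 / 680) * h.toLin.p4_hNv + (33 / 32) * h.toLin.p3_z3Wu + (11 / 114) * h.toLin.p3_gS
      + (157 / 4760) * h.toLin.p3_hNv + (77 / 760) * h.toLin.z1N_t1N + (189 / 760) * h.toLin.z1N_t2N
      + (459 / 12800) * h.toLin.z1N_eN1 + (5503 / 800) * h.toLin.z1N_gNh
      + (81 / 160) * h.toLin.z1E_t2E + (14129 / 36480) * h.toLin.z3S_t2S
      + (121 / 570) * h.toLin.z3S_gSh + (11 / 228) * h.toLin.t1W_k2W + (88 / 855) * h.toLin.t1S_gSh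
      + (13411 / 18240) * h.toLin.t2S_k3S + (1377 / 3200) * h.toLin.k2N_eN1
      + (81 / 200) * h.toLin.k2N_gNh + (4397 / 9120) * h.toLin.k2W_k3W
      + (4837 / 4560) * h.toLin.k2W_eW1 + (691 / 4560) * h.toLin.k3W_eW1
      + (628 / 1855) * h.toLin.gN_hN + (35119 / 18240) * h.toLin.wRz1N
      + (16375 / 7296) * h.toLin.wRz1E + (1375 / 1216) * h.toLin.wLz3W
      + (121 / 2432) * h.toLin.wLz3S + (77 / 760) * h.toLin.wTt1N + (11 / 456) * h.toLin.wLt1W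
      + (11 / 456) * h.toLin.wLt1S + (77 / 760) * h.toLin.wBt1S + (189 / 760) * h.toLin.wTt2N
      + (459 / 608) * h.toLin.wBt2S + (81 / 160) * h.toLin.wBt2E + (81 / 160) * h.toLin.wTk2N
      + (81 / 160) * h.toLin.wTk2W + (13411 / 9120) * h.toLin.wLk3W + (13411 / 9120) * h.toLin.wLk3S
      + (1071 / 2432) * h.c3 + (58601 / 72960) * e.2.1 + (183 / 320) * (sub_nonneg.2 l1) + h.hG
      + (1 / 4) * mul_nonneg (sub_nonneg.2 l0) (sub_nonneg.2 u0)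
      + (1 / 4) * mul_nonneg (sub_nonneg.2 l1) (sub_nonneg.2 u1)
      + (1 / 4) * mul_nonneg (sub_nonneg.2 l2) (sub_nonneg.2 u2)
      + (1 / 4) * mul_nonneg (sub_nonneg.2 l3) (sub_nonneg.2 u3) + sq_nonneg (c.s1 - (7 / 8))
      + (15979630577 / 55219046400) * hτ
  linarith only [this, h0]

theorem lfQ56 (h : Lin2 τ c) (e : CsQ c) (hτ : 0 ≤ τ) (h0 : τ ≤ 1 / 10 ^ 7)
    (l0 : (11 / 8) ≤ c.z1Ny - c.p2y) (u0 : c.z1Ny - c.p2y ≤ (13 / 8)) (l1 : (-7 / 2) ≤ c.z1Ey - c.p4y) (u1 : c.z1Ey - c.p4y ≤ (-27 / 8))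
    (l2 : (-5 / 8) ≤ c.z3Wy - c.p2y) (u2 : c.z3Wy - c.p2y ≤ (-3 / 8)) (l3 : (-25 / 16) ≤ c.z3Sy - c.p4y) (u3 : c.z3Sy - c.p4y ≤ (-11 / 8))
    (l4 : 0 ≤ c.s1) (u4 : c.s1 ≤ (3 / 8)) : False := by
  have : 0 ≤ -(1 / 10) + 13 * τ := by
    linear_combination
      (5 / 8) * h.toLin.p2_p4 + (1 / 9) * h.toLin.p2_z3Wu + (497 / 1503) * h.toLin.p2_eN1
      + (1 / 3) * h.toLin.p2_eW1 + (64 / 501) * h.toLin.p2_gN + (3 / 4) * h.toLin.p4_p3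
      + (23 / 36) * h.toLin.p4_z1Eu + (19 / 72) * h.toLin.p4_z3Sv + (3 / 4) * h.toLin.p3_z3Wu
      + (28418 / 43587) * h.toLin.z1N_k2N + (497 / 4509) * h.toLin.z1N_eN1
      + (14272 / 14529) * h.toLin.z1N_gNh + h.toLin.z1E_t2E + (2 / 3) * h.toLin.z3W_k2W
      + (1 / 9) * h.toLin.z3W_eW1 + h.toLin.z3S_t2S + (1988 / 1503) * h.toLin.k2N_eN1
      + (256 / 14529) * h.toLin.k2N_gNh + (4 / 3) * h.toLin.k2W_eW1 + (23 / 36) * h.toLin.wRz1N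
      + (23 / 18) * h.toLin.wRz1E + (25 / 18) * h.toLin.wLz3W + (19 / 36) * h.toLin.wLz3S
      + h.toLin.wBt2S + h.toLin.wBt2E + h.toLin.wTk2N + h.toLin.wTk2W + (67 / 36) * h.c3
      + (sub_nonneg.2 u1) + (sub_nonneg.2 u3) + (3 / 4) * (sub_nonneg.2 l0)
      + (17 / 4) * (sub_nonneg.2 u4) + (1610 / 130761) * hτ
  linarith only [this, h0]

theorem lfQ59 (h : Lin2 τ c) (e : CsQ c) (hτ : 0 ≤ τ) (h0 : τ ≤ 1 / 10 ^ 7)
    (l0 : (13 / 8) ≤ c.z1Ny - c.p2y) (u0 : c.z1Ny - c.p2y ≤ (9 / 4)) (l1 : (-7 / 2) ≤ c.z1Ey - c.p4y) (u1 : c.z1Ey - c.p4y ≤ (-27 / 8))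
    (l2 : (-5 / 8) ≤ c.z3Wy - c.p2y) (u2 : c.z3Wy - c.p2y ≤ (-3 / 8)) (l3 : (-25 / 16) ≤ c.z3Sy - c.p4y) (u3 : c.z3Sy - c.p4y ≤ 0)
    (l4 : 0 ≤ c.s1) (u4 : c.s1 ≤ (7 / 4)) : False := by
  have : 0 ≤ -1 + 685 * τ := by
    linear_combination
      (140 / 17) * h.toLin.p2_p4 + (872 / 17) * h.toLin.p2_p3 + (2693 / 51) * h.toLin.p2_z1Nv
      + 15 * h.toLin.p2_z3Wu + (1280 / 119) * h.toLin.p2_k3Wv + (160 / 51) * h.toLin.p2_eN1
      + (640 / 119) * h.toLin.p2_eW1 + (14 / 3) * h.toLin.p4_p3 + (7 / 3) * h.toLin.p4_z1Eu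
      + (598 / 51) * h.toLin.p3_z3Wu + h.toLin.p3_z3Su + (960 / 17) * h.toLin.p3_gS
      + (598 / 51) * h.toLin.z1N_t1N + (1898 / 51) * h.toLin.z1N_t2N + (320 / 51) * h.toLin.z1N_k2N
      + (160 / 153) * h.toLin.z1N_eN1 + (1078 / 51) * h.toLin.z1E_t2E + (598 / 51) * h.toLin.z3W_t1W
      + 64 * h.toLin.z3S_gSh + (1984 / 17) * h.toLin.t2S_k3S + (640 / 51) * h.toLin.k2N_eN1
      + (160 / 17) * h.toLin.k2W_k3W + (320 / 17) * h.toLin.k2W_eW1 + (320 / 119) * h.toLin.k3W_eW1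
      + (2048 / 17) * h.toLin.k3S_gSh + (1862 / 17) * h.toLin.wRz1N + (14 / 3) * h.toLin.wRz1E
      + (2128 / 51) * h.toLin.wLz3W + 16 * h.toLin.wLz3S + (598 / 51) * h.toLin.wTt1N
      + (598 / 51) * h.toLin.wTt1W + (1898 / 51) * h.toLin.wTt2N + (992 / 17) * h.toLin.wBt2S
      + (1078 / 51) * h.toLin.wBt2E + (160 / 17) * h.toLin.wTk2N + (160 / 17) * h.toLin.wTk2W
      + (480 / 17) * h.toLin.wLk3W + (480 / 17) * h.toLin.wLk3S + (1414 / 51) * h.c3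
      + (5467 / 51) * e.2.1 + (1078 / 51) * (sub_nonneg.2 u1) + 56 * (sub_nonneg.2 l0)
      + (107 / 153) * hτ
  linarith only [this, h0]

theorem lfQ62 (h : Lin2 τ c) (e : CsQ c) (hτ : 0 ≤ τ) (h0 : τ ≤ 1 / 10 ^ 7)
    (l0 : (5 / 16) ≤ c.z1Ny - c.p2y) (u0 : c.z1Ny - c.p2y ≤ (13 / 8)) (l1 : (-7 / 2) ≤ c.z1Ey - c.p4y) (u1 : c.z1Ey - c.p4y ≤ (-27 / 8))
    (l2 : (-3 / 8) ≤ c.z3Wy - c.p2y) (u2 : c.z3Wy - c.p2y ≤ (1 / 2)) (l3 : (-5 / 2) ≤ c.z3Sy - c.p4y) (u3 : c.z3Sy - c.p4y ≤ (-21 / 16))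
    (l4 : 0 ≤ c.s1) (u4 : c.s1 ≤ (7 / 4)) : False := by
  have : 0 ≤ -(1 / 100) + 28 * τ := by
    linear_combination
      (1738481 / 2308224) * h.toLin.p2_p4 + (30189 / 48088) * h.toLin.p2_p3
      + (1129415 / 1154112) * h.toLin.p2_z1Nv + (390503 / 1154112) * h.toLin.p2_z3Wv
      + (2776 / 18033) * h.toLin.p2_k3Wv + (2723 / 24044) * h.toLin.p2_eN1
      + (28067 / 72132) * h.toLin.p2_eW1 + (176995 / 384704) * h.toLin.p4_z3Sv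
      + (35399 / 36066) * h.toLin.p4_hNv + (1388 / 18033) * h.toLin.p3_k2Wv
      + (13880 / 18033) * h.toLin.p3_gS + (229375 / 577056) * h.toLin.z1N_t1N
      + (18583 / 1154112) * h.toLin.z1N_t2N + (27230 / 6011) * h.toLin.z1N_gNh
      + (55 / 32) * h.toLin.z1E_t2E + (229375 / 577056) * h.toLin.z3W_t1W
      + (25291 / 36066) * h.toLin.z3W_k2W + (28067 / 216396) * h.toLin.z3W_eW1
      + (3252847 / 3462336) * h.toLin.z3S_t2S + (47192 / 54099) * h.toLin.z3S_gSh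
      + (86056 / 54099) * h.toLin.t2S_k3S + (454741 / 961760) * h.toLin.k2N_eN1
      + (1876147 / 1226244) * h.toLin.k2N_eN2 + (454741 / 1021870) * h.toLin.k2N_gNh
      + (2776 / 18033) * h.toLin.k2W_k3W + (28067 / 18033) * h.toLin.k2W_eW1
      + (88832 / 54099) * h.toLin.k3S_gSh + (2723 / 60110) * h.toLin.eN1_gN
      + (70798 / 102187) * h.toLin.eN2_gN + (35399 / 108198) * h.toLin.eN2_hN
      + (283192 / 318583) * h.toLin.gN_hN + (871045 / 288528) * h.toLin.wRz1N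
      + (648965 / 577056) * h.toLin.wLz3W + (648965 / 577056) * h.toLin.wLz3S
      + (229375 / 577056) * h.toLin.wTt1N + (229375 / 577056) * h.toLin.wTt1W
      + (18583 / 1154112) * h.toLin.wTt2N + (2002213 / 1154112) * h.toLin.wBt2S
      + (55 / 32) * h.toLin.wBt2E + (95305 / 72132) * h.toLin.wTk2N
      + (95305 / 72132) * h.toLin.wTk2W + (6940 / 18033) * h.toLin.wLk3W
      + (6940 / 18033) * h.toLin.wLk3S + (826781 / 384704) * h.c3 + (871045 / 288528) * e.2.1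
      + (56011 / 48088) * (sub_nonneg.2 l2) + h.hG
      + (1 / 4) * mul_nonneg (sub_nonneg.2 l0) (sub_nonneg.2 u0)
      + (1 / 4) * mul_nonneg (sub_nonneg.2 l1) (sub_nonneg.2 u1)
      + (1 / 4) * mul_nonneg (sub_nonneg.2 l2) (sub_nonneg.2 u2)
      + (1 / 4) * mul_nonneg (sub_nonneg.2 l3) (sub_nonneg.2 u3) + sq_nonneg (c.s1 - (2 / 3))
      + (1670322611 / 10398549120) * hτ
  linarith only [this, h0]

theorem lfQ65 (h : Lin2 τ c) (e : CsQ c) (hτ : 0 ≤ τ) (h0 : τ ≤ 1 / 10 ^ 7)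
    (l0 : (21 / 16) ≤ c.z1Ny - c.p2y) (u0 : c.z1Ny - c.p2y ≤ (9 / 4)) (l1 : (-7 / 2) ≤ c.z1Ey - c.p4y) (u1 : c.z1Ey - c.p4y ≤ (-27 / 8))
    (l2 : (-3 / 8) ≤ c.z3Wy - c.p2y) (u2 : c.z3Wy - c.p2y ≤ (1 / 2)) (l3 : (-21 / 16) ≤ c.z3Sy - c.p4y) (u3 : c.z3Sy - c.p4y ≤ 0)
    (l4 : 0 ≤ c.s1) (u4 : c.s1 ≤ (7 / 4)) : False := by
  have : 0 ≤ -(1 / 100) + 12 * τ := by
    linear_combination
      (6433 / 11456) * h.toLin.p2_p4 + (1653 / 2864) * h.toLin.p2_p3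
      + (1537 / 2864) * h.toLin.p2_z1Nv + (493 / 5728) * h.toLin.p2_z3Wv
      + (29 / 179) * h.toLin.p2_k3Wv + (29 / 358) * h.toLin.p3_z3Wu + (116 / 179) * h.toLin.p3_gS
      + (57 / 64) * h.toLin.z1N_t1N + (57 / 64) * h.toLin.z1E_t2E + (9275 / 11456) * h.toLin.z3W_t1W
      + (37973 / 171840) * h.toLin.z3S_t2S + (1972 / 2685) * h.toLin.z3S_gSh
      + (29 / 179) * h.toLin.t1W_k3W + (3596 / 2685) * h.toLin.t2S_k3S
      + (3712 / 2685) * h.toLin.k3S_gSh + (1537 / 1432) * h.toLin.wRz1N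
      + (725 / 2864) * h.toLin.wLz3W + (493 / 2864) * h.toLin.wLz3S + (57 / 64) * h.toLin.wTt1N
      + (57 / 64) * h.toLin.wTt1W + (57 / 64) * h.toLin.wBt2S + (57 / 64) * h.toLin.wBt2E
      + (58 / 179) * h.toLin.wLk3W + (58 / 179) * h.toLin.wLk3S + (5969 / 5728) * h.c3
      + (1537 / 1432) * e.2.1 + (53 / 64) * (sub_nonneg.2 l1) + (7989 / 11456) * (sub_nonneg.2 l2)
      + (137 / 1432) * (sub_nonneg.2 l3) + h.hG
      + (1 / 4) * mul_nonneg (sub_nonneg.2 l0) (sub_nonneg.2 u0)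
      + (1 / 4) * mul_nonneg (sub_nonneg.2 l1) (sub_nonneg.2 u1)
      + (1 / 4) * mul_nonneg (sub_nonneg.2 l2) (sub_nonneg.2 u2)
      + (1 / 4) * mul_nonneg (sub_nonneg.2 l3) (sub_nonneg.2 u3) + sq_nonneg (c.s1 - (7 / 8))
      + (50139 / 57280) * hτ
  linarith only [this, h0]

theorem lfQ68 (h : Lin2 τ c) (e : CsQ c) (hτ : 0 ≤ τ) (h0 : τ ≤ 1 / 10 ^ 7)
    (l0 : (5 / 16) ≤ c.z1Ny - c.p2y) (u0 : c.z1Ny - c.p2y ≤ (9 / 4)) (l1 : (-27 / 8) ≤ c.z1Ey - c.p4y) (u1 : c.z1Ey - c.p4y ≤ (-15 / 16))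
    (l2 : (-3 / 8) ≤ c.z3Wy - c.p2y) (u2 : c.z3Wy - c.p2y ≤ (1 / 2)) (l3 : (-11 / 8) ≤ c.z3Sy - c.p4y) (u3 : c.z3Sy - c.p4y ≤ 0)
    (l4 : 0 ≤ c.s1) (u4 : c.s1 ≤ (7 / 4)) : False := by
  have : 0 ≤ -(1 / 100) + 9 * τ := by
    linear_combination
      (4609 / 11456) * h.toLin.p2_p4 + (1197 / 2864) * h.toLin.p2_p3
      + (2583 / 5728) * h.toLin.p2_z1Nv + (357 / 2864) * h.toLin.p2_z3Wu
      + (21 / 179) * h.toLin.p2_k3Wv + (21 / 358) * h.toLin.p3_z3Wu + (84 / 179) * h.toLin.p3_gS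
      + (41 / 64) * h.toLin.z1N_t1N + (41 / 64) * h.toLin.z1E_t2E + (6667 / 11456) * h.toLin.z3W_t1W
      + (8919 / 57280) * h.toLin.z3S_t2S + (476 / 895) * h.toLin.z3S_gSh
      + (21 / 179) * h.toLin.t1W_k3W + (868 / 895) * h.toLin.t2S_k3S + (896 / 895) * h.toLin.k3S_gSh
      + (2583 / 2864) * h.toLin.wRz1N + (441 / 1432) * h.toLin.wLz3W + (357 / 2864) * h.toLin.wLz3S
      + (41 / 64) * h.toLin.wTt1N + (41 / 64) * h.toLin.wTt1W + (41 / 64) * h.toLin.wBt2S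
      + (41 / 64) * h.toLin.wBt2E + (42 / 179) * h.toLin.wLk3W + (42 / 179) * h.toLin.wLk3S
      + (4987 / 5728) * h.c3 + (2583 / 2864) * e.2.1 + (5637 / 11456) * (sub_nonneg.2 l2)
      + (7 / 16) * (sub_nonneg.2 l1) + (2059 / 11456) * (sub_nonneg.2 l3) + h.hG
      + (1 / 4) * mul_nonneg (sub_nonneg.2 l0) (sub_nonneg.2 u0)
      + (1 / 4) * mul_nonneg (sub_nonneg.2 l1) (sub_nonneg.2 u1)
      + (1 / 4) * mul_nonneg (sub_nonneg.2 l2) (sub_nonneg.2 u2)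
      + (1 / 4) * mul_nonneg (sub_nonneg.2 l3) (sub_nonneg.2 u3) + sq_nonneg (c.s1 - (5 / 8))
      + (25731 / 57280) * hτ
  linarith only [this, h0]

theorem lfQ71 (h : Lin2 τ c) (e : CsQ c) (hτ : 0 ≤ τ) (h0 : τ ≤ 1 / 10 ^ 7)
    (l0 : (-1 / 8) ≤ c.z1Ny - c.p2y) (u0 : c.z1Ny - c.p2y ≤ (9 / 4)) (l1 : (-7 / 2) ≤ c.z1Ey - c.p4y) (u1 : c.z1Ey - c.p4y ≤ (-15 / 16))
    (l2 : (-7 / 2) ≤ c.z3Wy - c.p2y) (u2 : c.z3Wy - c.p2y ≤ (-1)) (l3 : 0 ≤ c.z3Sy - c.p4y) (u3 : c.z3Sy - c.p4y ≤ (9 / 4))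
    (l4 : 0 ≤ c.s1) (u4 : c.s1 ≤ (7 / 4)) : False := by
  have : 0 ≤ -(1 / 10) + 25 * τ := by
    linear_combination
      (3616387 / 5770288) * h.toLin.p2_p3 + (158128465 / 69243456) * h.toLin.p2_z1Nv
      + (354875 / 23081152) * h.toLin.p2_z3Wv + (150114771 / 80784032) * h.toLin.p2_k3Wv
      + (92650 / 1081929) * h.toLin.p2_eN1 + (1820300 / 7573503) * h.toLin.p2_eW1
      + (238649943 / 196189792) * h.toLin.p4_p3 + (170430155 / 69243456) * h.toLin.p4_z1Eu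
      + (68533759 / 34621728) * h.toLin.p4_k3Sv + (4959500 / 18392793) * h.toLin.p4_hNv
      + (43782637 / 34621728) * h.toLin.p3_z3Wu + (19545697 / 34621728) * h.toLin.p3_z3Su
      + (41750 / 360643) * h.toLin.p3_gS + (708500 / 18392793) * h.toLin.p3_hNv
      + (47692159 / 69243456) * h.toLin.z1N_t1N + (2005600 / 1081929) * h.toLin.z1N_gNh
      + (71 / 64) * h.toLin.z1E_t2E + (141950 / 1081929) * h.toLin.z3S_gSh
      + (47692159 / 34621728) * h.toLin.t1W_k3W + (71 / 32) * h.toLin.t2S_k3S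
      + (370600 / 1081929) * h.toLin.k2N_eN1 + (38150 / 1081929) * h.toLin.k2N_eN2
      + (348800 / 1081929) * h.toLin.k2N_gNh + (455075 / 1081929) * h.toLin.k2W_k3W
      + (910150 / 1081929) * h.toLin.k2W_eW1 + (910150 / 7573503) * h.toLin.k3W_eW1
      + (267200 / 1081929) * h.toLin.k3S_gSh + (92650 / 1081929) * h.toLin.eN1_eN2
      + (87200 / 1081929) * h.toLin.eN2_gN + (22672000 / 57342237) * h.toLin.gN_hN
      + (173170465 / 34621728) * h.toLin.wRz1N + (170430155 / 34621728) * h.toLin.wRz1E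
      + (22423631 / 17310864) * h.toLin.wLz3W + (10305161 / 17310864) * h.toLin.wLz3S
      + (47692159 / 69243456) * h.toLin.wTt1N + (47692159 / 69243456) * h.toLin.wTt1W
      + (71 / 64) * h.toLin.wBt2S + (71 / 64) * h.toLin.wBt2E + (455075 / 1081929) * h.toLin.wTk2N
      + (455075 / 1081929) * h.toLin.wTk2W + (69535759 / 17310864) * h.toLin.wLk3W
      + (69535759 / 17310864) * h.toLin.wLk3S + (70975 / 34621728) * h.c3
      + (58636925 / 23081152) * e.2.1 + (12912173 / 69243456) * (sub_nonneg.2 l0)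
      + (4833193 / 34621728) * (sub_nonneg.2 u2) + h.hG
      + (1 / 4) * mul_nonneg (sub_nonneg.2 l0) (sub_nonneg.2 u0)
      + (1 / 4) * mul_nonneg (sub_nonneg.2 l1) (sub_nonneg.2 u1)
      + (1 / 4) * mul_nonneg (sub_nonneg.2 l2) (sub_nonneg.2 u2)
      + (1 / 4) * mul_nonneg (sub_nonneg.2 l3) (sub_nonneg.2 u3) + sq_nonneg (c.s1 - (7 / 8))
      + (44142506473 / 62388353856) * hτ
  linarith only [this, h0]

theorem lfQ74 (h : Lin2 τ c) (e : CsQ c) (hτ : 0 ≤ τ) (h0 : τ ≤ 1 / 10 ^ 7)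
    (l0 : (1 / 8) ≤ c.z1Ny - c.p2y) (u0 : c.z1Ny - c.p2y ≤ (9 / 4)) (l1 : (-7 / 2) ≤ c.z1Ey - c.p4y) (u1 : c.z1Ey - c.p4y ≤ (-15 / 16))
    (l2 : (1 / 2) ≤ c.z3Wy - c.p2y) (u2 : c.z3Wy - c.p2y ≤ (11 / 4)) (l3 : (-5 / 2) ≤ c.z3Sy - c.p4y) (u3 : c.z3Sy - c.p4y ≤ (-1 / 8))
    (l4 : 0 ≤ c.s1) (u4 : c.s1 ≤ (7 / 4)) : False := by
  have : 0 ≤ -(1 / 10) + 17 * τ := by
    linear_combination
      (1228437 / 1923520) * h.toLin.p2_p4 + (284713 / 769408) * h.toLin.p2_p3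
      + (1562977 / 2308224) * h.toLin.p2_z1Nv + (5801 / 18033) * h.toLin.p2_z3Wu
      + (2731 / 24044) * h.toLin.p2_k3Wv + (11409 / 240440) * h.toLin.p2_eN1
      + (26621 / 192352) * h.toLin.p2_eW1 + (148317 / 769408) * h.toLin.p4_z3Sv
      + (49439 / 120220) * h.toLin.p4_hNv + (6151 / 577056) * h.toLin.p3_z3Wu
      + (26621 / 577056) * h.toLin.p3_eW1 + (2731 / 6011) * h.toLin.p3_gS
      + (213813 / 384704) * h.toLin.z1N_t1N + (799 / 96176) * h.toLin.z1N_t2N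
      + (11409 / 6011) * h.toLin.z1N_gNh + (71 / 64) * h.toLin.z1E_t2E
      + (191965 / 384704) * h.toLin.z3W_t1W + (26621 / 72132) * h.toLin.z3W_k2W
      + (3740503 / 5770560) * h.toLin.z3S_t2S + (46427 / 90165) * h.toLin.z3S_gSh
      + (2731 / 24044) * h.toLin.t1W_k3W + (84661 / 90165) * h.toLin.t2S_k3S
      + (125499 / 480880) * h.toLin.k2N_eN1 + (201559 / 408748) * h.toLin.k2N_eN2
      + (125499 / 510935) * h.toLin.k2N_gNh + (26621 / 36066) * h.toLin.k2W_eW1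
      + (87392 / 90165) * h.toLin.k3S_gSh + (11409 / 601100) * h.toLin.eN1_hN
      + (22818 / 102187) * h.toLin.eN2_gN + (3803 / 36066) * h.toLin.eN2_hN
      + (616086 / 1592915) * h.toLin.gN_hN + (1038191 / 577056) * h.toLin.wRz1N
      + (483899 / 577056) * h.toLin.wLz3W + (24343 / 48088) * h.toLin.wLz3S
      + (213813 / 384704) * h.toLin.wTt1N + (213813 / 384704) * h.toLin.wTt1W
      + (799 / 96176) * h.toLin.wTt2N + (429977 / 384704) * h.toLin.wBt2S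
      + (71 / 64) * h.toLin.wBt2E + (26621 / 48088) * h.toLin.wTk2N
      + (26621 / 48088) * h.toLin.wTk2W + (2731 / 12022) * h.toLin.wLk3W
      + (2731 / 12022) * h.toLin.wLk3S + (2130481 / 1154112) * h.c3 + (1038191 / 577056) * e.2.1
      + (17271 / 384704) * (sub_nonneg.2 l2) + h.hG
      + (1 / 4) * mul_nonneg (sub_nonneg.2 l0) (sub_nonneg.2 u0)
      + (1 / 4) * mul_nonneg (sub_nonneg.2 l1) (sub_nonneg.2 u1)
      + (1 / 4) * mul_nonneg (sub_nonneg.2 l2) (sub_nonneg.2 u2)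
      + (1 / 4) * mul_nonneg (sub_nonneg.2 l3) (sub_nonneg.2 u3) + sq_nonneg (c.s1 - (7 / 8))
      + (11008154327 / 17330915200) * hτ
  linarith only [this, h0]

theorem lfQ77 (h : Lin2 τ c) (e : CsQ c) (hτ : 0 ≤ τ) (h0 : τ ≤ 1 / 10 ^ 7)
    (l0 : (-9 / 4) ≤ c.z1Ny - c.p2y) (u0 : c.z1Ny - c.p2y ≤ (-9 / 16)) (l1 : (-15 / 16) ≤ c.z1Ey - c.p4y) (u1 : c.z1Ey - c.p4y ≤ (5 / 4))
    (l2 : (-7 / 2) ≤ c.z3Wy - c.p2y) (u2 : c.z3Wy - c.p2y ≤ (-1)) (l3 : (-5 / 2) ≤ c.z3Sy - c.p4y) (u3 : c.z3Sy - c.p4y ≤ 0)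
    (l4 : 0 ≤ c.s1) (u4 : c.s1 ≤ (7 / 4)) : False := by
  have : 0 ≤ -(1 / 10) + 26 * τ := by
    linear_combination
      (47 / 352) * h.toLin.p2_z1Nu + (901 / 2816) * h.toLin.p2_z1Nv
      + (3415 / 2816) * h.toLin.p2_z3Wv + (3611 / 2464) * h.toLin.p2_k1Nv
      + (1819 / 2464) * h.toLin.p2_k3Wv + (157 / 308) * h.toLin.p2_eN1
      + (565 / 1232) * h.toLin.p2_eW1 + (695 / 1088) * h.toLin.p4_p1 + (2957 / 2816) * h.toLin.p4_p3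
      + (99 / 128) * h.toLin.p4_z1Eu + (899 / 704) * h.toLin.p4_z3Sv + (157 / 88) * h.toLin.p4_k1Ev
      + (345 / 352) * h.toLin.p4_k3Sv + (55 / 272) * h.toLin.p4_hWv + (45 / 64) * h.toLin.p1_z1Nu
      + (5 / 64) * h.toLin.p1_z1Eu + (5 / 68) * h.toLin.p1_hWv + (2957 / 2816) * h.toLin.p3_z3Wu
      + (63 / 352) * h.toLin.z3W_k2W + (5 / 16) * h.toLin.z3W_hWu + (157 / 704) * h.toLin.z3S_t1S
      + (283 / 704) * h.toLin.z3S_t2S + (157 / 352) * h.toLin.t1N_k1N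
      + (345 / 352) * h.toLin.t2S_k3S + (157 / 88) * h.toLin.t2E_k1E + (157 / 176) * h.toLin.k1N_k2N
      + (157 / 616) * h.toLin.k1N_eN1 + (157 / 88) * h.toLin.k2N_eN1 + (439 / 704) * h.toLin.k2W_k3W
      + (565 / 352) * h.toLin.k2W_eW1 + (565 / 2464) * h.toLin.k3W_eW1
      + (2267 / 1408) * h.toLin.wRz1N + (13 / 8) * h.toLin.wRz1E + (5487 / 1408) * h.toLin.wLz3W
      + (899 / 352) * h.toLin.wLz3S + (157 / 704) * h.toLin.wTt1N + (157 / 704) * h.toLin.wBt1S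
      + (157 / 176) * h.toLin.wBt2S + (157 / 176) * h.toLin.wBt2E + (157 / 44) * h.toLin.wRk1N
      + (157 / 44) * h.toLin.wRk1E + (157 / 176) * h.toLin.wTk2N + (157 / 176) * h.toLin.wTk2W
      + (345 / 176) * h.toLin.wLk3W + (345 / 176) * h.toLin.wLk3S + (1187 / 1408) * h.c3 + h.hG
      + (1 / 4) * mul_nonneg (sub_nonneg.2 l0) (sub_nonneg.2 u0)
      + (1 / 4) * mul_nonneg (sub_nonneg.2 l1) (sub_nonneg.2 u1)
      + (1 / 4) * mul_nonneg (sub_nonneg.2 l2) (sub_nonneg.2 u2)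
      + (1 / 4) * mul_nonneg (sub_nonneg.2 l3) (sub_nonneg.2 u3) + sq_nonneg (c.s1 - (7 / 8))
      + (23755 / 23936) * hτ
  linarith only [this, h0]

theorem lfQ80 (h : Lin2 τ c) (e : CsQ c) (hτ : 0 ≤ τ) (h0 : τ ≤ 1 / 10 ^ 7)
    (l0 : (-9 / 4) ≤ c.z1Ny - c.p2y) (u0 : c.z1Ny - c.p2y ≤ (5 / 16)) (l1 : (-15 / 16) ≤ c.z1Ey - c.p4y) (u1 : c.z1Ey - c.p4y ≤ 3)
    (l2 : (-7 / 2) ≤ c.z3Wy - c.p2y) (u2 : c.z3Wy - c.p2y ≤ (-1)) (l3 : 0 ≤ c.z3Sy - c.p4y) (u3 : c.z3Sy - c.p4y ≤ (9 / 4))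
    (l4 : 0 ≤ c.s1) (u4 : c.s1 ≤ (7 / 4)) : False := by
  have : 0 ≤ -(1 / 10) + 23 * τ := by
    linear_combination
      (15 / 128) * h.toLin.p2_z1Nu + (79 / 128) * h.toLin.p2_z1Nv + (47 / 64) * h.toLin.p2_z3Wu
      + (213 / 128) * h.toLin.p2_k1Nv + (213 / 128) * h.toLin.p2_k3Wv + (41 / 64) * h.toLin.p4_p3
      + (11 / 16) * h.toLin.p4_z1Ev + (47 / 128) * h.toLin.p4_z3Sv + (213 / 128) * h.toLin.p4_k1Ev
      + (213 / 128) * h.toLin.p4_k3Sv + (103 / 256) * h.toLin.p1_p3 + (23 / 64) * h.toLin.p1_z1Nu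
      + (125 / 256) * h.toLin.p1_z1Eu + (11 / 16) * h.toLin.p1_hN + (295 / 256) * h.toLin.p3_z3Wu
      + (137 / 256) * h.toLin.p3_z3Su + (1 / 8) * h.toLin.p3_hNv + (3 / 16) * h.toLin.z1N_hNu
      + (213 / 128) * h.toLin.t1N_k1N + (213 / 128) * h.toLin.t1W_k3W
      + (213 / 128) * h.toLin.t2S_k3S + (213 / 128) * h.toLin.t2E_k1E + (519 / 256) * h.toLin.wRz1N
      + (477 / 256) * h.toLin.wRz1E + (671 / 256) * h.toLin.wLz3W + (325 / 256) * h.toLin.wLz3S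
      + (213 / 256) * h.toLin.wTt1N + (213 / 256) * h.toLin.wTt1W + (213 / 256) * h.toLin.wBt2S
      + (213 / 256) * h.toLin.wBt2E + (213 / 64) * h.toLin.wRk1N + (213 / 64) * h.toLin.wRk1E
      + (213 / 64) * h.toLin.wLk3W + (213 / 64) * h.toLin.wLk3S + (7 / 256) * h.toLin.wl
      + (47 / 64) * h.c3 + h.hG + (1 / 4) * mul_nonneg (sub_nonneg.2 l0) (sub_nonneg.2 u0)
      + (1 / 4) * mul_nonneg (sub_nonneg.2 l1) (sub_nonneg.2 u1)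
      + (1 / 4) * mul_nonneg (sub_nonneg.2 l2) (sub_nonneg.2 u2)
      + (1 / 4) * mul_nonneg (sub_nonneg.2 l3) (sub_nonneg.2 u3) + sq_nonneg (c.s1 - (7 / 16))
      + (109 / 128) * hτ
  linarith only [this, h0]

theorem lfQ83 (h : Lin2 τ c) (e : CsQ c) (hτ : 0 ≤ τ) (h0 : τ ≤ 1 / 10 ^ 7)
    (l0 : (-9 / 4) ≤ c.z1Ny - c.p2y) (u0 : c.z1Ny - c.p2y ≤ (-3 / 8)) (l1 : (-15 / 16) ≤ c.z1Ey - c.p4y) (u1 : c.z1Ey - c.p4y ≤ 3)
    (l2 : (-1) ≤ c.z3Wy - c.p2y) (u2 : c.z3Wy - c.p2y ≤ (11 / 4)) (l3 : (-1 / 8) ≤ c.z3Sy - c.p4y) (u3 : c.z3Sy - c.p4y ≤ (9 / 4))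
    (l4 : 0 ≤ c.s1) (u4 : c.s1 ≤ (7 / 4)) : False := by
  have : 0 ≤ -(1 / 10) + 17 * τ := by
    linear_combination
      (7051 / 7168) * h.toLin.p2_z1Nu + (7 / 64) * h.toLin.p2_z1Nv + (7835 / 7168) * h.toLin.p2_z3Wu
      + (151 / 128) * h.toLin.p2_k1Nv + (151 / 128) * h.toLin.p2_k3Wv + (35 / 32) * h.toLin.p4_p1
      + (35 / 64) * h.toLin.p4_z3Sv + (151 / 128) * h.toLin.p4_k1Ev + (151 / 128) * h.toLin.p4_k3Sv
      + (15503 / 14336) * h.toLin.p1_z1Nu + (9 / 256) * h.toLin.p1_z1Eu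
      + (671 / 2688) * h.toLin.p1_hN + (5 / 1344) * h.toLin.p1_hWv + (551 / 14336) * h.toLin.p3_z3Wu
      + (13 / 256) * h.toLin.p3_z3Su + (61 / 1344) * h.toLin.p3_hNv + (55 / 2688) * h.toLin.p3_hW
      + (61 / 896) * h.toLin.z1N_hNu + (5 / 896) * h.toLin.z3W_hWu + (151 / 128) * h.toLin.t1N_k1N
      + (151 / 128) * h.toLin.t1W_k3W + (151 / 128) * h.toLin.t2S_k3S
      + (151 / 128) * h.toLin.t2E_k1E + (855 / 256) * h.toLin.wRz1N + (9 / 256) * h.toLin.wRz1E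
      + (571 / 256) * h.toLin.wLz3W + (293 / 256) * h.toLin.wLz3S + (151 / 256) * h.toLin.wTt1N
      + (151 / 256) * h.toLin.wTt1W + (151 / 256) * h.toLin.wBt2S + (151 / 256) * h.toLin.wBt2E
      + (151 / 64) * h.toLin.wRk1N + (151 / 64) * h.toLin.wRk1E + (151 / 64) * h.toLin.wLk3W
      + (151 / 64) * h.toLin.wLk3S + (123 / 256) * h.toLin.wl + (35 / 32) * h.c3
      + (155 / 128) * e.2.1 + h.hG + (1 / 4) * mul_nonneg (sub_nonneg.2 l0) (sub_nonneg.2 u0)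
      + (1 / 4) * mul_nonneg (sub_nonneg.2 l1) (sub_nonneg.2 u1)
      + (1 / 4) * mul_nonneg (sub_nonneg.2 l2) (sub_nonneg.2 u2)
      + (1 / 4) * mul_nonneg (sub_nonneg.2 l3) (sub_nonneg.2 u3) + sq_nonneg (c.s1 - (7 / 16))
      + (311 / 7168) * hτ
  linarith only [this, h0]


end Pool.Agent.P.MP_dba4bb_co.Ex
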