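import Pool.Agent.P.MP_dba4bb_co.Ex.BbQ0
import Pool.Agent.P.MP_dba4bb_co.Ex.BbQ1
import Pool.Agent.P.MP_dba4bb_co.Ex.BbQ2

/-! Branch and bound for the second order term. -/

namespace Pool.Agent.P.MP_dba4bb_co.Ex

variable {τ : ℝ} {c : Cfg}

theorem rtQu0 (h : Lin2 τ c) (e : CsQ c) (hτ : 0 ≤ τ) (h0 : τ ≤ 1 / 10 ^ 7) :
    c.z1Ny - c.p2y ≤ (9 / 4) := by
  linear_combination
    (4 / 49) * h.toLin.p2_p4 + (37 / 49) * h.toLin.p2_p3 + (5 / 7) * h.toLin.p2_z1Nv
    + (17 / 98) * h.toLin.p2_z3Wu + (8 / 49) * h.toLin.p2_k3Wv + (4 / 49) * h.toLin.p3_z3Wu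
    + (17 / 98) * h.toLin.p3_z3Su + (32 / 49) * h.toLin.p3_gS + (45 / 49) * h.toLin.z1N_t1N
    + (4 / 49) * h.toLin.z1E_t2E + (17 / 105) * h.toLin.z3S_t1S + (4 / 49) * h.toLin.z3S_t2S
    + (544 / 735) * h.toLin.z3S_gSh + (8 / 49) * h.toLin.t1W_k3W + (992 / 735) * h.toLin.t1S_k3S
    + (1024 / 735) * h.toLin.k3S_gSh + (10 / 7) * h.toLin.wRz1N + (3 / 7) * h.toLin.wLz3W
    + (17 / 49) * h.toLin.wLz3S + (45 / 49) * h.toLin.wTt1N + (4 / 49) * h.toLin.wTt1W
    + (41 / 49) * h.toLin.wBt1S + (4 / 49) * h.toLin.wBt2S + (4 / 49) * h.toLin.wBt2E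
    + (16 / 49) * h.toLin.wLk3W + (16 / 49) * h.toLin.wLk3S + (4 / 49) * h.toLin.wl
    + (3 / 7) * h.c3 + (10 / 7) * e.2.1 + (284 / 35) * h0

theorem rtQl0 (h : Lin2 τ c) (e : CsQ c) (hτ : 0 ≤ τ) (h0 : τ ≤ 1 / 10 ^ 7) :
    (-9 / 4) ≤ c.z1Ny - c.p2y := by
  linear_combination
    (1 / 2) * h.toLin.p2_z1Nu + (1 / 2) * h.toLin.p2_z1Nv + h.toLin.p2_z3Wu + h.toLin.p2_k1Nv
    + h.toLin.p2_k3Wv + h.toLin.p4_p1 + (1 / 2) * h.toLin.p4_z3Sv + h.toLin.p4_k1Ev
    + h.toLin.p4_k3Sv + h.toLin.p1_z1Nu + h.toLin.t1N_k1N + h.toLin.t1W_k3W + h.toLin.t2S_k3S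
    + h.toLin.t2E_k1E + 3 * h.toLin.wRz1N + 2 * h.toLin.wLz3W + h.toLin.wLz3S
    + (1 / 2) * h.toLin.wTt1N + (1 / 2) * h.toLin.wTt1W + (1 / 2) * h.toLin.wBt2S
    + (1 / 2) * h.toLin.wBt2E + 2 * h.toLin.wRk1N + 2 * h.toLin.wRk1E + 2 * h.toLin.wLk3W
    + 2 * h.toLin.wLk3S + h.c3 + (3 / 2) * e.2.1 + (27 / 2) * h0

theorem rtQu1 (h : Lin2 τ c) (e : CsQ c) (hτ : 0 ≤ τ) (h0 : τ ≤ 1 / 10 ^ 7) :
    c.z1Ey - c.p4y ≤ 3 := by
  linear_combination
    (8287 / 31625) * h.toLin.p2_p1 + (169 / 1012) * h.toLin.p2_z1Nv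
    + (69279 / 126500) * h.toLin.p2_z3Wv + (1108 / 1375) * h.toLin.p2_k1Nv
    + (217604 / 664125) * h.toLin.p2_k3Wv + (242824 / 664125) * h.toLin.p2_eW1
    + (544 / 1725) * h.toLin.p4_p1 + (89633 / 189750) * h.toLin.p4_z3Sv
    + (16624 / 18975) * h.toLin.p4_k1Ev + (626 / 1375) * h.toLin.p4_k3Sv
    + (13426 / 94875) * h.toLin.p4_eS2 + (533 / 10350) * h.toLin.p1_p3
    + (2197 / 7590) * h.toLin.p1_z1Nu + (5393 / 7590) * h.toLin.p1_z1Eu
    + (1552 / 94875) * h.toLin.p1_k2Nv + (5024 / 18975) * h.toLin.p1_eN2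
    + (2704 / 11385) * h.toLin.p1_hWv + (416 / 1725) * h.toLin.p3_gS
    + (1352 / 1035) * h.toLin.p3_hW + (1352 / 3795) * h.toLin.z3W_hWu
    + (19963 / 94875) * h.toLin.z3S_t2S + (13426 / 94875) * h.toLin.z3S_eS2
    + (4576 / 8625) * h.toLin.z3S_gSh + (2996 / 3795) * h.toLin.t1N_k1N
    + (12764 / 31625) * h.toLin.t1W_k2W + (26852 / 94875) * h.toLin.t1S_eS2
    + (6656 / 25875) * h.toLin.t1S_gSh + (626 / 1375) * h.toLin.t2S_k3S
    + (16624 / 18975) * h.toLin.t2E_k1E + (1552 / 94875) * h.toLin.k1N_k2N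
    + (5024 / 18975) * h.toLin.k1N_eN2 + (5024 / 6325) * h.toLin.k2N_eN2
    + (22414 / 94875) * h.toLin.k2W_k3W + (121412 / 94875) * h.toLin.k2W_eW1
    + (121412 / 664125) * h.toLin.k3W_eW1 + (2366 / 3795) * h.toLin.wRz1N
    + (5393 / 7590) * h.toLin.wRz1E + (139831 / 94875) * h.toLin.wLz3W
    + (216287 / 189750) * h.toLin.wLz3S + (1498 / 3795) * h.toLin.wTt1N
    + (6382 / 31625) * h.toLin.wLt1W + (6382 / 31625) * h.toLin.wLt1S
    + (1498 / 3795) * h.toLin.wBt1S + (8312 / 18975) * h.toLin.wBt2S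
    + (8312 / 18975) * h.toLin.wBt2E + (33248 / 18975) * h.toLin.wRk1N
    + (33248 / 18975) * h.toLin.wRk1E + (8312 / 18975) * h.toLin.wTk2N
    + (8312 / 18975) * h.toLin.wTk2W + (1252 / 1375) * h.toLin.wLk3W
    + (1252 / 1375) * h.toLin.wLk3S + (2197 / 7590) * h.toLin.wl + (169 / 506) * h.c3
    + (169 / 506) * e.2.1 + (1737991 / 113850) * h0

theorem rtQl1 (h : Lin2 τ c) (e : CsQ c) (hτ : 0 ≤ τ) (h0 : τ ≤ 1 / 10 ^ 7) :
    (-17 / 4) ≤ c.z1Ey - c.p4y := by
  linear_combination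
    (9611 / 22560) * h.toLin.p2_p4 + (109 / 376) * h.toLin.p2_p3 + (3015 / 1504) * h.toLin.p2_z3Wu
    + (2843 / 2632) * h.toLin.p2_k3Wv + (34 / 167) * h.toLin.p2_eN1
    + (737 / 1316) * h.toLin.p2_eW1 + (213737 / 54943) * h.toLin.p2_gN
    + (769 / 19740) * h.toLin.p2_hN + (1487 / 3008) * h.toLin.p4_p1
    + (11643 / 6016) * h.toLin.p4_z1Eu + (5835 / 6016) * h.toLin.p4_z3Sv
    + (63 / 47) * h.toLin.p4_k3Sv + (769 / 2820) * h.toLin.p4_hNv
    + (1487 / 3008) * h.toLin.p1_z1Nu + (15 / 376) * h.toLin.p3_z3Wu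
    + (17 / 3008) * h.toLin.p3_z3Su + (15 / 47) * h.toLin.p3_gS + (1487 / 47) * h.toLin.z1N_gNh
    + h.toLin.z1E_t2E + (15 / 376) * h.toLin.z3W_k2W + (17 / 47) * h.toLin.z3S_gSh
    + 2 * h.toLin.t2S_k3S + (17 / 20) * h.toLin.k2N_eN1 + (4 / 5) * h.toLin.k2N_gNh
    + (707 / 752) * h.toLin.k2W_k3W + (737 / 376) * h.toLin.k2W_eW1
    + (737 / 2632) * h.toLin.k3W_eW1 + (32 / 47) * h.toLin.k3S_gSh + (68 / 835) * h.toLin.eN1_gN
    + (6152 / 17437) * h.toLin.gN_hN + (1487 / 188) * h.toLin.wRz1N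
    + (11643 / 3008) * h.toLin.wRz1E + (765 / 188) * h.toLin.wLz3W + (6107 / 3008) * h.toLin.wLz3S
    + h.toLin.wBt2S + h.toLin.wBt2E + h.toLin.wTk2N + h.toLin.wTk2W + (267 / 94) * h.toLin.wLk3W
    + (267 / 94) * h.toLin.wLk3S + (6167 / 3008) * h.c3 + (32967 / 6016) * e.2.1
    + (53487894373 / 931833280) * h0

theorem rtQu2 (h : Lin2 τ c) (e : CsQ c) (hτ : 0 ≤ τ) (h0 : τ ≤ 1 / 10 ^ 7) :
    c.z3Wy - c.p2y ≤ (11 / 4) := by
  linear_combination
    (90615 / 1016501) * h.toLin.p2_p3 + (2513095 / 4066004) * h.toLin.p2_z1Nv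
    + (1394297 / 2033002) * h.toLin.p2_z3Wv + (90655 / 1016501) * h.toLin.p2_k1Nv
    + (12454 / 1016501) * h.toLin.p2_k3Wv + (102240 / 11181511) * h.toLin.p2_eN1
    + (708040 / 11181511) * h.toLin.p2_hN + (965381 / 2033002) * h.toLin.p4_p1
    + (676674 / 1016501) * h.toLin.p4_z3Sv + (215410 / 1016501) * h.toLin.p4_k1Ev
    + (12680 / 27473) * h.toLin.p4_hNv + (965381 / 2033002) * h.toLin.p1_z1Nu
    + (6866 / 1016501) * h.toLin.p3_z3Wu + (5112 / 1016501) * h.toLin.p3_k2Wv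
    + (106048 / 1016501) * h.toLin.p3_gS + (1064576 / 1016501) * h.toLin.z1N_gNh
    + (932113 / 2033002) * h.toLin.z1E_t2E + (1114621 / 2033002) * h.toLin.z3W_t1W
    + (13899797 / 30495030) * h.toLin.z3S_t2S + (2620736 / 15247515) * h.toLin.z3S_gSh
    + (1121963 / 1016501) * h.toLin.t1N_k1N + (7342 / 1016501) * h.toLin.t1W_k3W
    + (25560 / 1016501) * h.toLin.t2N_k2N + (1702768 / 15247515) * h.toLin.t2S_k3S
    + (54528 / 1016501) * h.toLin.t2S_gSh + (215410 / 1016501) * h.toLin.t2E_k1E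
    + (1064576 / 1016501) * h.toLin.k1N_gNh + (51120 / 1016501) * h.toLin.k2N_eN1
    + (5112 / 1016501) * h.toLin.k2W_k3W + (1757696 / 15247515) * h.toLin.k3S_gSh
    + (40896 / 11181511) * h.toLin.eN1_hN + (31937280 / 53874553) * h.toLin.gN_hN
    + (1988748 / 1016501) * h.toLin.wRz1N + (1401163 / 1016501) * h.toLin.wLz3W
    + (1394297 / 1016501) * h.toLin.wLz3S + (1121963 / 2033002) * h.toLin.wTt1N
    + (1121963 / 2033002) * h.toLin.wTt1W + (12780 / 1016501) * h.toLin.wRt2N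
    + (12780 / 1016501) * h.toLin.wLt2S + (1147523 / 2033002) * h.toLin.wBt2S
    + (1147523 / 2033002) * h.toLin.wBt2E + (430820 / 1016501) * h.toLin.wRk1N
    + (430820 / 1016501) * h.toLin.wRk1E + (12780 / 1016501) * h.toLin.wTk2N
    + (12780 / 1016501) * h.toLin.wTk2W + (27464 / 1016501) * h.toLin.wLk3W
    + (27464 / 1016501) * h.toLin.wLk3S + (932113 / 2033002) * h.toLin.wl
    + (1023367 / 1016501) * h.c3 + (3012115 / 2033002) * e.2.1 + (130235530189 / 11852401660) * h0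

theorem rtQl2 (h : Lin2 τ c) (e : CsQ c) (hτ : 0 ≤ τ) (h0 : τ ≤ 1 / 10 ^ 7) :
    (-7 / 2) ≤ c.z3Wy - c.p2y := by
  linear_combination
    (2547880 / 6418601) * h.toLin.p2_p3 + (156337 / 916943) * h.toLin.p2_z1Nv
    + (4953517 / 12837202) * h.toLin.p2_z3Wu + (45058214 / 44930207) * h.toLin.p2_k1Nv
    + (22374430 / 44930207) * h.toLin.p2_k3Wv + (16094504 / 44930207) * h.toLin.p2_eN1
    + (22637556 / 44930207) * h.toLin.p2_eW1 + (386338045 / 436464868) * h.toLin.p4_p3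
    + (971713 / 6418601) * h.toLin.p4_z3Sv + (8047252 / 6418601) * h.toLin.p4_k1Ev
    + (3897716 / 6418601) * h.toLin.p4_k3Sv + (1635763 / 12837202) * h.toLin.p4_eS2
    + (1431544 / 15588031) * h.toLin.p4_hNv + h.toLin.p3_z3Wu
    + (71111 / 12837202) * h.toLin.p3_z3Su + (1635763 / 12837202) * h.toLin.p3_eS2
    + (2007840 / 6418601) * h.toLin.p3_gS + (214376 / 15588031) * h.toLin.p3_hNv
    + (211328 / 916943) * h.toLin.z1N_gNh + (4064 / 916943) * h.toLin.z1N_hNu
    + (2275552 / 6418601) * h.toLin.z3S_gSh + (3271526 / 6418601) * h.toLin.t1N_k1N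
    + (3271526 / 6418601) * h.toLin.t1W_k2W + (3271526 / 6418601) * h.toLin.t1S_eS2
    + (8047252 / 6418601) * h.toLin.t2S_k3S + (8047252 / 6418601) * h.toLin.t2E_k1E
    + (4023626 / 6418601) * h.toLin.k1N_k2N + (8047252 / 44930207) * h.toLin.k1N_eN1
    + (211328 / 916943) * h.toLin.k1N_gNh + (8047252 / 6418601) * h.toLin.k2N_eN1
    + (2387863 / 6418601) * h.toLin.k2W_k3W + (11318778 / 6418601) * h.toLin.k2W_eW1
    + (11318778 / 44930207) * h.toLin.k3W_eW1 + (4283392 / 6418601) * h.toLin.k3S_gSh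
    + (6339840 / 48597979) * h.toLin.gN_hN + (366522 / 916943) * h.toLin.wRz1N
    + (11372118 / 6418601) * h.toLin.wLz3W + (358902 / 916943) * h.toLin.wLz3S
    + (1635763 / 6418601) * h.toLin.wTt1N + (1635763 / 6418601) * h.toLin.wLt1W
    + (1635763 / 6418601) * h.toLin.wLt1S + (1635763 / 6418601) * h.toLin.wBt1S
    + (4023626 / 6418601) * h.toLin.wBt2S + (4023626 / 6418601) * h.toLin.wBt2E
    + (16094504 / 6418601) * h.toLin.wRk1N + (16094504 / 6418601) * h.toLin.wRk1E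
    + (4023626 / 6418601) * h.toLin.wTk2N + (4023626 / 6418601) * h.toLin.wTk2W
    + (8799352 / 6418601) * h.toLin.wLk3W + (8799352 / 6418601) * h.toLin.wLk3S
    + (358902 / 916943) * h.c3 + (362712 / 916943) * e.2.1 + (425300147101 / 23132638004) * h0

theorem rtQu3 (h : Lin2 τ c) (e : CsQ c) (hτ : 0 ≤ τ) (h0 : τ ≤ 1 / 10 ^ 7) :
    c.z3Sy - c.p4y ≤ (9 / 4) := by
  linear_combination
    (18 / 25) * h.toLin.p2_p3 + (1326 / 2725) * h.toLin.p2_z1Nv
    + (13411 / 38150) * h.toLin.p2_k1Nv + (199 / 350) * h.toLin.p2_k3Wv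
    + (7992 / 19075) * h.toLin.p2_eN1 + (48 / 175) * h.toLin.p2_eW1
    + (2653 / 5450) * h.toLin.p4_k1Ev + (1 / 2) * h.toLin.p4_k3Sv + (12 / 25) * h.toLin.p4_eS2
    + (1152 / 2725) * h.toLin.p4_gE + (11 / 300) * h.toLin.p1_p3 + (11 / 100) * h.toLin.p1_z1Eu
    + (44 / 75) * h.toLin.p1_hN + (13 / 100) * h.toLin.p3_z3Wu + (87 / 100) * h.toLin.p3_z3Su
    + (8 / 75) * h.toLin.p3_hNv + (4 / 25) * h.toLin.z1N_hNu + (2604 / 13625) * h.toLin.z1E_t2E
    + (42624 / 13625) * h.toLin.z1E_gEu + (1 / 50) * h.toLin.t1N_k1N + (1 / 50) * h.toLin.t1W_k3W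
    + (276 / 545) * h.toLin.t2N_k2N + (1 / 2) * h.toLin.t2S_k3S + (12 / 25) * h.toLin.t2S_eS2
    + (2653 / 5450) * h.toLin.t2E_k1E + (768 / 13625) * h.toLin.t2E_gEh
    + (618 / 2725) * h.toLin.k1N_k2N + (3996 / 19075) * h.toLin.k1N_eN1
    + (3996 / 2725) * h.toLin.k2N_eN1 + (12 / 25) * h.toLin.k2W_k3W + (24 / 25) * h.toLin.k2W_eW1
    + (24 / 175) * h.toLin.k3W_eW1 + (24 / 25) * h.toLin.k3S_eS2 + (12461 / 10900) * h.toLin.wRz1N
    + (9191 / 10900) * h.toLin.wRz1E + (13 / 100) * h.toLin.wLz3W + (87 / 100) * h.toLin.wLz3S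
    + (1 / 100) * h.toLin.wTt1N + (1 / 100) * h.toLin.wTt1W + (138 / 545) * h.toLin.wRt2N
    + (6 / 25) * h.toLin.wLt2S + (49 / 100) * h.toLin.wBt2S + (36 / 2725) * h.toLin.wRt2E
    + (49 / 100) * h.toLin.wBt2E + (2653 / 2725) * h.toLin.wRk1N + (2653 / 2725) * h.toLin.wRk1E
    + (12 / 25) * h.toLin.wTk2N + (12 / 25) * h.toLin.wTk2W + (37 / 25) * h.toLin.wLk3W
    + (37 / 25) * h.toLin.wLk3S + (13 / 100) * h.toLin.wl + (16409 / 27250) * e.2.1
    + (225336 / 13625) * h0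

theorem rtQl3 (h : Lin2 τ c) (e : CsQ c) (hτ : 0 ≤ τ) (h0 : τ ≤ 1 / 10 ^ 7) :
    (-5 / 2) ≤ c.z3Sy - c.p4y := by
  linear_combination
    (189313 / 173628) * h.toLin.p2_z1Nv + (136 / 117) * h.toLin.p2_z3Wu
    + (883 / 14469) * h.toLin.p2_k1Nv + (4 / 117) * h.toLin.p2_eW1
    + (1000 / 14469) * h.toLin.p2_hN + (23 / 78) * h.toLin.p4_p1 + (1 / 13) * h.toLin.p4_p3
    + (47 / 78) * h.toLin.p4_z3Sv + (8 / 39) * h.toLin.p4_k1Ev + (8 / 13) * h.toLin.p4_hNv
    + (23 / 78) * h.toLin.p1_z1Nu + (1 / 13) * h.toLin.p3_z3Wu + (2617 / 9646) * h.toLin.z1N_t2N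
    + (21824 / 14469) * h.toLin.z1N_gNh + (8 / 117) * h.toLin.z3W_k2W
    + (4 / 351) * h.toLin.z3W_eW1 + (18119 / 28938) * h.toLin.z3S_t1S
    + (10819 / 28938) * h.toLin.z3S_t2S + (18119 / 14469) * h.toLin.t1N_k1N
    + (8 / 39) * h.toLin.t2E_k1E + (17792 / 14469) * h.toLin.k1N_gNh + (8 / 39) * h.toLin.k2N_eN2
    + (16 / 117) * h.toLin.k2W_eW1 + (64 / 689) * h.toLin.eN2_gN + (272 / 6201) * h.toLin.eN2_hN
    + (190464 / 255619) * h.toLin.gN_hN + (331 / 117) * h.toLin.wRz1N + (22 / 9) * h.toLin.wLz3W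
    + (47 / 39) * h.toLin.wLz3S + (18119 / 28938) * h.toLin.wTt1N
    + (18119 / 28938) * h.toLin.wBt1S + (2617 / 9646) * h.toLin.wTt2N
    + (10819 / 28938) * h.toLin.wBt2S + (4 / 39) * h.toLin.wBt2E + (16 / 39) * h.toLin.wRk1N
    + (16 / 39) * h.toLin.wRk1E + (4 / 39) * h.toLin.wTk2N + (4 / 39) * h.toLin.wTk2W
    + (262 / 117) * h.c3 + (593 / 234) * e.2.1 + (375266623 / 27606852) * h0

theorem rtQu4 (h : Lin2 τ c) (e : CsQ c) (hτ : 0 ≤ τ) (h0 : τ ≤ 1 / 10 ^ 7) :
    c.s1 ≤ (7 / 4) := by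
  linear_combination
    (398601 / 1268654) * h.toLin.p2_p3 + (3580321 / 3805962) * h.toLin.p2_z1Nv
    + (2610916 / 3171635) * h.toLin.p2_z3Wu + (410259 / 1268654) * h.toLin.p2_k1Nv
    + (1590833 / 6343270) * h.toLin.p2_k3Wv + (100478 / 1902981) * h.toLin.p2_eW1
    + (235549 / 19029810) * h.toLin.p4_p1 + (3533369 / 9514905) * h.toLin.p4_z3Sv
    + (496689 / 1268654) * h.toLin.p4_k1Ev + (3596569 / 19029810) * h.toLin.p4_k3Sv
    + (34272 / 634327) * h.toLin.p4_gE + (466672 / 1902981) * h.toLin.p4_hNv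
    + (235549 / 19029810) * h.toLin.p1_z1Nu + (27972 / 634327) * h.toLin.p3_z3Wu
    + (223776 / 634327) * h.toLin.p3_gS + (3733376 / 9514905) * h.toLin.z1N_gNh
    + (1268064 / 3171635) * h.toLin.z1E_gEu + (234542 / 9514905) * h.toLin.z3W_t1W
    + (100478 / 5708943) * h.toLin.z3W_eW1 + (1268064 / 3171635) * h.toLin.z3S_gSh
    + (13387301 / 19029810) * h.toLin.t1N_k1N + (2762939 / 19029810) * h.toLin.t1W_k3W
    + (4843097 / 9514905) * h.toLin.t1S_k3S + (2142 / 634327) * h.toLin.t2N_eN2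
    + (2594829 / 6343270) * h.toLin.t2S_k3S + (496689 / 1268654) * h.toLin.t2E_k1E
    + (22848 / 3171635) * h.toLin.t2E_gEh + (56192 / 634327) * h.toLin.k1N_eN2
    + (3733376 / 9514905) * h.toLin.k1N_gNh + (401912 / 1902981) * h.toLin.k2N_eN2
    + (200956 / 1902981) * h.toLin.k2W_k3W + (401912 / 1902981) * h.toLin.k2W_eW1
    + (2386944 / 3171635) * h.toLin.k3S_gSh + (466672 / 5708943) * h.toLin.eN2_hN
    + (7466752 / 33619331) * h.toLin.gN_hN + (37788779 / 19029810) * h.toLin.wRz1N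
    + (118881 / 1268654) * h.toLin.wRz1E + (32421347 / 19029810) * h.toLin.wLz3W
    + (15916691 / 19029810) * h.toLin.wLz3S + (13387301 / 38059620) * h.toLin.wTt1N
    + (3701107 / 38059620) * h.toLin.wTt1W + (4843097 / 19029810) * h.toLin.wBt1S
    + (1071 / 634327) * h.toLin.wRt2N + (1071 / 634327) * h.toLin.wTt2N
    + (2594829 / 12686540) * h.toLin.wBt2S + (1071 / 634327) * h.toLin.wRt2E
    + (2573409 / 12686540) * h.toLin.wBt2E + (496689 / 634327) * h.toLin.wRk1N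
    + (496689 / 634327) * h.toLin.wRk1E + (200956 / 1902981) * h.toLin.wTk2N
    + (200956 / 1902981) * h.toLin.wTk2W + (5274889 / 9514905) * h.toLin.wLk3W
    + (5274889 / 9514905) * h.toLin.wLk3S + (39627 / 6343270) * h.toLin.wl
    + (2750776 / 3171635) * h.c3 + (18301091 / 9514905) * e.2.1 + (360184720 / 33619331) * h0

theorem bbQ (h : Lin2 τ c) (e : CsQ c) (hτ : 0 ≤ τ) (h0 : τ ≤ 1 / 10 ^ 7) :
    NearI c ∨ NearII c := by
  have u0 := rtQu0 h e hτ h0
  have l0 := rtQl0 h e hτ h0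
  have u1 := rtQu1 h e hτ h0
  have l1 := rtQl1 h e hτ h0
  have u2 := rtQu2 h e hτ h0
  have l2 := rtQl2 h e hτ h0
  have u3 := rtQu3 h e hτ h0
  have l3 := rtQl3 h e hτ h0
  have u4 := rtQu4 h e hτ h0
  have l4 : 0 ≤ c.s1 := e.2.2
  rcases le_total (c.z1Ey - c.p4y) (-7 / 2) with u1 | l1
  · rcases le_total (c.z3Wy - c.p2y) (1 / 2) with u2 | l2
    · rcases le_total (c.z3Sy - c.p4y) (1 / 2) with u3 | l3
      · rcases le_total (c.z1Ny - c.p2y) (1 / 4) with u0 | l0
        · rcases le_total (c.z3Wy - c.p2y) (-1 / 2) with u2 | l2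
          · exact (lfQ0 h e hτ h0 l0 u0 l1 u1 l2 u2 l3 u3 l4 u4).elim
          · rcases le_total (c.z3Sy - c.p4y) (-1 / 2) with u3 | l3
            · exact (lfQ1 h e hτ h0 l0 u0 l1 u1 l2 u2 l3 u3 l4 u4).elim
            · rcases le_total (c.z1Ny - c.p2y) (-1 / 2) with u0 | l0
              · exact (lfQ2 h e hτ h0 l0 u0 l1 u1 l2 u2 l3 u3 l4 u4).elim
              · rcases le_total (c.s1) (1 / 2) with u4 | l4
                · exact .inl ⟨by linarith only [l0], by linarith only [u0], by linarith only [l1], by linarith only [u1], by linarith only [l2], by linarith only [u2], by linarith only [l3], by linarith only [u3], by linarith only [l4], by linarith only [u4]⟩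
                · exact (lfQ3 h e hτ h0 l0 u0 l1 u1 l2 u2 l3 u3 l4 u4).elim
        · rcases le_total (c.z3Wy - c.p2y) (-3 / 8) with u2 | l2
          · rcases le_total (c.z3Wy - c.p2y) (-5 / 8) with u2 | l2
            · exact (lfQ4 h e hτ h0 l0 u0 l1 u1 l2 u2 l3 u3 l4 u4).elim
            · rcases le_total (c.z3Sy - c.p4y) (-11 / 8) with u3 | l3
              · rcases le_total (c.z1Ny - c.p2y) (13 / 8) with u0 | l0
                · rcases le_total (c.s1) (5 / 8) with u4 | l4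
                  · rcases le_total (c.z1Ny - c.p2y) (11 / 8) with u0 | l0
                    · exact (lfQ5 h e hτ h0 l0 u0 l1 u1 l2 u2 l3 u3 l4 u4).elim
                    · rcases le_total (c.z3Sy - c.p4y) (-13 / 8) with u3 | l3
                      · exact (lfQ6 h e hτ h0 l0 u0 l1 u1 l2 u2 l3 u3 l4 u4).elim
                      · rcases le_total (c.z1Ey - c.p4y) (-29 / 8) with u1 | l1
                        · exact (lfQ7 h e hτ h0 l0 u0 l1 u1 l2 u2 l3 u3 l4 u4).elim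
                        · rcases le_total (c.s1) (3 / 8) with u4 | l4
                          · exact (lfQ8 h e hτ h0 l0 u0 l1 u1 l2 u2 l3 u3 l4 u4).elim
                          · exact .inr ⟨by linarith only [l0], by linarith only [u0], by linarith only [l1], by linarith only [u1], by linarith only [l2], by linarith only [u2], by linarith only [l3], by linarith only [u3], by linarith only [l4], by linarith only [u4]⟩
                  · exact (lfQ9 h e hτ h0 l0 u0 l1 u1 l2 u2 l3 u3 l4 u4).elim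
                · exact (lfQ10 h e hτ h0 l0 u0 l1 u1 l2 u2 l3 u3 l4 u4).elim
              · rcases le_total (c.z1Ny - c.p2y) (19 / 16) with u0 | l0
                · exact (lfQ11 h e hτ h0 l0 u0 l1 u1 l2 u2 l3 u3 l4 u4).elim
                · rcases le_total (c.s1) (5 / 8) with u4 | l4
                  · exact (lfQ12 h e hτ h0 l0 u0 l1 u1 l2 u2 l3 u3 l4 u4).elim
                  · exact (lfQ13 h e hτ h0 l0 u0 l1 u1 l2 u2 l3 u3 l4 u4).elim
          · rcases le_total (c.z3Sy - c.p4y) (-17 / 16) with u3 | l3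
            · rcases le_total (c.z1Ny - c.p2y) (21 / 16) with u0 | l0
              · exact (lfQ14 h e hτ h0 l0 u0 l1 u1 l2 u2 l3 u3 l4 u4).elim
              · exact (lfQ15 h e hτ h0 l0 u0 l1 u1 l2 u2 l3 u3 l4 u4).elim
            · rcases le_total (c.z1Ny - c.p2y) (1 / 2) with u0 | l0
              · rcases le_total (c.s1) (1 / 2) with u4 | l4
                · rcases le_total (c.z3Sy - c.p4y) (-1 / 2) with u3 | l3
                  · exact (lfQ16 h e hτ h0 l0 u0 l1 u1 l2 u2 l3 u3 l4 u4).elim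
                  · exact .inl ⟨by linarith only [l0], by linarith only [u0], by linarith only [l1], by linarith only [u1], by linarith only [l2], by linarith only [u2], by linarith only [l3], by linarith only [u3], by linarith only [l4], by linarith only [u4]⟩
                · exact (lfQ17 h e hτ h0 l0 u0 l1 u1 l2 u2 l3 u3 l4 u4).elim
              · rcases le_total (c.s1) (1 / 2) with u4 | l4
                · rcases le_total (c.z1Ny - c.p2y) (5 / 4) with u0 | l0
                  · rcases le_total (c.z3Sy - c.p4y) (-1 / 2) with u3 | l3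
                    · exact (lfQ18 h e hτ h0 l0 u0 l1 u1 l2 u2 l3 u3 l4 u4).elim
                    · exact (lfQ19 h e hτ h0 l0 u0 l1 u1 l2 u2 l3 u3 l4 u4).elim
                  · exact (lfQ20 h e hτ h0 l0 u0 l1 u1 l2 u2 l3 u3 l4 u4).elim
                · exact (lfQ21 h e hτ h0 l0 u0 l1 u1 l2 u2 l3 u3 l4 u4).elim
      · exact (lfQ22 h e hτ h0 l0 u0 l1 u1 l2 u2 l3 u3 l4 u4).elim
    · rcases le_total (c.z3Sy - c.p4y) (1 / 2) with u3 | l3
      · rcases le_total (c.z1Ny - c.p2y) (1 / 2) with u0 | l0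
        · rcases le_total (c.z3Sy - c.p4y) (-1 / 2) with u3 | l3
          · exact (lfQ23 h e hτ h0 l0 u0 l1 u1 l2 u2 l3 u3 l4 u4).elim
          · exact (lfQ24 h e hτ h0 l0 u0 l1 u1 l2 u2 l3 u3 l4 u4).elim
        · exact (lfQ25 h e hτ h0 l0 u0 l1 u1 l2 u2 l3 u3 l4 u4).elim
      · exact (lfQ26 h e hτ h0 l0 u0 l1 u1 l2 u2 l3 u3 l4 u4).elim
  · rcases le_total (c.z1Ey - c.p4y) (-15 / 16) with u1 | l1
    · rcases le_total (c.z3Wy - c.p2y) (1 / 2) with u2 | l2
      · rcases le_total (c.z3Sy - c.p4y) 0 with u3 | l3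
        · rcases le_total (c.z1Ny - c.p2y) (5 / 16) with u0 | l0
          · rcases le_total (c.z3Wy - c.p2y) (-13 / 8) with u2 | l2
            · rcases le_total (c.z1Ny - c.p2y) (-9 / 8) with u0 | l0
              · exact (lfQ27 h e hτ h0 l0 u0 l1 u1 l2 u2 l3 u3 l4 u4).elim
              · exact (lfQ28 h e hτ h0 l0 u0 l1 u1 l2 u2 l3 u3 l4 u4).elim
            · rcases le_total (c.z3Sy - c.p4y) (-25 / 16) with u3 | l3
              · exact (lfQ29 h e hτ h0 l0 u0 l1 u1 l2 u2 l3 u3 l4 u4).elim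
              · exact (lfQ30 h e hτ h0 l0 u0 l1 u1 l2 u2 l3 u3 l4 u4).elim
          · rcases le_total (c.z3Wy - c.p2y) (-3 / 8) with u2 | l2
            · rcases le_total (c.z3Sy - c.p4y) (-25 / 16) with u3 | l3
              · rcases le_total (c.z1Ny - c.p2y) (21 / 16) with u0 | l0
                · rcases le_total (c.z3Wy - c.p2y) (-21 / 16) with u2 | l2
                  · exact (lfQ31 h e hτ h0 l0 u0 l1 u1 l2 u2 l3 u3 l4 u4).elim
                  · rcases le_total (c.z1Ey - c.p4y) (-45 / 16) with u1 | l1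
                    · rcases le_total (c.z3Sy - c.p4y) (-31 / 16) with u3 | l3
                      · exact (lfQ32 h e hτ h0 l0 u0 l1 u1 l2 u2 l3 u3 l4 u4).elim
                      · exact (lfQ33 h e hτ h0 l0 u0 l1 u1 l2 u2 l3 u3 l4 u4).elim
                    · exact (lfQ34 h e hτ h0 l0 u0 l1 u1 l2 u2 l3 u3 l4 u4).elim
                · rcases le_total (c.z3Wy - c.p2y) (-5 / 4) with u2 | l2
                  · exact (lfQ35 h e hτ h0 l0 u0 l1 u1 l2 u2 l3 u3 l4 u4).elim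
                  · rcases le_total (c.z1Ey - c.p4y) (-45 / 16) with u1 | l1
                    · rcases le_total (c.z3Sy - c.p4y) (-31 / 16) with u3 | l3
                      · exact (lfQ36 h e hτ h0 l0 u0 l1 u1 l2 u2 l3 u3 l4 u4).elim
                      · rcases le_total (c.s1) (5 / 8) with u4 | l4
                        · rcases le_total (c.z1Ny - c.p2y) (13 / 8) with u0 | l0
                          · rcases le_total (c.z3Wy - c.p2y) (-5 / 8) with u2 | l2
                            · exact (lfQ37 h e hτ h0 l0 u0 l1 u1 l2 u2 l3 u3 l4 u4).elim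
                            · rcases le_total (c.z1Ey - c.p4y) (-27 / 8) with u1 | l1
                              · rcases le_total (c.s1) (3 / 8) with u4 | l4
                                · exact (lfQ38 h e hτ h0 l0 u0 l1 u1 l2 u2 l3 u3 l4 u4).elim
                                · rcases le_total (c.z3Sy - c.p4y) (-13 / 8) with u3 | l3
                                  · rcases le_total (c.z1Ny - c.p2y) (11 / 8) with u0 | l0
                                    · exact (lfQ39 h e hτ h0 l0 u0 l1 u1 l2 u2 l3 u3 l4 u4).elim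
                                    · rcases le_total (c.z1Ny - c.p2y) (3 / 2) with u0 | l0
                                      · rcases le_total (c.z3Wy - c.p2y) (-1 / 2) with u2 | l2
                                        · exact (lfQ40 h e hτ h0 l0 u0 l1 u1 l2 u2 l3 u3 l4 u4).elim
                                        · exact (lfQ41 h e hτ h0 l0 u0 l1 u1 l2 u2 l3 u3 l4 u4).elim
                                      · exact (lfQ42 h e hτ h0 l0 u0 l1 u1 l2 u2 l3 u3 l4 u4).elim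
                                  · rcases le_total (c.z1Ny - c.p2y) (11 / 8) with u0 | l0
                                    · exact (lfQ43 h e hτ h0 l0 u0 l1 u1 l2 u2 l3 u3 l4 u4).elim
                                    · exact .inr ⟨by linarith only [l0], by linarith only [u0], by linarith only [l1], by linarith only [u1], by linarith only [l2], by linarith only [u2], by linarith only [l3], by linarith only [u3], by linarith only [l4], by linarith only [u4]⟩
                              · exact (lfQ44 h e hτ h0 l0 u0 l1 u1 l2 u2 l3 u3 l4 u4).elim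
                          · exact (lfQ45 h e hτ h0 l0 u0 l1 u1 l2 u2 l3 u3 l4 u4).elim
                        · rcases le_total (c.z3Wy - c.p2y) (-3 / 4) with u2 | l2
                          · exact (lfQ46 h e hτ h0 l0 u0 l1 u1 l2 u2 l3 u3 l4 u4).elim
                          · rcases le_total (c.s1) (7 / 8) with u4 | l4
                            · rcases le_total (c.z1Ey - c.p4y) (-13 / 4) with u1 | l1
                              · exact (lfQ47 h e hτ h0 l0 u0 l1 u1 l2 u2 l3 u3 l4 u4).elim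
                              · exact (lfQ48 h e hτ h0 l0 u0 l1 u1 l2 u2 l3 u3 l4 u4).elim
                            · exact (lfQ49 h e hτ h0 l0 u0 l1 u1 l2 u2 l3 u3 l4 u4).elim
                    · exact (lfQ50 h e hτ h0 l0 u0 l1 u1 l2 u2 l3 u3 l4 u4).elim
              · rcases le_total (c.z3Wy - c.p2y) (-5 / 8) with u2 | l2
                · rcases le_total (c.z1Ey - c.p4y) (-27 / 8) with u1 | l1
                  · rcases le_total (c.z1Ny - c.p2y) (13 / 8) with u0 | l0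
                    · exact (lfQ51 h e hτ h0 l0 u0 l1 u1 l2 u2 l3 u3 l4 u4).elim
                    · exact (lfQ52 h e hτ h0 l0 u0 l1 u1 l2 u2 l3 u3 l4 u4).elim
                  · rcases le_total (c.z1Ny - c.p2y) (13 / 8) with u0 | l0
                    · exact (lfQ53 h e hτ h0 l0 u0 l1 u1 l2 u2 l3 u3 l4 u4).elim
                    · exact (lfQ54 h e hτ h0 l0 u0 l1 u1 l2 u2 l3 u3 l4 u4).elim
                · rcases le_total (c.z1Ey - c.p4y) (-27 / 8) with u1 | l1
                  · rcases le_total (c.z1Ny - c.p2y) (13 / 8) with u0 | l0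
                    · rcases le_total (c.s1) (5 / 8) with u4 | l4
                      · rcases le_total (c.z3Sy - c.p4y) (-11 / 8) with u3 | l3
                        · rcases le_total (c.z1Ny - c.p2y) (11 / 8) with u0 | l0
                          · exact (lfQ55 h e hτ h0 l0 u0 l1 u1 l2 u2 l3 u3 l4 u4).elim
                          · rcases le_total (c.s1) (3 / 8) with u4 | l4
                            · exact (lfQ56 h e hτ h0 l0 u0 l1 u1 l2 u2 l3 u3 l4 u4).elim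
                            · exact .inr ⟨by linarith only [l0], by linarith only [u0], by linarith only [l1], by linarith only [u1], by linarith only [l2], by linarith only [u2], by linarith only [l3], by linarith only [u3], by linarith only [l4], by linarith only [u4]⟩
                        · exact (lfQ57 h e hτ h0 l0 u0 l1 u1 l2 u2 l3 u3 l4 u4).elim
                      · exact (lfQ58 h e hτ h0 l0 u0 l1 u1 l2 u2 l3 u3 l4 u4).elim
                    · exact (lfQ59 h e hτ h0 l0 u0 l1 u1 l2 u2 l3 u3 l4 u4).elim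
                  · rcases le_total (c.z1Ny - c.p2y) (13 / 8) with u0 | l0
                    · exact (lfQ60 h e hτ h0 l0 u0 l1 u1 l2 u2 l3 u3 l4 u4).elim
                    · exact (lfQ61 h e hτ h0 l0 u0 l1 u1 l2 u2 l3 u3 l4 u4).elim
            · rcases le_total (c.z1Ey - c.p4y) (-27 / 8) with u1 | l1
              · rcases le_total (c.z3Sy - c.p4y) (-21 / 16) with u3 | l3
                · rcases le_total (c.z1Ny - c.p2y) (13 / 8) with u0 | l0
                  · exact (lfQ62 h e hτ h0 l0 u0 l1 u1 l2 u2 l3 u3 l4 u4).elim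
                  · exact (lfQ63 h e hτ h0 l0 u0 l1 u1 l2 u2 l3 u3 l4 u4).elim
                · rcases le_total (c.z1Ny - c.p2y) (21 / 16) with u0 | l0
                  · exact (lfQ64 h e hτ h0 l0 u0 l1 u1 l2 u2 l3 u3 l4 u4).elim
                  · exact (lfQ65 h e hτ h0 l0 u0 l1 u1 l2 u2 l3 u3 l4 u4).elim
              · rcases le_total (c.z3Sy - c.p4y) (-11 / 8) with u3 | l3
                · rcases le_total (c.z1Ny - c.p2y) (13 / 8) with u0 | l0
                  · exact (lfQ66 h e hτ h0 l0 u0 l1 u1 l2 u2 l3 u3 l4 u4).elim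
                  · exact (lfQ67 h e hτ h0 l0 u0 l1 u1 l2 u2 l3 u3 l4 u4).elim
                · exact (lfQ68 h e hτ h0 l0 u0 l1 u1 l2 u2 l3 u3 l4 u4).elim
        · rcases le_total (c.z1Ny - c.p2y) (-1 / 8) with u0 | l0
          · rcases le_total (c.z3Wy - c.p2y) (-2) with u2 | l2
            · exact (lfQ69 h e hτ h0 l0 u0 l1 u1 l2 u2 l3 u3 l4 u4).elim
            · exact (lfQ70 h e hτ h0 l0 u0 l1 u1 l2 u2 l3 u3 l4 u4).elim
          · rcases le_total (c.z3Wy - c.p2y) (-1) with u2 | l2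
            · exact (lfQ71 h e hτ h0 l0 u0 l1 u1 l2 u2 l3 u3 l4 u4).elim
            · exact (lfQ72 h e hτ h0 l0 u0 l1 u1 l2 u2 l3 u3 l4 u4).elim
      · rcases le_total (c.z3Sy - c.p4y) (-1 / 8) with u3 | l3
        · rcases le_total (c.z1Ny - c.p2y) (1 / 8) with u0 | l0
          · exact (lfQ73 h e hτ h0 l0 u0 l1 u1 l2 u2 l3 u3 l4 u4).elim
          · exact (lfQ74 h e hτ h0 l0 u0 l1 u1 l2 u2 l3 u3 l4 u4).elim
        · rcases le_total (c.z1Ny - c.p2y) (-3 / 16) with u0 | l0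
          · exact (lfQ75 h e hτ h0 l0 u0 l1 u1 l2 u2 l3 u3 l4 u4).elim
          · exact (lfQ76 h e hτ h0 l0 u0 l1 u1 l2 u2 l3 u3 l4 u4).elim
    · rcases le_total (c.z3Wy - c.p2y) (-1) with u2 | l2
      · rcases le_total (c.z3Sy - c.p4y) 0 with u3 | l3
        · rcases le_total (c.z1Ny - c.p2y) (-9 / 16) with u0 | l0
          · rcases le_total (c.z1Ey - c.p4y) (5 / 4) with u1 | l1
            · exact (lfQ77 h e hτ h0 l0 u0 l1 u1 l2 u2 l3 u3 l4 u4).elim
            · exact (lfQ78 h e hτ h0 l0 u0 l1 u1 l2 u2 l3 u3 l4 u4).elim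
          · exact (lfQ79 h e hτ h0 l0 u0 l1 u1 l2 u2 l3 u3 l4 u4).elim
        · rcases le_total (c.z1Ny - c.p2y) (5 / 16) with u0 | l0
          · exact (lfQ80 h e hτ h0 l0 u0 l1 u1 l2 u2 l3 u3 l4 u4).elim
          · exact (lfQ81 h e hτ h0 l0 u0 l1 u1 l2 u2 l3 u3 l4 u4).elim
      · rcases le_total (c.z1Ny - c.p2y) (-3 / 8) with u0 | l0
        · rcases le_total (c.z3Sy - c.p4y) (-1 / 8) with u3 | l3
          · exact (lfQ82 h e hτ h0 l0 u0 l1 u1 l2 u2 l3 u3 l4 u4).elim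
          · exact (lfQ83 h e hτ h0 l0 u0 l1 u1 l2 u2 l3 u3 l4 u4).elim
        · rcases le_total (c.z1Ey - c.p4y) (1 / 2) with u1 | l1
          · exact (lfQ84 h e hτ h0 l0 u0 l1 u1 l2 u2 l3 u3 l4 u4).elim
          · exact (lfQ85 h e hτ h0 l0 u0 l1 u1 l2 u2 l3 u3 l4 u4).elim

end Pool.Agent.P.MP_dba4bb_co.Ex
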