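import Pool.Agent.P.MP_dba4bb_co.Ex.Lin2

/-! Leaves of the branch and bound. -/

namespace Pool.Agent.P.MP_dba4bb_co.Ex

variable {τ : ℝ} {c : Cfg}

theorem lfQ0 (h : Lin2 τ c) (e : CsQ c) (hτ : 0 ≤ τ) (h0 : τ ≤ 1 / 10 ^ 7)
    (l0 : (-9 / 4) ≤ c.z1Ny - c.p2y) (u0 : c.z1Ny - c.p2y ≤ (1 / 4)) (l1 : (-17 / 4) ≤ c.z1Ey - c.p4y) (u1 : c.z1Ey - c.p4y ≤ (-7 / 2))
    (l2 : (-7 / 2) ≤ c.z3Wy - c.p2y) (u2 : c.z3Wy - c.p2y ≤ (-1 / 2)) (l3 : (-5 / 2) ≤ c.z3Sy - c.p4y) (u3 : c.z3Sy - c.p4y ≤ (1 / 2))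
    (l4 : 0 ≤ c.s1) (u4 : c.s1 ≤ (7 / 4)) : False := by
  have : 0 ≤ -(1 / 100) + 57 * τ := by
    linear_combination
      (200899 / 57114) * h.toLin.p2_z1Nv + (3995 / 114228) * h.toLin.p2_z3Wu
      + (9896 / 3507) * h.toLin.p2_k3Wv + (886 / 2505) * h.toLin.p2_eN1
      + (4948 / 3507) * h.toLin.p2_eW1 + (326 / 501) * h.toLin.p4_p1
      + (10298261 / 4854690) * h.toLin.p4_p3 + (4116451 / 1142280) * h.toLin.p4_z1Eu
      + (209647 / 57114) * h.toLin.p4_k3Sv + (72884 / 42585) * h.toLin.p4_hNv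
      + (326 / 501) * h.toLin.p1_z1Nu + (5597 / 2505) * h.toLin.p3_z3Wu
      + (3760 / 28557) * h.toLin.p3_gS + (940 / 8517) * h.toLin.p3_hNv
      + (4832 / 501) * h.toLin.z1N_gNh + (1237 / 501) * h.toLin.z1E_t2E
      + (170543 / 342684) * h.toLin.z3S_t2S + (12784 / 85671) * h.toLin.z3S_gSh
      + (675565 / 171342) * h.toLin.t2S_k3S + (4873 / 2505) * h.toLin.k2N_eN1
      + (3074 / 8517) * h.toLin.k2N_eN2 + (77968 / 42585) * h.toLin.k2N_gNh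
      + (1237 / 501) * h.toLin.k2W_k3W + (2474 / 501) * h.toLin.k2W_eW1
      + (2474 / 3507) * h.toLin.k3W_eW1 + (24064 / 85671) * h.toLin.k3S_gSh
      + (1772 / 12525) * h.toLin.eN1_hN + (464 / 2839) * h.toLin.eN2_gN
      + (116 / 1503) * h.toLin.eN2_hN + (277472 / 132765) * h.toLin.gN_hN
      + (568067 / 57114) * h.toLin.wRz1N + (4116451 / 571140) * h.toLin.wRz1E
      + (658033 / 285570) * h.toLin.wLz3W + (3995 / 114228) * h.toLin.wLz3S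
      + (1237 / 501) * h.toLin.wBt2S + (1237 / 501) * h.toLin.wBt2E + (1237 / 501) * h.toLin.wTk2N
      + (1237 / 501) * h.toLin.wTk2W + (1237 / 167) * h.toLin.wLk3W + (1237 / 167) * h.toLin.wLk3S
      + (61109 / 114228) * h.c3 + (722401 / 126920) * e.2.1 + (4261 / 8016) * (sub_nonneg.2 u1)
      + (3092 / 2505) * (sub_nonneg.2 u2) + h.hG
      + (1 / 4) * mul_nonneg (sub_nonneg.2 l0) (sub_nonneg.2 u0)
      + (1 / 4) * mul_nonneg (sub_nonneg.2 l1) (sub_nonneg.2 u1)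
      + (1 / 4) * mul_nonneg (sub_nonneg.2 l2) (sub_nonneg.2 u2)
      + (1 / 4) * mul_nonneg (sub_nonneg.2 l3) (sub_nonneg.2 u3) + sq_nonneg (c.s1 - (8 / 15))
      + (66364739 / 90280200) * hτ
  linarith only [this, h0]

theorem lfQ3 (h : Lin2 τ c) (e : CsQ c) (hτ : 0 ≤ τ) (h0 : τ ≤ 1 / 10 ^ 7)
    (l0 : (-1 / 2) ≤ c.z1Ny - c.p2y) (u0 : c.z1Ny - c.p2y ≤ (1 / 4)) (l1 : (-17 / 4) ≤ c.z1Ey - c.p4y) (u1 : c.z1Ey - c.p4y ≤ (-7 / 2))
    (l2 : (-1 / 2) ≤ c.z3Wy - c.p2y) (u2 : c.z3Wy - c.p2y ≤ (1 / 2)) (l3 : (-1 / 2) ≤ c.z3Sy - c.p4y) (u3 : c.z3Sy - c.p4y ≤ (1 / 2))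
    (l4 : (1 / 2) ≤ c.s1) (u4 : c.s1 ≤ (7 / 4)) : False := by
  have : 0 ≤ -(1 / 10) + 22 * τ := by
    linear_combination
      (25 / 94) * h.toLin.p2_p3 + (64601 / 42112) * h.toLin.p2_z1Nv + (255 / 6016) * h.toLin.p2_z3Wv
      + (713 / 658) * h.toLin.p2_k3Wv + (3 / 35) * h.toLin.p2_eN1 + (173 / 329) * h.toLin.p2_eW1
      + (10371 / 13160) * h.toLin.p4_p1 + (984 / 1645) * h.toLin.p4_z1Eu
      + (63 / 47) * h.toLin.p4_k3Sv + (26 / 35) * h.toLin.p4_hNv + (10371 / 13160) * h.toLin.p1_z1Nu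
      + (17 / 3008) * h.toLin.p3_z3Su + (3 / 94) * h.toLin.p3_k2Wv + (15 / 47) * h.toLin.p3_gS
      + (24 / 7) * h.toLin.z1N_gNh + h.toLin.z1E_t2E + (17 / 47) * h.toLin.z3S_gSh
      + 2 * h.toLin.t2S_k3S + (33 / 70) * h.toLin.k2N_eN1 + (106 / 119) * h.toLin.k2N_eN2
      + (264 / 595) * h.toLin.k2N_gNh + (179 / 188) * h.toLin.k2W_k3W + (173 / 94) * h.toLin.k2W_eW1
      + (173 / 658) * h.toLin.k3W_eW1 + (32 / 47) * h.toLin.k3S_gSh + (6 / 175) * h.toLin.eN1_hN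
      + (48 / 119) * h.toLin.eN2_gN + (4 / 21) * h.toLin.eN2_hN + (1296 / 1855) * h.toLin.gN_hN
      + (490573 / 105280) * h.toLin.wRz1N + (1968 / 1645) * h.toLin.wRz1E
      + (255 / 3008) * h.toLin.wLz3W + (17 / 188) * h.toLin.wLz3S + h.toLin.wBt2S + h.toLin.wBt2E
      + h.toLin.wTk2N + h.toLin.wTk2W + (267 / 94) * h.toLin.wLk3W + (267 / 94) * h.toLin.wLk3S
      + (17 / 3008) * h.c3 + (344629 / 105280) * e.2.1 + (sub_nonneg.2 u1)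
      + (4833 / 6580) * (sub_nonneg.2 u0) + (85069 / 52640) * (sub_nonneg.2 l4)
      + (260768911 / 1422859200) * hτ
  linarith only [this, h0]

theorem lfQ6 (h : Lin2 τ c) (e : CsQ c) (hτ : 0 ≤ τ) (h0 : τ ≤ 1 / 10 ^ 7)
    (l0 : (11 / 8) ≤ c.z1Ny - c.p2y) (u0 : c.z1Ny - c.p2y ≤ (13 / 8)) (l1 : (-17 / 4) ≤ c.z1Ey - c.p4y) (u1 : c.z1Ey - c.p4y ≤ (-7 / 2))
    (l2 : (-5 / 8) ≤ c.z3Wy - c.p2y) (u2 : c.z3Wy - c.p2y ≤ (-3 / 8)) (l3 : (-5 / 2) ≤ c.z3Sy - c.p4y) (u3 : c.z3Sy - c.p4y ≤ (-13 / 8))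
    (l4 : 0 ≤ c.s1) (u4 : c.s1 ≤ (5 / 8)) : False := by
  have : 0 ≤ -1 + 2970 * τ := by
    linear_combination
      (9159 / 136) * h.toLin.p2_p3 + (6457 / 136) * h.toLin.p2_z1Nv + h.toLin.p2_z3Wv
      + (336 / 17) * h.toLin.p2_k3Wv + (669 / 17) * h.toLin.p2_eN2 + (1227 / 34) * h.toLin.p2_eW1
      + (38469 / 578) * h.toLin.p4_p3 + (951 / 136) * h.toLin.p4_z3Sv
      + (24828 / 289) * h.toLin.p4_hNv + (1300 / 17) * h.toLin.p3_z3Wu + (409 / 34) * h.toLin.p3_eW1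
      + (1680 / 17) * h.toLin.p3_gS + (3168 / 289) * h.toLin.p3_hNv + (11664 / 17) * h.toLin.z1N_gNh
      + (2286 / 17) * h.toLin.z1E_t2E + (1300 / 17) * h.toLin.z3W_k2W + (550 / 17) * h.toLin.z3S_t2S
      + 112 * h.toLin.z3S_gSh + (3472 / 17) * h.toLin.t2S_k3S + (4572 / 17) * h.toLin.k2N_eN2
      + (336 / 17) * h.toLin.k2W_k3W + (3272 / 17) * h.toLin.k2W_eW1 + (3584 / 17) * h.toLin.k3S_gSh
      + (3888 / 17) * h.toLin.eN2_gN + (52 / 17) * h.toLin.eN2_hN + (108864 / 901) * h.toLin.gN_hN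
      + (4348 / 17) * h.toLin.wRz1N + (1984 / 17) * h.toLin.wLz3W + (684 / 17) * h.toLin.wLz3S
      + (2286 / 17) * h.toLin.wBt2S + (2286 / 17) * h.toLin.wBt2E + (2286 / 17) * h.toLin.wTk2N
      + (2286 / 17) * h.toLin.wTk2W + (840 / 17) * h.toLin.wLk3W + (840 / 17) * h.toLin.wLk3S
      + (7519 / 68) * h.c3 + (4348 / 17) * e.2.1 + (2286 / 17) * (sub_nonneg.2 u1)
      + (729 / 68) * (sub_nonneg.2 l0) + (2319 / 68) * (sub_nonneg.2 u3) + (50979 / 122536) * hτ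
  linarith only [this, h0]

theorem lfQ9 (h : Lin2 τ c) (e : CsQ c) (hτ : 0 ≤ τ) (h0 : τ ≤ 1 / 10 ^ 7)
    (l0 : (1 / 4) ≤ c.z1Ny - c.p2y) (u0 : c.z1Ny - c.p2y ≤ (13 / 8)) (l1 : (-17 / 4) ≤ c.z1Ey - c.p4y) (u1 : c.z1Ey - c.p4y ≤ (-7 / 2))
    (l2 : (-5 / 8) ≤ c.z3Wy - c.p2y) (u2 : c.z3Wy - c.p2y ≤ (-3 / 8)) (l3 : (-5 / 2) ≤ c.z3Sy - c.p4y) (u3 : c.z3Sy - c.p4y ≤ (-11 / 8))
    (l4 : (5 / 8) ≤ c.s1) (u4 : c.s1 ≤ (7 / 4)) : False := by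
  have : 0 ≤ -1 + 1316 * τ := by
    linear_combination
      (812013 / 19460) * h.toLin.p2_p3 + (12432193 / 248115) * h.toLin.p2_z1Nv
      + (196457 / 496230) * h.toLin.p2_z3Wv + (1912032 / 82705) * h.toLin.p2_k3Wv
      + (9886 / 973) * h.toLin.p2_eN1 + (1598329 / 82705) * h.toLin.p2_eW1
      + (271865 / 66164) * h.toLin.p4_p1 + (4687498 / 281197) * h.toLin.p4_p3
      + (244488 / 16541) * h.toLin.p4_k3Sv + (12634308 / 281197) * h.toLin.p4_hNv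
      + (271865 / 66164) * h.toLin.p1_z1Nu + (5052356 / 248115) * h.toLin.p3_z3Wu
      + (1598329 / 248115) * h.toLin.p3_eW1 + (960 / 17) * h.toLin.p3_gS
      + (988600 / 281197) * h.toLin.p3_hNv + (4349840 / 16541) * h.toLin.z1N_gNh
      + (1087460 / 16541) * h.toLin.z1E_t2E + (7050536 / 248115) * h.toLin.z3W_k2W
      + 64 * h.toLin.z3S_gSh + (2174920 / 16541) * h.toLin.t2S_k3S + (54373 / 973) * h.toLin.k2N_eN1
      + (869968 / 16541) * h.toLin.k2N_gNh + (1912032 / 82705) * h.toLin.k2W_k3W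
      + (25573264 / 248115) * h.toLin.k2W_eW1 + (2048 / 17) * h.toLin.k3S_gSh
      + (19772 / 4865) * h.toLin.eN1_hN + (50458144 / 876673) * h.toLin.gN_hN
      + (41176286 / 248115) * h.toLin.wRz1N + (8774081 / 248115) * h.toLin.wLz3W
      + 15 * h.toLin.wLz3S + (1087460 / 16541) * h.toLin.wBt2S + (1087460 / 16541) * h.toLin.wBt2E
      + (1087460 / 16541) * h.toLin.wTk2N + (1087460 / 16541) * h.toLin.wTk2W
      + (956016 / 16541) * h.toLin.wLk3W + (956016 / 16541) * h.toLin.wLk3S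
      + (7298651 / 248115) * h.c3 + (9448657 / 58380) * e.2.1
      + (1087460 / 16541) * (sub_nonneg.2 u1) + (7836 / 973) * (sub_nonneg.2 l2) + (sub_nonneg.2 u3)
      + (2070233 / 33082) * (sub_nonneg.2 l4) + (879108833 / 894206460) * hτ
  linarith only [this, h0]

theorem lfQ12 (h : Lin2 τ c) (e : CsQ c) (hτ : 0 ≤ τ) (h0 : τ ≤ 1 / 10 ^ 7)
    (l0 : (19 / 16) ≤ c.z1Ny - c.p2y) (u0 : c.z1Ny - c.p2y ≤ (9 / 4)) (l1 : (-17 / 4) ≤ c.z1Ey - c.p4y) (u1 : c.z1Ey - c.p4y ≤ (-7 / 2))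
    (l2 : (-5 / 8) ≤ c.z3Wy - c.p2y) (u2 : c.z3Wy - c.p2y ≤ (-3 / 8)) (l3 : (-11 / 8) ≤ c.z3Sy - c.p4y) (u3 : c.z3Sy - c.p4y ≤ (1 / 2))
    (l4 : 0 ≤ c.s1) (u4 : c.s1 ≤ (5 / 8)) : False := by
  have : 0 ≤ -(1 / 100) + 48 * τ := by
    linear_combination
      (316367 / 269280) * h.toLin.p2_p4 + (3705 / 11968) * h.toLin.p2_p3
      + (178505 / 71808) * h.toLin.p2_z1Nv + (65 / 704) * h.toLin.p2_z3Wu
      + (29243 / 10472) * h.toLin.p2_k3Wv + (130901 / 673200) * h.toLin.p2_eN2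
      + (2834 / 3927) * h.toLin.p2_eW1 + (13646 / 14025) * h.toLin.p2_gN
      + (309 / 1496) * h.toLin.p4_p3 + (68905 / 23936) * h.toLin.p4_z1Eu
      + (14167 / 4488) * h.toLin.p4_k3Sv + (27373 / 33660) * h.toLin.p4_hNv
      + (1 / 4) * h.toLin.p3_z3Wu + (65 / 187) * h.toLin.p3_gS + (6055 / 8976) * h.toLin.z1N_t1N
      + (6635 / 561) * h.toLin.z1N_gNh + (31 / 16) * h.toLin.z1E_t2E + (13 / 33) * h.toLin.z3S_gSh
      + (6055 / 4488) * h.toLin.t1W_k3W + (31 / 8) * h.toLin.t2S_k3S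
      + (1417 / 561) * h.toLin.k2N_eN2 + (1417 / 1122) * h.toLin.k2W_k3W
      + (1417 / 561) * h.toLin.k2W_eW1 + (1417 / 3927) * h.toLin.k3W_eW1
      + (416 / 561) * h.toLin.k3S_gSh + (7817 / 4675) * h.toLin.eN2_gN
      + (27373 / 100980) * h.toLin.eN2_hN + (109492 / 148665) * h.toLin.gN_hN
      + (139015 / 17952) * h.toLin.wRz1N + (68905 / 11968) * h.toLin.wRz1E
      + (153 / 352) * h.toLin.wLz3W + (65 / 704) * h.toLin.wLz3S + (6055 / 8976) * h.toLin.wTt1N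
      + (6055 / 8976) * h.toLin.wTt1W + (31 / 16) * h.toLin.wBt2S + (31 / 16) * h.toLin.wBt2E
      + (1417 / 1122) * h.toLin.wTk2N + (1417 / 1122) * h.toLin.wTk2W
      + (14557 / 2244) * h.toLin.wLk3W + (14557 / 2244) * h.toLin.wLk3S + (13 / 132) * h.c3
      + (349345 / 71808) * e.2.1 + (449 / 2112) * (sub_nonneg.2 l3) + h.hG
      + (1 / 4) * mul_nonneg (sub_nonneg.2 l0) (sub_nonneg.2 u0)
      + (1 / 4) * mul_nonneg (sub_nonneg.2 l1) (sub_nonneg.2 u1)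
      + (1 / 4) * mul_nonneg (sub_nonneg.2 l2) (sub_nonneg.2 u2)
      + (1 / 4) * mul_nonneg (sub_nonneg.2 l3) (sub_nonneg.2 u3) + sq_nonneg (c.s1 - (5 / 11))
      + (75068989 / 214077600) * hτ
  linarith only [this, h0]

theorem lfQ15 (h : Lin2 τ c) (e : CsQ c) (hτ : 0 ≤ τ) (h0 : τ ≤ 1 / 10 ^ 7)
    (l0 : (21 / 16) ≤ c.z1Ny - c.p2y) (u0 : c.z1Ny - c.p2y ≤ (9 / 4)) (l1 : (-17 / 4) ≤ c.z1Ey - c.p4y) (u1 : c.z1Ey - c.p4y ≤ (-7 / 2))
    (l2 : (-3 / 8) ≤ c.z3Wy - c.p2y) (u2 : c.z3Wy - c.p2y ≤ (1 / 2)) (l3 : (-5 / 2) ≤ c.z3Sy - c.p4y) (u3 : c.z3Sy - c.p4y ≤ (-17 / 16))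
    (l4 : 0 ≤ c.s1) (u4 : c.s1 ≤ (7 / 4)) : False := by
  have : 0 ≤ -(1 / 100) + 41 * τ := by
    linear_combination
      (9663 / 10264) * h.toLin.p2_p4 + (493377 / 410560) * h.toLin.p2_p3
      + (175373 / 82112) * h.toLin.p2_z1Nv + (266965 / 246336) * h.toLin.p2_z3Wu
      + (1072247 / 4310880) * h.toLin.p2_k3Wv + (1391 / 10264) * h.toLin.p2_eN1
      + (66019 / 143696) * h.toLin.p2_eW1 + (90415 / 164224) * h.toLin.p4_z3Sv
      + (18083 / 15396) * h.toLin.p4_hNv + (5671 / 38490) * h.toLin.p3_k2Wv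
      + (5671 / 3849) * h.toLin.p3_gS + (1034 / 1283) * h.toLin.z1N_t1N
      + (6955 / 1283) * h.toLin.z1N_gNh + (73501 / 30792) * h.toLin.z1E_t2E
      + (1034 / 1283) * h.toLin.z3W_t1W + (100687 / 123168) * h.toLin.z3W_k2W
      + (399311 / 461880) * h.toLin.z3S_t2S + (96407 / 57735) * h.toLin.z3S_gSh
      + (175801 / 57735) * h.toLin.t2S_k3S + (15301 / 20528) * h.toLin.k2N_eN1
      + (368615 / 261732) * h.toLin.k2N_eN2 + (15301 / 21811) * h.toLin.k2N_gNh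
      + (164887 / 1231680) * h.toLin.k2W_k3W + (66019 / 41056) * h.toLin.k2W_eW1
      + (66019 / 287392) * h.toLin.k3W_eW1 + (181472 / 57735) * h.toLin.k3S_gSh
      + (1391 / 25660) * h.toLin.eN1_hN + (13910 / 21811) * h.toLin.eN2_gN
      + (6955 / 23094) * h.toLin.eN2_hN + (75114 / 67999) * h.toLin.gN_hN
      + (455071 / 82112) * h.toLin.wRz1N + (211539 / 82112) * h.toLin.wLz3W
      + (91913 / 61584) * h.toLin.wLz3S + (1034 / 1283) * h.toLin.wTt1N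
      + (1034 / 1283) * h.toLin.wTt1W + (73501 / 30792) * h.toLin.wBt2S
      + (73501 / 30792) * h.toLin.wBt2E + (48685 / 30792) * h.toLin.wTk2N
      + (48685 / 30792) * h.toLin.wTk2W + (5671 / 7698) * h.toLin.wLk3W
      + (5671 / 7698) * h.toLin.wLk3S + (73855 / 20528) * h.c3 + (455071 / 82112) * e.2.1
      + (27683 / 61584) * (sub_nonneg.2 u1) + (98051 / 61584) * (sub_nonneg.2 l2) + h.hG
      + (1 / 4) * mul_nonneg (sub_nonneg.2 l0) (sub_nonneg.2 u0)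
      + (1 / 4) * mul_nonneg (sub_nonneg.2 l1) (sub_nonneg.2 u1)
      + (1 / 4) * mul_nonneg (sub_nonneg.2 l2) (sub_nonneg.2 u2)
      + (1 / 4) * mul_nonneg (sub_nonneg.2 l3) (sub_nonneg.2 u3) + sq_nonneg (c.s1 - (2 / 3))
      + (6430066789 / 6658462080) * hτ
  linarith only [this, h0]

theorem lfQ18 (h : Lin2 τ c) (e : CsQ c) (hτ : 0 ≤ τ) (h0 : τ ≤ 1 / 10 ^ 7)
    (l0 : (1 / 2) ≤ c.z1Ny - c.p2y) (u0 : c.z1Ny - c.p2y ≤ (5 / 4)) (l1 : (-17 / 4) ≤ c.z1Ey - c.p4y) (u1 : c.z1Ey - c.p4y ≤ (-7 / 2))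
    (l2 : (-3 / 8) ≤ c.z3Wy - c.p2y) (u2 : c.z3Wy - c.p2y ≤ (1 / 2)) (l3 : (-17 / 16) ≤ c.z3Sy - c.p4y) (u3 : c.z3Sy - c.p4y ≤ (-1 / 2))
    (l4 : 0 ≤ c.s1) (u4 : c.s1 ≤ (1 / 2)) : False := by
  have : 0 ≤ -(1 / 10) + 39 * τ := by
    linear_combination
      (56831 / 47040) * h.toLin.p2_p4 + (4089 / 31360) * h.toLin.p2_p3
      + (96091 / 37632) * h.toLin.p2_z1Nv + (799 / 37632) * h.toLin.p2_z3Wv
      + (11056 / 5145) * h.toLin.p2_k3Wv + (37 / 84) * h.toLin.p2_eN1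
      + (8779 / 8232) * h.toLin.p2_eW1 + (131 / 840) * h.toLin.p2_hN
      + (85339 / 37632) * h.toLin.p4_z1Eu + (26149 / 9408) * h.toLin.p4_k3Sv
      + (131 / 120) * h.toLin.p4_hNv + (47 / 2940) * h.toLin.p3_k2Wv + (47 / 294) * h.toLin.p3_gS
      + (1 / 32) * h.toLin.z1N_t1N + (1903 / 9744) * h.toLin.z1N_k2N + (37 / 252) * h.toLin.z1N_eN1
      + (1310 / 203) * h.toLin.z1N_gNh + (31 / 16) * h.toLin.z1E_t2E + (1 / 32) * h.toLin.z3W_t1W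
      + (107981 / 282240) * h.toLin.z3S_t2S + (799 / 4410) * h.toLin.z3S_gSh
      + (438859 / 141120) * h.toLin.t2S_k3S + (37 / 21) * h.toLin.k2N_eN1
      + (262 / 203) * h.toLin.k2N_gNh + (14757 / 7840) * h.toLin.k2W_k3W
      + (8779 / 2352) * h.toLin.k2W_eW1 + (8779 / 16464) * h.toLin.k3W_eW1
      + (752 / 2205) * h.toLin.k3S_gSh + (524 / 371) * h.toLin.gN_hN
      + (128459 / 18816) * h.toLin.wRz1N + (85339 / 18816) * h.toLin.wRz1E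
      + (799 / 18816) * h.toLin.wLz3W + (799 / 18816) * h.toLin.wLz3S + (1 / 32) * h.toLin.wTt1N
      + (1 / 32) * h.toLin.wTt1W + (31 / 16) * h.toLin.wBt2S + (31 / 16) * h.toLin.wBt2E
      + (61 / 32) * h.toLin.wTk2N + (61 / 32) * h.toLin.wTk2W + (26525 / 4704) * h.toLin.wLk3W
      + (26525 / 4704) * h.toLin.wLk3S + (5 / 12) * h.c3 + (57193 / 12544) * e.2.1
      + (1 / 192) * (sub_nonneg.2 l3) + h.hG
      + (1 / 4) * mul_nonneg (sub_nonneg.2 l0) (sub_nonneg.2 u0)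
      + (1 / 4) * mul_nonneg (sub_nonneg.2 l1) (sub_nonneg.2 u1)
      + (1 / 4) * mul_nonneg (sub_nonneg.2 l2) (sub_nonneg.2 u2)
      + (1 / 4) * mul_nonneg (sub_nonneg.2 l3) (sub_nonneg.2 u3) + sq_nonneg (c.s1 - (1 / 4))
      + (14962291 / 123943680) * hτ
  linarith only [this, h0]

theorem lfQ21 (h : Lin2 τ c) (e : CsQ c) (hτ : 0 ≤ τ) (h0 : τ ≤ 1 / 10 ^ 7)
    (l0 : (1 / 2) ≤ c.z1Ny - c.p2y) (u0 : c.z1Ny - c.p2y ≤ (9 / 4)) (l1 : (-17 / 4) ≤ c.z1Ey - c.p4y) (u1 : c.z1Ey - c.p4y ≤ (-7 / 2))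
    (l2 : (-3 / 8) ≤ c.z3Wy - c.p2y) (u2 : c.z3Wy - c.p2y ≤ (1 / 2)) (l3 : (-17 / 16) ≤ c.z3Sy - c.p4y) (u3 : c.z3Sy - c.p4y ≤ (1 / 2))
    (l4 : (1 / 2) ≤ c.s1) (u4 : c.s1 ≤ (7 / 4)) : False := by
  have : 0 ≤ -(1 / 10) + 258 * τ := by
    linear_combination
      (529 / 640) * h.toLin.p2_p4 + (60763 / 5952) * h.toLin.p2_p3
      + (79337 / 5952) * h.toLin.p2_z1Nv + (17809 / 3968) * h.toLin.p2_z3Wv
      + (1573 / 744) * h.toLin.p2_k3Wv + (11 / 10) * h.toLin.p2_eN1 + (1375 / 372) * h.toLin.p2_eW1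
      + (143 / 32) * h.toLin.p4_z3Sv + (143 / 15) * h.toLin.p4_hNv + (59 / 744) * h.toLin.p3_z3Su
      + (77 / 62) * h.toLin.p3_k2Wv + (385 / 31) * h.toLin.p3_gS + 44 * h.toLin.z1N_gNh
      + (77 / 6) * h.toLin.z1E_t2E + (1617 / 248) * h.toLin.z3W_k2W + (1309 / 93) * h.toLin.z3S_gSh
      + (77 / 3) * h.toLin.t2S_k3S + (121 / 20) * h.toLin.k2N_eN1 + (583 / 51) * h.toLin.k2N_eN2
      + (484 / 85) * h.toLin.k2N_gNh + (1771 / 1488) * h.toLin.k2W_k3W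
      + (9625 / 744) * h.toLin.k2W_eW1 + (1375 / 744) * h.toLin.k3W_eW1
      + (2464 / 93) * h.toLin.k3S_gSh + (11 / 25) * h.toLin.eN1_hN + (88 / 17) * h.toLin.eN2_gN
      + (22 / 9) * h.toLin.eN2_hN + (2376 / 265) * h.toLin.gN_hN + (110027 / 2976) * h.toLin.wRz1N
      + (24277 / 1984) * h.toLin.wLz3W + (73303 / 5952) * h.toLin.wLz3S + (77 / 6) * h.toLin.wBt2S
      + (77 / 6) * h.toLin.wBt2E + (77 / 6) * h.toLin.wTk2N + (77 / 6) * h.toLin.wTk2W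
      + (385 / 62) * h.toLin.wLk3W + (385 / 62) * h.toLin.wLk3S + (40117 / 5952) * h.c3
      + (110027 / 2976) * e.2.1 + (523 / 48) * (sub_nonneg.2 u1) + (6437 / 992) * (sub_nonneg.2 l2)
      + (112853 / 5952) * (sub_nonneg.2 l4) + h.hG
      + (1 / 4) * mul_nonneg (sub_nonneg.2 l0) (sub_nonneg.2 u0)
      + (1 / 4) * mul_nonneg (sub_nonneg.2 l1) (sub_nonneg.2 u1)
      + (1 / 4) * mul_nonneg (sub_nonneg.2 l2) (sub_nonneg.2 u2)
      + (1 / 4) * mul_nonneg (sub_nonneg.2 l3) (sub_nonneg.2 u3) + sq_nonneg (c.s1 - (9 / 8))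
      + (12794039 / 12974400) * hτ
  linarith only [this, h0]

theorem lfQ24 (h : Lin2 τ c) (e : CsQ c) (hτ : 0 ≤ τ) (h0 : τ ≤ 1 / 10 ^ 7)
    (l0 : (-9 / 4) ≤ c.z1Ny - c.p2y) (u0 : c.z1Ny - c.p2y ≤ (1 / 2)) (l1 : (-17 / 4) ≤ c.z1Ey - c.p4y) (u1 : c.z1Ey - c.p4y ≤ (-7 / 2))
    (l2 : (1 / 2) ≤ c.z3Wy - c.p2y) (u2 : c.z3Wy - c.p2y ≤ (11 / 4)) (l3 : (-1 / 2) ≤ c.z3Sy - c.p4y) (u3 : c.z3Sy - c.p4y ≤ (1 / 2))
    (l4 : 0 ≤ c.s1) (u4 : c.s1 ≤ (7 / 4)) : False := by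
  have : 0 ≤ -(1 / 10) + 32 * τ := by
    linear_combination
      (434904619 / 284444160) * h.toLin.p2_p3 + (25205443 / 14222208) * h.toLin.p2_z1Nv
      + (19762609 / 15238080) * h.toLin.p2_z3Wv + (1050931 / 2031744) * h.toLin.p2_eN1
      + (448199 / 8205120) * h.toLin.p2_eW1 + (32135211 / 18962944) * h.toLin.p4_p1
      + (1295913 / 1458688) * h.toLin.p4_z3Sv + (134253 / 1354496) * h.toLin.p4_eS2
      + (493 / 2002) * h.toLin.p4_hNv + (32135211 / 18962944) * h.toLin.p1_z1Nu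
      + (924491 / 14222208) * h.toLin.p3_z3Su + (1595459 / 8888880) * h.toLin.p3_k2Wv
      + (1595459 / 888888) * h.toLin.p3_gS + (8783345 / 7111104) * h.toLin.z1N_t1N
      + (1250009 / 888888) * h.toLin.z1N_gNh + (31 / 16) * h.toLin.z1E_t2E
      + (8783345 / 7111104) * h.toLin.z3W_t1W + (15399341 / 53333280) * h.toLin.z3W_k2W
      + (448199 / 24615360) * h.toLin.z3W_eW1 + (924491 / 222222) * h.toLin.z3S_gSh
      + (1416635 / 1292928) * h.toLin.t2N_k2N + (223755 / 985088) * h.toLin.t2S_eS2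
      + (3593461 / 1939392) * h.toLin.t2S_gSh + (8013193 / 3555552) * h.toLin.k2N_eN1
      + (5605381 / 34539648) * h.toLin.k2N_eN2 + (63343 / 1079364) * h.toLin.k2N_gNh
      + (448199 / 2051280) * h.toLin.k2W_eW1 + (5605381 / 14222208) * h.toLin.eN1_eN2
      + (493 / 10010) * h.toLin.eN1_hN + (5605381 / 15111096) * h.toLin.eN2_gN
      + (44751 / 338624) * h.toLin.eS2_gS + (1972 / 7579) * h.toLin.gN_hN
      + (19799957 / 3555552) * h.toLin.wRz1N + (3727397 / 1354496) * h.toLin.wLz3W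
      + (7284029 / 2585856) * h.toLin.wLz3S + (8783345 / 7111104) * h.toLin.wTt1N
      + (8783345 / 7111104) * h.toLin.wTt1W + (1416635 / 2585856) * h.toLin.wRt2N
      + (1416635 / 2585856) * h.toLin.wLt2S + (31 / 16) * h.toLin.wBt2S + (31 / 16) * h.toLin.wBt2E
      + (4994419 / 7111104) * h.toLin.wTk2N + (4994419 / 7111104) * h.toLin.wTk2W
      + (6511969 / 4063488) * h.c3 + (20035789 / 5171712) * e.2.1
      + (624961 / 861952) * (sub_nonneg.2 l2) + h.hG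
      + (1 / 4) * mul_nonneg (sub_nonneg.2 l0) (sub_nonneg.2 u0)
      + (1 / 4) * mul_nonneg (sub_nonneg.2 l1) (sub_nonneg.2 u1)
      + (1 / 4) * mul_nonneg (sub_nonneg.2 l2) (sub_nonneg.2 u2)
      + (1 / 4) * mul_nonneg (sub_nonneg.2 l3) (sub_nonneg.2 u3) + sq_nonneg (c.s1 - (6 / 13))
      + (147755145887 / 709710059520) * hτ
  linarith only [this, h0]

theorem lfQ27 (h : Lin2 τ c) (e : CsQ c) (hτ : 0 ≤ τ) (h0 : τ ≤ 1 / 10 ^ 7)
    (l0 : (-9 / 4) ≤ c.z1Ny - c.p2y) (u0 : c.z1Ny - c.p2y ≤ (-9 / 8)) (l1 : (-7 / 2) ≤ c.z1Ey - c.p4y) (u1 : c.z1Ey - c.p4y ≤ (-15 / 16))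
    (l2 : (-7 / 2) ≤ c.z3Wy - c.p2y) (u2 : c.z3Wy - c.p2y ≤ (-13 / 8)) (l3 : (-5 / 2) ≤ c.z3Sy - c.p4y) (u3 : c.z3Sy - c.p4y ≤ 0)
    (l4 : 0 ≤ c.s1) (u4 : c.s1 ≤ (7 / 4)) : False := by
  have : 0 ≤ -(1 / 100) + 36 * τ := by
    linear_combination
      (6586491 / 5185024) * h.toLin.p2_z1Nv + (727875 / 2268448) * h.toLin.p2_k1Nv
      + (13334003 / 9073792) * h.toLin.p2_k3Wv + (3278143 / 4536896) * h.toLin.p2_eN1
      + (54753 / 59696) * h.toLin.p2_eW1 + (1118947 / 1296256) * h.toLin.p4_p1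
      + (3794643 / 2592512) * h.toLin.p4_p3 + (39965 / 40508) * h.toLin.p4_z1Eu
      + (8455 / 8528) * h.toLin.p4_k1Ev + (1323967 / 648128) * h.toLin.p4_k3Sv
      + (126155 / 162032) * h.toLin.p4_hNv + (1118947 / 1296256) * h.toLin.p1_z1Nu
      + (3794643 / 2592512) * h.toLin.p3_z3Wu + (25231 / 20254) * h.toLin.z1N_gNh
      + (71 / 64) * h.toLin.z1E_t2E + (472987 / 1296256) * h.toLin.z3W_k3W
      + (53513 / 1296256) * h.toLin.z3S_t1S + (756647 / 1296256) * h.toLin.z3S_t2S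
      + (53513 / 648128) * h.toLin.t1N_k1N + (1323967 / 648128) * h.toLin.t2S_k3S
      + (8455 / 8528) * h.toLin.t2E_k1E + (3278143 / 2592512) * h.toLin.k1N_k2N
      + (3278143 / 9073792) * h.toLin.k1N_eN1 + (378465 / 1296256) * h.toLin.k1N_eN2
      + (25231 / 20254) * h.toLin.k1N_gNh + (3278143 / 1296256) * h.toLin.k2N_eN1
      + (883085 / 1296256) * h.toLin.k2N_eN2 + (54753 / 34112) * h.toLin.k2W_k3W
      + (54753 / 17056) * h.toLin.k2W_eW1 + (54753 / 119392) * h.toLin.k3W_eW1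
      + (126155 / 486096) * h.toLin.eN2_hN + (378465 / 536731) * h.toLin.gN_hN
      + (9581315 / 2592512) * h.toLin.wRz1N + (39965 / 20254) * h.toLin.wRz1E
      + (3794643 / 2592512) * h.toLin.wLz3W + (53513 / 1296256) * h.toLin.wTt1N
      + (53513 / 1296256) * h.toLin.wBt1S + (54753 / 34112) * h.toLin.wBt2S
      + (54753 / 34112) * h.toLin.wBt2E + (8455 / 4264) * h.toLin.wRk1N
      + (8455 / 4264) * h.toLin.wRk1E + (54753 / 34112) * h.toLin.wTk2N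
      + (54753 / 34112) * h.toLin.wTk2W + (1323967 / 324064) * h.toLin.wLk3W
      + (1323967 / 324064) * h.toLin.wLk3S + (2093307 / 2592512) * h.c3
      + (4785661 / 2592512) * e.2.1 + h.hG
      + (1 / 4) * mul_nonneg (sub_nonneg.2 l0) (sub_nonneg.2 u0)
      + (1 / 4) * mul_nonneg (sub_nonneg.2 l1) (sub_nonneg.2 u1)
      + (1 / 4) * mul_nonneg (sub_nonneg.2 l2) (sub_nonneg.2 u2)
      + (1 / 4) * mul_nonneg (sub_nonneg.2 l3) (sub_nonneg.2 u3) + sq_nonneg (c.s1 - (7 / 13))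
      + (795589723 / 824418816) * hτ
  linarith only [this, h0]

theorem lfQ30 (h : Lin2 τ c) (e : CsQ c) (hτ : 0 ≤ τ) (h0 : τ ≤ 1 / 10 ^ 7)
    (l0 : (-9 / 4) ≤ c.z1Ny - c.p2y) (u0 : c.z1Ny - c.p2y ≤ (5 / 16)) (l1 : (-7 / 2) ≤ c.z1Ey - c.p4y) (u1 : c.z1Ey - c.p4y ≤ (-15 / 16))
    (l2 : (-13 / 8) ≤ c.z3Wy - c.p2y) (u2 : c.z3Wy - c.p2y ≤ (1 / 2)) (l3 : (-25 / 16) ≤ c.z3Sy - c.p4y) (u3 : c.z3Sy - c.p4y ≤ 0)
    (l4 : 0 ≤ c.s1) (u4 : c.s1 ≤ (7 / 4)) : False := by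
  have : 0 ≤ -(1 / 100) + 19 * τ := by
    linear_combination
      (29415 / 38528) * h.toLin.p2_z1Nv + (2965 / 4816) * h.toLin.p2_k3Wv
      + (955 / 4816) * h.toLin.p2_eN1 + (585 / 1204) * h.toLin.p2_eW1 + (41 / 602) * h.toLin.p2_hN
      + (929 / 1376) * h.toLin.p4_p1 + (79 / 172) * h.toLin.p4_p3 + (809 / 1376) * h.toLin.p4_z1Eu
      + (1265 / 1376) * h.toLin.p4_k3Sv + (41 / 86) * h.toLin.p4_hNv
      + (929 / 1376) * h.toLin.p1_z1Nu + (79 / 172) * h.toLin.p3_z3Wu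
      + (6785 / 69832) * h.toLin.z1N_k2N + (955 / 14448) * h.toLin.z1N_eN1
      + (24600 / 8729) * h.toLin.z1N_gNh + (585 / 688) * h.toLin.z1E_t2E
      + (245 / 688) * h.toLin.z3W_k3W + (25 / 64) * h.toLin.z3S_t2S
      + (1265 / 1376) * h.toLin.t2S_k3S + (955 / 1204) * h.toLin.k2N_eN1
      + (4920 / 8729) * h.toLin.k2N_gNh + (585 / 688) * h.toLin.k2W_k3W
      + (585 / 344) * h.toLin.k2W_eW1 + (585 / 2408) * h.toLin.k3W_eW1
      + (9840 / 15953) * h.toLin.gN_hN + (2037 / 688) * h.toLin.wRz1N + (809 / 688) * h.toLin.wRz1E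
      + (79 / 172) * h.toLin.wLz3W + (585 / 688) * h.toLin.wBt2S + (585 / 688) * h.toLin.wBt2E
      + (585 / 688) * h.toLin.wTk2N + (585 / 688) * h.toLin.wTk2W + (1265 / 688) * h.toLin.wLk3W
      + (1265 / 688) * h.toLin.wLk3S + (1565 / 2752) * h.c3 + (73 / 43) * e.2.1
      + (713 / 2752) * (sub_nonneg.2 l1) + h.hG
      + (1 / 4) * mul_nonneg (sub_nonneg.2 l0) (sub_nonneg.2 u0)
      + (1 / 4) * mul_nonneg (sub_nonneg.2 l1) (sub_nonneg.2 u1)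
      + (1 / 4) * mul_nonneg (sub_nonneg.2 l2) (sub_nonneg.2 u2)
      + (1 / 4) * mul_nonneg (sub_nonneg.2 l3) (sub_nonneg.2 u3) + sq_nonneg (c.s1 - (1 / 4))
      + (19839937 / 25378944) * hτ
  linarith only [this, h0]

theorem lfQ33 (h : Lin2 τ c) (e : CsQ c) (hτ : 0 ≤ τ) (h0 : τ ≤ 1 / 10 ^ 7)
    (l0 : (5 / 16) ≤ c.z1Ny - c.p2y) (u0 : c.z1Ny - c.p2y ≤ (21 / 16)) (l1 : (-7 / 2) ≤ c.z1Ey - c.p4y) (u1 : c.z1Ey - c.p4y ≤ (-45 / 16))
    (l2 : (-21 / 16) ≤ c.z3Wy - c.p2y) (u2 : c.z3Wy - c.p2y ≤ (-3 / 8)) (l3 : (-31 / 16) ≤ c.z3Sy - c.p4y) (u3 : c.z3Sy - c.p4y ≤ (-25 / 16))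
    (l4 : 0 ≤ c.s1) (u4 : c.s1 ≤ (7 / 4)) : False := by
  have : 0 ≤ -(1 / 100) + 33 * τ := by
    linear_combination
      (198524 / 410475) * h.toLin.p2_p4 + (266825951 / 157622400) * h.toLin.p2_z1Nv
      + (534464 / 410475) * h.toLin.p2_k3Wv + (133349 / 1094600) * h.toLin.p2_eN1
      + (14718637 / 19702800) * h.toLin.p2_eW1 + (262913 / 328380) * h.toLin.p4_p3
      + (244152641 / 157622400) * h.toLin.p4_z1Eu + (22284641 / 157622400) * h.toLin.p4_z3Sv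
      + (4183 / 175136) * h.toLin.p4_k1Ev + (133616 / 82095) * h.toLin.p4_k3Sv
      + (174091 / 136825) * h.toLin.p4_hNv + (262913 / 328380) * h.toLin.p3_z3Wu
      + (454426 / 82095) * h.toLin.z1N_gNh + (101 / 64) * h.toLin.z1E_t2E
      + (1891501 / 9851400) * h.toLin.z3W_k2W + (14718637 / 59108400) * h.toLin.z3W_eW1
      + (129673 / 1313520) * h.toLin.z3S_t1S + (1019657 / 1313520) * h.toLin.z3S_t2S
      + (129673 / 656760) * h.toLin.t1N_k1N + (133616 / 82095) * h.toLin.t2S_k3S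
      + (4183 / 175136) * h.toLin.t2E_k1E + (16732 / 82095) * h.toLin.k1N_gNh
      + (1466839 / 2189200) * h.toLin.k2N_eN1 + (5967959 / 3721640) * h.toLin.k2N_eN2
      + (1466839 / 2326025) * h.toLin.k2N_gNh + (534464 / 410475) * h.toLin.k2W_k3W
      + (14718637 / 4925700) * h.toLin.k2W_eW1 + (133349 / 2736500) * h.toLin.eN1_hN
      + (337809 / 465205) * h.toLin.eN2_gN + (112603 / 328380) * h.toLin.eN2_hN
      + (8623066 / 7251725) * h.toLin.gN_hN + (369071801 / 78811200) * h.toLin.wRz1N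
      + (244152641 / 78811200) * h.toLin.wRz1E + (85383761 / 78811200) * h.toLin.wLz3W
      + (22284641 / 78811200) * h.toLin.wLz3S + (129673 / 1313520) * h.toLin.wTt1N
      + (129673 / 1313520) * h.toLin.wBt1S + (139239 / 87568) * h.toLin.wBt2S
      + (139239 / 87568) * h.toLin.wBt2E + (4183 / 87568) * h.toLin.wRk1N
      + (4183 / 87568) * h.toLin.wRk1E + (139239 / 87568) * h.toLin.wTk2N
      + (139239 / 87568) * h.toLin.wTk2W + (267232 / 82095) * h.toLin.wLk3W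
      + (267232 / 82095) * h.toLin.wLk3S + (6587363 / 5254080) * h.c3
      + (493990961 / 157622400) * e.2.1 + (420011 / 1313520) * (sub_nonneg.2 u0) + h.hG
      + (1 / 4) * mul_nonneg (sub_nonneg.2 l0) (sub_nonneg.2 u0)
      + (1 / 4) * mul_nonneg (sub_nonneg.2 l1) (sub_nonneg.2 u1)
      + (1 / 4) * mul_nonneg (sub_nonneg.2 l2) (sub_nonneg.2 u2)
      + (1 / 4) * mul_nonneg (sub_nonneg.2 l3) (sub_nonneg.2 u3) + sq_nonneg (c.s1 - (2 / 3))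
      + (425757604169 / 2130266736000) * hτ
  linarith only [this, h0]

theorem lfQ36 (h : Lin2 τ c) (e : CsQ c) (hτ : 0 ≤ τ) (h0 : τ ≤ 1 / 10 ^ 7)
    (l0 : (21 / 16) ≤ c.z1Ny - c.p2y) (u0 : c.z1Ny - c.p2y ≤ (9 / 4)) (l1 : (-7 / 2) ≤ c.z1Ey - c.p4y) (u1 : c.z1Ey - c.p4y ≤ (-45 / 16))
    (l2 : (-5 / 4) ≤ c.z3Wy - c.p2y) (u2 : c.z3Wy - c.p2y ≤ (-3 / 8)) (l3 : (-5 / 2) ≤ c.z3Sy - c.p4y) (u3 : c.z3Sy - c.p4y ≤ (-31 / 16))
    (l4 : 0 ≤ c.s1) (u4 : c.s1 ≤ (7 / 4)) : False := by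
  have : 0 ≤ -(1 / 10) + 75 * τ := by
    linear_combination
      (1544321 / 3740430) * h.toLin.p2_p4 + (489169 / 124681) * h.toLin.p2_z1Nv
      + (497468 / 124681) * h.toLin.p2_z3Wu + (22024 / 124681) * h.toLin.p2_eW1
      + (706048 / 1870215) * h.toLin.p2_hN + (30970 / 124681) * h.toLin.p4_p3
      + (94976 / 124681) * h.toLin.p4_k1Ev + (297344 / 124681) * h.toLin.p4_gS
      + (5856256 / 1870215) * h.toLin.p4_hNv + (30970 / 124681) * h.toLin.p3_z3Wu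
      + (1650023 / 1870215) * h.toLin.z1N_t2N + (14092288 / 1870215) * h.toLin.z1N_gNh
      + (25464 / 124681) * h.toLin.z3W_k2W + (22024 / 374043) * h.toLin.z3W_eW1
      + (5303116 / 1870215) * h.toLin.z3S_t1S + (2362343 / 1870215) * h.toLin.z3S_t2S
      + (11001728 / 623405) * h.toLin.z3S_gSh + (11777024 / 1870215) * h.toLin.t1N_k1N
      + (18584 / 124681) * h.toLin.t1W_k2W + (594688 / 1870215) * h.toLin.t1S_gSh
      + (94976 / 124681) * h.toLin.t2E_k1E + (12156928 / 1870215) * h.toLin.k1N_gNh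
      + (94976 / 124681) * h.toLin.k2N_eN2 + (88096 / 124681) * h.toLin.k2W_eW1
      + (43008 / 124681) * h.toLin.eN2_gN + (60928 / 374043) * h.toLin.eN2_hN
      + (25518080 / 6608093) * h.toLin.gN_hN + (1198530 / 124681) * h.toLin.wRz1N
      + (1044144 / 124681) * h.toLin.wLz3W + (515706 / 124681) * h.toLin.wLz3S
      + (5888512 / 1870215) * h.toLin.wTt1N + (9292 / 124681) * h.toLin.wLt1W
      + (9292 / 124681) * h.toLin.wLt1S + (5888512 / 1870215) * h.toLin.wBt1S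
      + (1650023 / 1870215) * h.toLin.wTt2N + (2362343 / 1870215) * h.toLin.wBt2S
      + (47488 / 124681) * h.toLin.wBt2E + (189952 / 124681) * h.toLin.wRk1N
      + (189952 / 124681) * h.toLin.wRk1E + (47488 / 124681) * h.toLin.wTk2N
      + (47488 / 124681) * h.toLin.wTk2W + (1073849 / 124681) * h.c3 + (1198530 / 124681) * e.2.1
      + (sub_nonneg.2 l0) + (545411 / 124681) * (sub_nonneg.2 u3) + (87460429 / 198242790) * hτ
  linarith only [this, h0]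

theorem lfQ39 (h : Lin2 τ c) (e : CsQ c) (hτ : 0 ≤ τ) (h0 : τ ≤ 1 / 10 ^ 7)
    (l0 : (21 / 16) ≤ c.z1Ny - c.p2y) (u0 : c.z1Ny - c.p2y ≤ (11 / 8)) (l1 : (-7 / 2) ≤ c.z1Ey - c.p4y) (u1 : c.z1Ey - c.p4y ≤ (-27 / 8))
    (l2 : (-5 / 8) ≤ c.z3Wy - c.p2y) (u2 : c.z3Wy - c.p2y ≤ (-3 / 8)) (l3 : (-31 / 16) ≤ c.z3Sy - c.p4y) (u3 : c.z3Sy - c.p4y ≤ (-13 / 8))
    (l4 : (3 / 8) ≤ c.s1) (u4 : c.s1 ≤ (5 / 8)) : False := by
  have : 0 ≤ -(1 / 100) + 36 * τ := by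
    linear_combination
      (1726928939 / 2998867200) * h.toLin.p2_p4 + (40339079591 / 23391164160) * h.toLin.p2_z1Nv
      + (444776989 / 324877280) * h.toLin.p2_k3Wv + (143127 / 1094600) * h.toLin.p2_eN1
      + (2045348119 / 2923895520) * h.toLin.p2_eW1 + (3256145543 / 4883869440) * h.toLin.p4_p3
      + (22285507109 / 15594109440) * h.toLin.p4_z1Eu + (2577 / 87568) * h.toLin.p4_k1Ev
      + (444776989 / 259901824) * h.toLin.p4_k3Sv + (137882882 / 1736062965) * h.toLin.p4_gS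
      + (766247 / 547300) * h.toLin.p4_hNv + (12962833699 / 23391164160) * h.toLin.p3_z3Wu
      + (735520649 / 5847791040) * h.toLin.p3_eW1 + (735520649 / 6944251860) * h.toLin.p3_gS
      + (165461 / 27365) * h.toLin.z1N_gNh + (55 / 32) * h.toLin.z1E_t2E
      + (46704539 / 208849680) * h.toLin.z3W_k2W + (144933407 / 1349490240) * h.toLin.z3W_eW1
      + (456284067 / 519803648) * h.toLin.z3S_t2S + (6666057 / 8121932) * h.toLin.z3S_gSh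
      + (26629 / 109460) * h.toLin.t1N_k1N + (26629 / 459732) * h.toLin.t1W_k2W
      + (213032 / 1723995) * h.toLin.t1S_gSh + (444776989 / 259901824) * h.toLin.t2S_k3S
      + (2577 / 87568) * h.toLin.t2E_k1E + (6872 / 27365) * h.toLin.k1N_gNh
      + (1574397 / 2189200) * h.toLin.k2N_eN1 + (825634 / 465205) * h.toLin.k2N_eN2
      + (1574397 / 2326025) * h.toLin.k2N_gNh + (444776989 / 324877280) * h.toLin.k2W_k3W
      + (4826216887 / 1461947760) * h.toLin.k2W_eW1 + (143127 / 2736500) * h.toLin.eN1_hN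
      + (373872 / 465205) * h.toLin.eN2_gN + (31156 / 82095) * h.toLin.eN2_hN
      + (9481218 / 7251725) * h.toLin.gN_hN + (56913307961 / 11695582080) * h.toLin.wRz1N
      + (22285507109 / 7797054720) * h.toLin.wRz1E + (8731211087 / 11695582080) * h.toLin.wLz3W
      + (99990855 / 519803648) * h.toLin.wLz3S + (26629 / 218920) * h.toLin.wTt1N
      + (26629 / 919464) * h.toLin.wLt1W + (26629 / 919464) * h.toLin.wLt1S
      + (26629 / 218920) * h.toLin.wBt1S + (37949 / 21892) * h.toLin.wBt2S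
      + (37949 / 21892) * h.toLin.wBt2E + (2577 / 43784) * h.toLin.wRk1N
      + (2577 / 43784) * h.toLin.wRk1E + (37949 / 21892) * h.toLin.wTk2N
      + (37949 / 21892) * h.toLin.wTk2W + (444776989 / 129950912) * h.toLin.wLk3W
      + (444776989 / 129950912) * h.toLin.wLk3S + (27947798239 / 23391164160) * h.c3
      + (160796710517 / 46782328320) * e.2.1 + (505617 / 875680) * (sub_nonneg.2 u0) + h.hG
      + (1 / 4) * mul_nonneg (sub_nonneg.2 l0) (sub_nonneg.2 u0)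
      + (1 / 4) * mul_nonneg (sub_nonneg.2 l1) (sub_nonneg.2 u1)
      + (1 / 4) * mul_nonneg (sub_nonneg.2 l2) (sub_nonneg.2 u2)
      + (1 / 4) * mul_nonneg (sub_nonneg.2 l3) (sub_nonneg.2 u3) + sq_nonneg (c.s1 - (1 / 2))
      + (36271727184691 / 59647468608000) * hτ
  linarith only [this, h0]

theorem lfQ42 (h : Lin2 τ c) (e : CsQ c) (hτ : 0 ≤ τ) (h0 : τ ≤ 1 / 10 ^ 7)
    (l0 : (3 / 2) ≤ c.z1Ny - c.p2y) (u0 : c.z1Ny - c.p2y ≤ (13 / 8)) (l1 : (-7 / 2) ≤ c.z1Ey - c.p4y) (u1 : c.z1Ey - c.p4y ≤ (-27 / 8))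
    (l2 : (-5 / 8) ≤ c.z3Wy - c.p2y) (u2 : c.z3Wy - c.p2y ≤ (-3 / 8)) (l3 : (-31 / 16) ≤ c.z3Sy - c.p4y) (u3 : c.z3Sy - c.p4y ≤ (-13 / 8))
    (l4 : (3 / 8) ≤ c.s1) (u4 : c.s1 ≤ (5 / 8)) : False := by
  have : 0 ≤ -(1 / 100) + 77 * τ := by
    linear_combination
      (75857 / 98490) * h.toLin.p2_p4 + (361469 / 157584) * h.toLin.p2_p3
      + (377585 / 52528) * h.toLin.p2_z1Nv + (21605 / 3752) * h.toLin.p2_z3Wu
      + (3 / 35) * h.toLin.p2_eN1 + (21221 / 39396) * h.toLin.p2_eW1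
      + (289325 / 157584) * h.toLin.p4_z1Eu + (24368 / 9849) * h.toLin.p4_gS
      + (26 / 35) * h.toLin.p4_hNv + (4163 / 29547) * h.toLin.p3_k2Wv
      + (21221 / 118188) * h.toLin.p3_eW1 + (28024 / 9849) * h.toLin.p3_gS
      + (3107 / 938) * h.toLin.z1N_t1N + (24 / 7) * h.toLin.z1N_gNh + h.toLin.z1E_t2E
      + h.toLin.z3S_t2S + (34568 / 1407) * h.toLin.z3S_gSh + (15535 / 9849) * h.toLin.t1W_k2W
      + (99424 / 29547) * h.toLin.t1S_gSh + (33 / 70) * h.toLin.k2N_eN1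
      + (106 / 119) * h.toLin.k2N_eN2 + (264 / 595) * h.toLin.k2N_gNh
      + (84884 / 29547) * h.toLin.k2W_eW1 + (6 / 175) * h.toLin.eN1_hN + (48 / 119) * h.toLin.eN2_gN
      + (4 / 21) * h.toLin.eN2_hN + (1296 / 1855) * h.toLin.gN_hN + (199345 / 13132) * h.toLin.wRz1N
      + (289325 / 78792) * h.toLin.wRz1E + (21605 / 1876) * h.toLin.wLz3W
      + (21605 / 3752) * h.toLin.wLz3S + (3107 / 938) * h.toLin.wTt1N
      + (15535 / 19698) * h.toLin.wLt1W + (15535 / 19698) * h.toLin.wLt1S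
      + (3107 / 938) * h.toLin.wBt1S + h.toLin.wBt2S + h.toLin.wBt2E + h.toLin.wTk2N + h.toLin.wTk2W
      + (10049 / 1407) * h.c3 + (2102815 / 157584) * e.2.1 + (sub_nonneg.2 u1)
      + (15577 / 11256) * (sub_nonneg.2 u3) + (12629 / 3752) * (sub_nonneg.2 l0)
      + (7952638559 / 10648738800) * hτ
  linarith only [this, h0]

theorem lfQ45 (h : Lin2 τ c) (e : CsQ c) (hτ : 0 ≤ τ) (h0 : τ ≤ 1 / 10 ^ 7)
    (l0 : (13 / 8) ≤ c.z1Ny - c.p2y) (u0 : c.z1Ny - c.p2y ≤ (9 / 4)) (l1 : (-7 / 2) ≤ c.z1Ey - c.p4y) (u1 : c.z1Ey - c.p4y ≤ (-45 / 16))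
    (l2 : (-5 / 4) ≤ c.z3Wy - c.p2y) (u2 : c.z3Wy - c.p2y ≤ (-3 / 8)) (l3 : (-31 / 16) ≤ c.z3Sy - c.p4y) (u3 : c.z3Sy - c.p4y ≤ (-25 / 16))
    (l4 : 0 ≤ c.s1) (u4 : c.s1 ≤ (5 / 8)) : False := by
  have : 0 ≤ -(1 / 10) + 176 * τ := by
    linear_combination
      (22138 / 17115) * h.toLin.p2_p4 + (23313 / 4564) * h.toLin.p2_p3
      + (75233 / 3912) * h.toLin.p2_z1Nv + (72475 / 4564) * h.toLin.p2_z3Wu
      + (2 / 35) * h.toLin.p2_eN1 + (4 / 3) * h.toLin.p2_eW1 + (173765 / 27384) * h.toLin.p4_z1Eu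
      + (25504 / 3423) * h.toLin.p4_gS + (52 / 105) * h.toLin.p4_hNv
      + (818 / 1141) * h.toLin.p3_z3Wu + (6544 / 1141) * h.toLin.p3_gS + (22 / 3) * h.toLin.z1N_t1N
      + (16 / 7) * h.toLin.z1N_gNh + h.toLin.z1E_t2E + h.toLin.z3S_t2S
      + (231920 / 3423) * h.toLin.z3S_gSh + (4 / 3) * h.toLin.t1W_k2W + (4 / 3) * h.toLin.t1W_eW1
      + (64 / 9) * h.toLin.t1S_gSh + (11 / 35) * h.toLin.k2N_eN1 + (212 / 357) * h.toLin.k2N_eN2
      + (176 / 595) * h.toLin.k2N_gNh + (8 / 3) * h.toLin.k2W_eW1 + (4 / 175) * h.toLin.eN1_hN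
      + (32 / 119) * h.toLin.eN2_gN + (8 / 63) * h.toLin.eN2_hN + (864 / 1855) * h.toLin.gN_hN
      + (266983 / 6846) * h.toLin.wRz1N + (173765 / 13692) * h.toLin.wRz1E
      + (74111 / 2282) * h.toLin.wLz3W + (72475 / 4564) * h.toLin.wLz3S + (22 / 3) * h.toLin.wTt1N
      + (5 / 3) * h.toLin.wLt1W + (1 / 3) * h.toLin.wTt1W + (5 / 3) * h.toLin.wLt1S
      + 7 * h.toLin.wBt1S + h.toLin.wBt2S + h.toLin.wBt2E + (2 / 3) * h.toLin.wTk2N
      + (2 / 3) * h.toLin.wTk2W + (61403 / 3423) * h.c3 + (894167 / 27384) * e.2.1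
      + (818 / 1141) * (sub_nonneg.2 u2) + (28187 / 13692) * (sub_nonneg.2 u3) + (sub_nonneg.2 u1)
      + (619 / 84) * (sub_nonneg.2 l0) + (78569063 / 154206150) * hτ
  linarith only [this, h0]

theorem lfQ48 (h : Lin2 τ c) (e : CsQ c) (hτ : 0 ≤ τ) (h0 : τ ≤ 1 / 10 ^ 7)
    (l0 : (21 / 16) ≤ c.z1Ny - c.p2y) (u0 : c.z1Ny - c.p2y ≤ (9 / 4)) (l1 : (-13 / 4) ≤ c.z1Ey - c.p4y) (u1 : c.z1Ey - c.p4y ≤ (-45 / 16))
    (l2 : (-3 / 4) ≤ c.z3Wy - c.p2y) (u2 : c.z3Wy - c.p2y ≤ (-3 / 8)) (l3 : (-31 / 16) ≤ c.z3Sy - c.p4y) (u3 : c.z3Sy - c.p4y ≤ (-25 / 16))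
    (l4 : (5 / 8) ≤ c.s1) (u4 : c.s1 ≤ (7 / 8)) : False := by
  have : 0 ≤ -(1 / 10) + 8 * τ := by
    linear_combination
      (1809657 / 7201408) * h.toLin.p2_p4 + (242293 / 1800352) * h.toLin.p2_p3
      + (300949 / 1800352) * h.toLin.p2_z1Nv + (259541 / 3600704) * h.toLin.p2_z3Wu
      + (3127 / 393827) * h.toLin.p2_k3Wv + (12508 / 393827) * h.toLin.p2_eW1
      + (1904777 / 7651496) * h.toLin.p4_p3 + (237529 / 7201408) * h.toLin.p4_z1Eu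
      + (57211 / 1800352) * h.toLin.p4_k1Ev + (487325 / 3825748) * h.toLin.p4_hNv
      + (9 / 32) * h.toLin.p3_z3Wu + (9381 / 56261) * h.toLin.p3_gS
      + (50131 / 3825748) * h.toLin.p3_hNv + (47810591 / 54010560) * h.toLin.z1N_t2N
      + (292564 / 843915) * h.toLin.z1N_gNh + (42853 / 3600704) * h.toLin.z1E_t2E
      + (197533 / 13502640) * h.toLin.z3S_t1S + (15403189 / 18003520) * h.toLin.z3S_t2S
      + (259541 / 843915) * h.toLin.z3S_gSh + (1773541 / 6751320) * h.toLin.t1N_k1N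
      + (3127 / 56261) * h.toLin.t1W_k2W + (100064 / 843915) * h.toLin.t1S_gSh
      + (96937 / 843915) * h.toLin.t2S_k3S + (57211 / 1800352) * h.toLin.t2E_k1E
      + (228844 / 843915) * h.toLin.k1N_gNh + (3127 / 56261) * h.toLin.k2N_eN2
      + (6254 / 56261) * h.toLin.k2W_eW1 + (6254 / 393827) * h.toLin.k3W_eW1
      + (100064 / 843915) * h.toLin.k3S_gSh + (1416 / 56261) * h.toLin.eN2_gN
      + (2006 / 168783) * h.toLin.eN2_hN + (497336 / 2981833) * h.toLin.gN_hN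
      + (187045 / 450088) * h.toLin.wRz1N + (237529 / 3600704) * h.toLin.wRz1E
      + (382945 / 900176) * h.toLin.wLz3W + (259541 / 3600704) * h.toLin.wLz3S
      + (1773541 / 13502640) * h.toLin.wTt1N + (3127 / 112522) * h.toLin.wLt1W
      + (3127 / 112522) * h.toLin.wLt1S + (1773541 / 13502640) * h.toLin.wBt1S
      + (47810591 / 54010560) * h.toLin.wTt2N + (49311551 / 54010560) * h.toLin.wBt2S
      + (3127 / 112522) * h.toLin.wBt2E + (57211 / 900176) * h.toLin.wRk1N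
      + (57211 / 900176) * h.toLin.wRk1E + (3127 / 112522) * h.toLin.wTk2N
      + (3127 / 112522) * h.toLin.wTk2W + (3127 / 112522) * h.toLin.wLk3W
      + (3127 / 112522) * h.toLin.wLk3S + (3410157 / 3600704) * h.c3 + (2755191 / 7201408) * e.2.1
      + (84601 / 56261) * (sub_nonneg.2 l1) + h.hG
      + (1 / 4) * mul_nonneg (sub_nonneg.2 l0) (sub_nonneg.2 u0)
      + (1 / 4) * mul_nonneg (sub_nonneg.2 l1) (sub_nonneg.2 u1)
      + (1 / 4) * mul_nonneg (sub_nonneg.2 l2) (sub_nonneg.2 u2)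
      + (1 / 4) * mul_nonneg (sub_nonneg.2 l3) (sub_nonneg.2 u3) + sq_nonneg (c.s1 - (3 / 4))
      + (1428902169 / 2027646440) * hτ
  linarith only [this, h0]

theorem lfQ51 (h : Lin2 τ c) (e : CsQ c) (hτ : 0 ≤ τ) (h0 : τ ≤ 1 / 10 ^ 7)
    (l0 : (5 / 16) ≤ c.z1Ny - c.p2y) (u0 : c.z1Ny - c.p2y ≤ (13 / 8)) (l1 : (-7 / 2) ≤ c.z1Ey - c.p4y) (u1 : c.z1Ey - c.p4y ≤ (-27 / 8))
    (l2 : (-7 / 2) ≤ c.z3Wy - c.p2y) (u2 : c.z3Wy - c.p2y ≤ (-5 / 8)) (l3 : (-25 / 16) ≤ c.z3Sy - c.p4y) (u3 : c.z3Sy - c.p4y ≤ 0)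
    (l4 : 0 ≤ c.s1) (u4 : c.s1 ≤ (7 / 4)) : False := by
  have : 0 ≤ -(1 / 100) + 48 * τ := by
    linear_combination
      (251 / 1120) * h.toLin.p2_p3 + (22799 / 9120) * h.toLin.p2_z1Nv
      + (7273 / 36480) * h.toLin.p2_z3Wu + (53 / 28) * h.toLin.p2_k3Wv + (11 / 112) * h.toLin.p2_eN1
      + (107 / 280) * h.toLin.p2_eN2 + (173 / 168) * h.toLin.p2_eW1
      + (212229 / 103360) * h.toLin.p4_p3 + (72623 / 24320) * h.toLin.p4_z1Eu
      + (15011 / 6080) * h.toLin.p4_k3Sv + (739 / 680) * h.toLin.p4_hNv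
      + (359 / 160) * h.toLin.p3_z3Wu + (83 / 190) * h.toLin.p3_gS + (739 / 4760) * h.toLin.p3_hNv
      + (7 / 20) * h.toLin.z1N_t1N + (43 / 5) * h.toLin.z1N_gNh + (55 / 32) * h.toLin.z1E_t2E
      + (206477 / 547200) * h.toLin.z3S_t2S + (7273 / 8550) * h.toLin.z3S_gSh
      + (1 / 6) * h.toLin.t1W_k2W + (16 / 45) * h.toLin.t1S_gSh
      + (734023 / 273600) * h.toLin.t2S_k3S + (11 / 28) * h.toLin.k2N_eN1
      + (4785 / 1904) * h.toLin.k2N_eN2 + (44 / 119) * h.toLin.k2N_gNh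
      + (157 / 96) * h.toLin.k2W_k3W + (173 / 48) * h.toLin.k2W_eW1 + (173 / 336) * h.toLin.k3W_eW1
      + (944 / 4275) * h.toLin.k3S_gSh + (11 / 112) * h.toLin.eN1_eN2
      + (1339 / 595) * h.toLin.eN2_gN + (2956 / 1855) * h.toLin.gN_hN
      + (127961 / 18240) * h.toLin.wRz1N + (72623 / 12160) * h.toLin.wRz1E
      + (48199 / 18240) * h.toLin.wLz3W + (7273 / 36480) * h.toLin.wLz3S + (7 / 20) * h.toLin.wTt1N
      + (1 / 12) * h.toLin.wLt1W + (1 / 12) * h.toLin.wLt1S + (7 / 20) * h.toLin.wBt1S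
      + (55 / 32) * h.toLin.wBt2S + (55 / 32) * h.toLin.wBt2E + (55 / 32) * h.toLin.wTk2N
      + (55 / 32) * h.toLin.wTk2W + (479 / 96) * h.toLin.wLk3W + (479 / 96) * h.toLin.wLk3S
      + (21523 / 36480) * h.c3 + (58795 / 14592) * e.2.1 + (97 / 80) * (sub_nonneg.2 u2) + h.hG
      + (1 / 4) * mul_nonneg (sub_nonneg.2 l0) (sub_nonneg.2 u0)
      + (1 / 4) * mul_nonneg (sub_nonneg.2 l1) (sub_nonneg.2 u1)
      + (1 / 4) * mul_nonneg (sub_nonneg.2 l2) (sub_nonneg.2 u2)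
      + (1 / 4) * mul_nonneg (sub_nonneg.2 l3) (sub_nonneg.2 u3) + sq_nonneg (c.s1 - (7 / 8))
      + (129957703 / 363283200) * hτ
  linarith only [this, h0]

theorem lfQ54 (h : Lin2 τ c) (e : CsQ c) (hτ : 0 ≤ τ) (h0 : τ ≤ 1 / 10 ^ 7)
    (l0 : (13 / 8) ≤ c.z1Ny - c.p2y) (u0 : c.z1Ny - c.p2y ≤ (9 / 4)) (l1 : (-27 / 8) ≤ c.z1Ey - c.p4y) (u1 : c.z1Ey - c.p4y ≤ (-15 / 16))
    (l2 : (-7 / 2) ≤ c.z3Wy - c.p2y) (u2 : c.z3Wy - c.p2y ≤ (-5 / 8)) (l3 : (-25 / 16) ≤ c.z3Sy - c.p4y) (u3 : c.z3Sy - c.p4y ≤ 0)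
    (l4 : 0 ≤ c.s1) (u4 : c.s1 ≤ (7 / 4)) : False := by
  have : 0 ≤ -(1 / 10) + 59 * τ := by
    linear_combination
      (239 / 64) * h.toLin.p2_p3 + (37481 / 7296) * h.toLin.p2_z1Nv
      + (4063 / 3648) * h.toLin.p2_z3Wu + (69 / 32) * h.toLin.p2_k3Wv
      + (7379 / 3648) * h.toLin.p4_p3 + (15463 / 7296) * h.toLin.p4_z1Eu
      + (2021 / 1824) * h.toLin.p4_k3Sv + (163 / 64) * h.toLin.p3_z3Wu + (239 / 57) * h.toLin.p3_gS
      + (69 / 64) * h.toLin.z1N_t1N + (33 / 8) * h.toLin.z1N_t2N + (69 / 64) * h.toLin.z1E_t2E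
      + (541 / 1710) * h.toLin.z3S_t2S + (4063 / 855) * h.toLin.z3S_gSh
      + (69 / 32) * h.toLin.t1W_k3W + (267403 / 27360) * h.toLin.t2S_k3S
      + (7648 / 855) * h.toLin.k3S_gSh + (37481 / 3648) * h.toLin.wRz1N
      + (15463 / 3648) * h.toLin.wRz1E + (17417 / 3648) * h.toLin.wLz3W
      + (4063 / 3648) * h.toLin.wLz3S + (69 / 64) * h.toLin.wTt1N + (69 / 64) * h.toLin.wTt1W
      + (33 / 8) * h.toLin.wTt2N + (333 / 64) * h.toLin.wBt2S + (69 / 64) * h.toLin.wBt2E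
      + (69 / 16) * h.toLin.wLk3W + (69 / 16) * h.toLin.wLk3S + (343 / 228) * h.c3
      + (19833 / 2432) * e.2.1 + (97 / 64) * (sub_nonneg.2 u2) + (271 / 64) * (sub_nonneg.2 l0)
      + h.hG + (1 / 4) * mul_nonneg (sub_nonneg.2 l0) (sub_nonneg.2 u0)
      + (1 / 4) * mul_nonneg (sub_nonneg.2 l1) (sub_nonneg.2 u1)
      + (1 / 4) * mul_nonneg (sub_nonneg.2 l2) (sub_nonneg.2 u2)
      + (1 / 4) * mul_nonneg (sub_nonneg.2 l3) (sub_nonneg.2 u3) + sq_nonneg (c.s1 - (7 / 8))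
      + (67 / 480) * hτ
  linarith only [this, h0]

theorem lfQ57 (h : Lin2 τ c) (e : CsQ c) (hτ : 0 ≤ τ) (h0 : τ ≤ 1 / 10 ^ 7)
    (l0 : (5 / 16) ≤ c.z1Ny - c.p2y) (u0 : c.z1Ny - c.p2y ≤ (13 / 8)) (l1 : (-7 / 2) ≤ c.z1Ey - c.p4y) (u1 : c.z1Ey - c.p4y ≤ (-27 / 8))
    (l2 : (-5 / 8) ≤ c.z3Wy - c.p2y) (u2 : c.z3Wy - c.p2y ≤ (-3 / 8)) (l3 : (-11 / 8) ≤ c.z3Sy - c.p4y) (u3 : c.z3Sy - c.p4y ≤ 0)
    (l4 : 0 ≤ c.s1) (u4 : c.s1 ≤ (5 / 8)) : False := by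
  have : 0 ≤ -(1 / 100) + 9 * τ := by
    linear_combination
      (20728499 / 81634400) * h.toLin.p2_p4 + (445081 / 3265376) * h.toLin.p2_p3
      + (5308601 / 6530752) * h.toLin.p2_z1Nv + (71757 / 3265376) * h.toLin.p2_z3Wu
      + (10821413 / 16326880) * h.toLin.p2_k3Wv + (21909 / 5102150) * h.toLin.p2_eN1
      + (51121 / 510215) * h.toLin.p2_eW1 + (340167 / 1632688) * h.toLin.p4_p3
      + (6333283 / 8163440) * h.toLin.p4_z1Eu + (10483733 / 16326880) * h.toLin.p4_k3Sv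
      + (51121 / 816344) * h.toLin.p4_eS2 + (94939 / 2551075) * h.toLin.p4_hNv
      + (1 / 4) * h.toLin.p3_z3Wu + (51121 / 816344) * h.toLin.p3_eS2
      + (8442 / 102043) * h.toLin.p3_gS + (15729029 / 32653760) * h.toLin.z1N_t1N
      + (87636 / 510215) * h.toLin.z1N_gNh + (13275221 / 32653760) * h.toLin.z1E_t2E
      + (47838 / 510215) * h.toLin.z3S_gSh + (51121 / 510215) * h.toLin.t1W_k2W
      + (10821413 / 16326880) * h.toLin.t1W_k3W + (51121 / 510215) * h.toLin.t1W_eW1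
      + (51121 / 204086) * h.toLin.t1S_eS2 + (13275221 / 16326880) * h.toLin.t2S_k3S
      + (240999 / 10204300) * h.toLin.k2N_eN1 + (387059 / 8673655) * h.toLin.k2N_eN2
      + (963996 / 43368275) * h.toLin.k2N_gNh + (102242 / 510215) * h.toLin.k2W_eW1
      + (90048 / 510215) * h.toLin.k3S_gSh + (21909 / 12755375) * h.toLin.eN1_hN
      + (175272 / 8673655) * h.toLin.eN2_gN + (14606 / 1530645) * h.toLin.eN2_hN
      + (4732344 / 135206975) * h.toLin.gN_hN + (5440055 / 3265376) * h.toLin.wRz1N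
      + (6333283 / 4081720) * h.toLin.wRz1E + (479929 / 1632688) * h.toLin.wLz3W
      + (71757 / 3265376) * h.toLin.wLz3S + (15729029 / 32653760) * h.toLin.wTt1N
      + (51121 / 408172) * h.toLin.wLt1W + (11639349 / 32653760) * h.toLin.wTt1W
      + (51121 / 408172) * h.toLin.wLt1S + (51121 / 408172) * h.toLin.wBt1S
      + (13275221 / 32653760) * h.toLin.wBt2S + (13275221 / 32653760) * h.toLin.wBt2E
      + (51121 / 1020430) * h.toLin.wTk2N + (51121 / 1020430) * h.toLin.wTk2W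
      + (10821413 / 8163440) * h.toLin.wLk3W + (10821413 / 8163440) * h.toLin.wLk3S
      + (23919 / 1020430) * h.c3 + (14533709 / 16326880) * e.2.1
      + (42848429 / 32653760) * (sub_nonneg.2 l1) + (2794223 / 8163440) * (sub_nonneg.2 l3) + h.hG
      + (1 / 4) * mul_nonneg (sub_nonneg.2 l0) (sub_nonneg.2 u0)
      + (1 / 4) * mul_nonneg (sub_nonneg.2 l1) (sub_nonneg.2 u1)
      + (1 / 4) * mul_nonneg (sub_nonneg.2 l2) (sub_nonneg.2 u2)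
      + (1 / 4) * mul_nonneg (sub_nonneg.2 l3) (sub_nonneg.2 u3) + sq_nonneg (c.s1 - (2 / 5))
      + (548134157497 / 2206577832000) * hτ
  linarith only [this, h0]

theorem lfQ60 (h : Lin2 τ c) (e : CsQ c) (hτ : 0 ≤ τ) (h0 : τ ≤ 1 / 10 ^ 7)
    (l0 : (5 / 16) ≤ c.z1Ny - c.p2y) (u0 : c.z1Ny - c.p2y ≤ (13 / 8)) (l1 : (-27 / 8) ≤ c.z1Ey - c.p4y) (u1 : c.z1Ey - c.p4y ≤ (-15 / 16))
    (l2 : (-5 / 8) ≤ c.z3Wy - c.p2y) (u2 : c.z3Wy - c.p2y ≤ (-3 / 8)) (l3 : (-25 / 16) ≤ c.z3Sy - c.p4y) (u3 : c.z3Sy - c.p4y ≤ 0)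
    (l4 : 0 ≤ c.s1) (u4 : c.s1 ≤ (7 / 4)) : False := by
  have : 0 ≤ -(1 / 10) + 5 * τ := by
    linear_combination
      (21 / 128) * h.toLin.p2_p4 + (3 / 16) * h.toLin.p2_z1Nv + (3 / 16) * h.toLin.p2_k3Wv
      + (83 / 288) * h.toLin.p4_p3 + (83 / 288) * h.toLin.p4_z1Eu + (25 / 576) * h.toLin.p4_z1Ev
      + (3 / 16) * h.toLin.p4_k3Sv + (83 / 288) * h.toLin.p3_z3Wu + (19 / 144) * h.toLin.z1N_t1N
      + (203 / 576) * h.toLin.z1N_t2N + (19 / 144) * h.toLin.z1E_t2E + (11 / 288) * h.toLin.z3W_t1W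
      + (25 / 64) * h.toLin.z3S_t2S + (3 / 16) * h.toLin.t1W_k3W + (3 / 16) * h.toLin.t2S_k3S
      + (3 / 8) * h.toLin.wRz1N + (191 / 288) * h.toLin.wRz1E + (83 / 288) * h.toLin.wLz3W
      + (19 / 144) * h.toLin.wTt1N + (19 / 144) * h.toLin.wTt1W + (203 / 576) * h.toLin.wTt2N
      + (31 / 64) * h.toLin.wBt2S + (19 / 144) * h.toLin.wBt2E + (3 / 8) * h.toLin.wLk3W
      + (3 / 8) * h.toLin.wLk3S + (247 / 576) * h.c3 + (545 / 576) * (sub_nonneg.2 l1) + h.hG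
      + (1 / 4) * mul_nonneg (sub_nonneg.2 l0) (sub_nonneg.2 u0)
      + (1 / 4) * mul_nonneg (sub_nonneg.2 l1) (sub_nonneg.2 u1)
      + (1 / 4) * mul_nonneg (sub_nonneg.2 l2) (sub_nonneg.2 u2)
      + (1 / 4) * mul_nonneg (sub_nonneg.2 l3) (sub_nonneg.2 u3) + sq_nonneg (c.s1 - (2 / 3))
      + (595 / 1152) * hτ
  linarith only [this, h0]

theorem lfQ63 (h : Lin2 τ c) (e : CsQ c) (hτ : 0 ≤ τ) (h0 : τ ≤ 1 / 10 ^ 7)
    (l0 : (13 / 8) ≤ c.z1Ny - c.p2y) (u0 : c.z1Ny - c.p2y ≤ (9 / 4)) (l1 : (-7 / 2) ≤ c.z1Ey - c.p4y) (u1 : c.z1Ey - c.p4y ≤ (-27 / 8))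
    (l2 : (-3 / 8) ≤ c.z3Wy - c.p2y) (u2 : c.z3Wy - c.p2y ≤ (1 / 2)) (l3 : (-5 / 2) ≤ c.z3Sy - c.p4y) (u3 : c.z3Sy - c.p4y ≤ (-21 / 16))
    (l4 : 0 ≤ c.s1) (u4 : c.s1 ≤ (7 / 4)) : False := by
  have : 0 ≤ -1 + 651 * τ := by
    linear_combination
      (831 / 68) * h.toLin.p2_p4 + (837 / 17) * h.toLin.p2_p3 + (743 / 17) * h.toLin.p2_z1Nv
      + (15 / 2) * h.toLin.p2_z3Wv + (192 / 17) * h.toLin.p2_k3Wv + (64 / 17) * h.toLin.p2_eN1
      + (72 / 17) * h.toLin.p2_eW1 + (96 / 17) * h.toLin.p3_z3Wu + (24 / 17) * h.toLin.p3_eW1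
      + (960 / 17) * h.toLin.p3_gS + (413 / 34) * h.toLin.z1N_t1N + (1187 / 34) * h.toLin.z1N_t2N
      + (128 / 17) * h.toLin.z1N_k2N + (64 / 51) * h.toLin.z1N_eN1 + (797 / 34) * h.toLin.z1E_t2E
      + (413 / 34) * h.toLin.z3W_t1W + 64 * h.toLin.z3S_gSh + (1984 / 17) * h.toLin.t2S_k3S
      + (256 / 17) * h.toLin.k2N_eN1 + (192 / 17) * h.toLin.k2W_k3W + (384 / 17) * h.toLin.k2W_eW1
      + (2048 / 17) * h.toLin.k3S_gSh + (1566 / 17) * h.toLin.wRz1N + (351 / 17) * h.toLin.wLz3W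
      + 15 * h.toLin.wLz3S + (413 / 34) * h.toLin.wTt1N + (413 / 34) * h.toLin.wTt1W
      + (1187 / 34) * h.toLin.wTt2N + (992 / 17) * h.toLin.wBt2S + (797 / 34) * h.toLin.wBt2E
      + (192 / 17) * h.toLin.wTk2N + (192 / 17) * h.toLin.wTk2W + (480 / 17) * h.toLin.wLk3W
      + (480 / 17) * h.toLin.wLk3S + (447 / 34) * h.c3 + (1566 / 17) * e.2.1
      + (13 / 2) * (sub_nonneg.2 l2) + (797 / 34) * (sub_nonneg.2 u1) + (sub_nonneg.2 u3)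
      + (944 / 17) * (sub_nonneg.2 l0) + (167 / 204) * hτ
  linarith only [this, h0]

theorem lfQ66 (h : Lin2 τ c) (e : CsQ c) (hτ : 0 ≤ τ) (h0 : τ ≤ 1 / 10 ^ 7)
    (l0 : (5 / 16) ≤ c.z1Ny - c.p2y) (u0 : c.z1Ny - c.p2y ≤ (13 / 8)) (l1 : (-27 / 8) ≤ c.z1Ey - c.p4y) (u1 : c.z1Ey - c.p4y ≤ (-15 / 16))
    (l2 : (-3 / 8) ≤ c.z3Wy - c.p2y) (u2 : c.z3Wy - c.p2y ≤ (1 / 2)) (l3 : (-5 / 2) ≤ c.z3Sy - c.p4y) (u3 : c.z3Sy - c.p4y ≤ (-11 / 8))
    (l4 : 0 ≤ c.s1) (u4 : c.s1 ≤ (7 / 4)) : False := by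
  have : 0 ≤ -(1 / 10) + 15 * τ := by
    linear_combination
      (1597367 / 3034880) * h.toLin.p2_p4 + (45135 / 303488) * h.toLin.p2_p3
      + (939539 / 1820928) * h.toLin.p2_z1Nv + (74327 / 227616) * h.toLin.p2_z3Wu
      + (11577 / 189680) * h.toLin.p2_eN1 + (13949 / 56904) * h.toLin.p2_eW1
      + (150501 / 606976) * h.toLin.p4_z3Sv + (50167 / 94840) * h.toLin.p4_hNv
      + (885 / 37936) * h.toLin.p3_eW1 + (885 / 4742) * h.toLin.p3_gS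
      + (3717 / 18968) * h.toLin.z1N_t1N + (75953 / 303488) * h.toLin.z1N_t2N
      + (11577 / 4742) * h.toLin.z1N_gNh + (27013 / 37936) * h.toLin.z1E_t2E
      + (25243 / 56904) * h.toLin.z3W_k2W + (19933 / 341424) * h.toLin.z3W_eW1
      + (292057 / 303488) * h.toLin.z3S_t2S + (1947 / 4742) * h.toLin.z3S_gSh
      + (885 / 9484) * h.toLin.t1W_k2W + (472 / 2371) * h.toLin.t1S_gSh
      + (127347 / 379360) * h.toLin.k2N_eN1 + (12031 / 18968) * h.toLin.k2N_eN2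
      + (7491 / 23710) * h.toLin.k2N_gNh + (30553 / 28452) * h.toLin.k2W_eW1
      + (11577 / 474200) * h.toLin.eN1_hN + (681 / 2371) * h.toLin.eN2_gN
      + (3859 / 28452) * h.toLin.eN2_hN + (312579 / 628315) * h.toLin.gN_hN
      + (182563 / 113808) * h.toLin.wRz1N + (418213 / 455232) * h.toLin.wLz3W
      + (89853 / 151744) * h.toLin.wLz3S + (3717 / 18968) * h.toLin.wTt1N
      + (885 / 18968) * h.toLin.wLt1W + (885 / 18968) * h.toLin.wLt1S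
      + (3717 / 18968) * h.toLin.wBt1S + (75953 / 303488) * h.toLin.wTt2N
      + (292057 / 303488) * h.toLin.wBt2S + (27013 / 37936) * h.toLin.wBt2E
      + (27013 / 37936) * h.toLin.wTk2N + (27013 / 37936) * h.toLin.wTk2W + (811537 / 455232) * h.c3
      + (182563 / 113808) * e.2.1 + (69217 / 151744) * (sub_nonneg.2 l2)
      + (55547 / 151744) * (sub_nonneg.2 l1) + h.hG
      + (1 / 4) * mul_nonneg (sub_nonneg.2 l0) (sub_nonneg.2 u0)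
      + (1 / 4) * mul_nonneg (sub_nonneg.2 l1) (sub_nonneg.2 u1)
      + (1 / 4) * mul_nonneg (sub_nonneg.2 l2) (sub_nonneg.2 u2)
      + (1 / 4) * mul_nonneg (sub_nonneg.2 l3) (sub_nonneg.2 u3) + sq_nonneg (c.s1 - (11 / 16))
      + (2426409397 / 7238188800) * hτ
  linarith only [this, h0]

theorem lfQ69 (h : Lin2 τ c) (e : CsQ c) (hτ : 0 ≤ τ) (h0 : τ ≤ 1 / 10 ^ 7)
    (l0 : (-9 / 4) ≤ c.z1Ny - c.p2y) (u0 : c.z1Ny - c.p2y ≤ (-1 / 8)) (l1 : (-7 / 2) ≤ c.z1Ey - c.p4y) (u1 : c.z1Ey - c.p4y ≤ (-15 / 16))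
    (l2 : (-7 / 2) ≤ c.z3Wy - c.p2y) (u2 : c.z3Wy - c.p2y ≤ (-2)) (l3 : 0 ≤ c.z3Sy - c.p4y) (u3 : c.z3Sy - c.p4y ≤ (9 / 4))
    (l4 : 0 ≤ c.s1) (u4 : c.s1 ≤ (7 / 4)) : False := by
  have : 0 ≤ -(1 / 10) + 38 * τ := by
    linear_combination
      (263183 / 718720) * h.toLin.p2_p3 + (434539 / 287488) * h.toLin.p2_z1Nv
      + (208571 / 2515520) * h.toLin.p2_k1Nv + (1023423 / 628880) * h.toLin.p2_k3Wv
      + (1458203 / 1257760) * h.toLin.p2_eN1 + (1023423 / 1257760) * h.toLin.p2_eW1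
      + (111673941 / 97745920) * h.toLin.p4_p3 + (2799627 / 1437440) * h.toLin.p4_z1Eu
      + (226093 / 359360) * h.toLin.p4_k1Ev + (588643 / 359360) * h.toLin.p4_k3Sv
      + (3016651 / 2874880) * h.toLin.p4_eS2 + (2733369 / 3054560) * h.toLin.p4_hNv
      + (11 / 8) * h.toLin.p3_z3Wu + (9 / 16) * h.toLin.p3_z3Su
      + (153863 / 2874880) * h.toLin.p3_eS2 + (718251 / 3054560) * h.toLin.p3_hNv
      + (11893 / 11230) * h.toLin.z1N_gNh + (33741 / 44920) * h.toLin.z1N_hNu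
      + (71 / 64) * h.toLin.z1E_t2E + (21739 / 17968) * h.toLin.t2N_k2N
      + (588643 / 359360) * h.toLin.t2S_k3S + (21739 / 17968) * h.toLin.t2S_eS2
      + (226093 / 359360) * h.toLin.t2E_k1E + (588643 / 718720) * h.toLin.k1N_k2N
      + (1458203 / 2515520) * h.toLin.k1N_eN1 + (11893 / 11230) * h.toLin.k1N_gNh
      + (1458203 / 359360) * h.toLin.k2N_eN1 + (1023423 / 718720) * h.toLin.k2W_k3W
      + (1023423 / 359360) * h.toLin.k2W_eW1 + (1023423 / 2515520) * h.toLin.k3W_eW1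
      + (715697 / 359360) * h.toLin.k3S_eS2 + (35679 / 59519) * h.toLin.gN_hN
      + (2924687 / 718720) * h.toLin.wRz1N + (2799627 / 718720) * h.toLin.wRz1E
      + (11 / 8) * h.toLin.wLz3W + (9 / 16) * h.toLin.wLz3S + (21739 / 35936) * h.toLin.wRt2N
      + (21739 / 35936) * h.toLin.wLt2S + (1023423 / 718720) * h.toLin.wBt2S
      + (1023423 / 718720) * h.toLin.wBt2E + (226093 / 179680) * h.toLin.wRk1N
      + (226093 / 179680) * h.toLin.wRk1E + (1023423 / 718720) * h.toLin.wTk2N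
      + (1023423 / 718720) * h.toLin.wTk2W + (3070269 / 718720) * h.toLin.wLk3W
      + (3070269 / 718720) * h.toLin.wLk3S + (2037517 / 1437440) * e.2.1 + h.hG
      + (1 / 4) * mul_nonneg (sub_nonneg.2 l0) (sub_nonneg.2 u0)
      + (1 / 4) * mul_nonneg (sub_nonneg.2 l1) (sub_nonneg.2 u1)
      + (1 / 4) * mul_nonneg (sub_nonneg.2 l2) (sub_nonneg.2 u2)
      + (1 / 4) * mul_nonneg (sub_nonneg.2 l3) (sub_nonneg.2 u3) + sq_nonneg (c.s1 - (7 / 8))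
      + (2691733491 / 5180533760) * hτ
  linarith only [this, h0]

theorem lfQ72 (h : Lin2 τ c) (e : CsQ c) (hτ : 0 ≤ τ) (h0 : τ ≤ 1 / 10 ^ 7)
    (l0 : (-1 / 8) ≤ c.z1Ny - c.p2y) (u0 : c.z1Ny - c.p2y ≤ (9 / 4)) (l1 : (-7 / 2) ≤ c.z1Ey - c.p4y) (u1 : c.z1Ey - c.p4y ≤ (-15 / 16))
    (l2 : (-1) ≤ c.z3Wy - c.p2y) (u2 : c.z3Wy - c.p2y ≤ (1 / 2)) (l3 : 0 ≤ c.z3Sy - c.p4y) (u3 : c.z3Sy - c.p4y ≤ (9 / 4))
    (l4 : 0 ≤ c.s1) (u4 : c.s1 ≤ (7 / 4)) : False := by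
  have : 0 ≤ -(1 / 10) + 11 * τ := by
    linear_combination
      (3 / 16) * h.toLin.p2_p4 + (9 / 16) * h.toLin.p2_p3 + (1 / 8) * h.toLin.p2_z1Nu
      + (39 / 32) * h.toLin.p2_z1Nv + (17 / 16) * h.toLin.p2_k3Wv + (1 / 8) * h.toLin.p4_p3
      + (9 / 8) * h.toLin.p4_z1Ev + (17 / 16) * h.toLin.p4_k3Sv + (1 / 8) * h.toLin.p3_z3Wu
      + (9 / 16) * h.toLin.p3_z3Su + (17 / 32) * h.toLin.z1N_t1N + (17 / 32) * h.toLin.z1E_t2E
      + (17 / 16) * h.toLin.t1W_k3W + (17 / 16) * h.toLin.t2S_k3S + (43 / 16) * h.toLin.wRz1N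
      + (9 / 4) * h.toLin.wRz1E + (1 / 8) * h.toLin.wLz3W + (9 / 16) * h.toLin.wLz3S
      + (17 / 32) * h.toLin.wTt1N + (17 / 32) * h.toLin.wTt1W + (17 / 32) * h.toLin.wBt2S
      + (17 / 32) * h.toLin.wBt2E + (17 / 8) * h.toLin.wLk3W + (17 / 8) * h.toLin.wLk3S
      + (5 / 16) * e.2.1 + (37 / 64) * (sub_nonneg.2 l1) + h.hG
      + (1 / 4) * mul_nonneg (sub_nonneg.2 l0) (sub_nonneg.2 u0)
      + (1 / 4) * mul_nonneg (sub_nonneg.2 l1) (sub_nonneg.2 u1)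
      + (1 / 4) * mul_nonneg (sub_nonneg.2 l2) (sub_nonneg.2 u2)
      + (1 / 4) * mul_nonneg (sub_nonneg.2 l3) (sub_nonneg.2 u3) + sq_nonneg (c.s1 - (7 / 16))
      + (21 / 32) * hτ
  linarith only [this, h0]

theorem lfQ75 (h : Lin2 τ c) (e : CsQ c) (hτ : 0 ≤ τ) (h0 : τ ≤ 1 / 10 ^ 7)
    (l0 : (-9 / 4) ≤ c.z1Ny - c.p2y) (u0 : c.z1Ny - c.p2y ≤ (-3 / 16)) (l1 : (-7 / 2) ≤ c.z1Ey - c.p4y) (u1 : c.z1Ey - c.p4y ≤ (-15 / 16))
    (l2 : (1 / 2) ≤ c.z3Wy - c.p2y) (u2 : c.z3Wy - c.p2y ≤ (11 / 4)) (l3 : (-1 / 8) ≤ c.z3Sy - c.p4y) (u3 : c.z3Sy - c.p4y ≤ (9 / 4))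
    (l4 : 0 ≤ c.s1) (u4 : c.s1 ≤ (7 / 4)) : False := by
  have : 0 ≤ -(1 / 10) + 29 * τ := by
    linear_combination
      (70339388653 / 68301642240) * h.toLin.p2_p3 + (134361171329 / 204904926720) * h.toLin.p2_z1Nv
      + (18161231359 / 51226231680) * h.toLin.p2_z3Wu + (54522311 / 355737720) * h.toLin.p2_k3Wv
      + (561736447 / 656746560) * h.toLin.p2_eN1 + (13736367577 / 51226231680) * h.toLin.p2_eW1
      + (298878761 / 437831040) * h.toLin.p4_p1 + (2307688249 / 15178142720) * h.toLin.p4_z1Eu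
      + (119856107 / 2276721408) * h.toLin.p4_k1Ev + (437065613 / 437831040) * h.toLin.p4_eS2
      + (205094119 / 474316960) * h.toLin.p4_hNv + (298878761 / 437831040) * h.toLin.p1_z1Nu
      + (9001622809 / 17075410560) * h.toLin.p3_z3Su + (51784159 / 656746560) * h.toLin.p3_eW1
      + (51784159 / 82093320) * h.toLin.p3_gS + (614535371 / 355737720) * h.toLin.z1N_gNh
      + (8770255747 / 7589071360) * h.toLin.z1E_t2E + (3715539317 / 17075410560) * h.toLin.z3W_t1W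
      + (13849925587 / 25613115840) * h.toLin.z3W_k2W
      + (1618874371 / 153678695040) * h.toLin.z3W_eW1 + (2881411159 / 1067213160) * h.toLin.z3S_gSh
      + (3715539317 / 8537705280) * h.toLin.t1N_k1N + (3293399303 / 1707541056) * h.toLin.t2N_k2N
      + (16326283177 / 9106885632) * h.toLin.t2S_eS2 + (3715539317 / 12806557920) * h.toLin.t2S_gSh
      + (119856107 / 2276721408) * h.toLin.t2E_k1E + (119856107 / 266803290) * h.toLin.k1N_gNh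
      + (3293399303 / 853770528) * h.toLin.k2N_eN1 + (54522311 / 355737720) * h.toLin.k2W_k3W
      + (17775531979 / 12806557920) * h.toLin.k2W_eW1 + (54522311 / 71147544) * h.toLin.k3S_eS2
      + (272836337 / 1067213160) * h.toLin.eN1_gN + (205094119 / 2371584800) * h.toLin.eN1_hN
      + (1166986843 / 1422950880) * h.toLin.eS2_gS + (1435658833 / 3142349860) * h.toLin.gN_hN
      + (491559877891 / 204904926720) * h.toLin.wRz1N + (2307688249 / 7589071360) * h.toLin.wRz1E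
      + (202308427591 / 204904926720) * h.toLin.wLz3W + (79227658621 / 68301642240) * h.toLin.wLz3S
      + (3715539317 / 17075410560) * h.toLin.wTt1N + (3715539317 / 17075410560) * h.toLin.wTt1W
      + (3293399303 / 3415082112) * h.toLin.wRt2N + (3293399303 / 3415082112) * h.toLin.wLt2S
      + (840938993 / 711475440) * h.toLin.wBt2S + (840938993 / 711475440) * h.toLin.wBt2E
      + (119856107 / 1138360704) * h.toLin.wRk1N + (119856107 / 1138360704) * h.toLin.wRk1E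
      + (3293399303 / 3415082112) * h.toLin.wTk2N + (3293399303 / 3415082112) * h.toLin.wTk2W
      + (54522311 / 142295088) * h.toLin.wLk3W + (54522311 / 142295088) * h.toLin.wLk3S
      + (351129707 / 7589071360) * h.toLin.wl + (29786738723 / 25613115840) * h.c3
      + (641061652763 / 409809853440) * e.2.1 + h.hG
      + (1 / 4) * mul_nonneg (sub_nonneg.2 l0) (sub_nonneg.2 u0)
      + (1 / 4) * mul_nonneg (sub_nonneg.2 l1) (sub_nonneg.2 u1)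
      + (1 / 4) * mul_nonneg (sub_nonneg.2 l2) (sub_nonneg.2 u2)
      + (1 / 4) * mul_nonneg (sub_nonneg.2 l3) (sub_nonneg.2 u3) + sq_nonneg (c.s1 - (7 / 15))
      + (32251169934413 / 162899416742400) * hτ
  linarith only [this, h0]

theorem lfQ78 (h : Lin2 τ c) (e : CsQ c) (hτ : 0 ≤ τ) (h0 : τ ≤ 1 / 10 ^ 7)
    (l0 : (-9 / 4) ≤ c.z1Ny - c.p2y) (u0 : c.z1Ny - c.p2y ≤ (-9 / 16)) (l1 : (5 / 4) ≤ c.z1Ey - c.p4y) (u1 : c.z1Ey - c.p4y ≤ 3)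
    (l2 : (-7 / 2) ≤ c.z3Wy - c.p2y) (u2 : c.z3Wy - c.p2y ≤ (-1)) (l3 : (-5 / 2) ≤ c.z3Sy - c.p4y) (u3 : c.z3Sy - c.p4y ≤ 0)
    (l4 : 0 ≤ c.s1) (u4 : c.s1 ≤ (7 / 4)) : False := by
  have : 0 ≤ -(1 / 10) + 36 * τ := by
    linear_combination
      (22249449 / 57717760) * h.toLin.p2_z3Wu + (1218585289 / 1038919680) * h.toLin.p2_z3Wv
      + (36933377 / 21644160) * h.toLin.p2_k1Nv + (2228217 / 40402432) * h.toLin.p2_k3Wv
      + (24125273 / 43288320) * h.toLin.p2_eN1 + (40102021 / 56815920) * h.toLin.p2_eW1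
      + (775036243 / 6579824640) * h.toLin.p4_p3 + (39831 / 2885888) * h.toLin.p4_z1Ev
      + (10186772489 / 6579824640) * h.toLin.p4_z3Sv + (4529081 / 2164416) * h.toLin.p4_k1Ev
      + (31438073 / 328991232) * h.toLin.p4_k3Sv + (727359 / 3607360) * h.toLin.p4_eS2
      + (2331427 / 4328832) * h.toLin.p4_hWv + (5086127 / 7214720) * h.toLin.p1_z1Nu
      + (17 / 16) * h.toLin.p1_z1Eu + (4095443 / 86576640) * h.toLin.p1_eN2
      + (2343 / 22546) * h.toLin.p1_gN + (10448861 / 10822080) * h.toLin.p1_hWv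
      + (727359 / 3607360) * h.toLin.p3_eS2 + (18903323 / 51404880) * h.toLin.p3_gS
      + (30541067 / 7214720) * h.toLin.p3_hW + (13277 / 112730) * h.toLin.z1N_gNh
      + (13917097 / 32466240) * h.toLin.z3W_k2W + (31506629 / 259729920) * h.toLin.z3W_k3W
      + (21501859 / 10822080) * h.toLin.z3W_hWu + (30521571509 / 49348684800) * h.toLin.z3S_t2S
      + (321356491 / 771073200) * h.toLin.z3S_gSh + (727359 / 901840) * h.toLin.t1N_k1N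
      + (727359 / 901840) * h.toLin.t1W_k2W + (727359 / 901840) * h.toLin.t1S_eS2
      + (21109951891 / 24674342400) * h.toLin.t2S_k3S + (4529081 / 2164416) * h.toLin.t2E_k1E
      + (168876911 / 173153280) * h.toLin.k1N_k2N + (24125273 / 86576640) * h.toLin.k1N_eN1
      + (4095443 / 86576640) * h.toLin.k1N_eN2 + (12496 / 56365) * h.toLin.k1N_gNh
      + (168876911 / 86576640) * h.toLin.k2N_eN1 + (4095443 / 28858880) * h.toLin.k2N_eN2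
      + (40102021 / 16233120) * h.toLin.k2W_eW1 + (40102021 / 113631840) * h.toLin.k3W_eW1
      + (37806646 / 48192075) * h.toLin.k3S_gSh + (2642641 / 3607360) * h.toLin.wRz1N
      + (1572959 / 1442944) * h.toLin.wRz1E + (78527971 / 14429440) * h.toLin.wLz3W
      + (9217657 / 2885888) * h.toLin.wLz3S + (727359 / 1803680) * h.toLin.wTt1N
      + (727359 / 1803680) * h.toLin.wLt1W + (727359 / 1803680) * h.toLin.wLt1S
      + (727359 / 1803680) * h.toLin.wBt1S + (4529081 / 4328832) * h.toLin.wBt2S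
      + (4529081 / 4328832) * h.toLin.wBt2E + (4529081 / 1082208) * h.toLin.wRk1N
      + (4529081 / 1082208) * h.toLin.wRk1E + (4529081 / 4328832) * h.toLin.wTk2N
      + (4529081 / 4328832) * h.toLin.wTk2W + (16232471 / 43288320) * h.toLin.wLk3W
      + (16232471 / 43288320) * h.toLin.wLk3S + (12612483 / 7214720) * h.c3 + h.hG
      + (1 / 4) * mul_nonneg (sub_nonneg.2 l0) (sub_nonneg.2 u0)
      + (1 / 4) * mul_nonneg (sub_nonneg.2 l1) (sub_nonneg.2 u1)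
      + (1 / 4) * mul_nonneg (sub_nonneg.2 l2) (sub_nonneg.2 u2)
      + (1 / 4) * mul_nonneg (sub_nonneg.2 l3) (sub_nonneg.2 u3) + sq_nonneg (c.s1 - (7 / 8))
      + (3065279729 / 32899123200) * hτ
  linarith only [this, h0]

theorem lfQ81 (h : Lin2 τ c) (e : CsQ c) (hτ : 0 ≤ τ) (h0 : τ ≤ 1 / 10 ^ 7)
    (l0 : (5 / 16) ≤ c.z1Ny - c.p2y) (u0 : c.z1Ny - c.p2y ≤ (9 / 4)) (l1 : (-15 / 16) ≤ c.z1Ey - c.p4y) (u1 : c.z1Ey - c.p4y ≤ 3)
    (l2 : (-7 / 2) ≤ c.z3Wy - c.p2y) (u2 : c.z3Wy - c.p2y ≤ (-1)) (l3 : 0 ≤ c.z3Sy - c.p4y) (u3 : c.z3Sy - c.p4y ≤ (9 / 4))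
    (l4 : 0 ≤ c.s1) (u4 : c.s1 ≤ (7 / 4)) : False := by
  have : 0 ≤ -(1 / 10) + 32 * τ := by
    linear_combination
      (123305 / 117504) * h.toLin.p2_z1Nv + (116131 / 78336) * h.toLin.p2_z3Wu
      + (38558033 / 25615872) * h.toLin.p2_k1Nv + (131989 / 78336) * h.toLin.p2_k3Wv
      + (46303 / 66708) * h.toLin.p2_gN + (24343 / 14688) * h.toLin.p4_p3
      + (368623 / 235008) * h.toLin.p4_z1Ev + (116131 / 156672) * h.toLin.p4_z3Sv
      + (360677 / 235008) * h.toLin.p4_k1Ev + (389053 / 235008) * h.toLin.p4_k3Sv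
      + (635 / 19584) * h.toLin.p4_eS2 + (203 / 1224) * h.toLin.p4_gE + (7 / 2304) * h.toLin.p1_z1Eu
      + (7 / 576) * h.toLin.p1_k4Ev + (7 / 48) * h.toLin.p1_hN + (198085 / 117504) * h.toLin.p3_z3Wu
      + (203 / 117504) * h.toLin.p3_z3Su + (1199 / 58752) * h.toLin.p3_eS2
      + (1 / 48) * h.toLin.p3_hNv + (9383 / 1836) * h.toLin.z1N_gNh
      + (6641 / 235008) * h.toLin.z1E_t2E + (1561 / 1224) * h.toLin.z1E_gEu
      + (411061 / 235008) * h.toLin.t1N_k1N + (131989 / 78336) * h.toLin.t1W_k3W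
      + (7547 / 117504) * h.toLin.t1S_k3S + (41551 / 26112) * h.toLin.t2S_k3S
      + (360677 / 235008) * h.toLin.t2E_k1E + (12596 / 50031) * h.toLin.k1N_gNh
      + (3457 / 29376) * h.toLin.k3S_eS2 + (917 / 9792) * h.toLin.k4S_eS2
      + (7 / 306) * h.toLin.k4E_gEh + (2 / 53) * h.toLin.gN_hN + (387355 / 117504) * h.toLin.wRz1N
      + (808205 / 235008) * h.toLin.wRz1E + (273239 / 58752) * h.toLin.wLz3W
      + (348799 / 235008) * h.toLin.wLz3S + (411061 / 470016) * h.toLin.wTt1N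
      + (131989 / 156672) * h.toLin.wTt1W + (7547 / 235008) * h.toLin.wBt1S
      + (41551 / 52224) * h.toLin.wBt2S + (41551 / 52224) * h.toLin.wBt2E
      + (360677 / 117504) * h.toLin.wRk1N + (360677 / 117504) * h.toLin.wRk1E
      + (131989 / 39168) * h.toLin.wLk3W + (131989 / 39168) * h.toLin.wLk3S
      + (917 / 19584) * h.toLin.wBk4S + (917 / 19584) * h.toLin.wBk4E
      + (65893 / 117504) * h.toLin.wl + (116131 / 78336) * h.c3 + h.hG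
      + (1 / 4) * mul_nonneg (sub_nonneg.2 l0) (sub_nonneg.2 u0)
      + (1 / 4) * mul_nonneg (sub_nonneg.2 l1) (sub_nonneg.2 u1)
      + (1 / 4) * mul_nonneg (sub_nonneg.2 l2) (sub_nonneg.2 u2)
      + (1 / 4) * mul_nonneg (sub_nonneg.2 l3) (sub_nonneg.2 u3) + sq_nonneg (c.s1 - (7 / 8))
      + (797986531 / 2715282432) * hτ
  linarith only [this, h0]

theorem lfQ84 (h : Lin2 τ c) (e : CsQ c) (hτ : 0 ≤ τ) (h0 : τ ≤ 1 / 10 ^ 7)
    (l0 : (-3 / 8) ≤ c.z1Ny - c.p2y) (u0 : c.z1Ny - c.p2y ≤ (9 / 4)) (l1 : (-15 / 16) ≤ c.z1Ey - c.p4y) (u1 : c.z1Ey - c.p4y ≤ (1 / 2))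
    (l2 : (-1) ≤ c.z3Wy - c.p2y) (u2 : c.z3Wy - c.p2y ≤ (11 / 4)) (l3 : (-5 / 2) ≤ c.z3Sy - c.p4y) (u3 : c.z3Sy - c.p4y ≤ (9 / 4))
    (l4 : 0 ≤ c.s1) (u4 : c.s1 ≤ (7 / 4)) : False := by
  have : 0 ≤ -(1 / 10) + 7 * τ := by
    linear_combination
      (1247 / 5520) * h.toLin.p2_p4 + (119 / 368) * h.toLin.p2_z1Nv + (15 / 46) * h.toLin.p2_z3Wv
      + (2 / 345) * h.toLin.p2_hN + (15 / 46) * h.toLin.p4_z3Sv + (8 / 23) * h.toLin.p4_gE
      + (14 / 345) * h.toLin.p4_hNv + (1779 / 7360) * h.toLin.z1N_t1N + (16 / 115) * h.toLin.z1N_gNh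
      + (1229 / 7360) * h.toLin.z1E_t2E + (296 / 115) * h.toLin.z1E_gEu
      + (313 / 1472) * h.toLin.z3W_t1W + (107 / 3680) * h.toLin.z3S_t1S
      + (1901 / 7360) * h.toLin.z3S_t2S + (16 / 345) * h.toLin.t2N_gNh
      + (16 / 345) * h.toLin.t2E_gEh + (64 / 1219) * h.toLin.gN_hN + (125 / 184) * h.toLin.wRz1N
      + (111 / 184) * h.toLin.wRz1E + (15 / 23) * h.toLin.wLz3W + (15 / 23) * h.toLin.wLz3S
      + (1779 / 7360) * h.toLin.wTt1N + (313 / 1472) * h.toLin.wTt1W + (107 / 3680) * h.toLin.wBt1S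
      + (1 / 92) * h.toLin.wRt2N + (21 / 460) * h.toLin.wTt2N + (1901 / 7360) * h.toLin.wBt2S
      + (1 / 92) * h.toLin.wRt2E + (313 / 1472) * h.toLin.wBt2E + (331 / 1472) * h.toLin.wl
      + (1 / 2) * h.c3 + (329 / 920) * e.2.1 + (187 / 1472) * (sub_nonneg.2 l1) + h.hG
      + (1 / 4) * mul_nonneg (sub_nonneg.2 l0) (sub_nonneg.2 u0)
      + (1 / 4) * mul_nonneg (sub_nonneg.2 l1) (sub_nonneg.2 u1)
      + (1 / 4) * mul_nonneg (sub_nonneg.2 l2) (sub_nonneg.2 u2)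
      + (1 / 4) * mul_nonneg (sub_nonneg.2 l3) (sub_nonneg.2 u3) + sq_nonneg (c.s1 - (7 / 16))
      + (5023 / 36570) * hτ
  linarith only [this, h0]


end Pool.Agent.P.MP_dba4bb_co.Ex
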