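import Pool.Agent.P.MP_dba4bb_co.Ex.S1

/-! The centre of the square goes to the centre of a face. -/

namespace Pool.Agent.P.MP_dba4bb_co.Ex

open Set

namespace CentreP

theorem max_lip {A B A' B' e : ℝ} (h1 : (A - A') ^ 2 ≤ e) (h2 : (B - B') ^ 2 ≤ e) :
    (max A B - max A' B') ^ 2 ≤ e := by
  have := min_lip (A := -A) (B := -B) (A' := -A') (B' := -B') (e := e) (by linarith) (by linarith)
  rw [min_neg_neg, min_neg_neg] at this
  linarith

theorem le_add_of_sq {x y e : ℝ} (h : (x - y) ^ 2 ≤ e) : x ≤ y + √e := by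
  have := Real.le_sqrt_of_sq_le h
  linarith

theorem e_lip (p r r' : P3) : (√(e2 r p) - √(e2 r' p)) ^ 2 ≤ e2 r r' := by
  have h1 := nrm_lip (r.1 - p.1) (r.2.1 - p.2.1) (r'.1 - p.1) (r'.2.1 - p.2.1)
  have h2 := nrm_lip (√((r.1 - p.1) ^ 2 + (r.2.1 - p.2.1) ^ 2)) (r.2.2 - p.2.2)
    (√((r'.1 - p.1) ^ 2 + (r'.2.1 - p.2.1) ^ 2)) (r'.2.2 - p.2.2)
  rw [Real.sq_sqrt (by positivity), Real.sq_sqrt (by positivity)] at h2
  unfold e2
  linarith

noncomputable def rho (x : ℝ) : ℝ := min |x| (min |x - 8| |x + 8|)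

theorem rho_lip (x y : ℝ) : (rho x - rho y) ^ 2 ≤ (x - y) ^ 2 :=
  min_lip (abs_lip _ _) (min_lip ((abs_lip _ _).trans_eq (by ring)) ((abs_lip _ _).trans_eq (by ring)))

theorem rho_per {x : ℝ} (h1 : -8 ≤ x) (h2 : x ≤ 0) : rho (x + 8) = rho x := by
  unfold rho
  rw [show x + 8 - 8 = x by ring, abs_of_nonpos h2, abs_of_nonneg (by linarith : 0 ≤ x + 8),
    abs_of_nonneg (by linarith : 0 ≤ x + 8 + 8), abs_of_nonpos (by linarith : x - 8 ≤ 0),
    min_left_comm, min_eq_left (by linarith : x + 8 ≤ x + 8 + 8), ← min_assoc,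
    min_eq_left (by linarith : -x ≤ -(x - 8))]

theorem rho_sq_le (x : ℝ) : rho x ^ 2 ≤ x ^ 2 := by
  rw [← sq_abs x]
  exact pow_le_pow_left₀ (le_min (abs_nonneg _) (le_min (abs_nonneg _) (abs_nonneg _)))
    (min_le_left _ _) 2

noncomputable def G (c1 c2 t h : ℝ) : ℝ := √(rho (t - c1) ^ 2 + (h - c2) ^ 2)

theorem G_lip (c1 c2 t h t' h' : ℝ) :
    (G c1 c2 t h - G c1 c2 t' h') ^ 2 ≤ (t - t') ^ 2 + (h - h') ^ 2 := by
  have h1 := nrm_lip (rho (t - c1)) (h - c2) (rho (t' - c1)) (h' - c2)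
  have h2 := rho_lip (t - c1) (t' - c1)
  unfold G
  linarith

theorem G_per {c1 : ℝ} (c2 h : ℝ) (h1 : -1 ≤ c1) (h2 : c1 ≤ 7) : G c1 c2 (-1) h = G c1 c2 7 h := by
  unfold G
  rw [show 7 - c1 = -1 - c1 + 8 by ring, rho_per (by linarith) (by linarith)]

theorem G_le (c1 c2 t h : ℝ) : G c1 c2 t h ≤ √((t - c1) ^ 2 + (h - c2) ^ 2) :=
  Real.sqrt_le_sqrt (by linarith [rho_sq_le (t - c1)])

theorem lt_G {c1 c2 t h : ℝ} (h1 : 16 < (t - c1) ^ 2 + (h - c2) ^ 2)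
    (h2 : 16 < (t - c1 - 8) ^ 2 + (h - c2) ^ 2) (h3 : 16 < (t - c1 + 8) ^ 2 + (h - c2) ^ 2) :
    4 < G c1 c2 t h := by
  refine Real.lt_sqrt_of_sq_lt ?_
  unfold rho
  rcases min_choice |t - c1| (min |t - c1 - 8| |t - c1 + 8|) with e | e
  · rw [e, sq_abs]; linarith
  · rw [e]
    rcases min_choice |t - c1 - 8| |t - c1 + 8| with e | e <;> rw [e, sq_abs] <;> linarith

/-- the unfolded distance to the point `(-A, -E, 1)` -/
noncomputable def mG (A E t h : ℝ) : ℝ :=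
  min (min (G (-E) (2 + A) t h) (G (2 + A) (2 + E) t h))
    (min (G (4 + E) (2 - A) t h) (G (6 - A) (2 - E) t h))

theorem mG_lip (A E t h t' h' : ℝ) :
    (mG A E t h - mG A E t' h') ^ 2 ≤ (t - t') ^ 2 + (h - h') ^ 2 :=
  min_lip (min_lip (G_lip ..) (G_lip ..)) (min_lip (G_lip ..) (G_lip ..))

theorem mG_per {A E : ℝ} (h : ℝ) (a0 : 0 ≤ A) (a1 : A ≤ 1) (e0 : 0 ≤ E) (e1 : E ≤ 1) :
    mG A E (-1) h = mG A E 7 h := by
  unfold mG
  rw [G_per _ _ (by linarith) (by linarith), G_per _ _ (by linarith) (by linarith),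
    G_per _ _ (by linarith) (by linarith), G_per _ _ (by linarith) (by linarith)]

section
variable {A B δ : ℝ} (a0 : 0 < A) (a1 : A ≤ 1) (b0 : 0 ≤ B) (b1 : B + δ ≤ A) (d0 : 0 ≤ δ)
  (d1 : 8 * δ ≤ A ^ 2) (d2 : 0 < 2 * B + δ)
include a0 a1 b0 b1 d0 d1 d2

theorem big0 : 4 < mG A (B + δ) B (-2 + A) := by
  have d3 : δ ≤ 1 / 8 := by nlinarith
  refine lt_min (lt_min ?_ ?_) (lt_min ?_ ?_) <;> refine lt_G ?_ ?_ ?_ <;> nlinarith

theorem big1 : 4 < mG A (B + δ) (2 - A) (-2 + B) := by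
  have d3 : δ ≤ 1 / 8 := by nlinarith
  refine lt_min (lt_min ?_ ?_) (lt_min ?_ ?_) <;> refine lt_G ?_ ?_ ?_ <;> nlinarith

theorem big2 : 4 < mG A (B + δ) (4 - B) (-2 - A) := by
  have d3 : δ ≤ 1 / 8 := by nlinarith
  refine lt_min (lt_min ?_ ?_) (lt_min ?_ ?_) <;> refine lt_G ?_ ?_ ?_ <;> nlinarith

theorem big3 : 4 < mG A (B + δ) (6 + A) (-2 - B) := by
  have d3 : δ ≤ 1 / 8 := by nlinarith
  refine lt_min (lt_min ?_ ?_) (lt_min ?_ ?_) <;> refine lt_G ?_ ?_ ?_ <;> nlinarith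

end

/-- the perimeter coordinate -/
noncomputable def th (r : P3) : ℝ :=
  if r.1 = 1 then r.2.1 else if r.2.1 = 1 then 2 - r.1 else if r.1 = -1 then 4 - r.2.1 else 6 + r.1

theorem th0 {r : P3} (h : r.1 = 1) : th r = r.2.1 := by unfold th; rw [if_pos h]

theorem th1 {r : P3} (h : r.2.1 = 1) : th r = 2 - r.1 := by
  unfold th
  split_ifs with c
  · rw [h, c]; norm_num
  · rfl

theorem th2 {r : P3} (h : r.1 = -1) : th r = 4 - r.2.1 := by
  unfold th
  rw [if_neg (by rw [h]; norm_num)]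
  split_ifs with c
  · rw [h, c]; norm_num
  · rfl

theorem th3 {A E : ℝ} (a0 : 0 ≤ A) (a1 : A ≤ 1) (e0 : 0 ≤ E) (e1 : E ≤ 1) {r : P3}
    (h : r.2.1 = -1) (w : ℝ) : mG A E (th r) w = mG A E (6 + r.1) w := by
  unfold th
  split_ifs with c c' c''
  · rw [h, c, mG_per w a0 a1 e0 e1]; norm_num
  · rw [h] at c'; norm_num at c'
  · rw [h, c'']; norm_num
  · rfl

noncomputable def band (A B E D : ℝ) (r : P3) : ℝ :=
  max (min (D - mG A E (th r) r.2.2) (D - √(e2 r (-A, -E, 1)))) √(e2 r (A, B, -1))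

noncomputable def phi (A B E D : ℝ) (r : P3) : ℝ :=
  if r.2.2 = -1 then √(e2 r (A, B, -1))
  else if r.2.2 = 1 then max (D - √(e2 r (-A, -E, 1))) √(e2 r (A, B, -1)) else band A B E D r

theorem phi_eq {A B E D : ℝ} {r : P3}
    (h1 : r.2.2 = -1 → D ≤ mG A E (th r) (-1) + √(e2 r (A, B, -1)))
    (h2 : r.2.2 = 1 → mG A E (th r) 1 ≤ √(e2 r (-A, -E, 1))) : phi A B E D r = band A B E D r := by
  unfold phi
  split_ifs with c c'
  · unfold band
    rw [max_eq_right (min_le_of_left_le (by rw [c]; linarith [h1 c]))]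
  · unfold band
    rw [min_eq_right (by rw [c']; linarith [h2 c'])]
  · rfl

theorem band_lip {A B E D : ℝ} {r r' : P3}
    (h : (mG A E (th r) r.2.2 - mG A E (th r') r'.2.2) ^ 2 ≤ e2 r r') :
    (band A B E D r - band A B E D r') ^ 2 ≤ e2 r r' :=
  max_lip (min_lip (by linarith) (by linarith [e_lip (-A, -E, 1) r r'])) (e_lip ..)

theorem low {A E D t p1 p2 e : ℝ} (h : D ≤ mG A E p1 p2)
    (he : (p1 - t) ^ 2 + (p2 - -1) ^ 2 = e) : D ≤ mG A E t (-1) + √e :=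
  h.trans (le_add_of_sq ((mG_lip ..).trans_eq he))

theorem phi_lip {A B E D : ℝ} (a0 : 0 ≤ A) (a1 : A ≤ 1) (e0 : 0 ≤ E) (e1 : E ≤ 1)
    (h0 : D ≤ mG A E B (-2 + A)) (h1 : D ≤ mG A E (2 - A) (-2 + B))
    (h2 : D ≤ mG A E (4 - B) (-2 - A)) (h3 : D ≤ mG A E (6 + A) (-2 - B))
    {r r' : P3} (s : SameFace r r') : (phi A B E D r - phi A B E D r') ^ 2 ≤ e2 r r' := by
  have f0 : ∀ {r : P3}, r.1 = 1 → phi A B E D r = band A B E D r := fun {r} h =>
    phi_eq (fun c => by rw [th0 h]; exact low h0 (by unfold e2; rw [h, c]; ring)) fun c => by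
      rw [th0 h]
      exact ((min_le_left _ _).trans (min_le_left _ _)).trans
        ((G_le ..).trans_eq (congrArg _ (by unfold e2; rw [h, c]; ring)))
  have f1 : ∀ {r : P3}, r.2.1 = 1 → phi A B E D r = band A B E D r := fun {r} h =>
    phi_eq (fun c => by rw [th1 h]; exact low h1 (by unfold e2; rw [h, c]; ring)) fun c => by
      rw [th1 h]
      exact ((min_le_left _ _).trans (min_le_right _ _)).trans
        ((G_le ..).trans_eq (congrArg _ (by unfold e2; rw [h, c]; ring)))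
  have f2 : ∀ {r : P3}, r.1 = -1 → phi A B E D r = band A B E D r := fun {r} h =>
    phi_eq (fun c => by rw [th2 h]; exact low h2 (by unfold e2; rw [h, c]; ring)) fun c => by
      rw [th2 h]
      exact ((min_le_right _ _).trans (min_le_left _ _)).trans
        ((G_le ..).trans_eq (congrArg _ (by unfold e2; rw [h, c]; ring)))
  have f3 : ∀ {r : P3}, r.2.1 = -1 → phi A B E D r = band A B E D r := fun {r} h =>
    phi_eq (fun c => by rw [th3 a0 a1 e0 e1 h]; exact low h3 (by unfold e2; rw [h, c]; ring))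
      fun c => by
      rw [th3 a0 a1 e0 e1 h]
      exact ((min_le_right _ _).trans (min_le_right _ _)).trans
        ((G_le ..).trans_eq (congrArg _ (by unfold e2; rw [h, c]; ring)))
  rcases s with ⟨c, c'⟩ | ⟨c, c'⟩ | ⟨c, c'⟩ | ⟨c, c'⟩ | ⟨c, c'⟩ | ⟨c, c'⟩
  · rw [f0 c, f0 c']
    refine band_lip ?_
    rw [th0 c, th0 c']
    exact (mG_lip ..).trans_eq (by unfold e2; rw [c, c']; ring)
  · rw [f2 c, f2 c']
    refine band_lip ?_
    rw [th2 c, th2 c']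
    exact (mG_lip ..).trans_eq (by unfold e2; rw [c, c']; ring)
  · rw [f1 c, f1 c']
    refine band_lip ?_
    rw [th1 c, th1 c']
    exact (mG_lip ..).trans_eq (by unfold e2; rw [c, c']; ring)
  · rw [f3 c, f3 c']
    refine band_lip ?_
    rw [th3 a0 a1 e0 e1 c, th3 a0 a1 e0 e1 c']
    exact (mG_lip ..).trans_eq (by unfold e2; rw [c, c']; ring)
  · unfold phi
    rw [if_neg (by rw [c]; norm_num), if_pos c, if_neg (by rw [c']; norm_num), if_pos c']
    exact max_lip (by linarith [e_lip (-A, -E, 1) r r']) (e_lip ..)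
  · unfold phi
    rw [if_pos c, if_pos c']
    exact e_lip ..

theorem core {F : P2 → P3} (h : Cover 1 2 2 F) {A B : ℝ} (hF : F (0, 0) = (A, B, -1))
    (b0 : 0 ≤ B) (ba : B ≤ A) (a1 : A ≤ 1) : A = 0 := by
  by_contra hA
  have a0 : 0 < A := lt_of_le_of_ne (b0.trans ba) (Ne.symm hA)
  set δ := (A - B) ^ 2 / 8 with hδ
  have d0 : 0 ≤ δ := by positivity
  have b1 : B + δ ≤ A := by nlinarith
  have d1 : 8 * δ ≤ A ^ 2 := by nlinarith
  have d2' : 0 < 2 * B + δ := by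
    rcases b0.eq_or_lt with e | e
    · rw [hδ, ← e]; have := pow_pos a0 2; nlinarith
    · linarith
  have g0 := big0 a0 a1 b0 b1 d0 d1 d2'
  have g1 := big1 a0 a1 b0 b1 d0 d1 d2'
  have g2 := big2 a0 a1 b0 b1 d0 d1 d2'
  have g3 := big3 a0 a1 b0 b1 d0 d1 d2'
  set E := B + δ with hE
  set D := min (min (mG A E B (-2 + A)) (mG A E (2 - A) (-2 + B)))
    (min (mG A E (4 - B) (-2 - A)) (mG A E (6 + A) (-2 - B))) with hD
  have D4 : 4 < D := lt_min (lt_min g0 g1) (lt_min g2 g3)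
  have e0 : 0 ≤ E := by linarith
  obtain ⟨Q, q1, q2, hQ⟩ := h.surj (-A, -E, 1)
    ⟨⟨by simp only; linarith, by simp only; linarith⟩,
      ⟨by simp only; linarith, by simp only; linarith⟩, ⟨by norm_num, le_rfl⟩, by simp⟩
  have key := h.face1 (phi A B E D) (fun r _ r' _ s =>
    phi_lip a0.le a1 e0 (by linarith) ((min_le_left _ _).trans (min_le_left _ _))
      ((min_le_left _ _).trans (min_le_right _ _)) ((min_le_right _ _).trans (min_le_left _ _))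
      ((min_le_right _ _).trans (min_le_right _ _)) s) (0, 0) Q
  rw [hF, hQ] at key
  have p0 : phi A B E D (A, B, -1) = 0 := by simp [phi, e2]
  have p1 : D ≤ phi A B E D (-A, -E, 1) := by
    unfold phi
    rw [if_neg (by norm_num), if_pos rfl]
    exact le_max_of_le_left (by simp [e2])
  have s1 := sq_le_sq' (abs_le.1 q1).1 (abs_le.1 q1).2
  have s2 := sq_le_sq' (abs_le.1 q2).1 (abs_le.1 q2).2
  rw [p0] at key
  simp only [d2] at key
  nlinarith

theorem down {p : P3} (hp : p ∈ Sf) : ∃ g, Sym g ∧ (g p).2.2 = -1 := by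
  rcases hp.2.2.2 with e | e | e | e | e | e
  · exact ⟨_, sym_neg3.comp sym_swap13, by simp [e]⟩
  · exact ⟨_, sym_swap13, e⟩
  · exact ⟨_, sym_neg3.comp sym_swap23, by simp [e]⟩
  · exact ⟨_, sym_swap23, e⟩
  · exact ⟨_, sym_neg3, by simp [e]⟩
  · exact ⟨_, sym_id, e⟩

theorem pos1 (p : P3) : ∃ g, Sym g ∧ g p = (|p.1|, p.2.1, p.2.2) := by
  rcases le_total 0 p.1 with c | c
  · exact ⟨_, sym_id, by rw [abs_of_nonneg c]⟩
  · exact ⟨_, sym_neg1, by rw [abs_of_nonpos c]⟩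

theorem pos2 (p : P3) : ∃ g, Sym g ∧ g p = (p.1, |p.2.1|, p.2.2) := by
  rcases le_total 0 p.2.1 with c | c
  · exact ⟨_, sym_id, by rw [abs_of_nonneg c]⟩
  · exact ⟨_, sym_neg2, by rw [abs_of_nonpos c]⟩

theorem sort (p : P3) : ∃ g, Sym g ∧ g p = (max p.1 p.2.1, min p.1 p.2.1, p.2.2) := by
  rcases le_total p.1 p.2.1 with c | c
  · exact ⟨_, sym_swap12, by rw [max_eq_right c, min_eq_left c]⟩
  · exact ⟨_, sym_id, by rw [max_eq_left c, min_eq_right c]⟩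

end CentreP

open CentreP in
theorem sCentre : SCentre := by
  intro F h
  obtain ⟨g1, s1, e1⟩ := down (h.mem (0, 0))
  obtain ⟨g2, s2, e2'⟩ := pos1 (g1 (F (0, 0)))
  obtain ⟨g3, s3, e3⟩ := pos2 (g2 (g1 (F (0, 0))))
  obtain ⟨g4, s4, e4⟩ := sort (g3 (g2 (g1 (F (0, 0)))))
  have s := s4.comp (s3.comp (s2.comp s1))
  have hc := h.sym s
  have hF : g4 (g3 (g2 (g1 (F (0, 0))))) = (max |(g1 (F (0, 0))).1| |(g1 (F (0, 0))).2.1|,
      min |(g1 (F (0, 0))).1| |(g1 (F (0, 0))).2.1|, -1) := by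
    rw [e4, e3, e2', e1]
  have m := hc.mem (0, 0)
  simp only [hF] at m
  have b0 : 0 ≤ min |(g1 (F (0, 0))).1| |(g1 (F (0, 0))).2.1| :=
    le_min (abs_nonneg _) (abs_nonneg _)
  have A0 := core hc hF b0 min_le_max m.1.2
  have B0 : min |(g1 (F (0, 0))).1| |(g1 (F (0, 0))).2.1| = 0 :=
    le_antisymm (min_le_max.trans A0.le) b0
  refine ⟨_, s, ?_⟩
  simp only [hF, A0, B0]
  norm_num [cp]

end Pool.Agent.P.MP_dba4bb_co.Ex
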