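import Pool.Agent.P.MP_dba4bb_co.Ex.Defs

/-! The nodes: displacements divided by `β`, and the inequalities between them. -/

namespace Pool.Agent.P.MP_dba4bb_co.Ex

structure Cfg where
  p2x : ℝ
  p2y : ℝ
  p4x : ℝ
  p4y : ℝ
  p1x : ℝ
  p1y : ℝ
  p3x : ℝ
  p3y : ℝ
  z1Nx : ℝ
  z1Ny : ℝ
  z1Ex : ℝ
  z1Ey : ℝ
  z3Wx : ℝ
  z3Wy : ℝ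
  z3Sx : ℝ
  z3Sy : ℝ
  t1Nx : ℝ
  t1Ny : ℝ
  t1Wx : ℝ
  t1Wy : ℝ
  t1Sx : ℝ
  t1Sy : ℝ
  t2Nx : ℝ
  t2Ny : ℝ
  t2Sx : ℝ
  t2Sy : ℝ
  t2Ex : ℝ
  t2Ey : ℝ
  k1Nx : ℝ
  k1Ny : ℝ
  k1Ex : ℝ
  k1Ey : ℝ
  k2Nx : ℝ
  k2Ny : ℝ
  k2Wx : ℝ
  k2Wy : ℝ
  k3Wx : ℝ
  k3Wy : ℝ
  k3Sx : ℝ
  k3Sy : ℝ
  k4Sx : ℝ
  k4Sy : ℝ
  k4Ex : ℝ
  k4Ey : ℝ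
  eN1x : ℝ
  eN1y : ℝ
  eN2x : ℝ
  eN2y : ℝ
  eW1x : ℝ
  eW1y : ℝ
  eS1x : ℝ
  eS1y : ℝ
  eS2x : ℝ
  eS2y : ℝ
  s1 : ℝ
  h1 : ℝ
  s3 : ℝ
  h3 : ℝ
  t1x : ℝ
  t1y : ℝ
  t2x : ℝ
  t2y : ℝ
  k1 : ℝ
  k2 : ℝ
  k3 : ℝ
  k4 : ℝ
  gNu : ℝ
  gNv : ℝ
  gWu : ℝ
  gWv : ℝ
  gSu : ℝ
  gSv : ℝ
  gEu : ℝ
  gEv : ℝ
  hNu : ℝ
  hNv : ℝ
  hWu : ℝ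
  hWv : ℝ

structure Bnd (M : ℝ) (c : Cfg) : Prop where
  p2x : |c.p2x| ≤ M
  p2y : |c.p2y| ≤ M
  p4x : |c.p4x| ≤ M
  p4y : |c.p4y| ≤ M
  p1x : |c.p1x| ≤ M
  p1y : |c.p1y| ≤ M
  p3x : |c.p3x| ≤ M
  p3y : |c.p3y| ≤ M
  z1Nx : |c.z1Nx| ≤ M
  z1Ny : |c.z1Ny| ≤ M
  z1Ex : |c.z1Ex| ≤ M
  z1Ey : |c.z1Ey| ≤ M
  z3Wx : |c.z3Wx| ≤ M
  z3Wy : |c.z3Wy| ≤ M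
  z3Sx : |c.z3Sx| ≤ M
  z3Sy : |c.z3Sy| ≤ M
  t1Nx : |c.t1Nx| ≤ M
  t1Ny : |c.t1Ny| ≤ M
  t1Wx : |c.t1Wx| ≤ M
  t1Wy : |c.t1Wy| ≤ M
  t1Sx : |c.t1Sx| ≤ M
  t1Sy : |c.t1Sy| ≤ M
  t2Nx : |c.t2Nx| ≤ M
  t2Ny : |c.t2Ny| ≤ M
  t2Sx : |c.t2Sx| ≤ M
  t2Sy : |c.t2Sy| ≤ M
  t2Ex : |c.t2Ex| ≤ M
  t2Ey : |c.t2Ey| ≤ M
  k1Nx : |c.k1Nx| ≤ M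
  k1Ny : |c.k1Ny| ≤ M
  k1Ex : |c.k1Ex| ≤ M
  k1Ey : |c.k1Ey| ≤ M
  k2Nx : |c.k2Nx| ≤ M
  k2Ny : |c.k2Ny| ≤ M
  k2Wx : |c.k2Wx| ≤ M
  k2Wy : |c.k2Wy| ≤ M
  k3Wx : |c.k3Wx| ≤ M
  k3Wy : |c.k3Wy| ≤ M
  k3Sx : |c.k3Sx| ≤ M
  k3Sy : |c.k3Sy| ≤ M
  k4Sx : |c.k4Sx| ≤ M
  k4Sy : |c.k4Sy| ≤ M
  k4Ex : |c.k4Ex| ≤ M
  k4Ey : |c.k4Ey| ≤ M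
  eN1x : |c.eN1x| ≤ M
  eN1y : |c.eN1y| ≤ M
  eN2x : |c.eN2x| ≤ M
  eN2y : |c.eN2y| ≤ M
  eW1x : |c.eW1x| ≤ M
  eW1y : |c.eW1y| ≤ M
  eS1x : |c.eS1x| ≤ M
  eS1y : |c.eS1y| ≤ M
  eS2x : |c.eS2x| ≤ M
  eS2y : |c.eS2y| ≤ M
  s1 : |c.s1| ≤ M
  h1 : |c.h1| ≤ M
  s3 : |c.s3| ≤ M
  h3 : |c.h3| ≤ M
  t1x : |c.t1x| ≤ M
  t1y : |c.t1y| ≤ M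
  t2x : |c.t2x| ≤ M
  t2y : |c.t2y| ≤ M
  k1 : |c.k1| ≤ M
  k2 : |c.k2| ≤ M
  k3 : |c.k3| ≤ M
  k4 : |c.k4| ≤ M
  gNu : |c.gNu| ≤ M
  gNv : |c.gNv| ≤ M
  gWu : |c.gWu| ≤ M
  gWv : |c.gWv| ≤ M
  gSu : |c.gSu| ≤ M
  gSv : |c.gSv| ≤ M
  gEu : |c.gEu| ≤ M
  gEv : |c.gEv| ≤ M
  hNu : |c.hNu| ≤ M
  hNv : |c.hNv| ≤ M
  hWu : |c.hWu| ≤ M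
  hWv : |c.hWv| ≤ M

structure Walls (β Δ : ℝ) (c : Cfg) : Prop where
  wRz1N : 0 ≤ -c.z1Nx - β * Δ
  wRz1E : 0 ≤ -c.z1Ex - β * Δ
  wLz3W : 0 ≤ c.z3Wx - β * Δ
  wLz3S : 0 ≤ c.z3Sx - β * Δ
  wRt1N : 0 ≤ -c.t1Nx - β * Δ
  wTt1N : 0 ≤ 1 - c.t1Ny
  wLt1W : 0 ≤ c.t1Wx - β * Δ
  wTt1W : 0 ≤ 1 - c.t1Wy
  wLt1S : 0 ≤ c.t1Sx - β * Δ
  wBt1S : 0 ≤ 1 + c.t1Sy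
  wRt2N : 0 ≤ -c.t2Nx - β * Δ
  wTt2N : 0 ≤ 1 - c.t2Ny
  wLt2S : 0 ≤ c.t2Sx - β * Δ
  wBt2S : 0 ≤ 1 + c.t2Sy
  wRt2E : 0 ≤ -c.t2Ex - β * Δ
  wBt2E : 0 ≤ 1 + c.t2Ey
  wRk1N : 0 ≤ -c.k1Nx - β * Δ
  wRk1E : 0 ≤ -c.k1Ex - β * Δ
  wTk2N : 0 ≤ 1 - c.k2Ny
  wTk2W : 0 ≤ 1 - c.k2Wy
  wLk3W : 0 ≤ c.k3Wx - β * Δ
  wLk3S : 0 ≤ c.k3Sx - β * Δ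
  wBk4S : 0 ≤ 1 + c.k4Sy
  wBk4E : 0 ≤ 1 + c.k4Ey
  s1 : c.s1 = |c.h1|
  s3 : c.s3 = |c.h3|
  wl : 0 ≤ -(c.z1Ny - c.p2y) - (c.z1Ey - c.p4y) - (c.z3Wy - c.p2y) - (c.z3Sy - c.p4y)

structure Geo (β : ℝ) (F : P2 → P3) (c : Cfg) : Prop where
  p2 : F (0 + β * c.p2x, 1 + β * c.p2y) = cp 0 1 0
  p4 : F (0 + β * c.p4x, -1 + β * c.p4y) = cp 0 (-1) 0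
  p1 : F (1 + β * c.p1x, 0 + β * c.p1y) = cp 1 0 0
  p3 : F (-1 + β * c.p3x, 0 + β * c.p3y) = cp (-1) 0 0
  z1N : F (2 + β * c.z1Nx, 1 + β * c.z1Ny) = cp (1 - β * c.s1) (β * c.h1) 1
  z1E : F (2 + β * c.z1Ex, -1 + β * c.z1Ey) = cp (1 - β * c.s1) (β * c.h1) 1
  z3W : F (-2 + β * c.z3Wx, 1 + β * c.z3Wy) = cp (-1 + β * c.s3) (β * c.h3) 1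
  z3S : F (-2 + β * c.z3Sx, -1 + β * c.z3Sy) = cp (-1 + β * c.s3) (β * c.h3) 1
  t1N : F (2 + β * c.t1Nx, 2 + β * c.t1Ny) = cp (β * c.t1x) (β * c.t1y) 1
  t1W : F (-2 + β * c.t1Wx, 2 + β * c.t1Wy) = cp (β * c.t1x) (β * c.t1y) 1
  t1S : F (-2 + β * c.t1Sx, -2 + β * c.t1Sy) = cp (β * c.t1x) (β * c.t1y) 1
  t2N : F (2 + β * c.t2Nx, 2 + β * c.t2Ny) = cp (β * c.t2x) (β * c.t2y) 1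
  t2S : F (-2 + β * c.t2Sx, -2 + β * c.t2Sy) = cp (β * c.t2x) (β * c.t2y) 1
  t2E : F (2 + β * c.t2Ex, -2 + β * c.t2Ey) = cp (β * c.t2x) (β * c.t2y) 1
  k1N : F (2 + β * c.k1Nx, 3 / 2 + β * c.k1Ny) = cp (1 / 2) (β * c.k1) 1
  k1E : F (2 + β * c.k1Ex, -3 / 2 + β * c.k1Ey) = cp (1 / 2) (β * c.k1) 1
  k2N : F (3 / 2 + β * c.k2Nx, 2 + β * c.k2Ny) = cp (β * c.k2) (1 / 2) 1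
  k2W : F (-3 / 2 + β * c.k2Wx, 2 + β * c.k2Wy) = cp (β * c.k2) (1 / 2) 1
  k3W : F (-2 + β * c.k3Wx, 3 / 2 + β * c.k3Wy) = cp (-1 / 2) (β * c.k3) 1
  k3S : F (-2 + β * c.k3Sx, -3 / 2 + β * c.k3Sy) = cp (-1 / 2) (β * c.k3) 1
  k4S : F (-3 / 2 + β * c.k4Sx, -2 + β * c.k4Sy) = cp (β * c.k4) (-1 / 2) 1
  k4E : F (3 / 2 + β * c.k4Ex, -2 + β * c.k4Ey) = cp (β * c.k4) (-1 / 2) 1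
  eN1 : F (5 / 4 + β * c.eN1x, 7 / 4 + β * c.eN1y) = cp (1 / 4) (3 / 4) 1
  eN2 : F (3 / 2 + β * c.eN2x, 3 / 2 + β * c.eN2y) = cp (1 / 2) (1 / 2) 1
  eW1 : F (-5 / 4 + β * c.eW1x, 7 / 4 + β * c.eW1y) = cp (-1 / 4) (3 / 4) 1
  eS1 : F (-5 / 4 + β * c.eS1x, -7 / 4 + β * c.eS1y) = cp (-1 / 4) (-3 / 4) 1
  eS2 : F (-3 / 2 + β * c.eS2x, -3 / 2 + β * c.eS2y) = cp (-1 / 2) (-1 / 2) 1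
  gN : F (113 / 64, 65 / 64) = cp (7 / 8 + β * c.gNu) (1 - (7 / 8 + β * c.gNu)) (57 / 64 + β * c.gNv)
  gW : F (-113 / 64, 65 / 64) = cp (-(7 / 8 + β * c.gWu)) (1 - (7 / 8 + β * c.gWu)) (57 / 64 + β * c.gWv)
  gS : F (-113 / 64, -65 / 64) = cp (-(7 / 8 + β * c.gSu)) (-(1 - (7 / 8 + β * c.gSu))) (57 / 64 + β * c.gSv)
  gE : F (113 / 64, -65 / 64) = cp (7 / 8 + β * c.gEu) (-(1 - (7 / 8 + β * c.gEu))) (57 / 64 + β * c.gEv)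
  hN : F (15 / 16, 3 / 16) = cp (7 / 8 + β * c.hNu) (1 - (7 / 8 + β * c.hNu)) (1 / 16 + β * c.hNv)
  hW : F (-15 / 16, 3 / 16) = cp (-(7 / 8 + β * c.hWu)) (1 - (7 / 8 + β * c.hWu)) (1 / 16 + β * c.hWv)

structure Rows (β : ℝ) (c : Cfg) : Prop where
  p2_p4 : 0 ≤ 2 * c.p2y - 2 * c.p4y +
    β * ((c.p2x - c.p4x) ^ 2 + (c.p2y - c.p4y) ^ 2 - (0) ^ 2 - (0) ^ 2 - 2 * (0) ^ 2) / 2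
  p2_p1 : 0 ≤ -c.p2x + c.p2y + c.p1x - c.p1y +
    β * ((c.p2x - c.p1x) ^ 2 + (c.p2y - c.p1y) ^ 2 - (0) ^ 2 - (0) ^ 2 - 2 * (0) ^ 2) / 2
  p2_p3 : 0 ≤ c.p2x + c.p2y - c.p3x - c.p3y +
    β * ((c.p2x - c.p3x) ^ 2 + (c.p2y - c.p3y) ^ 2 - (0) ^ 2 - (0) ^ 2 - 2 * (0) ^ 2) / 2
  p2_z1Nu : 0 ≤ -2 * c.p2x + 2 * c.z1Nx + c.s1 + c.h1 +
    β * ((c.p2x - c.z1Nx) ^ 2 + (c.p2y - c.z1Ny) ^ 2 - (c.s1) ^ 2 - (-c.h1) ^ 2 - 2 * (0) ^ 2) / 2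
  p2_z1Nv : 0 ≤ -2 * c.p2x + 2 * c.z1Nx + 2 * c.h1 +
    β * ((c.p2x - c.z1Nx) ^ 2 + (c.p2y - c.z1Ny) ^ 2 - (c.h1) ^ 2 - (-c.s1) ^ 2 - 2 * (0) ^ 2) / 2
  p2_z3Wu : 0 ≤ 2 * c.p2x - 2 * c.z3Wx + c.s3 + c.h3 +
    β * ((c.p2x - c.z3Wx) ^ 2 + (c.p2y - c.z3Wy) ^ 2 - (-c.s3) ^ 2 - (-c.h3) ^ 2 - 2 * (0) ^ 2) / 2
  p2_z3Wv : 0 ≤ 2 * c.p2x - 2 * c.z3Wx + 2 * c.h3 +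
    β * ((c.p2x - c.z3Wx) ^ 2 + (c.p2y - c.z3Wy) ^ 2 - (-c.h3) ^ 2 - (-c.s3) ^ 2 - 2 * (0) ^ 2) / 2
  p2_k1Nv : 0 ≤ -2 * c.p2x - 1 / 2 * c.p2y + 2 * c.k1Nx + 1 / 2 * c.k1Ny + 2 * c.k1 +
    β * ((c.p2x - c.k1Nx) ^ 2 + (c.p2y - c.k1Ny) ^ 2 - (c.k1) ^ 2 - (0) ^ 2 - 2 * (0) ^ 2) / 2
  p2_k3Wv : 0 ≤ 2 * c.p2x - 1 / 2 * c.p2y - 2 * c.k3Wx + 1 / 2 * c.k3Wy + 2 * c.k3 +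
    β * ((c.p2x - c.k3Wx) ^ 2 + (c.p2y - c.k3Wy) ^ 2 - (-c.k3) ^ 2 - (0) ^ 2 - 2 * (0) ^ 2) / 2
  p2_eN1 : 0 ≤ -5 / 4 * c.p2x - 3 / 4 * c.p2y + 5 / 4 * c.eN1x + 3 / 4 * c.eN1y +
    β * ((c.p2x - c.eN1x) ^ 2 + (c.p2y - c.eN1y) ^ 2 - (0) ^ 2 - (0) ^ 2 - 2 * (0) ^ 2) / 2
  p2_eN2 : 0 ≤ -3 / 2 * c.p2x - 1 / 2 * c.p2y + 3 / 2 * c.eN2x + 1 / 2 * c.eN2y +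
    β * ((c.p2x - c.eN2x) ^ 2 + (c.p2y - c.eN2y) ^ 2 - (0) ^ 2 - (0) ^ 2 - 2 * (0) ^ 2) / 2
  p2_eW1 : 0 ≤ 5 / 4 * c.p2x - 3 / 4 * c.p2y - 5 / 4 * c.eW1x + 3 / 4 * c.eW1y +
    β * ((c.p2x - c.eW1x) ^ 2 + (c.p2y - c.eW1y) ^ 2 - (0) ^ 2 - (0) ^ 2 - 2 * (0) ^ 2) / 2
  p2_gN : 0 ≤ -113 / 64 * c.p2x - 1 / 64 * c.p2y - 7 / 4 * c.gNu - 57 / 32 * c.gNv +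
    β * ((c.p2x) ^ 2 + (c.p2y) ^ 2 - (-c.gNu - c.gNv) ^ 2 - (c.gNu - c.gNv) ^ 2 - 2 * (0) ^ 2) / 2
  p2_gW : 0 ≤ 113 / 64 * c.p2x - 1 / 64 * c.p2y - 7 / 4 * c.gWu - 57 / 32 * c.gWv +
    β * ((c.p2x) ^ 2 + (c.p2y) ^ 2 - (c.gWu + c.gWv) ^ 2 - (c.gWu - c.gWv) ^ 2 - 2 * (0) ^ 2) / 2
  p2_hN : 0 ≤ -15 / 16 * c.p2x + 13 / 16 * c.p2y - 7 / 4 * c.hNu - 1 / 8 * c.hNv +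
    β * ((c.p2x) ^ 2 + (c.p2y) ^ 2 - (-c.hNu - c.hNv) ^ 2 - (c.hNu - c.hNv) ^ 2 - 2 * (0) ^ 2) / 2
  p2_hW : 0 ≤ 15 / 16 * c.p2x + 13 / 16 * c.p2y - 7 / 4 * c.hWu - 1 / 8 * c.hWv +
    β * ((c.p2x) ^ 2 + (c.p2y) ^ 2 - (c.hWu + c.hWv) ^ 2 - (c.hWu - c.hWv) ^ 2 - 2 * (0) ^ 2) / 2
  p4_p1 : 0 ≤ -c.p4x - c.p4y + c.p1x + c.p1y +
    β * ((c.p4x - c.p1x) ^ 2 + (c.p4y - c.p1y) ^ 2 - (0) ^ 2 - (0) ^ 2 - 2 * (0) ^ 2) / 2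
  p4_p3 : 0 ≤ c.p4x - c.p4y - c.p3x + c.p3y +
    β * ((c.p4x - c.p3x) ^ 2 + (c.p4y - c.p3y) ^ 2 - (0) ^ 2 - (0) ^ 2 - 2 * (0) ^ 2) / 2
  p4_z1Eu : 0 ≤ -2 * c.p4x + 2 * c.z1Ex + c.s1 - c.h1 +
    β * ((c.p4x - c.z1Ex) ^ 2 + (c.p4y - c.z1Ey) ^ 2 - (c.s1) ^ 2 - (-c.h1) ^ 2 - 2 * (0) ^ 2) / 2
  p4_z1Ev : 0 ≤ -2 * c.p4x + 2 * c.z1Ex - 2 * c.h1 +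
    β * ((c.p4x - c.z1Ex) ^ 2 + (c.p4y - c.z1Ey) ^ 2 - (-c.h1) ^ 2 - (c.s1) ^ 2 - 2 * (0) ^ 2) / 2
  p4_z3Su : 0 ≤ 2 * c.p4x - 2 * c.z3Sx + c.s3 - c.h3 +
    β * ((c.p4x - c.z3Sx) ^ 2 + (c.p4y - c.z3Sy) ^ 2 - (-c.s3) ^ 2 - (-c.h3) ^ 2 - 2 * (0) ^ 2) / 2
  p4_z3Sv : 0 ≤ 2 * c.p4x - 2 * c.z3Sx - 2 * c.h3 +
    β * ((c.p4x - c.z3Sx) ^ 2 + (c.p4y - c.z3Sy) ^ 2 - (c.h3) ^ 2 - (c.s3) ^ 2 - 2 * (0) ^ 2) / 2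
  p4_k1Ev : 0 ≤ -2 * c.p4x + 1 / 2 * c.p4y + 2 * c.k1Ex - 1 / 2 * c.k1Ey - 2 * c.k1 +
    β * ((c.p4x - c.k1Ex) ^ 2 + (c.p4y - c.k1Ey) ^ 2 - (-c.k1) ^ 2 - (0) ^ 2 - 2 * (0) ^ 2) / 2
  p4_k3Sv : 0 ≤ 2 * c.p4x + 1 / 2 * c.p4y - 2 * c.k3Sx - 1 / 2 * c.k3Sy - 2 * c.k3 +
    β * ((c.p4x - c.k3Sx) ^ 2 + (c.p4y - c.k3Sy) ^ 2 - (c.k3) ^ 2 - (0) ^ 2 - 2 * (0) ^ 2) / 2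
  p4_eS1 : 0 ≤ 5 / 4 * c.p4x + 3 / 4 * c.p4y - 5 / 4 * c.eS1x - 3 / 4 * c.eS1y +
    β * ((c.p4x - c.eS1x) ^ 2 + (c.p4y - c.eS1y) ^ 2 - (0) ^ 2 - (0) ^ 2 - 2 * (0) ^ 2) / 2
  p4_eS2 : 0 ≤ 3 / 2 * c.p4x + 1 / 2 * c.p4y - 3 / 2 * c.eS2x - 1 / 2 * c.eS2y +
    β * ((c.p4x - c.eS2x) ^ 2 + (c.p4y - c.eS2y) ^ 2 - (0) ^ 2 - (0) ^ 2 - 2 * (0) ^ 2) / 2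
  p4_gS : 0 ≤ 113 / 64 * c.p4x + 1 / 64 * c.p4y - 7 / 4 * c.gSu - 57 / 32 * c.gSv +
    β * ((c.p4x) ^ 2 + (c.p4y) ^ 2 - (c.gSu + c.gSv) ^ 2 - (-c.gSu + c.gSv) ^ 2 - 2 * (0) ^ 2) / 2
  p4_gE : 0 ≤ -113 / 64 * c.p4x + 1 / 64 * c.p4y - 7 / 4 * c.gEu - 57 / 32 * c.gEv +
    β * ((c.p4x) ^ 2 + (c.p4y) ^ 2 - (-c.gEu - c.gEv) ^ 2 - (-c.gEu + c.gEv) ^ 2 - 2 * (0) ^ 2) / 2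
  p4_hNv : 0 ≤ -15 / 16 * c.p4x - 19 / 16 * c.p4y + 1 / 4 * c.hNu - 17 / 8 * c.hNv +
    β * ((c.p4x) ^ 2 + (c.p4y) ^ 2 - (-c.hNu - c.hNv) ^ 2 - (c.hNu - c.hNv) ^ 2 - 2 * (0) ^ 2) / 2
  p4_hWv : 0 ≤ 15 / 16 * c.p4x - 19 / 16 * c.p4y + 1 / 4 * c.hWu - 17 / 8 * c.hWv +
    β * ((c.p4x) ^ 2 + (c.p4y) ^ 2 - (c.hWu + c.hWv) ^ 2 - (c.hWu - c.hWv) ^ 2 - 2 * (0) ^ 2) / 2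
  p1_p3 : 0 ≤ 2 * c.p1x - 2 * c.p3x +
    β * ((c.p1x - c.p3x) ^ 2 + (c.p1y - c.p3y) ^ 2 - (0) ^ 2 - (0) ^ 2 - 2 * (0) ^ 2) / 2
  p1_z1Nu : 0 ≤ -c.p1x - c.p1y + c.z1Nx + c.z1Ny +
    β * ((c.p1x - c.z1Nx) ^ 2 + (c.p1y - c.z1Ny) ^ 2 - (c.s1) ^ 2 - (-c.h1) ^ 2 - 2 * (0) ^ 2) / 2
  p1_z1Eu : 0 ≤ -c.p1x + c.p1y + c.z1Ex - c.z1Ey +
    β * ((c.p1x - c.z1Ex) ^ 2 + (c.p1y - c.z1Ey) ^ 2 - (c.s1) ^ 2 - (-c.h1) ^ 2 - 2 * (0) ^ 2) / 2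
  p1_k2Nv : 0 ≤ -1 / 2 * c.p1x - 2 * c.p1y + 1 / 2 * c.k2Nx + 2 * c.k2Ny + 2 * c.k2 +
    β * ((c.p1x - c.k2Nx) ^ 2 + (c.p1y - c.k2Ny) ^ 2 - (0) ^ 2 - (c.k2) ^ 2 - 2 * (0) ^ 2) / 2
  p1_k4Ev : 0 ≤ -1 / 2 * c.p1x + 2 * c.p1y + 1 / 2 * c.k4Ex - 2 * c.k4Ey + 2 * c.k4 +
    β * ((c.p1x - c.k4Ex) ^ 2 + (c.p1y - c.k4Ey) ^ 2 - (0) ^ 2 - (-c.k4) ^ 2 - 2 * (0) ^ 2) / 2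
  p1_eN1 : 0 ≤ -1 / 4 * c.p1x - 7 / 4 * c.p1y + 1 / 4 * c.eN1x + 7 / 4 * c.eN1y +
    β * ((c.p1x - c.eN1x) ^ 2 + (c.p1y - c.eN1y) ^ 2 - (0) ^ 2 - (0) ^ 2 - 2 * (0) ^ 2) / 2
  p1_eN2 : 0 ≤ -1 / 2 * c.p1x - 3 / 2 * c.p1y + 1 / 2 * c.eN2x + 3 / 2 * c.eN2y +
    β * ((c.p1x - c.eN2x) ^ 2 + (c.p1y - c.eN2y) ^ 2 - (0) ^ 2 - (0) ^ 2 - 2 * (0) ^ 2) / 2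
  p1_gN : 0 ≤ -49 / 64 * c.p1x - 65 / 64 * c.p1y + 1 / 4 * c.gNu - 57 / 32 * c.gNv +
    β * ((c.p1x) ^ 2 + (c.p1y) ^ 2 - (-c.gNu - c.gNv) ^ 2 - (c.gNu - c.gNv) ^ 2 - 2 * (0) ^ 2) / 2
  p1_gE : 0 ≤ -49 / 64 * c.p1x + 65 / 64 * c.p1y + 1 / 4 * c.gEu - 57 / 32 * c.gEv +
    β * ((c.p1x) ^ 2 + (c.p1y) ^ 2 - (-c.gEu - c.gEv) ^ 2 - (-c.gEu + c.gEv) ^ 2 - 2 * (0) ^ 2) / 2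
  p1_hN : 0 ≤ 1 / 16 * c.p1x - 3 / 16 * c.p1y + 1 / 4 * c.hNu - 1 / 8 * c.hNv +
    β * ((c.p1x) ^ 2 + (c.p1y) ^ 2 - (-c.hNu - c.hNv) ^ 2 - (c.hNu - c.hNv) ^ 2 - 2 * (0) ^ 2) / 2
  p1_hWv : 0 ≤ 31 / 16 * c.p1x - 3 / 16 * c.p1y - 7 / 4 * c.hWu - 17 / 8 * c.hWv +
    β * ((c.p1x) ^ 2 + (c.p1y) ^ 2 - (c.hWu + c.hWv) ^ 2 - (c.hWu - c.hWv) ^ 2 - 2 * (0) ^ 2) / 2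
  p3_z3Wu : 0 ≤ c.p3x - c.p3y - c.z3Wx + c.z3Wy +
    β * ((c.p3x - c.z3Wx) ^ 2 + (c.p3y - c.z3Wy) ^ 2 - (-c.s3) ^ 2 - (-c.h3) ^ 2 - 2 * (0) ^ 2) / 2
  p3_z3Su : 0 ≤ c.p3x + c.p3y - c.z3Sx - c.z3Sy +
    β * ((c.p3x - c.z3Sx) ^ 2 + (c.p3y - c.z3Sy) ^ 2 - (-c.s3) ^ 2 - (-c.h3) ^ 2 - 2 * (0) ^ 2) / 2
  p3_k2Wv : 0 ≤ 1 / 2 * c.p3x - 2 * c.p3y - 1 / 2 * c.k2Wx + 2 * c.k2Wy - 2 * c.k2 +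
    β * ((c.p3x - c.k2Wx) ^ 2 + (c.p3y - c.k2Wy) ^ 2 - (0) ^ 2 - (-c.k2) ^ 2 - 2 * (0) ^ 2) / 2
  p3_k4Sv : 0 ≤ 1 / 2 * c.p3x + 2 * c.p3y - 1 / 2 * c.k4Sx - 2 * c.k4Sy - 2 * c.k4 +
    β * ((c.p3x - c.k4Sx) ^ 2 + (c.p3y - c.k4Sy) ^ 2 - (0) ^ 2 - (c.k4) ^ 2 - 2 * (0) ^ 2) / 2
  p3_eW1 : 0 ≤ 1 / 4 * c.p3x - 7 / 4 * c.p3y - 1 / 4 * c.eW1x + 7 / 4 * c.eW1y +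
    β * ((c.p3x - c.eW1x) ^ 2 + (c.p3y - c.eW1y) ^ 2 - (0) ^ 2 - (0) ^ 2 - 2 * (0) ^ 2) / 2
  p3_eS1 : 0 ≤ 1 / 4 * c.p3x + 7 / 4 * c.p3y - 1 / 4 * c.eS1x - 7 / 4 * c.eS1y +
    β * ((c.p3x - c.eS1x) ^ 2 + (c.p3y - c.eS1y) ^ 2 - (0) ^ 2 - (0) ^ 2 - 2 * (0) ^ 2) / 2
  p3_eS2 : 0 ≤ 1 / 2 * c.p3x + 3 / 2 * c.p3y - 1 / 2 * c.eS2x - 3 / 2 * c.eS2y +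
    β * ((c.p3x - c.eS2x) ^ 2 + (c.p3y - c.eS2y) ^ 2 - (0) ^ 2 - (0) ^ 2 - 2 * (0) ^ 2) / 2
  p3_gW : 0 ≤ 49 / 64 * c.p3x - 65 / 64 * c.p3y + 1 / 4 * c.gWu - 57 / 32 * c.gWv +
    β * ((c.p3x) ^ 2 + (c.p3y) ^ 2 - (c.gWu + c.gWv) ^ 2 - (c.gWu - c.gWv) ^ 2 - 2 * (0) ^ 2) / 2
  p3_gS : 0 ≤ 49 / 64 * c.p3x + 65 / 64 * c.p3y + 1 / 4 * c.gSu - 57 / 32 * c.gSv +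
    β * ((c.p3x) ^ 2 + (c.p3y) ^ 2 - (c.gSu + c.gSv) ^ 2 - (-c.gSu + c.gSv) ^ 2 - 2 * (0) ^ 2) / 2
  p3_hNv : 0 ≤ -31 / 16 * c.p3x - 3 / 16 * c.p3y - 7 / 4 * c.hNu - 17 / 8 * c.hNv +
    β * ((c.p3x) ^ 2 + (c.p3y) ^ 2 - (-c.hNu - c.hNv) ^ 2 - (c.hNu - c.hNv) ^ 2 - 2 * (0) ^ 2) / 2
  p3_hW : 0 ≤ -1 / 16 * c.p3x - 3 / 16 * c.p3y + 1 / 4 * c.hWu - 1 / 8 * c.hWv +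
    β * ((c.p3x) ^ 2 + (c.p3y) ^ 2 - (c.hWu + c.hWv) ^ 2 - (c.hWu - c.hWv) ^ 2 - 2 * (0) ^ 2) / 2
  z1N_t1N : 0 ≤ -c.z1Ny + c.t1Ny + c.s1 + c.t1x +
    β * ((c.z1Nx - c.t1Nx) ^ 2 + (c.z1Ny - c.t1Ny) ^ 2 - (-c.h1 + c.t1y) ^ 2 - (c.s1 + c.t1x) ^ 2 - 2 * (0) ^ 2) / 2
  z1N_t2N : 0 ≤ -c.z1Ny + c.t2Ny + c.s1 + c.t2x +
    β * ((c.z1Nx - c.t2Nx) ^ 2 + (c.z1Ny - c.t2Ny) ^ 2 - (-c.h1 + c.t2y) ^ 2 - (c.s1 + c.t2x) ^ 2 - 2 * (0) ^ 2) / 2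
  z1N_k1N : 0 ≤ -1 / 2 * c.z1Ny + 1 / 2 * c.k1Ny + 1 / 2 * c.s1 +
    β * ((c.z1Nx - c.k1Nx) ^ 2 + (c.z1Ny - c.k1Ny) ^ 2 - (-c.h1 + c.k1) ^ 2 - (c.s1) ^ 2 - 2 * (0) ^ 2) / 2
  z1N_k2N : 0 ≤ 1 / 2 * c.z1Nx - c.z1Ny - 1 / 2 * c.k2Nx + c.k2Ny + 1 / 2 * c.h1 + c.s1 + c.k2 +
    β * ((c.z1Nx - c.k2Nx) ^ 2 + (c.z1Ny - c.k2Ny) ^ 2 - (-c.h1) ^ 2 - (c.s1 + c.k2) ^ 2 - 2 * (0) ^ 2) / 2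
  z1N_eN1 : 0 ≤ 3 / 4 * c.z1Nx - 3 / 4 * c.z1Ny - 3 / 4 * c.eN1x + 3 / 4 * c.eN1y + 3 / 4 * c.h1 + 3 / 4 * c.s1 +
    β * ((c.z1Nx - c.eN1x) ^ 2 + (c.z1Ny - c.eN1y) ^ 2 - (-c.h1) ^ 2 - (c.s1) ^ 2 - 2 * (0) ^ 2) / 2
  z1N_eN2 : 0 ≤ 1 / 2 * c.z1Nx - 1 / 2 * c.z1Ny - 1 / 2 * c.eN2x + 1 / 2 * c.eN2y + 1 / 2 * c.h1 + 1 / 2 * c.s1 +
    β * ((c.z1Nx - c.eN2x) ^ 2 + (c.z1Ny - c.eN2y) ^ 2 - (-c.h1) ^ 2 - (c.s1) ^ 2 - 2 * (0) ^ 2) / 2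
  z1N_gNu : 0 ≤ 15 / 64 * c.z1Nx - 1 / 64 * c.z1Ny + 1 / 8 * c.s1 + 1 / 4 * c.gNu + 1 / 8 * c.h1 + 7 / 32 * c.gNv +
    β * ((c.z1Nx) ^ 2 + (c.z1Ny) ^ 2 - (-c.s1 - c.gNu) ^ 2 - (c.h1 + c.gNu) ^ 2 - 2 * (-c.gNv) ^ 2) / 2
  z1N_gNh : 0 ≤ 15 / 64 * c.z1Nx - 1 / 64 * c.z1Ny + 15 / 64 * c.h1 + 1 / 4 * c.gNu + 7 / 32 * c.gNv + 1 / 64 * c.s1 +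
    β * ((c.z1Nx) ^ 2 + (c.z1Ny) ^ 2 - (-c.h1 - c.gNu - c.gNv) ^ 2 - (c.s1 + c.gNu - c.gNv) ^ 2 - 2 * (0) ^ 2) / 2
  z1N_hNu : 0 ≤ 17 / 16 * c.z1Nx + 13 / 16 * c.z1Ny + 1 / 8 * c.s1 + 1 / 4 * c.hNu + 1 / 8 * c.h1 + 15 / 8 * c.hNv +
    β * ((c.z1Nx) ^ 2 + (c.z1Ny) ^ 2 - (-c.s1 - c.hNu) ^ 2 - (c.h1 + c.hNu) ^ 2 - 2 * (-c.hNv) ^ 2) / 2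
  z1E_t2E : 0 ≤ c.z1Ey - c.t2Ey + c.s1 + c.t2x +
    β * ((c.z1Ex - c.t2Ex) ^ 2 + (c.z1Ey - c.t2Ey) ^ 2 - (c.h1 - c.t2y) ^ 2 - (-c.s1 - c.t2x) ^ 2 - 2 * (0) ^ 2) / 2
  z1E_k1E : 0 ≤ 1 / 2 * c.z1Ey - 1 / 2 * c.k1Ey + 1 / 2 * c.s1 +
    β * ((c.z1Ex - c.k1Ex) ^ 2 + (c.z1Ey - c.k1Ey) ^ 2 - (c.h1 - c.k1) ^ 2 - (-c.s1) ^ 2 - 2 * (0) ^ 2) / 2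
  z1E_k4E : 0 ≤ 1 / 2 * c.z1Ex + c.z1Ey - 1 / 2 * c.k4Ex - c.k4Ey - 1 / 2 * c.h1 + c.s1 + c.k4 +
    β * ((c.z1Ex - c.k4Ex) ^ 2 + (c.z1Ey - c.k4Ey) ^ 2 - (c.h1) ^ 2 - (-c.s1 - c.k4) ^ 2 - 2 * (0) ^ 2) / 2
  z1E_gEu : 0 ≤ 15 / 64 * c.z1Ex + 1 / 64 * c.z1Ey + 1 / 8 * c.s1 + 1 / 4 * c.gEu - 1 / 8 * c.h1 + 7 / 32 * c.gEv +
    β * ((c.z1Ex) ^ 2 + (c.z1Ey) ^ 2 - (-c.s1 - c.gEu) ^ 2 - (c.h1 - c.gEu) ^ 2 - 2 * (-c.gEv) ^ 2) / 2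
  z1E_gEh : 0 ≤ 15 / 64 * c.z1Ex + 1 / 64 * c.z1Ey - 15 / 64 * c.h1 + 1 / 4 * c.gEu + 7 / 32 * c.gEv + 1 / 64 * c.s1 +
    β * ((c.z1Ex) ^ 2 + (c.z1Ey) ^ 2 - (c.h1 - c.gEu - c.gEv) ^ 2 - (-c.s1 - c.gEu + c.gEv) ^ 2 - 2 * (0) ^ 2) / 2
  z3W_t1W : 0 ≤ -c.z3Wy + c.t1Wy + c.s3 - c.t1x +
    β * ((c.z3Wx - c.t1Wx) ^ 2 + (c.z3Wy - c.t1Wy) ^ 2 - (c.h3 - c.t1y) ^ 2 - (c.s3 - c.t1x) ^ 2 - 2 * (0) ^ 2) / 2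
  z3W_k2W : 0 ≤ -1 / 2 * c.z3Wx - c.z3Wy + 1 / 2 * c.k2Wx + c.k2Wy + 1 / 2 * c.h3 + c.s3 - c.k2 +
    β * ((c.z3Wx - c.k2Wx) ^ 2 + (c.z3Wy - c.k2Wy) ^ 2 - (c.h3) ^ 2 - (c.s3 - c.k2) ^ 2 - 2 * (0) ^ 2) / 2
  z3W_k3W : 0 ≤ -1 / 2 * c.z3Wy + 1 / 2 * c.k3Wy + 1 / 2 * c.s3 +
    β * ((c.z3Wx - c.k3Wx) ^ 2 + (c.z3Wy - c.k3Wy) ^ 2 - (c.h3 - c.k3) ^ 2 - (c.s3) ^ 2 - 2 * (0) ^ 2) / 2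
  z3W_eW1 : 0 ≤ -3 / 4 * c.z3Wx - 3 / 4 * c.z3Wy + 3 / 4 * c.eW1x + 3 / 4 * c.eW1y + 3 / 4 * c.h3 + 3 / 4 * c.s3 +
    β * ((c.z3Wx - c.eW1x) ^ 2 + (c.z3Wy - c.eW1y) ^ 2 - (c.h3) ^ 2 - (c.s3) ^ 2 - 2 * (0) ^ 2) / 2
  z3W_gWu : 0 ≤ -15 / 64 * c.z3Wx - 1 / 64 * c.z3Wy + 1 / 8 * c.s3 + 1 / 4 * c.gWu + 1 / 8 * c.h3 + 7 / 32 * c.gWv +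
    β * ((c.z3Wx) ^ 2 + (c.z3Wy) ^ 2 - (c.s3 + c.gWu) ^ 2 - (c.h3 + c.gWu) ^ 2 - 2 * (-c.gWv) ^ 2) / 2
  z3W_gWh : 0 ≤ -15 / 64 * c.z3Wx - 1 / 64 * c.z3Wy + 15 / 64 * c.h3 + 1 / 4 * c.gWu + 7 / 32 * c.gWv + 1 / 64 * c.s3 +
    β * ((c.z3Wx) ^ 2 + (c.z3Wy) ^ 2 - (c.h3 + c.gWu + c.gWv) ^ 2 - (c.s3 + c.gWu - c.gWv) ^ 2 - 2 * (0) ^ 2) / 2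
  z3W_hWu : 0 ≤ -17 / 16 * c.z3Wx + 13 / 16 * c.z3Wy + 1 / 8 * c.s3 + 1 / 4 * c.hWu + 1 / 8 * c.h3 + 15 / 8 * c.hWv +
    β * ((c.z3Wx) ^ 2 + (c.z3Wy) ^ 2 - (c.s3 + c.hWu) ^ 2 - (c.h3 + c.hWu) ^ 2 - 2 * (-c.hWv) ^ 2) / 2
  z3S_t1S : 0 ≤ c.z3Sy - c.t1Sy + c.s3 - c.t1x +
    β * ((c.z3Sx - c.t1Sx) ^ 2 + (c.z3Sy - c.t1Sy) ^ 2 - (-c.h3 + c.t1y) ^ 2 - (-c.s3 + c.t1x) ^ 2 - 2 * (0) ^ 2) / 2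
  z3S_t2S : 0 ≤ c.z3Sy - c.t2Sy + c.s3 - c.t2x +
    β * ((c.z3Sx - c.t2Sx) ^ 2 + (c.z3Sy - c.t2Sy) ^ 2 - (-c.h3 + c.t2y) ^ 2 - (-c.s3 + c.t2x) ^ 2 - 2 * (0) ^ 2) / 2
  z3S_k3S : 0 ≤ 1 / 2 * c.z3Sy - 1 / 2 * c.k3Sy + 1 / 2 * c.s3 +
    β * ((c.z3Sx - c.k3Sx) ^ 2 + (c.z3Sy - c.k3Sy) ^ 2 - (-c.h3 + c.k3) ^ 2 - (-c.s3) ^ 2 - 2 * (0) ^ 2) / 2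
  z3S_k4S : 0 ≤ -1 / 2 * c.z3Sx + c.z3Sy + 1 / 2 * c.k4Sx - c.k4Sy - 1 / 2 * c.h3 + c.s3 - c.k4 +
    β * ((c.z3Sx - c.k4Sx) ^ 2 + (c.z3Sy - c.k4Sy) ^ 2 - (-c.h3) ^ 2 - (-c.s3 + c.k4) ^ 2 - 2 * (0) ^ 2) / 2
  z3S_eS1 : 0 ≤ -3 / 4 * c.z3Sx + 3 / 4 * c.z3Sy + 3 / 4 * c.eS1x - 3 / 4 * c.eS1y - 3 / 4 * c.h3 + 3 / 4 * c.s3 +
    β * ((c.z3Sx - c.eS1x) ^ 2 + (c.z3Sy - c.eS1y) ^ 2 - (-c.h3) ^ 2 - (-c.s3) ^ 2 - 2 * (0) ^ 2) / 2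
  z3S_eS2 : 0 ≤ -1 / 2 * c.z3Sx + 1 / 2 * c.z3Sy + 1 / 2 * c.eS2x - 1 / 2 * c.eS2y - 1 / 2 * c.h3 + 1 / 2 * c.s3 +
    β * ((c.z3Sx - c.eS2x) ^ 2 + (c.z3Sy - c.eS2y) ^ 2 - (-c.h3) ^ 2 - (-c.s3) ^ 2 - 2 * (0) ^ 2) / 2
  z3S_gSu : 0 ≤ -15 / 64 * c.z3Sx + 1 / 64 * c.z3Sy + 1 / 8 * c.s3 + 1 / 4 * c.gSu - 1 / 8 * c.h3 + 7 / 32 * c.gSv +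
    β * ((c.z3Sx) ^ 2 + (c.z3Sy) ^ 2 - (c.s3 + c.gSu) ^ 2 - (c.h3 - c.gSu) ^ 2 - 2 * (-c.gSv) ^ 2) / 2
  z3S_gSh : 0 ≤ -15 / 64 * c.z3Sx + 1 / 64 * c.z3Sy - 15 / 64 * c.h3 + 1 / 4 * c.gSu + 7 / 32 * c.gSv + 1 / 64 * c.s3 +
    β * ((c.z3Sx) ^ 2 + (c.z3Sy) ^ 2 - (-c.h3 + c.gSu + c.gSv) ^ 2 - (-c.s3 - c.gSu + c.gSv) ^ 2 - 2 * (0) ^ 2) / 2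
  t1N_k1N : 0 ≤ 1 / 2 * c.t1Ny - 1 / 2 * c.k1Ny + 1 / 2 * c.t1x +
    β * ((c.t1Nx - c.k1Nx) ^ 2 + (c.t1Ny - c.k1Ny) ^ 2 - (-c.t1y + c.k1) ^ 2 - (-c.t1x) ^ 2 - 2 * (0) ^ 2) / 2
  t1N_k2N : 0 ≤ 1 / 2 * c.t1Nx - 1 / 2 * c.k2Nx + 1 / 2 * c.t1y +
    β * ((c.t1Nx - c.k2Nx) ^ 2 + (c.t1Ny - c.k2Ny) ^ 2 - (-c.t1y) ^ 2 - (-c.t1x + c.k2) ^ 2 - 2 * (0) ^ 2) / 2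
  t1N_eN1 : 0 ≤ 3 / 4 * c.t1Nx + 1 / 4 * c.t1Ny - 3 / 4 * c.eN1x - 1 / 4 * c.eN1y + 3 / 4 * c.t1y + 1 / 4 * c.t1x +
    β * ((c.t1Nx - c.eN1x) ^ 2 + (c.t1Ny - c.eN1y) ^ 2 - (-c.t1y) ^ 2 - (-c.t1x) ^ 2 - 2 * (0) ^ 2) / 2
  t1N_eN2 : 0 ≤ 1 / 2 * c.t1Nx + 1 / 2 * c.t1Ny - 1 / 2 * c.eN2x - 1 / 2 * c.eN2y + 1 / 2 * c.t1y + 1 / 2 * c.t1x +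
    β * ((c.t1Nx - c.eN2x) ^ 2 + (c.t1Ny - c.eN2y) ^ 2 - (-c.t1y) ^ 2 - (-c.t1x) ^ 2 - 2 * (0) ^ 2) / 2
  t1N_gNh : 0 ≤ 15 / 64 * c.t1Nx + 63 / 64 * c.t1Ny + 15 / 64 * c.t1y - 3 / 4 * c.gNu + 39 / 32 * c.gNv + 63 / 64 * c.t1x +
    β * ((c.t1Nx) ^ 2 + (c.t1Ny) ^ 2 - (-c.t1y - c.gNu - c.gNv) ^ 2 - (-c.t1x + c.gNu - c.gNv) ^ 2 - 2 * (0) ^ 2) / 2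
  t1W_k2W : 0 ≤ -1 / 2 * c.t1Wx + 1 / 2 * c.k2Wx + 1 / 2 * c.t1y +
    β * ((c.t1Wx - c.k2Wx) ^ 2 + (c.t1Wy - c.k2Wy) ^ 2 - (c.t1y) ^ 2 - (c.t1x - c.k2) ^ 2 - 2 * (0) ^ 2) / 2
  t1W_k3W : 0 ≤ 1 / 2 * c.t1Wy - 1 / 2 * c.k3Wy - 1 / 2 * c.t1x +
    β * ((c.t1Wx - c.k3Wx) ^ 2 + (c.t1Wy - c.k3Wy) ^ 2 - (c.t1y - c.k3) ^ 2 - (c.t1x) ^ 2 - 2 * (0) ^ 2) / 2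
  t1W_eW1 : 0 ≤ -3 / 4 * c.t1Wx + 1 / 4 * c.t1Wy + 3 / 4 * c.eW1x - 1 / 4 * c.eW1y + 3 / 4 * c.t1y - 1 / 4 * c.t1x +
    β * ((c.t1Wx - c.eW1x) ^ 2 + (c.t1Wy - c.eW1y) ^ 2 - (c.t1y) ^ 2 - (c.t1x) ^ 2 - 2 * (0) ^ 2) / 2
  t1W_gWh : 0 ≤ -15 / 64 * c.t1Wx + 63 / 64 * c.t1Wy + 15 / 64 * c.t1y - 3 / 4 * c.gWu + 39 / 32 * c.gWv - 63 / 64 * c.t1x +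
    β * ((c.t1Wx) ^ 2 + (c.t1Wy) ^ 2 - (c.t1y + c.gWu + c.gWv) ^ 2 - (c.t1x + c.gWu - c.gWv) ^ 2 - 2 * (0) ^ 2) / 2
  t1S_k3S : 0 ≤ -1 / 2 * c.t1Sy + 1 / 2 * c.k3Sy - 1 / 2 * c.t1x +
    β * ((c.t1Sx - c.k3Sx) ^ 2 + (c.t1Sy - c.k3Sy) ^ 2 - (-c.t1y + c.k3) ^ 2 - (-c.t1x) ^ 2 - 2 * (0) ^ 2) / 2
  t1S_k4S : 0 ≤ -1 / 2 * c.t1Sx + 1 / 2 * c.k4Sx - 1 / 2 * c.t1y +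
    β * ((c.t1Sx - c.k4Sx) ^ 2 + (c.t1Sy - c.k4Sy) ^ 2 - (-c.t1y) ^ 2 - (-c.t1x + c.k4) ^ 2 - 2 * (0) ^ 2) / 2
  t1S_eS1 : 0 ≤ -3 / 4 * c.t1Sx - 1 / 4 * c.t1Sy + 3 / 4 * c.eS1x + 1 / 4 * c.eS1y - 3 / 4 * c.t1y - 1 / 4 * c.t1x +
    β * ((c.t1Sx - c.eS1x) ^ 2 + (c.t1Sy - c.eS1y) ^ 2 - (-c.t1y) ^ 2 - (-c.t1x) ^ 2 - 2 * (0) ^ 2) / 2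
  t1S_eS2 : 0 ≤ -1 / 2 * c.t1Sx - 1 / 2 * c.t1Sy + 1 / 2 * c.eS2x + 1 / 2 * c.eS2y - 1 / 2 * c.t1y - 1 / 2 * c.t1x +
    β * ((c.t1Sx - c.eS2x) ^ 2 + (c.t1Sy - c.eS2y) ^ 2 - (-c.t1y) ^ 2 - (-c.t1x) ^ 2 - 2 * (0) ^ 2) / 2
  t1S_gSh : 0 ≤ -15 / 64 * c.t1Sx - 63 / 64 * c.t1Sy - 15 / 64 * c.t1y - 3 / 4 * c.gSu + 39 / 32 * c.gSv - 63 / 64 * c.t1x +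
    β * ((c.t1Sx) ^ 2 + (c.t1Sy) ^ 2 - (-c.t1y + c.gSu + c.gSv) ^ 2 - (-c.t1x - c.gSu + c.gSv) ^ 2 - 2 * (0) ^ 2) / 2
  t2N_k1N : 0 ≤ 1 / 2 * c.t2Ny - 1 / 2 * c.k1Ny + 1 / 2 * c.t2x +
    β * ((c.t2Nx - c.k1Nx) ^ 2 + (c.t2Ny - c.k1Ny) ^ 2 - (-c.t2y + c.k1) ^ 2 - (-c.t2x) ^ 2 - 2 * (0) ^ 2) / 2
  t2N_k2N : 0 ≤ 1 / 2 * c.t2Nx - 1 / 2 * c.k2Nx + 1 / 2 * c.t2y +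
    β * ((c.t2Nx - c.k2Nx) ^ 2 + (c.t2Ny - c.k2Ny) ^ 2 - (-c.t2y) ^ 2 - (-c.t2x + c.k2) ^ 2 - 2 * (0) ^ 2) / 2
  t2N_eN1 : 0 ≤ 3 / 4 * c.t2Nx + 1 / 4 * c.t2Ny - 3 / 4 * c.eN1x - 1 / 4 * c.eN1y + 3 / 4 * c.t2y + 1 / 4 * c.t2x +
    β * ((c.t2Nx - c.eN1x) ^ 2 + (c.t2Ny - c.eN1y) ^ 2 - (-c.t2y) ^ 2 - (-c.t2x) ^ 2 - 2 * (0) ^ 2) / 2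
  t2N_eN2 : 0 ≤ 1 / 2 * c.t2Nx + 1 / 2 * c.t2Ny - 1 / 2 * c.eN2x - 1 / 2 * c.eN2y + 1 / 2 * c.t2y + 1 / 2 * c.t2x +
    β * ((c.t2Nx - c.eN2x) ^ 2 + (c.t2Ny - c.eN2y) ^ 2 - (-c.t2y) ^ 2 - (-c.t2x) ^ 2 - 2 * (0) ^ 2) / 2
  t2N_gNh : 0 ≤ 15 / 64 * c.t2Nx + 63 / 64 * c.t2Ny + 15 / 64 * c.t2y - 3 / 4 * c.gNu + 39 / 32 * c.gNv + 63 / 64 * c.t2x +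
    β * ((c.t2Nx) ^ 2 + (c.t2Ny) ^ 2 - (-c.t2y - c.gNu - c.gNv) ^ 2 - (-c.t2x + c.gNu - c.gNv) ^ 2 - 2 * (0) ^ 2) / 2
  t2S_k3S : 0 ≤ -1 / 2 * c.t2Sy + 1 / 2 * c.k3Sy - 1 / 2 * c.t2x +
    β * ((c.t2Sx - c.k3Sx) ^ 2 + (c.t2Sy - c.k3Sy) ^ 2 - (-c.t2y + c.k3) ^ 2 - (-c.t2x) ^ 2 - 2 * (0) ^ 2) / 2
  t2S_k4S : 0 ≤ -1 / 2 * c.t2Sx + 1 / 2 * c.k4Sx - 1 / 2 * c.t2y +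
    β * ((c.t2Sx - c.k4Sx) ^ 2 + (c.t2Sy - c.k4Sy) ^ 2 - (-c.t2y) ^ 2 - (-c.t2x + c.k4) ^ 2 - 2 * (0) ^ 2) / 2
  t2S_eS1 : 0 ≤ -3 / 4 * c.t2Sx - 1 / 4 * c.t2Sy + 3 / 4 * c.eS1x + 1 / 4 * c.eS1y - 3 / 4 * c.t2y - 1 / 4 * c.t2x +
    β * ((c.t2Sx - c.eS1x) ^ 2 + (c.t2Sy - c.eS1y) ^ 2 - (-c.t2y) ^ 2 - (-c.t2x) ^ 2 - 2 * (0) ^ 2) / 2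
  t2S_eS2 : 0 ≤ -1 / 2 * c.t2Sx - 1 / 2 * c.t2Sy + 1 / 2 * c.eS2x + 1 / 2 * c.eS2y - 1 / 2 * c.t2y - 1 / 2 * c.t2x +
    β * ((c.t2Sx - c.eS2x) ^ 2 + (c.t2Sy - c.eS2y) ^ 2 - (-c.t2y) ^ 2 - (-c.t2x) ^ 2 - 2 * (0) ^ 2) / 2
  t2S_gSh : 0 ≤ -15 / 64 * c.t2Sx - 63 / 64 * c.t2Sy - 15 / 64 * c.t2y - 3 / 4 * c.gSu + 39 / 32 * c.gSv - 63 / 64 * c.t2x +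
    β * ((c.t2Sx) ^ 2 + (c.t2Sy) ^ 2 - (-c.t2y + c.gSu + c.gSv) ^ 2 - (-c.t2x - c.gSu + c.gSv) ^ 2 - 2 * (0) ^ 2) / 2
  t2E_k1E : 0 ≤ -1 / 2 * c.t2Ey + 1 / 2 * c.k1Ey + 1 / 2 * c.t2x +
    β * ((c.t2Ex - c.k1Ex) ^ 2 + (c.t2Ey - c.k1Ey) ^ 2 - (c.t2y - c.k1) ^ 2 - (c.t2x) ^ 2 - 2 * (0) ^ 2) / 2
  t2E_k4E : 0 ≤ 1 / 2 * c.t2Ex - 1 / 2 * c.k4Ex - 1 / 2 * c.t2y +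
    β * ((c.t2Ex - c.k4Ex) ^ 2 + (c.t2Ey - c.k4Ey) ^ 2 - (c.t2y) ^ 2 - (c.t2x - c.k4) ^ 2 - 2 * (0) ^ 2) / 2
  t2E_gEh : 0 ≤ 15 / 64 * c.t2Ex - 63 / 64 * c.t2Ey - 15 / 64 * c.t2y - 3 / 4 * c.gEu + 39 / 32 * c.gEv + 63 / 64 * c.t2x +
    β * ((c.t2Ex) ^ 2 + (c.t2Ey) ^ 2 - (c.t2y - c.gEu - c.gEv) ^ 2 - (c.t2x - c.gEu + c.gEv) ^ 2 - 2 * (0) ^ 2) / 2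
  k1N_k2N : 0 ≤ 1 / 2 * c.k1Nx - 1 / 2 * c.k1Ny - 1 / 2 * c.k2Nx + 1 / 2 * c.k2Ny + 1 / 2 * c.k1 + 1 / 2 * c.k2 +
    β * ((c.k1Nx - c.k2Nx) ^ 2 + (c.k1Ny - c.k2Ny) ^ 2 - (-c.k1) ^ 2 - (c.k2) ^ 2 - 2 * (0) ^ 2) / 2
  k1N_eN1 : 0 ≤ 3 / 4 * c.k1Nx - 1 / 4 * c.k1Ny - 3 / 4 * c.eN1x + 1 / 4 * c.eN1y + 3 / 4 * c.k1 +
    β * ((c.k1Nx - c.eN1x) ^ 2 + (c.k1Ny - c.eN1y) ^ 2 - (-c.k1) ^ 2 - (0) ^ 2 - 2 * (0) ^ 2) / 2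
  k1N_eN2 : 0 ≤ 1 / 2 * c.k1Nx - 1 / 2 * c.eN2x + 1 / 2 * c.k1 +
    β * ((c.k1Nx - c.eN2x) ^ 2 + (c.k1Ny - c.eN2y) ^ 2 - (-c.k1) ^ 2 - (0) ^ 2 - 2 * (0) ^ 2) / 2
  k1N_gNh : 0 ≤ 15 / 64 * c.k1Nx + 31 / 64 * c.k1Ny + 15 / 64 * c.k1 - 1 / 4 * c.gNu + 23 / 32 * c.gNv +
    β * ((c.k1Nx) ^ 2 + (c.k1Ny) ^ 2 - (-c.k1 - c.gNu - c.gNv) ^ 2 - (c.gNu - c.gNv) ^ 2 - 2 * (0) ^ 2) / 2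
  k1E_k4E : 0 ≤ 1 / 2 * c.k1Ex + 1 / 2 * c.k1Ey - 1 / 2 * c.k4Ex - 1 / 2 * c.k4Ey - 1 / 2 * c.k1 + 1 / 2 * c.k4 +
    β * ((c.k1Ex - c.k4Ex) ^ 2 + (c.k1Ey - c.k4Ey) ^ 2 - (c.k1) ^ 2 - (-c.k4) ^ 2 - 2 * (0) ^ 2) / 2
  k1E_gEh : 0 ≤ 15 / 64 * c.k1Ex - 31 / 64 * c.k1Ey - 15 / 64 * c.k1 - 1 / 4 * c.gEu + 23 / 32 * c.gEv +
    β * ((c.k1Ex) ^ 2 + (c.k1Ey) ^ 2 - (c.k1 - c.gEu - c.gEv) ^ 2 - (-c.gEu + c.gEv) ^ 2 - 2 * (0) ^ 2) / 2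
  k2N_eN1 : 0 ≤ 1 / 4 * c.k2Nx + 1 / 4 * c.k2Ny - 1 / 4 * c.eN1x - 1 / 4 * c.eN1y + 1 / 4 * c.k2 +
    β * ((c.k2Nx - c.eN1x) ^ 2 + (c.k2Ny - c.eN1y) ^ 2 - (0) ^ 2 - (-c.k2) ^ 2 - 2 * (0) ^ 2) / 2
  k2N_eN2 : 0 ≤ 1 / 2 * c.k2Ny - 1 / 2 * c.eN2y + 1 / 2 * c.k2 +
    β * ((c.k2Nx - c.eN2x) ^ 2 + (c.k2Ny - c.eN2y) ^ 2 - (0) ^ 2 - (-c.k2) ^ 2 - 2 * (0) ^ 2) / 2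
  k2N_gNh : 0 ≤ -17 / 64 * c.k2Nx + 63 / 64 * c.k2Ny - 5 / 4 * c.gNu + 23 / 32 * c.gNv + 63 / 64 * c.k2 +
    β * ((c.k2Nx) ^ 2 + (c.k2Ny) ^ 2 - (-c.gNu - c.gNv) ^ 2 - (-c.k2 + c.gNu - c.gNv) ^ 2 - 2 * (0) ^ 2) / 2
  k2W_k3W : 0 ≤ 1 / 2 * c.k2Wx + 1 / 2 * c.k2Wy - 1 / 2 * c.k3Wx - 1 / 2 * c.k3Wy + 1 / 2 * c.k3 - 1 / 2 * c.k2 +
    β * ((c.k2Wx - c.k3Wx) ^ 2 + (c.k2Wy - c.k3Wy) ^ 2 - (-c.k3) ^ 2 - (c.k2) ^ 2 - 2 * (0) ^ 2) / 2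
  k2W_eW1 : 0 ≤ -1 / 4 * c.k2Wx + 1 / 4 * c.k2Wy + 1 / 4 * c.eW1x - 1 / 4 * c.eW1y - 1 / 4 * c.k2 +
    β * ((c.k2Wx - c.eW1x) ^ 2 + (c.k2Wy - c.eW1y) ^ 2 - (0) ^ 2 - (c.k2) ^ 2 - 2 * (0) ^ 2) / 2
  k2W_gWh : 0 ≤ 17 / 64 * c.k2Wx + 63 / 64 * c.k2Wy - 5 / 4 * c.gWu + 23 / 32 * c.gWv - 63 / 64 * c.k2 +
    β * ((c.k2Wx) ^ 2 + (c.k2Wy) ^ 2 - (c.gWu + c.gWv) ^ 2 - (c.k2 + c.gWu - c.gWv) ^ 2 - 2 * (0) ^ 2) / 2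
  k3W_eW1 : 0 ≤ -3 / 4 * c.k3Wx - 1 / 4 * c.k3Wy + 3 / 4 * c.eW1x + 1 / 4 * c.eW1y + 3 / 4 * c.k3 +
    β * ((c.k3Wx - c.eW1x) ^ 2 + (c.k3Wy - c.eW1y) ^ 2 - (c.k3) ^ 2 - (0) ^ 2 - 2 * (0) ^ 2) / 2
  k3W_gWh : 0 ≤ -15 / 64 * c.k3Wx + 31 / 64 * c.k3Wy + 15 / 64 * c.k3 - 1 / 4 * c.gWu + 23 / 32 * c.gWv +
    β * ((c.k3Wx) ^ 2 + (c.k3Wy) ^ 2 - (c.k3 + c.gWu + c.gWv) ^ 2 - (c.gWu - c.gWv) ^ 2 - 2 * (0) ^ 2) / 2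
  k3S_k4S : 0 ≤ -1 / 2 * c.k3Sx + 1 / 2 * c.k3Sy + 1 / 2 * c.k4Sx - 1 / 2 * c.k4Sy - 1 / 2 * c.k3 - 1 / 2 * c.k4 +
    β * ((c.k3Sx - c.k4Sx) ^ 2 + (c.k3Sy - c.k4Sy) ^ 2 - (-c.k3) ^ 2 - (c.k4) ^ 2 - 2 * (0) ^ 2) / 2
  k3S_eS1 : 0 ≤ -3 / 4 * c.k3Sx + 1 / 4 * c.k3Sy + 3 / 4 * c.eS1x - 1 / 4 * c.eS1y - 3 / 4 * c.k3 +
    β * ((c.k3Sx - c.eS1x) ^ 2 + (c.k3Sy - c.eS1y) ^ 2 - (-c.k3) ^ 2 - (0) ^ 2 - 2 * (0) ^ 2) / 2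
  k3S_eS2 : 0 ≤ -1 / 2 * c.k3Sx + 1 / 2 * c.eS2x - 1 / 2 * c.k3 +
    β * ((c.k3Sx - c.eS2x) ^ 2 + (c.k3Sy - c.eS2y) ^ 2 - (-c.k3) ^ 2 - (0) ^ 2 - 2 * (0) ^ 2) / 2
  k3S_gSh : 0 ≤ -15 / 64 * c.k3Sx - 31 / 64 * c.k3Sy - 15 / 64 * c.k3 - 1 / 4 * c.gSu + 23 / 32 * c.gSv +
    β * ((c.k3Sx) ^ 2 + (c.k3Sy) ^ 2 - (-c.k3 + c.gSu + c.gSv) ^ 2 - (-c.gSu + c.gSv) ^ 2 - 2 * (0) ^ 2) / 2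
  k4S_eS1 : 0 ≤ -1 / 4 * c.k4Sx - 1 / 4 * c.k4Sy + 1 / 4 * c.eS1x + 1 / 4 * c.eS1y - 1 / 4 * c.k4 +
    β * ((c.k4Sx - c.eS1x) ^ 2 + (c.k4Sy - c.eS1y) ^ 2 - (0) ^ 2 - (-c.k4) ^ 2 - 2 * (0) ^ 2) / 2
  k4S_eS2 : 0 ≤ -1 / 2 * c.k4Sy + 1 / 2 * c.eS2y - 1 / 2 * c.k4 +
    β * ((c.k4Sx - c.eS2x) ^ 2 + (c.k4Sy - c.eS2y) ^ 2 - (0) ^ 2 - (-c.k4) ^ 2 - 2 * (0) ^ 2) / 2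
  k4S_gSh : 0 ≤ 17 / 64 * c.k4Sx - 63 / 64 * c.k4Sy - 5 / 4 * c.gSu + 23 / 32 * c.gSv - 63 / 64 * c.k4 +
    β * ((c.k4Sx) ^ 2 + (c.k4Sy) ^ 2 - (c.gSu + c.gSv) ^ 2 - (-c.k4 - c.gSu + c.gSv) ^ 2 - 2 * (0) ^ 2) / 2
  k4E_gEh : 0 ≤ -17 / 64 * c.k4Ex - 63 / 64 * c.k4Ey - 5 / 4 * c.gEu + 23 / 32 * c.gEv + 63 / 64 * c.k4 +
    β * ((c.k4Ex) ^ 2 + (c.k4Ey) ^ 2 - (-c.gEu - c.gEv) ^ 2 - (c.k4 - c.gEu + c.gEv) ^ 2 - 2 * (0) ^ 2) / 2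
  eN1_eN2 : 0 ≤ -1 / 4 * c.eN1x + 1 / 4 * c.eN1y + 1 / 4 * c.eN2x - 1 / 4 * c.eN2y +
    β * ((c.eN1x - c.eN2x) ^ 2 + (c.eN1y - c.eN2y) ^ 2 - (0) ^ 2 - (0) ^ 2 - 2 * (0) ^ 2) / 2
  eN1_gN : 0 ≤ -33 / 64 * c.eN1x + 47 / 64 * c.eN1y - 5 / 4 * c.gNu + 7 / 32 * c.gNv +
    β * ((c.eN1x) ^ 2 + (c.eN1y) ^ 2 - (-c.gNu - c.gNv) ^ 2 - (c.gNu - c.gNv) ^ 2 - 2 * (0) ^ 2) / 2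
  eN1_hN : 0 ≤ 5 / 16 * c.eN1x + 25 / 16 * c.eN1y - 5 / 4 * c.hNu + 15 / 8 * c.hNv +
    β * ((c.eN1x) ^ 2 + (c.eN1y) ^ 2 - (-c.hNu - c.hNv) ^ 2 - (c.hNu - c.hNv) ^ 2 - 2 * (0) ^ 2) / 2
  eN2_gN : 0 ≤ -17 / 64 * c.eN2x + 31 / 64 * c.eN2y - 3 / 4 * c.gNu + 7 / 32 * c.gNv +
    β * ((c.eN2x) ^ 2 + (c.eN2y) ^ 2 - (-c.gNu - c.gNv) ^ 2 - (c.gNu - c.gNv) ^ 2 - 2 * (0) ^ 2) / 2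
  eN2_hN : 0 ≤ 9 / 16 * c.eN2x + 21 / 16 * c.eN2y - 3 / 4 * c.hNu + 15 / 8 * c.hNv +
    β * ((c.eN2x) ^ 2 + (c.eN2y) ^ 2 - (-c.hNu - c.hNv) ^ 2 - (c.hNu - c.hNv) ^ 2 - 2 * (0) ^ 2) / 2
  eW1_gW : 0 ≤ 33 / 64 * c.eW1x + 47 / 64 * c.eW1y - 5 / 4 * c.gWu + 7 / 32 * c.gWv +
    β * ((c.eW1x) ^ 2 + (c.eW1y) ^ 2 - (c.gWu + c.gWv) ^ 2 - (c.gWu - c.gWv) ^ 2 - 2 * (0) ^ 2) / 2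
  eW1_hW : 0 ≤ -5 / 16 * c.eW1x + 25 / 16 * c.eW1y - 5 / 4 * c.hWu + 15 / 8 * c.hWv +
    β * ((c.eW1x) ^ 2 + (c.eW1y) ^ 2 - (c.hWu + c.hWv) ^ 2 - (c.hWu - c.hWv) ^ 2 - 2 * (0) ^ 2) / 2
  eS1_eS2 : 0 ≤ 1 / 4 * c.eS1x - 1 / 4 * c.eS1y - 1 / 4 * c.eS2x + 1 / 4 * c.eS2y +
    β * ((c.eS1x - c.eS2x) ^ 2 + (c.eS1y - c.eS2y) ^ 2 - (0) ^ 2 - (0) ^ 2 - 2 * (0) ^ 2) / 2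
  eS1_gS : 0 ≤ 33 / 64 * c.eS1x - 47 / 64 * c.eS1y - 5 / 4 * c.gSu + 7 / 32 * c.gSv +
    β * ((c.eS1x) ^ 2 + (c.eS1y) ^ 2 - (c.gSu + c.gSv) ^ 2 - (-c.gSu + c.gSv) ^ 2 - 2 * (0) ^ 2) / 2
  eS2_gS : 0 ≤ 17 / 64 * c.eS2x - 31 / 64 * c.eS2y - 3 / 4 * c.gSu + 7 / 32 * c.gSv +
    β * ((c.eS2x) ^ 2 + (c.eS2y) ^ 2 - (c.gSu + c.gSv) ^ 2 - (-c.gSu + c.gSv) ^ 2 - 2 * (0) ^ 2) / 2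
  gN_hN : 0 ≤ -53 / 32 * c.gNv + 53 / 32 * c.hNv +
    β * ((0) ^ 2 + (0) ^ 2 - (c.gNu + c.gNv - c.hNu - c.hNv) ^ 2 - (-c.gNu + c.gNv + c.hNu - c.hNv) ^ 2 - 2 * (0) ^ 2) / 2
  gW_hW : 0 ≤ -53 / 32 * c.gWv + 53 / 32 * c.hWv +
    β * ((0) ^ 2 + (0) ^ 2 - (-c.gWu - c.gWv + c.hWu + c.hWv) ^ 2 - (-c.gWu + c.gWv + c.hWu - c.hWv) ^ 2 - 2 * (0) ^ 2) / 2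

structure Lin (τ : ℝ) (c : Cfg) : Prop where
  p2_p4 : 0 ≤ 2 * c.p2y - 2 * c.p4y + τ
  p2_p1 : 0 ≤ -c.p2x + c.p2y + c.p1x - c.p1y + τ
  p2_p3 : 0 ≤ c.p2x + c.p2y - c.p3x - c.p3y + τ
  p2_z1Nu : 0 ≤ -2 * c.p2x + 2 * c.z1Nx + c.s1 + c.h1 + τ
  p2_z1Nv : 0 ≤ -2 * c.p2x + 2 * c.z1Nx + 2 * c.h1 + τ
  p2_z3Wu : 0 ≤ 2 * c.p2x - 2 * c.z3Wx + c.s3 + c.h3 + τ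
  p2_z3Wv : 0 ≤ 2 * c.p2x - 2 * c.z3Wx + 2 * c.h3 + τ
  p2_k1Nv : 0 ≤ -2 * c.p2x - 1 / 2 * c.p2y + 2 * c.k1Nx + 1 / 2 * c.k1Ny + 2 * c.k1 + τ
  p2_k3Wv : 0 ≤ 2 * c.p2x - 1 / 2 * c.p2y - 2 * c.k3Wx + 1 / 2 * c.k3Wy + 2 * c.k3 + τ
  p2_eN1 : 0 ≤ -5 / 4 * c.p2x - 3 / 4 * c.p2y + 5 / 4 * c.eN1x + 3 / 4 * c.eN1y + τ
  p2_eN2 : 0 ≤ -3 / 2 * c.p2x - 1 / 2 * c.p2y + 3 / 2 * c.eN2x + 1 / 2 * c.eN2y + τ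
  p2_eW1 : 0 ≤ 5 / 4 * c.p2x - 3 / 4 * c.p2y - 5 / 4 * c.eW1x + 3 / 4 * c.eW1y + τ
  p2_gN : 0 ≤ -113 / 64 * c.p2x - 1 / 64 * c.p2y - 7 / 4 * c.gNu - 57 / 32 * c.gNv + τ
  p2_gW : 0 ≤ 113 / 64 * c.p2x - 1 / 64 * c.p2y - 7 / 4 * c.gWu - 57 / 32 * c.gWv + τ
  p2_hN : 0 ≤ -15 / 16 * c.p2x + 13 / 16 * c.p2y - 7 / 4 * c.hNu - 1 / 8 * c.hNv + τ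
  p2_hW : 0 ≤ 15 / 16 * c.p2x + 13 / 16 * c.p2y - 7 / 4 * c.hWu - 1 / 8 * c.hWv + τ
  p4_p1 : 0 ≤ -c.p4x - c.p4y + c.p1x + c.p1y + τ
  p4_p3 : 0 ≤ c.p4x - c.p4y - c.p3x + c.p3y + τ
  p4_z1Eu : 0 ≤ -2 * c.p4x + 2 * c.z1Ex + c.s1 - c.h1 + τ
  p4_z1Ev : 0 ≤ -2 * c.p4x + 2 * c.z1Ex - 2 * c.h1 + τ
  p4_z3Su : 0 ≤ 2 * c.p4x - 2 * c.z3Sx + c.s3 - c.h3 + τ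
  p4_z3Sv : 0 ≤ 2 * c.p4x - 2 * c.z3Sx - 2 * c.h3 + τ
  p4_k1Ev : 0 ≤ -2 * c.p4x + 1 / 2 * c.p4y + 2 * c.k1Ex - 1 / 2 * c.k1Ey - 2 * c.k1 + τ
  p4_k3Sv : 0 ≤ 2 * c.p4x + 1 / 2 * c.p4y - 2 * c.k3Sx - 1 / 2 * c.k3Sy - 2 * c.k3 + τ
  p4_eS1 : 0 ≤ 5 / 4 * c.p4x + 3 / 4 * c.p4y - 5 / 4 * c.eS1x - 3 / 4 * c.eS1y + τ
  p4_eS2 : 0 ≤ 3 / 2 * c.p4x + 1 / 2 * c.p4y - 3 / 2 * c.eS2x - 1 / 2 * c.eS2y + τ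
  p4_gS : 0 ≤ 113 / 64 * c.p4x + 1 / 64 * c.p4y - 7 / 4 * c.gSu - 57 / 32 * c.gSv + τ
  p4_gE : 0 ≤ -113 / 64 * c.p4x + 1 / 64 * c.p4y - 7 / 4 * c.gEu - 57 / 32 * c.gEv + τ
  p4_hNv : 0 ≤ -15 / 16 * c.p4x - 19 / 16 * c.p4y + 1 / 4 * c.hNu - 17 / 8 * c.hNv + τ
  p4_hWv : 0 ≤ 15 / 16 * c.p4x - 19 / 16 * c.p4y + 1 / 4 * c.hWu - 17 / 8 * c.hWv + τ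
  p1_p3 : 0 ≤ 2 * c.p1x - 2 * c.p3x + τ
  p1_z1Nu : 0 ≤ -c.p1x - c.p1y + c.z1Nx + c.z1Ny + τ
  p1_z1Eu : 0 ≤ -c.p1x + c.p1y + c.z1Ex - c.z1Ey + τ
  p1_k2Nv : 0 ≤ -1 / 2 * c.p1x - 2 * c.p1y + 1 / 2 * c.k2Nx + 2 * c.k2Ny + 2 * c.k2 + τ
  p1_k4Ev : 0 ≤ -1 / 2 * c.p1x + 2 * c.p1y + 1 / 2 * c.k4Ex - 2 * c.k4Ey + 2 * c.k4 + τ
  p1_eN1 : 0 ≤ -1 / 4 * c.p1x - 7 / 4 * c.p1y + 1 / 4 * c.eN1x + 7 / 4 * c.eN1y + τ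
  p1_eN2 : 0 ≤ -1 / 2 * c.p1x - 3 / 2 * c.p1y + 1 / 2 * c.eN2x + 3 / 2 * c.eN2y + τ
  p1_gN : 0 ≤ -49 / 64 * c.p1x - 65 / 64 * c.p1y + 1 / 4 * c.gNu - 57 / 32 * c.gNv + τ
  p1_gE : 0 ≤ -49 / 64 * c.p1x + 65 / 64 * c.p1y + 1 / 4 * c.gEu - 57 / 32 * c.gEv + τ
  p1_hN : 0 ≤ 1 / 16 * c.p1x - 3 / 16 * c.p1y + 1 / 4 * c.hNu - 1 / 8 * c.hNv + τ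
  p1_hWv : 0 ≤ 31 / 16 * c.p1x - 3 / 16 * c.p1y - 7 / 4 * c.hWu - 17 / 8 * c.hWv + τ
  p3_z3Wu : 0 ≤ c.p3x - c.p3y - c.z3Wx + c.z3Wy + τ
  p3_z3Su : 0 ≤ c.p3x + c.p3y - c.z3Sx - c.z3Sy + τ
  p3_k2Wv : 0 ≤ 1 / 2 * c.p3x - 2 * c.p3y - 1 / 2 * c.k2Wx + 2 * c.k2Wy - 2 * c.k2 + τ
  p3_k4Sv : 0 ≤ 1 / 2 * c.p3x + 2 * c.p3y - 1 / 2 * c.k4Sx - 2 * c.k4Sy - 2 * c.k4 + τ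
  p3_eW1 : 0 ≤ 1 / 4 * c.p3x - 7 / 4 * c.p3y - 1 / 4 * c.eW1x + 7 / 4 * c.eW1y + τ
  p3_eS1 : 0 ≤ 1 / 4 * c.p3x + 7 / 4 * c.p3y - 1 / 4 * c.eS1x - 7 / 4 * c.eS1y + τ
  p3_eS2 : 0 ≤ 1 / 2 * c.p3x + 3 / 2 * c.p3y - 1 / 2 * c.eS2x - 3 / 2 * c.eS2y + τ
  p3_gW : 0 ≤ 49 / 64 * c.p3x - 65 / 64 * c.p3y + 1 / 4 * c.gWu - 57 / 32 * c.gWv + τ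
  p3_gS : 0 ≤ 49 / 64 * c.p3x + 65 / 64 * c.p3y + 1 / 4 * c.gSu - 57 / 32 * c.gSv + τ
  p3_hNv : 0 ≤ -31 / 16 * c.p3x - 3 / 16 * c.p3y - 7 / 4 * c.hNu - 17 / 8 * c.hNv + τ
  p3_hW : 0 ≤ -1 / 16 * c.p3x - 3 / 16 * c.p3y + 1 / 4 * c.hWu - 1 / 8 * c.hWv + τ
  z1N_t1N : 0 ≤ -c.z1Ny + c.t1Ny + c.s1 + c.t1x + τ
  z1N_t2N : 0 ≤ -c.z1Ny + c.t2Ny + c.s1 + c.t2x + τ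
  z1N_k1N : 0 ≤ -1 / 2 * c.z1Ny + 1 / 2 * c.k1Ny + 1 / 2 * c.s1 + τ
  z1N_k2N : 0 ≤ 1 / 2 * c.z1Nx - c.z1Ny - 1 / 2 * c.k2Nx + c.k2Ny + 1 / 2 * c.h1 + c.s1 + c.k2 + τ
  z1N_eN1 : 0 ≤ 3 / 4 * c.z1Nx - 3 / 4 * c.z1Ny - 3 / 4 * c.eN1x + 3 / 4 * c.eN1y + 3 / 4 * c.h1 + 3 / 4 * c.s1 + τ
  z1N_eN2 : 0 ≤ 1 / 2 * c.z1Nx - 1 / 2 * c.z1Ny - 1 / 2 * c.eN2x + 1 / 2 * c.eN2y + 1 / 2 * c.h1 + 1 / 2 * c.s1 + τ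
  z1N_gNu : 0 ≤ 15 / 64 * c.z1Nx - 1 / 64 * c.z1Ny + 1 / 8 * c.s1 + 1 / 4 * c.gNu + 1 / 8 * c.h1 + 7 / 32 * c.gNv + τ
  z1N_gNh : 0 ≤ 15 / 64 * c.z1Nx - 1 / 64 * c.z1Ny + 15 / 64 * c.h1 + 1 / 4 * c.gNu + 7 / 32 * c.gNv + 1 / 64 * c.s1 + τ
  z1N_hNu : 0 ≤ 17 / 16 * c.z1Nx + 13 / 16 * c.z1Ny + 1 / 8 * c.s1 + 1 / 4 * c.hNu + 1 / 8 * c.h1 + 15 / 8 * c.hNv + τ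
  z1E_t2E : 0 ≤ c.z1Ey - c.t2Ey + c.s1 + c.t2x + τ
  z1E_k1E : 0 ≤ 1 / 2 * c.z1Ey - 1 / 2 * c.k1Ey + 1 / 2 * c.s1 + τ
  z1E_k4E : 0 ≤ 1 / 2 * c.z1Ex + c.z1Ey - 1 / 2 * c.k4Ex - c.k4Ey - 1 / 2 * c.h1 + c.s1 + c.k4 + τ
  z1E_gEu : 0 ≤ 15 / 64 * c.z1Ex + 1 / 64 * c.z1Ey + 1 / 8 * c.s1 + 1 / 4 * c.gEu - 1 / 8 * c.h1 + 7 / 32 * c.gEv + τ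
  z1E_gEh : 0 ≤ 15 / 64 * c.z1Ex + 1 / 64 * c.z1Ey - 15 / 64 * c.h1 + 1 / 4 * c.gEu + 7 / 32 * c.gEv + 1 / 64 * c.s1 + τ
  z3W_t1W : 0 ≤ -c.z3Wy + c.t1Wy + c.s3 - c.t1x + τ
  z3W_k2W : 0 ≤ -1 / 2 * c.z3Wx - c.z3Wy + 1 / 2 * c.k2Wx + c.k2Wy + 1 / 2 * c.h3 + c.s3 - c.k2 + τ
  z3W_k3W : 0 ≤ -1 / 2 * c.z3Wy + 1 / 2 * c.k3Wy + 1 / 2 * c.s3 + τ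
  z3W_eW1 : 0 ≤ -3 / 4 * c.z3Wx - 3 / 4 * c.z3Wy + 3 / 4 * c.eW1x + 3 / 4 * c.eW1y + 3 / 4 * c.h3 + 3 / 4 * c.s3 + τ
  z3W_gWu : 0 ≤ -15 / 64 * c.z3Wx - 1 / 64 * c.z3Wy + 1 / 8 * c.s3 + 1 / 4 * c.gWu + 1 / 8 * c.h3 + 7 / 32 * c.gWv + τ
  z3W_gWh : 0 ≤ -15 / 64 * c.z3Wx - 1 / 64 * c.z3Wy + 15 / 64 * c.h3 + 1 / 4 * c.gWu + 7 / 32 * c.gWv + 1 / 64 * c.s3 + τ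
  z3W_hWu : 0 ≤ -17 / 16 * c.z3Wx + 13 / 16 * c.z3Wy + 1 / 8 * c.s3 + 1 / 4 * c.hWu + 1 / 8 * c.h3 + 15 / 8 * c.hWv + τ
  z3S_t1S : 0 ≤ c.z3Sy - c.t1Sy + c.s3 - c.t1x + τ
  z3S_t2S : 0 ≤ c.z3Sy - c.t2Sy + c.s3 - c.t2x + τ
  z3S_k3S : 0 ≤ 1 / 2 * c.z3Sy - 1 / 2 * c.k3Sy + 1 / 2 * c.s3 + τ
  z3S_k4S : 0 ≤ -1 / 2 * c.z3Sx + c.z3Sy + 1 / 2 * c.k4Sx - c.k4Sy - 1 / 2 * c.h3 + c.s3 - c.k4 + τ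
  z3S_eS1 : 0 ≤ -3 / 4 * c.z3Sx + 3 / 4 * c.z3Sy + 3 / 4 * c.eS1x - 3 / 4 * c.eS1y - 3 / 4 * c.h3 + 3 / 4 * c.s3 + τ
  z3S_eS2 : 0 ≤ -1 / 2 * c.z3Sx + 1 / 2 * c.z3Sy + 1 / 2 * c.eS2x - 1 / 2 * c.eS2y - 1 / 2 * c.h3 + 1 / 2 * c.s3 + τ
  z3S_gSu : 0 ≤ -15 / 64 * c.z3Sx + 1 / 64 * c.z3Sy + 1 / 8 * c.s3 + 1 / 4 * c.gSu - 1 / 8 * c.h3 + 7 / 32 * c.gSv + τ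
  z3S_gSh : 0 ≤ -15 / 64 * c.z3Sx + 1 / 64 * c.z3Sy - 15 / 64 * c.h3 + 1 / 4 * c.gSu + 7 / 32 * c.gSv + 1 / 64 * c.s3 + τ
  t1N_k1N : 0 ≤ 1 / 2 * c.t1Ny - 1 / 2 * c.k1Ny + 1 / 2 * c.t1x + τ
  t1N_k2N : 0 ≤ 1 / 2 * c.t1Nx - 1 / 2 * c.k2Nx + 1 / 2 * c.t1y + τ
  t1N_eN1 : 0 ≤ 3 / 4 * c.t1Nx + 1 / 4 * c.t1Ny - 3 / 4 * c.eN1x - 1 / 4 * c.eN1y + 3 / 4 * c.t1y + 1 / 4 * c.t1x + τ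
  t1N_eN2 : 0 ≤ 1 / 2 * c.t1Nx + 1 / 2 * c.t1Ny - 1 / 2 * c.eN2x - 1 / 2 * c.eN2y + 1 / 2 * c.t1y + 1 / 2 * c.t1x + τ
  t1N_gNh : 0 ≤ 15 / 64 * c.t1Nx + 63 / 64 * c.t1Ny + 15 / 64 * c.t1y - 3 / 4 * c.gNu + 39 / 32 * c.gNv + 63 / 64 * c.t1x + τ
  t1W_k2W : 0 ≤ -1 / 2 * c.t1Wx + 1 / 2 * c.k2Wx + 1 / 2 * c.t1y + τ
  t1W_k3W : 0 ≤ 1 / 2 * c.t1Wy - 1 / 2 * c.k3Wy - 1 / 2 * c.t1x + τ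
  t1W_eW1 : 0 ≤ -3 / 4 * c.t1Wx + 1 / 4 * c.t1Wy + 3 / 4 * c.eW1x - 1 / 4 * c.eW1y + 3 / 4 * c.t1y - 1 / 4 * c.t1x + τ
  t1W_gWh : 0 ≤ -15 / 64 * c.t1Wx + 63 / 64 * c.t1Wy + 15 / 64 * c.t1y - 3 / 4 * c.gWu + 39 / 32 * c.gWv - 63 / 64 * c.t1x + τ
  t1S_k3S : 0 ≤ -1 / 2 * c.t1Sy + 1 / 2 * c.k3Sy - 1 / 2 * c.t1x + τ
  t1S_k4S : 0 ≤ -1 / 2 * c.t1Sx + 1 / 2 * c.k4Sx - 1 / 2 * c.t1y + τ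
  t1S_eS1 : 0 ≤ -3 / 4 * c.t1Sx - 1 / 4 * c.t1Sy + 3 / 4 * c.eS1x + 1 / 4 * c.eS1y - 3 / 4 * c.t1y - 1 / 4 * c.t1x + τ
  t1S_eS2 : 0 ≤ -1 / 2 * c.t1Sx - 1 / 2 * c.t1Sy + 1 / 2 * c.eS2x + 1 / 2 * c.eS2y - 1 / 2 * c.t1y - 1 / 2 * c.t1x + τ
  t1S_gSh : 0 ≤ -15 / 64 * c.t1Sx - 63 / 64 * c.t1Sy - 15 / 64 * c.t1y - 3 / 4 * c.gSu + 39 / 32 * c.gSv - 63 / 64 * c.t1x + τ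
  t2N_k1N : 0 ≤ 1 / 2 * c.t2Ny - 1 / 2 * c.k1Ny + 1 / 2 * c.t2x + τ
  t2N_k2N : 0 ≤ 1 / 2 * c.t2Nx - 1 / 2 * c.k2Nx + 1 / 2 * c.t2y + τ
  t2N_eN1 : 0 ≤ 3 / 4 * c.t2Nx + 1 / 4 * c.t2Ny - 3 / 4 * c.eN1x - 1 / 4 * c.eN1y + 3 / 4 * c.t2y + 1 / 4 * c.t2x + τ
  t2N_eN2 : 0 ≤ 1 / 2 * c.t2Nx + 1 / 2 * c.t2Ny - 1 / 2 * c.eN2x - 1 / 2 * c.eN2y + 1 / 2 * c.t2y + 1 / 2 * c.t2x + τ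
  t2N_gNh : 0 ≤ 15 / 64 * c.t2Nx + 63 / 64 * c.t2Ny + 15 / 64 * c.t2y - 3 / 4 * c.gNu + 39 / 32 * c.gNv + 63 / 64 * c.t2x + τ
  t2S_k3S : 0 ≤ -1 / 2 * c.t2Sy + 1 / 2 * c.k3Sy - 1 / 2 * c.t2x + τ
  t2S_k4S : 0 ≤ -1 / 2 * c.t2Sx + 1 / 2 * c.k4Sx - 1 / 2 * c.t2y + τ
  t2S_eS1 : 0 ≤ -3 / 4 * c.t2Sx - 1 / 4 * c.t2Sy + 3 / 4 * c.eS1x + 1 / 4 * c.eS1y - 3 / 4 * c.t2y - 1 / 4 * c.t2x + τ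
  t2S_eS2 : 0 ≤ -1 / 2 * c.t2Sx - 1 / 2 * c.t2Sy + 1 / 2 * c.eS2x + 1 / 2 * c.eS2y - 1 / 2 * c.t2y - 1 / 2 * c.t2x + τ
  t2S_gSh : 0 ≤ -15 / 64 * c.t2Sx - 63 / 64 * c.t2Sy - 15 / 64 * c.t2y - 3 / 4 * c.gSu + 39 / 32 * c.gSv - 63 / 64 * c.t2x + τ
  t2E_k1E : 0 ≤ -1 / 2 * c.t2Ey + 1 / 2 * c.k1Ey + 1 / 2 * c.t2x + τ
  t2E_k4E : 0 ≤ 1 / 2 * c.t2Ex - 1 / 2 * c.k4Ex - 1 / 2 * c.t2y + τ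
  t2E_gEh : 0 ≤ 15 / 64 * c.t2Ex - 63 / 64 * c.t2Ey - 15 / 64 * c.t2y - 3 / 4 * c.gEu + 39 / 32 * c.gEv + 63 / 64 * c.t2x + τ
  k1N_k2N : 0 ≤ 1 / 2 * c.k1Nx - 1 / 2 * c.k1Ny - 1 / 2 * c.k2Nx + 1 / 2 * c.k2Ny + 1 / 2 * c.k1 + 1 / 2 * c.k2 + τ
  k1N_eN1 : 0 ≤ 3 / 4 * c.k1Nx - 1 / 4 * c.k1Ny - 3 / 4 * c.eN1x + 1 / 4 * c.eN1y + 3 / 4 * c.k1 + τ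
  k1N_eN2 : 0 ≤ 1 / 2 * c.k1Nx - 1 / 2 * c.eN2x + 1 / 2 * c.k1 + τ
  k1N_gNh : 0 ≤ 15 / 64 * c.k1Nx + 31 / 64 * c.k1Ny + 15 / 64 * c.k1 - 1 / 4 * c.gNu + 23 / 32 * c.gNv + τ
  k1E_k4E : 0 ≤ 1 / 2 * c.k1Ex + 1 / 2 * c.k1Ey - 1 / 2 * c.k4Ex - 1 / 2 * c.k4Ey - 1 / 2 * c.k1 + 1 / 2 * c.k4 + τ
  k1E_gEh : 0 ≤ 15 / 64 * c.k1Ex - 31 / 64 * c.k1Ey - 15 / 64 * c.k1 - 1 / 4 * c.gEu + 23 / 32 * c.gEv + τ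
  k2N_eN1 : 0 ≤ 1 / 4 * c.k2Nx + 1 / 4 * c.k2Ny - 1 / 4 * c.eN1x - 1 / 4 * c.eN1y + 1 / 4 * c.k2 + τ
  k2N_eN2 : 0 ≤ 1 / 2 * c.k2Ny - 1 / 2 * c.eN2y + 1 / 2 * c.k2 + τ
  k2N_gNh : 0 ≤ -17 / 64 * c.k2Nx + 63 / 64 * c.k2Ny - 5 / 4 * c.gNu + 23 / 32 * c.gNv + 63 / 64 * c.k2 + τ
  k2W_k3W : 0 ≤ 1 / 2 * c.k2Wx + 1 / 2 * c.k2Wy - 1 / 2 * c.k3Wx - 1 / 2 * c.k3Wy + 1 / 2 * c.k3 - 1 / 2 * c.k2 + τ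
  k2W_eW1 : 0 ≤ -1 / 4 * c.k2Wx + 1 / 4 * c.k2Wy + 1 / 4 * c.eW1x - 1 / 4 * c.eW1y - 1 / 4 * c.k2 + τ
  k2W_gWh : 0 ≤ 17 / 64 * c.k2Wx + 63 / 64 * c.k2Wy - 5 / 4 * c.gWu + 23 / 32 * c.gWv - 63 / 64 * c.k2 + τ
  k3W_eW1 : 0 ≤ -3 / 4 * c.k3Wx - 1 / 4 * c.k3Wy + 3 / 4 * c.eW1x + 1 / 4 * c.eW1y + 3 / 4 * c.k3 + τ
  k3W_gWh : 0 ≤ -15 / 64 * c.k3Wx + 31 / 64 * c.k3Wy + 15 / 64 * c.k3 - 1 / 4 * c.gWu + 23 / 32 * c.gWv + τ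
  k3S_k4S : 0 ≤ -1 / 2 * c.k3Sx + 1 / 2 * c.k3Sy + 1 / 2 * c.k4Sx - 1 / 2 * c.k4Sy - 1 / 2 * c.k3 - 1 / 2 * c.k4 + τ
  k3S_eS1 : 0 ≤ -3 / 4 * c.k3Sx + 1 / 4 * c.k3Sy + 3 / 4 * c.eS1x - 1 / 4 * c.eS1y - 3 / 4 * c.k3 + τ
  k3S_eS2 : 0 ≤ -1 / 2 * c.k3Sx + 1 / 2 * c.eS2x - 1 / 2 * c.k3 + τ
  k3S_gSh : 0 ≤ -15 / 64 * c.k3Sx - 31 / 64 * c.k3Sy - 15 / 64 * c.k3 - 1 / 4 * c.gSu + 23 / 32 * c.gSv + τ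
  k4S_eS1 : 0 ≤ -1 / 4 * c.k4Sx - 1 / 4 * c.k4Sy + 1 / 4 * c.eS1x + 1 / 4 * c.eS1y - 1 / 4 * c.k4 + τ
  k4S_eS2 : 0 ≤ -1 / 2 * c.k4Sy + 1 / 2 * c.eS2y - 1 / 2 * c.k4 + τ
  k4S_gSh : 0 ≤ 17 / 64 * c.k4Sx - 63 / 64 * c.k4Sy - 5 / 4 * c.gSu + 23 / 32 * c.gSv - 63 / 64 * c.k4 + τ
  k4E_gEh : 0 ≤ -17 / 64 * c.k4Ex - 63 / 64 * c.k4Ey - 5 / 4 * c.gEu + 23 / 32 * c.gEv + 63 / 64 * c.k4 + τ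
  eN1_eN2 : 0 ≤ -1 / 4 * c.eN1x + 1 / 4 * c.eN1y + 1 / 4 * c.eN2x - 1 / 4 * c.eN2y + τ
  eN1_gN : 0 ≤ -33 / 64 * c.eN1x + 47 / 64 * c.eN1y - 5 / 4 * c.gNu + 7 / 32 * c.gNv + τ
  eN1_hN : 0 ≤ 5 / 16 * c.eN1x + 25 / 16 * c.eN1y - 5 / 4 * c.hNu + 15 / 8 * c.hNv + τ
  eN2_gN : 0 ≤ -17 / 64 * c.eN2x + 31 / 64 * c.eN2y - 3 / 4 * c.gNu + 7 / 32 * c.gNv + τ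
  eN2_hN : 0 ≤ 9 / 16 * c.eN2x + 21 / 16 * c.eN2y - 3 / 4 * c.hNu + 15 / 8 * c.hNv + τ
  eW1_gW : 0 ≤ 33 / 64 * c.eW1x + 47 / 64 * c.eW1y - 5 / 4 * c.gWu + 7 / 32 * c.gWv + τ
  eW1_hW : 0 ≤ -5 / 16 * c.eW1x + 25 / 16 * c.eW1y - 5 / 4 * c.hWu + 15 / 8 * c.hWv + τ
  eS1_eS2 : 0 ≤ 1 / 4 * c.eS1x - 1 / 4 * c.eS1y - 1 / 4 * c.eS2x + 1 / 4 * c.eS2y + τ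
  eS1_gS : 0 ≤ 33 / 64 * c.eS1x - 47 / 64 * c.eS1y - 5 / 4 * c.gSu + 7 / 32 * c.gSv + τ
  eS2_gS : 0 ≤ 17 / 64 * c.eS2x - 31 / 64 * c.eS2y - 3 / 4 * c.gSu + 7 / 32 * c.gSv + τ
  gN_hN : 0 ≤ -53 / 32 * c.gNv + 53 / 32 * c.hNv + τ
  gW_hW : 0 ≤ -53 / 32 * c.gWv + 53 / 32 * c.hWv + τ
  wRz1N : 0 ≤ -c.z1Nx
  wRz1E : 0 ≤ -c.z1Ex
  wLz3W : 0 ≤ c.z3Wx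
  wLz3S : 0 ≤ c.z3Sx
  wRt1N : 0 ≤ -c.t1Nx
  wTt1N : 0 ≤ 1 - c.t1Ny
  wLt1W : 0 ≤ c.t1Wx
  wTt1W : 0 ≤ 1 - c.t1Wy
  wLt1S : 0 ≤ c.t1Sx
  wBt1S : 0 ≤ 1 + c.t1Sy
  wRt2N : 0 ≤ -c.t2Nx
  wTt2N : 0 ≤ 1 - c.t2Ny
  wLt2S : 0 ≤ c.t2Sx
  wBt2S : 0 ≤ 1 + c.t2Sy
  wRt2E : 0 ≤ -c.t2Ex
  wBt2E : 0 ≤ 1 + c.t2Ey
  wRk1N : 0 ≤ -c.k1Nx
  wRk1E : 0 ≤ -c.k1Ex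
  wTk2N : 0 ≤ 1 - c.k2Ny
  wTk2W : 0 ≤ 1 - c.k2Wy
  wLk3W : 0 ≤ c.k3Wx
  wLk3S : 0 ≤ c.k3Sx
  wBk4S : 0 ≤ 1 + c.k4Sy
  wBk4E : 0 ≤ 1 + c.k4Ey
  wl : 0 ≤ -(c.z1Ny - c.p2y) - (c.z1Ey - c.p4y) - (c.z3Wy - c.p2y) - (c.z3Sy - c.p4y)

end Pool.Agent.P.MP_dba4bb_co.Ex
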