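import Pool.Agent.P.MP_dba4bb_co.Ex.S1

/-! The cone inequality at a vertex, and the passage from wrappings to covers. -/

namespace Pool.Agent.P.MP_dba4bb_co.Ex

open Set

namespace ConeP

/-- distance from the point `(α, ω)` of the plane -/
noncomputable def nn (α ω x y : ℝ) : ℝ := √((x - α) ^ 2 + (y - ω) ^ 2)

variable {α ω : ℝ}

theorem nn_lip (x y x' y' : ℝ) :
    (nn α ω x y - nn α ω x' y') ^ 2 ≤ (x - x') ^ 2 + (y - y') ^ 2 :=
  (nrm_lip _ _ _ _).trans_eq (by ring)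

theorem nn_le {x y x' y' : ℝ} (h : (x - α) ^ 2 + (y - ω) ^ 2 ≤ (x' - α) ^ 2 + (y' - ω) ^ 2) :
    nn α ω x y ≤ nn α ω x' y' := Real.sqrt_le_sqrt h

theorem one_le_nn {x y : ℝ} (h : 1 ≤ (x - α) ^ 2 + (y - ω) ^ 2) : 1 ≤ nn α ω x y :=
  Real.one_le_sqrt.2 h

theorem nn_sq (x y : ℝ) : nn α ω x y ^ 2 = (x - α) ^ 2 + (y - ω) ^ 2 :=
  Real.sq_sqrt (by positivity)

noncomputable def fU (α ω n w : ℝ) : ℝ := min (nn α ω (-n) w) (nn α ω (-w) (-n))

noncomputable def fW (α ω a n : ℝ) : ℝ := min (nn α ω a (-n)) (nn α ω (-n) (-a))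

theorem fU_lip (n w n' w' : ℝ) :
    (fU α ω n w - fU α ω n' w') ^ 2 ≤ (n - n') ^ 2 + (w - w') ^ 2 :=
  min_lip ((nn_lip _ _ _ _).trans_eq (by ring)) ((nn_lip _ _ _ _).trans_eq (by ring))

theorem fW_lip (a n a' n' : ℝ) :
    (fW α ω a n - fW α ω a' n') ^ 2 ≤ (a - a') ^ 2 + (n - n') ^ 2 :=
  min_lip ((nn_lip _ _ _ _).trans_eq (by ring)) ((nn_lip _ _ _ _).trans_eq (by ring))

theorem fU_zero (h1 : 0 ≤ α) (h2 : 0 ≤ ω) {w : ℝ} (hw : 0 ≤ w) : fU α ω 0 w = nn α ω 0 w := by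
  unfold fU
  rw [neg_zero]
  exact min_eq_left (nn_le (by nlinarith [mul_nonneg hw h1, mul_nonneg hw h2]))

theorem fW_zero (h1 : 0 ≤ α) (h2 : 0 ≤ ω) {a : ℝ} (ha : 0 ≤ a) : fW α ω a 0 = nn α ω a 0 := by
  unfold fW
  rw [neg_zero]
  exact min_eq_left (nn_le (by nlinarith [mul_nonneg ha h1, mul_nonneg ha h2]))

theorem fU_fW (n : ℝ) : fU α ω n 0 = fW α ω 0 n := by
  unfold fU fW
  rw [neg_zero, min_comm]

/-- the cut-off distance in the coordinates `a n w` -/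
noncomputable def ph (α ω a n w : ℝ) : ℝ :=
  min 1 (if n = 0 then nn α ω a w else if a = 0 then fU α ω n w else
    if w = 0 then fW α ω a n else 1)

theorem ph_V (a w : ℝ) : ph α ω a 0 w = min 1 (nn α ω a w) := by
  unfold ph
  rw [if_pos rfl]

theorem ph_U (h1 : 0 ≤ α) (h2 : 0 ≤ ω) (n : ℝ) {w : ℝ} (hw : 0 ≤ w) :
    ph α ω 0 n w = min 1 (fU α ω n w) := by
  unfold ph
  rw [if_pos rfl]
  split_ifs with h
  · rw [h, fU_zero h1 h2 hw]
  · rfl

theorem ph_W (h1 : 0 ≤ α) (h2 : 0 ≤ ω) (n : ℝ) {a : ℝ} (ha : 0 ≤ a) :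
    ph α ω a n 0 = min 1 (fW α ω a n) := by
  unfold ph
  rw [if_pos rfl]
  split_ifs with h h'
  · rw [h, fW_zero h1 h2 ha]
  · rw [h', fU_fW]
  · rfl

theorem ph_far (h1 : 0 ≤ α) (h1' : α ≤ 1 / 4) (h2 : 0 ≤ ω) (h2' : ω ≤ 1 / 4) {a n w : ℝ}
    (h : a = 2 ∨ n = 2 ∨ w = 2) : ph α ω a n w = 1 := by
  have k1 : 1 ≤ (2 - α) ^ 2 := by nlinarith
  have k2 : 1 ≤ (2 - ω) ^ 2 := by nlinarith
  have k3 : 1 ≤ (-2 - α) ^ 2 := by nlinarith
  have k4 : 1 ≤ (-2 - ω) ^ 2 := by nlinarith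
  have l1 : ∀ y, 1 ≤ nn α ω 2 y := fun y => one_le_nn (by linarith [sq_nonneg (y - ω)])
  have l2 : ∀ x, 1 ≤ nn α ω x 2 := fun x => one_le_nn (by linarith [sq_nonneg (x - α)])
  have l3 : ∀ y, 1 ≤ nn α ω (-2) y := fun y => one_le_nn (by linarith [sq_nonneg (y - ω)])
  have l4 : ∀ x, 1 ≤ nn α ω x (-2) := fun x => one_le_nn (by linarith [sq_nonneg (x - α)])
  unfold ph fU fW
  refine min_eq_left ?_
  split_ifs with c1 c2 c3
  · rcases h with rfl | rfl | rfl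
    · exact l1 _
    · norm_num at c1
    · exact l2 _
  · rcases h with rfl | rfl | rfl
    · norm_num at c2
    · exact le_min (l3 _) (l4 _)
    · exact le_min (l2 _) (l3 _)
  · rcases h with rfl | rfl | rfl
    · exact le_min (l1 _) (l4 _)
    · exact le_min (l4 _) (l3 _)
    · norm_num at c3
  · exact le_rfl

theorem one_lip {A A' e : ℝ} (h : (A - A') ^ 2 ≤ e) : (min 1 A - min 1 A') ^ 2 ≤ e :=
  min_lip (by linarith [sq_nonneg (A - A'), show ((1 : ℝ) - 1) ^ 2 = 0 by norm_num]) h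

theorem ph_lip (h1 : 0 ≤ α) (h1' : α ≤ 1 / 4) (h2 : 0 ≤ ω) (h2' : ω ≤ 1 / 4) (p : P3)
    (hp : p ∈ Sf) (q : P3) (hq : q ∈ Sf) (s : SameFace p q) :
    (ph α ω (1 - p.1) (1 - p.2.1) (1 - p.2.2) - ph α ω (1 - q.1) (1 - q.2.1) (1 - q.2.2)) ^ 2 ≤
      e2 p q := by
  have far : ∀ {a n w a' n' w' : ℝ}, a = 2 ∨ n = 2 ∨ w = 2 → a' = 2 ∨ n' = 2 ∨ w' = 2 →
      (ph α ω a n w - ph α ω a' n' w') ^ 2 ≤ e2 p q := fun c c' => by
    rw [ph_far h1 h1' h2 h2' c, ph_far h1 h1' h2 h2' c']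
    simpa using e2_nonneg p q
  have two : ∀ {x : ℝ}, x = -1 → 1 - x = 2 := by rintro x rfl; norm_num
  rcases s with s | s | s | s | s | s
  · unfold e2
    rw [s.1, s.2, sub_self, ph_U h1 h2 _ (sub_nonneg.2 hp.2.2.1.2),
      ph_U h1 h2 _ (sub_nonneg.2 hq.2.2.1.2)]
    exact one_lip ((fU_lip _ _ _ _).trans_eq (by ring))
  · exact far (.inl (two s.1)) (.inl (two s.2))
  · unfold e2
    rw [s.1, s.2, sub_self, ph_V, ph_V]
    exact one_lip ((nn_lip _ _ _ _).trans_eq (by ring))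
  · exact far (.inr (.inl (two s.1))) (.inr (.inl (two s.2)))
  · unfold e2
    rw [s.1, s.2, sub_self, ph_W h1 h2 _ (sub_nonneg.2 hp.1.2),
      ph_W h1 h2 _ (sub_nonneg.2 hq.1.2)]
    exact one_lip ((fW_lip _ _ _ _).trans_eq (by ring))
  · exact far (.inr (.inr (two s.1))) (.inr (.inr (two s.2)))

/-- the nearest point of `[0, c]` -/
noncomputable def cl (c x : ℝ) : ℝ := max 0 (min x c)

theorem cl_mem {c : ℝ} (hc : 0 ≤ c) (x : ℝ) : cl c x ∈ Icc 0 c :=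
  ⟨le_max_left _ _, max_le hc (min_le_right _ _)⟩

theorem cl_eq {c x : ℝ} (h : x ∈ Icc 0 c) : cl c x = x := by
  unfold cl
  rw [min_eq_left h.2, max_eq_right h.1]

theorem cl_lip (c x y : ℝ) : (cl c x - cl c y) ^ 2 ≤ (x - y) ^ 2 := by
  refine sq_le_sq.2 ?_
  unfold cl
  refine (abs_max_sub_max_le_max _ _ _ _).trans (max_le (by simp) ?_)
  exact (abs_min_sub_min_le_max _ _ _ _).trans (max_le le_rfl (by simp))

theorem convex_rect (x y : ℝ) : Convex ℝ (Rect x y) :=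
  ((convex_Icc 0 x).linear_preimage Complex.reLm).inter
    ((convex_Icc 0 y).linear_preimage Complex.imLm)

theorem dist_sq (p q : E3) : dist p q ^ 2 = (p 0 - q 0) ^ 2 + (p 1 - q 1) ^ 2 + (p 2 - q 2) ^ 2 := by
  rw [EuclideanSpace.dist_eq, Real.sq_sqrt (by positivity), Fin.sum_univ_three]
  simp only [Real.dist_eq, sq_abs]

end ConeP

open ConeP

theorem sCone : SCone := by
  intro k a b F h A Z α ω n w h1 h1' h2 h2' h3 h3' h4 h4' hA hZ
  have := h.face1 (fun q => ph α ω (1 - q.1) (1 - q.2.1) (1 - q.2.2)) (ph_lip h1 h1' h2 h2') A Z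
  rw [hA, hZ] at this
  simp only [sub_self, sub_sub_cancel] at this
  have e0 : nn α ω α ω = 0 := by simp [nn]
  have e1 : fU α ω n w ≤ 1 := by
    refine (min_le_left _ _).trans (Real.sqrt_le_one.2 ?_)
    nlinarith
  rw [ph_V, ph_U h1 h2 _ h4, e0, min_eq_right zero_le_one, min_eq_right e1, zero_sub, neg_sq] at this
  unfold fU at this
  rcases le_total (nn α ω (-n) w) (nn α ω (-w) (-n)) with c | c
  · rw [min_eq_left c, nn_sq] at this
    exact .inl (le_of_eq_of_le (by ring) this)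
  · rw [min_eq_right c, nn_sq] at this
    exact .inr (le_of_eq_of_le (by ring) this)

theorem sW2C : SW2C := by
  rintro k a b r s hk hs ⟨f, 𝓕, fin, cov, hl, im⟩ ha hb
  have k0 : 0 < 2 * k := by linarith
  have m0 : 0 < √(2 * k) := Real.sqrt_pos.2 k0
  have m2 : √(2 * k) ^ 2 = 2 * k := Real.sq_sqrt k0.le
  set m := √(2 * k) with hm
  have r0 : 0 ≤ r := by
    have : (0 : E3) ∈ Surf s := ⟨fun i => ⟨le_rfl, hs.le⟩, 0, .inl rfl⟩
    obtain ⟨z, hz, -⟩ := im ▸ this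
    exact hz.2.1.trans hz.2.2
  let z : P2 → ℂ := fun P => ⟨cl 1 (P.1 * s / m + 1 / 2), cl r (P.2 * s / m + r / 2)⟩
  have hz : ∀ P, z P ∈ Rect 1 r := fun P => ⟨cl_mem zero_le_one _, cl_mem r0 _⟩
  have hf : ∀ P, f (z P) ∈ Surf s := fun P => im ▸ mem_image_of_mem f (hz P)
  refine ⟨fun P => (2 * f (z P) 0 / s - 1, 2 * f (z P) 1 / s - 1, 2 * f (z P) 2 / s - 1),
    hk, fun P => ?_, fun P Q => ?_, fun q hq => ?_⟩
  · obtain ⟨c1, i, c2⟩ := hf P
    have c3 : ∀ i, -1 ≤ 2 * f (z P) i / s - 1 ∧ 2 * f (z P) i / s - 1 ≤ 1 := fun i => by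
      have d1 : 0 ≤ 2 * f (z P) i / s := div_nonneg (by linarith [(c1 i).1]) hs.le
      have d2 : 2 * f (z P) i / s ≤ 2 := (div_le_iff₀ hs).2 (by linarith [(c1 i).2])
      constructor <;> linarith
    have c4 : 2 * f (z P) i / s - 1 = 1 ∨ 2 * f (z P) i / s - 1 = -1 := by
      rcases c2 with e | e <;> rw [e]
      · right; simp
      · left; field_simp; ring
    refine ⟨c3 0, c3 1, c3 2, ?_⟩
    fin_cases i
    · exact c4.elim .inl fun e => .inr (.inl e)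
    · exact c4.elim (fun e => .inr (.inr (.inl e))) fun e => .inr (.inr (.inr (.inl e)))
    · exact c4.elim (fun e => .inr (.inr (.inr (.inr (.inl e)))))
        fun e => .inr (.inr (.inr (.inr (.inr e))))
  · have g := glue (g := f) (convex_rect 1 r) fin (fun F hF => (hl F hF).1) cov.symm.subset
      (fun F hF p hp q hq => (hl F hF).2 p hp.1 q hq.1) (hz P) (hz Q)
    have g2 := pow_le_pow_left₀ dist_nonneg g 2
    rw [dist_sq, Complex.dist_eq_re_im, Real.sq_sqrt (by positivity)] at g2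
    have g3 := cl_lip 1 (P.1 * s / m + 1 / 2) (Q.1 * s / m + 1 / 2)
    have g4 := cl_lip r (P.2 * s / m + r / 2) (Q.2 * s / m + r / 2)
    have g5 : (P.1 * s / m + 1 / 2 - (Q.1 * s / m + 1 / 2)) ^ 2 +
        (P.2 * s / m + r / 2 - (Q.2 * s / m + r / 2)) ^ 2 = d2 P Q * s ^ 2 / (2 * k) := by
      rw [← m2]
      unfold d2
      field_simp
      ring
    have g6 : (f (z P) 0 - f (z Q) 0) ^ 2 + (f (z P) 1 - f (z Q) 1) ^ 2 +
        (f (z P) 2 - f (z Q) 2) ^ 2 ≤ d2 P Q * s ^ 2 / (2 * k) := by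
      simp only [z] at g2 ⊢
      linarith
    rw [le_div_iff₀ k0] at g6
    have g7 : k * e2 (2 * f (z P) 0 / s - 1, 2 * f (z P) 1 / s - 1, 2 * f (z P) 2 / s - 1)
        (2 * f (z Q) 0 / s - 1, 2 * f (z Q) 1 / s - 1, 2 * f (z Q) 2 / s - 1) =
        2 * (((f (z P) 0 - f (z Q) 0) ^ 2 + (f (z P) 1 - f (z Q) 1) ^ 2 +
        (f (z P) 2 - f (z Q) 2) ^ 2) * (2 * k)) / s ^ 2 := by
      unfold e2
      field_simp
      ring
    rw [g7, div_le_iff₀ (by positivity)]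
    linarith
  · obtain ⟨q1, q2, q3, q4⟩ := hq
    have t : ∀ {x : ℝ}, -1 ≤ x ∧ x ≤ 1 → s * (x + 1) / 2 ∈ Icc 0 s := fun {x} hx =>
      ⟨by nlinarith [hx.1], by nlinarith [hx.2]⟩
    have hy : (!₂[s * (q.1 + 1) / 2, s * (q.2.1 + 1) / 2, s * (q.2.2 + 1) / 2] : E3) ∈ Surf s := by
      refine ⟨fun i => ?_, ?_⟩
      · fin_cases i
        exacts [t q1, t q2, t q3]
      · rcases q4 with e | e | e | e | e | e
        exacts [⟨0, .inr (by simp [e]; ring)⟩, ⟨0, .inl (by simp [e])⟩, ⟨1, .inr (by simp [e]; ring)⟩,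
          ⟨1, .inl (by simp [e])⟩, ⟨2, .inr (by simp [e]; ring)⟩, ⟨2, .inl (by simp [e])⟩]
    obtain ⟨y, ⟨y1, y2⟩, y3⟩ := im ▸ hy
    have e : z (m * (y.re - 1 / 2) / s, m * (y.im - r / 2) / s) = y := by
      refine Complex.ext ?_ ?_
      · have : m * (y.re - 1 / 2) / s * s / m + 1 / 2 = y.re := by field_simp; ring
        simp only [z, this, cl_eq y1]
      · have : m * (y.im - r / 2) / s * s / m + r / 2 = y.im := by field_simp; ring
        simp only [z, this, cl_eq y2]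
    refine ⟨(m * (y.re - 1 / 2) / s, m * (y.im - r / 2) / s), ?_, ?_, ?_⟩
    · simp only
      rw [abs_div, abs_of_pos hs, div_le_iff₀ hs, abs_le]
      constructor <;> nlinarith [y1.1, y1.2]
    · simp only
      rw [abs_div, abs_of_pos hs, div_le_iff₀ hs, abs_le]
      constructor <;> nlinarith [y2.1, y2.2]
    · simp only [e, y3]
      refine Prod.ext ?_ (Prod.ext ?_ ?_) <;> simp <;> field_simp <;> ring

end Pool.Agent.P.MP_dba4bb_co.Ex
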