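import Pool.Agent.P.MP_dba4bb_co.Ex.S1

/-! The four corners of the square go to the centre of the top face. -/

namespace Pool.Agent.P.MP_dba4bb_co.Ex

open Set

namespace Crn

variable {F : P2 → P3}

/-- the height in the flat folding along the vertical axis -/
noncomputable def ht (q : P3) : ℝ := (hex q.1 q.2.1 q.2.2).2

theorem ht_eq (q : P3) : ht q = q.2.2 * (2 - (|q.1 - q.2.1| + |q.1 + q.2.1|) / 2) := by
  unfold ht hex; ring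

theorem ht_lip (h : Cover 1 2 2 F) (P Q : P2) : (ht (F P) - ht (F Q)) ^ 2 ≤ 2 * d2 P Q := by
  have h1 := h.hexW P Q
  have h2 := sq_nonneg
    ((hex (F P).1 (F P).2.1 (F P).2.2).1 - (hex (F Q).1 (F Q).2.1 (F Q).2.2).1)
  unfold ht
  unfold d2 at h1 ⊢
  linarith

theorem ht_o : ht (cp 0 0 0) = -2 := by rw [ht_eq]; norm_num [cp]
theorem ht_T : ht (cp 0 0 1) = 2 := by rw [ht_eq]; norm_num [cp]

def Dir (u v : ℝ) : Prop := (u = 1 ∧ v = 0) ∨ (u = -1 ∧ v = 0) ∨ (u = 0 ∧ v = 1) ∨ (u = 0 ∧ v = -1)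

def Sg (s : ℝ) : Prop := s = 1 ∨ s = -1

theorem sq_zero {x : ℝ} (h : x ^ 2 ≤ 0) : x = 0 :=
  pow_eq_zero_iff two_ne_zero |>.1 (le_antisymm h (sq_nonneg x))

theorem dir_disc {u v : ℝ} (h1 : u ^ 2 + v ^ 2 ≤ 1) (h2 : 2 ≤ |u - v| + |u + v|) : Dir u v := by
  have hu := sq_nonneg u
  have hv := sq_nonneg v
  rcases abs_cases (u - v) with ⟨e1, -⟩ | ⟨e1, -⟩ <;> rcases abs_cases (u + v) with ⟨e2, -⟩ | ⟨e2, -⟩
  · have a : 1 ≤ u := by linarith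
    have b : v = 0 := sq_zero (by nlinarith)
    exact .inl ⟨by nlinarith, b⟩
  · have a : v ≤ -1 := by linarith
    have b : u = 0 := sq_zero (by nlinarith)
    exact .inr (.inr (.inr ⟨b, by nlinarith⟩))
  · have a : 1 ≤ v := by linarith
    have b : u = 0 := sq_zero (by nlinarith)
    exact .inr (.inr (.inl ⟨b, by nlinarith⟩))
  · have a : u ≤ -1 := by linarith
    have b : v = 0 := sq_zero (by nlinarith)
    exact .inr (.inl ⟨by nlinarith, b⟩)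

theorem dir_of {q : P3} (hq : q ∈ Sf) {σ : ℝ} (hσ : Sg σ)
    (h1 : q.1 ^ 2 + q.2.1 ^ 2 + (q.2.2 - σ) ^ 2 ≤ 1) (h2 : σ * ht q ≤ 1) :
    q.2.2 = σ ∧ Dir q.1 q.2.1 := by
  obtain ⟨u, v, w⟩ := q
  obtain ⟨-, -, -, h4⟩ := hq
  rw [ht_eq] at h2
  simp only at h1 h2 h4 ⊢
  have hu := sq_nonneg u
  have hv := sq_nonneg v
  have hw := sq_nonneg (w - σ)
  have key : w = σ → Dir u v := fun e => by
    refine dir_disc (by linarith) ?_
    rcases hσ with rfl | rfl <;> rw [e] at h2 <;> linarith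
  have z : ∀ x : ℝ, x = 1 ∨ x = -1 → x ^ 2 = 1 := by rintro x (rfl | rfl) <;> norm_num
  have e : w = σ := by
    rcases h4 with e | e | e | e | e | e
    · have := z u (.inl e); linarith [sq_zero (x := w - σ) (by linarith)]
    · have := z u (.inr e); linarith [sq_zero (x := w - σ) (by linarith)]
    · have := z v (.inl e); linarith [sq_zero (x := w - σ) (by linarith)]
    · have := z v (.inr e); linarith [sq_zero (x := w - σ) (by linarith)]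
    · rcases hσ with rfl | rfl
      · exact e
      · rw [e] at h1; norm_num at h1; linarith
    · rcases hσ with rfl | rfl
      · rw [e] at h1; norm_num at h1; linarith
      · exact e
  exact ⟨e, key e⟩

theorem Sg.sq {s : ℝ} (h : Sg s) : s ^ 2 = 1 := by rcases h with rfl | rfl <;> norm_num

theorem diag (h : Cover 1 2 2 F) (h0 : F (0, 0) = cp 0 0 0) {s t : ℝ} (hs : Sg s) (ht' : Sg t)
    (hc : F (2 * s, 2 * t) = cp 0 0 1) :
    ∃ u v, Dir u v ∧ F (s / 2, t / 2) = (u, v, -1) ∧ F (3 / 2 * s, 3 / 2 * t) = (u, v, 1) := by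
  have s2 := hs.sq
  have t2 := ht'.sq
  have a1 := h.lip (s / 2, t / 2) (0, 0)
  have a2 := ht_lip h (s / 2, t / 2) (2 * s, 2 * t)
  have b1 := h.lip (3 / 2 * s, 3 / 2 * t) (2 * s, 2 * t)
  have b2 := ht_lip h (3 / 2 * s, 3 / 2 * t) (0, 0)
  have c1 := h.lip (s / 2, t / 2) (3 / 2 * s, 3 / 2 * t)
  rw [h0] at a1 b2
  rw [hc] at a2 b1
  rw [ht_T] at a2
  rw [ht_o] at b2
  simp only [d2, e2, cp] at a1 a2 b1 b2 c1
  obtain ⟨m1, m2⟩ := dir_of (h.mem (s / 2, t / 2)) (σ := -1) (.inr rfl) (by nlinarith)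
    (by nlinarith)
  obtain ⟨n1, -⟩ := dir_of (h.mem (3 / 2 * s, 3 / 2 * t)) (σ := 1) (.inl rfl) (by nlinarith)
    (by nlinarith)
  rw [m1, n1] at c1
  have p1 := sq_nonneg ((F (s / 2, t / 2)).1 - (F (3 / 2 * s, 3 / 2 * t)).1)
  have p2 := sq_nonneg ((F (s / 2, t / 2)).2.1 - (F (3 / 2 * s, 3 / 2 * t)).2.1)
  have q1 := sq_zero (x := (F (s / 2, t / 2)).1 - (F (3 / 2 * s, 3 / 2 * t)).1) (by nlinarith)
  have q2 := sq_zero (x := (F (s / 2, t / 2)).2.1 - (F (3 / 2 * s, 3 / 2 * t)).2.1) (by nlinarith)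
  exact ⟨_, _, m2, Prod.ext rfl (Prod.ext rfl m1),
    Prod.ext (by simp only; linarith) (Prod.ext (by simp only; linarith) n1)⟩

theorem sgn_split {x : ℝ} (h : |x| ≤ 2) : ∃ s p, Sg s ∧ 0 ≤ p ∧ p ≤ 2 ∧ x = s * (2 - p) := by
  have := abs_le.1 h
  rcases le_total 0 x with c | c
  · exact ⟨1, 2 - x, .inl rfl, by linarith, by linarith, by ring⟩
  · exact ⟨-1, 2 + x, .inr rfl, by linarith, by linarith, by ring⟩

theorem e2_tri (p q r : P3) : e2 p r ≤ 2 * e2 p q + 2 * e2 q r := by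
  unfold e2
  nlinarith [sq_nonneg (p.1 - 2 * q.1 + r.1), sq_nonneg (p.2.1 - 2 * q.2.1 + r.2.1),
    sq_nonneg (p.2.2 - 2 * q.2.2 + r.2.2)]

theorem near (h : Cover 1 2 2 F) (h0 : F (0, 0) = cp 0 0 0) {u v ε : ℝ} (hd : Dir u v)
    (ε0 : 0 < ε) (ε1 : ε ≤ 1 / 8) :
    ∃ s t, Sg s ∧ Sg t ∧ e2 (F (2 * s, 2 * t)) (cp 0 0 1) ≤ 3 * ε ∧
      (F (2 * s, 2 * t) = cp 0 0 1 → F (s / 2, t / 2) = (u, v, -1)) := by
  have hq : ((ε * u, ε * v, 1) : P3) ∈ Sf ∧ ht (ε * u, ε * v, 1) = 2 - ε ∧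
      e2 (ε * u, ε * v, 1) (cp 0 0 1) = ε ^ 2 := by
    rw [ht_eq]
    rcases hd with ⟨rfl, rfl⟩ | ⟨rfl, rfl⟩ | ⟨rfl, rfl⟩ | ⟨rfl, rfl⟩ <;>
      refine ⟨⟨⟨?_, ?_⟩, ⟨?_, ?_⟩, ⟨?_, ?_⟩, ?_⟩, ?_, ?_⟩ <;>
      norm_num [e2, cp, abs_of_pos ε0] <;> linarith
  obtain ⟨⟨X, Y⟩, hX, hY, hQ⟩ := h.surj _ hq.1
  obtain ⟨s, p, hs, p0, p2, rfl⟩ := sgn_split hX
  obtain ⟨t, r, ht', r0, r2, rfl⟩ := sgn_split hY
  have s2 := hs.sq
  have t2 := ht'.sq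
  have a := ht_lip h (s * (2 - p), t * (2 - r)) (0, 0)
  rw [hQ, h0, ht_o, hq.2.1] at a
  have a' : d2 (s * (2 - p), t * (2 - r)) (0, 0) = (2 - p) ^ 2 + (2 - r) ^ 2 := by
    simp only [d2, sub_zero, mul_pow, s2, t2, one_mul]
  rw [a'] at a
  have pr : p + r ≤ 2 * ε := by nlinarith
  refine ⟨s, t, hs, ht', ?_, fun hc => ?_⟩
  · have b := h.lip (2 * s, 2 * t) (s * (2 - p), t * (2 - r))
    have b' : d2 (2 * s, 2 * t) (s * (2 - p), t * (2 - r)) = p ^ 2 + r ^ 2 := by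
      simp only [d2, show ∀ x y : ℝ, 2 * x - x * (2 - y) = x * y from fun x y => by ring,
        mul_pow, s2, t2, one_mul]
    rw [hQ, b'] at b
    have c := e2_tri (F (2 * s, 2 * t)) (ε * u, ε * v, 1) (cp 0 0 1)
    rw [hq.2.2] at c
    have : p ^ 2 + r ^ 2 ≤ 4 * ε ^ 2 := by nlinarith [mul_nonneg p0 r0]
    nlinarith
  · obtain ⟨u', v', hd', hM, hE⟩ := diag h h0 hs ht' hc
    have b := h.lip (s * (2 - p), t * (2 - r)) (3 / 2 * s, 3 / 2 * t)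
    have b' : d2 (s * (2 - p), t * (2 - r)) (3 / 2 * s, 3 / 2 * t) =
        (1 / 2 - p) ^ 2 + (1 / 2 - r) ^ 2 := by
      simp only [d2,
        show ∀ x y : ℝ, x * (2 - y) - 3 / 2 * x = x * (1 / 2 - y) from fun x y => by ring,
        mul_pow, s2, t2, one_mul]
    rw [hQ, hE, b'] at b
    have k1 : 0 ≤ p * (1 - p) := mul_nonneg p0 (by linarith)
    have k2 : 0 ≤ r * (1 - r) := mul_nonneg r0 (by linarith)
    have c : e2 (ε * u, ε * v, 1) (u', v', 1) ≤ 1 := by linarith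
    have k3 : 0 < ε ^ 2 := by positivity
    rw [hM]
    simp only [e2] at c
    clear hq hQ hM hE hc a a' b b' k1 k2 pr hX hY
    rcases hd with ⟨rfl, rfl⟩ | ⟨rfl, rfl⟩ | ⟨rfl, rfl⟩ | ⟨rfl, rfl⟩ <;>
      rcases hd' with ⟨rfl, rfl⟩ | ⟨rfl, rfl⟩ | ⟨rfl, rfl⟩ | ⟨rfl, rfl⟩ <;>
      first | rfl | (exfalso; linarith)

theorem gap (p q : P3) : ∃ m, 0 < m ∧ (p = q ∨ m ≤ e2 p q) := by
  by_cases e : p = q
  · exact ⟨1, one_pos, .inl e⟩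
  · exact ⟨e2 p q, not_le.1 fun c => e (e2_eq_zero c), .inr le_rfl⟩

theorem corner (h : Cover 1 2 2 F) (h0 : F (0, 0) = cp 0 0 0) {u v : ℝ} (hd : Dir u v) :
    ∃ s t, Sg s ∧ Sg t ∧ F (2 * s, 2 * t) = cp 0 0 1 ∧ F (s / 2, t / 2) = (u, v, -1) := by
  obtain ⟨m1, p1, h1⟩ := gap (F (2 * 1, 2 * 1)) (cp 0 0 1)
  obtain ⟨m2, p2, h2⟩ := gap (F (2 * 1, 2 * -1)) (cp 0 0 1)
  obtain ⟨m3, p3, h3⟩ := gap (F (2 * -1, 2 * 1)) (cp 0 0 1)
  obtain ⟨m4, p4, h4⟩ := gap (F (2 * -1, 2 * -1)) (cp 0 0 1)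
  obtain ⟨m, m0, l1, l2, l3, l4⟩ : ∃ m : ℝ, 0 < m ∧ m ≤ m1 ∧ m ≤ m2 ∧ m ≤ m3 ∧ m ≤ m4 :=
    ⟨min (min m1 m2) (min m3 m4), lt_min (lt_min p1 p2) (lt_min p3 p4),
      (min_le_left _ _).trans (min_le_left _ _), (min_le_left _ _).trans (min_le_right _ _),
      (min_le_right _ _).trans (min_le_left _ _), (min_le_right _ _).trans (min_le_right _ _)⟩
  obtain ⟨ε, ε0, ε1, le⟩ : ∃ ε : ℝ, 0 < ε ∧ ε ≤ 1 / 8 ∧ ε ≤ m / 4 :=
    ⟨min (1 / 8) (m / 4), lt_min (by norm_num) (by linarith), min_le_left _ _, min_le_right _ _⟩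
  obtain ⟨s, t, hs, ht', a, b⟩ := near h h0 hd ε0 ε1
  have c : F (2 * s, 2 * t) = cp 0 0 1 := by
    rcases hs with rfl | rfl <;> rcases ht' with rfl | rfl
    · exact h1.resolve_right (fun c => by linarith)
    · exact h2.resolve_right (fun c => by linarith)
    · exact h3.resolve_right (fun c => by linarith)
    · exact h4.resolve_right (fun c => by linarith)
  exact ⟨s, t, hs, ht', c, b c⟩

theorem sep (h : Cover 1 2 2 F) {s t s' t' u v u' v' : ℝ} (h1 : F (s / 2, t / 2) = (u, v, -1))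
    (h2 : F (s' / 2, t' / 2) = (u', v', -1)) :
    2 * ((u - u') ^ 2 + (v - v') ^ 2) ≤ (s - s') ^ 2 + (t - t') ^ 2 := by
  have a := h.lip (s / 2, t / 2) (s' / 2, t' / 2)
  rw [h1, h2] at a
  simp only [e2, d2] at a
  linarith

theorem opp {s t s' t' : ℝ} (hs : Sg s) (ht' : Sg t) (hs' : Sg s') (ht'' : Sg t')
    (h : 8 ≤ (s - s') ^ 2 + (t - t') ^ 2) : s' = -s ∧ t' = -t := by
  rcases hs with rfl | rfl <;> rcases ht' with rfl | rfl <;> rcases hs' with rfl | rfl <;>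
    rcases ht'' with rfl | rfl <;> first | (exfalso; norm_num at h; done) | norm_num

end Crn

open Crn in
theorem sCorner : SCorner := by
  intro F h h0
  obtain ⟨s, t, hs, ht', a1, a2⟩ := corner h h0 (u := 1) (v := 0) (.inl ⟨rfl, rfl⟩)
  obtain ⟨s', t', hs', ht'', b1, b2⟩ := corner h h0 (u := -1) (v := 0) (.inr (.inl ⟨rfl, rfl⟩))
  obtain ⟨x, y, hx, hy, c1, c2⟩ := corner h h0 (u := 0) (v := 1) (.inr (.inr (.inl ⟨rfl, rfl⟩)))
  obtain ⟨x', y', hx', hy', d1, d2'⟩ :=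
    corner h h0 (u := 0) (v := -1) (.inr (.inr (.inr ⟨rfl, rfl⟩)))
  obtain ⟨rfl, rfl⟩ := opp hs ht' hs' ht'' (by linarith [sep h a2 b2])
  obtain ⟨rfl, rfl⟩ := opp hx hy hx' hy' (by linarith [sep h c2 d2'])
  have e1 := sep h a2 c2
  have e2' := sep h b2 c2
  have fin : ∀ g : P3 → P3, Sym g → Std1 (fun P => g (F P)) →
      ∃ g, Sym g ∧ Std1 fun P => g (F P) := fun g h1 h2 => ⟨g, h1, h2⟩
  rcases hs with rfl | rfl <;> rcases ht' with rfl | rfl <;> rcases hx with rfl | rfl <;>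
    rcases hy with rfl | rfl <;> (try (exfalso; norm_num at e1; done)) <;>
    (try (exfalso; norm_num at e2'; done)) <;>
    simp only [neg_neg, mul_one, mul_neg] at a1 a2 b1 b2 c1 c2 d1 d2'
  · refine fin _ sym_id ⟨?_, ?_, ?_, ?_, ?_, ?_, ?_, ?_, ?_⟩ <;>
      simp only [h0, a1, a2, b1, b2, c1, c2, d1, d2'] <;> norm_num [cp]
  · refine fin _ sym_neg2 ⟨?_, ?_, ?_, ?_, ?_, ?_, ?_, ?_, ?_⟩ <;>
      simp only [h0, a1, a2, b1, b2, c1, c2, d1, d2'] <;> norm_num [cp]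
  · refine fin _ sym_swap12 ⟨?_, ?_, ?_, ?_, ?_, ?_, ?_, ?_, ?_⟩ <;>
      simp only [h0, a1, a2, b1, b2, c1, c2, d1, d2'] <;> norm_num [cp]
  · refine fin _ (sym_neg1.comp sym_swap12) ⟨?_, ?_, ?_, ?_, ?_, ?_, ?_, ?_, ?_⟩ <;>
      simp only [h0, a1, a2, b1, b2, c1, c2, d1, d2'] <;> norm_num [cp]
  · refine fin _ (sym_neg2.comp sym_swap12) ⟨?_, ?_, ?_, ?_, ?_, ?_, ?_, ?_, ?_⟩ <;>
      simp only [h0, a1, a2, b1, b2, c1, c2, d1, d2'] <;> norm_num [cp]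
  · refine fin _ ((sym_neg1.comp sym_neg2).comp sym_swap12)
      ⟨?_, ?_, ?_, ?_, ?_, ?_, ?_, ?_, ?_⟩ <;>
      simp only [h0, a1, a2, b1, b2, c1, c2, d1, d2'] <;> norm_num [cp]
  · refine fin _ sym_neg1 ⟨?_, ?_, ?_, ?_, ?_, ?_, ?_, ?_, ?_⟩ <;>
      simp only [h0, a1, a2, b1, b2, c1, c2, d1, d2'] <;> norm_num [cp]
  · refine fin _ (sym_neg1.comp sym_neg2) ⟨?_, ?_, ?_, ?_, ?_, ?_, ?_, ?_, ?_⟩ <;>
      simp only [h0, a1, a2, b1, b2, c1, c2, d1, d2'] <;> norm_num [cp]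

end Pool.Agent.P.MP_dba4bb_co.Ex
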