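import Pool.Agent.P.MP_dba4bb_co.Ex.Fold

/-! Working definitions: paper `ℝ × ℝ`, cube `[-1,1]³`, scale `√2` between them. -/

namespace Pool.Agent.P.MP_dba4bb_co.Ex

open Set

abbrev P2 : Type := ℝ × ℝ
abbrev P3 : Type := ℝ × ℝ × ℝ

def d2 (P Q : P2) : ℝ := (P.1 - Q.1) ^ 2 + (P.2 - Q.2) ^ 2

def e2 (p q : P3) : ℝ := (p.1 - q.1) ^ 2 + (p.2.1 - q.2.1) ^ 2 + (p.2.2 - q.2.2) ^ 2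

/-- the surface of the cube `[-1,1]³`; coordinates are called `U V W` -/
def Sf : Set P3 :=
  {q | (-1 ≤ q.1 ∧ q.1 ≤ 1) ∧ (-1 ≤ q.2.1 ∧ q.2.1 ≤ 1) ∧ (-1 ≤ q.2.2 ∧ q.2.2 ≤ 1) ∧
    (q.1 = 1 ∨ q.1 = -1 ∨ q.2.1 = 1 ∨ q.2.1 = -1 ∨ q.2.2 = 1 ∨ q.2.2 = -1)}

/-- two points of the surface on a common face -/
def SameFace (p q : P3) : Prop :=
  (p.1 = 1 ∧ q.1 = 1) ∨ (p.1 = -1 ∧ q.1 = -1) ∨ (p.2.1 = 1 ∧ q.2.1 = 1) ∨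
    (p.2.1 = -1 ∧ q.2.1 = -1) ∨ (p.2.2 = 1 ∧ q.2.2 = 1) ∨ (p.2.2 = -1 ∧ q.2.2 = -1)

/-- diagonal coordinates `x y` and height `z` -/
def cp (x y z : ℝ) : P3 := (x + y, x - y, 2 * z - 1)

noncomputable def cx (q : P3) : ℝ := (q.1 + q.2.1) / 2
noncomputable def cy (q : P3) : ℝ := (q.1 - q.2.1) / 2
noncomputable def cz (q : P3) : ℝ := (q.2.2 + 1) / 2

structure Cover (k a b : ℝ) (F : P2 → P3) : Prop where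
  one_le : 1 ≤ k
  mem : ∀ P, F P ∈ Sf
  lip : ∀ P Q, k * e2 (F P) (F Q) ≤ 2 * d2 P Q
  surj : ∀ q ∈ Sf, ∃ P : P2, |P.1| ≤ a ∧ |P.2| ≤ b ∧ F P = q

/-- a symmetry of the cube -/
structure Sym (g : P3 → P3) : Prop where
  iso : ∀ p q, e2 (g p) (g q) = e2 p q
  mem : ∀ q ∈ Sf, g q ∈ Sf
  surj : ∀ q ∈ Sf, ∃ p ∈ Sf, g p = q

/-- the mirror image `x ↦ -x` -/
def flip (F : P2 → P3) : P2 → P3 := fun P =>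
  (-(F (-P.1, P.2)).2.1, -(F (-P.1, P.2)).1, (F (-P.1, P.2)).2.2)

/-- the rotation by `π` -/
def rot (F : P2 → P3) : P2 → P3 := fun P =>
  (-(F (-P.1, -P.2)).1, -(F (-P.1, -P.2)).2.1, (F (-P.1, -P.2)).2.2)

/-- the flat folding of the cube along the axis `c` -/
noncomputable def hex (a b c : ℝ) : P2 :=
  ((|a - b| - |a + b|) / 2, c + c * (1 - (|a - b| + |a + b|) / 2))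

/-- what is known after the four corners are in place -/
structure Std1 (F : P2 → P3) : Prop where
  o : F (0, 0) = cp 0 0 0
  cN : F (2, 2) = cp 0 0 1
  cW : F (-2, 2) = cp 0 0 1
  cS : F (-2, -2) = cp 0 0 1
  cE : F (2, -2) = cp 0 0 1
  mN : F (1 / 2, 1 / 2) = cp (1 / 2) (1 / 2) 0
  mW : F (-1 / 2, 1 / 2) = cp (-1 / 2) (1 / 2) 0
  mS : F (-1 / 2, -1 / 2) = cp (-1 / 2) (-1 / 2) 0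
  mE : F (1 / 2, -1 / 2) = cp (1 / 2) (-1 / 2) 0

/-- `F` is within `ε` of the folding of the square; `Near 0 0` is the folding of the square -/
structure Near (ε η : ℝ) (F : P2 → P3) : Prop where
  tN : ∀ P : P2, 0 ≤ P.1 → P.1 ≤ 2 + η → 0 ≤ P.2 → P.2 ≤ 2 + η → 1 - η ≤ cz (F P) →
    |P.1 - (2 - cy (F P))| ≤ ε ∧ |P.2 - (2 - cx (F P))| ≤ ε
  tW : ∀ P : P2, P.1 ≤ 0 → -2 - η ≤ P.1 → 0 ≤ P.2 → P.2 ≤ 2 + η → 1 - η ≤ cz (F P) →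
    |P.1 - (-2 + cy (F P))| ≤ ε ∧ |P.2 - (2 + cx (F P))| ≤ ε
  tS : ∀ P : P2, P.1 ≤ 0 → -2 - η ≤ P.1 → P.2 ≤ 0 → -2 - η ≤ P.2 → 1 - η ≤ cz (F P) →
    |P.1 - (-2 - cy (F P))| ≤ ε ∧ |P.2 - (-2 - cx (F P))| ≤ ε
  tE : ∀ P : P2, 0 ≤ P.1 → P.1 ≤ 2 + η → P.2 ≤ 0 → -2 - η ≤ P.2 → 1 - η ≤ cz (F P) →
    |P.1 - (2 + cy (F P))| ≤ ε ∧ |P.2 - (-2 + cx (F P))| ≤ ε
  w1 : ∀ P : P2, |P.1| ≤ 2 + η → |P.2| ≤ 2 + η → F P = cp 1 0 0 → |P.1 - 1| ≤ ε ∧ |P.2| ≤ ε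
  w2 : ∀ P : P2, |P.1| ≤ 2 + η → |P.2| ≤ 2 + η → F P = cp 0 1 0 → |P.1| ≤ ε ∧ |P.2 - 1| ≤ ε
  w3 : ∀ P : P2, |P.1| ≤ 2 + η → |P.2| ≤ 2 + η → F P = cp (-1) 0 0 → |P.1 + 1| ≤ ε ∧ |P.2| ≤ ε
  w4 : ∀ P : P2, |P.1| ≤ 2 + η → |P.2| ≤ 2 + η → F P = cp 0 (-1) 0 → |P.1| ≤ ε ∧ |P.2 + 1| ≤ ε
  sN : ∀ s z : ℝ, 0 ≤ s → s ≤ 1 → 0 ≤ z → z ≤ 1 →
    e2 (F (s + z, 1 - s + z)) (cp s (1 - s) z) ≤ ε ^ 2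
  sW : ∀ s z : ℝ, 0 ≤ s → s ≤ 1 → 0 ≤ z → z ≤ 1 →
    e2 (F (-s - z, 1 - s + z)) (cp (-s) (1 - s) z) ≤ ε ^ 2
  sS : ∀ s z : ℝ, 0 ≤ s → s ≤ 1 → 0 ≤ z → z ≤ 1 →
    e2 (F (-s - z, -(1 - s) - z)) (cp (-s) (-(1 - s)) z) ≤ ε ^ 2
  sE : ∀ s z : ℝ, 0 ≤ s → s ≤ 1 → 0 ≤ z → z ≤ 1 →
    e2 (F (s + z, -(1 - s) - z)) (cp s (-(1 - s)) z) ≤ ε ^ 2

/-- images of the four quadrants of the paper -/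
def QN (a b : ℝ) (F : P2 → P3) : Set P3 :=
  {q | ∃ P : P2, 0 ≤ P.1 ∧ P.1 ≤ a ∧ 0 ≤ P.2 ∧ P.2 ≤ b ∧ F P = q}
def QW (a b : ℝ) (F : P2 → P3) : Set P3 :=
  {q | ∃ P : P2, P.1 ≤ 0 ∧ -a ≤ P.1 ∧ 0 ≤ P.2 ∧ P.2 ≤ b ∧ F P = q}
def QS (a b : ℝ) (F : P2 → P3) : Set P3 :=
  {q | ∃ P : P2, P.1 ≤ 0 ∧ -a ≤ P.1 ∧ P.2 ≤ 0 ∧ -b ≤ P.2 ∧ F P = q}
def QE (a b : ℝ) (F : P2 → P3) : Set P3 :=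
  {q | ∃ P : P2, 0 ≤ P.1 ∧ P.1 ≤ a ∧ P.2 ≤ 0 ∧ -b ≤ P.2 ∧ F P = q}

/-- the arms N and S touch on the top face -/
def NS (a b : ℝ) (F : P2 → P3) : Prop :=
  (∃ x y, cp x y 1 ∈ QN a b F ∧ cp x y 1 ∈ QW a b F ∧ cp x y 1 ∈ QS a b F) ∧
  (∃ x y, cp x y 1 ∈ QN a b F ∧ cp x y 1 ∈ QS a b F ∧ cp x y 1 ∈ QE a b F)

/-- N and E meet on the edge `v1 v4` -/
def Q1 (a b : ℝ) (F : P2 → P3) : Prop :=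
  ∃ h, -1 / 4 ≤ h ∧ h ≤ 0 ∧ cp (1 + h) h 1 ∈ QN a b F ∧ cp (1 + h) h 1 ∈ QE a b F

/-- W and S meet on the edge `v3 v2` -/
def Q3 (a b : ℝ) (F : P2 → P3) : Prop :=
  ∃ h, 0 ≤ h ∧ h ≤ 1 / 4 ∧ cp (-1 + h) h 1 ∈ QW a b F ∧ cp (-1 + h) h 1 ∈ QS a b F

/-- the nodes `p2 p4 z1 z3` with the sum `σ` of the four heights -/
def ZD (a b : ℝ) (F : P2 → P3) (σ : ℝ) : Prop :=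
  ∃ (p2 p4 A B C D : P2) (h1 h3 : ℝ),
    (|p2.1| ≤ a ∧ |p2.2| ≤ b ∧ F p2 = cp 0 1 0) ∧ (|p4.1| ≤ a ∧ |p4.2| ≤ b ∧ F p4 = cp 0 (-1) 0) ∧
    (0 ≤ A.1 ∧ A.1 ≤ a ∧ 0 ≤ A.2 ∧ A.2 ≤ b ∧ F A = cp (1 - |h1|) h1 1) ∧
    (0 ≤ B.1 ∧ B.1 ≤ a ∧ B.2 ≤ 0 ∧ -b ≤ B.2 ∧ F B = cp (1 - |h1|) h1 1) ∧
    (C.1 ≤ 0 ∧ -a ≤ C.1 ∧ 0 ≤ C.2 ∧ C.2 ≤ b ∧ F C = cp (-1 + |h3|) h3 1) ∧
    (D.1 ≤ 0 ∧ -a ≤ D.1 ∧ D.2 ≤ 0 ∧ -b ≤ D.2 ∧ F D = cp (-1 + |h3|) h3 1) ∧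
    (h1 ≤ 0 ∨ ¬ Q1 a b F) ∧ (0 ≤ h3 ∨ ¬ Q3 a b F) ∧
    σ = A.2 - p2.2 + (B.2 - p4.2) + (C.2 - p2.2) + (D.2 - p4.2)

end Pool.Agent.P.MP_dba4bb_co.Ex
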