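import Pool.Agent.P.MP_dba4bb_co.Ex.S3

/-! The lower case of the inequality for the node. -/

namespace Pool.Agent.P.MP_dba4bb_co.Ex

theorem el_div {x P q R : ℝ} (hP : 0 < P) (h : R ≤ x * P) (h2 : q * P ≤ R) : q ≤ x :=
  le_of_mul_le_mul_right (h2.trans h) hP

theorem el_sq {u v : ℝ} (h1 : -v ≤ u) (h2 : u ≤ v) : u ^ 2 ≤ v ^ 2 := sq_le_sq' h1 h2

/-- Step 1. -/
theorem el_one {b D r w0 w Y y : ℝ} (hb : 0 < b) (hb' : b ≤ 1 / 10 ^ 9) (hD : 0 ≤ D)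
    (hD' : D ≤ b / 10 ^ 6) (hr : r ≤ b) (hw0 : w0 ≤ 202 / 100 * b) (h1 : -(w0 + 5 * D) ≤ w)
    (h2 : w ≤ w0 + 5 * D) (hY : 99 / 100 ≤ Y) (hy : -b ≤ y)
    (h : w0 ^ 2 + (-r + Y) ^ 2 ≤ w ^ 2 + (y + Y) ^ 2) : -(r + 11 * (b * D)) ≤ y := by
  have e1 := el_sq h1 h2
  have e2 : w0 * D ≤ 202 / 100 * b * D := mul_le_mul_of_nonneg_right hw0 hD
  have e3 : D * D ≤ b / 10 ^ 6 * D := mul_le_mul_of_nonneg_right hD' hD
  have e4 : (-r - y) * (2 * Y - r + y) ≤ 203 / 10 * (b * D) := by nlinarith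
  have e5 : 0 ≤ b * D := by positivity
  by_contra hc
  rw [not_le] at hc
  have e6 : 19 / 10 ≤ 2 * Y - r + y := by linarith
  have e7 : 11 * (b * D) * (19 / 10) < (-r - y) * (2 * Y - r + y) :=
    lt_of_lt_of_le (mul_lt_mul_of_pos_right (by linarith) (by norm_num))
      (mul_le_mul_of_nonneg_left e6 (by linarith))
  linarith

/-- Step 2. -/
theorem el_two {b D S d P u θ : ℝ} (hb : 0 < b) (hD : 0 ≤ D) (hS0 : 0 ≤ S)
    (hS : S ≤ 2001 / 1000 * b) (hd1 : -(2 * D) ≤ d) (hd2 : d ≤ 2 * D) (hP1 : 4 - 5 / 2 * b ≤ P)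
    (hP2 : P ≤ 4 + 5 / 2 * b) (h : 4 * S * d - d ^ 2 - θ * (4 * S - θ) ≤ u * P) :
    -(θ * (4 * S - θ)) - (11 * (b ^ 2 * D) + 4 * D ^ 2) ≤ (u - S * d) * P := by
  have e1 := el_sq hd1 hd2
  have e2 : |d * (4 - P)| ≤ 2 * D * (5 / 2 * b) := by
    rw [abs_mul]
    exact mul_le_mul (abs_le.2 ⟨hd1, hd2⟩) (abs_le.2 ⟨by linarith, by linarith⟩) (abs_nonneg _)
      (by positivity)
  have e3 : -(2 * D * (5 / 2 * b)) ≤ d * (4 - P) := (abs_le.1 e2).1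
  have e4 := mul_le_mul_of_nonneg_left e3 hS0
  have e5 : S * (2 * D * (5 / 2 * b)) ≤ 2001 / 1000 * b * (2 * D * (5 / 2 * b)) :=
    mul_le_mul_of_nonneg_right hS (by positivity)
  have e6 : 0 ≤ b ^ 2 * D := by positivity
  nlinarith

/-- Step 3. -/
theorem el_three {b D r A B y t s : ℝ} (hb : 0 < b) (hb' : b ≤ 1 / 10 ^ 9) (hD : 0 ≤ D)
    (hr0 : 0 ≤ r) (hr : r ≤ 16 / 10 * b ^ 2) (hA : 88 / 100 * b ≤ A) (hB : 89 / 100 * b ≤ B)
    (hy1 : -(r + 11 * (b * D)) ≤ y) (hy2 : y ≤ r) (ht : 0 ≤ t) (hs : s ≤ t)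
    (h : B ^ 2 + (r - s) ^ 2 ≤ A ^ 2 + y ^ 2) :
    B - 181 / 100 * (b * t) - 20 * (b ^ 2 * D) - D ^ 2 ≤ A := by
  have e0 : 0 ≤ b * D := by positivity
  have e1 := el_sq hy1 (hy2.trans (by linarith))
  have e2 : r * s ≤ 16 / 10 * b ^ 2 * t :=
    (mul_le_mul_of_nonneg_left hs hr0).trans (mul_le_mul_of_nonneg_right hr ht)
  have e3 : r * (b * D) ≤ 16 / 10 * b ^ 2 * (b * D) := mul_le_mul_of_nonneg_right hr e0
  have e4 : (B - A) * (B + A) ≤
      32 / 10 * (b ^ 2 * t) + 352 / 10 * (b ^ 2 * (b * D)) + 121 * (b * D) ^ 2 := by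
    nlinarith [sq_nonneg s]
  have e5 : b * (b * D ^ 2) ≤ 1 / 10 ^ 9 * (b * D ^ 2) :=
    mul_le_mul_of_nonneg_right hb' (by positivity)
  have e6 : 0 ≤ b * t := by positivity
  have e7 : 0 ≤ b ^ 2 * D := by positivity
  by_contra hc
  rw [not_le] at hc
  have e8 : (181 / 100 * (b * t) + 20 * (b ^ 2 * D) + D ^ 2) * (177 / 100 * b) <
      (B - A) * (B + A) :=
    lt_of_lt_of_le (mul_lt_mul_of_pos_right (by linarith) (by positivity))
      (mul_le_mul_of_nonneg_left (by linarith) (by nlinarith [sq_nonneg D]))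
  have e9 : 0 ≤ b ^ 2 * t := by positivity
  have e10 : 0 ≤ b ^ 2 * (b * D) := by positivity
  have e11 : 0 ≤ b * D ^ 2 := by positivity
  nlinarith

/-- Step 4. -/
theorem el_four {b D a x X τ Y θ m n : ℝ} (hb : 0 < b) (hD : 0 ≤ D) (hD' : D ≤ b / 10 ^ 6)
    (ha : a ≤ 111 / 100 * b) (hx1 : -X ≤ x) (hx2 : x ≤ X) (hX : X ≤ b / 1000) (hax : X ≤ a)
    (h1 : -(a + 3 * D) ≤ a - τ) (h2 : -(3 * D) ≤ τ) (hY : 99 / 100 ≤ Y) (hθ : 0 ≤ θ)
    (hm : a - x ≤ m) (hn : θ + Y ≤ n) (h : m ^ 2 + n ^ 2 ≤ (a - τ) ^ 2 + Y ^ 2) :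
    θ ≤ 113 / 100 * (b * (X + 3 * D)) := by
  have e1 := el_sq h1 (by linarith)
  have e2 : (a - x) ^ 2 ≤ m ^ 2 := pow_le_pow_left₀ (by linarith) hm 2
  have e3 : (θ + Y) ^ 2 ≤ n ^ 2 := pow_le_pow_left₀ (by linarith) hn 2
  have e4 : (3 * D + x) * (2 * a + 3 * D - x) ≤ (3 * D + X) * (223 / 100 * b) :=
    (mul_le_mul_of_nonneg_right (by linarith) (by linarith)).trans
      (mul_le_mul_of_nonneg_left (by linarith) (by linarith))
  have e5 : 99 / 100 * θ ≤ Y * θ := mul_le_mul_of_nonneg_right hY hθ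
  have e6 : 0 ≤ b * (X + 3 * D) := mul_nonneg hb.le (by linarith)
  nlinarith [sq_nonneg θ]

theorem el_small {b D : ℝ} (hb : 0 < b) (hb' : b ≤ 1 / 10 ^ 9) (hD : 0 ≤ D)
    (hD' : D ≤ b / 10 ^ 6) : b ^ 2 ≤ 1 / 10 ^ 9 * b ∧ b * D ≤ 1 / 10 ^ 6 * b ^ 2 ∧
    D ^ 2 ≤ 1 / 10 ^ 6 * (b * D) ∧ b ^ 2 * D ≤ 1 / 10 ^ 9 * (b * D) := by
  have h1 := mul_le_mul_of_nonneg_right hb' hb.le
  have h2 := mul_le_mul_of_nonneg_left hD' hb.le
  have h3 := mul_le_mul_of_nonneg_right hD' hD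
  have h4 := mul_le_mul_of_nonneg_right h1 hD
  exact ⟨by linarith, by linarith, by linarith, by linarith⟩

theorem sEL : SEL := by
  intro b C S D r p1 p2 L τ Tx Ty Tx' Ty' ζ1 ζ2 l θ hb hb' hS1 hS2 hC1 hC2 hD' hr0 hr hp1 hp2 hL
    hT1 hT2 hY1 hY2 hτ1 hτ2 hT3 hY3 hY4 hz1 hz2 _ hz4 hz5 hl hθ H1 H2 H3 H4
  have hD : 0 ≤ D := (abs_nonneg _).trans hp1
  obtain ⟨p1a, p1b⟩ := abs_le.1 hp1
  obtain ⟨p2a, p2b⟩ := abs_le.1 hp2
  obtain ⟨La, Lb⟩ := abs_le.1 hL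
  obtain ⟨la, lb⟩ := abs_le.1 hl
  obtain ⟨bb, bD, DD, b2D⟩ := el_small hb hb' hD hD'
  have bb0 : 0 < b ^ 2 := by positivity
  have bD0 : 0 ≤ b * D := by positivity
  have b2D0 : 0 ≤ b ^ 2 * D := by positivity
  have bD' : b * D ≤ 1 / 10 ^ 9 * D := mul_le_mul_of_nonneg_right hb' hD
  have D0 : 0 ≤ D ^ 2 := sq_nonneg D
  have s1 : -(r + 11 * (b * D)) ≤ ζ2 - L :=
    el_one (w0 := r - Tx) (w := ζ1 - Tx - τ) (Y := -Ty) hb hb' hD hD' (by linarith) (by linarith)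
      (by linarith) (by linarith) (by linarith) (by linarith) (by linarith)
  obtain ⟨P, hP⟩ : ∃ P, P = 4 * C - l - 9 / 10 * b - p1 := ⟨_, rfl⟩
  obtain ⟨x, hx⟩ : ∃ x, x = l - 9 / 10 * b := ⟨_, rfl⟩
  have P1 : 4 - 5 / 2 * b ≤ P := by linarith
  have P2 : P ≤ 4 + 5 / 2 * b := by linarith
  have s2 := el_two (d := L - p2) (P := P) (u := x - p1) (θ := θ) hb hD (by linarith) hS2
    (by linarith) (by linarith) P1 P2 (by rw [hP, hx]; linarith)
  have Sd : |S * (L - p2)| ≤ 2001 / 1000 * b * (2 * D) := by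
    rw [abs_mul]
    exact mul_le_mul (abs_le.2 ⟨by linarith, hS2⟩) (abs_le.2 ⟨by linarith, by linarith⟩)
      (abs_nonneg _) (by positivity)
  obtain ⟨Sa, Sb⟩ := abs_le.1 Sd
  obtain ⟨v, hv⟩ : ∃ v, v = x - p1 - S * (L - p2) := ⟨_, rfl⟩
  obtain ⟨E, hE⟩ : ∃ E, E = 11 * (b ^ 2 * D) + 4 * D ^ 2 := ⟨_, rfl⟩
  rw [← hv, ← hE] at s2
  have E0 : 0 ≤ E := by rw [hE]; positivity
  have EP : 39 / 10 * E ≤ P * E := mul_le_mul_of_nonneg_right (by linarith) E0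
  obtain ⟨t, ht⟩ : ∃ t, t = |θ| := ⟨_, rfl⟩
  have t0 : 0 ≤ t := ht ▸ abs_nonneg θ
  have bt : b * t ≤ b * (3 / 2 * b) := mul_le_mul_of_nonneg_left (ht ▸ hθ) hb.le
  have bt0 : 0 ≤ b * t := by positivity
  have btP1 : 39 / 10 * (b * t) ≤ P * (b * t) := mul_le_mul_of_nonneg_right (by linarith) bt0
  have btP2 : P * (b * t) ≤ 401 / 100 * (b * t) := mul_le_mul_of_nonneg_right (by linarith) bt0
  have v1 : -(206 / 100 * (b * t)) - 10 / 39 * E ≤ v := by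
    refine el_div (by linarith) s2 ?_
    have a1 : θ * S ≤ t * (2001 / 1000 * b) :=
      (mul_le_mul_of_nonneg_right (ht ▸ le_abs_self θ) (by linarith)).trans
        (mul_le_mul_of_nonneg_left hS2 t0)
    linarith [sq_nonneg θ]
  have s3 : l + r - 181 / 100 * (b * t) - 20 * (b ^ 2 * D) - D ^ 2 ≤ ζ1 + 9 / 10 * b := by
    rcases H3 with H | H
    · exact el_three (s := θ) hb hb' hD hr0 hr (by linarith) (by linarith) s1 (by linarith) t0
        (ht ▸ le_abs_self θ) H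
    · exact el_three (s := -θ) hb hb' hD hr0 hr (by linarith) (by linarith) s1 (by linarith) t0
        (ht ▸ neg_le_abs θ) (by rw [sub_neg_eq_add]; exact H)
  rcases le_total θ 0 with h0 | h0
  · have tθ : t = -θ := ht.trans (abs_of_nonpos h0)
    have v2 : 199 / 100 * (b * t) - 10 / 39 * E ≤ v := by
      refine el_div (by linarith) s2 ?_
      have a1 : t * (1999 / 1000 * b) ≤ t * S := mul_le_mul_of_nonneg_left hS1 t0
      rw [show θ = -t by linarith]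
      linarith [sq_nonneg t]
    linarith
  · have tθ : t = θ := ht.trans (abs_of_nonneg h0)
    have x1 : -(2 * D + 4 * b ^ 2) ≤ x := by linarith
    have x2 : x ≤ 2 * D + 4 * b ^ 2 := by linarith
    have xa : |x| ≤ 2 * D + 4 * b ^ 2 := abs_le.2 ⟨x1, x2⟩
    have s4 : θ ≤ 113 / 100 * (b * (|x| + 3 * D)) := by
      rcases H4 with H | ⟨H', H⟩
      · exact el_four (a := -(9 / 10 * b) - Tx) (x := x) (τ := τ) (Y := -Ty) (m := -l - Tx)
          (n := θ - Ty) hb hD hD' (by linarith) (neg_abs_le x) (le_abs_self x) (by linarith)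
          (by linarith) (by linarith) hτ1 (by linarith) h0 (by linarith) (by linarith)
          (by linarith)
      · exfalso
        have a1 : C * θ ≤ 1 * θ := mul_le_mul_of_nonneg_right hC2 h0
        have a2 : 1999 / 1000 * b * (89 / 100 * b) ≤ S * l :=
          mul_le_mul hS1 (by linarith) (by positivity) (by linarith)
        have a3 := el_four (a := -(9 / 10 * b) - Tx) (x := x) (X := 2 * D + 4 * b ^ 2) (τ := τ)
          (Y := -Ty) (θ := θ - b ^ 2 / 100) (m := -l - Tx') (n := θ - Ty') hb hD hD'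
          (by linarith) x1 x2 (by linarith) (by linarith) (by linarith) hτ1 (by linarith)
          (by linarith) (by linarith) (by linarith) (by linarith)
        have a4 : b * b ^ 2 ≤ 1 / 10 ^ 9 * b ^ 2 := mul_le_mul_of_nonneg_right hb' bb0.le
        linarith
    have xv : |x| ≤ |v| + 101 / 100 * D := by
      have := le_abs_self v
      have := neg_abs_le v
      exact abs_le.2 ⟨by linarith, by linarith⟩
    have a1 : b * (|x| + 3 * D) ≤ b * (|v| + 401 / 100 * D) :=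
      mul_le_mul_of_nonneg_left (by linarith) hb.le
    have a2 : b * t ≤ b * (113 / 100 * (b * (|v| + 401 / 100 * D))) :=
      mul_le_mul_of_nonneg_left (by linarith) hb.le
    have a3 : b ^ 2 * |v| ≤ 1 / 100 * |v| := mul_le_mul_of_nonneg_right (by linarith) (abs_nonneg v)
    rcases le_total 0 v with h1 | h1
    · rw [abs_of_nonneg h1] at a2 a3
      linarith
    · rw [abs_of_nonpos h1] at a2 a3
      linarith

end Pool.Agent.P.MP_dba4bb_co.Ex
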