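import Pool.Agent.P.MP_dba4bb_co.Ex.Basic

/-! Lower bounds for paper distances: flat foldings and distance from a vertex. -/

namespace Pool.Agent.P.MP_dba4bb_co.Ex

open Set

variable {k a b : ℝ} {F : P2 → P3}

theorem nrm_lip (x y x' y' : ℝ) :
    (√(x ^ 2 + y ^ 2) - √(x' ^ 2 + y' ^ 2)) ^ 2 ≤ (x - x') ^ 2 + (y - y') ^ 2 := by
  have h1 := Real.sq_sqrt (show 0 ≤ x ^ 2 + y ^ 2 by positivity)
  have h2 := Real.sq_sqrt (show 0 ≤ x' ^ 2 + y' ^ 2 by positivity)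
  have h3 : x * x' + y * y' ≤ √(x ^ 2 + y ^ 2) * √(x' ^ 2 + y' ^ 2) := by
    rw [← Real.sqrt_mul (by positivity)]
    exact Real.le_sqrt_of_sq_le (by nlinarith [sq_nonneg (x * y' - y * x')])
  nlinarith

theorem min_lip {A B A' B' e : ℝ} (h1 : (A - A') ^ 2 ≤ e) (h2 : (B - B') ^ 2 ≤ e) :
    (min A B - min A' B') ^ 2 ≤ e := by
  rcases le_total A B with h | h <;> rcases le_total A' B' with h' | h' <;>
    simp only [min_eq_left, min_eq_right, h, h'] <;> try assumption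
  · rcases le_total A B' with c | c <;> nlinarith
  · rcases le_total B A' with c | c <;> nlinarith

theorem abs_lip (x y : ℝ) : (|x| - |y|) ^ 2 ≤ (x - y) ^ 2 :=
  sq_le_sq.2 (abs_abs_sub_abs_le_abs_sub x y)

theorem hex_lip {a b c a' b' c' : ℝ} (ha : -1 ≤ a ∧ a ≤ 1) (hb : -1 ≤ b ∧ b ≤ 1)
    (ha' : -1 ≤ a' ∧ a' ≤ 1) (hb' : -1 ≤ b' ∧ b' ≤ 1)
    (s : (a = 1 ∧ a' = 1) ∨ (a = -1 ∧ a' = -1) ∨ (b = 1 ∧ b' = 1) ∨ (b = -1 ∧ b' = -1) ∨
      (c = 1 ∧ c' = 1) ∨ (c = -1 ∧ c' = -1)) :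
    d2 (hex a b c) (hex a' b' c') ≤ (a - a') ^ 2 + (b - b') ^ 2 + (c - c') ^ 2 := by
  unfold d2 hex
  have p : ∀ {x : ℝ}, -1 ≤ x ∧ x ≤ 1 → |1 - x| = 1 - x ∧ |1 + x| = 1 + x ∧ |-1 - x| = 1 + x ∧
      |-1 + x| = 1 - x ∧ |x - 1| = 1 - x ∧ |x + 1| = 1 + x ∧ |x - -1| = 1 + x ∧
      |x + -1| = 1 - x := fun {x} h => by
    refine ⟨abs_of_nonneg ?_, abs_of_nonneg ?_, (abs_of_nonpos ?_).trans ?_,
      (abs_of_nonpos ?_).trans ?_, (abs_of_nonpos ?_).trans ?_, (abs_of_nonneg ?_).trans ?_,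
      (abs_of_nonneg ?_).trans ?_, (abs_of_nonpos ?_).trans ?_⟩ <;> linarith [h.1, h.2]
  have l1 := abs_lip (a - b) (a' - b')
  have l2 := abs_lip (a + b) (a' + b')
  rcases s with ⟨rfl, rfl⟩ | ⟨rfl, rfl⟩ | ⟨rfl, rfl⟩ | ⟨rfl, rfl⟩ | ⟨rfl, rfl⟩ | ⟨rfl, rfl⟩
  · simp only [p hb, p hb']; linarith
  · simp only [p hb, p hb']; linarith
  · simp only [p ha, p ha']; linarith
  · simp only [p ha, p ha']; linarith
  · simp only; linarith
  · simp only; linarith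

theorem Cover.hexW (h : Cover k a b F) (P Q : P2) :
    k * d2 (hex (F P).1 (F P).2.1 (F P).2.2) (hex (F Q).1 (F Q).2.1 (F Q).2.2) ≤ 2 * d2 P Q :=
  h.face (fun q => hex q.1 q.2.1 q.2.2)
    (fun _ hp _ hq s => hex_lip hp.1 hp.2.1 hq.1 hq.2.1 s) P Q

theorem Cover.hexU (h : Cover k a b F) (P Q : P2) :
    k * d2 (hex (F P).2.1 (F P).2.2 (F P).1) (hex (F Q).2.1 (F Q).2.2 (F Q).1) ≤ 2 * d2 P Q :=
  h.face (fun q => hex q.2.1 q.2.2 q.1) (fun p hp q hq s =>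
    (hex_lip hp.2.1 hp.2.2.1 hq.2.1 hq.2.2.1 (by unfold SameFace at s; tauto)).trans_eq
      (by unfold e2; ring)) P Q

theorem Cover.hexV (h : Cover k a b F) (P Q : P2) :
    k * d2 (hex (F P).1 (F P).2.2 (F P).2.1) (hex (F Q).1 (F Q).2.2 (F Q).2.1) ≤ 2 * d2 P Q :=
  h.face (fun q => hex q.1 q.2.2 q.2.1) (fun p hp q hq s =>
    (hex_lip hp.1 hp.2.2.1 hq.1 hq.2.2.1 (by unfold SameFace at s; tauto)).trans_eq
      (by unfold e2; ring)) P Q

theorem hex_cap {a b : ℝ} (c : ℝ) (h1 : a ≤ b) (h2 : -b ≤ a) : hex a b c = (-a, c * (2 - b)) := by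
  unfold hex
  rw [abs_of_nonpos (by linarith), abs_of_nonneg (by linarith)]
  exact Prod.ext (by simp only; ring) (by simp only; ring)

/-- the centre of the bottom and a point of the top -/
theorem Cover.cen (h : Cover k a b F) {P Q : P2} {x y : ℝ} (hP : F P = cp 0 0 0)
    (hQ : F Q = cp x y 1) : k * ((2 - |x|) ^ 2 + (2 - |y|) ^ 2) ≤ d2 P Q := by
  have := h.hexW P Q
  rw [hP, hQ] at this
  simp only [cp, hex, d2, show x + y - (x - y) = 2 * y by ring, show x + y + (x - y) = 2 * x by ring,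
    abs_mul, abs_two] at this ⊢
  norm_num at this
  linarith

/-- a point in the upper triangle of the face N and a point of the top -/
theorem Cover.hN (h : Cover k a b F) {P Q : P2} {s z x y : ℝ} (hP : F P = cp s (1 - s) z)
    (hQ : F Q = cp x y 1) (h1 : s ≤ z) (h2 : 1 - z ≤ s) :
    k * ((s + z - (2 - y)) ^ 2 + (1 - s + z - (2 - x)) ^ 2) ≤ d2 P Q := by
  have m := (hQ ▸ h.mem Q).2.1
  have := h.hexU P Q
  rw [hP, hQ] at this
  simp only [cp] at this m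
  rw [hex_cap _ (by linarith) (by linarith), hex_cap _ (by linarith [m.2]) (by linarith [m.1])] at this
  simp only [d2] at this ⊢
  linarith

theorem Cover.hS (h : Cover k a b F) {P Q : P2} {s z x y : ℝ} (hP : F P = cp (-s) (-(1 - s)) z)
    (hQ : F Q = cp x y 1) (h1 : s ≤ z) (h2 : 1 - z ≤ s) :
    k * ((-s - z - (-2 - y)) ^ 2 + (-(1 - s) - z - (-2 - x)) ^ 2) ≤ d2 P Q := by
  have m := (hQ ▸ h.mem Q).2.1
  have := h.hexU P Q
  rw [hP, hQ] at this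
  simp only [cp] at this m
  rw [hex_cap _ (by linarith) (by linarith), hex_cap _ (by linarith [m.2]) (by linarith [m.1])] at this
  simp only [d2] at this ⊢
  linarith

theorem Cover.hW (h : Cover k a b F) {P Q : P2} {s z x y : ℝ} (hP : F P = cp (-s) (1 - s) z)
    (hQ : F Q = cp x y 1) (h1 : s ≤ z) (h2 : 1 - z ≤ s) :
    k * ((-s - z - (-2 + y)) ^ 2 + (1 - s + z - (2 + x)) ^ 2) ≤ d2 P Q := by
  have m := (hQ ▸ h.mem Q).1
  have := h.hexV P Q
  rw [hP, hQ] at this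
  simp only [cp] at this m
  rw [hex_cap _ (by linarith) (by linarith), hex_cap _ (by linarith [m.2]) (by linarith [m.1])] at this
  simp only [d2] at this ⊢
  linarith

theorem Cover.hE (h : Cover k a b F) {P Q : P2} {s z x y : ℝ} (hP : F P = cp s (-(1 - s)) z)
    (hQ : F Q = cp x y 1) (h1 : s ≤ z) (h2 : 1 - z ≤ s) :
    k * ((s + z - (2 + y)) ^ 2 + (-(1 - s) - z - (-2 + x)) ^ 2) ≤ d2 P Q := by
  have m := (hQ ▸ h.mem Q).1
  have := h.hexV P Q
  rw [hP, hQ] at this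
  simp only [cp] at this m
  rw [hex_cap _ (by linarith) (by linarith), hex_cap _ (by linarith [m.2]) (by linarith [m.1])] at this
  simp only [d2] at this ⊢
  linarith

/-- any point of the face E and a point of the top with `0 ≤ x` -/
theorem Cover.hE2 (h : Cover k a b F) {P Q : P2} {s z x y : ℝ} (hP : F P = cp s (-(1 - s)) z)
    (hQ : F Q = cp x y 1) (hx : 0 ≤ x) :
    k * ((s + z - (2 - |y|)) ^ 2 + (-(1 - s) - z - (-2 + x)) ^ 2) ≤ d2 P Q := by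
  have m := (hP ▸ h.mem P).1
  have := h.hexW P Q
  rw [hP, hQ] at this
  simp only [cp] at this m
  rw [hex_cap _ (by linarith [m.2]) (by linarith [m.1])] at this
  simp only [hex, d2, show x + y - (x - y) = 2 * y by ring, show x + y + (x - y) = 2 * x by ring,
    abs_mul, abs_two, abs_of_nonneg hx] at this ⊢
  linarith

noncomputable def vf (x y z : ℝ) : ℝ :=
  √(x ^ 2 + y ^ 2 + z ^ 2 + 2 * min x (min y z) * max x (max y z))

theorem vf_12 (x y z : ℝ) : vf x y z = vf y x z := by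
  unfold vf; rw [min_left_comm, max_left_comm, add_comm (x ^ 2)]

theorem vf_13 (x y z : ℝ) : vf x y z = vf z y x := by
  unfold vf
  rw [min_left_comm, max_left_comm, min_comm x, max_comm x, min_left_comm y, max_left_comm y]
  congr 2; ring

theorem vf_zero {y z : ℝ} (hy : 0 ≤ y) (hz : 0 ≤ z) : vf 0 y z = √(y ^ 2 + z ^ 2) := by
  unfold vf; rw [min_eq_left (le_min hy hz)]; congr 1; ring

theorem vf_two {y z : ℝ} (hy : y ≤ 2) (hz : z ≤ 2) :
    vf 2 y z = √(min ((2 + y) ^ 2 + z ^ 2) ((2 + z) ^ 2 + y ^ 2)) := by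
  unfold vf
  rw [max_eq_left (max_le hy hz), min_eq_right (min_le_of_left_le hy)]
  congr 1
  rcases le_total y z with c | c
  · rw [min_eq_left c, min_eq_left (by linarith)]; ring
  · rw [min_eq_right c, min_eq_right (by linarith)]; ring

theorem vf_lip {x y z y' z' : ℝ} (hx : x = 0 ∨ x = 2) (hy : 0 ≤ y ∧ y ≤ 2) (hz : 0 ≤ z ∧ z ≤ 2)
    (hy' : 0 ≤ y' ∧ y' ≤ 2) (hz' : 0 ≤ z' ∧ z' ≤ 2) :
    (vf x y z - vf x y' z') ^ 2 ≤ (y - y') ^ 2 + (z - z') ^ 2 := by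
  rcases hx with rfl | rfl
  · rw [vf_zero hy.1 hz.1, vf_zero hy'.1 hz'.1]; exact nrm_lip _ _ _ _
  · rw [vf_two hy.2 hz.2, vf_two hy'.2 hz'.2, Real.sqrt_monotone.map_min,
      Real.sqrt_monotone.map_min]
    exact min_lip ((nrm_lip _ _ _ _).trans_eq (by ring)) ((nrm_lip _ _ _ _).trans_eq (by ring))

/-- distance from a vertex `(s1, s2, s3)` -/
theorem Cover.vtx (h : Cover k a b F) {s1 s2 s3 : ℝ} (h1 : s1 = 1 ∨ s1 = -1)
    (h2 : s2 = 1 ∨ s2 = -1) (h3 : s3 = 1 ∨ s3 = -1) {P : P2} (hP : F P = (s1, s2, s3)) (Q : P2) :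
    k * vf (1 - s1 * (F Q).1) (1 - s2 * (F Q).2.1) (1 - s3 * (F Q).2.2) ^ 2 ≤ 2 * d2 P Q := by
  have r : ∀ {s x : ℝ}, s = 1 ∨ s = -1 → -1 ≤ x ∧ x ≤ 1 → 0 ≤ 1 - s * x ∧ 1 - s * x ≤ 2 := by
    rintro s x (rfl | rfl) h <;> constructor <;> linarith [h.1, h.2]
  have q : ∀ {s : ℝ} (x y : ℝ), s = 1 ∨ s = -1 → (1 - s * x - (1 - s * y)) ^ 2 = (x - y) ^ 2 := by
    rintro s x y (rfl | rfl) <;> ring
  have t : ∀ {s x : ℝ}, s = 1 ∨ s = -1 → x = 1 ∨ x = -1 → 1 - s * x = 0 ∨ 1 - s * x = 2 := by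
    rintro s x (rfl | rfl) (rfl | rfl) <;> norm_num
  have := h.face1 (fun p => vf (1 - s1 * p.1) (1 - s2 * p.2.1) (1 - s3 * p.2.2))
    (fun p hp p' hp' s => by
      unfold e2
      have a1 := r h1 hp.1; have a2 := r h2 hp.2.1; have a3 := r h3 hp.2.2.1
      have b1 := r h1 hp'.1; have b2 := r h2 hp'.2.1; have b3 := r h3 hp'.2.2.1
      rw [← q p.1 _ h1, ← q p.2.1 _ h2, ← q p.2.2 _ h3]
      have c1 : p.1 = p'.1 → p'.1 = 1 ∨ p'.1 = -1 → _ := fun e e' => by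
        simpa only [e] using vf_lip (t h1 e') a2 a3 b2 b3
      have c2 : p.2.1 = p'.2.1 → p'.2.1 = 1 ∨ p'.2.1 = -1 → _ := fun e e' => by
        simpa only [e] using vf_lip (t h2 e') a1 a3 b1 b3
      have c3 : p.2.2 = p'.2.2 → p'.2.2 = 1 ∨ p'.2.2 = -1 → _ := fun e e' => by
        simpa only [e] using vf_lip (t h3 e') a2 a1 b2 b1
      rcases s with s | s | s | s | s | s <;> have e := s.1.trans s.2.symm
      · rw [e]; linarith [c1 e (.inl s.2)]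
      · rw [e]; linarith [c1 e (.inr s.2)]
      · rw [e, vf_12, vf_12 (1 - s1 * p'.1)]; linarith [c2 e (.inl s.2)]
      · rw [e, vf_12, vf_12 (1 - s1 * p'.1)]; linarith [c2 e (.inr s.2)]
      · rw [e, vf_13, vf_13 (1 - s1 * p'.1)]; linarith [c3 e (.inl s.2)]
      · rw [e, vf_13, vf_13 (1 - s1 * p'.1)]; linarith [c3 e (.inr s.2)]) P Q
  have z : ∀ {s : ℝ}, s = 1 ∨ s = -1 → 1 - s * s = 0 := by rintro s (rfl | rfl) <;> norm_num
  rw [hP] at this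
  simp only [z h1, z h2, z h3, vf_zero le_rfl le_rfl] at this
  simpa using this

theorem vf_two_sq {y z : ℝ} (hyz : y ≤ z) (hz : z ≤ 2) : vf 2 y z ^ 2 = (2 + y) ^ 2 + z ^ 2 := by
  rw [vf_two (hyz.trans hz) hz, min_eq_left (by linarith), Real.sq_sqrt (by positivity)]

theorem vf_two_sq' {y z : ℝ} (hyz : z ≤ y) (hz : y ≤ 2) : vf 2 y z ^ 2 = (2 + z) ^ 2 + y ^ 2 := by
  rw [vf_two hz (hyz.trans hz), min_eq_right (by linarith), Real.sq_sqrt (by positivity)]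

theorem vf_top {y z : ℝ} (hy : y ≤ 2) (hz : z ≤ 2) :
    vf y z 2 ^ 2 = 2 * ((1 + (y + z) / 2) ^ 2 + (1 - |y - z| / 2) ^ 2) := by
  rw [vf_13]
  rcases le_total y z with c | c
  · rw [vf_two_sq' c hz, abs_of_nonpos (by linarith)]; ring
  · rw [vf_two_sq c hy, abs_of_nonneg (by linarith)]; ring

/-- the vertices of the bottom and a point of the top -/
theorem Cover.v1 (h : Cover k a b F) {P Q : P2} {x y : ℝ} (hP : F P = cp 1 0 0)
    (hQ : F Q = cp x y 1) : k * ((1 - |y|) ^ 2 + (2 - x) ^ 2) ≤ d2 P Q := by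
  have m := hQ ▸ h.mem Q
  have := h.vtx (.inl rfl) (.inl rfl) (.inr rfl) (P := P) (by rw [hP]; norm_num [cp]) Q
  rw [hQ] at this
  simp only [cp] at this m
  rw [show (1 : ℝ) - -1 * (2 * 1 - 1) = 2 by norm_num,
    vf_top (by linarith [m.1.1]) (by linarith [m.2.1.1]),
    show 1 - 1 * (x + y) - (1 - 1 * (x - y)) = -(2 * y) by ring, abs_neg, abs_mul, abs_two] at this
  linarith

theorem Cover.v3 (h : Cover k a b F) {P Q : P2} {x y : ℝ} (hP : F P = cp (-1) 0 0)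
    (hQ : F Q = cp x y 1) : k * ((1 - |y|) ^ 2 + (2 + x) ^ 2) ≤ d2 P Q := by
  have m := hQ ▸ h.mem Q
  have := h.vtx (.inr rfl) (.inr rfl) (.inr rfl) (P := P) (by rw [hP]; norm_num [cp]) Q
  rw [hQ] at this
  simp only [cp] at this m
  rw [show (1 : ℝ) - -1 * (2 * 1 - 1) = 2 by norm_num,
    vf_top (by linarith [m.1.2]) (by linarith [m.2.1.2]),
    show 1 - -1 * (x + y) - (1 - -1 * (x - y)) = 2 * y by ring, abs_mul, abs_two] at this
  linarith

theorem Cover.v2 (h : Cover k a b F) {P Q : P2} {x y : ℝ} (hP : F P = cp 0 1 0)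
    (hQ : F Q = cp x y 1) : k * ((2 - y) ^ 2 + (1 - |x|) ^ 2) ≤ d2 P Q := by
  have m := hQ ▸ h.mem Q
  have := h.vtx (.inl rfl) (.inr rfl) (.inr rfl) (P := P) (by rw [hP]; norm_num [cp]) Q
  rw [hQ] at this
  simp only [cp] at this m
  rw [show (1 : ℝ) - -1 * (2 * 1 - 1) = 2 by norm_num,
    vf_top (by linarith [m.1.1]) (by linarith [m.2.1.2]),
    show 1 - 1 * (x + y) - (1 - -1 * (x - y)) = -(2 * x) by ring, abs_neg, abs_mul, abs_two] at this
  linarith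

theorem Cover.v4 (h : Cover k a b F) {P Q : P2} {x y : ℝ} (hP : F P = cp 0 (-1) 0)
    (hQ : F Q = cp x y 1) : k * ((2 + y) ^ 2 + (1 - |x|) ^ 2) ≤ d2 P Q := by
  have m := hQ ▸ h.mem Q
  have := h.vtx (.inr rfl) (.inl rfl) (.inr rfl) (P := P) (by rw [hP]; norm_num [cp]) Q
  rw [hQ] at this
  simp only [cp] at this m
  rw [show (1 : ℝ) - -1 * (2 * 1 - 1) = 2 by norm_num,
    vf_top (by linarith [m.1.2]) (by linarith [m.2.1.1]),
    show 1 - -1 * (x + y) - (1 - 1 * (x - y)) = 2 * x by ring, abs_mul, abs_two] at this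
  linarith

/-- `w4` and a low point of the face N -/
theorem Cover.v4N (h : Cover k a b F) {P Q : P2} {s z : ℝ} (hP : F P = cp 0 (-1) 0)
    (hQ : F Q = cp s (1 - s) z) (h0 : 0 ≤ s) (h1 : z ≤ 1 - s) :
    k * ((s + z) ^ 2 + (2 - s + z) ^ 2) ≤ d2 P Q := by
  have := h.vtx (.inr rfl) (.inl rfl) (.inr rfl) (P := P) (by rw [hP]; norm_num [cp]) Q
  rw [hQ] at this
  simp only [cp] at this
  rw [show 1 - -1 * (s + (1 - s)) = 2 by ring, vf_two_sq' (by linarith) (by linarith)] at this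
  linarith

/-- `w4` and a high point of the face N -/
theorem Cover.v4N' (h : Cover k a b F) {P Q : P2} {s z : ℝ} (hP : F P = cp 0 (-1) 0)
    (hQ : F Q = cp s (1 - s) z) (h0 : z ≤ 1) (h1 : 1 - s ≤ z) :
    k * ((2 - s + z) ^ 2 + (2 - s - z) ^ 2) ≤ d2 P Q := by
  have := h.vtx (.inr rfl) (.inl rfl) (.inr rfl) (P := P) (by rw [hP]; norm_num [cp]) Q
  rw [hQ] at this
  simp only [cp] at this
  rw [show 1 - -1 * (s + (1 - s)) = 2 by ring, vf_two_sq (by linarith) (by linarith)] at this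
  linarith

theorem Cover.v3N (h : Cover k a b F) {P Q : P2} {s z : ℝ} (hP : F P = cp (-1) 0 0)
    (hQ : F Q = cp s (1 - s) z) (h0 : s ≤ 1) (h1 : z ≤ s) :
    k * ((1 + s + z) ^ 2 + (1 - s + z) ^ 2) ≤ d2 P Q := by
  have := h.vtx (.inr rfl) (.inr rfl) (.inr rfl) (P := P) (by rw [hP]; norm_num [cp]) Q
  rw [hQ] at this
  simp only [cp] at this
  rw [show 1 - -1 * (s + (1 - s)) = 2 by ring, vf_two_sq' (by linarith) (by linarith)] at this
  linarith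

theorem Cover.v4W (h : Cover k a b F) {P Q : P2} {s z : ℝ} (hP : F P = cp 0 (-1) 0)
    (hQ : F Q = cp (-s) (1 - s) z) (h0 : 0 ≤ s) (h1 : z ≤ 1 - s) :
    k * ((s + z) ^ 2 + (2 - s + z) ^ 2) ≤ d2 P Q := by
  have := h.vtx (.inr rfl) (.inl rfl) (.inr rfl) (P := P) (by rw [hP]; norm_num [cp]) Q
  rw [hQ] at this
  simp only [cp] at this
  rw [show 1 - 1 * (-s - (1 - s)) = 2 by ring, vf_12, vf_two_sq' (by linarith) (by linarith)] at this
  linarith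

theorem Cover.v1W (h : Cover k a b F) {P Q : P2} {s z : ℝ} (hP : F P = cp 1 0 0)
    (hQ : F Q = cp (-s) (1 - s) z) (h0 : s ≤ 1) (h1 : z ≤ s) :
    k * ((1 + s + z) ^ 2 + (1 - s + z) ^ 2) ≤ d2 P Q := by
  have := h.vtx (.inl rfl) (.inl rfl) (.inr rfl) (P := P) (by rw [hP]; norm_num [cp]) Q
  rw [hQ] at this
  simp only [cp] at this
  rw [show 1 - 1 * (-s - (1 - s)) = 2 by ring, vf_12, vf_two_sq' (by linarith) (by linarith)] at this
  linarith

end Pool.Agent.P.MP_dba4bb_co.Ex
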