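import Pool.Agent.P.MP_dba4bb_co.Ex.S3

/-! The first bounds for the node `ζ` and the upper case. -/

namespace Pool.Agent.P.MP_dba4bb_co.Ex

namespace ZetaAux

theorem mul_le_of_abs {x y a b : ℝ} (hx : |x| ≤ a) (hy : |y| ≤ b) : x * y ≤ a * b := by
  calc x * y ≤ |x * y| := le_abs_self _
    _ = |x| * |y| := abs_mul _ _
    _ ≤ a * b := mul_le_mul hx hy (abs_nonneg _) ((abs_nonneg _).trans hx)

theorem sqb {β : ℝ} (hβ : 0 < β) (hβ1 : β ≤ 1 / 10 ^ 9) : β ^ 2 ≤ β / 10 ^ 9 := by nlinarith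

theorem sq2 (a b : ℝ) : (a + b) ^ 2 ≤ 2 * (a * a) + 2 * b ^ 2 := by nlinarith [sq_nonneg (a - b)]

theorem eu_core (β C S D r d : ℝ) (hβ : 0 < β) (hβ1 : β ≤ 1 / 10 ^ 9) (hS0 : 0 ≤ S)
    (hS1 : S ≤ 2001 / 1000 * β) (hC0 : 1 - 3 * β ^ 2 ≤ C) (hC1 : C ≤ 1) (hD0 : 0 ≤ D)
    (hD : D ≤ β / 10 ^ 6) (hr0 : 0 ≤ r) (hr1 : r ≤ 16 / 10 * β ^ 2) (hd : |d| ≤ 2 * D) :
    (2 * C + r + (S * d - 200 * (β ^ 2 * D + D ^ 2))) ^ 2 ≤
      (2 * C + r) ^ 2 + (r - 2 * S) ^ 2 - (2 * S - r - d) ^ 2 := by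
  have hb2 : β ^ 2 ≤ β / 10 ^ 9 := sqb hβ hβ1
  have hb0 : 0 ≤ β ^ 2 := sq_nonneg β
  have hX0 : 0 ≤ β ^ 2 * D := mul_nonneg hb0 hD0
  have hY0 : 0 ≤ D ^ 2 := sq_nonneg D
  have hX1 : β ^ 2 * D ≤ (1 / 10 ^ 3) * (1 / 10 ^ 3) :=
    mul_le_mul (by linarith) (by linarith) hD0 (by norm_num)
  have hY1 : D ^ 2 ≤ (1 / 10 ^ 3) ^ 2 := pow_le_pow_left₀ hD0 (by linarith) 2
  obtain ⟨M, hM⟩ : ∃ M, M = 200 * (β ^ 2 * D + D ^ 2) := ⟨_, rfl⟩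
  rw [← hM]
  have hM0 : 0 ≤ M := by linarith
  have hM1 : M ≤ 1 / 2 := by linarith
  have h1 : (-(1 - C) * S) * d ≤ (β ^ 2 / 10) * (2 * D) := by
    refine mul_le_of_abs ?_ hd
    have a0 : 0 ≤ (1 - C) * S := mul_nonneg (by linarith) hS0
    have a1 : (1 - C) * S ≤ (3 * β ^ 2) * (1 / 100) :=
      mul_le_mul (by linarith) (by linarith) hS0 (by linarith)
    rw [abs_le]; constructor <;> linarith
  have h2 : (r * (1 + S)) * d ≤ (17 / 10 * β ^ 2) * (2 * D) := by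
    refine mul_le_of_abs ?_ hd
    have a0 : 0 ≤ r * (1 + S) := mul_nonneg hr0 (by linarith)
    have a1 : r * (1 + S) ≤ (16 / 10 * β ^ 2) * (101 / 100) :=
      mul_le_mul hr1 (by linarith) (by linarith) (by linarith)
    rw [abs_le]; constructor <;> linarith
  have h3 : d * d ≤ (2 * D) * (2 * D) := mul_le_of_abs hd hd
  have h4 : |S * d| ≤ D / 2 := by
    rw [abs_mul, abs_of_nonneg hS0]
    have : S * |d| ≤ (1 / 4) * (2 * D) := mul_le_mul (by linarith) hd (abs_nonneg _) (by norm_num)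
    linarith
  have h5 : (S * d) * (S * d) ≤ (D / 2) * (D / 2) := mul_le_of_abs h4 h4
  have h6 : M * M ≤ (1 / 2) * M := mul_le_mul_of_nonneg_right hM1 hM0
  have h7 : (S * d - M) ^ 2 ≤ 2 * ((S * d) * (S * d)) + 2 * (M * M) := by
    linarith [sq2 (S * d) (-M)]
  have h8 : (19 / 10) * M ≤ (2 * C + r) * M := mul_le_mul_of_nonneg_right (by linarith) hM0
  have key : (2 * C + r + (S * d - M)) ^ 2 -
      ((2 * C + r) ^ 2 + (r - 2 * S) ^ 2 - (2 * S - r - d) ^ 2) =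
      4 * ((-(1 - C) * S) * d) + 2 * ((r * (1 + S)) * d) + d * d + (S * d - M) ^ 2 -
        2 * ((2 * C + r) * M) := by ring
  linarith

/-- the lower bound for `τ` -/
theorem tau (a b d1 d2 D : ℝ) (ha : 199 / 100 ≤ a) (hb : |b| ≤ 101 / 100) (hD1 : D ≤ 1 / 100)
    (hd1 : -(1 / 10) ≤ d1) (hd2 : |d2| ≤ 2 * D)
    (H : a ^ 2 + b ^ 2 ≤ (a + d1) ^ 2 + (b + d2) ^ 2) : -(2 * D) ≤ d1 := by
  have hD0 : 0 ≤ D := by linarith [abs_nonneg d2]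
  by_contra hc
  have hc' : d1 < -(2 * D) := not_le.1 hc
  have h1 : b * d2 ≤ (101 / 100) * (2 * D) := mul_le_of_abs hb hd2
  have h2 : d2 * d2 ≤ (1 / 50) * (2 * D) := mul_le_of_abs (by linarith) hd2
  have h3 : (38 / 10) * (-d1) ≤ (2 * a + d1) * (-d1) :=
    mul_le_mul_of_nonneg_right (by linarith) (by linarith)
  linarith

/-- the upper bound for `ζ2` -/
theorem top (β s x y : ℝ) (hβ : 0 < β) (hβ1 : β ≤ 1 / 10 ^ 9) (hs : s ≤ 81 / 1000 * β)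
    (hx0 : -1 ≤ x) (hx1 : x ≤ 2 / 1000 * β) (hy : y ≤ 1 / 10)
    (H : 2 - s ≤ (1 + x) ^ 2 + (y - 1) ^ 2) : y ≤ 9 / 100 * β := by
  by_contra hc
  have hc' : 9 / 100 * β < y := not_le.1 hc
  have h1 : (1 + x) ^ 2 ≤ (1 + 2 / 1000 * β) ^ 2 := pow_le_pow_left₀ (by linarith) (by linarith) 2
  have h2 : (19 / 10) * y ≤ (2 - y) * y := mul_le_mul_of_nonneg_right (by linarith) (by linarith)
  have hb2 : β ^ 2 ≤ β / 10 ^ 9 := sqb hβ hβ1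
  linarith

/-- the lower bound for `ζ2` -/
theorem bot (P v w u : ℝ) (hP : 98 / 100 ≤ P) (hv : -(3 / 100) ≤ v)
    (H : u ^ 2 + P ^ 2 ≤ w ^ 2 + (P + v) ^ 2) : -(52 / 100 * w ^ 2) ≤ v := by
  by_contra hc
  have hc' : v < -(52 / 100 * w ^ 2) := not_le.1 hc
  have hw := sq_nonneg w
  have hu := sq_nonneg u
  have h1 : (193 / 100) * (-v) ≤ (2 * P + v) * (-v) :=
    mul_le_mul_of_nonneg_right (by linarith) (by linarith)
  linarith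

/-- the main inequality for `r` -/
theorem mid (C S r x y μ : ℝ) (h1 : -(r + 2 * S + μ) ≤ y) (h2 : y ≤ r + 2 * S + μ)
    (H : (2 * C + r) ^ 2 + (r - 2 * S) ^ 2 ≤ (x + 2 * C) ^ 2 + y ^ 2) :
    4 * (C * (r - x)) ≤ x ^ 2 + (4 * S + μ) * (2 * r + μ) := by
  have h3 : y ^ 2 ≤ (r + 2 * S + μ) ^ 2 := sq_le_sq' h1 h2
  linarith [sq_nonneg r]

end ZetaAux

open ZetaAux

theorem sEU : SEU := by
  intro β C S D r p1 p2 L ζ1 ζ2 hβ hβ1 hS0 hS1 hC0 hC1 hD hr0 hr1 hp1 hp2 hL hz1 hz2 hz3 H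
  obtain ⟨p1a, p1b⟩ := abs_le.1 hp1
  obtain ⟨p2a, p2b⟩ := abs_le.1 hp2
  obtain ⟨La, Lb⟩ := abs_le.1 hL
  have hD0 : 0 ≤ D := by linarith
  have hb2 : β ^ 2 ≤ β / 10 ^ 9 := sqb hβ hβ1
  have hd : |L - p2| ≤ 2 * D := by rw [abs_le]; constructor <;> linarith
  have hc := eu_core β C S D r (L - p2) hβ hβ1 (by linarith) hS1 hC0 hC1 hD0 hD hr0 hr1 hd
  have hy : (ζ2 - 2 * S - p2) ^ 2 ≤ (2 * S - r - (L - p2)) ^ 2 :=
    sq_le_sq' (by linarith) (by linarith)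
  have hA : 0 ≤ ζ1 + 2 * C - p1 := by linarith
  have h := abs_le_of_sq_le_sq' (a := 2 * C + r + (S * (L - p2) - 200 * (β ^ 2 * D + D ^ 2)))
    (b := ζ1 + 2 * C - p1) (by linarith) hA
  linarith [h.2]

theorem sZeta : SZeta := by
  intro β C S D r p1 p2 L τ Tx Ty f1 f2 ζ1 ζ2 hβ hβ1 hS0 hS1 hC0 hC1 hD hr0 hr1 hp1 hp2 hL
    hTx0 hTx1 hTy0 hTy1 hτ hTτ hf10 hf11 hf20 hf21 hz1 hz2 hz3 H1 H2 H3 H4
  obtain ⟨p1a, p1b⟩ := abs_le.1 hp1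
  obtain ⟨p2a, p2b⟩ := abs_le.1 hp2
  obtain ⟨La, Lb⟩ := abs_le.1 hL
  obtain ⟨τa, τb⟩ := abs_le.1 hτ
  obtain ⟨z1a, z1b⟩ := abs_le.1 hz1
  obtain ⟨z2a, z2b⟩ := abs_le.1 hz2
  have hD0 : 0 ≤ D := by linarith
  have hb0 : 0 ≤ β ^ 2 := sq_nonneg β
  have hb2 : β ^ 2 ≤ β / 10 ^ 9 := sqb hβ hβ1
  have hd : |L - p2| ≤ 2 * D := by rw [abs_le]; constructor <;> linarith
  have G1 : -(3 * D) ≤ τ := by
    clear H2 H3 H4
    have := tau (Tx + 2 * C) (Ty - 2 * S) (τ - p1) (L - p2) D (by linarith)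
      (by rw [abs_le]; constructor <;> linarith) (by linarith) (by linarith) hd
      (by
        have e1 : Tx + 2 * C + (τ - p1) = Tx + 2 * C + τ - p1 := by ring
        have e2 : Ty - 2 * S + (L - p2) = Ty - 2 * S + L - p2 := by ring
        rw [e1, e2]; exact H1)
    linarith
  clear H1
  have G5 : ζ2 ≤ 41 / 10 * β := by
    clear H2 H3
    have hs : S * r ≤ (2001 / 1000 * β) * (1 / 100) :=
      mul_le_mul hS1 hr1 hr0 (by linarith)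
    have := top β (4 * S * r) (ζ1 - f1) (ζ2 - f2) hβ hβ1 (by linarith) (by linarith)
      (by linarith) (by linarith)
      (by
        have e1 : 1 + (ζ1 - f1) = ζ1 + 1 - f1 := by ring
        have e2 : ζ2 - f2 - 1 = ζ2 - 1 - f2 := by ring
        rw [e1, e2]; exact H4)
    linarith
  clear H4
  obtain ⟨w, hw⟩ : ∃ w, w = ζ1 - Tx - τ := ⟨_, rfl⟩
  have hw0 : 0 ≤ w ^ 2 := sq_nonneg w
  have hv : -(52 / 100 * w ^ 2) ≤ ζ2 - L + r := by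
    refine bot (-r - Ty) (ζ2 - L + r) w (r - Tx) (by linarith) (by linarith) ?_
    have e1 : -r - Ty + (ζ2 - L + r) = ζ2 - Ty - L := by ring
    rw [e1, hw]; exact H3
  clear H3
  obtain ⟨μ, hμ⟩ : ∃ μ, μ = 2 * D + 52 / 100 * w ^ 2 := ⟨_, rfl⟩
  have hμ0 : 0 ≤ μ := by linarith
  have hm : 4 * (C * (r - (ζ1 - p1))) ≤ (ζ1 - p1) ^ 2 + (4 * S + μ) * (2 * r + μ) := by
    refine mid C S r (ζ1 - p1) (ζ2 - 2 * S - p2) μ (by linarith) (by linarith) ?_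
    have e1 : ζ1 - p1 + 2 * C = ζ1 + 2 * C - p1 := by ring
    rw [e1]; exact H2
  clear H2 hp1 hp2 hL hτ hz1 hz2 hd
  obtain ⟨n, hn0, hn1, hn2, hn3⟩ : ∃ n : ℝ, 0 ≤ n ∧ -ζ1 ≤ n ∧ n ≤ 1 / 100 ∧
      (n = -ζ1 ∨ n = 0) := by
    rcases le_total ζ1 0 with h | h
    · exact ⟨-ζ1, by linarith, le_rfl, by linarith, Or.inl rfl⟩
    · exact ⟨0, le_rfl, by linarith, by norm_num, Or.inr rfl⟩
  have hwn : w ^ 2 ≤ (n + 202 / 100 * β) ^ 2 := sq_le_sq' (by linarith) (by linarith)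
  have hnn : n * n ≤ (1 / 100) * n := mul_le_mul_of_nonneg_right hn2 hn0
  have hw2 : w ^ 2 ≤ 2 * (n * n) + 9 * β ^ 2 := by linarith [sq2 n (202 / 100 * β)]
  have hμ1 : 4 * S + μ ≤ 2 / 10000 := by linarith
  have hprod : (4 * S + μ) * (2 * r + μ) ≤ (2 / 10000) * (2 * r + μ) :=
    mul_le_mul_of_nonneg_right hμ1 (by linarith)
  have hx2 : (ζ1 - p1) ^ 2 ≤ (2 / 100) * (n + D + 2 * β ^ 2) := by
    have a1 : |ζ1 - p1| ≤ 2 / 100 := by rw [abs_le]; constructor <;> linarith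
    have a2 : |ζ1 - p1| ≤ n + D + 2 * β ^ 2 := by rw [abs_le]; constructor <;> linarith
    have := mul_le_of_abs a1 a2
    linarith [sq (ζ1 - p1)]
  have hrn : r + n ≤ 3 * D + 4 * β ^ 2 := by
    by_contra hc
    have hc' : 3 * D + 4 * β ^ 2 < r + n := not_le.1 hc
    have a1 : r + n - D - 152 / 100 * β ^ 2 ≤ r - (ζ1 - p1) := by
      rcases hn3 with h | h <;> linarith
    have a2 : (99 / 100) * (r - (ζ1 - p1)) ≤ C * (r - (ζ1 - p1)) :=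
      mul_le_mul_of_nonneg_right (by linarith) (by linarith)
    linarith
  have hn4 : n ≤ β / 10 ^ 5 := by linarith
  have hnn2 : n * n ≤ (β / 10 ^ 5) * (β / 10 ^ 5) := mul_le_mul hn4 hn4 hn0 (by linarith)
  have hw3 : w ^ 2 ≤ 10 * β ^ 2 := by linarith
  refine ⟨G1, by linarith, by linarith, by linarith, G5, fun hp => ?_⟩
  by_contra hc
  have hc' : 16 / 10 * β ^ 2 < r := not_le.1 hc
  have a1 : |ζ1 - p1| ≤ β / 1000 := by rw [abs_le]; constructor <;> linarith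
  have a2 := mul_le_of_abs a1 a1
  have a3 : (4 * S + μ) * (2 * r + μ) ≤ (9 * β) * (β / 10000) :=
    mul_le_mul (by linarith) (by linarith) (by linarith) (by linarith)
  have a4 : (99 / 100) * (r - (ζ1 - p1)) ≤ C * (r - (ζ1 - p1)) :=
    mul_le_mul_of_nonneg_right (by linarith) (by linarith)
  have hbp : 0 < β ^ 2 := by positivity
  linarith

end Pool.Agent.P.MP_dba4bb_co.Ex
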