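import Pool.Agent.P.MP_dba4bb_co.Ex.S4
import Pool.Agent.P.MP_dba4bb_co.Ex.Zeta
import Pool.Agent.P.MP_dba4bb_co.Ex.EL
import Pool.Agent.P.MP_dba4bb_co.Ex.Cone
import Pool.Agent.P.MP_dba4bb_co.Ex.Tools

/-! The estimate for the arm E. -/

namespace Pool.Agent.P.MP_dba4bb_co.Ex

theorem es_T {β C S x y : ℝ} (b0 : 0 < β) (b1 : β ≤ 1 / 10 ^ 9) (S0 : 1999 / 1000 * β ≤ S)
    (S1 : S ≤ 2001 / 1000 * β) (C0 : 1 - 3 * β ^ 2 ≤ C) (C1 : C ≤ 1)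
    (hx : |x - 2 * β| ≤ β / 1000) (hy : |y| ≤ β / 1000) :
    -(201 / 100 * β) ≤ C * y + S * (x - 1) ∧ C * y + S * (x - 1) ≤ -(199 / 100 * β) ∧
      -1 ≤ -S * y + C * (x - 1) ∧ -S * y + C * (x - 1) ≤ -(99 / 100) ∧
      -C * |y| + S * (x - 1) ≤ C * y + S * (x - 1) ∧
      -S * y + C * (x - 1) ≤ S * |y| + C * (x - 1) ∧
      S * |y| + C * (x - 1) ≤ -S * y + C * (x - 1) + β ^ 2 / 100 := by
  obtain ⟨x0, x1⟩ := abs_le.1 hx
  have y0 := neg_abs_le y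
  have y1 := le_abs_self y
  have y2 := abs_nonneg y
  have bb : β ^ 2 ≤ β / 10 ^ 9 := by nlinarith
  have Cp : 999 / 1000 ≤ C := by linarith
  have Sp : 0 ≤ S := by linarith
  have a1 : C * y ≤ C * |y| := mul_le_mul_of_nonneg_left y1 (by linarith)
  have a2 : C * -|y| ≤ C * y := mul_le_mul_of_nonneg_left y0 (by linarith)
  have a3 : C * |y| ≤ 1 * |y| := mul_le_mul_of_nonneg_right C1 y2
  have a4 : S * y ≤ S * |y| := mul_le_mul_of_nonneg_left y1 Sp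
  have a5 : S * -|y| ≤ S * y := mul_le_mul_of_nonneg_left y0 Sp
  have a6 : S * |y| ≤ 2001 / 1000 * β * (β / 1000) := mul_le_mul S1 hy y2 (by linarith)
  have a7 : 0 ≤ S * x := mul_nonneg Sp (by linarith)
  have a8 : S * x ≤ 2001 / 1000 * β * (2001 / 1000 * β) :=
    mul_le_mul S1 (by linarith) (by linarith) (by linarith)
  have a9 : C * (1 - x) ≤ 1 * (1 - x) := mul_le_mul_of_nonneg_right C1 (by linarith)
  have a10 : 999 / 1000 * (1 - x) ≤ C * (1 - x) := mul_le_mul_of_nonneg_right Cp (by linarith)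
  refine ⟨?_, ?_, ?_, ?_, ?_, ?_, ?_⟩ <;> nlinarith

theorem es_near {β u v : ℝ} (b0 : 0 < β) (h : (u - v) ^ 2 ≤ 164 / 100 * β ^ 2)
    (hv : 1 - β / 100 ≤ v) : 1 - 13 / 10 * β ≤ u := by
  have : |u - v| ≤ 129 / 100 * β := abs_le_of_sq_le_sq' (by nlinarith) (by linarith) |> abs_le.2
  linarith [(abs_le.1 this).1]

/-- the image of the auxiliary point lies on the face `V = 1` -/
theorem es_face {β n w : ℝ} {q : P3} (b0 : 0 < β) (b1 : β ≤ 1 / 10 ^ 9) (hq : q ∈ Sf)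
    (hn : n ≤ β / 100) (hw : w ≤ β / 100) (h1 : e2 q (1, 1 - n, 1 - w) ≤ 164 / 100 * β ^ 2)
    (h2 : e2 (-1, 1, -1) q ≤ 8 - 7 * β) :
    ∃ α ω : ℝ, 0 ≤ α ∧ α ≤ 13 / 10 * β ∧ 0 ≤ ω ∧ ω ≤ 13 / 10 * β ∧ q = (1 - α, 1, 1 - ω) := by
  obtain ⟨U, V, W⟩ := q
  obtain ⟨⟨-, u1⟩, ⟨-, v1⟩, ⟨-, w1⟩, h⟩ := hq
  simp only [e2] at *
  have s1 := sq_nonneg (U - 1)
  have s2 := sq_nonneg (V - (1 - n))
  have s3 := sq_nonneg (W - (1 - w))
  have s4 := sq_nonneg (1 - V)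
  have hU := es_near (u := U) (v := 1) b0 (by linarith) (by linarith)
  have hV := es_near (u := V) (v := 1 - n) b0 (by linarith) (by linarith)
  have hW := es_near (u := W) (v := 1 - w) b0 (by linarith) (by linarith)
  have e : V = 1 := by
    rcases h with e | e | e | e | e | e
    · exfalso; rw [e] at h2; nlinarith
    · exfalso; linarith
    · exact e
    · exfalso; linarith
    · exfalso; rw [e] at h2; nlinarith
    · exfalso; linarith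
  exact ⟨1 - U, 1 - W, by linarith, by linarith, by linarith, by linarith, by simp [e]⟩

theorem es_lt {β C S α ω : ℝ} (b0 : 0 < β) (b1 : β ≤ 1 / 10 ^ 9) (S0 : 0 ≤ S)
    (S1 : S ≤ 2001 / 1000 * β) (C0 : 0 ≤ C) (C1 : C ≤ 1) (a0 : 0 ≤ α) (a1 : α ≤ 13 / 10 * β)
    (w0 : 0 ≤ ω) (w1 : ω ≤ 13 / 10 * β) :
    |C * (α + ω) / 2 - S * (ω - α) / 2| ≤ 3 / 2 * β ∧
      |S * (α + ω) / 2 + C * (ω - α) / 2| ≤ 3 / 2 * β := by
  have S2 : S ≤ 1 / 100 := by linarith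
  have c1 := mul_nonneg C0 a0
  have c2 := mul_nonneg C0 w0
  have c3 := mul_nonneg S0 a0
  have c4 := mul_nonneg S0 w0
  have c5 := mul_le_mul_of_nonneg_right C1 a0
  have c6 := mul_le_mul_of_nonneg_right C1 w0
  have c7 := mul_le_mul_of_nonneg_right S2 a0
  have c8 := mul_le_mul_of_nonneg_right S2 w0
  constructor <;> rw [abs_le] <;> constructor <;> linarith

theorem es_d1 {β a b : ℝ} (b0 : 0 < β) (b1 : β ≤ 1 / 10 ^ 9) (a0 : -(β / 50) ≤ a)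
    (a1 : a ≤ 152 / 100 * β ^ 2) (c0 : -(β / 40) ≤ b) (c1 : b ≤ 16 / 10 * β ^ 2) :
    (a + 9 / 10 * β) ^ 2 + b ^ 2 ≤ 82 / 100 * β ^ 2 := by
  have bb : β ^ 2 ≤ β / 10 ^ 9 := by nlinarith
  have h1 : (a + 9 / 10 * β) ^ 2 ≤ (901 / 1000 * β) ^ 2 := sq_le_sq' (by linarith) (by linarith)
  have h2 : b ^ 2 ≤ (β / 40) ^ 2 := sq_le_sq' (by linarith) (by linarith)
  nlinarith

theorem es_d2 {β a b : ℝ} (b0 : 0 < β) (b1 : β ≤ 1 / 10 ^ 9) (a0 : 0 ≤ a)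
    (a1 : a ≤ 2 - 89 / 100 * β) (c0 : -(5 * β) ≤ b) (c1 : b ≤ 5 * β) :
    a ^ 2 + b ^ 2 ≤ 4 - 7 / 2 * β := by
  have bb : β ^ 2 ≤ β / 10 ^ 9 := by nlinarith
  have h1 : a ^ 2 ≤ (2 - 89 / 100 * β) ^ 2 := sq_le_sq' (by linarith) a1
  have h2 : b ^ 2 ≤ (5 * β) ^ 2 := sq_le_sq' c0 c1
  nlinarith

theorem sES : SES := by
  intro k a b F β C S D ρ x y o1 o2 p1 p2 τ L ζ1 ζ2 f1 f2 h hk b0 b1 S0 S1 C0 C1 hD r0 r1 hx hy
    hp1 hp2 hL hτ hT f10 f11 f20 f21 z1 z2 z3 n4 nz nt n1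
  obtain ⟨T1, T2, T3, T4, T5, T6, T7⟩ := es_T b0 b1 S0 S1 C0 C1 hx hy
  have k1 := h.one_le
  have bb : β ^ 2 ≤ β / 10 ^ 9 := by nlinarith
  have Sp : 0 ≤ S := by linarith
  have Cp : 0 ≤ C := by linarith
  have x0 : 0 ≤ x := by linarith [(abs_le.1 hx).1]
  have k2 : k ≤ 2 := by nlinarith
  have kr0 : ρ ≤ k * ρ := le_mul_of_one_le_left r0 k1
  have kr1 : k * ρ ≤ 1 / 100 := by nlinarith
  have cr0 : 0 ≤ C * ρ := mul_nonneg Cp r0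
  have sr0 : 0 ≤ S * ρ := mul_nonneg Sp r0
  have cr1 : C * ρ ≤ ρ := mul_le_of_le_one_left r0 C1
  have sr1 : S * ρ ≤ C * ρ := mul_le_mul_of_nonneg_right (by linarith) r0
  have nz' : F (o1 + 2 * C + ζ1, o2 - 2 * S + ζ2) =
      cp (1 - C * ρ) (1 - (1 - C * ρ)) (1 - S * ρ) := by rw [nz, sub_sub_cancel]
  have t1 := h.v4 n4 nt
  have t2 := h.v4N' n4 nz' (by linarith) (by linarith)
  have t3 := h.hN nz' nt (by linarith) (by linarith)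
  have t4 := h.eu nz n1
  rw [abs_of_nonneg x0] at t1
  simp only [d2] at t1 t2 t3 t4
  have u2 : (2 * C + k * ρ) ^ 2 + (k * ρ - 2 * S) ^ 2 ≤
      (ζ1 + 2 * C - p1) ^ 2 + (ζ2 - 2 * S - p2) ^ 2 := by subst hk; linarith
  have u3 : (k * ρ - (C * y + S * (x - 1))) ^ 2 + (-(k * ρ) - (-S * y + C * (x - 1))) ^ 2 ≤
      (ζ1 - (C * y + S * (x - 1)) - τ) ^ 2 + (ζ2 - (-S * y + C * (x - 1)) - L) ^ 2 := by
    subst hk; linarith
  obtain ⟨Z1, Z2, Z3, Z4, Z5, Z6⟩ := sZeta β C S D (k * ρ) p1 p2 L τ _ _ f1 f2 ζ1 ζ2 b0 b1 S0 S1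
    C0 C1 hD (by linarith) kr1 hp1 hp2 hL T1 T2 T3 T4 hτ hT f10 f11 f20 f21 z1 z2 z3
    (by subst hk; linarith) u2 u3
    (by have := sq_nonneg (k * ρ); subst hk; linarith)
  refine ⟨Z2, fun hp => ⟨Z6 hp, fun z4 => ?_⟩⟩
  have r2 := Z6 hp
  rcases le_total (k * ρ + L) ζ2 with c | c
  · exact sEU β C S D _ p1 p2 L ζ1 ζ2 b0 b1 S0 S1 C0 C1 hD (by linarith) r2 hp1 hp2 hL Z3 c Z5 u2
  obtain ⟨p10, p11⟩ := abs_le.1 hp1
  obtain ⟨p20, p21⟩ := abs_le.1 hp2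
  obtain ⟨L0, L1⟩ := abs_le.1 hL
  have nz2 : F (o1 + 2 * C + ζ1, o2 - 2 * S + ζ2) = (1, 1 - 2 * (C * ρ), 1 - 2 * (S * ρ)) := by
    rw [nz, cp]; congr 1 <;> [ring; (congr 1 <;> ring)]
  have n4' : F (o1 + p1, o2 + p2) = (-1, 1, -1) := by rw [n4]; norm_num [cp]
  have g1 := h.weak.lip (o1 + 2 * C - 9 / 10 * β, o2 - 2 * S + L) (o1 + 2 * C + ζ1, o2 - 2 * S + ζ2)
  have g2 := h.weak.lip (o1 + p1, o2 + p2) (o1 + 2 * C - 9 / 10 * β, o2 - 2 * S + L)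
  have d1 := es_d1 (a := ζ1) (b := ζ2 - L) b0 b1 Z3 z3 (by linarith) (by linarith)
  have d3 := es_d2 (a := 2 * C - 9 / 10 * β - p1) (b := L - 2 * S - p2) b0 b1 (by linarith)
    (by linarith) (by linarith) (by linarith)
  rw [nz2, one_mul] at g1
  rw [n4', one_mul] at g2
  simp only [d2] at g1 g2
  obtain ⟨α, ω, a0, a1, w0, w1, hq⟩ := es_face (n := 2 * (C * ρ)) (w := 2 * (S * ρ)) b0 b1
    (h.mem (o1 + 2 * C - 9 / 10 * β, o2 - 2 * S + L)) (by linarith) (by linarith) (by linarith)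
    (by linarith)
  have hq' : F (o1 + 2 * C - 9 / 10 * β, o2 - 2 * S + L) =
      cp (1 - α / 2) (-(1 - (1 - α / 2))) (1 - ω / 2) := by
    rw [hq, cp]; congr 1 <;> [ring; (congr 1 <;> ring)]
  obtain ⟨l1, l2⟩ := es_lt b0 b1 Sp S1 Cp C1 a0 a1 w0 w1
  have t5 := h.eu n4 hq'
  have t6 := sCone k a b F h _ _ α ω (2 * (C * ρ)) (2 * (S * ρ)) a0 (by linarith) w0 (by linarith)
    (by linarith) (by linarith) (by linarith) (by linarith) hq nz2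
  simp only [d2] at t5 t6
  refine sEL β C S D _ p1 p2 L τ _ _ _ _ ζ1 ζ2 _ _ b0 b1 S0 S1 C0 C1 hD (by linarith) r2 hp1 hp2 hL
    T1 T2 T3 T4 Z1 hT T5 T6 T7 Z3 z4 (by linarith [sq_nonneg β]) Z4 c l1 l2 u3
    (by subst hk; linarith) (t6.imp (fun t => by subst hk; linarith) fun t => by subst hk; linarith) ?_
  rcases le_total ω α with c' | c'
  · have t7 := h.hE hq' nt (by linarith) (by linarith)
    simp only [d2] at t7
    exact Or.inl (by subst hk; linarith)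
  · have t7 := h.hE2 hq' nt x0
    have t8 := mul_nonneg (zero_le_one.trans k1) (sub_nonneg.2 c')
    simp only [d2] at t7
    exact Or.inr ⟨by subst hk; linarith, by subst hk; linarith⟩

end Pool.Agent.P.MP_dba4bb_co.Ex
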