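import Pool.Agent.P.MP_dba4bb_co.Ex.PinD

/-! Sharpness and pinned nodes near a maximiser. -/

namespace Pool.Agent.P.MP_dba4bb_co.Ex

variable {τ : ℝ} {c : Cfg}

theorem shII0p (h : Lin2 τ c) (e : CsQ c) (hτ : 0 ≤ τ) :
    c.z1Ny - c.p2y - (3 / 2) ≤ 5 * (8 - (3 / 4 * c.z1Ny - 1 / 2 * c.p2y - 7 / 4 * c.z1Ey + 5 / 2 * c.p4y - 1 / 4 * c.z3Wy - 3 / 4 * c.z3Sy - c.s1)) + 205 * τ := by
  linear_combination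
    (42305 / 7464) * h.toLin.p2_p4 + (3599 / 2488) * h.toLin.p2_p3
    + (28647 / 2488) * h.toLin.p2_z1Nv + (18170 / 2177) * h.toLin.p2_k3Wv
    + (493 / 311) * h.toLin.p2_eN1 + (13285 / 2177) * h.toLin.p2_eW1 + (754 / 933) * h.toLin.p2_hN
    + (2621 / 4976) * h.toLin.p4_p3 + (23413 / 2488) * h.toLin.p4_z1Eu
    + (3332 / 311) * h.toLin.p4_k3Sv + (3599 / 2488) * h.toLin.p4_eS2
    + (5278 / 933) * h.toLin.p4_hNv + (5 / 4) * h.toLin.p3_z3Wu + (3599 / 2488) * h.toLin.p3_eS2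
    + (2399 / 622) * h.toLin.z1N_t1N + (111 / 311) * h.toLin.z1N_t2N
    + (10672 / 311) * h.toLin.z1N_gNh + (35 / 4) * h.toLin.z1E_t2E + (15 / 4) * h.toLin.z3S_t2S
    + (1 / 311) * h.toLin.t1W_k2W + (1199 / 311) * h.toLin.t1W_eW1
    + (3599 / 622) * h.toLin.t1S_eS2 + (3332 / 311) * h.toLin.t2S_k3S
    + (82331 / 12440) * h.toLin.k2N_eN1 + (9686 / 1555) * h.toLin.k2N_gNh
    + (2421 / 311) * h.toLin.k2W_k3W + (4844 / 311) * h.toLin.k2W_eW1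
    + (2446 / 2177) * h.toLin.k3W_eW1 + (986 / 1555) * h.toLin.eN1_gN
    + (120640 / 16483) * h.toLin.gN_hN + (9663 / 311) * h.toLin.wRz1N
    + (23413 / 1244) * h.toLin.wRz1E + (5 / 4) * h.toLin.wLz3W + (2399 / 622) * h.toLin.wTt1N
    + (3599 / 1244) * h.toLin.wLt1W + (1199 / 1244) * h.toLin.wTt1W
    + (3599 / 1244) * h.toLin.wLt1S + (3599 / 1244) * h.toLin.wBt1S + (111 / 311) * h.toLin.wTt2N
    + (11329 / 1244) * h.toLin.wBt2S + (35 / 4) * h.toLin.wBt2E + (4843 / 622) * h.toLin.wTk2N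
    + (4843 / 622) * h.toLin.wTk2W + (6664 / 311) * h.toLin.wLk3W + (6664 / 311) * h.toLin.wLk3S
    + (15 / 4) * h.c3 + (53891 / 2488) * e.2.1 + (24601693 / 1318640) * hτ

theorem shII0n (h : Lin2 τ c) (e : CsQ c) (hτ : 0 ≤ τ) :
    -(c.z1Ny - c.p2y - (3 / 2)) ≤ 5 * (8 - (3 / 4 * c.z1Ny - 1 / 2 * c.p2y - 7 / 4 * c.z1Ey + 5 / 2 * c.p4y - 1 / 4 * c.z3Wy - 3 / 4 * c.z3Sy - c.s1)) + 205 * τ := by
  linear_combination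
    (4519 / 840) * h.toLin.p2_p4 + (9 / 56) * h.toLin.p2_p3 + (41827 / 3640) * h.toLin.p2_z1Nv
    + (481 / 49) * h.toLin.p2_k3Wv + (5321 / 3185) * h.toLin.p2_eN1
    + (696 / 3185) * h.toLin.p2_eN2 + (251 / 49) * h.toLin.p2_eW1 + (626 / 735) * h.toLin.p2_hN
    + (131 / 112) * h.toLin.p4_p3 + (603 / 56) * h.toLin.p4_z1Eu + (90 / 7) * h.toLin.p4_k3Sv
    + (9 / 56) * h.toLin.p4_eS2 + (626 / 105) * h.toLin.p4_hNv + (5 / 4) * h.toLin.p3_z3Wu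
    + (9 / 56) * h.toLin.p3_eS2 + (3 / 7) * h.toLin.z1N_t1N + (10 / 7) * h.toLin.z1N_t2N
    + (2088 / 3185) * h.toLin.z1N_eN2 + (115184 / 3185) * h.toLin.z1N_gNh
    + (35 / 4) * h.toLin.z1E_t2E + (15 / 4) * h.toLin.z3S_t2S + (3 / 7) * h.toLin.t1W_eW1
    + (9 / 14) * h.toLin.t1S_eS2 + (90 / 7) * h.toLin.t2S_k3S
    + (888607 / 127400) * h.toLin.k2N_eN1 + (2784 / 3185) * h.toLin.k2N_eN2
    + (104542 / 15925) * h.toLin.k2N_gNh + (121 / 14) * h.toLin.k2W_k3W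
    + (121 / 7) * h.toLin.k2W_eW1 + (115 / 49) * h.toLin.k3W_eW1
    + (10642 / 15925) * h.toLin.eN1_gN + (20032 / 2597) * h.toLin.gN_hN
    + (445 / 14) * h.toLin.wRz1N + (603 / 28) * h.toLin.wRz1E + (5 / 4) * h.toLin.wLz3W
    + (3 / 7) * h.toLin.wTt1N + (9 / 28) * h.toLin.wLt1W + (3 / 28) * h.toLin.wTt1W
    + (9 / 28) * h.toLin.wLt1S + (9 / 28) * h.toLin.wBt1S + (10 / 7) * h.toLin.wTt2N
    + (285 / 28) * h.toLin.wBt2S + (35 / 4) * h.toLin.wBt2E + (121 / 14) * h.toLin.wTk2N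
    + (121 / 14) * h.toLin.wTk2W + (180 / 7) * h.toLin.wLk3W + (180 / 7) * h.toLin.wLk3S
    + (15 / 4) * h.c3 + (1177 / 56) * e.2.1 + (243541001 / 13504400) * hτ

theorem shII1p (h : Lin2 τ c) (e : CsQ c) (hτ : 0 ≤ τ) :
    c.z1Ey - c.p4y - (-7 / 2) ≤ 5 * (8 - (3 / 4 * c.z1Ny - 1 / 2 * c.p2y - 7 / 4 * c.z1Ey + 5 / 2 * c.p4y - 1 / 4 * c.z3Wy - 3 / 4 * c.z3Sy - c.s1)) + 205 * τ := by
  linear_combination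
    (56367 / 11320) * h.toLin.p2_p4 + (257 / 283) * h.toLin.p2_p3
    + (11173 / 1132) * h.toLin.p2_z1Nv + (4189 / 566) * h.toLin.p2_k3Wv
    + (459 / 283) * h.toLin.p2_eN1 + (1528 / 283) * h.toLin.p2_eW1 + (1044 / 1415) * h.toLin.p2_hN
    + (901 / 1132) * h.toLin.p4_p3 + (9651 / 1132) * h.toLin.p4_z1Eu
    + (5585 / 566) * h.toLin.p4_k3Sv + (257 / 283) * h.toLin.p4_eS2
    + (7308 / 1415) * h.toLin.p4_hNv + (5 / 4) * h.toLin.p3_z3Wu + (257 / 283) * h.toLin.p3_eS2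
    + (2189 / 1132) * h.toLin.z1N_t1N + (1057 / 1132) * h.toLin.z1N_t2N
    + (153 / 283) * h.toLin.z1N_eN1 + (8640 / 283) * h.toLin.z1N_gNh + (31 / 4) * h.toLin.z1E_t2E
    + (15 / 4) * h.toLin.z3S_t2S + (1657 / 566) * h.toLin.t1W_k2W + (133 / 283) * h.toLin.t1W_eW1
    + (1028 / 283) * h.toLin.t1S_eS2 + (5585 / 566) * h.toLin.t2S_k3S
    + (1836 / 283) * h.toLin.k2N_eN1 + (1728 / 283) * h.toLin.k2N_gNh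
    + (6983 / 1132) * h.toLin.k2W_k3W + (10297 / 566) * h.toLin.k2W_eW1
    + (1395 / 566) * h.toLin.k3W_eW1 + (100224 / 14999) * h.toLin.gN_hN
    + (30905 / 1132) * h.toLin.wRz1N + (9651 / 566) * h.toLin.wRz1E + (5 / 4) * h.toLin.wLz3W
    + (2189 / 1132) * h.toLin.wTt1N + (514 / 283) * h.toLin.wLt1W + (133 / 1132) * h.toLin.wTt1W
    + (514 / 283) * h.toLin.wLt1S + (514 / 283) * h.toLin.wBt1S + (1057 / 1132) * h.toLin.wTt2N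
    + (4915 / 566) * h.toLin.wBt2S + (31 / 4) * h.toLin.wBt2E + (2160 / 283) * h.toLin.wTk2N
    + (2160 / 283) * h.toLin.wTk2W + (5585 / 283) * h.toLin.wLk3W + (5585 / 283) * h.toLin.wLk3S
    + (15 / 4) * h.c3 + (10627 / 566) * e.2.1 + (20683581 / 599960) * hτ

theorem shII1n (h : Lin2 τ c) (e : CsQ c) (hτ : 0 ≤ τ) :
    -(c.z1Ey - c.p4y - (-7 / 2)) ≤ 5 * (8 - (3 / 4 * c.z1Ny - 1 / 2 * c.p2y - 7 / 4 * c.z1Ey + 5 / 2 * c.p4y - 1 / 4 * c.z3Wy - 3 / 4 * c.z3Sy - c.s1)) + 205 * τ := by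
  linear_combination
    (68893 / 11320) * h.toLin.p2_p4 + (471 / 566) * h.toLin.p2_p3 + (7221 / 566) * h.toLin.p2_z1Nv
    + (39927 / 3962) * h.toLin.p2_k3Wv + (561 / 283) * h.toLin.p2_eN1
    + (12444 / 1981) * h.toLin.p2_eW1 + (1276 / 1415) * h.toLin.p2_hN
    + (236 / 283) * h.toLin.p4_p3 + (12739 / 1132) * h.toLin.p4_z1Eu
    + (7455 / 566) * h.toLin.p4_k3Sv + (471 / 566) * h.toLin.p4_eS2
    + (8932 / 1415) * h.toLin.p4_hNv + (5 / 4) * h.toLin.p3_z3Wu + (471 / 566) * h.toLin.p3_eS2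
    + (2361 / 1132) * h.toLin.z1N_t1N + (663 / 1132) * h.toLin.z1N_t2N
    + (187 / 283) * h.toLin.z1N_eN1 + (10560 / 283) * h.toLin.z1N_gNh + (39 / 4) * h.toLin.z1E_t2E
    + (15 / 4) * h.toLin.z3S_t2S + (453 / 566) * h.toLin.t1W_k2W + (477 / 283) * h.toLin.t1W_eW1
    + (942 / 283) * h.toLin.t1S_eS2 + (7455 / 566) * h.toLin.t2S_k3S
    + (2244 / 283) * h.toLin.k2N_eN1 + (2112 / 283) * h.toLin.k2N_gNh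
    + (10107 / 1132) * h.toLin.k2W_k3W + (11013 / 566) * h.toLin.k2W_eW1
    + (9105 / 3962) * h.toLin.k3W_eW1 + (122496 / 14999) * h.toLin.gN_hN
    + (39345 / 1132) * h.toLin.wRz1N + (12739 / 566) * h.toLin.wRz1E + (5 / 4) * h.toLin.wLz3W
    + (2361 / 1132) * h.toLin.wTt1N + (471 / 283) * h.toLin.wLt1W + (477 / 1132) * h.toLin.wTt1W
    + (471 / 283) * h.toLin.wLt1S + (471 / 283) * h.toLin.wBt1S + (663 / 1132) * h.toLin.wTt2N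
    + (2925 / 283) * h.toLin.wBt2S + (39 / 4) * h.toLin.wBt2E + (2640 / 283) * h.toLin.wTk2N
    + (2640 / 283) * h.toLin.wTk2W + (7455 / 283) * h.toLin.wLk3W + (7455 / 283) * h.toLin.wLk3S
    + (15 / 4) * h.c3 + (13303 / 566) * e.2.1 + (281599 / 599960) * hτ

theorem shII2p (h : Lin2 τ c) (e : CsQ c) (hτ : 0 ≤ τ) :
    c.z3Wy - c.p2y - (-1 / 2) ≤ 5 * (8 - (3 / 4 * c.z1Ny - 1 / 2 * c.p2y - 7 / 4 * c.z1Ey + 5 / 2 * c.p4y - 1 / 4 * c.z3Wy - 3 / 4 * c.z3Sy - c.s1)) + 205 * τ := by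
  linear_combination
    (5863 / 960) * h.toLin.p2_p4 + (39 / 64) * h.toLin.p2_p3 + (53907 / 5120) * h.toLin.p2_z1Nv
    + (1023 / 112) * h.toLin.p2_k3Wv + (2261 / 1280) * h.toLin.p2_eN1
    + (303 / 56) * h.toLin.p2_eW1 + (519 / 560) * h.toLin.p2_gN + (331 / 420) * h.toLin.p2_hN
    + (313 / 32) * h.toLin.p4_z1Eu + (95 / 8) * h.toLin.p4_k3Sv + (21 / 32) * h.toLin.p4_eS2
    + (331 / 60) * h.toLin.p4_hNv + (1 / 4) * h.toLin.p3_z3Wu + (1 / 16) * h.toLin.p3_k2Wv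
    + (21 / 32) * h.toLin.p3_eS2 + (7 / 4) * h.toLin.z1N_t1N + (15 / 16) * h.toLin.z1N_t2N
    + (2261 / 3840) * h.toLin.z1N_eN1 + (3179 / 80) * h.toLin.z1N_gNh + (35 / 4) * h.toLin.z1E_t2E
    + (15 / 4) * h.toLin.z3S_t2S + (7 / 4) * h.toLin.t1W_eW1 + (21 / 8) * h.toLin.t1S_eS2
    + (95 / 8) * h.toLin.t2S_k3S + (2261 / 320) * h.toLin.k2N_eN1 + (133 / 20) * h.toLin.k2N_gNh
    + (263 / 32) * h.toLin.k2W_k3W + (261 / 16) * h.toLin.k2W_eW1 + (205 / 112) * h.toLin.k3W_eW1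
    + (2648 / 371) * h.toLin.gN_hN + (493 / 16) * h.toLin.wRz1N + (313 / 16) * h.toLin.wRz1E
    + (1 / 4) * h.toLin.wLz3W + (7 / 4) * h.toLin.wTt1N + (21 / 16) * h.toLin.wLt1W
    + (7 / 16) * h.toLin.wTt1W + (21 / 16) * h.toLin.wLt1S + (21 / 16) * h.toLin.wBt1S
    + (15 / 16) * h.toLin.wTt2N + (155 / 16) * h.toLin.wBt2S + (35 / 4) * h.toLin.wBt2E
    + (133 / 16) * h.toLin.wTk2N + (133 / 16) * h.toLin.wTk2W + (95 / 4) * h.toLin.wLk3W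
    + (95 / 4) * h.toLin.wLk3S + (15 / 4) * h.c3 + (673 / 32) * e.2.1 + (103726757 / 5698560) * hτ

theorem shII2n (h : Lin2 τ c) (e : CsQ c) (hτ : 0 ≤ τ) :
    -(c.z3Wy - c.p2y - (-1 / 2)) ≤ 5 * (8 - (3 / 4 * c.z1Ny - 1 / 2 * c.p2y - 7 / 4 * c.z1Ey + 5 / 2 * c.p4y - 1 / 4 * c.z3Wy - 3 / 4 * c.z3Sy - c.s1)) + 205 * τ := by
  linear_combination
    (293 / 60) * h.toLin.p2_p4 + (19 / 16) * h.toLin.p2_p3 + (12185 / 912) * h.toLin.p2_z1Nv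
    + (17 / 48) * h.toLin.p2_z3Wu + 10 * h.toLin.p2_k3Wv + (221 / 209) * h.toLin.p2_eN1
    + 5 * h.toLin.p2_eW1 + (343 / 3135) * h.toLin.p2_hN + (25 / 12) * h.toLin.p4_p3
    + (1061 / 96) * h.toLin.p4_z1Eu + (307 / 24) * h.toLin.p4_k3Sv + (89 / 15) * h.toLin.p4_hNv
    + (9 / 4) * h.toLin.p3_z3Wu + (4 / 3) * h.toLin.p3_gS + (11 / 4) * h.toLin.z1N_t2N
    + (87 / 76) * h.toLin.z1N_eN2 + (520 / 19) * h.toLin.z1N_gNh + (35 / 4) * h.toLin.z1E_t2E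
    + (2683 / 720) * h.toLin.z3S_t2S + (68 / 45) * h.toLin.z3S_gSh
    + (5597 / 360) * h.toLin.t2S_k3S + (221 / 38) * h.toLin.k2N_eN1 + (145 / 38) * h.toLin.k2N_eN2
    + (104 / 19) * h.toLin.k2N_gNh + (35 / 4) * h.toLin.k2W_k3W + (35 / 2) * h.toLin.k2W_eW1
    + (5 / 2) * h.toLin.k3W_eW1 + (128 / 45) * h.toLin.k3S_gSh + (442 / 1045) * h.toLin.eN1_hN
    + (58 / 57) * h.toLin.eN2_hN + (6032 / 1007) * h.toLin.gN_hN + (809 / 24) * h.toLin.wRz1N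
    + (1061 / 48) * h.toLin.wRz1E + (71 / 24) * h.toLin.wLz3W + (17 / 48) * h.toLin.wLz3S
    + (11 / 4) * h.toLin.wTt2N + (23 / 2) * h.toLin.wBt2S + (35 / 4) * h.toLin.wBt2E
    + (35 / 4) * h.toLin.wTk2N + (35 / 4) * h.toLin.wTk2W + (105 / 4) * h.toLin.wLk3W
    + (105 / 4) * h.toLin.wLk3S + (197 / 48) * h.c3 + (725 / 32) * e.2.1
    + (77475253 / 5316960) * hτ

theorem shII3p (h : Lin2 τ c) (e : CsQ c) (hτ : 0 ≤ τ) :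
    c.z3Sy - c.p4y - (-3 / 2) ≤ 5 * (8 - (3 / 4 * c.z1Ny - 1 / 2 * c.p2y - 7 / 4 * c.z1Ey + 5 / 2 * c.p4y - 1 / 4 * c.z3Wy - 3 / 4 * c.z3Sy - c.s1)) + 205 * τ := by
  linear_combination
    (331 / 60) * h.toLin.p2_p4 + (19 / 16) * h.toLin.p2_p3 + (11803 / 906) * h.toLin.p2_z1Nv
    + (17 / 48) * h.toLin.p2_z3Wu + 10 * h.toLin.p2_k3Wv + (1241 / 1510) * h.toLin.p2_eN1
    + (2569 / 3624) * h.toLin.p2_eN2 + 5 * h.toLin.p2_eW1 + (13 / 12) * h.toLin.p4_p3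
    + (1061 / 96) * h.toLin.p4_z1Eu + (307 / 24) * h.toLin.p4_k3Sv + (73 / 15) * h.toLin.p4_hNv
    + (5 / 4) * h.toLin.p3_z3Wu + (4 / 3) * h.toLin.p3_gS + (7 / 4) * h.toLin.z1N_t2N
    + (4029 / 1208) * h.toLin.z1N_eN2 + (3212 / 151) * h.toLin.z1N_gNh
    + (35 / 4) * h.toLin.z1E_t2E + (1963 / 720) * h.toLin.z3S_t2S + (68 / 45) * h.toLin.z3S_gSh
    + (5597 / 360) * h.toLin.t2S_k3S + (13651 / 3020) * h.toLin.k2N_eN1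
    + (2073 / 302) * h.toLin.k2N_eN2 + (3212 / 755) * h.toLin.k2N_gNh + (35 / 4) * h.toLin.k2W_k3W
    + (35 / 2) * h.toLin.k2W_eW1 + (5 / 2) * h.toLin.k3W_eW1 + (128 / 45) * h.toLin.k3S_gSh
    + (1241 / 3775) * h.toLin.eN1_hN + (1460 / 1359) * h.toLin.eN2_hN
    + (186296 / 40015) * h.toLin.gN_hN + (785 / 24) * h.toLin.wRz1N + (1061 / 48) * h.toLin.wRz1E
    + (47 / 24) * h.toLin.wLz3W + (17 / 48) * h.toLin.wLz3S + (7 / 4) * h.toLin.wTt2N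
    + (21 / 2) * h.toLin.wBt2S + (35 / 4) * h.toLin.wBt2E + (35 / 4) * h.toLin.wTk2N
    + (35 / 4) * h.toLin.wTk2W + (105 / 4) * h.toLin.wLk3W + (105 / 4) * h.toLin.wLk3S
    + (149 / 48) * h.c3 + (693 / 32) * e.2.1 + (1424329411 / 57621600) * hτ

theorem shII3n (h : Lin2 τ c) (e : CsQ c) (hτ : 0 ≤ τ) :
    -(c.z3Sy - c.p4y - (-3 / 2)) ≤ 5 * (8 - (3 / 4 * c.z1Ny - 1 / 2 * c.p2y - 7 / 4 * c.z1Ey + 5 / 2 * c.p4y - 1 / 4 * c.z3Wy - 3 / 4 * c.z3Sy - c.s1)) + 205 * τ := by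
  linear_combination
    (167 / 30) * h.toLin.p2_p4 + (11 / 16) * h.toLin.p2_p3 + (11815 / 912) * h.toLin.p2_z1Nv
    + (187 / 912) * h.toLin.p2_z3Wu + 10 * h.toLin.p2_k3Wv + (109 / 110) * h.toLin.p2_eN1
    + 5 * h.toLin.p2_eW1 + (7 / 33) * h.toLin.p2_hN + (263 / 228) * h.toLin.p4_p3
    + (19111 / 1824) * h.toLin.p4_z1Eu + (5897 / 456) * h.toLin.p4_k3Sv
    + (97 / 15) * h.toLin.p4_hNv + (5 / 4) * h.toLin.p3_z3Wu + (44 / 57) * h.toLin.p3_gS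
    + (13 / 4) * h.toLin.z1N_t2N + 32 * h.toLin.z1N_gNh + (35 / 4) * h.toLin.z1E_t2E
    + (64793 / 13680) * h.toLin.z3S_t2S + (748 / 855) * h.toLin.z3S_gSh
    + (99367 / 6840) * h.toLin.t2S_k3S + (109 / 20) * h.toLin.k2N_eN1
    + (159 / 34) * h.toLin.k2N_eN2 + (436 / 85) * h.toLin.k2N_gNh + (35 / 4) * h.toLin.k2W_k3W
    + (35 / 2) * h.toLin.k2W_eW1 + (5 / 2) * h.toLin.k3W_eW1 + (1408 / 855) * h.toLin.k3S_gSh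
    + (109 / 275) * h.toLin.eN1_hN + (36 / 17) * h.toLin.eN2_gN + h.toLin.eN2_hN
    + (1784 / 265) * h.toLin.gN_hN + (15235 / 456) * h.toLin.wRz1N + (19111 / 912) * h.toLin.wRz1E
    + (757 / 456) * h.toLin.wLz3W + (187 / 912) * h.toLin.wLz3S + (13 / 4) * h.toLin.wTt2N
    + 12 * h.toLin.wBt2S + (35 / 4) * h.toLin.wBt2E + (35 / 4) * h.toLin.wTk2N
    + (35 / 4) * h.toLin.wTk2W + (105 / 4) * h.toLin.wLk3W + (105 / 4) * h.toLin.wLk3S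
    + (4519 / 912) * h.c3 + (13943 / 608) * e.2.1 + (269708071 / 23786400) * hτ

theorem fcII (h : Lin2 τ c) (e : CsQ c) (hτ : 0 ≤ τ) (n : NearII c) :
    0 ≤ -8 + (3 / 4 * c.z1Ny - 1 / 2 * c.p2y - 7 / 4 * c.z1Ey + 5 / 2 * c.p4y - 1 / 4 * c.z3Wy - 3 / 4 * c.z3Sy - c.s1) + 71 * τ := by
  obtain ⟨l0, u0, l1, u1, l2, u2, l3, u3, -⟩ := n
  have a0 := sq_le_box (r := (1 / 8)) (by linarith only [l0]) (by linarith only [u0])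
    (shII0p h e hτ) (shII0n h e hτ)
  have a1 := sq_le_box (r := (1 / 8)) (by linarith only [l1]) (by linarith only [u1])
    (shII1p h e hτ) (shII1n h e hτ)
  have a2 := sq_le_box (r := (1 / 8)) (by linarith only [l2]) (by linarith only [u2])
    (shII2p h e hτ) (shII2n h e hτ)
  have a3 := sq_le_box (r := (1 / 8)) (by linarith only [l3]) (by linarith only [u3])
    (shII3p h e hτ) (shII3n h e hτ)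
  linear_combination (8 / 3) * (h.hG + (1 / 4) * (a0 + a1 + a2 + a3) + sq_nonneg (c.s1 - (1 / 2))) +
    0 * hτ

theorem pnII_p2x_p (h : Lin2 τ c) (e : CsQ c) (hτ : 0 ≤ τ)
    (fc : 0 ≤ -8 + (3 / 4 * c.z1Ny - 1 / 2 * c.p2y - 7 / 4 * c.z1Ey + 5 / 2 * c.p4y - 1 / 4 * c.z3Wy - 3 / 4 * c.z3Sy - c.s1) + 71 * τ) :
    0 ≤ (-1 / 2) + 48 * τ + (-c.p2x) := by
  linear_combination
    (49 / 416) * h.toLin.p2_p4 + (329 / 2080) * h.toLin.p2_p3 + (23899 / 47840) * h.toLin.p2_z1Nv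
    + (5779 / 143520) * h.toLin.p2_z3Wv + (23 / 120) * h.toLin.p2_eN1
    + (1369 / 2080) * h.toLin.p4_p3 + (49 / 260) * h.toLin.p4_z1Ev + (3 / 10) * h.toLin.p4_hNv
    + (1283 / 8970) * h.toLin.p3_z3Wu + (12449 / 35880) * h.toLin.p3_k2Wv
    + (48 / 299) * h.toLin.p3_gW + (32 / 65) * h.toLin.p3_gS + (175 / 696) * h.toLin.z1N_k2N
    + (23 / 360) * h.toLin.z1N_eN1 + (9 / 80) * h.toLin.z1N_eN2 + (36 / 29) * h.toLin.z1N_gNh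
    + (7 / 8) * h.toLin.z1E_t2E + (109 / 7176) * h.toLin.z3W_k2W + (272 / 1495) * h.toLin.z3W_gWh
    + (2857 / 7800) * h.toLin.z3S_t2S + (544 / 975) * h.toLin.z3S_gSh
    + (992 / 975) * h.toLin.t2S_k3S + (23 / 30) * h.toLin.k2N_eN1 + (3 / 8) * h.toLin.k2N_eN2
    + (36 / 145) * h.toLin.k2N_gNh + (496 / 1495) * h.toLin.k2W_k3W
    + (512 / 1495) * h.toLin.k3W_gWh + (1024 / 975) * h.toLin.k3S_gSh + (1 / 10) * h.toLin.eN2_hN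
    + (72 / 265) * h.toLin.gN_hN + (6817 / 4485) * h.toLin.wRz1N + (49 / 130) * h.toLin.wRz1E
    + (1228 / 4485) * h.toLin.wLz3W + (17 / 130) * h.toLin.wLz3S + (7 / 8) * h.toLin.wBt2S
    + (7 / 8) * h.toLin.wBt2E + (7 / 8) * h.toLin.wTk2N + (7 / 8) * h.toLin.wTk2W
    + (16 / 65) * h.toLin.wLk3W + (16 / 65) * h.toLin.wLk3S + (7051 / 17940) * h.c3
    + (10253 / 8970) * e.2.1 + (1 / 2) * fc + (2120627401 / 3308853600) * hτ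

theorem pnII_p4x_n (h : Lin2 τ c) (e : CsQ c) (hτ : 0 ≤ τ)
    (fc : 0 ≤ -8 + (3 / 4 * c.z1Ny - 1 / 2 * c.p2y - 7 / 4 * c.z1Ey + 5 / 2 * c.p4y - 1 / 4 * c.z3Wy - 3 / 4 * c.z3Sy - c.s1) + 71 * τ) :
    0 ≤ (-1 / 2) + 49 * τ + (c.p4x) := by
  linear_combination
    (1 / 2) * h.toLin.p2_z3Wv + (1 / 2) * h.toLin.p4_z3Sv + h.toLin.wLz3W + h.toLin.wLz3S
    + (pnII_p2x_p h e hτ fc)

theorem pnII_p2y_n (h : Lin2 τ c) (e : CsQ c) (hτ : 0 ≤ τ)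
    (fc : 0 ≤ -8 + (3 / 4 * c.z1Ny - 1 / 2 * c.p2y - 7 / 4 * c.z1Ey + 5 / 2 * c.p4y - 1 / 4 * c.z3Wy - 3 / 4 * c.z3Sy - c.s1) + 71 * τ) :
    0 ≤ (-1) + 33 * τ + (c.p2y) := by
  linear_combination
    (14973 / 37894) * h.toLin.p2_p4 + (8379 / 18947) * h.toLin.p2_p3
    + (84109 / 227364) * h.toLin.p2_z1Nv + (1657 / 18947) * h.toLin.p2_z3Wv
    + (1537 / 18947) * h.toLin.p2_k3Wv + (326 / 56841) * h.toLin.p2_eN1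
    + (652 / 18947) * h.toLin.p2_eW1 + (357 / 18947) * h.toLin.p4_p3
    + (357 / 37894) * h.toLin.p4_z1Ev + (1533 / 18947) * h.toLin.p3_z3Wu
    + (9408 / 18947) * h.toLin.p3_gS + (8709 / 37894) * h.toLin.z1N_t1N
    + (652 / 56841) * h.toLin.z1N_k2N + (326 / 170523) * h.toLin.z1N_eN1
    + (10731 / 18947) * h.toLin.z1E_t2E + (65671 / 284205) * h.toLin.z3S_t2S
    + (212096 / 284205) * h.toLin.z3S_gSh + (652 / 18947) * h.toLin.t1W_k2W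
    + (1537 / 18947) * h.toLin.t1W_k3W + (652 / 18947) * h.toLin.t1W_eW1
    + (10432 / 56841) * h.toLin.t1S_gSh + (190588 / 284205) * h.toLin.t2S_k3S
    + (1304 / 56841) * h.toLin.k2N_eN1 + (1304 / 18947) * h.toLin.k2W_eW1
    + (196736 / 284205) * h.toLin.k3S_gSh + (14154 / 18947) * h.toLin.wRz1N
    + (357 / 18947) * h.toLin.wRz1E + (4847 / 18947) * h.toLin.wLz3W
    + (3314 / 18947) * h.toLin.wLz3S + (8709 / 37894) * h.toLin.wTt1N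
    + (815 / 18947) * h.toLin.wLt1W + (1863 / 37894) * h.toLin.wTt1W
    + (815 / 18947) * h.toLin.wLt1S + (3423 / 18947) * h.toLin.wBt1S
    + (10731 / 18947) * h.toLin.wBt2S + (10731 / 18947) * h.toLin.wBt2E
    + (326 / 18947) * h.toLin.wTk2N + (326 / 18947) * h.toLin.wTk2W
    + (3074 / 18947) * h.toLin.wLk3W + (3074 / 18947) * h.toLin.wLk3S + (4599 / 18947) * h.c3
    + (13797 / 18947) * e.2.1 + (6132 / 18947) * fc + (1428 / 18947) * (pnII_p2x_p h e hτ fc)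
    + (1925063 / 3410460) * hτ

theorem pnII_p2y_p (h : Lin2 τ c) (e : CsQ c) (hτ : 0 ≤ τ)
    (fc : 0 ≤ -8 + (3 / 4 * c.z1Ny - 1 / 2 * c.p2y - 7 / 4 * c.z1Ey + 5 / 2 * c.p4y - 1 / 4 * c.z3Wy - 3 / 4 * c.z3Sy - c.s1) + 71 * τ) :
    0 ≤ 1 + 43 * τ + (-c.p2y) := by
  linear_combination
    (5327 / 7368) * h.toLin.p2_z1Nv + (2027 / 4298) * h.toLin.p2_k3Wv
    + (182 / 921) * h.toLin.p2_eN1 + (1289 / 2149) * h.toLin.p2_eW1 + (453 / 1228) * h.toLin.p4_p3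
    + (1671 / 2456) * h.toLin.p4_z1Ev + (243 / 2456) * h.toLin.p4_z3Sv
    + (204 / 307) * h.toLin.p4_k3Sv + (51 / 614) * h.toLin.p4_eS2 + (216 / 307) * h.toLin.p4_hNv
    + (147 / 307) * h.toLin.p3_z3Wu + (51 / 614) * h.toLin.p3_eS2 + (24 / 307) * h.toLin.p3_hNv
    + (51 / 307) * h.toLin.z1N_t1N + (346 / 19341) * h.toLin.z1N_eN1
    + (28736 / 6447) * h.toLin.z1N_gNh + (357 / 614) * h.toLin.z1E_t2E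
    + (243 / 614) * h.toLin.z3W_k2W + (153 / 614) * h.toLin.z3S_t2S
    + (102 / 307) * h.toLin.t1W_k2W + (102 / 307) * h.toLin.t1S_eS2
    + (204 / 307) * h.toLin.t2S_k3S + (1411 / 1535) * h.toLin.k2N_eN1
    + (1328 / 1535) * h.toLin.k2N_gNh + (395 / 1228) * h.toLin.k2W_k3W
    + (1289 / 614) * h.toLin.k2W_eW1 + (1289 / 4298) * h.toLin.k3W_eW1
    + (848 / 32235) * h.toLin.eN1_gN + (48 / 1535) * h.toLin.eN1_hN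
    + (15744 / 16271) * h.toLin.gN_hN + (3075 / 1228) * h.toLin.wRz1N
    + (1671 / 1228) * h.toLin.wRz1E + (831 / 1228) * h.toLin.wLz3W + (243 / 1228) * h.toLin.wLz3S
    + (51 / 307) * h.toLin.wTt1N + (51 / 307) * h.toLin.wLt1W + (51 / 307) * h.toLin.wLt1S
    + (51 / 307) * h.toLin.wBt1S + (357 / 614) * h.toLin.wBt2S + (357 / 614) * h.toLin.wBt2E
    + (332 / 307) * h.toLin.wTk2N + (332 / 307) * h.toLin.wTk2W + (408 / 307) * h.toLin.wLk3W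
    + (408 / 307) * h.toLin.wLk3S + (198 / 307) * h.c3 + (351 / 307) * e.2.1 + (102 / 307) * fc
    + (6617075 / 8200584) * hτ

theorem pnII_p4y_p (h : Lin2 τ c) (e : CsQ c) (hτ : 0 ≤ τ)
    (fc : 0 ≤ -8 + (3 / 4 * c.z1Ny - 1 / 2 * c.p2y - 7 / 4 * c.z1Ey + 5 / 2 * c.p4y - 1 / 4 * c.z3Wy - 3 / 4 * c.z3Sy - c.s1) + 71 * τ) :
    0 ≤ 1 + 44 * τ + (-c.p4y) := by
  linear_combination
    (1 / 2) * h.toLin.p2_p4 + (pnII_p2y_p h e hτ fc) + (1 / 2) * hτ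

theorem pnII_p4y_n (h : Lin2 τ c) (e : CsQ c) (hτ : 0 ≤ τ)
    (fc : 0 ≤ -8 + (3 / 4 * c.z1Ny - 1 / 2 * c.p2y - 7 / 4 * c.z1Ey + 5 / 2 * c.p4y - 1 / 4 * c.z3Wy - 3 / 4 * c.z3Sy - c.s1) + 71 * τ) :
    0 ≤ (-1) + 43 * τ + (c.p4y) := by
  linear_combination
    (1 / 2) * h.toLin.p2_p3 + (7352 / 15435) * h.toLin.p2_z1Nv + (437 / 5145) * h.toLin.p2_z3Wv
    + (512 / 5145) * h.toLin.p2_k3Wv + (1034 / 77175) * h.toLin.p2_eN1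
    + (2068 / 25725) * h.toLin.p2_eW1 + (17 / 980) * h.toLin.p4_p3 + (17 / 490) * h.toLin.p4_z1Ev
    + (17 / 490) * h.toLin.p4_eS2 + (1 / 10) * h.toLin.p3_z3Wu + (17 / 490) * h.toLin.p3_eS2
    + (128 / 245) * h.toLin.p3_gS + (2314 / 8575) * h.toLin.z1N_t1N
    + (2068 / 77175) * h.toLin.z1N_k2N + (1034 / 231525) * h.toLin.z1N_eN1
    + (7 / 10) * h.toLin.z1E_t2E + (44557 / 154350) * h.toLin.z3S_t2S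
    + (55936 / 77175) * h.toLin.z3S_gSh + (2068 / 25725) * h.toLin.t1W_k2W
    + (512 / 5145) * h.toLin.t1W_k3W + (2068 / 25725) * h.toLin.t1W_eW1
    + (34 / 245) * h.toLin.t1S_eS2 + (2048 / 15435) * h.toLin.t1S_gSh
    + (63488 / 77175) * h.toLin.t2S_k3S + (4136 / 77175) * h.toLin.k2N_eN1
    + (4136 / 25725) * h.toLin.k2W_eW1 + (65536 / 77175) * h.toLin.k3S_gSh
    + (95 / 98) * h.toLin.wRz1N + (17 / 245) * h.toLin.wRz1E + (2777 / 10290) * h.toLin.wLz3W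
    + (874 / 5145) * h.toLin.wLz3S + (2314 / 8575) * h.toLin.wTt1N + (517 / 5145) * h.toLin.wLt1W
    + (599 / 8575) * h.toLin.wTt1W + (517 / 5145) * h.toLin.wLt1S + (1 / 5) * h.toLin.wBt1S
    + (7 / 10) * h.toLin.wBt2S + (7 / 10) * h.toLin.wBt2E + (1034 / 25725) * h.toLin.wTk2N
    + (1034 / 25725) * h.toLin.wTk2W + (1024 / 5145) * h.toLin.wLk3W
    + (1024 / 5145) * h.toLin.wLk3S + (3 / 10) * h.c3 + (9 / 10) * e.2.1 + (2 / 5) * fc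
    + (4628 / 25725) * (pnII_p2y_p h e hτ fc) + (24671 / 185220) * hτ

theorem pnII_p3x_p (h : Lin2 τ c) (e : CsQ c) (hτ : 0 ≤ τ)
    (fc : 0 ≤ -8 + (3 / 4 * c.z1Ny - 1 / 2 * c.p2y - 7 / 4 * c.z1Ey + 5 / 2 * c.p4y - 1 / 4 * c.z3Wy - 3 / 4 * c.z3Sy - c.s1) + 71 * τ) :
    0 ≤ 0 + 45 * τ + (-c.p3x) := by
  linear_combination
    (1 / 2) * h.toLin.p2_p3 + (1 / 4) * h.toLin.p2_z1Nv + (1 / 2) * h.toLin.p4_p3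
    + (1 / 4) * h.toLin.p4_z1Ev + (1 / 2) * h.toLin.wRz1N + (1 / 2) * h.toLin.wRz1E
    + (1 / 2) * (pnII_p2y_p h e hτ fc) + (1 / 2) * (pnII_p4y_n h e hτ fc) + (1 / 2) * hτ

theorem pnII_p3y_p (h : Lin2 τ c) (e : CsQ c) (hτ : 0 ≤ τ)
    (fc : 0 ≤ -8 + (3 / 4 * c.z1Ny - 1 / 2 * c.p2y - 7 / 4 * c.z1Ey + 5 / 2 * c.p4y - 1 / 4 * c.z3Wy - 3 / 4 * c.z3Sy - c.s1) + 71 * τ) :
    0 ≤ (1 / 2) + 76 * τ + (-c.p3y) := by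
  linear_combination
    (29767 / 71042) * h.toLin.p2_p3 + (2652 / 35521) * h.toLin.p2_eN1
    + (1203 / 35521) * h.toLin.p4_z1Ev + (618 / 35521) * h.toLin.p4_z3Sv
    + (15704 / 35521) * h.toLin.p4_hNv + (15143 / 71042) * h.toLin.p3_z3Wu
    + (8548 / 35521) * h.toLin.p3_k2Wv + (3968 / 35521) * h.toLin.p3_gS
    + (3900 / 35521) * h.toLin.z1N_eN2 + (68640 / 35521) * h.toLin.z1N_gNh
    + (14105 / 71042) * h.toLin.z1E_t2E + (4580 / 35521) * h.toLin.z3W_k2W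
    + (3968 / 35521) * h.toLin.z3W_k3W + (88567 / 1065630) * h.toLin.z3S_t2S
    + (67456 / 532815) * h.toLin.z3S_gSh + (123008 / 532815) * h.toLin.t2S_k3S
    + (14586 / 35521) * h.toLin.k2N_eN1 + (13000 / 35521) * h.toLin.k2N_eN2
    + (13728 / 35521) * h.toLin.k2N_gNh + (3968 / 35521) * h.toLin.k2W_k3W
    + (126976 / 532815) * h.toLin.k3S_gSh + (5304 / 177605) * h.toLin.eN1_hN
    + (10400 / 106563) * h.toLin.eN2_hN + (796224 / 1882613) * h.toLin.gN_hN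
    + (36075 / 71042) * h.toLin.wRz1N + (2406 / 35521) * h.toLin.wRz1E
    + (19723 / 71042) * h.toLin.wLz3W + (2290 / 35521) * h.toLin.wLz3S
    + (14105 / 71042) * h.toLin.wBt2S + (14105 / 71042) * h.toLin.wBt2E
    + (23660 / 35521) * h.toLin.wTk2N + (23660 / 35521) * h.toLin.wTk2W
    + (1984 / 35521) * h.toLin.wLk3W + (1984 / 35521) * h.toLin.wLk3S + (19173 / 71042) * h.c3
    + (31263 / 71042) * e.2.1 + (4030 / 35521) * fc + (23137 / 71042) * (pnII_p2x_p h e hτ fc)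
    + (31785 / 71042) * (pnII_p4x_n h e hτ fc) + (21759 / 71042) * (pnII_p2y_p h e hτ fc)
    + (17147 / 71042) * (pnII_p4y_n h e hτ fc) + (909511 / 28239195) * hτ

theorem pnII_z1Nx_p (h : Lin2 τ c) (e : CsQ c) (hτ : 0 ≤ τ)
    (fc : 0 ≤ -8 + (3 / 4 * c.z1Ny - 1 / 2 * c.p2y - 7 / 4 * c.z1Ey + 5 / 2 * c.p4y - 1 / 4 * c.z3Wy - 3 / 4 * c.z3Sy - c.s1) + 71 * τ) :
    0 ≤ 0 + 0 * τ + (-c.z1Nx) := by
  linear_combination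
    h.toLin.wRz1N

theorem pnII_z1Nx_n (h : Lin2 τ c) (e : CsQ c) (hτ : 0 ≤ τ)
    (fc : 0 ≤ -8 + (3 / 4 * c.z1Ny - 1 / 2 * c.p2y - 7 / 4 * c.z1Ey + 5 / 2 * c.p4y - 1 / 4 * c.z3Wy - 3 / 4 * c.z3Sy - c.s1) + 71 * τ) :
    0 ≤ 0 + 2 * τ + (c.z1Nx) := by
  linear_combination
    (1 / 2) * h.toLin.p2_z1Nv + (1 / 2) * h.toLin.p2_z3Wu + (1 / 4) * h.toLin.p4_z1Ev
    + (1 / 4) * h.toLin.p4_z3Sv + (1 / 2) * h.toLin.wRz1E + h.toLin.wLz3W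
    + (1 / 2) * h.toLin.wLz3S + (1 / 2) * h.c3 + (1 / 2) * e.2.1

theorem pnII_z1Ny_p (h : Lin2 τ c) (e : CsQ c) (hτ : 0 ≤ τ)
    (fc : 0 ≤ -8 + (3 / 4 * c.z1Ny - 1 / 2 * c.p2y - 7 / 4 * c.z1Ey + 5 / 2 * c.p4y - 1 / 4 * c.z3Wy - 3 / 4 * c.z3Sy - c.s1) + 71 * τ) :
    0 ≤ (5 / 2) + 36 * τ + (-c.z1Ny) := by
  linear_combination
    (630493 / 1172660) * h.toLin.p2_p3 + (2232921 / 4690640) * h.toLin.p2_z1Nv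
    + (46035 / 234532) * h.toLin.p2_z3Wv + (3465 / 234532) * h.toLin.p2_k3Wv
    + (296539 / 2931650) * h.toLin.p2_eN1 + (139237 / 1465825) * h.toLin.p2_eW1
    + (1023 / 117266) * h.toLin.p3_z3Wu + (2207 / 17245) * h.toLin.p3_k2Wv
    + (46320 / 58633) * h.toLin.p3_gS + (9364649 / 11726600) * h.toLin.z1N_t1N
    + (296539 / 1465825) * h.toLin.z1N_k2N + (296539 / 8794950) * h.toLin.z1N_eN1
    + (7161 / 117266) * h.toLin.z1E_t2E + (98208 / 58633) * h.toLin.z3S_gSh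
    + (326832 / 1465825) * h.toLin.t1W_k2W + (3465 / 234532) * h.toLin.t1W_k3W
    + (139237 / 1465825) * h.toLin.t1W_eW1 + (45712 / 58633) * h.toLin.t1S_gSh
    + (7161 / 58633) * h.toLin.t2S_k3S + (593078 / 1465825) * h.toLin.k2N_eN1
    + (278474 / 1465825) * h.toLin.k2W_eW1 + (7392 / 58633) * h.toLin.k3S_gSh
    + (126473 / 117266) * h.toLin.wRz1N + (23529 / 58633) * h.toLin.wLz3W
    + (46035 / 117266) * h.toLin.wLz3S + (9364649 / 11726600) * h.toLin.wTt1N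
    + (42855 / 234532) * h.toLin.wLt1W + (365099 / 11726600) * h.toLin.wTt1W
    + (42855 / 234532) * h.toLin.wLt1S + (179991 / 234532) * h.toLin.wBt1S
    + (7161 / 117266) * h.toLin.wBt2S + (7161 / 117266) * h.toLin.wBt2E
    + (889617 / 2931650) * h.toLin.wTk2N + (889617 / 2931650) * h.toLin.wTk2W
    + (3465 / 117266) * h.toLin.wLk3W + (3465 / 117266) * h.toLin.wLk3S + (3069 / 117266) * h.c3
    + (126473 / 117266) * e.2.1 + (2046 / 58633) * fc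
    + (2144333 / 5863300) * (pnII_p2y_p h e hτ fc) + (5115 / 58633) * (pnII_p4y_p h e hτ fc)
    + (965 / 6898) * (pnII_p3x_p h e hτ fc) + (39622519 / 70359600) * hτ

theorem pnII_z1Ny_n (h : Lin2 τ c) (e : CsQ c) (hτ : 0 ≤ τ)
    (fc : 0 ≤ -8 + (3 / 4 * c.z1Ny - 1 / 2 * c.p2y - 7 / 4 * c.z1Ey + 5 / 2 * c.p4y - 1 / 4 * c.z3Wy - 3 / 4 * c.z3Sy - c.s1) + 71 * τ) :
    0 ≤ (-5 / 2) + 283 * τ + (c.z1Ny) := by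
  linear_combination
    (464 / 20235) * h.toLin.p2_p4 + (1166 / 1349) * h.toLin.p2_p3
    + (1253 / 1349) * h.toLin.p2_z1Nv + (238 / 1349) * h.toLin.p2_z3Wv
    + (1024 / 4047) * h.toLin.p2_k3Wv + (128 / 6745) * h.toLin.p2_eN1
    + (512 / 4047) * h.toLin.p2_eW1 + (208 / 1349) * h.toLin.p4_p3
    + (3328 / 20235) * h.toLin.p4_hNv + (455 / 1349) * h.toLin.p3_z3Wu
    + (1792 / 1349) * h.toLin.p3_gS + (1024 / 1349) * h.toLin.z1N_gNh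
    + (3185 / 1349) * h.toLin.z1E_t2E + (19999 / 20235) * h.toLin.z3S_t2S
    + (30464 / 20235) * h.toLin.z3S_gSh + (55552 / 20235) * h.toLin.t2S_k3S
    + (704 / 6745) * h.toLin.k2N_eN1 + (13568 / 68799) * h.toLin.k2N_eN2
    + (11264 / 114665) * h.toLin.k2N_gNh + (896 / 4047) * h.toLin.k2W_k3W
    + (1792 / 4047) * h.toLin.k2W_eW1 + (256 / 4047) * h.toLin.k3W_eW1
    + (57344 / 20235) * h.toLin.k3S_gSh + (256 / 33725) * h.toLin.eN1_hN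
    + (2048 / 22933) * h.toLin.eN2_gN + (512 / 12141) * h.toLin.eN2_hN
    + (55296 / 357485) * h.toLin.gN_hN + (2746 / 1349) * h.toLin.wRz1N + (49 / 71) * h.toLin.wLz3W
    + (476 / 1349) * h.toLin.wLz3S + (3185 / 1349) * h.toLin.wBt2S + (3185 / 1349) * h.toLin.wBt2E
    + (896 / 4047) * h.toLin.wTk2N + (896 / 4047) * h.toLin.wTk2W + (896 / 1349) * h.toLin.wLk3W
    + (896 / 1349) * h.toLin.wLk3S + (1365 / 1349) * h.c3 + (2746 / 1349) * e.2.1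
    + (1820 / 1349) * fc + (12050 / 4047) * (pnII_p4y_p h e hτ fc)
    + (453 / 1349) * (pnII_p3x_p h e hτ fc) + (407 / 1349) * (pnII_p3y_p h e hτ fc)
    + (43122211 / 273476025) * hτ

theorem pnII_z1Ex_p (h : Lin2 τ c) (e : CsQ c) (hτ : 0 ≤ τ)
    (fc : 0 ≤ -8 + (3 / 4 * c.z1Ny - 1 / 2 * c.p2y - 7 / 4 * c.z1Ey + 5 / 2 * c.p4y - 1 / 4 * c.z3Wy - 3 / 4 * c.z3Sy - c.s1) + 71 * τ) :
    0 ≤ 0 + 0 * τ + (-c.z1Ex) := by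
  linear_combination
    h.toLin.wRz1E

theorem pnII_z1Ex_n (h : Lin2 τ c) (e : CsQ c) (hτ : 0 ≤ τ)
    (fc : 0 ≤ -8 + (3 / 4 * c.z1Ny - 1 / 2 * c.p2y - 7 / 4 * c.z1Ey + 5 / 2 * c.p4y - 1 / 4 * c.z3Wy - 3 / 4 * c.z3Sy - c.s1) + 71 * τ) :
    0 ≤ 0 + 2 * τ + (c.z1Ex) := by
  linear_combination
    (1 / 2) * h.toLin.p2_z1Nv + (1 / 2) * h.toLin.p2_z3Wv + (1 / 2) * h.toLin.p4_z1Ev
    + (1 / 2) * h.toLin.p4_z3Sv + h.toLin.wRz1N + h.toLin.wLz3W + h.toLin.wLz3S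

theorem pnII_z1Ey_p (h : Lin2 τ c) (e : CsQ c) (hτ : 0 ≤ τ)
    (fc : 0 ≤ -8 + (3 / 4 * c.z1Ny - 1 / 2 * c.p2y - 7 / 4 * c.z1Ey + 5 / 2 * c.p4y - 1 / 4 * c.z3Wy - 3 / 4 * c.z3Sy - c.s1) + 71 * τ) :
    0 ≤ (-5 / 2) + 233 * τ + (-c.z1Ey) := by
  linear_combination
    (116 / 15505) * h.toLin.p2_p4 + (154 / 443) * h.toLin.p2_p3 + (2083 / 6202) * h.toLin.p2_z1Nv
    + (83 / 886) * h.toLin.p2_z3Wv + (64 / 3101) * h.toLin.p2_k3Wv + (96 / 15505) * h.toLin.p2_eN1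
    + (256 / 3101) * h.toLin.p2_eW1 + (156 / 3101) * h.toLin.p4_p3
    + (832 / 15505) * h.toLin.p4_hNv + (1 / 7) * h.toLin.p3_z3Wu + (192 / 443) * h.toLin.p3_gS
    + (2694 / 3101) * h.toLin.z1N_t1N + (768 / 3101) * h.toLin.z1N_gNh
    + (19354 / 46515) * h.toLin.z3S_t1S + (5312 / 6645) * h.toLin.z3S_gSh
    + (64 / 443) * h.toLin.t1W_k2W + (1984 / 6645) * h.toLin.t1S_k3S
    + (2048 / 6645) * h.toLin.t1S_gSh + (528 / 15505) * h.toLin.k2N_eN1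
    + (3392 / 52717) * h.toLin.k2N_eN2 + (8448 / 263585) * h.toLin.k2N_gNh
    + (128 / 443) * h.toLin.k2W_eW1 + (128 / 3101) * h.toLin.k3W_eW1
    + (2048 / 6645) * h.toLin.k3S_gSh + (192 / 77525) * h.toLin.eN1_hN
    + (1536 / 52717) * h.toLin.eN2_gN + (128 / 9303) * h.toLin.eN2_hN
    + (41472 / 821765) * h.toLin.gN_hN + (2263 / 3101) * h.toLin.wRz1N
    + (1024 / 3101) * h.toLin.wLz3W + (83 / 443) * h.toLin.wLz3S + (2694 / 3101) * h.toLin.wTt1N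
    + (32 / 443) * h.toLin.wLt1W + (32 / 443) * h.toLin.wLt1S + (2694 / 3101) * h.toLin.wBt1S
    + (32 / 443) * h.toLin.wTk2N + (32 / 443) * h.toLin.wTk2W + (32 / 443) * h.toLin.wLk3W
    + (32 / 443) * h.toLin.wLk3S + (3 / 7) * h.c3 + (2263 / 3101) * e.2.1 + (4 / 7) * fc
    + (4030 / 3101) * (pnII_p4y_p h e hτ fc) + (34 / 443) * (pnII_p3x_p h e hτ fc)
    + (1377 / 3101) * (pnII_z1Ny_n h e hτ fc) + (12320078 / 69850025) * hτ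

theorem pnII_z1Ey_n (h : Lin2 τ c) (e : CsQ c) (hτ : 0 ≤ τ)
    (fc : 0 ≤ -8 + (3 / 4 * c.z1Ny - 1 / 2 * c.p2y - 7 / 4 * c.z1Ey + 5 / 2 * c.p4y - 1 / 4 * c.z3Wy - 3 / 4 * c.z3Sy - c.s1) + 71 * τ) :
    0 ≤ (5 / 2) + 121 * τ + (c.z1Ey) := by
  linear_combination
    (1114 / 2857) * h.toLin.p2_p3 + (3319 / 5714) * h.toLin.p2_z1Nv
    + (765 / 5714) * h.toLin.p2_z3Wv + (720 / 2857) * h.toLin.p2_k3Wv
    + (17 / 2857) * h.toLin.p3_z3Wu + (2880 / 2857) * h.toLin.p3_gS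
    + (360 / 2857) * h.toLin.z1N_t1N + (2976 / 2857) * h.toLin.z1E_t2E
    + (3264 / 2857) * h.toLin.z3S_gSh + (720 / 2857) * h.toLin.t1W_k3W
    + (5952 / 2857) * h.toLin.t2S_k3S + (6144 / 2857) * h.toLin.k3S_gSh
    + (3319 / 2857) * h.toLin.wRz1N + (782 / 2857) * h.toLin.wLz3W + (765 / 2857) * h.toLin.wLz3S
    + (360 / 2857) * h.toLin.wTt1N + (360 / 2857) * h.toLin.wTt1W + (2976 / 2857) * h.toLin.wBt2S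
    + (2976 / 2857) * h.toLin.wBt2E + (1440 / 2857) * h.toLin.wLk3W
    + (1440 / 2857) * h.toLin.wLk3S + (51 / 2857) * h.c3 + (3319 / 2857) * e.2.1
    + (68 / 2857) * fc + (720 / 2857) * (pnII_p2y_p h e hτ fc)
    + (170 / 2857) * (pnII_p4y_p h e hτ fc) + (1108 / 2857) * (pnII_p3x_p h e hτ fc)
    + (1794 / 2857) * (pnII_p3y_p h e hτ fc) + (309 / 2857) * (pnII_z1Ny_n h e hτ fc)
    + (2538 / 2857) * hτ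

theorem pnII_z3Wx_p (h : Lin2 τ c) (e : CsQ c) (hτ : 0 ≤ τ)
    (fc : 0 ≤ -8 + (3 / 4 * c.z1Ny - 1 / 2 * c.p2y - 7 / 4 * c.z1Ey + 5 / 2 * c.p4y - 1 / 4 * c.z3Wy - 3 / 4 * c.z3Sy - c.s1) + 71 * τ) :
    0 ≤ 0 + 2 * τ + (-c.z3Wx) := by
  linear_combination
    (1 / 2) * h.toLin.p2_z1Nv + (1 / 2) * h.toLin.p2_z3Wu + (1 / 4) * h.toLin.p4_z1Ev
    + (1 / 4) * h.toLin.p4_z3Sv + h.toLin.wRz1N + (1 / 2) * h.toLin.wRz1E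
    + (1 / 2) * h.toLin.wLz3S + (1 / 2) * h.c3 + (1 / 2) * e.2.1

theorem pnII_z3Wx_n (h : Lin2 τ c) (e : CsQ c) (hτ : 0 ≤ τ)
    (fc : 0 ≤ -8 + (3 / 4 * c.z1Ny - 1 / 2 * c.p2y - 7 / 4 * c.z1Ey + 5 / 2 * c.p4y - 1 / 4 * c.z3Wy - 3 / 4 * c.z3Sy - c.s1) + 71 * τ) :
    0 ≤ 0 + 0 * τ + (c.z3Wx) := by
  linear_combination
    h.toLin.wLz3W

theorem pnII_z3Wy_p (h : Lin2 τ c) (e : CsQ c) (hτ : 0 ≤ τ)
    (fc : 0 ≤ -8 + (3 / 4 * c.z1Ny - 1 / 2 * c.p2y - 7 / 4 * c.z1Ey + 5 / 2 * c.p4y - 1 / 4 * c.z3Wy - 3 / 4 * c.z3Sy - c.s1) + 71 * τ) :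
    0 ≤ (1 / 2) + 155 * τ + (-c.z3Wy) := by
  linear_combination
    (39 / 151) * h.toLin.p2_z1Nv + (449 / 4077) * h.toLin.p2_z3Wv + (272 / 2265) * h.toLin.p2_eN1
    + (1456 / 4077) * h.toLin.p2_eW1 + (1 / 3) * h.toLin.p4_z3Sv + (32 / 45) * h.toLin.p4_hNv
    + (89 / 453) * h.toLin.z1N_t1N + (80 / 453) * h.toLin.z1N_eN2 + (1408 / 453) * h.toLin.z1N_gNh
    + (89 / 453) * h.toLin.z3W_t1W + (2912 / 4077) * h.toLin.z3W_k2W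
    + (1456 / 12231) * h.toLin.z3W_eW1 + (1496 / 2265) * h.toLin.k2N_eN1
    + (800 / 1359) * h.toLin.k2N_eN2 + (1408 / 2265) * h.toLin.k2N_gNh
    + (5824 / 4077) * h.toLin.k2W_eW1 + (544 / 11325) * h.toLin.eN1_hN
    + (640 / 4077) * h.toLin.eN2_hN + (81664 / 120045) * h.toLin.gN_hN + (4 / 3) * h.toLin.wRz1N
    + (2 / 3) * h.toLin.wLz3W + (2 / 3) * h.toLin.wLz3S + (89 / 453) * h.toLin.wTt1N
    + (89 / 453) * h.toLin.wTt1W + (1456 / 1359) * h.toLin.wTk2N + (1456 / 1359) * h.toLin.wTk2W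
    + h.c3 + (4 / 3) * e.2.1 + (2432 / 6795) * (pnII_p2y_n h e hτ fc)
    + (38 / 45) * (pnII_p4y_n h e hτ fc) + (1 / 3) * (pnII_z1Ny_n h e hτ fc)
    + (15539596 / 16206075) * hτ

theorem pnII_p2x_n (h : Lin2 τ c) (e : CsQ c) (hτ : 0 ≤ τ)
    (fc : 0 ≤ -8 + (3 / 4 * c.z1Ny - 1 / 2 * c.p2y - 7 / 4 * c.z1Ey + 5 / 2 * c.p4y - 1 / 4 * c.z3Wy - 3 / 4 * c.z3Sy - c.s1) + 71 * τ) :
    0 ≤ (1 / 2) + 344 * τ + (c.p2x) := by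
  linear_combination
    (8467291 / 9662784) * h.toLin.p2_p3 + (345317 / 805232) * h.toLin.p2_z1Nv
    + (310757 / 805232) * h.toLin.p2_z3Wv + (1155 / 100654) * h.toLin.p2_k3Wv
    + (7379 / 251635) * h.toLin.p2_eN1 + (431473 / 2415696) * h.toLin.p2_eW1
    + (95927 / 805232) * h.toLin.p4_z3Sv + (191854 / 754905) * h.toLin.p4_hNv
    + (2387 / 201308) * h.toLin.p3_z3Wu + (113239 / 1811772) * h.toLin.p3_k2Wv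
    + (320593 / 7247088) * h.toLin.p3_eW1 + (54040 / 50327) * h.toLin.p3_gS
    + (419979 / 402616) * h.toLin.z1N_t1N + (59032 / 50327) * h.toLin.z1N_gNh
    + (16709 / 201308) * h.toLin.z1E_t2E + (114576 / 50327) * h.toLin.z3S_gSh
    + (99995 / 201308) * h.toLin.t1W_k2W + (159992 / 150981) * h.toLin.t1S_gSh
    + (16709 / 100654) * h.toLin.t2S_k3S + (81169 / 503270) * h.toLin.k2N_eN1
    + (782174 / 2566677) * h.toLin.k2N_eN2 + (649352 / 4277795) * h.toLin.k2N_gNh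
    + (393358 / 452943) * h.toLin.k2W_eW1 + (1155 / 50327) * h.toLin.k3W_eW1
    + (8624 / 50327) * h.toLin.k3S_gSh + (14758 / 1258175) * h.toLin.eN1_hN
    + (118064 / 855559) * h.toLin.eN2_gN + (29516 / 452943) * h.toLin.eN2_hN
    + (3187728 / 13336655) * h.toLin.gN_hN + (228001 / 201308) * h.toLin.wRz1N
    + (315531 / 402616) * h.toLin.wLz3W + (310757 / 402616) * h.toLin.wLz3S
    + (419979 / 402616) * h.toLin.wTt1N + (99995 / 402616) * h.toLin.wLt1W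
    + (99995 / 402616) * h.toLin.wLt1S + (419979 / 402616) * h.toLin.wBt1S
    + (16709 / 201308) * h.toLin.wBt2S + (16709 / 201308) * h.toLin.wBt2E
    + (51653 / 150981) * h.toLin.wTk2N + (51653 / 150981) * h.toLin.wTk2W
    + (8085 / 201308) * h.toLin.wLk3W + (8085 / 201308) * h.toLin.wLk3S + (7161 / 201308) * h.c3
    + (228001 / 201308) * e.2.1 + (2387 / 50327) * fc
    + (4172353 / 6039240) * (pnII_p2y_p h e hτ fc) + (1106513 / 6039240) * (pnII_p4y_n h e hτ fc)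
    + (103259 / 100654) * (pnII_z1Ny_n h e hτ fc) + (507919378327 / 652962628800) * hτ

theorem pnII_p4x_p (h : Lin2 τ c) (e : CsQ c) (hτ : 0 ≤ τ)
    (fc : 0 ≤ -8 + (3 / 4 * c.z1Ny - 1 / 2 * c.p2y - 7 / 4 * c.z1Ey + 5 / 2 * c.p4y - 1 / 4 * c.z3Wy - 3 / 4 * c.z3Sy - c.s1) + 71 * τ) :
    0 ≤ (1 / 2) + 345 * τ + (-c.p4x) := by
  linear_combination
    (1 / 2) * h.toLin.p2_z1Nv + (1 / 2) * h.toLin.p4_z1Ev + h.toLin.wRz1N + h.toLin.wRz1E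
    + (pnII_p2x_n h e hτ fc)

theorem pnII_z3Sx_n (h : Lin2 τ c) (e : CsQ c) (hτ : 0 ≤ τ)
    (fc : 0 ≤ -8 + (3 / 4 * c.z1Ny - 1 / 2 * c.p2y - 7 / 4 * c.z1Ey + 5 / 2 * c.p4y - 1 / 4 * c.z3Wy - 3 / 4 * c.z3Sy - c.s1) + 71 * τ) :
    0 ≤ 0 + 0 * τ + (c.z3Sx) := by
  linear_combination
    h.toLin.wLz3S

theorem pnII_z3Wy_n (h : Lin2 τ c) (e : CsQ c) (hτ : 0 ≤ τ)
    (fc : 0 ≤ -8 + (3 / 4 * c.z1Ny - 1 / 2 * c.p2y - 7 / 4 * c.z1Ey + 5 / 2 * c.p4y - 1 / 4 * c.z3Wy - 3 / 4 * c.z3Sy - c.s1) + 71 * τ) :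
    0 ≤ (-1 / 2) + 390 * τ + (c.z3Wy) := by
  linear_combination
    h.toLin.p4_p3 + h.toLin.p3_z3Wu + h.toLin.wLz3W + (pnII_p4y_n h e hτ fc)
    + (pnII_p4x_p h e hτ fc)

theorem pnII_z3Sx_p (h : Lin2 τ c) (e : CsQ c) (hτ : 0 ≤ τ)
    (fc : 0 ≤ -8 + (3 / 4 * c.z1Ny - 1 / 2 * c.p2y - 7 / 4 * c.z1Ey + 5 / 2 * c.p4y - 1 / 4 * c.z3Wy - 3 / 4 * c.z3Sy - c.s1) + 71 * τ) :
    0 ≤ 0 + 394 * τ + (-c.z3Sx) := by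
  linear_combination
    (1 / 2) * h.toLin.p2_z3Wv + (1 / 2) * h.toLin.p4_z3Sv + h.toLin.wLz3W + (pnII_p2x_p h e hτ fc)
    + (pnII_p4x_p h e hτ fc)

theorem pnII_t1Ny_p (h : Lin2 τ c) (e : CsQ c) (hτ : 0 ≤ τ)
    (fc : 0 ≤ -8 + (3 / 4 * c.z1Ny - 1 / 2 * c.p2y - 7 / 4 * c.z1Ey + 5 / 2 * c.p4y - 1 / 4 * c.z3Wy - 3 / 4 * c.z3Sy - c.s1) + 71 * τ) :
    0 ≤ 1 + 0 * τ + (-c.t1Ny) := by
  linear_combination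
    h.toLin.wTt1N

theorem pnII_z3Sy_n (h : Lin2 τ c) (e : CsQ c) (hτ : 0 ≤ τ)
    (fc : 0 ≤ -8 + (3 / 4 * c.z1Ny - 1 / 2 * c.p2y - 7 / 4 * c.z1Ey + 5 / 2 * c.p4y - 1 / 4 * c.z3Wy - 3 / 4 * c.z3Sy - c.s1) + 71 * τ) :
    0 ≤ (1 / 2) + 925 * τ + (c.z3Sy) := by
  linear_combination
    h.toLin.p2_z1Nv + h.toLin.z1E_t2E + h.toLin.z3S_t2S + 2 * h.toLin.wRz1N + h.toLin.wBt2S
    + h.toLin.wBt2E + h.c3 + 2 * e.2.1 + (pnII_z1Ey_p h e hτ fc) + 2 * (pnII_p2x_n h e hτ fc)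

theorem pnII_z3Sy_p (h : Lin2 τ c) (e : CsQ c) (hτ : 0 ≤ τ)
    (fc : 0 ≤ -8 + (3 / 4 * c.z1Ny - 1 / 2 * c.p2y - 7 / 4 * c.z1Ey + 5 / 2 * c.p4y - 1 / 4 * c.z3Wy - 3 / 4 * c.z3Sy - c.s1) + 71 * τ) :
    0 ≤ (-1 / 2) + 899 * τ + (-c.z3Sy) := by
  linear_combination
    (1 / 3) * h.toLin.p2_p4 + (2 / 3) * h.toLin.z1N_t1N + (2 / 3) * h.toLin.z3W_t1W
    + (2 / 3) * h.toLin.wTt1N + (2 / 3) * h.toLin.wTt1W + (2 / 3) * h.c3 + (4 / 3) * fc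
    + (8 / 3) * (pnII_p4y_p h e hτ fc) + (1 / 3) * (pnII_z1Ny_p h e hτ fc)
    + (7 / 3) * (pnII_z1Ey_n h e hτ fc) + (pnII_z3Wy_n h e hτ fc) + (1 / 3) * hτ

theorem pnII_t1Wx_n (h : Lin2 τ c) (e : CsQ c) (hτ : 0 ≤ τ)
    (fc : 0 ≤ -8 + (3 / 4 * c.z1Ny - 1 / 2 * c.p2y - 7 / 4 * c.z1Ey + 5 / 2 * c.p4y - 1 / 4 * c.z3Wy - 3 / 4 * c.z3Sy - c.s1) + 71 * τ) :
    0 ≤ 0 + 0 * τ + (c.t1Wx) := by
  linear_combination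
    h.toLin.wLt1W

theorem pnII_t1Wy_p (h : Lin2 τ c) (e : CsQ c) (hτ : 0 ≤ τ)
    (fc : 0 ≤ -8 + (3 / 4 * c.z1Ny - 1 / 2 * c.p2y - 7 / 4 * c.z1Ey + 5 / 2 * c.p4y - 1 / 4 * c.z3Wy - 3 / 4 * c.z3Sy - c.s1) + 71 * τ) :
    0 ≤ 1 + 0 * τ + (-c.t1Wy) := by
  linear_combination
    h.toLin.wTt1W

theorem pnII_t1Wy_n (h : Lin2 τ c) (e : CsQ c) (hτ : 0 ≤ τ)
    (fc : 0 ≤ -8 + (3 / 4 * c.z1Ny - 1 / 2 * c.p2y - 7 / 4 * c.z1Ey + 5 / 2 * c.p4y - 1 / 4 * c.z3Wy - 3 / 4 * c.z3Sy - c.s1) + 71 * τ) :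
    0 ≤ (-1) + 1365 * τ + (c.t1Wy) := by
  linear_combination
    h.toLin.p2_z1Nv + h.toLin.z1N_t1N + h.toLin.z3W_t1W + 2 * h.toLin.wRz1N + h.toLin.wTt1N + h.c3
    + 2 * e.2.1 + (pnII_z1Ny_n h e hτ fc) + 2 * (pnII_p2x_n h e hτ fc) + (pnII_z3Wy_n h e hτ fc)

theorem pnII_t1Ny_n (h : Lin2 τ c) (e : CsQ c) (hτ : 0 ≤ τ)
    (fc : 0 ≤ -8 + (3 / 4 * c.z1Ny - 1 / 2 * c.p2y - 7 / 4 * c.z1Ey + 5 / 2 * c.p4y - 1 / 4 * c.z3Wy - 3 / 4 * c.z3Sy - c.s1) + 71 * τ) :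
    0 ≤ (-1) + 677 * τ + (c.t1Ny) := by
  linear_combination
    (55 / 1008) * h.toLin.p2_p3 + (1019 / 2016) * h.toLin.p2_z1Nv + (55 / 1008) * h.toLin.p4_p3
    + (10 / 21) * h.toLin.p3_gW + (10 / 21) * h.toLin.p3_gS + h.toLin.z1N_t1N
    + (22 / 21) * h.toLin.z3W_gWh + (22 / 21) * h.toLin.z3S_gSh + (32 / 63) * h.toLin.t1W_gWh
    + (32 / 63) * h.toLin.t1S_gSh + (1019 / 1008) * h.toLin.wRz1N + (55 / 224) * h.toLin.wLz3W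
    + (55 / 224) * h.toLin.wLz3S + (5 / 42) * h.toLin.wLt1W + (1 / 2) * h.toLin.wTt1W
    + (5 / 42) * h.toLin.wLt1S + (1 / 2) * h.toLin.wBt1S + (11 / 336) * h.c3
    + (1019 / 1008) * e.2.1 + (11 / 504) * fc + (11 / 252) * (pnII_p2y_p h e hτ fc)
    + (625 / 1008) * (pnII_p3x_p h e hτ fc) + (661 / 672) * (pnII_z1Ny_n h e hτ fc)
    + (11 / 288) * (pnII_z1Ey_n h e hτ fc) + (241 / 252) * (pnII_p2x_n h e hτ fc)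
    + (55 / 1008) * (pnII_p4x_p h e hτ fc) + (11 / 504) * (pnII_z3Wy_n h e hτ fc)
    + (1313 / 2016) * hτ

theorem pnII_t1Sx_n (h : Lin2 τ c) (e : CsQ c) (hτ : 0 ≤ τ)
    (fc : 0 ≤ -8 + (3 / 4 * c.z1Ny - 1 / 2 * c.p2y - 7 / 4 * c.z1Ey + 5 / 2 * c.p4y - 1 / 4 * c.z3Wy - 3 / 4 * c.z3Sy - c.s1) + 71 * τ) :
    0 ≤ 0 + 0 * τ + (c.t1Sx) := by
  linear_combination
    h.toLin.wLt1S

theorem pnII_t1Sy_p (h : Lin2 τ c) (e : CsQ c) (hτ : 0 ≤ τ)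
    (fc : 0 ≤ -8 + (3 / 4 * c.z1Ny - 1 / 2 * c.p2y - 7 / 4 * c.z1Ey + 5 / 2 * c.p4y - 1 / 4 * c.z3Wy - 3 / 4 * c.z3Sy - c.s1) + 71 * τ) :
    0 ≤ (-1) + 858 * τ + (-c.t1Sy) := by
  linear_combination
    (1 / 3) * h.toLin.p2_p4 + (1 / 3) * h.toLin.p2_z1Nv + h.toLin.z1N_t1N + h.toLin.z3S_t1S
    + (2 / 3) * h.toLin.wRz1N + h.toLin.wTt1N + h.c3 + (2 / 3) * e.2.1 + (4 / 3) * fc
    + (8 / 3) * (pnII_p4y_p h e hτ fc) + (7 / 3) * (pnII_z1Ey_n h e hτ fc)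
    + (2 / 3) * (pnII_p2x_n h e hτ fc) + (1 / 3) * (pnII_z3Wy_n h e hτ fc) + (2 / 3) * hτ

theorem pnII_t1Sy_n (h : Lin2 τ c) (e : CsQ c) (hτ : 0 ≤ τ)
    (fc : 0 ≤ -8 + (3 / 4 * c.z1Ny - 1 / 2 * c.p2y - 7 / 4 * c.z1Ey + 5 / 2 * c.p4y - 1 / 4 * c.z3Wy - 3 / 4 * c.z3Sy - c.s1) + 71 * τ) :
    0 ≤ 1 + 0 * τ + (c.t1Sy) := by
  linear_combination
    h.toLin.wBt1S

theorem pnII_t2Sy_p (h : Lin2 τ c) (e : CsQ c) (hτ : 0 ≤ τ)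
    (fc : 0 ≤ -8 + (3 / 4 * c.z1Ny - 1 / 2 * c.p2y - 7 / 4 * c.z1Ey + 5 / 2 * c.p4y - 1 / 4 * c.z3Wy - 3 / 4 * c.z3Sy - c.s1) + 71 * τ) :
    0 ≤ (-1) + 1287 * τ + (-c.t2Sy) := by
  linear_combination
    (1 / 10) * h.toLin.p2_p4 + (4 / 5) * h.toLin.p2_z1Nv + (3 / 10) * h.toLin.z1N_t2N
    + (7 / 10) * h.toLin.z1E_t2E + h.toLin.z3S_t2S + (8 / 5) * h.toLin.wRz1N
    + (3 / 10) * h.toLin.wTt2N + (7 / 10) * h.toLin.wBt2E + h.c3 + (8 / 5) * e.2.1 + (2 / 5) * fc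
    + (4 / 5) * (pnII_p4y_p h e hτ fc) + (8 / 5) * (pnII_p2x_n h e hτ fc)
    + (1 / 10) * (pnII_z3Wy_n h e hτ fc) + (7 / 10) * (pnII_z3Sy_p h e hτ fc) + (4 / 5) * hτ

theorem pnII_t2Sy_n (h : Lin2 τ c) (e : CsQ c) (hτ : 0 ≤ τ)
    (fc : 0 ≤ -8 + (3 / 4 * c.z1Ny - 1 / 2 * c.p2y - 7 / 4 * c.z1Ey + 5 / 2 * c.p4y - 1 / 4 * c.z3Wy - 3 / 4 * c.z3Sy - c.s1) + 71 * τ) :
    0 ≤ 1 + 0 * τ + (c.t2Sy) := by
  linear_combination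
    h.toLin.wBt2S

theorem pnII_t2Ey_p (h : Lin2 τ c) (e : CsQ c) (hτ : 0 ≤ τ)
    (fc : 0 ≤ -8 + (3 / 4 * c.z1Ny - 1 / 2 * c.p2y - 7 / 4 * c.z1Ey + 5 / 2 * c.p4y - 1 / 4 * c.z3Wy - 3 / 4 * c.z3Sy - c.s1) + 71 * τ) :
    0 ≤ (-1) + 1171 * τ + (-c.t2Ey) := by
  linear_combination
    (1 / 7) * h.toLin.p2_p4 + (5 / 7) * h.toLin.p2_z1Nv + h.toLin.z1E_t2E + h.toLin.z3S_t2S
    + (10 / 7) * h.toLin.wRz1N + h.toLin.wBt2S + h.c3 + (10 / 7) * e.2.1 + (4 / 7) * fc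
    + (8 / 7) * (pnII_p4y_p h e hτ fc) + (3 / 7) * (pnII_z1Ny_p h e hτ fc)
    + (10 / 7) * (pnII_p2x_n h e hτ fc) + (1 / 7) * (pnII_z3Wy_n h e hτ fc)
    + (4 / 7) * (pnII_z3Sy_p h e hτ fc)

theorem pnII_t2Ey_n (h : Lin2 τ c) (e : CsQ c) (hτ : 0 ≤ τ)
    (fc : 0 ≤ -8 + (3 / 4 * c.z1Ny - 1 / 2 * c.p2y - 7 / 4 * c.z1Ey + 5 / 2 * c.p4y - 1 / 4 * c.z3Wy - 3 / 4 * c.z3Sy - c.s1) + 71 * τ) :
    0 ≤ 1 + 0 * τ + (c.t2Ey) := by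
  linear_combination
    h.toLin.wBt2E

theorem pnII_k2Nx_p (h : Lin2 τ c) (e : CsQ c) (hτ : 0 ≤ τ)
    (fc : 0 ≤ -8 + (3 / 4 * c.z1Ny - 1 / 2 * c.p2y - 7 / 4 * c.z1Ey + 5 / 2 * c.p4y - 1 / 4 * c.z3Wy - 3 / 4 * c.z3Sy - c.s1) + 71 * τ) :
    0 ≤ (-1) + 1922 * τ + (-c.k2Nx) := by
  linear_combination
    (595 / 4432) * h.toLin.p2_p4 + (5837 / 6648) * h.toLin.p2_z1Nv + (32 / 277) * h.toLin.p2_k3Wv
    + (435 / 554) * h.toLin.p4_p3 + (73 / 1108) * h.toLin.p4_z3Sv + (190 / 277) * h.toLin.p3_k2Wv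
    + (160 / 277) * h.toLin.p3_gS + 2 * h.toLin.z1N_k2N + (496 / 831) * h.toLin.z1E_t2E
    + (158 / 277) * h.toLin.z3W_k2W + (544 / 831) * h.toLin.z3S_gSh
    + (992 / 831) * h.toLin.t2S_k3S + (32 / 277) * h.toLin.k2W_k3W
    + (1024 / 831) * h.toLin.k3S_gSh + (9161 / 3324) * h.toLin.wRz1N + (79 / 277) * h.toLin.wLz3W
    + (79 / 277) * h.toLin.wLz3S + (496 / 831) * h.toLin.wBt2S + (496 / 831) * h.toLin.wBt2E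
    + 2 * h.toLin.wTk2N + 2 * h.toLin.wTk2W + (80 / 277) * h.toLin.wLk3W
    + (80 / 277) * h.toLin.wLk3S + (965 / 1662) * h.c3 + (9161 / 3324) * e.2.1 + (467 / 1108) * fc
    + (7463 / 4432) * (pnII_z1Ny_n h e hτ fc) + (1871 / 13296) * (pnII_z1Ey_n h e hτ fc)
    + (5069 / 3324) * (pnII_p2x_n h e hτ fc) + (254 / 277) * (pnII_p4x_p h e hτ fc)
    + (2995 / 4432) * (pnII_z3Wy_n h e hτ fc) + (4067 / 13296) * (pnII_z3Sy_n h e hτ fc)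
    + (1967 / 2216) * hτ

theorem pnII_t1Wx_p (h : Lin2 τ c) (e : CsQ c) (hτ : 0 ≤ τ)
    (fc : 0 ≤ -8 + (3 / 4 * c.z1Ny - 1 / 2 * c.p2y - 7 / 4 * c.z1Ey + 5 / 2 * c.p4y - 1 / 4 * c.z3Wy - 3 / 4 * c.z3Sy - c.s1) + 71 * τ) :
    0 ≤ 0 + 780 * τ + (-c.t1Wx) := by
  linear_combination
    (16 / 69) * h.toLin.p2_p4 + (32 / 115) * h.toLin.p2_p3 + (2351 / 4140) * h.toLin.p2_z1Nv
    + (118 / 1035) * h.toLin.p2_eN1 + (4 / 5) * h.toLin.p2_eW1 + (1 / 2) * h.toLin.p4_eS2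
    + (4 / 69) * h.toLin.p4_hNv + (13 / 460) * h.toLin.p3_z3Wu + (1 / 2) * h.toLin.p3_eS2
    + (6 / 5) * h.toLin.z1N_t1N + (6079 / 30015) * h.toLin.z1N_k2N
    + (118 / 3105) * h.toLin.z1N_eN1 + (1 / 46) * h.toLin.z1N_eN2 + (160 / 667) * h.toLin.z1N_gNh
    + (4 / 5) * h.toLin.t1W_k2W + (4 / 5) * h.toLin.t1W_eW1 + 2 * h.toLin.t1S_eS2
    + (472 / 1035) * h.toLin.k2N_eN1 + (5 / 69) * h.toLin.k2N_eN2 + (32 / 667) * h.toLin.k2N_gNh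
    + (8 / 5) * h.toLin.k2W_eW1 + (4 / 207) * h.toLin.eN2_hN + (64 / 1219) * h.toLin.gN_hN
    + (613 / 460) * h.toLin.wRz1N + (13 / 460) * h.toLin.wLz3W + (6 / 5) * h.toLin.wTt1N
    + (1 / 5) * h.toLin.wTt1W + h.toLin.wLt1S + h.toLin.wBt1S + (2 / 5) * h.toLin.wTk2N
    + (2 / 5) * h.toLin.wTk2W + (613 / 460) * e.2.1 + (13 / 115) * fc
    + (51 / 115) * (pnII_p3y_p h e hτ fc) + (313 / 230) * (pnII_z1Ny_n h e hτ fc)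
    + (91 / 460) * (pnII_z1Ey_n h e hτ fc) + (16 / 23) * (pnII_p4x_p h e hτ fc)
    + (39 / 460) * (pnII_z3Sy_n h e hτ fc) + (1468837 / 9544770) * hτ

theorem pnII_k2Ny_p (h : Lin2 τ c) (e : CsQ c) (hτ : 0 ≤ τ)
    (fc : 0 ≤ -8 + (3 / 4 * c.z1Ny - 1 / 2 * c.p2y - 7 / 4 * c.z1Ey + 5 / 2 * c.p4y - 1 / 4 * c.z3Wy - 3 / 4 * c.z3Sy - c.s1) + 71 * τ) :
    0 ≤ 1 + 0 * τ + (-c.k2Ny) := by
  linear_combination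
    h.toLin.wTk2N

theorem pnII_t1Sx_p (h : Lin2 τ c) (e : CsQ c) (hτ : 0 ≤ τ)
    (fc : 0 ≤ -8 + (3 / 4 * c.z1Ny - 1 / 2 * c.p2y - 7 / 4 * c.z1Ey + 5 / 2 * c.p4y - 1 / 4 * c.z3Wy - 3 / 4 * c.z3Sy - c.s1) + 71 * τ) :
    0 ≤ 0 + 780 * τ + (-c.t1Sx) := by
  linear_combination
    (16 / 69) * h.toLin.p2_p4 + (32 / 115) * h.toLin.p2_p3 + (2351 / 4140) * h.toLin.p2_z1Nv
    + (118 / 1035) * h.toLin.p2_eN1 + (4 / 5) * h.toLin.p2_eW1 + (1 / 2) * h.toLin.p4_eS2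
    + (4 / 69) * h.toLin.p4_hNv + (13 / 460) * h.toLin.p3_z3Wu + (1 / 2) * h.toLin.p3_eS2
    + (6 / 5) * h.toLin.z1N_t1N + (6079 / 30015) * h.toLin.z1N_k2N
    + (118 / 3105) * h.toLin.z1N_eN1 + (1 / 46) * h.toLin.z1N_eN2 + (160 / 667) * h.toLin.z1N_gNh
    + (4 / 5) * h.toLin.t1W_k2W + (4 / 5) * h.toLin.t1W_eW1 + 2 * h.toLin.t1S_eS2
    + (472 / 1035) * h.toLin.k2N_eN1 + (5 / 69) * h.toLin.k2N_eN2 + (32 / 667) * h.toLin.k2N_gNh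
    + (8 / 5) * h.toLin.k2W_eW1 + (4 / 207) * h.toLin.eN2_hN + (64 / 1219) * h.toLin.gN_hN
    + (613 / 460) * h.toLin.wRz1N + (13 / 460) * h.toLin.wLz3W + (6 / 5) * h.toLin.wTt1N
    + h.toLin.wLt1W + (1 / 5) * h.toLin.wTt1W + h.toLin.wBt1S + (2 / 5) * h.toLin.wTk2N
    + (2 / 5) * h.toLin.wTk2W + (613 / 460) * e.2.1 + (13 / 115) * fc
    + (51 / 115) * (pnII_p3y_p h e hτ fc) + (313 / 230) * (pnII_z1Ny_n h e hτ fc)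
    + (91 / 460) * (pnII_z1Ey_n h e hτ fc) + (16 / 23) * (pnII_p4x_p h e hτ fc)
    + (39 / 460) * (pnII_z3Sy_n h e hτ fc) + (1468837 / 9544770) * hτ

theorem pnII_k2Wx_p (h : Lin2 τ c) (e : CsQ c) (hτ : 0 ≤ τ)
    (fc : 0 ≤ -8 + (3 / 4 * c.z1Ny - 1 / 2 * c.p2y - 7 / 4 * c.z1Ey + 5 / 2 * c.p4y - 1 / 4 * c.z3Wy - 3 / 4 * c.z3Sy - c.s1) + 71 * τ) :
    0 ≤ (-1) + 450 * τ + (-c.k2Wx) := by
  linear_combination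
    (7 / 24) * h.toLin.p2_z1Nv + (1 / 3) * h.toLin.p2_eN1 + h.toLin.p2_eW1
    + (1 / 8) * h.toLin.p4_z3Sv + (2 / 3) * h.toLin.z1N_k2N + (1 / 9) * h.toLin.z1N_eN1
    + (1 / 3) * h.toLin.z3W_eW1 + (4 / 3) * h.toLin.k2N_eN1 + 4 * h.toLin.k2W_eW1 + h.toLin.wRz1N
    + (1 / 4) * h.toLin.wLz3W + (1 / 4) * h.toLin.wLz3S + h.toLin.wTk2N + h.toLin.wTk2W
    + (1 / 4) * h.c3 + e.2.1 + (1 / 4) * (pnII_p2x_p h e hτ fc) + (pnII_p2y_n h e hτ fc)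
    + (3 / 4) * (pnII_z1Ny_n h e hτ fc) + (1 / 4) * (pnII_p4x_p h e hτ fc)
    + (1 / 4) * (pnII_z3Wy_n h e hτ fc) + (5 / 9) * hτ

theorem pnII_k2Wx_n (h : Lin2 τ c) (e : CsQ c) (hτ : 0 ≤ τ)
    (fc : 0 ≤ -8 + (3 / 4 * c.z1Ny - 1 / 2 * c.p2y - 7 / 4 * c.z1Ey + 5 / 2 * c.p4y - 1 / 4 * c.z3Wy - 3 / 4 * c.z3Sy - c.s1) + 71 * τ) :
    0 ≤ 1 + 867 * τ + (c.k2Wx) := by
  linear_combination
    (1 / 4) * h.toLin.p2_p3 + (1 / 2) * h.toLin.p2_z1Nv + (1 / 2) * h.toLin.p4_eS2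
    + (1 / 2) * h.toLin.p3_eS2 + h.toLin.z1N_t1N + 2 * h.toLin.t1W_k2W + 2 * h.toLin.t1S_eS2
    + h.toLin.wRz1N + h.toLin.wTt1N + h.toLin.wLt1W + h.toLin.wLt1S + h.toLin.wBt1S + e.2.1
    + (1 / 4) * (pnII_p2y_p h e hτ fc) + (1 / 4) * (pnII_p4y_p h e hτ fc)
    + (1 / 2) * (pnII_p3y_p h e hτ fc) + (pnII_z1Ny_n h e hτ fc)
    + (3 / 4) * (pnII_p2x_n h e hτ fc) + (3 / 4) * (pnII_p4x_p h e hτ fc) + (3 / 4) * hτ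

theorem pnII_k2Wy_p (h : Lin2 τ c) (e : CsQ c) (hτ : 0 ≤ τ)
    (fc : 0 ≤ -8 + (3 / 4 * c.z1Ny - 1 / 2 * c.p2y - 7 / 4 * c.z1Ey + 5 / 2 * c.p4y - 1 / 4 * c.z3Wy - 3 / 4 * c.z3Sy - c.s1) + 71 * τ) :
    0 ≤ 1 + 0 * τ + (-c.k2Wy) := by
  linear_combination
    h.toLin.wTk2W

theorem pnII_k2Ny_n (h : Lin2 τ c) (e : CsQ c) (hτ : 0 ≤ τ)
    (fc : 0 ≤ -8 + (3 / 4 * c.z1Ny - 1 / 2 * c.p2y - 7 / 4 * c.z1Ey + 5 / 2 * c.p4y - 1 / 4 * c.z3Wy - 3 / 4 * c.z3Sy - c.s1) + 71 * τ) :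
    0 ≤ (-1) + 795 * τ + (c.k2Ny) := by
  linear_combination
    (164849 / 711880) * h.toLin.p2_p4 + (32 / 481) * h.toLin.p2_k3Wv
    + (66269 / 266955) * h.toLin.p2_eN1 + (435 / 962) * h.toLin.p4_p3
    + (22716 / 88985) * h.toLin.p4_hNv + (190 / 481) * h.toLin.p3_k2Wv
    + (160 / 481) * h.toLin.p3_gS + (594943 / 1548339) * h.toLin.z1N_k2N
    + (66269 / 800865) * h.toLin.z1N_eN1 + (17037 / 177970) * h.toLin.z1N_eN2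
    + (545184 / 516113) * h.toLin.z1N_gNh + (496 / 1443) * h.toLin.z1E_t2E
    + (85 / 481) * h.toLin.z3W_k2W + (544 / 1443) * h.toLin.z3S_gSh
    + (992 / 1443) * h.toLin.t2S_k3S + (265076 / 266955) * h.toLin.k2N_eN1
    + (5679 / 17797) * h.toLin.k2N_eN2 + (545184 / 2580565) * h.toLin.k2N_gNh
    + (32 / 481) * h.toLin.k2W_k3W + (1024 / 1443) * h.toLin.k3S_gSh
    + (7572 / 88985) * h.toLin.eN2_hN + (1090368 / 4716205) * h.toLin.gN_hN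
    + (29345 / 53391) * h.toLin.wRz1N + (85 / 962) * h.toLin.wLz3W + (85 / 962) * h.toLin.wLz3S
    + (496 / 1443) * h.toLin.wBt2S + (496 / 1443) * h.toLin.wBt2E + h.toLin.wTk2W
    + (80 / 481) * h.toLin.wLk3W + (80 / 481) * h.toLin.wLk3S + (527 / 2886) * h.c3
    + (29345 / 53391) * e.2.1 + (8674 / 17797) * fc + (2583 / 17797) * (pnII_z1Ny_n h e hτ fc)
    + (54373 / 106782) * (pnII_z1Ey_n h e hτ fc) + (37853 / 213564) * (pnII_p2x_n h e hτ fc)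
    + (15153 / 71188) * (pnII_p4x_p h e hτ fc) + (10627 / 35594) * (pnII_z3Wy_n h e hτ fc)
    + (19202 / 53391) * (pnII_z3Sy_n h e hτ fc) + (73 / 962) * (pnII_k2Wx_n h e hτ fc)
    + (811376029 / 1969487208) * hτ

theorem pnII_k3Wx_p (h : Lin2 τ c) (e : CsQ c) (hτ : 0 ≤ τ)
    (fc : 0 ≤ -8 + (3 / 4 * c.z1Ny - 1 / 2 * c.p2y - 7 / 4 * c.z1Ey + 5 / 2 * c.p4y - 1 / 4 * c.z3Wy - 3 / 4 * c.z3Sy - c.s1) + 71 * τ) :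
    0 ≤ 0 + 558 * τ + (-c.k3Wx) := by
  linear_combination
    (1 / 8) * h.toLin.p2_p4 + (19 / 120) * h.toLin.p2_z1Nv + (2 / 5) * h.toLin.p2_k3Wv
    + (1 / 15) * h.toLin.p2_eN1 + (1 / 2) * h.toLin.p4_k3Sv + (2 / 15) * h.toLin.z1N_k2N
    + (1 / 45) * h.toLin.z1N_eN1 + (1 / 4) * h.toLin.z1E_t2E + (1 / 2) * h.toLin.t2S_k3S
    + (4 / 15) * h.toLin.k2N_eN1 + (2 / 5) * h.toLin.k2W_k3W + (2 / 5) * h.toLin.wRz1N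
    + (1 / 4) * h.toLin.wBt2S + (1 / 4) * h.toLin.wBt2E + (1 / 5) * h.toLin.wTk2N
    + (1 / 5) * h.toLin.wTk2W + h.toLin.wLk3S + (2 / 5) * e.2.1 + (2 / 5) * (pnII_p2x_p h e hτ fc)
    + (3 / 20) * (pnII_z1Ny_n h e hτ fc) + (1 / 4) * (pnII_z1Ey_p h e hτ fc)
    + (pnII_p4x_p h e hτ fc) + (1 / 5) * (pnII_k2Wx_p h e hτ fc) + (5 / 18) * hτ

theorem pnII_k3Wx_n (h : Lin2 τ c) (e : CsQ c) (hτ : 0 ≤ τ)
    (fc : 0 ≤ -8 + (3 / 4 * c.z1Ny - 1 / 2 * c.p2y - 7 / 4 * c.z1Ey + 5 / 2 * c.p4y - 1 / 4 * c.z3Wy - 3 / 4 * c.z3Sy - c.s1) + 71 * τ) :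
    0 ≤ 0 + 0 * τ + (c.k3Wx) := by
  linear_combination
    h.toLin.wLk3W

theorem pnII_k3Wy_p (h : Lin2 τ c) (e : CsQ c) (hτ : 0 ≤ τ)
    (fc : 0 ≤ -8 + (3 / 4 * c.z1Ny - 1 / 2 * c.p2y - 7 / 4 * c.z1Ey + 5 / 2 * c.p4y - 1 / 4 * c.z3Wy - 3 / 4 * c.z3Sy - c.s1) + 71 * τ) :
    0 ≤ 0 + 631 * τ + (-c.k3Wy) := by
  linear_combination
    (1 / 2) * h.toLin.p2_z1Nv + h.toLin.z1N_t1N + 2 * h.toLin.t1W_k3W + h.toLin.wRz1N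
    + h.toLin.wTt1N + h.toLin.wTt1W + e.2.1 + (pnII_z1Ny_n h e hτ fc) + (pnII_p2x_n h e hτ fc)
    + (1 / 2) * hτ

theorem pnII_k3Wy_n (h : Lin2 τ c) (e : CsQ c) (hτ : 0 ≤ τ)
    (fc : 0 ≤ -8 + (3 / 4 * c.z1Ny - 1 / 2 * c.p2y - 7 / 4 * c.z1Ey + 5 / 2 * c.p4y - 1 / 4 * c.z3Wy - 3 / 4 * c.z3Sy - c.s1) + 71 * τ) :
    0 ≤ 0 + 738 * τ + (c.k3Wy) := by
  linear_combination
    (1 / 2) * h.toLin.p2_z1Nv + 2 * h.toLin.z3W_k3W + h.toLin.wRz1N + h.c3 + e.2.1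
    + (pnII_p2x_n h e hτ fc) + (pnII_z3Wy_n h e hτ fc) + (1 / 2) * hτ

theorem pnII_k3Sx_p (h : Lin2 τ c) (e : CsQ c) (hτ : 0 ≤ τ)
    (fc : 0 ≤ -8 + (3 / 4 * c.z1Ny - 1 / 2 * c.p2y - 7 / 4 * c.z1Ey + 5 / 2 * c.p4y - 1 / 4 * c.z3Wy - 3 / 4 * c.z3Sy - c.s1) + 71 * τ) :
    0 ≤ 0 + 599 * τ + (-c.k3Sx) := by
  linear_combination
    (1 / 8) * h.toLin.p2_p4 + (1 / 8) * h.toLin.p2_z1Nv + (1 / 2) * h.toLin.p2_k3Wv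
    + (1 / 2) * h.toLin.p4_k3Sv + (1 / 4) * h.toLin.z1E_t2E + (1 / 2) * h.toLin.t2S_k3S
    + (1 / 4) * h.toLin.wRz1N + (1 / 4) * h.toLin.wBt2S + (1 / 4) * h.toLin.wBt2E + h.toLin.wLk3W
    + (1 / 4) * e.2.1 + (3 / 4) * (pnII_p2x_p h e hτ fc) + (1 / 4) * (pnII_z1Ey_p h e hτ fc)
    + (pnII_p4x_p h e hτ fc) + (1 / 4) * (pnII_k3Wy_p h e hτ fc)

theorem pnII_k3Sx_n (h : Lin2 τ c) (e : CsQ c) (hτ : 0 ≤ τ)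
    (fc : 0 ≤ -8 + (3 / 4 * c.z1Ny - 1 / 2 * c.p2y - 7 / 4 * c.z1Ey + 5 / 2 * c.p4y - 1 / 4 * c.z3Wy - 3 / 4 * c.z3Sy - c.s1) + 71 * τ) :
    0 ≤ 0 + 0 * τ + (c.k3Sx) := by
  linear_combination
    h.toLin.wLk3S

theorem pnII_k3Sy_p (h : Lin2 τ c) (e : CsQ c) (hτ : 0 ≤ τ)
    (fc : 0 ≤ -8 + (3 / 4 * c.z1Ny - 1 / 2 * c.p2y - 7 / 4 * c.z1Ey + 5 / 2 * c.p4y - 1 / 4 * c.z3Wy - 3 / 4 * c.z3Sy - c.s1) + 71 * τ) :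
    0 ≤ 0 + 594 * τ + (-c.k3Sy) := by
  linear_combination
    (49 / 163) * h.toLin.p2_p3 + (49 / 163) * h.toLin.p2_z1Nv + (17 / 326) * h.toLin.p2_z3Wv
    + (16 / 163) * h.toLin.p2_k3Wv + (64 / 163) * h.toLin.p3_gS + (2906 / 2445) * h.toLin.z3S_k3S
    + (1088 / 2445) * h.toLin.z3S_gSh + (2048 / 2445) * h.toLin.k3S_gSh
    + (98 / 163) * h.toLin.wRz1N + (17 / 163) * h.toLin.wLz3W + (17 / 163) * h.toLin.wLz3S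
    + (32 / 163) * h.toLin.wLk3W + (32 / 163) * h.toLin.wLk3S + (98 / 163) * h.c3
    + (98 / 163) * e.2.1 + (41 / 163) * (pnII_p2y_p h e hτ fc)
    + (16 / 163) * (pnII_p3y_p h e hτ fc) + (98 / 163) * (pnII_z3Sy_p h e hτ fc)
    + (8 / 163) * (pnII_k3Wy_p h e hτ fc) + (57 / 1630) * hτ

theorem pnII_k3Sy_n (h : Lin2 τ c) (e : CsQ c) (hτ : 0 ≤ τ)
    (fc : 0 ≤ -8 + (3 / 4 * c.z1Ny - 1 / 2 * c.p2y - 7 / 4 * c.z1Ey + 5 / 2 * c.p4y - 1 / 4 * c.z3Wy - 3 / 4 * c.z3Sy - c.s1) + 71 * τ) :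
    0 ≤ 0 + 590 * τ + (c.k3Sy) := by
  linear_combination
    (1 / 10) * h.toLin.p2_p4 + (3 / 10) * h.toLin.p2_z1Nv + (3 / 10) * h.toLin.z1N_t2N
    + (7 / 10) * h.toLin.z1E_t2E + 2 * h.toLin.t2S_k3S + (3 / 5) * h.toLin.wRz1N
    + (3 / 10) * h.toLin.wTt2N + h.toLin.wBt2S + (7 / 10) * h.toLin.wBt2E + (3 / 5) * e.2.1
    + (2 / 5) * fc + (4 / 5) * (pnII_p4y_p h e hτ fc) + (3 / 5) * (pnII_p2x_n h e hτ fc)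
    + (1 / 10) * (pnII_z3Wy_n h e hτ fc) + (3 / 10) * (pnII_z3Sy_n h e hτ fc) + (1 / 10) * hτ

theorem pnII_p3x_n (h : Lin2 τ c) (e : CsQ c) (hτ : 0 ≤ τ)
    (fc : 0 ≤ -8 + (3 / 4 * c.z1Ny - 1 / 2 * c.p2y - 7 / 4 * c.z1Ey + 5 / 2 * c.p4y - 1 / 4 * c.z3Wy - 3 / 4 * c.z3Sy - c.s1) + 71 * τ) :
    0 ≤ 0 + 510 * τ + (c.p3x) := by
  linear_combination
    (17 / 3420) * h.toLin.p2_z1Nv + (17 / 228) * h.toLin.p2_z3Wv + (8 / 57) * h.toLin.p2_k3Wv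
    + (65 / 114) * h.toLin.p3_z3Wu + (32 / 57) * h.toLin.p3_gS + (544 / 855) * h.toLin.z3S_gSh
    + (1024 / 855) * h.toLin.k3S_gSh + (17 / 1710) * h.toLin.wRz1N + (41 / 57) * h.toLin.wLz3W
    + (17 / 114) * h.toLin.wLz3S + (16 / 57) * h.toLin.wLk3W + (16 / 57) * h.toLin.wLk3S
    + (17 / 1710) * h.c3 + (17 / 1710) * e.2.1 + (359 / 855) * (pnII_p2x_p h e hτ fc)
    + (4 / 57) * (pnII_p2y_n h e hτ fc) + (65 / 114) * (pnII_z3Wy_p h e hτ fc)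
    + (17 / 1710) * (pnII_z3Sy_p h e hτ fc) + (4 / 57) * (pnII_k3Wy_p h e hτ fc)
    + (496 / 855) * (pnII_k3Sy_n h e hτ fc) + (134 / 285) * hτ

theorem pnII_p3y_n (h : Lin2 τ c) (e : CsQ c) (hτ : 0 ≤ τ)
    (fc : 0 ≤ -8 + (3 / 4 * c.z1Ny - 1 / 2 * c.p2y - 7 / 4 * c.z1Ey + 5 / 2 * c.p4y - 1 / 4 * c.z3Wy - 3 / 4 * c.z3Sy - c.s1) + 71 * τ) :
    0 ≤ (-1 / 2) + 899 * τ + (c.p3y) := by
  linear_combination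
    h.toLin.p4_p3 + (pnII_p4y_n h e hτ fc) + (pnII_p4x_p h e hτ fc) + (pnII_p3x_n h e hτ fc)

theorem pnII_eN1x_n (h : Lin2 τ c) (e : CsQ c) (hτ : 0 ≤ τ)
    (fc : 0 ≤ -8 + (3 / 4 * c.z1Ny - 1 / 2 * c.p2y - 7 / 4 * c.z1Ey + 5 / 2 * c.p4y - 1 / 4 * c.z3Wy - 3 / 4 * c.z3Sy - c.s1) + 71 * τ) :
    0 ≤ (7 / 8) + 5671 * τ + (c.eN1x) := by
  linear_combination
    (3 / 8) * h.toLin.p2_p3 + 2 * h.toLin.p2_eN1 + (3 / 4) * h.toLin.p3_k2Wv + 6 * h.toLin.k2N_eN1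
    + (3 / 2) * h.toLin.wTk2N + (3 / 2) * h.toLin.wTk2W + (9 / 8) * (pnII_p2y_n h e hτ fc)
    + (17 / 8) * (pnII_p2x_n h e hτ fc) + (3 / 2) * (pnII_k2Nx_p h e hτ fc)
    + (3 / 8) * (pnII_k2Wx_n h e hτ fc) + (15 / 8) * (pnII_p3y_n h e hτ fc)

theorem pnII_eN1y_n (h : Lin2 τ c) (e : CsQ c) (hτ : 0 ≤ τ)
    (fc : 0 ≤ -8 + (3 / 4 * c.z1Ny - 1 / 2 * c.p2y - 7 / 4 * c.z1Ey + 5 / 2 * c.p4y - 1 / 4 * c.z3Wy - 3 / 4 * c.z3Sy - c.s1) + 71 * τ) :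
    0 ≤ (-13 / 8) + 406 * τ + (c.eN1y) := by
  linear_combination
    (1 / 2) * h.toLin.p2_eN1 + (5 / 6) * h.toLin.z1N_eN1 + (5 / 8) * h.toLin.wRz1N
    + (5 / 8) * e.2.1 + (3 / 8) * (pnII_p2y_n h e hτ fc) + (5 / 8) * (pnII_z1Ny_n h e hτ fc)
    + (5 / 8) * (pnII_p2x_n h e hτ fc) + (5 / 12) * hτ

theorem pnII_eN1y_p (h : Lin2 τ c) (e : CsQ c) (hτ : 0 ≤ τ)
    (fc : 0 ≤ -8 + (3 / 4 * c.z1Ny - 1 / 2 * c.p2y - 7 / 4 * c.z1Ey + 5 / 2 * c.p4y - 1 / 4 * c.z3Wy - 3 / 4 * c.z3Sy - c.s1) + 71 * τ) :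
    0 ≤ (13 / 8) + 8725 * τ + (-c.eN1y) := by
  linear_combination
    (1 / 2) * h.toLin.p3_k2Wv + 4 * h.toLin.k2N_eN1 + h.toLin.wTk2N + h.toLin.wTk2W
    + (1 / 4) * (pnII_p3x_p h e hτ fc) + (pnII_k2Nx_p h e hτ fc)
    + (1 / 4) * (pnII_k2Wx_n h e hτ fc) + (pnII_p3y_n h e hτ fc) + (pnII_eN1x_n h e hτ fc)
    + (1 / 2) * hτ

theorem pnII_eN2x_n (h : Lin2 τ c) (e : CsQ c) (hτ : 0 ≤ τ)
    (fc : 0 ≤ -8 + (3 / 4 * c.z1Ny - 1 / 2 * c.p2y - 7 / 4 * c.z1Ey + 5 / 2 * c.p4y - 1 / 4 * c.z3Wy - 3 / 4 * c.z3Sy - c.s1) + 71 * τ) :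
    0 ≤ (3 / 4) + 772 * τ + (c.eN2x) := by
  linear_combination
    (1 / 12) * h.toLin.p2_p3 + (2 / 3) * h.toLin.p2_eN2 + (1 / 6) * h.toLin.p3_k2Wv
    + (2 / 3) * h.toLin.k2N_eN2 + (1 / 3) * h.toLin.wTk2N + (1 / 3) * h.toLin.wTk2W
    + (1 / 4) * (pnII_p2y_n h e hτ fc) + (11 / 12) * (pnII_p2x_n h e hτ fc)
    + (1 / 12) * (pnII_k2Wx_n h e hτ fc) + (5 / 12) * (pnII_p3y_n h e hτ fc)

theorem pnII_eN2y_p (h : Lin2 τ c) (e : CsQ c) (hτ : 0 ≤ τ)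
    (fc : 0 ≤ -8 + (3 / 4 * c.z1Ny - 1 / 2 * c.p2y - 7 / 4 * c.z1Ey + 5 / 2 * c.p4y - 1 / 4 * c.z3Wy - 3 / 4 * c.z3Sy - c.s1) + 71 * τ) :
    0 ≤ (7 / 4) + 1130 * τ + (-c.eN2y) := by
  linear_combination
    (1 / 2) * h.toLin.p3_k2Wv + 2 * h.toLin.k2N_eN2 + h.toLin.wTk2N + h.toLin.wTk2W
    + (1 / 4) * (pnII_p3x_p h e hτ fc) + (1 / 4) * (pnII_k2Wx_n h e hτ fc)
    + (pnII_p3y_n h e hτ fc) + (1 / 2) * hτ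

theorem pnII_eN2x_p (h : Lin2 τ c) (e : CsQ c) (hτ : 0 ≤ τ)
    (fc : 0 ≤ -8 + (3 / 4 * c.z1Ny - 1 / 2 * c.p2y - 7 / 4 * c.z1Ey + 5 / 2 * c.p4y - 1 / 4 * c.z3Wy - 3 / 4 * c.z3Sy - c.s1) + 71 * τ) :
    0 ≤ (-3 / 4) + 1415 * τ + (-c.eN2x) := by
  linear_combination
    2 * h.toLin.z1N_eN2 + h.toLin.wRz1N + e.2.1 + (pnII_z1Ny_n h e hτ fc)
    + (pnII_eN2y_p h e hτ fc)

theorem pnII_eN2y_n (h : Lin2 τ c) (e : CsQ c) (hτ : 0 ≤ τ)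
    (fc : 0 ≤ -8 + (3 / 4 * c.z1Ny - 1 / 2 * c.p2y - 7 / 4 * c.z1Ey + 5 / 2 * c.p4y - 1 / 4 * c.z3Wy - 3 / 4 * c.z3Sy - c.s1) + 71 * τ) :
    0 ≤ (-7 / 4) + 481 * τ + (c.eN2y) := by
  linear_combination
    (1 / 2) * h.toLin.p2_eN2 + (3 / 2) * h.toLin.z1N_eN2 + (3 / 4) * h.toLin.wRz1N
    + (3 / 4) * e.2.1 + (1 / 4) * (pnII_p2y_n h e hτ fc) + (3 / 4) * (pnII_z1Ny_n h e hτ fc)
    + (3 / 4) * (pnII_p2x_n h e hτ fc) + (1 / 2) * hτ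

theorem pnII_k2Wy_n (h : Lin2 τ c) (e : CsQ c) (hτ : 0 ≤ τ)
    (fc : 0 ≤ -8 + (3 / 4 * c.z1Ny - 1 / 2 * c.p2y - 7 / 4 * c.z1Ey + 5 / 2 * c.p4y - 1 / 4 * c.z3Wy - 3 / 4 * c.z3Sy - c.s1) + 71 * τ) :
    0 ≤ (-1) + 1611 * τ + (c.k2Wy) := by
  linear_combination
    (1 / 2) * h.toLin.p3_k2Wv + 2 * h.toLin.k2N_eN2 + h.toLin.wTk2N
    + (1 / 4) * (pnII_p3x_p h e hτ fc) + (1 / 4) * (pnII_k2Wx_n h e hτ fc)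
    + (pnII_p3y_n h e hτ fc) + (pnII_eN2y_n h e hτ fc) + (1 / 2) * hτ

theorem pnII_eS2x_n (h : Lin2 τ c) (e : CsQ c) (hτ : 0 ≤ τ)
    (fc : 0 ≤ -8 + (3 / 4 * c.z1Ny - 1 / 2 * c.p2y - 7 / 4 * c.z1Ey + 5 / 2 * c.p4y - 1 / 4 * c.z3Wy - 3 / 4 * c.z3Sy - c.s1) + 71 * τ) :
    0 ≤ (-3 / 4) + 217 * τ + (c.eS2x) := by
  linear_combination
    (1 / 2) * h.toLin.p2_k3Wv + 2 * h.toLin.k3S_eS2 + h.toLin.wLk3W + h.toLin.wLk3S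
    + (pnII_p2x_p h e hτ fc) + (1 / 4) * (pnII_p2y_n h e hτ fc)
    + (1 / 4) * (pnII_k3Wy_p h e hτ fc) + (1 / 2) * hτ

theorem pnII_eS2y_p (h : Lin2 τ c) (e : CsQ c) (hτ : 0 ≤ τ)
    (fc : 0 ≤ -8 + (3 / 4 * c.z1Ny - 1 / 2 * c.p2y - 7 / 4 * c.z1Ey + 5 / 2 * c.p4y - 1 / 4 * c.z3Wy - 3 / 4 * c.z3Sy - c.s1) + 71 * τ) :
    0 ≤ (1 / 4) + 164 * τ + (-c.eS2y) := by
  linear_combination
    (2 / 3) * h.toLin.p3_eS2 + (1 / 3) * (pnII_p3x_p h e hτ fc) + (pnII_p3y_p h e hτ fc)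
    + (1 / 3) * (pnII_eS2x_n h e hτ fc)

theorem pnII_s1_p (h : Lin2 τ c) (e : CsQ c) (hτ : 0 ≤ τ)
    (fc : 0 ≤ -8 + (3 / 4 * c.z1Ny - 1 / 2 * c.p2y - 7 / 4 * c.z1Ey + 5 / 2 * c.p4y - 1 / 4 * c.z3Wy - 3 / 4 * c.z3Sy - c.s1) + 71 * τ) :
    0 ≤ (1 / 2) + 345 * τ + (-c.s1) := by
  linear_combination
    (1 / 2) * h.toLin.p2_z1Nv + h.toLin.wRz1N + e.2.1 + (pnII_p2x_n h e hτ fc) + (1 / 2) * hτ

theorem pnII_s1_n (h : Lin2 τ c) (e : CsQ c) (hτ : 0 ≤ τ)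
    (fc : 0 ≤ -8 + (3 / 4 * c.z1Ny - 1 / 2 * c.p2y - 7 / 4 * c.z1Ey + 5 / 2 * c.p4y - 1 / 4 * c.z3Wy - 3 / 4 * c.z3Sy - c.s1) + 71 * τ) :
    0 ≤ (-1 / 2) + 50 * τ + (c.s1) := by
  linear_combination
    (1 / 2) * h.toLin.p4_z1Eu + h.toLin.wRz1E + (1 / 2) * e.1 + (pnII_p4x_n h e hτ fc)
    + (1 / 2) * hτ

theorem pnII_h1_p (h : Lin2 τ c) (e : CsQ c) (hτ : 0 ≤ τ)
    (fc : 0 ≤ -8 + (3 / 4 * c.z1Ny - 1 / 2 * c.p2y - 7 / 4 * c.z1Ey + 5 / 2 * c.p4y - 1 / 4 * c.z3Wy - 3 / 4 * c.z3Sy - c.s1) + 71 * τ) :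
    0 ≤ (-1 / 2) + 50 * τ + (-c.h1) := by
  linear_combination
    e.2.1 + (pnII_s1_n h e hτ fc)

theorem pnII_h1_n (h : Lin2 τ c) (e : CsQ c) (hτ : 0 ≤ τ)
    (fc : 0 ≤ -8 + (3 / 4 * c.z1Ny - 1 / 2 * c.p2y - 7 / 4 * c.z1Ey + 5 / 2 * c.p4y - 1 / 4 * c.z3Wy - 3 / 4 * c.z3Sy - c.s1) + 71 * τ) :
    0 ≤ (1 / 2) + 345 * τ + (c.h1) := by
  linear_combination
    e.1 + (pnII_s1_p h e hτ fc)

theorem pnII_s3_p (h : Lin2 τ c) (e : CsQ c) (hτ : 0 ≤ τ)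
    (fc : 0 ≤ -8 + (3 / 4 * c.z1Ny - 1 / 2 * c.p2y - 7 / 4 * c.z1Ey + 5 / 2 * c.p4y - 1 / 4 * c.z3Wy - 3 / 4 * c.z3Sy - c.s1) + 71 * τ) :
    0 ≤ (1 / 2) + 346 * τ + (-c.s3) := by
  linear_combination
    h.c3 + (pnII_s1_p h e hτ fc)

theorem pnII_s3_n (h : Lin2 τ c) (e : CsQ c) (hτ : 0 ≤ τ)
    (fc : 0 ≤ -8 + (3 / 4 * c.z1Ny - 1 / 2 * c.p2y - 7 / 4 * c.z1Ey + 5 / 2 * c.p4y - 1 / 4 * c.z3Wy - 3 / 4 * c.z3Sy - c.s1) + 71 * τ) :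
    0 ≤ (-1 / 2) + 51 * τ + (c.s3) := by
  linear_combination
    h.c4 + (pnII_s1_n h e hτ fc)

theorem pnII_h3_p (h : Lin2 τ c) (e : CsQ c) (hτ : 0 ≤ τ)
    (fc : 0 ≤ -8 + (3 / 4 * c.z1Ny - 1 / 2 * c.p2y - 7 / 4 * c.z1Ey + 5 / 2 * c.p4y - 1 / 4 * c.z3Wy - 3 / 4 * c.z3Sy - c.s1) + 71 * τ) :
    0 ≤ (1 / 2) + 346 * τ + (-c.h3) := by
  linear_combination
    (1 / 2) * h.toLin.p4_z3Sv + h.toLin.wLz3S + (pnII_p4x_p h e hτ fc) + (1 / 2) * hτ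

theorem pnII_h3_n (h : Lin2 τ c) (e : CsQ c) (hτ : 0 ≤ τ)
    (fc : 0 ≤ -8 + (3 / 4 * c.z1Ny - 1 / 2 * c.p2y - 7 / 4 * c.z1Ey + 5 / 2 * c.p4y - 1 / 4 * c.z3Wy - 3 / 4 * c.z3Sy - c.s1) + 71 * τ) :
    0 ≤ (-1 / 2) + 49 * τ + (c.h3) := by
  linear_combination
    (1 / 2) * h.toLin.p2_z3Wv + h.toLin.wLz3W + (pnII_p2x_p h e hτ fc) + (1 / 2) * hτ

theorem pnII_t1x_p (h : Lin2 τ c) (e : CsQ c) (hτ : 0 ≤ τ)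
    (fc : 0 ≤ -8 + (3 / 4 * c.z1Ny - 1 / 2 * c.p2y - 7 / 4 * c.z1Ey + 5 / 2 * c.p4y - 1 / 4 * c.z3Wy - 3 / 4 * c.z3Sy - c.s1) + 71 * τ) :
    0 ≤ 1 + 596 * τ + (-c.t1x) := by
  linear_combination
    2 * h.toLin.t1S_k3S + h.toLin.wBt1S + (pnII_k3Sy_p h e hτ fc)

theorem pnII_t1x_n (h : Lin2 τ c) (e : CsQ c) (hτ : 0 ≤ τ)
    (fc : 0 ≤ -8 + (3 / 4 * c.z1Ny - 1 / 2 * c.p2y - 7 / 4 * c.z1Ey + 5 / 2 * c.p4y - 1 / 4 * c.z3Wy - 3 / 4 * c.z3Sy - c.s1) + 71 * τ) :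
    0 ≤ (-1) + 629 * τ + (c.t1x) := by
  linear_combination
    h.toLin.z1N_t1N + h.toLin.wTt1N + (pnII_z1Ny_n h e hτ fc) + (pnII_s1_p h e hτ fc)

theorem pnII_t1y_p (h : Lin2 τ c) (e : CsQ c) (hτ : 0 ≤ τ)
    (fc : 0 ≤ -8 + (3 / 4 * c.z1Ny - 1 / 2 * c.p2y - 7 / 4 * c.z1Ey + 5 / 2 * c.p4y - 1 / 4 * c.z3Wy - 3 / 4 * c.z3Sy - c.s1) + 71 * τ) :
    0 ≤ 1 + 1101 * τ + (-c.t1y) := by
  linear_combination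
    (2 / 3) * h.toLin.p4_eS2 + 2 * h.toLin.t1S_eS2 + h.toLin.wLt1S + h.toLin.wBt1S
    + (1 / 3) * (pnII_p4y_p h e hτ fc) + (pnII_p4x_p h e hτ fc)
    + (2 / 3) * (pnII_eS2y_p h e hτ fc) + (pnII_t1x_n h e hτ fc) + (1 / 3) * hτ

theorem pnII_t1y_n (h : Lin2 τ c) (e : CsQ c) (hτ : 0 ≤ τ)
    (fc : 0 ≤ -8 + (3 / 4 * c.z1Ny - 1 / 2 * c.p2y - 7 / 4 * c.z1Ey + 5 / 2 * c.p4y - 1 / 4 * c.z3Wy - 3 / 4 * c.z3Sy - c.s1) + 71 * τ) :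
    0 ≤ (-1) + 452 * τ + (c.t1y) := by
  linear_combination
    2 * h.toLin.t1W_k2W + h.toLin.wLt1W + (pnII_k2Wx_p h e hτ fc)

theorem pnII_t2x_p (h : Lin2 τ c) (e : CsQ c) (hτ : 0 ≤ τ)
    (fc : 0 ≤ -8 + (3 / 4 * c.z1Ny - 1 / 2 * c.p2y - 7 / 4 * c.z1Ey + 5 / 2 * c.p4y - 1 / 4 * c.z3Wy - 3 / 4 * c.z3Sy - c.s1) + 71 * τ) :
    0 ≤ 1 + 596 * τ + (-c.t2x) := by
  linear_combination
    2 * h.toLin.t2S_k3S + h.toLin.wBt2S + (pnII_k3Sy_p h e hτ fc)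

theorem pnII_t2x_n (h : Lin2 τ c) (e : CsQ c) (hτ : 0 ≤ τ)
    (fc : 0 ≤ -8 + (3 / 4 * c.z1Ny - 1 / 2 * c.p2y - 7 / 4 * c.z1Ey + 5 / 2 * c.p4y - 1 / 4 * c.z3Wy - 3 / 4 * c.z3Sy - c.s1) + 71 * τ) :
    0 ≤ (-1) + 579 * τ + (c.t2x) := by
  linear_combination
    h.toLin.z1E_t2E + h.toLin.wBt2E + (pnII_z1Ey_p h e hτ fc) + (pnII_s1_p h e hτ fc)

theorem pnII_k2_p (h : Lin2 τ c) (e : CsQ c) (hτ : 0 ≤ τ)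
    (fc : 0 ≤ -8 + (3 / 4 * c.z1Ny - 1 / 2 * c.p2y - 7 / 4 * c.z1Ey + 5 / 2 * c.p4y - 1 / 4 * c.z3Wy - 3 / 4 * c.z3Sy - c.s1) + 71 * τ) :
    0 ≤ (3 / 4) + 1128 * τ + (-c.k2) := by
  linear_combination
    (1 / 2) * h.toLin.p3_k2Wv + h.toLin.wTk2W + (1 / 4) * (pnII_p3x_p h e hτ fc)
    + (1 / 4) * (pnII_k2Wx_n h e hτ fc) + (pnII_p3y_n h e hτ fc) + (1 / 2) * hτ

theorem pnII_k2_n (h : Lin2 τ c) (e : CsQ c) (hτ : 0 ≤ τ)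
    (fc : 0 ≤ -8 + (3 / 4 * c.z1Ny - 1 / 2 * c.p2y - 7 / 4 * c.z1Ey + 5 / 2 * c.p4y - 1 / 4 * c.z3Wy - 3 / 4 * c.z3Sy - c.s1) + 71 * τ) :
    0 ≤ (-3 / 4) + 483 * τ + (c.k2) := by
  linear_combination
    2 * h.toLin.k2N_eN2 + h.toLin.wTk2N + (pnII_eN2y_n h e hτ fc)

theorem pnII_k3_p (h : Lin2 τ c) (e : CsQ c) (hτ : 0 ≤ τ)
    (fc : 0 ≤ -8 + (3 / 4 * c.z1Ny - 1 / 2 * c.p2y - 7 / 4 * c.z1Ey + 5 / 2 * c.p4y - 1 / 4 * c.z3Wy - 3 / 4 * c.z3Sy - c.s1) + 71 * τ) :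
    0 ≤ (3 / 4) + 504 * τ + (-c.k3) := by
  linear_combination
    (1 / 2) * h.toLin.p4_k3Sv + h.toLin.wLk3S + (1 / 4) * (pnII_p4y_p h e hτ fc)
    + (pnII_p4x_p h e hτ fc) + (1 / 4) * (pnII_k3Sy_n h e hτ fc)

theorem pnII_k3_n (h : Lin2 τ c) (e : CsQ c) (hτ : 0 ≤ τ)
    (fc : 0 ≤ -8 + (3 / 4 * c.z1Ny - 1 / 2 * c.p2y - 7 / 4 * c.z1Ey + 5 / 2 * c.p4y - 1 / 4 * c.z3Wy - 3 / 4 * c.z3Sy - c.s1) + 71 * τ) :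
    0 ≤ (-3 / 4) + 215 * τ + (c.k3) := by
  linear_combination
    (1 / 2) * h.toLin.p2_k3Wv + h.toLin.wLk3W + (pnII_p2x_p h e hτ fc)
    + (1 / 4) * (pnII_p2y_n h e hτ fc) + (1 / 4) * (pnII_k3Wy_p h e hτ fc) + (1 / 2) * hτ

theorem pnII_gNu_p (h : Lin2 τ c) (e : CsQ c) (hτ : 0 ≤ τ)
    (fc : 0 ≤ -8 + (3 / 4 * c.z1Ny - 1 / 2 * c.p2y - 7 / 4 * c.z1Ey + 5 / 2 * c.p4y - 1 / 4 * c.z3Wy - 3 / 4 * c.z3Sy - c.s1) + 71 * τ) :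
    0 ≤ (153 / 128) + 859 * τ + (-c.gNu) := by
  linear_combination
    (7 / 55) * h.toLin.p2_gN + (57 / 55) * h.toLin.eN2_gN + (7 / 3520) * (pnII_p2y_n h e hτ fc)
    + (791 / 3520) * (pnII_p2x_n h e hτ fc) + (969 / 3520) * (pnII_eN2x_n h e hτ fc)
    + (1767 / 3520) * (pnII_eN2y_p h e hτ fc) + (2471 / 3520) * hτ

theorem pnII_k2Nx_n (h : Lin2 τ c) (e : CsQ c) (hτ : 0 ≤ τ)
    (fc : 0 ≤ -8 + (3 / 4 * c.z1Ny - 1 / 2 * c.p2y - 7 / 4 * c.z1Ey + 5 / 2 * c.p4y - 1 / 4 * c.z3Wy - 3 / 4 * c.z3Sy - c.s1) + 71 * τ) :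
    0 ≤ 1 + 1659 * τ + (c.k2Nx) := by
  linear_combination
    (4 / 5) * h.toLin.p2_eN1 + 4 * h.toLin.k2N_eN1 + h.toLin.wTk2N
    + (3 / 5) * (pnII_p2y_n h e hτ fc) + (pnII_p2x_n h e hτ fc)
    + (2 / 5) * (pnII_eN1y_n h e hτ fc) + (pnII_k2_p h e hτ fc)

theorem pnII_gNv_p (h : Lin2 τ c) (e : CsQ c) (hτ : 0 ≤ τ)
    (fc : 0 ≤ -8 + (3 / 4 * c.z1Ny - 1 / 2 * c.p2y - 7 / 4 * c.z1Ey + 5 / 2 * c.p4y - 1 / 4 * c.z3Wy - 3 / 4 * c.z3Sy - c.s1) + 71 * τ) :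
    0 ≤ (-11 / 16) + 110 * τ + (-c.gNv) := by
  linear_combination
    (7 / 17) * h.toLin.p4_hNv + (1 / 17) * h.toLin.p3_hNv + (32 / 53) * h.toLin.gN_hN
    + (105 / 272) * (pnII_p4x_n h e hτ fc) + (133 / 272) * (pnII_p4y_n h e hτ fc)
    + (31 / 272) * (pnII_p3x_n h e hτ fc) + (3 / 272) * (pnII_p3y_n h e hτ fc)
    + (13609 / 14416) * hτ

theorem pnII_gNu_n (h : Lin2 τ c) (e : CsQ c) (hτ : 0 ≤ τ)
    (fc : 0 ≤ -8 + (3 / 4 * c.z1Ny - 1 / 2 * c.p2y - 7 / 4 * c.z1Ey + 5 / 2 * c.p4y - 1 / 4 * c.z3Wy - 3 / 4 * c.z3Sy - c.s1) + 71 * τ) :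
    0 ≤ (-153 / 128) + 162 * τ + (c.gNu) := by
  linear_combination
    4 * h.toLin.z1N_gNh + (15 / 16) * h.toLin.wRz1N + (1 / 16) * e.2.1
    + (1 / 16) * (pnII_z1Ny_n h e hτ fc) + (7 / 8) * (pnII_h1_p h e hτ fc)
    + (7 / 8) * (pnII_gNv_p h e hτ fc) + (5 / 16) * hτ

theorem pnII_eN1x_p (h : Lin2 τ c) (e : CsQ c) (hτ : 0 ≤ τ)
    (fc : 0 ≤ -8 + (3 / 4 * c.z1Ny - 1 / 2 * c.p2y - 7 / 4 * c.z1Ey + 5 / 2 * c.p4y - 1 / 4 * c.z3Wy - 3 / 4 * c.z3Sy - c.s1) + 71 * τ) :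
    0 ≤ (-7 / 8) + 1670 * τ + (-c.eN1x) := by
  linear_combination
    (2 / 3) * h.toLin.z1N_eN1 + 2 * h.toLin.k2N_eN1 + (1 / 2) * h.toLin.wRz1N
    + (1 / 2) * h.toLin.wTk2N + (1 / 2) * e.2.1 + (1 / 2) * (pnII_z1Ny_n h e hτ fc)
    + (1 / 2) * (pnII_k2Nx_p h e hτ fc) + (1 / 2) * (pnII_k2_p h e hτ fc) + (5 / 6) * hτ

theorem pnII_eS2x_p (h : Lin2 τ c) (e : CsQ c) (hτ : 0 ≤ τ)
    (fc : 0 ≤ -8 + (3 / 4 * c.z1Ny - 1 / 2 * c.p2y - 7 / 4 * c.z1Ey + 5 / 2 * c.p4y - 1 / 4 * c.z3Wy - 3 / 4 * c.z3Sy - c.s1) + 71 * τ) :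
    0 ≤ (3 / 4) + 1082 * τ + (-c.eS2x) := by
  linear_combination
    h.toLin.p4_eS2 + h.toLin.t1S_eS2 + (1 / 2) * h.toLin.wLt1S + (1 / 2) * h.toLin.wBt1S
    + (1 / 2) * (pnII_p4y_p h e hτ fc) + (3 / 2) * (pnII_p4x_p h e hτ fc)
    + (1 / 2) * (pnII_t1x_n h e hτ fc) + (1 / 2) * (pnII_t1y_n h e hτ fc)

theorem pnII_eS2y_n (h : Lin2 τ c) (e : CsQ c) (hτ : 0 ≤ τ)
    (fc : 0 ≤ -8 + (3 / 4 * c.z1Ny - 1 / 2 * c.p2y - 7 / 4 * c.z1Ey + 5 / 2 * c.p4y - 1 / 4 * c.z3Wy - 3 / 4 * c.z3Sy - c.s1) + 71 * τ) :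
    0 ≤ (-1 / 4) + 2165 * τ + (c.eS2y) := by
  linear_combination
    2 * h.toLin.t1S_eS2 + h.toLin.wLt1S + h.toLin.wBt1S + (pnII_t1x_n h e hτ fc)
    + (pnII_t1y_n h e hτ fc) + (pnII_eS2x_p h e hτ fc)

theorem pnII_gSu_p (h : Lin2 τ c) (e : CsQ c) (hτ : 0 ≤ τ)
    (fc : 0 ≤ -8 + (3 / 4 * c.z1Ny - 1 / 2 * c.p2y - 7 / 4 * c.z1Ey + 5 / 2 * c.p4y - 1 / 4 * c.z3Wy - 3 / 4 * c.z3Sy - c.s1) + 71 * τ) :
    0 ≤ (25 / 128) + 1464 * τ + (-c.gSu) := by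
  linear_combination
    (7 / 55) * h.toLin.p4_gS + (57 / 55) * h.toLin.eS2_gS + (7 / 3520) * (pnII_p4y_p h e hτ fc)
    + (791 / 3520) * (pnII_p4x_p h e hτ fc) + (969 / 3520) * (pnII_eS2x_p h e hτ fc)
    + (1767 / 3520) * (pnII_eS2y_n h e hτ fc) + (123 / 220) * hτ

theorem pnII_gSv_p (h : Lin2 τ c) (e : CsQ c) (hτ : 0 ≤ τ)
    (fc : 0 ≤ -8 + (3 / 4 * c.z1Ny - 1 / 2 * c.p2y - 7 / 4 * c.z1Ey + 5 / 2 * c.p4y - 1 / 4 * c.z3Wy - 3 / 4 * c.z3Sy - c.s1) + 71 * τ) :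
    0 ≤ (5 / 16) + 99 * τ + (-c.gSv) := by
  linear_combination
    (4 / 57) * h.toLin.p4_gS + (28 / 57) * h.toLin.p3_gS + (1 / 912) * (pnII_p4y_p h e hτ fc)
    + (343 / 912) * (pnII_p3x_p h e hτ fc) + (455 / 912) * (pnII_p3y_p h e hτ fc)
    + (113 / 912) * (pnII_p4x_p h e hτ fc) + (61 / 76) * hτ

theorem pnII_hNu_p (h : Lin2 τ c) (e : CsQ c) (hτ : 0 ≤ τ)
    (fc : 0 ≤ -8 + (3 / 4 * c.z1Ny - 1 / 2 * c.p2y - 7 / 4 * c.z1Ey + 5 / 2 * c.p4y - 1 / 4 * c.z3Wy - 3 / 4 * c.z3Sy - c.s1) + 71 * τ) :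
    0 ≤ (25 / 32) + 284 * τ + (-c.hNu) := by
  linear_combination
    (5 / 9) * h.toLin.p2_hN + (1 / 27) * h.toLin.eN2_hN + (65 / 144) * (pnII_p2y_p h e hτ fc)
    + (25 / 48) * (pnII_p2x_n h e hτ fc) + (7 / 144) * (pnII_eN2y_p h e hτ fc)
    + (1 / 48) * (pnII_eN2x_p h e hτ fc) + (91 / 216) * hτ

theorem pnII_hNv_p (h : Lin2 τ c) (e : CsQ c) (hτ : 0 ≤ τ)
    (fc : 0 ≤ -8 + (3 / 4 * c.z1Ny - 1 / 2 * c.p2y - 7 / 4 * c.z1Ey + 5 / 2 * c.p4y - 1 / 4 * c.z3Wy - 3 / 4 * c.z3Sy - c.s1) + 71 * τ) :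
    0 ≤ (-11 / 16) + 109 * τ + (-c.hNv) := by
  linear_combination
    (7 / 17) * h.toLin.p4_hNv + (1 / 17) * h.toLin.p3_hNv + (105 / 272) * (pnII_p4x_n h e hτ fc)
    + (133 / 272) * (pnII_p4y_n h e hτ fc) + (31 / 272) * (pnII_p3x_n h e hτ fc)
    + (3 / 272) * (pnII_p3y_n h e hτ fc) + (149 / 272) * hτ

theorem pnII_gSu_n (h : Lin2 τ c) (e : CsQ c) (hτ : 0 ≤ τ)
    (fc : 0 ≤ -8 + (3 / 4 * c.z1Ny - 1 / 2 * c.p2y - 7 / 4 * c.z1Ey + 5 / 2 * c.p4y - 1 / 4 * c.z3Wy - 3 / 4 * c.z3Sy - c.s1) + 71 * τ) :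
    0 ≤ (-25 / 128) + 164 * τ + (c.gSu) := by
  linear_combination
    (7 / 16) * h.toLin.p3_gS + (57 / 16) * h.toLin.z3S_gSh + (855 / 1024) * h.toLin.wLz3S
    + (343 / 1024) * (pnII_p3x_p h e hτ fc) + (455 / 1024) * (pnII_p3y_p h e hτ fc)
    + (57 / 1024) * (pnII_z3Sy_p h e hτ fc) + (57 / 1024) * (pnII_s3_p h e hτ fc)
    + (855 / 1024) * (pnII_h3_n h e hτ fc) + (965 / 1024) * hτ

theorem pnII_gSv_n (h : Lin2 τ c) (e : CsQ c) (hτ : 0 ≤ τ)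
    (fc : 0 ≤ -8 + (3 / 4 * c.z1Ny - 1 / 2 * c.p2y - 7 / 4 * c.z1Ey + 5 / 2 * c.p4y - 1 / 4 * c.z3Wy - 3 / 4 * c.z3Sy - c.s1) + 71 * τ) :
    0 ≤ (-5 / 16) + 527 * τ + (c.gSv) := by
  linear_combination
    (32 / 23) * h.toLin.k3S_gSh + (15 / 46) * h.toLin.wLk3S + (31 / 46) * (pnII_k3Sy_n h e hτ fc)
    + (15 / 46) * (pnII_k3_n h e hτ fc) + (8 / 23) * (pnII_gSu_n h e hτ fc) + (39 / 46) * hτ

theorem pnII_gNv_n (h : Lin2 τ c) (e : CsQ c) (hτ : 0 ≤ τ)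
    (fc : 0 ≤ -8 + (3 / 4 * c.z1Ny - 1 / 2 * c.p2y - 7 / 4 * c.z1Ey + 5 / 2 * c.p4y - 1 / 4 * c.z3Wy - 3 / 4 * c.z3Sy - c.s1) + 71 * τ) :
    0 ≤ (11 / 16) + 902 * τ + (c.gNv) := by
  linear_combination
    (80 / 29) * h.toLin.z1N_gNh + (16 / 29) * h.toLin.k2N_gNh + (75 / 116) * h.toLin.wRz1N
    + (63 / 116) * h.toLin.wTk2N + (5 / 116) * e.2.1 + (5 / 116) * (pnII_z1Ny_n h e hτ fc)
    + (35 / 58) * (pnII_h1_p h e hτ fc) + (63 / 116) * (pnII_k2_p h e hτ fc)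
    + (17 / 116) * (pnII_k2Nx_n h e hτ fc) + (33 / 58) * hτ

theorem pnII_hNv_n (h : Lin2 τ c) (e : CsQ c) (hτ : 0 ≤ τ)
    (fc : 0 ≤ -8 + (3 / 4 * c.z1Ny - 1 / 2 * c.p2y - 7 / 4 * c.z1Ey + 5 / 2 * c.p4y - 1 / 4 * c.z3Wy - 3 / 4 * c.z3Sy - c.s1) + 71 * τ) :
    0 ≤ (11 / 16) + 903 * τ + (c.hNv) := by
  linear_combination
    (32 / 53) * h.toLin.gN_hN + (pnII_gNv_n h e hτ fc) + (21 / 53) * hτ

theorem pnII_hNu_n (h : Lin2 τ c) (e : CsQ c) (hτ : 0 ≤ τ)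
    (fc : 0 ≤ -8 + (3 / 4 * c.z1Ny - 1 / 2 * c.p2y - 7 / 4 * c.z1Ey + 5 / 2 * c.p4y - 1 / 4 * c.z3Wy - 3 / 4 * c.z3Sy - c.s1) + 71 * τ) :
    0 ≤ (-25 / 32) + 8068 * τ + (c.hNu) := by
  linear_combination
    4 * h.toLin.p4_hNv + (15 / 4) * (pnII_p4x_n h e hτ fc) + (19 / 4) * (pnII_p4y_n h e hτ fc)
    + (17 / 2) * (pnII_hNv_n h e hτ fc) + (1 / 2) * hτ

theorem fmII_0_p (h : Lin2 τ c) (e : CsQ c) (hτ : 0 ≤ τ)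
    (fc : 0 ≤ -8 + (3 / 4 * c.z1Ny - 1 / 2 * c.p2y - 7 / 4 * c.z1Ey + 5 / 2 * c.p4y - 1 / 4 * c.z3Wy - 3 / 4 * c.z3Sy - c.s1) + 71 * τ) :
    0 ≤ (1 / 2) + 1711 * τ + (-c.z1Nx + c.t1Nx - c.h1 + c.t1y) := by
  linear_combination
    2 * h.toLin.t1N_k2N + h.toLin.wRz1N + (pnII_h1_p h e hτ fc) + (pnII_k2Nx_n h e hτ fc)

theorem fmII_0_n (h : Lin2 τ c) (e : CsQ c) (hτ : 0 ≤ τ)
    (fc : 0 ≤ -8 + (3 / 4 * c.z1Ny - 1 / 2 * c.p2y - 7 / 4 * c.z1Ey + 5 / 2 * c.p4y - 1 / 4 * c.z3Wy - 3 / 4 * c.z3Sy - c.s1) + 71 * τ) :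
    0 ≤ (3 / 2) + 1446 * τ + (c.z1Nx - c.t1Nx + c.h1 - c.t1y) := by
  linear_combination
    (1 / 2) * h.toLin.p2_z1Nv + h.toLin.wRt1N + (pnII_p2x_n h e hτ fc) + (pnII_t1y_p h e hτ fc)
    + (1 / 2) * hτ

theorem fmII_1_p (h : Lin2 τ c) (e : CsQ c) (hτ : 0 ≤ τ)
    (fc : 0 ≤ -8 + (3 / 4 * c.z1Ny - 1 / 2 * c.p2y - 7 / 4 * c.z1Ey + 5 / 2 * c.p4y - 1 / 4 * c.z3Wy - 3 / 4 * c.z3Sy - c.s1) + 71 * τ) :
    0 ≤ (7 / 2) + 4208 * τ + (-c.z1Nx + c.t1Nx + c.h1 - c.t1y) := by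
  linear_combination
    2 * h.toLin.t1N_k2N + h.toLin.wRz1N + (pnII_h1_n h e hτ fc) + 2 * (pnII_t1y_p h e hτ fc)
    + (pnII_k2Nx_n h e hτ fc)

theorem fmII_1_n (h : Lin2 τ c) (e : CsQ c) (hτ : 0 ≤ τ)
    (fc : 0 ≤ -8 + (3 / 4 * c.z1Ny - 1 / 2 * c.p2y - 7 / 4 * c.z1Ey + 5 / 2 * c.p4y - 1 / 4 * c.z3Wy - 3 / 4 * c.z3Sy - c.s1) + 71 * τ) :
    0 ≤ (-3 / 2) + 504 * τ + (c.z1Nx - c.t1Nx - c.h1 + c.t1y) := by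
  linear_combination
    h.toLin.wRt1N + (pnII_z1Nx_n h e hτ fc) + (pnII_h1_p h e hτ fc) + (pnII_t1y_n h e hτ fc)

theorem fmII_2_p (h : Lin2 τ c) (e : CsQ c) (hτ : 0 ≤ τ)
    (fc : 0 ≤ -8 + (3 / 4 * c.z1Ny - 1 / 2 * c.p2y - 7 / 4 * c.z1Ey + 5 / 2 * c.p4y - 1 / 4 * c.z3Wy - 3 / 4 * c.z3Sy - c.s1) + 71 * τ) :
    0 ≤ (3 / 2) + 27198 * τ + (-c.z1Ex + c.t2Ex + c.h1 - c.t2y) := by
  linear_combination
    32 * h.toLin.p4_gE + (1184 / 5) * h.toLin.z1E_gEh + (64 / 15) * h.toLin.t2E_gEh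
    + (113 / 2) * h.toLin.wRz1E + (21 / 5) * h.toLin.wBt2E + (113 / 2) * (pnII_p4x_n h e hτ fc)
    + (1 / 2) * (pnII_p4y_p h e hτ fc) + (37 / 10) * (pnII_z1Ey_p h e hτ fc)
    + (37 / 10) * (pnII_s1_p h e hτ fc) + (113 / 2) * (pnII_h1_n h e hτ fc)
    + (21 / 5) * (pnII_t2x_p h e hτ fc) + (2 / 15) * hτ

theorem fmII_2_n (h : Lin2 τ c) (e : CsQ c) (hτ : 0 ≤ τ)
    (fc : 0 ≤ -8 + (3 / 4 * c.z1Ny - 1 / 2 * c.p2y - 7 / 4 * c.z1Ey + 5 / 2 * c.p4y - 1 / 4 * c.z3Wy - 3 / 4 * c.z3Sy - c.s1) + 71 * τ) :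
    0 ≤ (1 / 2) + 1711 * τ + (c.z1Ex - c.t2Ex - c.h1 + c.t2y) := by
  linear_combination
    (1 / 2) * h.toLin.p4_z1Ev + 2 * h.toLin.t2N_k2N + h.toLin.wRt2N + h.toLin.wRt2E
    + (pnII_p4x_n h e hτ fc) + (pnII_k2Nx_n h e hτ fc) + (1 / 2) * hτ

theorem fmII_3_p (h : Lin2 τ c) (e : CsQ c) (hτ : 0 ≤ τ)
    (fc : 0 ≤ -8 + (3 / 4 * c.z1Ny - 1 / 2 * c.p2y - 7 / 4 * c.z1Ey + 5 / 2 * c.p4y - 1 / 4 * c.z3Wy - 3 / 4 * c.z3Sy - c.s1) + 71 * τ) :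
    0 ≤ (5 / 2) + 29830 * τ + (-c.z1Ex + c.t2Ex - c.h1 + c.t2y) := by
  linear_combination
    32 * h.toLin.p4_gE + (1184 / 5) * h.toLin.z1E_gEh + 4 * h.toLin.t2N_k2N
    + (64 / 15) * h.toLin.t2E_gEh + (113 / 2) * h.toLin.wRz1E + 2 * h.toLin.wRt2N
    + (21 / 5) * h.toLin.wBt2E + (113 / 2) * (pnII_p4x_n h e hτ fc)
    + (1 / 2) * (pnII_p4y_p h e hτ fc) + (37 / 10) * (pnII_z1Ey_p h e hτ fc)
    + (37 / 10) * (pnII_s1_p h e hτ fc) + (109 / 2) * (pnII_h1_n h e hτ fc)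
    + (21 / 5) * (pnII_t2x_p h e hτ fc) + 2 * (pnII_k2Nx_n h e hτ fc) + (2 / 15) * hτ

theorem fmII_3_n (h : Lin2 τ c) (e : CsQ c) (hτ : 0 ≤ τ)
    (fc : 0 ≤ -8 + (3 / 4 * c.z1Ny - 1 / 2 * c.p2y - 7 / 4 * c.z1Ey + 5 / 2 * c.p4y - 1 / 4 * c.z3Wy - 3 / 4 * c.z3Sy - c.s1) + 71 * τ) :
    0 ≤ (3 / 2) + 2174 * τ + (c.z1Ex - c.t2Ex + c.h1 - c.t2y) := by
  linear_combination
    2 * h.toLin.t2S_eS2 + h.toLin.wLt2S + h.toLin.wBt2S + h.toLin.wRt2E + (pnII_z1Ex_n h e hτ fc)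
    + (pnII_eS2y_p h e hτ fc) + (pnII_h1_n h e hτ fc) + (pnII_t2x_n h e hτ fc)
    + (pnII_eS2x_p h e hτ fc)

theorem fmII_4_p (h : Lin2 τ c) (e : CsQ c) (hτ : 0 ≤ τ)
    (fc : 0 ≤ -8 + (3 / 4 * c.z1Ny - 1 / 2 * c.p2y - 7 / 4 * c.z1Ey + 5 / 2 * c.p4y - 1 / 4 * c.z3Wy - 3 / 4 * c.z3Sy - c.s1) + 71 * τ) :
    0 ≤ (3 / 2) + 2007 * τ + (-c.z3Sx + c.t2Sx - c.h3 + c.t2y) := by
  linear_combination
    (1 / 2) * h.toLin.p4_z3Sv + 2 * h.toLin.t2N_k2N + h.toLin.wRt2N + h.toLin.wLt2S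
    + (pnII_p4x_p h e hτ fc) + (pnII_k2Nx_n h e hτ fc) + (1 / 2) * hτ

theorem fmII_4_n (h : Lin2 τ c) (e : CsQ c) (hτ : 0 ≤ τ)
    (fc : 0 ≤ -8 + (3 / 4 * c.z1Ny - 1 / 2 * c.p2y - 7 / 4 * c.z1Ey + 5 / 2 * c.p4y - 1 / 4 * c.z3Wy - 3 / 4 * c.z3Sy - c.s1) + 71 * τ) :
    0 ≤ (1 / 2) + 1876 * τ + (c.z3Sx - c.t2Sx + c.h3 - c.t2y) := by
  linear_combination
    2 * h.toLin.t2S_eS2 + h.toLin.wLz3S + h.toLin.wBt2S + (pnII_eS2y_p h e hτ fc)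
    + (pnII_h3_n h e hτ fc) + (pnII_t2x_n h e hτ fc) + (pnII_eS2x_p h e hτ fc)

theorem fmII_5_p (h : Lin2 τ c) (e : CsQ c) (hτ : 0 ≤ τ)
    (fc : 0 ≤ -8 + (3 / 4 * c.z1Ny - 1 / 2 * c.p2y - 7 / 4 * c.z1Ey + 5 / 2 * c.p4y - 1 / 4 * c.z3Wy - 3 / 4 * c.z3Sy - c.s1) + 71 * τ) :
    0 ≤ (1 / 2) + 2270 * τ + (-c.z3Sx + c.t2Sx + c.h3 - c.t2y) := by
  linear_combination
    2 * h.toLin.t2S_eS2 + 2 * h.toLin.wLt2S + h.toLin.wBt2S + (pnII_z3Sx_p h e hτ fc)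
    + (pnII_eS2y_p h e hτ fc) + (pnII_h3_n h e hτ fc) + (pnII_t2x_n h e hτ fc)
    + (pnII_eS2x_p h e hτ fc)

theorem fmII_5_n (h : Lin2 τ c) (e : CsQ c) (hτ : 0 ≤ τ)
    (fc : 0 ≤ -8 + (3 / 4 * c.z1Ny - 1 / 2 * c.p2y - 7 / 4 * c.z1Ey + 5 / 2 * c.p4y - 1 / 4 * c.z3Wy - 3 / 4 * c.z3Sy - c.s1) + 71 * τ) :
    0 ≤ (7 / 2) + 13403 * τ + (c.z3Sx - c.t2Sx - c.h3 + c.t2y) := by
  linear_combination
    (8 / 3) * h.toLin.t2N_eN1 + 2 * h.toLin.t2S_eS2 + h.toLin.wLz3S + 2 * h.toLin.wRt2N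
    + (2 / 3) * h.toLin.wTt2N + h.toLin.wBt2S + 2 * (pnII_eN1x_n h e hτ fc)
    + (2 / 3) * (pnII_eN1y_n h e hτ fc) + (pnII_eS2y_p h e hτ fc) + (pnII_h3_p h e hτ fc)
    + (1 / 3) * (pnII_t2x_n h e hτ fc) + (pnII_eS2x_p h e hτ fc) + (2 / 3) * hτ

theorem fmII_6_p (h : Lin2 τ c) (e : CsQ c) (hτ : 0 ≤ τ)
    (fc : 0 ≤ -8 + (3 / 4 * c.z1Ny - 1 / 2 * c.p2y - 7 / 4 * c.z1Ey + 5 / 2 * c.p4y - 1 / 4 * c.z3Wy - 3 / 4 * c.z3Sy - c.s1) + 71 * τ) :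
    0 ≤ (1 / 4) + 2042 * τ + (-c.t2Sx + c.k3Sx - c.t2y + c.k3) := by
  linear_combination
    2 * h.toLin.t2S_eS2 + h.toLin.wBt2S + h.toLin.wLk3S + (pnII_eS2y_p h e hτ fc)
    + (pnII_t2x_n h e hτ fc) + (pnII_k3_n h e hτ fc) + (pnII_eS2x_p h e hτ fc)

theorem fmII_6_n (h : Lin2 τ c) (e : CsQ c) (hτ : 0 ≤ τ)
    (fc : 0 ≤ -8 + (3 / 4 * c.z1Ny - 1 / 2 * c.p2y - 7 / 4 * c.z1Ey + 5 / 2 * c.p4y - 1 / 4 * c.z3Wy - 3 / 4 * c.z3Sy - c.s1) + 71 * τ) :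
    0 ≤ (7 / 4) + 2165 * τ + (c.t2Sx - c.k3Sx + c.t2y - c.k3) := by
  linear_combination
    (1 / 2) * h.toLin.p4_k3Sv + 2 * h.toLin.t2N_k2N + h.toLin.wRt2N + h.toLin.wLt2S
    + (1 / 4) * (pnII_p4y_p h e hτ fc) + (pnII_p4x_p h e hτ fc)
    + (1 / 4) * (pnII_k3Sy_n h e hτ fc) + (pnII_k2Nx_n h e hτ fc)

theorem fmII_7_p (h : Lin2 τ c) (e : CsQ c) (hτ : 0 ≤ τ)
    (fc : 0 ≤ -8 + (3 / 4 * c.z1Ny - 1 / 2 * c.p2y - 7 / 4 * c.z1Ey + 5 / 2 * c.p4y - 1 / 4 * c.z3Wy - 3 / 4 * c.z3Sy - c.s1) + 71 * τ) :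
    0 ≤ (15 / 4) + 13561 * τ + (-c.t2Sx + c.k3Sx + c.t2y - c.k3) := by
  linear_combination
    (8 / 3) * h.toLin.t2N_eN1 + 2 * h.toLin.t2S_eS2 + 2 * h.toLin.wRt2N + (2 / 3) * h.toLin.wTt2N
    + h.toLin.wBt2S + h.toLin.wLk3S + 2 * (pnII_eN1x_n h e hτ fc)
    + (2 / 3) * (pnII_eN1y_n h e hτ fc) + (pnII_eS2y_p h e hτ fc)
    + (1 / 3) * (pnII_t2x_n h e hτ fc) + (pnII_k3_p h e hτ fc) + (pnII_eS2x_p h e hτ fc)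
    + (2 / 3) * hτ

theorem fmII_7_n (h : Lin2 τ c) (e : CsQ c) (hτ : 0 ≤ τ)
    (fc : 0 ≤ -8 + (3 / 4 * c.z1Ny - 1 / 2 * c.p2y - 7 / 4 * c.z1Ey + 5 / 2 * c.p4y - 1 / 4 * c.z3Wy - 3 / 4 * c.z3Sy - c.s1) + 71 * τ) :
    0 ≤ (1 / 4) + 2641 * τ + (c.t2Sx - c.k3Sx - c.t2y + c.k3) := by
  linear_combination
    2 * h.toLin.t2S_eS2 + 2 * h.toLin.wLt2S + h.toLin.wBt2S + (pnII_k3Sx_p h e hτ fc)
    + (pnII_eS2y_p h e hτ fc) + (pnII_t2x_n h e hτ fc) + (pnII_k3_n h e hτ fc)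
    + (pnII_eS2x_p h e hτ fc)

theorem pinII (h : Lin2 τ c) (e : CsQ c) (hτ : 0 ≤ τ) (n : NearII c) :
    PinII (29830 * τ) c :=
  have fc := fcII h e hτ n
  { p2x := pin_abs hτ (pnII_p2x_p h e hτ fc) (pnII_p2x_n h e hτ fc) (by norm_num)
    p2y := pin_abs hτ (pnII_p2y_p h e hτ fc) (pnII_p2y_n h e hτ fc) (by norm_num)
    p4x := pin_abs hτ (pnII_p4x_p h e hτ fc) (pnII_p4x_n h e hτ fc) (by norm_num)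
    p4y := pin_abs hτ (pnII_p4y_p h e hτ fc) (pnII_p4y_n h e hτ fc) (by norm_num)
    p3x := pin_abs hτ (pnII_p3x_p h e hτ fc) (pnII_p3x_n h e hτ fc) (by norm_num)
    p3y := pin_abs hτ (pnII_p3y_p h e hτ fc) (pnII_p3y_n h e hτ fc) (by norm_num)
    z1Nx := pin_abs hτ (pnII_z1Nx_p h e hτ fc) (pnII_z1Nx_n h e hτ fc) (by norm_num)
    z1Ny := pin_abs hτ (pnII_z1Ny_p h e hτ fc) (pnII_z1Ny_n h e hτ fc) (by norm_num)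
    z1Ex := pin_abs hτ (pnII_z1Ex_p h e hτ fc) (pnII_z1Ex_n h e hτ fc) (by norm_num)
    z1Ey := pin_abs hτ (pnII_z1Ey_p h e hτ fc) (pnII_z1Ey_n h e hτ fc) (by norm_num)
    z3Wx := pin_abs hτ (pnII_z3Wx_p h e hτ fc) (pnII_z3Wx_n h e hτ fc) (by norm_num)
    z3Wy := pin_abs hτ (pnII_z3Wy_p h e hτ fc) (pnII_z3Wy_n h e hτ fc) (by norm_num)
    z3Sx := pin_abs hτ (pnII_z3Sx_p h e hτ fc) (pnII_z3Sx_n h e hτ fc) (by norm_num)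
    z3Sy := pin_abs hτ (pnII_z3Sy_p h e hτ fc) (pnII_z3Sy_n h e hτ fc) (by norm_num)
    t1Ny := pin_abs hτ (pnII_t1Ny_p h e hτ fc) (pnII_t1Ny_n h e hτ fc) (by norm_num)
    t1Wx := pin_abs hτ (pnII_t1Wx_p h e hτ fc) (pnII_t1Wx_n h e hτ fc) (by norm_num)
    t1Wy := pin_abs hτ (pnII_t1Wy_p h e hτ fc) (pnII_t1Wy_n h e hτ fc) (by norm_num)
    t1Sx := pin_abs hτ (pnII_t1Sx_p h e hτ fc) (pnII_t1Sx_n h e hτ fc) (by norm_num)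
    t1Sy := pin_abs hτ (pnII_t1Sy_p h e hτ fc) (pnII_t1Sy_n h e hτ fc) (by norm_num)
    t2Sy := pin_abs hτ (pnII_t2Sy_p h e hτ fc) (pnII_t2Sy_n h e hτ fc) (by norm_num)
    t2Ey := pin_abs hτ (pnII_t2Ey_p h e hτ fc) (pnII_t2Ey_n h e hτ fc) (by norm_num)
    k2Nx := pin_abs hτ (pnII_k2Nx_p h e hτ fc) (pnII_k2Nx_n h e hτ fc) (by norm_num)
    k2Ny := pin_abs hτ (pnII_k2Ny_p h e hτ fc) (pnII_k2Ny_n h e hτ fc) (by norm_num)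
    k2Wx := pin_abs hτ (pnII_k2Wx_p h e hτ fc) (pnII_k2Wx_n h e hτ fc) (by norm_num)
    k2Wy := pin_abs hτ (pnII_k2Wy_p h e hτ fc) (pnII_k2Wy_n h e hτ fc) (by norm_num)
    k3Wx := pin_abs hτ (pnII_k3Wx_p h e hτ fc) (pnII_k3Wx_n h e hτ fc) (by norm_num)
    k3Wy := pin_abs hτ (pnII_k3Wy_p h e hτ fc) (pnII_k3Wy_n h e hτ fc) (by norm_num)
    k3Sx := pin_abs hτ (pnII_k3Sx_p h e hτ fc) (pnII_k3Sx_n h e hτ fc) (by norm_num)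
    k3Sy := pin_abs hτ (pnII_k3Sy_p h e hτ fc) (pnII_k3Sy_n h e hτ fc) (by norm_num)
    eN1x := pin_abs hτ (pnII_eN1x_p h e hτ fc) (pnII_eN1x_n h e hτ fc) (by norm_num)
    eN1y := pin_abs hτ (pnII_eN1y_p h e hτ fc) (pnII_eN1y_n h e hτ fc) (by norm_num)
    eN2x := pin_abs hτ (pnII_eN2x_p h e hτ fc) (pnII_eN2x_n h e hτ fc) (by norm_num)
    eN2y := pin_abs hτ (pnII_eN2y_p h e hτ fc) (pnII_eN2y_n h e hτ fc) (by norm_num)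
    eS2x := pin_abs hτ (pnII_eS2x_p h e hτ fc) (pnII_eS2x_n h e hτ fc) (by norm_num)
    eS2y := pin_abs hτ (pnII_eS2y_p h e hτ fc) (pnII_eS2y_n h e hτ fc) (by norm_num)
    s1 := pin_abs hτ (pnII_s1_p h e hτ fc) (pnII_s1_n h e hτ fc) (by norm_num)
    h1 := pin_abs hτ (pnII_h1_p h e hτ fc) (pnII_h1_n h e hτ fc) (by norm_num)
    s3 := pin_abs hτ (pnII_s3_p h e hτ fc) (pnII_s3_n h e hτ fc) (by norm_num)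
    h3 := pin_abs hτ (pnII_h3_p h e hτ fc) (pnII_h3_n h e hτ fc) (by norm_num)
    t1x := pin_abs hτ (pnII_t1x_p h e hτ fc) (pnII_t1x_n h e hτ fc) (by norm_num)
    t1y := pin_abs hτ (pnII_t1y_p h e hτ fc) (pnII_t1y_n h e hτ fc) (by norm_num)
    t2x := pin_abs hτ (pnII_t2x_p h e hτ fc) (pnII_t2x_n h e hτ fc) (by norm_num)
    k2 := pin_abs hτ (pnII_k2_p h e hτ fc) (pnII_k2_n h e hτ fc) (by norm_num)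
    k3 := pin_abs hτ (pnII_k3_p h e hτ fc) (pnII_k3_n h e hτ fc) (by norm_num)
    gNu := pin_abs hτ (pnII_gNu_p h e hτ fc) (pnII_gNu_n h e hτ fc) (by norm_num)
    gNv := pin_abs hτ (pnII_gNv_p h e hτ fc) (pnII_gNv_n h e hτ fc) (by norm_num)
    gSu := pin_abs hτ (pnII_gSu_p h e hτ fc) (pnII_gSu_n h e hτ fc) (by norm_num)
    gSv := pin_abs hτ (pnII_gSv_p h e hτ fc) (pnII_gSv_n h e hτ fc) (by norm_num)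
    hNu := pin_abs hτ (pnII_hNu_p h e hτ fc) (pnII_hNu_n h e hτ fc) (by norm_num)
    hNv := pin_abs hτ (pnII_hNv_p h e hτ fc) (pnII_hNv_n h e hτ fc) (by norm_num)
    f0 := ⟨by linarith only [hτ, fmII_0_n h e hτ fc], by linarith only [hτ, fmII_0_p h e hτ fc]⟩
    f1 := ⟨by linarith only [hτ, fmII_1_n h e hτ fc], by linarith only [hτ, fmII_1_p h e hτ fc]⟩
    f2 := ⟨by linarith only [hτ, fmII_2_n h e hτ fc], by linarith only [hτ, fmII_2_p h e hτ fc]⟩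
    f3 := ⟨by linarith only [hτ, fmII_3_n h e hτ fc], by linarith only [hτ, fmII_3_p h e hτ fc]⟩
    f4 := ⟨by linarith only [hτ, fmII_4_n h e hτ fc], by linarith only [hτ, fmII_4_p h e hτ fc]⟩
    f5 := ⟨by linarith only [hτ, fmII_5_n h e hτ fc], by linarith only [hτ, fmII_5_p h e hτ fc]⟩
    f6 := ⟨by linarith only [hτ, fmII_6_n h e hτ fc], by linarith only [hτ, fmII_6_p h e hτ fc]⟩
    f7 := ⟨by linarith only [hτ, fmII_7_n h e hτ fc], by linarith only [hτ, fmII_7_p h e hτ fc]⟩ }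

end Pool.Agent.P.MP_dba4bb_co.Ex
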