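import Pool.Agent.P.MP_dba4bb_co.Ex.PinD

/-! Sharpness and pinned nodes near a maximiser. -/

namespace Pool.Agent.P.MP_dba4bb_co.Ex

variable {τ : ℝ} {c : Cfg}

theorem shIII0p (h : Lin2 τ c) (e : CsP c) (hτ : 0 ≤ τ) :
    c.z1Ny - c.p2y - (-1 / 2) ≤ 5 * (8 - (-1 / 4 * c.z1Ny - 1 / 2 * c.p2y - 3 / 4 * c.z1Ey + 5 / 2 * c.p4y + 3 / 4 * c.z3Wy - 7 / 4 * c.z3Sy - c.s1)) + 462 * τ := by
  linear_combination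
    (2813 / 520) * h.toLin.p2_p4 + (513 / 2080) * h.toLin.p2_p1
    + (134211 / 33280) * h.toLin.p2_z3Wv + (9 / 130) * h.toLin.p2_k1Nv + (9 / 4) * h.toLin.p2_eN1
    + (89 / 8) * h.toLin.p2_eN2 + (153 / 640) * h.toLin.p2_eW1 + (261 / 40) * h.toLin.p2_gW
    + (17991 / 2080) * h.toLin.p4_p1 + (39613 / 2080) * h.toLin.p4_z1Ev
    + (13433 / 1040) * h.toLin.p4_z3Su + (223 / 16) * h.toLin.p4_eS2
    + (18063 / 2080) * h.toLin.p1_z1Nu + (18 / 65) * h.toLin.p1_gE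
    + (5973 / 2080) * h.toLin.z1N_t1N + (89 / 8) * h.toLin.z1N_eN2
    + (38949 / 10400) * h.toLin.z1E_t2E + (102 / 325) * h.toLin.z1E_gEh
    + (93 / 32) * h.toLin.z3W_t1W + (51 / 640) * h.toLin.z3W_eW1 + (2007 / 40) * h.toLin.z3W_gWh
    + (57 / 32) * h.toLin.z3S_t2S + (223 / 16) * h.toLin.z3S_eS2 + (9 / 130) * h.toLin.t1N_k1N
    + (9 / 4) * h.toLin.t2N_k2N + (9 / 4) * h.toLin.t2N_eN1 + (89 / 4) * h.toLin.t2N_eN2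
    + (223 / 8) * h.toLin.t2S_eS2 + (186 / 325) * h.toLin.t2E_k1E + (192 / 325) * h.toLin.k1E_gEh
    + (9 / 2) * h.toLin.k2N_eN1 + (153 / 160) * h.toLin.k2W_eW1 + (9 / 10) * h.toLin.k2W_gWh
    + (29633 / 2080) * h.toLin.wRz1N + (79379 / 2080) * h.toLin.wRz1E
    + (41361 / 2080) * h.toLin.wLz3W + (68227 / 2080) * h.toLin.wLz3S + (93 / 32) * h.toLin.wTt1N
    + (93 / 32) * h.toLin.wTt1W + (223 / 16) * h.toLin.wRt2N + (187 / 16) * h.toLin.wTt2N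
    + (223 / 16) * h.toLin.wLt2S + (503 / 32) * h.toLin.wBt2S + (129 / 32) * h.toLin.wBt2E
    + (9 / 65) * h.toLin.wRk1N + (9 / 65) * h.toLin.wRk1E + (9 / 8) * h.toLin.wTk2N
    + (9 / 8) * h.toLin.wTk2W + (26433 / 1040) * h.c3 + (67809 / 2080) * e.2.1
    + (32286321 / 166400) * hτ

theorem shIII0n (h : Lin2 τ c) (e : CsP c) (hτ : 0 ≤ τ) :
    -(c.z1Ny - c.p2y - (-1 / 2)) ≤ 5 * (8 - (-1 / 4 * c.z1Ny - 1 / 2 * c.p2y - 3 / 4 * c.z1Ey + 5 / 2 * c.p4y + 3 / 4 * c.z3Wy - 7 / 4 * c.z3Sy - c.s1)) + 462 * τ := by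
  linear_combination
    (2427 / 520) * h.toLin.p2_p4 + (627 / 2080) * h.toLin.p2_p1
    + (108569 / 33280) * h.toLin.p2_z3Wv + (11 / 130) * h.toLin.p2_k1Nv
    + (11 / 4) * h.toLin.p2_eN1 + (91 / 8) * h.toLin.p2_eN2 + (187 / 640) * h.toLin.p2_eW1
    + (319 / 40) * h.toLin.p2_gW + (21989 / 2080) * h.toLin.p4_p1
    + (40327 / 2080) * h.toLin.p4_z1Ev + (14107 / 1040) * h.toLin.p4_z3Su
    + (237 / 16) * h.toLin.p4_eS2 + (22077 / 2080) * h.toLin.p1_z1Nu + (22 / 65) * h.toLin.p1_gE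
    + (5567 / 2080) * h.toLin.z1N_t1N + (91 / 8) * h.toLin.z1N_eN2
    + (116813 / 31200) * h.toLin.z1E_t2E + (374 / 975) * h.toLin.z1E_gEh
    + (87 / 32) * h.toLin.z3W_t1W + (187 / 1920) * h.toLin.z3W_eW1 + (2453 / 40) * h.toLin.z3W_gWh
    + (43 / 32) * h.toLin.z3S_t2S + (237 / 16) * h.toLin.z3S_eS2 + (11 / 130) * h.toLin.t1N_k1N
    + (11 / 4) * h.toLin.t2N_k2N + (11 / 4) * h.toLin.t2N_eN1 + (91 / 4) * h.toLin.t2N_eN2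
    + (237 / 8) * h.toLin.t2S_eS2 + (682 / 975) * h.toLin.t2E_k1E + (704 / 975) * h.toLin.k1E_gEh
    + (11 / 2) * h.toLin.k2N_eN1 + (187 / 160) * h.toLin.k2W_eW1 + (11 / 10) * h.toLin.k2W_gWh
    + (33907 / 2080) * h.toLin.wRz1N + (80841 / 2080) * h.toLin.wRz1E
    + (43619 / 2080) * h.toLin.wLz3W + (71833 / 2080) * h.toLin.wLz3S + (87 / 32) * h.toLin.wTt1N
    + (87 / 32) * h.toLin.wTt1W + (237 / 16) * h.toLin.wRt2N + (193 / 16) * h.toLin.wTt2N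
    + (237 / 16) * h.toLin.wLt2S + (517 / 32) * h.toLin.wBt2S + (131 / 32) * h.toLin.wBt2E
    + (11 / 65) * h.toLin.wRk1N + (11 / 65) * h.toLin.wRk1E + (11 / 8) * h.toLin.wTk2N
    + (11 / 8) * h.toLin.wTk2W + (27107 / 1040) * h.c3 + (69011 / 2080) * e.2.1
    + (85019977 / 499200) * hτ

theorem shIII1p (h : Lin2 τ c) (e : CsP c) (hτ : 0 ≤ τ) :
    c.z1Ey - c.p4y - (-3 / 2) ≤ 5 * (8 - (-1 / 4 * c.z1Ny - 1 / 2 * c.p2y - 3 / 4 * c.z1Ey + 5 / 2 * c.p4y + 3 / 4 * c.z3Wy - 7 / 4 * c.z3Sy - c.s1)) + 462 * τ := by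
  linear_combination
    (171 / 40) * h.toLin.p2_p4 + (171 / 160) * h.toLin.p2_p1 + (14049 / 2560) * h.toLin.p2_z3Wv
    + (3 / 10) * h.toLin.p2_k1Nv + (7 / 4) * h.toLin.p2_eN1 + (87 / 8) * h.toLin.p2_eN2
    + (119 / 640) * h.toLin.p2_eW1 + (203 / 40) * h.toLin.p2_gW + (1517 / 160) * h.toLin.p4_p1
    + (2991 / 160) * h.toLin.p4_z1Ev + (1091 / 80) * h.toLin.p4_z3Su + (209 / 16) * h.toLin.p4_eS2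
    + (1541 / 160) * h.toLin.p1_z1Nu + (6 / 5) * h.toLin.p1_gE + (471 / 160) * h.toLin.z1N_t1N
    + (87 / 8) * h.toLin.z1N_eN2 + (2183 / 800) * h.toLin.z1E_t2E + (34 / 25) * h.toLin.z1E_gEh
    + (99 / 32) * h.toLin.z3W_t1W + (119 / 1920) * h.toLin.z3W_eW1 + (1561 / 40) * h.toLin.z3W_gWh
    + (71 / 32) * h.toLin.z3S_t2S + (209 / 16) * h.toLin.z3S_eS2 + (3 / 10) * h.toLin.t1N_k1N
    + (7 / 4) * h.toLin.t2N_k2N + (7 / 4) * h.toLin.t2N_eN1 + (87 / 4) * h.toLin.t2N_eN2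
    + (209 / 8) * h.toLin.t2S_eS2 + (62 / 25) * h.toLin.t2E_k1E + (64 / 25) * h.toLin.k1E_gEh
    + (7 / 2) * h.toLin.k2N_eN1 + (119 / 160) * h.toLin.k2W_eW1 + (7 / 10) * h.toLin.k2W_gWh
    + (2411 / 160) * h.toLin.wRz1N + (6033 / 160) * h.toLin.wRz1E + (3227 / 160) * h.toLin.wLz3W
    + (5409 / 160) * h.toLin.wLz3S + (99 / 32) * h.toLin.wTt1N + (99 / 32) * h.toLin.wTt1W
    + (209 / 16) * h.toLin.wRt2N + (181 / 16) * h.toLin.wTt2N + (209 / 16) * h.toLin.wLt2S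
    + (489 / 32) * h.toLin.wBt2S + (127 / 32) * h.toLin.wBt2E + (3 / 5) * h.toLin.wRk1N
    + (3 / 5) * h.toLin.wRk1E + (7 / 8) * h.toLin.wTk2N + (7 / 8) * h.toLin.wTk2W
    + (2091 / 80) * h.c3 + (5163 / 160) * e.2.1 + (7837841 / 38400) * hτ

theorem shIII1n (h : Lin2 τ c) (e : CsP c) (hτ : 0 ≤ τ) :
    -(c.z1Ey - c.p4y - (-3 / 2)) ≤ 5 * (8 - (-1 / 4 * c.z1Ny - 1 / 2 * c.p2y - 3 / 4 * c.z1Ey + 5 / 2 * c.p4y + 3 / 4 * c.z3Wy - 7 / 4 * c.z3Sy - c.s1)) + 462 * τ := by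
  linear_combination
    (2497 / 480) * h.toLin.p2_p4 + (15547 / 2560) * h.toLin.p2_z3Wv + (13 / 4) * h.toLin.p2_eN1
    + (167 / 16) * h.toLin.p2_eN2 + (221 / 640) * h.toLin.p2_eW1 + (1119 / 280) * h.toLin.p2_gW
    + (19 / 210) * h.toLin.p2_hW + (307 / 32) * h.toLin.p4_p1 + (311 / 16) * h.toLin.p4_z1Ev
    + (209 / 16) * h.toLin.p4_z3Su + (29 / 2) * h.toLin.p4_eS2 + (19 / 30) * h.toLin.p4_hWv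
    + (307 / 32) * h.toLin.p1_z1Nu + (25 / 8) * h.toLin.z1N_t1N + (167 / 16) * h.toLin.z1N_eN2
    + (19 / 4) * h.toLin.z1E_t2E + (25 / 8) * h.toLin.z3W_t1W + (221 / 1920) * h.toLin.z3W_eW1
    + (1379 / 40) * h.toLin.z3W_gWh + (3 / 2) * h.toLin.z3S_t2S + (29 / 2) * h.toLin.z3S_eS2
    + (13 / 4) * h.toLin.t2N_k2N + (13 / 4) * h.toLin.t2N_eN1 + (167 / 8) * h.toLin.t2N_eN2
    + 29 * h.toLin.t2S_eS2 + (13 / 2) * h.toLin.k2N_eN1 + (221 / 160) * h.toLin.k2W_eW1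
    + (13 / 10) * h.toLin.k2W_gWh + (304 / 371) * h.toLin.gW_hW + (237 / 16) * h.toLin.wRz1N
    + (311 / 8) * h.toLin.wRz1E + (325 / 16) * h.toLin.wLz3W + (267 / 8) * h.toLin.wLz3S
    + (25 / 8) * h.toLin.wTt1N + (25 / 8) * h.toLin.wTt1W + (29 / 2) * h.toLin.wRt2N
    + (45 / 4) * h.toLin.wTt2N + (29 / 2) * h.toLin.wLt2S + 16 * h.toLin.wBt2S
    + (19 / 4) * h.toLin.wBt2E + (13 / 8) * h.toLin.wTk2N + (13 / 8) * h.toLin.wTk2W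
    + (409 / 16) * h.c3 + (1077 / 32) * e.2.1 + (575037581 / 2849280) * hτ

theorem shIII2p (h : Lin2 τ c) (e : CsP c) (hτ : 0 ≤ τ) :
    c.z3Wy - c.p2y - (3 / 2) ≤ 5 * (8 - (-1 / 4 * c.z1Ny - 1 / 2 * c.p2y - 3 / 4 * c.z1Ey + 5 / 2 * c.p4y + 3 / 4 * c.z3Wy - 7 / 4 * c.z3Sy - c.s1)) + 462 * τ := by
  linear_combination
    (201 / 32) * h.toLin.p2_p4 + (9027 / 2560) * h.toLin.p2_z3Wv + (45 / 16) * h.toLin.p2_k1Nv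
    + (13 / 4) * h.toLin.p2_eN1 + (77 / 8) * h.toLin.p2_eN2 + (221 / 640) * h.toLin.p2_eW1
    + (377 / 40) * h.toLin.p2_gW + (131 / 16) * h.toLin.p4_p1 + (1321 / 64) * h.toLin.p4_z1Ev
    + (553 / 32) * h.toLin.p4_z3Su + (45 / 16) * h.toLin.p4_k1Ev + (219 / 16) * h.toLin.p4_eS2
    + (131 / 16) * h.toLin.p1_z1Nu + (17 / 8) * h.toLin.z1N_t1N + (77 / 8) * h.toLin.z1N_eN2
    + (15 / 4) * h.toLin.z1E_t2E + (113 / 32) * h.toLin.z3W_t1W + (221 / 1920) * h.toLin.z3W_eW1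
    + (2899 / 40) * h.toLin.z3W_gWh + (61 / 32) * h.toLin.z3S_t2S + (219 / 16) * h.toLin.z3S_eS2
    + (45 / 16) * h.toLin.t1N_k1N + (13 / 4) * h.toLin.t2N_k2N + (13 / 4) * h.toLin.t2N_eN1
    + (77 / 4) * h.toLin.t2N_eN2 + (219 / 8) * h.toLin.t2S_eS2 + (45 / 16) * h.toLin.t2E_k1E
    + (13 / 2) * h.toLin.k2N_eN1 + (221 / 160) * h.toLin.k2W_eW1 + (13 / 10) * h.toLin.k2W_gWh
    + 13 * h.toLin.wRz1N + (1321 / 32) * h.toLin.wRz1E + (193 / 8) * h.toLin.wLz3W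
    + (1325 / 32) * h.toLin.wLz3S + (113 / 32) * h.toLin.wTt1N + (113 / 32) * h.toLin.wTt1W
    + (219 / 16) * h.toLin.wRt2N + (167 / 16) * h.toLin.wTt2N + (219 / 16) * h.toLin.wLt2S
    + (499 / 32) * h.toLin.wBt2S + (165 / 32) * h.toLin.wBt2E + (45 / 8) * h.toLin.wRk1N
    + (45 / 8) * h.toLin.wRk1E + (13 / 8) * h.toLin.wTk2N + (13 / 8) * h.toLin.wTk2W
    + (985 / 32) * h.c3 + (1167 / 32) * e.2.1 + (1152079 / 7680) * hτ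

theorem shIII2n (h : Lin2 τ c) (e : CsP c) (hτ : 0 ≤ τ) :
    -(c.z3Wy - c.p2y - (3 / 2)) ≤ 5 * (8 - (-1 / 4 * c.z1Ny - 1 / 2 * c.p2y - 3 / 4 * c.z1Ey + 5 / 2 * c.p4y + 3 / 4 * c.z3Wy - 7 / 4 * c.z3Sy - c.s1)) + 462 * τ := by
  linear_combination
    (1213 / 240) * h.toLin.p2_p4 + (34393 / 3840) * h.toLin.p2_z1Nu + (29 / 12) * h.toLin.p2_eN1
    + (47 / 4) * h.toLin.p2_eN2 + (251 / 320) * h.toLin.p2_eW1 + (1277 / 60) * h.toLin.p2_gW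
    + (145 / 16) * h.toLin.p4_p1 + (71993 / 1920) * h.toLin.p4_z1Ev
    + (61193 / 1920) * h.toLin.p4_z3Su + (27 / 2) * h.toLin.p4_eS2 + (1 / 15) * h.toLin.p4_hWv
    + (145 / 16) * h.toLin.p1_z1Nu + (4 / 3) * h.toLin.z1N_k2N + (29 / 36) * h.toLin.z1N_eN1
    + (47 / 4) * h.toLin.z1N_eN2 + (15 / 4) * h.toLin.z1E_t2E + (721 / 2880) * h.toLin.z3W_eW1
    + (9839 / 60) * h.toLin.z3W_gWh + 2 * h.toLin.z3S_t2S + (27 / 2) * h.toLin.z3S_eS2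
    + (7 / 2) * h.toLin.t2N_k2N + (47 / 2) * h.toLin.t2N_eN2 + 27 * h.toLin.t2S_eS2
    + (29 / 3) * h.toLin.k2N_eN1 + (51 / 16) * h.toLin.k2W_eW1 + 3 * h.toLin.k2W_gWh
    + (1 / 75) * h.toLin.eW1_hW + (56 / 795) * h.toLin.gW_hW + (65513 / 1920) * h.toLin.wRz1N
    + (71993 / 960) * h.toLin.wRz1E + (74153 / 1920) * h.toLin.wLz3W
    + (67673 / 960) * h.toLin.wLz3S + (27 / 2) * h.toLin.wRt2N + (47 / 4) * h.toLin.wTt2N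
    + (27 / 2) * h.toLin.wLt2S + (31 / 2) * h.toLin.wBt2S + (15 / 4) * h.toLin.wBt2E
    + (15 / 4) * h.toLin.wTk2N + (15 / 4) * h.toLin.wTk2W + (83273 / 1920) * h.c3
    + (226139 / 3840) * e.2.1 + (41851 / 3052800) * hτ

theorem shIII3p (h : Lin2 τ c) (e : CsP c) (hτ : 0 ≤ τ) :
    c.z3Sy - c.p4y - (-7 / 2) ≤ 5 * (8 - (-1 / 4 * c.z1Ny - 1 / 2 * c.p2y - 3 / 4 * c.z1Ey + 5 / 2 * c.p4y + 3 / 4 * c.z3Wy - 7 / 4 * c.z3Sy - c.s1)) + 462 * τ := by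
  linear_combination
    (2353 / 504) * h.toLin.p2_p4 + (209 / 672) * h.toLin.p2_p1 + (15859 / 10752) * h.toLin.p2_z3Wv
    + (715 / 252) * h.toLin.p2_eN1 + (4703 / 504) * h.toLin.p2_eN2
    + (2431 / 8064) * h.toLin.p2_eW1 + (4147 / 504) * h.toLin.p2_gW + (1917 / 224) * h.toLin.p4_p1
    + (33815 / 2016) * h.toLin.p4_z1Ev + (11551 / 1008) * h.toLin.p4_z3Su
    + (12893 / 1008) * h.toLin.p4_eS2 + (17341 / 2016) * h.toLin.p1_z1Nu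
    + (22 / 63) * h.toLin.p1_gE + (1805 / 672) * h.toLin.z1N_t1N + (4703 / 504) * h.toLin.z1N_eN2
    + (37679 / 10080) * h.toLin.z1E_t2E + (242 / 315) * h.toLin.z1E_gEh
    + (1805 / 672) * h.toLin.z3W_t1W + (2431 / 24192) * h.toLin.z3W_eW1
    + (31889 / 504) * h.toLin.z3W_gWh + (2731 / 2016) * h.toLin.z3S_t2S
    + (12893 / 1008) * h.toLin.z3S_eS2 + (715 / 252) * h.toLin.t2N_k2N
    + (715 / 252) * h.toLin.t2N_eN1 + (4703 / 252) * h.toLin.t2N_eN2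
    + (12893 / 504) * h.toLin.t2S_eS2 + (352 / 945) * h.toLin.t2E_gEh
    + (715 / 126) * h.toLin.k2N_eN1 + (2431 / 2016) * h.toLin.k2W_eW1
    + (143 / 126) * h.toLin.k2W_gWh + (3821 / 288) * h.toLin.wRz1N
    + (67993 / 2016) * h.toLin.wRz1E + (35995 / 2016) * h.toLin.wLz3W
    + (19699 / 672) * h.toLin.wLz3S + (1805 / 672) * h.toLin.wTt1N + (1805 / 672) * h.toLin.wTt1W
    + (4327 / 336) * h.toLin.wRt2N + (10121 / 1008) * h.toLin.wTt2N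
    + (12893 / 1008) * h.toLin.wLt2S + (28517 / 2016) * h.toLin.wBt2S + (11 / 126) * h.toLin.wRt2E
    + (8275 / 2016) * h.toLin.wBt2E + (715 / 504) * h.toLin.wTk2N + (715 / 504) * h.toLin.wTk2W
    + (23143 / 1008) * h.c3 + (19529 / 672) * e.2.1 + (95955977 / 483840) * hτ

theorem shIII3n (h : Lin2 τ c) (e : CsP c) (hτ : 0 ≤ τ) :
    -(c.z3Sy - c.p4y - (-7 / 2)) ≤ 5 * (8 - (-1 / 4 * c.z1Ny - 1 / 2 * c.p2y - 3 / 4 * c.z1Ey + 5 / 2 * c.p4y + 3 / 4 * c.z3Wy - 7 / 4 * c.z3Sy - c.s1)) + 462 * τ := by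
  linear_combination
    (303 / 56) * h.toLin.p2_p4 + (57 / 224) * h.toLin.p2_p1 + (18987 / 3584) * h.toLin.p2_z3Wv
    + (65 / 28) * h.toLin.p2_eN1 + (733 / 56) * h.toLin.p2_eN2 + (221 / 896) * h.toLin.p2_eW1
    + (377 / 56) * h.toLin.p2_gW + (2383 / 224) * h.toLin.p4_p1 + (4805 / 224) * h.toLin.p4_z1Ev
    + (1661 / 112) * h.toLin.p4_z3Su + (1783 / 112) * h.toLin.p4_eS2
    + (2391 / 224) * h.toLin.p1_z1Nu + (2 / 7) * h.toLin.p1_gE + (645 / 224) * h.toLin.z1N_t1N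
    + (733 / 56) * h.toLin.z1N_eN2 + (4189 / 1120) * h.toLin.z1E_t2E + (22 / 35) * h.toLin.z1E_gEh
    + (645 / 224) * h.toLin.z3W_t1W + (221 / 2688) * h.toLin.z3W_eW1
    + (2899 / 56) * h.toLin.z3W_gWh + (401 / 224) * h.toLin.z3S_t2S
    + (1783 / 112) * h.toLin.z3S_eS2 + (65 / 28) * h.toLin.t2N_k2N + (65 / 28) * h.toLin.t2N_eN1
    + (733 / 28) * h.toLin.t2N_eN2 + (1783 / 56) * h.toLin.t2S_eS2 + (32 / 105) * h.toLin.t2E_gEh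
    + (65 / 14) * h.toLin.k2N_eN1 + (221 / 224) * h.toLin.k2W_eW1 + (13 / 14) * h.toLin.k2W_gWh
    + (551 / 32) * h.toLin.wRz1N + (9643 / 224) * h.toLin.wRz1E + (5105 / 224) * h.toLin.wLz3W
    + (8427 / 224) * h.toLin.wLz3S + (645 / 224) * h.toLin.wTt1N + (645 / 224) * h.toLin.wTt1W
    + (1791 / 112) * h.toLin.wRt2N + (1531 / 112) * h.toLin.wTt2N + (1783 / 112) * h.toLin.wLt2S
    + (3967 / 224) * h.toLin.wBt2S + (1 / 14) * h.toLin.wRt2E + (905 / 224) * h.toLin.wBt2E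
    + (65 / 56) * h.toLin.wTk2N + (65 / 56) * h.toLin.wTk2W + (3173 / 112) * h.c3
    + (8177 / 224) * e.2.1 + (8828347 / 53760) * hτ

theorem fcIII (h : Lin2 τ c) (e : CsP c) (hτ : 0 ≤ τ) (n : NearIII c) :
    0 ≤ -8 + (-1 / 4 * c.z1Ny - 1 / 2 * c.p2y - 3 / 4 * c.z1Ey + 5 / 2 * c.p4y + 3 / 4 * c.z3Wy - 7 / 4 * c.z3Sy - c.s1) + 157 * τ := by
  obtain ⟨l0, u0, l1, u1, l2, u2, l3, u3, -⟩ := n
  have a0 := sq_le_box (r := (1 / 8)) (by linarith only [l0]) (by linarith only [u0])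
    (shIII0p h e hτ) (shIII0n h e hτ)
  have a1 := sq_le_box (r := (1 / 8)) (by linarith only [l1]) (by linarith only [u1])
    (shIII1p h e hτ) (shIII1n h e hτ)
  have a2 := sq_le_box (r := (1 / 8)) (by linarith only [l2]) (by linarith only [u2])
    (shIII2p h e hτ) (shIII2n h e hτ)
  have a3 := sq_le_box (r := (1 / 8)) (by linarith only [l3]) (by linarith only [u3])
    (shIII3p h e hτ) (shIII3n h e hτ)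
  linear_combination (8 / 3) * (h.hG + (1 / 4) * (a0 + a1 + a2 + a3) + sq_nonneg (c.s1 - (1 / 2))) +
    (1 / 3) * hτ

theorem pnIII_p4x_p (h : Lin2 τ c) (e : CsP c) (hτ : 0 ≤ τ)
    (fc : 0 ≤ -8 + (-1 / 4 * c.z1Ny - 1 / 2 * c.p2y - 3 / 4 * c.z1Ey + 5 / 2 * c.p4y + 3 / 4 * c.z3Wy - 7 / 4 * c.z3Sy - c.s1) + 157 * τ) :
    0 ≤ (-1 / 2) + 29 * τ + (-c.p4x) := by
  linear_combination
    (1 / 24) * h.toLin.p2_p4 + (1 / 3) * h.toLin.p4_p1 + (1 / 3) * h.toLin.p4_z1Ev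
    + (1 / 3) * h.toLin.p1_z1Nu + (7 / 24) * h.toLin.z1N_t1N + (1 / 8) * h.toLin.z1E_t2E
    + (1 / 8) * h.toLin.z3W_t1W + (1 / 6) * h.toLin.z3S_t1S + (1 / 8) * h.toLin.z3S_t2S
    + (1 / 3) * h.toLin.wRz1N + (2 / 3) * h.toLin.wRz1E + (7 / 24) * h.toLin.wTt1N
    + (1 / 8) * h.toLin.wTt1W + (1 / 6) * h.toLin.wBt1S + (1 / 8) * h.toLin.wBt2S
    + (1 / 8) * h.toLin.wBt2E + (5 / 12) * h.c3 + (2 / 3) * e.2.1 + (1 / 6) * fc + (13 / 24) * hτ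

theorem pnIII_p2x_n (h : Lin2 τ c) (e : CsP c) (hτ : 0 ≤ τ)
    (fc : 0 ≤ -8 + (-1 / 4 * c.z1Ny - 1 / 2 * c.p2y - 3 / 4 * c.z1Ey + 5 / 2 * c.p4y + 3 / 4 * c.z3Wy - 7 / 4 * c.z3Sy - c.s1) + 157 * τ) :
    0 ≤ (-1 / 2) + 30 * τ + (c.p2x) := by
  linear_combination
    (1 / 2) * h.toLin.p2_z3Wv + (1 / 2) * h.toLin.p4_z3Sv + h.toLin.wLz3W + h.toLin.wLz3S
    + (pnIII_p4x_p h e hτ fc)

theorem pnIII_p4x_n (h : Lin2 τ c) (e : CsP c) (hτ : 0 ≤ τ)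
    (fc : 0 ≤ -8 + (-1 / 4 * c.z1Ny - 1 / 2 * c.p2y - 3 / 4 * c.z1Ey + 5 / 2 * c.p4y + 3 / 4 * c.z3Wy - 7 / 4 * c.z3Sy - c.s1) + 157 * τ) :
    0 ≤ (1 / 2) + 22 * τ + (c.p4x) := by
  linear_combination
    (27563 / 346720) * h.toLin.p2_p4 + (40569 / 277376) * h.toLin.p2_p1
    + (701 / 3152) * h.toLin.p2_z3Wv + (1841 / 6304) * h.toLin.p2_eN1
    + (1153 / 21670) * h.toLin.p2_eW1 + (57913 / 1178848) * h.toLin.p4_p1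
    + (147 / 3152) * h.toLin.p4_z1Ev + (803 / 3152) * h.toLin.p4_z3Sv
    + (511 / 1576) * h.toLin.p4_eS2 + (57577 / 368390) * h.toLin.p4_hWv
    + (73 / 3152) * h.toLin.p1_z1Nu + (379 / 6304) * h.toLin.p1_eN1 + (44 / 197) * h.toLin.p1_gE
    + (525 / 73678) * h.toLin.p1_hWv + (487 / 7880) * h.toLin.z1E_t2E
    + (484 / 985) * h.toLin.z1E_gEh + (1285 / 22852) * h.toLin.z3W_k2W
    + (4844 / 5713) * h.toLin.z3W_gWh + (511 / 1576) * h.toLin.z3S_eS2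
    + (467 / 788) * h.toLin.t2N_k2N + (22 / 197) * h.toLin.t2N_eN1 + (511 / 788) * h.toLin.t2S_eS2
    + (704 / 2955) * h.toLin.t2E_gEh + (467 / 394) * h.toLin.k2N_eN1
    + (1153 / 3940) * h.toLin.k2W_eW1 + (4844 / 28565) * h.toLin.k2W_gWh
    + (1153 / 54175) * h.toLin.eW1_hW + (9688 / 52205) * h.toLin.gW_hW
    + (73 / 3152) * h.toLin.wRz1N + (657 / 3152) * h.toLin.wRz1E + (2117 / 3152) * h.toLin.wLz3W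
    + (2117 / 3152) * h.toLin.wLz3S + (599 / 1576) * h.toLin.wRt2N + (11 / 394) * h.toLin.wTt2N
    + (511 / 1576) * h.toLin.wLt2S + (511 / 1576) * h.toLin.wBt2S + (11 / 197) * h.toLin.wRt2E
    + (467 / 1576) * h.toLin.wBt2E + (467 / 1576) * h.toLin.wTk2N + (467 / 1576) * h.toLin.wTk2W
    + (365 / 1576) * h.c3 + (657 / 3152) * e.2.1 + (73 / 788) * fc
    + (31990705837 / 543566812800) * hτ

theorem pnIII_p2x_p (h : Lin2 τ c) (e : CsP c) (hτ : 0 ≤ τ)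
    (fc : 0 ≤ -8 + (-1 / 4 * c.z1Ny - 1 / 2 * c.p2y - 3 / 4 * c.z1Ey + 5 / 2 * c.p4y + 3 / 4 * c.z3Wy - 7 / 4 * c.z3Sy - c.s1) + 157 * τ) :
    0 ≤ (1 / 2) + 23 * τ + (-c.p2x) := by
  linear_combination
    (1 / 2) * h.toLin.p2_z1Nv + (1 / 2) * h.toLin.p4_z1Ev + h.toLin.wRz1N + h.toLin.wRz1E
    + (pnIII_p4x_n h e hτ fc)

theorem pnIII_p2y_n (h : Lin2 τ c) (e : CsP c) (hτ : 0 ≤ τ)
    (fc : 0 ≤ -8 + (-1 / 4 * c.z1Ny - 1 / 2 * c.p2y - 3 / 4 * c.z1Ey + 5 / 2 * c.p4y + 3 / 4 * c.z3Wy - 7 / 4 * c.z3Sy - c.s1) + 157 * τ) :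
    0 ≤ (-1) + 145 * τ + (c.p2y) := by
  linear_combination
    (227 / 520) * h.toLin.p2_p4 + (57 / 130) * h.toLin.p2_p1 + (8 / 65) * h.toLin.p2_k1Nv
    + (49 / 130) * h.toLin.p4_p1 + (17 / 26) * h.toLin.p4_z1Ev + (57 / 130) * h.toLin.p1_z1Nu
    + (32 / 65) * h.toLin.p1_gE + (163 / 520) * h.toLin.z1N_t1N + (2857 / 7800) * h.toLin.z1E_t2E
    + (544 / 975) * h.toLin.z1E_gEh + (3 / 8) * h.toLin.z3W_t1W + (7 / 8) * h.toLin.z3S_t2S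
    + (8 / 65) * h.toLin.t1N_k1N + (992 / 975) * h.toLin.t2E_k1E + (1024 / 975) * h.toLin.k1E_gEh
    + (57 / 130) * h.toLin.wRz1N + (187 / 130) * h.toLin.wRz1E + (3 / 8) * h.toLin.wTt1N
    + (3 / 8) * h.toLin.wTt1W + (7 / 8) * h.toLin.wBt2S + (7 / 8) * h.toLin.wBt2E
    + (16 / 65) * h.toLin.wRk1N + (16 / 65) * h.toLin.wRk1E + (5 / 4) * h.c3 + (187 / 130) * e.2.1
    + (1 / 2) * fc + (89 / 130) * (pnIII_p2x_n h e hτ fc) + (219 / 130) * (pnIII_p4x_n h e hτ fc)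
    + (31 / 2600) * hτ

theorem pnIII_p4y_p (h : Lin2 τ c) (e : CsP c) (hτ : 0 ≤ τ)
    (fc : 0 ≤ -8 + (-1 / 4 * c.z1Ny - 1 / 2 * c.p2y - 3 / 4 * c.z1Ey + 5 / 2 * c.p4y + 3 / 4 * c.z3Wy - 7 / 4 * c.z3Sy - c.s1) + 157 * τ) :
    0 ≤ 1 + 21 * τ + (-c.p4y) := by
  linear_combination
    (47 / 1350) * h.toLin.p2_p4 + (32 / 2025) * h.toLin.p2_eN1 + (68 / 825) * h.toLin.p2_eW1
    + (16 / 495) * h.toLin.p2_hW + (457 / 1620) * h.toLin.p4_z1Ev + (1 / 4) * h.toLin.p4_z3Sv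
    + (328 / 675) * h.toLin.p4_hNv + (88 / 225) * h.toLin.p4_hWv + (2 / 45) * h.toLin.z1N_t1N
    + (88 / 2025) * h.toLin.z1N_k2N + (316 / 1125) * h.toLin.z1N_eN2
    + (2984 / 10125) * h.toLin.z1N_hNu + (1 / 30) * h.toLin.z1E_t2E + (32 / 15) * h.toLin.z3W_gWh
    + (2 / 45) * h.toLin.z3S_t1S + (1 / 30) * h.toLin.z3S_t2S + (176 / 2025) * h.toLin.k2N_eN1
    + (632 / 675) * h.toLin.k2N_eN2 + (34 / 75) * h.toLin.k2W_eW1 + (32 / 75) * h.toLin.k2W_gWh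
    + (64 / 10125) * h.toLin.eN1_hN + (2528 / 10125) * h.toLin.eN2_hN
    + (136 / 4125) * h.toLin.eW1_hW + (1856 / 3975) * h.toLin.gW_hW + (77 / 162) * h.toLin.wRz1N
    + (457 / 810) * h.toLin.wRz1E + (1 / 2) * h.toLin.wLz3W + (1 / 2) * h.toLin.wLz3S
    + (2 / 45) * h.toLin.wTt1N + (2 / 45) * h.toLin.wBt1S + (1 / 30) * h.toLin.wBt2S
    + (1 / 30) * h.toLin.wBt2E + (8 / 15) * h.toLin.wTk2N + (8 / 15) * h.toLin.wTk2W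
    + (1 / 9) * h.c3 + (493 / 1350) * e.2.1 + (2 / 45) * fc + (62 / 405) * (pnIII_p4x_n h e hτ fc)
    + (46 / 405) * (pnIII_p2x_p h e hτ fc) + (4659229 / 5902875) * hτ

theorem pnIII_p1x_p (h : Lin2 τ c) (e : CsP c) (hτ : 0 ≤ τ)
    (fc : 0 ≤ -8 + (-1 / 4 * c.z1Ny - 1 / 2 * c.p2y - 3 / 4 * c.z1Ey + 5 / 2 * c.p4y + 3 / 4 * c.z3Wy - 7 / 4 * c.z3Sy - c.s1) + 157 * τ) :
    0 ≤ 0 + 161 * τ + (-c.p1x) := by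
  linear_combination
    (6731 / 34200) * h.toLin.p2_p4 + (32 / 285) * h.toLin.p2_eN1 + (176 / 12825) * h.toLin.p2_eW1
    + (421 / 570) * h.toLin.p4_z1Ev + (8 / 513) * h.toLin.p4_z3Sv + (64 / 4275) * h.toLin.p4_hWv
    + (65 / 114) * h.toLin.p1_z1Nu + (32 / 57) * h.toLin.p1_gE + (959 / 2280) * h.toLin.z1N_t1N
    + (979 / 2280) * h.toLin.z1E_t2E + (352 / 285) * h.toLin.z1E_gEh
    + (959 / 2280) * h.toLin.z3W_t1W + (1888 / 74385) * h.toLin.z3W_k2W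
    + (16 / 7695) * h.toLin.z3W_eW1 + (1792 / 24795) * h.toLin.z3W_gWh
    + (2387 / 2280) * h.toLin.z3S_t2S + (32 / 285) * h.toLin.t2N_k2N
    + (32 / 285) * h.toLin.t2N_eN1 + (512 / 855) * h.toLin.t2E_gEh + (64 / 285) * h.toLin.k2N_eN1
    + (848 / 12825) * h.toLin.k2W_eW1 + (1792 / 123975) * h.toLin.k2W_gWh
    + (64 / 21375) * h.toLin.eW1_hW + (3584 / 226575) * h.toLin.gW_hW + (65 / 114) * h.toLin.wRz1N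
    + (53 / 30) * h.toLin.wRz1E + (16 / 513) * h.toLin.wLz3W + (16 / 513) * h.toLin.wLz3S
    + (959 / 2280) * h.toLin.wTt1N + (959 / 2280) * h.toLin.wTt1W + (8 / 57) * h.toLin.wRt2N
    + (8 / 285) * h.toLin.wTt2N + (2387 / 2280) * h.toLin.wBt2S + (8 / 57) * h.toLin.wRt2E
    + (2323 / 2280) * h.toLin.wBt2E + (16 / 285) * h.toLin.wTk2N + (16 / 285) * h.toLin.wTk2W
    + (341 / 228) * h.c3 + (53 / 30) * e.2.1 + (341 / 570) * fc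
    + (316 / 2565) * (pnIII_p2x_n h e hτ fc) + (3673 / 2565) * (pnIII_p4x_n h e hτ fc)
    + (103 / 95) * (pnIII_p4y_p h e hτ fc) + (1393056379 / 2365443000) * hτ

theorem pnIII_p1y_n (h : Lin2 τ c) (e : CsP c) (hτ : 0 ≤ τ)
    (fc : 0 ≤ -8 + (-1 / 4 * c.z1Ny - 1 / 2 * c.p2y - 3 / 4 * c.z1Ey + 5 / 2 * c.p4y + 3 / 4 * c.z3Wy - 7 / 4 * c.z3Sy - c.s1) + 157 * τ) :
    0 ≤ (-1 / 2) + 195 * τ + (c.p1y) := by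
  linear_combination
    (281 / 4263) * h.toLin.p2_z3Wv + (584 / 1421) * h.toLin.p2_eN1 + (292 / 4263) * h.toLin.p2_eW1
    + (1039 / 1421) * h.toLin.p4_p1 + (213 / 1421) * h.toLin.p4_z1Ev
    + (618 / 1421) * h.toLin.p4_eS2 + (73 / 1421) * h.toLin.p1_z1Nu + (64 / 203) * h.toLin.p1_gE
    + (1018 / 7105) * h.toLin.z1E_t2E + (704 / 1015) * h.toLin.z1E_gEh
    + (584 / 4263) * h.toLin.z3W_k2W + (292 / 12789) * h.toLin.z3W_eW1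
    + (202 / 1421) * h.toLin.z3S_t2S + (618 / 1421) * h.toLin.z3S_eS2
    + (584 / 1421) * h.toLin.t2N_k2N + (584 / 1421) * h.toLin.t2N_eN1
    + (1236 / 1421) * h.toLin.t2S_eS2 + (1024 / 3045) * h.toLin.t2E_gEh
    + (1168 / 1421) * h.toLin.k2N_eN1 + (1168 / 4263) * h.toLin.k2W_eW1
    + (73 / 1421) * h.toLin.wRz1N + (657 / 1421) * h.toLin.wRz1E + (309 / 1421) * h.toLin.wLz3W
    + (309 / 1421) * h.toLin.wLz3S + (730 / 1421) * h.toLin.wRt2N + (146 / 1421) * h.toLin.wTt2N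
    + (618 / 1421) * h.toLin.wLt2S + (820 / 1421) * h.toLin.wBt2S + (16 / 203) * h.toLin.wRt2E
    + (674 / 1421) * h.toLin.wBt2E + (292 / 1421) * h.toLin.wTk2N + (292 / 1421) * h.toLin.wTk2W
    + (730 / 1421) * h.c3 + (657 / 1421) * e.2.1 + (292 / 1421) * fc
    + (421 / 1421) * (pnIII_p2x_n h e hτ fc) + (538 / 1421) * (pnIII_p4x_n h e hτ fc)
    + (657 / 1421) * (pnIII_p2y_n h e hτ fc) + (89 / 203) * (pnIII_p1x_p h e hτ fc)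
    + (29047 / 63945) * hτ

theorem pnIII_z1Nx_p (h : Lin2 τ c) (e : CsP c) (hτ : 0 ≤ τ)
    (fc : 0 ≤ -8 + (-1 / 4 * c.z1Ny - 1 / 2 * c.p2y - 3 / 4 * c.z1Ey + 5 / 2 * c.p4y + 3 / 4 * c.z3Wy - 7 / 4 * c.z3Sy - c.s1) + 157 * τ) :
    0 ≤ 0 + 0 * τ + (-c.z1Nx) := by
  linear_combination
    h.toLin.wRz1N

theorem pnIII_z1Nx_n (h : Lin2 τ c) (e : CsP c) (hτ : 0 ≤ τ)
    (fc : 0 ≤ -8 + (-1 / 4 * c.z1Ny - 1 / 2 * c.p2y - 3 / 4 * c.z1Ey + 5 / 2 * c.p4y + 3 / 4 * c.z3Wy - 7 / 4 * c.z3Sy - c.s1) + 157 * τ) :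
    0 ≤ 0 + 53 * τ + (c.z1Nx) := by
  linear_combination
    (1 / 2) * h.toLin.p2_z1Nv + (1 / 2) * h.toLin.p4_z1Ev + h.toLin.wRz1E
    + (pnIII_p2x_n h e hτ fc) + (pnIII_p4x_n h e hτ fc)

theorem pnIII_z1Ny_p (h : Lin2 τ c) (e : CsP c) (hτ : 0 ≤ τ)
    (fc : 0 ≤ -8 + (-1 / 4 * c.z1Ny - 1 / 2 * c.p2y - 3 / 4 * c.z1Ey + 5 / 2 * c.p4y + 3 / 4 * c.z3Wy - 7 / 4 * c.z3Sy - c.s1) + 157 * τ) :
    0 ≤ (1 / 2) + 149 * τ + (-c.z1Ny) := by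
  linear_combination
    (1 / 8) * h.toLin.p2_p4 + h.toLin.p4_z1Ev + (7 / 8) * h.toLin.z1N_t1N
    + (3 / 8) * h.toLin.z1E_t2E + (3 / 8) * h.toLin.z3W_t1W + (1 / 2) * h.toLin.z3S_t1S
    + (3 / 8) * h.toLin.z3S_t2S + 2 * h.toLin.wRz1E + (7 / 8) * h.toLin.wTt1N
    + (3 / 8) * h.toLin.wTt1W + (1 / 2) * h.toLin.wBt1S + (3 / 8) * h.toLin.wBt2S
    + (3 / 8) * h.toLin.wBt2E + (5 / 4) * h.c3 + 2 * e.2.1 + (1 / 2) * fc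
    + 2 * (pnIII_p4x_n h e hτ fc) + (pnIII_p4y_p h e hτ fc) + (5 / 8) * hτ

theorem pnIII_z1Ny_n (h : Lin2 τ c) (e : CsP c) (hτ : 0 ≤ τ)
    (fc : 0 ≤ -8 + (-1 / 4 * c.z1Ny - 1 / 2 * c.p2y - 3 / 4 * c.z1Ey + 5 / 2 * c.p4y + 3 / 4 * c.z3Wy - 7 / 4 * c.z3Sy - c.s1) + 157 * τ) :
    0 ≤ (-1 / 2) + 237 * τ + (c.z1Ny) := by
  linear_combination
    (11 / 36) * h.toLin.p2_p1 + (7 / 18) * h.toLin.p2_k1Nv + (3 / 4) * h.toLin.p4_p1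
    + (1 / 4) * h.toLin.p4_z1Ev + (7 / 18) * h.toLin.p4_k1Ev + (19 / 18) * h.toLin.p1_z1Nu
    + (1 / 6) * h.toLin.z1E_t2E + (1 / 6) * h.toLin.z3W_t1W + (1 / 36) * h.toLin.z3S_t1S
    + (13 / 36) * h.toLin.z3S_t2S + (7 / 18) * h.toLin.t1N_k1N + (7 / 18) * h.toLin.t2E_k1E
    + (19 / 18) * h.toLin.wRz1N + (1 / 2) * h.toLin.wRz1E + (7 / 36) * h.toLin.wTt1N
    + (1 / 6) * h.toLin.wTt1W + (1 / 36) * h.toLin.wBt1S + (13 / 36) * h.toLin.wBt2S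
    + (13 / 36) * h.toLin.wBt2E + (7 / 9) * h.toLin.wRk1N + (7 / 9) * h.toLin.wRk1E
    + (5 / 9) * h.c3 + (1 / 2) * e.2.1 + (2 / 9) * fc + (13 / 12) * (pnIII_p2x_n h e hτ fc)
    + (73 / 36) * (pnIII_p4x_n h e hτ fc) + (11 / 18) * (pnIII_p1y_n h e hτ fc) + (23 / 36) * hτ

theorem pnIII_z1Ex_p (h : Lin2 τ c) (e : CsP c) (hτ : 0 ≤ τ)
    (fc : 0 ≤ -8 + (-1 / 4 * c.z1Ny - 1 / 2 * c.p2y - 3 / 4 * c.z1Ey + 5 / 2 * c.p4y + 3 / 4 * c.z3Wy - 7 / 4 * c.z3Sy - c.s1) + 157 * τ) :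
    0 ≤ 0 + 0 * τ + (-c.z1Ex) := by
  linear_combination
    h.toLin.wRz1E

theorem pnIII_z1Ex_n (h : Lin2 τ c) (e : CsP c) (hτ : 0 ≤ τ)
    (fc : 0 ≤ -8 + (-1 / 4 * c.z1Ny - 1 / 2 * c.p2y - 3 / 4 * c.z1Ey + 5 / 2 * c.p4y + 3 / 4 * c.z3Wy - 7 / 4 * c.z3Sy - c.s1) + 157 * τ) :
    0 ≤ 0 + 53 * τ + (c.z1Ex) := by
  linear_combination
    (1 / 2) * h.toLin.p2_z1Nv + (1 / 2) * h.toLin.p4_z1Ev + h.toLin.wRz1N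
    + (pnIII_p2x_n h e hτ fc) + (pnIII_p4x_n h e hτ fc)

theorem pnIII_z1Ey_p (h : Lin2 τ c) (e : CsP c) (hτ : 0 ≤ τ)
    (fc : 0 ≤ -8 + (-1 / 4 * c.z1Ny - 1 / 2 * c.p2y - 3 / 4 * c.z1Ey + 5 / 2 * c.p4y + 3 / 4 * c.z3Wy - 7 / 4 * c.z3Sy - c.s1) + 157 * τ) :
    0 ≤ (-1 / 2) + 1265 * τ + (-c.z1Ey) := by
  linear_combination
    (1 / 3) * h.toLin.p2_p4 + (8 / 3) * h.toLin.p4_z1Ev + (10 / 3) * h.toLin.z1N_t1N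
    + h.toLin.z3W_t1W + (7 / 3) * h.toLin.z3S_t1S + (16 / 3) * h.toLin.wRz1E
    + (10 / 3) * h.toLin.wTt1N + h.toLin.wTt1W + (7 / 3) * h.toLin.wBt1S + (10 / 3) * h.c3
    + (16 / 3) * e.2.1 + (4 / 3) * fc + (16 / 3) * (pnIII_p4x_n h e hτ fc)
    + (8 / 3) * (pnIII_p4y_p h e hτ fc) + (11 / 3) * (pnIII_z1Ny_n h e hτ fc) + (1 / 3) * hτ

theorem pnIII_p4y_n (h : Lin2 τ c) (e : CsP c) (hτ : 0 ≤ τ)
    (fc : 0 ≤ -8 + (-1 / 4 * c.z1Ny - 1 / 2 * c.p2y - 3 / 4 * c.z1Ey + 5 / 2 * c.p4y + 3 / 4 * c.z3Wy - 7 / 4 * c.z3Sy - c.s1) + 157 * τ) :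
    0 ≤ (-1) + 212 * τ + (c.p4y) := by
  linear_combination
    (53 / 245) * h.toLin.p2_p1 + (8 / 245) * h.toLin.p2_eN2 + (139 / 245) * h.toLin.p4_z1Ev
    + (8 / 245) * h.toLin.p1_eN2 + (64 / 245) * h.toLin.p1_gE + (3 / 10) * h.toLin.z1N_t1N
    + (17 / 245) * h.toLin.z1N_t2N + (713 / 2450) * h.toLin.z1E_t2E
    + (704 / 1225) * h.toLin.z1E_gEh + (3 / 10) * h.toLin.z3W_t1W + (7 / 10) * h.toLin.z3S_t2S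
    + (32 / 245) * h.toLin.t2N_eN2 + (1024 / 3675) * h.toLin.t2E_gEh + (311 / 245) * h.toLin.wRz1E
    + (3 / 10) * h.toLin.wTt1N + (3 / 10) * h.toLin.wTt1W + (16 / 245) * h.toLin.wRt2N
    + (33 / 245) * h.toLin.wTt2N + (7 / 10) * h.toLin.wBt2S + (16 / 245) * h.toLin.wRt2E
    + (277 / 490) * h.toLin.wBt2E + h.c3 + (311 / 245) * e.2.1 + (2 / 5) * fc
    + (13 / 49) * (pnIII_p2x_n h e hτ fc) + (278 / 245) * (pnIII_p4x_n h e hτ fc)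
    + (23 / 49) * (pnIII_z1Ny_n h e hτ fc) + (146 / 525) * hτ

theorem pnIII_z3Wx_p (h : Lin2 τ c) (e : CsP c) (hτ : 0 ≤ τ)
    (fc : 0 ≤ -8 + (-1 / 4 * c.z1Ny - 1 / 2 * c.p2y - 3 / 4 * c.z1Ey + 5 / 2 * c.p4y + 3 / 4 * c.z3Wy - 7 / 4 * c.z3Sy - c.s1) + 157 * τ) :
    0 ≤ 0 + 53 * τ + (-c.z3Wx) := by
  linear_combination
    (1 / 2) * h.toLin.p2_z3Wv + (1 / 2) * h.toLin.p4_z3Sv + h.toLin.wLz3S
    + (pnIII_p4x_p h e hτ fc) + (pnIII_p2x_p h e hτ fc)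

theorem pnIII_z3Wx_n (h : Lin2 τ c) (e : CsP c) (hτ : 0 ≤ τ)
    (fc : 0 ≤ -8 + (-1 / 4 * c.z1Ny - 1 / 2 * c.p2y - 3 / 4 * c.z1Ey + 5 / 2 * c.p4y + 3 / 4 * c.z3Wy - 7 / 4 * c.z3Sy - c.s1) + 157 * τ) :
    0 ≤ 0 + 0 * τ + (c.z3Wx) := by
  linear_combination
    h.toLin.wLz3W

theorem pnIII_z3Wy_p (h : Lin2 τ c) (e : CsP c) (hτ : 0 ≤ τ)
    (fc : 0 ≤ -8 + (-1 / 4 * c.z1Ny - 1 / 2 * c.p2y - 3 / 4 * c.z1Ey + 5 / 2 * c.p4y + 3 / 4 * c.z3Wy - 7 / 4 * c.z3Sy - c.s1) + 157 * τ) :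
    0 ≤ (5 / 2) + 285 * τ + (-c.z3Wy) := by
  linear_combination
    h.toLin.p4_z1Ev + h.toLin.z1N_t1N + h.toLin.z3W_t1W + 2 * h.toLin.wRz1E + h.toLin.wTt1N
    + h.toLin.wTt1W + h.c3 + 2 * e.2.1 + 2 * (pnIII_p4x_n h e hτ fc) + (pnIII_z1Ny_n h e hτ fc)

theorem pnIII_z1Ey_n (h : Lin2 τ c) (e : CsP c) (hτ : 0 ≤ τ)
    (fc : 0 ≤ -8 + (-1 / 4 * c.z1Ny - 1 / 2 * c.p2y - 3 / 4 * c.z1Ey + 5 / 2 * c.p4y + 3 / 4 * c.z3Wy - 7 / 4 * c.z3Sy - c.s1) + 157 * τ) :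
    0 ≤ (1 / 2) + 534 * τ + (c.z1Ey) := by
  linear_combination
    (1 / 4) * h.toLin.p2_p4 + (5 / 4) * h.toLin.p4_z1Ev + (7 / 4) * h.toLin.z1E_t2E
    + (7 / 4) * h.toLin.z3S_t2S + (5 / 2) * h.toLin.wRz1E + (7 / 4) * h.toLin.wBt2S
    + (7 / 4) * h.toLin.wBt2E + (7 / 4) * h.c3 + (5 / 2) * e.2.1 + fc
    + (5 / 2) * (pnIII_p4x_n h e hτ fc) + 2 * (pnIII_p4y_p h e hτ fc)
    + (1 / 4) * (pnIII_z1Ny_n h e hτ fc) + (3 / 4) * (pnIII_z3Wy_p h e hτ fc) + (1 / 4) * hτ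

theorem pnIII_z3Sx_p (h : Lin2 τ c) (e : CsP c) (hτ : 0 ≤ τ)
    (fc : 0 ≤ -8 + (-1 / 4 * c.z1Ny - 1 / 2 * c.p2y - 3 / 4 * c.z1Ey + 5 / 2 * c.p4y + 3 / 4 * c.z3Wy - 7 / 4 * c.z3Sy - c.s1) + 157 * τ) :
    0 ≤ 0 + 28 * τ + (-c.z3Sx) := by
  linear_combination
    (1 / 4) * h.toLin.p2_z3Wv + (1 / 4) * h.toLin.p4_z1Ev + (1 / 2) * h.toLin.p4_z3Su
    + (1 / 2) * h.toLin.wRz1E + (1 / 2) * h.toLin.wLz3W + (1 / 2) * h.c3 + (1 / 2) * e.2.1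
    + (1 / 2) * (pnIII_p4x_p h e hτ fc) + (1 / 2) * (pnIII_p2x_p h e hτ fc) + (1 / 2) * hτ

theorem pnIII_z3Sx_n (h : Lin2 τ c) (e : CsP c) (hτ : 0 ≤ τ)
    (fc : 0 ≤ -8 + (-1 / 4 * c.z1Ny - 1 / 2 * c.p2y - 3 / 4 * c.z1Ey + 5 / 2 * c.p4y + 3 / 4 * c.z3Wy - 7 / 4 * c.z3Sy - c.s1) + 157 * τ) :
    0 ≤ 0 + 0 * τ + (c.z3Sx) := by
  linear_combination
    h.toLin.wLz3S

theorem pnIII_z3Sy_p (h : Lin2 τ c) (e : CsP c) (hτ : 0 ≤ τ)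
    (fc : 0 ≤ -8 + (-1 / 4 * c.z1Ny - 1 / 2 * c.p2y - 3 / 4 * c.z1Ey + 5 / 2 * c.p4y + 3 / 4 * c.z3Wy - 7 / 4 * c.z3Sy - c.s1) + 157 * τ) :
    0 ≤ (-5 / 2) + 486 * τ + (-c.z3Sy) := by
  linear_combination
    (1 / 7) * h.toLin.p2_p4 + (2 / 7) * h.toLin.z1N_t1N + (2 / 7) * h.toLin.z3W_t1W
    + (2 / 7) * h.toLin.wTt1N + (2 / 7) * h.toLin.wTt1W + (2 / 7) * h.c3 + (4 / 7) * fc
    + (8 / 7) * (pnIII_p4y_p h e hτ fc) + (3 / 7) * (pnIII_z1Ny_n h e hτ fc)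
    + (1 / 7) * (pnIII_z3Wy_p h e hτ fc) + (3 / 7) * (pnIII_z1Ey_n h e hτ fc) + (1 / 7) * hτ

theorem pnIII_z3Sy_n (h : Lin2 τ c) (e : CsP c) (hτ : 0 ≤ τ)
    (fc : 0 ≤ -8 + (-1 / 4 * c.z1Ny - 1 / 2 * c.p2y - 3 / 4 * c.z1Ey + 5 / 2 * c.p4y + 3 / 4 * c.z3Wy - 7 / 4 * c.z3Sy - c.s1) + 157 * τ) :
    0 ≤ (5 / 2) + 285 * τ + (c.z3Sy) := by
  linear_combination
    h.toLin.p4_z1Ev + h.toLin.z1N_t1N + h.toLin.z3S_t1S + 2 * h.toLin.wRz1E + h.toLin.wTt1N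
    + h.toLin.wBt1S + h.c3 + 2 * e.2.1 + 2 * (pnIII_p4x_n h e hτ fc) + (pnIII_z1Ny_n h e hτ fc)

theorem pnIII_t2Nx_p (h : Lin2 τ c) (e : CsP c) (hτ : 0 ≤ τ)
    (fc : 0 ≤ -8 + (-1 / 4 * c.z1Ny - 1 / 2 * c.p2y - 3 / 4 * c.z1Ey + 5 / 2 * c.p4y + 3 / 4 * c.z3Wy - 7 / 4 * c.z3Sy - c.s1) + 157 * τ) :
    0 ≤ 0 + 0 * τ + (-c.t2Nx) := by
  linear_combination
    h.toLin.wRt2N

theorem pnIII_z3Wy_n (h : Lin2 τ c) (e : CsP c) (hτ : 0 ≤ τ)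
    (fc : 0 ≤ -8 + (-1 / 4 * c.z1Ny - 1 / 2 * c.p2y - 3 / 4 * c.z1Ey + 5 / 2 * c.p4y + 3 / 4 * c.z3Wy - 7 / 4 * c.z3Sy - c.s1) + 157 * τ) :
    0 ≤ (-5 / 2) + 1000 * τ + (c.z3Wy) := by
  linear_combination
    (1 / 3) * h.toLin.p2_p4 + (2 / 3) * h.toLin.z1E_t2E + (2 / 3) * h.toLin.z3S_t2S
    + (2 / 3) * h.toLin.wBt2S + (2 / 3) * h.toLin.wBt2E + (2 / 3) * h.c3 + (4 / 3) * fc
    + (8 / 3) * (pnIII_p4y_p h e hτ fc) + (1 / 3) * (pnIII_z1Ny_n h e hτ fc)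
    + (1 / 3) * (pnIII_z1Ey_n h e hτ fc) + (5 / 3) * (pnIII_z3Sy_n h e hτ fc) + (1 / 3) * hτ

theorem pnIII_t2Ny_p (h : Lin2 τ c) (e : CsP c) (hτ : 0 ≤ τ)
    (fc : 0 ≤ -8 + (-1 / 4 * c.z1Ny - 1 / 2 * c.p2y - 3 / 4 * c.z1Ey + 5 / 2 * c.p4y + 3 / 4 * c.z3Wy - 7 / 4 * c.z3Sy - c.s1) + 157 * τ) :
    0 ≤ 1 + 0 * τ + (-c.t2Ny) := by
  linear_combination
    h.toLin.wTt2N

theorem pnIII_t2Ny_n (h : Lin2 τ c) (e : CsP c) (hτ : 0 ≤ τ)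
    (fc : 0 ≤ -8 + (-1 / 4 * c.z1Ny - 1 / 2 * c.p2y - 3 / 4 * c.z1Ey + 5 / 2 * c.p4y + 3 / 4 * c.z3Wy - 7 / 4 * c.z3Sy - c.s1) + 157 * τ) :
    0 ≤ (-1) + 771 * τ + (c.t2Ny) := by
  linear_combination
    (1 / 7) * h.toLin.p2_p4 + (5 / 7) * h.toLin.p4_z1Ev + h.toLin.z1N_t2N + h.toLin.z3S_t2S
    + (10 / 7) * h.toLin.wRz1E + h.toLin.wBt2S + h.c3 + (10 / 7) * e.2.1 + (4 / 7) * fc
    + (10 / 7) * (pnIII_p4x_n h e hτ fc) + (8 / 7) * (pnIII_p4y_p h e hτ fc)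
    + (8 / 7) * (pnIII_z1Ny_n h e hτ fc) + (3 / 7) * (pnIII_z3Wy_p h e hτ fc)
    + (3 / 7) * (pnIII_z1Ey_n h e hτ fc) + (1 / 7) * hτ

theorem pnIII_t2Nx_n (h : Lin2 τ c) (e : CsP c) (hτ : 0 ≤ τ)
    (fc : 0 ≤ -8 + (-1 / 4 * c.z1Ny - 1 / 2 * c.p2y - 3 / 4 * c.z1Ey + 5 / 2 * c.p4y + 3 / 4 * c.z3Wy - 7 / 4 * c.z3Sy - c.s1) + 157 * τ) :
    0 ≤ 0 + 350 * τ + (c.t2Nx) := by
  linear_combination
    (3 / 16) * h.toLin.p2_p4 + (1 / 4) * h.toLin.p2_z3Wv + (1 / 2) * h.toLin.p2_eN2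
    + (3 / 4) * h.toLin.p4_p1 + (1 / 8) * h.toLin.p4_z1Ev + h.toLin.p4_eS2
    + (1 / 2) * h.toLin.p1_eN2 + h.toLin.z3S_eS2 + 2 * h.toLin.t2N_eN2 + 2 * h.toLin.t2S_eS2
    + (1 / 4) * h.toLin.wRz1E + (1 / 2) * h.toLin.wLz3W + (1 / 2) * h.toLin.wLz3S + h.toLin.wTt2N
    + h.toLin.wLt2S + h.toLin.wBt2S + (1 / 2) * h.c3 + (1 / 4) * e.2.1 + (1 / 4) * fc
    + (1 / 2) * (pnIII_p4x_p h e hτ fc) + (1 / 4) * (pnIII_p2x_n h e hτ fc)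
    + (1 / 2) * (pnIII_p1x_p h e hτ fc) + (1 / 16) * (pnIII_z1Ny_n h e hτ fc)
    + (3 / 16) * (pnIII_z3Wy_p h e hτ fc) + (3 / 16) * (pnIII_z1Ey_n h e hτ fc)
    + (1 / 16) * (pnIII_z3Sy_p h e hτ fc) + (11 / 16) * hτ

theorem pnIII_t2Sx_n (h : Lin2 τ c) (e : CsP c) (hτ : 0 ≤ τ)
    (fc : 0 ≤ -8 + (-1 / 4 * c.z1Ny - 1 / 2 * c.p2y - 3 / 4 * c.z1Ey + 5 / 2 * c.p4y + 3 / 4 * c.z3Wy - 7 / 4 * c.z3Sy - c.s1) + 157 * τ) :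
    0 ≤ 0 + 0 * τ + (c.t2Sx) := by
  linear_combination
    h.toLin.wLt2S

theorem pnIII_t2Sy_p (h : Lin2 τ c) (e : CsP c) (hτ : 0 ≤ τ)
    (fc : 0 ≤ -8 + (-1 / 4 * c.z1Ny - 1 / 2 * c.p2y - 3 / 4 * c.z1Ey + 5 / 2 * c.p4y + 3 / 4 * c.z3Wy - 7 / 4 * c.z3Sy - c.s1) + 157 * τ) :
    0 ≤ (-1) + 333 * τ + (-c.t2Sy) := by
  linear_combination
    (106 / 343) * h.toLin.p2_p1 + (16 / 343) * h.toLin.p2_eN2 + (131 / 343) * h.toLin.p4_z1Ev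
    + (16 / 343) * h.toLin.p1_eN2 + (128 / 343) * h.toLin.p1_gE + (34 / 343) * h.toLin.z1N_t2N
    + (713 / 1715) * h.toLin.z1E_t2E + (1408 / 1715) * h.toLin.z1E_gEh + h.toLin.z3S_t2S
    + (64 / 343) * h.toLin.t2N_eN2 + (2048 / 5145) * h.toLin.t2E_gEh + (328 / 343) * h.toLin.wRz1E
    + (32 / 343) * h.toLin.wRt2N + (66 / 343) * h.toLin.wTt2N + (32 / 343) * h.toLin.wRt2E
    + (277 / 343) * h.toLin.wBt2E + h.c3 + (328 / 343) * e.2.1 + (4 / 7) * fc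
    + (130 / 343) * (pnIII_p2x_n h e hτ fc) + (262 / 343) * (pnIII_p4x_n h e hτ fc)
    + (10 / 7) * (pnIII_p4y_p h e hτ fc) + (83 / 343) * (pnIII_z1Ny_n h e hτ fc)
    + (3 / 7) * (pnIII_z3Wy_p h e hτ fc) + (397 / 735) * hτ

theorem pnIII_t2Sy_n (h : Lin2 τ c) (e : CsP c) (hτ : 0 ≤ τ)
    (fc : 0 ≤ -8 + (-1 / 4 * c.z1Ny - 1 / 2 * c.p2y - 3 / 4 * c.z1Ey + 5 / 2 * c.p4y + 3 / 4 * c.z3Wy - 7 / 4 * c.z3Sy - c.s1) + 157 * τ) :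
    0 ≤ 1 + 0 * τ + (c.t2Sy) := by
  linear_combination
    h.toLin.wBt2S

theorem pnIII_t2Ex_p (h : Lin2 τ c) (e : CsP c) (hτ : 0 ≤ τ)
    (fc : 0 ≤ -8 + (-1 / 4 * c.z1Ny - 1 / 2 * c.p2y - 3 / 4 * c.z1Ey + 5 / 2 * c.p4y + 3 / 4 * c.z3Wy - 7 / 4 * c.z3Sy - c.s1) + 157 * τ) :
    0 ≤ 0 + 0 * τ + (-c.t2Ex) := by
  linear_combination
    h.toLin.wRt2E

theorem pnIII_t2Sx_p (h : Lin2 τ c) (e : CsP c) (hτ : 0 ≤ τ)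
    (fc : 0 ≤ -8 + (-1 / 4 * c.z1Ny - 1 / 2 * c.p2y - 3 / 4 * c.z1Ey + 5 / 2 * c.p4y + 3 / 4 * c.z3Wy - 7 / 4 * c.z3Sy - c.s1) + 157 * τ) :
    0 ≤ 0 + 350 * τ + (-c.t2Sx) := by
  linear_combination
    (3 / 16) * h.toLin.p2_p4 + (1 / 4) * h.toLin.p2_z3Wv + (1 / 2) * h.toLin.p2_eN2
    + (3 / 4) * h.toLin.p4_p1 + (1 / 8) * h.toLin.p4_z1Ev + h.toLin.p4_eS2
    + (1 / 2) * h.toLin.p1_eN2 + h.toLin.z3S_eS2 + 2 * h.toLin.t2N_eN2 + 2 * h.toLin.t2S_eS2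
    + (1 / 4) * h.toLin.wRz1E + (1 / 2) * h.toLin.wLz3W + (1 / 2) * h.toLin.wLz3S + h.toLin.wRt2N
    + h.toLin.wTt2N + h.toLin.wBt2S + (1 / 2) * h.c3 + (1 / 4) * e.2.1 + (1 / 4) * fc
    + (1 / 2) * (pnIII_p4x_p h e hτ fc) + (1 / 4) * (pnIII_p2x_n h e hτ fc)
    + (1 / 2) * (pnIII_p1x_p h e hτ fc) + (1 / 16) * (pnIII_z1Ny_n h e hτ fc)
    + (3 / 16) * (pnIII_z3Wy_p h e hτ fc) + (3 / 16) * (pnIII_z1Ey_n h e hτ fc)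
    + (1 / 16) * (pnIII_z3Sy_p h e hτ fc) + (11 / 16) * hτ

theorem pnIII_t2Ey_p (h : Lin2 τ c) (e : CsP c) (hτ : 0 ≤ τ)
    (fc : 0 ≤ -8 + (-1 / 4 * c.z1Ny - 1 / 2 * c.p2y - 3 / 4 * c.z1Ey + 5 / 2 * c.p4y + 3 / 4 * c.z3Wy - 7 / 4 * c.z3Sy - c.s1) + 157 * τ) :
    0 ≤ (-1) + 1028 * τ + (-c.t2Ey) := by
  linear_combination
    (1 / 7) * h.toLin.p2_p4 + (5 / 7) * h.toLin.p4_z1Ev + h.toLin.z1E_t2E + h.toLin.z3S_t2S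
    + (10 / 7) * h.toLin.wRz1E + h.toLin.wBt2S + h.c3 + (10 / 7) * e.2.1 + (4 / 7) * fc
    + (10 / 7) * (pnIII_p4x_n h e hτ fc) + (8 / 7) * (pnIII_p4y_p h e hτ fc)
    + (1 / 7) * (pnIII_z1Ny_n h e hτ fc) + (4 / 7) * (pnIII_z1Ey_p h e hτ fc)
    + (3 / 7) * (pnIII_z3Wy_p h e hτ fc) + (1 / 7) * hτ

theorem pnIII_t2Ey_n (h : Lin2 τ c) (e : CsP c) (hτ : 0 ≤ τ)
    (fc : 0 ≤ -8 + (-1 / 4 * c.z1Ny - 1 / 2 * c.p2y - 3 / 4 * c.z1Ey + 5 / 2 * c.p4y + 3 / 4 * c.z3Wy - 7 / 4 * c.z3Sy - c.s1) + 157 * τ) :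
    0 ≤ 1 + 0 * τ + (c.t2Ey) := by
  linear_combination
    h.toLin.wBt2E

theorem pnIII_p1x_n (h : Lin2 τ c) (e : CsP c) (hτ : 0 ≤ τ)
    (fc : 0 ≤ -8 + (-1 / 4 * c.z1Ny - 1 / 2 * c.p2y - 3 / 4 * c.z1Ey + 5 / 2 * c.p4y + 3 / 4 * c.z3Wy - 7 / 4 * c.z3Sy - c.s1) + 157 * τ) :
    0 ≤ 0 + 498 * τ + (c.p1x) := by
  linear_combination
    (13 / 38) * h.toLin.p2_p1 + (8 / 57) * h.toLin.p2_eW1 + (29 / 38) * h.toLin.p4_p1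
    + (7 / 114) * h.toLin.p4_z3Sv + (2 / 19) * h.toLin.p4_eS2 + (4 / 19) * h.toLin.p1_k2Nv
    + (2 / 19) * h.toLin.z1E_t2E + (16 / 57) * h.toLin.z3W_k2W + (8 / 171) * h.toLin.z3W_eW1
    + (2 / 19) * h.toLin.z3S_eS2 + (4 / 19) * h.toLin.t2N_k2N + (4 / 19) * h.toLin.t2S_eS2
    + (32 / 57) * h.toLin.k2W_eW1 + (10 / 57) * h.toLin.wLz3W + (10 / 57) * h.toLin.wLz3S
    + (2 / 19) * h.toLin.wRt2N + (2 / 19) * h.toLin.wLt2S + (2 / 19) * h.toLin.wBt2S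
    + (2 / 19) * h.toLin.wBt2E + (8 / 19) * h.toLin.wTk2N + (8 / 19) * h.toLin.wTk2W
    + (7 / 19) * h.c3 + (9 / 19) * fc + (1 / 6) * (pnIII_p2x_n h e hτ fc)
    + (55 / 114) * (pnIII_p4x_n h e hτ fc) + (9 / 19) * (pnIII_p4y_p h e hτ fc)
    + (9 / 76) * (pnIII_z1Ny_n h e hτ fc) + (3 / 76) * (pnIII_z3Wy_p h e hτ fc)
    + (1 / 4) * (pnIII_z1Ey_n h e hτ fc) + (59 / 76) * (pnIII_z3Sy_n h e hτ fc) + (337 / 684) * hτ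

theorem pnIII_p1y_p (h : Lin2 τ c) (e : CsP c) (hτ : 0 ≤ τ)
    (fc : 0 ≤ -8 + (-1 / 4 * c.z1Ny - 1 / 2 * c.p2y - 3 / 4 * c.z1Ey + 5 / 2 * c.p4y + 3 / 4 * c.z3Wy - 7 / 4 * c.z3Sy - c.s1) + 157 * τ) :
    0 ≤ (1 / 2) + 648 * τ + (-c.p1y) := by
  linear_combination
    h.toLin.p1_z1Nu + h.toLin.wRz1N + (pnIII_z1Ny_p h e hτ fc) + (pnIII_p1x_n h e hτ fc)

theorem pnIII_k2Ny_p (h : Lin2 τ c) (e : CsP c) (hτ : 0 ≤ τ)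
    (fc : 0 ≤ -8 + (-1 / 4 * c.z1Ny - 1 / 2 * c.p2y - 3 / 4 * c.z1Ey + 5 / 2 * c.p4y + 3 / 4 * c.z3Wy - 7 / 4 * c.z3Sy - c.s1) + 157 * τ) :
    0 ≤ 1 + 0 * τ + (-c.k2Ny) := by
  linear_combination
    h.toLin.wTk2N

theorem pnIII_k2Nx_n (h : Lin2 τ c) (e : CsP c) (hτ : 0 ≤ τ)
    (fc : 0 ≤ -8 + (-1 / 4 * c.z1Ny - 1 / 2 * c.p2y - 3 / 4 * c.z1Ey + 5 / 2 * c.p4y + 3 / 4 * c.z3Wy - 7 / 4 * c.z3Sy - c.s1) + 157 * τ) :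
    0 ≤ (-1) + 1005 * τ + (c.k2Nx) := by
  linear_combination
    (89 / 192) * h.toLin.p2_p4 + (3 / 4) * h.toLin.p2_eN1 + (1 / 3) * h.toLin.p2_eW1
    + (1 / 16) * h.toLin.p4_p1 + (17 / 96) * h.toLin.p4_z1Ev + (5 / 24) * h.toLin.p4_z3Sv
    + (1 / 4) * h.toLin.p1_eN1 + (2 / 3) * h.toLin.z3W_k2W + (1 / 9) * h.toLin.z3W_eW1
    + 4 * h.toLin.k2N_eN1 + (4 / 3) * h.toLin.k2W_eW1 + (17 / 48) * h.toLin.wRz1E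
    + (5 / 12) * h.toLin.wLz3W + (5 / 12) * h.toLin.wLz3S + h.toLin.wTk2N + h.toLin.wTk2W
    + (3 / 4) * h.c3 + (17 / 48) * e.2.1 + (19 / 48) * fc + (25 / 48) * (pnIII_p2x_n h e hτ fc)
    + (1 / 12) * (pnIII_p2y_n h e hτ fc) + (3 / 8) * (pnIII_p1y_n h e hτ fc)
    + (19 / 192) * (pnIII_z1Ny_n h e hτ fc) + (19 / 64) * (pnIII_z1Ey_n h e hτ fc)
    + (133 / 192) * (pnIII_z3Sy_n h e hτ fc) + (29 / 64) * (pnIII_z3Wy_n h e hτ fc)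
    + (221 / 576) * hτ

theorem pnIII_t2Ex_n (h : Lin2 τ c) (e : CsP c) (hτ : 0 ≤ τ)
    (fc : 0 ≤ -8 + (-1 / 4 * c.z1Ny - 1 / 2 * c.p2y - 3 / 4 * c.z1Ey + 5 / 2 * c.p4y + 3 / 4 * c.z3Wy - 7 / 4 * c.z3Sy - c.s1) + 157 * τ) :
    0 ≤ 0 + 5964 * τ + (c.t2Ex) := by
  linear_combination
    (91 / 80) * h.toLin.p2_p1 + 4 * h.toLin.p1_gE + (44 / 5) * h.toLin.z1E_gEh
    + (21 / 5) * h.toLin.z3S_t2S + 2 * h.toLin.t2N_k2N + (64 / 15) * h.toLin.t2E_gEh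
    + (33 / 16) * h.toLin.wRz1E + h.toLin.wRt2N + (21 / 5) * h.toLin.wBt2S
    + (21 / 5) * h.toLin.wBt2E + (21 / 5) * h.c3 + (33 / 16) * e.2.1 + (91 / 40) * fc
    + (91 / 80) * (pnIII_p2x_n h e hτ fc) + (91 / 16) * (pnIII_p4y_p h e hτ fc)
    + (91 / 160) * (pnIII_z1Ny_n h e hτ fc) + (273 / 160) * (pnIII_z3Wy_p h e hτ fc)
    + (251 / 160) * (pnIII_z1Ey_n h e hτ fc) + (7 / 32) * (pnIII_z3Sy_p h e hτ fc)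
    + (77 / 40) * (pnIII_p1x_n h e hτ fc) + (117 / 40) * (pnIII_p1y_p h e hτ fc)
    + (pnIII_k2Nx_n h e hτ fc) + (61 / 120) * hτ

theorem pnIII_k2Wx_n (h : Lin2 τ c) (e : CsP c) (hτ : 0 ≤ τ)
    (fc : 0 ≤ -8 + (-1 / 4 * c.z1Ny - 1 / 2 * c.p2y - 3 / 4 * c.z1Ey + 5 / 2 * c.p4y + 3 / 4 * c.z3Wy - 7 / 4 * c.z3Sy - c.s1) + 157 * τ) :
    0 ≤ (-1) + 2470 * τ + (c.k2Wx) := by
  linear_combination
    (1 / 24) * h.toLin.p2_p4 + (1 / 3) * h.toLin.p4_p1 + (17 / 12) * h.toLin.p4_z1Ev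
    + (1 / 2) * h.toLin.p4_z3Sv + (2 / 3) * h.toLin.p1_k2Nv + (2 / 3) * h.toLin.z1N_k2N
    + 2 * h.toLin.z3W_k2W + (17 / 6) * h.toLin.wRz1E + h.toLin.wLz3W + h.toLin.wLz3S
    + 2 * h.toLin.wTk2N + 2 * h.toLin.wTk2W + 2 * h.c3 + (5 / 2) * e.2.1 + (1 / 6) * fc
    + (13 / 6) * (pnIII_p4x_n h e hτ fc) + (pnIII_p1y_n h e hτ fc)
    + (1 / 3) * (pnIII_z1Nx_p h e hτ fc) + (17 / 24) * (pnIII_z1Ny_n h e hτ fc)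
    + (1 / 8) * (pnIII_z1Ey_n h e hτ fc) + (7 / 24) * (pnIII_z3Sy_n h e hτ fc)
    + (15 / 8) * (pnIII_z3Wy_n h e hτ fc) + (19 / 24) * hτ

theorem pnIII_k2Wy_p (h : Lin2 τ c) (e : CsP c) (hτ : 0 ≤ τ)
    (fc : 0 ≤ -8 + (-1 / 4 * c.z1Ny - 1 / 2 * c.p2y - 3 / 4 * c.z1Ey + 5 / 2 * c.p4y + 3 / 4 * c.z3Wy - 7 / 4 * c.z3Sy - c.s1) + 157 * τ) :
    0 ≤ 1 + 0 * τ + (-c.k2Wy) := by
  linear_combination
    h.toLin.wTk2W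

theorem pnIII_k2Wx_p (h : Lin2 τ c) (e : CsP c) (hτ : 0 ≤ τ)
    (fc : 0 ≤ -8 + (-1 / 4 * c.z1Ny - 1 / 2 * c.p2y - 3 / 4 * c.z1Ey + 5 / 2 * c.p4y + 3 / 4 * c.z3Wy - 7 / 4 * c.z3Sy - c.s1) + 157 * τ) :
    0 ≤ 1 + 635 * τ + (-c.k2Wx) := by
  linear_combination
    (35 / 96) * h.toLin.p2_p4 + (1 / 6) * h.toLin.p2_p1 + h.toLin.p2_eW1
    + (11 / 48) * h.toLin.p4_z1Ev + (1 / 8) * h.toLin.p4_z3Sv + (1 / 3) * h.toLin.p1_k2Nv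
    + (1 / 3) * h.toLin.z1N_k2N + (1 / 3) * h.toLin.z3W_eW1 + 4 * h.toLin.k2W_eW1
    + (11 / 24) * h.toLin.wRz1E + (1 / 4) * h.toLin.wLz3W + (1 / 4) * h.toLin.wLz3S
    + h.toLin.wTk2N + h.toLin.wTk2W + (1 / 4) * h.c3 + (7 / 24) * e.2.1 + (7 / 24) * fc
    + (5 / 24) * (pnIII_p4x_n h e hτ fc) + (13 / 12) * (pnIII_p2x_p h e hτ fc)
    + (5 / 6) * (pnIII_p1y_n h e hτ fc) + (1 / 6) * (pnIII_z1Nx_p h e hτ fc)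
    + (13 / 32) * (pnIII_z1Ny_n h e hτ fc) + (7 / 32) * (pnIII_z1Ey_n h e hτ fc)
    + (49 / 96) * (pnIII_z3Sy_n h e hτ fc) + (1 / 32) * (pnIII_z3Wy_n h e hτ fc) + (25 / 96) * hτ

theorem pnIII_k2Ny_n (h : Lin2 τ c) (e : CsP c) (hτ : 0 ≤ τ)
    (fc : 0 ≤ -8 + (-1 / 4 * c.z1Ny - 1 / 2 * c.p2y - 3 / 4 * c.z1Ey + 5 / 2 * c.p4y + 3 / 4 * c.z3Wy - 7 / 4 * c.z3Sy - c.s1) + 157 * τ) :
    0 ≤ (-1) + 805 * τ + (c.k2Ny) := by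
  linear_combination
    (659 / 13200) * h.toLin.p2_p4 + (1 / 6) * h.toLin.p2_p1 + (199 / 825) * h.toLin.p2_eW1
    + (541 / 1320) * h.toLin.p4_z1Ev + (37 / 132) * h.toLin.p4_z3Sv + (76 / 275) * h.toLin.p4_hWv
    + (1 / 3) * h.toLin.p1_k2Nv + (1 / 3) * h.toLin.z1N_k2N + (2126 / 4785) * h.toLin.z3W_k2W
    + (17 / 495) * h.toLin.z3W_eW1 + (2128 / 1595) * h.toLin.z3W_gWh
    + (967 / 825) * h.toLin.k2W_eW1 + (2128 / 7975) * h.toLin.k2W_gWh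
    + (76 / 1375) * h.toLin.eW1_hW + (4256 / 14575) * h.toLin.gW_hW + (541 / 660) * h.toLin.wRz1E
    + (37 / 66) * h.toLin.wLz3W + (37 / 66) * h.toLin.wLz3S + h.toLin.wTk2W + (27 / 55) * h.c3
    + (431 / 660) * e.2.1 + (113 / 660) * fc + (89 / 660) * (pnIII_p2x_p h e hτ fc)
    + (5 / 6) * (pnIII_p1y_n h e hτ fc) + (1 / 6) * (pnIII_z1Nx_p h e hτ fc)
    + (331 / 880) * (pnIII_z1Ny_n h e hτ fc) + (113 / 880) * (pnIII_z1Ey_n h e hτ fc)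
    + (791 / 2640) * (pnIII_z3Sy_n h e hτ fc) + (29 / 80) * (pnIII_z3Wy_n h e hτ fc)
    + (222284947 / 304326000) * hτ

theorem pnIII_k2Wy_n (h : Lin2 τ c) (e : CsP c) (hτ : 0 ≤ τ)
    (fc : 0 ≤ -8 + (-1 / 4 * c.z1Ny - 1 / 2 * c.p2y - 3 / 4 * c.z1Ey + 5 / 2 * c.p4y + 3 / 4 * c.z3Wy - 7 / 4 * c.z3Sy - c.s1) + 157 * τ) :
    0 ≤ (-1) + 805 * τ + (c.k2Wy) := by
  linear_combination
    (659 / 13200) * h.toLin.p2_p4 + (1 / 6) * h.toLin.p2_p1 + (199 / 825) * h.toLin.p2_eW1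
    + (541 / 1320) * h.toLin.p4_z1Ev + (37 / 132) * h.toLin.p4_z3Sv + (76 / 275) * h.toLin.p4_hWv
    + (1 / 3) * h.toLin.p1_k2Nv + (1 / 3) * h.toLin.z1N_k2N + (2126 / 4785) * h.toLin.z3W_k2W
    + (17 / 495) * h.toLin.z3W_eW1 + (2128 / 1595) * h.toLin.z3W_gWh
    + (967 / 825) * h.toLin.k2W_eW1 + (2128 / 7975) * h.toLin.k2W_gWh
    + (76 / 1375) * h.toLin.eW1_hW + (4256 / 14575) * h.toLin.gW_hW + (1 / 6) * h.toLin.wRz1N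
    + (541 / 660) * h.toLin.wRz1E + (37 / 66) * h.toLin.wLz3W + (37 / 66) * h.toLin.wLz3S
    + h.toLin.wTk2N + (27 / 55) * h.c3 + (431 / 660) * e.2.1 + (113 / 660) * fc
    + (89 / 660) * (pnIII_p2x_p h e hτ fc) + (5 / 6) * (pnIII_p1y_n h e hτ fc)
    + (331 / 880) * (pnIII_z1Ny_n h e hτ fc) + (113 / 880) * (pnIII_z1Ey_n h e hτ fc)
    + (791 / 2640) * (pnIII_z3Sy_n h e hτ fc) + (29 / 80) * (pnIII_z3Wy_n h e hτ fc)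
    + (222284947 / 304326000) * hτ

theorem pnIII_p2y_p (h : Lin2 τ c) (e : CsP c) (hτ : 0 ≤ τ)
    (fc : 0 ≤ -8 + (-1 / 4 * c.z1Ny - 1 / 2 * c.p2y - 3 / 4 * c.z1Ey + 5 / 2 * c.p4y + 3 / 4 * c.z3Wy - 7 / 4 * c.z3Sy - c.s1) + 157 * τ) :
    0 ≤ 1 + 2377 * τ + (-c.p2y) := by
  linear_combination
    (148 / 2023) * h.toLin.p2_k1Nv + (536 / 2023) * h.toLin.p2_eN1 + (160 / 289) * h.toLin.p2_eW1
    + (14 / 289) * h.toLin.p4_z3Sv + (32 / 289) * h.toLin.p4_k1Ev + (24 / 289) * h.toLin.p4_eS2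
    + (100 / 289) * h.toLin.z1N_k2N + (160 / 867) * h.toLin.z3W_eW1 + (24 / 289) * h.toLin.z3S_eS2
    + (32 / 289) * h.toLin.t2N_eN1 + (48 / 289) * h.toLin.t2S_eS2 + (32 / 289) * h.toLin.t2E_k1E
    + (10 / 289) * h.toLin.k1N_k2N + (156 / 2023) * h.toLin.k1N_eN1
    + (220 / 289) * h.toLin.k2N_eN1 + (640 / 289) * h.toLin.k2W_eW1 + (50 / 289) * h.toLin.wRz1N
    + (40 / 289) * h.toLin.wLz3W + (40 / 289) * h.toLin.wLz3S + (24 / 289) * h.toLin.wRt2N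
    + (8 / 289) * h.toLin.wTt2N + (24 / 289) * h.toLin.wLt2S + (24 / 289) * h.toLin.wBt2S
    + (16 / 289) * h.toLin.wBt2E + (64 / 289) * h.toLin.wRk1N + (64 / 289) * h.toLin.wRk1E
    + (160 / 289) * h.toLin.wTk2N + (160 / 289) * h.toLin.wTk2W + (52 / 289) * h.c3
    + (50 / 289) * e.1 + (202 / 289) * fc + (62 / 289) * (pnIII_p2x_p h e hτ fc)
    + (533 / 289) * (pnIII_p4y_p h e hτ fc) + (301 / 578) * (pnIII_z1Ny_n h e hτ fc)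
    + (223 / 578) * (pnIII_z3Wy_p h e hτ fc) + (303 / 578) * (pnIII_z1Ey_n h e hτ fc)
    + (683 / 578) * (pnIII_z3Sy_n h e hτ fc) + (160 / 289) * (pnIII_k2Wx_n h e hτ fc)
    + (65 / 102) * hτ

theorem pnIII_eN1y_n (h : Lin2 τ c) (e : CsP c) (hτ : 0 ≤ τ)
    (fc : 0 ≤ -8 + (-1 / 4 * c.z1Ny - 1 / 2 * c.p2y - 3 / 4 * c.z1Ey + 5 / 2 * c.p4y + 3 / 4 * c.z3Wy - 7 / 4 * c.z3Sy - c.s1) + 157 * τ) :
    0 ≤ (-3 / 8) + 269 * τ + (c.eN1y) := by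
  linear_combination
    (1 / 8) * h.toLin.p4_z1Ev + (1 / 2) * h.toLin.p1_eN1 + (1 / 6) * h.toLin.z1N_eN1
    + (1 / 8) * h.toLin.wRz1N + (1 / 4) * h.toLin.wRz1E + (1 / 8) * e.2.1
    + (1 / 4) * (pnIII_p4x_n h e hτ fc) + (7 / 8) * (pnIII_p1y_n h e hτ fc)
    + (1 / 8) * (pnIII_z1Ny_n h e hτ fc) + (1 / 8) * (pnIII_p1x_n h e hτ fc) + (5 / 24) * hτ

theorem pnIII_eW1x_p (h : Lin2 τ c) (e : CsP c) (hτ : 0 ≤ τ)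
    (fc : 0 ≤ -8 + (-1 / 4 * c.z1Ny - 1 / 2 * c.p2y - 3 / 4 * c.z1Ey + 5 / 2 * c.p4y + 3 / 4 * c.z3Wy - 7 / 4 * c.z3Sy - c.s1) + 157 * τ) :
    0 ≤ (7 / 8) + 4327 * τ + (-c.eW1x) := by
  linear_combination
    (1 / 4) * h.toLin.p2_p1 + 2 * h.toLin.p2_eW1 + (3 / 8) * h.toLin.p4_z1Ev
    + (1 / 2) * h.toLin.p1_k2Nv + (1 / 2) * h.toLin.z1N_k2N + 6 * h.toLin.k2W_eW1
    + (1 / 4) * h.toLin.wRz1N + (3 / 4) * h.toLin.wRz1E + (3 / 2) * h.toLin.wTk2N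
    + (3 / 2) * h.toLin.wTk2W + (1 / 2) * e.2.1 + (3 / 4) * (pnIII_p4x_n h e hτ fc)
    + (9 / 4) * (pnIII_p2x_p h e hτ fc) + (5 / 4) * (pnIII_p2y_n h e hτ fc)
    + (5 / 4) * (pnIII_p1y_n h e hτ fc) + (1 / 2) * (pnIII_z1Ny_n h e hτ fc)
    + (3 / 2) * (pnIII_k2Wx_n h e hτ fc) + (5 / 8) * hτ

theorem pnIII_eW1x_n (h : Lin2 τ c) (e : CsP c) (hτ : 0 ≤ τ)
    (fc : 0 ≤ -8 + (-1 / 4 * c.z1Ny - 1 / 2 * c.p2y - 3 / 4 * c.z1Ey + 5 / 2 * c.p4y + 3 / 4 * c.z3Wy - 7 / 4 * c.z3Sy - c.s1) + 157 * τ) :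
    0 ≤ (-7 / 8) + 1850 * τ + (c.eW1x) := by
  linear_combination
    (1 / 96) * h.toLin.p2_p4 + (1 / 12) * h.toLin.p4_p1 + (17 / 48) * h.toLin.p4_z1Ev
    + (1 / 4) * h.toLin.p4_z3Sv + (1 / 6) * h.toLin.p1_k2Nv + (1 / 6) * h.toLin.z1N_k2N
    + (2 / 3) * h.toLin.z3W_eW1 + 2 * h.toLin.k2W_eW1 + (1 / 12) * h.toLin.wRz1N
    + (17 / 24) * h.toLin.wRz1E + (1 / 2) * h.toLin.wLz3W + (1 / 2) * h.toLin.wLz3S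
    + (1 / 2) * h.toLin.wTk2N + (1 / 2) * h.toLin.wTk2W + (1 / 2) * h.c3 + (5 / 8) * e.2.1
    + (1 / 24) * fc + (7 / 24) * (pnIII_p4x_n h e hτ fc) + (1 / 4) * (pnIII_p1y_n h e hτ fc)
    + (17 / 96) * (pnIII_z1Ny_n h e hτ fc) + (1 / 32) * (pnIII_z1Ey_n h e hτ fc)
    + (7 / 96) * (pnIII_z3Sy_n h e hτ fc) + (15 / 32) * (pnIII_z3Wy_n h e hτ fc)
    + (1 / 2) * (pnIII_k2Wx_n h e hτ fc) + (29 / 32) * hτ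

theorem pnIII_eW1y_p (h : Lin2 τ c) (e : CsP c) (hτ : 0 ≤ τ)
    (fc : 0 ≤ -8 + (-1 / 4 * c.z1Ny - 1 / 2 * c.p2y - 3 / 4 * c.z1Ey + 5 / 2 * c.p4y + 3 / 4 * c.z3Wy - 7 / 4 * c.z3Sy - c.s1) + 157 * τ) :
    0 ≤ (13 / 8) + 7105 * τ + (-c.eW1y) := by
  linear_combination
    (1 / 4) * h.toLin.p4_z1Ev + (1 / 3) * h.toLin.p1_k2Nv + (1 / 3) * h.toLin.z1N_k2N
    + 4 * h.toLin.k2W_eW1 + (1 / 6) * h.toLin.wRz1N + (1 / 2) * h.toLin.wRz1E + h.toLin.wTk2N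
    + h.toLin.wTk2W + (1 / 3) * e.2.1 + (1 / 2) * (pnIII_p4x_n h e hτ fc)
    + (2 / 3) * (pnIII_p1y_n h e hτ fc) + (1 / 3) * (pnIII_z1Ny_n h e hτ fc)
    + (1 / 6) * (pnIII_p1x_n h e hτ fc) + (pnIII_k2Wx_n h e hτ fc) + (pnIII_eW1x_p h e hτ fc)
    + (1 / 12) * hτ

theorem pnIII_eW1y_n (h : Lin2 τ c) (e : CsP c) (hτ : 0 ≤ τ)
    (fc : 0 ≤ -8 + (-1 / 4 * c.z1Ny - 1 / 2 * c.p2y - 3 / 4 * c.z1Ey + 5 / 2 * c.p4y + 3 / 4 * c.z3Wy - 7 / 4 * c.z3Sy - c.s1) + 157 * τ) :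
    0 ≤ (-13 / 8) + 697 * τ + (c.eW1y) := by
  linear_combination
    (1 / 2) * h.toLin.p2_eW1 + (5 / 16) * h.toLin.p4_z1Ev + (5 / 16) * h.toLin.p4_z3Sv
    + (5 / 6) * h.toLin.z3W_eW1 + (5 / 8) * h.toLin.wRz1E + (5 / 8) * h.toLin.wLz3W
    + (5 / 8) * h.toLin.wLz3S + (5 / 8) * h.c3 + (5 / 8) * e.2.1
    + (5 / 8) * (pnIII_p2x_p h e hτ fc) + (3 / 8) * (pnIII_p2y_n h e hτ fc)
    + (5 / 8) * (pnIII_z3Wy_n h e hτ fc) + (2 / 3) * hτ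

theorem pnIII_eS2x_p (h : Lin2 τ c) (e : CsP c) (hτ : 0 ≤ τ)
    (fc : 0 ≤ -8 + (-1 / 4 * c.z1Ny - 1 / 2 * c.p2y - 3 / 4 * c.z1Ey + 5 / 2 * c.p4y + 3 / 4 * c.z3Wy - 7 / 4 * c.z3Sy - c.s1) + 157 * τ) :
    0 ≤ (1 / 4) + 89 * τ + (-c.eS2x) := by
  linear_combination
    (1 / 16) * h.toLin.p2_p4 + (1 / 4) * h.toLin.p2_eN2 + (3 / 8) * h.toLin.p4_p1 + h.toLin.p4_eS2
    + (1 / 4) * h.toLin.p1_eN2 + h.toLin.t1N_eN2 + h.toLin.t1S_eS2 + (1 / 2) * h.toLin.wRt1N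
    + (1 / 2) * h.toLin.wTt1N + (1 / 2) * h.toLin.wLt1S + (1 / 2) * h.toLin.wBt1S
    + (9 / 8) * (pnIII_p4x_p h e hτ fc) + (3 / 8) * (pnIII_p2x_n h e hτ fc)
    + (1 / 4) * (pnIII_p1x_p h e hτ fc) + (15 / 16) * hτ

theorem pnIII_eS2x_n (h : Lin2 τ c) (e : CsP c) (hτ : 0 ≤ τ)
    (fc : 0 ≤ -8 + (-1 / 4 * c.z1Ny - 1 / 2 * c.p2y - 3 / 4 * c.z1Ey + 5 / 2 * c.p4y + 3 / 4 * c.z3Wy - 7 / 4 * c.z3Sy - c.s1) + 157 * τ) :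
    0 ≤ (-1 / 4) + 308 * τ + (c.eS2x) := by
  linear_combination
    (15 / 112) * h.toLin.p2_p4 + (1 / 4) * h.toLin.p2_z3Wv + (1 / 4) * h.toLin.p2_eN2
    + (1 / 8) * h.toLin.p4_p1 + (3 / 28) * h.toLin.p4_z1Ev + (1 / 4) * h.toLin.p1_eN2
    + h.toLin.z3S_eS2 + h.toLin.t1N_eN2 + h.toLin.t1S_eS2 + (3 / 14) * h.toLin.wRz1E
    + (1 / 2) * h.toLin.wLz3W + (1 / 2) * h.toLin.wLz3S + (1 / 2) * h.toLin.wRt1N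
    + (1 / 2) * h.toLin.wTt1N + (1 / 2) * h.toLin.wLt1S + (1 / 2) * h.toLin.wBt1S + (1 / 2) * h.c3
    + (3 / 14) * e.2.1 + (2 / 7) * fc + (19 / 56) * (pnIII_p4x_n h e hτ fc)
    + (1 / 8) * (pnIII_p2x_p h e hτ fc) + (9 / 28) * (pnIII_p4y_p h e hτ fc)
    + (1 / 4) * (pnIII_p1y_n h e hτ fc) + (1 / 14) * (pnIII_z1Ny_n h e hτ fc)
    + (3 / 14) * (pnIII_z3Wy_p h e hτ fc) + (3 / 14) * (pnIII_z1Ey_n h e hτ fc) + (29 / 112) * hτ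

theorem pnIII_eS2y_p (h : Lin2 τ c) (e : CsP c) (hτ : 0 ≤ τ)
    (fc : 0 ≤ -8 + (-1 / 4 * c.z1Ny - 1 / 2 * c.p2y - 3 / 4 * c.z1Ey + 5 / 2 * c.p4y + 3 / 4 * c.z3Wy - 7 / 4 * c.z3Sy - c.s1) + 157 * τ) :
    0 ≤ (-5 / 4) + 391 * τ + (-c.eS2y) := by
  linear_combination
    (3 / 8) * h.toLin.p2_z3Wv + (3 / 8) * h.toLin.p4_z1Ev + (1 / 2) * h.toLin.p4_eS2
    + (3 / 2) * h.toLin.z3S_eS2 + (3 / 4) * h.toLin.wRz1E + (3 / 4) * h.toLin.wLz3W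
    + (3 / 4) * h.toLin.wLz3S + (3 / 4) * h.c3 + (3 / 4) * e.2.1
    + (3 / 4) * (pnIII_p2x_p h e hτ fc) + (1 / 4) * (pnIII_p4y_p h e hτ fc)
    + (3 / 4) * (pnIII_z3Sy_p h e hτ fc) + (1 / 2) * hτ

theorem pnIII_eS2y_n (h : Lin2 τ c) (e : CsP c) (hτ : 0 ≤ τ)
    (fc : 0 ≤ -8 + (-1 / 4 * c.z1Ny - 1 / 2 * c.p2y - 3 / 4 * c.z1Ey + 5 / 2 * c.p4y + 3 / 4 * c.z3Wy - 7 / 4 * c.z3Sy - c.s1) + 157 * τ) :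
    0 ≤ (5 / 4) + 424 * τ + (c.eS2y) := by
  linear_combination
    (1 / 2) * h.toLin.p2_eN2 + (1 / 2) * h.toLin.p1_eN2 + 2 * h.toLin.t1N_eN2
    + 2 * h.toLin.t1S_eS2 + h.toLin.wRt1N + h.toLin.wTt1N + h.toLin.wLt1S + h.toLin.wBt1S
    + (3 / 4) * (pnIII_p2x_n h e hτ fc) + (1 / 4) * (pnIII_p2y_n h e hτ fc)
    + (3 / 4) * (pnIII_p1y_n h e hτ fc) + (1 / 4) * (pnIII_p1x_n h e hτ fc)
    + (pnIII_eS2x_p h e hτ fc) + (1 / 2) * hτ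

theorem pnIII_s1_p (h : Lin2 τ c) (e : CsP c) (hτ : 0 ≤ τ)
    (fc : 0 ≤ -8 + (-1 / 4 * c.z1Ny - 1 / 2 * c.p2y - 3 / 4 * c.z1Ey + 5 / 2 * c.p4y + 3 / 4 * c.z3Wy - 7 / 4 * c.z3Sy - c.s1) + 157 * τ) :
    0 ≤ (1 / 2) + 23 * τ + (-c.s1) := by
  linear_combination
    (1 / 2) * h.toLin.p4_z1Ev + h.toLin.wRz1E + e.2.1 + (pnIII_p4x_n h e hτ fc) + (1 / 2) * hτ

theorem pnIII_s1_n (h : Lin2 τ c) (e : CsP c) (hτ : 0 ≤ τ)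
    (fc : 0 ≤ -8 + (-1 / 4 * c.z1Ny - 1 / 2 * c.p2y - 3 / 4 * c.z1Ey + 5 / 2 * c.p4y + 3 / 4 * c.z3Wy - 7 / 4 * c.z3Sy - c.s1) + 157 * τ) :
    0 ≤ (-1 / 2) + 31 * τ + (c.s1) := by
  linear_combination
    (1 / 2) * h.toLin.p2_z1Nu + h.toLin.wRz1N + (1 / 2) * e.1 + (pnIII_p2x_n h e hτ fc)
    + (1 / 2) * hτ

theorem pnIII_h1_p (h : Lin2 τ c) (e : CsP c) (hτ : 0 ≤ τ)
    (fc : 0 ≤ -8 + (-1 / 4 * c.z1Ny - 1 / 2 * c.p2y - 3 / 4 * c.z1Ey + 5 / 2 * c.p4y + 3 / 4 * c.z3Wy - 7 / 4 * c.z3Sy - c.s1) + 157 * τ) :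
    0 ≤ (1 / 2) + 23 * τ + (-c.h1) := by
  linear_combination
    e.1 + (pnIII_s1_p h e hτ fc)

theorem pnIII_h1_n (h : Lin2 τ c) (e : CsP c) (hτ : 0 ≤ τ)
    (fc : 0 ≤ -8 + (-1 / 4 * c.z1Ny - 1 / 2 * c.p2y - 3 / 4 * c.z1Ey + 5 / 2 * c.p4y + 3 / 4 * c.z3Wy - 7 / 4 * c.z3Sy - c.s1) + 157 * τ) :
    0 ≤ (-1 / 2) + 31 * τ + (c.h1) := by
  linear_combination
    e.2.1 + (pnIII_s1_n h e hτ fc)

theorem pnIII_s3_p (h : Lin2 τ c) (e : CsP c) (hτ : 0 ≤ τ)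
    (fc : 0 ≤ -8 + (-1 / 4 * c.z1Ny - 1 / 2 * c.p2y - 3 / 4 * c.z1Ey + 5 / 2 * c.p4y + 3 / 4 * c.z3Wy - 7 / 4 * c.z3Sy - c.s1) + 157 * τ) :
    0 ≤ (1 / 2) + 24 * τ + (-c.s3) := by
  linear_combination
    h.c3 + (pnIII_s1_p h e hτ fc)

theorem pnIII_s3_n (h : Lin2 τ c) (e : CsP c) (hτ : 0 ≤ τ)
    (fc : 0 ≤ -8 + (-1 / 4 * c.z1Ny - 1 / 2 * c.p2y - 3 / 4 * c.z1Ey + 5 / 2 * c.p4y + 3 / 4 * c.z3Wy - 7 / 4 * c.z3Sy - c.s1) + 157 * τ) :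
    0 ≤ (-1 / 2) + 32 * τ + (c.s3) := by
  linear_combination
    h.c4 + (pnIII_s1_n h e hτ fc)

theorem pnIII_h3_p (h : Lin2 τ c) (e : CsP c) (hτ : 0 ≤ τ)
    (fc : 0 ≤ -8 + (-1 / 4 * c.z1Ny - 1 / 2 * c.p2y - 3 / 4 * c.z1Ey + 5 / 2 * c.p4y + 3 / 4 * c.z3Wy - 7 / 4 * c.z3Sy - c.s1) + 157 * τ) :
    0 ≤ (-1 / 2) + 30 * τ + (-c.h3) := by
  linear_combination
    (1 / 2) * h.toLin.p4_z3Sv + h.toLin.wLz3S + (pnIII_p4x_p h e hτ fc) + (1 / 2) * hτ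

theorem pnIII_h3_n (h : Lin2 τ c) (e : CsP c) (hτ : 0 ≤ τ)
    (fc : 0 ≤ -8 + (-1 / 4 * c.z1Ny - 1 / 2 * c.p2y - 3 / 4 * c.z1Ey + 5 / 2 * c.p4y + 3 / 4 * c.z3Wy - 7 / 4 * c.z3Sy - c.s1) + 157 * τ) :
    0 ≤ (1 / 2) + 24 * τ + (c.h3) := by
  linear_combination
    (1 / 2) * h.toLin.p2_z3Wv + h.toLin.wLz3W + (pnIII_p2x_p h e hτ fc) + (1 / 2) * hτ

theorem pnIII_t2x_p (h : Lin2 τ c) (e : CsP c) (hτ : 0 ≤ τ)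
    (fc : 0 ≤ -8 + (-1 / 4 * c.z1Ny - 1 / 2 * c.p2y - 3 / 4 * c.z1Ey + 5 / 2 * c.p4y + 3 / 4 * c.z3Wy - 7 / 4 * c.z3Sy - c.s1) + 157 * τ) :
    0 ≤ (-1) + 511 * τ + (-c.t2x) := by
  linear_combination
    h.toLin.z3S_t2S + h.toLin.wBt2S + (pnIII_z3Sy_p h e hτ fc) + (pnIII_s3_p h e hτ fc)

theorem pnIII_t2x_n (h : Lin2 τ c) (e : CsP c) (hτ : 0 ≤ τ)
    (fc : 0 ≤ -8 + (-1 / 4 * c.z1Ny - 1 / 2 * c.p2y - 3 / 4 * c.z1Ey + 5 / 2 * c.p4y + 3 / 4 * c.z3Wy - 7 / 4 * c.z3Sy - c.s1) + 157 * τ) :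
    0 ≤ 1 + 261 * τ + (c.t2x) := by
  linear_combination
    h.toLin.z1N_t2N + h.toLin.wTt2N + (pnIII_z1Ny_n h e hτ fc) + (pnIII_s1_p h e hτ fc)

theorem pnIII_t2y_p (h : Lin2 τ c) (e : CsP c) (hτ : 0 ≤ τ)
    (fc : 0 ≤ -8 + (-1 / 4 * c.z1Ny - 1 / 2 * c.p2y - 3 / 4 * c.z1Ey + 5 / 2 * c.p4y + 3 / 4 * c.z3Wy - 7 / 4 * c.z3Sy - c.s1) + 157 * τ) :
    0 ≤ 1 + 743 * τ + (-c.t2y) := by
  linear_combination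
    2 * h.toLin.t2S_eS2 + h.toLin.wLt2S + h.toLin.wBt2S + (pnIII_eS2x_p h e hτ fc)
    + (pnIII_eS2y_p h e hτ fc) + (pnIII_t2x_n h e hτ fc)

theorem pnIII_k2Nx_p (h : Lin2 τ c) (e : CsP c) (hτ : 0 ≤ τ)
    (fc : 0 ≤ -8 + (-1 / 4 * c.z1Ny - 1 / 2 * c.p2y - 3 / 4 * c.z1Ey + 5 / 2 * c.p4y + 3 / 4 * c.z3Wy - 7 / 4 * c.z3Sy - c.s1) + 157 * τ) :
    0 ≤ 1 + 745 * τ + (-c.k2Nx) := by
  linear_combination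
    2 * h.toLin.t2N_k2N + h.toLin.wRt2N + (pnIII_t2y_p h e hτ fc)

theorem pnIII_t2y_n (h : Lin2 τ c) (e : CsP c) (hτ : 0 ≤ τ)
    (fc : 0 ≤ -8 + (-1 / 4 * c.z1Ny - 1 / 2 * c.p2y - 3 / 4 * c.z1Ey + 5 / 2 * c.p4y + 3 / 4 * c.z3Wy - 7 / 4 * c.z3Sy - c.s1) + 157 * τ) :
    0 ≤ (-1) + 1007 * τ + (c.t2y) := by
  linear_combination
    2 * h.toLin.t2N_k2N + h.toLin.wRt2N + (pnIII_k2Nx_n h e hτ fc)

theorem pnIII_k2_n (h : Lin2 τ c) (e : CsP c) (hτ : 0 ≤ τ)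
    (fc : 0 ≤ -8 + (-1 / 4 * c.z1Ny - 1 / 2 * c.p2y - 3 / 4 * c.z1Ey + 5 / 2 * c.p4y + 3 / 4 * c.z3Wy - 7 / 4 * c.z3Sy - c.s1) + 157 * τ) :
    0 ≤ (3 / 4) + 507 * τ + (c.k2) := by
  linear_combination
    (1 / 2) * h.toLin.p1_k2Nv + h.toLin.wTk2N + (pnIII_p1y_n h e hτ fc)
    + (1 / 4) * (pnIII_p1x_n h e hτ fc) + (1 / 4) * (pnIII_k2Nx_p h e hτ fc) + (3 / 4) * hτ

theorem pnIII_k2_p (h : Lin2 τ c) (e : CsP c) (hτ : 0 ≤ τ)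
    (fc : 0 ≤ -8 + (-1 / 4 * c.z1Ny - 1 / 2 * c.p2y - 3 / 4 * c.z1Ey + 5 / 2 * c.p4y + 3 / 4 * c.z3Wy - 7 / 4 * c.z3Sy - c.s1) + 157 * τ) :
    0 ≤ (-3 / 4) + 1358 * τ + (-c.k2) := by
  linear_combination
    h.toLin.z3W_k2W + (1 / 2) * h.toLin.wLz3W + h.toLin.wTk2W + (pnIII_z3Wy_n h e hτ fc)
    + (1 / 2) * (pnIII_k2Wx_p h e hτ fc) + (pnIII_s3_p h e hτ fc)
    + (1 / 2) * (pnIII_h3_p h e hτ fc) + (1 / 2) * hτ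

theorem pnIII_eN1x_n (h : Lin2 τ c) (e : CsP c) (hτ : 0 ≤ τ)
    (fc : 0 ≤ -8 + (-1 / 4 * c.z1Ny - 1 / 2 * c.p2y - 3 / 4 * c.z1Ey + 5 / 2 * c.p4y + 3 / 4 * c.z3Wy - 7 / 4 * c.z3Sy - c.s1) + 157 * τ) :
    0 ≤ (-7 / 8) + 3455 * τ + (c.eN1x) := by
  linear_combination
    2 * h.toLin.p2_eN1 + 6 * h.toLin.k2N_eN1 + (3 / 2) * h.toLin.wTk2N
    + (5 / 2) * (pnIII_p2x_n h e hτ fc) + (3 / 2) * (pnIII_p2y_n h e hτ fc)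
    + (3 / 2) * (pnIII_k2Nx_p h e hτ fc) + (3 / 2) * (pnIII_k2_p h e hτ fc)

theorem pnIII_eN1y_p (h : Lin2 τ c) (e : CsP c) (hτ : 0 ≤ τ)
    (fc : 0 ≤ -8 + (-1 / 4 * c.z1Ny - 1 / 2 * c.p2y - 3 / 4 * c.z1Ey + 5 / 2 * c.p4y + 3 / 4 * c.z3Wy - 7 / 4 * c.z3Sy - c.s1) + 157 * τ) :
    0 ≤ (3 / 8) + 5562 * τ + (-c.eN1y) := by
  linear_combination
    4 * h.toLin.k2N_eN1 + h.toLin.wTk2N + (pnIII_k2Nx_p h e hτ fc) + (pnIII_k2_p h e hτ fc)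
    + (pnIII_eN1x_n h e hτ fc)

theorem pnIII_gWu_p (h : Lin2 τ c) (e : CsP c) (hτ : 0 ≤ τ)
    (fc : 0 ≤ -8 + (-1 / 4 * c.z1Ny - 1 / 2 * c.p2y - 3 / 4 * c.z1Ey + 5 / 2 * c.p4y + 3 / 4 * c.z3Wy - 7 / 4 * c.z3Sy - c.s1) + 157 * τ) :
    0 ≤ (153 / 128) + 351 * τ + (-c.gWu) := by
  linear_combination
    (46 / 223) * h.toLin.p2_gW + (114 / 223) * h.toLin.k2W_gWh + (3591 / 7136) * h.toLin.wTk2W
    + (2599 / 7136) * (pnIII_p2x_p h e hτ fc) + (23 / 7136) * (pnIII_p2y_n h e hτ fc)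
    + (969 / 7136) * (pnIII_k2Wx_p h e hτ fc) + (3591 / 7136) * (pnIII_k2_n h e hτ fc)
    + (69 / 892) * hτ

theorem pnIII_gWv_p (h : Lin2 τ c) (e : CsP c) (hτ : 0 ≤ τ)
    (fc : 0 ≤ -8 + (-1 / 4 * c.z1Ny - 1 / 2 * c.p2y - 3 / 4 * c.z1Ey + 5 / 2 * c.p4y + 3 / 4 * c.z3Wy - 7 / 4 * c.z3Sy - c.s1) + 157 * τ) :
    0 ≤ (-11 / 16) + 137 * τ + (-c.gWv) := by
  linear_combination
    (7 / 17) * h.toLin.p4_hWv + (1 / 17) * h.toLin.p1_hWv + (32 / 53) * h.toLin.gW_hW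
    + (105 / 272) * (pnIII_p4x_p h e hτ fc) + (31 / 272) * (pnIII_p1x_p h e hτ fc)
    + (3 / 272) * (pnIII_p1y_n h e hτ fc) + (133 / 272) * (pnIII_p4y_n h e hτ fc)
    + (8203 / 14416) * hτ

theorem pnIII_gWu_n (h : Lin2 τ c) (e : CsP c) (hτ : 0 ≤ τ)
    (fc : 0 ≤ -8 + (-1 / 4 * c.z1Ny - 1 / 2 * c.p2y - 3 / 4 * c.z1Ey + 5 / 2 * c.p4y + 3 / 4 * c.z3Wy - 7 / 4 * c.z3Sy - c.s1) + 157 * τ) :
    0 ≤ (-153 / 128) + 216 * τ + (c.gWu) := by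
  linear_combination
    4 * h.toLin.z3W_gWh + (15 / 16) * h.toLin.wLz3W + (1 / 16) * (pnIII_z3Wy_n h e hτ fc)
    + (1 / 16) * (pnIII_s3_p h e hτ fc) + (15 / 16) * (pnIII_h3_p h e hτ fc)
    + (7 / 8) * (pnIII_gWv_p h e hτ fc)

theorem pnIII_gEv_p (h : Lin2 τ c) (e : CsP c) (hτ : 0 ≤ τ)
    (fc : 0 ≤ -8 + (-1 / 4 * c.z1Ny - 1 / 2 * c.p2y - 3 / 4 * c.z1Ey + 5 / 2 * c.p4y + 3 / 4 * c.z3Wy - 7 / 4 * c.z3Sy - c.s1) + 157 * τ) :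
    0 ≤ (5 / 16) + 514 * τ + (-c.gEv) := by
  linear_combination
    (4 / 57) * h.toLin.p4_gE + (28 / 57) * h.toLin.p1_gE + (113 / 912) * (pnIII_p4x_n h e hτ fc)
    + (1 / 912) * (pnIII_p4y_p h e hτ fc) + (343 / 912) * (pnIII_p1x_n h e hτ fc)
    + (455 / 912) * (pnIII_p1y_p h e hτ fc) + (5 / 48) * hτ

theorem pnIII_gEu_p (h : Lin2 τ c) (e : CsP c) (hτ : 0 ≤ τ)
    (fc : 0 ≤ -8 + (-1 / 4 * c.z1Ny - 1 / 2 * c.p2y - 3 / 4 * c.z1Ey + 5 / 2 * c.p4y + 3 / 4 * c.z3Wy - 7 / 4 * c.z3Sy - c.s1) + 157 * τ) :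
    0 ≤ (25 / 128) + 395 * τ + (-c.gEu) := by
  linear_combination
    (13 / 37) * h.toLin.p4_gE + (19 / 37) * h.toLin.t2E_gEh + (285 / 2368) * h.toLin.wRt2E
    + (1197 / 2368) * h.toLin.wBt2E + (1469 / 2368) * (pnIII_p4x_n h e hτ fc)
    + (13 / 2368) * (pnIII_p4y_p h e hτ fc) + (1197 / 2368) * (pnIII_t2x_p h e hτ fc)
    + (285 / 2368) * (pnIII_t2y_n h e hτ fc) + (2059 / 2368) * hτ

theorem pnIII_hWu_p (h : Lin2 τ c) (e : CsP c) (hτ : 0 ≤ τ)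
    (fc : 0 ≤ -8 + (-1 / 4 * c.z1Ny - 1 / 2 * c.p2y - 3 / 4 * c.z1Ey + 5 / 2 * c.p4y + 3 / 4 * c.z3Wy - 7 / 4 * c.z3Sy - c.s1) + 157 * τ) :
    0 ≤ (25 / 32) + 1491 * τ + (-c.hWu) := by
  linear_combination
    (6 / 11) * h.toLin.p2_hW + (2 / 55) * h.toLin.eW1_hW + (45 / 88) * (pnIII_p2x_p h e hτ fc)
    + (39 / 88) * (pnIII_p2y_p h e hτ fc) + (1 / 88) * (pnIII_eW1x_n h e hτ fc)
    + (5 / 88) * (pnIII_eW1y_p h e hτ fc) + (219 / 440) * hτ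

theorem pnIII_gEu_n (h : Lin2 τ c) (e : CsP c) (hτ : 0 ≤ τ)
    (fc : 0 ≤ -8 + (-1 / 4 * c.z1Ny - 1 / 2 * c.p2y - 3 / 4 * c.z1Ey + 5 / 2 * c.p4y + 3 / 4 * c.z3Wy - 7 / 4 * c.z3Sy - c.s1) + 157 * τ) :
    0 ≤ (-25 / 128) + 554 * τ + (c.gEu) := by
  linear_combination
    (7 / 16) * h.toLin.p1_gE + (57 / 16) * h.toLin.z1E_gEh + (855 / 1024) * h.toLin.wRz1E
    + (57 / 1024) * e.2.1 + (57 / 1024) * (pnIII_z1Ey_p h e hτ fc)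
    + (343 / 1024) * (pnIII_p1x_n h e hτ fc) + (455 / 1024) * (pnIII_p1y_p h e hτ fc)
    + (399 / 512) * (pnIII_h1_n h e hτ fc) + (703 / 1024) * hτ

theorem pnIII_gEv_n (h : Lin2 τ c) (e : CsP c) (hτ : 0 ≤ τ)
    (fc : 0 ≤ -8 + (-1 / 4 * c.z1Ny - 1 / 2 * c.p2y - 3 / 4 * c.z1Ey + 5 / 2 * c.p4y + 3 / 4 * c.z3Wy - 7 / 4 * c.z3Sy - c.s1) + 157 * τ) :
    0 ≤ (-5 / 16) + 949 * τ + (c.gEv) := by
  linear_combination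
    (32 / 39) * h.toLin.t2E_gEh + (5 / 26) * h.toLin.wRt2E + (21 / 26) * h.toLin.wBt2E
    + (21 / 26) * (pnIII_t2x_p h e hτ fc) + (5 / 26) * (pnIII_t2y_n h e hτ fc)
    + (8 / 13) * (pnIII_gEu_n h e hτ fc) + (34 / 39) * hτ

theorem pnIII_hWv_p (h : Lin2 τ c) (e : CsP c) (hτ : 0 ≤ τ)
    (fc : 0 ≤ -8 + (-1 / 4 * c.z1Ny - 1 / 2 * c.p2y - 3 / 4 * c.z1Ey + 5 / 2 * c.p4y + 3 / 4 * c.z3Wy - 7 / 4 * c.z3Sy - c.s1) + 157 * τ) :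
    0 ≤ (-11 / 16) + 136 * τ + (-c.hWv) := by
  linear_combination
    (7 / 17) * h.toLin.p4_hWv + (1 / 17) * h.toLin.p1_hWv + (105 / 272) * (pnIII_p4x_p h e hτ fc)
    + (31 / 272) * (pnIII_p1x_p h e hτ fc) + (3 / 272) * (pnIII_p1y_n h e hτ fc)
    + (133 / 272) * (pnIII_p4y_n h e hτ fc) + (47 / 272) * hτ

theorem pnIII_gWv_n (h : Lin2 τ c) (e : CsP c) (hτ : 0 ≤ τ)
    (fc : 0 ≤ -8 + (-1 / 4 * c.z1Ny - 1 / 2 * c.p2y - 3 / 4 * c.z1Ey + 5 / 2 * c.p4y + 3 / 4 * c.z3Wy - 7 / 4 * c.z3Sy - c.s1) + 157 * τ) :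
    0 ≤ (11 / 16) + 436 * τ + (c.gWv) := by
  linear_combination
    (80 / 29) * h.toLin.z3W_gWh + (16 / 29) * h.toLin.k2W_gWh + (75 / 116) * h.toLin.wLz3W
    + (63 / 116) * h.toLin.wTk2W + (5 / 116) * (pnIII_z3Wy_n h e hτ fc)
    + (17 / 116) * (pnIII_k2Wx_p h e hτ fc) + (5 / 116) * (pnIII_s3_p h e hτ fc)
    + (75 / 116) * (pnIII_h3_p h e hτ fc) + (63 / 116) * (pnIII_k2_n h e hτ fc) + (43 / 58) * hτ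

theorem pnIII_hWv_n (h : Lin2 τ c) (e : CsP c) (hτ : 0 ≤ τ)
    (fc : 0 ≤ -8 + (-1 / 4 * c.z1Ny - 1 / 2 * c.p2y - 3 / 4 * c.z1Ey + 5 / 2 * c.p4y + 3 / 4 * c.z3Wy - 7 / 4 * c.z3Sy - c.s1) + 157 * τ) :
    0 ≤ (11 / 16) + 437 * τ + (c.hWv) := by
  linear_combination
    (32 / 53) * h.toLin.gW_hW + (pnIII_gWv_n h e hτ fc) + (21 / 53) * hτ

theorem pnIII_hWu_n (h : Lin2 τ c) (e : CsP c) (hτ : 0 ≤ τ)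
    (fc : 0 ≤ -8 + (-1 / 4 * c.z1Ny - 1 / 2 * c.p2y - 3 / 4 * c.z1Ey + 5 / 2 * c.p4y + 3 / 4 * c.z3Wy - 7 / 4 * c.z3Sy - c.s1) + 157 * τ) :
    0 ≤ (-25 / 32) + 4835 * τ + (c.hWu) := by
  linear_combination
    4 * h.toLin.p4_hWv + (15 / 4) * (pnIII_p4x_p h e hτ fc) + (19 / 4) * (pnIII_p4y_n h e hτ fc)
    + (17 / 2) * (pnIII_hWv_n h e hτ fc) + (3 / 4) * hτ

theorem pnIII_eN1x_p (h : Lin2 τ c) (e : CsP c) (hτ : 0 ≤ τ)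
    (fc : 0 ≤ -8 + (-1 / 4 * c.z1Ny - 1 / 2 * c.p2y - 3 / 4 * c.z1Ey + 5 / 2 * c.p4y + 3 / 4 * c.z3Wy - 7 / 4 * c.z3Sy - c.s1) + 157 * τ) :
    0 ≤ (7 / 8) + 758 * τ + (-c.eN1x) := by
  linear_combination
    (1 / 3) * h.toLin.z1N_eN1 + h.toLin.t2N_eN1 + (1 / 4) * h.toLin.wRz1N
    + (3 / 4) * h.toLin.wRt2N + (1 / 4) * h.toLin.wTt2N + (1 / 4) * (pnIII_z1Ny_n h e hτ fc)
    + (1 / 4) * (pnIII_s1_p h e hτ fc) + (1 / 4) * (pnIII_h1_p h e hτ fc)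
    + (1 / 4) * (pnIII_t2x_p h e hτ fc) + (3 / 4) * (pnIII_t2y_p h e hτ fc) + (11 / 12) * hτ

theorem pinIII (h : Lin2 τ c) (e : CsP c) (hτ : 0 ≤ τ) (n : NearIII c) :
    PinIII (7105 * τ) c :=
  have fc := fcIII h e hτ n
  { p2x := pin_abs hτ (pnIII_p2x_p h e hτ fc) (pnIII_p2x_n h e hτ fc) (by norm_num)
    p2y := pin_abs hτ (pnIII_p2y_p h e hτ fc) (pnIII_p2y_n h e hτ fc) (by norm_num)
    p4x := pin_abs hτ (pnIII_p4x_p h e hτ fc) (pnIII_p4x_n h e hτ fc) (by norm_num)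
    p4y := pin_abs hτ (pnIII_p4y_p h e hτ fc) (pnIII_p4y_n h e hτ fc) (by norm_num)
    p1x := pin_abs hτ (pnIII_p1x_p h e hτ fc) (pnIII_p1x_n h e hτ fc) (by norm_num)
    p1y := pin_abs hτ (pnIII_p1y_p h e hτ fc) (pnIII_p1y_n h e hτ fc) (by norm_num)
    z1Nx := pin_abs hτ (pnIII_z1Nx_p h e hτ fc) (pnIII_z1Nx_n h e hτ fc) (by norm_num)
    z1Ny := pin_abs hτ (pnIII_z1Ny_p h e hτ fc) (pnIII_z1Ny_n h e hτ fc) (by norm_num)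
    z1Ex := pin_abs hτ (pnIII_z1Ex_p h e hτ fc) (pnIII_z1Ex_n h e hτ fc) (by norm_num)
    z1Ey := pin_abs hτ (pnIII_z1Ey_p h e hτ fc) (pnIII_z1Ey_n h e hτ fc) (by norm_num)
    z3Wx := pin_abs hτ (pnIII_z3Wx_p h e hτ fc) (pnIII_z3Wx_n h e hτ fc) (by norm_num)
    z3Wy := pin_abs hτ (pnIII_z3Wy_p h e hτ fc) (pnIII_z3Wy_n h e hτ fc) (by norm_num)
    z3Sx := pin_abs hτ (pnIII_z3Sx_p h e hτ fc) (pnIII_z3Sx_n h e hτ fc) (by norm_num)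
    z3Sy := pin_abs hτ (pnIII_z3Sy_p h e hτ fc) (pnIII_z3Sy_n h e hτ fc) (by norm_num)
    t2Nx := pin_abs hτ (pnIII_t2Nx_p h e hτ fc) (pnIII_t2Nx_n h e hτ fc) (by norm_num)
    t2Ny := pin_abs hτ (pnIII_t2Ny_p h e hτ fc) (pnIII_t2Ny_n h e hτ fc) (by norm_num)
    t2Sx := pin_abs hτ (pnIII_t2Sx_p h e hτ fc) (pnIII_t2Sx_n h e hτ fc) (by norm_num)
    t2Sy := pin_abs hτ (pnIII_t2Sy_p h e hτ fc) (pnIII_t2Sy_n h e hτ fc) (by norm_num)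
    t2Ex := pin_abs hτ (pnIII_t2Ex_p h e hτ fc) (pnIII_t2Ex_n h e hτ fc) (by norm_num)
    t2Ey := pin_abs hτ (pnIII_t2Ey_p h e hτ fc) (pnIII_t2Ey_n h e hτ fc) (by norm_num)
    k2Nx := pin_abs hτ (pnIII_k2Nx_p h e hτ fc) (pnIII_k2Nx_n h e hτ fc) (by norm_num)
    k2Ny := pin_abs hτ (pnIII_k2Ny_p h e hτ fc) (pnIII_k2Ny_n h e hτ fc) (by norm_num)
    k2Wx := pin_abs hτ (pnIII_k2Wx_p h e hτ fc) (pnIII_k2Wx_n h e hτ fc) (by norm_num)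
    k2Wy := pin_abs hτ (pnIII_k2Wy_p h e hτ fc) (pnIII_k2Wy_n h e hτ fc) (by norm_num)
    eN1x := pin_abs hτ (pnIII_eN1x_p h e hτ fc) (pnIII_eN1x_n h e hτ fc) (by norm_num)
    eN1y := pin_abs hτ (pnIII_eN1y_p h e hτ fc) (pnIII_eN1y_n h e hτ fc) (by norm_num)
    eW1x := pin_abs hτ (pnIII_eW1x_p h e hτ fc) (pnIII_eW1x_n h e hτ fc) (by norm_num)
    eW1y := pin_abs hτ (pnIII_eW1y_p h e hτ fc) (pnIII_eW1y_n h e hτ fc) (by norm_num)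
    eS2x := pin_abs hτ (pnIII_eS2x_p h e hτ fc) (pnIII_eS2x_n h e hτ fc) (by norm_num)
    eS2y := pin_abs hτ (pnIII_eS2y_p h e hτ fc) (pnIII_eS2y_n h e hτ fc) (by norm_num)
    s1 := pin_abs hτ (pnIII_s1_p h e hτ fc) (pnIII_s1_n h e hτ fc) (by norm_num)
    h1 := pin_abs hτ (pnIII_h1_p h e hτ fc) (pnIII_h1_n h e hτ fc) (by norm_num)
    s3 := pin_abs hτ (pnIII_s3_p h e hτ fc) (pnIII_s3_n h e hτ fc) (by norm_num)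
    h3 := pin_abs hτ (pnIII_h3_p h e hτ fc) (pnIII_h3_n h e hτ fc) (by norm_num)
    t2x := pin_abs hτ (pnIII_t2x_p h e hτ fc) (pnIII_t2x_n h e hτ fc) (by norm_num)
    t2y := pin_abs hτ (pnIII_t2y_p h e hτ fc) (pnIII_t2y_n h e hτ fc) (by norm_num)
    k2 := pin_abs hτ (pnIII_k2_p h e hτ fc) (pnIII_k2_n h e hτ fc) (by norm_num)
    gWu := pin_abs hτ (pnIII_gWu_p h e hτ fc) (pnIII_gWu_n h e hτ fc) (by norm_num)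
    gWv := pin_abs hτ (pnIII_gWv_p h e hτ fc) (pnIII_gWv_n h e hτ fc) (by norm_num)
    gEu := pin_abs hτ (pnIII_gEu_p h e hτ fc) (pnIII_gEu_n h e hτ fc) (by norm_num)
    gEv := pin_abs hτ (pnIII_gEv_p h e hτ fc) (pnIII_gEv_n h e hτ fc) (by norm_num)
    hWu := pin_abs hτ (pnIII_hWu_p h e hτ fc) (pnIII_hWu_n h e hτ fc) (by norm_num)
    hWv := pin_abs hτ (pnIII_hWv_p h e hτ fc) (pnIII_hWv_n h e hτ fc) (by norm_num) }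

end Pool.Agent.P.MP_dba4bb_co.Ex
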