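import Pool.Agent.P.MP_dba4bb_co.Ex.PinD

/-! Sharpness and pinned nodes near a maximiser. -/

namespace Pool.Agent.P.MP_dba4bb_co.Ex

variable {τ : ℝ} {c : Cfg}

theorem shIP0p (h : Lin2 τ c) (e : CsP c) (hτ : 0 ≤ τ) :
    c.z1Ny - c.p2y - 0 ≤ (3 / 2) * (8 - (-2 * c.z1Ey + 2 * c.p4y)) + 168 * τ := by
  linear_combination
    h.toLin.p2_p4 + h.toLin.p2_p3 + (11 / 12) * h.toLin.p2_z3Wu + (1 / 4) * h.toLin.p2_z3Wv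
    + (8 / 3) * h.toLin.p2_eN1 + (5 / 3) * h.toLin.p4_p3 + (9 / 2) * h.toLin.p4_z1Ev
    + (8 / 3) * h.toLin.p4_z3Su + (4 / 3) * h.toLin.p4_eS2 + (5 / 12) * h.toLin.p3_z3Wu
    + (1 / 3) * h.toLin.p3_z3Su + (272 / 393) * h.toLin.p3_k2Wv + (4 / 3) * h.toLin.p3_eS2
    + (464 / 393) * h.toLin.p3_gW + (1 / 3) * h.toLin.z1N_t1N + (8 / 9) * h.toLin.z1N_eN1
    + 3 * h.toLin.z1E_t2E + (1 / 3) * h.toLin.z3W_t1W + (16 / 3) * h.toLin.z3W_gWh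
    + (1 / 3) * h.toLin.z3S_t2S + (16 / 3) * h.toLin.t2N_k2N + (16 / 3) * h.toLin.t2S_eS2
    + (32 / 3) * h.toLin.k2N_eN1 + (512 / 393) * h.toLin.k2W_gWh + (2 / 3) * h.toLin.wRz1N
    + 9 * h.toLin.wRz1E + 4 * h.toLin.wLz3W + (17 / 3) * h.toLin.wLz3S + (1 / 3) * h.toLin.wTt1N
    + (1 / 3) * h.toLin.wTt1W + (8 / 3) * h.toLin.wRt2N + (8 / 3) * h.toLin.wLt2S
    + 3 * h.toLin.wBt2S + 3 * h.toLin.wBt2E + (8 / 3) * h.toLin.wTk2N + (8 / 3) * h.toLin.wTk2W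
    + (13 / 3) * h.c3 + (25 / 3) * e.2.1 + (522779 / 4716) * hτ

theorem shIP0n (h : Lin2 τ c) (e : CsP c) (hτ : 0 ≤ τ) :
    -(c.z1Ny - c.p2y - 0) ≤ (3 / 2) * (8 - (-2 * c.z1Ey + 2 * c.p4y)) + 168 * τ := by
  linear_combination
    (1 / 4) * h.toLin.p2_p4 + (3 / 4) * h.toLin.p2_p3 + (29 / 32) * h.toLin.p2_z3Wu
    + (19 / 32) * h.toLin.p2_z3Wv + 3 * h.toLin.p2_eN1 + (7 / 4) * h.toLin.p4_p1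
    + (3 / 2) * h.toLin.p4_p3 + (9 / 2) * h.toLin.p4_z1Ev + (7 / 2) * h.toLin.p4_z3Su
    + (3 / 2) * h.toLin.p4_eS2 + (7 / 4) * h.toLin.p1_z1Nu + (3 / 32) * h.toLin.p3_z3Wu
    + (102 / 131) * h.toLin.p3_k2Wv + (3 / 2) * h.toLin.p3_eS2 + (174 / 131) * h.toLin.p3_gW
    + h.toLin.z1N_eN1 + 3 * h.toLin.z1E_t2E + 6 * h.toLin.z3W_gWh + 6 * h.toLin.t2N_k2N
    + 6 * h.toLin.t2S_eS2 + 12 * h.toLin.k2N_eN1 + (192 / 131) * h.toLin.k2W_gWh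
    + (5 / 2) * h.toLin.wRz1N + 9 * h.toLin.wRz1E + (9 / 2) * h.toLin.wLz3W + 7 * h.toLin.wLz3S
    + 3 * h.toLin.wRt2N + 3 * h.toLin.wLt2S + 3 * h.toLin.wBt2S + 3 * h.toLin.wBt2E
    + 3 * h.toLin.wTk2N + 3 * h.toLin.wTk2W + (9 / 2) * h.c3 + (33 / 4) * e.2.1
    + (437367 / 4192) * hτ

theorem shIP1p (h : Lin2 τ c) (e : CsP c) (hτ : 0 ≤ τ) :
    c.z1Ey - c.p4y - (-4) ≤ (3 / 2) * (8 - (-2 * c.z1Ey + 2 * c.p4y)) + 168 * τ := by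
  linear_combination
    (1 / 2) * h.toLin.p2_p4 + (1 / 2) * h.toLin.p2_p3 + (15 / 16) * h.toLin.p2_z3Wu
    + (1 / 16) * h.toLin.p2_z3Wv + 2 * h.toLin.p2_eN1 + (1 / 2) * h.toLin.p4_p1 + h.toLin.p4_p3
    + 3 * h.toLin.p4_z1Ev + 2 * h.toLin.p4_z3Su + h.toLin.p4_eS2 + (1 / 2) * h.toLin.p1_z1Nu
    + (1 / 16) * h.toLin.p3_z3Wu + (68 / 131) * h.toLin.p3_k2Wv + h.toLin.p3_eS2
    + (116 / 131) * h.toLin.p3_gW + (2 / 3) * h.toLin.z1N_eN1 + 2 * h.toLin.z1E_t2E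
    + 4 * h.toLin.z3W_gWh + 4 * h.toLin.t2N_k2N + 4 * h.toLin.t2S_eS2 + 8 * h.toLin.k2N_eN1
    + (128 / 131) * h.toLin.k2W_gWh + h.toLin.wRz1N + 6 * h.toLin.wRz1E + 3 * h.toLin.wLz3W
    + 4 * h.toLin.wLz3S + 2 * h.toLin.wRt2N + 2 * h.toLin.wLt2S + 2 * h.toLin.wBt2S
    + 2 * h.toLin.wBt2E + 2 * h.toLin.wTk2N + 2 * h.toLin.wTk2W + 3 * h.c3 + (11 / 2) * e.2.1
    + (797879 / 6288) * hτ

theorem shIP1n (h : Lin2 τ c) (e : CsP c) (hτ : 0 ≤ τ) :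
    -(c.z1Ey - c.p4y - (-4)) ≤ (3 / 2) * (8 - (-2 * c.z1Ey + 2 * c.p4y)) + 168 * τ := by
  linear_combination
    h.toLin.p2_p4 + h.toLin.p2_p3 + (15 / 8) * h.toLin.p2_z3Wu + (1 / 8) * h.toLin.p2_z3Wv
    + 4 * h.toLin.p2_eN1 + h.toLin.p4_p1 + 2 * h.toLin.p4_p3 + 6 * h.toLin.p4_z1Ev
    + 4 * h.toLin.p4_z3Su + 2 * h.toLin.p4_eS2 + h.toLin.p1_z1Nu + (1 / 8) * h.toLin.p3_z3Wu
    + (136 / 131) * h.toLin.p3_k2Wv + 2 * h.toLin.p3_eS2 + (232 / 131) * h.toLin.p3_gW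
    + (4 / 3) * h.toLin.z1N_eN1 + 4 * h.toLin.z1E_t2E + 8 * h.toLin.z3W_gWh + 8 * h.toLin.t2N_k2N
    + 8 * h.toLin.t2S_eS2 + 16 * h.toLin.k2N_eN1 + (256 / 131) * h.toLin.k2W_gWh
    + 2 * h.toLin.wRz1N + 12 * h.toLin.wRz1E + 6 * h.toLin.wLz3W + 8 * h.toLin.wLz3S
    + 4 * h.toLin.wRt2N + 4 * h.toLin.wLt2S + 4 * h.toLin.wBt2S + 4 * h.toLin.wBt2E
    + 4 * h.toLin.wTk2N + 4 * h.toLin.wTk2W + 6 * h.c3 + 11 * e.2.1 + (269687 / 3144) * hτ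

theorem shIP2p (h : Lin2 τ c) (e : CsP c) (hτ : 0 ≤ τ) :
    c.z3Wy - c.p2y - 0 ≤ (3 / 2) * (8 - (-2 * c.z1Ey + 2 * c.p4y)) + 168 * τ := by
  linear_combination
    (5 / 4) * h.toLin.p2_p4 + (50 / 57) * h.toLin.p2_p3 + (23 / 4) * h.toLin.p2_z1Nu
    + 3 * h.toLin.p2_eN1 + (464 / 57) * h.toLin.p2_gW + (3 / 4) * h.toLin.p4_p1
    + (1 / 2) * h.toLin.p4_p3 + 16 * h.toLin.p4_z1Ev + 15 * h.toLin.p4_z3Su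
    + (3 / 2) * h.toLin.p4_eS2 + (3 / 4) * h.toLin.p1_z1Nu + (102 / 131) * h.toLin.p3_k2Wv
    + (3 / 2) * h.toLin.p3_eS2 + (2320 / 7467) * h.toLin.p3_gW + h.toLin.z1N_eN1
    + 3 * h.toLin.z1E_t2E + 64 * h.toLin.z3W_gWh + 6 * h.toLin.t2N_k2N + 6 * h.toLin.t2S_eS2
    + 12 * h.toLin.k2N_eN1 + (192 / 131) * h.toLin.k2W_gWh + 13 * h.toLin.wRz1N
    + 32 * h.toLin.wRz1E + 15 * h.toLin.wLz3W + 30 * h.toLin.wLz3S + 3 * h.toLin.wRt2N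
    + 3 * h.toLin.wLt2S + 3 * h.toLin.wBt2S + 3 * h.toLin.wBt2E + 3 * h.toLin.wTk2N
    + 3 * h.toLin.wTk2W + 16 * h.c3 + (51 / 2) * e.2.1 + (318 / 131) * hτ

theorem shIP2n (h : Lin2 τ c) (e : CsP c) (hτ : 0 ≤ τ) :
    -(c.z3Wy - c.p2y - 0) ≤ (3 / 2) * (8 - (-2 * c.z1Ey + 2 * c.p4y)) + 168 * τ := by
  linear_combination
    (1 / 4) * h.toLin.p2_p4 + (3 / 4) * h.toLin.p2_p3 + h.toLin.p2_z3Wu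
    + (1 / 2) * h.toLin.p2_z3Wv + 3 * h.toLin.p2_eN1 + (3 / 4) * h.toLin.p4_p1
    + (5 / 2) * h.toLin.p4_p3 + (13 / 4) * h.toLin.p4_z1Ev + (5 / 4) * h.toLin.p4_z3Sv
    + (3 / 2) * h.toLin.p4_eS2 + (3 / 4) * h.toLin.p1_z1Nu + 2 * h.toLin.p3_z3Wu + h.toLin.p3_k2Wv
    + (3 / 2) * h.toLin.p3_eS2 + h.toLin.z1N_eN1 + 3 * h.toLin.z1E_t2E + h.toLin.z3W_k2W
    + 6 * h.toLin.t2N_k2N + 6 * h.toLin.t2S_eS2 + 12 * h.toLin.k2N_eN1 + (3 / 2) * h.toLin.wRz1N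
    + (13 / 2) * h.toLin.wRz1E + (11 / 2) * h.toLin.wLz3W + (5 / 2) * h.toLin.wLz3S
    + 3 * h.toLin.wRt2N + 3 * h.toLin.wLt2S + 3 * h.toLin.wBt2S + 3 * h.toLin.wBt2E
    + 3 * h.toLin.wTk2N + 3 * h.toLin.wTk2W + 2 * h.c3 + (23 / 4) * e.2.1 + 117 * hτ

theorem shIP3p (h : Lin2 τ c) (e : CsP c) (hτ : 0 ≤ τ) :
    c.z3Sy - c.p4y - 0 ≤ (3 / 2) * (8 - (-2 * c.z1Ey + 2 * c.p4y)) + 168 * τ := by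
  linear_combination
    (1 / 4) * h.toLin.p2_p4 + (7 / 4) * h.toLin.p2_p3 + h.toLin.p2_z3Wv + 3 * h.toLin.p2_eN1
    + (3 / 4) * h.toLin.p4_p1 + (3 / 2) * h.toLin.p4_p3 + (11 / 4) * h.toLin.p4_z1Ev
    + (5 / 4) * h.toLin.p4_z3Sv + (3 / 2) * h.toLin.p4_eS2 + (3 / 4) * h.toLin.p1_z1Nu
    + h.toLin.p3_z3Wu + h.toLin.p3_z3Su + h.toLin.p3_k2Wv + (3 / 2) * h.toLin.p3_eS2
    + h.toLin.z1N_eN1 + 3 * h.toLin.z1E_t2E + h.toLin.z3W_k2W + 6 * h.toLin.t2N_k2N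
    + 6 * h.toLin.t2S_eS2 + 12 * h.toLin.k2N_eN1 + (3 / 2) * h.toLin.wRz1N
    + (11 / 2) * h.toLin.wRz1E + (7 / 2) * h.toLin.wLz3W + (7 / 2) * h.toLin.wLz3S
    + 3 * h.toLin.wRt2N + 3 * h.toLin.wLt2S + 3 * h.toLin.wBt2S + 3 * h.toLin.wBt2E
    + 3 * h.toLin.wTk2N + 3 * h.toLin.wTk2W + h.c3 + (19 / 4) * e.2.1 + 119 * hτ

theorem shIP3n (h : Lin2 τ c) (e : CsP c) (hτ : 0 ≤ τ) :
    -(c.z3Sy - c.p4y - 0) ≤ (3 / 2) * (8 - (-2 * c.z1Ey + 2 * c.p4y)) + 168 * τ := by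
  linear_combination
    (611 / 524) * h.toLin.p2_p4 + (6259 / 786) * h.toLin.p2_z1Nu + (203 / 524) * h.toLin.p2_z3Wu
    + (1135 / 393) * h.toLin.p2_eN1 + (1392 / 131) * h.toLin.p2_gW + (437 / 524) * h.toLin.p4_p1
    + (513 / 262) * h.toLin.p4_p3 + (6079 / 524) * h.toLin.p4_z1Ev
    + (4901 / 524) * h.toLin.p4_z3Sv + (589 / 262) * h.toLin.p4_eS2
    + (437 / 524) * h.toLin.p1_z1Nu + (669 / 524) * h.toLin.p3_z3Wu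
    + (102 / 131) * h.toLin.p3_k2Wv + (153 / 262) * h.toLin.p3_eS2 + (44 / 393) * h.toLin.z1N_k2N
    + (1135 / 1179) * h.toLin.z1N_eN1 + 3 * h.toLin.z1E_t2E + (10704 / 131) * h.toLin.z3W_gWh
    + (22 / 131) * h.toLin.z3S_t2S + (218 / 131) * h.toLin.z3S_eS2 + (742 / 131) * h.toLin.t2N_k2N
    + (742 / 131) * h.toLin.t2S_eS2 + (4540 / 393) * h.toLin.k2N_eN1
    + (192 / 131) * h.toLin.k2W_gWh + (4595 / 262) * h.toLin.wRz1N + (6079 / 262) * h.toLin.wRz1E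
    + (5555 / 262) * h.toLin.wLz3W + (5119 / 262) * h.toLin.wLz3S + (371 / 131) * h.toLin.wRt2N
    + (371 / 131) * h.toLin.wLt2S + 3 * h.toLin.wBt2S + 3 * h.toLin.wBt2E + 3 * h.toLin.wTk2N
    + 3 * h.toLin.wTk2W + (349 / 131) * h.c3 + (22733 / 1572) * e.2.1 + (4127 / 4716) * hτ

theorem fcIP (h : Lin2 τ c) (e : CsP c) (hτ : 0 ≤ τ) (n : NearI c) :
    0 ≤ -8 + (-2 * c.z1Ey + 2 * c.p4y) + 340 * τ := by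
  obtain ⟨l0, u0, l1, u1, l2, u2, l3, u3, -⟩ := n
  have a0 := sq_le_box (r := (1 / 2)) (by linarith only [l0]) (by linarith only [u0])
    (shIP0p h e hτ) (shIP0n h e hτ)
  have a1 := sq_le_box (r := (1 / 2)) (by linarith only [l1]) (by linarith only [u1])
    (shIP1p h e hτ) (shIP1n h e hτ)
  have a2 := sq_le_box (r := (1 / 2)) (by linarith only [l2]) (by linarith only [u2])
    (shIP2p h e hτ) (shIP2n h e hτ)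
  have a3 := sq_le_box (r := (1 / 2)) (by linarith only [l3]) (by linarith only [u3])
    (shIP3p h e hτ) (shIP3n h e hτ)
  linear_combination 4 * (h.hG + (1 / 4) * (a0 + a1 + a2 + a3) + sq_nonneg (c.s1 - 0)) +
    0 * hτ

theorem pnIP_p4x_p (h : Lin2 τ c) (e : CsP c) (hτ : 0 ≤ τ)
    (fc : 0 ≤ -8 + (-2 * c.z1Ey + 2 * c.p4y) + 340 * τ) :
    0 ≤ 0 + 1 * τ + (-c.p4x) := by
  linear_combination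
    (1 / 2) * h.toLin.p4_z1Eu + h.toLin.wRz1E + (1 / 2) * e.2.1 + (1 / 2) * hτ

theorem pnIP_p2x_n (h : Lin2 τ c) (e : CsP c) (hτ : 0 ≤ τ)
    (fc : 0 ≤ -8 + (-2 * c.z1Ey + 2 * c.p4y) + 340 * τ) :
    0 ≤ 0 + 2 * τ + (c.p2x) := by
  linear_combination
    (1 / 2) * h.toLin.p2_z3Wu + (1 / 4) * h.toLin.p4_z1Ev + (1 / 4) * h.toLin.p4_z3Sv
    + (1 / 2) * h.toLin.wRz1E + h.toLin.wLz3W + (1 / 2) * h.toLin.wLz3S + (1 / 2) * h.c3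
    + (1 / 2) * e.2.1 + (1 / 2) * hτ

theorem pnIP_p2x_p (h : Lin2 τ c) (e : CsP c) (hτ : 0 ≤ τ)
    (fc : 0 ≤ -8 + (-2 * c.z1Ey + 2 * c.p4y) + 340 * τ) :
    0 ≤ 0 + 187 * τ + (-c.p2x) := by
  linear_combination
    (2164 / 7389) * h.toLin.p2_p4 + (84 / 821) * h.toLin.p2_p3 + (985 / 44334) * h.toLin.p2_z3Wv
    + (20336 / 22167) * h.toLin.p2_eN1 + (1148 / 2463) * h.toLin.p4_p3
    + (62153 / 88668) * h.toLin.p4_z1Ev + (4265 / 88668) * h.toLin.p4_z3Sv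
    + (1792 / 2463) * h.toLin.p4_eS2 + (1984 / 7389) * h.toLin.p4_hNv
    + (17 / 4926) * h.toLin.p3_z3Wu + (992 / 2463) * h.toLin.p3_k2Wv
    + (352 / 821) * h.toLin.p3_eS2 + (160 / 821) * h.toLin.p3_gW
    + (45136 / 199503) * h.toLin.z1N_eN1 + (13888 / 66501) * h.toLin.z1N_hNu
    + (2480 / 2463) * h.toLin.z1E_t2E + (544 / 2463) * h.toLin.z3W_gWh
    + (4960 / 2463) * h.toLin.t2N_k2N + (4960 / 2463) * h.toLin.t2S_eS2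
    + (9920 / 2463) * h.toLin.k2N_eN1 + (992 / 2463) * h.toLin.k2W_k3W
    + (1024 / 2463) * h.toLin.k3W_gWh + (1472 / 2463) * h.toLin.k3S_eS2
    + (31744 / 332505) * h.toLin.eN1_hN + (8680 / 22167) * h.toLin.wRz1N
    + (62153 / 44334) * h.toLin.wRz1E + (2209 / 22167) * h.toLin.wLz3W
    + (4265 / 44334) * h.toLin.wLz3S + (2480 / 2463) * h.toLin.wRt2N
    + (2480 / 2463) * h.toLin.wLt2S + (2480 / 2463) * h.toLin.wBt2S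
    + (2480 / 2463) * h.toLin.wBt2E + (2480 / 2463) * h.toLin.wTk2N
    + (2480 / 2463) * h.toLin.wTk2W + (736 / 2463) * h.toLin.wLk3W + (736 / 2463) * h.toLin.wLk3S
    + (17 / 4926) * h.c3 + (53473 / 44334) * e.2.1 + (1240 / 2463) * fc + (17563 / 997515) * hτ

theorem pnIP_p4x_n (h : Lin2 τ c) (e : CsP c) (hτ : 0 ≤ τ)
    (fc : 0 ≤ -8 + (-2 * c.z1Ey + 2 * c.p4y) + 340 * τ) :
    0 ≤ 0 + 188 * τ + (c.p4x) := by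
  linear_combination
    (1 / 2) * h.toLin.p2_z3Wv + (1 / 2) * h.toLin.p4_z3Sv + h.toLin.wLz3W + h.toLin.wLz3S
    + (pnIP_p2x_p h e hτ fc)

theorem pnIP_p2y_n (h : Lin2 τ c) (e : CsP c) (hτ : 0 ≤ τ)
    (fc : 0 ≤ -8 + (-2 * c.z1Ey + 2 * c.p4y) + 340 * τ) :
    0 ≤ (-1) + 370 * τ + (c.p2y) := by
  linear_combination
    (1 / 4) * h.toLin.p2_p4 + (1 / 2) * h.toLin.p2_p3 + (1 / 2) * h.toLin.p4_z1Ev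
    + (1 / 2) * h.toLin.p3_z3Su + (1 / 2) * h.toLin.z1E_t2E + (1 / 2) * h.toLin.z3S_t2S
    + h.toLin.wRz1E + (1 / 2) * h.toLin.wLz3S + (1 / 2) * h.toLin.wBt2S + (1 / 2) * h.toLin.wBt2E
    + (1 / 2) * h.c3 + e.2.1 + (1 / 4) * fc + (1 / 2) * (pnIP_p2x_p h e hτ fc)
    + (pnIP_p4x_n h e hτ fc) + (1 / 4) * hτ

theorem pnIP_p3x_n (h : Lin2 τ c) (e : CsP c) (hτ : 0 ≤ τ)
    (fc : 0 ≤ -8 + (-2 * c.z1Ey + 2 * c.p4y) + 340 * τ) :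
    0 ≤ 0 + 561 * τ + (c.p3x) := by
  linear_combination
    (1 / 2) * h.toLin.p4_p1 + h.toLin.p4_z1Ev + (1 / 2) * h.toLin.p1_z1Nu
    + (1 / 2) * h.toLin.p3_z3Wu + (1 / 2) * h.toLin.p3_z3Su + (1 / 2) * h.toLin.z1N_t1N
    + (1 / 2) * h.toLin.z1E_t2E + (1 / 2) * h.toLin.z3W_t1W + (1 / 2) * h.toLin.z3S_t2S
    + (1 / 2) * h.toLin.wRz1N + 2 * h.toLin.wRz1E + (1 / 2) * h.toLin.wLz3W
    + (1 / 2) * h.toLin.wLz3S + (1 / 2) * h.toLin.wTt1N + (1 / 2) * h.toLin.wTt1W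
    + (1 / 2) * h.toLin.wBt2S + (1 / 2) * h.toLin.wBt2E + h.c3 + 2 * e.2.1 + (1 / 4) * fc
    + (5 / 2) * (pnIP_p4x_n h e hτ fc)

theorem pnIP_p4y_p (h : Lin2 τ c) (e : CsP c) (hτ : 0 ≤ τ)
    (fc : 0 ≤ -8 + (-2 * c.z1Ey + 2 * c.p4y) + 340 * τ) :
    0 ≤ 1 + 215 * τ + (-c.p4y) := by
  linear_combination
    (1 / 80) * h.toLin.p2_p4 + (1 / 30) * h.toLin.p2_eN1 + (1 / 2) * h.toLin.p4_p3
    + (7 / 24) * h.toLin.p4_z1Ev + (1 / 24) * h.toLin.p4_z3Sv + (2 / 5) * h.toLin.p4_hNv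
    + (1 / 6) * h.toLin.p3_z3Wu + (1 / 6) * h.toLin.p3_k2Wv + (11 / 120) * h.toLin.z1N_k2N
    + (87 / 400) * h.toLin.z1N_eN2 + (37 / 150) * h.toLin.z1N_hNu + (1 / 6) * h.toLin.z3W_k2W
    + (11 / 60) * h.toLin.k2N_eN1 + (29 / 40) * h.toLin.k2N_eN2 + (1 / 75) * h.toLin.eN1_hN
    + (29 / 150) * h.toLin.eN2_hN + (5 / 12) * h.toLin.wRz1N + (7 / 12) * h.toLin.wRz1E
    + (1 / 4) * h.toLin.wLz3W + (1 / 12) * h.toLin.wLz3S + (1 / 2) * h.toLin.wTk2N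
    + (1 / 2) * h.toLin.wTk2W + (1 / 6) * h.c3 + (191 / 480) * e.2.1
    + (1 / 24) * (pnIP_p2x_n h e hτ fc) + (3 / 8) * (pnIP_p4x_n h e hτ fc)
    + (1 / 4) * (pnIP_p3x_n h e hτ fc) + (11 / 20) * hτ

theorem pnIP_p3y_n (h : Lin2 τ c) (e : CsP c) (hτ : 0 ≤ τ)
    (fc : 0 ≤ -8 + (-2 * c.z1Ey + 2 * c.p4y) + 340 * τ) :
    0 ≤ (-1) + 182 * τ + (c.p3y) := by
  linear_combination
    (1 / 2) * h.toLin.p4_p3 + (1 / 2) * h.toLin.p4_z1Ev + (1 / 2) * h.toLin.p3_z3Su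
    + (1 / 2) * h.toLin.z1E_t2E + (1 / 2) * h.toLin.z3S_t2S + h.toLin.wRz1E
    + (1 / 2) * h.toLin.wLz3S + (1 / 2) * h.toLin.wBt2S + (1 / 2) * h.toLin.wBt2E + (1 / 2) * h.c3
    + e.2.1 + (1 / 4) * fc + (1 / 2) * (pnIP_p4x_n h e hτ fc)

theorem pnIP_z1Nx_p (h : Lin2 τ c) (e : CsP c) (hτ : 0 ≤ τ)
    (fc : 0 ≤ -8 + (-2 * c.z1Ey + 2 * c.p4y) + 340 * τ) :
    0 ≤ 0 + 0 * τ + (-c.z1Nx) := by
  linear_combination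
    h.toLin.wRz1N

theorem pnIP_z1Nx_n (h : Lin2 τ c) (e : CsP c) (hτ : 0 ≤ τ)
    (fc : 0 ≤ -8 + (-2 * c.z1Ey + 2 * c.p4y) + 340 * τ) :
    0 ≤ 0 + 191 * τ + (c.z1Nx) := by
  linear_combination
    (1 / 2) * h.toLin.p2_z1Nv + (1 / 2) * h.toLin.p4_z1Ev + h.toLin.wRz1E + (pnIP_p2x_n h e hτ fc)
    + (pnIP_p4x_n h e hτ fc)

theorem pnIP_p2y_p (h : Lin2 τ c) (e : CsP c) (hτ : 0 ≤ τ)
    (fc : 0 ≤ -8 + (-2 * c.z1Ey + 2 * c.p4y) + 340 * τ) :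
    0 ≤ 1 + 629 * τ + (-c.p2y) := by
  linear_combination
    (32 / 35) * h.toLin.p2_k3Wv + (4 / 15) * h.toLin.p2_eN1 + (16 / 35) * h.toLin.p2_eW1
    + (3 / 5) * h.toLin.p4_p1 + (23 / 30) * h.toLin.p4_z1Ev + (6 / 5) * h.toLin.p4_k3Sv
    + (3 / 5) * h.toLin.p1_z1Nu + (8 / 15) * h.toLin.z1N_k2N + (4 / 45) * h.toLin.z1N_eN1
    + (3 / 5) * h.toLin.z1E_t2E + (6 / 5) * h.toLin.t2S_k3S + (16 / 15) * h.toLin.k2N_eN1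
    + (4 / 5) * h.toLin.k2W_k3W + (8 / 5) * h.toLin.k2W_eW1 + (8 / 35) * h.toLin.k3W_eW1
    + (14 / 15) * h.toLin.wRz1N + (23 / 15) * h.toLin.wRz1E + (3 / 5) * h.toLin.wBt2S
    + (3 / 5) * h.toLin.wBt2E + (4 / 5) * h.toLin.wTk2N + (4 / 5) * h.toLin.wTk2W
    + (12 / 5) * h.toLin.wLk3W + (12 / 5) * h.toLin.wLk3S + (6 / 5) * e.2.1 + (3 / 10) * fc
    + (4 / 15) * (pnIP_p4x_p h e hτ fc) + (31 / 15) * (pnIP_p2x_p h e hτ fc)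
    + (3 / 5) * (pnIP_p4y_p h e hτ fc) + (31 / 90) * hτ

theorem pnIP_p3x_p (h : Lin2 τ c) (e : CsP c) (hτ : 0 ≤ τ)
    (fc : 0 ≤ -8 + (-2 * c.z1Ey + 2 * c.p4y) + 340 * τ) :
    0 ≤ 0 + 999 * τ + (-c.p3x) := by
  linear_combination
    h.toLin.p2_p3 + (pnIP_p2x_p h e hτ fc) + (pnIP_p3y_n h e hτ fc) + (pnIP_p2y_p h e hτ fc)

theorem pnIP_z1Ex_p (h : Lin2 τ c) (e : CsP c) (hτ : 0 ≤ τ)
    (fc : 0 ≤ -8 + (-2 * c.z1Ey + 2 * c.p4y) + 340 * τ) :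
    0 ≤ 0 + 0 * τ + (-c.z1Ex) := by
  linear_combination
    h.toLin.wRz1E

theorem pnIP_z1Ex_n (h : Lin2 τ c) (e : CsP c) (hτ : 0 ≤ τ)
    (fc : 0 ≤ -8 + (-2 * c.z1Ey + 2 * c.p4y) + 340 * τ) :
    0 ≤ 0 + 189 * τ + (c.z1Ex) := by
  linear_combination
    (1 / 2) * h.toLin.p4_z1Eu + (1 / 2) * e.2.1 + (pnIP_p4x_n h e hτ fc) + (1 / 2) * hτ

theorem pnIP_z1Ey_p (h : Lin2 τ c) (e : CsP c) (hτ : 0 ≤ τ)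
    (fc : 0 ≤ -8 + (-2 * c.z1Ey + 2 * c.p4y) + 340 * τ) :
    0 ≤ (-3) + 385 * τ + (-c.z1Ey) := by
  linear_combination
    (1 / 2) * fc + (pnIP_p4y_p h e hτ fc)

theorem pnIP_p3y_p (h : Lin2 τ c) (e : CsP c) (hτ : 0 ≤ τ)
    (fc : 0 ≤ -8 + (-2 * c.z1Ey + 2 * c.p4y) + 340 * τ) :
    0 ≤ 1 + 1378 * τ + (-c.p3y) := by
  linear_combination
    h.toLin.p2_p3 + (pnIP_p2x_p h e hτ fc) + (pnIP_p3x_n h e hτ fc) + (pnIP_p2y_p h e hτ fc)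

theorem pnIP_z3Wx_p (h : Lin2 τ c) (e : CsP c) (hτ : 0 ≤ τ)
    (fc : 0 ≤ -8 + (-2 * c.z1Ey + 2 * c.p4y) + 340 * τ) :
    0 ≤ 0 + 189 * τ + (-c.z3Wx) := by
  linear_combination
    (1 / 2) * h.toLin.p2_z3Wu + (1 / 4) * h.toLin.p4_z1Ev + (1 / 4) * h.toLin.p4_z3Sv
    + (1 / 2) * h.toLin.wRz1E + (1 / 2) * h.toLin.wLz3S + (1 / 2) * h.c3 + (1 / 2) * e.2.1
    + (pnIP_p2x_p h e hτ fc) + (1 / 2) * hτ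

theorem pnIP_z3Wx_n (h : Lin2 τ c) (e : CsP c) (hτ : 0 ≤ τ)
    (fc : 0 ≤ -8 + (-2 * c.z1Ey + 2 * c.p4y) + 340 * τ) :
    0 ≤ 0 + 0 * τ + (c.z3Wx) := by
  linear_combination
    h.toLin.wLz3W

theorem pnIP_z1Ey_n (h : Lin2 τ c) (e : CsP c) (hτ : 0 ≤ τ)
    (fc : 0 ≤ -8 + (-2 * c.z1Ey + 2 * c.p4y) + 340 * τ) :
    0 ≤ 3 + 2758 * τ + (c.z1Ey) := by
  linear_combination
    h.toLin.p4_z1Ev + h.toLin.p3_z3Su + h.toLin.z1E_t2E + h.toLin.z3S_t2S + 2 * h.toLin.wRz1E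
    + h.toLin.wLz3S + h.toLin.wBt2S + h.toLin.wBt2E + h.c3 + 2 * e.2.1
    + 2 * (pnIP_p4x_n h e hτ fc) + (pnIP_p3x_p h e hτ fc) + (pnIP_p3y_p h e hτ fc)

theorem pnIP_p4y_n (h : Lin2 τ c) (e : CsP c) (hτ : 0 ≤ τ)
    (fc : 0 ≤ -8 + (-2 * c.z1Ey + 2 * c.p4y) + 340 * τ) :
    0 ≤ (-1) + 2928 * τ + (c.p4y) := by
  linear_combination
    (1 / 2) * fc + (pnIP_z1Ey_n h e hτ fc)

theorem pnIP_z3Wy_n (h : Lin2 τ c) (e : CsP c) (hτ : 0 ≤ τ)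
    (fc : 0 ≤ -8 + (-2 * c.z1Ey + 2 * c.p4y) + 340 * τ) :
    0 ≤ (-1) + 1182 * τ + (c.z3Wy) := by
  linear_combination
    h.toLin.p3_z3Wu + h.toLin.wLz3W + (pnIP_p3y_n h e hτ fc) + (pnIP_p3x_p h e hτ fc)

theorem pnIP_z3Sx_n (h : Lin2 τ c) (e : CsP c) (hτ : 0 ≤ τ)
    (fc : 0 ≤ -8 + (-2 * c.z1Ey + 2 * c.p4y) + 340 * τ) :
    0 ≤ 0 + 0 * τ + (c.z3Sx) := by
  linear_combination
    h.toLin.wLz3S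

theorem pnIP_z3Sy_p (h : Lin2 τ c) (e : CsP c) (hτ : 0 ≤ τ)
    (fc : 0 ≤ -8 + (-2 * c.z1Ey + 2 * c.p4y) + 340 * τ) :
    0 ≤ 1 + 2378 * τ + (-c.z3Sy) := by
  linear_combination
    h.toLin.p3_z3Su + h.toLin.wLz3S + (pnIP_p3x_p h e hτ fc) + (pnIP_p3y_p h e hτ fc)

theorem pnIP_z1Ny_n (h : Lin2 τ c) (e : CsP c) (hτ : 0 ≤ τ)
    (fc : 0 ≤ -8 + (-2 * c.z1Ey + 2 * c.p4y) + 340 * τ) :
    0 ≤ (-1) + 3118 * τ + (c.z1Ny) := by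
  linear_combination
    h.toLin.p4_p1 + h.toLin.p1_z1Nu + h.toLin.wRz1N + (pnIP_p4x_n h e hτ fc)
    + (pnIP_p4y_n h e hτ fc)

theorem pnIP_t2Nx_p (h : Lin2 τ c) (e : CsP c) (hτ : 0 ≤ τ)
    (fc : 0 ≤ -8 + (-2 * c.z1Ey + 2 * c.p4y) + 340 * τ) :
    0 ≤ 0 + 0 * τ + (-c.t2Nx) := by
  linear_combination
    h.toLin.wRt2N

theorem pnIP_z3Sx_p (h : Lin2 τ c) (e : CsP c) (hτ : 0 ≤ τ)
    (fc : 0 ≤ -8 + (-2 * c.z1Ey + 2 * c.p4y) + 340 * τ) :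
    0 ≤ 0 + 96 * τ + (-c.z3Sx) := by
  linear_combination
    (1 / 4) * h.toLin.p2_z3Wv + (1 / 4) * h.toLin.p4_z1Ev + (1 / 2) * h.toLin.p4_z3Su
    + (1 / 2) * h.toLin.wRz1E + (1 / 2) * h.toLin.wLz3W + (1 / 2) * h.c3 + (1 / 2) * e.2.1
    + (1 / 2) * (pnIP_p4x_p h e hτ fc) + (1 / 2) * (pnIP_p2x_p h e hτ fc) + (1 / 2) * hτ

theorem pnIP_z1Ny_p (h : Lin2 τ c) (e : CsP c) (hτ : 0 ≤ τ)
    (fc : 0 ≤ -8 + (-2 * c.z1Ey + 2 * c.p4y) + 340 * τ) :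
    0 ≤ 1 + 1562 * τ + (-c.z1Ny) := by
  linear_combination
    h.toLin.p4_z1Ev + h.toLin.z1N_t1N + h.toLin.z3W_t1W + 2 * h.toLin.wRz1E + h.toLin.wTt1N
    + h.toLin.wTt1W + h.c3 + 2 * e.2.1 + 2 * (pnIP_p4x_n h e hτ fc) + (pnIP_z3Wy_n h e hτ fc)

theorem pnIP_t2Sx_n (h : Lin2 τ c) (e : CsP c) (hτ : 0 ≤ τ)
    (fc : 0 ≤ -8 + (-2 * c.z1Ey + 2 * c.p4y) + 340 * τ) :
    0 ≤ 0 + 0 * τ + (c.t2Sx) := by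
  linear_combination
    h.toLin.wLt2S

theorem pnIP_z3Wy_p (h : Lin2 τ c) (e : CsP c) (hτ : 0 ≤ τ)
    (fc : 0 ≤ -8 + (-2 * c.z1Ey + 2 * c.p4y) + 340 * τ) :
    0 ≤ 1 + 3498 * τ + (-c.z3Wy) := by
  linear_combination
    h.toLin.p4_z1Ev + h.toLin.z1N_t1N + h.toLin.z3W_t1W + 2 * h.toLin.wRz1E + h.toLin.wTt1N
    + h.toLin.wTt1W + h.c3 + 2 * e.2.1 + 2 * (pnIP_p4x_n h e hτ fc) + (pnIP_z1Ny_n h e hτ fc)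

theorem pnIP_t2Sy_n (h : Lin2 τ c) (e : CsP c) (hτ : 0 ≤ τ)
    (fc : 0 ≤ -8 + (-2 * c.z1Ey + 2 * c.p4y) + 340 * τ) :
    0 ≤ 1 + 0 * τ + (c.t2Sy) := by
  linear_combination
    h.toLin.wBt2S

theorem pnIP_z3Sy_n (h : Lin2 τ c) (e : CsP c) (hτ : 0 ≤ τ)
    (fc : 0 ≤ -8 + (-2 * c.z1Ey + 2 * c.p4y) + 340 * τ) :
    0 ≤ (-1) + 765 * τ + (c.z3Sy) := by
  linear_combination
    h.toLin.p4_z1Ev + h.toLin.z1E_t2E + h.toLin.z3S_t2S + 2 * h.toLin.wRz1E + h.toLin.wBt2S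
    + h.toLin.wBt2E + h.c3 + 2 * e.2.1 + 2 * (pnIP_p4x_n h e hτ fc) + (pnIP_z1Ey_p h e hτ fc)

theorem pnIP_t2Ey_n (h : Lin2 τ c) (e : CsP c) (hτ : 0 ≤ τ)
    (fc : 0 ≤ -8 + (-2 * c.z1Ey + 2 * c.p4y) + 340 * τ) :
    0 ≤ 1 + 0 * τ + (c.t2Ey) := by
  linear_combination
    h.toLin.wBt2E

theorem pnIP_t2Sy_p (h : Lin2 τ c) (e : CsP c) (hτ : 0 ≤ τ)
    (fc : 0 ≤ -8 + (-2 * c.z1Ey + 2 * c.p4y) + 340 * τ) :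
    0 ≤ (-1) + 3143 * τ + (-c.t2Sy) := by
  linear_combination
    h.toLin.p4_z1Ev + h.toLin.z1E_t2E + h.toLin.z3S_t2S + 2 * h.toLin.wRz1E + h.toLin.wBt2E + h.c3
    + 2 * e.2.1 + 2 * (pnIP_p4x_n h e hτ fc) + (pnIP_z1Ey_p h e hτ fc) + (pnIP_z3Sy_p h e hτ fc)

theorem pnIP_t2Ey_p (h : Lin2 τ c) (e : CsP c) (hτ : 0 ≤ τ)
    (fc : 0 ≤ -8 + (-2 * c.z1Ey + 2 * c.p4y) + 340 * τ) :
    0 ≤ (-1) + 3143 * τ + (-c.t2Ey) := by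
  linear_combination
    h.toLin.p4_z1Ev + h.toLin.z1E_t2E + h.toLin.z3S_t2S + 2 * h.toLin.wRz1E + h.toLin.wBt2S + h.c3
    + 2 * e.2.1 + 2 * (pnIP_p4x_n h e hτ fc) + (pnIP_z1Ey_p h e hτ fc) + (pnIP_z3Sy_p h e hτ fc)

theorem pnIP_k2Ny_p (h : Lin2 τ c) (e : CsP c) (hτ : 0 ≤ τ)
    (fc : 0 ≤ -8 + (-2 * c.z1Ey + 2 * c.p4y) + 340 * τ) :
    0 ≤ 1 + 0 * τ + (-c.k2Ny) := by
  linear_combination
    h.toLin.wTk2N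

theorem pnIP_k2Nx_p (h : Lin2 τ c) (e : CsP c) (hτ : 0 ≤ τ)
    (fc : 0 ≤ -8 + (-2 * c.z1Ey + 2 * c.p4y) + 340 * τ) :
    0 ≤ 0 + 1770 * τ + (-c.k2Nx) := by
  linear_combination
    (1 / 4) * h.toLin.p4_p3 + (1 / 2) * h.toLin.p4_z1Ev + (1 / 2) * h.toLin.p4_eS2
    + (1 / 2) * h.toLin.p3_eS2 + h.toLin.z1E_t2E + 2 * h.toLin.t2N_k2N + 2 * h.toLin.t2S_eS2
    + h.toLin.wRz1E + h.toLin.wRt2N + h.toLin.wLt2S + h.toLin.wBt2S + h.toLin.wBt2E + e.2.1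
    + (pnIP_z1Ey_p h e hτ fc) + (pnIP_p3y_p h e hτ fc) + (1 / 4) * hτ

theorem pnIP_k2Wx_p (h : Lin2 τ c) (e : CsP c) (hτ : 0 ≤ τ)
    (fc : 0 ≤ -8 + (-2 * c.z1Ey + 2 * c.p4y) + 340 * τ) :
    0 ≤ 0 + 3204 * τ + (-c.k2Wx) := by
  linear_combination
    (1 / 3) * h.toLin.p2_eN1 + (3 / 4) * h.toLin.p2_eW1 + (1 / 16) * h.toLin.p4_p3
    + (7 / 12) * h.toLin.p4_z1Ev + (1 / 4) * h.toLin.p3_eW1 + (2 / 3) * h.toLin.z1N_k2N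
    + (1 / 9) * h.toLin.z1N_eN1 + (4 / 3) * h.toLin.k2N_eN1 + 4 * h.toLin.k2W_eW1
    + (5 / 12) * h.toLin.wRz1N + (7 / 6) * h.toLin.wRz1E + h.toLin.wTk2N + h.toLin.wTk2W
    + (3 / 4) * e.2.1 + (25 / 48) * (pnIP_p2x_p h e hτ fc) + (53 / 48) * (pnIP_p4x_n h e hτ fc)
    + (13 / 16) * (pnIP_p2y_n h e hτ fc) + (3 / 8) * (pnIP_p3y_n h e hτ fc)
    + (1 / 16) * (pnIP_p4y_n h e hτ fc) + (3 / 4) * (pnIP_z1Ny_n h e hτ fc) + (5 / 9) * hτ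

theorem pnIP_k2Nx_n (h : Lin2 τ c) (e : CsP c) (hτ : 0 ≤ τ)
    (fc : 0 ≤ -8 + (-2 * c.z1Ey + 2 * c.p4y) + 340 * τ) :
    0 ≤ 0 + 1676 * τ + (c.k2Nx) := by
  linear_combination
    (1 / 6) * h.toLin.p2_p3 + h.toLin.p2_eN1 + (5 / 12) * h.toLin.p4_z1Ev
    + (1 / 12) * h.toLin.p4_z3Sv + (1 / 3) * h.toLin.p3_k2Wv + (1 / 3) * h.toLin.z1N_eN1
    + (1 / 3) * h.toLin.z3W_k2W + 4 * h.toLin.k2N_eN1 + (1 / 4) * h.toLin.wRz1N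
    + (5 / 6) * h.toLin.wRz1E + (1 / 6) * h.toLin.wLz3W + (1 / 6) * h.toLin.wLz3S + h.toLin.wTk2N
    + h.toLin.wTk2W + (1 / 3) * h.c3 + (7 / 12) * e.2.1 + (13 / 12) * (pnIP_p2x_n h e hτ fc)
    + (2 / 3) * (pnIP_p4x_n h e hτ fc) + (7 / 12) * (pnIP_p2y_n h e hτ fc)
    + (5 / 6) * (pnIP_p3y_n h e hτ fc) + (1 / 3) * (pnIP_z3Wy_n h e hτ fc)
    + (1 / 4) * (pnIP_z1Ny_n h e hτ fc) + (1 / 2) * hτ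

theorem pnIP_k2Wy_p (h : Lin2 τ c) (e : CsP c) (hτ : 0 ≤ τ)
    (fc : 0 ≤ -8 + (-2 * c.z1Ey + 2 * c.p4y) + 340 * τ) :
    0 ≤ 1 + 0 * τ + (-c.k2Wy) := by
  linear_combination
    h.toLin.wTk2W

theorem pnIP_t2Nx_n (h : Lin2 τ c) (e : CsP c) (hτ : 0 ≤ τ)
    (fc : 0 ≤ -8 + (-2 * c.z1Ey + 2 * c.p4y) + 340 * τ) :
    0 ≤ 0 + 3446 * τ + (c.t2Nx) := by
  linear_combination
    (1 / 4) * h.toLin.p4_p3 + (1 / 2) * h.toLin.p4_z1Ev + (1 / 2) * h.toLin.p4_eS2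
    + (1 / 2) * h.toLin.p3_eS2 + h.toLin.z1E_t2E + 2 * h.toLin.t2N_k2N + 2 * h.toLin.t2S_eS2
    + h.toLin.wRz1E + h.toLin.wLt2S + h.toLin.wBt2S + h.toLin.wBt2E + e.2.1
    + (pnIP_z1Ey_p h e hτ fc) + (pnIP_p3y_p h e hτ fc) + (pnIP_k2Nx_n h e hτ fc) + (1 / 4) * hτ

theorem pnIP_t2Sx_p (h : Lin2 τ c) (e : CsP c) (hτ : 0 ≤ τ)
    (fc : 0 ≤ -8 + (-2 * c.z1Ey + 2 * c.p4y) + 340 * τ) :
    0 ≤ 0 + 3446 * τ + (-c.t2Sx) := by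
  linear_combination
    (1 / 4) * h.toLin.p4_p3 + (1 / 2) * h.toLin.p4_z1Ev + (1 / 2) * h.toLin.p4_eS2
    + (1 / 2) * h.toLin.p3_eS2 + h.toLin.z1E_t2E + 2 * h.toLin.t2N_k2N + 2 * h.toLin.t2S_eS2
    + h.toLin.wRz1E + h.toLin.wRt2N + h.toLin.wBt2S + h.toLin.wBt2E + e.2.1
    + (pnIP_z1Ey_p h e hτ fc) + (pnIP_p3y_p h e hτ fc) + (pnIP_k2Nx_n h e hτ fc) + (1 / 4) * hτ

theorem pnIP_k3Wx_n (h : Lin2 τ c) (e : CsP c) (hτ : 0 ≤ τ)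
    (fc : 0 ≤ -8 + (-2 * c.z1Ey + 2 * c.p4y) + 340 * τ) :
    0 ≤ 0 + 0 * τ + (c.k3Wx) := by
  linear_combination
    h.toLin.wLk3W

theorem pnIP_k3Wy_p (h : Lin2 τ c) (e : CsP c) (hτ : 0 ≤ τ)
    (fc : 0 ≤ -8 + (-2 * c.z1Ey + 2 * c.p4y) + 340 * τ) :
    0 ≤ 1 + 3310 * τ + (-c.k3Wy) := by
  linear_combination
    (1 / 2) * h.toLin.p4_z1Ev + h.toLin.z1N_t1N + 2 * h.toLin.t1W_k3W + h.toLin.wRz1E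
    + h.toLin.wTt1N + h.toLin.wTt1W + e.2.1 + (pnIP_p4x_n h e hτ fc) + (pnIP_z1Ny_n h e hτ fc)
    + (1 / 2) * hτ

theorem pnIP_k3Wx_p (h : Lin2 τ c) (e : CsP c) (hτ : 0 ≤ τ)
    (fc : 0 ≤ -8 + (-2 * c.z1Ey + 2 * c.p4y) + 340 * τ) :
    0 ≤ 0 + 1114 * τ + (-c.k3Wx) := by
  linear_combination
    (1 / 8) * h.toLin.p2_p4 + (1 / 2) * h.toLin.p2_k3Wv + (1 / 8) * h.toLin.p4_z1Ev
    + (1 / 2) * h.toLin.p4_k3Sv + (1 / 4) * h.toLin.z1E_t2E + (1 / 2) * h.toLin.t2S_k3S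
    + (1 / 4) * h.toLin.wRz1E + (1 / 4) * h.toLin.wBt2S + (1 / 4) * h.toLin.wBt2E + h.toLin.wLk3S
    + (1 / 4) * e.2.1 + (3 / 4) * (pnIP_p4x_p h e hτ fc) + (pnIP_p2x_p h e hτ fc)
    + (1 / 4) * (pnIP_z1Ey_p h e hτ fc) + (1 / 4) * (pnIP_k3Wy_p h e hτ fc) + (1 / 2) * hτ

theorem pnIP_k3Sx_p (h : Lin2 τ c) (e : CsP c) (hτ : 0 ≤ τ)
    (fc : 0 ≤ -8 + (-2 * c.z1Ey + 2 * c.p4y) + 340 * τ) :
    0 ≤ 0 + 1114 * τ + (-c.k3Sx) := by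
  linear_combination
    (1 / 8) * h.toLin.p2_p4 + (1 / 2) * h.toLin.p2_k3Wv + (1 / 8) * h.toLin.p4_z1Ev
    + (1 / 2) * h.toLin.p4_k3Sv + (1 / 4) * h.toLin.z1E_t2E + (1 / 2) * h.toLin.t2S_k3S
    + (1 / 4) * h.toLin.wRz1E + (1 / 4) * h.toLin.wBt2S + (1 / 4) * h.toLin.wBt2E + h.toLin.wLk3W
    + (1 / 4) * e.2.1 + (3 / 4) * (pnIP_p4x_p h e hτ fc) + (pnIP_p2x_p h e hτ fc)
    + (1 / 4) * (pnIP_z1Ey_p h e hτ fc) + (1 / 4) * (pnIP_k3Wy_p h e hτ fc) + (1 / 2) * hτ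

theorem pnIP_k3Sx_n (h : Lin2 τ c) (e : CsP c) (hτ : 0 ≤ τ)
    (fc : 0 ≤ -8 + (-2 * c.z1Ey + 2 * c.p4y) + 340 * τ) :
    0 ≤ 0 + 0 * τ + (c.k3Sx) := by
  linear_combination
    h.toLin.wLk3S

theorem pnIP_k3Sy_p (h : Lin2 τ c) (e : CsP c) (hτ : 0 ≤ τ)
    (fc : 0 ≤ -8 + (-2 * c.z1Ey + 2 * c.p4y) + 340 * τ) :
    0 ≤ 1 + 2570 * τ + (-c.k3Sy) := by
  linear_combination
    (1 / 2) * h.toLin.p4_z1Ev + 2 * h.toLin.z3S_k3S + h.toLin.wRz1E + h.c3 + e.2.1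
    + (pnIP_p4x_n h e hτ fc) + (pnIP_z3Sy_p h e hτ fc) + (1 / 2) * hτ

theorem pnIP_k3Sy_n (h : Lin2 τ c) (e : CsP c) (hτ : 0 ≤ τ)
    (fc : 0 ≤ -8 + (-2 * c.z1Ey + 2 * c.p4y) + 340 * τ) :
    0 ≤ (-1) + 577 * τ + (c.k3Sy) := by
  linear_combination
    (1 / 2) * h.toLin.p4_z1Ev + h.toLin.z1E_t2E + 2 * h.toLin.t2S_k3S + h.toLin.wRz1E
    + h.toLin.wBt2S + h.toLin.wBt2E + e.2.1 + (pnIP_p4x_n h e hτ fc) + (pnIP_z1Ey_p h e hτ fc)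
    + (1 / 2) * hτ

theorem pnIP_k3Wy_n (h : Lin2 τ c) (e : CsP c) (hτ : 0 ≤ τ)
    (fc : 0 ≤ -8 + (-2 * c.z1Ey + 2 * c.p4y) + 340 * τ) :
    0 ≤ (-1) + 1015 * τ + (c.k3Wy) := by
  linear_combination
    (4 / 61) * h.toLin.p4_p3 + (57 / 244) * h.toLin.p4_z1Ev + (17 / 244) * h.toLin.p4_z3Sv
    + (8 / 61) * h.toLin.p4_k3Sv + (32 / 61) * h.toLin.p3_gW + (838 / 915) * h.toLin.z3W_k3W
    + (544 / 915) * h.toLin.z3W_gWh + (1024 / 915) * h.toLin.k3W_gWh + (57 / 122) * h.toLin.wRz1E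
    + (17 / 122) * h.toLin.wLz3W + (17 / 122) * h.toLin.wLz3S + (16 / 61) * h.toLin.wLk3W
    + (16 / 61) * h.toLin.wLk3S + (57 / 122) * h.c3 + (57 / 122) * e.2.1
    + (57 / 122) * (pnIP_p3y_n h e hτ fc) + (41 / 122) * (pnIP_p3x_p h e hτ fc)
    + (57 / 122) * (pnIP_z3Wy_n h e hτ fc) + (4 / 61) * (pnIP_k3Sy_n h e hτ fc) + (21 / 610) * hτ

theorem pnIP_eN1x_n (h : Lin2 τ c) (e : CsP c) (hτ : 0 ≤ τ)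
    (fc : 0 ≤ -8 + (-2 * c.z1Ey + 2 * c.p4y) + 340 * τ) :
    0 ≤ 0 + 3707 * τ + (c.eN1x) := by
  linear_combination
    (3 / 80) * h.toLin.p2_p4 + (3 / 10) * h.toLin.p2_p3 + 2 * h.toLin.p2_eN1
    + (3 / 20) * h.toLin.p4_k3Sv + (3 / 5) * h.toLin.p3_k2Wv + 6 * h.toLin.k2N_eN1
    + (3 / 5) * h.toLin.k2W_k3W + (3 / 2) * h.toLin.wTk2N + (3 / 2) * h.toLin.wTk2W
    + (3 / 10) * h.toLin.wLk3W + (3 / 10) * h.toLin.wLk3S + (3 / 10) * (pnIP_p4x_p h e hτ fc)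
    + (11 / 5) * (pnIP_p2x_n h e hτ fc) + (9 / 8) * (pnIP_p2y_n h e hτ fc)
    + (3 / 2) * (pnIP_p3y_n h e hτ fc) + (3 / 2) * (pnIP_k2Nx_p h e hτ fc)
    + (3 / 40) * (pnIP_k3Sy_n h e hτ fc) + (3 / 10) * (pnIP_k3Wy_n h e hτ fc) + (47 / 80) * hτ

theorem pnIP_eN1y_p (h : Lin2 τ c) (e : CsP c) (hτ : 0 ≤ τ)
    (fc : 0 ≤ -8 + (-2 * c.z1Ey + 2 * c.p4y) + 340 * τ) :
    0 ≤ 1 + 6001 * τ + (-c.eN1y) := by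
  linear_combination
    (1 / 20) * h.toLin.p4_p3 + (1 / 10) * h.toLin.p4_k3Sv + (2 / 5) * h.toLin.p3_k2Wv
    + 4 * h.toLin.k2N_eN1 + (2 / 5) * h.toLin.k2W_k3W + h.toLin.wTk2N + h.toLin.wTk2W
    + (1 / 5) * h.toLin.wLk3W + (1 / 5) * h.toLin.wLk3S + (1 / 4) * (pnIP_p4x_p h e hτ fc)
    + (3 / 4) * (pnIP_p3y_n h e hτ fc) + (3 / 20) * (pnIP_p3x_p h e hτ fc)
    + (pnIP_k2Nx_p h e hτ fc) + (1 / 20) * (pnIP_k3Sy_n h e hτ fc)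
    + (1 / 5) * (pnIP_k3Wy_n h e hτ fc) + (pnIP_eN1x_n h e hτ fc) + (3 / 5) * hτ

theorem pnIP_eN1y_n (h : Lin2 τ c) (e : CsP c) (hτ : 0 ≤ τ)
    (fc : 0 ≤ -8 + (-2 * c.z1Ey + 2 * c.p4y) + 340 * τ) :
    0 ≤ (-1) + 2326 * τ + (c.eN1y) := by
  linear_combination
    (1 / 2) * h.toLin.p2_eN1 + (5 / 8) * h.toLin.p4_z1Ev + (5 / 6) * h.toLin.z1N_eN1
    + (5 / 8) * h.toLin.wRz1N + (5 / 4) * h.toLin.wRz1E + (5 / 8) * e.2.1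
    + (5 / 8) * (pnIP_p2x_n h e hτ fc) + (5 / 4) * (pnIP_p4x_n h e hτ fc)
    + (3 / 8) * (pnIP_p2y_n h e hτ fc) + (5 / 8) * (pnIP_z1Ny_n h e hτ fc) + (7 / 24) * hτ

theorem pnIP_eN1x_p (h : Lin2 τ c) (e : CsP c) (hτ : 0 ≤ τ)
    (fc : 0 ≤ -8 + (-2 * c.z1Ey + 2 * c.p4y) + 340 * τ) :
    0 ≤ 0 + 2989 * τ + (-c.eN1x) := by
  linear_combination
    (1 / 10) * h.toLin.p4_p3 + (1 / 2) * h.toLin.p4_z1Ev + (1 / 20) * h.toLin.p4_k3Sv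
    + (1 / 5) * h.toLin.p3_k2Wv + (2 / 3) * h.toLin.z1N_eN1 + 2 * h.toLin.k2N_eN1
    + (1 / 5) * h.toLin.k2W_k3W + (1 / 2) * h.toLin.wRz1N + h.toLin.wRz1E
    + (1 / 2) * h.toLin.wTk2N + (1 / 2) * h.toLin.wTk2W + (1 / 10) * h.toLin.wLk3W
    + (1 / 10) * h.toLin.wLk3S + (1 / 2) * e.2.1 + (4 / 5) * (pnIP_p4x_n h e hτ fc)
    + (3 / 10) * (pnIP_p3y_n h e hτ fc) + (3 / 40) * (pnIP_p4y_n h e hτ fc)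
    + (1 / 2) * (pnIP_z1Ny_n h e hτ fc) + (1 / 2) * (pnIP_k2Nx_p h e hτ fc)
    + (1 / 40) * (pnIP_k3Sy_n h e hτ fc) + (1 / 10) * (pnIP_k3Wy_n h e hτ fc) + (91 / 120) * hτ

theorem pnIP_k2Ny_n (h : Lin2 τ c) (e : CsP c) (hτ : 0 ≤ τ)
    (fc : 0 ≤ -8 + (-2 * c.z1Ey + 2 * c.p4y) + 340 * τ) :
    0 ≤ (-1) + 2949 * τ + (c.k2Ny) := by
  linear_combination
    (3 / 20) * h.toLin.p2_p3 + (4 / 15) * h.toLin.p2_eN1 + (1 / 20) * h.toLin.p4_p3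
    + (1 / 2) * h.toLin.p4_z1Ev + (1 / 10) * h.toLin.p4_k3Sv + (2 / 5) * h.toLin.p3_k2Wv
    + (2 / 3) * h.toLin.z1N_k2N + (4 / 3) * h.toLin.k2N_eN1 + (2 / 5) * h.toLin.k2W_k3W
    + (1 / 3) * h.toLin.wRz1N + h.toLin.wRz1E + h.toLin.wTk2W + (1 / 5) * h.toLin.wLk3W
    + (1 / 5) * h.toLin.wLk3S + (2 / 3) * e.2.1 + (11 / 60) * (pnIP_p2x_n h e hτ fc)
    + (3 / 4) * (pnIP_p4x_n h e hτ fc) + (1 / 20) * (pnIP_p2y_n h e hτ fc)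
    + (9 / 10) * (pnIP_p3y_n h e hτ fc) + (2 / 3) * (pnIP_z1Ny_n h e hτ fc)
    + (1 / 20) * (pnIP_k3Sy_n h e hτ fc) + (1 / 5) * (pnIP_k3Wy_n h e hτ fc)
    + (2 / 15) * (pnIP_eN1y_n h e hτ fc) + (49 / 60) * hτ

theorem pnIP_k2Wy_n (h : Lin2 τ c) (e : CsP c) (hτ : 0 ≤ τ)
    (fc : 0 ≤ -8 + (-2 * c.z1Ey + 2 * c.p4y) + 340 * τ) :
    0 ≤ (-1) + 2949 * τ + (c.k2Wy) := by
  linear_combination
    (3 / 20) * h.toLin.p2_p3 + (4 / 15) * h.toLin.p2_eN1 + (1 / 20) * h.toLin.p4_p3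
    + (1 / 2) * h.toLin.p4_z1Ev + (1 / 10) * h.toLin.p4_k3Sv + (2 / 5) * h.toLin.p3_k2Wv
    + (2 / 3) * h.toLin.z1N_k2N + (4 / 3) * h.toLin.k2N_eN1 + (2 / 5) * h.toLin.k2W_k3W
    + (1 / 3) * h.toLin.wRz1N + h.toLin.wRz1E + h.toLin.wTk2N + (1 / 5) * h.toLin.wLk3W
    + (1 / 5) * h.toLin.wLk3S + (2 / 3) * e.2.1 + (11 / 60) * (pnIP_p2x_n h e hτ fc)
    + (3 / 4) * (pnIP_p4x_n h e hτ fc) + (1 / 20) * (pnIP_p2y_n h e hτ fc)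
    + (9 / 10) * (pnIP_p3y_n h e hτ fc) + (2 / 3) * (pnIP_z1Ny_n h e hτ fc)
    + (1 / 20) * (pnIP_k3Sy_n h e hτ fc) + (1 / 5) * (pnIP_k3Wy_n h e hτ fc)
    + (2 / 15) * (pnIP_eN1y_n h e hτ fc) + (49 / 60) * hτ

theorem pnIP_eW1y_n (h : Lin2 τ c) (e : CsP c) (hτ : 0 ≤ τ)
    (fc : 0 ≤ -8 + (-2 * c.z1Ey + 2 * c.p4y) + 340 * τ) :
    0 ≤ (-1) + 337 * τ + (c.eW1y) := by
  linear_combination
    (3 / 88) * h.toLin.p4_p3 + (3 / 44) * h.toLin.p4_k3Sv + (6 / 11) * h.toLin.p3_eW1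
    + (2 / 11) * h.toLin.k3W_eW1 + (3 / 22) * h.toLin.wLk3W + (3 / 22) * h.toLin.wLk3S
    + (15 / 88) * (pnIP_p4x_p h e hτ fc) + (81 / 88) * (pnIP_p3y_n h e hτ fc)
    + (9 / 88) * (pnIP_p3x_p h e hτ fc) + (3 / 88) * (pnIP_k3Sy_n h e hτ fc)
    + (1 / 22) * (pnIP_k3Wy_n h e hτ fc) + (1 / 2) * hτ

theorem pnIP_eS2x_p (h : Lin2 τ c) (e : CsP c) (hτ : 0 ≤ τ)
    (fc : 0 ≤ -8 + (-2 * c.z1Ey + 2 * c.p4y) + 340 * τ) :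
    0 ≤ 0 + 1143 * τ + (-c.eS2x) := by
  linear_combination
    (1 / 4) * h.toLin.p4_z1Ev + h.toLin.p4_eS2 + (1 / 2) * h.toLin.z1E_t2E + h.toLin.t2N_k2N
    + h.toLin.t2S_eS2 + (1 / 2) * h.toLin.wRz1E + (1 / 2) * h.toLin.wRt2N
    + (1 / 2) * h.toLin.wLt2S + (1 / 2) * h.toLin.wBt2S + (1 / 2) * h.toLin.wBt2E
    + (1 / 2) * e.2.1 + (pnIP_p4x_p h e hτ fc) + (1 / 2) * (pnIP_p4y_p h e hτ fc)
    + (1 / 2) * (pnIP_z1Ey_p h e hτ fc) + (1 / 2) * (pnIP_k2Nx_n h e hτ fc) + (1 / 4) * hτ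

theorem pnIP_eS2x_n (h : Lin2 τ c) (e : CsP c) (hτ : 0 ≤ τ)
    (fc : 0 ≤ -8 + (-2 * c.z1Ey + 2 * c.p4y) + 340 * τ) :
    0 ≤ 0 + 1110 * τ + (c.eS2x) := by
  linear_combination
    (1 / 2) * h.toLin.p2_k3Wv + 2 * h.toLin.k3S_eS2 + h.toLin.wLk3W + h.toLin.wLk3S
    + (pnIP_p2x_p h e hτ fc) + (1 / 4) * (pnIP_p2y_n h e hτ fc)
    + (1 / 4) * (pnIP_k3Wy_p h e hτ fc) + (1 / 2) * hτ

theorem pnIP_eS2y_p (h : Lin2 τ c) (e : CsP c) (hτ : 0 ≤ τ)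
    (fc : 0 ≤ -8 + (-2 * c.z1Ey + 2 * c.p4y) + 340 * τ) :
    0 ≤ 1 + 2082 * τ + (-c.eS2y) := by
  linear_combination
    (2 / 3) * h.toLin.p3_eS2 + (1 / 3) * (pnIP_p3x_p h e hτ fc) + (pnIP_p3y_p h e hτ fc)
    + (1 / 3) * (pnIP_eS2x_n h e hτ fc) + (1 / 3) * hτ

theorem pnIP_eS2y_n (h : Lin2 τ c) (e : CsP c) (hτ : 0 ≤ τ)
    (fc : 0 ≤ -8 + (-2 * c.z1Ey + 2 * c.p4y) + 340 * τ) :
    0 ≤ (-1) + 3398 * τ + (c.eS2y) := by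
  linear_combination
    (1 / 2) * h.toLin.p4_z1Ev + h.toLin.z1E_t2E + 2 * h.toLin.t2N_k2N + 2 * h.toLin.t2S_eS2
    + h.toLin.wRz1E + h.toLin.wRt2N + h.toLin.wLt2S + h.toLin.wBt2S + h.toLin.wBt2E + e.2.1
    + (pnIP_p4x_n h e hτ fc) + (pnIP_z1Ey_p h e hτ fc) + (pnIP_k2Nx_n h e hτ fc)
    + (pnIP_eS2x_p h e hτ fc) + (1 / 2) * hτ

theorem pnIP_s1_p (h : Lin2 τ c) (e : CsP c) (hτ : 0 ≤ τ)
    (fc : 0 ≤ -8 + (-2 * c.z1Ey + 2 * c.p4y) + 340 * τ) :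
    0 ≤ 0 + 189 * τ + (-c.s1) := by
  linear_combination
    (1 / 2) * h.toLin.p4_z1Ev + h.toLin.wRz1E + e.2.1 + (pnIP_p4x_n h e hτ fc) + (1 / 2) * hτ

theorem pnIP_s1_n (h : Lin2 τ c) (e : CsP c) (hτ : 0 ≤ τ)
    (fc : 0 ≤ -8 + (-2 * c.z1Ey + 2 * c.p4y) + 340 * τ) :
    0 ≤ 0 + 0 * τ + (c.s1) := by
  linear_combination
    e.2.2

theorem pnIP_h1_p (h : Lin2 τ c) (e : CsP c) (hτ : 0 ≤ τ)
    (fc : 0 ≤ -8 + (-2 * c.z1Ey + 2 * c.p4y) + 340 * τ) :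
    0 ≤ 0 + 189 * τ + (-c.h1) := by
  linear_combination
    e.1 + (pnIP_s1_p h e hτ fc)

theorem pnIP_h1_n (h : Lin2 τ c) (e : CsP c) (hτ : 0 ≤ τ)
    (fc : 0 ≤ -8 + (-2 * c.z1Ey + 2 * c.p4y) + 340 * τ) :
    0 ≤ 0 + 0 * τ + (c.h1) := by
  linear_combination
    e.2.1 + e.2.2

theorem pnIP_s3_p (h : Lin2 τ c) (e : CsP c) (hτ : 0 ≤ τ)
    (fc : 0 ≤ -8 + (-2 * c.z1Ey + 2 * c.p4y) + 340 * τ) :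
    0 ≤ 0 + 190 * τ + (-c.s3) := by
  linear_combination
    h.c3 + (pnIP_s1_p h e hτ fc)

theorem pnIP_s3_n (h : Lin2 τ c) (e : CsP c) (hτ : 0 ≤ τ)
    (fc : 0 ≤ -8 + (-2 * c.z1Ey + 2 * c.p4y) + 340 * τ) :
    0 ≤ 0 + 1 * τ + (c.s3) := by
  linear_combination
    h.c4 + e.2.2

theorem pnIP_h3_p (h : Lin2 τ c) (e : CsP c) (hτ : 0 ≤ τ)
    (fc : 0 ≤ -8 + (-2 * c.z1Ey + 2 * c.p4y) + 340 * τ) :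
    0 ≤ 0 + 2 * τ + (-c.h3) := by
  linear_combination
    (1 / 2) * h.toLin.p4_z3Sv + h.toLin.wLz3S + (pnIP_p4x_p h e hτ fc) + (1 / 2) * hτ

theorem pnIP_h3_n (h : Lin2 τ c) (e : CsP c) (hτ : 0 ≤ τ)
    (fc : 0 ≤ -8 + (-2 * c.z1Ey + 2 * c.p4y) + 340 * τ) :
    0 ≤ 0 + 188 * τ + (c.h3) := by
  linear_combination
    (1 / 2) * h.toLin.p2_z3Wv + h.toLin.wLz3W + (pnIP_p2x_p h e hτ fc) + (1 / 2) * hτ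

theorem pnIP_t2x_p (h : Lin2 τ c) (e : CsP c) (hτ : 0 ≤ τ)
    (fc : 0 ≤ -8 + (-2 * c.z1Ey + 2 * c.p4y) + 340 * τ) :
    0 ≤ 2 + 2569 * τ + (-c.t2x) := by
  linear_combination
    h.toLin.z3S_t2S + h.toLin.wBt2S + (pnIP_z3Sy_p h e hτ fc) + (pnIP_s3_p h e hτ fc)

theorem pnIP_t2x_n (h : Lin2 τ c) (e : CsP c) (hτ : 0 ≤ τ)
    (fc : 0 ≤ -8 + (-2 * c.z1Ey + 2 * c.p4y) + 340 * τ) :
    0 ≤ (-2) + 575 * τ + (c.t2x) := by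
  linear_combination
    h.toLin.z1E_t2E + h.toLin.wBt2E + (pnIP_z1Ey_p h e hτ fc) + (pnIP_s1_p h e hτ fc)

theorem pnIP_t2y_p (h : Lin2 τ c) (e : CsP c) (hτ : 0 ≤ τ)
    (fc : 0 ≤ -8 + (-2 * c.z1Ey + 2 * c.p4y) + 340 * τ) :
    0 ≤ 0 + 2039 * τ + (-c.t2y) := by
  linear_combination
    (2 / 3) * h.toLin.p4_eS2 + 2 * h.toLin.t2S_eS2 + h.toLin.wLt2S + h.toLin.wBt2S
    + (pnIP_p4x_p h e hτ fc) + (1 / 3) * (pnIP_p4y_p h e hτ fc)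
    + (2 / 3) * (pnIP_eS2y_p h e hτ fc) + (pnIP_t2x_n h e hτ fc) + (2 / 3) * hτ

theorem pnIP_t2y_n (h : Lin2 τ c) (e : CsP c) (hτ : 0 ≤ τ)
    (fc : 0 ≤ -8 + (-2 * c.z1Ey + 2 * c.p4y) + 340 * τ) :
    0 ≤ 0 + 1678 * τ + (c.t2y) := by
  linear_combination
    2 * h.toLin.t2N_k2N + h.toLin.wRt2N + (pnIP_k2Nx_n h e hτ fc)

theorem pnIP_k2_p (h : Lin2 τ c) (e : CsP c) (hτ : 0 ≤ τ)
    (fc : 0 ≤ -8 + (-2 * c.z1Ey + 2 * c.p4y) + 340 * τ) :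
    0 ≤ 0 + 747 * τ + (-c.k2) := by
  linear_combination
    (1 / 3) * h.toLin.p3_k2Wv + (1 / 3) * h.toLin.z3W_k2W + (1 / 6) * h.toLin.wLz3W
    + h.toLin.wTk2W + (2 / 3) * (pnIP_p3y_n h e hτ fc) + (1 / 6) * (pnIP_p3x_p h e hτ fc)
    + (1 / 3) * (pnIP_z3Wy_n h e hτ fc) + (1 / 3) * (pnIP_s3_p h e hτ fc)
    + (1 / 6) * (pnIP_h3_p h e hτ fc) + (5 / 6) * hτ

theorem pnIP_k2_n (h : Lin2 τ c) (e : CsP c) (hτ : 0 ≤ τ)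
    (fc : 0 ≤ -8 + (-2 * c.z1Ey + 2 * c.p4y) + 340 * τ) :
    0 ≤ 0 + 2655 * τ + (c.k2) := by
  linear_combination
    (4 / 15) * h.toLin.p2_eN1 + (2 / 3) * h.toLin.z1N_k2N + (4 / 3) * h.toLin.k2N_eN1
    + h.toLin.wTk2N + (1 / 3) * (pnIP_p2x_n h e hτ fc) + (1 / 5) * (pnIP_p2y_n h e hτ fc)
    + (1 / 3) * (pnIP_z1Nx_p h e hτ fc) + (2 / 3) * (pnIP_z1Ny_n h e hτ fc)
    + (2 / 15) * (pnIP_eN1y_n h e hτ fc) + (2 / 3) * (pnIP_s1_p h e hτ fc)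
    + (1 / 3) * (pnIP_h1_p h e hτ fc) + (4 / 15) * hτ

theorem pnIP_k3_p (h : Lin2 τ c) (e : CsP c) (hτ : 0 ≤ τ)
    (fc : 0 ≤ -8 + (-2 * c.z1Ey + 2 * c.p4y) + 340 * τ) :
    0 ≤ 0 + 200 * τ + (-c.k3) := by
  linear_combination
    (1 / 2) * h.toLin.p4_k3Sv + h.toLin.wLk3S + (pnIP_p4x_p h e hτ fc)
    + (1 / 4) * (pnIP_p4y_p h e hτ fc) + (1 / 4) * (pnIP_k3Sy_n h e hτ fc) + (1 / 2) * hτ

theorem pnIP_k3_n (h : Lin2 τ c) (e : CsP c) (hτ : 0 ≤ τ)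
    (fc : 0 ≤ -8 + (-2 * c.z1Ey + 2 * c.p4y) + 340 * τ) :
    0 ≤ 0 + 1108 * τ + (c.k3) := by
  linear_combination
    (1 / 2) * h.toLin.p2_k3Wv + h.toLin.wLk3W + (pnIP_p2x_p h e hτ fc)
    + (1 / 4) * (pnIP_p2y_n h e hτ fc) + (1 / 4) * (pnIP_k3Wy_p h e hτ fc) + (1 / 2) * hτ

theorem pnIP_k2Wx_n (h : Lin2 τ c) (e : CsP c) (hτ : 0 ≤ τ)
    (fc : 0 ≤ -8 + (-2 * c.z1Ey + 2 * c.p4y) + 340 * τ) :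
    0 ≤ 0 + 3872 * τ + (c.k2Wx) := by
  linear_combination
    2 * h.toLin.k2W_k3W + h.toLin.wTk2W + h.toLin.wLk3W + (pnIP_k3Wy_n h e hτ fc)
    + (pnIP_k2_n h e hτ fc) + (pnIP_k3_p h e hτ fc)

theorem pnIP_eW1x_p (h : Lin2 τ c) (e : CsP c) (hτ : 0 ≤ τ)
    (fc : 0 ≤ -8 + (-2 * c.z1Ey + 2 * c.p4y) + 340 * τ) :
    0 ≤ 0 + 10821 * τ + (-c.eW1x) := by
  linear_combination
    2 * h.toLin.p2_eW1 + 6 * h.toLin.k2W_eW1 + (3 / 2) * h.toLin.wTk2W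
    + (5 / 2) * (pnIP_p2x_p h e hτ fc) + (3 / 2) * (pnIP_p2y_n h e hτ fc)
    + (3 / 2) * (pnIP_k2_n h e hτ fc) + (3 / 2) * (pnIP_k2Wx_n h e hτ fc)

theorem pnIP_eW1y_p (h : Lin2 τ c) (e : CsP c) (hτ : 0 ≤ τ)
    (fc : 0 ≤ -8 + (-2 * c.z1Ey + 2 * c.p4y) + 340 * τ) :
    0 ≤ 1 + 17352 * τ + (-c.eW1y) := by
  linear_combination
    4 * h.toLin.k2W_eW1 + h.toLin.wTk2W + (pnIP_k2_n h e hτ fc) + (pnIP_k2Wx_n h e hτ fc)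
    + (pnIP_eW1x_p h e hτ fc)

theorem pnIP_hNv_p (h : Lin2 τ c) (e : CsP c) (hτ : 0 ≤ τ)
    (fc : 0 ≤ -8 + (-2 * c.z1Ey + 2 * c.p4y) + 340 * τ) :
    0 ≤ (-1 / 2) + 1571 * τ + (-c.hNv) := by
  linear_combination
    (7 / 17) * h.toLin.p4_hNv + (1 / 17) * h.toLin.p3_hNv + (105 / 272) * (pnIP_p4x_n h e hτ fc)
    + (31 / 272) * (pnIP_p3x_n h e hτ fc) + (3 / 272) * (pnIP_p3y_n h e hτ fc)
    + (133 / 272) * (pnIP_p4y_n h e hτ fc) + (83 / 272) * hτ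

theorem pnIP_eW1x_n (h : Lin2 τ c) (e : CsP c) (hτ : 0 ≤ τ)
    (fc : 0 ≤ -8 + (-2 * c.z1Ey + 2 * c.p4y) + 340 * τ) :
    0 ≤ 0 + 2038 * τ + (c.eW1x) := by
  linear_combination
    h.toLin.k2W_eW1 + h.toLin.k3W_eW1 + (1 / 4) * h.toLin.wTk2W + (3 / 4) * h.toLin.wLk3W
    + (1 / 4) * (pnIP_k3Wy_n h e hτ fc) + (1 / 4) * (pnIP_k2_n h e hτ fc)
    + (3 / 4) * (pnIP_k3_p h e hτ fc) + (1 / 4) * (pnIP_k2Wx_n h e hτ fc) + (1 / 2) * hτ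

theorem pnIP_hNu_p (h : Lin2 τ c) (e : CsP c) (hτ : 0 ≤ τ)
    (fc : 0 ≤ -8 + (-2 * c.z1Ey + 2 * c.p4y) + 340 * τ) :
    0 ≤ (1 / 2) + 348 * τ + (-c.hNu) := by
  linear_combination
    (15 / 26) * h.toLin.p2_hN + (1 / 26) * h.toLin.z1N_hNu + (17 / 416) * h.toLin.wRz1N
    + (225 / 416) * (pnIP_p2x_n h e hτ fc) + (15 / 32) * (pnIP_p2y_p h e hτ fc)
    + (1 / 32) * (pnIP_z1Ny_p h e hτ fc) + (1 / 208) * (pnIP_s1_p h e hτ fc)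
    + (1 / 208) * (pnIP_h1_p h e hτ fc) + (345 / 416) * hτ

theorem pnIP_hNv_n (h : Lin2 τ c) (e : CsP c) (hτ : 0 ≤ τ)
    (fc : 0 ≤ -8 + (-2 * c.z1Ey + 2 * c.p4y) + 340 * τ) :
    0 ≤ (1 / 2) + 749 * τ + (c.hNv) := by
  linear_combination
    (8 / 15) * h.toLin.z1N_hNu + (17 / 30) * h.toLin.wRz1N + (13 / 30) * (pnIP_z1Ny_p h e hτ fc)
    + (1 / 15) * (pnIP_s1_p h e hτ fc) + (1 / 15) * (pnIP_h1_p h e hτ fc)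
    + (2 / 15) * (pnIP_hNu_p h e hτ fc)

theorem pnIP_hNu_n (h : Lin2 τ c) (e : CsP c) (hτ : 0 ≤ τ)
    (fc : 0 ≤ -8 + (-2 * c.z1Ey + 2 * c.p4y) + 340 * τ) :
    0 ≤ (-1 / 2) + 9652 * τ + (c.hNu) := by
  linear_combination
    (15 / 8) * h.toLin.p4_hNv + (17 / 8) * h.toLin.z1N_hNu + (289 / 128) * h.toLin.wRz1N
    + (225 / 128) * (pnIP_p4x_n h e hτ fc) + (285 / 128) * (pnIP_p4y_n h e hτ fc)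
    + (221 / 128) * (pnIP_z1Ny_p h e hτ fc) + (17 / 64) * (pnIP_s1_p h e hτ fc)
    + (17 / 64) * (pnIP_h1_p h e hτ fc) + (55 / 64) * hτ

theorem fmIP_0_p (h : Lin2 τ c) (e : CsP c) (hτ : 0 ≤ τ)
    (fc : 0 ≤ -8 + (-2 * c.z1Ey + 2 * c.p4y) + 340 * τ) :
    0 ≤ 2 + 23217 * τ + (-c.z1Ex + c.t2Ex + c.h1 - c.t2y) := by
  linear_combination
    32 * h.toLin.p4_gE + (1184 / 5) * h.toLin.z1E_gEu + (64 / 15) * h.toLin.t2E_gEh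
    + (113 / 2) * h.toLin.wRz1E + (21 / 5) * h.toLin.wBt2E + (148 / 5) * e.2.1
    + (113 / 2) * (pnIP_p4x_n h e hτ fc) + (1 / 2) * (pnIP_p4y_p h e hτ fc)
    + (37 / 10) * (pnIP_z1Ey_p h e hτ fc) + (pnIP_h1_n h e hτ fc)
    + (21 / 5) * (pnIP_t2x_p h e hτ fc) + (2 / 15) * hτ

theorem fmIP_0_n (h : Lin2 τ c) (e : CsP c) (hτ : 0 ≤ τ)
    (fc : 0 ≤ -8 + (-2 * c.z1Ey + 2 * c.p4y) + 340 * τ) :
    0 ≤ 0 + 1867 * τ + (c.z1Ex - c.t2Ex - c.h1 + c.t2y) := by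
  linear_combination
    (1 / 2) * h.toLin.p4_z1Ev + h.toLin.wRt2E + (pnIP_p4x_n h e hτ fc) + (pnIP_t2y_n h e hτ fc)
    + (1 / 2) * hτ

theorem fmIP_1_p (h : Lin2 τ c) (e : CsP c) (hτ : 0 ≤ τ)
    (fc : 0 ≤ -8 + (-2 * c.z1Ey + 2 * c.p4y) + 340 * τ) :
    0 ≤ 2 + 26573 * τ + (-c.z1Ex + c.t2Ex - c.h1 + c.t2y) := by
  linear_combination
    32 * h.toLin.p4_gE + (8128 / 35) * h.toLin.z1E_gEu + (32 / 7) * h.toLin.z1E_gEh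
    + (64 / 15) * h.toLin.t2E_gEh + (113 / 2) * h.toLin.wRz1E + (21 / 5) * h.toLin.wBt2E
    + (291 / 10) * e.2.1 + (113 / 2) * (pnIP_p4x_n h e hτ fc) + (1 / 2) * (pnIP_p4y_p h e hτ fc)
    + (37 / 10) * (pnIP_z1Ey_p h e hτ fc) + (21 / 5) * (pnIP_t2x_p h e hτ fc)
    + 2 * (pnIP_t2y_n h e hτ fc) + (2 / 15) * hτ

theorem fmIP_1_n (h : Lin2 τ c) (e : CsP c) (hτ : 0 ≤ τ)
    (fc : 0 ≤ -8 + (-2 * c.z1Ey + 2 * c.p4y) + 340 * τ) :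
    0 ≤ 0 + 2228 * τ + (c.z1Ex - c.t2Ex + c.h1 - c.t2y) := by
  linear_combination
    h.toLin.wRt2E + (pnIP_z1Ex_n h e hτ fc) + (pnIP_h1_n h e hτ fc) + (pnIP_t2y_p h e hτ fc)

theorem fmIP_2_p (h : Lin2 τ c) (e : CsP c) (hτ : 0 ≤ τ)
    (fc : 0 ≤ -8 + (-2 * c.z1Ey + 2 * c.p4y) + 340 * τ) :
    0 ≤ 2 + 8173 * τ + (-c.t2Ny + c.k2Ny - c.t2x + c.k2) := by
  linear_combination
    h.toLin.wTt2N + (pnIP_k2Ny_n h e hτ fc) + (pnIP_t2x_p h e hτ fc) + (pnIP_k2_n h e hτ fc)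

theorem fmIP_2_n (h : Lin2 τ c) (e : CsP c) (hτ : 0 ≤ τ)
    (fc : 0 ≤ -8 + (-2 * c.z1Ey + 2 * c.p4y) + 340 * τ) :
    0 ≤ 0 + 4055 * τ + (c.t2Ny - c.k2Ny + c.t2x - c.k2) := by
  linear_combination
    h.toLin.z1N_t2N + h.toLin.wTk2N + (pnIP_z1Ny_n h e hτ fc) + (pnIP_s1_p h e hτ fc)
    + (pnIP_k2_p h e hτ fc)

theorem fmIP_3_p (h : Lin2 τ c) (e : CsP c) (hτ : 0 ≤ τ)
    (fc : 0 ≤ -8 + (-2 * c.z1Ey + 2 * c.p4y) + 340 * τ) :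
    0 ≤ (-2) + 4271 * τ + (-c.t2Ny + c.k2Ny + c.t2x - c.k2) := by
  linear_combination
    h.toLin.wTt2N + (pnIP_k2Ny_n h e hτ fc) + (pnIP_t2x_n h e hτ fc) + (pnIP_k2_p h e hτ fc)

theorem fmIP_3_n (h : Lin2 τ c) (e : CsP c) (hτ : 0 ≤ τ)
    (fc : 0 ≤ -8 + (-2 * c.z1Ey + 2 * c.p4y) + 340 * τ) :
    0 ≤ 4 + 11101 * τ + (c.t2Ny - c.k2Ny - c.t2x + c.k2) := by
  linear_combination
    h.toLin.z1N_t2N + h.toLin.wTk2N + (pnIP_z1Ny_n h e hτ fc) + (pnIP_s1_p h e hτ fc)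
    + 2 * (pnIP_t2x_p h e hτ fc) + (pnIP_k2_n h e hτ fc)

theorem fmIP_4_p (h : Lin2 τ c) (e : CsP c) (hτ : 0 ≤ τ)
    (fc : 0 ≤ -8 + (-2 * c.z1Ey + 2 * c.p4y) + 340 * τ) :
    0 ≤ 2 + 2161 * τ + (-c.p1x) := by
  linear_combination
    (1 / 2) * h.toLin.p1_z1Nu + (1 / 2) * h.toLin.p1_z1Eu + (1 / 2) * h.toLin.wRz1N
    + (1 / 2) * h.toLin.wRz1E + (1 / 2) * (pnIP_z1Ey_n h e hτ fc)
    + (1 / 2) * (pnIP_z1Ny_p h e hτ fc)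

theorem fmIP_4_n (h : Lin2 τ c) (e : CsP c) (hτ : 0 ≤ τ)
    (fc : 0 ≤ -8 + (-2 * c.z1Ey + 2 * c.p4y) + 340 * τ) :
    0 ≤ 0 + 562 * τ + (c.p1x) := by
  linear_combination
    (1 / 2) * h.toLin.p1_p3 + (pnIP_p3x_n h e hτ fc) + (1 / 2) * hτ

theorem fmIP_5_p (h : Lin2 τ c) (e : CsP c) (hτ : 0 ≤ τ)
    (fc : 0 ≤ -8 + (-2 * c.z1Ey + 2 * c.p4y) + 340 * τ) :
    0 ≤ 1 + 5704 * τ + (-c.p1y) := by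
  linear_combination
    (1 / 8) * h.toLin.p2_p1 + (1 / 2) * h.toLin.p1_eN1 + (1 / 8) * (pnIP_p2x_n h e hτ fc)
    + (1 / 8) * (pnIP_p2y_p h e hτ fc) + (7 / 8) * (pnIP_eN1y_p h e hτ fc)
    + (1 / 8) * (pnIP_eN1x_p h e hτ fc)

theorem fmIP_5_n (h : Lin2 τ c) (e : CsP c) (hτ : 0 ≤ τ)
    (fc : 0 ≤ -8 + (-2 * c.z1Ey + 2 * c.p4y) + 340 * τ) :
    0 ≤ 1 + 2938 * τ + (c.p1y) := by
  linear_combination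
    (1 / 2) * h.toLin.p4_p1 + (1 / 2) * h.toLin.p1_z1Eu + (1 / 2) * h.toLin.wRz1E
    + (1 / 2) * (pnIP_p4x_n h e hτ fc) + (1 / 2) * (pnIP_z1Ey_n h e hτ fc)
    + (1 / 2) * (pnIP_p4y_n h e hτ fc)

theorem pinIP (h : Lin2 τ c) (e : CsP c) (hτ : 0 ≤ τ) (n : NearI c) :
    PinIP (26573 * τ) c :=
  have fc := fcIP h e hτ n
  { p2x := pin_abs hτ (pnIP_p2x_p h e hτ fc) (pnIP_p2x_n h e hτ fc) (by norm_num)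
    p2y := pin_abs hτ (pnIP_p2y_p h e hτ fc) (pnIP_p2y_n h e hτ fc) (by norm_num)
    p4x := pin_abs hτ (pnIP_p4x_p h e hτ fc) (pnIP_p4x_n h e hτ fc) (by norm_num)
    p4y := pin_abs hτ (pnIP_p4y_p h e hτ fc) (pnIP_p4y_n h e hτ fc) (by norm_num)
    p3x := pin_abs hτ (pnIP_p3x_p h e hτ fc) (pnIP_p3x_n h e hτ fc) (by norm_num)
    p3y := pin_abs hτ (pnIP_p3y_p h e hτ fc) (pnIP_p3y_n h e hτ fc) (by norm_num)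
    z1Nx := pin_abs hτ (pnIP_z1Nx_p h e hτ fc) (pnIP_z1Nx_n h e hτ fc) (by norm_num)
    z1Ny := pin_abs hτ (pnIP_z1Ny_p h e hτ fc) (pnIP_z1Ny_n h e hτ fc) (by norm_num)
    z1Ex := pin_abs hτ (pnIP_z1Ex_p h e hτ fc) (pnIP_z1Ex_n h e hτ fc) (by norm_num)
    z1Ey := pin_abs hτ (pnIP_z1Ey_p h e hτ fc) (pnIP_z1Ey_n h e hτ fc) (by norm_num)
    z3Wx := pin_abs hτ (pnIP_z3Wx_p h e hτ fc) (pnIP_z3Wx_n h e hτ fc) (by norm_num)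
    z3Wy := pin_abs hτ (pnIP_z3Wy_p h e hτ fc) (pnIP_z3Wy_n h e hτ fc) (by norm_num)
    z3Sx := pin_abs hτ (pnIP_z3Sx_p h e hτ fc) (pnIP_z3Sx_n h e hτ fc) (by norm_num)
    z3Sy := pin_abs hτ (pnIP_z3Sy_p h e hτ fc) (pnIP_z3Sy_n h e hτ fc) (by norm_num)
    t2Nx := pin_abs hτ (pnIP_t2Nx_p h e hτ fc) (pnIP_t2Nx_n h e hτ fc) (by norm_num)
    t2Sx := pin_abs hτ (pnIP_t2Sx_p h e hτ fc) (pnIP_t2Sx_n h e hτ fc) (by norm_num)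
    t2Sy := pin_abs hτ (pnIP_t2Sy_p h e hτ fc) (pnIP_t2Sy_n h e hτ fc) (by norm_num)
    t2Ey := pin_abs hτ (pnIP_t2Ey_p h e hτ fc) (pnIP_t2Ey_n h e hτ fc) (by norm_num)
    k2Nx := pin_abs hτ (pnIP_k2Nx_p h e hτ fc) (pnIP_k2Nx_n h e hτ fc) (by norm_num)
    k2Ny := pin_abs hτ (pnIP_k2Ny_p h e hτ fc) (pnIP_k2Ny_n h e hτ fc) (by norm_num)
    k2Wx := pin_abs hτ (pnIP_k2Wx_p h e hτ fc) (pnIP_k2Wx_n h e hτ fc) (by norm_num)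
    k2Wy := pin_abs hτ (pnIP_k2Wy_p h e hτ fc) (pnIP_k2Wy_n h e hτ fc) (by norm_num)
    k3Wx := pin_abs hτ (pnIP_k3Wx_p h e hτ fc) (pnIP_k3Wx_n h e hτ fc) (by norm_num)
    k3Wy := pin_abs hτ (pnIP_k3Wy_p h e hτ fc) (pnIP_k3Wy_n h e hτ fc) (by norm_num)
    k3Sx := pin_abs hτ (pnIP_k3Sx_p h e hτ fc) (pnIP_k3Sx_n h e hτ fc) (by norm_num)
    k3Sy := pin_abs hτ (pnIP_k3Sy_p h e hτ fc) (pnIP_k3Sy_n h e hτ fc) (by norm_num)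
    eN1x := pin_abs hτ (pnIP_eN1x_p h e hτ fc) (pnIP_eN1x_n h e hτ fc) (by norm_num)
    eN1y := pin_abs hτ (pnIP_eN1y_p h e hτ fc) (pnIP_eN1y_n h e hτ fc) (by norm_num)
    eW1x := pin_abs hτ (pnIP_eW1x_p h e hτ fc) (pnIP_eW1x_n h e hτ fc) (by norm_num)
    eW1y := pin_abs hτ (pnIP_eW1y_p h e hτ fc) (pnIP_eW1y_n h e hτ fc) (by norm_num)
    eS2x := pin_abs hτ (pnIP_eS2x_p h e hτ fc) (pnIP_eS2x_n h e hτ fc) (by norm_num)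
    eS2y := pin_abs hτ (pnIP_eS2y_p h e hτ fc) (pnIP_eS2y_n h e hτ fc) (by norm_num)
    s1 := pin_abs hτ (pnIP_s1_p h e hτ fc) (pnIP_s1_n h e hτ fc) (by norm_num)
    h1 := pin_abs hτ (pnIP_h1_p h e hτ fc) (pnIP_h1_n h e hτ fc) (by norm_num)
    s3 := pin_abs hτ (pnIP_s3_p h e hτ fc) (pnIP_s3_n h e hτ fc) (by norm_num)
    h3 := pin_abs hτ (pnIP_h3_p h e hτ fc) (pnIP_h3_n h e hτ fc) (by norm_num)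
    t2x := pin_abs hτ (pnIP_t2x_p h e hτ fc) (pnIP_t2x_n h e hτ fc) (by norm_num)
    t2y := pin_abs hτ (pnIP_t2y_p h e hτ fc) (pnIP_t2y_n h e hτ fc) (by norm_num)
    k2 := pin_abs hτ (pnIP_k2_p h e hτ fc) (pnIP_k2_n h e hτ fc) (by norm_num)
    k3 := pin_abs hτ (pnIP_k3_p h e hτ fc) (pnIP_k3_n h e hτ fc) (by norm_num)
    hNu := pin_abs hτ (pnIP_hNu_p h e hτ fc) (pnIP_hNu_n h e hτ fc) (by norm_num)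
    hNv := pin_abs hτ (pnIP_hNv_p h e hτ fc) (pnIP_hNv_n h e hτ fc) (by norm_num)
    f0 := ⟨by linarith only [hτ, fmIP_0_n h e hτ fc], by linarith only [hτ, fmIP_0_p h e hτ fc]⟩
    f1 := ⟨by linarith only [hτ, fmIP_1_n h e hτ fc], by linarith only [hτ, fmIP_1_p h e hτ fc]⟩
    f2 := ⟨by linarith only [hτ, fmIP_2_n h e hτ fc], by linarith only [hτ, fmIP_2_p h e hτ fc]⟩
    f3 := ⟨by linarith only [hτ, fmIP_3_n h e hτ fc], by linarith only [hτ, fmIP_3_p h e hτ fc]⟩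
    f4 := ⟨by linarith only [hτ, fmIP_4_n h e hτ fc], by linarith only [hτ, fmIP_4_p h e hτ fc]⟩
    f5 := ⟨by linarith only [hτ, fmIP_5_n h e hτ fc], by linarith only [hτ, fmIP_5_p h e hτ fc]⟩ }

end Pool.Agent.P.MP_dba4bb_co.Ex
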