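import Pool.Agent.P.MP_dba4bb_co.Ex.PinD

/-! Sharpness and pinned nodes near a maximiser. -/

namespace Pool.Agent.P.MP_dba4bb_co.Ex

variable {τ : ℝ} {c : Cfg}

theorem shIQ0p (h : Lin2 τ c) (e : CsQ c) (hτ : 0 ≤ τ) :
    c.z1Ny - c.p2y - 0 ≤ (7 / 4) * (8 - (-2 * c.z1Ey + 2 * c.p4y)) + 94 * τ := by
  linear_combination
    (355 / 212) * h.toLin.p2_p4 + (35 / 106) * h.toLin.p2_p3 + (21323 / 92432) * h.toLin.p2_z1Nu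
    + (946817 / 184864) * h.toLin.p2_z1Nv + (26775 / 184864) * h.toLin.p2_z3Wv
    + (231 / 53) * h.toLin.p2_k3Wv + (12 / 53) * h.toLin.p2_eN1 + (560 / 583) * h.toLin.p2_eW1
    + (280 / 583) * h.toLin.p2_hW + (1120 / 5777) * h.toLin.p4_p3
    + (90661 / 23108) * h.toLin.p4_z1Eu + (27419 / 5777) * h.toLin.p4_k3Sv
    + (104 / 53) * h.toLin.p4_hNv + (1785 / 92432) * h.toLin.p3_z3Su
    + (6300 / 5777) * h.toLin.p3_gS + (280 / 53) * h.toLin.p3_hW + (91 / 106) * h.toLin.z1N_t1N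
    + (480 / 53) * h.toLin.z1N_gNh + (7 / 2) * h.toLin.z1E_t2E + (7140 / 5777) * h.toLin.z3S_gSh
    + (91 / 53) * h.toLin.t1W_k3W + 7 * h.toLin.t2S_k3S + (48 / 53) * h.toLin.k2N_eN1
    + (2840 / 901) * h.toLin.k2N_eN2 + (768 / 901) * h.toLin.k2N_gNh
    + (140 / 53) * h.toLin.k2W_k3W + (280 / 53) * h.toLin.k2W_eW1
    + (13440 / 5777) * h.toLin.k3S_gSh + (12 / 53) * h.toLin.eN1_eN2
    + (1440 / 901) * h.toLin.eN2_gN + (104 / 159) * h.toLin.eN2_hN + (224 / 583) * h.toLin.eW1_hW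
    + (4992 / 2809) * h.toLin.gN_hN + (22371 / 1744) * h.toLin.wRz1N
    + (90661 / 11554) * h.toLin.wRz1E + (26775 / 92432) * h.toLin.wLz3W
    + (1785 / 5777) * h.toLin.wLz3S + (91 / 106) * h.toLin.wTt1N + (91 / 106) * h.toLin.wTt1W
    + (7 / 2) * h.toLin.wBt2S + (7 / 2) * h.toLin.wBt2E + (140 / 53) * h.toLin.wTk2N
    + (140 / 53) * h.toLin.wTk2W + (532 / 53) * h.toLin.wLk3W + (532 / 53) * h.toLin.wLk3S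
    + (1785 / 92432) * h.c3 + (50106 / 5777) * e.2.1 + (55144888283 / 2748280656) * hτ

theorem shIQ0n (h : Lin2 τ c) (e : CsQ c) (hτ : 0 ≤ τ) :
    -(c.z1Ny - c.p2y - 0) ≤ (7 / 4) * (8 - (-2 * c.z1Ey + 2 * c.p4y)) + 94 * τ := by
  linear_combination
    (4579 / 4800) * h.toLin.p2_p4 + (7 / 8) * h.toLin.p2_p3 + (621 / 640) * h.toLin.p2_z1Nu
    + (131 / 32) * h.toLin.p2_z1Nv + 4 * h.toLin.p2_k3Wv + (119 / 160) * h.toLin.p2_eN1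
    + 2 * h.toLin.p2_eW1 + (203 / 600) * h.toLin.p2_hN + (899 / 640) * h.toLin.p4_p1
    + (55 / 16) * h.toLin.p4_z1Eu + (21 / 4) * h.toLin.p4_k3Sv + (1421 / 600) * h.toLin.p4_hNv
    + (899 / 640) * h.toLin.p1_z1Nu + (7 / 8) * h.toLin.p3_z3Su + (119 / 480) * h.toLin.z1N_eN1
    + 14 * h.toLin.z1N_gNh + (7 / 2) * h.toLin.z1E_t2E + (7 / 8) * h.toLin.z3S_t2S
    + (21 / 4) * h.toLin.t2S_k3S + (119 / 40) * h.toLin.k2N_eN1 + (14 / 5) * h.toLin.k2N_gNh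
    + (7 / 2) * h.toLin.k2W_k3W + 7 * h.toLin.k2W_eW1 + h.toLin.k3W_eW1
    + (812 / 265) * h.toLin.gN_hN + 15 * h.toLin.wRz1N + (55 / 8) * h.toLin.wRz1E
    + (7 / 8) * h.toLin.wLz3S + (7 / 2) * h.toLin.wBt2S + (7 / 2) * h.toLin.wBt2E
    + (7 / 2) * h.toLin.wTk2N + (7 / 2) * h.toLin.wTk2W + (21 / 2) * h.toLin.wLk3W
    + (21 / 2) * h.toLin.wLk3S + (7 / 8) * h.c3 + (147 / 16) * e.2.1 + (10276549 / 508800) * hτ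

theorem shIQ1p (h : Lin2 τ c) (e : CsQ c) (hτ : 0 ≤ τ) :
    c.z1Ey - c.p4y - (-4) ≤ (7 / 4) * (8 - (-2 * c.z1Ey + 2 * c.p4y)) + 94 * τ := by
  linear_combination
    (997 / 960) * h.toLin.p2_p4 + (5 / 8) * h.toLin.p2_p3 + (43 / 128) * h.toLin.p2_z1Nu
    + (105 / 32) * h.toLin.p2_z1Nv + (20 / 7) * h.toLin.p2_k3Wv + (17 / 32) * h.toLin.p2_eN1
    + (10 / 7) * h.toLin.p2_eW1 + (29 / 120) * h.toLin.p2_hN + (37 / 128) * h.toLin.p4_p1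
    + (45 / 16) * h.toLin.p4_z1Eu + (15 / 4) * h.toLin.p4_k3Sv + (203 / 120) * h.toLin.p4_hNv
    + (37 / 128) * h.toLin.p1_z1Nu + (5 / 8) * h.toLin.p3_z3Su + (17 / 96) * h.toLin.z1N_eN1
    + 10 * h.toLin.z1N_gNh + (5 / 2) * h.toLin.z1E_t2E + (5 / 8) * h.toLin.z3S_t2S
    + (15 / 4) * h.toLin.t2S_k3S + (17 / 8) * h.toLin.k2N_eN1 + 2 * h.toLin.k2N_gNh
    + (5 / 2) * h.toLin.k2W_k3W + 5 * h.toLin.k2W_eW1 + (5 / 7) * h.toLin.k3W_eW1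
    + (116 / 53) * h.toLin.gN_hN + 10 * h.toLin.wRz1N + (45 / 8) * h.toLin.wRz1E
    + (5 / 8) * h.toLin.wLz3S + (5 / 2) * h.toLin.wBt2S + (5 / 2) * h.toLin.wBt2E
    + (5 / 2) * h.toLin.wTk2N + (5 / 2) * h.toLin.wTk2W + (15 / 2) * h.toLin.wLk3W
    + (15 / 2) * h.toLin.wLk3S + (5 / 8) * h.c3 + (105 / 16) * e.2.1 + (4273747 / 101760) * hτ

theorem shIQ1n (h : Lin2 τ c) (e : CsQ c) (hτ : 0 ≤ τ) :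
    -(c.z1Ey - c.p4y - (-4)) ≤ (7 / 4) * (8 - (-2 * c.z1Ey + 2 * c.p4y)) + 94 * τ := by
  linear_combination
    (2991 / 1600) * h.toLin.p2_p4 + (9 / 8) * h.toLin.p2_p3 + (387 / 640) * h.toLin.p2_z1Nu
    + (189 / 32) * h.toLin.p2_z1Nv + (36 / 7) * h.toLin.p2_k3Wv + (153 / 160) * h.toLin.p2_eN1
    + (18 / 7) * h.toLin.p2_eW1 + (87 / 200) * h.toLin.p2_hN + (333 / 640) * h.toLin.p4_p1
    + (81 / 16) * h.toLin.p4_z1Eu + (27 / 4) * h.toLin.p4_k3Sv + (609 / 200) * h.toLin.p4_hNv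
    + (333 / 640) * h.toLin.p1_z1Nu + (9 / 8) * h.toLin.p3_z3Su + (51 / 160) * h.toLin.z1N_eN1
    + 18 * h.toLin.z1N_gNh + (9 / 2) * h.toLin.z1E_t2E + (9 / 8) * h.toLin.z3S_t2S
    + (27 / 4) * h.toLin.t2S_k3S + (153 / 40) * h.toLin.k2N_eN1 + (18 / 5) * h.toLin.k2N_gNh
    + (9 / 2) * h.toLin.k2W_k3W + 9 * h.toLin.k2W_eW1 + (9 / 7) * h.toLin.k3W_eW1
    + (1044 / 265) * h.toLin.gN_hN + 18 * h.toLin.wRz1N + (81 / 8) * h.toLin.wRz1E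
    + (9 / 8) * h.toLin.wLz3S + (9 / 2) * h.toLin.wBt2S + (9 / 2) * h.toLin.wBt2E
    + (9 / 2) * h.toLin.wTk2N + (9 / 2) * h.toLin.wTk2W + (27 / 2) * h.toLin.wLk3W
    + (27 / 2) * h.toLin.wLk3S + (9 / 8) * h.c3 + (189 / 16) * e.2.1 + (67321 / 169600) * hτ

theorem shIQ2p (h : Lin2 τ c) (e : CsQ c) (hτ : 0 ≤ τ) :
    c.z3Wy - c.p2y - 0 ≤ (7 / 4) * (8 - (-2 * c.z1Ey + 2 * c.p4y)) + 94 * τ := by
  linear_combination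
    (19 / 20) * h.toLin.p2_p4 + (15 / 8) * h.toLin.p2_p3 + (599 / 168) * h.toLin.p2_z1Nv
    + 2 * h.toLin.p2_k3Wv + (31 / 42) * h.toLin.p2_eN1 + 2 * h.toLin.p2_eW1
    + (12 / 35) * h.toLin.p2_hN + (3 / 8) * h.toLin.p4_p1 + (31 / 16) * h.toLin.p4_z1Eu
    + (13 / 4) * h.toLin.p4_k3Sv + (12 / 5) * h.toLin.p4_hNv + (3 / 8) * h.toLin.p1_z1Nu
    + (15 / 8) * h.toLin.p3_z3Su + (179 / 882) * h.toLin.z1N_eN1 + (2096 / 147) * h.toLin.z1N_gNh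
    + (7 / 2) * h.toLin.z1E_t2E + 2 * h.toLin.z3W_k3W + (15 / 8) * h.toLin.z3S_t2S
    + (13 / 4) * h.toLin.t2S_k3S + (119 / 40) * h.toLin.k2N_eN1 + (14 / 5) * h.toLin.k2N_gNh
    + (7 / 2) * h.toLin.k2W_k3W + 7 * h.toLin.k2W_eW1 + h.toLin.k3W_eW1
    + (38 / 735) * h.toLin.eN1_gN + (1152 / 371) * h.toLin.gN_hN + 11 * h.toLin.wRz1N
    + (31 / 8) * h.toLin.wRz1E + (15 / 8) * h.toLin.wLz3S + (7 / 2) * h.toLin.wBt2S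
    + (7 / 2) * h.toLin.wBt2E + (7 / 2) * h.toLin.wTk2N + (7 / 2) * h.toLin.wTk2W
    + (13 / 2) * h.toLin.wLk3W + (13 / 2) * h.toLin.wLk3S + (23 / 8) * h.c3 + (139 / 16) * e.2.1
    + (8946361 / 373968) * hτ

theorem shIQ2n (h : Lin2 τ c) (e : CsQ c) (hτ : 0 ≤ τ) :
    -(c.z3Wy - c.p2y - 0) ≤ (7 / 4) * (8 - (-2 * c.z1Ey + 2 * c.p4y)) + 94 * τ := by
  linear_combination
    (9 / 10) * h.toLin.p2_p4 + (7 / 8) * h.toLin.p2_p3 + (193933 / 592960) * h.toLin.p2_z1Nu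
    + (1216417 / 222360) * h.toLin.p2_z1Nv + (1785 / 6976) * h.toLin.p2_z3Wu + 4 * h.toLin.p2_k3Wv
    + (7 / 30) * h.toLin.p2_eN1 + 2 * h.toLin.p2_eW1 + (767 / 872) * h.toLin.p4_p3
    + (3607 / 872) * h.toLin.p4_z1Eu + (546 / 109) * h.toLin.p4_k3Sv + (14 / 5) * h.toLin.p4_hNv
    + h.toLin.p3_z3Wu + (119 / 6976) * h.toLin.p3_z3Su + (105 / 109) * h.toLin.p3_gS
    + (2401 / 1700) * h.toLin.z1N_eN2 + (1288 / 255) * h.toLin.z1N_gNh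
    + (1232 / 1275) * h.toLin.z1N_hNu + (7 / 2) * h.toLin.z1E_t2E + (119 / 109) * h.toLin.z3S_gSh
    + 7 * h.toLin.t2S_k3S + (1169 / 1200) * h.toLin.k2N_eN1 + (2401 / 510) * h.toLin.k2N_eN2
    + (1169 / 1275) * h.toLin.k2N_gNh + (7 / 2) * h.toLin.k2W_k3W + 7 * h.toLin.k2W_eW1
    + h.toLin.k3W_eW1 + (224 / 109) * h.toLin.k3S_gSh + (7 / 75) * h.toLin.eN1_gN
    + (4802 / 3825) * h.toLin.eN2_hN + (2912 / 2703) * h.toLin.gN_hN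
    + (50617 / 3488) * h.toLin.wRz1N + (3607 / 436) * h.toLin.wRz1E
    + (5273 / 3488) * h.toLin.wLz3W + (119 / 436) * h.toLin.wLz3S + (7 / 2) * h.toLin.wBt2S
    + (7 / 2) * h.toLin.wBt2E + (7 / 2) * h.toLin.wTk2N + (7 / 2) * h.toLin.wTk2W
    + (21 / 2) * h.toLin.wLk3W + (21 / 2) * h.toLin.wLk3S + (119 / 436) * h.c3
    + (63777 / 6976) * e.2.1 + (32892210119 / 1414209600) * hτ

theorem shIQ3p (h : Lin2 τ c) (e : CsQ c) (hτ : 0 ≤ τ) :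
    c.z3Sy - c.p4y - 0 ≤ (7 / 4) * (8 - (-2 * c.z1Ey + 2 * c.p4y)) + 94 * τ := by
  linear_combination
    (85079 / 79296) * h.toLin.p2_p4 + (8583 / 6608) * h.toLin.p2_p3
    + (88815 / 13216) * h.toLin.p2_z1Nv + (6375 / 52864) * h.toLin.p2_z3Wu
    + (33049 / 5782) * h.toLin.p2_k3Wv + (3995 / 13216) * h.toLin.p2_eN1
    + (22850 / 31801) * h.toLin.p2_eW1 + (1363 / 9912) * h.toLin.p2_hN
    + (375 / 4543) * h.toLin.p2_hW + (118519 / 52864) * h.toLin.p4_p1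
    + (29667 / 6608) * h.toLin.p4_z1Eu + (5007 / 826) * h.toLin.p4_k3Sv
    + (1363 / 1416) * h.toLin.p4_hNv + (118519 / 52864) * h.toLin.p1_z1Nu
    + (53289 / 52864) * h.toLin.p3_z3Su + (375 / 826) * h.toLin.p3_gS
    + (375 / 413) * h.toLin.p3_hW + (858 / 413) * h.toLin.z1N_t1N
    + (3995 / 39648) * h.toLin.z1N_eN1 + (2350 / 413) * h.toLin.z1N_gNh
    + (7 / 2) * h.toLin.z1E_t2E + (425 / 826) * h.toLin.z3S_gSh + (1716 / 413) * h.toLin.t1W_k3W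
    + 7 * h.toLin.t2S_k3S + (3995 / 3304) * h.toLin.k2N_eN1 + (470 / 413) * h.toLin.k2N_gNh
    + (1175 / 826) * h.toLin.k2W_k3W + (1175 / 413) * h.toLin.k2W_eW1
    + (800 / 2891) * h.toLin.k3W_eW1 + (400 / 413) * h.toLin.k3S_gSh
    + (300 / 4543) * h.toLin.eW1_hW + (27260 / 21889) * h.toLin.gN_hN
    + (451767 / 26432) * h.toLin.wRz1N + (29667 / 3304) * h.toLin.wRz1E
    + (6375 / 26432) * h.toLin.wLz3W + (3729 / 3304) * h.toLin.wLz3S + (858 / 413) * h.toLin.wTt1N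
    + (858 / 413) * h.toLin.wTt1W + (7 / 2) * h.toLin.wBt2S + (7 / 2) * h.toLin.wBt2E
    + (1175 / 826) * h.toLin.wTk2N + (1175 / 826) * h.toLin.wTk2W + (20403 / 1652) * h.toLin.wLk3W
    + (20403 / 1652) * h.toLin.wLk3S + (425 / 3304) * h.c3 + (547679 / 52864) * e.2.1
    + (626988535 / 23114784) * hτ

theorem shIQ3n (h : Lin2 τ c) (e : CsQ c) (hτ : 0 ≤ τ) :
    -(c.z3Sy - c.p4y - 0) ≤ (7 / 4) * (8 - (-2 * c.z1Ey + 2 * c.p4y)) + 94 * τ := by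
  linear_combination
    (5301 / 6680) * h.toLin.p2_p3 + (98867 / 76152) * h.toLin.p2_z1Nv
    + (10371 / 25384) * h.toLin.p2_z3Wu + (2777 / 2505) * h.toLin.p2_k3Wv
    + (119 / 167) * h.toLin.p2_eN1 + (182 / 501) * h.toLin.p2_hN + (161 / 668) * h.toLin.p4_p1
    + (47933 / 28557) * h.toLin.p4_p3 + (185147 / 456912) * h.toLin.p4_z1Eu
    + (100345 / 114228) * h.toLin.p4_k3Sv + (1274 / 501) * h.toLin.p4_hNv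
    + (161 / 668) * h.toLin.p1_z1Nu + (365 / 1503) * h.toLin.p3_z3Wu
    + (10156 / 7515) * h.toLin.p3_k2Wv + (57944 / 28557) * h.toLin.p3_gS
    + (2576 / 167) * h.toLin.z1N_gNh + (7 / 2) * h.toLin.z1E_t2E + (365 / 1503) * h.toLin.z3W_k2W
    + (3303709 / 3426840) * h.toLin.z3S_t2S + (96 / 1169) * h.toLin.z3S_gSu
    + (6649096 / 2998485) * h.toLin.z3S_gSh + (8690231 / 1713420) * h.toLin.t2S_k3S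
    + (119 / 40) * h.toLin.k2N_eN1 + (14 / 5) * h.toLin.k2N_gNh + (2777 / 2505) * h.toLin.k2W_k3W
    + (1854208 / 428355) * h.toLin.k3S_gSh + (238 / 835) * h.toLin.eN1_gN
    + (29120 / 8851) * h.toLin.gN_hN + (245699 / 38076) * h.toLin.wRz1N
    + (185147 / 228456) * h.toLin.wRz1E + (44983 / 38076) * h.toLin.wLz3W
    + (123131 / 228456) * h.toLin.wLz3S + (7 / 2) * h.toLin.wBt2S + (7 / 2) * h.toLin.wBt2E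
    + (7 / 2) * h.toLin.wTk2N + (7 / 2) * h.toLin.wTk2W + (2777 / 1002) * h.toLin.wLk3W
    + (2777 / 1002) * h.toLin.wLk3S + (379327 / 228456) * h.c3 + (2653117 / 456912) * e.2.1
    + (227846711 / 6372720) * hτ

theorem fcIQ (h : Lin2 τ c) (e : CsQ c) (hτ : 0 ≤ τ) (n : NearI c) :
    0 ≤ -8 + (-2 * c.z1Ey + 2 * c.p4y) + 384 * τ := by
  obtain ⟨l0, u0, l1, u1, l2, u2, l3, u3, -⟩ := n
  have a0 := sq_le_box (r := (1 / 2)) (by linarith only [l0]) (by linarith only [u0])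
    (shIQ0p h e hτ) (shIQ0n h e hτ)
  have a1 := sq_le_box (r := (1 / 2)) (by linarith only [l1]) (by linarith only [u1])
    (shIQ1p h e hτ) (shIQ1n h e hτ)
  have a2 := sq_le_box (r := (1 / 2)) (by linarith only [l2]) (by linarith only [u2])
    (shIQ2p h e hτ) (shIQ2n h e hτ)
  have a3 := sq_le_box (r := (1 / 2)) (by linarith only [l3]) (by linarith only [u3])
    (shIQ3p h e hτ) (shIQ3n h e hτ)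
  linear_combination 8 * (h.hG + (1 / 4) * (a0 + a1 + a2 + a3) + sq_nonneg (c.s1 - 0)) +
    0 * hτ

theorem pnIQ_p2x_p (h : Lin2 τ c) (e : CsQ c) (hτ : 0 ≤ τ)
    (fc : 0 ≤ -8 + (-2 * c.z1Ey + 2 * c.p4y) + 384 * τ) :
    0 ≤ 0 + 1 * τ + (-c.p2x) := by
  linear_combination
    (1 / 2) * h.toLin.p2_z1Nu + h.toLin.wRz1N + (1 / 2) * e.2.1 + (1 / 2) * hτ

theorem pnIQ_p4x_n (h : Lin2 τ c) (e : CsQ c) (hτ : 0 ≤ τ)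
    (fc : 0 ≤ -8 + (-2 * c.z1Ey + 2 * c.p4y) + 384 * τ) :
    0 ≤ 0 + 2 * τ + (c.p4x) := by
  linear_combination
    (1 / 4) * h.toLin.p2_z1Nv + (1 / 4) * h.toLin.p2_z3Wv + (1 / 2) * h.toLin.p4_z3Su
    + (1 / 2) * h.toLin.wRz1N + (1 / 2) * h.toLin.wLz3W + h.toLin.wLz3S + (1 / 2) * h.c3
    + (1 / 2) * e.2.1 + (1 / 2) * hτ

theorem pnIQ_p2y_p (h : Lin2 τ c) (e : CsQ c) (hτ : 0 ≤ τ)
    (fc : 0 ≤ -8 + (-2 * c.z1Ey + 2 * c.p4y) + 384 * τ) :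
    0 ≤ 1 + 131 * τ + (-c.p2y) := by
  linear_combination
    (2335 / 2064) * h.toLin.p2_z1Nv + (25 / 28) * h.toLin.p2_k3Wv + (23 / 129) * h.toLin.p2_eN1
    + (337 / 602) * h.toLin.p2_eW1 + (51 / 172) * h.toLin.p4_p1 + (39 / 172) * h.toLin.p4_p3
    + (651 / 688) * h.toLin.p4_z1Ev + (39 / 688) * h.toLin.p4_z3Sv + (51 / 43) * h.toLin.p4_k3Sv
    + (24 / 43) * h.toLin.p4_hNv + (51 / 172) * h.toLin.p1_z1Nu + (39 / 172) * h.toLin.p3_z3Wu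
    + (416 / 3741) * h.toLin.z1N_k2N + (23 / 387) * h.toLin.z1N_eN1 + (9 / 43) * h.toLin.z1N_eN2
    + (2880 / 1247) * h.toLin.z1N_gNh + (51 / 86) * h.toLin.z1E_t2E + (39 / 172) * h.toLin.z3W_k2W
    + (51 / 43) * h.toLin.t2S_k3S + (92 / 129) * h.toLin.k2N_eN1 + (30 / 43) * h.toLin.k2N_eN2
    + (576 / 1247) * h.toLin.k2N_gNh + (259 / 344) * h.toLin.k2W_k3W
    + (337 / 172) * h.toLin.k2W_eW1 + (337 / 1204) * h.toLin.k3W_eW1 + (8 / 43) * h.toLin.eN2_hN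
    + (1152 / 2279) * h.toLin.gN_hN + (1137 / 344) * h.toLin.wRz1N + (651 / 344) * h.toLin.wRz1E
    + (117 / 344) * h.toLin.wLz3W + (39 / 344) * h.toLin.wLz3S + (51 / 86) * h.toLin.wBt2S
    + (51 / 86) * h.toLin.wBt2E + (47 / 43) * h.toLin.wTk2N + (47 / 43) * h.toLin.wTk2W
    + (102 / 43) * h.toLin.wLk3W + (102 / 43) * h.toLin.wLk3S + (39 / 172) * h.c3
    + (48 / 43) * e.2.1 + (51 / 172) * fc + (23293 / 221328) * hτ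

theorem pnIQ_p4y_p (h : Lin2 τ c) (e : CsQ c) (hτ : 0 ≤ τ)
    (fc : 0 ≤ -8 + (-2 * c.z1Ey + 2 * c.p4y) + 384 * τ) :
    0 ≤ 1 + 132 * τ + (-c.p4y) := by
  linear_combination
    (1 / 2) * h.toLin.p2_p4 + (pnIQ_p2y_p h e hτ fc) + (1 / 2) * hτ

theorem pnIQ_p4y_n (h : Lin2 τ c) (e : CsQ c) (hτ : 0 ≤ τ)
    (fc : 0 ≤ -8 + (-2 * c.z1Ey + 2 * c.p4y) + 384 * τ) :
    0 ≤ (-1) + 298 * τ + (c.p4y) := by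
  linear_combination
    (100089 / 118265) * h.toLin.p2_p3 + (13166 / 23653) * h.toLin.p2_z1Nv
    + (10391 / 47306) * h.toLin.p2_z3Wv + (13024 / 354795) * h.toLin.p2_k3Wv
    + (128 / 651) * h.toLin.p2_eN1 + (32 / 651) * h.toLin.p4_p1 + (16 / 651) * h.toLin.p4_k3Sv
    + (32 / 651) * h.toLin.p1_z1Nu + (17 / 47306) * h.toLin.p3_z3Wu + (33 / 434) * h.toLin.p3_z3Su
    + (256 / 3255) * h.toLin.p3_k2Wv + (480 / 23653) * h.toLin.p3_gW + (608 / 651) * h.toLin.p3_gS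
    + (128 / 1953) * h.toLin.z1N_eN1 + (225 / 217) * h.toLin.z1E_t2E
    + (544 / 23653) * h.toLin.z3W_gWh + (151 / 3255) * h.toLin.z3S_t2S
    + (6176 / 3255) * h.toLin.z3S_gSh + (256 / 651) * h.toLin.t2N_k2N
    + (1072 / 3255) * h.toLin.t2S_k3S + (8192 / 9765) * h.toLin.t2S_gSh
    + (512 / 651) * h.toLin.k2N_eN1 + (256 / 3255) * h.toLin.k2W_k3W
    + (1024 / 23653) * h.toLin.k3W_gWh + (1024 / 3255) * h.toLin.k3S_gSh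
    + (85972 / 70959) * h.toLin.wRz1N + (10527 / 23653) * h.toLin.wLz3W
    + (113 / 217) * h.toLin.wLz3S + (128 / 651) * h.toLin.wRt2N + (128 / 651) * h.toLin.wLt2S
    + (225 / 217) * h.toLin.wBt2S + (225 / 217) * h.toLin.wBt2E + (128 / 651) * h.toLin.wTk2N
    + (128 / 651) * h.toLin.wTk2W + (80 / 651) * h.toLin.wLk3W + (80 / 651) * h.toLin.wLk3S
    + (1807 / 23653) * h.c3 + (82484 / 70959) * e.2.1 + (225 / 434) * fc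
    + (443 / 651) * (pnIQ_p2y_p h e hτ fc) + (538631 / 709590) * hτ

theorem pnIQ_p2y_n (h : Lin2 τ c) (e : CsQ c) (hτ : 0 ≤ τ)
    (fc : 0 ≤ -8 + (-2 * c.z1Ey + 2 * c.p4y) + 384 * τ) :
    0 ≤ (-1) + 299 * τ + (c.p2y) := by
  linear_combination
    (1 / 2) * h.toLin.p2_p4 + (pnIQ_p4y_n h e hτ fc) + (1 / 2) * hτ

theorem pnIQ_p3x_p (h : Lin2 τ c) (e : CsQ c) (hτ : 0 ≤ τ)
    (fc : 0 ≤ -8 + (-2 * c.z1Ey + 2 * c.p4y) + 384 * τ) :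
    0 ≤ 0 + 216 * τ + (-c.p3x) := by
  linear_combination
    (1 / 2) * h.toLin.p2_p3 + (1 / 4) * h.toLin.p2_z1Nv + (1 / 2) * h.toLin.p4_p3
    + (1 / 4) * h.toLin.p4_z1Ev + (1 / 2) * h.toLin.wRz1N + (1 / 2) * h.toLin.wRz1E
    + (1 / 2) * (pnIQ_p2y_p h e hτ fc) + (1 / 2) * (pnIQ_p4y_n h e hτ fc)

theorem pnIQ_p3y_p (h : Lin2 τ c) (e : CsQ c) (hτ : 0 ≤ τ)
    (fc : 0 ≤ -8 + (-2 * c.z1Ey + 2 * c.p4y) + 384 * τ) :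
    0 ≤ 1 + 234 * τ + (-c.p3y) := by
  linear_combination
    (1 / 3) * h.toLin.p2_p3 + (5 / 36) * h.toLin.p2_z1Nv + (2 / 45) * h.toLin.p2_eN1
    + (1 / 18) * h.toLin.p4_z3Sv + (8 / 15) * h.toLin.p4_hNv + (2 / 9) * h.toLin.p3_z3Wu
    + (2 / 9) * h.toLin.p3_k2Wv + (1 / 9) * h.toLin.z1N_k2N + (2 / 405) * h.toLin.z1N_eN1
    + (3 / 10) * h.toLin.z1N_eN2 + (44 / 135) * h.toLin.z1N_hNu + (2 / 9) * h.toLin.z3W_k2W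
    + (2 / 9) * h.toLin.k2N_eN1 + h.toLin.k2N_eN2 + (8 / 675) * h.toLin.eN1_hN
    + (4 / 15) * h.toLin.eN2_hN + (5 / 6) * h.toLin.wRz1N + (1 / 3) * h.toLin.wLz3W
    + (1 / 9) * h.toLin.wLz3S + (2 / 3) * h.toLin.wTk2N + (2 / 3) * h.toLin.wTk2W + (2 / 9) * h.c3
    + (19 / 36) * e.2.1 + (7 / 18) * (pnIQ_p4x_n h e hτ fc) + (3 / 10) * (pnIQ_p2y_p h e hτ fc)
    + (19 / 30) * (pnIQ_p4y_n h e hτ fc) + (7709 / 8100) * hτ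

theorem pnIQ_z1Nx_p (h : Lin2 τ c) (e : CsQ c) (hτ : 0 ≤ τ)
    (fc : 0 ≤ -8 + (-2 * c.z1Ey + 2 * c.p4y) + 384 * τ) :
    0 ≤ 0 + 0 * τ + (-c.z1Nx) := by
  linear_combination
    h.toLin.wRz1N

theorem pnIQ_z1Nx_n (h : Lin2 τ c) (e : CsQ c) (hτ : 0 ≤ τ)
    (fc : 0 ≤ -8 + (-2 * c.z1Ey + 2 * c.p4y) + 384 * τ) :
    0 ≤ 0 + 2 * τ + (c.z1Nx) := by
  linear_combination
    (1 / 2) * h.toLin.p2_z1Nv + (1 / 2) * h.toLin.p2_z3Wu + (1 / 4) * h.toLin.p4_z1Ev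
    + (1 / 4) * h.toLin.p4_z3Sv + (1 / 2) * h.toLin.wRz1E + h.toLin.wLz3W
    + (1 / 2) * h.toLin.wLz3S + (1 / 2) * h.c3 + (1 / 2) * e.2.1

theorem pnIQ_z1Ny_p (h : Lin2 τ c) (e : CsQ c) (hτ : 0 ≤ τ)
    (fc : 0 ≤ -8 + (-2 * c.z1Ey + 2 * c.p4y) + 384 * τ) :
    0 ≤ 1 + 1340 * τ + (-c.z1Ny) := by
  linear_combination
    (5048 / 2395) * h.toLin.p2_p3 + (2615 / 1437) * h.toLin.p2_z1Nv
    + (765 / 1916) * h.toLin.p2_z3Wv + (1501 / 2395) * h.toLin.p2_k3Wv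
    + (598 / 1437) * h.toLin.p2_eN1 + (51 / 958) * h.toLin.p3_z3Su
    + (1196 / 2395) * h.toLin.p3_k2Wv + (1440 / 479) * h.toLin.p3_gS
    + (61 / 958) * h.toLin.z1N_t1N + (1196 / 1437) * h.toLin.z1N_k2N
    + (598 / 4311) * h.toLin.z1N_eN1 + (1488 / 479) * h.toLin.z1E_t2E
    + (1632 / 479) * h.toLin.z3S_gSh + (61 / 479) * h.toLin.t1W_k3W
    + (2976 / 479) * h.toLin.t2S_k3S + (2392 / 1437) * h.toLin.k2N_eN1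
    + (1196 / 2395) * h.toLin.k2W_k3W + (3072 / 479) * h.toLin.k3S_gSh
    + (3985 / 958) * h.toLin.wRz1N + (765 / 958) * h.toLin.wLz3W + (408 / 479) * h.toLin.wLz3S
    + (61 / 958) * h.toLin.wTt1N + (61 / 958) * h.toLin.wTt1W + (1488 / 479) * h.toLin.wBt2S
    + (1488 / 479) * h.toLin.wBt2E + (598 / 479) * h.toLin.wTk2N + (598 / 479) * h.toLin.wTk2W
    + (720 / 479) * h.toLin.wLk3W + (720 / 479) * h.toLin.wLk3S + (51 / 958) * h.c3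
    + (3985 / 958) * e.2.1 + (744 / 479) * fc + (710 / 479) * (pnIQ_p2y_p h e hτ fc)
    + (1488 / 479) * (pnIQ_p4y_p h e hτ fc) + (238 / 479) * (pnIQ_p3x_p h e hτ fc)
    + (47989 / 86220) * hτ

theorem pnIQ_p4x_p (h : Lin2 τ c) (e : CsQ c) (hτ : 0 ≤ τ)
    (fc : 0 ≤ -8 + (-2 * c.z1Ey + 2 * c.p4y) + 384 * τ) :
    0 ≤ 0 + 1640 * τ + (-c.p4x) := by
  linear_combination
    h.toLin.p4_p1 + h.toLin.p1_z1Nu + h.toLin.wRz1N + (pnIQ_p4y_n h e hτ fc)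
    + (pnIQ_z1Ny_p h e hτ fc)

theorem pnIQ_z1Ey_p (h : Lin2 τ c) (e : CsQ c) (hτ : 0 ≤ τ)
    (fc : 0 ≤ -8 + (-2 * c.z1Ey + 2 * c.p4y) + 384 * τ) :
    0 ≤ (-3) + 324 * τ + (-c.z1Ey) := by
  linear_combination
    (1 / 2) * fc + (pnIQ_p4y_p h e hτ fc)

theorem pnIQ_p2x_n (h : Lin2 τ c) (e : CsQ c) (hτ : 0 ≤ τ)
    (fc : 0 ≤ -8 + (-2 * c.z1Ey + 2 * c.p4y) + 384 * τ) :
    0 ≤ 0 + 1641 * τ + (c.p2x) := by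
  linear_combination
    (1 / 2) * h.toLin.p2_z3Wv + (1 / 2) * h.toLin.p4_z3Sv + h.toLin.wLz3W + h.toLin.wLz3S
    + (pnIQ_p4x_p h e hτ fc)

theorem pnIQ_z1Ny_n (h : Lin2 τ c) (e : CsQ c) (hτ : 0 ≤ τ)
    (fc : 0 ≤ -8 + (-2 * c.z1Ey + 2 * c.p4y) + 384 * τ) :
    0 ≤ (-1) + 302 * τ + (c.z1Ny) := by
  linear_combination
    h.toLin.p4_p1 + h.toLin.p1_z1Nu + h.toLin.wRz1N + (pnIQ_p4x_n h e hτ fc)
    + (pnIQ_p4y_n h e hτ fc)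

theorem pnIQ_z3Wx_n (h : Lin2 τ c) (e : CsQ c) (hτ : 0 ≤ τ)
    (fc : 0 ≤ -8 + (-2 * c.z1Ey + 2 * c.p4y) + 384 * τ) :
    0 ≤ 0 + 0 * τ + (c.z3Wx) := by
  linear_combination
    h.toLin.wLz3W

theorem pnIQ_z3Wx_p (h : Lin2 τ c) (e : CsQ c) (hτ : 0 ≤ τ)
    (fc : 0 ≤ -8 + (-2 * c.z1Ey + 2 * c.p4y) + 384 * τ) :
    0 ≤ 0 + 822 * τ + (-c.z3Wx) := by
  linear_combination
    (1 / 4) * h.toLin.p2_z1Nv + (1 / 2) * h.toLin.p2_z3Wu + (1 / 4) * h.toLin.p4_z3Sv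
    + (1 / 2) * h.toLin.wRz1N + (1 / 2) * h.toLin.wLz3S + (1 / 2) * h.c3 + (1 / 2) * e.2.1
    + (1 / 2) * (pnIQ_p2x_p h e hτ fc) + (1 / 2) * (pnIQ_p4x_p h e hτ fc)

theorem pnIQ_z3Wy_n (h : Lin2 τ c) (e : CsQ c) (hτ : 0 ≤ τ)
    (fc : 0 ≤ -8 + (-2 * c.z1Ey + 2 * c.p4y) + 384 * τ) :
    0 ≤ (-1) + 1940 * τ + (c.z3Wy) := by
  linear_combination
    h.toLin.p4_p3 + h.toLin.p3_z3Wu + h.toLin.wLz3W + (pnIQ_p4y_n h e hτ fc)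
    + (pnIQ_p4x_p h e hτ fc)

theorem pnIQ_z3Sx_p (h : Lin2 τ c) (e : CsQ c) (hτ : 0 ≤ τ)
    (fc : 0 ≤ -8 + (-2 * c.z1Ey + 2 * c.p4y) + 384 * τ) :
    0 ≤ 0 + 1642 * τ + (-c.z3Sx) := by
  linear_combination
    (1 / 4) * h.toLin.p2_z1Nv + (1 / 4) * h.toLin.p2_z3Wv + (1 / 2) * h.toLin.p4_z3Su
    + (1 / 2) * h.toLin.wRz1N + (1 / 2) * h.toLin.wLz3W + (1 / 2) * h.c3 + (1 / 2) * e.2.1
    + (pnIQ_p4x_p h e hτ fc) + (1 / 2) * hτ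

theorem pnIQ_z3Sx_n (h : Lin2 τ c) (e : CsQ c) (hτ : 0 ≤ τ)
    (fc : 0 ≤ -8 + (-2 * c.z1Ey + 2 * c.p4y) + 384 * τ) :
    0 ≤ 0 + 0 * τ + (c.z3Sx) := by
  linear_combination
    h.toLin.wLz3S

theorem pnIQ_z3Sy_p (h : Lin2 τ c) (e : CsQ c) (hτ : 0 ≤ τ)
    (fc : 0 ≤ -8 + (-2 * c.z1Ey + 2 * c.p4y) + 384 * τ) :
    0 ≤ 1 + 451 * τ + (-c.z3Sy) := by
  linear_combination
    h.toLin.p3_z3Su + h.toLin.wLz3S + (pnIQ_p3x_p h e hτ fc) + (pnIQ_p3y_p h e hτ fc)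

theorem pnIQ_z1Ey_n (h : Lin2 τ c) (e : CsQ c) (hτ : 0 ≤ τ)
    (fc : 0 ≤ -8 + (-2 * c.z1Ey + 2 * c.p4y) + 384 * τ) :
    0 ≤ 3 + 3737 * τ + (c.z1Ey) := by
  linear_combination
    h.toLin.p2_z1Nv + h.toLin.z1E_t2E + h.toLin.z3S_t2S + 2 * h.toLin.wRz1N + h.toLin.wBt2S
    + h.toLin.wBt2E + h.c3 + 2 * e.2.1 + 2 * (pnIQ_p2x_n h e hτ fc) + (pnIQ_z3Sy_p h e hτ fc)

theorem pnIQ_z3Wy_p (h : Lin2 τ c) (e : CsQ c) (hτ : 0 ≤ τ)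
    (fc : 0 ≤ -8 + (-2 * c.z1Ey + 2 * c.p4y) + 384 * τ) :
    0 ≤ 1 + 3588 * τ + (-c.z3Wy) := by
  linear_combination
    h.toLin.p2_z1Nv + h.toLin.z1N_t1N + h.toLin.z3W_t1W + 2 * h.toLin.wRz1N + h.toLin.wTt1N
    + h.toLin.wTt1W + h.c3 + 2 * e.2.1 + 2 * (pnIQ_p2x_n h e hτ fc) + (pnIQ_z1Ny_n h e hτ fc)

theorem pnIQ_t2Sx_n (h : Lin2 τ c) (e : CsQ c) (hτ : 0 ≤ τ)
    (fc : 0 ≤ -8 + (-2 * c.z1Ey + 2 * c.p4y) + 384 * τ) :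
    0 ≤ 0 + 0 * τ + (c.t2Sx) := by
  linear_combination
    h.toLin.wLt2S

theorem pnIQ_z3Sy_n (h : Lin2 τ c) (e : CsQ c) (hτ : 0 ≤ τ)
    (fc : 0 ≤ -8 + (-2 * c.z1Ey + 2 * c.p4y) + 384 * τ) :
    0 ≤ (-1) + 3610 * τ + (c.z3Sy) := by
  linear_combination
    h.toLin.p2_z1Nv + h.toLin.z1E_t2E + h.toLin.z3S_t2S + 2 * h.toLin.wRz1N + h.toLin.wBt2S
    + h.toLin.wBt2E + h.c3 + 2 * e.2.1 + (pnIQ_z1Ey_p h e hτ fc) + 2 * (pnIQ_p2x_n h e hτ fc)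

theorem pnIQ_t2Sy_n (h : Lin2 τ c) (e : CsQ c) (hτ : 0 ≤ τ)
    (fc : 0 ≤ -8 + (-2 * c.z1Ey + 2 * c.p4y) + 384 * τ) :
    0 ≤ 1 + 0 * τ + (c.t2Sy) := by
  linear_combination
    h.toLin.wBt2S

theorem pnIQ_p3x_n (h : Lin2 τ c) (e : CsQ c) (hτ : 0 ≤ τ)
    (fc : 0 ≤ -8 + (-2 * c.z1Ey + 2 * c.p4y) + 384 * τ) :
    0 ≤ 0 + 3600 * τ + (c.p3x) := by
  linear_combination
    (1 / 2) * h.toLin.p3_z3Wu + (1 / 2) * h.toLin.p3_z3Su + (1 / 2) * h.toLin.wLz3W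
    + (1 / 2) * h.toLin.wLz3S + (1 / 2) * (pnIQ_z3Wy_p h e hτ fc)
    + (1 / 2) * (pnIQ_z3Sy_n h e hτ fc)

theorem pnIQ_t2Ey_n (h : Lin2 τ c) (e : CsQ c) (hτ : 0 ≤ τ)
    (fc : 0 ≤ -8 + (-2 * c.z1Ey + 2 * c.p4y) + 384 * τ) :
    0 ≤ 1 + 0 * τ + (c.t2Ey) := by
  linear_combination
    h.toLin.wBt2E

theorem pnIQ_p3y_n (h : Lin2 τ c) (e : CsQ c) (hτ : 0 ≤ τ)
    (fc : 0 ≤ -8 + (-2 * c.z1Ey + 2 * c.p4y) + 384 * τ) :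
    0 ≤ (-1) + 2775 * τ + (c.p3y) := by
  linear_combination
    (1 / 2) * h.toLin.p4_p3 + (1 / 2) * h.toLin.p3_z3Su + (1 / 2) * h.toLin.wLz3S
    + (1 / 2) * (pnIQ_p4y_n h e hτ fc) + (1 / 2) * (pnIQ_p4x_p h e hτ fc)
    + (1 / 2) * (pnIQ_z3Sy_n h e hτ fc)

theorem pnIQ_t2Sy_p (h : Lin2 τ c) (e : CsQ c) (hτ : 0 ≤ τ)
    (fc : 0 ≤ -8 + (-2 * c.z1Ey + 2 * c.p4y) + 384 * τ) :
    0 ≤ (-1) + 4061 * τ + (-c.t2Sy) := by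
  linear_combination
    h.toLin.p2_z1Nv + h.toLin.z1E_t2E + h.toLin.z3S_t2S + 2 * h.toLin.wRz1N + h.toLin.wBt2E + h.c3
    + 2 * e.2.1 + (pnIQ_z1Ey_p h e hτ fc) + 2 * (pnIQ_p2x_n h e hτ fc) + (pnIQ_z3Sy_p h e hτ fc)

theorem pnIQ_k2Ny_p (h : Lin2 τ c) (e : CsQ c) (hτ : 0 ≤ τ)
    (fc : 0 ≤ -8 + (-2 * c.z1Ey + 2 * c.p4y) + 384 * τ) :
    0 ≤ 1 + 0 * τ + (-c.k2Ny) := by
  linear_combination
    h.toLin.wTk2N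

theorem pnIQ_t2Ey_p (h : Lin2 τ c) (e : CsQ c) (hτ : 0 ≤ τ)
    (fc : 0 ≤ -8 + (-2 * c.z1Ey + 2 * c.p4y) + 384 * τ) :
    0 ≤ (-1) + 4061 * τ + (-c.t2Ey) := by
  linear_combination
    h.toLin.p2_z1Nv + h.toLin.z1E_t2E + h.toLin.z3S_t2S + 2 * h.toLin.wRz1N + h.toLin.wBt2S + h.c3
    + 2 * e.2.1 + (pnIQ_z1Ey_p h e hτ fc) + 2 * (pnIQ_p2x_n h e hτ fc) + (pnIQ_z3Sy_p h e hτ fc)

theorem pnIQ_k2Wx_p (h : Lin2 τ c) (e : CsQ c) (hτ : 0 ≤ τ)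
    (fc : 0 ≤ -8 + (-2 * c.z1Ey + 2 * c.p4y) + 384 * τ) :
    0 ≤ 0 + 1705 * τ + (-c.k2Wx) := by
  linear_combination
    (1 / 6) * h.toLin.p2_z1Nv + (1 / 3) * h.toLin.p2_eN1 + (3 / 4) * h.toLin.p2_eW1
    + (1 / 4) * h.toLin.p3_eW1 + (2 / 3) * h.toLin.z1N_k2N + (1 / 9) * h.toLin.z1N_eN1
    + (4 / 3) * h.toLin.k2N_eN1 + 4 * h.toLin.k2W_eW1 + (3 / 4) * h.toLin.wRz1N + h.toLin.wTk2N
    + h.toLin.wTk2W + (3 / 4) * e.2.1 + (3 / 16) * (pnIQ_p2x_p h e hτ fc)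
    + (13 / 16) * (pnIQ_p2y_n h e hτ fc) + (1 / 16) * (pnIQ_p3x_p h e hτ fc)
    + (3 / 4) * (pnIQ_z1Ny_n h e hτ fc) + (7 / 16) * (pnIQ_p3y_n h e hτ fc) + (29 / 144) * hτ

theorem pnIQ_k2Nx_n (h : Lin2 τ c) (e : CsQ c) (hτ : 0 ≤ τ)
    (fc : 0 ≤ -8 + (-2 * c.z1Ey + 2 * c.p4y) + 384 * τ) :
    0 ≤ 0 + 5419 * τ + (c.k2Nx) := by
  linear_combination
    (1 / 6) * h.toLin.p2_p3 + (1 / 6) * h.toLin.p2_z1Nv + (127 / 135) * h.toLin.p2_eN1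
    + (1 / 12) * h.toLin.p4_z3Sv + (8 / 45) * h.toLin.p4_hNv + (1 / 3) * h.toLin.p3_k2Wv
    + (317 / 1215) * h.toLin.z1N_eN1 + (56 / 405) * h.toLin.z1N_hNu + (1 / 3) * h.toLin.z3W_k2W
    + 4 * h.toLin.k2N_eN1 + (128 / 2025) * h.toLin.eN1_hN + (73 / 108) * h.toLin.wRz1N
    + (1 / 6) * h.toLin.wLz3W + (1 / 6) * h.toLin.wLz3S + h.toLin.wTk2N + h.toLin.wTk2W
    + (1 / 3) * h.c3 + (59 / 108) * e.2.1 + (19 / 90) * (pnIQ_p4y_n h e hτ fc)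
    + (97 / 180) * (pnIQ_p2y_n h e hτ fc) + (145 / 108) * (pnIQ_p2x_n h e hτ fc)
    + (1 / 12) * (pnIQ_z1Ny_n h e hτ fc) + (1 / 3) * (pnIQ_z3Wy_n h e hτ fc)
    + (5 / 6) * (pnIQ_p3y_n h e hτ fc) + (10589 / 24300) * hτ

theorem pnIQ_k2Wy_p (h : Lin2 τ c) (e : CsQ c) (hτ : 0 ≤ τ)
    (fc : 0 ≤ -8 + (-2 * c.z1Ey + 2 * c.p4y) + 384 * τ) :
    0 ≤ 1 + 0 * τ + (-c.k2Wy) := by
  linear_combination
    h.toLin.wTk2W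

theorem pnIQ_t2Sx_p (h : Lin2 τ c) (e : CsQ c) (hτ : 0 ≤ τ)
    (fc : 0 ≤ -8 + (-2 * c.z1Ey + 2 * c.p4y) + 384 * τ) :
    0 ≤ 0 + 8394 * τ + (-c.t2Sx) := by
  linear_combination
    (1 / 4) * h.toLin.p2_p3 + (1 / 2) * h.toLin.p2_z1Nv + (1 / 2) * h.toLin.p4_eS2
    + (1 / 2) * h.toLin.p3_eS2 + h.toLin.z1E_t2E + 2 * h.toLin.t2N_k2N + 2 * h.toLin.t2S_eS2
    + h.toLin.wRz1N + h.toLin.wRt2N + h.toLin.wBt2S + h.toLin.wBt2E + e.2.1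
    + (1 / 4) * (pnIQ_p2y_p h e hτ fc) + (1 / 4) * (pnIQ_p4y_p h e hτ fc)
    + (1 / 2) * (pnIQ_p3y_p h e hτ fc) + (3 / 4) * (pnIQ_p4x_p h e hτ fc)
    + (pnIQ_z1Ey_p h e hτ fc) + (3 / 4) * (pnIQ_p2x_n h e hτ fc) + (pnIQ_k2Nx_n h e hτ fc)
    + (3 / 4) * hτ

theorem pnIQ_k2Ny_n (h : Lin2 τ c) (e : CsQ c) (hτ : 0 ≤ τ)
    (fc : 0 ≤ -8 + (-2 * c.z1Ey + 2 * c.p4y) + 384 * τ) :
    0 ≤ (-1) + 3074 * τ + (c.k2Ny) := by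
  linear_combination
    (2 / 27) * h.toLin.p2_z1Nv + (29 / 135) * h.toLin.p2_eN1 + (1 / 6) * h.toLin.p4_p3
    + (1 / 12) * h.toLin.p4_z3Sv + (16 / 45) * h.toLin.p4_hNv + (1 / 3) * h.toLin.p3_k2Wv
    + (214 / 783) * h.toLin.z1N_k2N + (29 / 405) * h.toLin.z1N_eN1 + (2 / 15) * h.toLin.z1N_eN2
    + (128 / 87) * h.toLin.z1N_gNh + (1 / 3) * h.toLin.z3W_k2W + (116 / 135) * h.toLin.k2N_eN1
    + (4 / 9) * h.toLin.k2N_eN2 + (128 / 435) * h.toLin.k2N_gNh + (16 / 135) * h.toLin.eN2_hN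
    + (256 / 795) * h.toLin.gN_hN + (3 / 4) * h.toLin.wRz1N + (1 / 6) * h.toLin.wLz3W
    + (1 / 6) * h.toLin.wLz3S + h.toLin.wTk2W + (1 / 3) * h.c3 + (3 / 4) * e.2.1
    + (53 / 90) * (pnIQ_p4y_n h e hτ fc) + (29 / 180) * (pnIQ_p2y_n h e hτ fc)
    + (5 / 12) * (pnIQ_p2x_n h e hτ fc) + (5 / 12) * (pnIQ_z1Ny_n h e hτ fc)
    + (1 / 3) * (pnIQ_z3Wy_n h e hτ fc) + (1 / 2) * (pnIQ_p3y_n h e hτ fc)
    + (1759009 / 2489940) * hτ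

theorem pnIQ_k3Wx_n (h : Lin2 τ c) (e : CsQ c) (hτ : 0 ≤ τ)
    (fc : 0 ≤ -8 + (-2 * c.z1Ey + 2 * c.p4y) + 384 * τ) :
    0 ≤ 0 + 0 * τ + (c.k3Wx) := by
  linear_combination
    h.toLin.wLk3W

theorem pnIQ_k3Wy_p (h : Lin2 τ c) (e : CsQ c) (hτ : 0 ≤ τ)
    (fc : 0 ≤ -8 + (-2 * c.z1Ey + 2 * c.p4y) + 384 * τ) :
    0 ≤ 1 + 1947 * τ + (-c.k3Wy) := by
  linear_combination
    (1 / 2) * h.toLin.p2_z1Nv + h.toLin.z1N_t1N + 2 * h.toLin.t1W_k3W + h.toLin.wRz1N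
    + h.toLin.wTt1N + h.toLin.wTt1W + e.2.1 + (pnIQ_p2x_n h e hτ fc) + (pnIQ_z1Ny_n h e hτ fc)
    + (1 / 2) * hτ

theorem pnIQ_k3Wy_n (h : Lin2 τ c) (e : CsQ c) (hτ : 0 ≤ τ)
    (fc : 0 ≤ -8 + (-2 * c.z1Ey + 2 * c.p4y) + 384 * τ) :
    0 ≤ (-1) + 3585 * τ + (c.k3Wy) := by
  linear_combination
    (1 / 2) * h.toLin.p2_z1Nv + 2 * h.toLin.z3W_k3W + h.toLin.wRz1N + h.c3 + e.2.1
    + (pnIQ_p2x_n h e hτ fc) + (pnIQ_z3Wy_n h e hτ fc) + (1 / 2) * hτ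

theorem pnIQ_k3Wx_p (h : Lin2 τ c) (e : CsQ c) (hτ : 0 ≤ τ)
    (fc : 0 ≤ -8 + (-2 * c.z1Ey + 2 * c.p4y) + 384 * τ) :
    0 ≤ 0 + 2211 * τ + (-c.k3Wx) := by
  linear_combination
    (1 / 8) * h.toLin.p2_p4 + (1 / 8) * h.toLin.p2_z1Nv + (1 / 2) * h.toLin.p2_k3Wv
    + (1 / 2) * h.toLin.p4_k3Sv + (1 / 4) * h.toLin.z1E_t2E + (1 / 2) * h.toLin.t2S_k3S
    + (1 / 4) * h.toLin.wRz1N + (1 / 4) * h.toLin.wBt2S + (1 / 4) * h.toLin.wBt2E + h.toLin.wLk3S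
    + (1 / 4) * e.2.1 + (3 / 4) * (pnIQ_p2x_p h e hτ fc) + (pnIQ_p4x_p h e hτ fc)
    + (1 / 4) * (pnIQ_z1Ey_p h e hτ fc) + (1 / 4) * (pnIQ_k3Wy_p h e hτ fc) + (1 / 2) * hτ

theorem pnIQ_k3Sx_n (h : Lin2 τ c) (e : CsQ c) (hτ : 0 ≤ τ)
    (fc : 0 ≤ -8 + (-2 * c.z1Ey + 2 * c.p4y) + 384 * τ) :
    0 ≤ 0 + 0 * τ + (c.k3Sx) := by
  linear_combination
    h.toLin.wLk3S

theorem pnIQ_k3Sx_p (h : Lin2 τ c) (e : CsQ c) (hτ : 0 ≤ τ)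
    (fc : 0 ≤ -8 + (-2 * c.z1Ey + 2 * c.p4y) + 384 * τ) :
    0 ≤ 0 + 2211 * τ + (-c.k3Sx) := by
  linear_combination
    (1 / 8) * h.toLin.p2_p4 + (1 / 8) * h.toLin.p2_z1Nv + (1 / 2) * h.toLin.p2_k3Wv
    + (1 / 2) * h.toLin.p4_k3Sv + (1 / 4) * h.toLin.z1E_t2E + (1 / 2) * h.toLin.t2S_k3S
    + (1 / 4) * h.toLin.wRz1N + (1 / 4) * h.toLin.wBt2S + (1 / 4) * h.toLin.wBt2E + h.toLin.wLk3W
    + (1 / 4) * e.2.1 + (3 / 4) * (pnIQ_p2x_p h e hτ fc) + (pnIQ_p4x_p h e hτ fc)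
    + (1 / 4) * (pnIQ_z1Ey_p h e hτ fc) + (1 / 4) * (pnIQ_k3Wy_p h e hτ fc) + (1 / 2) * hτ

theorem pnIQ_k3Sy_n (h : Lin2 τ c) (e : CsQ c) (hτ : 0 ≤ τ)
    (fc : 0 ≤ -8 + (-2 * c.z1Ey + 2 * c.p4y) + 384 * τ) :
    0 ≤ (-1) + 1969 * τ + (c.k3Sy) := by
  linear_combination
    (1 / 2) * h.toLin.p2_z1Nv + h.toLin.z1E_t2E + 2 * h.toLin.t2S_k3S + h.toLin.wRz1N
    + h.toLin.wBt2S + h.toLin.wBt2E + e.2.1 + (pnIQ_z1Ey_p h e hτ fc) + (pnIQ_p2x_n h e hτ fc)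
    + (1 / 2) * hτ

theorem pnIQ_k3Sy_p (h : Lin2 τ c) (e : CsQ c) (hτ : 0 ≤ τ)
    (fc : 0 ≤ -8 + (-2 * c.z1Ey + 2 * c.p4y) + 384 * τ) :
    0 ≤ 1 + 427 * τ + (-c.k3Sy) := by
  linear_combination
    (49 / 163) * h.toLin.p2_p3 + (49 / 163) * h.toLin.p2_z1Nv + (17 / 326) * h.toLin.p2_z3Wv
    + (16 / 163) * h.toLin.p2_k3Wv + (64 / 163) * h.toLin.p3_gS + (2906 / 2445) * h.toLin.z3S_k3S
    + (1088 / 2445) * h.toLin.z3S_gSh + (2048 / 2445) * h.toLin.k3S_gSh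
    + (98 / 163) * h.toLin.wRz1N + (17 / 163) * h.toLin.wLz3W + (17 / 163) * h.toLin.wLz3S
    + (32 / 163) * h.toLin.wLk3W + (32 / 163) * h.toLin.wLk3S + (98 / 163) * h.c3
    + (98 / 163) * e.2.1 + (41 / 163) * (pnIQ_p2y_p h e hτ fc)
    + (16 / 163) * (pnIQ_p3y_p h e hτ fc) + (98 / 163) * (pnIQ_z3Sy_p h e hτ fc)
    + (8 / 163) * (pnIQ_k3Wy_p h e hτ fc) + (247 / 1630) * hτ

theorem pnIQ_k2Wx_n (h : Lin2 τ c) (e : CsQ c) (hτ : 0 ≤ τ)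
    (fc : 0 ≤ -8 + (-2 * c.z1Ey + 2 * c.p4y) + 384 * τ) :
    0 ≤ 0 + 4855 * τ + (c.k2Wx) := by
  linear_combination
    (1 / 15) * h.toLin.p2_eN1 + (1 / 2) * h.toLin.p4_k3Sv + (4 / 5) * h.toLin.p4_hNv
    + (28 / 261) * h.toLin.z1N_k2N + (1 / 45) * h.toLin.z1N_eN1 + (7 / 15) * h.toLin.z1N_eN2
    + (64 / 261) * h.toLin.z1N_gNh + (4 / 9) * h.toLin.z1N_hNu + (4 / 15) * h.toLin.k2N_eN1
    + (14 / 9) * h.toLin.k2N_eN2 + (64 / 1305) * h.toLin.k2N_gNh + 2 * h.toLin.k2W_k3W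
    + (56 / 135) * h.toLin.eN2_hN + (128 / 2385) * h.toLin.gN_hN + (5 / 6) * h.toLin.wRz1N
    + h.toLin.wTk2N + h.toLin.wTk2W + h.toLin.wLk3W + h.toLin.wLk3S + (5 / 12) * e.2.1
    + (7 / 10) * (pnIQ_p4y_n h e hτ fc) + (1 / 20) * (pnIQ_p2y_n h e hτ fc)
    + (1 / 4) * (pnIQ_p4x_p h e hτ fc) + (1 / 12) * (pnIQ_p2x_n h e hτ fc)
    + (pnIQ_k3Wy_n h e hτ fc) + (1 / 4) * (pnIQ_k3Sy_n h e hτ fc) + (379933 / 829980) * hτ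

theorem pnIQ_k2Wy_n (h : Lin2 τ c) (e : CsQ c) (hτ : 0 ≤ τ)
    (fc : 0 ≤ -8 + (-2 * c.z1Ey + 2 * c.p4y) + 384 * τ) :
    0 ≤ (-1) + 4321 * τ + (c.k2Wy) := by
  linear_combination
    (1 / 28) * h.toLin.p2_p3 + (9 / 35) * h.toLin.p2_eN1 + (3 / 14) * h.toLin.p4_p3
    + (8 / 35) * h.toLin.p4_hNv + (1 / 2) * h.toLin.p3_k2Wv + (12 / 29) * h.toLin.z1N_k2N
    + (3 / 35) * h.toLin.z1N_eN1 + (3 / 35) * h.toLin.z1N_eN2 + (192 / 203) * h.toLin.z1N_gNh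
    + (36 / 35) * h.toLin.k2N_eN1 + (2 / 7) * h.toLin.k2N_eN2 + (192 / 1015) * h.toLin.k2N_gNh
    + (8 / 105) * h.toLin.eN2_hN + (384 / 1855) * h.toLin.gN_hN + (15 / 28) * h.toLin.wRz1N
    + h.toLin.wTk2N + (15 / 28) * e.2.1 + (17 / 35) * (pnIQ_p4y_n h e hτ fc)
    + (11 / 70) * (pnIQ_p2y_n h e hτ fc) + (2 / 7) * (pnIQ_p2x_n h e hτ fc)
    + (15 / 28) * (pnIQ_z1Ny_n h e hτ fc) + (23 / 28) * (pnIQ_p3y_n h e hτ fc)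
    + (1 / 4) * (pnIQ_k2Wx_n h e hτ fc) + (555739 / 645540) * hτ

theorem pnIQ_eN1y_n (h : Lin2 τ c) (e : CsQ c) (hτ : 0 ≤ τ)
    (fc : 0 ≤ -8 + (-2 * c.z1Ey + 2 * c.p4y) + 384 * τ) :
    0 ≤ (-1) + 1328 * τ + (c.eN1y) := by
  linear_combination
    (1 / 2) * h.toLin.p2_eN1 + (5 / 6) * h.toLin.z1N_eN1 + (5 / 8) * h.toLin.wRz1N
    + (5 / 8) * e.2.1 + (3 / 8) * (pnIQ_p2y_n h e hτ fc) + (5 / 8) * (pnIQ_p2x_n h e hτ fc)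
    + (5 / 8) * (pnIQ_z1Ny_n h e hτ fc) + (1 / 6) * hτ

theorem pnIQ_s1_p (h : Lin2 τ c) (e : CsQ c) (hτ : 0 ≤ τ)
    (fc : 0 ≤ -8 + (-2 * c.z1Ey + 2 * c.p4y) + 384 * τ) :
    0 ≤ 0 + 1642 * τ + (-c.s1) := by
  linear_combination
    (1 / 2) * h.toLin.p2_z1Nv + h.toLin.wRz1N + e.2.1 + (pnIQ_p2x_n h e hτ fc) + (1 / 2) * hτ

theorem pnIQ_s1_n (h : Lin2 τ c) (e : CsQ c) (hτ : 0 ≤ τ)
    (fc : 0 ≤ -8 + (-2 * c.z1Ey + 2 * c.p4y) + 384 * τ) :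
    0 ≤ 0 + 0 * τ + (c.s1) := by
  linear_combination
    e.2.2

theorem pnIQ_h1_p (h : Lin2 τ c) (e : CsQ c) (hτ : 0 ≤ τ)
    (fc : 0 ≤ -8 + (-2 * c.z1Ey + 2 * c.p4y) + 384 * τ) :
    0 ≤ 0 + 0 * τ + (-c.h1) := by
  linear_combination
    e.2.1 + e.2.2

theorem pnIQ_h1_n (h : Lin2 τ c) (e : CsQ c) (hτ : 0 ≤ τ)
    (fc : 0 ≤ -8 + (-2 * c.z1Ey + 2 * c.p4y) + 384 * τ) :
    0 ≤ 0 + 1642 * τ + (c.h1) := by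
  linear_combination
    e.1 + (pnIQ_s1_p h e hτ fc)

theorem pnIQ_s3_p (h : Lin2 τ c) (e : CsQ c) (hτ : 0 ≤ τ)
    (fc : 0 ≤ -8 + (-2 * c.z1Ey + 2 * c.p4y) + 384 * τ) :
    0 ≤ 0 + 1643 * τ + (-c.s3) := by
  linear_combination
    h.c3 + (pnIQ_s1_p h e hτ fc)

theorem pnIQ_s3_n (h : Lin2 τ c) (e : CsQ c) (hτ : 0 ≤ τ)
    (fc : 0 ≤ -8 + (-2 * c.z1Ey + 2 * c.p4y) + 384 * τ) :
    0 ≤ 0 + 1 * τ + (c.s3) := by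
  linear_combination
    h.c4 + e.2.2

theorem pnIQ_h3_p (h : Lin2 τ c) (e : CsQ c) (hτ : 0 ≤ τ)
    (fc : 0 ≤ -8 + (-2 * c.z1Ey + 2 * c.p4y) + 384 * τ) :
    0 ≤ 0 + 1641 * τ + (-c.h3) := by
  linear_combination
    (1 / 2) * h.toLin.p4_z3Sv + h.toLin.wLz3S + (pnIQ_p4x_p h e hτ fc) + (1 / 2) * hτ

theorem pnIQ_h3_n (h : Lin2 τ c) (e : CsQ c) (hτ : 0 ≤ τ)
    (fc : 0 ≤ -8 + (-2 * c.z1Ey + 2 * c.p4y) + 384 * τ) :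
    0 ≤ 0 + 2 * τ + (c.h3) := by
  linear_combination
    (1 / 2) * h.toLin.p2_z3Wv + h.toLin.wLz3W + (pnIQ_p2x_p h e hτ fc) + (1 / 2) * hτ

theorem pnIQ_t2x_p (h : Lin2 τ c) (e : CsQ c) (hτ : 0 ≤ τ)
    (fc : 0 ≤ -8 + (-2 * c.z1Ey + 2 * c.p4y) + 384 * τ) :
    0 ≤ 2 + 429 * τ + (-c.t2x) := by
  linear_combination
    2 * h.toLin.t2S_k3S + h.toLin.wBt2S + (pnIQ_k3Sy_p h e hτ fc)

theorem pnIQ_t2x_n (h : Lin2 τ c) (e : CsQ c) (hτ : 0 ≤ τ)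
    (fc : 0 ≤ -8 + (-2 * c.z1Ey + 2 * c.p4y) + 384 * τ) :
    0 ≤ (-2) + 1967 * τ + (c.t2x) := by
  linear_combination
    h.toLin.z1E_t2E + h.toLin.wBt2E + (pnIQ_z1Ey_p h e hτ fc) + (pnIQ_s1_p h e hτ fc)

theorem pnIQ_t2y_p (h : Lin2 τ c) (e : CsQ c) (hτ : 0 ≤ τ)
    (fc : 0 ≤ -8 + (-2 * c.z1Ey + 2 * c.p4y) + 384 * τ) :
    0 ≤ 0 + 3463 * τ + (-c.t2y) := by
  linear_combination
    (1 / 2) * h.toLin.p4_eS2 + (1 / 2) * h.toLin.p3_eS2 + 2 * h.toLin.t2S_eS2 + h.toLin.wLt2S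
    + h.toLin.wBt2S + (1 / 4) * (pnIQ_p4y_p h e hτ fc) + (1 / 4) * (pnIQ_p3x_p h e hτ fc)
    + (3 / 4) * (pnIQ_p3y_p h e hτ fc) + (3 / 4) * (pnIQ_p4x_p h e hτ fc) + (pnIQ_t2x_n h e hτ fc)
    + (1 / 2) * hτ

theorem pnIQ_k2Nx_p (h : Lin2 τ c) (e : CsQ c) (hτ : 0 ≤ τ)
    (fc : 0 ≤ -8 + (-2 * c.z1Ey + 2 * c.p4y) + 384 * τ) :
    0 ≤ 0 + 3465 * τ + (-c.k2Nx) := by
  linear_combination
    2 * h.toLin.t2N_k2N + h.toLin.wRt2N + (pnIQ_t2y_p h e hτ fc)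

theorem pnIQ_t2y_n (h : Lin2 τ c) (e : CsQ c) (hτ : 0 ≤ τ)
    (fc : 0 ≤ -8 + (-2 * c.z1Ey + 2 * c.p4y) + 384 * τ) :
    0 ≤ 0 + 5421 * τ + (c.t2y) := by
  linear_combination
    2 * h.toLin.t2N_k2N + h.toLin.wRt2N + (pnIQ_k2Nx_n h e hτ fc)

theorem pnIQ_k2_p (h : Lin2 τ c) (e : CsQ c) (hτ : 0 ≤ τ)
    (fc : 0 ≤ -8 + (-2 * c.z1Ey + 2 * c.p4y) + 384 * τ) :
    0 ≤ 0 + 4044 * τ + (-c.k2) := by
  linear_combination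
    (1 / 2) * h.toLin.p3_k2Wv + h.toLin.wTk2W + (1 / 4) * (pnIQ_p3x_p h e hτ fc)
    + (pnIQ_p3y_n h e hτ fc) + (1 / 4) * (pnIQ_k2Wx_n h e hτ fc) + (3 / 4) * hτ

theorem pnIQ_k3_p (h : Lin2 τ c) (e : CsQ c) (hτ : 0 ≤ τ)
    (fc : 0 ≤ -8 + (-2 * c.z1Ey + 2 * c.p4y) + 384 * τ) :
    0 ≤ 0 + 2166 * τ + (-c.k3) := by
  linear_combination
    (1 / 2) * h.toLin.p4_k3Sv + h.toLin.wLk3S + (1 / 4) * (pnIQ_p4y_p h e hτ fc)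
    + (pnIQ_p4x_p h e hτ fc) + (1 / 4) * (pnIQ_k3Sy_n h e hτ fc) + (1 / 4) * hτ

theorem pnIQ_k3_n (h : Lin2 τ c) (e : CsQ c) (hτ : 0 ≤ τ)
    (fc : 0 ≤ -8 + (-2 * c.z1Ey + 2 * c.p4y) + 384 * τ) :
    0 ≤ 0 + 563 * τ + (c.k3) := by
  linear_combination
    (1 / 2) * h.toLin.p2_k3Wv + h.toLin.wLk3W + (pnIQ_p2x_p h e hτ fc)
    + (1 / 4) * (pnIQ_p2y_n h e hτ fc) + (1 / 4) * (pnIQ_k3Wy_p h e hτ fc)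

theorem pnIQ_eN1x_n (h : Lin2 τ c) (e : CsQ c) (hτ : 0 ≤ τ)
    (fc : 0 ≤ -8 + (-2 * c.z1Ey + 2 * c.p4y) + 384 * τ) :
    0 ≤ 0 + 15823 * τ + (c.eN1x) := by
  linear_combination
    2 * h.toLin.p2_eN1 + 6 * h.toLin.k2N_eN1 + (3 / 2) * h.toLin.wTk2N
    + (3 / 2) * (pnIQ_p2y_n h e hτ fc) + (5 / 2) * (pnIQ_p2x_n h e hτ fc)
    + (3 / 2) * (pnIQ_k2Nx_p h e hτ fc) + (3 / 2) * (pnIQ_k2_p h e hτ fc) + (1 / 2) * hτ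

theorem pnIQ_eN1y_p (h : Lin2 τ c) (e : CsQ c) (hτ : 0 ≤ τ)
    (fc : 0 ≤ -8 + (-2 * c.z1Ey + 2 * c.p4y) + 384 * τ) :
    0 ≤ 1 + 23336 * τ + (-c.eN1y) := by
  linear_combination
    4 * h.toLin.k2N_eN1 + h.toLin.wTk2N + (pnIQ_k2Nx_p h e hτ fc) + (pnIQ_k2_p h e hτ fc)
    + (pnIQ_eN1x_n h e hτ fc)

theorem pnIQ_gNu_p (h : Lin2 τ c) (e : CsQ c) (hτ : 0 ≤ τ)
    (fc : 0 ≤ -8 + (-2 * c.z1Ey + 2 * c.p4y) + 384 * τ) :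
    0 ≤ (1 / 2) + 3371 * τ + (-c.gNu) := by
  linear_combination
    (46 / 223) * h.toLin.p2_gN + (114 / 223) * h.toLin.k2N_gNh + (3591 / 7136) * h.toLin.wTk2N
    + (23 / 7136) * (pnIQ_p2y_n h e hτ fc) + (2599 / 7136) * (pnIQ_p2x_n h e hτ fc)
    + (969 / 7136) * (pnIQ_k2Nx_n h e hτ fc) + (3591 / 7136) * (pnIQ_k2_p h e hτ fc)
    + (5485 / 7136) * hτ

theorem pnIQ_eN1x_p (h : Lin2 τ c) (e : CsQ c) (hτ : 0 ≤ τ)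
    (fc : 0 ≤ -8 + (-2 * c.z1Ey + 2 * c.p4y) + 384 * τ) :
    0 ≤ 0 + 3909 * τ + (-c.eN1x) := by
  linear_combination
    (2 / 3) * h.toLin.z1N_eN1 + 2 * h.toLin.k2N_eN1 + (1 / 2) * h.toLin.wRz1N
    + (1 / 2) * h.toLin.wTk2N + (1 / 2) * e.2.1 + (1 / 2) * (pnIQ_z1Ny_n h e hτ fc)
    + (1 / 2) * (pnIQ_k2Nx_p h e hτ fc) + (1 / 2) * (pnIQ_k2_p h e hτ fc) + (5 / 6) * hτ

theorem pnIQ_gNv_n (h : Lin2 τ c) (e : CsQ c) (hτ : 0 ≤ τ)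
    (fc : 0 ≤ -8 + (-2 * c.z1Ey + 2 * c.p4y) + 384 * τ) :
    0 ≤ (1 / 2) + 3007 * τ + (c.gNv) := by
  linear_combination
    (80 / 29) * h.toLin.z1N_gNu + (16 / 29) * h.toLin.k2N_gNh + (75 / 116) * h.toLin.wRz1N
    + (63 / 116) * h.toLin.wTk2N + (10 / 29) * e.2.1 + (5 / 116) * (pnIQ_z1Ny_n h e hτ fc)
    + (17 / 116) * (pnIQ_k2Nx_n h e hτ fc) + (63 / 116) * (pnIQ_k2_p h e hτ fc) + (23 / 116) * hτ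

theorem pnIQ_gSu_p (h : Lin2 τ c) (e : CsQ c) (hτ : 0 ≤ τ)
    (fc : 0 ≤ -8 + (-2 * c.z1Ey + 2 * c.p4y) + 384 * τ) :
    0 ≤ (-1 / 2) + 2666 * τ + (-c.gSu) := by
  linear_combination
    (13 / 37) * h.toLin.p4_gS + (19 / 37) * h.toLin.t2S_gSh + (285 / 2368) * h.toLin.wLt2S
    + (1197 / 2368) * h.toLin.wBt2S + (13 / 2368) * (pnIQ_p4y_p h e hτ fc)
    + (1469 / 2368) * (pnIQ_p4x_p h e hτ fc) + (1197 / 2368) * (pnIQ_t2x_n h e hτ fc)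
    + (285 / 2368) * (pnIQ_t2y_n h e hτ fc) + (85 / 296) * hτ

theorem pnIQ_gSv_p (h : Lin2 τ c) (e : CsQ c) (hτ : 0 ≤ τ)
    (fc : 0 ≤ -8 + (-2 * c.z1Ey + 2 * c.p4y) + 384 * τ) :
    0 ≤ (1 / 2) + 402 * τ + (-c.gSv) := by
  linear_combination
    (4 / 57) * h.toLin.p4_gS + (28 / 57) * h.toLin.p3_gS + (1 / 912) * (pnIQ_p4y_p h e hτ fc)
    + (343 / 912) * (pnIQ_p3x_p h e hτ fc) + (455 / 912) * (pnIQ_p3y_p h e hτ fc)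
    + (113 / 912) * (pnIQ_p4x_p h e hτ fc) + (17 / 152) * hτ

theorem pnIQ_gSu_n (h : Lin2 τ c) (e : CsQ c) (hτ : 0 ≤ τ)
    (fc : 0 ≤ -8 + (-2 * c.z1Ey + 2 * c.p4y) + 384 * τ) :
    0 ≤ (1 / 2) + 299 * τ + (c.gSu) := by
  linear_combination
    (7 / 16) * h.toLin.p3_gS + (57 / 16) * h.toLin.z3S_gSh + (855 / 1024) * h.toLin.wLz3S
    + (343 / 1024) * (pnIQ_p3x_p h e hτ fc) + (455 / 1024) * (pnIQ_p3y_p h e hτ fc)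
    + (57 / 1024) * (pnIQ_z3Sy_p h e hτ fc) + (57 / 1024) * (pnIQ_s3_p h e hτ fc)
    + (855 / 1024) * (pnIQ_h3_n h e hτ fc) + (227 / 512) * hτ

theorem pnIQ_gSv_n (h : Lin2 τ c) (e : CsQ c) (hτ : 0 ≤ τ)
    (fc : 0 ≤ -8 + (-2 * c.z1Ey + 2 * c.p4y) + 384 * τ) :
    0 ≤ (-1 / 2) + 1616 * τ + (c.gSv) := by
  linear_combination
    (32 / 23) * h.toLin.k3S_gSh + (15 / 46) * h.toLin.wLk3S + (31 / 46) * (pnIQ_k3Sy_n h e hτ fc)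
    + (15 / 46) * (pnIQ_k3_n h e hτ fc) + (8 / 23) * (pnIQ_gSu_n h e hτ fc) + (2 / 23) * hτ

theorem pnIQ_hNu_p (h : Lin2 τ c) (e : CsQ c) (hτ : 0 ≤ τ)
    (fc : 0 ≤ -8 + (-2 * c.z1Ey + 2 * c.p4y) + 384 * τ) :
    0 ≤ (1 / 2) + 992 * τ + (-c.hNu) := by
  linear_combination
    (15 / 26) * h.toLin.p2_hN + (1 / 26) * h.toLin.z1N_hNu + (17 / 416) * h.toLin.wRz1N
    + (1 / 208) * e.2.1 + (15 / 32) * (pnIQ_p2y_p h e hτ fc) + (1 / 32) * (pnIQ_z1Ny_p h e hτ fc)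
    + (225 / 416) * (pnIQ_p2x_n h e hτ fc) + (113 / 208) * hτ

theorem pnIQ_hNv_p (h : Lin2 τ c) (e : CsQ c) (hτ : 0 ≤ τ)
    (fc : 0 ≤ -8 + (-2 * c.z1Ey + 2 * c.p4y) + 384 * τ) :
    0 ≤ (-1 / 2) + 285 * τ + (-c.hNv) := by
  linear_combination
    (8 / 17) * h.toLin.p4_hNv + (15 / 34) * (pnIQ_p4x_n h e hτ fc)
    + (19 / 34) * (pnIQ_p4y_n h e hτ fc) + (2 / 17) * (pnIQ_hNu_p h e hτ fc) + (7 / 17) * hτ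

theorem pnIQ_gNv_p (h : Lin2 τ c) (e : CsQ c) (hτ : 0 ≤ τ)
    (fc : 0 ≤ -8 + (-2 * c.z1Ey + 2 * c.p4y) + 384 * τ) :
    0 ≤ (-1 / 2) + 286 * τ + (-c.gNv) := by
  linear_combination
    (32 / 53) * h.toLin.gN_hN + (pnIQ_hNv_p h e hτ fc) + (21 / 53) * hτ

theorem pnIQ_gNu_n (h : Lin2 τ c) (e : CsQ c) (hτ : 0 ≤ τ)
    (fc : 0 ≤ -8 + (-2 * c.z1Ey + 2 * c.p4y) + 384 * τ) :
    0 ≤ (-1 / 2) + 274 * τ + (c.gNu) := by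
  linear_combination
    4 * h.toLin.z1N_gNu + (15 / 16) * h.toLin.wRz1N + (1 / 2) * e.2.1
    + (1 / 16) * (pnIQ_z1Ny_n h e hτ fc) + (7 / 8) * (pnIQ_gNv_p h e hτ fc) + (7 / 8) * hτ

theorem pnIQ_hNv_n (h : Lin2 τ c) (e : CsQ c) (hτ : 0 ≤ τ)
    (fc : 0 ≤ -8 + (-2 * c.z1Ey + 2 * c.p4y) + 384 * τ) :
    0 ≤ (1 / 2) + 714 * τ + (c.hNv) := by
  linear_combination
    (8 / 15) * h.toLin.z1N_hNu + (17 / 30) * h.toLin.wRz1N + (1 / 15) * e.2.1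
    + (13 / 30) * (pnIQ_z1Ny_p h e hτ fc) + (2 / 15) * (pnIQ_hNu_p h e hτ fc) + (8 / 15) * hτ

theorem pnIQ_hNu_n (h : Lin2 τ c) (e : CsQ c) (hτ : 0 ≤ τ)
    (fc : 0 ≤ -8 + (-2 * c.z1Ey + 2 * c.p4y) + 384 * τ) :
    0 ≤ (-1 / 2) + 2985 * τ + (c.hNu) := by
  linear_combination
    (15 / 8) * h.toLin.p4_hNv + (17 / 8) * h.toLin.z1N_hNu + (289 / 128) * h.toLin.wRz1N
    + (17 / 64) * e.2.1 + (225 / 128) * (pnIQ_p4x_n h e hτ fc)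
    + (285 / 128) * (pnIQ_p4y_n h e hτ fc) + (221 / 128) * (pnIQ_z1Ny_p h e hτ fc) + (3 / 8) * hτ

theorem pnIQ_k2_n (h : Lin2 τ c) (e : CsQ c) (hτ : 0 ≤ τ)
    (fc : 0 ≤ -8 + (-2 * c.z1Ey + 2 * c.p4y) + 384 * τ) :
    0 ≤ 0 + 940 * τ + (c.k2) := by
  linear_combination
    (17 / 100) * h.toLin.p2_eN1 + (17 / 20) * h.toLin.k2N_eN1 + (4 / 5) * h.toLin.k2N_gNh
    + h.toLin.wTk2N + (51 / 400) * (pnIQ_p2y_n h e hτ fc) + (17 / 80) * (pnIQ_p2x_n h e hτ fc)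
    + (17 / 200) * (pnIQ_eN1y_n h e hτ fc) + (23 / 40) * (pnIQ_gNv_p h e hτ fc)
    + (pnIQ_gNu_n h e hτ fc) + (3 / 200) * hτ

theorem fmIQ_0_p (h : Lin2 τ c) (e : CsQ c) (hτ : 0 ≤ τ)
    (fc : 0 ≤ -8 + (-2 * c.z1Ey + 2 * c.p4y) + 384 * τ) :
    0 ≤ 2 + 102302 * τ + (-c.z1Ex + c.t2Ex + c.h1 - c.t2y) := by
  linear_combination
    32 * h.toLin.p4_gE + (1184 / 5) * h.toLin.z1E_gEh + (64 / 15) * h.toLin.t2E_gEh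
    + (113 / 2) * h.toLin.wRz1E + (21 / 5) * h.toLin.wBt2E + (113 / 2) * (pnIQ_p4x_n h e hτ fc)
    + (1 / 2) * (pnIQ_p4y_p h e hτ fc) + (37 / 10) * (pnIQ_z1Ey_p h e hτ fc)
    + (37 / 10) * (pnIQ_s1_p h e hτ fc) + (113 / 2) * (pnIQ_h1_n h e hτ fc)
    + (21 / 5) * (pnIQ_t2x_p h e hτ fc) + (14 / 15) * hτ

theorem fmIQ_0_n (h : Lin2 τ c) (e : CsQ c) (hτ : 0 ≤ τ)
    (fc : 0 ≤ -8 + (-2 * c.z1Ey + 2 * c.p4y) + 384 * τ) :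
    0 ≤ 0 + 5424 * τ + (c.z1Ex - c.t2Ex - c.h1 + c.t2y) := by
  linear_combination
    (1 / 2) * h.toLin.p4_z1Ev + h.toLin.wRt2E + (pnIQ_p4x_n h e hτ fc) + (pnIQ_t2y_n h e hτ fc)
    + (1 / 2) * hτ

theorem fmIQ_1_p (h : Lin2 τ c) (e : CsQ c) (hτ : 0 ≤ τ)
    (fc : 0 ≤ -8 + (-2 * c.z1Ey + 2 * c.p4y) + 384 * τ) :
    0 ≤ 2 + 109860 * τ + (-c.z1Ex + c.t2Ex - c.h1 + c.t2y) := by
  linear_combination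
    32 * h.toLin.p4_gE + (1184 / 5) * h.toLin.z1E_gEh + (64 / 15) * h.toLin.t2E_gEh
    + (113 / 2) * h.toLin.wRz1E + (21 / 5) * h.toLin.wBt2E + (113 / 2) * (pnIQ_p4x_n h e hτ fc)
    + (1 / 2) * (pnIQ_p4y_p h e hτ fc) + (37 / 10) * (pnIQ_z1Ey_p h e hτ fc)
    + (37 / 10) * (pnIQ_s1_p h e hτ fc) + (109 / 2) * (pnIQ_h1_n h e hτ fc)
    + (21 / 5) * (pnIQ_t2x_p h e hτ fc) + 2 * (pnIQ_t2y_n h e hτ fc) + (14 / 15) * hτ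

theorem fmIQ_1_n (h : Lin2 τ c) (e : CsQ c) (hτ : 0 ≤ τ)
    (fc : 0 ≤ -8 + (-2 * c.z1Ey + 2 * c.p4y) + 384 * τ) :
    0 ≤ 0 + 6750 * τ + (c.z1Ex - c.t2Ex + c.h1 - c.t2y) := by
  linear_combination
    (1 / 2) * h.toLin.p4_z1Ev + h.toLin.wRt2E + (pnIQ_p4x_n h e hτ fc) + 2 * (pnIQ_h1_n h e hτ fc)
    + (pnIQ_t2y_p h e hτ fc) + (1 / 2) * hτ

theorem pinIQ (h : Lin2 τ c) (e : CsQ c) (hτ : 0 ≤ τ) (n : NearI c) :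
    PinIQ (109860 * τ) c :=
  have fc := fcIQ h e hτ n
  { p2x := pin_abs hτ (pnIQ_p2x_p h e hτ fc) (pnIQ_p2x_n h e hτ fc) (by norm_num)
    p2y := pin_abs hτ (pnIQ_p2y_p h e hτ fc) (pnIQ_p2y_n h e hτ fc) (by norm_num)
    p4x := pin_abs hτ (pnIQ_p4x_p h e hτ fc) (pnIQ_p4x_n h e hτ fc) (by norm_num)
    p4y := pin_abs hτ (pnIQ_p4y_p h e hτ fc) (pnIQ_p4y_n h e hτ fc) (by norm_num)
    p3x := pin_abs hτ (pnIQ_p3x_p h e hτ fc) (pnIQ_p3x_n h e hτ fc) (by norm_num)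
    p3y := pin_abs hτ (pnIQ_p3y_p h e hτ fc) (pnIQ_p3y_n h e hτ fc) (by norm_num)
    z1Nx := pin_abs hτ (pnIQ_z1Nx_p h e hτ fc) (pnIQ_z1Nx_n h e hτ fc) (by norm_num)
    z1Ny := pin_abs hτ (pnIQ_z1Ny_p h e hτ fc) (pnIQ_z1Ny_n h e hτ fc) (by norm_num)
    z1Ey := pin_abs hτ (pnIQ_z1Ey_p h e hτ fc) (pnIQ_z1Ey_n h e hτ fc) (by norm_num)
    z3Wx := pin_abs hτ (pnIQ_z3Wx_p h e hτ fc) (pnIQ_z3Wx_n h e hτ fc) (by norm_num)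
    z3Wy := pin_abs hτ (pnIQ_z3Wy_p h e hτ fc) (pnIQ_z3Wy_n h e hτ fc) (by norm_num)
    z3Sx := pin_abs hτ (pnIQ_z3Sx_p h e hτ fc) (pnIQ_z3Sx_n h e hτ fc) (by norm_num)
    z3Sy := pin_abs hτ (pnIQ_z3Sy_p h e hτ fc) (pnIQ_z3Sy_n h e hτ fc) (by norm_num)
    t2Sx := pin_abs hτ (pnIQ_t2Sx_p h e hτ fc) (pnIQ_t2Sx_n h e hτ fc) (by norm_num)
    t2Sy := pin_abs hτ (pnIQ_t2Sy_p h e hτ fc) (pnIQ_t2Sy_n h e hτ fc) (by norm_num)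
    t2Ey := pin_abs hτ (pnIQ_t2Ey_p h e hτ fc) (pnIQ_t2Ey_n h e hτ fc) (by norm_num)
    k2Nx := pin_abs hτ (pnIQ_k2Nx_p h e hτ fc) (pnIQ_k2Nx_n h e hτ fc) (by norm_num)
    k2Ny := pin_abs hτ (pnIQ_k2Ny_p h e hτ fc) (pnIQ_k2Ny_n h e hτ fc) (by norm_num)
    k2Wx := pin_abs hτ (pnIQ_k2Wx_p h e hτ fc) (pnIQ_k2Wx_n h e hτ fc) (by norm_num)
    k2Wy := pin_abs hτ (pnIQ_k2Wy_p h e hτ fc) (pnIQ_k2Wy_n h e hτ fc) (by norm_num)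
    k3Wx := pin_abs hτ (pnIQ_k3Wx_p h e hτ fc) (pnIQ_k3Wx_n h e hτ fc) (by norm_num)
    k3Wy := pin_abs hτ (pnIQ_k3Wy_p h e hτ fc) (pnIQ_k3Wy_n h e hτ fc) (by norm_num)
    k3Sx := pin_abs hτ (pnIQ_k3Sx_p h e hτ fc) (pnIQ_k3Sx_n h e hτ fc) (by norm_num)
    k3Sy := pin_abs hτ (pnIQ_k3Sy_p h e hτ fc) (pnIQ_k3Sy_n h e hτ fc) (by norm_num)
    eN1x := pin_abs hτ (pnIQ_eN1x_p h e hτ fc) (pnIQ_eN1x_n h e hτ fc) (by norm_num)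
    eN1y := pin_abs hτ (pnIQ_eN1y_p h e hτ fc) (pnIQ_eN1y_n h e hτ fc) (by norm_num)
    s1 := pin_abs hτ (pnIQ_s1_p h e hτ fc) (pnIQ_s1_n h e hτ fc) (by norm_num)
    h1 := pin_abs hτ (pnIQ_h1_p h e hτ fc) (pnIQ_h1_n h e hτ fc) (by norm_num)
    s3 := pin_abs hτ (pnIQ_s3_p h e hτ fc) (pnIQ_s3_n h e hτ fc) (by norm_num)
    h3 := pin_abs hτ (pnIQ_h3_p h e hτ fc) (pnIQ_h3_n h e hτ fc) (by norm_num)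
    t2x := pin_abs hτ (pnIQ_t2x_p h e hτ fc) (pnIQ_t2x_n h e hτ fc) (by norm_num)
    t2y := pin_abs hτ (pnIQ_t2y_p h e hτ fc) (pnIQ_t2y_n h e hτ fc) (by norm_num)
    k2 := pin_abs hτ (pnIQ_k2_p h e hτ fc) (pnIQ_k2_n h e hτ fc) (by norm_num)
    k3 := pin_abs hτ (pnIQ_k3_p h e hτ fc) (pnIQ_k3_n h e hτ fc) (by norm_num)
    gNu := pin_abs hτ (pnIQ_gNu_p h e hτ fc) (pnIQ_gNu_n h e hτ fc) (by norm_num)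
    gNv := pin_abs hτ (pnIQ_gNv_p h e hτ fc) (pnIQ_gNv_n h e hτ fc) (by norm_num)
    gSu := pin_abs hτ (pnIQ_gSu_p h e hτ fc) (pnIQ_gSu_n h e hτ fc) (by norm_num)
    gSv := pin_abs hτ (pnIQ_gSv_p h e hτ fc) (pnIQ_gSv_n h e hτ fc) (by norm_num)
    hNu := pin_abs hτ (pnIQ_hNu_p h e hτ fc) (pnIQ_hNu_n h e hτ fc) (by norm_num)
    hNv := pin_abs hτ (pnIQ_hNv_p h e hτ fc) (pnIQ_hNv_n h e hτ fc) (by norm_num)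
    f0 := ⟨by linarith only [hτ, fmIQ_0_n h e hτ fc], by linarith only [hτ, fmIQ_0_p h e hτ fc]⟩
    f1 := ⟨by linarith only [hτ, fmIQ_1_n h e hτ fc], by linarith only [hτ, fmIQ_1_p h e hτ fc]⟩ }

end Pool.Agent.P.MP_dba4bb_co.Ex
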