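import Pool.Agent.P.MP_dba4bb_co.Ex.Cfg

/-! Rigidity of the square. -/

namespace Pool.Agent.P.MP_dba4bb_co.Ex

variable {τ : ℝ} {c : Cfg}

theorem r1_p2x_p (h : Lin τ c) (hτ : 0 ≤ τ) :
    0 ≤ 1 + 5 * τ + (-c.p2x) := by
  linear_combination
    (5 / 56) * h.p2_p4 + (1 / 16) * h.p2_p1 + (1 / 4) * h.p2_z1Nv + (2 / 7) * h.p2_eN1
    + (3 / 56) * h.p2_eN2 + (1 / 16) * h.p4_p3 + (1 / 4) * h.p4_z1Ev + (2 / 7) * h.p4_eS1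
    + (3 / 56) * h.p4_eS2 + (1 / 14) * h.p1_k4Ev + (3 / 56) * h.p1_eN2 + (1 / 14) * h.p3_k2Wv
    + (3 / 56) * h.p3_eS2 + (3 / 14) * h.t1N_k2N + (2 / 7) * h.t1N_eN1 + (3 / 14) * h.t1N_eN2
    + (1 / 14) * h.t1W_k2W + (2 / 7) * h.t1S_k4S + (2 / 7) * h.t1S_eS1 + (3 / 14) * h.t1S_eS2
    + (1 / 14) * h.t2N_k2N + (1 / 14) * h.t2E_k4E + (4 / 7) * h.k2N_eN1 + (4 / 7) * h.k4S_eS1
    + (1 / 2) * h.wRz1N + (1 / 2) * h.wRz1E + (3 / 7) * h.wRt1N + (5 / 28) * h.wTt1N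
    + (1 / 28) * h.wLt1W + (13 / 28) * h.wLt1S + (5 / 28) * h.wBt1S + (1 / 28) * h.wRt2N
    + (1 / 28) * h.wRt2E + (1 / 7) * h.wTk2N + (1 / 7) * h.wTk2W + (1 / 7) * h.wBk4S
    + (1 / 7) * h.wBk4E + (1 / 2) * hτ

theorem r1_p4x_n (h : Lin τ c) (hτ : 0 ≤ τ) :
    0 ≤ 1 + 6 * τ + (c.p4x) := by
  linear_combination
    (1 / 2) * h.p2_z3Wv + (1 / 2) * h.p4_z3Sv + h.wLz3W + h.wLz3S + (r1_p2x_p h hτ)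

theorem r1_p4y_n (h : Lin τ c) (hτ : 0 ≤ τ) :
    0 ≤ 7 + 12 * τ + (c.p4y) := by
  linear_combination
    (8 / 15) * h.p2_p1 + (8 / 15) * h.p2_p3 + (16 / 15) * h.p2_k1Nv + (16 / 15) * h.p2_k3Wv
    + h.p4_k1Ev + h.p4_k3Sv + (2 / 5) * h.p1_k2Nv + (2 / 3) * h.p1_k4Ev + (2 / 5) * h.p3_k2Wv
    + (2 / 3) * h.p3_k4Sv + (2 / 3) * h.t1N_k1N + (2 / 3) * h.t1W_k3W + (1 / 3) * h.t2S_k3S
    + (1 / 3) * h.t2E_k1E + (2 / 5) * h.k1N_k2N + (2 / 3) * h.k1E_k4E + (2 / 5) * h.k2W_k3W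
    + (2 / 3) * h.k3S_k4S + (1 / 3) * h.wTt1N + (1 / 3) * h.wTt1W + (1 / 6) * h.wBt2S
    + (1 / 6) * h.wBt2E + (7 / 3) * h.wRk1N + (7 / 3) * h.wRk1E + h.wTk2N + h.wTk2W
    + (7 / 3) * h.wLk3W + (7 / 3) * h.wLk3S + (5 / 3) * h.wBk4S + (5 / 3) * h.wBk4E
    + (8 / 15) * hτ

theorem r1_p2y_n (h : Lin τ c) (hτ : 0 ≤ τ) :
    0 ≤ 7 + 13 * τ + (c.p2y) := by
  linear_combination
    (1 / 2) * h.p2_p4 + (r1_p4y_n h hτ) + (1 / 2) * hτ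

theorem r1_p1x_p (h : Lin τ c) (hτ : 0 ≤ τ) :
    0 ≤ 10 + 12 * τ + (-c.p1x) := by
  linear_combination
    (8 / 15) * h.p2_p3 + (2 / 3) * h.p2_k1Nv + (2 / 5) * h.p2_k3Wv + (8 / 15) * h.p4_p3
    + (2 / 3) * h.p4_k1Ev + (2 / 5) * h.p4_k3Sv + h.p1_k2Nv + h.p1_k4Ev + (16 / 15) * h.p3_k2Wv
    + (16 / 15) * h.p3_k4Sv + (2 / 3) * h.t1W_k2W + (2 / 3) * h.t1S_k4S + (1 / 3) * h.t2N_k2N
    + (1 / 3) * h.t2E_k4E + (2 / 3) * h.k1N_k2N + (2 / 3) * h.k1E_k4E + (2 / 5) * h.k2W_k3W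
    + (2 / 5) * h.k3S_k4S + (1 / 3) * h.wLt1W + (1 / 3) * h.wLt1S + (1 / 6) * h.wRt2N
    + (1 / 6) * h.wRt2E + (5 / 3) * h.wRk1N + (5 / 3) * h.wRk1E + (7 / 3) * h.wTk2N
    + (7 / 3) * h.wTk2W + h.wLk3W + h.wLk3S + (7 / 3) * h.wBk4S + (7 / 3) * h.wBk4E
    + (8 / 15) * hτ

theorem r1_p1x_n (h : Lin τ c) (hτ : 0 ≤ τ) :
    0 ≤ 4 + 10 * τ + (c.p1x) := by
  linear_combination
    (29 / 70) * h.p2_p1 + (1 / 28) * h.p2_z3Wv + (9 / 35) * h.p2_k1Nv + (16 / 49) * h.p2_k3Wv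
    + (8 / 49) * h.p2_eW1 + (9 / 14) * h.p4_p1 + (1 / 28) * h.p4_z3Sv + (2 / 7) * h.p4_k1Ev
    + (3 / 7) * h.p4_k3Sv + (4 / 35) * h.p1_k2Nv + (1 / 7) * h.t1N_k1N + (1 / 7) * h.t1S_k3S
    + (2 / 7) * h.t2S_k3S + (2 / 7) * h.t2E_k1E + (4 / 35) * h.k1N_k2N + (2 / 7) * h.k2W_k3W
    + (4 / 7) * h.k2W_eW1 + (4 / 49) * h.k3W_eW1 + (1 / 14) * h.wLz3W + (1 / 14) * h.wLz3S
    + (1 / 14) * h.wTt1N + (1 / 14) * h.wBt1S + (1 / 7) * h.wBt2S + (1 / 7) * h.wBt2E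
    + (4 / 7) * h.wRk1N + (4 / 7) * h.wRk1E + (2 / 7) * h.wTk2N + (2 / 7) * h.wTk2W
    + (6 / 7) * h.wLk3W + (6 / 7) * h.wLk3S + (2 / 7) * (r1_p4x_n h hτ)
    + (2 / 7) * (r1_p4y_n h hτ) + (17 / 70) * hτ

theorem r1_p1y_n (h : Lin τ c) (hτ : 0 ≤ τ) :
    0 ≤ 18 + 31 * τ + (c.p1y) := by
  linear_combination
    h.p4_p1 + (r1_p4x_n h hτ) + (r1_p4y_n h hτ) + (r1_p1x_p h hτ)

theorem r1_p3x_p (h : Lin τ c) (hτ : 0 ≤ τ) :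
    0 ≤ 10 + 13 * τ + (-c.p3x) := by
  linear_combination
    (1 / 2) * h.p1_p3 + (r1_p1x_p h hτ) + (1 / 2) * hτ

theorem r1_p3x_n (h : Lin τ c) (hτ : 0 ≤ τ) :
    0 ≤ 12 + 18 * τ + (c.p3x) := by
  linear_combination
    h.p1_k2Nv + h.p1_k4Ev + h.p3_k2Wv + h.p3_k4Sv + h.t1W_k2W + h.t1S_k4S + h.t2N_k2N + h.t2E_k4E
    + (1 / 2) * h.wLt1W + (1 / 2) * h.wLt1S + (1 / 2) * h.wRt2N + (1 / 2) * h.wRt2E + 2 * h.wTk2N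
    + 2 * h.wTk2W + 2 * h.wBk4S + 2 * h.wBk4E + (r1_p1x_n h hτ)

theorem r1_p2y_p (h : Lin τ c) (hτ : 0 ≤ τ) :
    0 ≤ 10 + 20 * τ + (-c.p2y) := by
  linear_combination
    (65 / 98) * h.p2_k1Nv + (65 / 98) * h.p2_k3Wv + (11 / 49) * h.p2_eN1 + (11 / 49) * h.p2_eW1
    + (3 / 7) * h.p4_p1 + (3 / 7) * h.p4_p3 + (6 / 7) * h.p4_k1Ev + (6 / 7) * h.p4_k3Sv
    + (3 / 14) * h.p1_k2Nv + (3 / 14) * h.p3_k2Wv + (6 / 7) * h.t2S_k3S + (6 / 7) * h.t2E_k1E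
    + (17 / 28) * h.k1N_k2N + (11 / 98) * h.k1N_eN1 + (11 / 14) * h.k2N_eN1
    + (17 / 28) * h.k2W_k3W + (11 / 14) * h.k2W_eW1 + (11 / 98) * h.k3W_eW1 + (3 / 7) * h.wBt2S
    + (3 / 7) * h.wBt2E + (12 / 7) * h.wRk1N + (12 / 7) * h.wRk1E + (13 / 14) * h.wTk2N
    + (13 / 14) * h.wTk2W + (12 / 7) * h.wLk3W + (12 / 7) * h.wLk3S + (9 / 28) * (r1_p1x_p h hτ)
    + (9 / 28) * (r1_p3x_n h hτ) + (6 / 7) * hτ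

theorem r1_p4y_p (h : Lin τ c) (hτ : 0 ≤ τ) :
    0 ≤ 10 + 21 * τ + (-c.p4y) := by
  linear_combination
    (1 / 2) * h.p2_p4 + (r1_p2y_p h hτ) + (1 / 2) * hτ

theorem r1_z1Nx_p (h : Lin τ c) (hτ : 0 ≤ τ) :
    0 ≤ 0 + 0 * τ + (-c.z1Nx) := by
  linear_combination
    h.wRz1N

theorem r1_p3y_p (h : Lin τ c) (hτ : 0 ≤ τ) :
    0 ≤ 23 + 44 * τ + (-c.p3y) := by
  linear_combination
    h.p2_p3 + (r1_p2x_p h hτ) + (r1_p3x_n h hτ) + (r1_p2y_p h hτ)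

theorem r1_z1Ny_n (h : Lin τ c) (hτ : 0 ≤ τ) :
    0 ≤ 22 + 42 * τ + (c.z1Ny) := by
  linear_combination
    h.p1_z1Nu + h.wRz1N + (r1_p1x_n h hτ) + (r1_p1y_n h hτ)

theorem r1_z1Ex_p (h : Lin τ c) (hτ : 0 ≤ τ) :
    0 ≤ 0 + 0 * τ + (-c.z1Ex) := by
  linear_combination
    h.wRz1E

theorem r1_z1Nx_n (h : Lin τ c) (hτ : 0 ≤ τ) :
    0 ≤ 0 + 2 * τ + (c.z1Nx) := by
  linear_combination
    (1 / 2) * h.p2_z1Nv + (1 / 2) * h.p2_z3Wv + (1 / 2) * h.p4_z1Ev + (1 / 2) * h.p4_z3Sv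
    + h.wRz1E + h.wLz3W + h.wLz3S

theorem r1_z1Ex_n (h : Lin τ c) (hτ : 0 ≤ τ) :
    0 ≤ 0 + 2 * τ + (c.z1Ex) := by
  linear_combination
    (1 / 2) * h.p2_z1Nv + (1 / 2) * h.p2_z3Wv + (1 / 2) * h.p4_z1Ev + (1 / 2) * h.p4_z3Sv
    + h.wRz1N + h.wLz3W + h.wLz3S

theorem r1_z3Wx_p (h : Lin τ c) (hτ : 0 ≤ τ) :
    0 ≤ 0 + 2 * τ + (-c.z3Wx) := by
  linear_combination
    (1 / 2) * h.p2_z1Nv + (1 / 2) * h.p2_z3Wv + (1 / 2) * h.p4_z1Ev + (1 / 2) * h.p4_z3Sv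
    + h.wRz1N + h.wRz1E + h.wLz3S

theorem r1_z3Wx_n (h : Lin τ c) (hτ : 0 ≤ τ) :
    0 ≤ 0 + 0 * τ + (c.z3Wx) := by
  linear_combination
    h.wLz3W

theorem r1_z1Ey_p (h : Lin τ c) (hτ : 0 ≤ τ) :
    0 ≤ 10 + 28 * τ + (-c.z1Ey) := by
  linear_combination
    (5 / 8) * h.p2_p1 + (3 / 16) * h.p2_p3 + (1 / 2) * h.p2_k1Nv + (3 / 7) * h.p2_k3Wv
    + (13 / 28) * h.p2_eW1 + (3 / 16) * h.p4_p1 + (19 / 32) * h.p4_k1Ev + (19 / 32) * h.p4_k3Sv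
    + (1 / 8) * h.p4_eS2 + h.p1_z1Eu + (3 / 8) * h.p1_eN2 + (1 / 8) * h.p3_eS2
    + (1 / 2) * h.t1N_k1N + (1 / 2) * h.t1W_k2W + (1 / 2) * h.t1S_eS2 + (19 / 32) * h.t2S_k3S
    + (19 / 32) * h.t2E_k1E + (3 / 8) * h.k1N_eN2 + (9 / 8) * h.k2N_eN2 + (5 / 16) * h.k2W_k3W
    + (13 / 8) * h.k2W_eW1 + (13 / 56) * h.k3W_eW1 + h.wRz1E + (1 / 4) * h.wTt1N
    + (1 / 4) * h.wLt1W + (1 / 4) * h.wLt1S + (1 / 4) * h.wBt1S + (19 / 64) * h.wBt2S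
    + (19 / 64) * h.wBt2E + (19 / 16) * h.wRk1N + (19 / 16) * h.wRk1E + (9 / 16) * h.wTk2N
    + (9 / 16) * h.wTk2W + (19 / 16) * h.wLk3W + (19 / 16) * h.wLk3S + (3 / 8) * (r1_p1x_n h hτ)
    + (1 / 8) * (r1_p3x_n h hτ) + (15 / 32) * (r1_p4y_p h hτ) + (19 / 32) * hτ

theorem r1_z3Sx_p (h : Lin τ c) (hτ : 0 ≤ τ) :
    0 ≤ 0 + 2 * τ + (-c.z3Sx) := by
  linear_combination
    (1 / 2) * h.p2_z1Nv + (1 / 2) * h.p2_z3Wv + (1 / 2) * h.p4_z1Ev + (1 / 2) * h.p4_z3Sv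
    + h.wRz1N + h.wRz1E + h.wLz3W

theorem r1_z3Sx_n (h : Lin τ c) (hτ : 0 ≤ τ) :
    0 ≤ 0 + 0 * τ + (c.z3Sx) := by
  linear_combination
    h.wLz3S

theorem r1_z3Sy_p (h : Lin τ c) (hτ : 0 ≤ τ) :
    0 ≤ 33 + 58 * τ + (-c.z3Sy) := by
  linear_combination
    h.p3_z3Su + h.wLz3S + (r1_p3x_p h hτ) + (r1_p3y_p h hτ)

theorem r1_t1Nx_p (h : Lin τ c) (hτ : 0 ≤ τ) :
    0 ≤ 0 + 0 * τ + (-c.t1Nx) := by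
  linear_combination
    h.wRt1N

theorem r1_t1Nx_n (h : Lin τ c) (hτ : 0 ≤ τ) :
    0 ≤ 22 + 39 * τ + (c.t1Nx) := by
  linear_combination
    (3 / 4) * h.p2_p3 + (1 / 2) * h.p2_eN2 + (3 / 4) * h.p4_p1 + (1 / 2) * h.p4_eS2
    + (1 / 2) * h.p1_eN2 + (1 / 2) * h.p3_eS2 + 2 * h.t1N_eN2 + 2 * h.t1S_eS2 + h.wTt1N + h.wLt1S
    + h.wBt1S + (1 / 2) * (r1_p4y_n h hτ) + (1 / 2) * (r1_p1x_p h hτ) + (1 / 2) * (r1_p3x_n h hτ)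
    + (1 / 2) * (r1_p2y_p h hτ) + (1 / 2) * hτ

theorem r1_t1Ny_p (h : Lin τ c) (hτ : 0 ≤ τ) :
    0 ≤ 1 + 0 * τ + (-c.t1Ny) := by
  linear_combination
    h.wTt1N

theorem r1_t1Ny_n (h : Lin τ c) (hτ : 0 ≤ τ) :
    0 ≤ 21 + 39 * τ + (c.t1Ny) := by
  linear_combination
    (3 / 4) * h.p2_p3 + (1 / 2) * h.p2_eN2 + (3 / 4) * h.p4_p1 + (1 / 2) * h.p4_eS2
    + (1 / 2) * h.p1_eN2 + (1 / 2) * h.p3_eS2 + 2 * h.t1N_eN2 + 2 * h.t1S_eS2 + h.wRt1N + h.wLt1S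
    + h.wBt1S + (1 / 2) * (r1_p4y_n h hτ) + (1 / 2) * (r1_p1x_p h hτ) + (1 / 2) * (r1_p3x_n h hτ)
    + (1 / 2) * (r1_p2y_p h hτ) + (1 / 2) * hτ

theorem r1_p1y_p (h : Lin τ c) (hτ : 0 ≤ τ) :
    0 ≤ 10 + 23 * τ + (-c.p1y) := by
  linear_combination
    (3 / 47) * h.p2_p4 + (83 / 188) * h.p2_p1 + (161 / 940) * h.p2_p3 + (1 / 2) * h.p2_k1Nv
    + (1277 / 3290) * h.p2_k3Wv + (130 / 329) * h.p2_eW1 + (225 / 376) * h.p4_k1Ev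
    + (201 / 376) * h.p4_k3Sv + (4 / 47) * h.p4_eS2 + (3 / 47) * h.p1_k4Ev + (43 / 94) * h.p1_eN2
    + (23 / 235) * h.p3_k2Wv + (23 / 94) * h.p3_eS2 + (1 / 2) * h.t1N_k1N + (1 / 2) * h.t1W_k2W
    + (1 / 2) * h.t1S_eS2 + (201 / 376) * h.t2S_k3S + (201 / 376) * h.t2E_k1E
    + (43 / 94) * h.k1N_eN2 + (3 / 47) * h.k1E_k4E + (129 / 94) * h.k2N_eN2
    + (68 / 235) * h.k2W_k3W + (65 / 47) * h.k2W_eW1 + (65 / 329) * h.k3W_eW1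
    + (15 / 47) * h.k4S_eS2 + (1 / 4) * h.wTt1N + (1 / 4) * h.wLt1W + (1 / 4) * h.wLt1S
    + (1 / 4) * h.wBt1S + (201 / 752) * h.wBt2S + (201 / 752) * h.wBt2E + (231 / 188) * h.wRk1N
    + (231 / 188) * h.wRk1E + (129 / 188) * h.wTk2N + (129 / 188) * h.wTk2W
    + (201 / 188) * h.wLk3W + (201 / 188) * h.wLk3S + (15 / 94) * h.wBk4S + (15 / 94) * h.wBk4E
    + (17 / 94) * (r1_p1x_p h hτ) + (181 / 376) * (r1_p4y_p h hτ) + (51 / 1880) * hτ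

theorem r1_t1Wx_n (h : Lin τ c) (hτ : 0 ≤ τ) :
    0 ≤ 0 + 0 * τ + (c.t1Wx) := by
  linear_combination
    h.wLt1W

theorem r1_t1Wy_p (h : Lin τ c) (hτ : 0 ≤ τ) :
    0 ≤ 1 + 0 * τ + (-c.t1Wy) := by
  linear_combination
    h.wTt1W

theorem r1_p4x_p (h : Lin τ c) (hτ : 0 ≤ τ) :
    0 ≤ 27 + 48 * τ + (-c.p4x) := by
  linear_combination
    h.p4_p1 + (r1_p4y_n h hτ) + (r1_p1x_p h hτ) + (r1_p1y_p h hτ)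

theorem r1_p3y_n (h : Lin τ c) (hτ : 0 ≤ τ) :
    0 ≤ 46 + 79 * τ + (c.p3y) := by
  linear_combination
    h.p4_p3 + (r1_p4y_n h hτ) + (r1_p3x_n h hτ) + (r1_p4x_p h hτ)

theorem r1_t1Sx_n (h : Lin τ c) (hτ : 0 ≤ τ) :
    0 ≤ 0 + 0 * τ + (c.t1Sx) := by
  linear_combination
    h.wLt1S

theorem r1_z3Wy_n (h : Lin τ c) (hτ : 0 ≤ τ) :
    0 ≤ 56 + 93 * τ + (c.z3Wy) := by
  linear_combination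
    h.p3_z3Wu + h.wLz3W + (r1_p3x_p h hτ) + (r1_p3y_n h hτ)

theorem r1_t1Sy_n (h : Lin τ c) (hτ : 0 ≤ τ) :
    0 ≤ 1 + 0 * τ + (c.t1Sy) := by
  linear_combination
    h.wBt1S

theorem r1_t2Nx_p (h : Lin τ c) (hτ : 0 ≤ τ) :
    0 ≤ 0 + 0 * τ + (-c.t2Nx) := by
  linear_combination
    h.wRt2N

theorem r1_p2x_n (h : Lin τ c) (hτ : 0 ≤ τ) :
    0 ≤ 27 + 49 * τ + (c.p2x) := by
  linear_combination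
    (1 / 2) * h.p2_z3Wv + (1 / 2) * h.p4_z3Sv + h.wLz3W + h.wLz3S + (r1_p4x_p h hτ)

theorem r1_t2Ny_p (h : Lin τ c) (hτ : 0 ≤ τ) :
    0 ≤ 1 + 0 * τ + (-c.t2Ny) := by
  linear_combination
    h.wTt2N

theorem r1_t1Sy_p (h : Lin τ c) (hτ : 0 ≤ τ) :
    0 ≤ 21 + 39 * τ + (-c.t1Sy) := by
  linear_combination
    (3 / 4) * h.p2_p3 + (1 / 2) * h.p2_eN2 + (3 / 4) * h.p4_p1 + (1 / 2) * h.p4_eS2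
    + (1 / 2) * h.p1_eN2 + (1 / 2) * h.p3_eS2 + 2 * h.t1N_eN2 + 2 * h.t1S_eS2 + h.wRt1N + h.wTt1N
    + h.wLt1S + (1 / 2) * (r1_p4y_n h hτ) + (1 / 2) * (r1_p1x_p h hτ) + (1 / 2) * (r1_p3x_n h hτ)
    + (1 / 2) * (r1_p2y_p h hτ) + (1 / 2) * hτ

theorem r1_t2Ny_n (h : Lin τ c) (hτ : 0 ≤ τ) :
    0 ≤ 21 + 39 * τ + (c.t2Ny) := by
  linear_combination
    (3 / 4) * h.p2_p3 + (1 / 2) * h.p2_eN2 + (3 / 4) * h.p4_p1 + (1 / 2) * h.p4_eS2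
    + (1 / 2) * h.p1_eN2 + (1 / 2) * h.p3_eS2 + 2 * h.t2N_eN2 + 2 * h.t2S_eS2 + h.wRt2N + h.wLt2S
    + h.wBt2S + (1 / 2) * (r1_p4y_n h hτ) + (1 / 2) * (r1_p1x_p h hτ) + (1 / 2) * (r1_p3x_n h hτ)
    + (1 / 2) * (r1_p2y_p h hτ) + (1 / 2) * hτ

theorem r1_t2Sx_n (h : Lin τ c) (hτ : 0 ≤ τ) :
    0 ≤ 0 + 0 * τ + (c.t2Sx) := by
  linear_combination
    h.wLt2S

theorem r1_t2Sx_p (h : Lin τ c) (hτ : 0 ≤ τ) :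
    0 ≤ 22 + 39 * τ + (-c.t2Sx) := by
  linear_combination
    (3 / 4) * h.p2_p3 + (1 / 2) * h.p2_eN2 + (3 / 4) * h.p4_p1 + (1 / 2) * h.p4_eS2
    + (1 / 2) * h.p1_eN2 + (1 / 2) * h.p3_eS2 + 2 * h.t2N_eN2 + 2 * h.t2S_eS2 + h.wRt2N + h.wTt2N
    + h.wBt2S + (1 / 2) * (r1_p4y_n h hτ) + (1 / 2) * (r1_p1x_p h hτ) + (1 / 2) * (r1_p3x_n h hτ)
    + (1 / 2) * (r1_p2y_p h hτ) + (1 / 2) * hτ

theorem r1_t2Sy_n (h : Lin τ c) (hτ : 0 ≤ τ) :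
    0 ≤ 1 + 0 * τ + (c.t2Sy) := by
  linear_combination
    h.wBt2S

theorem r1_t2Ex_p (h : Lin τ c) (hτ : 0 ≤ τ) :
    0 ≤ 0 + 0 * τ + (-c.t2Ex) := by
  linear_combination
    h.wRt2E

theorem r1_t2Sy_p (h : Lin τ c) (hτ : 0 ≤ τ) :
    0 ≤ 21 + 39 * τ + (-c.t2Sy) := by
  linear_combination
    (3 / 4) * h.p2_p3 + (1 / 2) * h.p2_eN2 + (3 / 4) * h.p4_p1 + (1 / 2) * h.p4_eS2
    + (1 / 2) * h.p1_eN2 + (1 / 2) * h.p3_eS2 + 2 * h.t2N_eN2 + 2 * h.t2S_eS2 + h.wRt2N + h.wTt2N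
    + h.wLt2S + (1 / 2) * (r1_p4y_n h hτ) + (1 / 2) * (r1_p1x_p h hτ) + (1 / 2) * (r1_p3x_n h hτ)
    + (1 / 2) * (r1_p2y_p h hτ) + (1 / 2) * hτ

theorem r1_t1Wy_n (h : Lin τ c) (hτ : 0 ≤ τ) :
    0 ≤ 3 + 17 * τ + (c.t1Wy) := by
  linear_combination
    h.p2_p4 + 2 * h.p2_k1Nv + 2 * h.p2_k3Wv + 2 * h.p4_k1Ev + 2 * h.p4_k3Sv + 2 * h.t1N_k1N
    + 2 * h.t1W_k3W + 2 * h.t2S_k3S + 2 * h.t2E_k1E + h.wTt1N + h.wBt2S + h.wBt2E + 4 * h.wRk1N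
    + 4 * h.wRk1E + 4 * h.wLk3W + 4 * h.wLk3S

theorem r1_t2Ey_n (h : Lin τ c) (hτ : 0 ≤ τ) :
    0 ≤ 1 + 0 * τ + (c.t2Ey) := by
  linear_combination
    h.wBt2E

theorem r1_k1Nx_p (h : Lin τ c) (hτ : 0 ≤ τ) :
    0 ≤ 0 + 0 * τ + (-c.k1Nx) := by
  linear_combination
    h.wRk1N

theorem r1_t2Ex_n (h : Lin τ c) (hτ : 0 ≤ τ) :
    0 ≤ 16 + 17 * τ + (c.t2Ex) := by
  linear_combination
    h.p1_p3 + 2 * h.p1_k2Nv + 2 * h.p1_k4Ev + 2 * h.p3_k2Wv + 2 * h.p3_k4Sv + 2 * h.t1W_k2W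
    + 2 * h.t1S_k4S + 2 * h.t2N_k2N + 2 * h.t2E_k4E + h.wLt1W + h.wLt1S + h.wRt2N + 4 * h.wTk2N
    + 4 * h.wTk2W + 4 * h.wBk4S + 4 * h.wBk4E

theorem r1_t2Ey_p (h : Lin τ c) (hτ : 0 ≤ τ) :
    0 ≤ 3 + 17 * τ + (-c.t2Ey) := by
  linear_combination
    h.p2_p4 + 2 * h.p2_k1Nv + 2 * h.p2_k3Wv + 2 * h.p4_k1Ev + 2 * h.p4_k3Sv + 2 * h.t1N_k1N
    + 2 * h.t1W_k3W + 2 * h.t2S_k3S + 2 * h.t2E_k1E + h.wTt1N + h.wTt1W + h.wBt2S + 4 * h.wRk1N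
    + 4 * h.wRk1E + 4 * h.wLk3W + 4 * h.wLk3S

theorem r1_k1Nx_n (h : Lin τ c) (hτ : 0 ≤ τ) :
    0 ≤ 1 + 5 * τ + (c.k1Nx) := by
  linear_combination
    (1 / 4) * h.p2_p4 + (1 / 2) * h.p2_k1Nv + (1 / 2) * h.p2_k3Wv + (1 / 2) * h.p4_k1Ev
    + (1 / 2) * h.p4_k3Sv + (1 / 2) * h.t1N_k1N + (1 / 2) * h.t1W_k3W + (1 / 2) * h.t2S_k3S
    + (1 / 2) * h.t2E_k1E + (1 / 4) * h.wTt1N + (1 / 4) * h.wTt1W + (1 / 4) * h.wBt2S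
    + (1 / 4) * h.wBt2E + h.wRk1E + h.wLk3W + h.wLk3S + (3 / 4) * hτ

theorem r1_k1Ex_p (h : Lin τ c) (hτ : 0 ≤ τ) :
    0 ≤ 0 + 0 * τ + (-c.k1Ex) := by
  linear_combination
    h.wRk1E

theorem r1_k1Ex_n (h : Lin τ c) (hτ : 0 ≤ τ) :
    0 ≤ 1 + 5 * τ + (c.k1Ex) := by
  linear_combination
    (1 / 4) * h.p2_p4 + (1 / 2) * h.p2_k1Nv + (1 / 2) * h.p2_k3Wv + (1 / 2) * h.p4_k1Ev
    + (1 / 2) * h.p4_k3Sv + (1 / 2) * h.t1N_k1N + (1 / 2) * h.t1W_k3W + (1 / 2) * h.t2S_k3S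
    + (1 / 2) * h.t2E_k1E + (1 / 4) * h.wTt1N + (1 / 4) * h.wTt1W + (1 / 4) * h.wBt2S
    + (1 / 4) * h.wBt2E + h.wRk1N + h.wLk3W + h.wLk3S + (3 / 4) * hτ

theorem r1_k1Ey_p (h : Lin τ c) (hτ : 0 ≤ τ) :
    0 ≤ 2 + 13 * τ + (-c.k1Ey) := by
  linear_combination
    (3 / 4) * h.p2_p4 + h.p2_z3Wv + 2 * h.p2_k1Nv + h.p2_k3Wv + h.p4_z3Sv + 2 * h.p4_k1Ev
    + h.p4_k3Sv + 2 * h.t1N_k1N + h.t1W_k3W + h.t1S_k3S + 2 * h.wLz3W + 2 * h.wLz3S + h.wTt1N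
    + (1 / 2) * h.wTt1W + (1 / 2) * h.wBt1S + 4 * h.wRk1N + 4 * h.wRk1E + 2 * h.wLk3W
    + 2 * h.wLk3S + (1 / 4) * hτ

theorem r1_k1Ey_n (h : Lin τ c) (hτ : 0 ≤ τ) :
    0 ≤ 45 + 86 * τ + (c.k1Ey) := by
  linear_combination
    (73 / 448) * h.p2_p4 + (467 / 1120) * h.p2_p3 + (1 / 5) * h.p2_k3Wv + (6 / 7) * h.p2_eN1
    + (1 / 14) * h.p4_p1 + (1 / 4) * h.p4_k3Sv + (61 / 112) * h.p4_eS2 + (1 / 28) * h.p1_k2Nv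
    + (1 / 5) * h.p3_k2Wv + (61 / 112) * h.p3_eS2 + (25 / 28) * h.t2N_k2N + (6 / 7) * h.t2N_eN1
    + (1 / 4) * h.t2S_k3S + (61 / 28) * h.t2S_eS2 + 2 * h.t2E_k1E + (12 / 7) * h.k2N_eN1
    + (1 / 5) * h.k2W_k3W + (61 / 56) * h.wRt2N + (3 / 14) * h.wTt2N + (61 / 56) * h.wLt2S
    + (17 / 14) * h.wBt2S + h.wBt2E + (1 / 2) * h.wTk2N + (1 / 2) * h.wTk2W + (1 / 2) * h.wLk3W
    + (1 / 2) * h.wLk3S + (3 / 56) * (r1_p1x_p h hτ) + (5 / 112) * (r1_p3x_n h hτ)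
    + (279 / 224) * (r1_p4x_p h hτ) + (57 / 224) * (r1_p2x_n h hτ) + (2067 / 2240) * hτ

theorem r1_k1Ny_n (h : Lin τ c) (hτ : 0 ≤ τ) :
    0 ≤ 45 + 95 * τ + (c.k1Ny) := by
  linear_combination
    (1 / 2) * h.p2_p4 + 2 * h.p2_z3Wv + 2 * h.p2_k1Nv + 2 * h.p4_z3Sv + 2 * h.p4_k1Ev
    + 4 * h.wLz3W + 4 * h.wLz3S + 4 * h.wRk1N + 4 * h.wRk1E + (r1_k1Ey_n h hτ) + (1 / 2) * hτ

theorem r1_k1Ny_p (h : Lin τ c) (hτ : 0 ≤ τ) :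
    0 ≤ 12 + 24 * τ + (-c.k1Ny) := by
  linear_combination
    (63 / 508) * h.p2_p4 + (2 / 127) * h.p2_p3 + (216 / 635) * h.p2_eN1 + (236 / 635) * h.p2_eW1
    + (27 / 127) * h.p4_k1Ev + (36 / 127) * h.p4_eS2 + (26 / 127) * h.p3_k2Wv
    + (36 / 127) * h.p3_eS2 + (838 / 635) * h.t1N_k1N + (366 / 635) * h.t1W_k2W
    + (236 / 635) * h.t1W_eW1 + (144 / 127) * h.t1S_eS2 + (378 / 635) * h.k1N_k2N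
    + (108 / 635) * h.k1N_eN1 + (756 / 635) * h.k2N_eN1 + (472 / 635) * h.k2W_eW1
    + (419 / 635) * h.wTt1N + (72 / 127) * h.wLt1W + (59 / 635) * h.wTt1W + (72 / 127) * h.wLt1S
    + (72 / 127) * h.wBt1S + (54 / 127) * h.wRk1N + (54 / 127) * h.wRk1E + (378 / 635) * h.wTk2N
    + (378 / 635) * h.wTk2W + (7 / 127) * (r1_p2x_p h hτ) + (343 / 1270) * (r1_p2y_n h hτ)
    + (29 / 127) * (r1_p3x_p h hτ) + (27 / 254) * (r1_k1Ey_n h hτ) + (423 / 2540) * hτ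

theorem r1_k2Ny_p (h : Lin τ c) (hτ : 0 ≤ τ) :
    0 ≤ 1 + 0 * τ + (-c.k2Ny) := by
  linear_combination
    h.wTk2N

theorem r1_k2Ny_n (h : Lin τ c) (hτ : 0 ≤ τ) :
    0 ≤ 3 + 5 * τ + (c.k2Ny) := by
  linear_combination
    (1 / 4) * h.p1_p3 + (1 / 2) * h.p1_k2Nv + (1 / 2) * h.p1_k4Ev + (1 / 2) * h.p3_k2Wv
    + (1 / 2) * h.p3_k4Sv + (1 / 2) * h.t1W_k2W + (1 / 2) * h.t1S_k4S + (1 / 2) * h.t2N_k2N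
    + (1 / 2) * h.t2E_k4E + (1 / 4) * h.wLt1W + (1 / 4) * h.wLt1S + (1 / 4) * h.wRt2N
    + (1 / 4) * h.wRt2E + h.wTk2W + h.wBk4S + h.wBk4E + (3 / 4) * hτ

theorem r1_k2Wx_p (h : Lin τ c) (hτ : 0 ≤ τ) :
    0 ≤ 23 + 45 * τ + (-c.k2Wx) := by
  linear_combination
    (41 / 192) * h.p2_p1 + (3 / 4) * h.p2_eW1 + (1 / 24) * h.p4_p3 + (1 / 48) * h.p4_k1Ev
    + (23 / 384) * h.p1_p3 + (91 / 192) * h.p1_k2Nv + (37 / 192) * h.p1_k4Ev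
    + (19 / 96) * h.p3_k4Sv + (1 / 4) * h.p3_eW1 + (19 / 96) * h.t1N_k2N + (19 / 96) * h.t1S_k4S
    + (11 / 64) * h.t2N_k2N + (11 / 64) * h.t2E_k4E + (5 / 48) * h.k1N_k2N + (1 / 48) * h.k1E_k4E
    + 4 * h.k2W_eW1 + (19 / 192) * h.wRt1N + (19 / 192) * h.wLt1S + (11 / 128) * h.wRt2N
    + (11 / 128) * h.wRt2E + (5 / 96) * h.wRk1N + (5 / 96) * h.wRk1E + h.wTk2N + h.wTk2W
    + (19 / 48) * h.wBk4S + (19 / 48) * h.wBk4E + (139 / 192) * (r1_p2x_p h hτ)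
    + (1 / 32) * (r1_p4y_n h hτ) + (67 / 192) * (r1_p2y_n h hτ) + (149 / 192) * (r1_p1y_n h hτ)
    + (5 / 96) * (r1_k1Ny_n h hτ) + (51 / 128) * hτ

theorem r1_k2Wx_n (h : Lin τ c) (hτ : 0 ≤ τ) :
    0 ≤ 46 + 93 * τ + (c.k2Wx) := by
  linear_combination
    (1 / 100) * h.p2_p4 + (1 / 25) * h.p2_k1Nv + (2 / 25) * h.p4_p1 + (4 / 5) * h.p4_eS1
    + (4 / 25) * h.p1_k4Ev + (2 / 5) * h.t1N_k1N + 2 * h.t1W_k2W + (4 / 5) * h.t1S_k4S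
    + (4 / 5) * h.t1S_eS1 + (4 / 25) * h.k1E_k4E + (8 / 5) * h.k4S_eS1 + (1 / 5) * h.wTt1N
    + h.wLt1W + h.wLt1S + (1 / 5) * h.wBt1S + (2 / 25) * h.wRk1N + (2 / 25) * h.wRk1E
    + (2 / 5) * h.wBk4S + (2 / 5) * h.wBk4E + (1 / 2) * (r1_p4y_p h hτ)
    + (2 / 5) * (r1_p1y_p h hτ) + (23 / 25) * (r1_p4x_p h hτ) + (2 / 25) * (r1_p2x_n h hτ)
    + (2 / 25) * (r1_k1Ey_p h hτ) + (9 / 50) * (r1_k1Ny_n h hτ) + (23 / 100) * hτ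

theorem r1_k2Wy_p (h : Lin τ c) (hτ : 0 ≤ τ) :
    0 ≤ 1 + 0 * τ + (-c.k2Wy) := by
  linear_combination
    h.wTk2W

theorem r1_k2Nx_n (h : Lin τ c) (hτ : 0 ≤ τ) :
    0 ≤ 96 + 173 * τ + (c.k2Nx) := by
  linear_combination
    (3 / 16) * h.p2_p3 + (3 / 4) * h.p2_eN1 + (1 / 16) * h.p4_p1 + (1 / 16) * h.p4_p3
    + (1 / 4) * h.p1_eN1 + (1 / 2) * h.p3_k2Wv + 4 * h.k2N_eN1 + h.wTk2N + h.wTk2W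
    + (1 / 8) * (r1_p4y_n h hτ) + (3 / 8) * (r1_p2y_n h hτ) + (3 / 8) * (r1_p1y_n h hτ)
    + (9 / 8) * (r1_p3y_n h hτ) + (3 / 4) * (r1_p2x_n h hτ) + (1 / 4) * (r1_k2Wx_n h hτ)
    + (5 / 16) * hτ

theorem r1_k2Nx_p (h : Lin τ c) (hτ : 0 ≤ τ) :
    0 ≤ 35 + 77 * τ + (-c.k2Nx) := by
  linear_combination
    (1 / 4) * h.p4_p3 + (2 / 7) * h.p4_k1Ev + (3 / 14) * h.p4_eS2 + (2 / 7) * h.p3_k2Wv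
    + (3 / 14) * h.p3_eS2 + (6 / 7) * h.t2N_k2N + (6 / 7) * h.t2S_eS2 + (6 / 7) * h.t2E_k1E
    + (8 / 7) * h.k1N_k2N + (3 / 7) * h.wRt2N + (3 / 7) * h.wLt2S + (3 / 7) * h.wBt2S
    + (3 / 7) * h.wBt2E + (4 / 7) * h.wRk1N + (4 / 7) * h.wRk1E + (4 / 7) * h.wTk2N
    + (4 / 7) * h.wTk2W + (2 / 7) * (r1_k1Ey_p h hτ) + (4 / 7) * (r1_k1Ny_n h hτ)
    + (1 / 7) * (r1_k2Wx_n h hτ) + (3 / 4) * hτ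

theorem r1_k3Wx_n (h : Lin τ c) (hτ : 0 ≤ τ) :
    0 ≤ 0 + 0 * τ + (c.k3Wx) := by
  linear_combination
    h.wLk3W

theorem r1_k3Wy_p (h : Lin τ c) (hτ : 0 ≤ τ) :
    0 ≤ 47 + 99 * τ + (-c.k3Wy) := by
  linear_combination
    2 * h.t1N_k1N + 2 * h.t1W_k3W + h.wTt1N + h.wTt1W + (r1_k1Ny_n h hτ)

theorem r1_k2Wy_n (h : Lin τ c) (hτ : 0 ≤ τ) :
    0 ≤ 16 + 31 * τ + (c.k2Wy) := by
  linear_combination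
    (2 / 5) * h.p4_p1 + (2 / 5) * h.p4_p3 + (1 / 2) * h.p1_k2Nv + (3 / 10) * h.p1_k4Ev
    + (1 / 2) * h.p3_k2Wv + (3 / 10) * h.p3_k4Sv + (3 / 10) * h.t1W_k2W + (3 / 10) * h.t1S_k4S
    + (3 / 10) * h.t2N_k2N + (3 / 10) * h.t2E_k4E + (3 / 20) * h.wLt1W + (3 / 20) * h.wLt1S
    + (3 / 20) * h.wRt2N + (3 / 20) * h.wRt2E + h.wTk2N + (3 / 5) * h.wBk4S + (3 / 5) * h.wBk4E
    + (4 / 5) * (r1_p4y_n h hτ) + (1 / 10) * (r1_k2Wx_n h hτ) + (1 / 10) * (r1_k2Nx_p h hτ)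
    + (4 / 5) * hτ

theorem r1_k3Wx_p (h : Lin τ c) (hτ : 0 ≤ τ) :
    0 ≤ 13 + 28 * τ + (-c.k3Wx) := by
  linear_combination
    (3 / 16) * h.p2_p4 + (1 / 4) * h.p2_z1Nv + (1 / 4) * h.p2_k1Nv + (1 / 2) * h.p2_k3Wv
    + (1 / 4) * h.p4_z1Ev + (1 / 4) * h.p4_k1Ev + (1 / 2) * h.p4_k3Sv + (1 / 4) * h.t1N_k1N
    + (1 / 4) * h.t1S_k3S + (1 / 4) * h.t2S_k3S + (1 / 4) * h.t2E_k1E + (1 / 2) * h.wRz1N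
    + (1 / 2) * h.wRz1E + (1 / 8) * h.wTt1N + (1 / 8) * h.wBt1S + (1 / 8) * h.wBt2S
    + (1 / 8) * h.wBt2E + (1 / 2) * h.wRk1N + (1 / 2) * h.wRk1E + h.wLk3S
    + (1 / 4) * (r1_k3Wy_p h hτ) + (1 / 16) * hτ

theorem r1_k3Sx_n (h : Lin τ c) (hτ : 0 ≤ τ) :
    0 ≤ 0 + 0 * τ + (c.k3Sx) := by
  linear_combination
    h.wLk3S

theorem r1_k3Sy_p (h : Lin τ c) (hτ : 0 ≤ τ) :
    0 ≤ 47 + 108 * τ + (-c.k3Sy) := by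
  linear_combination
    (1 / 2) * h.p2_p4 + 2 * h.p2_z1Nv + 2 * h.p2_k3Wv + 2 * h.p4_z1Ev + 2 * h.p4_k3Sv
    + 4 * h.wRz1N + 4 * h.wRz1E + 4 * h.wLk3W + 4 * h.wLk3S + (r1_k3Wy_p h hτ) + (1 / 2) * hτ

theorem r1_k3Sy_n (h : Lin τ c) (hτ : 0 ≤ τ) :
    0 ≤ 4 + 17 * τ + (c.k3Sy) := by
  linear_combination
    2 * h.t2S_k3S + 2 * h.t2E_k1E + h.wBt2S + h.wBt2E + (r1_k1Ey_p h hτ)

theorem r1_k3Wy_n (h : Lin τ c) (hτ : 0 ≤ τ) :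
    0 ≤ 4 + 26 * τ + (c.k3Wy) := by
  linear_combination
    (1 / 2) * h.p2_p4 + 2 * h.p2_z1Nv + 2 * h.p2_k3Wv + 2 * h.p4_z1Ev + 2 * h.p4_k3Sv
    + 4 * h.wRz1N + 4 * h.wRz1E + 4 * h.wLk3W + 4 * h.wLk3S + (r1_k3Sy_n h hτ) + (1 / 2) * hτ

theorem r1_k4Sx_n (h : Lin τ c) (hτ : 0 ≤ τ) :
    0 ≤ 23 + 49 * τ + (c.k4Sx) := by
  linear_combination
    2 * h.t1W_k2W + 2 * h.t1S_k4S + h.wLt1W + h.wLt1S + (r1_k2Wx_p h hτ)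

theorem r1_k3Sx_p (h : Lin τ c) (hτ : 0 ≤ τ) :
    0 ≤ 13 + 32 * τ + (-c.k3Sx) := by
  linear_combination
    (1 / 8) * h.p2_p4 + (1 / 2) * h.p2_z1Nv + (1 / 2) * h.p2_k3Wv + (1 / 2) * h.p4_z1Ev
    + (1 / 2) * h.p4_k3Sv + h.wRz1N + h.wRz1E + h.wLk3W + (1 / 4) * (r1_k3Wy_p h hτ)
    + (1 / 4) * (r1_k3Sy_n h hτ) + (7 / 8) * hτ

theorem r1_k4Sy_n (h : Lin τ c) (hτ : 0 ≤ τ) :
    0 ≤ 1 + 0 * τ + (c.k4Sy) := by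
  linear_combination
    h.wBk4S

theorem r1_k4Ex_p (h : Lin τ c) (hτ : 0 ≤ τ) :
    0 ≤ 96 + 177 * τ + (-c.k4Ex) := by
  linear_combination
    2 * h.t2N_k2N + 2 * h.t2E_k4E + h.wRt2N + h.wRt2E + (r1_k2Nx_n h hτ)

theorem r1_k4Ex_n (h : Lin τ c) (hτ : 0 ≤ τ) :
    0 ≤ 163 + 322 * τ + (c.k4Ex) := by
  linear_combination
    (1 / 2) * h.p1_p3 + 2 * h.p1_k4Ev + 2 * h.p3_k4Sv + 4 * h.wBk4S + 4 * h.wBk4E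
    + 4 * (r1_p3y_p h hτ) + 4 * (r1_p1y_p h hτ) + (r1_k4Sx_n h hτ) + (1 / 2) * hτ

theorem r1_k4Sy_p (h : Lin τ c) (hτ : 0 ≤ τ) :
    0 ≤ 37 + 76 * τ + (-c.k4Sy) := by
  linear_combination
    (1 / 5) * h.p2_p3 + (1 / 10) * h.p2_k1Nv + (1 / 40) * h.p1_p3 + (2 / 5) * h.p1_k4Ev
    + (1 / 2) * h.p3_k4Sv + (2 / 5) * h.k1E_k4E + (1 / 5) * h.wRk1N + (1 / 5) * h.wRk1E + h.wBk4E
    + (3 / 20) * (r1_p1x_n h hτ) + (3 / 20) * (r1_p2y_p h hτ) + (4 / 5) * (r1_p3y_p h hτ)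
    + (4 / 5) * (r1_p1y_p h hτ) + (1 / 5) * (r1_k1Ey_p h hτ) + (1 / 20) * (r1_k1Ny_p h hτ)
    + (1 / 4) * (r1_k4Sx_n h hτ) + (9 / 40) * hτ

theorem r1_k4Ey_n (h : Lin τ c) (hτ : 0 ≤ τ) :
    0 ≤ 1 + 0 * τ + (c.k4Ey) := by
  linear_combination
    h.wBk4E

theorem r1_k4Ey_p (h : Lin τ c) (hτ : 0 ≤ τ) :
    0 ≤ 37 + 76 * τ + (-c.k4Ey) := by
  linear_combination
    (1 / 5) * h.p2_p3 + (1 / 10) * h.p2_k1Nv + (1 / 40) * h.p1_p3 + (2 / 5) * h.p1_k4Ev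
    + (1 / 2) * h.p3_k4Sv + (2 / 5) * h.k1E_k4E + (1 / 5) * h.wRk1N + (1 / 5) * h.wRk1E + h.wBk4S
    + (3 / 20) * (r1_p1x_n h hτ) + (3 / 20) * (r1_p2y_p h hτ) + (4 / 5) * (r1_p3y_p h hτ)
    + (4 / 5) * (r1_p1y_p h hτ) + (1 / 5) * (r1_k1Ey_p h hτ) + (1 / 20) * (r1_k1Ny_p h hτ)
    + (1 / 4) * (r1_k4Sx_n h hτ) + (9 / 40) * hτ

theorem r1_eN1x_n (h : Lin τ c) (hτ : 0 ≤ τ) :
    0 ≤ 225 + 427 * τ + (c.eN1x) := by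
  linear_combination
    (3 / 8) * h.p2_p3 + 2 * h.p2_eN1 + (3 / 4) * h.p3_k2Wv + 6 * h.k2N_eN1 + (3 / 2) * h.wTk2N
    + (3 / 2) * h.wTk2W + (9 / 8) * (r1_p2y_n h hτ) + (15 / 8) * (r1_p3y_n h hτ)
    + (17 / 8) * (r1_p2x_n h hτ) + (3 / 8) * (r1_k2Wx_n h hτ) + (3 / 2) * (r1_k2Nx_p h hτ)
    + (5 / 8) * hτ

theorem r1_eN1y_p (h : Lin τ c) (hτ : 0 ≤ τ) :
    0 ≤ 322 + 614 * τ + (-c.eN1y) := by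
  linear_combination
    (1 / 2) * h.p3_k2Wv + 4 * h.k2N_eN1 + h.wTk2N + h.wTk2W + (1 / 4) * (r1_p3x_p h hτ)
    + (r1_p3y_n h hτ) + (1 / 4) * (r1_k2Wx_n h hτ) + (r1_k2Nx_p h hτ) + (r1_eN1x_n h hτ)

theorem r1_eN1y_n (h : Lin τ c) (hτ : 0 ≤ τ) :
    0 ≤ 21 + 39 * τ + (c.eN1y) := by
  linear_combination
    (3 / 88) * h.p4_p1 + (3 / 44) * h.p4_k1Ev + (6 / 11) * h.p1_eN1 + (2 / 11) * h.k1N_eN1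
    + (3 / 22) * h.wRk1N + (3 / 22) * h.wRk1E + (15 / 88) * (r1_p4x_n h hτ)
    + (9 / 88) * (r1_p1x_n h hτ) + (81 / 88) * (r1_p1y_n h hτ) + (3 / 88) * (r1_k1Ey_n h hτ)
    + (1 / 22) * (r1_k1Ny_n h hτ) + (15 / 44) * hτ

theorem r1_eN2x_p (h : Lin τ c) (hτ : 0 ≤ τ) :
    0 ≤ 15 + 36 * τ + (-c.eN2x) := by
  linear_combination
    (1 / 2) * h.p4_k1Ev + 2 * h.k1N_eN2 + h.wRk1N + h.wRk1E + (r1_p4x_n h hτ)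
    + (1 / 4) * (r1_p4y_p h hτ) + (1 / 4) * (r1_k1Ey_n h hτ) + (3 / 4) * hτ

theorem r1_eN2x_n (h : Lin τ c) (hτ : 0 ≤ τ) :
    0 ≤ 51 + 91 * τ + (c.eN2x) := by
  linear_combination
    (1 / 12) * h.p2_p3 + (2 / 3) * h.p2_eN2 + (1 / 6) * h.p3_k2Wv + (2 / 3) * h.k2N_eN2
    + (1 / 3) * h.wTk2N + (1 / 3) * h.wTk2W + (1 / 4) * (r1_p2y_n h hτ)
    + (5 / 12) * (r1_p3y_n h hτ) + (11 / 12) * (r1_p2x_n h hτ) + (1 / 12) * (r1_k2Wx_n h hτ)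
    + (7 / 12) * hτ

theorem r1_eN2y_p (h : Lin τ c) (hτ : 0 ≤ τ) :
    0 ≤ 62 + 108 * τ + (-c.eN2y) := by
  linear_combination
    (1 / 2) * h.p3_k2Wv + 2 * h.k2N_eN2 + h.wTk2N + h.wTk2W + (1 / 4) * (r1_p3x_p h hτ)
    + (r1_p3y_n h hτ) + (1 / 4) * (r1_k2Wx_n h hτ)

theorem r1_eN2y_n (h : Lin τ c) (hτ : 0 ≤ τ) :
    0 ≤ 25 + 47 * τ + (c.eN2y) := by
  linear_combination
    (2 / 3) * h.p1_eN2 + (1 / 3) * (r1_p1x_n h hτ) + (r1_p1y_n h hτ) + (1 / 3) * (r1_eN2x_p h hτ)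

theorem r1_eW1x_p (h : Lin τ c) (hτ : 0 ≤ τ) :
    0 ≤ 129 + 261 * τ + (-c.eW1x) := by
  linear_combination
    (3 / 8) * h.p2_p1 + 2 * h.p2_eW1 + (3 / 4) * h.p1_k2Nv + 6 * h.k2W_eW1 + (3 / 2) * h.wTk2N
    + (3 / 2) * h.wTk2W + (17 / 8) * (r1_p2x_p h hτ) + (9 / 8) * (r1_p2y_n h hτ)
    + (15 / 8) * (r1_p1y_n h hτ) + (3 / 2) * (r1_k2Wx_n h hτ) + (3 / 8) * (r1_k2Nx_p h hτ)
    + (1 / 8) * hτ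

theorem r1_eW1x_n (h : Lin τ c) (hτ : 0 ≤ τ) :
    0 ≤ 32 + 68 * τ + (c.eW1x) := by
  linear_combination
    (1 / 4) * h.p4_p1 + (3 / 8) * h.p4_k3Sv + (1 / 8) * h.p1_k2Nv + h.k2W_eW1 + h.k3W_eW1
    + (1 / 4) * h.wTk2N + (1 / 4) * h.wTk2W + (3 / 4) * h.wLk3W + (3 / 4) * h.wLk3S
    + (1 / 16) * (r1_p4y_n h hτ) + (3 / 16) * (r1_p1x_p h hτ) + (1 / 2) * (r1_p4x_p h hτ)
    + (1 / 4) * (r1_k2Wx_n h hτ) + (1 / 16) * (r1_k2Nx_p h hτ) + (3 / 16) * (r1_k3Sy_n h hτ)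
    + (1 / 4) * (r1_k3Wy_n h hτ) + (1 / 2) * hτ

theorem r1_eW1y_p (h : Lin τ c) (hτ : 0 ≤ τ) :
    0 ≤ 205 + 412 * τ + (-c.eW1y) := by
  linear_combination
    (1 / 2) * h.p1_k2Nv + 4 * h.k2W_eW1 + h.wTk2N + h.wTk2W + (1 / 4) * (r1_p1x_n h hτ)
    + (r1_p1y_n h hτ) + (r1_k2Wx_n h hτ) + (1 / 4) * (r1_k2Nx_p h hτ) + (r1_eW1x_p h hτ)
    + (3 / 4) * hτ

theorem r1_eW1y_n (h : Lin τ c) (hτ : 0 ≤ τ) :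
    0 ≤ 52 + 92 * τ + (c.eW1y) := by
  linear_combination
    (4 / 7) * h.p3_eW1 + (1 / 7) * (r1_p3x_p h hτ) + (r1_p3y_n h hτ) + (1 / 7) * (r1_eW1x_n h hτ)
    + (6 / 7) * hτ

theorem r1_eS1x_p (h : Lin τ c) (hτ : 0 ≤ τ) :
    0 ≤ 133 + 268 * τ + (-c.eS1x) := by
  linear_combination
    (3 / 80) * h.p2_p4 + (3 / 20) * h.p2_k1Nv + (3 / 10) * h.p4_p1 + 2 * h.p4_eS1
    + (3 / 5) * h.p1_k4Ev + (3 / 5) * h.k1E_k4E + 6 * h.k4S_eS1 + (3 / 10) * h.wRk1N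
    + (3 / 10) * h.wRk1E + (3 / 2) * h.wBk4S + (3 / 2) * h.wBk4E + (9 / 8) * (r1_p4y_p h hτ)
    + (3 / 2) * (r1_p1y_p h hτ) + (11 / 5) * (r1_p4x_p h hτ) + (3 / 10) * (r1_p2x_n h hτ)
    + (3 / 10) * (r1_k1Ey_p h hτ) + (3 / 40) * (r1_k1Ny_p h hτ) + (3 / 2) * (r1_k4Sx_n h hτ)
    + (11 / 16) * hτ

theorem r1_t1Wx_p (h : Lin τ c) (hτ : 0 ≤ τ) :
    0 ≤ 117 + 234 * τ + (-c.t1Wx) := by
  linear_combination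
    (4 / 9) * h.p4_eS1 + (2 / 3) * h.t1N_k1N + 2 * h.t1W_k2W + (4 / 3) * h.t1S_eS1
    + (1 / 3) * h.wTt1N + h.wLt1S + (1 / 3) * h.wBt1S + (1 / 3) * (r1_p4y_p h hτ)
    + (5 / 9) * (r1_p4x_p h hτ) + (1 / 3) * (r1_k1Ny_n h hτ) + (r1_k2Wx_p h hτ)
    + (4 / 9) * (r1_eS1x_p h hτ) + (1 / 9) * hτ

theorem r1_eS1y_p (h : Lin τ c) (hτ : 0 ≤ τ) :
    0 ≤ 27 + 52 * τ + (-c.eS1y) := by
  linear_combination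
    (3 / 88) * h.p2_p3 + (3 / 44) * h.p2_k3Wv + (6 / 11) * h.p3_eS1 + (2 / 11) * h.k3S_eS1
    + (3 / 22) * h.wLk3W + (3 / 22) * h.wLk3S + (15 / 88) * (r1_p2x_p h hτ)
    + (9 / 88) * (r1_p3x_p h hτ) + (81 / 88) * (r1_p3y_p h hτ) + (3 / 88) * (r1_k3Wy_p h hτ)
    + (1 / 22) * (r1_k3Sy_p h hτ) + (9 / 44) * hτ

theorem r1_eS1y_n (h : Lin τ c) (hτ : 0 ≤ τ) :
    0 ≤ 174 + 357 * τ + (c.eS1y) := by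
  linear_combination
    (1 / 20) * h.p2_p1 + (1 / 10) * h.p2_k1Nv + (2 / 5) * h.p1_k4Ev + (2 / 5) * h.k1E_k4E
    + 4 * h.k4S_eS1 + (1 / 5) * h.wRk1N + (1 / 5) * h.wRk1E + h.wBk4S + h.wBk4E
    + (3 / 20) * (r1_p1x_n h hτ) + (3 / 4) * (r1_p1y_p h hτ) + (1 / 4) * (r1_p2x_n h hτ)
    + (1 / 5) * (r1_k1Ey_p h hτ) + (1 / 20) * (r1_k1Ny_p h hτ) + (r1_k4Sx_n h hτ)
    + (r1_eS1x_p h hτ) + (1 / 4) * hτ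

theorem r1_eS2x_p (h : Lin τ c) (hτ : 0 ≤ τ) :
    0 ≤ 34 + 64 * τ + (-c.eS2x) := by
  linear_combination
    (1 / 120) * h.p2_p4 + (1 / 30) * h.p2_k1Nv + (1 / 15) * h.p4_p1 + (2 / 3) * h.p4_eS2
    + (2 / 15) * h.p1_k4Ev + (2 / 15) * h.k1E_k4E + (2 / 3) * h.k4S_eS2 + (1 / 15) * h.wRk1N
    + (1 / 15) * h.wRk1E + (1 / 3) * h.wBk4S + (1 / 3) * h.wBk4E + (1 / 4) * (r1_p4y_p h hτ)
    + (1 / 3) * (r1_p1y_p h hτ) + (14 / 15) * (r1_p4x_p h hτ) + (1 / 15) * (r1_p2x_n h hτ)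
    + (1 / 15) * (r1_k1Ey_p h hτ) + (1 / 60) * (r1_k1Ny_p h hτ) + (1 / 24) * hτ

theorem r1_eS2x_n (h : Lin τ c) (hτ : 0 ≤ τ) :
    0 ≤ 15 + 36 * τ + (c.eS2x) := by
  linear_combination
    (1 / 2) * h.p2_k3Wv + 2 * h.k3S_eS2 + h.wLk3W + h.wLk3S + (r1_p2x_p h hτ)
    + (1 / 4) * (r1_p2y_n h hτ) + (1 / 4) * (r1_k3Wy_p h hτ) + (1 / 2) * hτ

theorem r1_eS2y_p (h : Lin τ c) (hτ : 0 ≤ τ) :
    0 ≤ 32 + 61 * τ + (-c.eS2y) := by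
  linear_combination
    (2 / 3) * h.p3_eS2 + (1 / 3) * (r1_p3x_p h hτ) + (r1_p3y_p h hτ) + (1 / 3) * (r1_eS2x_n h hτ)

theorem r1_eS2y_n (h : Lin τ c) (hτ : 0 ≤ τ) :
    0 ≤ 18 + 38 * τ + (c.eS2y) := by
  linear_combination
    (1 / 20) * h.p2_p1 + (1 / 10) * h.p2_k1Nv + (2 / 5) * h.p1_k4Ev + (2 / 5) * h.k1E_k4E
    + 2 * h.k4S_eS2 + (1 / 5) * h.wRk1N + (1 / 5) * h.wRk1E + h.wBk4S + h.wBk4E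
    + (3 / 20) * (r1_p1x_n h hτ) + (3 / 4) * (r1_p1y_p h hτ) + (1 / 4) * (r1_p2x_n h hτ)
    + (1 / 5) * (r1_k1Ey_p h hτ) + (1 / 20) * (r1_k1Ny_p h hτ) + (1 / 4) * hτ

theorem r1_h1_p (h : Lin τ c) (hτ : 0 ≤ τ) :
    0 ≤ 1 + 7 * τ + (-c.h1) := by
  linear_combination
    (1 / 2) * h.p4_z1Ev + h.wRz1E + (r1_p4x_n h hτ) + (1 / 2) * hτ

theorem r1_h1_n (h : Lin τ c) (hτ : 0 ≤ τ) :
    0 ≤ 27 + 50 * τ + (c.h1) := by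
  linear_combination
    (1 / 2) * h.p2_z1Nv + h.wRz1N + (r1_p2x_n h hτ) + (1 / 2) * hτ

theorem r1_h3_p (h : Lin τ c) (hτ : 0 ≤ τ) :
    0 ≤ 27 + 49 * τ + (-c.h3) := by
  linear_combination
    (1 / 2) * h.p4_z3Sv + h.wLz3S + (r1_p4x_p h hτ) + (1 / 2) * hτ

theorem r1_h3_n (h : Lin τ c) (hτ : 0 ≤ τ) :
    0 ≤ 1 + 6 * τ + (c.h3) := by
  linear_combination
    (1 / 2) * h.p2_z3Wv + h.wLz3W + (r1_p2x_p h hτ) + (1 / 2) * hτ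

theorem r1_t1x_p (h : Lin τ c) (hτ : 0 ≤ τ) :
    0 ≤ 5 + 28 * τ + (-c.t1x) := by
  linear_combination
    2 * h.t1W_k3W + h.wTt1W + (r1_k3Wy_n h hτ)

theorem r1_t1x_n (h : Lin τ c) (hτ : 0 ≤ τ) :
    0 ≤ 46 + 97 * τ + (c.t1x) := by
  linear_combination
    2 * h.t1N_k1N + h.wTt1N + (r1_k1Ny_n h hτ)

theorem r1_t1y_p (h : Lin τ c) (hτ : 0 ≤ τ) :
    0 ≤ 94 + 187 * τ + (-c.t1y) := by
  linear_combination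
    (4 / 9) * h.p4_eS1 + (4 / 3) * h.t1S_eS1 + h.wLt1S + (1 / 3) * h.wBt1S
    + (1 / 3) * (r1_p4y_p h hτ) + (5 / 9) * (r1_p4x_p h hτ) + (4 / 9) * (r1_eS1x_p h hτ)
    + (1 / 3) * (r1_t1x_n h hτ) + (1 / 9) * hτ

theorem r1_t1y_n (h : Lin τ c) (hτ : 0 ≤ τ) :
    0 ≤ 23 + 47 * τ + (c.t1y) := by
  linear_combination
    2 * h.t1W_k2W + h.wLt1W + (r1_k2Wx_p h hτ)

theorem r1_t2x_p (h : Lin τ c) (hτ : 0 ≤ τ) :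
    0 ≤ 48 + 110 * τ + (-c.t2x) := by
  linear_combination
    2 * h.t2S_k3S + h.wBt2S + (r1_k3Sy_p h hτ)

theorem r1_t2x_n (h : Lin τ c) (hτ : 0 ≤ τ) :
    0 ≤ 3 + 15 * τ + (c.t2x) := by
  linear_combination
    2 * h.t2E_k1E + h.wBt2E + (r1_k1Ey_p h hτ)

theorem r1_eS1x_n (h : Lin τ c) (hτ : 0 ≤ τ) :
    0 ≤ 41 + 86 * τ + (c.eS1x) := by
  linear_combination
    h.t1S_eS1 + h.eS1_eS2 + (3 / 4) * h.wLt1S + (1 / 4) * h.wBt1S + (1 / 4) * (r1_eS2x_n h hτ)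
    + (1 / 4) * (r1_eS2y_p h hτ) + (1 / 4) * (r1_t1x_n h hτ) + (3 / 4) * (r1_t1y_n h hτ)
    + (1 / 4) * hτ

theorem r1_t2y_n (h : Lin τ c) (hτ : 0 ≤ τ) :
    0 ≤ 96 + 175 * τ + (c.t2y) := by
  linear_combination
    2 * h.t2N_k2N + h.wRt2N + (r1_k2Nx_n h hτ)

theorem r1_k1_p (h : Lin τ c) (hτ : 0 ≤ τ) :
    0 ≤ 15 + 34 * τ + (-c.k1) := by
  linear_combination
    (1 / 2) * h.p4_k1Ev + h.wRk1E + (r1_p4x_n h hτ) + (1 / 4) * (r1_p4y_p h hτ)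
    + (1 / 4) * (r1_k1Ey_n h hτ) + (3 / 4) * hτ

theorem r1_k1_n (h : Lin τ c) (hτ : 0 ≤ τ) :
    0 ≤ 32 + 59 * τ + (c.k1) := by
  linear_combination
    (1 / 2) * h.p2_k1Nv + h.wRk1N + (1 / 4) * (r1_p2y_n h hτ) + (r1_p2x_n h hτ)
    + (1 / 4) * (r1_k1Ny_p h hτ) + (1 / 4) * hτ

theorem r1_t2y_p (h : Lin τ c) (hτ : 0 ≤ τ) :
    0 ≤ 79 + 160 * τ + (-c.t2y) := by
  linear_combination
    (4 / 9) * h.p4_eS1 + (4 / 3) * h.t2S_eS1 + h.wLt2S + (1 / 3) * h.wBt2S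
    + (1 / 3) * (r1_p4y_p h hτ) + (5 / 9) * (r1_p4x_p h hτ) + (4 / 9) * (r1_eS1x_p h hτ)
    + (1 / 3) * (r1_t2x_n h hτ) + (4 / 9) * hτ

theorem r1_t2Nx_n (h : Lin τ c) (hτ : 0 ≤ τ) :
    0 ≤ 175 + 335 * τ + (c.t2Nx) := by
  linear_combination
    2 * h.t2N_k2N + (r1_k2Nx_n h hτ) + (r1_t2y_p h hτ)

theorem r1_k2_n (h : Lin τ c) (hτ : 0 ≤ τ) :
    0 ≤ 29 + 54 * τ + (c.k2) := by
  linear_combination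
    (1 / 2) * h.p1_k2Nv + h.wTk2N + (1 / 4) * (r1_p1x_n h hτ) + (r1_p1y_n h hτ)
    + (1 / 4) * (r1_k2Nx_p h hτ) + (3 / 4) * hτ

theorem r1_k3_p (h : Lin τ c) (hτ : 0 ≤ τ) :
    0 ≤ 31 + 58 * τ + (-c.k3) := by
  linear_combination
    (1 / 2) * h.p4_k3Sv + h.wLk3S + (1 / 4) * (r1_p4y_p h hτ) + (r1_p4x_p h hτ)
    + (1 / 4) * (r1_k3Sy_n h hτ)

theorem r1_k3_n (h : Lin τ c) (hτ : 0 ≤ τ) :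
    0 ≤ 15 + 34 * τ + (c.k3) := by
  linear_combination
    (1 / 2) * h.p2_k3Wv + h.wLk3W + (r1_p2x_p h hτ) + (1 / 4) * (r1_p2y_n h hτ)
    + (1 / 4) * (r1_k3Wy_p h hτ) + (1 / 2) * hτ

theorem r1_k4_p (h : Lin τ c) (hτ : 0 ≤ τ) :
    0 ≤ 33 + 60 * τ + (-c.k4) := by
  linear_combination
    (1 / 2) * h.p3_k4Sv + h.wBk4S + (1 / 4) * (r1_p3x_p h hτ) + (r1_p3y_p h hτ)
    + (1 / 4) * (r1_k4Sx_n h hτ)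

theorem r1_k2_p (h : Lin τ c) (hτ : 0 ≤ τ) :
    0 ≤ 47 + 84 * τ + (-c.k2) := by
  linear_combination
    (2 / 5) * h.p3_k2Wv + (2 / 5) * h.k2W_k3W + h.wTk2W + (1 / 5) * h.wLk3W
    + (1 / 5) * (r1_p3x_p h hτ) + (4 / 5) * (r1_p3y_n h hτ) + (1 / 5) * (r1_k3Wy_n h hτ)
    + (1 / 5) * (r1_k3_p h hτ) + (3 / 5) * hτ

theorem r1_k4_n (h : Lin τ c) (hτ : 0 ≤ τ) :
    0 ≤ 17 + 36 * τ + (c.k4) := by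
  linear_combination
    (2 / 5) * h.p1_k4Ev + (2 / 5) * h.k1E_k4E + (1 / 5) * h.wRk1E + h.wBk4E
    + (1 / 5) * (r1_p1x_n h hτ) + (4 / 5) * (r1_p1y_p h hτ) + (1 / 5) * (r1_k1Ey_p h hτ)
    + (1 / 5) * (r1_k1_n h hτ) + (2 / 5) * hτ

theorem r1_k4Sx_p (h : Lin τ c) (hτ : 0 ≤ τ) :
    0 ≤ 62 + 123 * τ + (-c.k4Sx) := by
  linear_combination
    (4 / 5) * h.p4_eS1 + 4 * h.k4S_eS1 + h.wBk4S + (3 / 5) * (r1_p4y_p h hτ) + (r1_p4x_p h hτ)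
    + (2 / 5) * (r1_eS1y_p h hτ) + (r1_k4_n h hτ) + (4 / 5) * hτ

theorem r1_t1Sx_p (h : Lin τ c) (hτ : 0 ≤ τ) :
    0 ≤ 85 + 172 * τ + (-c.t1Sx) := by
  linear_combination
    2 * h.t1S_k4S + (r1_t1y_n h hτ) + (r1_k4Sx_p h hτ)

theorem r1_gSu_p (h : Lin τ c) (hτ : 0 ≤ τ) :
    0 ≤ 25 + 49 * τ + (-c.gSu) := by
  linear_combination
    (7 / 55) * h.p4_gS + (57 / 55) * h.eS2_gS + (7 / 3520) * (r1_p4y_p h hτ)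
    + (791 / 3520) * (r1_p4x_p h hτ) + (969 / 3520) * (r1_eS2x_p h hτ)
    + (1767 / 3520) * (r1_eS2y_n h hτ) + (1107 / 3520) * hτ

theorem r1_gWu_p (h : Lin τ c) (hτ : 0 ≤ τ) :
    0 ≤ 19 + 36 * τ + (-c.gWu) := by
  linear_combination
    (46 / 223) * h.p2_gW + (114 / 223) * h.k2W_gWh + (3591 / 7136) * h.wTk2W
    + (2599 / 7136) * (r1_p2x_p h hτ) + (23 / 7136) * (r1_p2y_n h hτ)
    + (969 / 7136) * (r1_k2Wx_p h hτ) + (3591 / 7136) * (r1_k2_n h hτ) + (963 / 7136) * hτ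

theorem r1_gEu_p (h : Lin τ c) (hτ : 0 ≤ τ) :
    0 ≤ 40 + 77 * τ + (-c.gEu) := by
  linear_combination
    (46 / 223) * h.p4_gE + (114 / 223) * h.k4E_gEh + (3591 / 7136) * h.wBk4E
    + (2599 / 7136) * (r1_p4x_n h hτ) + (23 / 7136) * (r1_p4y_p h hτ)
    + (969 / 7136) * (r1_k4Ex_n h hτ) + (3591 / 7136) * (r1_k4_p h hτ) + (797 / 7136) * hτ

theorem r1_gEv_p (h : Lin τ c) (hτ : 0 ≤ τ) :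
    0 ≤ 7 + 17 * τ + (-c.gEv) := by
  linear_combination
    (4 / 57) * h.p4_gE + (28 / 57) * h.p1_gE + (113 / 912) * (r1_p4x_n h hτ)
    + (343 / 912) * (r1_p1x_n h hτ) + (1 / 912) * (r1_p4y_p h hτ) + (455 / 912) * (r1_p1y_p h hτ)
    + (199 / 456) * hτ

theorem r1_hNu_p (h : Lin τ c) (hτ : 0 ≤ τ) :
    0 ≤ 22 + 42 * τ + (-c.hNu) := by
  linear_combination
    (5 / 9) * h.p2_hN + (1 / 27) * h.eN2_hN + (65 / 144) * (r1_p2y_p h hτ)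
    + (25 / 48) * (r1_p2x_n h hτ) + (1 / 48) * (r1_eN2x_p h hτ) + (7 / 144) * (r1_eN2y_p h hτ)
    + (371 / 432) * hτ

theorem r1_hNu_n (h : Lin τ c) (hτ : 0 ≤ τ) :
    0 ≤ 50 + 93 * τ + (c.hNu) := by
  linear_combination
    5 * h.p1_hN + (1 / 3) * h.eN2_hN + (5 / 16) * (r1_p1x_p h hτ) + (15 / 16) * (r1_p1y_n h hτ)
    + (3 / 16) * (r1_eN2x_p h hτ) + (7 / 16) * (r1_eN2y_p h hτ) + (41 / 48) * hτ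

theorem r1_hNv_p (h : Lin τ c) (hτ : 0 ≤ τ) :
    0 ≤ 6 + 11 * τ + (-c.hNv) := by
  linear_combination
    (3 / 272) * h.p4_p3 + (7 / 17) * h.p4_hNv + (1 / 17) * h.p3_hNv + (3 / 8) * (r1_p4x_n h hτ)
    + (1 / 2) * (r1_p4y_n h hτ) + (1 / 8) * (r1_p3x_n h hτ) + (5 / 272) * hτ

theorem r1_gNv_p (h : Lin τ c) (hτ : 0 ≤ τ) :
    0 ≤ 6 + 12 * τ + (-c.gNv) := by
  linear_combination
    (32 / 53) * h.gN_hN + (r1_hNv_p h hτ) + (21 / 53) * hτ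

theorem r1_hNv_n (h : Lin τ c) (hτ : 0 ≤ τ) :
    0 ≤ 68 + 125 * τ + (c.hNv) := by
  linear_combination
    (8 / 15) * h.eN2_hN + (3 / 10) * (r1_eN2x_p h hτ) + (7 / 10) * (r1_eN2y_p h hτ)
    + (2 / 5) * (r1_hNu_n h hτ) + (13 / 15) * hτ

theorem r1_hWu_p (h : Lin τ c) (hτ : 0 ≤ τ) :
    0 ≤ 16 + 33 * τ + (-c.hWu) := by
  linear_combination
    (6 / 11) * h.p2_hW + (1 / 22) * h.k2W_eW1 + (2 / 55) * h.eW1_hW + (1 / 88) * h.wTk2W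
    + (45 / 88) * (r1_p2x_p h hτ) + (39 / 88) * (r1_p2y_p h hτ) + (1 / 88) * (r1_k2Wx_n h hτ)
    + (1 / 22) * (r1_eW1y_p h hτ) + (1 / 88) * (r1_k2_n h hτ) + (61 / 110) * hτ

theorem r1_hWv_p (h : Lin τ c) (hτ : 0 ≤ τ) :
    0 ≤ 15 + 26 * τ + (-c.hWv) := by
  linear_combination
    (3 / 272) * h.p4_p1 + (7 / 17) * h.p4_hWv + (1 / 17) * h.p1_hWv + (1 / 2) * (r1_p4y_n h hτ)
    + (1 / 8) * (r1_p1x_p h hτ) + (3 / 8) * (r1_p4x_p h hτ) + (5 / 272) * hτ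

theorem r1_gWv_p (h : Lin τ c) (hτ : 0 ≤ τ) :
    0 ≤ 15 + 27 * τ + (-c.gWv) := by
  linear_combination
    (32 / 53) * h.gW_hW + (r1_hWv_p h hτ) + (21 / 53) * hτ

theorem r1_hWu_n (h : Lin τ c) (hτ : 0 ≤ τ) :
    0 ≤ 138 + 289 * τ + (c.hWu) := by
  linear_combination
    (3 / 4) * h.p3_eS2 + 6 * h.p3_hW + (1 / 2) * h.k2W_eW1 + (2 / 5) * h.eW1_hW
    + (1 / 8) * h.wTk2W + (1 / 8) * (r1_k2Wx_n h hτ) + (1 / 2) * (r1_eW1y_p h hτ)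
    + (3 / 8) * (r1_eS2x_n h hτ) + (9 / 8) * (r1_eS2y_n h hτ) + (1 / 8) * (r1_k2_n h hτ)
    + (29 / 40) * hτ

theorem r1_hWv_n (h : Lin τ c) (hτ : 0 ≤ τ) :
    0 ≤ 242 + 494 * τ + (c.hWv) := by
  linear_combination
    (2 / 3) * h.k2W_eW1 + (8 / 15) * h.eW1_hW + (1 / 6) * h.wTk2W + (1 / 6) * (r1_k2Wx_n h hτ)
    + (2 / 3) * (r1_eW1y_p h hτ) + (1 / 6) * (r1_k2_n h hτ) + (2 / 3) * (r1_hWu_n h hτ)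
    + (29 / 30) * hτ

theorem r1_gSv_p (h : Lin τ c) (hτ : 0 ≤ τ) :
    0 ≤ 13 + 24 * τ + (-c.gSv) := by
  linear_combination
    (113 / 912) * h.p2_p3 + (113 / 1824) * h.p2_z1Nv + (113 / 1824) * h.p4_z1Ev
    + (4 / 57) * h.p4_gS + (28 / 57) * h.p3_gS + (113 / 912) * h.wRz1N + (113 / 912) * h.wRz1E
    + (115 / 456) * (r1_p3x_p h hτ) + (113 / 912) * (r1_p2y_p h hτ) + (1 / 912) * (r1_p4y_p h hτ)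
    + (3 / 8) * (r1_p3y_p h hτ) + (277 / 304) * hτ

theorem r1_gNu_p (h : Lin τ c) (hτ : 0 ≤ τ) :
    0 ≤ 22 + 47 * τ + (-c.gNu) := by
  linear_combination
    (1323 / 26560) * h.p2_p3 + (139 / 415) * h.p2_gN + (189 / 6640) * h.p3_k2Wv
    + (189 / 2656) * h.p3_eS2 + (189 / 415) * h.t1N_gNh + (567 / 2656) * h.t1S_eS2
    + (24 / 415) * h.k2N_gNh + (567 / 5312) * h.wRt1N + (11907 / 26560) * h.wTt1N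
    + (567 / 5312) * h.wLt1S + (567 / 5312) * h.wBt1S + (189 / 3320) * h.wTk2N
    + (189 / 3320) * h.wTk2W + (37 / 830) * (r1_p2y_p h hτ) + (899 / 1660) * (r1_p2x_n h hτ)
    + (189 / 13280) * (r1_k2Wx_n h hτ) + (51 / 3320) * (r1_k2Nx_n h hτ)
    + (189 / 2656) * (r1_eS2x_p h hτ) + (567 / 1660) * (r1_t1x_p h hτ) + (6943 / 26560) * hτ

theorem r1_eN1x_p (h : Lin τ c) (hτ : 0 ≤ τ) :
    0 ≤ 38 + 82 * τ + (-c.eN1x) := by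
  linear_combination
    (7 / 136) * h.p4_p3 + (1 / 17) * h.p4_k1Ev + (3 / 68) * h.p4_eS2 + (1 / 17) * h.p3_k2Wv
    + (3 / 68) * h.p3_eS2 + (6 / 17) * h.t2N_eN1 + (3 / 17) * h.t2S_eS2 + (14 / 17) * h.k1N_eN1
    + (8 / 17) * h.k2N_eN1 + (9 / 34) * h.wRt2N + (3 / 34) * h.wTt2N + (3 / 34) * h.wLt2S
    + (3 / 34) * h.wBt2S + (21 / 34) * h.wRk1N + (2 / 17) * h.wRk1E + (2 / 17) * h.wTk2N
    + (2 / 17) * h.wTk2W + (1 / 34) * (r1_k1Ey_n h hτ) + (7 / 34) * (r1_k1Ny_n h hτ)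
    + (1 / 34) * (r1_k2Wx_n h hτ) + (2 / 17) * (r1_k2Nx_p h hτ) + (1 / 2) * (r1_k1_p h hτ)
    + (3 / 17) * (r1_t2y_p h hτ) + (109 / 136) * hτ

theorem r1_s1_n (h : Lin τ c) (hτ : 0 ≤ τ) (e1 : c.s1 = |c.h1|) (e3 : c.s3 = |c.h3|) :
    0 ≤ c.s1 := e1 ▸ abs_nonneg _

theorem r1_s1_p (h : Lin τ c) (hτ : 0 ≤ τ) (e1 : c.s1 = |c.h1|) (e3 : c.s3 = |c.h3|) :
    0 ≤ 27 + 50 * τ - c.s1 := by
  rw [e1, sub_nonneg, abs_le]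
  constructor <;> linarith only [hτ, r1_h1_p h hτ, r1_h1_n h hτ]

theorem r1_s3_n (h : Lin τ c) (hτ : 0 ≤ τ) (e1 : c.s1 = |c.h1|) (e3 : c.s3 = |c.h3|) :
    0 ≤ c.s3 := e3 ▸ abs_nonneg _

theorem r1_s3_p (h : Lin τ c) (hτ : 0 ≤ τ) (e1 : c.s1 = |c.h1|) (e3 : c.s3 = |c.h3|) :
    0 ≤ 27 + 49 * τ - c.s3 := by
  rw [e3, sub_nonneg, abs_le]
  constructor <;> linarith only [hτ, r1_h3_p h hτ, r1_h3_n h hτ]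

theorem r1_z1Ey_n (h : Lin τ c) (hτ : 0 ≤ τ) (e1 : c.s1 = |c.h1|) (e3 : c.s3 = |c.h3|) :
    0 ≤ 72 + 138 * τ + (c.z1Ey) := by
  linear_combination
    (r1_k1Ey_n h hτ) + (r1_s1_p h hτ e1 e3) + 2 * h.z1E_k1E

theorem r1_z1Ny_p (h : Lin τ c) (hτ : 0 ≤ τ) (e1 : c.s1 = |c.h1|) (e3 : c.s3 = |c.h3|) :
    0 ≤ 33 + 79 * τ + (-c.z1Ny) := by
  linear_combination
    h.wTt1N + (r1_t1x_p h hτ) + (r1_s1_p h hτ e1 e3) + h.z1N_t1N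

theorem r1_z3Wy_p (h : Lin τ c) (hτ : 0 ≤ τ) (e1 : c.s1 = |c.h1|) (e3 : c.s3 = |c.h3|) :
    0 ≤ 74 + 147 * τ + (-c.z3Wy) := by
  linear_combination
    h.wTt1W + (r1_t1x_n h hτ) + (r1_s3_p h hτ e1 e3) + h.z3W_t1W

theorem r1_z3Sy_n (h : Lin τ c) (hτ : 0 ≤ τ) (e1 : c.s1 = |c.h1|) (e3 : c.s3 = |c.h3|) :
    0 ≤ 31 + 65 * τ + (c.z3Sy) := by
  linear_combination
    h.wBt2S + (r1_t2x_n h hτ) + (r1_s3_p h hτ e1 e3) + h.z3S_t2S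

theorem r1_gWu_n (h : Lin τ c) (hτ : 0 ≤ τ) (e1 : c.s1 = |c.h1|) (e3 : c.s3 = |c.h3|) :
    0 ≤ 44 + 83 * τ + (c.gWu) := by
  linear_combination
    (15 / 16) * h.wLz3W + (1 / 16) * (r1_z3Wy_n h hτ) + (1 / 2) * (r1_h3_p h hτ)
    + (7 / 8) * (r1_gWv_p h hτ) + (1 / 2) * (r1_s3_p h hτ e1 e3) + 4 * h.z3W_gWu + (9 / 16) * hτ

theorem r1_gNu_n (h : Lin τ c) (hτ : 0 ≤ τ) (e1 : c.s1 = |c.h1|) (e3 : c.s3 = |c.h3|) :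
    0 ≤ 24 + 49 * τ + (c.gNu) := by
  linear_combination
    (7 / 16) * h.p1_gN + (855 / 1024) * h.wRz1N + (343 / 1024) * (r1_p1x_n h hτ)
    + (455 / 1024) * (r1_p1y_n h hτ) + (57 / 1024) * (r1_z1Ny_n h hτ)
    + (57 / 128) * (r1_h1_p h hτ) + (57 / 128) * (r1_s1_p h hτ e1 e3) + (57 / 16) * h.z1N_gNu
    + (159 / 1024) * hτ

theorem r1_gNv_n (h : Lin τ c) (hτ : 0 ≤ τ) (e1 : c.s1 = |c.h1|) (e3 : c.s3 = |c.h3|) :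
    0 ≤ 22 + 46 * τ + (c.gNv) := by
  linear_combination
    (32 / 23) * h.k1N_gNh + (15 / 46) * h.wRk1N + (31 / 46) * (r1_k1Ny_p h hτ)
    + (15 / 46) * (r1_k1_p h hτ) + (8 / 23) * (r1_gNu_n h hτ e1 e3) + (7 / 23) * hτ

theorem r1_gSu_n (h : Lin τ c) (hτ : 0 ≤ τ) (e1 : c.s1 = |c.h1|) (e3 : c.s3 = |c.h3|) :
    0 ≤ 28 + 56 * τ + (c.gSu) := by
  linear_combination
    (7 / 16) * h.p3_gS + (855 / 1024) * h.wLz3S + (343 / 1024) * (r1_p3x_p h hτ)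
    + (455 / 1024) * (r1_p3y_p h hτ) + (57 / 1024) * (r1_z3Sy_p h hτ)
    + (57 / 128) * (r1_h3_n h hτ) + (57 / 128) * (r1_s3_p h hτ e1 e3) + (57 / 16) * h.z3S_gSu
    + (383 / 1024) * hτ

theorem r1_gSv_n (h : Lin τ c) (hτ : 0 ≤ τ) (e1 : c.s1 = |c.h1|) (e3 : c.s3 = |c.h3|) :
    0 ≤ 18 + 44 * τ + (c.gSv) := by
  linear_combination
    (32 / 23) * h.k3S_gSh + (15 / 46) * h.wLk3S + (31 / 46) * (r1_k3Sy_n h hτ)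
    + (15 / 46) * (r1_k3_n h hτ) + (8 / 23) * (r1_gSu_n h hτ e1 e3) + (27 / 46) * hτ

theorem r1_gEu_n (h : Lin τ c) (hτ : 0 ≤ τ) (e1 : c.s1 = |c.h1|) (e3 : c.s3 = |c.h3|) :
    0 ≤ 31 + 64 * τ + (c.gEu) := by
  linear_combination
    (7 / 16) * h.p1_gE + (855 / 1024) * h.wRz1E + (343 / 1024) * (r1_p1x_n h hτ)
    + (57 / 1024) * (r1_z1Ey_p h hτ) + (455 / 1024) * (r1_p1y_p h hτ)
    + (57 / 128) * (r1_h1_n h hτ) + (57 / 128) * (r1_s1_p h hτ e1 e3) + (57 / 16) * h.z1E_gEu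
    + (349 / 1024) * hτ

theorem r1_gWv_n (h : Lin τ c) (hτ : 0 ≤ τ) (e1 : c.s1 = |c.h1|) (e3 : c.s3 = |c.h3|) :
    0 ≤ 41 + 83 * τ + (c.gWv) := by
  linear_combination
    (16 / 15) * h.k3W_gWh + (1 / 4) * h.wLz3W + (1 / 4) * h.wLk3W + (1 / 60) * (r1_z3Wy_n h hτ)
    + (31 / 60) * (r1_k3Wy_p h hτ) + (2 / 15) * (r1_h3_p h hτ) + (1 / 4) * (r1_k3_p h hτ)
    + (2 / 15) * (r1_s3_p h hτ e1 e3) + (16 / 15) * h.z3W_gWu + (3 / 5) * hτ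

theorem r1_gEv_n (h : Lin τ c) (hτ : 0 ≤ τ) (e1 : c.s1 = |c.h1|) (e3 : c.s3 = |c.h3|) :
    0 ≤ 39 + 76 * τ + (c.gEv) := by
  linear_combination
    (16 / 15) * h.k1E_gEh + (1 / 4) * h.wRz1E + (1 / 4) * h.wRk1E + (1 / 60) * (r1_z1Ey_p h hτ)
    + (31 / 60) * (r1_k1Ey_n h hτ) + (2 / 15) * (r1_h1_n h hτ) + (1 / 4) * (r1_k1_n h hτ)
    + (2 / 15) * (r1_s1_p h hτ e1 e3) + (16 / 15) * h.z1E_gEu + (53 / 60) * hτ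

theorem ab_le {A B τ x a b a' b' : ℝ} (hτ : 0 ≤ τ) (h1 : 0 ≤ a + b * τ + -x)
    (h2 : 0 ≤ a' + b' * τ + x) (e : a ≤ A ∧ b ≤ B ∧ a' ≤ A ∧ b' ≤ B) : |x| ≤ A + B * τ := by
  obtain ⟨e1, e2, e3, e4⟩ := e
  rw [abs_le]; constructor <;> nlinarith

theorem r1_bnd (h : Lin τ c) (hτ : 0 ≤ τ) (e1 : c.s1 = |c.h1|) (e3 : c.s3 = |c.h3|) :
    Bnd (322 + 614 * τ) c where
  p2x := ab_le hτ (r1_p2x_p h hτ) (r1_p2x_n h hτ) (by norm_num)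
  p2y := ab_le hτ (r1_p2y_p h hτ) (r1_p2y_n h hτ) (by norm_num)
  p4x := ab_le hτ (r1_p4x_p h hτ) (r1_p4x_n h hτ) (by norm_num)
  p4y := ab_le hτ (r1_p4y_p h hτ) (r1_p4y_n h hτ) (by norm_num)
  p1x := ab_le hτ (r1_p1x_p h hτ) (r1_p1x_n h hτ) (by norm_num)
  p1y := ab_le hτ (r1_p1y_p h hτ) (r1_p1y_n h hτ) (by norm_num)
  p3x := ab_le hτ (r1_p3x_p h hτ) (r1_p3x_n h hτ) (by norm_num)
  p3y := ab_le hτ (r1_p3y_p h hτ) (r1_p3y_n h hτ) (by norm_num)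
  z1Nx := ab_le hτ (r1_z1Nx_p h hτ) (r1_z1Nx_n h hτ) (by norm_num)
  z1Ny := ab_le hτ (r1_z1Ny_p h hτ e1 e3) (r1_z1Ny_n h hτ) (by norm_num)
  z1Ex := ab_le hτ (r1_z1Ex_p h hτ) (r1_z1Ex_n h hτ) (by norm_num)
  z1Ey := ab_le hτ (r1_z1Ey_p h hτ) (r1_z1Ey_n h hτ e1 e3) (by norm_num)
  z3Wx := ab_le hτ (r1_z3Wx_p h hτ) (r1_z3Wx_n h hτ) (by norm_num)
  z3Wy := ab_le hτ (r1_z3Wy_p h hτ e1 e3) (r1_z3Wy_n h hτ) (by norm_num)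
  z3Sx := ab_le hτ (r1_z3Sx_p h hτ) (r1_z3Sx_n h hτ) (by norm_num)
  z3Sy := ab_le hτ (r1_z3Sy_p h hτ) (r1_z3Sy_n h hτ e1 e3) (by norm_num)
  t1Nx := ab_le hτ (r1_t1Nx_p h hτ) (r1_t1Nx_n h hτ) (by norm_num)
  t1Ny := ab_le hτ (r1_t1Ny_p h hτ) (r1_t1Ny_n h hτ) (by norm_num)
  t1Wx := ab_le hτ (r1_t1Wx_p h hτ) (r1_t1Wx_n h hτ) (by norm_num)
  t1Wy := ab_le hτ (r1_t1Wy_p h hτ) (r1_t1Wy_n h hτ) (by norm_num)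
  t1Sx := ab_le hτ (r1_t1Sx_p h hτ) (r1_t1Sx_n h hτ) (by norm_num)
  t1Sy := ab_le hτ (r1_t1Sy_p h hτ) (r1_t1Sy_n h hτ) (by norm_num)
  t2Nx := ab_le hτ (r1_t2Nx_p h hτ) (r1_t2Nx_n h hτ) (by norm_num)
  t2Ny := ab_le hτ (r1_t2Ny_p h hτ) (r1_t2Ny_n h hτ) (by norm_num)
  t2Sx := ab_le hτ (r1_t2Sx_p h hτ) (r1_t2Sx_n h hτ) (by norm_num)
  t2Sy := ab_le hτ (r1_t2Sy_p h hτ) (r1_t2Sy_n h hτ) (by norm_num)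
  t2Ex := ab_le hτ (r1_t2Ex_p h hτ) (r1_t2Ex_n h hτ) (by norm_num)
  t2Ey := ab_le hτ (r1_t2Ey_p h hτ) (r1_t2Ey_n h hτ) (by norm_num)
  k1Nx := ab_le hτ (r1_k1Nx_p h hτ) (r1_k1Nx_n h hτ) (by norm_num)
  k1Ny := ab_le hτ (r1_k1Ny_p h hτ) (r1_k1Ny_n h hτ) (by norm_num)
  k1Ex := ab_le hτ (r1_k1Ex_p h hτ) (r1_k1Ex_n h hτ) (by norm_num)
  k1Ey := ab_le hτ (r1_k1Ey_p h hτ) (r1_k1Ey_n h hτ) (by norm_num)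
  k2Nx := ab_le hτ (r1_k2Nx_p h hτ) (r1_k2Nx_n h hτ) (by norm_num)
  k2Ny := ab_le hτ (r1_k2Ny_p h hτ) (r1_k2Ny_n h hτ) (by norm_num)
  k2Wx := ab_le hτ (r1_k2Wx_p h hτ) (r1_k2Wx_n h hτ) (by norm_num)
  k2Wy := ab_le hτ (r1_k2Wy_p h hτ) (r1_k2Wy_n h hτ) (by norm_num)
  k3Wx := ab_le hτ (r1_k3Wx_p h hτ) (r1_k3Wx_n h hτ) (by norm_num)
  k3Wy := ab_le hτ (r1_k3Wy_p h hτ) (r1_k3Wy_n h hτ) (by norm_num)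
  k3Sx := ab_le hτ (r1_k3Sx_p h hτ) (r1_k3Sx_n h hτ) (by norm_num)
  k3Sy := ab_le hτ (r1_k3Sy_p h hτ) (r1_k3Sy_n h hτ) (by norm_num)
  k4Sx := ab_le hτ (r1_k4Sx_p h hτ) (r1_k4Sx_n h hτ) (by norm_num)
  k4Sy := ab_le hτ (r1_k4Sy_p h hτ) (r1_k4Sy_n h hτ) (by norm_num)
  k4Ex := ab_le hτ (r1_k4Ex_p h hτ) (r1_k4Ex_n h hτ) (by norm_num)
  k4Ey := ab_le hτ (r1_k4Ey_p h hτ) (r1_k4Ey_n h hτ) (by norm_num)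
  eN1x := ab_le hτ (r1_eN1x_p h hτ) (r1_eN1x_n h hτ) (by norm_num)
  eN1y := ab_le hτ (r1_eN1y_p h hτ) (r1_eN1y_n h hτ) (by norm_num)
  eN2x := ab_le hτ (r1_eN2x_p h hτ) (r1_eN2x_n h hτ) (by norm_num)
  eN2y := ab_le hτ (r1_eN2y_p h hτ) (r1_eN2y_n h hτ) (by norm_num)
  eW1x := ab_le hτ (r1_eW1x_p h hτ) (r1_eW1x_n h hτ) (by norm_num)
  eW1y := ab_le hτ (r1_eW1y_p h hτ) (r1_eW1y_n h hτ) (by norm_num)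
  eS1x := ab_le hτ (r1_eS1x_p h hτ) (r1_eS1x_n h hτ) (by norm_num)
  eS1y := ab_le hτ (r1_eS1y_p h hτ) (r1_eS1y_n h hτ) (by norm_num)
  eS2x := ab_le hτ (r1_eS2x_p h hτ) (r1_eS2x_n h hτ) (by norm_num)
  eS2y := ab_le hτ (r1_eS2y_p h hτ) (r1_eS2y_n h hτ) (by norm_num)
  s1 := abs_le.2 ⟨by linarith only [hτ, r1_s1_n h hτ e1 e3], by linarith only [hτ, r1_s1_p h hτ e1 e3]⟩
  h1 := ab_le hτ (r1_h1_p h hτ) (r1_h1_n h hτ) (by norm_num)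
  s3 := abs_le.2 ⟨by linarith only [hτ, r1_s3_n h hτ e1 e3], by linarith only [hτ, r1_s3_p h hτ e1 e3]⟩
  h3 := ab_le hτ (r1_h3_p h hτ) (r1_h3_n h hτ) (by norm_num)
  t1x := ab_le hτ (r1_t1x_p h hτ) (r1_t1x_n h hτ) (by norm_num)
  t1y := ab_le hτ (r1_t1y_p h hτ) (r1_t1y_n h hτ) (by norm_num)
  t2x := ab_le hτ (r1_t2x_p h hτ) (r1_t2x_n h hτ) (by norm_num)
  t2y := ab_le hτ (r1_t2y_p h hτ) (r1_t2y_n h hτ) (by norm_num)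
  k1 := ab_le hτ (r1_k1_p h hτ) (r1_k1_n h hτ) (by norm_num)
  k2 := ab_le hτ (r1_k2_p h hτ) (r1_k2_n h hτ) (by norm_num)
  k3 := ab_le hτ (r1_k3_p h hτ) (r1_k3_n h hτ) (by norm_num)
  k4 := ab_le hτ (r1_k4_p h hτ) (r1_k4_n h hτ) (by norm_num)
  gNu := ab_le hτ (r1_gNu_p h hτ) (r1_gNu_n h hτ e1 e3) (by norm_num)
  gNv := ab_le hτ (r1_gNv_p h hτ) (r1_gNv_n h hτ e1 e3) (by norm_num)
  gWu := ab_le hτ (r1_gWu_p h hτ) (r1_gWu_n h hτ e1 e3) (by norm_num)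
  gWv := ab_le hτ (r1_gWv_p h hτ) (r1_gWv_n h hτ e1 e3) (by norm_num)
  gSu := ab_le hτ (r1_gSu_p h hτ) (r1_gSu_n h hτ e1 e3) (by norm_num)
  gSv := ab_le hτ (r1_gSv_p h hτ) (r1_gSv_n h hτ e1 e3) (by norm_num)
  gEu := ab_le hτ (r1_gEu_p h hτ) (r1_gEu_n h hτ e1 e3) (by norm_num)
  gEv := ab_le hτ (r1_gEv_p h hτ) (r1_gEv_n h hτ e1 e3) (by norm_num)
  hNu := ab_le hτ (r1_hNu_p h hτ) (r1_hNu_n h hτ) (by norm_num)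
  hNv := ab_le hτ (r1_hNv_p h hτ) (r1_hNv_n h hτ) (by norm_num)
  hWu := ab_le hτ (r1_hWu_p h hτ) (r1_hWu_n h hτ) (by norm_num)
  hWv := ab_le hτ (r1_hWv_p h hτ) (r1_hWv_n h hτ) (by norm_num)

end Pool.Agent.P.MP_dba4bb_co.Ex
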