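import Pool.Agent.P.MP_dba4bb_co.Ex.Lin2

/-! Pinned nodes near the maximisers. -/

namespace Pool.Agent.P.MP_dba4bb_co.Ex

theorem sq_le_box {x r m : ℝ} (h1 : -r ≤ x) (h2 : x ≤ r) (h3 : x ≤ m) (h4 : -x ≤ m) :
    x ^ 2 ≤ r * m := by
  rcases le_total 0 x with h | h <;> nlinarith

theorem pin_abs {τ x a a' b b' B : ℝ} (hτ : 0 ≤ τ) (h1 : 0 ≤ a + b * τ + -x)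
    (h2 : 0 ≤ a' + b' * τ + x) (e : a' = -a ∧ b ≤ B ∧ b' ≤ B) : |x - a| ≤ B * τ := by
  obtain ⟨e1, e2, e3⟩ := e
  rw [abs_le]; constructor <;> nlinarith

theorem sq1 {x a Ω : ℝ} (h : |x - a| ≤ Ω) (h1 : Ω ≤ 1) : (x - a) ^ 2 ≤ Ω := by
  have := sq_le_sq' (abs_le.1 h).1 (abs_le.1 h).2
  nlinarith [abs_nonneg (x - a)]

theorem sq2 {x a y b Ω : ℝ} (h : |x - a| ≤ Ω) (h' : |y - b| ≤ Ω) (h1 : Ω ≤ 1) :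
    (x - y - (a - b)) ^ 2 ≤ 4 * Ω := by
  nlinarith [sq1 h h1, sq1 h' h1, sq_nonneg (x - a + (y - b))]

theorem prod_le {x y l1 u1 l2 u2 c Ω : ℝ} (h0 : 0 ≤ Ω) (h1 : Ω ≤ 1)
    (hx : l1 - Ω ≤ x ∧ x ≤ u1 + Ω) (hy : l2 - Ω ≤ y ∧ y ≤ u2 + Ω)
    (e : l1 * l2 ≤ c ∧ l1 * u2 ≤ c ∧ u1 * l2 ≤ c ∧ u1 * u2 ≤ c ∧ -8 ≤ l1 ∧ l1 ≤ u1 ∧ u1 ≤ 8 ∧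
      -8 ≤ l2 ∧ l2 ≤ u2 ∧ u2 ≤ 8) : x * y ≤ c + 17 * Ω := by
  obtain ⟨e1, e2, e3, e4, a1, a2, a3, b1, b2, b3⟩ := e
  have cl : ∀ {l u z : ℝ}, l ≤ u → l - Ω ≤ z ∧ z ≤ u + Ω →
      ∃ z0, l ≤ z0 ∧ z0 ≤ u ∧ -Ω ≤ z - z0 ∧ z - z0 ≤ Ω := fun {l u z} h hz => by
    rcases le_total z l with c1 | c1
    · exact ⟨l, le_rfl, h, by linarith [hz.1], by linarith⟩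
    rcases le_total z u with c2 | c2
    · exact ⟨z, c1, c2, by linarith, by linarith⟩
    · exact ⟨u, h, le_rfl, by linarith, by linarith [hz.2]⟩
  obtain ⟨x0, p1, p2, p3, p4⟩ := cl a2 hx
  obtain ⟨y0, q1, q2, q3, q4⟩ := cl b2 hy
  have k0 : x0 * y0 ≤ c := by
    rcases le_total 0 y0 with s | s
    · have : x0 * y0 ≤ u1 * y0 := mul_le_mul_of_nonneg_right p2 s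
      rcases le_total 0 u1 with s' | s' <;> nlinarith
    · have : x0 * y0 ≤ l1 * y0 := mul_le_mul_of_nonpos_right p1 s
      rcases le_total 0 l1 with s' | s' <;> nlinarith
  have m : ∀ {a b A B : ℝ}, -A ≤ a → a ≤ A → -B ≤ b → b ≤ B → a * b ≤ A * B :=
    fun h1 h2 h3 h4 => by nlinarith
  have k1 := m p3 p4 (b1.trans q1) (q2.trans b3)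
  have k2 := m q3 q4 (a1.trans p1) (p2.trans a3)
  have k3 := m p3 p4 q3 q4
  nlinarith

structure PinIP (Ω : ℝ) (c : Cfg) : Prop where
  p2x : |c.p2x - 0| ≤ Ω
  p2y : |c.p2y - 1| ≤ Ω
  p4x : |c.p4x - 0| ≤ Ω
  p4y : |c.p4y - 1| ≤ Ω
  p3x : |c.p3x - 0| ≤ Ω
  p3y : |c.p3y - 1| ≤ Ω
  z1Nx : |c.z1Nx - 0| ≤ Ω
  z1Ny : |c.z1Ny - 1| ≤ Ω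
  z1Ex : |c.z1Ex - 0| ≤ Ω
  z1Ey : |c.z1Ey - (-3)| ≤ Ω
  z3Wx : |c.z3Wx - 0| ≤ Ω
  z3Wy : |c.z3Wy - 1| ≤ Ω
  z3Sx : |c.z3Sx - 0| ≤ Ω
  z3Sy : |c.z3Sy - 1| ≤ Ω
  t2Nx : |c.t2Nx - 0| ≤ Ω
  t2Sx : |c.t2Sx - 0| ≤ Ω
  t2Sy : |c.t2Sy - (-1)| ≤ Ω
  t2Ey : |c.t2Ey - (-1)| ≤ Ω
  k2Nx : |c.k2Nx - 0| ≤ Ω
  k2Ny : |c.k2Ny - 1| ≤ Ω
  k2Wx : |c.k2Wx - 0| ≤ Ω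
  k2Wy : |c.k2Wy - 1| ≤ Ω
  k3Wx : |c.k3Wx - 0| ≤ Ω
  k3Wy : |c.k3Wy - 1| ≤ Ω
  k3Sx : |c.k3Sx - 0| ≤ Ω
  k3Sy : |c.k3Sy - 1| ≤ Ω
  eN1x : |c.eN1x - 0| ≤ Ω
  eN1y : |c.eN1y - 1| ≤ Ω
  eW1x : |c.eW1x - 0| ≤ Ω
  eW1y : |c.eW1y - 1| ≤ Ω
  eS2x : |c.eS2x - 0| ≤ Ω
  eS2y : |c.eS2y - 1| ≤ Ω
  s1 : |c.s1 - 0| ≤ Ω
  h1 : |c.h1 - 0| ≤ Ω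
  s3 : |c.s3 - 0| ≤ Ω
  h3 : |c.h3 - 0| ≤ Ω
  t2x : |c.t2x - 2| ≤ Ω
  t2y : |c.t2y - 0| ≤ Ω
  k2 : |c.k2 - 0| ≤ Ω
  k3 : |c.k3 - 0| ≤ Ω
  hNu : |c.hNu - (1 / 2)| ≤ Ω
  hNv : |c.hNv - (-1 / 2)| ≤ Ω
  f0 : 0 - Ω ≤ c.z1Ex - c.t2Ex - c.h1 + c.t2y ∧ c.z1Ex - c.t2Ex - c.h1 + c.t2y ≤ 2 + Ω
  f1 : 0 - Ω ≤ c.z1Ex - c.t2Ex + c.h1 - c.t2y ∧ c.z1Ex - c.t2Ex + c.h1 - c.t2y ≤ 2 + Ω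
  f2 : 0 - Ω ≤ c.t2Ny - c.k2Ny + c.t2x - c.k2 ∧ c.t2Ny - c.k2Ny + c.t2x - c.k2 ≤ 2 + Ω
  f3 : (-4) - Ω ≤ c.t2Ny - c.k2Ny - c.t2x + c.k2 ∧ c.t2Ny - c.k2Ny - c.t2x + c.k2 ≤ (-2) + Ω
  f4 : 0 - Ω ≤ c.p1x ∧ c.p1x ≤ 2 + Ω
  f5 : (-1) - Ω ≤ c.p1y ∧ c.p1y ≤ 1 + Ω

structure PinIQ (Ω : ℝ) (c : Cfg) : Prop where
  p2x : |c.p2x - 0| ≤ Ω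
  p2y : |c.p2y - 1| ≤ Ω
  p4x : |c.p4x - 0| ≤ Ω
  p4y : |c.p4y - 1| ≤ Ω
  p3x : |c.p3x - 0| ≤ Ω
  p3y : |c.p3y - 1| ≤ Ω
  z1Nx : |c.z1Nx - 0| ≤ Ω
  z1Ny : |c.z1Ny - 1| ≤ Ω
  z1Ey : |c.z1Ey - (-3)| ≤ Ω
  z3Wx : |c.z3Wx - 0| ≤ Ω
  z3Wy : |c.z3Wy - 1| ≤ Ω
  z3Sx : |c.z3Sx - 0| ≤ Ω
  z3Sy : |c.z3Sy - 1| ≤ Ω
  t2Sx : |c.t2Sx - 0| ≤ Ω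
  t2Sy : |c.t2Sy - (-1)| ≤ Ω
  t2Ey : |c.t2Ey - (-1)| ≤ Ω
  k2Nx : |c.k2Nx - 0| ≤ Ω
  k2Ny : |c.k2Ny - 1| ≤ Ω
  k2Wx : |c.k2Wx - 0| ≤ Ω
  k2Wy : |c.k2Wy - 1| ≤ Ω
  k3Wx : |c.k3Wx - 0| ≤ Ω
  k3Wy : |c.k3Wy - 1| ≤ Ω
  k3Sx : |c.k3Sx - 0| ≤ Ω
  k3Sy : |c.k3Sy - 1| ≤ Ω
  eN1x : |c.eN1x - 0| ≤ Ω
  eN1y : |c.eN1y - 1| ≤ Ω
  s1 : |c.s1 - 0| ≤ Ω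
  h1 : |c.h1 - 0| ≤ Ω
  s3 : |c.s3 - 0| ≤ Ω
  h3 : |c.h3 - 0| ≤ Ω
  t2x : |c.t2x - 2| ≤ Ω
  t2y : |c.t2y - 0| ≤ Ω
  k2 : |c.k2 - 0| ≤ Ω
  k3 : |c.k3 - 0| ≤ Ω
  gNu : |c.gNu - (1 / 2)| ≤ Ω
  gNv : |c.gNv - (-1 / 2)| ≤ Ω
  gSu : |c.gSu - (-1 / 2)| ≤ Ω
  gSv : |c.gSv - (1 / 2)| ≤ Ω
  hNu : |c.hNu - (1 / 2)| ≤ Ω
  hNv : |c.hNv - (-1 / 2)| ≤ Ω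
  f0 : 0 - Ω ≤ c.z1Ex - c.t2Ex - c.h1 + c.t2y ∧ c.z1Ex - c.t2Ex - c.h1 + c.t2y ≤ 2 + Ω
  f1 : 0 - Ω ≤ c.z1Ex - c.t2Ex + c.h1 - c.t2y ∧ c.z1Ex - c.t2Ex + c.h1 - c.t2y ≤ 2 + Ω

structure PinII (Ω : ℝ) (c : Cfg) : Prop where
  p2x : |c.p2x - (-1 / 2)| ≤ Ω
  p2y : |c.p2y - 1| ≤ Ω
  p4x : |c.p4x - (1 / 2)| ≤ Ω
  p4y : |c.p4y - 1| ≤ Ω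
  p3x : |c.p3x - 0| ≤ Ω
  p3y : |c.p3y - (1 / 2)| ≤ Ω
  z1Nx : |c.z1Nx - 0| ≤ Ω
  z1Ny : |c.z1Ny - (5 / 2)| ≤ Ω
  z1Ex : |c.z1Ex - 0| ≤ Ω
  z1Ey : |c.z1Ey - (-5 / 2)| ≤ Ω
  z3Wx : |c.z3Wx - 0| ≤ Ω
  z3Wy : |c.z3Wy - (1 / 2)| ≤ Ω
  z3Sx : |c.z3Sx - 0| ≤ Ω
  z3Sy : |c.z3Sy - (-1 / 2)| ≤ Ω
  t1Ny : |c.t1Ny - 1| ≤ Ω
  t1Wx : |c.t1Wx - 0| ≤ Ω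
  t1Wy : |c.t1Wy - 1| ≤ Ω
  t1Sx : |c.t1Sx - 0| ≤ Ω
  t1Sy : |c.t1Sy - (-1)| ≤ Ω
  t2Sy : |c.t2Sy - (-1)| ≤ Ω
  t2Ey : |c.t2Ey - (-1)| ≤ Ω
  k2Nx : |c.k2Nx - (-1)| ≤ Ω
  k2Ny : |c.k2Ny - 1| ≤ Ω
  k2Wx : |c.k2Wx - (-1)| ≤ Ω
  k2Wy : |c.k2Wy - 1| ≤ Ω
  k3Wx : |c.k3Wx - 0| ≤ Ω
  k3Wy : |c.k3Wy - 0| ≤ Ω
  k3Sx : |c.k3Sx - 0| ≤ Ω
  k3Sy : |c.k3Sy - 0| ≤ Ω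
  eN1x : |c.eN1x - (-7 / 8)| ≤ Ω
  eN1y : |c.eN1y - (13 / 8)| ≤ Ω
  eN2x : |c.eN2x - (-3 / 4)| ≤ Ω
  eN2y : |c.eN2y - (7 / 4)| ≤ Ω
  eS2x : |c.eS2x - (3 / 4)| ≤ Ω
  eS2y : |c.eS2y - (1 / 4)| ≤ Ω
  s1 : |c.s1 - (1 / 2)| ≤ Ω
  h1 : |c.h1 - (-1 / 2)| ≤ Ω
  s3 : |c.s3 - (1 / 2)| ≤ Ω
  h3 : |c.h3 - (1 / 2)| ≤ Ω
  t1x : |c.t1x - 1| ≤ Ω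
  t1y : |c.t1y - 1| ≤ Ω
  t2x : |c.t2x - 1| ≤ Ω
  k2 : |c.k2 - (3 / 4)| ≤ Ω
  k3 : |c.k3 - (3 / 4)| ≤ Ω
  gNu : |c.gNu - (153 / 128)| ≤ Ω
  gNv : |c.gNv - (-11 / 16)| ≤ Ω
  gSu : |c.gSu - (25 / 128)| ≤ Ω
  gSv : |c.gSv - (5 / 16)| ≤ Ω
  hNu : |c.hNu - (25 / 32)| ≤ Ω
  hNv : |c.hNv - (-11 / 16)| ≤ Ω
  f0 : (-3 / 2) - Ω ≤ c.z1Nx - c.t1Nx + c.h1 - c.t1y ∧ c.z1Nx - c.t1Nx + c.h1 - c.t1y ≤ (1 / 2) + Ω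
  f1 : (3 / 2) - Ω ≤ c.z1Nx - c.t1Nx - c.h1 + c.t1y ∧ c.z1Nx - c.t1Nx - c.h1 + c.t1y ≤ (7 / 2) + Ω
  f2 : (-1 / 2) - Ω ≤ c.z1Ex - c.t2Ex - c.h1 + c.t2y ∧ c.z1Ex - c.t2Ex - c.h1 + c.t2y ≤ (3 / 2) + Ω
  f3 : (-3 / 2) - Ω ≤ c.z1Ex - c.t2Ex + c.h1 - c.t2y ∧ c.z1Ex - c.t2Ex + c.h1 - c.t2y ≤ (5 / 2) + Ω
  f4 : (-1 / 2) - Ω ≤ c.z3Sx - c.t2Sx + c.h3 - c.t2y ∧ c.z3Sx - c.t2Sx + c.h3 - c.t2y ≤ (3 / 2) + Ω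
  f5 : (-7 / 2) - Ω ≤ c.z3Sx - c.t2Sx - c.h3 + c.t2y ∧ c.z3Sx - c.t2Sx - c.h3 + c.t2y ≤ (1 / 2) + Ω
  f6 : (-7 / 4) - Ω ≤ c.t2Sx - c.k3Sx + c.t2y - c.k3 ∧ c.t2Sx - c.k3Sx + c.t2y - c.k3 ≤ (1 / 4) + Ω
  f7 : (-1 / 4) - Ω ≤ c.t2Sx - c.k3Sx - c.t2y + c.k3 ∧ c.t2Sx - c.k3Sx - c.t2y + c.k3 ≤ (15 / 4) + Ω

structure PinIII (Ω : ℝ) (c : Cfg) : Prop where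
  p2x : |c.p2x - (1 / 2)| ≤ Ω
  p2y : |c.p2y - 1| ≤ Ω
  p4x : |c.p4x - (-1 / 2)| ≤ Ω
  p4y : |c.p4y - 1| ≤ Ω
  p1x : |c.p1x - 0| ≤ Ω
  p1y : |c.p1y - (1 / 2)| ≤ Ω
  z1Nx : |c.z1Nx - 0| ≤ Ω
  z1Ny : |c.z1Ny - (1 / 2)| ≤ Ω
  z1Ex : |c.z1Ex - 0| ≤ Ω
  z1Ey : |c.z1Ey - (-1 / 2)| ≤ Ω
  z3Wx : |c.z3Wx - 0| ≤ Ω
  z3Wy : |c.z3Wy - (5 / 2)| ≤ Ω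
  z3Sx : |c.z3Sx - 0| ≤ Ω
  z3Sy : |c.z3Sy - (-5 / 2)| ≤ Ω
  t2Nx : |c.t2Nx - 0| ≤ Ω
  t2Ny : |c.t2Ny - 1| ≤ Ω
  t2Sx : |c.t2Sx - 0| ≤ Ω
  t2Sy : |c.t2Sy - (-1)| ≤ Ω
  t2Ex : |c.t2Ex - 0| ≤ Ω
  t2Ey : |c.t2Ey - (-1)| ≤ Ω
  k2Nx : |c.k2Nx - 1| ≤ Ω
  k2Ny : |c.k2Ny - 1| ≤ Ω
  k2Wx : |c.k2Wx - 1| ≤ Ω
  k2Wy : |c.k2Wy - 1| ≤ Ω
  eN1x : |c.eN1x - (7 / 8)| ≤ Ω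
  eN1y : |c.eN1y - (3 / 8)| ≤ Ω
  eW1x : |c.eW1x - (7 / 8)| ≤ Ω
  eW1y : |c.eW1y - (13 / 8)| ≤ Ω
  eS2x : |c.eS2x - (1 / 4)| ≤ Ω
  eS2y : |c.eS2y - (-5 / 4)| ≤ Ω
  s1 : |c.s1 - (1 / 2)| ≤ Ω
  h1 : |c.h1 - (1 / 2)| ≤ Ω
  s3 : |c.s3 - (1 / 2)| ≤ Ω
  h3 : |c.h3 - (-1 / 2)| ≤ Ω
  t2x : |c.t2x - (-1)| ≤ Ω
  t2y : |c.t2y - 1| ≤ Ω
  k2 : |c.k2 - (-3 / 4)| ≤ Ω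
  gWu : |c.gWu - (153 / 128)| ≤ Ω
  gWv : |c.gWv - (-11 / 16)| ≤ Ω
  gEu : |c.gEu - (25 / 128)| ≤ Ω
  gEv : |c.gEv - (5 / 16)| ≤ Ω
  hWu : |c.hWu - (25 / 32)| ≤ Ω
  hWv : |c.hWv - (-11 / 16)| ≤ Ω


end Pool.Agent.P.MP_dba4bb_co.Ex
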