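import Pool.Agent.P.MP_dba4bb_co.Ex.S1
import Pool.Agent.P.MP_dba4bb_co.Ex.PinD

/-! Statements of the last packages: deviations from the optimal configuration. -/

namespace Pool.Agent.P.MP_dba4bb_co.Ex

open Set

/-- deviations from the optimal configuration -/
structure C3 where
  p2x : ℝ
  p2y : ℝ
  p4x : ℝ
  p4y : ℝ
  p3x : ℝ
  p3y : ℝ
  zNx : ℝ
  zNy : ℝ
  z3Wx : ℝ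
  z3Wy : ℝ
  z3Sx : ℝ
  z3Sy : ℝ
  t2Nx : ℝ
  t2Ny : ℝ
  t2Sx : ℝ
  t2Sy : ℝ
  k2Nx : ℝ
  k2Ny : ℝ
  k2Wx : ℝ
  k2Wy : ℝ
  k3Wx : ℝ
  k3Wy : ℝ
  k3Sx : ℝ
  k3Sy : ℝ
  eN1x : ℝ
  eN1y : ℝ
  eW1x : ℝ
  eW1y : ℝ
  eS2x : ℝ
  eS2y : ℝ
  hNx : ℝ
  hNy : ℝ
  h : ℝ
  r : ℝ
  x : ℝ
  y : ℝ
  k2 : ℝ
  k3 : ℝ
  L : ℝ
  u : ℝ
  v : ℝ
  τ : ℝ
  ζ1 : ℝ
  ζ2 : ℝ
  f1 : ℝ
  f2 : ℝ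

/-- the point of the paper with deviation `(p, q)` from the tilted position of `(X, Y)` -/
def pt (t δ β X Y p q : ℝ) : P2 := (δ + (X - t * Y) + p, β + (t * X + Y) + q)

structure Geo3 (β t δ C S ρ x y h : ℝ) (F : P2 → P3) (e : C3) : Prop where
  p2 : F (pt t δ β 0 1 e.p2x e.p2y) = cp 0 1 0
  p4 : F (pt t δ β 0 (-1) e.p4x e.p4y) = cp 0 (-1) 0
  p3 : F (pt t δ β (-1) 0 e.p3x e.p3y) = cp (-1) 0 0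
  zN : F (pt t δ β (2 - (C + S) * (ρ + e.r)) (1 + (C - S) * (ρ + e.r)) e.zNx e.zNy) =
    cp (1 - C * (ρ + e.r)) (C * (ρ + e.r)) (1 - S * (ρ + e.r))
  z3W : F (pt t δ β (-2 + (h + e.h)) (1 + |h + e.h|) e.z3Wx e.z3Wy) =
    cp (-1 + |h + e.h|) (h + e.h) 1
  z3S : F (pt t δ β (-2 - (h + e.h)) (-1 - |h + e.h|) e.z3Sx e.z3Sy) =
    cp (-1 + |h + e.h|) (h + e.h) 1
  t2N : F (pt t δ β (2 - (y + e.y)) (2 - (x + e.x)) e.t2Nx e.t2Ny) = cp (x + e.x) (y + e.y) 1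
  t2S : F (pt t δ β (-2 - (y + e.y)) (-2 - (x + e.x)) e.t2Sx e.t2Sy) = cp (x + e.x) (y + e.y) 1
  k2N : F (pt t δ β (3 / 2) (2 - (3 / 2 * t + e.k2)) e.k2Nx e.k2Ny) =
    cp (3 / 2 * t + e.k2) (1 / 2) 1
  k2W : F (pt t δ β (-3 / 2) (2 + (3 / 2 * t + e.k2)) e.k2Wx e.k2Wy) =
    cp (3 / 2 * t + e.k2) (1 / 2) 1
  k3W : F (pt t δ β (-2 + (3 / 2 * t + e.k3)) (3 / 2) e.k3Wx e.k3Wy) =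
    cp (-1 / 2) (3 / 2 * t + e.k3) 1
  k3S : F (pt t δ β (-2 - (3 / 2 * t + e.k3)) (-3 / 2) e.k3Sx e.k3Sy) =
    cp (-1 / 2) (3 / 2 * t + e.k3) 1
  eN1 : F (pt t δ β (5 / 4) (7 / 4) e.eN1x e.eN1y) = cp (1 / 4) (3 / 4) 1
  eW1 : F (pt t δ β (-5 / 4) (7 / 4) e.eW1x e.eW1y) = cp (-1 / 4) (3 / 4) 1
  eS2 : F (pt t δ β (-3 / 2) (-3 / 2) e.eS2x e.eS2y) = cp (-1 / 2) (-1 / 2) 1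
  hN : F (pt t δ β (e.u + e.v) (1 - e.u + e.v) e.hNx e.hNy) = cp e.u (1 - e.u) e.v
  zE : F (δ + t + 2 * C + e.ζ1, β - 1 - 2 * S + e.ζ2) =
    cp (1 - C * (ρ + e.r)) (C * (ρ + e.r)) (1 - S * (ρ + e.r))
  t2E : F (δ + t + 2 * C + (C * (y + e.y) + S * (x + e.x - 1)) + e.τ,
    β - 1 - 2 * S + (-S * (y + e.y) + C * (x + e.x - 1)) + e.L) = cp (x + e.x) (y + e.y) 1
  p1 : F (δ + t + 2 * C - 1 + e.f1, β - 1 - 2 * S + 1 + e.f2) = cp 1 0 0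

structure Wall3 (β t δ C S ρ x y h : ℝ) (e : C3) : Prop where
  z3W : -2 ≤ -2 + (h + e.h) - t * (1 + |h + e.h|) + e.z3Wx
  z3S : -2 ≤ -2 - (h + e.h) - t * (-1 - |h + e.h|) + e.z3Sx
  zN : 2 - (C + S) * (ρ + e.r) - t * (1 + (C - S) * (ρ + e.r)) + e.zNx ≤ 2 - 2 * δ
  Rt2N : 2 - (y + e.y) - t * (2 - (x + e.x)) + e.t2Nx ≤ 2 - 2 * δ
  Tt2N : t * (2 - (y + e.y)) + (2 - (x + e.x)) + e.t2Ny ≤ 2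
  Lt2S : -2 ≤ -2 - (y + e.y) - t * (-2 - (x + e.x)) + e.t2Sx
  Bt2S : -2 - 2 * β ≤ t * (-2 - (y + e.y)) + (-2 - (x + e.x)) + e.t2Sy
  k2N : t * (3 / 2) + (2 - (3 / 2 * t + e.k2)) + e.k2Ny ≤ 2
  k2W : t * (-3 / 2) + (2 + (3 / 2 * t + e.k2)) + e.k2Wy ≤ 2
  k3W : -2 ≤ -2 + (3 / 2 * t + e.k3) - t * (3 / 2) + e.k3Wx
  k3S : -2 ≤ -2 - (3 / 2 * t + e.k3) - t * (-3 / 2) + e.k3Sx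
  zE : t + 2 * C + e.ζ1 ≤ 2 - 2 * δ
  Rt2E : t + 2 * C + (C * (y + e.y) + S * (x + e.x - 1)) + e.τ ≤ 2 - 2 * δ
  Bt2E : -2 - 2 * β ≤ -1 - 2 * S + (-S * (y + e.y) + C * (x + e.x - 1)) + e.L

/-- bounds for the deviations that come from the second order analysis -/
structure Bd3 (D : ℝ) (e : C3) : Prop where
  p2x : |e.p2x| ≤ D
  p2y : |e.p2y| ≤ D
  p4x : |e.p4x| ≤ D
  p4y : |e.p4y| ≤ D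
  p3x : |e.p3x| ≤ D
  p3y : |e.p3y| ≤ D
  z3Wx : |e.z3Wx| ≤ D
  z3Wy : |e.z3Wy| ≤ D
  z3Sx : |e.z3Sx| ≤ D
  t2Nx : |e.t2Nx| ≤ D
  t2Sx : |e.t2Sx| ≤ D
  t2Sy : |e.t2Sy| ≤ D
  k2Nx : |e.k2Nx| ≤ D
  k2Ny : |e.k2Ny| ≤ D
  k2Wx : |e.k2Wx| ≤ D
  k2Wy : |e.k2Wy| ≤ D
  k3Wx : |e.k3Wx| ≤ D
  k3Wy : |e.k3Wy| ≤ D
  k3Sx : |e.k3Sx| ≤ D
  k3Sy : |e.k3Sy| ≤ D
  eN1x : |e.eN1x| ≤ D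
  eN1y : |e.eN1y| ≤ D
  eW1x : |e.eW1x| ≤ D
  eW1y : |e.eW1y| ≤ D
  eS2x : |e.eS2x| ≤ D
  eS2y : |e.eS2y| ≤ D
  hNx : |e.hNx| ≤ D
  hNy : |e.hNy| ≤ D
  h : |e.h| ≤ D
  x : |e.x| ≤ D
  y : |e.y| ≤ D
  k2 : |e.k2| ≤ D
  k3 : |e.k3| ≤ D
  L : |e.L| ≤ D

/-- crude bounds for the other quantities -/
structure Crude (β ρ : ℝ) (e : C3) : Prop where
  zNx : |e.zNx| ≤ 1 / 400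
  zNy : |e.zNy| ≤ 1 / 400
  z3Sy : |e.z3Sy| ≤ 1 / 100
  t2Ny : |e.t2Ny| ≤ 1 / 100
  r0 : 0 ≤ ρ + e.r
  r1 : ρ + e.r ≤ 1 / 400
  u : |e.u - 7 / 8| ≤ β
  v : |e.v - 1 / 16| ≤ β
  τ : |e.τ| ≤ 1 / 100
  ζ1 : |e.ζ1| ≤ 1 / 100
  ζ2 : |e.ζ2| ≤ 1 / 100
  f10 : -(β / 1000) ≤ e.f1
  f11 : e.f1 ≤ 1 / 100
  f20 : -(1 / 100) ≤ e.f2
  f21 : e.f2 ≤ 401 / 100 * β
  p4 : -e.p4x ≤ 6 / 100 * β ^ 2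

def SFin : Prop := ∀ (β Δ M : ℝ) (c : Cfg), 0 < β → β ≤ 1 / 10 ^ 40 → 4 + 499 / 100 * β ≤ 4 * Δ →
  Rows β c → Walls β Δ c → Bnd M c → β * M ≤ 3 / 20000 →
  0 < c.h1 ∧ PinIP (1 / 10 ^ 10) c ∧ 29 / 20 * β ≤ c.p4x ∧ Bnd 644 c

def SG3 : Prop := ∀ ε η k β t C S ρ x y h Δ F c, Par β t C S ρ x y h → 2 * t ≤ β ^ 2 * Δ →
  β ^ 2 * Δ ≤ 2 * t + β ^ 3 → S ≤ η → Ok ε η k (2 - β ^ 2 * Δ) (2 + β) F → Geo β F c →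
  Walls β Δ c → Bnd 644 c → PinIP (1 / 10 ^ 10) c → 29 / 20 * β ≤ c.p4x →
  (∃ r, 0 < r ∧ r ≤ 1 / 4 ∧ cp (1 - C * r) (C * r) (1 - S * r) ∈ QN (2 - β ^ 2 * Δ) (2 + β) F ∧
    cp (1 - C * r) (C * r) (1 - S * r) ∈ QE (2 - β ^ 2 * Δ) (2 + β) F) →
  ∃ e, Geo3 β t (β ^ 2 * Δ) C S ρ x y h F e ∧ Wall3 β t (β ^ 2 * Δ) C S ρ x y h e ∧
    Bd3 (β / 10 ^ 9) e ∧ Crude β ρ e

/-- the estimate for the arm E -/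
def SES : Prop := ∀ (k a b : ℝ) (F : P2 → P3) (β C S D ρ x y o1 o2 p1 p2 τ L ζ1 ζ2 f1 f2 : ℝ),
  Cover k a b F → C ^ 2 + S ^ 2 = k → 0 < β → β ≤ 1 / 10 ^ 9 → 1999 / 1000 * β ≤ S →
  S ≤ 2001 / 1000 * β → 1 - 3 * β ^ 2 ≤ C → C ≤ 1 → D ≤ β / 10 ^ 6 → 0 ≤ ρ → ρ ≤ 1 / 200 →
  |x - 2 * β| ≤ β / 1000 → |y| ≤ β / 1000 → |p1| ≤ D → |p2| ≤ D → |L| ≤ D → |τ| ≤ 1 / 100 →
  C * y + S * (x - 1) + τ ≤ 2 * β ^ 2 → -(β / 1000) ≤ f1 → f1 ≤ 1 / 100 → -(1 / 100) ≤ f2 →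
  f2 ≤ 401 / 100 * β → |ζ1| ≤ 1 / 100 → |ζ2| ≤ 1 / 100 → ζ1 ≤ 152 / 100 * β ^ 2 →
  F (o1 + p1, o2 + p2) = cp 0 (-1) 0 →
  F (o1 + 2 * C + ζ1, o2 - 2 * S + ζ2) = cp (1 - C * ρ) (C * ρ) (1 - S * ρ) →
  F (o1 + 2 * C + (C * y + S * (x - 1)) + τ, o2 - 2 * S + (-S * y + C * (x - 1)) + L) = cp x y 1 →
  F (o1 + 2 * C - 1 + f1, o2 - 2 * S + 1 + f2) = cp 1 0 0 →
  k * ρ ≤ 3 * D + 4 * β ^ 2 ∧ (-p1 ≤ 6 / 100 * β ^ 2 → k * ρ ≤ 16 / 10 * β ^ 2 ∧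
    (ζ1 ≤ k * ρ + 2 * D → k * ρ + p1 + S * (L - p2) - 200 * (β ^ 2 * D + D ^ 2) ≤ ζ1))

def SR3 : Prop := SES → ∀ a b β t δ C S ρ x y h F e, Par β t C S ρ x y h → 2 * t ≤ δ →
  δ ≤ 2 * t + β ^ 3 → Cover (1 + t ^ 2) a b F → Geo3 β t δ C S ρ x y h F e →
  Wall3 β t δ C S ρ x y h e → Bd3 (β / 10 ^ 9) e → Crude β ρ e → δ ≤ 2 * t

def STop : Prop := SGeo → SFin → SG3 → SES → SR3 → ∃ ε > 0, ∀ r ∈ Ioo (1 : ℝ) (1 + ε),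
  ∃ u ∈ Ioo (0 : ℝ) 1, r = rr u ∧ IsGreatest {s | Folds 1 r s} (sg u) ∧
    IsGreatest {s | Wraps 1 r s} (sg u)

end Pool.Agent.P.MP_dba4bb_co.Ex
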