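import Pool.Agent.P.MP_dba4bb_co.Ex.PinD

/-! Third order bound near a maximiser. -/

namespace Pool.Agent.P.MP_dba4bb_co.Ex

variable {β Δ Ω : ℝ} {c : Cfg}

theorem hqIII (p : PinIII Ω c) (h0 : 0 ≤ Ω) (h1 : Ω ≤ 1) :
    (12217 / 72760) * ((c.p2x - c.p4x) ^ 2 + (c.p2y - c.p4y) ^ 2 - (0) ^ 2 - (0) ^ 2 - 2 * (0) ^ 2) +
    (1419 / 7276) * ((c.p2x - c.p1x) ^ 2 + (c.p2y - c.p1y) ^ 2 - (0) ^ 2 - (0) ^ 2 - 2 * (0) ^ 2) +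
    (1359 / 7276) * ((c.p2x - c.z1Nx) ^ 2 + (c.p2y - c.z1Ny) ^ 2 - (c.h1) ^ 2 - (-c.s1) ^ 2 - 2 * (0) ^ 2) +
    (5897 / 21828) * ((c.p2x - c.z3Wx) ^ 2 + (c.p2y - c.z3Wy) ^ 2 - (-c.h3) ^ 2 - (-c.s3) ^ 2 - 2 * (0) ^ 2) +
    (320 / 1819) * ((c.p2x - c.eN1x) ^ 2 + (c.p2y - c.eN1y) ^ 2 - (0) ^ 2 - (0) ^ 2 - 2 * (0) ^ 2) +
    (5417 / 27285) * ((c.p2x - c.eW1x) ^ 2 + (c.p2y - c.eW1y) ^ 2 - (0) ^ 2 - (0) ^ 2 - 2 * (0) ^ 2) +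
    (4417 / 7276) * ((c.p4x - c.p1x) ^ 2 + (c.p4y - c.p1y) ^ 2 - (0) ^ 2 - (0) ^ 2 - 2 * (0) ^ 2) +
    (175 / 1819) * ((c.p4x - c.z1Ex) ^ 2 + (c.p4y - c.z1Ey) ^ 2 - (-c.h1) ^ 2 - (c.s1) ^ 2 - 2 * (0) ^ 2) +
    (2139 / 7276) * ((c.p4x - c.eS2x) ^ 2 + (c.p4y - c.eS2y) ^ 2 - (0) ^ 2 - (0) ^ 2 - 2 * (0) ^ 2) +
    (3478 / 9095) * ((c.p4x) ^ 2 + (c.p4y) ^ 2 - (c.hWu + c.hWv) ^ 2 - (c.hWu - c.hWv) ^ 2 - 2 * (0) ^ 2) +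
    (1 / 8) * ((c.p1x - c.z1Nx) ^ 2 + (c.p1y - c.z1Ny) ^ 2 - (c.s1) ^ 2 - (-c.h1) ^ 2 - 2 * (0) ^ 2) +
    (1619 / 3638) * ((c.p1x - c.k2Nx) ^ 2 + (c.p1y - c.k2Ny) ^ 2 - (0) ^ 2 - (c.k2) ^ 2 - 2 * (0) ^ 2) +
    (1080 / 1819) * ((c.p1x) ^ 2 + (c.p1y) ^ 2 - (-c.gEu - c.gEv) ^ 2 - (-c.gEu + c.gEv) ^ 2 - 2 * (0) ^ 2) +
    (645 / 1819) * ((c.z1Ex - c.t2Ex) ^ 2 + (c.z1Ey - c.t2Ey) ^ 2 - (c.h1 - c.t2y) ^ 2 - (-c.s1 - c.t2x) ^ 2 - 2 * (0) ^ 2) +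
    (2376 / 1819) * ((c.z1Ex) ^ 2 + (c.z1Ey) ^ 2 - (c.h1 - c.gEu - c.gEv) ^ 2 - (-c.s1 - c.gEu + c.gEv) ^ 2 - 2 * (0) ^ 2) +
    (54490 / 158253) * ((c.z3Wx - c.k2Wx) ^ 2 + (c.z3Wy - c.k2Wy) ^ 2 - (c.h3) ^ 2 - (c.s3 - c.k2) ^ 2 - 2 * (0) ^ 2) +
    (40 / 16371) * ((c.z3Wx - c.eW1x) ^ 2 + (c.z3Wy - c.eW1y) ^ 2 - (c.h3) ^ 2 - (c.s3) ^ 2 - 2 * (0) ^ 2) +
    (97384 / 52751) * ((c.z3Wx) ^ 2 + (c.z3Wy) ^ 2 - (c.h3 + c.gWu + c.gWv) ^ 2 - (c.s3 + c.gWu - c.gWv) ^ 2 - 2 * (0) ^ 2) +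
    (5297 / 7276) * ((c.z3Sx - c.t2Sx) ^ 2 + (c.z3Sy - c.t2Sy) ^ 2 - (-c.h3 + c.t2y) ^ 2 - (-c.s3 + c.t2x) ^ 2 - 2 * (0) ^ 2) +
    (2139 / 7276) * ((c.z3Sx - c.eS2x) ^ 2 + (c.z3Sy - c.eS2y) ^ 2 - (-c.h3) ^ 2 - (-c.s3) ^ 2 - 2 * (0) ^ 2) +
    (2259 / 3638) * ((c.t2Nx - c.k2Nx) ^ 2 + (c.t2Ny - c.k2Ny) ^ 2 - (-c.t2y) ^ 2 - (-c.t2x + c.k2) ^ 2 - 2 * (0) ^ 2) +
    (320 / 1819) * ((c.t2Nx - c.eN1x) ^ 2 + (c.t2Ny - c.eN1y) ^ 2 - (-c.t2y) ^ 2 - (-c.t2x) ^ 2 - 2 * (0) ^ 2) +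
    (2139 / 3638) * ((c.t2Sx - c.eS2x) ^ 2 + (c.t2Sy - c.eS2y) ^ 2 - (-c.t2y) ^ 2 - (-c.t2x) ^ 2 - 2 * (0) ^ 2) +
    (1152 / 1819) * ((c.t2Ex) ^ 2 + (c.t2Ey) ^ 2 - (c.t2y - c.gEu - c.gEv) ^ 2 - (c.t2x - c.gEu + c.gEv) ^ 2 - 2 * (0) ^ 2) +
    (640 / 1819) * ((c.k2Nx - c.eN1x) ^ 2 + (c.k2Ny - c.eN1y) ^ 2 - (0) ^ 2 - (-c.k2) ^ 2 - 2 * (0) ^ 2) +
    (58987 / 54570) * ((c.k2Wx - c.eW1x) ^ 2 + (c.k2Wy - c.eW1y) ^ 2 - (0) ^ 2 - (c.k2) ^ 2 - 2 * (0) ^ 2) +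
    (97384 / 263755) * ((c.k2Wx) ^ 2 + (c.k2Wy) ^ 2 - (c.gWu + c.gWv) ^ 2 - (c.k2 + c.gWu - c.gWv) ^ 2 - 2 * (0) ^ 2) +
    (3478 / 45475) * ((c.eW1x) ^ 2 + (c.eW1y) ^ 2 - (c.hWu + c.hWv) ^ 2 - (c.hWu - c.hWv) ^ 2 - 2 * (0) ^ 2) +
    (194768 / 482035) * ((0) ^ 2 + (0) ^ 2 - (-c.gWu - c.gWv + c.hWu + c.hWv) ^ 2 - (-c.gWu + c.gWv + c.hWu - c.hWv) ^ 2 - 2 * (0) ^ 2) ≤
    (14013 / 7276) + 167 * Ω := by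
  linear_combination
    (12217 / 72760) * sq2 p.p2x p.p4x h1 +
    (12217 / 72760) * sq2 p.p2y p.p4y h1 +
    (1419 / 7276) * sq2 p.p2x p.p1x h1 +
    (1419 / 7276) * sq2 p.p2y p.p1y h1 +
    (1359 / 7276) * sq2 p.p2x p.z1Nx h1 +
    (1359 / 7276) * sq_nonneg (c.h1 - (1 / 2)) +
    (1359 / 7276) * sq2 p.p2y p.z1Ny h1 +
    (1359 / 7276) * sq_nonneg (-c.s1 - (-1 / 2)) +
    (5897 / 21828) * sq2 p.p2x p.z3Wx h1 +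
    (5897 / 21828) * sq_nonneg (-c.h3 - (1 / 2)) +
    (5897 / 21828) * sq2 p.p2y p.z3Wy h1 +
    (5897 / 21828) * sq_nonneg (-c.s3 - (-1 / 2)) +
    (320 / 1819) * sq2 p.p2x p.eN1x h1 +
    (320 / 1819) * sq2 p.p2y p.eN1y h1 +
    (5417 / 27285) * sq2 p.p2x p.eW1x h1 +
    (5417 / 27285) * sq2 p.p2y p.eW1y h1 +
    (4417 / 7276) * sq2 p.p4x p.p1x h1 +
    (4417 / 7276) * sq2 p.p4y p.p1y h1 +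
    (175 / 1819) * sq2 p.p4x p.z1Ex h1 +
    (175 / 1819) * sq_nonneg (-c.h1 - (-1 / 2)) +
    (175 / 1819) * sq2 p.p4y p.z1Ey h1 +
    (175 / 1819) * sq_nonneg (c.s1 - (1 / 2)) +
    (2139 / 7276) * sq2 p.p4x p.eS2x h1 +
    (2139 / 7276) * sq2 p.p4y p.eS2y h1 +
    (3478 / 9095) * sq1 p.p4x h1 +
    (3478 / 9095) * sq_nonneg (c.hWu + c.hWv - (3 / 32)) +
    (3478 / 9095) * sq1 p.p4y h1 +
    (3478 / 9095) * sq_nonneg (c.hWu - c.hWv - (47 / 32)) +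
    (1 / 8) * sq2 p.p1x p.z1Nx h1 +
    (1 / 8) * sq_nonneg (c.s1 - (1 / 2)) +
    (1 / 8) * sq2 p.p1y p.z1Ny h1 +
    (1 / 8) * sq_nonneg (-c.h1 - (-1 / 2)) +
    (1619 / 3638) * sq2 p.p1x p.k2Nx h1 +
    (1619 / 3638) * sq2 p.p1y p.k2Ny h1 +
    (1619 / 3638) * sq_nonneg (c.k2 - (-3 / 4)) +
    (1080 / 1819) * sq1 p.p1x h1 +
    (1080 / 1819) * sq_nonneg (-c.gEu - c.gEv - (-65 / 128)) +
    (1080 / 1819) * sq1 p.p1y h1 +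
    (1080 / 1819) * sq_nonneg (-c.gEu + c.gEv - (15 / 128)) +
    (645 / 1819) * sq2 p.z1Ex p.t2Ex h1 +
    (645 / 1819) * sq_nonneg (c.h1 - c.t2y - (-1 / 2)) +
    (645 / 1819) * sq2 p.z1Ey p.t2Ey h1 +
    (645 / 1819) * sq_nonneg (-c.s1 - c.t2x - (1 / 2)) +
    (2376 / 1819) * sq1 p.z1Ex h1 +
    (2376 / 1819) * sq_nonneg (c.h1 - c.gEu - c.gEv - (-1 / 128)) +
    (2376 / 1819) * sq1 p.z1Ey h1 +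
    (2376 / 1819) * sq_nonneg (-c.s1 - c.gEu + c.gEv - (-49 / 128)) +
    (54490 / 158253) * sq2 p.z3Wx p.k2Wx h1 +
    (54490 / 158253) * sq_nonneg (c.h3 - (-1 / 2)) +
    (54490 / 158253) * sq2 p.z3Wy p.k2Wy h1 +
    (54490 / 158253) * sq_nonneg (c.s3 - c.k2 - (5 / 4)) +
    (40 / 16371) * sq2 p.z3Wx p.eW1x h1 +
    (40 / 16371) * sq_nonneg (c.h3 - (-1 / 2)) +
    (40 / 16371) * sq2 p.z3Wy p.eW1y h1 +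
    (40 / 16371) * sq_nonneg (c.s3 - (1 / 2)) +
    (97384 / 52751) * sq1 p.z3Wx h1 +
    (97384 / 52751) * sq_nonneg (c.h3 + c.gWu + c.gWv - (1 / 128)) +
    (97384 / 52751) * sq1 p.z3Wy h1 +
    (97384 / 52751) * sq_nonneg (c.s3 + c.gWu - c.gWv - (305 / 128)) +
    (5297 / 7276) * sq2 p.z3Sx p.t2Sx h1 +
    (5297 / 7276) * sq_nonneg (-c.h3 + c.t2y - (3 / 2)) +
    (5297 / 7276) * sq2 p.z3Sy p.t2Sy h1 +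
    (5297 / 7276) * sq_nonneg (-c.s3 + c.t2x - (-3 / 2)) +
    (2139 / 7276) * sq2 p.z3Sx p.eS2x h1 +
    (2139 / 7276) * sq_nonneg (-c.h3 - (1 / 2)) +
    (2139 / 7276) * sq2 p.z3Sy p.eS2y h1 +
    (2139 / 7276) * sq_nonneg (-c.s3 - (-1 / 2)) +
    (2259 / 3638) * sq2 p.t2Nx p.k2Nx h1 +
    (2259 / 3638) * sq_nonneg (-c.t2y - (-1)) +
    (2259 / 3638) * sq2 p.t2Ny p.k2Ny h1 +
    (2259 / 3638) * sq_nonneg (-c.t2x + c.k2 - (1 / 4)) +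
    (320 / 1819) * sq2 p.t2Nx p.eN1x h1 +
    (320 / 1819) * sq_nonneg (-c.t2y - (-1)) +
    (320 / 1819) * sq2 p.t2Ny p.eN1y h1 +
    (320 / 1819) * sq_nonneg (-c.t2x - 1) +
    (2139 / 3638) * sq2 p.t2Sx p.eS2x h1 +
    (2139 / 3638) * sq_nonneg (-c.t2y - (-1)) +
    (2139 / 3638) * sq2 p.t2Sy p.eS2y h1 +
    (2139 / 3638) * sq_nonneg (-c.t2x - 1) +
    (1152 / 1819) * sq1 p.t2Ex h1 +
    (1152 / 1819) * sq_nonneg (c.t2y - c.gEu - c.gEv - (63 / 128)) +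
    (1152 / 1819) * sq1 p.t2Ey h1 +
    (1152 / 1819) * sq_nonneg (c.t2x - c.gEu + c.gEv - (-113 / 128)) +
    (640 / 1819) * sq2 p.k2Nx p.eN1x h1 +
    (640 / 1819) * sq2 p.k2Ny p.eN1y h1 +
    (640 / 1819) * sq_nonneg (-c.k2 - (3 / 4)) +
    (58987 / 54570) * sq2 p.k2Wx p.eW1x h1 +
    (58987 / 54570) * sq2 p.k2Wy p.eW1y h1 +
    (58987 / 54570) * sq_nonneg (c.k2 - (-3 / 4)) +
    (97384 / 263755) * sq1 p.k2Wx h1 +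
    (97384 / 263755) * sq_nonneg (c.gWu + c.gWv - (65 / 128)) +
    (97384 / 263755) * sq1 p.k2Wy h1 +
    (97384 / 263755) * sq_nonneg (c.k2 + c.gWu - c.gWv - (145 / 128)) +
    (3478 / 45475) * sq1 p.eW1x h1 +
    (3478 / 45475) * sq_nonneg (c.hWu + c.hWv - (3 / 32)) +
    (3478 / 45475) * sq1 p.eW1y h1 +
    (3478 / 45475) * sq_nonneg (c.hWu - c.hWv - (47 / 32)) +
    (194768 / 482035) * sq_nonneg (-c.gWu - c.gWv + c.hWu + c.hWv - (-53 / 128)) +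
    (194768 / 482035) * sq_nonneg (-c.gWu + c.gWv + c.hWu - c.hWv - (-53 / 128)) +
    (15431 / 21828) * (abs_le.1 p.p2x).2 +
    (135513 / 72760) * (abs_le.1 p.p4x).1 +
    (4987 / 10914) * (abs_le.1 p.p2y).1 +
    (12769 / 4280) * (abs_le.1 p.p4y).2 +
    (1739 / 3638) * (abs_le.1 p.p1x).1 +
    (2377 / 3638) * (abs_le.1 p.p1y).1 +
    (1359 / 7276) * (abs_le.1 p.z1Nx).1 +
    (60 / 1819) * (abs_le.1 p.h1).1 +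
    (1359 / 7276) * (abs_le.1 p.z1Ny).1 +
    (7665 / 7276) * (abs_le.1 p.s1).1 +
    (1828919 / 1899036) * (abs_le.1 p.z3Wx).1 +
    (685013 / 223416) * (abs_le.1 p.h3).2 +
    (21037997 / 1899036) * (abs_le.1 p.z3Wy).2 +
    (47131303 / 3798072) * (abs_le.1 p.s3).1 +
    (640 / 1819) * (abs_le.1 p.eN1x).2 +
    (1600 / 1819) * (abs_le.1 p.eN1y).1 +
    (54953 / 3274200) * (abs_le.1 p.eW1x).2 +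
    (6036427 / 3274200) * (abs_le.1 p.eW1y).2 +
    (175 / 1819) * (abs_le.1 p.z1Ex).2 +
    (2256 / 1819) * (abs_le.1 p.z1Ey).1 +
    (6417 / 7276) * (abs_le.1 p.eS2x).2 +
    (6417 / 7276) * (abs_le.1 p.eS2y).1 +
    (6956 / 9095) * (abs_le.1 p.hWu).1 +
    (57387 / 45475) * (abs_le.1 p.hWv).2 +
    (4038 / 1819) * (abs_le.1 p.k2Nx).2 +
    (3219 / 3638) * (abs_le.1 p.k2Ny).2 +
    (16018543 / 6330120) * (abs_le.1 p.k2).2 +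
    (3600 / 1819) * (abs_le.1 p.gEu).1 +
    (3600 / 1819) * (abs_le.1 p.gEv).2 +
    (43159 / 7276) * (abs_le.1 p.t2y).1 +
    (2949 / 1819) * (abs_le.1 p.t2Ey).1 +
    (19991 / 3638) * (abs_le.1 p.t2x).2 +
    (126403 / 74472) * (abs_le.1 p.k2Wx).2 +
    (10417483 / 6330120) * (abs_le.1 p.k2Wy).1 +
    (97384 / 9095) * (abs_le.1 p.gWu).1 +
    (486920 / 52751) * (abs_le.1 p.gWv).2 +
    (2139 / 14552) * (abs_le.1 p.z3Sx).1 +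
    (2139 / 7276) * (abs_le.1 p.t2Sx).1 +
    (42477 / 14552) * (abs_le.1 p.z3Sy).1 +
    (9015 / 3638) * (abs_le.1 p.t2Sy).2 +
    (2819 / 1819) * (abs_le.1 p.t2Nx).1 +
    (400 / 1819) * (abs_le.1 p.t2Ny).2 +
    (3141559 / 10550200) * h0

theorem thIII (r : Rows β c) (w : Walls β Δ c) (p : PinIII Ω c) (h0 : 0 ≤ Ω) (h1 : Ω ≤ 1)
    (hβ : 0 ≤ β) (e1 : c.s1 = c.h1) (e3 : c.s3 = -c.h3) :
    -1 / 4 * c.z1Ny - 1 / 2 * c.p2y - 3 / 4 * c.z1Ey + 5 / 2 * c.p4y + 3 / 4 * c.z3Wy - 7 / 4 * c.z3Sy - 1 / 2 * c.s1 - 1 / 2 * c.s3 ≤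
    8 + β * ((14013 / 7276) + 167 * Ω) - (11554 / 1819) * (β * Δ) := by
  linear_combination
    (12217 / 36380) * r.p2_p4 + (1419 / 3638) * r.p2_p1 + (1359 / 3638) * r.p2_z1Nv
    + (5897 / 10914) * r.p2_z3Wv + (640 / 1819) * r.p2_eN1 + (10834 / 27285) * r.p2_eW1
    + (4417 / 3638) * r.p4_p1 + (350 / 1819) * r.p4_z1Ev + (2139 / 3638) * r.p4_eS2
    + (6956 / 9095) * r.p4_hWv + (1 / 4) * r.p1_z1Nu + (1619 / 1819) * r.p1_k2Nv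
    + (2160 / 1819) * r.p1_gE + (1290 / 1819) * r.z1E_t2E + (4752 / 1819) * r.z1E_gEh
    + (108980 / 158253) * r.z3W_k2W + (80 / 16371) * r.z3W_eW1 + (194768 / 52751) * r.z3W_gWh
    + (5297 / 3638) * r.z3S_t2S + (2139 / 3638) * r.z3S_eS2 + (2259 / 1819) * r.t2N_k2N
    + (640 / 1819) * r.t2N_eN1 + (2139 / 1819) * r.t2S_eS2 + (2304 / 1819) * r.t2E_gEh
    + (1280 / 1819) * r.k2N_eN1 + (58987 / 27285) * r.k2W_eW1 + (194768 / 263755) * r.k2W_gWh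
    + (6956 / 45475) * r.eW1_hW + (389536 / 482035) * r.gW_hW + (7255 / 7276) * w.wRz1N
    + (7255 / 7276) * w.wRz1E + (16691 / 7276) * w.wLz3W + (2139 / 7276) * w.wLz3S
    + (3219 / 3638) * w.wRt2N + (160 / 1819) * w.wTt2N + (2139 / 3638) * w.wLt2S
    + (3718 / 1819) * w.wBt2S + (540 / 1819) * w.wRt2E + (3558 / 1819) * w.wBt2E
    + (3558 / 1819) * w.wTk2N + (3558 / 1819) * w.wTk2W
    + mul_le_mul_of_nonneg_left (hqIII p h0 h1) hβ + (1 / 4) * e1 + 2 * e3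


end Pool.Agent.P.MP_dba4bb_co.Ex
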