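import Pool.Agent.P.MP_dba4bb_co.Ex.PinD

/-! Third order bound near a maximiser. -/

namespace Pool.Agent.P.MP_dba4bb_co.Ex

variable {β Δ Ω : ℝ} {c : Cfg}

theorem hqIP (p : PinIP Ω c) (h0 : 0 ≤ Ω) (h1 : Ω ≤ 1) :
    (41 / 100) * ((c.p2x - c.p4x) ^ 2 + (c.p2y - c.p4y) ^ 2 - (0) ^ 2 - (0) ^ 2 - 2 * (0) ^ 2) +
    (7 / 60) * ((c.p2x - c.z3Wx) ^ 2 + (c.p2y - c.z3Wy) ^ 2 - (-c.h3) ^ 2 - (-c.s3) ^ 2 - 2 * (0) ^ 2) +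
    (2 / 5) * ((c.p2x - c.k3Wx) ^ 2 + (c.p2y - c.k3Wy) ^ 2 - (-c.k3) ^ 2 - (0) ^ 2 - 2 * (0) ^ 2) +
    (62 / 75) * ((c.p2x - c.eN1x) ^ 2 + (c.p2y - c.eN1y) ^ 2 - (0) ^ 2 - (0) ^ 2 - 2 * (0) ^ 2) +
    (7 / 20) * ((c.p4x - c.p3x) ^ 2 + (c.p4y - c.p3y) ^ 2 - (0) ^ 2 - (0) ^ 2 - 2 * (0) ^ 2) +
    (43 / 60) * ((c.p4x - c.z1Ex) ^ 2 + (c.p4y - c.z1Ey) ^ 2 - (-c.h1) ^ 2 - (c.s1) ^ 2 - 2 * (0) ^ 2) +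
    (7 / 60) * ((c.p4x - c.z3Sx) ^ 2 + (c.p4y - c.z3Sy) ^ 2 - (c.h3) ^ 2 - (c.s3) ^ 2 - 2 * (0) ^ 2) +
    (1 / 5) * ((c.p4x - c.k3Sx) ^ 2 + (c.p4y - c.k3Sy) ^ 2 - (c.k3) ^ 2 - (0) ^ 2 - 2 * (0) ^ 2) +
    (9 / 10) * ((c.p4x - c.eS2x) ^ 2 + (c.p4y - c.eS2y) ^ 2 - (0) ^ 2 - (0) ^ 2 - 2 * (0) ^ 2) +
    (8 / 25) * ((c.p4x) ^ 2 + (c.p4y) ^ 2 - (-c.hNu - c.hNv) ^ 2 - (c.hNu - c.hNv) ^ 2 - 2 * (0) ^ 2) +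
    (2 / 5) * ((c.p3x - c.k2Wx) ^ 2 + (c.p3y - c.k2Wy) ^ 2 - (0) ^ 2 - (-c.k2) ^ 2 - 2 * (0) ^ 2) +
    (3 / 10) * ((c.p3x - c.eS2x) ^ 2 + (c.p3y - c.eS2y) ^ 2 - (0) ^ 2 - (0) ^ 2 - 2 * (0) ^ 2) +
    (1 / 15) * ((c.z1Nx - c.k2Nx) ^ 2 + (c.z1Ny - c.k2Ny) ^ 2 - (-c.h1) ^ 2 - (c.s1 + c.k2) ^ 2 - 2 * (0) ^ 2) +
    (122 / 675) * ((c.z1Nx - c.eN1x) ^ 2 + (c.z1Ny - c.eN1y) ^ 2 - (-c.h1) ^ 2 - (c.s1) ^ 2 - 2 * (0) ^ 2) +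
    (56 / 225) * ((c.z1Nx) ^ 2 + (c.z1Ny) ^ 2 - (-c.s1 - c.hNu) ^ 2 - (c.h1 + c.hNu) ^ 2 - 2 * (-c.hNv) ^ 2) +
    1 * ((c.z1Ex - c.t2Ex) ^ 2 + (c.z1Ey - c.t2Ey) ^ 2 - (c.h1 - c.t2y) ^ 2 - (-c.s1 - c.t2x) ^ 2 - 2 * (0) ^ 2) +
    (9 / 5) * ((c.t2Nx - c.k2Nx) ^ 2 + (c.t2Ny - c.k2Ny) ^ 2 - (-c.t2y) ^ 2 - (-c.t2x + c.k2) ^ 2 - 2 * (0) ^ 2) +
    (1 / 5) * ((c.t2Sx - c.k3Sx) ^ 2 + (c.t2Sy - c.k3Sy) ^ 2 - (-c.t2y + c.k3) ^ 2 - (-c.t2x) ^ 2 - 2 * (0) ^ 2) +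
    (9 / 5) * ((c.t2Sx - c.eS2x) ^ 2 + (c.t2Sy - c.eS2y) ^ 2 - (-c.t2y) ^ 2 - (-c.t2x) ^ 2 - 2 * (0) ^ 2) +
    (56 / 15) * ((c.k2Nx - c.eN1x) ^ 2 + (c.k2Ny - c.eN1y) ^ 2 - (0) ^ 2 - (-c.k2) ^ 2 - 2 * (0) ^ 2) +
    (2 / 5) * ((c.k2Wx - c.k3Wx) ^ 2 + (c.k2Wy - c.k3Wy) ^ 2 - (-c.k3) ^ 2 - (c.k2) ^ 2 - 2 * (0) ^ 2) +
    (6 / 5) * ((c.k3Sx - c.eS2x) ^ 2 + (c.k3Sy - c.eS2y) ^ 2 - (-c.k3) ^ 2 - (0) ^ 2 - 2 * (0) ^ 2) +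
    (128 / 1125) * ((c.eN1x) ^ 2 + (c.eN1y) ^ 2 - (-c.hNu - c.hNv) ^ 2 - (c.hNu - c.hNv) ^ 2 - 2 * (0) ^ 2) ≤
    (232 / 15) + 215 * Ω := by
  linear_combination
    (41 / 100) * sq2 p.p2x p.p4x h1 +
    (41 / 100) * sq2 p.p2y p.p4y h1 +
    (7 / 60) * sq2 p.p2x p.z3Wx h1 +
    (7 / 60) * sq_nonneg (-c.h3 - 0) +
    (7 / 60) * sq2 p.p2y p.z3Wy h1 +
    (7 / 60) * sq_nonneg (-c.s3 - 0) +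
    (2 / 5) * sq2 p.p2x p.k3Wx h1 +
    (2 / 5) * sq_nonneg (-c.k3 - 0) +
    (2 / 5) * sq2 p.p2y p.k3Wy h1 +
    (62 / 75) * sq2 p.p2x p.eN1x h1 +
    (62 / 75) * sq2 p.p2y p.eN1y h1 +
    (7 / 20) * sq2 p.p4x p.p3x h1 +
    (7 / 20) * sq2 p.p4y p.p3y h1 +
    (43 / 60) * sq2 p.p4x p.z1Ex h1 +
    (43 / 60) * sq_nonneg (-c.h1 - 0) +
    (43 / 60) * sq2 p.p4y p.z1Ey h1 +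
    (43 / 60) * sq_nonneg (c.s1 - 0) +
    (7 / 60) * sq2 p.p4x p.z3Sx h1 +
    (7 / 60) * sq_nonneg (c.h3 - 0) +
    (7 / 60) * sq2 p.p4y p.z3Sy h1 +
    (7 / 60) * sq_nonneg (c.s3 - 0) +
    (1 / 5) * sq2 p.p4x p.k3Sx h1 +
    (1 / 5) * sq_nonneg (c.k3 - 0) +
    (1 / 5) * sq2 p.p4y p.k3Sy h1 +
    (9 / 10) * sq2 p.p4x p.eS2x h1 +
    (9 / 10) * sq2 p.p4y p.eS2y h1 +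
    (8 / 25) * sq1 p.p4x h1 +
    (8 / 25) * sq_nonneg (-c.hNu - c.hNv - 0) +
    (8 / 25) * sq1 p.p4y h1 +
    (8 / 25) * sq_nonneg (c.hNu - c.hNv - 1) +
    (2 / 5) * sq2 p.p3x p.k2Wx h1 +
    (2 / 5) * sq2 p.p3y p.k2Wy h1 +
    (2 / 5) * sq_nonneg (-c.k2 - 0) +
    (3 / 10) * sq2 p.p3x p.eS2x h1 +
    (3 / 10) * sq2 p.p3y p.eS2y h1 +
    (1 / 15) * sq2 p.z1Nx p.k2Nx h1 +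
    (1 / 15) * sq_nonneg (-c.h1 - 0) +
    (1 / 15) * sq2 p.z1Ny p.k2Ny h1 +
    (1 / 15) * sq_nonneg (c.s1 + c.k2 - 0) +
    (122 / 675) * sq2 p.z1Nx p.eN1x h1 +
    (122 / 675) * sq_nonneg (-c.h1 - 0) +
    (122 / 675) * sq2 p.z1Ny p.eN1y h1 +
    (122 / 675) * sq_nonneg (c.s1 - 0) +
    (56 / 225) * sq1 p.z1Nx h1 +
    (56 / 225) * sq_nonneg (-c.s1 - c.hNu - (-1 / 2)) +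
    (56 / 225) * sq1 p.z1Ny h1 +
    (56 / 225) * sq_nonneg (c.h1 + c.hNu - (1 / 2)) +
    (112 / 225) * sq_nonneg (-c.hNv - (1 / 2)) +
    1 * prod_le (c := 4) h0 h1 p.f0 p.f1 (by norm_num) +
    1 * sq2 p.z1Ey p.t2Ey h1 +
    1 * sq_nonneg (-c.s1 - c.t2x - (-2)) +
    (9 / 5) * sq2 p.t2Nx p.k2Nx h1 +
    (9 / 5) * sq_nonneg (-c.t2y - 0) +
    (9 / 5) * prod_le (c := 0) h0 h1 p.f2 p.f3 (by norm_num) +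
    (1 / 5) * sq2 p.t2Sx p.k3Sx h1 +
    (1 / 5) * sq_nonneg (-c.t2y + c.k3 - 0) +
    (1 / 5) * sq2 p.t2Sy p.k3Sy h1 +
    (1 / 5) * sq_nonneg (-c.t2x - (-2)) +
    (9 / 5) * sq2 p.t2Sx p.eS2x h1 +
    (9 / 5) * sq_nonneg (-c.t2y - 0) +
    (9 / 5) * sq2 p.t2Sy p.eS2y h1 +
    (9 / 5) * sq_nonneg (-c.t2x - (-2)) +
    (56 / 15) * sq2 p.k2Nx p.eN1x h1 +
    (56 / 15) * sq2 p.k2Ny p.eN1y h1 +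
    (56 / 15) * sq_nonneg (-c.k2 - 0) +
    (2 / 5) * sq2 p.k2Wx p.k3Wx h1 +
    (2 / 5) * sq_nonneg (-c.k3 - 0) +
    (2 / 5) * sq2 p.k2Wy p.k3Wy h1 +
    (2 / 5) * sq_nonneg (c.k2 - 0) +
    (6 / 5) * sq2 p.k3Sx p.eS2x h1 +
    (6 / 5) * sq_nonneg (-c.k3 - 0) +
    (6 / 5) * sq2 p.k3Sy p.eS2y h1 +
    (128 / 1125) * sq1 p.eN1x h1 +
    (128 / 1125) * sq_nonneg (-c.hNu - c.hNv - 0) +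
    (128 / 1125) * sq1 p.eN1y h1 +
    (128 / 1125) * sq_nonneg (c.hNu - c.hNv - 1) +
    (478 / 75) * (abs_le.1 p.p4y).2 +
    (256 / 1125) * (abs_le.1 p.eN1y).2 +
    (56 / 225) * (abs_le.1 p.h1).1 +
    (146 / 15) * (abs_le.1 p.z1Ey).1 +
    (956 / 225) * (abs_le.1 p.s1).1 +
    (4 / 5) * (abs_le.1 p.k3Sy).2 +
    (36 / 5) * (abs_le.1 p.eS2y).2 +
    (512 / 375) * (abs_le.1 p.hNu).1 +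
    (512 / 375) * (abs_le.1 p.hNv).2 +
    (112 / 225) * (abs_le.1 p.z1Ny).2 +
    4 * (abs_le.1 p.t2Ey).2 +
    12 * (abs_le.1 p.t2x).1 +
    8 * (abs_le.1 p.t2Sy).1 +
    (793 / 3375) * h0

theorem thIP (r : Rows β c) (w : Walls β Δ c) (p : PinIP Ω c) (h0 : 0 ≤ Ω) (h1 : Ω ≤ 1)
    (hβ : 0 ≤ β) (e1 : c.s1 = c.h1) (hl : 0 ≤ 29 / 20 * β - c.p4x) :
    -2 * c.z1Ey + 2 * c.p4y ≤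
    8 + β * ((2581 / 150) + 215 * Ω) - (184 / 15) * (β * Δ) := by
  linear_combination
    (41 / 50) * r.p2_p4 + (7 / 30) * r.p2_z3Wv + (4 / 5) * r.p2_k3Wv + (124 / 75) * r.p2_eN1
    + (7 / 10) * r.p4_p3 + (43 / 30) * r.p4_z1Ev + (7 / 30) * r.p4_z3Sv + (2 / 5) * r.p4_k3Sv
    + (9 / 5) * r.p4_eS2 + (16 / 25) * r.p4_hNv + (4 / 5) * r.p3_k2Wv + (3 / 5) * r.p3_eS2
    + (2 / 15) * r.z1N_k2N + (244 / 675) * r.z1N_eN1 + (112 / 225) * r.z1N_hNu + 2 * r.z1E_t2E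
    + (18 / 5) * r.t2N_k2N + (2 / 5) * r.t2S_k3S + (18 / 5) * r.t2S_eS2 + (112 / 15) * r.k2N_eN1
    + (4 / 5) * r.k2W_k3W + (12 / 5) * r.k3S_eS2 + (256 / 1125) * r.eN1_hN + (13 / 15) * w.wRz1N
    + (43 / 15) * w.wRz1E + (7 / 15) * w.wLz3W + (7 / 15) * w.wLz3S + (9 / 5) * w.wRt2N
    + (9 / 5) * w.wLt2S + 2 * w.wBt2S + 2 * w.wBt2E + 2 * w.wTk2N + 2 * w.wTk2W + 2 * w.wLk3W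
    + 2 * w.wLk3S + (6 / 5) * hl + mul_le_mul_of_nonneg_left (hqIP p h0 h1) hβ + (37 / 15) * e1


end Pool.Agent.P.MP_dba4bb_co.Ex
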