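import Pool.Agent.P.MP_dba4bb_co.Ex.PinD

/-! Third order bound near a maximiser. -/

namespace Pool.Agent.P.MP_dba4bb_co.Ex

variable {β Δ Ω : ℝ} {c : Cfg}

theorem hqIQa (p : PinIQ Ω c) (h0 : 0 ≤ Ω) (h1 : Ω ≤ 1) :
    (10047 / 28616) * ((c.p2x - c.p3x) ^ 2 + (c.p2y - c.p3y) ^ 2 - (0) ^ 2 - (0) ^ 2 - 2 * (0) ^ 2) +
    (7493 / 21462) * ((c.p2x - c.z1Nx) ^ 2 + (c.p2y - c.z1Ny) ^ 2 - (c.h1) ^ 2 - (-c.s1) ^ 2 - 2 * (0) ^ 2) +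
    (183 / 4088) * ((c.p2x - c.z3Wx) ^ 2 + (c.p2y - c.z3Wy) ^ 2 - (-c.h3) ^ 2 - (-c.s3) ^ 2 - 2 * (0) ^ 2) +
    (152 / 511) * ((c.p2x - c.k3Wx) ^ 2 + (c.p2y - c.k3Wy) ^ 2 - (-c.k3) ^ 2 - (0) ^ 2 - 2 * (0) ^ 2) +
    (5791 / 21462) * ((c.p2x - c.eN1x) ^ 2 + (c.p2y - c.eN1y) ^ 2 - (0) ^ 2 - (0) ^ 2 - 2 * (0) ^ 2) +
    (5347 / 17374) * ((c.p4x - c.p3x) ^ 2 + (c.p4y - c.p3y) ^ 2 - (0) ^ 2 - (0) ^ 2 - 2 * (0) ^ 2) +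
    (76 / 511) * ((c.p4x - c.k3Sx) ^ 2 + (c.p4y - c.k3Sy) ^ 2 - (c.k3) ^ 2 - (0) ^ 2 - 2 * (0) ^ 2) +
    (5608 / 8687) * ((c.p4x) ^ 2 + (c.p4y) ^ 2 - (-c.hNu - c.hNv) ^ 2 - (c.hNu - c.hNv) ^ 2 - 2 * (0) ^ 2) +
    (131 / 1533) * ((c.p3x - c.z3Wx) ^ 2 + (c.p3y - c.z3Wy) ^ 2 - (-c.s3) ^ 2 - (-c.h3) ^ 2 - 2 * (0) ^ 2) +
    (79 / 4088) * ((c.p3x - c.z3Sx) ^ 2 + (c.p3y - c.z3Sy) ^ 2 - (-c.s3) ^ 2 - (-c.h3) ^ 2 - 2 * (0) ^ 2) +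
    (587 / 1533) * ((c.p3x - c.k2Wx) ^ 2 + (c.p3y - c.k2Wy) ^ 2 - (0) ^ 2 - (-c.k2) ^ 2 - 2 * (0) ^ 2) +
    (456 / 511) * ((c.p3x) ^ 2 + (c.p3y) ^ 2 - (c.gSu + c.gSv) ^ 2 - (-c.gSu + c.gSv) ^ 2 - 2 * (0) ^ 2) +
    (10062 / 60809) * ((c.p3x) ^ 2 + (c.p3y) ^ 2 - (-c.hNu - c.hNv) ^ 2 - (c.hNu - c.hNv) ^ 2 - 2 * (0) ^ 2) +
    (3394 / 10731) * ((c.z1Nx - c.k2Nx) ^ 2 + (c.z1Ny - c.k2Ny) ^ 2 - (-c.h1) ^ 2 - (c.s1 + c.k2) ^ 2 - 2 * (0) ^ 2) +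
    (5791 / 64386) * ((c.z1Nx - c.eN1x) ^ 2 + (c.z1Ny - c.eN1y) ^ 2 - (-c.h1) ^ 2 - (c.s1) ^ 2 - 2 * (0) ^ 2) +
    (7520 / 3577) * ((c.z1Nx) ^ 2 + (c.z1Ny) ^ 2 - (-c.h1 - c.gNu - c.gNv) ^ 2 - (c.s1 + c.gNu - c.gNv) ^ 2 - 2 * (0) ^ 2) +
    (262 / 511) * ((c.z1Nx) ^ 2 + (c.z1Ny) ^ 2 - (-c.s1 - c.hNu) ^ 2 - (c.h1 + c.hNu) ^ 2 - 2 * (-c.hNv) ^ 2) +
    1 * ((c.z1Ex - c.t2Ex) ^ 2 + (c.z1Ey - c.t2Ey) ^ 2 - (c.h1 - c.t2y) ^ 2 - (-c.s1 - c.t2x) ^ 2 - 2 * (0) ^ 2) +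
    (131 / 1533) * ((c.z3Wx - c.k2Wx) ^ 2 + (c.z3Wy - c.k2Wy) ^ 2 - (c.h3) ^ 2 - (c.s3 - c.k2) ^ 2 - 2 * (0) ^ 2) +
    (9 / 2555) * ((c.z3Sx - c.t2Sx) ^ 2 + (c.z3Sy - c.t2Sy) ^ 2 - (-c.h3 + c.t2y) ^ 2 - (-c.s3 + c.t2x) ^ 2 - 2 * (0) ^ 2) +
    (2584 / 2555) * ((c.z3Sx) ^ 2 + (c.z3Sy) ^ 2 - (-c.h3 + c.gSu + c.gSv) ^ 2 - (-c.s3 - c.gSu + c.gSv) ^ 2 - 2 * (0) ^ 2) +
    (5092 / 2555) * ((c.t2Sx - c.k3Sx) ^ 2 + (c.t2Sy - c.k3Sy) ^ 2 - (-c.t2y + c.k3) ^ 2 - (-c.t2x) ^ 2 - 2 * (0) ^ 2) +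
    (11582 / 10731) * ((c.k2Nx - c.eN1x) ^ 2 + (c.k2Ny - c.eN1y) ^ 2 - (0) ^ 2 - (-c.k2) ^ 2 - 2 * (0) ^ 2) +
    (1504 / 3577) * ((c.k2Nx) ^ 2 + (c.k2Ny) ^ 2 - (-c.gNu - c.gNv) ^ 2 - (-c.k2 + c.gNu - c.gNv) ^ 2 - 2 * (0) ^ 2) +
    (152 / 511) * ((c.k2Wx - c.k3Wx) ^ 2 + (c.k2Wy - c.k3Wy) ^ 2 - (-c.k3) ^ 2 - (c.k2) ^ 2 - 2 * (0) ^ 2) +
    (4864 / 2555) * ((c.k3Sx) ^ 2 + (c.k3Sy) ^ 2 - (-c.k3 + c.gSu + c.gSv) ^ 2 - (-c.gSu + c.gSv) ^ 2 - 2 * (0) ^ 2) +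
    (87232 / 189581) * ((0) ^ 2 + (0) ^ 2 - (c.gNu + c.gNv - c.hNu - c.hNv) ^ 2 - (-c.gNu + c.gNv + c.hNu - c.hNv) ^ 2 - 2 * (0) ^ 2) ≤
    4 + 180 * Ω := by
  linear_combination
    (10047 / 28616) * sq2 p.p2x p.p3x h1 +
    (10047 / 28616) * sq2 p.p2y p.p3y h1 +
    (7493 / 21462) * sq2 p.p2x p.z1Nx h1 +
    (7493 / 21462) * sq_nonneg (c.h1 - 0) +
    (7493 / 21462) * sq2 p.p2y p.z1Ny h1 +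
    (7493 / 21462) * sq_nonneg (-c.s1 - 0) +
    (183 / 4088) * sq2 p.p2x p.z3Wx h1 +
    (183 / 4088) * sq_nonneg (-c.h3 - 0) +
    (183 / 4088) * sq2 p.p2y p.z3Wy h1 +
    (183 / 4088) * sq_nonneg (-c.s3 - 0) +
    (152 / 511) * sq2 p.p2x p.k3Wx h1 +
    (152 / 511) * sq_nonneg (-c.k3 - 0) +
    (152 / 511) * sq2 p.p2y p.k3Wy h1 +
    (5791 / 21462) * sq2 p.p2x p.eN1x h1 +
    (5791 / 21462) * sq2 p.p2y p.eN1y h1 +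
    (5347 / 17374) * sq2 p.p4x p.p3x h1 +
    (5347 / 17374) * sq2 p.p4y p.p3y h1 +
    (76 / 511) * sq2 p.p4x p.k3Sx h1 +
    (76 / 511) * sq_nonneg (c.k3 - 0) +
    (76 / 511) * sq2 p.p4y p.k3Sy h1 +
    (5608 / 8687) * sq1 p.p4x h1 +
    (5608 / 8687) * sq_nonneg (-c.hNu - c.hNv - 0) +
    (5608 / 8687) * sq1 p.p4y h1 +
    (5608 / 8687) * sq_nonneg (c.hNu - c.hNv - 1) +
    (131 / 1533) * sq2 p.p3x p.z3Wx h1 +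
    (131 / 1533) * sq_nonneg (-c.s3 - 0) +
    (131 / 1533) * sq2 p.p3y p.z3Wy h1 +
    (131 / 1533) * sq_nonneg (-c.h3 - 0) +
    (79 / 4088) * sq2 p.p3x p.z3Sx h1 +
    (79 / 4088) * sq_nonneg (-c.s3 - 0) +
    (79 / 4088) * sq2 p.p3y p.z3Sy h1 +
    (79 / 4088) * sq_nonneg (-c.h3 - 0) +
    (587 / 1533) * sq2 p.p3x p.k2Wx h1 +
    (587 / 1533) * sq2 p.p3y p.k2Wy h1 +
    (587 / 1533) * sq_nonneg (-c.k2 - 0) +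
    (456 / 511) * sq1 p.p3x h1 +
    (456 / 511) * sq_nonneg (c.gSu + c.gSv - 0) +
    (456 / 511) * sq1 p.p3y h1 +
    (456 / 511) * sq_nonneg (-c.gSu + c.gSv - 1) +
    (10062 / 60809) * sq1 p.p3x h1 +
    (10062 / 60809) * sq_nonneg (-c.hNu - c.hNv - 0) +
    (10062 / 60809) * sq1 p.p3y h1 +
    (10062 / 60809) * sq_nonneg (c.hNu - c.hNv - 1) +
    (3394 / 10731) * sq2 p.z1Nx p.k2Nx h1 +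
    (3394 / 10731) * sq_nonneg (-c.h1 - 0) +
    (3394 / 10731) * sq2 p.z1Ny p.k2Ny h1 +
    (3394 / 10731) * sq_nonneg (c.s1 + c.k2 - 0) +
    (5791 / 64386) * sq2 p.z1Nx p.eN1x h1 +
    (5791 / 64386) * sq_nonneg (-c.h1 - 0) +
    (5791 / 64386) * sq2 p.z1Ny p.eN1y h1 +
    (5791 / 64386) * sq_nonneg (c.s1 - 0) +
    (7520 / 3577) * sq1 p.z1Nx h1 +
    (7520 / 3577) * sq_nonneg (-c.h1 - c.gNu - c.gNv - 0) +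
    (7520 / 3577) * sq1 p.z1Ny h1 +
    (7520 / 3577) * sq_nonneg (c.s1 + c.gNu - c.gNv - 1) +
    (262 / 511) * sq1 p.z1Nx h1 +
    (262 / 511) * sq_nonneg (-c.s1 - c.hNu - (-1 / 2)) +
    (262 / 511) * sq1 p.z1Ny h1 +
    (262 / 511) * sq_nonneg (c.h1 + c.hNu - (1 / 2)) +
    (524 / 511) * sq_nonneg (-c.hNv - (1 / 2)) +
    1 * prod_le (c := 4) h0 h1 p.f0 p.f1 (by norm_num) +
    1 * sq2 p.z1Ey p.t2Ey h1 +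
    1 * sq_nonneg (-c.s1 - c.t2x - (-2)) +
    (131 / 1533) * sq2 p.z3Wx p.k2Wx h1 +
    (131 / 1533) * sq_nonneg (c.h3 - 0) +
    (131 / 1533) * sq2 p.z3Wy p.k2Wy h1 +
    (131 / 1533) * sq_nonneg (c.s3 - c.k2 - 0) +
    (9 / 2555) * sq2 p.z3Sx p.t2Sx h1 +
    (9 / 2555) * sq_nonneg (-c.h3 + c.t2y - 0) +
    (9 / 2555) * sq2 p.z3Sy p.t2Sy h1 +
    (9 / 2555) * sq_nonneg (-c.s3 + c.t2x - 2) +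
    (2584 / 2555) * sq1 p.z3Sx h1 +
    (2584 / 2555) * sq_nonneg (-c.h3 + c.gSu + c.gSv - 0) +
    (2584 / 2555) * sq1 p.z3Sy h1 +
    (2584 / 2555) * sq_nonneg (-c.s3 - c.gSu + c.gSv - 1) +
    (5092 / 2555) * sq2 p.t2Sx p.k3Sx h1 +
    (5092 / 2555) * sq_nonneg (-c.t2y + c.k3 - 0) +
    (5092 / 2555) * sq2 p.t2Sy p.k3Sy h1 +
    (5092 / 2555) * sq_nonneg (-c.t2x - (-2)) +
    (11582 / 10731) * sq2 p.k2Nx p.eN1x h1 +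
    (11582 / 10731) * sq2 p.k2Ny p.eN1y h1 +
    (11582 / 10731) * sq_nonneg (-c.k2 - 0) +
    (1504 / 3577) * sq1 p.k2Nx h1 +
    (1504 / 3577) * sq_nonneg (-c.gNu - c.gNv - 0) +
    (1504 / 3577) * sq1 p.k2Ny h1 +
    (1504 / 3577) * sq_nonneg (-c.k2 + c.gNu - c.gNv - 1) +
    (152 / 511) * sq2 p.k2Wx p.k3Wx h1 +
    (152 / 511) * sq_nonneg (-c.k3 - 0) +
    (152 / 511) * sq2 p.k2Wy p.k3Wy h1 +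
    (152 / 511) * sq_nonneg (c.k2 - 0) +
    (4864 / 2555) * sq1 p.k3Sx h1 +
    (4864 / 2555) * sq_nonneg (-c.k3 + c.gSu + c.gSv - 0) +
    (4864 / 2555) * sq1 p.k3Sy h1 +
    (4864 / 2555) * sq_nonneg (-c.gSu + c.gSv - 1) +
    (87232 / 189581) * sq_nonneg (c.gNu + c.gNv - c.hNu - c.hNv - 0) +
    (87232 / 189581) * sq_nonneg (-c.gNu + c.gNv + c.hNu - c.hNv - 0) +
    (128652 / 60809) * (abs_le.1 p.p3y).2 +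
    (262 / 511) * (abs_le.1 p.h1).1 +
    (18708 / 3577) * (abs_le.1 p.z1Ny).2 +
    (31182 / 3577) * (abs_le.1 p.s1).1 +
    (5204 / 2555) * (abs_le.1 p.s3).2 +
    (11216 / 8687) * (abs_le.1 p.p4y).2 +
    (30096 / 2555) * (abs_le.1 p.k3Sy).2 +
    (160992 / 60809) * (abs_le.1 p.hNu).1 +
    (160992 / 60809) * (abs_le.1 p.hNv).2 +
    (5204 / 2555) * (abs_le.1 p.z3Sy).2 +
    (3008 / 3577) * (abs_le.1 p.k2).2 +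
    (19456 / 2555) * (abs_le.1 p.gSu).2 +
    (19456 / 2555) * (abs_le.1 p.gSv).1 +
    (3008 / 3577) * (abs_le.1 p.k2Ny).2 +
    (18048 / 3577) * (abs_le.1 p.gNu).1 +
    (18048 / 3577) * (abs_le.1 p.gNv).2 +
    4 * (abs_le.1 p.z1Ey).1 +
    4 * (abs_le.1 p.t2Ey).2 +
    (30624 / 2555) * (abs_le.1 p.t2x).1 +
    (20404 / 2555) * (abs_le.1 p.t2Sy).1 +
    (2002562 / 2736405) * h0

theorem thIQa (r : Rows β c) (w : Walls β Δ c) (p : PinIQ Ω c) (h0 : 0 ≤ Ω) (h1 : Ω ≤ 1)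
    (hβ : 0 ≤ β) (e1 : c.s1 = -c.h1) (e3 : c.s3 = c.h3) :
    -2 * c.z1Ey + 2 * c.p4y ≤
    8 + β * (4 + 180 * Ω) - (4009 / 511) * (β * Δ) := by
  linear_combination
    (10047 / 14308) * r.p2_p3 + (7493 / 10731) * r.p2_z1Nv + (183 / 2044) * r.p2_z3Wv
    + (304 / 511) * r.p2_k3Wv + (5791 / 10731) * r.p2_eN1 + (5347 / 8687) * r.p4_p3
    + (152 / 511) * r.p4_k3Sv + (11216 / 8687) * r.p4_hNv + (262 / 1533) * r.p3_z3Wu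
    + (79 / 2044) * r.p3_z3Su + (1174 / 1533) * r.p3_k2Wv + (912 / 511) * r.p3_gS
    + (20124 / 60809) * r.p3_hNv + (6788 / 10731) * r.z1N_k2N + (5791 / 32193) * r.z1N_eN1
    + (15040 / 3577) * r.z1N_gNh + (524 / 511) * r.z1N_hNu + 2 * r.z1E_t2E
    + (262 / 1533) * r.z3W_k2W + (18 / 2555) * r.z3S_t2S + (5168 / 2555) * r.z3S_gSh
    + (10184 / 2555) * r.t2S_k3S + (23164 / 10731) * r.k2N_eN1 + (3008 / 3577) * r.k2N_gNh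
    + (304 / 511) * r.k2W_k3W + (9728 / 2555) * r.k3S_gSh + (174464 / 189581) * r.gN_hN
    + (4009 / 1022) * w.wRz1N + (445 / 1022) * w.wLz3W + (262 / 511) * w.wLz3S + 2 * w.wBt2S
    + 2 * w.wBt2E + 2 * w.wTk2N + 2 * w.wTk2W + (760 / 511) * w.wLk3W + (760 / 511) * w.wLk3S
    + mul_le_mul_of_nonneg_left (hqIQa p h0 h1) hβ + (6053 / 2044) * e1 + (1285 / 6132) * e3

theorem hqIQb (p : PinIQ Ω c) (h0 : 0 ≤ Ω) (h1 : Ω ≤ 1) :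
    (183 / 518) * ((c.p2x - c.p3x) ^ 2 + (c.p2y - c.p3y) ^ 2 - (0) ^ 2 - (0) ^ 2 - 2 * (0) ^ 2) +
    (353 / 777) * ((c.p2x - c.z1Nx) ^ 2 + (c.p2y - c.z1Ny) ^ 2 - (c.h1) ^ 2 - (-c.s1) ^ 2 - 2 * (0) ^ 2) +
    (7 / 37) * ((c.p2x - c.z3Wx) ^ 2 + (c.p2y - c.z3Wy) ^ 2 - (-c.h3) ^ 2 - (-c.s3) ^ 2 - 2 * (0) ^ 2) +
    (10 / 37) * ((c.p2x - c.k3Wx) ^ 2 + (c.p2y - c.k3Wy) ^ 2 - (-c.k3) ^ 2 - (0) ^ 2 - 2 * (0) ^ 2) +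
    (226 / 777) * ((c.p2x - c.eN1x) ^ 2 + (c.p2y - c.eN1y) ^ 2 - (0) ^ 2 - (0) ^ 2 - 2 * (0) ^ 2) +
    (805 / 2516) * ((c.p4x - c.p3x) ^ 2 + (c.p4y - c.p3y) ^ 2 - (0) ^ 2 - (0) ^ 2 - 2 * (0) ^ 2) +
    (5 / 37) * ((c.p4x - c.k3Sx) ^ 2 + (c.p4y - c.k3Sy) ^ 2 - (c.k3) ^ 2 - (0) ^ 2 - 2 * (0) ^ 2) +
    (396 / 629) * ((c.p4x) ^ 2 + (c.p4y) ^ 2 - (-c.hNu - c.hNv) ^ 2 - (c.hNu - c.hNv) ^ 2 - 2 * (0) ^ 2) +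
    (4 / 37) * ((c.p3x - c.z3Wx) ^ 2 + (c.p3y - c.z3Wy) ^ 2 - (-c.s3) ^ 2 - (-c.h3) ^ 2 - 2 * (0) ^ 2) +
    (129 / 1184) * ((c.p3x - c.z3Sx) ^ 2 + (c.p3y - c.z3Sy) ^ 2 - (-c.s3) ^ 2 - (-c.h3) ^ 2 - 2 * (0) ^ 2) +
    (14 / 37) * ((c.p3x - c.k2Wx) ^ 2 + (c.p3y - c.k2Wy) ^ 2 - (0) ^ 2 - (-c.k2) ^ 2 - 2 * (0) ^ 2) +
    (30 / 37) * ((c.p3x) ^ 2 + (c.p3y) ^ 2 - (c.gSu + c.gSv) ^ 2 - (-c.gSu + c.gSv) ^ 2 - 2 * (0) ^ 2) +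
    (804 / 4403) * ((c.p3x) ^ 2 + (c.p3y) ^ 2 - (-c.hNu - c.hNv) ^ 2 - (c.hNu - c.hNv) ^ 2 - 2 * (0) ^ 2) +
    (9742 / 22533) * ((c.z1Nx - c.k2Nx) ^ 2 + (c.z1Ny - c.k2Ny) ^ 2 - (-c.h1) ^ 2 - (c.s1 + c.k2) ^ 2 - 2 * (0) ^ 2) +
    (226 / 2331) * ((c.z1Nx - c.eN1x) ^ 2 + (c.z1Ny - c.eN1y) ^ 2 - (-c.h1) ^ 2 - (c.s1) ^ 2 - 2 * (0) ^ 2) +
    (10560 / 7511) * ((c.z1Nx) ^ 2 + (c.z1Ny) ^ 2 - (-c.h1 - c.gNu - c.gNv) ^ 2 - (c.s1 + c.gNu - c.gNv) ^ 2 - 2 * (0) ^ 2) +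
    (24 / 37) * ((c.z1Nx) ^ 2 + (c.z1Ny) ^ 2 - (-c.s1 - c.hNu) ^ 2 - (c.h1 + c.hNu) ^ 2 - 2 * (-c.hNv) ^ 2) +
    1 * ((c.z1Ex - c.t2Ex) ^ 2 + (c.z1Ey - c.t2Ey) ^ 2 - (c.h1 - c.t2y) ^ 2 - (-c.s1 - c.t2x) ^ 2 - 2 * (0) ^ 2) +
    (4 / 37) * ((c.z3Wx - c.k2Wx) ^ 2 + (c.z3Wy - c.k2Wy) ^ 2 - (c.h3) ^ 2 - (c.s3 - c.k2) ^ 2 - 2 * (0) ^ 2) +
    (7 / 74) * ((c.z3Sx - c.t2Sx) ^ 2 + (c.z3Sy - c.t2Sy) ^ 2 - (-c.h3 + c.t2y) ^ 2 - (-c.s3 + c.t2x) ^ 2 - 2 * (0) ^ 2) +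
    (34 / 37) * ((c.z3Sx) ^ 2 + (c.z3Sy) ^ 2 - (-c.h3 + c.gSu + c.gSv) ^ 2 - (-c.s3 - c.gSu + c.gSv) ^ 2 - 2 * (0) ^ 2) +
    (67 / 37) * ((c.t2Sx - c.k3Sx) ^ 2 + (c.t2Sy - c.k3Sy) ^ 2 - (-c.t2y + c.k3) ^ 2 - (-c.t2x) ^ 2 - 2 * (0) ^ 2) +
    (904 / 777) * ((c.k2Nx - c.eN1x) ^ 2 + (c.k2Ny - c.eN1y) ^ 2 - (0) ^ 2 - (-c.k2) ^ 2 - 2 * (0) ^ 2) +
    (2112 / 7511) * ((c.k2Nx) ^ 2 + (c.k2Ny) ^ 2 - (-c.gNu - c.gNv) ^ 2 - (-c.k2 + c.gNu - c.gNv) ^ 2 - 2 * (0) ^ 2) +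
    (10 / 37) * ((c.k2Wx - c.k3Wx) ^ 2 + (c.k2Wy - c.k3Wy) ^ 2 - (-c.k3) ^ 2 - (c.k2) ^ 2 - 2 * (0) ^ 2) +
    (64 / 37) * ((c.k3Sx) ^ 2 + (c.k3Sy) ^ 2 - (-c.k3 + c.gSu + c.gSv) ^ 2 - (-c.gSu + c.gSv) ^ 2 - 2 * (0) ^ 2) +
    (4224 / 13727) * ((0) ^ 2 + (0) ^ 2 - (c.gNu + c.gNv - c.hNu - c.hNv) ^ 2 - (-c.gNu + c.gNv + c.hNu - c.hNv) ^ 2 - 2 * (0) ^ 2) ≤
    4 + 173 * Ω := by
  linear_combination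
    (183 / 518) * sq2 p.p2x p.p3x h1 +
    (183 / 518) * sq2 p.p2y p.p3y h1 +
    (353 / 777) * sq2 p.p2x p.z1Nx h1 +
    (353 / 777) * sq_nonneg (c.h1 - 0) +
    (353 / 777) * sq2 p.p2y p.z1Ny h1 +
    (353 / 777) * sq_nonneg (-c.s1 - 0) +
    (7 / 37) * sq2 p.p2x p.z3Wx h1 +
    (7 / 37) * sq_nonneg (-c.h3 - 0) +
    (7 / 37) * sq2 p.p2y p.z3Wy h1 +
    (7 / 37) * sq_nonneg (-c.s3 - 0) +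
    (10 / 37) * sq2 p.p2x p.k3Wx h1 +
    (10 / 37) * sq_nonneg (-c.k3 - 0) +
    (10 / 37) * sq2 p.p2y p.k3Wy h1 +
    (226 / 777) * sq2 p.p2x p.eN1x h1 +
    (226 / 777) * sq2 p.p2y p.eN1y h1 +
    (805 / 2516) * sq2 p.p4x p.p3x h1 +
    (805 / 2516) * sq2 p.p4y p.p3y h1 +
    (5 / 37) * sq2 p.p4x p.k3Sx h1 +
    (5 / 37) * sq_nonneg (c.k3 - 0) +
    (5 / 37) * sq2 p.p4y p.k3Sy h1 +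
    (396 / 629) * sq1 p.p4x h1 +
    (396 / 629) * sq_nonneg (-c.hNu - c.hNv - 0) +
    (396 / 629) * sq1 p.p4y h1 +
    (396 / 629) * sq_nonneg (c.hNu - c.hNv - 1) +
    (4 / 37) * sq2 p.p3x p.z3Wx h1 +
    (4 / 37) * sq_nonneg (-c.s3 - 0) +
    (4 / 37) * sq2 p.p3y p.z3Wy h1 +
    (4 / 37) * sq_nonneg (-c.h3 - 0) +
    (129 / 1184) * sq2 p.p3x p.z3Sx h1 +
    (129 / 1184) * sq_nonneg (-c.s3 - 0) +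
    (129 / 1184) * sq2 p.p3y p.z3Sy h1 +
    (129 / 1184) * sq_nonneg (-c.h3 - 0) +
    (14 / 37) * sq2 p.p3x p.k2Wx h1 +
    (14 / 37) * sq2 p.p3y p.k2Wy h1 +
    (14 / 37) * sq_nonneg (-c.k2 - 0) +
    (30 / 37) * sq1 p.p3x h1 +
    (30 / 37) * sq_nonneg (c.gSu + c.gSv - 0) +
    (30 / 37) * sq1 p.p3y h1 +
    (30 / 37) * sq_nonneg (-c.gSu + c.gSv - 1) +
    (804 / 4403) * sq1 p.p3x h1 +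
    (804 / 4403) * sq_nonneg (-c.hNu - c.hNv - 0) +
    (804 / 4403) * sq1 p.p3y h1 +
    (804 / 4403) * sq_nonneg (c.hNu - c.hNv - 1) +
    (9742 / 22533) * sq2 p.z1Nx p.k2Nx h1 +
    (9742 / 22533) * sq_nonneg (-c.h1 - 0) +
    (9742 / 22533) * sq2 p.z1Ny p.k2Ny h1 +
    (9742 / 22533) * sq_nonneg (c.s1 + c.k2 - 0) +
    (226 / 2331) * sq2 p.z1Nx p.eN1x h1 +
    (226 / 2331) * sq_nonneg (-c.h1 - 0) +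
    (226 / 2331) * sq2 p.z1Ny p.eN1y h1 +
    (226 / 2331) * sq_nonneg (c.s1 - 0) +
    (10560 / 7511) * sq1 p.z1Nx h1 +
    (10560 / 7511) * sq_nonneg (-c.h1 - c.gNu - c.gNv - 0) +
    (10560 / 7511) * sq1 p.z1Ny h1 +
    (10560 / 7511) * sq_nonneg (c.s1 + c.gNu - c.gNv - 1) +
    (24 / 37) * sq1 p.z1Nx h1 +
    (24 / 37) * sq_nonneg (-c.s1 - c.hNu - (-1 / 2)) +
    (24 / 37) * sq1 p.z1Ny h1 +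
    (24 / 37) * sq_nonneg (c.h1 + c.hNu - (1 / 2)) +
    (48 / 37) * sq_nonneg (-c.hNv - (1 / 2)) +
    1 * prod_le (c := 4) h0 h1 p.f0 p.f1 (by norm_num) +
    1 * sq2 p.z1Ey p.t2Ey h1 +
    1 * sq_nonneg (-c.s1 - c.t2x - (-2)) +
    (4 / 37) * sq2 p.z3Wx p.k2Wx h1 +
    (4 / 37) * sq_nonneg (c.h3 - 0) +
    (4 / 37) * sq2 p.z3Wy p.k2Wy h1 +
    (4 / 37) * sq_nonneg (c.s3 - c.k2 - 0) +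
    (7 / 74) * sq2 p.z3Sx p.t2Sx h1 +
    (7 / 74) * sq_nonneg (-c.h3 + c.t2y - 0) +
    (7 / 74) * sq2 p.z3Sy p.t2Sy h1 +
    (7 / 74) * sq_nonneg (-c.s3 + c.t2x - 2) +
    (34 / 37) * sq1 p.z3Sx h1 +
    (34 / 37) * sq_nonneg (-c.h3 + c.gSu + c.gSv - 0) +
    (34 / 37) * sq1 p.z3Sy h1 +
    (34 / 37) * sq_nonneg (-c.s3 - c.gSu + c.gSv - 1) +
    (67 / 37) * sq2 p.t2Sx p.k3Sx h1 +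
    (67 / 37) * sq_nonneg (-c.t2y + c.k3 - 0) +
    (67 / 37) * sq2 p.t2Sy p.k3Sy h1 +
    (67 / 37) * sq_nonneg (-c.t2x - (-2)) +
    (904 / 777) * sq2 p.k2Nx p.eN1x h1 +
    (904 / 777) * sq2 p.k2Ny p.eN1y h1 +
    (904 / 777) * sq_nonneg (-c.k2 - 0) +
    (2112 / 7511) * sq1 p.k2Nx h1 +
    (2112 / 7511) * sq_nonneg (-c.gNu - c.gNv - 0) +
    (2112 / 7511) * sq1 p.k2Ny h1 +
    (2112 / 7511) * sq_nonneg (-c.k2 + c.gNu - c.gNv - 1) +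
    (10 / 37) * sq2 p.k2Wx p.k3Wx h1 +
    (10 / 37) * sq_nonneg (-c.k3 - 0) +
    (10 / 37) * sq2 p.k2Wy p.k3Wy h1 +
    (10 / 37) * sq_nonneg (c.k2 - 0) +
    (64 / 37) * sq1 p.k3Sx h1 +
    (64 / 37) * sq_nonneg (-c.k3 + c.gSu + c.gSv - 0) +
    (64 / 37) * sq1 p.k3Sy h1 +
    (64 / 37) * sq_nonneg (-c.gSu + c.gSv - 1) +
    (4224 / 13727) * sq_nonneg (c.gNu + c.gNv - c.hNu - c.hNv - 0) +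
    (4224 / 13727) * sq_nonneg (-c.gNu + c.gNv + c.hNu - c.hNv - 0) +
    (8748 / 4403) * (abs_le.1 p.p3y).2 +
    (24 / 37) * (abs_le.1 p.h1).1 +
    (30864 / 7511) * (abs_le.1 p.z1Ny).2 +
    (56036 / 7511) * (abs_le.1 p.s1).1 +
    (82 / 37) * (abs_le.1 p.s3).2 +
    (792 / 629) * (abs_le.1 p.p4y).2 +
    (396 / 37) * (abs_le.1 p.k3Sy).2 +
    (12864 / 4403) * (abs_le.1 p.hNu).1 +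
    (12864 / 4403) * (abs_le.1 p.hNv).2 +
    (82 / 37) * (abs_le.1 p.z3Sy).2 +
    (4224 / 7511) * (abs_le.1 p.k2).2 +
    (256 / 37) * (abs_le.1 p.gSu).2 +
    (256 / 37) * (abs_le.1 p.gSv).1 +
    (4224 / 7511) * (abs_le.1 p.k2Ny).2 +
    (25344 / 7511) * (abs_le.1 p.gNu).1 +
    (25344 / 7511) * (abs_le.1 p.gNv).2 +
    4 * (abs_le.1 p.z1Ey).1 +
    4 * (abs_le.1 p.t2Ey).2 +
    (430 / 37) * (abs_le.1 p.t2x).1 +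
    (282 / 37) * (abs_le.1 p.t2Sy).1 +
    (3256021 / 4596732) * h0

theorem thIQb (r : Rows β c) (w : Walls β Δ c) (p : PinIQ Ω c) (h0 : 0 ≤ Ω) (h1 : Ω ≤ 1)
    (hβ : 0 ≤ β) (e1 : c.s1 = -c.h1) (e3 : c.s3 = -c.h3) :
    -2 * c.z1Ey + 2 * c.p4y ≤
    8 + β * (4 + 173 * Ω) - (328 / 37) * (β * Δ) := by
  linear_combination
    (183 / 259) * r.p2_p3 + (706 / 777) * r.p2_z1Nv + (14 / 37) * r.p2_z3Wv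
    + (20 / 37) * r.p2_k3Wv + (452 / 777) * r.p2_eN1 + (805 / 1258) * r.p4_p3
    + (10 / 37) * r.p4_k3Sv + (792 / 629) * r.p4_hNv + (8 / 37) * r.p3_z3Wu
    + (129 / 592) * r.p3_z3Su + (28 / 37) * r.p3_k2Wv + (60 / 37) * r.p3_gS
    + (1608 / 4403) * r.p3_hNv + (19484 / 22533) * r.z1N_k2N + (452 / 2331) * r.z1N_eN1
    + (21120 / 7511) * r.z1N_gNh + (48 / 37) * r.z1N_hNu + 2 * r.z1E_t2E + (8 / 37) * r.z3W_k2W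
    + (7 / 37) * r.z3S_t2S + (68 / 37) * r.z3S_gSh + (134 / 37) * r.t2S_k3S
    + (1808 / 777) * r.k2N_eN1 + (4224 / 7511) * r.k2N_gNh + (20 / 37) * r.k2W_k3W
    + (128 / 37) * r.k3S_gSh + (8448 / 13727) * r.gN_hN + (164 / 37) * w.wRz1N
    + (40 / 37) * w.wLz3W + (24 / 37) * w.wLz3S + 2 * w.wBt2S + 2 * w.wBt2E + 2 * w.wTk2N
    + 2 * w.wTk2W + (50 / 37) * w.wLk3W + (50 / 37) * w.wLk3S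
    + mul_le_mul_of_nonneg_left (hqIQb p h0 h1) hβ + (119 / 37) * e1 + (257 / 592) * e3


end Pool.Agent.P.MP_dba4bb_co.Ex
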