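import Pool.Agent.P.MP_dba4bb_co.Ex.Rows
import Pool.Agent.P.MP_dba4bb_co.Ex.R1
import Pool.Agent.P.MP_dba4bb_co.Ex.BbP
import Pool.Agent.P.MP_dba4bb_co.Ex.BbQ
import Pool.Agent.P.MP_dba4bb_co.Ex.NrIP
import Pool.Agent.P.MP_dba4bb_co.Ex.NrIQ
import Pool.Agent.P.MP_dba4bb_co.Ex.NrII
import Pool.Agent.P.MP_dba4bb_co.Ex.NrIII
import Pool.Agent.P.MP_dba4bb_co.Ex.ThIP
import Pool.Agent.P.MP_dba4bb_co.Ex.ThIQ
import Pool.Agent.P.MP_dba4bb_co.Ex.ThII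
import Pool.Agent.P.MP_dba4bb_co.Ex.ThIII
import Pool.Agent.P.MP_dba4bb_co.Ex.S4

/-! The finite dimensional problem: only the vertex `I` with `0 < h1` survives. -/

namespace Pool.Agent.P.MP_dba4bb_co.Ex

/-- The list of all coordinates of a configuration. -/
def finLst (c : Cfg) : List ℝ :=
  [
   c.p2x, c.p2y, c.p4x, c.p4y, c.p1x, c.p1y, c.p3x, c.p3y, c.z1Nx, c.z1Ny, c.z1Ex, c.z1Ey,
   c.z3Wx, c.z3Wy, c.z3Sx, c.z3Sy, c.t1Nx, c.t1Ny, c.t1Wx, c.t1Wy, c.t1Sx, c.t1Sy, c.t2Nx,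
   c.t2Ny, c.t2Sx, c.t2Sy, c.t2Ex, c.t2Ey, c.k1Nx, c.k1Ny, c.k1Ex, c.k1Ey, c.k2Nx, c.k2Ny,
   c.k2Wx, c.k2Wy, c.k3Wx, c.k3Wy, c.k3Sx, c.k3Sy, c.k4Sx, c.k4Sy, c.k4Ex, c.k4Ey, c.eN1x,
   c.eN1y, c.eN2x, c.eN2y, c.eW1x, c.eW1y, c.eS1x, c.eS1y, c.eS2x, c.eS2y, c.s1, c.h1, c.s3,
   c.h3, c.t1x, c.t1y, c.t2x, c.t2y, c.k1, c.k2, c.k3, c.k4, c.gNu, c.gNv, c.gWu, c.gWv, c.gSu,
   c.gSv, c.gEu, c.gEv, c.hNu, c.hNv, c.hWu, c.hWv]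

theorem fin_bnd_iff {M : ℝ} {c : Cfg} : Bnd M c ↔ ∀ x ∈ finLst c, |x| ≤ M := by
  simp only [finLst, List.forall_mem_cons]
  refine ⟨fun h => ⟨
      h.p2x, h.p2y, h.p4x, h.p4y, h.p1x, h.p1y, h.p3x, h.p3y, h.z1Nx, h.z1Ny, h.z1Ex, h.z1Ey,
      h.z3Wx, h.z3Wy, h.z3Sx, h.z3Sy, h.t1Nx, h.t1Ny, h.t1Wx, h.t1Wy, h.t1Sx, h.t1Sy, h.t2Nx,
      h.t2Ny, h.t2Sx, h.t2Sy, h.t2Ex, h.t2Ey, h.k1Nx, h.k1Ny, h.k1Ex, h.k1Ey, h.k2Nx, h.k2Ny,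
      h.k2Wx, h.k2Wy, h.k3Wx, h.k3Wy, h.k3Sx, h.k3Sy, h.k4Sx, h.k4Sy, h.k4Ex, h.k4Ey, h.eN1x,
      h.eN1y, h.eN2x, h.eN2y, h.eW1x, h.eW1y, h.eS1x, h.eS1y, h.eS2x, h.eS2y, h.s1, h.h1, h.s3,
      h.h3, h.t1x, h.t1y, h.t2x, h.t2y, h.k1, h.k2, h.k3, h.k4, h.gNu, h.gNv, h.gWu, h.gWv,
      h.gSu, h.gSv, h.gEu, h.gEv, h.hNu, h.hNv, h.hWu, h.hWv, by simp⟩, ?_⟩
  rintro ⟨
      a0, a1, a2, a3, a4, a5, a6, a7, a8, a9, a10, a11, a12, a13, a14, a15, a16, a17, a18, a19,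
      a20, a21, a22, a23, a24, a25, a26, a27, a28, a29, a30, a31, a32, a33, a34, a35, a36, a37,
      a38, a39, a40, a41, a42, a43, a44, a45, a46, a47, a48, a49, a50, a51, a52, a53, a54, a55,
      a56, a57, a58, a59, a60, a61, a62, a63, a64, a65, a66, a67, a68, a69, a70, a71, a72, a73,
      a74, a75, a76, a77, -⟩
  exact ⟨
      a0, a1, a2, a3, a4, a5, a6, a7, a8, a9, a10, a11, a12, a13, a14, a15, a16, a17, a18, a19,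
      a20, a21, a22, a23, a24, a25, a26, a27, a28, a29, a30, a31, a32, a33, a34, a35, a36, a37,
      a38, a39, a40, a41, a42, a43, a44, a45, a46, a47, a48, a49, a50, a51, a52, a53, a54, a55,
      a56, a57, a58, a59, a60, a61, a62, a63, a64, a65, a66, a67, a68, a69, a70, a71, a72, a73,
      a74, a75, a76, a77⟩

theorem fin_bnd_mono {M K : ℝ} {c : Cfg} (h : Bnd M c) (e : M ≤ K) : Bnd K c :=
  fin_bnd_iff.2 fun x hx => (fin_bnd_iff.1 h x hx).trans e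

theorem fin_least (c : Cfg) : ∃ m, Bnd m c ∧ ∀ K, Bnd K c → m ≤ K := by
  classical
  obtain ⟨x, hx, hm⟩ := Finset.exists_max_image (finLst c).toFinset (fun x => |x|)
    ⟨c.p2x, List.mem_toFinset.2 List.mem_cons_self⟩
  exact ⟨|x|, fin_bnd_iff.2 fun y hy => hm y (List.mem_toFinset.2 hy),
    fun K hK => fin_bnd_iff.1 hK x (List.mem_toFinset.1 hx)⟩

theorem fin_bnd {β Δ M : ℝ} {c : Cfg} (hβ : 0 ≤ β) (hΔ : 0 ≤ β * Δ) (r : Rows β c)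
    (w : Walls β Δ c) (hb : Bnd M c) (hM : β * M ≤ 3 / 20000) : Bnd 644 c := by
  obtain ⟨m, h1, h2⟩ := fin_least c
  have m0 : 0 ≤ m := (abs_nonneg _).trans h1.p2x
  have bm : β * m ≤ 3 / 20000 := (mul_le_mul_of_nonneg_left (h2 M hb) hβ).trans hM
  have l := lin_of_rows r w h1 hβ hΔ le_rfl
  have k := h2 _ (r1_bnd l (by positivity) w.s1 w.s3)
  have k2 : β * m * m ≤ 3 / 20000 * m := mul_le_mul_of_nonneg_right bm m0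
  exact fin_bnd_mono h1 (by nlinarith)

theorem fin_strut {β v η A : ℝ} (hβ : 0 < β) (hb : β ≤ 1 / 10 ^ 40)
    (h : 0 ≤ -2 * v + β * (v ^ 2 + 2 * η * v + A) / 2) (hv : |v| ≤ 10 ^ 8 * β) (hη : |η| ≤ 644) :
    v ≤ β * (A / 4) + β ^ 2 * (η * A / 8) + 10 ^ 17 * β ^ 3 := by
  obtain ⟨x, hx⟩ : ∃ x, x = β * η / 2 := ⟨_, rfl⟩
  obtain ⟨e1, e2⟩ := abs_le.1 hη
  obtain ⟨v1, v2⟩ := abs_le.1 hv
  have x1 : x ≤ 322 * β := by nlinarith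
  have x2 : -(322 * β) ≤ x := by nlinarith
  have x3 : x ^ 2 ≤ (322 * β) ^ 2 := sq_le_sq' x2 x1
  have v3 : v ^ 2 ≤ (10 ^ 8 * β) ^ 2 := sq_le_sq' v1 v2
  have x4 : 0 ≤ 1 + x := by linarith
  have x5 : 1 + x ≤ 2 := by linarith
  have k := mul_nonneg x4 h
  have k1 : (1 + x) * (β * v ^ 2) ≤ 2 * (β * (10 ^ 8 * β) ^ 2) := by gcongr
  have k2 : x ^ 2 * v ≤ (322 * β) ^ 2 * (10 ^ 8 * β) := by
    calc x ^ 2 * v ≤ x ^ 2 * (10 ^ 8 * β) := by gcongr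
      _ ≤ _ := by gcongr
  have k3 : 0 ≤ β ^ 3 := by positivity
  have k4 : (1 + x) * (-2 * v + β * (v ^ 2 + 2 * η * v + A) / 2) =
      -2 * v + 2 * (x ^ 2 * v) + (1 + x) * (β * v ^ 2) / 2 + β * A / 2 +
        β ^ 2 * (η * A) / 4 := by
    rw [hx]; ring
  nlinarith

theorem fin_cub {h h0 a a0 Ω : ℝ} (hh : |h - h0| ≤ Ω) (ha : |a - a0| ≤ 2 * Ω) (h1 : Ω ≤ 1)
    (e1 : |h0| ≤ 1) (e2 : |a0| ≤ 4) : |h * a ^ 2 - h0 * a0 ^ 2| ≤ 56 * Ω := by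
  have h0' : 0 ≤ Ω := (abs_nonneg _).trans hh
  have a6 : |a| ≤ 6 := by
    rw [abs_le] at *; constructor <;> linarith [ha.1, ha.2, e2.1, e2.2]
  have a10 : |a + a0| ≤ 10 := (abs_add_le _ _).trans (by linarith)
  calc |h * a ^ 2 - h0 * a0 ^ 2| = |(h - h0) * a ^ 2 + h0 * ((a - a0) * (a + a0))| := by
        congr 1; ring
    _ ≤ |(h - h0) * a ^ 2| + |h0 * ((a - a0) * (a + a0))| := abs_add_le _ _
    _ = |h - h0| * |a| ^ 2 + |h0| * (|a - a0| * |a + a0|) := by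
        rw [abs_mul, abs_mul, abs_mul, abs_pow]
    _ ≤ Ω * 6 ^ 2 + 1 * (2 * Ω * 10) := by gcongr
    _ = 56 * Ω := by ring

theorem fin_dif {x x0 y y0 z Ω : ℝ} (hx : |x - x0| ≤ Ω) (hy : |y - y0| ≤ Ω) (e : z = x0 - y0) :
    |x - y - z| ≤ 2 * Ω := by
  rw [abs_le] at *; constructor <;> linarith [hx.1, hx.2, hy.1, hy.2]

theorem fin_vtx {β Δ Ω a b c d s1 s3 h1 h3 : ℝ} (a0 b0 c0 d0 s0 η1 η3 c2 K Kw : ℝ)
    (hβ : 0 < β) (hb : β ≤ 1 / 10 ^ 40) (hΔ : 4 + 499 / 100 * β ≤ 4 * Δ)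
    (hΩ : Ω ≤ 2 * 10 ^ 17 * β) (pa : |a - a0| ≤ 2 * Ω) (pb : |b - b0| ≤ 2 * Ω)
    (pc : |c - c0| ≤ 2 * Ω) (pd : |d - d0| ≤ 2 * Ω) (p1 : |h1 - η1| ≤ Ω) (p3 : |h3 - η3| ≤ Ω)
    (main : 4 * Δ ≤ (a ^ 2 + b ^ 2 + c ^ 2 + d ^ 2) / 4 - (s1 ^ 2 + s3 ^ 2) / 2 +
      β * ((h1 * (a ^ 2 - b ^ 2) + h3 * (c ^ 2 - d ^ 2)) / 8) + 4 * 10 ^ 17 * β ^ 2)
    (th : (a0 * a + b0 * b + c0 * c + d0 * d) / 2 - s0 * (s1 + s3) ≤
      8 + β * (c2 + K * Ω) - Kw * (β * Δ))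
    (e : (a0 ^ 2 + b0 ^ 2 + c0 ^ 2 + d0 ^ 2) / 4 - s0 ^ 2 = 4 ∧ 0 ≤ Kw ∧ K ≤ 300 ∧
      c2 - Kw + (η1 * (a0 ^ 2 - b0 ^ 2) + η3 * (c0 ^ 2 - d0 ^ 2)) / 8 ≤ 494 / 100 ∧
      |η1| ≤ 1 ∧ |η3| ≤ 1 ∧ |a0| ≤ 4 ∧ |b0| ≤ 4 ∧ |c0| ≤ 4 ∧ |d0| ≤ 4) : False := by
  obtain ⟨e1, e2, e3, e4, f1, f3, fa, fb, fc, fd⟩ := e
  have o0 : 0 ≤ Ω := (abs_nonneg _).trans p1
  have o1 : Ω ≤ 1 / 10 ^ 22 := by linarith
  have o2 : Ω ≤ 1 := by linarith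
  have ca := (abs_le.1 (fin_cub p1 pa o2 f1 fa)).2
  have cb := (abs_le.1 (fin_cub p1 pb o2 f1 fb)).1
  have cc := (abs_le.1 (fin_cub p3 pc o2 f3 fc)).2
  have cd := (abs_le.1 (fin_cub p3 pd o2 f3 fd)).1
  have cub : (h1 * (a ^ 2 - b ^ 2) + h3 * (c ^ 2 - d ^ 2)) / 8 ≤
      (η1 * (a0 ^ 2 - b0 ^ 2) + η3 * (c0 ^ 2 - d0 ^ 2)) / 8 + 28 * Ω := by linarith
  have qa := sq_le_sq' (abs_le.1 pa).1 (abs_le.1 pa).2
  have qb := sq_le_sq' (abs_le.1 pb).1 (abs_le.1 pb).2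
  have qc := sq_le_sq' (abs_le.1 pc).1 (abs_le.1 pc).2
  have qd := sq_le_sq' (abs_le.1 pd).1 (abs_le.1 pd).2
  have q : (a ^ 2 + b ^ 2 + c ^ 2 + d ^ 2) / 4 - (s1 ^ 2 + s3 ^ 2) / 2 ≤
      -4 + ((a0 * a + b0 * b + c0 * c + d0 * d) / 2 - s0 * (s1 + s3)) + 4 * Ω ^ 2 := by
    linarith [sq_nonneg (s1 - s0), sq_nonneg (s3 - s0)]
  have b2 : β ^ 2 ≤ 1 / 10 ^ 40 * β := by rw [sq]; exact mul_le_mul_of_nonneg_right hb hβ.le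
  have o3 : Ω ^ 2 ≤ (2 * 10 ^ 17 * β) ^ 2 := by gcongr
  have d1 : β ≤ β * Δ := le_mul_of_one_le_right hβ.le (by linarith)
  have kw : Kw * β ≤ Kw * (β * Δ) := mul_le_mul_of_nonneg_left d1 e2
  have ko : K * Ω ≤ 300 * (1 / 10 ^ 22) :=
    (mul_le_mul_of_nonneg_right e3 o0).trans (by linarith)
  have u1 := mul_le_mul_of_nonneg_left cub hβ.le
  have u2 : β * (c2 + K * Ω - Kw +
      ((η1 * (a0 ^ 2 - b0 ^ 2) + η3 * (c0 ^ 2 - d0 ^ 2)) / 8 + 28 * Ω)) ≤ β * (495 / 100) :=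
    mul_le_mul_of_nonneg_left (by linarith) hβ.le
  linarith

variable {β Δ : ℝ} {c : Cfg}

theorem fin_main (hβ : 0 < β) (hb : β ≤ 1 / 10 ^ 40) (hΔ : 0 ≤ β * Δ) (r : Rows β c)
    (w : Walls β Δ c) (B : Bnd 644 c) :
    4 * Δ ≤ ((c.z1Ny - c.p2y) ^ 2 + (c.z1Ey - c.p4y) ^ 2 + (c.z3Wy - c.p2y) ^ 2 +
      (c.z3Sy - c.p4y) ^ 2) / 4 - (c.s1 ^ 2 + c.s3 ^ 2) / 2 +
      β * ((c.h1 * ((c.z1Ny - c.p2y) ^ 2 - (c.z1Ey - c.p4y) ^ 2) +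
        c.h3 * ((c.z3Wy - c.p2y) ^ 2 - (c.z3Sy - c.p4y) ^ 2)) / 8) + 4 * 10 ^ 17 * β ^ 2 := by
  have l := lin_of_rows r w B hβ.le hΔ le_rfl
  have l1 := l.p2_z1Nv
  have l2 := l.p4_z1Ev
  have l3 := l.p2_z3Wv
  have l4 := l.p4_z3Sv
  have w1 := w.wRz1N
  have w2 := w.wRz1E
  have w3 := w.wLz3W
  have w4 := w.wLz3S
  have k1 := fin_strut (v := c.p2x - c.z1Nx - c.h1) (η := c.h1)
    (A := (c.z1Ny - c.p2y) ^ 2 - c.s1 ^ 2) hβ hb (by linarith [r.p2_z1Nv])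
    (abs_le.2 ⟨by linarith, by linarith⟩) B.h1
  have k2 := fin_strut (v := c.p4x - c.z1Ex + c.h1) (η := -c.h1)
    (A := (c.z1Ey - c.p4y) ^ 2 - c.s1 ^ 2) hβ hb (by linarith [r.p4_z1Ev])
    (abs_le.2 ⟨by linarith, by linarith⟩) (by rw [abs_neg]; exact B.h1)
  have k3 := fin_strut (v := c.z3Wx - c.p2x - c.h3) (η := c.h3)
    (A := (c.z3Wy - c.p2y) ^ 2 - c.s3 ^ 2) hβ hb (by linarith [r.p2_z3Wv])
    (abs_le.2 ⟨by linarith, by linarith⟩) B.h3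
  have k4 := fin_strut (v := c.z3Sx - c.p4x + c.h3) (η := -c.h3)
    (A := (c.z3Sy - c.p4y) ^ 2 - c.s3 ^ 2) hβ hb (by linarith [r.p4_z3Sv])
    (abs_le.2 ⟨by linarith, by linarith⟩) (by rw [abs_neg]; exact B.h3)
  refine le_of_mul_le_mul_left ?_ hβ
  linarith

theorem fin_sqd {h x y z t : ℝ} (hh : |h| ≤ 644) (hx : |x| ≤ 644) (hy : |y| ≤ 644)
    (hz : |z| ≤ 644) (ht : |t| ≤ 644) : h * ((x - y) ^ 2 - (z - t) ^ 2) ≤ 644 * 1288 ^ 2 := by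
  have m : ∀ {p q : ℝ}, |p| ≤ 644 → |q| ≤ 644 → (p - q) ^ 2 ≤ 1288 ^ 2 := fun hp hq => by
    rw [abs_le] at hp hq
    exact sq_le_sq' (by linarith [hp.1, hq.2]) (by linarith [hp.2, hq.1])
  have k : |(x - y) ^ 2 - (z - t) ^ 2| ≤ 1288 ^ 2 := abs_le.2
    ⟨by linarith [m hz ht, sq_nonneg (x - y)], by linarith [m hx hy, sq_nonneg (z - t)]⟩
  calc _ ≤ |h * ((x - y) ^ 2 - (z - t) ^ 2)| := le_abs_self _
    _ = |h| * |(x - y) ^ 2 - (z - t) ^ 2| := abs_mul _ _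
    _ ≤ _ := by gcongr

theorem fin_lin2 {τ : ℝ} (hβ : 0 < β) (hb : β ≤ 1 / 10 ^ 40) (hΔ : 1 ≤ Δ) (r : Rows β c)
    (w : Walls β Δ c) (B : Bnd 644 c) (hτ : 10 ^ 12 * β ≤ τ) : Lin2 τ c := by
  have hΔ' : 0 ≤ β * Δ := by positivity
  have l := lin_of_rows r w B hβ.le hΔ' le_rfl
  have hh : |c.h1 - -c.h3| ≤ 4 * β * 644 ^ 2 := abs_le.2
    ⟨by linarith [l.p2_z1Nv, l.p2_z3Wv, w.wRz1N, w.wLz3W],
      by linarith [l.p4_z1Ev, l.p4_z3Sv, w.wRz1E, w.wLz3S]⟩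
  have hs : |c.s1 - c.s3| ≤ 4 * β * 644 ^ 2 := by
    rw [w.s1, w.s3, ← abs_neg c.h3]
    exact (abs_abs_sub_abs_le_abs_sub _ _).trans hh
  have hs' := abs_le.1 hs
  refine ⟨lin_of_rows r w B hβ.le hΔ' (by linarith), by linarith, by linarith, ?_⟩
  have m := fin_main hβ hb hΔ' r w B
  have c1 := fin_sqd B.h1 B.z1Ny B.p2y B.z1Ey B.p4y
  have c3 := fin_sqd B.h3 B.z3Wy B.p2y B.z3Sy B.p4y
  have cub : β * ((c.h1 * ((c.z1Ny - c.p2y) ^ 2 - (c.z1Ey - c.p4y) ^ 2) +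
      c.h3 * ((c.z3Wy - c.p2y) ^ 2 - (c.z3Sy - c.p4y) ^ 2)) / 8) ≤ β * 10 ^ 9 :=
    mul_le_mul_of_nonneg_left (by linarith) hβ.le
  have b2 : β ^ 2 ≤ 1 / 10 ^ 40 * β := by rw [sq]; exact mul_le_mul_of_nonneg_right hb hβ.le
  have ss : |c.s1 + c.s3| ≤ 1288 := (abs_add_le _ _).trans (by linarith [B.s1, B.s3])
  have sd : (c.s1 - c.s3) * (c.s1 + c.s3) ≤ 4 * β * 644 ^ 2 * 1288 :=
    calc _ ≤ |(c.s1 - c.s3) * (c.s1 + c.s3)| := le_abs_self _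
      _ = |c.s1 - c.s3| * |c.s1 + c.s3| := abs_mul _ _
      _ ≤ _ := by gcongr
  linarith

theorem sFin : SFin := by
  intro β Δ M c hβ hb hΔ r w hM hβM
  have d1 : 1 ≤ Δ := by linarith
  have d0 : 0 ≤ β * Δ := by positivity
  have B := fin_bnd hβ.le d0 r w hM hβM
  have m := fin_main hβ hb d0 r w B
  have L := fin_lin2 hβ hb d1 r w B le_rfl
  have t0 : 0 ≤ 10 ^ 12 * β := by positivity
  have t1 : 10 ^ 12 * β ≤ 1 / 10 ^ 7 := by linarith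
  have s0 : 0 ≤ c.s1 := by rw [w.s1]; exact abs_nonneg _
  rcases le_or_gt c.h1 0 with h | h
  · exfalso
    have e1 : c.s1 = -c.h1 := by rw [w.s1, abs_of_nonpos h]
    have e : CsQ c := ⟨by linarith, by linarith, s0⟩
    rcases bbQ L e t0 t1 with n | n
    · have p := pinIQ L e t0 n
      rcases le_total 0 c.h3 with h3 | h3
      · have th := thIQa r w p (by positivity) (by linarith) hβ.le e1
          (by rw [w.s3, abs_of_nonneg h3])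
        exact fin_vtx 0 (-4) 0 0 0 0 0 4 180 (4009 / 511) hβ hb hΔ (by linarith)
          (fin_dif p.z1Ny p.p2y (by norm_num)) (fin_dif p.z1Ey p.p4y (by norm_num))
          (fin_dif p.z3Wy p.p2y (by norm_num)) (fin_dif p.z3Sy p.p4y (by norm_num)) p.h1 p.h3 m
          (by linarith) (by norm_num)
      · have th := thIQb r w p (by positivity) (by linarith) hβ.le e1
          (by rw [w.s3, abs_of_nonpos h3])
        exact fin_vtx 0 (-4) 0 0 0 0 0 4 173 (328 / 37) hβ hb hΔ (by linarith)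
          (fin_dif p.z1Ny p.p2y (by norm_num)) (fin_dif p.z1Ey p.p4y (by norm_num))
          (fin_dif p.z3Wy p.p2y (by norm_num)) (fin_dif p.z3Sy p.p4y (by norm_num)) p.h1 p.h3 m
          (by linarith) (by norm_num)
    · have p := pinII L e t0 n
      have h3 : 0 ≤ c.h3 := by linarith [(abs_le.1 p.h3).1]
      have th := thII r w p (by positivity) (by linarith) hβ.le e1
        (by rw [w.s3, abs_of_nonneg h3])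
      exact fin_vtx (3 / 2) (-7 / 2) (-1 / 2) (-3 / 2) (1 / 2) (-1 / 2) (1 / 2) (70547 / 8276) 195
        (9878 / 2069) hβ hb hΔ (by linarith)
        (fin_dif p.z1Ny p.p2y (by norm_num)) (fin_dif p.z1Ey p.p4y (by norm_num))
        (fin_dif p.z3Wy p.p2y (by norm_num)) (fin_dif p.z3Sy p.p4y (by norm_num)) p.h1 p.h3 m
        (by linarith) (by norm_num [abs_le])
  · have e1 : c.s1 = c.h1 := by rw [w.s1, abs_of_pos h]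
    have e : CsP c := ⟨by linarith, by linarith, s0⟩
    rcases bbP L e t0 t1 with n | n
    · have L' := fin_lin2 (τ := 1 / 10 ^ 10 / 26573) hβ hb d1 r w B (by linarith)
      have p' := pinIP L' e (by norm_num) n
      rw [show (26573 : ℝ) * (1 / 10 ^ 10 / 26573) = 1 / 10 ^ 10 by norm_num] at p'
      refine ⟨h, p', ?_, B⟩
      by_contra hl
      have p := pinIP L e t0 n
      have th := thIP r w p (by positivity) (by linarith) hβ.le e1 (by linarith)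
      exact fin_vtx 0 (-4) 0 0 0 0 0 (2581 / 150) 215 (184 / 15) hβ hb hΔ (by linarith)
        (fin_dif p.z1Ny p.p2y (by norm_num)) (fin_dif p.z1Ey p.p4y (by norm_num))
        (fin_dif p.z3Wy p.p2y (by norm_num)) (fin_dif p.z3Sy p.p4y (by norm_num)) p.h1 p.h3 m
        (by linarith) (by norm_num)
    · exfalso
      have p := pinIII L e t0 n
      have h3 : c.h3 ≤ 0 := by linarith [(abs_le.1 p.h3).2]
      have th := thIII r w p (by positivity) (by linarith) hβ.le e1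
        (by rw [w.s3, abs_of_nonpos h3])
      exact fin_vtx (-1 / 2) (-3 / 2) (3 / 2) (-7 / 2) (1 / 2) (1 / 2) (-1 / 2) (14013 / 7276) 167
        (11554 / 1819) hβ hb hΔ (by linarith)
        (fin_dif p.z1Ny p.p2y (by norm_num)) (fin_dif p.z1Ey p.p4y (by norm_num))
        (fin_dif p.z3Wy p.p2y (by norm_num)) (fin_dif p.z3Sy p.p4y (by norm_num)) p.h1 p.h3 m
        (by linarith) (by norm_num [abs_le])

end Pool.Agent.P.MP_dba4bb_co.Ex
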