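import Pool.Agent.P.MP_dba4bb_co.Ex.S4
import Pool.Agent.P.MP_dba4bb_co.Ex.Basic

/-! Change of variables: deviations from the optimal configuration. -/

namespace Pool.Agent.P.MP_dba4bb_co.Ex

open Set

def g3_dx (t δ X Y p : ℝ) : ℝ := p - (δ + (X - t * Y))

def g3_dy (t β X Y q : ℝ) : ℝ := q - (β + (t * X + Y))

theorem g3_pt (t δ β X Y p q : ℝ) :
    pt t δ β X Y (g3_dx t δ X Y p) (g3_dy t β X Y q) = (p, q) := by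
  unfold pt g3_dx g3_dy
  rw [add_sub_cancel, add_sub_cancel]

noncomputable def g3_mk (β t δ C S ρ x y h r : ℝ) (c : Cfg) (N E : P2) : C3 where
  p2x := g3_dx t δ 0 1 (0 + β * c.p2x)
  p2y := g3_dy t β 0 1 (1 + β * c.p2y)
  p4x := g3_dx t δ 0 (-1) (0 + β * c.p4x)
  p4y := g3_dy t β 0 (-1) (-1 + β * c.p4y)
  p3x := g3_dx t δ (-1) 0 (-1 + β * c.p3x)
  p3y := g3_dy t β (-1) 0 (0 + β * c.p3y)
  zNx := g3_dx t δ (2 - (C + S) * r) (1 + (C - S) * r) N.1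
  zNy := g3_dy t β (2 - (C + S) * r) (1 + (C - S) * r) N.2
  z3Wx := g3_dx t δ (-2 + β * c.h3) (1 + β * c.s3) (-2 + β * c.z3Wx)
  z3Wy := g3_dy t β (-2 + β * c.h3) (1 + β * c.s3) (1 + β * c.z3Wy)
  z3Sx := g3_dx t δ (-2 - β * c.h3) (-1 - β * c.s3) (-2 + β * c.z3Sx)
  z3Sy := g3_dy t β (-2 - β * c.h3) (-1 - β * c.s3) (-1 + β * c.z3Sy)
  t2Nx := g3_dx t δ (2 - β * c.t2y) (2 - β * c.t2x) (2 + β * c.t2Nx)
  t2Ny := g3_dy t β (2 - β * c.t2y) (2 - β * c.t2x) (2 + β * c.t2Ny)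
  t2Sx := g3_dx t δ (-2 - β * c.t2y) (-2 - β * c.t2x) (-2 + β * c.t2Sx)
  t2Sy := g3_dy t β (-2 - β * c.t2y) (-2 - β * c.t2x) (-2 + β * c.t2Sy)
  k2Nx := g3_dx t δ (3 / 2) (2 - β * c.k2) (3 / 2 + β * c.k2Nx)
  k2Ny := g3_dy t β (3 / 2) (2 - β * c.k2) (2 + β * c.k2Ny)
  k2Wx := g3_dx t δ (-3 / 2) (2 + β * c.k2) (-3 / 2 + β * c.k2Wx)
  k2Wy := g3_dy t β (-3 / 2) (2 + β * c.k2) (2 + β * c.k2Wy)
  k3Wx := g3_dx t δ (-2 + β * c.k3) (3 / 2) (-2 + β * c.k3Wx)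
  k3Wy := g3_dy t β (-2 + β * c.k3) (3 / 2) (3 / 2 + β * c.k3Wy)
  k3Sx := g3_dx t δ (-2 - β * c.k3) (-3 / 2) (-2 + β * c.k3Sx)
  k3Sy := g3_dy t β (-2 - β * c.k3) (-3 / 2) (-3 / 2 + β * c.k3Sy)
  eN1x := g3_dx t δ (5 / 4) (7 / 4) (5 / 4 + β * c.eN1x)
  eN1y := g3_dy t β (5 / 4) (7 / 4) (7 / 4 + β * c.eN1y)
  eW1x := g3_dx t δ (-5 / 4) (7 / 4) (-5 / 4 + β * c.eW1x)
  eW1y := g3_dy t β (-5 / 4) (7 / 4) (7 / 4 + β * c.eW1y)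
  eS2x := g3_dx t δ (-3 / 2) (-3 / 2) (-3 / 2 + β * c.eS2x)
  eS2y := g3_dy t β (-3 / 2) (-3 / 2) (-3 / 2 + β * c.eS2y)
  hNx := g3_dx t δ (7 / 8 + β * c.hNu + (1 / 16 + β * c.hNv))
    (1 - (7 / 8 + β * c.hNu) + (1 / 16 + β * c.hNv)) (15 / 16)
  hNy := g3_dy t β (7 / 8 + β * c.hNu + (1 / 16 + β * c.hNv))
    (1 - (7 / 8 + β * c.hNu) + (1 / 16 + β * c.hNv)) (3 / 16)
  h := β * c.h3 - h
  r := r - ρ
  x := β * c.t2x - x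
  y := β * c.t2y - y
  k2 := β * c.k2 - 3 / 2 * t
  k3 := β * c.k3 - 3 / 2 * t
  L := -2 + β * c.t2Ey - (β - 1 - 2 * S + (-S * (β * c.t2y) + C * (β * c.t2x - 1)))
  u := 7 / 8 + β * c.hNu
  v := 1 / 16 + β * c.hNv
  τ := 2 + β * c.t2Ex - (δ + t + 2 * C + (C * (β * c.t2y) + S * (β * c.t2x - 1)))
  ζ1 := E.1 - (δ + t + 2 * C)
  ζ2 := E.2 - (β - 1 - 2 * S)
  f1 := 1 + β * c.p1x - (δ + t + 2 * C - 1)
  f2 := 0 + β * c.p1y - (β - 1 - 2 * S + 1)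

variable {β t δ Δ C S ρ x y h r : ℝ} {c : Cfg} {N E : P2} {F : P2 → P3}

theorem g3_geo (g : Geo β F c) (hs : |β * c.h3| = β * c.s3)
    (hN : F N = cp (1 - C * r) (C * r) (1 - S * r))
    (hE : F E = cp (1 - C * r) (C * r) (1 - S * r)) :
    Geo3 β t δ C S ρ x y h F (g3_mk β t δ C S ρ x y h r c N E) := by
  constructor <;> simp only [g3_mk, add_sub_cancel, hs, g3_pt]
  exacts [g.p2, g.p4, g.p3, hN, g.z3W, g.z3S, g.t2N, g.t2S, g.k2N, g.k2W, g.k3W, g.k3S, g.eN1,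
    g.eW1, g.eS2, g.hN, hE, g.t2E, g.p1]

theorem g3_wall (hβ : 0 ≤ β) (w : Walls β Δ c) (hs : |β * c.h3| = β * c.s3)
    (hN : N.1 ≤ 2 - β ^ 2 * Δ) (hE : E.1 ≤ 2 - β ^ 2 * Δ) :
    Wall3 β t (β ^ 2 * Δ) C S ρ x y h (g3_mk β t (β ^ 2 * Δ) C S ρ x y h r c N E) := by
  constructor <;> simp only [g3_mk, add_sub_cancel, hs, g3_dx, g3_dy]
  · linarith [mul_nonneg hβ w.wLz3W]
  · linarith [mul_nonneg hβ w.wLz3S]
  · linarith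
  · linarith [mul_nonneg hβ w.wRt2N]
  · linarith [mul_nonneg hβ w.wTt2N]
  · linarith [mul_nonneg hβ w.wLt2S]
  · linarith [mul_nonneg hβ w.wBt2S]
  · linarith [mul_nonneg hβ w.wTk2N]
  · linarith [mul_nonneg hβ w.wTk2W]
  · linarith [mul_nonneg hβ w.wLk3W]
  · linarith [mul_nonneg hβ w.wLk3S]
  · linarith
  · linarith [mul_nonneg hβ w.wRt2E]
  · linarith [mul_nonneg hβ w.wBt2E]

theorem g3_pin (hβ : 0 < β) {u v : ℝ} (h : |u - v| ≤ 1 / 10 ^ 10) :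
    β * v - β / 10 ^ 10 ≤ β * u ∧ β * u ≤ β * v + β / 10 ^ 10 := by
  obtain ⟨h1, h2⟩ := abs_le.1 h
  constructor <;> nlinarith

theorem g3_mul {a b A B : ℝ} (ha : -A ≤ a ∧ a ≤ A) (hb : -B ≤ b ∧ b ≤ B) :
    -(A * B) ≤ a * b ∧ a * b ≤ A * B := by
  constructor <;> nlinarith [ha.1, ha.2, hb.1, hb.2]

theorem g3_bx {X Y p b B : ℝ} (ht : 0 ≤ t) (ht' : 3 * t ≤ b) (hδ : 0 ≤ δ) (hδ' : δ ≤ b)
    (hY : -3 ≤ Y ∧ Y ≤ 3) (hp : 2 * b - B ≤ p - X ∧ p - X ≤ B - 2 * b) :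
    |g3_dx t δ X Y p| ≤ B := by
  obtain ⟨h1, h2⟩ := g3_mul (a := t) (A := t) ⟨by linarith, le_rfl⟩ hY
  unfold g3_dx
  exact abs_le.2 ⟨by linarith [hp.1], by linarith [hp.2]⟩

theorem g3_by {X Y q b B : ℝ} (ht : 0 ≤ t) (ht' : 3 * t ≤ b)
    (hX : -3 ≤ X ∧ X ≤ 3) (hq : b - B ≤ q - Y - β ∧ q - Y - β ≤ B - b) :
    |g3_dy t β X Y q| ≤ B := by
  obtain ⟨h1, h2⟩ := g3_mul (a := t) (A := t) ⟨by linarith, le_rfl⟩ hX
  unfold g3_dy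
  exact abs_le.2 ⟨by linarith [hq.1], by linarith [hq.2]⟩

theorem g3_sq (P : Par β t C S ρ x y h) : 0 ≤ β ^ 2 ∧ β ^ 2 ≤ β / 10 ^ 40 ∧ β ^ 3 ≤ β ^ 2 / 1000 := by
  have h0 := P.β0
  have h1 := P.β1
  refine ⟨by positivity, by nlinarith, ?_⟩
  have : β ^ 2 * β ≤ β ^ 2 * (1 / 1000) :=
    mul_le_mul_of_nonneg_left (by linarith) (by positivity)
  linarith

theorem g3_bd (P : Par β t C S ρ x y h) (h1 : 2 * t ≤ δ) (h2 : δ ≤ 2 * t + β ^ 3)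
    (p : PinIP (1 / 10 ^ 10) c) : Bd3 (β / 10 ^ 9) (g3_mk β t δ C S ρ x y h r c N E) := by
  have hβ := P.β0
  have hβ1 := P.β1
  obtain ⟨s0, s1, s2⟩ := g3_sq P
  have t1 := P.t1
  have ht : 0 ≤ t := by linarith [P.t0]
  have ht' : 3 * t ≤ β / 10 ^ 10 := by linarith
  have hδ : 0 ≤ δ := by linarith
  have hδ' : δ ≤ β / 10 ^ 10 := by linarith
  have ex : -(2 * (β / 10 ^ 10)) ≤ β * c.t2x - x ∧ β * c.t2x - x ≤ 2 * (β / 10 ^ 10) := by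
    obtain ⟨a1, a2⟩ := g3_pin hβ p.t2x
    obtain ⟨a3, a4⟩ := abs_le.1 P.x0
    constructor <;> linarith
  have ey : -(2 * (β / 10 ^ 10)) ≤ β * c.t2y - y ∧ β * c.t2y - y ≤ 2 * (β / 10 ^ 10) := by
    obtain ⟨a1, a2⟩ := g3_pin hβ p.t2y
    constructor <;> linarith [P.y0, P.y1]
  clear h1 h2
  constructor <;> simp only [g3_mk]
  · obtain ⟨_, _⟩ := g3_pin hβ p.p2x
    exact g3_bx ht ht' hδ hδ' ⟨by linarith, by linarith⟩ ⟨by linarith, by linarith⟩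
  · obtain ⟨_, _⟩ := g3_pin hβ p.p2y
    exact g3_by ht ht' ⟨by linarith, by linarith⟩ ⟨by linarith, by linarith⟩
  · obtain ⟨_, _⟩ := g3_pin hβ p.p4x
    exact g3_bx ht ht' hδ hδ' ⟨by linarith, by linarith⟩ ⟨by linarith, by linarith⟩
  · obtain ⟨_, _⟩ := g3_pin hβ p.p4y
    exact g3_by ht ht' ⟨by linarith, by linarith⟩ ⟨by linarith, by linarith⟩
  · obtain ⟨_, _⟩ := g3_pin hβ p.p3x
    exact g3_bx ht ht' hδ hδ' ⟨by linarith, by linarith⟩ ⟨by linarith, by linarith⟩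
  · obtain ⟨_, _⟩ := g3_pin hβ p.p3y
    exact g3_by ht ht' ⟨by linarith, by linarith⟩ ⟨by linarith, by linarith⟩
  · obtain ⟨_, _⟩ := g3_pin hβ p.z3Wx
    obtain ⟨_, _⟩ := g3_pin hβ p.h3
    obtain ⟨_, _⟩ := g3_pin hβ p.s3
    exact g3_bx ht ht' hδ hδ' ⟨by linarith, by linarith⟩ ⟨by linarith, by linarith⟩
  · obtain ⟨_, _⟩ := g3_pin hβ p.z3Wy
    obtain ⟨_, _⟩ := g3_pin hβ p.h3
    obtain ⟨_, _⟩ := g3_pin hβ p.s3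
    exact g3_by ht ht' ⟨by linarith, by linarith⟩ ⟨by linarith, by linarith⟩
  · obtain ⟨_, _⟩ := g3_pin hβ p.z3Sx
    obtain ⟨_, _⟩ := g3_pin hβ p.h3
    obtain ⟨_, _⟩ := g3_pin hβ p.s3
    exact g3_bx ht ht' hδ hδ' ⟨by linarith, by linarith⟩ ⟨by linarith, by linarith⟩
  · obtain ⟨_, _⟩ := g3_pin hβ p.t2Nx
    obtain ⟨_, _⟩ := g3_pin hβ p.t2x
    obtain ⟨_, _⟩ := g3_pin hβ p.t2y
    exact g3_bx ht ht' hδ hδ' ⟨by linarith, by linarith⟩ ⟨by linarith, by linarith⟩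
  · obtain ⟨_, _⟩ := g3_pin hβ p.t2Sx
    obtain ⟨_, _⟩ := g3_pin hβ p.t2x
    obtain ⟨_, _⟩ := g3_pin hβ p.t2y
    exact g3_bx ht ht' hδ hδ' ⟨by linarith, by linarith⟩ ⟨by linarith, by linarith⟩
  · obtain ⟨_, _⟩ := g3_pin hβ p.t2Sy
    obtain ⟨_, _⟩ := g3_pin hβ p.t2x
    obtain ⟨_, _⟩ := g3_pin hβ p.t2y
    exact g3_by ht ht' ⟨by linarith, by linarith⟩ ⟨by linarith, by linarith⟩
  · obtain ⟨_, _⟩ := g3_pin hβ p.k2Nx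
    obtain ⟨_, _⟩ := g3_pin hβ p.k2
    exact g3_bx ht ht' hδ hδ' ⟨by linarith, by linarith⟩ ⟨by linarith, by linarith⟩
  · obtain ⟨_, _⟩ := g3_pin hβ p.k2Ny
    obtain ⟨_, _⟩ := g3_pin hβ p.k2
    exact g3_by ht ht' ⟨by linarith, by linarith⟩ ⟨by linarith, by linarith⟩
  · obtain ⟨_, _⟩ := g3_pin hβ p.k2Wx
    obtain ⟨_, _⟩ := g3_pin hβ p.k2
    exact g3_bx ht ht' hδ hδ' ⟨by linarith, by linarith⟩ ⟨by linarith, by linarith⟩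
  · obtain ⟨_, _⟩ := g3_pin hβ p.k2Wy
    obtain ⟨_, _⟩ := g3_pin hβ p.k2
    exact g3_by ht ht' ⟨by linarith, by linarith⟩ ⟨by linarith, by linarith⟩
  · obtain ⟨_, _⟩ := g3_pin hβ p.k3Wx
    obtain ⟨_, _⟩ := g3_pin hβ p.k3
    exact g3_bx ht ht' hδ hδ' ⟨by linarith, by linarith⟩ ⟨by linarith, by linarith⟩
  · obtain ⟨_, _⟩ := g3_pin hβ p.k3Wy
    obtain ⟨_, _⟩ := g3_pin hβ p.k3
    exact g3_by ht ht' ⟨by linarith, by linarith⟩ ⟨by linarith, by linarith⟩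
  · obtain ⟨_, _⟩ := g3_pin hβ p.k3Sx
    obtain ⟨_, _⟩ := g3_pin hβ p.k3
    exact g3_bx ht ht' hδ hδ' ⟨by linarith, by linarith⟩ ⟨by linarith, by linarith⟩
  · obtain ⟨_, _⟩ := g3_pin hβ p.k3Sy
    obtain ⟨_, _⟩ := g3_pin hβ p.k3
    exact g3_by ht ht' ⟨by linarith, by linarith⟩ ⟨by linarith, by linarith⟩
  · obtain ⟨_, _⟩ := g3_pin hβ p.eN1x
    exact g3_bx ht ht' hδ hδ' ⟨by linarith, by linarith⟩ ⟨by linarith, by linarith⟩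
  · obtain ⟨_, _⟩ := g3_pin hβ p.eN1y
    exact g3_by ht ht' ⟨by linarith, by linarith⟩ ⟨by linarith, by linarith⟩
  · obtain ⟨_, _⟩ := g3_pin hβ p.eW1x
    exact g3_bx ht ht' hδ hδ' ⟨by linarith, by linarith⟩ ⟨by linarith, by linarith⟩
  · obtain ⟨_, _⟩ := g3_pin hβ p.eW1y
    exact g3_by ht ht' ⟨by linarith, by linarith⟩ ⟨by linarith, by linarith⟩
  · obtain ⟨_, _⟩ := g3_pin hβ p.eS2x
    exact g3_bx ht ht' hδ hδ' ⟨by linarith, by linarith⟩ ⟨by linarith, by linarith⟩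
  · obtain ⟨_, _⟩ := g3_pin hβ p.eS2y
    exact g3_by ht ht' ⟨by linarith, by linarith⟩ ⟨by linarith, by linarith⟩
  · obtain ⟨_, _⟩ := g3_pin hβ p.hNu
    obtain ⟨_, _⟩ := g3_pin hβ p.hNv
    exact g3_bx ht ht' hδ hδ' ⟨by linarith, by linarith⟩ ⟨by linarith, by linarith⟩
  · obtain ⟨_, _⟩ := g3_pin hβ p.hNu
    obtain ⟨_, _⟩ := g3_pin hβ p.hNv
    exact g3_by ht ht' ⟨by linarith, by linarith⟩ ⟨by linarith, by linarith⟩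
  · obtain ⟨_, _⟩ := g3_pin hβ p.h3
    exact abs_le.2 ⟨by linarith [P.h1], by linarith [P.h0]⟩
  · exact abs_le.2 ⟨by linarith [ex.1], by linarith [ex.2]⟩
  · exact abs_le.2 ⟨by linarith [ey.1], by linarith [ey.2]⟩
  · obtain ⟨_, _⟩ := g3_pin hβ p.k2
    exact abs_le.2 ⟨by linarith, by linarith⟩
  · obtain ⟨_, _⟩ := g3_pin hβ p.k3
    exact abs_le.2 ⟨by linarith, by linarith⟩
  · obtain ⟨_, _⟩ := g3_pin hβ p.t2Ey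
    obtain ⟨_, _⟩ := g3_mul (a := S) (A := 1) ⟨by linarith [P.S0], by linarith [P.S1]⟩ ey
    obtain ⟨_, _⟩ := g3_mul (a := C) (A := 1) ⟨by linarith [P.C0], P.C1⟩ ex
    have := P.e3
    exact abs_le.2 ⟨by linarith, by linarith⟩

theorem g3_crude {ε : ℝ} (P : Par β t C S ρ x y h) (h1 : 2 * t ≤ δ) (h2 : δ ≤ 2 * t + β ^ 3)
    (b : Bnd 644 c) (p : PinIP (1 / 10 ^ 10) c) (h4 : 29 / 20 * β ≤ c.p4x) (r0 : 0 < r)
    (r1 : r ≤ 1 / 4) (hε : ε ≤ 1 / 1000) (hE : E.1 ≤ 2)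
    (n1 : |N.1 - (2 - C * r)| ≤ ε) (n2 : |N.2 - (2 - (1 - C * r))| ≤ ε)
    (e1 : |E.1 - (2 + C * r)| ≤ ε) (e2 : |E.2 - (-2 + (1 - C * r))| ≤ ε) :
    Crude β ρ (g3_mk β t δ C S ρ x y h r c N E) := by
  have hβ := P.β0
  have hβ1 := P.β1
  obtain ⟨s0, s1, s2⟩ := g3_sq P
  have t1 := P.t1
  have ht : 0 ≤ t := by linarith [P.t0]
  have ht' : 3 * t ≤ β / 10 ^ 10 := by linarith
  have hδ : 0 ≤ δ := by linarith
  have hδ' : δ ≤ β / 10 ^ 10 := by linarith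
  have S0 := P.S0
  have S1 := P.S1
  have C0 := P.C0
  have C1 := P.C1
  obtain ⟨n1, n1'⟩ := abs_le.1 n1
  obtain ⟨n2, n2'⟩ := abs_le.1 n2
  obtain ⟨e1, e1'⟩ := abs_le.1 e1
  obtain ⟨e2, e2'⟩ := abs_le.1 e2
  have c0 : 1 / 2 * r ≤ C * r := mul_le_mul_of_nonneg_right (by linarith) r0.le
  have d0 : 0 ≤ S * r := mul_nonneg (by linarith) r0.le
  have d1 : S * r ≤ S * (1 / 4) := mul_le_mul_of_nonneg_left r1 (by linarith)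
  have hb : ∀ {u : ℝ}, |u| ≤ 644 → -(β * 644) ≤ β * u ∧ β * u ≤ β * 644 := fun hu =>
    g3_mul ⟨by linarith, le_rfl⟩ (abs_le.1 hu)
  constructor <;> simp only [g3_mk, add_sub_cancel]
  · exact g3_bx ht ht' hδ hδ' ⟨by linarith, by linarith⟩ ⟨by linarith, by linarith⟩
  · exact g3_by ht ht' ⟨by linarith, by linarith⟩ ⟨by linarith, by linarith⟩
  · obtain ⟨_, _⟩ := hb b.z3Sy
    obtain ⟨_, _⟩ := hb b.h3
    obtain ⟨_, _⟩ := hb b.s3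
    exact g3_by ht ht' ⟨by linarith, by linarith⟩ ⟨by linarith, by linarith⟩
  · obtain ⟨_, _⟩ := hb b.t2Ny
    obtain ⟨_, _⟩ := hb b.t2x
    obtain ⟨_, _⟩ := hb b.t2y
    exact g3_by ht ht' ⟨by linarith, by linarith⟩ ⟨by linarith, by linarith⟩
  · exact r0.le
  · linarith
  · obtain ⟨_, _⟩ := g3_pin hβ p.hNu
    exact abs_le.2 ⟨by linarith, by linarith⟩
  · obtain ⟨_, _⟩ := g3_pin hβ p.hNv
    exact abs_le.2 ⟨by linarith, by linarith⟩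
  · obtain ⟨_, _⟩ := hb b.t2Ex
    obtain ⟨_, _⟩ := g3_mul (a := S) (A := 1) ⟨by linarith, by linarith⟩ (hb b.t2x)
    obtain ⟨_, _⟩ := g3_mul (a := C) (A := 1) ⟨by linarith, C1⟩ (hb b.t2y)
    exact abs_le.2 ⟨by linarith, by linarith⟩
  · exact abs_le.2 ⟨by linarith, by linarith⟩
  · exact abs_le.2 ⟨by linarith, by linarith⟩
  · linarith [mul_le_mul_of_nonneg_left p.f4.1 hβ.le]
  · linarith [mul_le_mul_of_nonneg_left p.f4.2 hβ.le]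
  · linarith [mul_le_mul_of_nonneg_left p.f5.1 hβ.le]
  · linarith [mul_le_mul_of_nonneg_left p.f5.2 hβ.le]
  · unfold g3_dx
    linarith [mul_le_mul_of_nonneg_left h4 hβ.le]

theorem sG3 : SG3 := by
  rintro ε η k β t C S ρ x y h Δ F c P h1 h2 hS ok g w b p h4
    ⟨r, r0, r1, ⟨N, N1, N2, N3, N4, hN⟩, E, E1, E2, E3, E4, hE⟩
  have hs : |β * c.h3| = β * c.s3 := by rw [w.s3, abs_mul, abs_of_pos P.β0]
  have a2 := ok.a2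
  have b2 := ok.b2
  have η0 := ok.η0
  have hz : 1 - η ≤ 1 - S * r := by
    have : S * r ≤ η * 1 := mul_le_mul hS (by linarith) r0.le η0
    linarith
  have n := ok.near.tN N N1 (by linarith) N3 (by linarith) (by rwa [hN, cz_cp])
  have e := ok.near.tE E E1 (by linarith) E3 (by linarith) (by rwa [hE, cz_cp])
  rw [hN, cx_cp, cy_cp] at n
  rw [hE, cx_cp, cy_cp] at e
  exact ⟨_, g3_geo g hs hN hE, g3_wall P.β0.le w hs N2 E2, g3_bd P h1 h2 p,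
    g3_crude P h1 h2 b p h4 r0 r1 ok.ε1 (by linarith) n.1 n.2 e.1 e.2⟩

end Pool.Agent.P.MP_dba4bb_co.Ex
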