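import Pool.Agent.P.MP_dba4bb_co.Ex.S1

/-! The nodes of a cover that is close to the folding of the square. -/

namespace Pool.Agent.P.MP_dba4bb_co.Ex

open Set

namespace GeoP

variable {ε η k a b β Δ x y X : ℝ} {F : P2 → P3} {P : P2}

theorem sc (hβ : 0 < β) {t : ℝ} (h : |t| ≤ 3 * ε) : ∃ T, t = β * T ∧ |T| ≤ 3 * ε / β :=
  ⟨t / β, by field_simp, by rw [abs_div, abs_of_pos hβ]; gcongr⟩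

theorem sc' (hβ : 0 < β) {t : ℝ} (h1 : -(2 * ε) ≤ t) (h2 : t ≤ 2 * ε) :
    ∃ T, t = β * T ∧ |T| ≤ 3 * ε / β ∧ |t| ≤ 2 * ε := by
  obtain ⟨T, h3, h4⟩ := sc (ε := ε) hβ (t := t) (abs_le.2 ⟨by linarith, by linarith⟩)
  exact ⟨T, h3, h4, abs_le.2 ⟨h1, h2⟩⟩

theorem pt (hβ : 0 < β) {u v : ℝ} (x0 y0 : ℝ) (h : |P.1 - u| ≤ ε ∧ |P.2 - v| ≤ ε)
    (hu : |u - x0| ≤ 2 * ε) (hv : |v - y0| ≤ 2 * ε) :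
    ∃ X Y, P = (x0 + β * X, y0 + β * Y) ∧ |X| ≤ 3 * ε / β ∧ |Y| ≤ 3 * ε / β := by
  obtain ⟨X, h1, h2⟩ := sc (ε := ε) hβ (t := P.1 - x0) (by linarith [abs_sub_le P.1 u x0, h.1])
  obtain ⟨Y, h3, h4⟩ := sc (ε := ε) hβ (t := P.2 - y0) (by linarith [abs_sub_le P.2 v y0, h.2])
  exact ⟨X, Y, Prod.ext (by simp only; linarith) (by simp only; linarith), h2, h4⟩

theorem ab {t s c : ℝ} (h : |s| ≤ c) (e : t = s ∨ t = -s) : |t| ≤ c := by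
  rcases e with rfl | rfl
  · exact h
  · rwa [abs_neg]

theorem nN (o : Ok ε η k a b F) (h1 : 0 ≤ P.1) (h2 : P.1 ≤ a) (h3 : 0 ≤ P.2) (h4 : P.2 ≤ b)
    (e : F P = cp x y 1) : (|P.1 - (2 - y)| ≤ ε ∧ |P.2 - (2 - x)| ≤ ε) ∧
      -(2 * ε) ≤ y ∧ -(2 * ε) ≤ x := by
  have := o.near.tN P h1 (by linarith [o.a2, o.η0]) h3 (h4.trans o.b2) (by simp [e, o.η0])
  rw [e, cx_cp, cy_cp] at this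
  have h5 := abs_le.1 this.1
  have h6 := abs_le.1 this.2
  exact ⟨this, by linarith [o.a2, o.η0, o.ηε], by linarith [o.b2, o.ηε]⟩

theorem nW (o : Ok ε η k a b F) (h1 : P.1 ≤ 0) (h2 : -a ≤ P.1) (h3 : 0 ≤ P.2) (h4 : P.2 ≤ b)
    (e : F P = cp x y 1) : (|P.1 - (-2 + y)| ≤ ε ∧ |P.2 - (2 + x)| ≤ ε) ∧
      -(2 * ε) ≤ y ∧ x ≤ 2 * ε := by
  have := o.near.tW P h1 (by linarith [o.a2, o.η0]) h3 (h4.trans o.b2) (by simp [e, o.η0])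
  rw [e, cx_cp, cy_cp] at this
  have h5 := abs_le.1 this.1
  have h6 := abs_le.1 this.2
  exact ⟨this, by linarith [o.a2, o.η0, o.ηε], by linarith [o.b2, o.ηε]⟩

theorem nS (o : Ok ε η k a b F) (h1 : P.1 ≤ 0) (h2 : -a ≤ P.1) (h3 : P.2 ≤ 0) (h4 : -b ≤ P.2)
    (e : F P = cp x y 1) : (|P.1 - (-2 - y)| ≤ ε ∧ |P.2 - (-2 - x)| ≤ ε) ∧
      y ≤ 2 * ε ∧ x ≤ 2 * ε := by
  have := o.near.tS P h1 (by linarith [o.a2, o.η0]) h3 (by linarith [o.b2]) (by simp [e, o.η0])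
  rw [e, cx_cp, cy_cp] at this
  have h5 := abs_le.1 this.1
  have h6 := abs_le.1 this.2
  exact ⟨this, by linarith [o.a2, o.η0, o.ηε], by linarith [o.b2, o.ηε]⟩

theorem nE (o : Ok ε η k a b F) (h1 : 0 ≤ P.1) (h2 : P.1 ≤ a) (h3 : P.2 ≤ 0) (h4 : -b ≤ P.2)
    (e : F P = cp x y 1) : (|P.1 - (2 + y)| ≤ ε ∧ |P.2 - (-2 + x)| ≤ ε) ∧
      y ≤ 2 * ε ∧ -(2 * ε) ≤ x := by
  have := o.near.tE P h1 (by linarith [o.a2, o.η0]) h3 (by linarith [o.b2]) (by simp [e, o.η0])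
  rw [e, cx_cp, cy_cp] at this
  have h5 := abs_le.1 this.1
  have h6 := abs_le.1 this.2
  exact ⟨this, by linarith [o.a2, o.η0, o.ηε], by linarith [o.b2, o.ηε]⟩

theorem wR (hβ : 0 < β) (h : 2 + β * X ≤ 2 - β ^ 2 * Δ) : 0 ≤ -X - β * Δ :=
  nonneg_of_mul_nonneg_right (a := β) (by linarith) hβ

theorem wL (hβ : 0 < β) (h : -(2 - β ^ 2 * Δ) ≤ -2 + β * X) : 0 ≤ X - β * Δ :=
  nonneg_of_mul_nonneg_right (a := β) (by linarith) hβ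

theorem wT (hβ : 0 < β) (h : 2 + β * X ≤ 2 + β) : 0 ≤ 1 - X :=
  nonneg_of_mul_nonneg_right (a := β) (by linarith) hβ

theorem wB (hβ : 0 < β) (h : -(2 + β) ≤ -2 + β * X) : 0 ≤ 1 + X :=
  nonneg_of_mul_nonneg_right (a := β) (by linarith) hβ

end GeoP

open GeoP

theorem sGeo : SGeo := by
  intro hK ε η k β Δ σ F hβ o ⟨⟨t1x, t1y, t1N, t1W, t1S⟩, t2x, t2y, t2N, t2S, t2E⟩
    ⟨p2, p4, z1N, z1E, z3W, z3S, h1, h3, qp2, qp4, qz1N, qz1E, qz3W, qz3S, hq, _, hσ⟩ hσ0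
  obtain ⟨⟨⟨k1, k1N, k1E⟩, ⟨k2, k2N, k2W⟩, ⟨k3, k3W, k3S⟩, k4, k4S, k4E⟩,
    ⟨eN1, eN2, eW1, eS1, eS2⟩, hfl⟩ := hK _ _ _ _ _ _ o
  have ε0 : 0 ≤ ε := o.η0.trans o.ηε
  have z0 : |(0 : ℝ)| ≤ 2 * ε := by rw [abs_zero]; linarith
  have ha : 2 - β ^ 2 * Δ ≤ 2 + η := by linarith [o.a2, o.η0]
  obtain ⟨p1, qp1⟩ := o.cov.surj (cp 1 0 0) (by norm_num [cp, Sf])
  obtain ⟨p3, qp3⟩ := o.cov.surj (cp (-1) 0 0) (by norm_num [cp, Sf])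
  obtain ⟨t1N, qt1N⟩ := t1N
  obtain ⟨t1W, qt1W⟩ := t1W
  obtain ⟨t1S, qt1S⟩ := t1S
  obtain ⟨t2N, qt2N⟩ := t2N
  obtain ⟨t2S, qt2S⟩ := t2S
  obtain ⟨t2E, qt2E⟩ := t2E
  obtain ⟨k1N, qk1N⟩ := k1N
  obtain ⟨k1E, qk1E⟩ := k1E
  obtain ⟨k2N, qk2N⟩ := k2N
  obtain ⟨k2W, qk2W⟩ := k2W
  obtain ⟨k3W, qk3W⟩ := k3W
  obtain ⟨k3S, qk3S⟩ := k3S
  obtain ⟨k4S, qk4S⟩ := k4S
  obtain ⟨k4E, qk4E⟩ := k4E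
  obtain ⟨eN1, qeN1⟩ := eN1
  obtain ⟨eN2, qeN2⟩ := eN2
  obtain ⟨eW1, qeW1⟩ := eW1
  obtain ⟨eS1, qeS1⟩ := eS1
  obtain ⟨eS2, qeS2⟩ := eS2
  have nt1N := nN o qt1N.1 qt1N.2.1 qt1N.2.2.1 qt1N.2.2.2.1 qt1N.2.2.2.2
  have nt1W := nW o qt1W.1 qt1W.2.1 qt1W.2.2.1 qt1W.2.2.2.1 qt1W.2.2.2.2
  have nt1S := nS o qt1S.1 qt1S.2.1 qt1S.2.2.1 qt1S.2.2.2.1 qt1S.2.2.2.2
  have nt2N := nN o qt2N.1 qt2N.2.1 qt2N.2.2.1 qt2N.2.2.2.1 qt2N.2.2.2.2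
  have nt2S := nS o qt2S.1 qt2S.2.1 qt2S.2.2.1 qt2S.2.2.2.1 qt2S.2.2.2.2
  have nt2E := nE o qt2E.1 qt2E.2.1 qt2E.2.2.1 qt2E.2.2.2.1 qt2E.2.2.2.2
  have nk1N := nN o qk1N.1 qk1N.2.1 qk1N.2.2.1 qk1N.2.2.2.1 qk1N.2.2.2.2
  have nk1E := nE o qk1E.1 qk1E.2.1 qk1E.2.2.1 qk1E.2.2.2.1 qk1E.2.2.2.2
  have nk2N := nN o qk2N.1 qk2N.2.1 qk2N.2.2.1 qk2N.2.2.2.1 qk2N.2.2.2.2
  have nk2W := nW o qk2W.1 qk2W.2.1 qk2W.2.2.1 qk2W.2.2.2.1 qk2W.2.2.2.2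
  have nk3W := nW o qk3W.1 qk3W.2.1 qk3W.2.2.1 qk3W.2.2.2.1 qk3W.2.2.2.2
  have nk3S := nS o qk3S.1 qk3S.2.1 qk3S.2.2.1 qk3S.2.2.2.1 qk3S.2.2.2.2
  have nk4S := nS o qk4S.1 qk4S.2.1 qk4S.2.2.1 qk4S.2.2.2.1 qk4S.2.2.2.2
  have nk4E := nE o qk4E.1 qk4E.2.1 qk4E.2.2.1 qk4E.2.2.2.1 qk4E.2.2.2.2
  have neN1 := nN o qeN1.1 qeN1.2.1 qeN1.2.2.1 qeN1.2.2.2.1 qeN1.2.2.2.2
  have neN2 := nN o qeN2.1 qeN2.2.1 qeN2.2.2.1 qeN2.2.2.2.1 qeN2.2.2.2.2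
  have neW1 := nW o qeW1.1 qeW1.2.1 qeW1.2.2.1 qeW1.2.2.2.1 qeW1.2.2.2.2
  have neS1 := nS o qeS1.1 qeS1.2.1 qeS1.2.2.1 qeS1.2.2.2.1 qeS1.2.2.2.2
  have neS2 := nS o qeS2.1 qeS2.2.1 qeS2.2.2.1 qeS2.2.2.2.1 qeS2.2.2.2.2
  have nz1N := nN o qz1N.1 qz1N.2.1 qz1N.2.2.1 qz1N.2.2.2.1 qz1N.2.2.2.2
  have nz1E := nE o qz1E.1 qz1E.2.1 qz1E.2.2.1 qz1E.2.2.2.1 qz1E.2.2.2.2
  have nz3W := nW o qz3W.1 qz3W.2.1 qz3W.2.2.1 qz3W.2.2.2.1 qz3W.2.2.2.2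
  have nz3S := nS o qz3S.1 qz3S.2.1 qz3S.2.2.1 qz3S.2.2.2.1 qz3S.2.2.2.2
  obtain ⟨t1x, rfl, bt1x, ct1x⟩ := sc' hβ nt1N.2.2 nt1W.2.2
  obtain ⟨t1y, rfl, bt1y, ct1y⟩ := sc' hβ nt1N.2.1 nt1S.2.1
  obtain ⟨t2x, rfl, bt2x, ct2x⟩ := sc' hβ nt2N.2.2 nt2S.2.2
  obtain ⟨t2y, rfl, bt2y, ct2y⟩ := sc' hβ nt2N.2.1 nt2S.2.1
  obtain ⟨k1, rfl, bk1, ck1⟩ := sc' hβ nk1N.2.1 nk1E.2.1
  obtain ⟨k2, rfl, bk2, ck2⟩ := sc' hβ nk2N.2.2 nk2W.2.2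
  obtain ⟨k3, rfl, bk3, ck3⟩ := sc' hβ nk3W.2.1 nk3S.2.1
  obtain ⟨k4, rfl, bk4, ck4⟩ := sc' hβ nk4E.2.2 nk4S.2.2
  obtain ⟨h1, rfl, bh1, ch1⟩ := sc' hβ nz1N.2.1 nz1E.2.1
  obtain ⟨h3, rfl, bh3, ch3⟩ := sc' hβ nz3W.2.1 nz3S.2.1
  have cs1 : |(|β * h1|)| ≤ 2 * ε := by rwa [abs_abs]
  have cs3 : |(|β * h3|)| ≤ 2 * ε := by rwa [abs_abs]
  obtain ⟨z1Nx, z1Ny, rfl, bz1Nx, bz1Ny⟩ :=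
    pt hβ 2 1 nz1N.1 (ab ch1 (.inr (by ring))) (ab cs1 (.inl (by ring)))
  obtain ⟨z1Ex, z1Ey, rfl, bz1Ex, bz1Ey⟩ :=
    pt hβ 2 (-1) nz1E.1 (ab ch1 (.inl (by ring))) (ab cs1 (.inr (by ring)))
  obtain ⟨z3Wx, z3Wy, rfl, bz3Wx, bz3Wy⟩ :=
    pt hβ (-2) 1 nz3W.1 (ab ch3 (.inl (by ring))) (ab cs3 (.inl (by ring)))
  obtain ⟨z3Sx, z3Sy, rfl, bz3Sx, bz3Sy⟩ :=
    pt hβ (-2) (-1) nz3S.1 (ab ch3 (.inr (by ring))) (ab cs3 (.inr (by ring)))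
  obtain ⟨t1Nx, t1Ny, rfl, bt1Nx, bt1Ny⟩ :=
    pt hβ 2 2 nt1N.1 (ab ct1y (.inr (by ring))) (ab ct1x (.inr (by ring)))
  obtain ⟨t1Wx, t1Wy, rfl, bt1Wx, bt1Wy⟩ :=
    pt hβ (-2) 2 nt1W.1 (ab ct1y (.inl (by ring))) (ab ct1x (.inl (by ring)))
  obtain ⟨t1Sx, t1Sy, rfl, bt1Sx, bt1Sy⟩ :=
    pt hβ (-2) (-2) nt1S.1 (ab ct1y (.inr (by ring))) (ab ct1x (.inr (by ring)))
  obtain ⟨t2Nx, t2Ny, rfl, bt2Nx, bt2Ny⟩ :=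
    pt hβ 2 2 nt2N.1 (ab ct2y (.inr (by ring))) (ab ct2x (.inr (by ring)))
  obtain ⟨t2Sx, t2Sy, rfl, bt2Sx, bt2Sy⟩ :=
    pt hβ (-2) (-2) nt2S.1 (ab ct2y (.inr (by ring))) (ab ct2x (.inr (by ring)))
  obtain ⟨t2Ex, t2Ey, rfl, bt2Ex, bt2Ey⟩ :=
    pt hβ 2 (-2) nt2E.1 (ab ct2y (.inl (by ring))) (ab ct2x (.inl (by ring)))
  obtain ⟨k1Nx, k1Ny, rfl, bk1Nx, bk1Ny⟩ :=
    pt hβ 2 (3 / 2) nk1N.1 (ab ck1 (.inr (by ring))) (ab z0 (.inl (by ring)))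
  obtain ⟨k1Ex, k1Ey, rfl, bk1Ex, bk1Ey⟩ :=
    pt hβ 2 (-3 / 2) nk1E.1 (ab ck1 (.inl (by ring))) (ab z0 (.inl (by ring)))
  obtain ⟨k2Nx, k2Ny, rfl, bk2Nx, bk2Ny⟩ :=
    pt hβ (3 / 2) 2 nk2N.1 (ab z0 (.inl (by ring))) (ab ck2 (.inr (by ring)))
  obtain ⟨k2Wx, k2Wy, rfl, bk2Wx, bk2Wy⟩ :=
    pt hβ (-3 / 2) 2 nk2W.1 (ab z0 (.inl (by ring))) (ab ck2 (.inl (by ring)))
  obtain ⟨k3Wx, k3Wy, rfl, bk3Wx, bk3Wy⟩ :=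
    pt hβ (-2) (3 / 2) nk3W.1 (ab ck3 (.inl (by ring))) (ab z0 (.inl (by ring)))
  obtain ⟨k3Sx, k3Sy, rfl, bk3Sx, bk3Sy⟩ :=
    pt hβ (-2) (-3 / 2) nk3S.1 (ab ck3 (.inr (by ring))) (ab z0 (.inl (by ring)))
  obtain ⟨k4Sx, k4Sy, rfl, bk4Sx, bk4Sy⟩ :=
    pt hβ (-3 / 2) (-2) nk4S.1 (ab z0 (.inl (by ring))) (ab ck4 (.inr (by ring)))
  obtain ⟨k4Ex, k4Ey, rfl, bk4Ex, bk4Ey⟩ :=
    pt hβ (3 / 2) (-2) nk4E.1 (ab z0 (.inl (by ring))) (ab ck4 (.inl (by ring)))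
  obtain ⟨eN1x, eN1y, rfl, beN1x, beN1y⟩ :=
    pt hβ (5 / 4) (7 / 4) neN1.1 (ab z0 (.inl (by ring))) (ab z0 (.inl (by ring)))
  obtain ⟨eN2x, eN2y, rfl, beN2x, beN2y⟩ :=
    pt hβ (3 / 2) (3 / 2) neN2.1 (ab z0 (.inl (by ring))) (ab z0 (.inl (by ring)))
  obtain ⟨eW1x, eW1y, rfl, beW1x, beW1y⟩ :=
    pt hβ (-5 / 4) (7 / 4) neW1.1 (ab z0 (.inl (by ring))) (ab z0 (.inl (by ring)))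
  obtain ⟨eS1x, eS1y, rfl, beS1x, beS1y⟩ :=
    pt hβ (-5 / 4) (-7 / 4) neS1.1 (ab z0 (.inl (by ring))) (ab z0 (.inl (by ring)))
  obtain ⟨eS2x, eS2y, rfl, beS2x, beS2y⟩ :=
    pt hβ (-3 / 2) (-3 / 2) neS2.1 (ab z0 (.inl (by ring))) (ab z0 (.inl (by ring)))
  obtain ⟨p2x, p2y, rfl, bp2x, bp2y⟩ := pt (P := p2) (u := 0) (v := 1) hβ 0 1
    (by simpa using o.near.w2 p2 (qp2.1.trans ha) (qp2.2.1.trans o.b2) qp2.2.2)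
    (ab z0 (.inl (by ring))) (ab z0 (.inl (by ring)))
  obtain ⟨p4x, p4y, rfl, bp4x, bp4y⟩ := pt (P := p4) (u := 0) (v := (-1)) hβ 0 (-1)
    (by simpa using o.near.w4 p4 (qp4.1.trans ha) (qp4.2.1.trans o.b2) qp4.2.2)
    (ab z0 (.inl (by ring))) (ab z0 (.inl (by ring)))
  obtain ⟨p1x, p1y, rfl, bp1x, bp1y⟩ := pt (P := p1) (u := 1) (v := 0) hβ 1 0
    (by simpa using o.near.w1 p1 (qp1.1.trans ha) (qp1.2.1.trans o.b2) qp1.2.2)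
    (ab z0 (.inl (by ring))) (ab z0 (.inl (by ring)))
  obtain ⟨p3x, p3y, rfl, bp3x, bp3y⟩ := pt (P := p3) (u := (-1)) (v := 0) hβ (-1) 0
    (by simpa using o.near.w3 p3 (qp3.1.trans ha) (qp3.2.1.trans o.b2) qp3.2.2)
    (ab z0 (.inl (by ring))) (ab z0 (.inl (by ring)))
  obtain ⟨⟨gNu, gNv, cgNu, cgNv, qgN⟩, ⟨gWu, gWv, cgWu, cgWv, qgW⟩, ⟨gSu, gSv, cgSu, cgSv, qgS⟩,
    gEu, gEv, cgEu, cgEv, qgE⟩ :=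
    hfl (7 / 8) (57 / 64) (by norm_num) (by norm_num) (by norm_num) (by norm_num)
  obtain ⟨⟨hNu, hNv, chNu, chNv, qhN⟩, ⟨hWu, hWv, chWu, chWv, qhW⟩, -⟩ :=
    hfl (7 / 8) (1 / 16) (by norm_num) (by norm_num) (by norm_num) (by norm_num)
  have h13 : ε ≤ 3 * ε := by linarith only [ε0]
  obtain ⟨gNu, rfl, bgNu⟩ := sc hβ (cgNu.trans h13)
  obtain ⟨gNv, rfl, bgNv⟩ := sc hβ (cgNv.trans h13)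
  obtain ⟨gWu, rfl, bgWu⟩ := sc hβ (cgWu.trans h13)
  obtain ⟨gWv, rfl, bgWv⟩ := sc hβ (cgWv.trans h13)
  obtain ⟨gSu, rfl, bgSu⟩ := sc hβ (cgSu.trans h13)
  obtain ⟨gSv, rfl, bgSv⟩ := sc hβ (cgSv.trans h13)
  obtain ⟨gEu, rfl, bgEu⟩ := sc hβ (cgEu.trans h13)
  obtain ⟨gEv, rfl, bgEv⟩ := sc hβ (cgEv.trans h13)
  obtain ⟨hNu, rfl, bhNu⟩ := sc hβ (chNu.trans h13)
  obtain ⟨hNv, rfl, bhNv⟩ := sc hβ (chNv.trans h13)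
  obtain ⟨hWu, rfl, bhWu⟩ := sc hβ (chWu.trans h13)
  obtain ⟨hWv, rfl, bhWv⟩ := sc hβ (chWv.trans h13)
  have e1 : |β * h1| = β * |h1| := by rw [abs_mul, abs_of_pos hβ]
  have e3 : |β * h3| = β * |h3| := by rw [abs_mul, abs_of_pos hβ]
  rw [e1] at qz1N qz1E
  rw [e3] at qz3W qz3S
  refine ⟨⟨
    p2x, p2y, p4x, p4y, p1x, p1y, p3x, p3y, z1Nx, z1Ny, z1Ex, z1Ey, z3Wx, z3Wy, z3Sx, z3Sy, t1Nx,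
    t1Ny, t1Wx, t1Wy, t1Sx, t1Sy, t2Nx, t2Ny, t2Sx, t2Sy, t2Ex, t2Ey, k1Nx, k1Ny, k1Ex, k1Ey,
    k2Nx, k2Ny, k2Wx, k2Wy, k3Wx, k3Wy, k3Sx, k3Sy, k4Sx, k4Sy, k4Ex, k4Ey, eN1x, eN1y, eN2x,
    eN2y, eW1x, eW1y, eS1x, eS1y, eS2x, eS2y, |h1|, h1, |h3|, h3, t1x, t1y, t2x, t2y, k1, k2, k3,
    k4, gNu, gNv, gWu, gWv, gSu, gSv, gEu, gEv, hNu, hNv, hWu, hWv⟩, ?_, ?_, ?_, ?_⟩
  · exact ⟨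
      qp2.2.2, qp4.2.2, qp1.2.2, qp3.2.2, qz1N.2.2.2.2, qz1E.2.2.2.2, qz3W.2.2.2.2, qz3S.2.2.2.2,
      qt1N.2.2.2.2, qt1W.2.2.2.2, qt1S.2.2.2.2, qt2N.2.2.2.2, qt2S.2.2.2.2, qt2E.2.2.2.2,
      qk1N.2.2.2.2, qk1E.2.2.2.2, qk2N.2.2.2.2, qk2W.2.2.2.2, qk3W.2.2.2.2, qk3S.2.2.2.2,
      qk4S.2.2.2.2, qk4E.2.2.2.2, qeN1.2.2.2.2, qeN2.2.2.2.2, qeW1.2.2.2.2, qeS1.2.2.2.2,
      qeS2.2.2.2.2, (congrArg F (by norm_num)).trans qgN, (congrArg F (by norm_num)).trans qgW,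
      (congrArg F (by norm_num)).trans qgS, (congrArg F (by norm_num)).trans qgE,
      (congrArg F (by norm_num)).trans qhN, (congrArg F (by norm_num)).trans qhW⟩
  · exact ⟨
      wR hβ qz1N.2.1, wR hβ qz1E.2.1, wL hβ qz3W.2.1, wL hβ qz3S.2.1, wR hβ qt1N.2.1,
      wT hβ qt1N.2.2.2.1, wL hβ qt1W.2.1, wT hβ qt1W.2.2.2.1, wL hβ qt1S.2.1, wB hβ qt1S.2.2.2.1,
      wR hβ qt2N.2.1, wT hβ qt2N.2.2.2.1, wL hβ qt2S.2.1, wB hβ qt2S.2.2.2.1, wR hβ qt2E.2.1,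
      wB hβ qt2E.2.2.2.1, wR hβ qk1N.2.1, wR hβ qk1E.2.1, wT hβ qk2N.2.2.2.1, wT hβ qk2W.2.2.2.1,
      wL hβ qk3W.2.1, wL hβ qk3S.2.1, wB hβ qk4S.2.2.2.1, wB hβ qk4E.2.2.2.1, rfl, rfl,
      nonneg_of_mul_nonneg_right (a := β) (by simp only at hσ ⊢; linarith only [hσ, hσ0]) hβ⟩
  · exact ⟨
      bp2x, bp2y, bp4x, bp4y, bp1x, bp1y, bp3x, bp3y, bz1Nx, bz1Ny, bz1Ex, bz1Ey, bz3Wx, bz3Wy,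
      bz3Sx, bz3Sy, bt1Nx, bt1Ny, bt1Wx, bt1Wy, bt1Sx, bt1Sy, bt2Nx, bt2Ny, bt2Sx, bt2Sy, bt2Ex,
      bt2Ey, bk1Nx, bk1Ny, bk1Ex, bk1Ey, bk2Nx, bk2Ny, bk2Wx, bk2Wy, bk3Wx, bk3Wy, bk3Sx, bk3Sy,
      bk4Sx, bk4Sy, bk4Ex, bk4Ey, beN1x, beN1y, beN2x, beN2y, beW1x, beW1y, beS1x, beS1y, beS2x,
      beS2y, by simpa only [abs_abs] using bh1, bh1, by simpa only [abs_abs] using bh3, bh3,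
      bt1x, bt1y, bt2x, bt2y, bk1, bk2, bk3, bk4, bgNu, bgNv, bgWu, bgWv, bgSu, bgSv, bgEu, bgEv,
      bhNu, bhNv, bhWu, bhWv⟩
  · exact hq.imp_left fun h => nonpos_of_mul_nonpos_right h hβ

end Pool.Agent.P.MP_dba4bb_co.Ex
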