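import Pool.Agent.P.MP_dba4bb_co.Ex.R3b

/-! The exact step: the optimal configuration is rigid. -/

namespace Pool.Agent.P.MP_dba4bb_co.Ex

variable {a b β t δ C S ρ x y h D : ℝ} {F : P2 → P3} {e : C3}

theorem Par.c1 (p : Par β t C S ρ x y h) : |C + S + t * (C - S) - (1 + t ^ 2) - S| ≤ 4 * β ^ 2 ∧
    |C + S + t * (C - S) - 1| ≤ 3 * β := by
  obtain ⟨s0, s1⟩ := p.sm
  obtain ⟨t0, t1, t2, t3⟩ := p.tt
  have β0 := p.β0
  have β1 := p.β1
  have h1 : 0 ≤ t * (C - S) := mul_nonneg t0 (by linarith [p.C0, p.S1])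
  have h2 : t * (C - S) ≤ t * 1 := mul_le_mul_of_nonneg_left (by linarith [p.C1, p.S0]) t0
  exact ⟨abs_le.2 ⟨by linarith [p.C0, p.t1], by linarith [p.C1]⟩,
    abs_le.2 ⟨by linarith [p.C0, p.S0], by linarith [p.C1, p.S1]⟩⟩

theorem boot (p : Par β t C S ρ x y h) (δ0 : 2 * t ≤ δ) (c : Cover (1 + t ^ 2) a b F)
    (g : Geo3 β t δ C S ρ x y h F e) (w : Wall3 β t δ C S ρ x y h e) (b0 : Bd3 (β / 10 ^ 9) e)
    (cr : Crude β ρ e) (r : ρ + e.r ≤ 16 / 10 * β ^ 2) : All3 (β / 10 ^ 8) e := by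
  obtain ⟨s0, s1⟩ := p.sm
  have β0 := p.β0
  have β1 := p.β1
  have s := sl3 p b0 cr r
  have hr : |e.r| ≤ 2 * β ^ 2 := abs_le.2 ⟨by linarith [cr.r0, p.ρ1], by linarith [p.ρ0]⟩
  obtain ⟨M, hM⟩ : ∃ M, M = max (max |e.zNx| |e.zNy|) (β / 10 ^ 9) := ⟨_, rfl⟩
  have m1 : |e.zNx| ≤ M := hM ▸ (le_max_left _ _).trans (le_max_left _ _)
  have m2 : |e.zNy| ≤ M := hM ▸ (le_max_right _ _).trans (le_max_left _ _)
  have m3 : β / 10 ^ 9 ≤ M := hM ▸ le_max_right _ _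
  have m4 : M ≤ 1 / 400 := hM ▸ max_le (max_le cr.zNx cr.zNy) (by linarith)
  have m5 : 64 * β * M + 4 * M ^ 2 ≤ M / 50 := by nlinarith
  have q1 := q_p2_zN c g s (b0.mono m3) m1 m2
  have q2 := q_zN_eN1 c g s (b0.mono m3) m1 m2
  have q3 := q_zN_hN c g s (b0.mono m3) m1 m2
  have q4 := mul_le_abs p.c1.2 hr
  have q5 : 3 * β * (2 * β ^ 2) ≤ β ^ 2 := by nlinarith
  have q6 : e.zNx ≤ 3 * β ^ 2 := by linarith [w.zN, p.e2, (abs_le.1 hr).2]
  have a1 := abs_le.1 b0.p2x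
  have a2 := abs_le.1 b0.eN1x
  have a3 := abs_le.1 b0.eN1y
  have a4 := abs_le.1 b0.hNx
  have a5 := abs_le.1 b0.hNy
  have m6 : M ≤ 5 * (β / 10 ^ 9) + M / 10 := by
    nth_rewrite 1 [hM]
    exact max_le (max_le (abs_le.2 ⟨by linarith, by linarith⟩)
      (abs_le.2 ⟨by linarith, by linarith⟩)) (by linarith)
  exact ⟨b0.mono (by linarith), by linarith, by linarith, by linarith⟩

theorem msum (hS : SES) (p : Par β t C S ρ x y h) (δ0 : 2 * t ≤ δ) (c : Cover (1 + t ^ 2) a b F)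
    (g : Geo3 β t δ C S ρ x y h F e) (w : Wall3 β t δ C S ρ x y h e) (b0 : Bd3 (β / 10 ^ 9) e)
    (cr : Crude β ρ e) (r : ρ + e.r ≤ 16 / 10 * β ^ 2) (bd : All3 D e) (hD : D ≤ β / 10 ^ 8) :
    2 * (2 * δ - 4 * t) + S * (e.L - e.p4y - e.r) ≤ 296 * (β ^ 2 * D + D ^ 2) := by
  have s := sl3 p b0 cr r
  have hD' : D ≤ β / 10 ^ 6 := by linarith [p.β0]
  have q1 := (es3 hS p δ0 c g w b0 cr bd.toBd3 hD').2 bd.r
  have q2 := q_z3S p c g cr s bd.toBd3 hD'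
  have q3 := q_z3W p c g s bd.toBd3 hD'
  have q4 := q_zN p c g cr s r bd
  have q5 := mul_le_abs p.c1.1 bd.r
  linarith [w.zN, w.z3W, w.z3S, p.e2, sq_nonneg D]

theorem step3 (hS : SES) (p : Par β t C S ρ x y h) (δ0 : 2 * t ≤ δ) (c : Cover (1 + t ^ 2) a b F)
    (g : Geo3 β t δ C S ρ x y h F e) (w : Wall3 β t δ C S ρ x y h e) (b0 : Bd3 (β / 10 ^ 9) e)
    (cr : Crude β ρ e) (r : ρ + e.r ≤ 16 / 10 * β ^ 2) (bd : All3 D e) (hD : D ≤ β / 10 ^ 8) :
    Rows3 (D / 10 ^ 5) e := by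
  obtain ⟨s0, s1⟩ := p.sm
  obtain ⟨t0, t1, t2, t3⟩ := p.tt
  have β0 := p.β0
  have β1 := p.β1
  have s := sl3 p b0 cr r
  have D0 : 0 ≤ D := (abs_nonneg _).trans bd.r
  have hD' : D ≤ β / 10 ^ 6 := by linarith
  have e1 : β * D ≤ D / 10 ^ 40 := by nlinarith
  have e2 : D ^ 2 ≤ D / 10 ^ 40 := by nlinarith
  have e3 : β ^ 2 * D ≤ D / 10 ^ 40 := by nlinarith
  have e4 : 64 * β * D + 4 * D ^ 2 ≤ D / 10 ^ 6 := by linarith
  have tb : |t| ≤ β := by rw [abs_of_nonneg t0]; linarith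
  have tb' : |-t| ≤ β := by rwa [abs_neg]
  have Sb : |S| ≤ 3 * β := abs_le.2 ⟨by linarith [p.S0], by linarith [p.S1]⟩
  have Cb : |C - 1| ≤ β := abs_le.2 ⟨by linarith [p.C0], by linarith [p.C1]⟩
  have hh : |(|h + e.h|) - h| ≤ D := by
    have := abs_abs_sub_abs_le_abs_sub (h + e.h) h
    rw [abs_of_nonneg p.h0, add_sub_cancel_left] at this
    exact this.trans bd.h
  have B := bd.toBd3
  have q1 := (es3 hS p δ0 c g w b0 cr B hD').2 bd.r
  refine ⟨by linarith [q_k2N_eN1 c g s B], by linarith [q_k2W_eW1 c g s B],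
    by linarith [q_k2W_k3W c g s B], by linarith [q_k3S_eS2 c g s B],
    by linarith [q_p2_eN1 c g s B], by linarith [q_p2_eW1 c g s B], by linarith [q_p2_hN c g s B],
    by linarith [q_p2_k3W c g s B], by linarith [q_p2_p4 c g s B],
    by linarith [q_p2_zN c g s B bd.zNx bd.zNy], by linarith [q_p3_eS2 c g s B],
    by linarith [q_p3_eW1 c g s B], by linarith [q_p3_k2W c g s B], by linarith [q_p4_eS2 c g s B],
    by linarith [q_p4_hN c g s B], by linarith [q_p4_k3S c g s B], by linarith [q_p4_p3 c g s B],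
    by linarith [q_t2S_eS2 c g s B], by linarith [q_t2S_k3S c g s B],
    by linarith [q_zN_eN1 c g s B bd.zNx bd.zNy], by linarith [q_zN_hN c g s B bd.zNx bd.zNy],
    by linarith [q_zN_k2N c g s B bd.zNx bd.zNy], by linarith [q_t2 p c g w b0 cr s r bd hD'],
    by linarith [q_z3W p c g s B hD'], by linarith [q_z3S p c g cr s B hD'],
    by linarith [w.z3W, p.e6, mul_le_abs tb' hh], by linarith [w.z3S, p.e6, mul_le_abs tb hh],
    by linarith [w.zN, p.e2, mul_le_abs p.c1.2 bd.r],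
    by linarith [w.Rt2N, p.e5, mul_le_abs tb' B.x], by linarith [w.Lt2S, p.e5, mul_le_abs tb B.x],
    by linarith [w.Bt2S, p.e4, mul_le_abs tb' B.y], by linarith [w.k2N], by linarith [w.k2W],
    by linarith [w.k3W], by linarith [w.k3S], ?_, ?_, ?_, by linarith [q_up c g s B],
    by linarith [q_low p c g s B]⟩
  · have := mul_le_abs Sb (show |-e.y| ≤ D by rw [abs_neg]; exact B.y)
    linarith [w.Bt2E, p.e3, mul_le_abs Cb B.x]
  · have u1 := mul_le_abs Sb (show |-e.L| ≤ D by rw [abs_neg]; exact B.L)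
    have u2 := mul_le_abs (show |-t ^ 2| ≤ β by rw [abs_neg, abs_of_nonneg t2]; linarith) bd.r
    linarith [mul_le_abs Sb B.p4y]
  · by_contra hc
    have u1 : β * (D / 10 ^ 5) ≤ S * (e.L - e.p4y - e.r) :=
      mul_le_mul (by linarith [p.S0]) (by linarith) (by positivity) (by linarith [p.S0])
    have u2 : β ^ 2 * D ≤ β * D / 10 ^ 40 := by nlinarith
    have u3 : D ^ 2 ≤ β * D / 10 ^ 8 := by nlinarith
    have u4 := msum hS p δ0 c g w b0 cr r bd hD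
    have u5 : β * D ≤ 0 := by linarith
    have u6 : D ≤ 0 := by
      by_contra h'
      linarith [mul_pos β0 (not_le.1 h')]
    have v1 := abs_le.1 B.L
    have v2 := abs_le.1 B.p4y
    have v3 := abs_le.1 bd.r
    exact hc (by linarith)

theorem sR3 : SR3 := by
  intro hS a b β t δ C S ρ x y h F e p δ0 _ c g w b0 cr
  obtain ⟨s0, s1⟩ := p.sm
  have β0 := p.β0
  have β1 := p.β1
  have r : ρ + e.r ≤ 16 / 10 * β ^ 2 := by
    have := (es3 hS p δ0 c g w b0 cr b0 (by linarith)).1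
    linarith [mul_nonneg (sq_nonneg t) cr.r0]
  have it : ∀ n : ℕ, All3 (β / 10 ^ 8 * (1 / 2) ^ n) e := fun n => by
    induction n with
    | zero => simpa using boot p δ0 c g w b0 cr r
    | succ n ih =>
      have d0 : 0 ≤ β / 10 ^ 8 * (1 / 2) ^ n := by positivity
      have d1 : β / 10 ^ 8 * (1 / 2) ^ n ≤ β / 10 ^ 8 :=
        mul_le_of_le_one_right (by positivity) (pow_le_one₀ (by norm_num) (by norm_num))
      refine (lp3 (step3 hS p δ0 c g w b0 cr r ih d1) (by positivity)).mono ?_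
      rw [pow_succ (1 / 2 : ℝ)]; linarith
  by_contra hc
  obtain ⟨n, hn⟩ := exists_pow_lt_of_lt_one (sub_pos.2 (not_le.1 hc)) (show (1 / 2 : ℝ) < 1 by norm_num)
  have d0 : (0 : ℝ) ≤ (1 / 2) ^ n := by positivity
  have d1 : β / 10 ^ 8 * (1 / 2) ^ n ≤ β / 10 ^ 8 :=
    mul_le_of_le_one_right (by positivity) (pow_le_one₀ (by norm_num) (by norm_num))
  have d2 : β / 10 ^ 8 * (1 / 2) ^ n ≤ 1 * (1 / 2) ^ n :=
    mul_le_mul_of_nonneg_right (by linarith) d0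
  have bd := it n
  have u := msum hS p δ0 c g w b0 cr r bd d1
  generalize β / 10 ^ 8 * (1 / 2) ^ n = D at *
  have D0 : 0 ≤ D := (abs_nonneg _).trans bd.r
  have e2 : D ^ 2 ≤ D / 10 ^ 40 := by nlinarith
  have e3 : β ^ 2 * D ≤ D / 10 ^ 40 := by nlinarith
  have Sb : |-S| ≤ 1 / 10 := abs_le.2 ⟨by linarith [p.S1], by linarith [p.S0]⟩
  have v1 := abs_le.1 bd.L
  have v2 := abs_le.1 bd.p4y
  have v3 := abs_le.1 bd.r
  have v4 := mul_le_abs Sb (show |e.L - e.p4y - e.r| ≤ 3 * D from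
    abs_le.2 ⟨by linarith, by linarith⟩)
  linarith

end Pool.Agent.P.MP_dba4bb_co.Ex
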