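import Pool.Agent.P.MP_dba4bb_co.Ex.Top
import Pool.Agent.P.MP_dba4bb_co.Ex.Geo
import Pool.Agent.P.MP_dba4bb_co.Ex.Fin
import Pool.Agent.P.MP_dba4bb_co.Ex.G3
import Pool.Agent.P.MP_dba4bb_co.Ex.ES
import Pool.Agent.P.MP_dba4bb_co.Ex.R3

/-! The two bounds. -/

namespace Pool.Agent.P.MP_dba4bb_co.Ex

open Set

theorem upper : ∃ u0 > 0, ∀ u : ℝ, 0 < u → u < u0 → ∀ s, Wraps 1 (rr u) s → s ≤ sg u := by
  obtain ⟨η, hη, hηε, hR⟩ := sR0 Top.sSq (1 / 20000) (by norm_num)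
  refine ⟨min (η / 10) (1 / 10 ^ 41), lt_min (by linarith) (by norm_num), fun u hu0 hu1 => ?_⟩
  have hu2 : u < η / 10 := hu1.trans_le (min_le_left _ _)
  have hu3 : u < 1 / 10 ^ 41 := hu1.trans_le (min_le_right _ _)
  intro s hs
  by_contra hlt
  rw [not_le] at hlt
  obtain ⟨C, S, ρ, x, y, h, hp⟩ := sPar u hu0 hu3.le
  have hrr : rr u = (2 + bb u) / (2 - 2 * tt u) := by
    unfold rr bb
    rw [show 4 * (1 - tt u) = 2 * (2 - 2 * tt u) by ring,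
      show 4 + 2 * u - u ^ 2 + 3 * tt u * u = 2 * (2 + (u - u ^ 2 / 2 + 3 / 2 * tt u * u)) by
        ring, mul_div_mul_left _ _ two_ne_zero]
  have hsg : sg u = √(2 * (1 + tt u ^ 2)) / (2 * (2 - 2 * tt u)) := by
    unfold sg
    rw [show 4 * (1 - tt u) = 2 * (2 - 2 * tt u) by ring,
      show 2 + 2 * tt u ^ 2 = 2 * (1 + tt u ^ 2) by ring]
  have hbu : bb u = u - u ^ 2 / 2 + 3 / 2 * tt u * u := rfl
  generalize bb u = β at hp hrr hbu
  generalize tt u = t at hp hrr hsg hbu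
  have hβ := hp.β0
  have hβ1 := hp.β1
  have ht0 := hp.t0
  have ht1 := hp.t1
  have hβ2 : β ^ 2 ≤ β / 10 := by nlinarith
  have hβ3 : β ^ 3 ≤ β / 10 := by nlinarith
  have hβ4 : 0 < β ^ 2 := pow_pos hβ 2
  have hβ5 : 0 < β ^ 3 := pow_pos hβ 3
  have ht2 : t ≤ 1 / 10 := by linarith
  have hβu : β ≤ 2 * u := by nlinarith
  have hd : 0 < 2 - 2 * t := by linarith
  rw [hsg] at hlt
  rw [hrr] at hs
  have hs0 : 0 < s := lt_of_le_of_lt (by positivity) hlt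
  rw [div_lt_iff₀ (by linarith)] at hlt
  generalize hw : √(2 * (1 + t ^ 2)) = w at hlt
  obtain ⟨δ, d1, d2, d3⟩ : ∃ δ, 2 * t < δ ∧ δ ≤ 2 * t + β ^ 3 ∧ w ≤ 2 * (2 - δ) * s := by
    refine ⟨min (2 * t + β ^ 3) (2 - w / (2 * s)), lt_min (by linarith) ?_, min_le_left _ _, ?_⟩
    · have : w / (2 * s) < 2 - 2 * t := by
        rw [div_lt_iff₀ (by linarith)]
        linarith
      linarith
    · have h1 : w / (2 * s) ≤ 2 - min (2 * t + β ^ 3) (2 - w / (2 * s)) := by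
        have := min_le_right (2 * t + β ^ 3) (2 - w / (2 * s))
        linarith
      rw [div_le_iff₀ (by linarith)] at h1
      linarith
  obtain ⟨Δ, rfl⟩ : ∃ Δ, δ = β ^ 2 * Δ := ⟨δ / β ^ 2, by field_simp⟩
  obtain ⟨F, hc⟩ := sW2C (1 + t ^ 2) (2 - β ^ 2 * Δ) (2 + β) _ s (by nlinarith) hs0 hs
    (by rw [hw]; exact d3) (by
      rw [hw, ← mul_div_assoc, div_le_iff₀ hd]
      nlinarith)
  obtain ⟨g, hg, hn⟩ := hR (2 - β ^ 2 * Δ) (2 + β) F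
    (abs_le.2 ⟨by linarith, by linarith⟩) (abs_le.2 ⟨by linarith, by linarith⟩) hc.weak
  have hok : Ok (1 / 20000) η (1 + t ^ 2) (2 - β ^ 2 * Δ) (2 + β) fun P => g (F P) :=
    ⟨hc.sym hg, hn, hη.le, hηε, by norm_num, by linarith, by linarith, by linarith, by linarith⟩
  have hS : S ≤ η := by
    have := hp.S1
    linarith
  rcases sNS _ _ _ _ _ _ hok with hns | hns
  · exact Top.core2 sGeo sFin sG3 sES sR3 hp d1 d2 hS hok hns
  · exact Top.core2 sGeo sFin sG3 sES sR3 hp d1 d2 hS ((sSymm _ _ _ _ _ _).1 hok).1 hns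

theorem lower (u : ℝ) (h0 : 0 < u) (h1 : u ≤ 1 / 1000) : Folds 1 (rr u) (sg u) :=
  sLfin sPsi sLiso sLsurA sLsurN sLsurT sLinj u h0 h1

theorem rr_lower {u : ℝ} (h0 : 0 < u) (h1 : u ≤ 1 / 1000) : 1 + u / 4 ≤ rr u := by
  have p := Lfin.parL h0 h1
  have t0 := p.t0
  have t1 := p.t1
  have a2 : u ^ 2 ≤ u / 1000 := by nlinarith
  have ht : 0 ≤ tt u := by nlinarith [sq_nonneg u]
  have hd : 0 < 4 * (1 - tt u) := by nlinarith
  unfold rr
  rw [le_div_iff₀ hd]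
  nlinarith [mul_nonneg ht h0.le]

end Pool.Agent.P.MP_dba4bb_co.Ex
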