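import Pool.Agent.P.MP_dba4bb_co.Defs

/-! Folded states of a rectangle on the surface of a cube, and the optimal values near the square. -/

namespace Pool.Agent.P.MP_dba4bb_co.Ex

open Set

/-- a convex polygon: the intersection of finitely many closed half-planes -/
def Poly (F : Set ℂ) : Prop :=
  ∃ L : List (ℝ × ℝ × ℝ), F = {p | ∀ c ∈ L, c.1 * p.re + c.2.1 * p.im ≤ c.2.2}

/-- the paper is cut into finitely many convex polygons, a continuous map `f` that is an isometry
on each polygon sends the paper onto the surface of the cube, and a continuous height `h` orders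
the layers: two different points of the paper with the same image have different heights -/
def Folds (x y s : ℝ) : Prop :=
  ∃ (f : ℂ → E3) (h : ℂ → ℝ) (𝓕 : Set (Set ℂ)), 𝓕.Finite ∧ ⋃₀ 𝓕 = Rect x y ∧
    (∀ F ∈ 𝓕, Poly F ∧ ∀ p ∈ F, ∀ q ∈ F, dist (f p) (f q) = dist p q) ∧
    f '' Rect x y = Surf s ∧ ContinuousOn f (Rect x y) ∧ ContinuousOn h (Rect x y) ∧
    InjOn (fun p => (f p, h p)) (Rect x y)

/-- the tilt of the body of the folding -/
noncomputable def tt (u : ℝ) : ℝ :=
  2 * u ^ 2 * (1 + 2 * u - u ^ 2) / (4 + 7 * u + 7 * u ^ 2 + 3 * u ^ 3 - u ^ 4)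

/-- the ratio of the sides of the paper -/
noncomputable def rr (u : ℝ) : ℝ := (4 + 2 * u - u ^ 2 + 3 * tt u * u) / (4 * (1 - tt u))

/-- the side of the largest cube -/
noncomputable def sg (u : ℝ) : ℝ := √(2 + 2 * tt u ^ 2) / (4 * (1 - tt u))

end Pool.Agent.P.MP_dba4bb_co.Ex
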