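import Pool.Agent.P.MP_dba4bb_co.Ex.S4

/-! Rigidity of the linear system at the optimum. -/

namespace Pool.Agent.P.MP_dba4bb_co.Ex

structure Rows3 (E : ℝ) (e : C3) : Prop where
  k2N_eN1 : 0 ≤ 1 / 4 * e.k2Nx + 1 / 4 * e.k2Ny - 1 / 4 * e.eN1x - 1 / 4 * e.eN1y + E
  k2W_eW1 : 0 ≤ -1 / 4 * e.k2Wx + 1 / 4 * e.k2Wy + 1 / 4 * e.eW1x - 1 / 4 * e.eW1y + E
  k2W_k3W : 0 ≤ 1 / 2 * e.k2Wx + 1 / 2 * e.k2Wy - 1 / 2 * e.k3Wx - 1 / 2 * e.k3Wy + E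
  k3S_eS2 : 0 ≤ -1 / 2 * e.k3Sx + 1 / 2 * e.eS2x + E
  p2_eN1 : 0 ≤ -5 / 4 * e.p2x - 3 / 4 * e.p2y + 5 / 4 * e.eN1x + 3 / 4 * e.eN1y + E
  p2_eW1 : 0 ≤ 5 / 4 * e.p2x - 3 / 4 * e.p2y - 5 / 4 * e.eW1x + 3 / 4 * e.eW1y + E
  p2_hN : 0 ≤ -15 / 16 * e.p2x + 13 / 16 * e.p2y + 15 / 16 * e.hNx - 13 / 16 * e.hNy + E
  p2_k3W : 0 ≤ 2 * e.p2x - 1 / 2 * e.p2y - 2 * e.k3Wx + 1 / 2 * e.k3Wy + E
  p2_p4 : 0 ≤ 2 * e.p2y - 2 * e.p4y + E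
  p2_zN : 0 ≤ -2 * e.p2x + 2 * e.zNx + E
  p3_eS2 : 0 ≤ 1 / 2 * e.p3x + 3 / 2 * e.p3y - 1 / 2 * e.eS2x - 3 / 2 * e.eS2y + E
  p3_eW1 : 0 ≤ 1 / 4 * e.p3x - 7 / 4 * e.p3y - 1 / 4 * e.eW1x + 7 / 4 * e.eW1y + E
  p3_k2W : 0 ≤ 1 / 2 * e.p3x - 2 * e.p3y - 1 / 2 * e.k2Wx + 2 * e.k2Wy + E
  p4_eS2 : 0 ≤ 3 / 2 * e.p4x + 1 / 2 * e.p4y - 3 / 2 * e.eS2x - 1 / 2 * e.eS2y + E
  p4_hN : 0 ≤ -15 / 16 * e.p4x - 19 / 16 * e.p4y + 15 / 16 * e.hNx + 19 / 16 * e.hNy + E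
  p4_k3S : 0 ≤ 2 * e.p4x + 1 / 2 * e.p4y - 2 * e.k3Sx - 1 / 2 * e.k3Sy + E
  p4_p3 : 0 ≤ e.p4x - e.p4y - e.p3x + e.p3y + E
  t2S_eS2 : 0 ≤ -1 / 2 * e.t2Sx - 1 / 2 * e.t2Sy + 1 / 2 * e.eS2x + 1 / 2 * e.eS2y + E
  t2S_k3S : 0 ≤ -1 / 2 * e.t2Sy + 1 / 2 * e.k3Sy + E
  zN_eN1 : 0 ≤ 3 / 4 * e.zNx - 3 / 4 * e.zNy - 3 / 4 * e.eN1x + 3 / 4 * e.eN1y + E
  zN_hN : 0 ≤ 17 / 16 * e.zNx + 13 / 16 * e.zNy - 17 / 16 * e.hNx - 13 / 16 * e.hNy + E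
  zN_k2N : 0 ≤ 1 / 2 * e.zNx - e.zNy - 1 / 2 * e.k2Nx + e.k2Ny + E
  t2N_k2N : 0 ≤ e.t2Nx - e.k2Nx + E
  p2_z3W : 0 ≤ e.p2x - e.z3Wx + E
  p4_z3S : 0 ≤ e.p4x - e.z3Sx + E
  wz3W : 0 ≤ e.z3Wx + e.h + E
  wz3S : 0 ≤ e.z3Sx - e.h + E
  wzN : 0 ≤ e.r - e.zNx + E
  wt2N : 0 ≤ e.y - e.t2Nx + E
  wLt2S : 0 ≤ e.t2Sx - e.y + E
  wBt2S : 0 ≤ e.t2Sy - e.x + E
  wk2N : 0 ≤ e.k2 - e.k2Ny + E
  wk2W : 0 ≤ -e.k2 - e.k2Wy + E
  wk3W : 0 ≤ e.k3Wx + e.k3 + E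
  wk3S : 0 ≤ e.k3Sx - e.k3 + E
  wBt2E : 0 ≤ e.L + e.x + E
  est : 0 ≤ -e.r - e.p4x + E
  face : 0 ≤ -e.L + e.p4y + e.r + E
  up : 0 ≤ e.k3Wy - e.z3Wy + E
  low : 0 ≤ -e.z3Wx + e.p3x + e.z3Wy - e.p3y + 4 * |e.h| + E

variable {E : ℝ} {e : C3}

theorem l3_p2x (h : Rows3 E e) (hE : 0 ≤ E) : |e.p2x| ≤ 320 * E := by
  refine abs_le.2 ⟨?_, ?_⟩
  · linear_combination
      (34 / 9) * h.k2N_eN1 + (8 / 3) * h.k2W_eW1 + (4 / 3) * h.k2W_k3W + 2 * h.k3S_eS2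
      + (17 / 18) * h.p2_eN1 + (1 / 2) * h.p2_eW1 + (8 / 39) * h.p2_hN + (4 / 3) * h.p2_k3W
      + (19 / 24) * h.p2_p4 + (215 / 468) * h.p2_zN + (1 / 8) * h.p3_eS2 + (1 / 6) * h.p3_eW1
      + (9 / 8) * h.p4_eS2 + (2 / 3) * h.p4_hN + (7 / 6) * h.p4_k3S + (5 / 48) * h.p4_p3
      + (3 / 2) * h.t2S_eS2 + (7 / 6) * h.t2S_k3S + (17 / 54) * h.zN_eN1 + (10 / 13) * h.zN_hN
      + (7 / 18) * h.zN_k2N + (3 / 4) * h.t2N_k2N + (13 / 6) * h.wzN + (3 / 4) * h.wt2N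
      + (3 / 4) * h.wLt2S + (4 / 3) * h.wBt2S + (4 / 3) * h.wk2N + (4 / 3) * h.wk2W
      + (10 / 3) * h.wk3W + (10 / 3) * h.wk3S + (4 / 3) * h.wBt2E + (7 / 2) * h.est
      + (4 / 3) * h.face
      + (1557005 / 5616) * hE
  · linear_combination
      (56 / 9) * h.k2N_eN1 + (2 / 3) * h.k2W_k3W + 2 * h.k3S_eS2 + (14 / 9) * h.p2_eN1
      + (32 / 195) * h.p2_hN + (2 / 3) * h.p2_k3W + (41 / 60) * h.p2_p4 + (55 / 468) * h.p2_zN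
      + (1 / 2) * h.p3_eS2 + (2 / 3) * h.p3_k2W + (3 / 2) * h.p4_eS2 + (8 / 15) * h.p4_hN
      + (1 / 3) * h.p4_k3S + (7 / 12) * h.p4_p3 + 3 * h.t2S_eS2 + (1 / 3) * h.t2S_k3S
      + (14 / 27) * h.zN_eN1 + (8 / 13) * h.zN_hN + (1 / 9) * h.zN_k2N + (3 / 2) * h.t2N_k2N
      + (4 / 3) * h.wzN + (3 / 2) * h.wt2N + (3 / 2) * h.wLt2S + (5 / 3) * h.wBt2S
      + (5 / 3) * h.wk2N + (5 / 3) * h.wk2W + (5 / 3) * h.wk3W + (5 / 3) * h.wk3S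
      + (5 / 3) * h.wBt2E + 3 * h.est + (5 / 3) * h.face
      + (1956677 / 7020) * hE

theorem l3_p2y (h : Rows3 E e) (hE : 0 ≤ E) : |e.p2y| ≤ 320 * E := by
  refine abs_le.2 ⟨?_, ?_⟩
  · linear_combination
      (109 / 9) * h.k2N_eN1 + (20 / 3) * h.k2W_eW1 + (10 / 3) * h.k2W_k3W + 9 * h.k3S_eS2
      + (109 / 36) * h.p2_eN1 + (5 / 4) * h.p2_eW1 + (68 / 195) * h.p2_hN + (10 / 3) * h.p2_k3W
      + (671 / 240) * h.p2_p4 + (1927 / 936) * h.p2_zN + (5 / 16) * h.p3_eS2 + (5 / 12) * h.p3_eW1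
      + (77 / 16) * h.p4_eS2 + (17 / 15) * h.p4_hN + (23 / 12) * h.p4_k3S + (25 / 96) * h.p4_p3
      + (23 / 4) * h.t2S_eS2 + (23 / 12) * h.t2S_k3S + (109 / 108) * h.zN_eN1
      + (17 / 13) * h.zN_hN + (11 / 36) * h.zN_k2N + (23 / 8) * h.t2N_k2N + (77 / 12) * h.wzN
      + (23 / 8) * h.wt2N + (23 / 8) * h.wLt2S + (23 / 6) * h.wBt2S + (10 / 3) * h.wk2N
      + (10 / 3) * h.wk2W + (25 / 3) * h.wk3W + (25 / 3) * h.wk3S + (23 / 6) * h.wBt2E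
      + (41 / 4) * h.est + (23 / 6) * h.face
      + (11052749 / 56160) * hE
  · linear_combination
      (116 / 9) * h.k2N_eN1 + (5 / 3) * h.k2W_k3W + h.k3S_eS2 + (29 / 9) * h.p2_eN1
      + (112 / 195) * h.p2_hN + (5 / 3) * h.p2_k3W + (107 / 120) * h.p2_p4 + (5 / 4) * h.p3_eS2
      + (5 / 3) * h.p3_k2W + (7 / 4) * h.p4_eS2 + (28 / 15) * h.p4_hN + (11 / 6) * h.p4_k3S
      + (35 / 24) * h.p4_p3 + (11 / 2) * h.t2S_eS2 + (11 / 6) * h.t2S_k3S + (29 / 27) * h.zN_eN1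
      + (28 / 13) * h.zN_hN + (17 / 18) * h.zN_k2N + (11 / 4) * h.t2N_k2N + (577 / 468) * h.p2_z3W
      + (577 / 468) * h.p4_z3S + (577 / 468) * h.wz3W + (577 / 468) * h.wz3S
      + (1669 / 468) * h.wzN + (11 / 4) * h.wt2N + (11 / 4) * h.wLt2S + (11 / 3) * h.wBt2S
      + (25 / 6) * h.wk2N + (25 / 6) * h.wk2W + (25 / 6) * h.wk3W + (25 / 6) * h.wk3S
      + (11 / 3) * h.wBt2E + (3385 / 468) * h.est + (11 / 3) * h.face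
      + (790141 / 3510) * hE

theorem l3_p4x (h : Rows3 E e) (hE : 0 ≤ E) : |e.p4x| ≤ 320 * E := by
  refine abs_le.2 ⟨?_, ?_⟩
  · linear_combination
      (56 / 9) * h.k2N_eN1 + (2 / 3) * h.k2W_k3W + 2 * h.k3S_eS2 + (14 / 9) * h.p2_eN1
      + (32 / 195) * h.p2_hN + (2 / 3) * h.p2_k3W + (41 / 60) * h.p2_p4 + (1 / 2) * h.p3_eS2
      + (2 / 3) * h.p3_k2W + (3 / 2) * h.p4_eS2 + (8 / 15) * h.p4_hN + (1 / 3) * h.p4_k3S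
      + (7 / 12) * h.p4_p3 + 3 * h.t2S_eS2 + (1 / 3) * h.t2S_k3S + (14 / 27) * h.zN_eN1
      + (8 / 13) * h.zN_hN + (1 / 9) * h.zN_k2N + (3 / 2) * h.t2N_k2N + (179 / 234) * h.p2_z3W
      + (179 / 234) * h.p4_z3S + (179 / 234) * h.wz3W + (179 / 234) * h.wz3S + (257 / 234) * h.wzN
      + (3 / 2) * h.wt2N + (3 / 2) * h.wLt2S + (5 / 3) * h.wBt2S + (5 / 3) * h.wk2N
      + (5 / 3) * h.wk2W + (5 / 3) * h.wk3W + (5 / 3) * h.wk3S + (5 / 3) * h.wBt2E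
      + (647 / 234) * h.est + (5 / 3) * h.face
      + (969661 / 3510) * hE
  · linear_combination
      (34 / 9) * h.k2N_eN1 + (8 / 3) * h.k2W_eW1 + (4 / 3) * h.k2W_k3W + 2 * h.k3S_eS2
      + (17 / 18) * h.p2_eN1 + (1 / 2) * h.p2_eW1 + (8 / 39) * h.p2_hN + (4 / 3) * h.p2_k3W
      + (19 / 24) * h.p2_p4 + (449 / 468) * h.p2_zN + (1 / 8) * h.p3_eS2 + (1 / 6) * h.p3_eW1
      + (9 / 8) * h.p4_eS2 + (2 / 3) * h.p4_hN + (7 / 6) * h.p4_k3S + (5 / 48) * h.p4_p3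
      + (3 / 2) * h.t2S_eS2 + (7 / 6) * h.t2S_k3S + (17 / 54) * h.zN_eN1 + (10 / 13) * h.zN_hN
      + (7 / 18) * h.zN_k2N + (3 / 4) * h.t2N_k2N + (19 / 6) * h.wzN + (3 / 4) * h.wt2N
      + (3 / 4) * h.wLt2S + (4 / 3) * h.wBt2S + (4 / 3) * h.wk2N + (4 / 3) * h.wk2W
      + (10 / 3) * h.wk3W + (10 / 3) * h.wk3S + (4 / 3) * h.wBt2E + (9 / 2) * h.est
      + (4 / 3) * h.face
      + (1542965 / 5616) * hE

theorem l3_p4y (h : Rows3 E e) (hE : 0 ≤ E) : |e.p4y| ≤ 320 * E := by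
  refine abs_le.2 ⟨?_, ?_⟩
  · linear_combination
      (109 / 9) * h.k2N_eN1 + (20 / 3) * h.k2W_eW1 + (10 / 3) * h.k2W_k3W + 9 * h.k3S_eS2
      + (109 / 36) * h.p2_eN1 + (5 / 4) * h.p2_eW1 + (68 / 195) * h.p2_hN + (10 / 3) * h.p2_k3W
      + (551 / 240) * h.p2_p4 + (1927 / 936) * h.p2_zN + (5 / 16) * h.p3_eS2 + (5 / 12) * h.p3_eW1
      + (77 / 16) * h.p4_eS2 + (17 / 15) * h.p4_hN + (23 / 12) * h.p4_k3S + (25 / 96) * h.p4_p3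
      + (23 / 4) * h.t2S_eS2 + (23 / 12) * h.t2S_k3S + (109 / 108) * h.zN_eN1
      + (17 / 13) * h.zN_hN + (11 / 36) * h.zN_k2N + (23 / 8) * h.t2N_k2N + (77 / 12) * h.wzN
      + (23 / 8) * h.wt2N + (23 / 8) * h.wLt2S + (23 / 6) * h.wBt2S + (10 / 3) * h.wk2N
      + (10 / 3) * h.wk2W + (25 / 3) * h.wk3W + (25 / 3) * h.wk3S + (23 / 6) * h.wBt2E
      + (41 / 4) * h.est + (23 / 6) * h.face
      + (11080829 / 56160) * hE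
  · linear_combination
      (116 / 9) * h.k2N_eN1 + (5 / 3) * h.k2W_k3W + h.k3S_eS2 + (29 / 9) * h.p2_eN1
      + (112 / 195) * h.p2_hN + (5 / 3) * h.p2_k3W + (167 / 120) * h.p2_p4 + (5 / 4) * h.p3_eS2
      + (5 / 3) * h.p3_k2W + (7 / 4) * h.p4_eS2 + (28 / 15) * h.p4_hN + (11 / 6) * h.p4_k3S
      + (35 / 24) * h.p4_p3 + (11 / 2) * h.t2S_eS2 + (11 / 6) * h.t2S_k3S + (29 / 27) * h.zN_eN1
      + (28 / 13) * h.zN_hN + (17 / 18) * h.zN_k2N + (11 / 4) * h.t2N_k2N + (577 / 468) * h.p2_z3W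
      + (577 / 468) * h.p4_z3S + (577 / 468) * h.wz3W + (577 / 468) * h.wz3S
      + (1669 / 468) * h.wzN + (11 / 4) * h.wt2N + (11 / 4) * h.wLt2S + (11 / 3) * h.wBt2S
      + (25 / 6) * h.wk2N + (25 / 6) * h.wk2W + (25 / 6) * h.wk3W + (25 / 6) * h.wk3S
      + (11 / 3) * h.wBt2E + (3385 / 468) * h.est + (11 / 3) * h.face
      + (394193 / 1755) * hE

theorem l3_p3x (h : Rows3 E e) (hE : 0 ≤ E) : |e.p3x| ≤ 320 * E := by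
  refine abs_le.2 ⟨?_, ?_⟩
  · linear_combination
      (200 / 9) * h.k2N_eN1 + (8 / 3) * h.k2W_k3W + (50 / 9) * h.p2_eN1 + (32 / 39) * h.p2_hN
      + (8 / 3) * h.p2_k3W + (29 / 12) * h.p2_p4 + (5 / 2) * h.p3_eS2 + (8 / 3) * h.p3_k2W
      + (5 / 2) * h.p4_eS2 + (8 / 3) * h.p4_hN + (10 / 3) * h.p4_k3S + (19 / 12) * h.p4_p3
      + 10 * h.t2S_eS2 + (10 / 3) * h.t2S_k3S + (50 / 27) * h.zN_eN1 + (40 / 13) * h.zN_hN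
      + (10 / 9) * h.zN_k2N + 5 * h.t2N_k2N + (557 / 234) * h.p2_z3W + (557 / 234) * h.p4_z3S
      + (557 / 234) * h.wz3W + (557 / 234) * h.wz3S + (610 / 117) * h.wzN + 5 * h.wt2N
      + 5 * h.wLt2S + (20 / 3) * h.wBt2S + (20 / 3) * h.wk2N + (20 / 3) * h.wk2W
      + (20 / 3) * h.wk3W + (20 / 3) * h.wk3S + (20 / 3) * h.wBt2E + (1390 / 117) * h.est
      + (20 / 3) * h.face
      + (56422 / 351) * hE
  · linear_combination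
      (160 / 9) * h.k2N_eN1 + (32 / 3) * h.k2W_eW1 + (16 / 3) * h.k2W_k3W + 16 * h.k3S_eS2
      + (40 / 9) * h.p2_eN1 + 2 * h.p2_eW1 + (128 / 195) * h.p2_hN + (16 / 3) * h.p2_k3W
      + (209 / 60) * h.p2_p4 + (1637 / 468) * h.p2_zN + (2 / 3) * h.p3_eW1 + 8 * h.p4_eS2
      + (32 / 15) * h.p4_hN + (8 / 3) * h.p4_k3S + (7 / 6) * h.p4_p3 + 8 * h.t2S_eS2
      + (8 / 3) * h.t2S_k3S + (40 / 27) * h.zN_eN1 + (32 / 13) * h.zN_hN + (8 / 9) * h.zN_k2N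
      + 4 * h.t2N_k2N + (67 / 6) * h.wzN + 4 * h.wt2N + 4 * h.wLt2S + (16 / 3) * h.wBt2S
      + (16 / 3) * h.wk2N + (16 / 3) * h.wk2W + (40 / 3) * h.wk3W + (40 / 3) * h.wk3S
      + (16 / 3) * h.wBt2E + (33 / 2) * h.est + (16 / 3) * h.face
      + (448139 / 3510) * hE

theorem l3_p3y (h : Rows3 E e) (hE : 0 ≤ E) : |e.p3y| ≤ 320 * E := by
  refine abs_le.2 ⟨?_, ?_⟩
  · linear_combination
      (191 / 18) * h.k2N_eN1 + 2 * h.k2W_eW1 + (11 / 6) * h.k2W_k3W + (191 / 72) * h.p2_eN1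
      + (3 / 8) * h.p2_eW1 + (14 / 39) * h.p2_hN + (11 / 6) * h.p2_k3W + (139 / 96) * h.p2_p4
      + (113 / 468) * h.p2_zN + (39 / 32) * h.p3_eS2 + (1 / 8) * h.p3_eW1 + (5 / 6) * h.p3_k2W
      + (39 / 32) * h.p4_eS2 + (7 / 6) * h.p4_hN + (55 / 24) * h.p4_k3S + (203 / 192) * h.p4_p3
      + (39 / 8) * h.t2S_eS2 + (55 / 24) * h.t2S_k3S + (191 / 216) * h.zN_eN1
      + (35 / 26) * h.zN_hN + (31 / 72) * h.zN_k2N + (39 / 16) * h.t2N_k2N + (67 / 24) * h.wzN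
      + (39 / 16) * h.wt2N + (39 / 16) * h.wLt2S + (43 / 12) * h.wBt2S + (37 / 12) * h.wk2N
      + (37 / 12) * h.wk2W + (55 / 12) * h.wk3W + (55 / 12) * h.wk3S + (43 / 12) * h.wBt2E
      + (51 / 8) * h.est + (43 / 12) * h.face
      + (5354171 / 22464) * hE
  · linear_combination
      (80 / 9) * h.k2N_eN1 + (16 / 5) * h.k2W_eW1 + (31 / 15) * h.k2W_k3W + (39 / 5) * h.k3S_eS2
      + (20 / 9) * h.p2_eN1 + (3 / 5) * h.p2_eW1 + (352 / 975) * h.p2_hN + (31 / 15) * h.p2_k3W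
      + (857 / 600) * h.p2_p4 + (827 / 936) * h.p2_zN + (1 / 5) * h.p3_eW1 + (7 / 15) * h.p3_k2W
      + (39 / 10) * h.p4_eS2 + (88 / 75) * h.p4_hN + (19 / 30) * h.p4_k3S + (17 / 60) * h.p4_p3
      + (39 / 10) * h.t2S_eS2 + (19 / 30) * h.t2S_k3S + (20 / 27) * h.zN_eN1 + (88 / 65) * h.zN_hN
      + (49 / 90) * h.zN_k2N + (39 / 20) * h.t2N_k2N + (121 / 30) * h.wzN + (39 / 20) * h.wt2N
      + (39 / 20) * h.wLt2S + (34 / 15) * h.wBt2S + (83 / 30) * h.wk2N + (83 / 30) * h.wk2W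
      + (31 / 6) * h.wk3W + (31 / 6) * h.wk3S + (34 / 15) * h.wBt2E + (63 / 10) * h.est
      + (34 / 15) * h.face
      + (8346907 / 35100) * hE

theorem l3_zNx (h : Rows3 E e) (hE : 0 ≤ E) : |e.zNx| ≤ 320 * E := by
  refine abs_le.2 ⟨?_, ?_⟩
  · linear_combination
      (34 / 9) * h.k2N_eN1 + (8 / 3) * h.k2W_eW1 + (4 / 3) * h.k2W_k3W + 2 * h.k3S_eS2
      + (17 / 18) * h.p2_eN1 + (1 / 2) * h.p2_eW1 + (8 / 39) * h.p2_hN + (4 / 3) * h.p2_k3W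
      + (19 / 24) * h.p2_p4 + (449 / 468) * h.p2_zN + (1 / 8) * h.p3_eS2 + (1 / 6) * h.p3_eW1
      + (9 / 8) * h.p4_eS2 + (2 / 3) * h.p4_hN + (7 / 6) * h.p4_k3S + (5 / 48) * h.p4_p3
      + (3 / 2) * h.t2S_eS2 + (7 / 6) * h.t2S_k3S + (17 / 54) * h.zN_eN1 + (10 / 13) * h.zN_hN
      + (7 / 18) * h.zN_k2N + (3 / 4) * h.t2N_k2N + (13 / 6) * h.wzN + (3 / 4) * h.wt2N
      + (3 / 4) * h.wLt2S + (4 / 3) * h.wBt2S + (4 / 3) * h.wk2N + (4 / 3) * h.wk2W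
      + (10 / 3) * h.wk3W + (10 / 3) * h.wk3S + (4 / 3) * h.wBt2E + (7 / 2) * h.est
      + (4 / 3) * h.face
      + (1554197 / 5616) * hE
  · linear_combination
      (56 / 9) * h.k2N_eN1 + (2 / 3) * h.k2W_k3W + 2 * h.k3S_eS2 + (14 / 9) * h.p2_eN1
      + (32 / 195) * h.p2_hN + (2 / 3) * h.p2_k3W + (41 / 60) * h.p2_p4 + (1 / 2) * h.p3_eS2
      + (2 / 3) * h.p3_k2W + (3 / 2) * h.p4_eS2 + (8 / 15) * h.p4_hN + (1 / 3) * h.p4_k3S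
      + (7 / 12) * h.p4_p3 + 3 * h.t2S_eS2 + (1 / 3) * h.t2S_k3S + (14 / 27) * h.zN_eN1
      + (8 / 13) * h.zN_hN + (1 / 9) * h.zN_k2N + (3 / 2) * h.t2N_k2N + (179 / 234) * h.p2_z3W
      + (179 / 234) * h.p4_z3S + (179 / 234) * h.wz3W + (179 / 234) * h.wz3S + (491 / 234) * h.wzN
      + (3 / 2) * h.wt2N + (3 / 2) * h.wLt2S + (5 / 3) * h.wBt2S + (5 / 3) * h.wk2N
      + (5 / 3) * h.wk2W + (5 / 3) * h.wk3W + (5 / 3) * h.wk3S + (5 / 3) * h.wBt2E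
      + (881 / 234) * h.est + (5 / 3) * h.face
      + (962641 / 3510) * hE

theorem l3_zNy (h : Rows3 E e) (hE : 0 ≤ E) : |e.zNy| ≤ 320 * E := by
  refine abs_le.2 ⟨?_, ?_⟩
  · linear_combination
      14 * h.k2N_eN1 + (104 / 27) * h.k2W_eW1 + (23 / 9) * h.k2W_k3W + (79 / 9) * h.k3S_eS2
      + (7 / 2) * h.p2_eN1 + (13 / 18) * h.p2_eW1 + (8 / 13) * h.p2_hN + (23 / 9) * h.p2_k3W
      + (71 / 36) * h.p2_p4 + (497 / 936) * h.p2_zN + (47 / 72) * h.p3_eS2 + (13 / 54) * h.p3_eW1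
      + (17 / 27) * h.p3_k2W + (121 / 24) * h.p4_eS2 + 2 * h.p4_hN + h.p4_k3S
      + (101 / 144) * h.p4_p3 + 7 * h.t2S_eS2 + h.t2S_k3S + (7 / 6) * h.zN_eN1
      + (30 / 13) * h.zN_hN + (7 / 2) * h.t2N_k2N + (79 / 18) * h.wzN + (7 / 2) * h.wt2N
      + (7 / 2) * h.wLt2S + 4 * h.wBt2S + (7 / 2) * h.wk2N + (7 / 2) * h.wk2W
      + (115 / 18) * h.wk3W + (115 / 18) * h.wk3S + 4 * h.wBt2E + (151 / 18) * h.est + 4 * h.face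
      + (382117 / 1872) * hE
  · linear_combination
      (143 / 18) * h.k2N_eN1 + 2 * h.k2W_eW1 + (11 / 6) * h.k2W_k3W + (143 / 72) * h.p2_eN1
      + (3 / 8) * h.p2_eW1 + (38 / 195) * h.p2_hN + (11 / 6) * h.p2_k3W + (607 / 480) * h.p2_p4
      + (86 / 117) * h.p2_zN + (23 / 32) * h.p3_eS2 + (1 / 8) * h.p3_eW1 + (5 / 6) * h.p3_k2W
      + (23 / 32) * h.p4_eS2 + (19 / 30) * h.p4_hN + (55 / 24) * h.p4_k3S + (155 / 192) * h.p4_p3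
      + (23 / 8) * h.t2S_eS2 + (55 / 24) * h.t2S_k3S + (143 / 216) * h.zN_eN1
      + (19 / 26) * h.zN_hN + (79 / 72) * h.zN_k2N + (23 / 16) * h.t2N_k2N + (79 / 24) * h.wzN
      + (23 / 16) * h.wt2N + (23 / 16) * h.wLt2S + (31 / 12) * h.wBt2S + (37 / 12) * h.wk2N
      + (37 / 12) * h.wk2W + (55 / 12) * h.wk3W + (55 / 12) * h.wk3S + (31 / 12) * h.wBt2E
      + (47 / 8) * h.est + (31 / 12) * h.face
      + (28246903 / 112320) * hE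

theorem l3_t2Sx (h : Rows3 E e) (hE : 0 ≤ E) : |e.t2Sx| ≤ 320 * E := by
  refine abs_le.2 ⟨?_, ?_⟩
  · linear_combination
      (92 / 9) * h.k2N_eN1 + (16 / 3) * h.k2W_eW1 + (8 / 3) * h.k2W_k3W + 4 * h.k3S_eS2
      + (23 / 9) * h.p2_eN1 + h.p2_eW1 + (16 / 65) * h.p2_hN + (8 / 3) * h.p2_k3W
      + (19 / 10) * h.p2_p4 + (739 / 468) * h.p2_zN + (1 / 4) * h.p3_eS2 + (1 / 3) * h.p3_eW1
      + (9 / 4) * h.p4_eS2 + (4 / 5) * h.p4_hN + (7 / 3) * h.p4_k3S + (5 / 24) * h.p4_p3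
      + 3 * h.t2S_eS2 + (7 / 3) * h.t2S_k3S + (23 / 27) * h.zN_eN1 + (12 / 13) * h.zN_hN
      + (1 / 9) * h.zN_k2N + (5 / 2) * h.t2N_k2N + (29 / 6) * h.wzN + (5 / 2) * h.wt2N
      + (5 / 2) * h.wLt2S + (8 / 3) * h.wBt2S + (8 / 3) * h.wk2N + (8 / 3) * h.wk2W
      + (20 / 3) * h.wk3W + (20 / 3) * h.wk3S + (8 / 3) * h.wBt2E + (15 / 2) * h.est
      + (8 / 3) * h.face
      + (3200221 / 14040) * hE
  · linear_combination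
      (88 / 9) * h.k2N_eN1 + (4 / 3) * h.k2W_k3W + 4 * h.k3S_eS2 + (22 / 9) * h.p2_eN1
      + (32 / 65) * h.p2_hN + (4 / 3) * h.p2_k3W + (21 / 20) * h.p2_p4 + h.p3_eS2
      + (4 / 3) * h.p3_k2W + 3 * h.p4_eS2 + (8 / 5) * h.p4_hN + (2 / 3) * h.p4_k3S
      + (7 / 6) * h.p4_p3 + 6 * h.t2S_eS2 + (2 / 3) * h.t2S_k3S + (22 / 27) * h.zN_eN1
      + (24 / 13) * h.zN_hN + (8 / 9) * h.zN_k2N + 2 * h.t2N_k2N + (199 / 234) * h.p2_z3W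
      + (199 / 234) * h.p4_z3S + (199 / 234) * h.wz3W + (199 / 234) * h.wz3S + (353 / 117) * h.wzN
      + 2 * h.wt2N + 2 * h.wLt2S + (10 / 3) * h.wBt2S + (10 / 3) * h.wk2N + (10 / 3) * h.wk2W
      + (10 / 3) * h.wk3W + (10 / 3) * h.wk3S + (10 / 3) * h.wBt2E + (743 / 117) * h.est
      + (10 / 3) * h.face
      + (1674151 / 7020) * hE

theorem l3_t2Sy (h : Rows3 E e) (hE : 0 ≤ E) : |e.t2Sy| ≤ 320 * E := by
  refine abs_le.2 ⟨?_, ?_⟩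
  · linear_combination
      (172 / 9) * h.k2N_eN1 + (7 / 3) * h.k2W_k3W + 3 * h.k3S_eS2 + (43 / 9) * h.p2_eN1
      + (48 / 65) * h.p2_hN + (7 / 3) * h.p2_k3W + (83 / 40) * h.p2_p4 + (7 / 4) * h.p3_eS2
      + (7 / 3) * h.p3_k2W + (13 / 4) * h.p4_eS2 + (12 / 5) * h.p4_hN + (13 / 6) * h.p4_k3S
      + (49 / 24) * h.p4_p3 + (17 / 2) * h.t2S_eS2 + (13 / 6) * h.t2S_k3S + (43 / 27) * h.zN_eN1
      + (36 / 13) * h.zN_hN + (19 / 18) * h.zN_k2N + (17 / 4) * h.t2N_k2N + (935 / 468) * h.p2_z3W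
      + (935 / 468) * h.p4_z3S + (935 / 468) * h.wz3W + (935 / 468) * h.wz3S
      + (2183 / 468) * h.wzN + (17 / 4) * h.wt2N + (17 / 4) * h.wLt2S + (19 / 3) * h.wBt2S
      + (35 / 6) * h.wk2N + (35 / 6) * h.wk2W + (35 / 6) * h.wk3W + (35 / 6) * h.wk3S
      + (19 / 3) * h.wBt2E + (5147 / 468) * h.est + (19 / 3) * h.face
      + (620807 / 3510) * hE
  · linear_combination
      (143 / 9) * h.k2N_eN1 + (28 / 3) * h.k2W_eW1 + (14 / 3) * h.k2W_k3W + 11 * h.k3S_eS2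
      + (143 / 36) * h.p2_eN1 + (7 / 4) * h.p2_eW1 + (36 / 65) * h.p2_hN + (14 / 3) * h.p2_k3W
      + (247 / 80) * h.p2_p4 + (2825 / 936) * h.p2_zN + (7 / 16) * h.p3_eS2 + (7 / 12) * h.p3_eW1
      + (95 / 16) * h.p4_eS2 + (9 / 5) * h.p4_hN + (37 / 12) * h.p4_k3S + (35 / 96) * h.p4_p3
      + (29 / 4) * h.t2S_eS2 + (37 / 12) * h.t2S_k3S + (143 / 108) * h.zN_eN1
      + (27 / 13) * h.zN_hN + (25 / 36) * h.zN_k2N + (29 / 8) * h.t2N_k2N + (115 / 12) * h.wzN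
      + (29 / 8) * h.wt2N + (29 / 8) * h.wLt2S + (25 / 6) * h.wBt2S + (14 / 3) * h.wk2N
      + (14 / 3) * h.wk2W + (35 / 3) * h.wk3W + (35 / 3) * h.wk3S + (25 / 6) * h.wBt2E
      + (55 / 4) * h.est + (25 / 6) * h.face
      + (8763919 / 56160) * hE

theorem l3_k2Nx (h : Rows3 E e) (hE : 0 ≤ E) : |e.k2Nx| ≤ 320 * E := by
  refine abs_le.2 ⟨?_, ?_⟩
  · linear_combination
      (92 / 9) * h.k2N_eN1 + (16 / 3) * h.k2W_eW1 + (8 / 3) * h.k2W_k3W + 4 * h.k3S_eS2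
      + (23 / 9) * h.p2_eN1 + h.p2_eW1 + (16 / 65) * h.p2_hN + (8 / 3) * h.p2_k3W
      + (19 / 10) * h.p2_p4 + (739 / 468) * h.p2_zN + (1 / 4) * h.p3_eS2 + (1 / 3) * h.p3_eW1
      + (9 / 4) * h.p4_eS2 + (4 / 5) * h.p4_hN + (7 / 3) * h.p4_k3S + (5 / 24) * h.p4_p3
      + 3 * h.t2S_eS2 + (7 / 3) * h.t2S_k3S + (23 / 27) * h.zN_eN1 + (12 / 13) * h.zN_hN
      + (1 / 9) * h.zN_k2N + (3 / 2) * h.t2N_k2N + (29 / 6) * h.wzN + (3 / 2) * h.wt2N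
      + (3 / 2) * h.wLt2S + (8 / 3) * h.wBt2S + (8 / 3) * h.wk2N + (8 / 3) * h.wk2W
      + (20 / 3) * h.wk3W + (20 / 3) * h.wk3S + (8 / 3) * h.wBt2E + (15 / 2) * h.est
      + (8 / 3) * h.face
      + (3242341 / 14040) * hE
  · linear_combination
      (88 / 9) * h.k2N_eN1 + (4 / 3) * h.k2W_k3W + 4 * h.k3S_eS2 + (22 / 9) * h.p2_eN1
      + (32 / 65) * h.p2_hN + (4 / 3) * h.p2_k3W + (21 / 20) * h.p2_p4 + h.p3_eS2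
      + (4 / 3) * h.p3_k2W + 3 * h.p4_eS2 + (8 / 5) * h.p4_hN + (2 / 3) * h.p4_k3S
      + (7 / 6) * h.p4_p3 + 6 * h.t2S_eS2 + (2 / 3) * h.t2S_k3S + (22 / 27) * h.zN_eN1
      + (24 / 13) * h.zN_hN + (8 / 9) * h.zN_k2N + 3 * h.t2N_k2N + (199 / 234) * h.p2_z3W
      + (199 / 234) * h.p4_z3S + (199 / 234) * h.wz3W + (199 / 234) * h.wz3S + (353 / 117) * h.wzN
      + 3 * h.wt2N + 3 * h.wLt2S + (10 / 3) * h.wBt2S + (10 / 3) * h.wk2N + (10 / 3) * h.wk2W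
      + (10 / 3) * h.wk3W + (10 / 3) * h.wk3S + (10 / 3) * h.wBt2E + (743 / 117) * h.est
      + (10 / 3) * h.face
      + (1653091 / 7020) * hE

theorem l3_k2Ny (h : Rows3 E e) (hE : 0 ≤ E) : |e.k2Ny| ≤ 320 * E := by
  refine abs_le.2 ⟨?_, ?_⟩
  · linear_combination
      (70 / 9) * h.k2N_eN1 + (8 / 3) * h.k2W_eW1 + (4 / 3) * h.k2W_k3W + 6 * h.k3S_eS2
      + (35 / 18) * h.p2_eN1 + (1 / 2) * h.p2_eW1 + (56 / 195) * h.p2_hN + (4 / 3) * h.p2_k3W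
      + (17 / 15) * h.p2_p4 + (277 / 936) * h.p2_zN + (1 / 8) * h.p3_eS2 + (1 / 6) * h.p3_eW1
      + (25 / 8) * h.p4_eS2 + (14 / 15) * h.p4_hN + (1 / 6) * h.p4_k3S + (5 / 48) * h.p4_p3
      + (7 / 2) * h.t2S_eS2 + (1 / 6) * h.t2S_k3S + (35 / 54) * h.zN_eN1 + (14 / 13) * h.zN_hN
      + (7 / 18) * h.zN_k2N + (7 / 4) * h.t2N_k2N + (29 / 12) * h.wzN + (7 / 4) * h.wt2N
      + (7 / 4) * h.wLt2S + (11 / 6) * h.wBt2S + (4 / 3) * h.wk2N + (4 / 3) * h.wk2W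
      + (10 / 3) * h.wk3W + (10 / 3) * h.wk3S + (11 / 6) * h.wBt2E + (17 / 4) * h.est
      + (11 / 6) * h.face
      + (7288909 / 28080) * hE
  · linear_combination
      (65 / 9) * h.k2N_eN1 + (4 / 3) * h.k2W_eW1 + (5 / 3) * h.k2W_k3W + (65 / 36) * h.p2_eN1
      + (1 / 4) * h.p2_eW1 + (4 / 15) * h.p2_hN + (5 / 3) * h.p2_k3W + (259 / 240) * h.p2_p4
      + (41 / 72) * h.p2_zN + (13 / 16) * h.p3_eS2 + (1 / 12) * h.p3_eW1 + h.p3_k2W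
      + (13 / 16) * h.p4_eS2 + (13 / 15) * h.p4_hN + (25 / 12) * h.p4_k3S + (89 / 96) * h.p4_p3
      + (13 / 4) * h.t2S_eS2 + (25 / 12) * h.t2S_k3S + (65 / 108) * h.zN_eN1 + h.zN_hN
      + (13 / 36) * h.zN_k2N + (13 / 8) * h.t2N_k2N + (17 / 6) * h.wzN + (13 / 8) * h.wt2N
      + (13 / 8) * h.wLt2S + (8 / 3) * h.wBt2S + (19 / 6) * h.wk2N + (19 / 6) * h.wk2W
      + (25 / 6) * h.wk3W + (25 / 6) * h.wk3S + (8 / 3) * h.wBt2E + (11 / 2) * h.est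
      + (8 / 3) * h.face
      + (1098937 / 4320) * hE

theorem l3_k2Wx (h : Rows3 E e) (hE : 0 ≤ E) : |e.k2Wx| ≤ 320 * E := by
  refine abs_le.2 ⟨?_, ?_⟩
  · linear_combination
      (56 / 3) * h.k2N_eN1 + 4 * h.k2W_k3W + 4 * h.k3S_eS2 + (14 / 3) * h.p2_eN1
      + (32 / 39) * h.p2_hN + 4 * h.p2_k3W + (29 / 12) * h.p2_p4 + (109 / 156) * h.p2_zN
      + (3 / 2) * h.p3_eS2 + 2 * h.p3_k2W + (7 / 2) * h.p4_eS2 + (8 / 3) * h.p4_hN + 4 * h.p4_k3S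
      + (7 / 4) * h.p4_p3 + 8 * h.t2S_eS2 + 4 * h.t2S_k3S + (14 / 9) * h.zN_eN1
      + (40 / 13) * h.zN_hN + (4 / 3) * h.zN_k2N + 4 * h.t2N_k2N + (13 / 2) * h.wzN + 4 * h.wt2N
      + 4 * h.wLt2S + 6 * h.wBt2S + 6 * h.wk2N + 6 * h.wk2W + 10 * h.wk3W + 10 * h.wk3S
      + 6 * h.wBt2E + (25 / 2) * h.est + 6 * h.face
      + (77851 / 468) * hE
  · linear_combination
      (34 / 3) * h.k2N_eN1 + 8 * h.k2W_eW1 + 2 * h.k2W_k3W + 8 * h.k3S_eS2 + (17 / 6) * h.p2_eN1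
      + (3 / 2) * h.p2_eW1 + (56 / 195) * h.p2_hN + 2 * h.p2_k3W + (241 / 120) * h.p2_p4
      + (161 / 156) * h.p2_zN + (3 / 8) * h.p3_eS2 + (1 / 2) * h.p3_eW1 + (35 / 8) * h.p4_eS2
      + (14 / 15) * h.p4_hN + (1 / 2) * h.p4_k3S + (5 / 16) * h.p4_p3 + (11 / 2) * h.t2S_eS2
      + (1 / 2) * h.t2S_k3S + (17 / 18) * h.zN_eN1 + (14 / 13) * h.zN_hN + (1 / 6) * h.zN_k2N
      + (11 / 4) * h.t2N_k2N + 4 * h.wzN + (11 / 4) * h.wt2N + (11 / 4) * h.wLt2S + 3 * h.wBt2S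
      + 3 * h.wk2N + 3 * h.wk2W + 5 * h.wk3W + 5 * h.wk3S + 3 * h.wBt2E + 7 * h.est + 3 * h.face
      + (2073913 / 9360) * hE

theorem l3_k2Wy (h : Rows3 E e) (hE : 0 ≤ E) : |e.k2Wy| ≤ 320 * E := by
  refine abs_le.2 ⟨?_, ?_⟩
  · linear_combination
      (65 / 9) * h.k2N_eN1 + (4 / 3) * h.k2W_eW1 + (5 / 3) * h.k2W_k3W + (65 / 36) * h.p2_eN1
      + (1 / 4) * h.p2_eW1 + (4 / 15) * h.p2_hN + (5 / 3) * h.p2_k3W + (259 / 240) * h.p2_p4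
      + (41 / 72) * h.p2_zN + (13 / 16) * h.p3_eS2 + (1 / 12) * h.p3_eW1 + h.p3_k2W
      + (13 / 16) * h.p4_eS2 + (13 / 15) * h.p4_hN + (25 / 12) * h.p4_k3S + (89 / 96) * h.p4_p3
      + (13 / 4) * h.t2S_eS2 + (25 / 12) * h.t2S_k3S + (65 / 108) * h.zN_eN1 + h.zN_hN
      + (13 / 36) * h.zN_k2N + (13 / 8) * h.t2N_k2N + (17 / 6) * h.wzN + (13 / 8) * h.wt2N
      + (13 / 8) * h.wLt2S + (8 / 3) * h.wBt2S + (13 / 6) * h.wk2N + (13 / 6) * h.wk2W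
      + (25 / 6) * h.wk3W + (25 / 6) * h.wk3S + (8 / 3) * h.wBt2E + (11 / 2) * h.est
      + (8 / 3) * h.face
      + (1107577 / 4320) * hE
  · linear_combination
      (70 / 9) * h.k2N_eN1 + (8 / 3) * h.k2W_eW1 + (4 / 3) * h.k2W_k3W + 6 * h.k3S_eS2
      + (35 / 18) * h.p2_eN1 + (1 / 2) * h.p2_eW1 + (56 / 195) * h.p2_hN + (4 / 3) * h.p2_k3W
      + (17 / 15) * h.p2_p4 + (277 / 936) * h.p2_zN + (1 / 8) * h.p3_eS2 + (1 / 6) * h.p3_eW1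
      + (25 / 8) * h.p4_eS2 + (14 / 15) * h.p4_hN + (1 / 6) * h.p4_k3S + (5 / 48) * h.p4_p3
      + (7 / 2) * h.t2S_eS2 + (1 / 6) * h.t2S_k3S + (35 / 54) * h.zN_eN1 + (14 / 13) * h.zN_hN
      + (7 / 18) * h.zN_k2N + (7 / 4) * h.t2N_k2N + (29 / 12) * h.wzN + (7 / 4) * h.wt2N
      + (7 / 4) * h.wLt2S + (11 / 6) * h.wBt2S + (7 / 3) * h.wk2N + (7 / 3) * h.wk2W
      + (10 / 3) * h.wk3W + (10 / 3) * h.wk3S + (11 / 6) * h.wBt2E + (17 / 4) * h.est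
      + (11 / 6) * h.face
      + (7232749 / 28080) * hE

theorem l3_k3Wx (h : Rows3 E e) (hE : 0 ≤ E) : |e.k3Wx| ≤ 320 * E := by
  refine abs_le.2 ⟨?_, ?_⟩
  · linear_combination
      (77 / 18) * h.k2N_eN1 + (2 / 3) * h.k2W_eW1 + (5 / 6) * h.k2W_k3W + (77 / 72) * h.p2_eN1
      + (1 / 8) * h.p2_eW1 + (10 / 39) * h.p2_hN + (5 / 6) * h.p2_k3W + (53 / 96) * h.p2_p4
      + (115 / 936) * h.p2_zN + (13 / 32) * h.p3_eS2 + (1 / 24) * h.p3_eW1 + (1 / 2) * h.p3_k2W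
      + (13 / 32) * h.p4_eS2 + (5 / 6) * h.p4_hN + (37 / 24) * h.p4_k3S + (89 / 192) * h.p4_p3
      + (13 / 8) * h.t2S_eS2 + (37 / 24) * h.t2S_k3S + (77 / 216) * h.zN_eN1 + (25 / 26) * h.zN_hN
      + (37 / 72) * h.zN_k2N + (13 / 16) * h.t2N_k2N + (43 / 24) * h.wzN + (13 / 16) * h.wt2N
      + (13 / 16) * h.wLt2S + (19 / 12) * h.wBt2S + (19 / 12) * h.wk2N + (19 / 12) * h.wk2W
      + (37 / 12) * h.wk3W + (37 / 12) * h.wk3S + (19 / 12) * h.wBt2E + (27 / 8) * h.est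
      + (19 / 12) * h.face
      + (6298553 / 22464) * hE
  · linear_combination
      6 * h.k2N_eN1 + (56 / 27) * h.k2W_eW1 + (11 / 9) * h.k2W_k3W + (37 / 9) * h.k3S_eS2
      + (3 / 2) * h.p2_eN1 + (7 / 18) * h.p2_eW1 + (8 / 65) * h.p2_hN + (11 / 9) * h.p2_k3W
      + (347 / 360) * h.p2_p4 + (55 / 117) * h.p2_zN + (17 / 72) * h.p3_eS2 + (7 / 54) * h.p3_eW1
      + (5 / 27) * h.p3_k2W + (55 / 24) * h.p4_eS2 + (2 / 5) * h.p4_hN + (35 / 144) * h.p4_p3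
      + 3 * h.t2S_eS2 + (1 / 2) * h.zN_eN1 + (6 / 13) * h.zN_hN + (3 / 2) * h.t2N_k2N
      + (65 / 36) * h.wzN + (3 / 2) * h.wt2N + (3 / 2) * h.wLt2S + (3 / 2) * h.wBt2S
      + (3 / 2) * h.wk2N + (3 / 2) * h.wk2W + (37 / 18) * h.wk3W + (37 / 18) * h.wk3S
      + (3 / 2) * h.wBt2E + (119 / 36) * h.est + (3 / 2) * h.face
      + (2557667 / 9360) * hE

theorem l3_k3Wy (h : Rows3 E e) (hE : 0 ≤ E) : |e.k3Wy| ≤ 320 * E := by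
  refine abs_le.2 ⟨?_, ?_⟩
  · linear_combination
      (172 / 9) * h.k2N_eN1 + (7 / 3) * h.k2W_k3W + 3 * h.k3S_eS2 + (43 / 9) * h.p2_eN1
      + (48 / 65) * h.p2_hN + (13 / 3) * h.p2_k3W + (103 / 40) * h.p2_p4 + (937 / 936) * h.p2_zN
      + (7 / 4) * h.p3_eS2 + (7 / 3) * h.p3_k2W + (13 / 4) * h.p4_eS2 + (12 / 5) * h.p4_hN
      + (25 / 6) * h.p4_k3S + (49 / 24) * h.p4_p3 + (17 / 2) * h.t2S_eS2 + (25 / 6) * h.t2S_k3S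
      + (43 / 27) * h.zN_eN1 + (36 / 13) * h.zN_hN + (19 / 18) * h.zN_k2N + (17 / 4) * h.t2N_k2N
      + (20 / 3) * h.wzN + (17 / 4) * h.wt2N + (17 / 4) * h.wLt2S + (19 / 3) * h.wBt2S
      + (35 / 6) * h.wk2N + (35 / 6) * h.wk2W + (59 / 6) * h.wk3W + (59 / 6) * h.wk3S
      + (19 / 3) * h.wBt2E + 13 * h.est + (19 / 3) * h.face
      + (2321573 / 14040) * hE
  · linear_combination
      (143 / 9) * h.k2N_eN1 + (28 / 3) * h.k2W_eW1 + (14 / 3) * h.k2W_k3W + 11 * h.k3S_eS2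
      + (143 / 36) * h.p2_eN1 + (7 / 4) * h.p2_eW1 + (36 / 65) * h.p2_hN + (8 / 3) * h.p2_k3W
      + (207 / 80) * h.p2_p4 + (953 / 936) * h.p2_zN + (7 / 16) * h.p3_eS2 + (7 / 12) * h.p3_eW1
      + (95 / 16) * h.p4_eS2 + (9 / 5) * h.p4_hN + (13 / 12) * h.p4_k3S + (35 / 96) * h.p4_p3
      + (29 / 4) * h.t2S_eS2 + (13 / 12) * h.t2S_k3S + (143 / 108) * h.zN_eN1
      + (27 / 13) * h.zN_hN + (25 / 36) * h.zN_k2N + (29 / 8) * h.t2N_k2N + (67 / 12) * h.wzN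
      + (29 / 8) * h.wt2N + (29 / 8) * h.wLt2S + (25 / 6) * h.wBt2S + (14 / 3) * h.wk2N
      + (14 / 3) * h.wk2W + (23 / 3) * h.wk3W + (23 / 3) * h.wk3S + (25 / 6) * h.wBt2E
      + (39 / 4) * h.est + (25 / 6) * h.face
      + (10139839 / 56160) * hE

theorem l3_k3Sx (h : Rows3 E e) (hE : 0 ≤ E) : |e.k3Sx| ≤ 320 * E := by
  refine abs_le.2 ⟨?_, ?_⟩
  · linear_combination
      6 * h.k2N_eN1 + (56 / 27) * h.k2W_eW1 + (11 / 9) * h.k2W_k3W + (37 / 9) * h.k3S_eS2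
      + (3 / 2) * h.p2_eN1 + (7 / 18) * h.p2_eW1 + (8 / 65) * h.p2_hN + (11 / 9) * h.p2_k3W
      + (347 / 360) * h.p2_p4 + (55 / 117) * h.p2_zN + (17 / 72) * h.p3_eS2 + (7 / 54) * h.p3_eW1
      + (5 / 27) * h.p3_k2W + (55 / 24) * h.p4_eS2 + (2 / 5) * h.p4_hN + (35 / 144) * h.p4_p3
      + 3 * h.t2S_eS2 + (1 / 2) * h.zN_eN1 + (6 / 13) * h.zN_hN + (3 / 2) * h.t2N_k2N
      + (65 / 36) * h.wzN + (3 / 2) * h.wt2N + (3 / 2) * h.wLt2S + (3 / 2) * h.wBt2S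
      + (3 / 2) * h.wk2N + (3 / 2) * h.wk2W + (55 / 18) * h.wk3W + (55 / 18) * h.wk3S
      + (3 / 2) * h.wBt2E + (119 / 36) * h.est + (3 / 2) * h.face
      + (2538947 / 9360) * hE
  · linear_combination
      (77 / 18) * h.k2N_eN1 + (2 / 3) * h.k2W_eW1 + (5 / 6) * h.k2W_k3W + (77 / 72) * h.p2_eN1
      + (1 / 8) * h.p2_eW1 + (10 / 39) * h.p2_hN + (5 / 6) * h.p2_k3W + (53 / 96) * h.p2_p4
      + (115 / 936) * h.p2_zN + (13 / 32) * h.p3_eS2 + (1 / 24) * h.p3_eW1 + (1 / 2) * h.p3_k2W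
      + (13 / 32) * h.p4_eS2 + (5 / 6) * h.p4_hN + (37 / 24) * h.p4_k3S + (89 / 192) * h.p4_p3
      + (13 / 8) * h.t2S_eS2 + (37 / 24) * h.t2S_k3S + (77 / 216) * h.zN_eN1 + (25 / 26) * h.zN_hN
      + (37 / 72) * h.zN_k2N + (13 / 16) * h.t2N_k2N + (43 / 24) * h.wzN + (13 / 16) * h.wt2N
      + (13 / 16) * h.wLt2S + (19 / 12) * h.wBt2S + (19 / 12) * h.wk2N + (19 / 12) * h.wk2W
      + (25 / 12) * h.wk3W + (25 / 12) * h.wk3S + (19 / 12) * h.wBt2E + (27 / 8) * h.est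
      + (19 / 12) * h.face
      + (6343481 / 22464) * hE

theorem l3_k3Sy (h : Rows3 E e) (hE : 0 ≤ E) : |e.k3Sy| ≤ 320 * E := by
  refine abs_le.2 ⟨?_, ?_⟩
  · linear_combination
      (172 / 9) * h.k2N_eN1 + (7 / 3) * h.k2W_k3W + 3 * h.k3S_eS2 + (43 / 9) * h.p2_eN1
      + (48 / 65) * h.p2_hN + (7 / 3) * h.p2_k3W + (83 / 40) * h.p2_p4 + (7 / 4) * h.p3_eS2
      + (7 / 3) * h.p3_k2W + (13 / 4) * h.p4_eS2 + (12 / 5) * h.p4_hN + (13 / 6) * h.p4_k3S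
      + (49 / 24) * h.p4_p3 + (17 / 2) * h.t2S_eS2 + (25 / 6) * h.t2S_k3S + (43 / 27) * h.zN_eN1
      + (36 / 13) * h.zN_hN + (19 / 18) * h.zN_k2N + (17 / 4) * h.t2N_k2N + (935 / 468) * h.p2_z3W
      + (935 / 468) * h.p4_z3S + (935 / 468) * h.wz3W + (935 / 468) * h.wz3S
      + (2183 / 468) * h.wzN + (17 / 4) * h.wt2N + (17 / 4) * h.wLt2S + (19 / 3) * h.wBt2S
      + (35 / 6) * h.wk2N + (35 / 6) * h.wk2W + (35 / 6) * h.wk3W + (35 / 6) * h.wk3S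
      + (19 / 3) * h.wBt2E + (5147 / 468) * h.est + (19 / 3) * h.face
      + (613787 / 3510) * hE
  · linear_combination
      (143 / 9) * h.k2N_eN1 + (28 / 3) * h.k2W_eW1 + (14 / 3) * h.k2W_k3W + 11 * h.k3S_eS2
      + (143 / 36) * h.p2_eN1 + (7 / 4) * h.p2_eW1 + (36 / 65) * h.p2_hN + (14 / 3) * h.p2_k3W
      + (247 / 80) * h.p2_p4 + (2825 / 936) * h.p2_zN + (7 / 16) * h.p3_eS2 + (7 / 12) * h.p3_eW1
      + (95 / 16) * h.p4_eS2 + (9 / 5) * h.p4_hN + (37 / 12) * h.p4_k3S + (35 / 96) * h.p4_p3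
      + (29 / 4) * h.t2S_eS2 + (13 / 12) * h.t2S_k3S + (143 / 108) * h.zN_eN1
      + (27 / 13) * h.zN_hN + (25 / 36) * h.zN_k2N + (29 / 8) * h.t2N_k2N + (115 / 12) * h.wzN
      + (29 / 8) * h.wt2N + (29 / 8) * h.wLt2S + (25 / 6) * h.wBt2S + (14 / 3) * h.wk2N
      + (14 / 3) * h.wk2W + (35 / 3) * h.wk3W + (35 / 3) * h.wk3S + (25 / 6) * h.wBt2E
      + (55 / 4) * h.est + (25 / 6) * h.face
      + (8876239 / 56160) * hE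

theorem l3_eN1x (h : Rows3 E e) (hE : 0 ≤ E) : |e.eN1x| ≤ 320 * E := by
  refine abs_le.2 ⟨?_, ?_⟩
  · linear_combination
      (119 / 18) * h.k2N_eN1 + (14 / 3) * h.k2W_eW1 + (7 / 3) * h.k2W_k3W + (7 / 2) * h.k3S_eS2
      + (155 / 72) * h.p2_eN1 + (7 / 8) * h.p2_eW1 + (46 / 195) * h.p2_hN + (7 / 3) * h.p2_k3W
      + (779 / 480) * h.p2_p4 + (1333 / 936) * h.p2_zN + (7 / 32) * h.p3_eS2 + (7 / 24) * h.p3_eW1
      + (63 / 32) * h.p4_eS2 + (23 / 30) * h.p4_hN + (49 / 24) * h.p4_k3S + (35 / 192) * h.p4_p3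
      + (21 / 8) * h.t2S_eS2 + (49 / 24) * h.t2S_k3S + (11 / 216) * h.zN_eN1 + (23 / 26) * h.zN_hN
      + (49 / 72) * h.zN_k2N + (21 / 16) * h.t2N_k2N + (25 / 6) * h.wzN + (21 / 16) * h.wt2N
      + (21 / 16) * h.wLt2S + (7 / 3) * h.wBt2S + (7 / 3) * h.wk2N + (7 / 3) * h.wk2W
      + (35 / 6) * h.wk3W + (35 / 6) * h.wk3S + (7 / 3) * h.wBt2E + (13 / 2) * h.est
      + (7 / 3) * h.face
      + (27468391 / 112320) * hE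
  · linear_combination
      (98 / 9) * h.k2N_eN1 + (7 / 6) * h.k2W_k3W + (7 / 2) * h.k3S_eS2 + (20 / 9) * h.p2_eN1
      + (16 / 39) * h.p2_hN + (7 / 6) * h.p2_k3W + (23 / 24) * h.p2_p4 + (7 / 8) * h.p3_eS2
      + (7 / 6) * h.p3_k2W + (21 / 8) * h.p4_eS2 + (4 / 3) * h.p4_hN + (7 / 12) * h.p4_k3S
      + (49 / 48) * h.p4_p3 + (21 / 4) * h.t2S_eS2 + (7 / 12) * h.t2S_k3S + (38 / 27) * h.zN_eN1
      + (20 / 13) * h.zN_hN + (7 / 36) * h.zN_k2N + (21 / 8) * h.t2N_k2N + (97 / 117) * h.p2_z3W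
      + (97 / 117) * h.p4_z3S + (97 / 117) * h.wz3W + (97 / 117) * h.wz3S + (2609 / 936) * h.wzN
      + (21 / 8) * h.wt2N + (21 / 8) * h.wLt2S + (35 / 12) * h.wBt2S + (35 / 12) * h.wk2N
      + (35 / 12) * h.wk2W + (35 / 12) * h.wk3W + (35 / 12) * h.wk3S + (35 / 12) * h.wBt2E
      + (5339 / 936) * h.est + (35 / 12) * h.face
      + (1364743 / 5616) * hE

theorem l3_eN1y (h : Rows3 E e) (hE : 0 ≤ E) : |e.eN1y| ≤ 320 * E := by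
  refine abs_le.2 ⟨?_, ?_⟩
  · linear_combination
      11 * h.k2N_eN1 + (116 / 27) * h.k2W_eW1 + (43 / 18) * h.k2W_k3W + (143 / 18) * h.k3S_eS2
      + (13 / 4) * h.p2_eN1 + (29 / 36) * h.p2_eW1 + (28 / 65) * h.p2_hN + (43 / 18) * h.p2_k3W
      + (1399 / 720) * h.p2_p4 + (617 / 936) * h.p2_zN + (55 / 144) * h.p3_eS2
      + (29 / 108) * h.p3_eW1 + (13 / 54) * h.p3_k2W + (209 / 48) * h.p4_eS2 + (7 / 5) * h.p4_hN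
      + h.p4_k3S + (109 / 288) * h.p4_p3 + (11 / 2) * h.t2S_eS2 + h.t2S_k3S + (7 / 4) * h.zN_eN1
      + (21 / 13) * h.zN_hN + (11 / 4) * h.t2N_k2N + (313 / 72) * h.wzN + (11 / 4) * h.wt2N
      + (11 / 4) * h.wLt2S + (13 / 4) * h.wBt2S + (11 / 4) * h.wk2N + (11 / 4) * h.wk2W
      + (215 / 36) * h.wk3W + (215 / 36) * h.wk3S + (13 / 4) * h.wBt2E + (547 / 72) * h.est
      + (13 / 4) * h.face
      + (4111189 / 18720) * hE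
  · linear_combination
      10 * h.k2N_eN1 + (176 / 135) * h.k2W_eW1 + (163 / 90) * h.k2W_k3W + (41 / 90) * h.k3S_eS2
      + 2 * h.p2_eN1 + (11 / 45) * h.p2_eW1 + (112 / 325) * h.p2_hN + (163 / 90) * h.p2_k3W
      + (1039 / 900) * h.p2_p4 + (517 / 936) * h.p2_zN + (67 / 72) * h.p3_eS2
      + (11 / 135) * h.p3_eW1 + (313 / 270) * h.p3_k2W + (139 / 120) * h.p4_eS2
      + (28 / 25) * h.p4_hN + (43 / 20) * h.p4_k3S + (767 / 720) * h.p4_p3 + (79 / 20) * h.t2S_eS2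
      + (43 / 20) * h.t2S_k3S + (84 / 65) * h.zN_hN + (21 / 20) * h.zN_k2N + (79 / 40) * h.t2N_k2N
      + (1081 / 360) * h.wzN + (79 / 40) * h.wt2N + (79 / 40) * h.wLt2S + (61 / 20) * h.wBt2S
      + (71 / 20) * h.wk2N + (71 / 20) * h.wk2W + (163 / 36) * h.wk3W + (163 / 36) * h.wk3S
      + (61 / 20) * h.wBt2E + (2179 / 360) * h.est + (61 / 20) * h.face
      + (11415893 / 46800) * hE

theorem l3_eW1x (h : Rows3 E e) (hE : 0 ≤ E) : |e.eW1x| ≤ 320 * E := by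
  refine abs_le.2 ⟨?_, ?_⟩
  · linear_combination
      (172 / 9) * h.k2N_eN1 + (14 / 3) * h.k2W_eW1 + (23 / 6) * h.k2W_k3W + (7 / 2) * h.k3S_eS2
      + (43 / 9) * h.p2_eN1 + (32 / 39) * h.p2_hN + (23 / 6) * h.p2_k3W + (29 / 12) * h.p2_p4
      + (433 / 936) * h.p2_zN + (13 / 8) * h.p3_eS2 + (2 / 3) * h.p3_eW1 + (3 / 2) * h.p3_k2W
      + (27 / 8) * h.p4_eS2 + (8 / 3) * h.p4_hN + (47 / 12) * h.p4_k3S + (83 / 48) * h.p4_p3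
      + (33 / 4) * h.t2S_eS2 + (47 / 12) * h.t2S_k3S + (43 / 27) * h.zN_eN1 + (40 / 13) * h.zN_hN
      + (47 / 36) * h.zN_k2N + (33 / 8) * h.t2N_k2N + (145 / 24) * h.wzN + (33 / 8) * h.wt2N
      + (33 / 8) * h.wLt2S + (73 / 12) * h.wBt2S + (73 / 12) * h.wk2N + (73 / 12) * h.wk2W
      + (115 / 12) * h.wk3W + (115 / 12) * h.wk3S + (73 / 12) * h.wBt2E + (97 / 8) * h.est
      + (73 / 12) * h.face
      + (914465 / 5616) * hE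
  · linear_combination
      (188 / 9) * h.k2N_eN1 + 6 * h.k2W_eW1 + (25 / 6) * h.k2W_k3W + (25 / 2) * h.k3S_eS2
      + (47 / 9) * h.p2_eN1 + 2 * h.p2_eW1 + (128 / 195) * h.p2_hN + (25 / 6) * h.p2_k3W
      + (209 / 60) * h.p2_p4 + (1727 / 936) * h.p2_zN + (7 / 8) * h.p3_eS2 + (7 / 6) * h.p3_k2W
      + (57 / 8) * h.p4_eS2 + (32 / 15) * h.p4_hN + (25 / 12) * h.p4_k3S + (49 / 48) * h.p4_p3
      + (39 / 4) * h.t2S_eS2 + (25 / 12) * h.t2S_k3S + (47 / 27) * h.zN_eN1 + (32 / 13) * h.zN_hN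
      + (25 / 36) * h.zN_k2N + (39 / 8) * h.t2N_k2N + (191 / 24) * h.wzN + (39 / 8) * h.wt2N
      + (39 / 8) * h.wLt2S + (71 / 12) * h.wBt2S + (71 / 12) * h.wk2N + (71 / 12) * h.wk2W
      + (125 / 12) * h.wk3W + (125 / 12) * h.wk3S + (71 / 12) * h.wBt2E + (111 / 8) * h.est
      + (71 / 12) * h.face
      + (3961007 / 28080) * hE

theorem l3_eW1y (h : Rows3 E e) (hE : 0 ≤ E) : |e.eW1y| ≤ 320 * E := by
  refine abs_le.2 ⟨?_, ?_⟩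
  · linear_combination
      (107 / 12) * h.k2N_eN1 + (7 / 3) * h.k2W_eW1 + (7 / 4) * h.k2W_k3W + (107 / 48) * h.p2_eN1
      + (5 / 16) * h.p2_eW1 + (61 / 195) * h.p2_hN + (7 / 4) * h.p2_k3W + (1213 / 960) * h.p2_p4
      + (253 / 624) * h.p2_zN + (65 / 64) * h.p3_eS2 + (37 / 48) * h.p3_eW1 + (7 / 12) * h.p3_k2W
      + (65 / 64) * h.p4_eS2 + (61 / 60) * h.p4_hN + (35 / 16) * h.p4_k3S + (127 / 128) * h.p4_p3
      + (65 / 16) * h.t2S_eS2 + (35 / 16) * h.t2S_k3S + (107 / 144) * h.zN_eN1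
      + (61 / 52) * h.zN_hN + (19 / 48) * h.zN_k2N + (65 / 32) * h.t2N_k2N + (45 / 16) * h.wzN
      + (65 / 32) * h.wt2N + (65 / 32) * h.wLt2S + (25 / 8) * h.wBt2S + (21 / 8) * h.wk2N
      + (21 / 8) * h.wk2W + (35 / 8) * h.wk3W + (35 / 8) * h.wk3S + (25 / 8) * h.wBt2E
      + (95 / 16) * h.est + (25 / 8) * h.face
      + (18447739 / 74880) * hE
  · linear_combination
      (112 / 3) * h.k2N_eN1 + 10 * h.k2W_eW1 + (15 / 2) * h.k2W_k3W + (37 / 2) * h.k3S_eS2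
      + (28 / 3) * h.p2_eN1 + 2 * h.p2_eW1 + (272 / 195) * h.p2_hN + (15 / 2) * h.p2_k3W
      + (667 / 120) * h.p2_p4 + (353 / 156) * h.p2_zN + (15 / 8) * h.p3_eS2 + (5 / 2) * h.p3_k2W
      + (89 / 8) * h.p4_eS2 + (68 / 15) * h.p4_hN + (19 / 4) * h.p4_k3S + (35 / 16) * h.p4_p3
      + (67 / 4) * h.t2S_eS2 + (19 / 4) * h.t2S_k3S + (28 / 9) * h.zN_eN1 + (68 / 13) * h.zN_hN
      + (23 / 12) * h.zN_k2N + (67 / 8) * h.t2N_k2N + (107 / 8) * h.wzN + (67 / 8) * h.wt2N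
      + (67 / 8) * h.wLt2S + (43 / 4) * h.wBt2S + (45 / 4) * h.wk2N + (45 / 4) * h.wk2W
      + (75 / 4) * h.wk3W + (75 / 4) * h.wk3S + (43 / 4) * h.wBt2E + (193 / 8) * h.est
      + (43 / 4) * h.face
      + (46921 / 9360) * hE

theorem l3_eS2x (h : Rows3 E e) (hE : 0 ≤ E) : |e.eS2x| ≤ 320 * E := by
  refine abs_le.2 ⟨?_, ?_⟩
  · linear_combination
      6 * h.k2N_eN1 + (56 / 27) * h.k2W_eW1 + (11 / 9) * h.k2W_k3W + (55 / 9) * h.k3S_eS2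
      + (3 / 2) * h.p2_eN1 + (7 / 18) * h.p2_eW1 + (8 / 65) * h.p2_hN + (11 / 9) * h.p2_k3W
      + (347 / 360) * h.p2_p4 + (55 / 117) * h.p2_zN + (17 / 72) * h.p3_eS2 + (7 / 54) * h.p3_eW1
      + (5 / 27) * h.p3_k2W + (55 / 24) * h.p4_eS2 + (2 / 5) * h.p4_hN + (35 / 144) * h.p4_p3
      + 3 * h.t2S_eS2 + (1 / 2) * h.zN_eN1 + (6 / 13) * h.zN_hN + (3 / 2) * h.t2N_k2N
      + (65 / 36) * h.wzN + (3 / 2) * h.wt2N + (3 / 2) * h.wLt2S + (3 / 2) * h.wBt2S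
      + (3 / 2) * h.wk2N + (3 / 2) * h.wk2W + (55 / 18) * h.wk3W + (55 / 18) * h.wk3S
      + (3 / 2) * h.wBt2E + (119 / 36) * h.est + (3 / 2) * h.face
      + (2520227 / 9360) * hE
  · linear_combination
      (167 / 18) * h.k2N_eN1 + 2 * h.k2W_eW1 + (11 / 6) * h.k2W_k3W + (167 / 72) * h.p2_eN1
      + (3 / 8) * h.p2_eW1 + (86 / 195) * h.p2_hN + (11 / 6) * h.p2_k3W + (619 / 480) * h.p2_p4
      + (385 / 936) * h.p2_zN + (23 / 32) * h.p3_eS2 + (1 / 8) * h.p3_eW1 + (5 / 6) * h.p3_k2W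
      + (55 / 32) * h.p4_eS2 + (43 / 30) * h.p4_hN + (55 / 24) * h.p4_k3S + (155 / 192) * h.p4_p3
      + (31 / 8) * h.t2S_eS2 + (55 / 24) * h.t2S_k3S + (167 / 216) * h.zN_eN1
      + (43 / 26) * h.zN_hN + (55 / 72) * h.zN_k2N + (31 / 16) * h.t2N_k2N + (85 / 24) * h.wzN
      + (31 / 16) * h.wt2N + (31 / 16) * h.wLt2S + (37 / 12) * h.wBt2S + (37 / 12) * h.wk2N
      + (37 / 12) * h.wk2W + (55 / 12) * h.wk3W + (55 / 12) * h.wk3S + (37 / 12) * h.wBt2E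
      + (53 / 8) * h.est + (37 / 12) * h.face
      + (27223111 / 112320) * hE

theorem l3_eS2y (h : Rows3 E e) (hE : 0 ≤ E) : |e.eS2y| ≤ 320 * E := by
  refine abs_le.2 ⟨?_, ?_⟩
  · linear_combination
      (190 / 9) * h.k2N_eN1 + (8 / 3) * h.k2W_eW1 + (10 / 3) * h.k2W_k3W + (95 / 18) * h.p2_eN1
      + (1 / 2) * h.p2_eW1 + (152 / 195) * h.p2_hN + (10 / 3) * h.p2_k3W + (161 / 60) * h.p2_p4
      + (13 / 8) * h.p3_eS2 + (1 / 6) * h.p3_eW1 + 2 * h.p3_k2W + (21 / 8) * h.p4_eS2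
      + (38 / 15) * h.p4_hN + (25 / 6) * h.p4_k3S + (89 / 48) * h.p4_p3 + (19 / 2) * h.t2S_eS2
      + (25 / 6) * h.t2S_k3S + (95 / 54) * h.zN_eN1 + (38 / 13) * h.zN_hN + (19 / 18) * h.zN_k2N
      + (19 / 4) * h.t2N_k2N + (17 / 468) * h.p2_z3W + (17 / 468) * h.p4_z3S + (17 / 468) * h.wz3W
      + (17 / 468) * h.wz3S + (1159 / 234) * h.wzN + (19 / 4) * h.wt2N + (19 / 4) * h.wLt2S
      + (41 / 6) * h.wBt2S + (19 / 3) * h.wk2N + (19 / 3) * h.wk2W + (25 / 3) * h.wk3W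
      + (25 / 3) * h.wk3S + (41 / 6) * h.wBt2E + (1379 / 117) * h.est + (41 / 6) * h.face
      + (4632403 / 28080) * hE
  · linear_combination
      (80 / 9) * h.k2N_eN1 + (16 / 3) * h.k2W_eW1 + (8 / 3) * h.k2W_k3W + 12 * h.k3S_eS2
      + (20 / 9) * h.p2_eN1 + h.p2_eW1 + (64 / 195) * h.p2_hN + (8 / 3) * h.p2_k3W
      + (209 / 120) * h.p2_p4 + (1637 / 936) * h.p2_zN + (1 / 4) * h.p3_eS2 + (1 / 3) * h.p3_eW1
      + (21 / 4) * h.p4_eS2 + (16 / 15) * h.p4_hN + (1 / 3) * h.p4_k3S + (5 / 24) * h.p4_p3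
      + 4 * h.t2S_eS2 + (1 / 3) * h.t2S_k3S + (20 / 27) * h.zN_eN1 + (16 / 13) * h.zN_hN
      + (4 / 9) * h.zN_k2N + 2 * h.t2N_k2N + (67 / 12) * h.wzN + 2 * h.wt2N + 2 * h.wLt2S
      + (13 / 6) * h.wBt2S + (8 / 3) * h.wk2N + (8 / 3) * h.wk2W + (20 / 3) * h.wk3W
      + (20 / 3) * h.wk3S + (13 / 6) * h.wBt2E + (31 / 4) * h.est + (13 / 6) * h.face
      + (3126883 / 14040) * hE

theorem l3_hNx (h : Rows3 E e) (hE : 0 ≤ E) : |e.hNx| ≤ 320 * E := by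
  refine abs_le.2 ⟨?_, ?_⟩
  · linear_combination
      (256 / 177) * h.k2N_eN1 + (370 / 531) * h.k2W_eW1 + (563 / 1416) * h.k2W_k3W
      + (949 / 1416) * h.k3S_eS2 + (64 / 177) * h.p2_eN1 + (185 / 1416) * h.p2_eW1
      + (3217 / 4602) * h.p2_hN + (563 / 1416) * h.p2_k3W + (197 / 2832) * h.p3_eS2
      + (185 / 4248) * h.p3_eW1 + (209 / 4248) * h.p3_k2W + (191 / 472) * h.p4_eS2
      + (229 / 354) * h.p4_hN + (311 / 944) * h.p4_k3S + (199 / 2832) * h.p4_p3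
      + (579 / 944) * h.t2S_eS2 + (311 / 944) * h.t2S_k3S + (64 / 531) * h.zN_eN1
      + (189 / 767) * h.zN_hN + (311 / 2832) * h.zN_k2N + (579 / 1888) * h.t2N_k2N
      + (5479 / 36816) * h.p2_z3W + (5479 / 36816) * h.p4_z3S + (5479 / 36816) * h.wz3W
      + (5479 / 36816) * h.wz3S + (29977 / 73632) * h.wzN + (579 / 1888) * h.wt2N
      + (579 / 1888) * h.wLt2S + (445 / 944) * h.wBt2S + (445 / 944) * h.wk2N
      + (445 / 944) * h.wk2W + (2815 / 2832) * h.wk3W + (2815 / 2832) * h.wk3S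
      + (445 / 944) * h.wBt2E + (64687 / 73632) * h.est + (445 / 944) * h.face
      + (67377949 / 220896) * hE
  · linear_combination
      (1259 / 72) * h.k2N_eN1 + (235 / 54) * h.k2W_eW1 + (61 / 18) * h.k2W_k3W
      + (497 / 72) * h.k3S_eS2 + (1259 / 288) * h.p2_eN1 + (235 / 288) * h.p2_eW1
      + (61 / 18) * h.p2_k3W + (3217 / 1152) * h.p2_p4 + (7 / 6) * h.p2_zN
      + (1283 / 1152) * h.p3_eS2 + (235 / 864) * h.p3_eW1 + (131 / 108) * h.p3_k2W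
      + (1753 / 384) * h.p4_eS2 + (13 / 8) * h.p4_hN + (241 / 96) * h.p4_k3S
      + (2837 / 2304) * h.p4_p3 + (253 / 32) * h.t2S_eS2 + (241 / 96) * h.t2S_k3S
      + (1259 / 864) * h.zN_eN1 + (19 / 8) * h.zN_hN + (241 / 288) * h.zN_k2N
      + (253 / 64) * h.t2N_k2N + (917 / 144) * h.wzN + (253 / 64) * h.wt2N + (253 / 64) * h.wLt2S
      + (125 / 24) * h.wBt2S + (125 / 24) * h.wk2N + (125 / 24) * h.wk2W + (305 / 36) * h.wk3W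
      + (305 / 36) * h.wk3S + (125 / 24) * h.wBt2E + (1667 / 144) * h.est + (125 / 24) * h.face
      + (1209107 / 6912) * hE

theorem l3_hNy (h : Rows3 E e) (hE : 0 ≤ E) : |e.hNy| ≤ 320 * E := by
  refine abs_le.2 ⟨?_, ?_⟩
  · linear_combination
      (143 / 8) * h.k2N_eN1 + (359 / 54) * h.k2W_eW1 + (71 / 18) * h.k2W_k3W
      + (781 / 72) * h.k3S_eS2 + (143 / 32) * h.p2_eN1 + (359 / 288) * h.p2_eW1
      + (71 / 18) * h.p2_k3W + (3605 / 1152) * h.p2_p4 + (139 / 72) * h.p2_zN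
      + (895 / 1152) * h.p3_eS2 + (359 / 864) * h.p3_eW1 + (67 / 108) * h.p3_k2W
      + (2381 / 384) * h.p4_eS2 + (17 / 8) * h.p4_hN + (71 / 32) * h.p4_k3S
      + (1849 / 2304) * h.p4_p3 + (273 / 32) * h.t2S_eS2 + (71 / 32) * h.t2S_k3S
      + (143 / 96) * h.zN_eN1 + (15 / 8) * h.zN_hN + (13 / 32) * h.zN_k2N + (273 / 64) * h.t2N_k2N
      + (1033 / 144) * h.wzN + (273 / 64) * h.wt2N + (273 / 64) * h.wLt2S + (43 / 8) * h.wBt2S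
      + (39 / 8) * h.wk2N + (39 / 8) * h.wk2W + (355 / 36) * h.wk3W + (355 / 36) * h.wk3S
      + (43 / 8) * h.wBt2E + (1807 / 144) * h.est + (43 / 8) * h.face
      + (369029 / 2304) * hE
  · linear_combination
      (1331 / 144) * h.k2N_eN1 + (7 / 12) * h.k2W_eW1 + (71 / 48) * h.k2W_k3W
      + (1331 / 576) * h.p2_eN1 + (7 / 64) * h.p2_eW1 + (781 / 780) * h.p2_hN
      + (71 / 48) * h.p2_k3W + (3343 / 3840) * h.p2_p4 + (235 / 256) * h.p3_eS2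
      + (7 / 192) * h.p3_eW1 + (19 / 16) * h.p3_k2W + (235 / 256) * h.p4_eS2
      + (271 / 240) * h.p4_hN + (355 / 192) * h.p4_k3S + (1631 / 1536) * h.p4_p3
      + (235 / 64) * h.t2S_eS2 + (355 / 192) * h.t2S_k3S + (1331 / 1728) * h.zN_eN1
      + (391 / 208) * h.zN_hN + (547 / 576) * h.zN_k2N + (235 / 128) * h.t2N_k2N
      + (2741 / 3744) * h.p2_z3W + (2741 / 3744) * h.p4_z3S + (2741 / 3744) * h.wz3W
      + (2741 / 3744) * h.wz3S + (22837 / 7488) * h.wzN + (235 / 128) * h.wt2N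
      + (235 / 128) * h.wLt2S + (265 / 96) * h.wBt2S + (313 / 96) * h.wk2N + (313 / 96) * h.wk2W
      + (355 / 96) * h.wk3W + (355 / 96) * h.wk3S + (265 / 96) * h.wBt2E + (43507 / 7488) * h.est
      + (265 / 96) * h.face
      + (222131827 / 898560) * hE

theorem l3_t2Nx (h : Rows3 E e) (hE : 0 ≤ E) : |e.t2Nx| ≤ 320 * E := by
  refine abs_le.2 ⟨?_, ?_⟩
  · linear_combination
      (92 / 9) * h.k2N_eN1 + (16 / 3) * h.k2W_eW1 + (8 / 3) * h.k2W_k3W + 4 * h.k3S_eS2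
      + (23 / 9) * h.p2_eN1 + h.p2_eW1 + (16 / 65) * h.p2_hN + (8 / 3) * h.p2_k3W
      + (19 / 10) * h.p2_p4 + (739 / 468) * h.p2_zN + (1 / 4) * h.p3_eS2 + (1 / 3) * h.p3_eW1
      + (9 / 4) * h.p4_eS2 + (4 / 5) * h.p4_hN + (7 / 3) * h.p4_k3S + (5 / 24) * h.p4_p3
      + 3 * h.t2S_eS2 + (7 / 3) * h.t2S_k3S + (23 / 27) * h.zN_eN1 + (12 / 13) * h.zN_hN
      + (1 / 9) * h.zN_k2N + (5 / 2) * h.t2N_k2N + (29 / 6) * h.wzN + (3 / 2) * h.wt2N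
      + (3 / 2) * h.wLt2S + (8 / 3) * h.wBt2S + (8 / 3) * h.wk2N + (8 / 3) * h.wk2W
      + (20 / 3) * h.wk3W + (20 / 3) * h.wk3S + (8 / 3) * h.wBt2E + (15 / 2) * h.est
      + (8 / 3) * h.face
      + (3228301 / 14040) * hE
  · linear_combination
      (88 / 9) * h.k2N_eN1 + (4 / 3) * h.k2W_k3W + 4 * h.k3S_eS2 + (22 / 9) * h.p2_eN1
      + (32 / 65) * h.p2_hN + (4 / 3) * h.p2_k3W + (21 / 20) * h.p2_p4 + h.p3_eS2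
      + (4 / 3) * h.p3_k2W + 3 * h.p4_eS2 + (8 / 5) * h.p4_hN + (2 / 3) * h.p4_k3S
      + (7 / 6) * h.p4_p3 + 6 * h.t2S_eS2 + (2 / 3) * h.t2S_k3S + (22 / 27) * h.zN_eN1
      + (24 / 13) * h.zN_hN + (8 / 9) * h.zN_k2N + 2 * h.t2N_k2N + (199 / 234) * h.p2_z3W
      + (199 / 234) * h.p4_z3S + (199 / 234) * h.wz3W + (199 / 234) * h.wz3S + (353 / 117) * h.wzN
      + 3 * h.wt2N + 3 * h.wLt2S + (10 / 3) * h.wBt2S + (10 / 3) * h.wk2N + (10 / 3) * h.wk2W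
      + (10 / 3) * h.wk3W + (10 / 3) * h.wk3S + (10 / 3) * h.wBt2E + (743 / 117) * h.est
      + (10 / 3) * h.face
      + (1660111 / 7020) * hE

theorem l3_z3Wx (h : Rows3 E e) (hE : 0 ≤ E) : |e.z3Wx| ≤ 320 * E := by
  refine abs_le.2 ⟨?_, ?_⟩
  · linear_combination
      (34 / 9) * h.k2N_eN1 + (8 / 3) * h.k2W_eW1 + (4 / 3) * h.k2W_k3W + 2 * h.k3S_eS2
      + (17 / 18) * h.p2_eN1 + (1 / 2) * h.p2_eW1 + (8 / 39) * h.p2_hN + (4 / 3) * h.p2_k3W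
      + (19 / 24) * h.p2_p4 + (449 / 468) * h.p2_zN + (1 / 8) * h.p3_eS2 + (1 / 6) * h.p3_eW1
      + (9 / 8) * h.p4_eS2 + (2 / 3) * h.p4_hN + (7 / 6) * h.p4_k3S + (5 / 48) * h.p4_p3
      + (3 / 2) * h.t2S_eS2 + (7 / 6) * h.t2S_k3S + (17 / 54) * h.zN_eN1 + (10 / 13) * h.zN_hN
      + (7 / 18) * h.zN_k2N + (3 / 4) * h.t2N_k2N + h.p4_z3S + h.wz3W + h.wz3S + (19 / 6) * h.wzN
      + (3 / 4) * h.wt2N + (3 / 4) * h.wLt2S + (4 / 3) * h.wBt2S + (4 / 3) * h.wk2N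
      + (4 / 3) * h.wk2W + (10 / 3) * h.wk3W + (10 / 3) * h.wk3S + (4 / 3) * h.wBt2E
      + (9 / 2) * h.est + (4 / 3) * h.face
      + (1526117 / 5616) * hE
  · linear_combination
      (56 / 9) * h.k2N_eN1 + (2 / 3) * h.k2W_k3W + 2 * h.k3S_eS2 + (14 / 9) * h.p2_eN1
      + (32 / 195) * h.p2_hN + (2 / 3) * h.p2_k3W + (41 / 60) * h.p2_p4 + (55 / 468) * h.p2_zN
      + (1 / 2) * h.p3_eS2 + (2 / 3) * h.p3_k2W + (3 / 2) * h.p4_eS2 + (8 / 15) * h.p4_hN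
      + (1 / 3) * h.p4_k3S + (7 / 12) * h.p4_p3 + 3 * h.t2S_eS2 + (1 / 3) * h.t2S_k3S
      + (14 / 27) * h.zN_eN1 + (8 / 13) * h.zN_hN + (1 / 9) * h.zN_k2N + (3 / 2) * h.t2N_k2N
      + h.p2_z3W + (4 / 3) * h.wzN + (3 / 2) * h.wt2N + (3 / 2) * h.wLt2S + (5 / 3) * h.wBt2S
      + (5 / 3) * h.wk2N + (5 / 3) * h.wk2W + (5 / 3) * h.wk3W + (5 / 3) * h.wk3S
      + (5 / 3) * h.wBt2E + 3 * h.est + (5 / 3) * h.face
      + (1949657 / 7020) * hE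

theorem l3_z3Sx (h : Rows3 E e) (hE : 0 ≤ E) : |e.z3Sx| ≤ 320 * E := by
  refine abs_le.2 ⟨?_, ?_⟩
  · linear_combination
      (56 / 9) * h.k2N_eN1 + (2 / 3) * h.k2W_k3W + 2 * h.k3S_eS2 + (14 / 9) * h.p2_eN1
      + (32 / 195) * h.p2_hN + (2 / 3) * h.p2_k3W + (41 / 60) * h.p2_p4 + (55 / 468) * h.p2_zN
      + (1 / 2) * h.p3_eS2 + (2 / 3) * h.p3_k2W + (3 / 2) * h.p4_eS2 + (8 / 15) * h.p4_hN
      + (1 / 3) * h.p4_k3S + (7 / 12) * h.p4_p3 + 3 * h.t2S_eS2 + (1 / 3) * h.t2S_k3S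
      + (14 / 27) * h.zN_eN1 + (8 / 13) * h.zN_hN + (1 / 9) * h.zN_k2N + (3 / 2) * h.t2N_k2N
      + h.p2_z3W + h.wz3W + h.wz3S + (4 / 3) * h.wzN + (3 / 2) * h.wt2N + (3 / 2) * h.wLt2S
      + (5 / 3) * h.wBt2S + (5 / 3) * h.wk2N + (5 / 3) * h.wk2W + (5 / 3) * h.wk3W
      + (5 / 3) * h.wk3S + (5 / 3) * h.wBt2E + 3 * h.est + (5 / 3) * h.face
      + (1935617 / 7020) * hE
  · linear_combination
      (34 / 9) * h.k2N_eN1 + (8 / 3) * h.k2W_eW1 + (4 / 3) * h.k2W_k3W + 2 * h.k3S_eS2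
      + (17 / 18) * h.p2_eN1 + (1 / 2) * h.p2_eW1 + (8 / 39) * h.p2_hN + (4 / 3) * h.p2_k3W
      + (19 / 24) * h.p2_p4 + (449 / 468) * h.p2_zN + (1 / 8) * h.p3_eS2 + (1 / 6) * h.p3_eW1
      + (9 / 8) * h.p4_eS2 + (2 / 3) * h.p4_hN + (7 / 6) * h.p4_k3S + (5 / 48) * h.p4_p3
      + (3 / 2) * h.t2S_eS2 + (7 / 6) * h.t2S_k3S + (17 / 54) * h.zN_eN1 + (10 / 13) * h.zN_hN
      + (7 / 18) * h.zN_k2N + (3 / 4) * h.t2N_k2N + h.p4_z3S + (19 / 6) * h.wzN + (3 / 4) * h.wt2N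
      + (3 / 4) * h.wLt2S + (4 / 3) * h.wBt2S + (4 / 3) * h.wk2N + (4 / 3) * h.wk2W
      + (10 / 3) * h.wk3W + (10 / 3) * h.wk3S + (4 / 3) * h.wBt2E + (9 / 2) * h.est
      + (4 / 3) * h.face
      + (1537349 / 5616) * hE

theorem l3_h (h : Rows3 E e) (hE : 0 ≤ E) : |e.h| ≤ 320 * E := by
  refine abs_le.2 ⟨?_, ?_⟩
  · linear_combination
      (56 / 9) * h.k2N_eN1 + (2 / 3) * h.k2W_k3W + 2 * h.k3S_eS2 + (14 / 9) * h.p2_eN1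
      + (32 / 195) * h.p2_hN + (2 / 3) * h.p2_k3W + (41 / 60) * h.p2_p4 + (55 / 468) * h.p2_zN
      + (1 / 2) * h.p3_eS2 + (2 / 3) * h.p3_k2W + (3 / 2) * h.p4_eS2 + (8 / 15) * h.p4_hN
      + (1 / 3) * h.p4_k3S + (7 / 12) * h.p4_p3 + 3 * h.t2S_eS2 + (1 / 3) * h.t2S_k3S
      + (14 / 27) * h.zN_eN1 + (8 / 13) * h.zN_hN + (1 / 9) * h.zN_k2N + (3 / 2) * h.t2N_k2N
      + h.p2_z3W + h.wz3W + (4 / 3) * h.wzN + (3 / 2) * h.wt2N + (3 / 2) * h.wLt2S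
      + (5 / 3) * h.wBt2S + (5 / 3) * h.wk2N + (5 / 3) * h.wk2W + (5 / 3) * h.wk3W
      + (5 / 3) * h.wk3S + (5 / 3) * h.wBt2E + 3 * h.est + (5 / 3) * h.face
      + (1942637 / 7020) * hE
  · linear_combination
      (34 / 9) * h.k2N_eN1 + (8 / 3) * h.k2W_eW1 + (4 / 3) * h.k2W_k3W + 2 * h.k3S_eS2
      + (17 / 18) * h.p2_eN1 + (1 / 2) * h.p2_eW1 + (8 / 39) * h.p2_hN + (4 / 3) * h.p2_k3W
      + (19 / 24) * h.p2_p4 + (449 / 468) * h.p2_zN + (1 / 8) * h.p3_eS2 + (1 / 6) * h.p3_eW1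
      + (9 / 8) * h.p4_eS2 + (2 / 3) * h.p4_hN + (7 / 6) * h.p4_k3S + (5 / 48) * h.p4_p3
      + (3 / 2) * h.t2S_eS2 + (7 / 6) * h.t2S_k3S + (17 / 54) * h.zN_eN1 + (10 / 13) * h.zN_hN
      + (7 / 18) * h.zN_k2N + (3 / 4) * h.t2N_k2N + h.p4_z3S + h.wz3S + (19 / 6) * h.wzN
      + (3 / 4) * h.wt2N + (3 / 4) * h.wLt2S + (4 / 3) * h.wBt2S + (4 / 3) * h.wk2N
      + (4 / 3) * h.wk2W + (10 / 3) * h.wk3W + (10 / 3) * h.wk3S + (4 / 3) * h.wBt2E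
      + (9 / 2) * h.est + (4 / 3) * h.face
      + (1531733 / 5616) * hE

theorem l3_r (h : Rows3 E e) (hE : 0 ≤ E) : |e.r| ≤ 320 * E := by
  refine abs_le.2 ⟨?_, ?_⟩
  · linear_combination
      (34 / 9) * h.k2N_eN1 + (8 / 3) * h.k2W_eW1 + (4 / 3) * h.k2W_k3W + 2 * h.k3S_eS2
      + (17 / 18) * h.p2_eN1 + (1 / 2) * h.p2_eW1 + (8 / 39) * h.p2_hN + (4 / 3) * h.p2_k3W
      + (19 / 24) * h.p2_p4 + (449 / 468) * h.p2_zN + (1 / 8) * h.p3_eS2 + (1 / 6) * h.p3_eW1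
      + (9 / 8) * h.p4_eS2 + (2 / 3) * h.p4_hN + (7 / 6) * h.p4_k3S + (5 / 48) * h.p4_p3
      + (3 / 2) * h.t2S_eS2 + (7 / 6) * h.t2S_k3S + (17 / 54) * h.zN_eN1 + (10 / 13) * h.zN_hN
      + (7 / 18) * h.zN_k2N + (3 / 4) * h.t2N_k2N + (19 / 6) * h.wzN + (3 / 4) * h.wt2N
      + (3 / 4) * h.wLt2S + (4 / 3) * h.wBt2S + (4 / 3) * h.wk2N + (4 / 3) * h.wk2W
      + (10 / 3) * h.wk3W + (10 / 3) * h.wk3S + (4 / 3) * h.wBt2E + (7 / 2) * h.est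
      + (4 / 3) * h.face
      + (1548581 / 5616) * hE
  · linear_combination
      (56 / 9) * h.k2N_eN1 + (2 / 3) * h.k2W_k3W + 2 * h.k3S_eS2 + (14 / 9) * h.p2_eN1
      + (32 / 195) * h.p2_hN + (2 / 3) * h.p2_k3W + (41 / 60) * h.p2_p4 + (1 / 2) * h.p3_eS2
      + (2 / 3) * h.p3_k2W + (3 / 2) * h.p4_eS2 + (8 / 15) * h.p4_hN + (1 / 3) * h.p4_k3S
      + (7 / 12) * h.p4_p3 + 3 * h.t2S_eS2 + (1 / 3) * h.t2S_k3S + (14 / 27) * h.zN_eN1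
      + (8 / 13) * h.zN_hN + (1 / 9) * h.zN_k2N + (3 / 2) * h.t2N_k2N + (179 / 234) * h.p2_z3W
      + (179 / 234) * h.p4_z3S + (179 / 234) * h.wz3W + (179 / 234) * h.wz3S + (257 / 234) * h.wzN
      + (3 / 2) * h.wt2N + (3 / 2) * h.wLt2S + (5 / 3) * h.wBt2S + (5 / 3) * h.wk2N
      + (5 / 3) * h.wk2W + (5 / 3) * h.wk3W + (5 / 3) * h.wk3S + (5 / 3) * h.wBt2E
      + (881 / 234) * h.est + (5 / 3) * h.face
      + (966151 / 3510) * hE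

theorem l3_x (h : Rows3 E e) (hE : 0 ≤ E) : |e.x| ≤ 320 * E := by
  refine abs_le.2 ⟨?_, ?_⟩
  · linear_combination
      (172 / 9) * h.k2N_eN1 + (7 / 3) * h.k2W_k3W + 3 * h.k3S_eS2 + (43 / 9) * h.p2_eN1
      + (48 / 65) * h.p2_hN + (7 / 3) * h.p2_k3W + (83 / 40) * h.p2_p4 + (7 / 4) * h.p3_eS2
      + (7 / 3) * h.p3_k2W + (13 / 4) * h.p4_eS2 + (12 / 5) * h.p4_hN + (13 / 6) * h.p4_k3S
      + (49 / 24) * h.p4_p3 + (17 / 2) * h.t2S_eS2 + (13 / 6) * h.t2S_k3S + (43 / 27) * h.zN_eN1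
      + (36 / 13) * h.zN_hN + (19 / 18) * h.zN_k2N + (17 / 4) * h.t2N_k2N + (935 / 468) * h.p2_z3W
      + (935 / 468) * h.p4_z3S + (935 / 468) * h.wz3W + (935 / 468) * h.wz3S
      + (2183 / 468) * h.wzN + (17 / 4) * h.wt2N + (17 / 4) * h.wLt2S + (16 / 3) * h.wBt2S
      + (35 / 6) * h.wk2N + (35 / 6) * h.wk2W + (35 / 6) * h.wk3W + (35 / 6) * h.wk3S
      + (19 / 3) * h.wBt2E + (5147 / 468) * h.est + (19 / 3) * h.face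
      + (624317 / 3510) * hE
  · linear_combination
      (143 / 9) * h.k2N_eN1 + (28 / 3) * h.k2W_eW1 + (14 / 3) * h.k2W_k3W + 11 * h.k3S_eS2
      + (143 / 36) * h.p2_eN1 + (7 / 4) * h.p2_eW1 + (36 / 65) * h.p2_hN + (14 / 3) * h.p2_k3W
      + (247 / 80) * h.p2_p4 + (2825 / 936) * h.p2_zN + (7 / 16) * h.p3_eS2 + (7 / 12) * h.p3_eW1
      + (95 / 16) * h.p4_eS2 + (9 / 5) * h.p4_hN + (37 / 12) * h.p4_k3S + (35 / 96) * h.p4_p3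
      + (29 / 4) * h.t2S_eS2 + (37 / 12) * h.t2S_k3S + (143 / 108) * h.zN_eN1
      + (27 / 13) * h.zN_hN + (25 / 36) * h.zN_k2N + (29 / 8) * h.t2N_k2N + (115 / 12) * h.wzN
      + (29 / 8) * h.wt2N + (29 / 8) * h.wLt2S + (31 / 6) * h.wBt2S + (14 / 3) * h.wk2N
      + (14 / 3) * h.wk2W + (35 / 3) * h.wk3W + (35 / 3) * h.wk3S + (25 / 6) * h.wBt2E
      + (55 / 4) * h.est + (25 / 6) * h.face
      + (8707759 / 56160) * hE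

theorem l3_y (h : Rows3 E e) (hE : 0 ≤ E) : |e.y| ≤ 320 * E := by
  refine abs_le.2 ⟨?_, ?_⟩
  · linear_combination
      (92 / 9) * h.k2N_eN1 + (16 / 3) * h.k2W_eW1 + (8 / 3) * h.k2W_k3W + 4 * h.k3S_eS2
      + (23 / 9) * h.p2_eN1 + h.p2_eW1 + (16 / 65) * h.p2_hN + (8 / 3) * h.p2_k3W
      + (19 / 10) * h.p2_p4 + (739 / 468) * h.p2_zN + (1 / 4) * h.p3_eS2 + (1 / 3) * h.p3_eW1
      + (9 / 4) * h.p4_eS2 + (4 / 5) * h.p4_hN + (7 / 3) * h.p4_k3S + (5 / 24) * h.p4_p3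
      + 3 * h.t2S_eS2 + (7 / 3) * h.t2S_k3S + (23 / 27) * h.zN_eN1 + (12 / 13) * h.zN_hN
      + (1 / 9) * h.zN_k2N + (5 / 2) * h.t2N_k2N + (29 / 6) * h.wzN + (5 / 2) * h.wt2N
      + (3 / 2) * h.wLt2S + (8 / 3) * h.wBt2S + (8 / 3) * h.wk2N + (8 / 3) * h.wk2W
      + (20 / 3) * h.wk3W + (20 / 3) * h.wk3S + (8 / 3) * h.wBt2E + (15 / 2) * h.est
      + (8 / 3) * h.face
      + (3214261 / 14040) * hE
  · linear_combination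
      (88 / 9) * h.k2N_eN1 + (4 / 3) * h.k2W_k3W + 4 * h.k3S_eS2 + (22 / 9) * h.p2_eN1
      + (32 / 65) * h.p2_hN + (4 / 3) * h.p2_k3W + (21 / 20) * h.p2_p4 + h.p3_eS2
      + (4 / 3) * h.p3_k2W + 3 * h.p4_eS2 + (8 / 5) * h.p4_hN + (2 / 3) * h.p4_k3S
      + (7 / 6) * h.p4_p3 + 6 * h.t2S_eS2 + (2 / 3) * h.t2S_k3S + (22 / 27) * h.zN_eN1
      + (24 / 13) * h.zN_hN + (8 / 9) * h.zN_k2N + 2 * h.t2N_k2N + (199 / 234) * h.p2_z3W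
      + (199 / 234) * h.p4_z3S + (199 / 234) * h.wz3W + (199 / 234) * h.wz3S + (353 / 117) * h.wzN
      + 2 * h.wt2N + 3 * h.wLt2S + (10 / 3) * h.wBt2S + (10 / 3) * h.wk2N + (10 / 3) * h.wk2W
      + (10 / 3) * h.wk3W + (10 / 3) * h.wk3S + (10 / 3) * h.wBt2E + (743 / 117) * h.est
      + (10 / 3) * h.face
      + (1667131 / 7020) * hE

theorem l3_k2 (h : Rows3 E e) (hE : 0 ≤ E) : |e.k2| ≤ 320 * E := by
  refine abs_le.2 ⟨?_, ?_⟩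
  · linear_combination
      (70 / 9) * h.k2N_eN1 + (8 / 3) * h.k2W_eW1 + (4 / 3) * h.k2W_k3W + 6 * h.k3S_eS2
      + (35 / 18) * h.p2_eN1 + (1 / 2) * h.p2_eW1 + (56 / 195) * h.p2_hN + (4 / 3) * h.p2_k3W
      + (17 / 15) * h.p2_p4 + (277 / 936) * h.p2_zN + (1 / 8) * h.p3_eS2 + (1 / 6) * h.p3_eW1
      + (25 / 8) * h.p4_eS2 + (14 / 15) * h.p4_hN + (1 / 6) * h.p4_k3S + (5 / 48) * h.p4_p3
      + (7 / 2) * h.t2S_eS2 + (1 / 6) * h.t2S_k3S + (35 / 54) * h.zN_eN1 + (14 / 13) * h.zN_hN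
      + (7 / 18) * h.zN_k2N + (7 / 4) * h.t2N_k2N + (29 / 12) * h.wzN + (7 / 4) * h.wt2N
      + (7 / 4) * h.wLt2S + (11 / 6) * h.wBt2S + (7 / 3) * h.wk2N + (4 / 3) * h.wk2W
      + (10 / 3) * h.wk3W + (10 / 3) * h.wk3S + (11 / 6) * h.wBt2E + (17 / 4) * h.est
      + (11 / 6) * h.face
      + (7260829 / 28080) * hE
  · linear_combination
      (65 / 9) * h.k2N_eN1 + (4 / 3) * h.k2W_eW1 + (5 / 3) * h.k2W_k3W + (65 / 36) * h.p2_eN1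
      + (1 / 4) * h.p2_eW1 + (4 / 15) * h.p2_hN + (5 / 3) * h.p2_k3W + (259 / 240) * h.p2_p4
      + (41 / 72) * h.p2_zN + (13 / 16) * h.p3_eS2 + (1 / 12) * h.p3_eW1 + h.p3_k2W
      + (13 / 16) * h.p4_eS2 + (13 / 15) * h.p4_hN + (25 / 12) * h.p4_k3S + (89 / 96) * h.p4_p3
      + (13 / 4) * h.t2S_eS2 + (25 / 12) * h.t2S_k3S + (65 / 108) * h.zN_eN1 + h.zN_hN
      + (13 / 36) * h.zN_k2N + (13 / 8) * h.t2N_k2N + (17 / 6) * h.wzN + (13 / 8) * h.wt2N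
      + (13 / 8) * h.wLt2S + (8 / 3) * h.wBt2S + (13 / 6) * h.wk2N + (19 / 6) * h.wk2W
      + (25 / 6) * h.wk3W + (25 / 6) * h.wk3S + (8 / 3) * h.wBt2E + (11 / 2) * h.est
      + (8 / 3) * h.face
      + (1103257 / 4320) * hE

theorem l3_k3 (h : Rows3 E e) (hE : 0 ≤ E) : |e.k3| ≤ 320 * E := by
  refine abs_le.2 ⟨?_, ?_⟩
  · linear_combination
      6 * h.k2N_eN1 + (56 / 27) * h.k2W_eW1 + (11 / 9) * h.k2W_k3W + (37 / 9) * h.k3S_eS2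
      + (3 / 2) * h.p2_eN1 + (7 / 18) * h.p2_eW1 + (8 / 65) * h.p2_hN + (11 / 9) * h.p2_k3W
      + (347 / 360) * h.p2_p4 + (55 / 117) * h.p2_zN + (17 / 72) * h.p3_eS2 + (7 / 54) * h.p3_eW1
      + (5 / 27) * h.p3_k2W + (55 / 24) * h.p4_eS2 + (2 / 5) * h.p4_hN + (35 / 144) * h.p4_p3
      + 3 * h.t2S_eS2 + (1 / 2) * h.zN_eN1 + (6 / 13) * h.zN_hN + (3 / 2) * h.t2N_k2N
      + (65 / 36) * h.wzN + (3 / 2) * h.wt2N + (3 / 2) * h.wLt2S + (3 / 2) * h.wBt2S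
      + (3 / 2) * h.wk2N + (3 / 2) * h.wk2W + (55 / 18) * h.wk3W + (37 / 18) * h.wk3S
      + (3 / 2) * h.wBt2E + (119 / 36) * h.est + (3 / 2) * h.face
      + (2548307 / 9360) * hE
  · linear_combination
      (77 / 18) * h.k2N_eN1 + (2 / 3) * h.k2W_eW1 + (5 / 6) * h.k2W_k3W + (77 / 72) * h.p2_eN1
      + (1 / 8) * h.p2_eW1 + (10 / 39) * h.p2_hN + (5 / 6) * h.p2_k3W + (53 / 96) * h.p2_p4
      + (115 / 936) * h.p2_zN + (13 / 32) * h.p3_eS2 + (1 / 24) * h.p3_eW1 + (1 / 2) * h.p3_k2W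
      + (13 / 32) * h.p4_eS2 + (5 / 6) * h.p4_hN + (37 / 24) * h.p4_k3S + (89 / 192) * h.p4_p3
      + (13 / 8) * h.t2S_eS2 + (37 / 24) * h.t2S_k3S + (77 / 216) * h.zN_eN1 + (25 / 26) * h.zN_hN
      + (37 / 72) * h.zN_k2N + (13 / 16) * h.t2N_k2N + (43 / 24) * h.wzN + (13 / 16) * h.wt2N
      + (13 / 16) * h.wLt2S + (19 / 12) * h.wBt2S + (19 / 12) * h.wk2N + (19 / 12) * h.wk2W
      + (25 / 12) * h.wk3W + (37 / 12) * h.wk3S + (19 / 12) * h.wBt2E + (27 / 8) * h.est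
      + (19 / 12) * h.face
      + (6321017 / 22464) * hE

theorem l3_L (h : Rows3 E e) (hE : 0 ≤ E) : |e.L| ≤ 320 * E := by
  refine abs_le.2 ⟨?_, ?_⟩
  · linear_combination
      (143 / 9) * h.k2N_eN1 + (28 / 3) * h.k2W_eW1 + (14 / 3) * h.k2W_k3W + 11 * h.k3S_eS2
      + (143 / 36) * h.p2_eN1 + (7 / 4) * h.p2_eW1 + (36 / 65) * h.p2_hN + (14 / 3) * h.p2_k3W
      + (247 / 80) * h.p2_p4 + (2825 / 936) * h.p2_zN + (7 / 16) * h.p3_eS2 + (7 / 12) * h.p3_eW1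
      + (95 / 16) * h.p4_eS2 + (9 / 5) * h.p4_hN + (37 / 12) * h.p4_k3S + (35 / 96) * h.p4_p3
      + (29 / 4) * h.t2S_eS2 + (37 / 12) * h.t2S_k3S + (143 / 108) * h.zN_eN1
      + (27 / 13) * h.zN_hN + (25 / 36) * h.zN_k2N + (29 / 8) * h.t2N_k2N + (115 / 12) * h.wzN
      + (29 / 8) * h.wt2N + (29 / 8) * h.wLt2S + (31 / 6) * h.wBt2S + (14 / 3) * h.wk2N
      + (14 / 3) * h.wk2W + (35 / 3) * h.wk3W + (35 / 3) * h.wk3S + (31 / 6) * h.wBt2E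
      + (55 / 4) * h.est + (25 / 6) * h.face
      + (8651599 / 56160) * hE
  · linear_combination
      (172 / 9) * h.k2N_eN1 + (7 / 3) * h.k2W_k3W + 3 * h.k3S_eS2 + (43 / 9) * h.p2_eN1
      + (48 / 65) * h.p2_hN + (7 / 3) * h.p2_k3W + (83 / 40) * h.p2_p4 + (7 / 4) * h.p3_eS2
      + (7 / 3) * h.p3_k2W + (13 / 4) * h.p4_eS2 + (12 / 5) * h.p4_hN + (13 / 6) * h.p4_k3S
      + (49 / 24) * h.p4_p3 + (17 / 2) * h.t2S_eS2 + (13 / 6) * h.t2S_k3S + (43 / 27) * h.zN_eN1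
      + (36 / 13) * h.zN_hN + (19 / 18) * h.zN_k2N + (17 / 4) * h.t2N_k2N + (935 / 468) * h.p2_z3W
      + (935 / 468) * h.p4_z3S + (935 / 468) * h.wz3W + (935 / 468) * h.wz3S
      + (2183 / 468) * h.wzN + (17 / 4) * h.wt2N + (17 / 4) * h.wLt2S + (16 / 3) * h.wBt2S
      + (35 / 6) * h.wk2N + (35 / 6) * h.wk2W + (35 / 6) * h.wk3W + (35 / 6) * h.wk3S
      + (16 / 3) * h.wBt2E + (5147 / 468) * h.est + (19 / 3) * h.face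
      + (627827 / 3510) * hE

theorem l3_z3Wy (h : Rows3 E e) (hE : 0 ≤ E) : |e.z3Wy| ≤ 2300 * E := by
  have h1 := abs_le.1 (l3_k3Wy h hE)
  have h2 := abs_le.1 (l3_z3Wx h hE)
  have h3 := abs_le.1 (l3_p3x h hE)
  have h4 := abs_le.1 (l3_p3y h hE)
  refine abs_le.2 ⟨?_, ?_⟩
  · linarith [h.low, l3_h h hE]
  · linarith [h.up]

structure All3 (D : ℝ) (e : C3) : Prop extends Bd3 D e where
  zNx : |e.zNx| ≤ D
  zNy : |e.zNy| ≤ D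
  r : |e.r| ≤ D

theorem lp3 (h : Rows3 E e) (hE : 0 ≤ E) : All3 (2300 * E) e :=
  have m : ∀ {x : ℝ}, x ≤ 320 * E → x ≤ 2300 * E := fun hx => by linarith
  { p2x := m (l3_p2x h hE)
    p2y := m (l3_p2y h hE)
    p4x := m (l3_p4x h hE)
    p4y := m (l3_p4y h hE)
    p3x := m (l3_p3x h hE)
    p3y := m (l3_p3y h hE)
    z3Wx := m (l3_z3Wx h hE)
    z3Wy := l3_z3Wy h hE
    z3Sx := m (l3_z3Sx h hE)
    t2Nx := m (l3_t2Nx h hE)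
    t2Sx := m (l3_t2Sx h hE)
    t2Sy := m (l3_t2Sy h hE)
    k2Nx := m (l3_k2Nx h hE)
    k2Ny := m (l3_k2Ny h hE)
    k2Wx := m (l3_k2Wx h hE)
    k2Wy := m (l3_k2Wy h hE)
    k3Wx := m (l3_k3Wx h hE)
    k3Wy := m (l3_k3Wy h hE)
    k3Sx := m (l3_k3Sx h hE)
    k3Sy := m (l3_k3Sy h hE)
    eN1x := m (l3_eN1x h hE)
    eN1y := m (l3_eN1y h hE)
    eW1x := m (l3_eW1x h hE)
    eW1y := m (l3_eW1y h hE)
    eS2x := m (l3_eS2x h hE)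
    eS2y := m (l3_eS2y h hE)
    hNx := m (l3_hNx h hE)
    hNy := m (l3_hNy h hE)
    h := m (l3_h h hE)
    x := m (l3_x h hE)
    y := m (l3_y h hE)
    k2 := m (l3_k2 h hE)
    k3 := m (l3_k3 h hE)
    L := m (l3_L h hE)
    zNx := m (l3_zNx h hE)
    zNy := m (l3_zNy h hE)
    r := m (l3_r h hE) }

theorem Bd3.mono {D D' : ℝ} (h : Bd3 D e) (m : D ≤ D') : Bd3 D' e :=
  { p2x := h.p2x.trans m
    p2y := h.p2y.trans m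
    p4x := h.p4x.trans m
    p4y := h.p4y.trans m
    p3x := h.p3x.trans m
    p3y := h.p3y.trans m
    z3Wx := h.z3Wx.trans m
    z3Wy := h.z3Wy.trans m
    z3Sx := h.z3Sx.trans m
    t2Nx := h.t2Nx.trans m
    t2Sx := h.t2Sx.trans m
    t2Sy := h.t2Sy.trans m
    k2Nx := h.k2Nx.trans m
    k2Ny := h.k2Ny.trans m
    k2Wx := h.k2Wx.trans m
    k2Wy := h.k2Wy.trans m
    k3Wx := h.k3Wx.trans m
    k3Wy := h.k3Wy.trans m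
    k3Sx := h.k3Sx.trans m
    k3Sy := h.k3Sy.trans m
    eN1x := h.eN1x.trans m
    eN1y := h.eN1y.trans m
    eW1x := h.eW1x.trans m
    eW1y := h.eW1y.trans m
    eS2x := h.eS2x.trans m
    eS2y := h.eS2y.trans m
    hNx := h.hNx.trans m
    hNy := h.hNy.trans m
    h := h.h.trans m
    x := h.x.trans m
    y := h.y.trans m
    k2 := h.k2.trans m
    k3 := h.k3.trans m
    L := h.L.trans m }

theorem All3.mono {D D' : ℝ} (h : All3 D e) (m : D ≤ D') : All3 D' e :=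
  ⟨h.toBd3.mono m, h.zNx.trans m, h.zNy.trans m, h.r.trans m⟩

end Pool.Agent.P.MP_dba4bb_co.Ex
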