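import Pool.Agent.P.MP_dba4bb_co.Ex.SL

/-! From the piecewise isometry in working coordinates to a folded state of the rectangle. -/

namespace Pool.Agent.P.MP_dba4bb_co.Ex

open Set

namespace Lfin

theorem parL {u : ℝ} (h0 : 0 < u) (h1 : u ≤ 1 / 1000) :
    ParL u (tt u) ((1 - u ^ 2) / (1 + u ^ 2)) (2 * u / (1 + u ^ 2))
      (u - u ^ 2 / 2 + 3 / 2 * tt u * u) := by
  have a2 : 0 < u ^ 2 := by positivity
  have a3 : 0 < u ^ 3 := by positivity
  have b2 : u ^ 2 ≤ u / 1000 := by nlinarith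
  have b4 : u ^ 4 ≤ u ^ 3 := by nlinarith
  have b3 : u ^ 3 ≤ u ^ 2 := by nlinarith
  have hD : 0 < 4 + 7 * u + 7 * u ^ 2 + 3 * u ^ 3 - u ^ 4 := by linarith
  have hm : 0 < 1 + u ^ 2 := by positivity
  have a4 : 0 < u ^ 4 := by positivity
  refine ⟨h0, h1, by field_simp, by field_simp, by ring, ?_, ?_, ?_⟩
  · have hT : tt u * (4 + 7 * u + 7 * u ^ 2 + 3 * u ^ 3 - u ^ 4) =
        2 * u ^ 2 * (1 + 2 * u - u ^ 2) := div_mul_cancel₀ _ hD.ne'
    generalize tt u = t at hT ⊢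
    field_simp
    linear_combination 2 * hT
  · unfold tt
    rw [le_div_iff₀ hD]
    have : 49 / 100 * (4 + 7 * u + 7 * u ^ 2 + 3 * u ^ 3 - u ^ 4) ≤ 2 * (1 + 2 * u - u ^ 2) := by
      linarith
    nlinarith [mul_le_mul_of_nonneg_left this a2.le]
  · unfold tt
    rw [div_le_iff₀ hD]
    have : 2 * (1 + 2 * u - u ^ 2) ≤ 51 / 100 * (4 + 7 * u + 7 * u ^ 2 + 3 * u ^ 3 - u ^ 4) := by
      linarith
    nlinarith [mul_le_mul_of_nonneg_left this a2.le]

theorem poly_closed {G : Set ℂ} (h : Poly G) : IsClosed G := by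
  obtain ⟨L, rfl⟩ := h
  have : {p : ℂ | ∀ c ∈ L, c.1 * p.re + c.2.1 * p.im ≤ c.2.2} =
      ⋂ c ∈ L, {p : ℂ | c.1 * p.re + c.2.1 * p.im ≤ c.2.2} := by
    ext p; simp only [mem_ofPred_eq, mem_iInter]
  rw [this]
  exact isClosed_biInter fun c _ => isClosed_le (by fun_prop) (by fun_prop)

theorem convex_rect (x y : ℝ) : Convex ℝ (Rect x y) := by
  rintro p ⟨⟨a1, a2⟩, a3, a4⟩ q ⟨⟨b1, b2⟩, b3, b4⟩ l m hl hm hlm
  have e1 : (l • p + m • q).re = l * p.re + m * q.re := by simp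
  have e2 : (l • p + m • q).im = l * p.im + m * q.im := by simp
  refine ⟨?_, ?_⟩
  · rw [e1]
    exact convex_Icc 0 x ⟨a1, a2⟩ ⟨b1, b2⟩ hl hm hlm
  · rw [e2]
    exact convex_Icc 0 y ⟨a3, a4⟩ ⟨b3, b4⟩ hl hm hlm

/-- the similarity from the paper to the working plane -/
def sim (A B C D : ℝ) (z : ℂ) : P2 := (A * z.re + B * z.im + C, B * z.re - A * z.im + D)

/-- the cube `[-1,1]³` is moved to the cube `[0,σ]³` -/
noncomputable def emb (σ : ℝ) (q : P3) : E3 :=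
  !₂[σ / 2 * (q.1 + 1), σ / 2 * (q.2.1 + 1), σ / 2 * (q.2.2 + 1)]

theorem dist_emb (σ : ℝ) (p q : P3) : dist (emb σ p) (emb σ q) = √((σ / 2) ^ 2 * e2 p q) := by
  rw [EuclideanSpace.dist_eq]
  congr 1
  simp only [emb, Fin.sum_univ_three, Real.dist_eq, sq_abs, e2]
  simp
  ring

theorem emb_image {σ : ℝ} (hσ : 0 < σ) : emb σ '' Sf = Surf σ := by
  have key : ∀ w : ℝ, -1 ≤ w ∧ w ≤ 1 → σ / 2 * (w + 1) ∈ Icc 0 σ := fun w hw =>
    ⟨by nlinarith [hw.1], by nlinarith [hw.2]⟩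
  ext y
  constructor
  · rintro ⟨q, ⟨h1, h2, h3, h4⟩, rfl⟩
    refine ⟨fun i => ?_, ?_⟩
    · fin_cases i
      exacts [by simpa [emb] using key _ h1, by simpa [emb] using key _ h2,
        by simpa [emb] using key _ h3]
    · rcases h4 with e | e | e | e | e | e
      · exact ⟨0, Or.inr (by simp [emb, e]; ring)⟩
      · exact ⟨0, Or.inl (by simp [emb, e])⟩
      · exact ⟨1, Or.inr (by simp [emb, e]; ring)⟩
      · exact ⟨1, Or.inl (by simp [emb, e])⟩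
      · exact ⟨2, Or.inr (by simp [emb, e]; ring)⟩
      · exact ⟨2, Or.inl (by simp [emb, e])⟩
  · rintro ⟨h1, i, h2⟩
    have k2 : ∀ j, -1 ≤ 2 * y j / σ - 1 ∧ 2 * y j / σ - 1 ≤ 1 := fun j => by
      have a := (h1 j).1
      have b := (h1 j).2
      have c : 0 ≤ 2 * y j / σ := by positivity
      have d : 2 * y j / σ ≤ 2 := by rw [div_le_iff₀ hσ]; linarith
      exact ⟨by linarith, by linarith⟩
    have k3 : ∀ j, y j = 0 ∨ y j = σ → 2 * y j / σ - 1 = 1 ∨ 2 * y j / σ - 1 = -1 := fun j h => by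
      rcases h with e | e
      · right; rw [e]; simp
      · left; rw [e]; field_simp; ring
    refine ⟨(2 * y 0 / σ - 1, 2 * y 1 / σ - 1, 2 * y 2 / σ - 1), ⟨k2 0, k2 1, k2 2, ?_⟩, ?_⟩
    · have := k3 i h2
      fin_cases i
      · simp only [Fin.zero_eta] at this; tauto
      · simp only [Fin.mk_one] at this; tauto
      · simp only [Fin.reduceFinMk] at this; tauto
    · ext j
      fin_cases j <;> simp [emb] <;> field_simp

theorem emb_inj {σ : ℝ} (hσ : 0 < σ) {p q : P3} (h : emb σ p = emb σ q) : p = q := by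
  have h1 := dist_emb σ p q
  rw [h, dist_self, eq_comm, Real.sqrt_eq_zero'] at h1
  refine e2_eq_zero (le_of_mul_le_mul_left (a := (σ / 2) ^ 2) (by simpa using h1) (by positivity))

theorem d2_sim (A B C D : ℝ) (z w : ℂ) : d2 (sim A B C D z) (sim A B C D w) =
    (A ^ 2 + B ^ 2) * ((z.re - w.re) ^ 2 + (z.im - w.im) ^ 2) := by
  unfold d2 sim; ring

theorem poly_sim (A B C D x y : ℝ) {G : Set P2} (h : PolyP G) :
    Poly (sim A B C D ⁻¹' G ∩ Rect x y) := by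
  obtain ⟨L, rfl⟩ := h
  refine ⟨L.map (fun c => (c.1 * A + c.2.1 * B, c.1 * B - c.2.1 * A,
    c.2.2 - c.1 * C - c.2.1 * D)) ++ [(-1, 0, 0), (1, 0, x), (0, -1, 0), (0, 1, y)], ?_⟩
  ext z
  simp only [mem_inter_iff, mem_preimage, mem_ofPred_eq, List.forall_mem_append,
    List.forall_mem_map, List.forall_mem_cons, List.not_mem_nil, Rect, mem_Icc, sim]
  refine and_congr (forall₂_congr fun c _ => ?_) ?_
  · constructor <;> intro h <;> linarith
  · constructor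
    · rintro ⟨⟨a, b⟩, c, d⟩
      exact ⟨by linarith, by linarith, by linarith, by linarith, by simp⟩
    · rintro ⟨a, b, c, d, -⟩
      exact ⟨⟨by linarith, by linarith⟩, by linarith, by linarith⟩

theorem folds_of {A B C D x y σ : ℝ} {R : Set P2} {F : P2 → P3} {H : P2 → ℝ} (hσ : 0 < σ)
    (hK : (σ / 2) ^ 2 * (A ^ 2 + B ^ 2) = 1) (h1 : ∀ z ∈ Rect x y, sim A B C D z ∈ R)
    (h2 : ∀ P ∈ R, ∃ z ∈ Rect x y, sim A B C D z = P) (hF : PwIso R F) (hm : ∀ P ∈ R, F P ∈ Sf)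
    (hs : ∀ q ∈ Sf, ∃ P ∈ R, F P = q) (hH : Continuous H)
    (hi : ∀ P ∈ R, ∀ Q ∈ R, F P = F Q → H P = H Q → P = Q) : Folds x y σ := by
  obtain ⟨𝓖, fin, cov, hG⟩ := hF
  have hc : Continuous (sim A B C D) := by unfold sim; fun_prop
  have hU : ⋃₀ ((fun G => sim A B C D ⁻¹' G ∩ Rect x y) '' 𝓖) = Rect x y := by
    refine Subset.antisymm ?_ fun z hz => ?_
    · rintro z ⟨_, ⟨G, -, rfl⟩, hz⟩
      exact hz.2
    · obtain ⟨G, hG1, hG2⟩ := cov (h1 z hz)
      exact ⟨_, ⟨G, hG1, rfl⟩, hG2, hz⟩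
  have hP : ∀ S ∈ (fun G => sim A B C D ⁻¹' G ∩ Rect x y) '' 𝓖, Poly S ∧ ∀ p ∈ S, ∀ q ∈ S,
      dist (emb σ (F (sim A B C D p))) (emb σ (F (sim A B C D q))) = dist p q := by
    rintro _ ⟨G, hG1, rfl⟩
    refine ⟨poly_sim A B C D x y (hG G hG1).1, fun p hp q hq => ?_⟩
    rw [dist_emb, (hG G hG1).2 _ ⟨hp.1, h1 p hp.2⟩ _ ⟨hq.1, h1 q hq.2⟩, d2_sim, ← mul_assoc, hK,
      one_mul, Complex.dist_eq_re_im]
  refine ⟨fun z => emb σ (F (sim A B C D z)), fun z => H (sim A B C D z), _, fin.image _, hU, hP,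
    ?_, ?_, (hH.comp hc).continuousOn, fun p hp q hq h => ?_⟩
  · rw [← emb_image hσ]
    refine Subset.antisymm ?_ ?_
    · rintro _ ⟨z, hz, rfl⟩
      exact ⟨_, hm _ (h1 z hz), rfl⟩
    · rintro _ ⟨q, hq, rfl⟩
      obtain ⟨P, hP1, rfl⟩ := hs q hq
      obtain ⟨z, hz, rfl⟩ := h2 P hP1
      exact ⟨z, hz, rfl⟩
  · refine (LipschitzOnWith.of_dist_le_mul (K := 1) fun p hp q hq => ?_).continuousOn
    rw [NNReal.coe_one, one_mul]
    exact glue (g := fun z => emb σ (F (sim A B C D z))) (convex_rect x y) (fin.image _)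
      (fun S hS => poly_closed (hP S hS).1) hU.ge
      (fun S hS p hp q hq => ((hP S hS).2 p hp.1 q hq.1).le) hp hq
  · obtain ⟨e1, e2⟩ := Prod.mk.inj h
    have e3 := hi _ (h1 p hp) _ (h1 q hq) (emb_inj hσ e1) e2
    have e4 := d2_sim A B C D p q
    have e5 : d2 (sim A B C D q) (sim A B C D q) = 0 := by unfold d2; ring
    rw [e3, e5] at e4
    have e6 : (p.re - q.re) ^ 2 + (p.im - q.im) ^ 2 = 0 := by
      linear_combination (-(σ / 2) ^ 2) * e4 - ((p.re - q.re) ^ 2 + (p.im - q.im) ^ 2) * hK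
    rw [← dist_eq_zero, Complex.dist_eq_re_im, e6, Real.sqrt_zero]

end Lfin

open Lfin in
theorem sLfin : SLfin := by
  intro hPsi hIso hA hN hT hI u u0 u1
  have par := Lfin.parL u0 u1
  have hr : rr u = (4 + 2 * (u - u ^ 2 / 2 + 3 / 2 * tt u * u)) / (4 * (1 - tt u)) := by
    unfold rr; congr 1; ring
  rw [hr]
  unfold sg
  generalize u - u ^ 2 / 2 + 3 / 2 * tt u * u = β at par ⊢
  generalize tt u = t at par ⊢
  have t0 : 0 ≤ t := le_trans (by positivity) par.t0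
  have t1 : 0 < 1 - t := by nlinarith [par.t1]
  have hm : 0 < 1 + t ^ 2 := by positivity
  obtain ⟨iso, mem⟩ := hIso hPsi u t _ _ β par
  have e1 : ∀ z : ℂ, ∀ P, P = sim (4 * (1 - t) * (1 - t) / (1 + t ^ 2))
      (4 * (1 - t) * (1 + t) / (1 + t ^ 2)) ((-4 - 2 * β * (1 + t)) / (1 + t ^ 2))
      ((-4 * t + 2 * β * (1 - t)) / (1 + t ^ 2)) z →
      P.1 + P.2 - t * (P.1 - P.2) = 8 * (1 - t) * z.re - 4 ∧
      t * (P.1 + P.2) + (P.1 - P.2) = 8 * (1 - t) * z.im - 4 - 4 * β := by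
    rintro z _ rfl
    unfold sim
    constructor <;> field_simp <;> ring
  refine folds_of (A := 4 * (1 - t) * (1 - t) / (1 + t ^ 2))
    (B := 4 * (1 - t) * (1 + t) / (1 + t ^ 2)) (C := (-4 - 2 * β * (1 + t)) / (1 + t ^ 2))
    (D := (-4 * t + 2 * β * (1 - t)) / (1 + t ^ 2)) (H := hh) (by positivity) ?_ ?_ ?_ iso mem
    (fun q hq => ?_) (by unfold hh; fun_prop) (hI u t _ _ β par)
  · rw [div_pow, div_pow, Real.sq_sqrt (by positivity)]
    field_simp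
    ring
  · rintro z ⟨⟨a1, a2⟩, a3, a4⟩
    obtain ⟨b1, b2⟩ := e1 z _ rfl
    rw [le_div_iff₀ (by positivity)] at a4
    have c1 := mul_nonneg t1.le a1
    have c2 := mul_le_mul_of_nonneg_left a2 t1.le
    have c3 := mul_nonneg t1.le a3
    exact ⟨by rw [b1]; linarith, by rw [b1]; linarith, by rw [b2]; linarith, by rw [b2]; linarith⟩
  · rintro P ⟨a1, a2, a3, a4⟩
    refine ⟨⟨(P.1 + P.2 - t * (P.1 - P.2) + 4) / (8 * (1 - t)),
      (t * (P.1 + P.2) + (P.1 - P.2) + 4 + 4 * β) / (8 * (1 - t))⟩,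
      ⟨⟨div_nonneg (by linarith) (by positivity), ?_⟩, div_nonneg (by linarith) (by positivity),
        ?_⟩, ?_⟩
    · rw [div_le_iff₀ (by positivity)]; linarith
    · rw [div_le_div_iff₀ (by positivity) (by positivity)]
      nlinarith [mul_le_mul_of_nonneg_left a4 t1.le]
    · unfold sim
      refine Prod.ext ?_ ?_ <;> simp only <;> field_simp <;> ring
  · rcases hq.2.2.2 with e | e | e | e | e | e
    exacts [hN u t _ _ β par q hq e, hA u t _ _ β par q hq (Or.inl e),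
      hA u t _ _ β par q hq (Or.inr (Or.inl e)), hA u t _ _ β par q hq (Or.inr (Or.inr (Or.inl e))),
      hT u t _ _ β par q hq e, hA u t _ _ β par q hq (Or.inr (Or.inr (Or.inr e)))]

end Pool.Agent.P.MP_dba4bb_co.Ex
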