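import Pool.Agent.P.MP_dba4bb_co.Ex.Cfg

/-! The second order problem. -/

namespace Pool.Agent.P.MP_dba4bb_co.Ex

structure Lin2 (τ : ℝ) (c : Cfg) : Prop extends Lin τ c where
  c3 : 0 ≤ c.s1 - c.s3 + τ
  c4 : 0 ≤ -c.s1 + c.s3 + τ
  hG : 4 - τ ≤ ((c.z1Ny - c.p2y) ^ 2 + (c.z1Ey - c.p4y) ^ 2 + (c.z3Wy - c.p2y) ^ 2 +
    (c.z3Sy - c.p4y) ^ 2) / 4 - c.s1 ^ 2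

def CsP (c : Cfg) : Prop := 0 ≤ c.s1 - c.h1 ∧ 0 ≤ -c.s1 + c.h1 ∧ 0 ≤ c.s1

def CsQ (c : Cfg) : Prop := 0 ≤ c.s1 + c.h1 ∧ 0 ≤ -c.s1 - c.h1 ∧ 0 ≤ c.s1

def NearI (c : Cfg) : Prop :=
  (-1 / 2) ≤ c.z1Ny - c.p2y ∧ c.z1Ny - c.p2y ≤ (1 / 2) ∧
  (-9 / 2) ≤ c.z1Ey - c.p4y ∧ c.z1Ey - c.p4y ≤ (-7 / 2) ∧
  (-1 / 2) ≤ c.z3Wy - c.p2y ∧ c.z3Wy - c.p2y ≤ (1 / 2) ∧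
  (-1 / 2) ≤ c.z3Sy - c.p4y ∧ c.z3Sy - c.p4y ≤ (1 / 2) ∧
  (-1 / 2) ≤ c.s1 ∧ c.s1 ≤ (1 / 2)

def NearII (c : Cfg) : Prop :=
  (11 / 8) ≤ c.z1Ny - c.p2y ∧ c.z1Ny - c.p2y ≤ (13 / 8) ∧
  (-29 / 8) ≤ c.z1Ey - c.p4y ∧ c.z1Ey - c.p4y ≤ (-27 / 8) ∧
  (-5 / 8) ≤ c.z3Wy - c.p2y ∧ c.z3Wy - c.p2y ≤ (-3 / 8) ∧
  (-13 / 8) ≤ c.z3Sy - c.p4y ∧ c.z3Sy - c.p4y ≤ (-11 / 8) ∧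
  (3 / 8) ≤ c.s1 ∧ c.s1 ≤ (5 / 8)

def NearIII (c : Cfg) : Prop :=
  (-5 / 8) ≤ c.z1Ny - c.p2y ∧ c.z1Ny - c.p2y ≤ (-3 / 8) ∧
  (-13 / 8) ≤ c.z1Ey - c.p4y ∧ c.z1Ey - c.p4y ≤ (-11 / 8) ∧
  (11 / 8) ≤ c.z3Wy - c.p2y ∧ c.z3Wy - c.p2y ≤ (13 / 8) ∧
  (-29 / 8) ≤ c.z3Sy - c.p4y ∧ c.z3Sy - c.p4y ≤ (-27 / 8) ∧
  (3 / 8) ≤ c.s1 ∧ c.s1 ≤ (5 / 8)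


end Pool.Agent.P.MP_dba4bb_co.Ex
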