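import Pool.Agent.P.MP_dba4bb_co.Ex.Linj1

/-! One point in the rotated part. -/

namespace Pool.Agent.P.MP_dba4bb_co.Ex

namespace LinjP

variable {p q x y p' q' x' y' U V W H : ℝ}

theorem x0_20 (h : K0 p q U V W H) (g : K20 p' q' x' y' U V W H) :
    p = p' ∧ q = q' := by
  exfalso; linarith only [g.a11, g.a3, g.a7, h.a8]

theorem x0_21 (h : K0 p q U V W H) (g : K21 p' q' x' y' U V W H) :
    p = p' ∧ q = q' := by
  exfalso; linarith only [g.a12, g.a2, g.a3, g.a8, h.a8]

theorem x0_22 (h : K0 p q U V W H) (g : K22 p' q' x' y' U V W H) :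
    p = p' ∧ q = q' := by
  exfalso; linarith only [g.a1, g.a2, g.a5, g.a9, h.a8]

theorem x0_23 (h : K0 p q U V W H) (g : K23 p' q' x' y' U V W H) :
    p = p' ∧ q = q' := by
  exfalso; linarith only [g.a1, g.a5, g.a9, h.a8]

theorem x0_24 (h : K0 p q U V W H) (g : K24 p' q' x' y' U V W H) :
    p = p' ∧ q = q' := by
  exfalso; linarith only [g.a1, g.a10, g.a4, h.a8]

theorem x0_25 (h : K0 p q U V W H) (g : K25 p' q' x' y' U V W H) :
    p = p' ∧ q = q' := by
  exfalso; linarith only [g.a0, g.a3, g.a4, g.a6, g.a7, h.a5]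

theorem x0_26 (h : K0 p q U V W H) (g : K26 p' q' x' y' U V W H) :
    p = p' ∧ q = q' := by
  exfalso; linarith only [g.a12, g.a3, g.a6, h.a8]

theorem x0_27 (h : K0 p q U V W H) (g : K27 p' q' x' y' U V W H) :
    p = p' ∧ q = q' := by
  exfalso; linarith only [g.a2, g.a4, g.a7, g.a8, h.a5]

theorem x0_28 (h : K0 p q U V W H) (g : K28 p' q' x' y' U V W H) :
    p = p' ∧ q = q' := by
  exfalso; linarith only [g.a1, g.a14, g.a8, h.a8]

theorem x0_29 (h : K0 p q U V W H) (g : K29 p' q' x' y' U V W H) :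
    p = p' ∧ q = q' := by
  exfalso; linarith only [g.a0, g.a3, g.a9, h.a8]

theorem x0_30 (h : K0 p q U V W H) (g : K30 p' q' x' y' U V W H) :
    p = p' ∧ q = q' := by
  exfalso; linarith only [g.a12, g.a2, g.a6, g.a7, g.a9, h.a5, h.a8]

theorem x0_31 (h : K0 p q U V W H) (g : K31 p' q' x' y' U V W H) :
    p = p' ∧ q = q' := by
  exfalso; linarith only [g.a1, g.a10, g.a4, g.a5, g.a7, h.a5, h.a8]

theorem x1_20 (h : K1 p q U V W H) (g : K20 p' q' x' y' U V W H) :
    p = p' ∧ q = q' := by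
  exfalso; linarith only [g.a11, g.a7, g.a9, h.a0, h.a3, h.a5, h.a7]

theorem x1_21 (h : K1 p q U V W H) (g : K21 p' q' x' y' U V W H) :
    p = p' ∧ q = q' := by
  exfalso; linarith only [g.a11, g.a12, g.a8, h.a6, h.a7]

theorem x1_22 (h : K1 p q U V W H) (g : K22 p' q' x' y' U V W H) :
    p = p' ∧ q = q' := by
  exfalso; linarith only [g.a1, g.a2, g.a5, g.a9, h.a7]

theorem x1_23 (h : K1 p q U V W H) (g : K23 p' q' x' y' U V W H) :
    p = p' ∧ q = q' := by
  exfalso; linarith only [g.a1, g.a5, g.a9, h.a7]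

theorem x1_24 (h : K1 p q U V W H) (g : K24 p' q' x' y' U V W H) :
    p = p' ∧ q = q' := by
  exfalso; linarith only [g.a1, g.a10, g.a8, h.a0, h.a3, h.a5, h.a7]

theorem x1_25 (h : K1 p q U V W H) (g : K25 p' q' x' y' U V W H) :
    p = p' ∧ q = q' := by
  exfalso; linarith only [g.a10, g.a3, g.a4, g.a6, g.a7, g.a8, h.a0, h.a4, h.a5, h.a7]

theorem x1_26 (h : K1 p q U V W H) (g : K26 p' q' x' y' U V W H) :
    p = p' ∧ q = q' := by
  exfalso; linarith only [g.a12, g.a3, g.a6, h.a7]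

theorem x1_27 (h : K1 p q U V W H) (g : K27 p' q' x' y' U V W H) :
    p = p' ∧ q = q' := by
  exfalso; linarith only [g.a2, g.a4, g.a7, g.a8, g.a9, h.a0, h.a4, h.a5]

theorem x1_28 (h : K1 p q U V W H) (g : K28 p' q' x' y' U V W H) :
    p = p' ∧ q = q' := by
  exfalso; linarith only [g.a13, g.a14, g.a8, h.a6, h.a7]

theorem x1_29 (h : K1 p q U V W H) (g : K29 p' q' x' y' U V W H) :
    p = p' ∧ q = q' := by
  exfalso; linarith only [g.a8, h.a6]

theorem x1_30 (h : K1 p q U V W H) (g : K30 p' q' x' y' U V W H) :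
    p = p' ∧ q = q' := by
  exfalso; linarith only [g.a10, g.a11, g.a12, g.a6, g.a7, g.a9, h.a0, h.a4, h.a5, h.a6, h.a7]

theorem x1_31 (h : K1 p q U V W H) (g : K31 p' q' x' y' U V W H) :
    p = p' ∧ q = q' := by
  exfalso; linarith only [g.a10, g.a4, g.a5, g.a7, g.a8, h.a0, h.a1, h.a4, h.a5, h.a7]

theorem x2_20 (h : K2 p q U V W H) (g : K20 p' q' x' y' U V W H) :
    p = p' ∧ q = q' := by
  exfalso; linarith only [g.a0, g.a11, g.a2, g.a4, g.a7, g.a9, h.a5, h.a7]

theorem x2_21 (h : K2 p q U V W H) (g : K21 p' q' x' y' U V W H) :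
    p = p' ∧ q = q' := by
  exfalso; linarith only [g.a0, g.a10, g.a12, g.a3, g.a5, g.a8, h.a5, h.a7]

theorem x2_22 (h : K2 p q U V W H) (g : K22 p' q' x' y' U V W H) :
    p = p' ∧ q = q' := by
  exfalso; linarith only [g.a0, g.a3, g.a5, g.a7, g.a8, h.a0, h.a5, h.a6]

theorem x2_23 (h : K2 p q U V W H) (g : K23 p' q' x' y' U V W H) :
    p = p' ∧ q = q' := by
  exfalso; linarith only [g.a0, g.a3, g.a5, g.a7, g.a8, h.a0, h.a5, h.a6]

theorem x2_24 (h : K2 p q U V W H) (g : K24 p' q' x' y' U V W H) :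
    p = p' ∧ q = q' := by
  exfalso; linarith only [g.a0, g.a1, g.a10, g.a2, g.a6, g.a8, h.a5, h.a7]

theorem x2_25 (h : K2 p q U V W H) (g : K25 p' q' x' y' U V W H) :
    p = p' ∧ q = q' := by
  exfalso; linarith only [g.a0, g.a3, g.a4, g.a6, g.a7, h.a4]

theorem x2_26 (h : K2 p q U V W H) (g : K26 p' q' x' y' U V W H) :
    p = p' ∧ q = q' := by
  exfalso; linarith only [g.a10, g.a11, g.a12, g.a6, h.a0, h.a5, h.a6, h.a7]

theorem x2_27 (h : K2 p q U V W H) (g : K27 p' q' x' y' U V W H) :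
    p = p' ∧ q = q' := by
  exfalso; linarith only [g.a0, g.a11, g.a2, g.a4, g.a8, g.a9, h.a4, h.a5, h.a7]

theorem x2_28 (h : K2 p q U V W H) (g : K28 p' q' x' y' U V W H) :
    p = p' ∧ q = q' := by
  exfalso; linarith only [g.a0, g.a12, g.a13, g.a14, g.a6, g.a9, h.a0, h.a5, h.a6, h.a7]

theorem x2_29 (h : K2 p q U V W H) (g : K29 p' q' x' y' U V W H) :
    p = p' ∧ q = q' := by
  exfalso; linarith only [g.a0, g.a2, g.a5, g.a7, g.a9, h.a5, h.a7]

theorem x2_30 (h : K2 p q U V W H) (g : K30 p' q' x' y' U V W H) :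
    p = p' ∧ q = q' := by
  exfalso; linarith only [g.a12, g.a2, g.a6, g.a7, g.a9, h.a0, h.a2, h.a4, h.a7]

theorem x2_31 (h : K2 p q U V W H) (g : K31 p' q' x' y' U V W H) :
    p = p' ∧ q = q' := by
  exfalso; linarith only [g.a10, g.a4, g.a5, g.a7, g.a8, g.a9, h.a0, h.a4, h.a5, h.a6, h.a7]

theorem x3_20 (h : K3 p q U V W H) (g : K20 p' q' x' y' U V W H) :
    p = p' ∧ q = q' := by
  exfalso; linarith only [g.a10, g.a11, g.a2, g.a6, g.a9, h.a2, h.a5, h.a6, h.a7]

theorem x3_21 (h : K3 p q U V W H) (g : K21 p' q' x' y' U V W H) :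
    p = p' ∧ q = q' := by
  exfalso; linarith only [g.a10, g.a11, g.a12, g.a3, g.a7, h.a2, h.a5, h.a6, h.a7]

theorem x3_22 (h : K3 p q U V W H) (g : K22 p' q' x' y' U V W H) :
    p = p' ∧ q = q' := by
  exfalso; linarith only [g.a0, g.a3, g.a5, g.a7, g.a8, g.a9, h.a2, h.a5, h.a6, h.a7]

theorem x3_23 (h : K3 p q U V W H) (g : K23 p' q' x' y' U V W H) :
    p = p' ∧ q = q' := by
  exfalso; linarith only [g.a0, g.a3, g.a5, g.a7, g.a8, g.a9, h.a2, h.a5, h.a6, h.a7]

theorem x3_24 (h : K3 p q U V W H) (g : K24 p' q' x' y' U V W H) :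
    p = p' ∧ q = q' := by
  exfalso; linarith only [g.a1, g.a10, g.a6, g.a8, g.a9, h.a2, h.a5, h.a6, h.a7]

theorem x3_25 (h : K3 p q U V W H) (g : K25 p' q' x' y' U V W H) :
    p = p' ∧ q = q' := by
  exfalso; linarith only [g.a0, g.a10, g.a3, g.a4, g.a7, g.a9, h.a4, h.a6, h.a7]

theorem x3_26 (h : K3 p q U V W H) (g : K26 p' q' x' y' U V W H) :
    p = p' ∧ q = q' := by
  exfalso; linarith only [g.a0, g.a1, g.a11, g.a12, h.a6, h.a7]

theorem x3_27 (h : K3 p q U V W H) (g : K27 p' q' x' y' U V W H) :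
    p = p' ∧ q = q' := by
  exfalso; linarith only [g.a10, g.a11, g.a4, g.a6, g.a8, g.a9, h.a2, h.a4, h.a5, h.a6, h.a7]

theorem x3_28 (h : K3 p q U V W H) (g : K28 p' q' x' y' U V W H) :
    p = p' ∧ q = q' := by
  exfalso; linarith only [g.a12, g.a13, g.a14, g.a3, g.a9, h.a2, h.a5, h.a6, h.a7]

theorem x3_29 (h : K3 p q U V W H) (g : K29 p' q' x' y' U V W H) :
    p = p' ∧ q = q' := by
  exfalso; linarith only [g.a0, g.a2, g.a5, g.a7, g.a9, h.a2, h.a5, h.a7]

theorem x3_30 (h : K3 p q U V W H) (g : K30 p' q' x' y' U V W H) :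
    p = p' ∧ q = q' := by
  exfalso; linarith only [g.a10, g.a12, g.a2, g.a6, g.a7, g.a9, h.a0, h.a4, h.a5, h.a7]

theorem x3_31 (h : K3 p q U V W H) (g : K31 p' q' x' y' U V W H) :
    p = p' ∧ q = q' := by
  exfalso; linarith only [g.a0, g.a10, g.a4, g.a5, g.a7, g.a8, h.a0, h.a4, h.a5, h.a7]

theorem x4_20 (h : K4 p q U V W H) (g : K20 p' q' x' y' U V W H) :
    p = p' ∧ q = q' := by
  exfalso; linarith only [g.a0, g.a11, g.a2, g.a4, g.a9, h.a1, h.a2, h.a4, h.a6]

theorem x4_21 (h : K4 p q U V W H) (g : K21 p' q' x' y' U V W H) :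
    p = p' ∧ q = q' := by
  exfalso; linarith only [g.a0, g.a10, g.a12, g.a5, g.a8, h.a1, h.a2, h.a4, h.a6]

theorem x4_22 (h : K4 p q U V W H) (g : K22 p' q' x' y' U V W H) :
    p = p' ∧ q = q' := by
  exfalso; linarith only [g.a0, g.a1, g.a3, g.a5, g.a7, g.a9, h.a4, h.a6]

theorem x4_23 (h : K4 p q U V W H) (g : K23 p' q' x' y' U V W H) :
    p = p' ∧ q = q' := by
  exfalso; linarith only [g.a0, g.a3, g.a5, g.a7, g.a9, h.a1, h.a2, h.a4, h.a6]

theorem x4_24 (h : K4 p q U V W H) (g : K24 p' q' x' y' U V W H) :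
    p = p' ∧ q = q' := by
  exfalso; linarith only [g.a0, g.a1, g.a10, g.a2, g.a6, g.a8, h.a4, h.a6]

theorem x4_25 (h : K4 p q U V W H) (g : K25 p' q' x' y' U V W H) :
    p = p' ∧ q = q' := by
  exfalso; linarith only [g.a0, g.a10, g.a3, g.a4, g.a7, g.a8, h.a3, h.a4, h.a6]

theorem x4_26 (h : K4 p q U V W H) (g : K26 p' q' x' y' U V W H) :
    p = p' ∧ q = q' := by
  exfalso; linarith only [g.a0, g.a1, g.a10, g.a12, g.a6, h.a4, h.a6]

theorem x4_27 (h : K4 p q U V W H) (g : K27 p' q' x' y' U V W H) :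
    p = p' ∧ q = q' := by
  exfalso; linarith only [g.a0, g.a11, g.a2, g.a4, g.a8, g.a9, h.a3, h.a4, h.a6]

theorem x4_28 (h : K4 p q U V W H) (g : K28 p' q' x' y' U V W H) :
    p = p' ∧ q = q' := by
  exfalso; linarith only [g.a0, g.a12, g.a14, g.a4, g.a6, g.a9, h.a4, h.a6]

theorem x4_29 (h : K4 p q U V W H) (g : K29 p' q' x' y' U V W H) :
    p = p' ∧ q = q' := by
  exfalso; linarith only [g.a2, g.a5, g.a7, g.a8, g.a9, h.a2, h.a4, h.a5, h.a6]

theorem x4_30 (h : K4 p q U V W H) (g : K30 p' q' x' y' U V W H) :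
    p = p' ∧ q = q' := by
  exfalso; linarith only [g.a10, h.a0, h.a1, h.a4]

theorem x4_31 (h : K4 p q U V W H) (g : K31 p' q' x' y' U V W H) :
    p = p' ∧ q = q' := by
  exfalso; linarith only [g.a0, g.a10, g.a4, g.a5, g.a8, h.a0, h.a1, h.a4, h.a6]

theorem x5_20 (h : K5 p q U V W H) (g : K20 p' q' x' y' U V W H) :
    p = p' ∧ q = q' := by
  exfalso; linarith only [g.a0, g.a10, g.a11, g.a2, g.a4, h.a1, h.a5, h.a6]

theorem x5_21 (h : K5 p q U V W H) (g : K21 p' q' x' y' U V W H) :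
    p = p' ∧ q = q' := by
  exfalso; linarith only [g.a0, g.a12, g.a4, g.a5, g.a7, h.a1, h.a6]

theorem x5_22 (h : K5 p q U V W H) (g : K22 p' q' x' y' U V W H) :
    p = p' ∧ q = q' := by
  exfalso; linarith only [g.a0, g.a1, g.a3, g.a5, g.a9, h.a1, h.a6]

theorem x5_23 (h : K5 p q U V W H) (g : K23 p' q' x' y' U V W H) :
    p = p' ∧ q = q' := by
  exfalso; linarith only [g.a0, g.a3, g.a4, g.a8, g.a9, h.a1, h.a5, h.a6]

theorem x5_24 (h : K5 p q U V W H) (g : K24 p' q' x' y' U V W H) :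
    p = p' ∧ q = q' := by
  exfalso; linarith only [g.a0, g.a10, g.a2, g.a4, g.a6, h.a1, h.a6]

theorem x5_25 (h : K5 p q U V W H) (g : K25 p' q' x' y' U V W H) :
    p = p' ∧ q = q' := by
  exfalso; linarith only [g.a0, g.a10, g.a3, g.a4, g.a7, h.a1, h.a3, h.a6]

theorem x5_26 (h : K5 p q U V W H) (g : K26 p' q' x' y' U V W H) :
    p = p' ∧ q = q' := by
  exfalso; linarith only [g.a0, g.a1, g.a12, h.a1, h.a6]

theorem x5_27 (h : K5 p q U V W H) (g : K27 p' q' x' y' U V W H) :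
    p = p' ∧ q = q' := by
  exfalso; linarith only [g.a0, g.a11, g.a2, g.a4, g.a8, h.a1, h.a3, h.a6]

theorem x5_28 (h : K5 p q U V W H) (g : K28 p' q' x' y' U V W H) :
    p = p' ∧ q = q' := by
  exfalso; linarith only [g.a0, g.a14, g.a4, g.a6, g.a9, h.a1, h.a6]

theorem x5_29 (h : K5 p q U V W H) (g : K29 p' q' x' y' U V W H) :
    p = p' ∧ q = q' := by
  exfalso; linarith only [g.a2, g.a3, g.a5, g.a8, g.a9, h.a5, h.a6]

theorem x5_30 (h : K5 p q U V W H) (g : K30 p' q' x' y' U V W H) :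
    p = p' ∧ q = q' := by
  exfalso; linarith only [g.a10, h.a0, h.a1, h.a4]

theorem x5_31 (h : K5 p q U V W H) (g : K31 p' q' x' y' U V W H) :
    p = p' ∧ q = q' := by
  exfalso; linarith only [g.a0, g.a10, g.a4, g.a5, g.a7, g.a8, h.a0, h.a3, h.a4, h.a6]

theorem x6_20 (h : K6 p q U V W H) (g : K20 p' q' x' y' U V W H) :
    p = p' ∧ q = q' := by
  exfalso; linarith only [g.a11, g.a3, g.a7, h.a7]

theorem x6_21 (h : K6 p q U V W H) (g : K21 p' q' x' y' U V W H) :
    p = p' ∧ q = q' := by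
  exfalso; linarith only [g.a12, g.a2, g.a3, g.a8, h.a7]

theorem x6_22 (h : K6 p q U V W H) (g : K22 p' q' x' y' U V W H) :
    p = p' ∧ q = q' := by
  exfalso; linarith only [g.a2, g.a5, g.a8, g.a9, h.a6, h.a7]

theorem x6_23 (h : K6 p q U V W H) (g : K23 p' q' x' y' U V W H) :
    p = p' ∧ q = q' := by
  exfalso; linarith only [g.a5, g.a8, g.a9, h.a6, h.a7]

theorem x6_24 (h : K6 p q U V W H) (g : K24 p' q' x' y' U V W H) :
    p = p' ∧ q = q' := by
  exfalso; linarith only [g.a1, g.a10, g.a4, h.a7]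

theorem x6_25 (h : K6 p q U V W H) (g : K25 p' q' x' y' U V W H) :
    p = p' ∧ q = q' := by
  exfalso; linarith only [g.a9, h.a6]

theorem x6_26 (h : K6 p q U V W H) (g : K26 p' q' x' y' U V W H) :
    p = p' ∧ q = q' := by
  exfalso; linarith only [g.a11, h.a6]

theorem x6_27 (h : K6 p q U V W H) (g : K27 p' q' x' y' U V W H) :
    p = p' ∧ q = q' := by
  exfalso; linarith only [g.a1, g.a10, g.a11, g.a4, g.a6, h.a6, h.a7]

theorem x6_28 (h : K6 p q U V W H) (g : K28 p' q' x' y' U V W H) :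
    p = p' ∧ q = q' := by
  exfalso; linarith only [g.a1, g.a13, g.a14, h.a6, h.a7]

theorem x6_29 (h : K6 p q U V W H) (g : K29 p' q' x' y' U V W H) :
    p = p' ∧ q = q' := by
  exfalso; linarith only [g.a0, g.a3, g.a9, h.a7]

theorem x6_30 (h : K6 p q U V W H) (g : K30 p' q' x' y' U V W H) :
    p = p' ∧ q = q' := by
  exfalso; linarith only [g.a11, g.a2, g.a4, h.a6]

theorem x6_31 (h : K6 p q U V W H) (g : K31 p' q' x' y' U V W H) :
    p = p' ∧ q = q' := by
  exfalso; linarith only [g.a9, h.a6]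

theorem x7_20 (h : K7 p q U V W H) (g : K20 p' q' x' y' U V W H) :
    p = p' ∧ q = q' := by
  exfalso; linarith only [g.a0, g.a10, g.a11, g.a2, g.a4, g.a9, h.a5, h.a6, h.a7]

theorem x7_21 (h : K7 p q U V W H) (g : K21 p' q' x' y' U V W H) :
    p = p' ∧ q = q' := by
  exfalso; linarith only [g.a0, g.a10, g.a11, g.a12, g.a3, g.a5, h.a5, h.a6, h.a7]

theorem x7_22 (h : K7 p q U V W H) (g : K22 p' q' x' y' U V W H) :
    p = p' ∧ q = q' := by
  exfalso; linarith only [g.a0, g.a3, g.a5, g.a7, g.a8, g.a9, h.a5, h.a6, h.a7]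

theorem x7_23 (h : K7 p q U V W H) (g : K23 p' q' x' y' U V W H) :
    p = p' ∧ q = q' := by
  exfalso; linarith only [g.a0, g.a3, g.a5, g.a7, g.a8, g.a9, h.a5, h.a6, h.a7]

theorem x7_24 (h : K7 p q U V W H) (g : K24 p' q' x' y' U V W H) :
    p = p' ∧ q = q' := by
  exfalso; linarith only [g.a1, g.a10, g.a6, g.a8, g.a9, h.a5, h.a6, h.a7]

theorem x7_25 (h : K7 p q U V W H) (g : K25 p' q' x' y' U V W H) :
    p = p' ∧ q = q' := by
  exfalso; linarith only [g.a0, g.a10, g.a4, g.a8, g.a9, h.a5, h.a6, h.a7]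

theorem x7_26 (h : K7 p q U V W H) (g : K26 p' q' x' y' U V W H) :
    p = p' ∧ q = q' := by
  exfalso; linarith only [g.a0, g.a1, g.a11, g.a12, h.a6, h.a7]

theorem x7_27 (h : K7 p q U V W H) (g : K27 p' q' x' y' U V W H) :
    p = p' ∧ q = q' := by
  exfalso; linarith only [g.a9, h.a5]

theorem x7_28 (h : K7 p q U V W H) (g : K28 p' q' x' y' U V W H) :
    p = p' ∧ q = q' := by
  exfalso; linarith only [g.a12, h.a5]

theorem x7_29 (h : K7 p q U V W H) (g : K29 p' q' x' y' U V W H) :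
    p = p' ∧ q = q' := by
  exfalso; linarith only [g.a0, g.a2, g.a5, g.a7, h.a5]

theorem x7_30 (h : K7 p q U V W H) (g : K30 p' q' x' y' U V W H) :
    p = p' ∧ q = q' := by
  exfalso; linarith only [g.a10, h.a5]

theorem x7_31 (h : K7 p q U V W H) (g : K31 p' q' x' y' U V W H) :
    p = p' ∧ q = q' := by
  exfalso; linarith only [g.a0, g.a10, g.a4, g.a5, g.a8, g.a9, h.a5, h.a6, h.a7]

theorem x8_20 (h : K8 p q U V W H) (g : K20 p' q' x' y' U V W H) :
    p = p' ∧ q = q' := by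
  exfalso; linarith only [g.a0, g.a11, g.a2, g.a4, g.a6, h.a4, h.a8]

theorem x8_21 (h : K8 p q U V W H) (g : K21 p' q' x' y' U V W H) :
    p = p' ∧ q = q' := by
  exfalso; linarith only [g.a0, g.a10, g.a12, g.a4, g.a5, h.a4, h.a6, h.a8]

theorem x8_22 (h : K8 p q U V W H) (g : K22 p' q' x' y' U V W H) :
    p = p' ∧ q = q' := by
  exfalso; linarith only [g.a0, g.a1, g.a3, g.a5, g.a9, h.a4, h.a8]

theorem x8_23 (h : K8 p q U V W H) (g : K23 p' q' x' y' U V W H) :
    p = p' ∧ q = q' := by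
  exfalso; linarith only [g.a0, g.a3, g.a5, g.a7, g.a9, h.a4, h.a6, h.a8]

theorem x8_24 (h : K8 p q U V W H) (g : K24 p' q' x' y' U V W H) :
    p = p' ∧ q = q' := by
  exfalso; linarith only [g.a0, g.a10, g.a2, g.a6, g.a8, h.a4, h.a6, h.a8]

theorem x8_25 (h : K8 p q U V W H) (g : K25 p' q' x' y' U V W H) :
    p = p' ∧ q = q' := by
  exfalso; linarith only [g.a0, g.a10, g.a2, g.a3, g.a4, g.a8, h.a6, h.a8]

theorem x8_26 (h : K8 p q U V W H) (g : K26 p' q' x' y' U V W H) :
    p = p' ∧ q = q' := by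
  exfalso; linarith only [g.a0, g.a1, g.a12, h.a4, h.a8]

theorem x8_27 (h : K8 p q U V W H) (g : K27 p' q' x' y' U V W H) :
    p = p' ∧ q = q' := by
  exfalso; linarith only [g.a0, g.a11, g.a3, g.a4, g.a5, g.a9, h.a6, h.a8]

theorem x8_28 (h : K8 p q U V W H) (g : K28 p' q' x' y' U V W H) :
    p = p' ∧ q = q' := by
  exfalso; linarith only [g.a0, g.a12, g.a14, g.a4, g.a6, g.a9, h.a6, h.a8]

theorem x8_29 (h : K8 p q U V W H) (g : K29 p' q' x' y' U V W H) :
    p = p' ∧ q = q' := by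
  exfalso; linarith only [g.a2, g.a5, g.a7, g.a9, h.a4, h.a6, h.a8]

theorem x8_30 (h : K8 p q U V W H) (g : K30 p' q' x' y' U V W H) :
    p = p' ∧ q = q' := by
  exfalso; linarith only [g.a0, g.a10, g.a11, g.a12, g.a2, g.a7, h.a6, h.a7, h.a8]

theorem x8_31 (h : K8 p q U V W H) (g : K31 p' q' x' y' U V W H) :
    p = p' ∧ q = q' := by
  exfalso; linarith only [g.a0, g.a10, g.a4, g.a5, g.a8, h.a0, h.a1, h.a6, h.a8]

theorem x9_20 (h : K9 p q U V W H) (g : K20 p' q' x' y' U V W H) :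
    p = p' ∧ q = q' := by
  exfalso; linarith only [g.a8, h.a4]

theorem x9_21 (h : K9 p q U V W H) (g : K21 p' q' x' y' U V W H) :
    p = p' ∧ q = q' := by
  exfalso; linarith only [g.a9, h.a4]

theorem x9_22 (h : K9 p q U V W H) (g : K22 p' q' x' y' U V W H) :
    p = p' ∧ q = q' := by
  exfalso; linarith only [g.a6, h.a4]

theorem x9_23 (h : K9 p q U V W H) (g : K23 p' q' x' y' U V W H) :
    p = p' ∧ q = q' := by
  exfalso; linarith only [g.a6, h.a4]

theorem x9_24 (h : K9 p q U V W H) (g : K24 p' q' x' y' U V W H) :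
    p = p' ∧ q = q' := by
  exfalso; linarith only [g.a7, h.a4]

theorem x9_25 (h : K9 p q U V W H) (g : K25 p' q' x' y' U V W H) :
    p = p' ∧ q = q' := by
  exfalso; linarith only [g.a0, g.a10, g.a2, g.a3, g.a4, g.a9, h.a6, h.a7]

theorem x9_26 (h : K9 p q U V W H) (g : K26 p' q' x' y' U V W H) :
    p = p' ∧ q = q' := by
  exfalso; linarith only [g.a0, g.a1, g.a11, g.a12, h.a6, h.a7]

theorem x9_27 (h : K9 p q U V W H) (g : K27 p' q' x' y' U V W H) :
    p = p' ∧ q = q' := by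
  exfalso; linarith only [g.a1, g.a10, g.a11, g.a3, g.a4, g.a6, h.a6, h.a7]

theorem x9_28 (h : K9 p q U V W H) (g : K28 p' q' x' y' U V W H) :
    p = p' ∧ q = q' := by
  exfalso; linarith only [g.a1, g.a11, g.a13, g.a14, g.a9, h.a4, h.a6, h.a7]

theorem x9_29 (h : K9 p q U V W H) (g : K29 p' q' x' y' U V W H) :
    p = p' ∧ q = q' := by
  exfalso; linarith only [g.a0, g.a3, g.a5, g.a6, h.a4]

theorem x9_30 (h : K9 p q U V W H) (g : K30 p' q' x' y' U V W H) :
    p = p' ∧ q = q' := by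
  exfalso; linarith only [g.a11, g.a12, g.a2, g.a5, g.a8, g.a9, h.a4, h.a6, h.a7]

theorem x9_31 (h : K9 p q U V W H) (g : K31 p' q' x' y' U V W H) :
    p = p' ∧ q = q' := by
  exfalso; linarith only [g.a0, g.a10, g.a3, g.a5, g.a7, g.a9, h.a4, h.a6, h.a7]

theorem x10_20 (h : K10 p q U V W H) (g : K20 p' q' x' y' U V W H) :
    p = p' ∧ q = q' := by
  exfalso; linarith only [g.a0, g.a11, g.a2, g.a4, g.a6, g.a8, h.a5, h.a8]

theorem x10_21 (h : K10 p q U V W H) (g : K21 p' q' x' y' U V W H) :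
    p = p' ∧ q = q' := by
  exfalso; linarith only [g.a0, g.a12, g.a4, g.a5, g.a7, g.a9, h.a5, h.a8]

theorem x10_22 (h : K10 p q U V W H) (g : K22 p' q' x' y' U V W H) :
    p = p' ∧ q = q' := by
  exfalso; linarith only [g.a0, g.a1, g.a3, g.a5, g.a6, g.a9, h.a5, h.a8]

theorem x10_23 (h : K10 p q U V W H) (g : K23 p' q' x' y' U V W H) :
    p = p' ∧ q = q' := by
  exfalso; linarith only [g.a0, g.a2, g.a3, g.a4, g.a6, g.a9, h.a5, h.a8]

theorem x10_24 (h : K10 p q U V W H) (g : K24 p' q' x' y' U V W H) :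
    p = p' ∧ q = q' := by
  exfalso; linarith only [g.a0, g.a10, g.a2, g.a4, g.a6, g.a7, h.a5, h.a8]

theorem x10_25 (h : K10 p q U V W H) (g : K25 p' q' x' y' U V W H) :
    p = p' ∧ q = q' := by
  exfalso; linarith only [g.a0, g.a10, g.a2, g.a3, g.a4, h.a4, h.a8]

theorem x10_26 (h : K10 p q U V W H) (g : K26 p' q' x' y' U V W H) :
    p = p' ∧ q = q' := by
  exfalso; linarith only [g.a0, g.a1, g.a12, h.a4, h.a8]

theorem x10_27 (h : K10 p q U V W H) (g : K27 p' q' x' y' U V W H) :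
    p = p' ∧ q = q' := by
  exfalso; linarith only [g.a0, g.a11, g.a3, g.a4, g.a5, h.a4, h.a8]

theorem x10_28 (h : K10 p q U V W H) (g : K28 p' q' x' y' U V W H) :
    p = p' ∧ q = q' := by
  exfalso; linarith only [g.a11, g.a14, g.a4, g.a9, h.a4, h.a5, h.a8]

theorem x10_29 (h : K10 p q U V W H) (g : K29 p' q' x' y' U V W H) :
    p = p' ∧ q = q' := by
  exfalso; linarith only [g.a3, g.a5, g.a6, g.a9, h.a4, h.a5, h.a8]

theorem x10_30 (h : K10 p q U V W H) (g : K30 p' q' x' y' U V W H) :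
    p = p' ∧ q = q' := by
  exfalso; linarith only [g.a0, g.a12, g.a5, g.a7, g.a9, h.a4, h.a5, h.a8]

theorem x10_31 (h : K10 p q U V W H) (g : K31 p' q' x' y' U V W H) :
    p = p' ∧ q = q' := by
  exfalso; linarith only [g.a0, g.a10, g.a3, g.a5, g.a7, h.a4, h.a5, h.a8]

theorem x11_20 (h : K11 p q U V W H) (g : K20 p' q' x' y' U V W H) :
    p = p' ∧ q = q' := by
  exfalso; linarith only [g.a0, g.a11, g.a2, g.a4, g.a6, g.a8, h.a2, h.a4, h.a7]

theorem x11_21 (h : K11 p q U V W H) (g : K21 p' q' x' y' U V W H) :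
    p = p' ∧ q = q' := by
  exfalso; linarith only [g.a0, g.a11, g.a12, g.a5, g.a7, g.a9, h.a2, h.a4, h.a6, h.a7]

theorem x11_22 (h : K11 p q U V W H) (g : K22 p' q' x' y' U V W H) :
    p = p' ∧ q = q' := by
  exfalso; linarith only [g.a0, g.a3, g.a5, g.a6, g.a8, g.a9, h.a2, h.a4, h.a6, h.a7]

theorem x11_23 (h : K11 p q U V W H) (g : K23 p' q' x' y' U V W H) :
    p = p' ∧ q = q' := by
  exfalso; linarith only [g.a0, g.a2, g.a3, g.a6, g.a7, g.a9, h.a2, h.a4, h.a5, h.a7]

theorem x11_24 (h : K11 p q U V W H) (g : K24 p' q' x' y' U V W H) :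
    p = p' ∧ q = q' := by
  exfalso; linarith only [g.a10, g.a6, g.a7, g.a8, g.a9, h.a2, h.a4, h.a5, h.a6, h.a7]

theorem x11_25 (h : K11 p q U V W H) (g : K25 p' q' x' y' U V W H) :
    p = p' ∧ q = q' := by
  exfalso; linarith only [g.a0, g.a10, g.a4, g.a8, g.a9, h.a1, h.a5, h.a6, h.a7]

theorem x11_26 (h : K11 p q U V W H) (g : K26 p' q' x' y' U V W H) :
    p = p' ∧ q = q' := by
  exfalso; linarith only [g.a1, g.a10, g.a11, g.a12, g.a5, g.a6, g.a9, h.a4, h.a5, h.a6, h.a7]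

theorem x11_27 (h : K11 p q U V W H) (g : K27 p' q' x' y' U V W H) :
    p = p' ∧ q = q' := by
  exfalso; linarith only [g.a9, h.a5]

theorem x11_28 (h : K11 p q U V W H) (g : K28 p' q' x' y' U V W H) :
    p = p' ∧ q = q' := by
  exfalso; linarith only [g.a12, h.a5]

theorem x11_29 (h : K11 p q U V W H) (g : K29 p' q' x' y' U V W H) :
    p = p' ∧ q = q' := by
  exfalso; linarith only [g.a0, g.a5, g.a6, g.a7, g.a9, h.a2, h.a4, h.a5, h.a7]

theorem x11_30 (h : K11 p q U V W H) (g : K30 p' q' x' y' U V W H) :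
    p = p' ∧ q = q' := by
  exfalso; linarith only [g.a10, h.a5]

theorem x11_31 (h : K11 p q U V W H) (g : K31 p' q' x' y' U V W H) :
    p = p' ∧ q = q' := by
  exfalso; linarith only [g.a0, g.a10, g.a4, g.a5, g.a8, g.a9, h.a1, h.a5, h.a6, h.a7]

theorem x12_20 (h : K12 p q U V W H) (g : K20 p' q' x' y' U V W H) :
    p = p' ∧ q = q' := by
  exfalso; linarith only [g.a0, g.a11, g.a2, g.a4, g.a6, g.a8, h.a2, h.a4, h.a7]

theorem x12_21 (h : K12 p q U V W H) (g : K21 p' q' x' y' U V W H) :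
    p = p' ∧ q = q' := by
  exfalso; linarith only [g.a0, g.a11, g.a12, g.a5, g.a7, g.a9, h.a2, h.a4, h.a6, h.a7]

theorem x12_22 (h : K12 p q U V W H) (g : K22 p' q' x' y' U V W H) :
    p = p' ∧ q = q' := by
  exfalso; linarith only [g.a0, g.a3, g.a5, g.a6, g.a8, g.a9, h.a2, h.a4, h.a6, h.a7]

theorem x12_23 (h : K12 p q U V W H) (g : K23 p' q' x' y' U V W H) :
    p = p' ∧ q = q' := by
  exfalso; linarith only [g.a0, g.a3, g.a5, g.a6, g.a7, g.a9, h.a2, h.a4, h.a5, h.a7]

theorem x12_24 (h : K12 p q U V W H) (g : K24 p' q' x' y' U V W H) :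
    p = p' ∧ q = q' := by
  exfalso; linarith only [g.a10, g.a6, g.a7, g.a8, g.a9, h.a2, h.a4, h.a5, h.a6, h.a7]

theorem x12_25 (h : K12 p q U V W H) (g : K25 p' q' x' y' U V W H) :
    p = p' ∧ q = q' := by
  exfalso; linarith only [g.a0, g.a10, g.a4, g.a8, g.a9, h.a1, h.a5, h.a6, h.a7]

theorem x12_26 (h : K12 p q U V W H) (g : K26 p' q' x' y' U V W H) :
    p = p' ∧ q = q' := by
  exfalso; linarith only [g.a0, g.a1, g.a11, g.a12, h.a1, h.a6, h.a7]

theorem x12_27 (h : K12 p q U V W H) (g : K27 p' q' x' y' U V W H) :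
    p = p' ∧ q = q' := by
  exfalso; linarith only [g.a9, h.a5]

theorem x12_28 (h : K12 p q U V W H) (g : K28 p' q' x' y' U V W H) :
    p = p' ∧ q = q' := by
  exfalso; linarith only [g.a12, h.a5]

theorem x12_29 (h : K12 p q U V W H) (g : K29 p' q' x' y' U V W H) :
    p = p' ∧ q = q' := by
  exfalso; linarith only [g.a0, g.a5, g.a6, g.a7, g.a9, h.a2, h.a4, h.a5, h.a7]

theorem x12_30 (h : K12 p q U V W H) (g : K30 p' q' x' y' U V W H) :
    p = p' ∧ q = q' := by
  exfalso; linarith only [g.a10, h.a5]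

theorem x12_31 (h : K12 p q U V W H) (g : K31 p' q' x' y' U V W H) :
    p = p' ∧ q = q' := by
  exfalso; linarith only [g.a0, g.a10, g.a5, g.a7, g.a8, g.a9, h.a1, h.a4, h.a5, h.a6, h.a7]

theorem x13_20 (h : K13 p q U V W H) (g : K20 p' q' x' y' U V W H) :
    p = p' ∧ q = q' := by
  exfalso; linarith only [g.a0, g.a11, g.a2, g.a4, g.a6, g.a8, h.a1, h.a3, h.a6]

theorem x13_21 (h : K13 p q U V W H) (g : K21 p' q' x' y' U V W H) :
    p = p' ∧ q = q' := by
  exfalso; linarith only [g.a0, g.a12, g.a4, g.a5, g.a7, g.a9, h.a1, h.a3, h.a6]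

theorem x13_22 (h : K13 p q U V W H) (g : K22 p' q' x' y' U V W H) :
    p = p' ∧ q = q' := by
  exfalso; linarith only [g.a0, g.a1, g.a3, g.a6, g.a7, g.a9, h.a1, h.a3, h.a4, h.a6]

theorem x13_23 (h : K13 p q U V W H) (g : K23 p' q' x' y' U V W H) :
    p = p' ∧ q = q' := by
  exfalso; linarith only [g.a0, g.a3, g.a4, g.a6, g.a8, g.a9, h.a1, h.a3, h.a5, h.a6]

theorem x13_24 (h : K13 p q U V W H) (g : K24 p' q' x' y' U V W H) :
    p = p' ∧ q = q' := by
  exfalso; linarith only [g.a0, g.a10, g.a2, g.a6, g.a7, g.a8, h.a1, h.a3, h.a4, h.a6]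

theorem x13_25 (h : K13 p q U V W H) (g : K25 p' q' x' y' U V W H) :
    p = p' ∧ q = q' := by
  exfalso; linarith only [g.a0, g.a10, g.a4, g.a8, h.a1, h.a2, h.a4, h.a6]

theorem x13_26 (h : K13 p q U V W H) (g : K26 p' q' x' y' U V W H) :
    p = p' ∧ q = q' := by
  exfalso; linarith only [g.a1, g.a12, g.a5, g.a9, h.a1, h.a2, h.a3, h.a6]

theorem x13_27 (h : K13 p q U V W H) (g : K27 p' q' x' y' U V W H) :
    p = p' ∧ q = q' := by
  exfalso; linarith only [g.a9, h.a4]

theorem x13_28 (h : K13 p q U V W H) (g : K28 p' q' x' y' U V W H) :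
    p = p' ∧ q = q' := by
  exfalso; linarith only [g.a12, h.a4]

theorem x13_29 (h : K13 p q U V W H) (g : K29 p' q' x' y' U V W H) :
    p = p' ∧ q = q' := by
  exfalso; linarith only [g.a5, g.a6, g.a7, g.a8, g.a9, h.a2, h.a3, h.a4, h.a5, h.a6]

theorem x13_30 (h : K13 p q U V W H) (g : K30 p' q' x' y' U V W H) :
    p = p' ∧ q = q' := by
  exfalso; linarith only [g.a10, h.a4]

theorem x13_31 (h : K13 p q U V W H) (g : K31 p' q' x' y' U V W H) :
    p = p' ∧ q = q' := by
  exfalso; linarith only [g.a0, g.a10, g.a5, g.a7, g.a8, h.a1, h.a2, h.a3, h.a4, h.a6]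

theorem x14_20 (h : K14 p q U V W H) (g : K20 p' q' x' y' U V W H) :
    p = p' ∧ q = q' := by
  exfalso; linarith only [g.a0, g.a11, g.a2, g.a4, g.a6, g.a8, h.a1, h.a3, h.a6]

theorem x14_21 (h : K14 p q U V W H) (g : K21 p' q' x' y' U V W H) :
    p = p' ∧ q = q' := by
  exfalso; linarith only [g.a0, g.a12, g.a4, g.a5, g.a7, g.a9, h.a1, h.a3, h.a6]

theorem x14_22 (h : K14 p q U V W H) (g : K22 p' q' x' y' U V W H) :
    p = p' ∧ q = q' := by
  exfalso; linarith only [g.a0, g.a1, g.a3, g.a5, g.a6, g.a9, h.a1, h.a3, h.a6]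

theorem x14_23 (h : K14 p q U V W H) (g : K23 p' q' x' y' U V W H) :
    p = p' ∧ q = q' := by
  exfalso; linarith only [g.a0, g.a3, g.a4, g.a6, g.a8, g.a9, h.a1, h.a3, h.a5, h.a6]

theorem x14_24 (h : K14 p q U V W H) (g : K24 p' q' x' y' U V W H) :
    p = p' ∧ q = q' := by
  exfalso; linarith only [g.a0, g.a10, g.a2, g.a6, g.a7, g.a8, h.a1, h.a3, h.a4, h.a6]

theorem x14_25 (h : K14 p q U V W H) (g : K25 p' q' x' y' U V W H) :
    p = p' ∧ q = q' := by
  exfalso; linarith only [g.a0, g.a10, g.a4, g.a8, h.a1, h.a2, h.a4, h.a6]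

theorem x14_26 (h : K14 p q U V W H) (g : K26 p' q' x' y' U V W H) :
    p = p' ∧ q = q' := by
  exfalso; linarith only [g.a1, g.a12, g.a5, g.a9, h.a1, h.a2, h.a3, h.a6]

theorem x14_27 (h : K14 p q U V W H) (g : K27 p' q' x' y' U V W H) :
    p = p' ∧ q = q' := by
  exfalso; linarith only [g.a9, h.a4]

theorem x14_28 (h : K14 p q U V W H) (g : K28 p' q' x' y' U V W H) :
    p = p' ∧ q = q' := by
  exfalso; linarith only [g.a12, h.a4]

theorem x14_29 (h : K14 p q U V W H) (g : K29 p' q' x' y' U V W H) :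
    p = p' ∧ q = q' := by
  exfalso; linarith only [g.a5, g.a6, g.a7, g.a8, g.a9, h.a2, h.a3, h.a4, h.a5, h.a6]

theorem x14_30 (h : K14 p q U V W H) (g : K30 p' q' x' y' U V W H) :
    p = p' ∧ q = q' := by
  exfalso; linarith only [g.a10, h.a4]

theorem x14_31 (h : K14 p q U V W H) (g : K31 p' q' x' y' U V W H) :
    p = p' ∧ q = q' := by
  exfalso; linarith only [g.a0, g.a10, g.a5, g.a7, g.a8, h.a1, h.a2, h.a3, h.a4, h.a6]

theorem x15_20 (h : K15 p q U V W H) (g : K20 p' q' x' y' U V W H) :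
    p = p' ∧ q = q' := by
  exfalso; linarith only [g.a10, g.a11, g.a6, g.a8, g.a9, h.a2, h.a4, h.a5, h.a6, h.a7]

theorem x15_21 (h : K15 p q U V W H) (g : K21 p' q' x' y' U V W H) :
    p = p' ∧ q = q' := by
  exfalso; linarith only [g.a10, g.a11, g.a12, g.a7, g.a9, h.a2, h.a4, h.a5, h.a6, h.a7]

theorem x15_22 (h : K15 p q U V W H) (g : K22 p' q' x' y' U V W H) :
    p = p' ∧ q = q' := by
  exfalso; linarith only [g.a0, g.a3, g.a6, g.a7, g.a8, g.a9, h.a2, h.a4, h.a5, h.a6, h.a7]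

theorem x15_23 (h : K15 p q U V W H) (g : K23 p' q' x' y' U V W H) :
    p = p' ∧ q = q' := by
  exfalso; linarith only [g.a0, g.a2, g.a3, g.a4, g.a6, g.a9, h.a2, h.a4, h.a7]

theorem x15_24 (h : K15 p q U V W H) (g : K24 p' q' x' y' U V W H) :
    p = p' ∧ q = q' := by
  exfalso; linarith only [g.a10, g.a4, g.a6, g.a7, g.a9, h.a2, h.a4, h.a6, h.a7]

theorem x15_25 (h : K15 p q U V W H) (g : K25 p' q' x' y' U V W H) :
    p = p' ∧ q = q' := by
  exfalso; linarith only [g.a0, g.a10, g.a2, g.a3, g.a4, g.a9, h.a1, h.a6, h.a7]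

theorem x15_26 (h : K15 p q U V W H) (g : K26 p' q' x' y' U V W H) :
    p = p' ∧ q = q' := by
  exfalso; linarith only [g.a0, g.a1, g.a11, g.a12, h.a1, h.a6, h.a7]

theorem x15_27 (h : K15 p q U V W H) (g : K27 p' q' x' y' U V W H) :
    p = p' ∧ q = q' := by
  exfalso; linarith only [g.a10, g.a11, g.a4, g.a6, g.a8, h.a1, h.a2, h.a4, h.a6, h.a7]

theorem x15_28 (h : K15 p q U V W H) (g : K28 p' q' x' y' U V W H) :
    p = p' ∧ q = q' := by
  exfalso; linarith only [g.a11, g.a13, g.a14, g.a9, h.a1, h.a2, h.a4, h.a6, h.a7]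

theorem x15_29 (h : K15 p q U V W H) (g : K29 p' q' x' y' U V W H) :
    p = p' ∧ q = q' := by
  exfalso; linarith only [g.a3, g.a5, g.a6, g.a9, h.a1, h.a2, h.a4, h.a7]

theorem x15_30 (h : K15 p q U V W H) (g : K30 p' q' x' y' U V W H) :
    p = p' ∧ q = q' := by
  exfalso; linarith only [g.a1, g.a11, g.a12, g.a9, h.a4, h.a6, h.a7]

theorem x15_31 (h : K15 p q U V W H) (g : K31 p' q' x' y' U V W H) :
    p = p' ∧ q = q' := by
  exfalso; linarith only [g.a0, g.a1, g.a10, g.a3, g.a5, g.a7, g.a9, h.a4, h.a6, h.a7]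

theorem x16_20 (h : K16 p q U V W H) (g : K20 p' q' x' y' U V W H) :
    p = p' ∧ q = q' := by
  exfalso; linarith only [g.a0, g.a11, g.a2, g.a4, g.a6, g.a8, h.a1, h.a3, h.a6]

theorem x16_21 (h : K16 p q U V W H) (g : K21 p' q' x' y' U V W H) :
    p = p' ∧ q = q' := by
  exfalso; linarith only [g.a0, g.a12, g.a4, g.a5, g.a7, g.a9, h.a1, h.a3, h.a6]

theorem x16_22 (h : K16 p q U V W H) (g : K22 p' q' x' y' U V W H) :
    p = p' ∧ q = q' := by
  exfalso; linarith only [g.a0, g.a3, g.a4, g.a6, g.a7, g.a9, h.a1, h.a3, h.a4, h.a6]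

theorem x16_23 (h : K16 p q U V W H) (g : K23 p' q' x' y' U V W H) :
    p = p' ∧ q = q' := by
  exfalso; linarith only [g.a0, g.a3, g.a4, g.a6, g.a8, g.a9, h.a1, h.a3, h.a5, h.a6]

theorem x16_24 (h : K16 p q U V W H) (g : K24 p' q' x' y' U V W H) :
    p = p' ∧ q = q' := by
  exfalso; linarith only [g.a0, g.a10, g.a2, g.a4, g.a6, g.a7, h.a1, h.a3, h.a6]

theorem x16_25 (h : K16 p q U V W H) (g : K25 p' q' x' y' U V W H) :
    p = p' ∧ q = q' := by
  exfalso; linarith only [g.a0, g.a10, g.a2, g.a3, g.a4, h.a1, h.a2, h.a6]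

theorem x16_26 (h : K16 p q U V W H) (g : K26 p' q' x' y' U V W H) :
    p = p' ∧ q = q' := by
  exfalso; linarith only [g.a1, g.a12, g.a5, g.a9, h.a1, h.a2, h.a3, h.a6]

theorem x16_27 (h : K16 p q U V W H) (g : K27 p' q' x' y' U V W H) :
    p = p' ∧ q = q' := by
  exfalso; linarith only [g.a0, g.a11, g.a3, g.a4, g.a5, h.a1, h.a2, h.a6]

theorem x16_28 (h : K16 p q U V W H) (g : K28 p' q' x' y' U V W H) :
    p = p' ∧ q = q' := by
  exfalso; linarith only [g.a11, g.a14, g.a4, g.a9, h.a1, h.a2, h.a3, h.a6]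

theorem x16_29 (h : K16 p q U V W H) (g : K29 p' q' x' y' U V W H) :
    p = p' ∧ q = q' := by
  exfalso; linarith only [g.a3, g.a5, g.a6, g.a8, g.a9, h.a2, h.a3, h.a5, h.a6]

theorem x16_30 (h : K16 p q U V W H) (g : K30 p' q' x' y' U V W H) :
    p = p' ∧ q = q' := by
  exfalso; linarith only [g.a0, g.a12, g.a3, g.a5, g.a9, h.a1, h.a2, h.a3, h.a6]

theorem x16_31 (h : K16 p q U V W H) (g : K31 p' q' x' y' U V W H) :
    p = p' ∧ q = q' := by
  exfalso; linarith only [g.a0, g.a10, g.a3, g.a5, g.a7, h.a1, h.a2, h.a3, h.a6]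

theorem x17_20 (h : K17 p q U V W H) (g : K20 p' q' x' y' U V W H) :
    p = p' ∧ q = q' := by
  exfalso; linarith only [g.a0, g.a11, g.a2, g.a4, g.a6, g.a8, h.a2, h.a4, h.a7]

theorem x17_21 (h : K17 p q U V W H) (g : K21 p' q' x' y' U V W H) :
    p = p' ∧ q = q' := by
  exfalso; linarith only [g.a0, g.a12, g.a4, g.a5, g.a7, g.a9, h.a2, h.a4, h.a7]

theorem x17_22 (h : K17 p q U V W H) (g : K22 p' q' x' y' U V W H) :
    p = p' ∧ q = q' := by
  exfalso; linarith only [g.a0, g.a3, g.a4, g.a6, g.a7, g.a9, h.a2, h.a4, h.a5, h.a7]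

theorem x17_23 (h : K17 p q U V W H) (g : K23 p' q' x' y' U V W H) :
    p = p' ∧ q = q' := by
  exfalso; linarith only [g.a0, g.a3, g.a4, g.a6, g.a8, g.a9, h.a2, h.a4, h.a6, h.a7]

theorem x17_24 (h : K17 p q U V W H) (g : K24 p' q' x' y' U V W H) :
    p = p' ∧ q = q' := by
  exfalso; linarith only [g.a0, g.a10, g.a2, g.a4, g.a6, g.a7, h.a2, h.a4, h.a7]

theorem x17_25 (h : K17 p q U V W H) (g : K25 p' q' x' y' U V W H) :
    p = p' ∧ q = q' := by
  exfalso; linarith only [g.a0, g.a10, g.a2, g.a3, g.a4, h.a1, h.a2, h.a7]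

theorem x17_26 (h : K17 p q U V W H) (g : K26 p' q' x' y' U V W H) :
    p = p' ∧ q = q' := by
  exfalso; linarith only [g.a0, g.a1, g.a12, h.a1, h.a2, h.a7]

theorem x17_27 (h : K17 p q U V W H) (g : K27 p' q' x' y' U V W H) :
    p = p' ∧ q = q' := by
  exfalso; linarith only [g.a0, g.a11, g.a3, g.a4, g.a5, h.a1, h.a2, h.a7]

theorem x17_28 (h : K17 p q U V W H) (g : K28 p' q' x' y' U V W H) :
    p = p' ∧ q = q' := by
  exfalso; linarith only [g.a11, g.a14, g.a4, g.a9, h.a1, h.a2, h.a4, h.a7]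

theorem x17_29 (h : K17 p q U V W H) (g : K29 p' q' x' y' U V W H) :
    p = p' ∧ q = q' := by
  exfalso; linarith only [g.a3, g.a5, g.a6, g.a8, g.a9, h.a1, h.a4, h.a6, h.a7]

theorem x17_30 (h : K17 p q U V W H) (g : K30 p' q' x' y' U V W H) :
    p = p' ∧ q = q' := by
  exfalso; linarith only [g.a0, g.a11, g.a12, g.a5, g.a7, g.a9, h.a2, h.a4, h.a6, h.a7]

theorem x17_31 (h : K17 p q U V W H) (g : K31 p' q' x' y' U V W H) :
    p = p' ∧ q = q' := by
  exfalso; linarith only [g.a0, g.a1, g.a10, g.a3, g.a5, g.a7, h.a2, h.a4, h.a7]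

theorem x18_20 (h : K18 p q U V W H) (g : K20 p' q' x' y' U V W H) :
    p = p' ∧ q = q' := by
  exfalso; linarith only [g.a11, g.a7, g.a9, h.a5, h.a7]

theorem x18_21 (h : K18 p q U V W H) (g : K21 p' q' x' y' U V W H) :
    p = p' ∧ q = q' := by
  exfalso; linarith only [g.a10, g.a12, g.a3, g.a8, h.a5, h.a7]

theorem x18_22 (h : K18 p q U V W H) (g : K22 p' q' x' y' U V W H) :
    p = p' ∧ q = q' := by
  exfalso; linarith only [g.a5, g.a7, g.a9, h.a5, h.a7]

theorem x18_23 (h : K18 p q U V W H) (g : K23 p' q' x' y' U V W H) :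
    p = p' ∧ q = q' := by
  exfalso; linarith only [g.a1, g.a5, g.a9, h.a0, h.a2, h.a7]

theorem x18_24 (h : K18 p q U V W H) (g : K24 p' q' x' y' U V W H) :
    p = p' ∧ q = q' := by
  exfalso; linarith only [g.a1, g.a10, g.a8, h.a5, h.a7]

theorem x18_25 (h : K18 p q U V W H) (g : K25 p' q' x' y' U V W H) :
    p = p' ∧ q = q' := by
  exfalso; linarith only [g.a3, g.a6, g.a7, g.a8, h.a0, h.a2, h.a4, h.a5]

theorem x18_26 (h : K18 p q U V W H) (g : K26 p' q' x' y' U V W H) :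
    p = p' ∧ q = q' := by
  exfalso; linarith only [g.a10, g.a12, g.a6, h.a0, h.a2, h.a5, h.a7]

theorem x18_27 (h : K18 p q U V W H) (g : K27 p' q' x' y' U V W H) :
    p = p' ∧ q = q' := by
  exfalso; linarith only [g.a2, g.a4, g.a7, g.a8, h.a4]

theorem x18_28 (h : K18 p q U V W H) (g : K28 p' q' x' y' U V W H) :
    p = p' ∧ q = q' := by
  exfalso; linarith only [g.a12, h.a1, h.a5]

theorem x18_29 (h : K18 p q U V W H) (g : K29 p' q' x' y' U V W H) :
    p = p' ∧ q = q' := by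
  exfalso; linarith only [g.a0, g.a7, g.a9, h.a5, h.a7]

theorem x18_30 (h : K18 p q U V W H) (g : K30 p' q' x' y' U V W H) :
    p = p' ∧ q = q' := by
  exfalso; linarith only [g.a11, g.a12, g.a2, g.a6, g.a7, g.a9, h.a2, h.a4, h.a6, h.a7]

theorem x18_31 (h : K18 p q U V W H) (g : K31 p' q' x' y' U V W H) :
    p = p' ∧ q = q' := by
  exfalso; linarith only [g.a10, g.a4, g.a5, g.a7, g.a8, h.a0, h.a2, h.a4, h.a5, h.a7]

theorem x19_20 (h : K19 p q U V W H) (g : K20 p' q' x' y' U V W H) :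
    p = p' ∧ q = q' := by
  exfalso; linarith only [g.a11, g.a7, g.a9, h.a4, h.a6]

theorem x19_21 (h : K19 p q U V W H) (g : K21 p' q' x' y' U V W H) :
    p = p' ∧ q = q' := by
  exfalso; linarith only [g.a10, g.a11, g.a3, h.a0, h.a4, h.a5]

theorem x19_22 (h : K19 p q U V W H) (g : K22 p' q' x' y' U V W H) :
    p = p' ∧ q = q' := by
  exfalso; linarith only [g.a2, g.a5, g.a8, g.a9, h.a1, h.a2, h.a5, h.a6]

theorem x19_23 (h : K19 p q U V W H) (g : K23 p' q' x' y' U V W H) :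
    p = p' ∧ q = q' := by
  exfalso; linarith only [g.a5, g.a8, g.a9, h.a1, h.a2, h.a5, h.a6]

theorem x19_24 (h : K19 p q U V W H) (g : K24 p' q' x' y' U V W H) :
    p = p' ∧ q = q' := by
  exfalso; linarith only [g.a1, g.a10, g.a8, h.a4, h.a6]

theorem x19_25 (h : K19 p q U V W H) (g : K25 p' q' x' y' U V W H) :
    p = p' ∧ q = q' := by
  exfalso; linarith only [g.a9, h.a5]

theorem x19_26 (h : K19 p q U V W H) (g : K26 p' q' x' y' U V W H) :
    p = p' ∧ q = q' := by
  exfalso; linarith only [g.a11, h.a5]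

theorem x19_27 (h : K19 p q U V W H) (g : K27 p' q' x' y' U V W H) :
    p = p' ∧ q = q' := by
  exfalso; linarith only [g.a10, g.a11, g.a4, g.a6, g.a8, h.a0, h.a1, h.a3, h.a5, h.a6]

theorem x19_28 (h : K19 p q U V W H) (g : K28 p' q' x' y' U V W H) :
    p = p' ∧ q = q' := by
  exfalso; linarith only [g.a12, h.a0, h.a4]

theorem x19_29 (h : K19 p q U V W H) (g : K29 p' q' x' y' U V W H) :
    p = p' ∧ q = q' := by
  exfalso; linarith only [g.a0, g.a7, g.a9, h.a4, h.a6]

theorem x19_30 (h : K19 p q U V W H) (g : K30 p' q' x' y' U V W H) :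
    p = p' ∧ q = q' := by
  exfalso; linarith only [g.a11, g.a2, g.a9, h.a0, h.a1, h.a3, h.a5]

theorem x19_31 (h : K19 p q U V W H) (g : K31 p' q' x' y' U V W H) :
    p = p' ∧ q = q' := by
  exfalso; linarith only [g.a9, h.a5]

theorem lohi (h : Lo p q U V W H) (g : Hi p' q' x' y' U V W H) :
    p = p' ∧ q = q' := by
  rcases h with h | h | h | h | h | h | h | h | h | h | h | h | h | h | h | h | h | h | h | h
  · rcases g with g | g | g | g | g | g | g | g | g | g | g | g
    · exact x0_20 h g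
    · exact x0_21 h g
    · exact x0_22 h g
    · exact x0_23 h g
    · exact x0_24 h g
    · exact x0_25 h g
    · exact x0_26 h g
    · exact x0_27 h g
    · exact x0_28 h g
    · exact x0_29 h g
    · exact x0_30 h g
    · exact x0_31 h g
  · rcases g with g | g | g | g | g | g | g | g | g | g | g | g
    · exact x1_20 h g
    · exact x1_21 h g
    · exact x1_22 h g
    · exact x1_23 h g
    · exact x1_24 h g
    · exact x1_25 h g
    · exact x1_26 h g
    · exact x1_27 h g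
    · exact x1_28 h g
    · exact x1_29 h g
    · exact x1_30 h g
    · exact x1_31 h g
  · rcases g with g | g | g | g | g | g | g | g | g | g | g | g
    · exact x2_20 h g
    · exact x2_21 h g
    · exact x2_22 h g
    · exact x2_23 h g
    · exact x2_24 h g
    · exact x2_25 h g
    · exact x2_26 h g
    · exact x2_27 h g
    · exact x2_28 h g
    · exact x2_29 h g
    · exact x2_30 h g
    · exact x2_31 h g
  · rcases g with g | g | g | g | g | g | g | g | g | g | g | g
    · exact x3_20 h g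
    · exact x3_21 h g
    · exact x3_22 h g
    · exact x3_23 h g
    · exact x3_24 h g
    · exact x3_25 h g
    · exact x3_26 h g
    · exact x3_27 h g
    · exact x3_28 h g
    · exact x3_29 h g
    · exact x3_30 h g
    · exact x3_31 h g
  · rcases g with g | g | g | g | g | g | g | g | g | g | g | g
    · exact x4_20 h g
    · exact x4_21 h g
    · exact x4_22 h g
    · exact x4_23 h g
    · exact x4_24 h g
    · exact x4_25 h g
    · exact x4_26 h g
    · exact x4_27 h g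
    · exact x4_28 h g
    · exact x4_29 h g
    · exact x4_30 h g
    · exact x4_31 h g
  · rcases g with g | g | g | g | g | g | g | g | g | g | g | g
    · exact x5_20 h g
    · exact x5_21 h g
    · exact x5_22 h g
    · exact x5_23 h g
    · exact x5_24 h g
    · exact x5_25 h g
    · exact x5_26 h g
    · exact x5_27 h g
    · exact x5_28 h g
    · exact x5_29 h g
    · exact x5_30 h g
    · exact x5_31 h g
  · rcases g with g | g | g | g | g | g | g | g | g | g | g | g
    · exact x6_20 h g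
    · exact x6_21 h g
    · exact x6_22 h g
    · exact x6_23 h g
    · exact x6_24 h g
    · exact x6_25 h g
    · exact x6_26 h g
    · exact x6_27 h g
    · exact x6_28 h g
    · exact x6_29 h g
    · exact x6_30 h g
    · exact x6_31 h g
  · rcases g with g | g | g | g | g | g | g | g | g | g | g | g
    · exact x7_20 h g
    · exact x7_21 h g
    · exact x7_22 h g
    · exact x7_23 h g
    · exact x7_24 h g
    · exact x7_25 h g
    · exact x7_26 h g
    · exact x7_27 h g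
    · exact x7_28 h g
    · exact x7_29 h g
    · exact x7_30 h g
    · exact x7_31 h g
  · rcases g with g | g | g | g | g | g | g | g | g | g | g | g
    · exact x8_20 h g
    · exact x8_21 h g
    · exact x8_22 h g
    · exact x8_23 h g
    · exact x8_24 h g
    · exact x8_25 h g
    · exact x8_26 h g
    · exact x8_27 h g
    · exact x8_28 h g
    · exact x8_29 h g
    · exact x8_30 h g
    · exact x8_31 h g
  · rcases g with g | g | g | g | g | g | g | g | g | g | g | g
    · exact x9_20 h g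
    · exact x9_21 h g
    · exact x9_22 h g
    · exact x9_23 h g
    · exact x9_24 h g
    · exact x9_25 h g
    · exact x9_26 h g
    · exact x9_27 h g
    · exact x9_28 h g
    · exact x9_29 h g
    · exact x9_30 h g
    · exact x9_31 h g
  · rcases g with g | g | g | g | g | g | g | g | g | g | g | g
    · exact x10_20 h g
    · exact x10_21 h g
    · exact x10_22 h g
    · exact x10_23 h g
    · exact x10_24 h g
    · exact x10_25 h g
    · exact x10_26 h g
    · exact x10_27 h g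
    · exact x10_28 h g
    · exact x10_29 h g
    · exact x10_30 h g
    · exact x10_31 h g
  · rcases g with g | g | g | g | g | g | g | g | g | g | g | g
    · exact x11_20 h g
    · exact x11_21 h g
    · exact x11_22 h g
    · exact x11_23 h g
    · exact x11_24 h g
    · exact x11_25 h g
    · exact x11_26 h g
    · exact x11_27 h g
    · exact x11_28 h g
    · exact x11_29 h g
    · exact x11_30 h g
    · exact x11_31 h g
  · rcases g with g | g | g | g | g | g | g | g | g | g | g | g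
    · exact x12_20 h g
    · exact x12_21 h g
    · exact x12_22 h g
    · exact x12_23 h g
    · exact x12_24 h g
    · exact x12_25 h g
    · exact x12_26 h g
    · exact x12_27 h g
    · exact x12_28 h g
    · exact x12_29 h g
    · exact x12_30 h g
    · exact x12_31 h g
  · rcases g with g | g | g | g | g | g | g | g | g | g | g | g
    · exact x13_20 h g
    · exact x13_21 h g
    · exact x13_22 h g
    · exact x13_23 h g
    · exact x13_24 h g
    · exact x13_25 h g
    · exact x13_26 h g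
    · exact x13_27 h g
    · exact x13_28 h g
    · exact x13_29 h g
    · exact x13_30 h g
    · exact x13_31 h g
  · rcases g with g | g | g | g | g | g | g | g | g | g | g | g
    · exact x14_20 h g
    · exact x14_21 h g
    · exact x14_22 h g
    · exact x14_23 h g
    · exact x14_24 h g
    · exact x14_25 h g
    · exact x14_26 h g
    · exact x14_27 h g
    · exact x14_28 h g
    · exact x14_29 h g
    · exact x14_30 h g
    · exact x14_31 h g
  · rcases g with g | g | g | g | g | g | g | g | g | g | g | g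
    · exact x15_20 h g
    · exact x15_21 h g
    · exact x15_22 h g
    · exact x15_23 h g
    · exact x15_24 h g
    · exact x15_25 h g
    · exact x15_26 h g
    · exact x15_27 h g
    · exact x15_28 h g
    · exact x15_29 h g
    · exact x15_30 h g
    · exact x15_31 h g
  · rcases g with g | g | g | g | g | g | g | g | g | g | g | g
    · exact x16_20 h g
    · exact x16_21 h g
    · exact x16_22 h g
    · exact x16_23 h g
    · exact x16_24 h g
    · exact x16_25 h g
    · exact x16_26 h g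
    · exact x16_27 h g
    · exact x16_28 h g
    · exact x16_29 h g
    · exact x16_30 h g
    · exact x16_31 h g
  · rcases g with g | g | g | g | g | g | g | g | g | g | g | g
    · exact x17_20 h g
    · exact x17_21 h g
    · exact x17_22 h g
    · exact x17_23 h g
    · exact x17_24 h g
    · exact x17_25 h g
    · exact x17_26 h g
    · exact x17_27 h g
    · exact x17_28 h g
    · exact x17_29 h g
    · exact x17_30 h g
    · exact x17_31 h g
  · rcases g with g | g | g | g | g | g | g | g | g | g | g | g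
    · exact x18_20 h g
    · exact x18_21 h g
    · exact x18_22 h g
    · exact x18_23 h g
    · exact x18_24 h g
    · exact x18_25 h g
    · exact x18_26 h g
    · exact x18_27 h g
    · exact x18_28 h g
    · exact x18_29 h g
    · exact x18_30 h g
    · exact x18_31 h g
  · rcases g with g | g | g | g | g | g | g | g | g | g | g | g
    · exact x19_20 h g
    · exact x19_21 h g
    · exact x19_22 h g
    · exact x19_23 h g
    · exact x19_24 h g
    · exact x19_25 h g
    · exact x19_26 h g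
    · exact x19_27 h g
    · exact x19_28 h g
    · exact x19_29 h g
    · exact x19_30 h g
    · exact x19_31 h g


end LinjP

end Pool.Agent.P.MP_dba4bb_co.Ex
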