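import Pool.Agent.P.MP_dba4bb_co.Ex.Linj1

/-! Two points in the rotated part. -/

namespace Pool.Agent.P.MP_dba4bb_co.Ex

namespace LinjP

variable {p q x y p' q' x' y' U V W H : ℝ}

theorem x20_20 (h : K20 p q x y U V W H) (g : K20 p' q' x' y' U V W H) (r : Rel (x - x') (y - y') (p - p') (q - q')) :
    p = p' ∧ q = q' := by
  rcases r with r | r | r | r
  · exact ⟨le_antisymm (by linarith only [g.a10, h.a10, r.a3]) (by linarith only [g.a9, h.a9, r.a0, r.a2]),
      le_antisymm (by linarith only [g.a11, h.a11]) (by linarith only [r.a1, r.a4])⟩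
  · exact ⟨le_antisymm (by linarith only [g.a10, g.a9, h.a10, h.a9, r.a3]) (by linarith only [r.a0, r.a2]),
      le_antisymm (by linarith only [g.a11, h.a11]) (by linarith only [g.a11, h.a11])⟩
  · exact ⟨le_antisymm (by linarith only [r.a0, r.a3]) (by linarith only [g.a10, g.a9, h.a10, h.a9, r.a2]),
      le_antisymm (by linarith only [g.a11, h.a11]) (by linarith only [g.a11, h.a11])⟩
  · exact ⟨le_antisymm (by linarith only [g.a9, h.a9, r.a0, r.a3]) (by linarith only [g.a10, h.a10, r.a2]),
      le_antisymm (by linarith only [r.a1, r.a5]) (by linarith only [g.a11, h.a11])⟩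

theorem x20_21 (h : K20 p q x y U V W H) (g : K21 p' q' x' y' U V W H) (r : Rel (x - x') (y - y') (p - p') (q - q')) :
    p = p' ∧ q = q' := by
  rcases r with r | r | r | r
  · exact ⟨le_antisymm (by linarith only [g.a10, g.a11, h.a10, h.a9, r.a1, r.a3]) (by linarith only [g.a3, h.a2, r.a0, r.a2]),
      le_antisymm (by linarith only [g.a12, h.a11]) (by linarith only [r.a1, r.a4])⟩
  · exact ⟨le_antisymm (by linarith only [g.a10, g.a11, g.a12, h.a10, h.a11, h.a9, r.a3, r.a5]) (by linarith only [r.a0, r.a2]),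
      le_antisymm (by linarith only [g.a12, h.a11]) (by linarith only [g.a12, h.a11])⟩
  · exact ⟨le_antisymm (by linarith only [r.a0, r.a3]) (by linarith only [g.a10, g.a3, h.a2, h.a9, r.a2]),
      le_antisymm (by linarith only [g.a12, h.a11]) (by linarith only [g.a12, h.a11])⟩
  · exact ⟨le_antisymm (by linarith only [g.a12, h.a11, r.a0, r.a3, r.a5]) (by linarith only [g.a10, h.a2, h.a9, r.a2]),
      le_antisymm (by linarith only [r.a1, r.a5]) (by linarith only [g.a12, h.a11])⟩

theorem x20_22 (h : K20 p q x y U V W H) (g : K22 p' q' x' y' U V W H) :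
    p = p' ∧ q = q' := by
  exfalso; linarith only [g.a1, g.a2, g.a5, g.a7, g.a9, h.a0, h.a11, h.a4, h.a6, h.a9]

theorem x20_23 (h : K20 p q x y U V W H) (g : K23 p' q' x' y' U V W H) :
    p = p' ∧ q = q' := by
  exfalso; linarith only [g.a5, g.a8, g.a9, h.a0, h.a10, h.a11, h.a4, h.a7]

theorem x20_24 (h : K20 p q x y U V W H) (g : K24 p' q' x' y' U V W H) (r : Rel (x - x') (y - y') (p - p') (q - q')) :
    p = p' ∧ q = q' := by
  rcases r with r | r | r | r
  · exact ⟨le_antisymm (by linarith only [g.a9, h.a10, r.a3]) (by linarith only [g.a10, h.a11, r.a0, r.a2, r.a4]),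
      le_antisymm (by linarith only [g.a10, h.a11]) (by linarith only [r.a1, r.a4])⟩
  · exact ⟨le_antisymm (by linarith only [g.a4, g.a9, h.a10, h.a3, r.a3]) (by linarith only [r.a0, r.a2]),
      le_antisymm (by linarith only [g.a10, h.a11]) (by linarith only [g.a10, h.a11])⟩
  · exact ⟨le_antisymm (by linarith only [r.a0, r.a3]) (by linarith only [g.a10, g.a9, h.a10, h.a11, r.a2, r.a4]),
      le_antisymm (by linarith only [g.a10, h.a11]) (by linarith only [g.a10, h.a11])⟩
  · exact ⟨le_antisymm (by linarith only [g.a4, h.a3, r.a0, r.a3]) (by linarith only [g.a9, h.a10, r.a2]),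
      le_antisymm (by linarith only [r.a1, r.a5]) (by linarith only [g.a10, h.a11])⟩

theorem x20_25 (h : K20 p q x y U V W H) (g : K25 p' q' x' y' U V W H) :
    p = p' ∧ q = q' := by
  exfalso; linarith only [g.a0, g.a3, g.a4, g.a6, g.a7, h.a8]

theorem x20_26 (h : K20 p q x y U V W H) (g : K26 p' q' x' y' U V W H) :
    p = p' ∧ q = q' := by
  exfalso; linarith only [g.a10, g.a11, g.a12, g.a6, h.a0, h.a10, h.a11, h.a4, h.a6, h.a9]

theorem x20_27 (h : K20 p q x y U V W H) (g : K27 p' q' x' y' U V W H) :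
    p = p' ∧ q = q' := by
  exfalso; linarith only [g.a2, g.a4, g.a7, g.a8, h.a8]

theorem x20_28 (h : K20 p q x y U V W H) (g : K28 p' q' x' y' U V W H) (r : Rel (x - x') (y - y') (p - p') (q - q')) :
    p = p' ∧ q = q' := by
  rcases r with r | r | r | r
  · exact ⟨le_antisymm (by linarith only [g.a11, g.a12, g.a13, h.a10, h.a8, h.a9, r.a1, r.a3]) (by linarith only [g.a3, g.a5, h.a2, r.a0, r.a2]),
      le_antisymm (by linarith only [g.a14, h.a11]) (by linarith only [r.a1, r.a4])⟩
  · exact ⟨le_antisymm (by linarith only [g.a11, g.a12, g.a13, g.a14, h.a10, h.a11, h.a8, h.a9, r.a3, r.a5]) (by linarith only [r.a0, r.a2]),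
      le_antisymm (by linarith only [g.a14, h.a11]) (by linarith only [g.a14, h.a11])⟩
  · exact ⟨le_antisymm (by linarith only [r.a0, r.a3]) (by linarith only [g.a3, g.a5, h.a2, h.a3, r.a2]),
      le_antisymm (by linarith only [g.a14, h.a11]) (by linarith only [g.a14, h.a11])⟩
  · exact ⟨le_antisymm (by linarith only [g.a14, h.a11, r.a0, r.a3, r.a5]) (by linarith only [g.a3, h.a2, h.a3, r.a2]),
      le_antisymm (by linarith only [r.a1, r.a5]) (by linarith only [g.a14, h.a11])⟩

theorem x20_29 (h : K20 p q x y U V W H) (g : K29 p' q' x' y' U V W H) (r : Rel (x - x') (y - y') (p - p') (q - q')) :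
    p = p' ∧ q = q' := by
  rcases r with r | r | r | r
  · exact ⟨le_antisymm (by linarith only [g.a6, g.a8, h.a10, h.a8, r.a3]) (by linarith only [g.a9, h.a11, r.a0, r.a2, r.a4]),
      le_antisymm (by linarith only [g.a9, h.a11]) (by linarith only [r.a1, r.a4])⟩
  · exact ⟨le_antisymm (by linarith only [g.a3, g.a6, g.a8, h.a10, h.a3, h.a8, r.a3]) (by linarith only [r.a0, r.a2]),
      le_antisymm (by linarith only [g.a9, h.a11]) (by linarith only [g.a9, h.a11])⟩
  · exact ⟨le_antisymm (by linarith only [r.a0, r.a3]) (by linarith only [g.a2, g.a7, h.a2, h.a3, h.a9, r.a2]),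
      le_antisymm (by linarith only [g.a9, h.a11]) (by linarith only [g.a9, h.a11])⟩
  · exact ⟨le_antisymm (by linarith only [g.a3, h.a3, r.a0, r.a3]) (by linarith only [g.a2, h.a2, h.a3, r.a2]),
      le_antisymm (by linarith only [r.a1, r.a5]) (by linarith only [g.a9, h.a11])⟩

theorem x20_30 (h : K20 p q x y U V W H) (g : K30 p' q' x' y' U V W H) :
    p = p' ∧ q = q' := by
  exfalso; linarith only [g.a10, g.a11, g.a12, g.a2, g.a6, g.a7, g.a9, h.a10, h.a11, h.a6, h.a8, h.a9]

theorem x20_31 (h : K20 p q x y U V W H) (g : K31 p' q' x' y' U V W H) :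
    p = p' ∧ q = q' := by
  exfalso; linarith only [g.a10, g.a4, g.a5, g.a7, g.a8, h.a0, h.a11, h.a2, h.a4, h.a6, h.a8, h.a9]

theorem x21_21 (h : K21 p q x y U V W H) (g : K21 p' q' x' y' U V W H) (r : Rel (x - x') (y - y') (p - p') (q - q')) :
    p = p' ∧ q = q' := by
  rcases r with r | r | r | r
  · exact ⟨le_antisymm (by linarith only [g.a10, h.a10, r.a3]) (by linarith only [g.a11, h.a11, r.a0, r.a2]),
      le_antisymm (by linarith only [g.a12, h.a12]) (by linarith only [r.a1, r.a4])⟩
  · exact ⟨le_antisymm (by linarith only [g.a10, g.a11, h.a10, h.a11, r.a3]) (by linarith only [r.a0, r.a2]),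
      le_antisymm (by linarith only [g.a12, h.a12]) (by linarith only [g.a12, h.a12])⟩
  · exact ⟨le_antisymm (by linarith only [r.a0, r.a3]) (by linarith only [g.a10, g.a11, h.a10, h.a11, r.a2]),
      le_antisymm (by linarith only [g.a12, h.a12]) (by linarith only [g.a12, h.a12])⟩
  · exact ⟨le_antisymm (by linarith only [g.a11, h.a11, r.a0, r.a3]) (by linarith only [g.a10, h.a10, r.a2]),
      le_antisymm (by linarith only [r.a1, r.a5]) (by linarith only [g.a12, h.a12])⟩

theorem x21_22 (h : K21 p q x y U V W H) (g : K22 p' q' x' y' U V W H) (r : Rel (x - x') (y - y') (p - p') (q - q')) :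
    p = p' ∧ q = q' := by
  rcases r with r | r | r | r
  · exact ⟨le_antisymm (by linarith only [g.a1, g.a7, h.a10, h.a4, r.a1, r.a3]) (by linarith only [g.a2, h.a2, h.a4, r.a0, r.a2]),
      le_antisymm (by linarith only [g.a9, h.a12]) (by linarith only [r.a1, r.a4])⟩
  · exact ⟨le_antisymm (by linarith only [g.a1, g.a7, g.a9, h.a10, h.a12, h.a4, r.a3, r.a5]) (by linarith only [r.a0, r.a2]),
      le_antisymm (by linarith only [g.a9, h.a12]) (by linarith only [g.a9, h.a12])⟩
  · exact ⟨le_antisymm (by linarith only [r.a0, r.a3]) (by linarith only [g.a2, g.a7, g.a8, h.a10, h.a11, h.a2, r.a2]),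
      le_antisymm (by linarith only [g.a9, h.a12]) (by linarith only [g.a9, h.a12])⟩
  · exact ⟨le_antisymm (by linarith only [g.a9, h.a12, r.a0, r.a3, r.a5]) (by linarith only [g.a2, g.a7, h.a10, r.a2]),
      le_antisymm (by linarith only [r.a1, r.a5]) (by linarith only [g.a9, h.a12])⟩

theorem x21_23 (h : K21 p q x y U V W H) (g : K23 p' q' x' y' U V W H) (r : Rel (x - x') (y - y') (p - p') (q - q')) :
    p = p' ∧ q = q' := by
  rcases r with r | r | r | r
  · exact ⟨le_antisymm (by linarith only [g.a7, h.a10, r.a3]) (by linarith only [g.a1, h.a4, r.a0, r.a2]),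
      le_antisymm (by linarith only [g.a9, h.a12]) (by linarith only [r.a1, r.a4])⟩
  · exact ⟨le_antisymm (by linarith only [g.a7, g.a9, h.a10, h.a12, r.a3, r.a5]) (by linarith only [r.a0, r.a2]),
      le_antisymm (by linarith only [g.a9, h.a12]) (by linarith only [g.a9, h.a12])⟩
  · exact ⟨le_antisymm (by linarith only [r.a0, r.a3]) (by linarith only [g.a1, g.a7, h.a10, h.a4, r.a2]),
      le_antisymm (by linarith only [g.a9, h.a12]) (by linarith only [g.a9, h.a12])⟩
  · exact ⟨le_antisymm (by linarith only [g.a9, h.a12, r.a0, r.a3, r.a5]) (by linarith only [g.a7, h.a10, r.a2]),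
      le_antisymm (by linarith only [r.a1, r.a5]) (by linarith only [g.a9, h.a12])⟩

theorem x21_24 (h : K21 p q x y U V W H) (g : K24 p' q' x' y' U V W H) (r : Rel (x - x') (y - y') (p - p') (q - q')) :
    p = p' ∧ q = q' := by
  rcases r with r | r | r | r
  · exact ⟨le_antisymm (by linarith only [g.a9, h.a11, h.a3, r.a3]) (by linarith only [g.a10, h.a12, r.a0, r.a2, r.a4]),
      le_antisymm (by linarith only [g.a10, h.a12]) (by linarith only [r.a1, r.a4])⟩
  · exact ⟨le_antisymm (by linarith only [g.a3, g.a8, g.a9, h.a10, h.a11, h.a3, r.a3]) (by linarith only [r.a0, r.a2]),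
      le_antisymm (by linarith only [g.a10, h.a12]) (by linarith only [g.a10, h.a12])⟩
  · exact ⟨le_antisymm (by linarith only [r.a0, r.a3]) (by linarith only [g.a10, g.a4, g.a9, h.a11, h.a12, h.a2, r.a2, r.a4]),
      le_antisymm (by linarith only [g.a10, h.a12]) (by linarith only [g.a10, h.a12])⟩
  · exact ⟨le_antisymm (by linarith only [g.a3, g.a4, h.a3, r.a0, r.a3]) (by linarith only [g.a4, g.a9, h.a11, h.a2, r.a1, r.a2]),
      le_antisymm (by linarith only [r.a1, r.a5]) (by linarith only [g.a10, h.a12])⟩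

theorem x21_25 (h : K21 p q x y U V W H) (g : K25 p' q' x' y' U V W H) :
    p = p' ∧ q = q' := by
  exfalso; linarith only [g.a0, g.a3, g.a4, g.a6, g.a7, h.a9]

theorem x21_26 (h : K21 p q x y U V W H) (g : K26 p' q' x' y' U V W H) (r : Rel (x - x') (y - y') (p - p') (q - q')) :
    p = p' ∧ q = q' := by
  rcases r with r | r | r | r
  · exact ⟨le_antisymm (by linarith only [g.a10, g.a9, h.a10, h.a4, h.a9, r.a1, r.a3]) (by linarith only [g.a3, h.a4, r.a0, r.a2]),
      le_antisymm (by linarith only [g.a12, h.a12]) (by linarith only [r.a1, r.a4])⟩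
  · exact ⟨le_antisymm (by linarith only [g.a10, g.a12, g.a9, h.a10, h.a12, h.a4, h.a9, r.a3, r.a5]) (by linarith only [r.a0, r.a2]),
      le_antisymm (by linarith only [g.a12, h.a12]) (by linarith only [g.a12, h.a12])⟩
  · exact ⟨le_antisymm (by linarith only [r.a0, r.a3]) (by linarith only [g.a2, g.a3, h.a2, h.a4, r.a2]),
      le_antisymm (by linarith only [g.a12, h.a12]) (by linarith only [g.a12, h.a12])⟩
  · exact ⟨le_antisymm (by linarith only [g.a12, h.a12, r.a0, r.a3, r.a5]) (by linarith only [g.a2, h.a2, r.a2]),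
      le_antisymm (by linarith only [r.a1, r.a5]) (by linarith only [g.a12, h.a12])⟩

theorem x21_27 (h : K21 p q x y U V W H) (g : K27 p' q' x' y' U V W H) :
    p = p' ∧ q = q' := by
  exfalso; linarith only [g.a2, g.a4, g.a7, g.a8, h.a9]

theorem x21_28 (h : K21 p q x y U V W H) (g : K28 p' q' x' y' U V W H) (r : Rel (x - x') (y - y') (p - p') (q - q')) :
    p = p' ∧ q = q' := by
  rcases r with r | r | r | r
  · exact ⟨le_antisymm (by linarith only [g.a11, g.a12, h.a10, h.a9, r.a3]) (by linarith only [g.a13, h.a11, r.a0, r.a2]),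
      le_antisymm (by linarith only [g.a14, h.a12]) (by linarith only [r.a1, r.a4])⟩
  · exact ⟨le_antisymm (by linarith only [g.a11, g.a12, g.a13, h.a10, h.a11, h.a9, r.a3]) (by linarith only [r.a0, r.a2]),
      le_antisymm (by linarith only [g.a14, h.a12]) (by linarith only [g.a14, h.a12])⟩
  · exact ⟨le_antisymm (by linarith only [r.a0, r.a3]) (by linarith only [g.a13, g.a3, h.a11, h.a2, r.a2]),
      le_antisymm (by linarith only [g.a14, h.a12]) (by linarith only [g.a14, h.a12])⟩
  · exact ⟨le_antisymm (by linarith only [g.a13, h.a11, r.a0, r.a3]) (by linarith only [g.a3, h.a2, r.a2]),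
      le_antisymm (by linarith only [r.a1, r.a5]) (by linarith only [g.a14, h.a12])⟩

theorem x21_29 (h : K21 p q x y U V W H) (g : K29 p' q' x' y' U V W H) (r : Rel (x - x') (y - y') (p - p') (q - q')) :
    p = p' ∧ q = q' := by
  rcases r with r | r | r | r
  · exact ⟨le_antisymm (by linarith only [g.a6, g.a8, h.a11, h.a3, h.a9, r.a3]) (by linarith only [g.a9, h.a12, r.a0, r.a2, r.a4]),
      le_antisymm (by linarith only [g.a9, h.a12]) (by linarith only [r.a1, r.a4])⟩
  · exact ⟨le_antisymm (by linarith only [g.a6, g.a7, h.a10, h.a3, h.a9, r.a1, r.a3]) (by linarith only [r.a0, r.a2]),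
      le_antisymm (by linarith only [g.a9, h.a12]) (by linarith only [g.a9, h.a12])⟩
  · exact ⟨le_antisymm (by linarith only [r.a0, r.a3]) (by linarith only [g.a2, g.a7, g.a8, h.a10, h.a11, h.a2, r.a2]),
      le_antisymm (by linarith only [g.a9, h.a12]) (by linarith only [g.a9, h.a12])⟩
  · exact ⟨le_antisymm (by linarith only [g.a3, g.a6, h.a3, h.a9, r.a0, r.a3]) (by linarith only [g.a2, h.a2, r.a2]),
      le_antisymm (by linarith only [r.a1, r.a5]) (by linarith only [g.a9, h.a12])⟩

theorem x21_30 (h : K21 p q x y U V W H) (g : K30 p' q' x' y' U V W H) :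
    p = p' ∧ q = q' := by
  exfalso; linarith only [g.a11, g.a12, g.a6, g.a7, g.a9, h.a0, h.a11, h.a12, h.a4, h.a5, h.a7, h.a9]

theorem x21_31 (h : K21 p q x y U V W H) (g : K31 p' q' x' y' U V W H) :
    p = p' ∧ q = q' := by
  exfalso; linarith only [g.a1, g.a10, g.a4, g.a5, g.a7, h.a0, h.a12, h.a4, h.a5, h.a7, h.a9]

theorem x22_22 (h : K22 p q x y U V W H) (g : K22 p' q' x' y' U V W H) (r : Rel (x - x') (y - y') (p - p') (q - q')) :
    p = p' ∧ q = q' := by
  rcases r with r | r | r | r
  · exact ⟨le_antisymm (by linarith only [g.a8, h.a8, r.a3]) (by linarith only [g.a7, h.a7, r.a0, r.a2]),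
      le_antisymm (by linarith only [g.a9, h.a9]) (by linarith only [r.a1, r.a4])⟩
  · exact ⟨le_antisymm (by linarith only [g.a7, g.a8, h.a7, h.a8, r.a3]) (by linarith only [r.a0, r.a2]),
      le_antisymm (by linarith only [g.a9, h.a9]) (by linarith only [g.a9, h.a9])⟩
  · exact ⟨le_antisymm (by linarith only [r.a0, r.a3]) (by linarith only [g.a7, g.a8, h.a7, h.a8, r.a2]),
      le_antisymm (by linarith only [g.a9, h.a9]) (by linarith only [g.a9, h.a9])⟩
  · exact ⟨le_antisymm (by linarith only [g.a7, h.a7, r.a0, r.a3]) (by linarith only [g.a8, h.a8, r.a2]),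
      le_antisymm (by linarith only [r.a1, r.a5]) (by linarith only [g.a9, h.a9])⟩

theorem x22_23 (h : K22 p q x y U V W H) (g : K23 p' q' x' y' U V W H) (r : Rel (x - x') (y - y') (p - p') (q - q')) :
    p = p' ∧ q = q' := by
  rcases r with r | r | r | r
  · exact ⟨le_antisymm (by linarith only [g.a7, h.a2, h.a7, r.a3]) (by linarith only [g.a9, h.a9, r.a0, r.a2, r.a4]),
      le_antisymm (by linarith only [g.a9, h.a9]) (by linarith only [r.a1, r.a4])⟩
  · exact ⟨le_antisymm (by linarith only [g.a2, g.a7, h.a2, h.a7, r.a3]) (by linarith only [r.a0, r.a2]),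
      le_antisymm (by linarith only [g.a9, h.a9]) (by linarith only [g.a9, h.a9])⟩
  · exact ⟨le_antisymm (by linarith only [r.a0, r.a3]) (by linarith only [g.a7, g.a8, g.a9, h.a7, h.a8, h.a9, r.a2, r.a4]),
      le_antisymm (by linarith only [g.a9, h.a9]) (by linarith only [g.a9, h.a9])⟩
  · exact ⟨le_antisymm (by linarith only [g.a2, h.a2, r.a0, r.a3]) (by linarith only [g.a7, g.a8, h.a7, h.a8, r.a1, r.a2]),
      le_antisymm (by linarith only [r.a1, r.a5]) (by linarith only [g.a9, h.a9])⟩

theorem x22_24 (h : K22 p q x y U V W H) (g : K24 p' q' x' y' U V W H) :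
    p = p' ∧ q = q' := by
  exfalso; linarith only [g.a0, g.a10, g.a2, g.a4, g.a6, h.a1, h.a2, h.a5, h.a9]

theorem x22_25 (h : K22 p q x y U V W H) (g : K25 p' q' x' y' U V W H) :
    p = p' ∧ q = q' := by
  exfalso; linarith only [g.a0, g.a10, g.a3, g.a6, g.a7, g.a8, h.a5, h.a6, h.a7, h.a9]

theorem x22_26 (h : K22 p q x y U V W H) (g : K26 p' q' x' y' U V W H) (r : Rel (x - x') (y - y') (p - p') (q - q')) :
    p = p' ∧ q = q' := by
  rcases r with r | r | r | r
  · exact ⟨le_antisymm (by linarith only [g.a11, g.a9, h.a6, h.a8, r.a3]) (by linarith only [g.a10, h.a7, r.a0, r.a2]),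
      le_antisymm (by linarith only [g.a12, h.a9]) (by linarith only [r.a1, r.a4])⟩
  · exact ⟨le_antisymm (by linarith only [g.a10, g.a11, g.a9, h.a6, h.a7, h.a8, r.a3]) (by linarith only [r.a0, r.a2]),
      le_antisymm (by linarith only [g.a12, h.a9]) (by linarith only [g.a12, h.a9])⟩
  · exact ⟨le_antisymm (by linarith only [r.a0, r.a3]) (by linarith only [g.a10, g.a2, h.a1, h.a7, r.a2]),
      le_antisymm (by linarith only [g.a12, h.a9]) (by linarith only [g.a12, h.a9])⟩
  · exact ⟨le_antisymm (by linarith only [g.a10, h.a7, r.a0, r.a3]) (by linarith only [g.a2, h.a1, r.a2]),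
      le_antisymm (by linarith only [r.a1, r.a5]) (by linarith only [g.a12, h.a9])⟩

theorem x22_27 (h : K22 p q x y U V W H) (g : K27 p' q' x' y' U V W H) :
    p = p' ∧ q = q' := by
  exfalso; linarith only [g.a2, g.a4, g.a7, g.a8, h.a6]

theorem x22_28 (h : K22 p q x y U V W H) (g : K28 p' q' x' y' U V W H) (r : Rel (x - x') (y - y') (p - p') (q - q')) :
    p = p' ∧ q = q' := by
  rcases r with r | r | r | r
  · exact ⟨le_antisymm (by linarith only [g.a11, g.a12, h.a2, h.a6, h.a7, r.a3]) (by linarith only [g.a14, h.a9, r.a0, r.a2, r.a4]),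
      le_antisymm (by linarith only [g.a14, h.a9]) (by linarith only [r.a1, r.a4])⟩
  · exact ⟨le_antisymm (by linarith only [g.a11, g.a13, h.a2, h.a6, h.a8, r.a1, r.a3]) (by linarith only [r.a0, r.a2]),
      le_antisymm (by linarith only [g.a14, h.a9]) (by linarith only [g.a14, h.a9])⟩
  · exact ⟨le_antisymm (by linarith only [r.a0, r.a3]) (by linarith only [g.a12, g.a13, g.a3, h.a1, h.a7, h.a8, r.a2]),
      le_antisymm (by linarith only [g.a14, h.a9]) (by linarith only [g.a14, h.a9])⟩
  · exact ⟨le_antisymm (by linarith only [g.a11, g.a4, h.a2, h.a6, r.a0, r.a3]) (by linarith only [g.a3, h.a1, r.a2]),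
      le_antisymm (by linarith only [r.a1, r.a5]) (by linarith only [g.a14, h.a9])⟩

theorem x22_29 (h : K22 p q x y U V W H) (g : K29 p' q' x' y' U V W H) :
    p = p' ∧ q = q' := by
  exfalso; linarith only [g.a2, g.a5, g.a7, g.a8, g.a9, h.a2, h.a5, h.a7, h.a8, h.a9]

theorem x22_30 (h : K22 p q x y U V W H) (g : K30 p' q' x' y' U V W H) :
    p = p' ∧ q = q' := by
  exfalso; linarith only [g.a10, g.a11, g.a12, g.a6, g.a7, g.a9, h.a0, h.a3, h.a6, h.a7, h.a8, h.a9]

theorem x22_31 (h : K22 p q x y U V W H) (g : K31 p' q' x' y' U V W H) :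
    p = p' ∧ q = q' := by
  exfalso; linarith only [g.a10, g.a4, g.a5, g.a7, g.a8, h.a0, h.a1, h.a3, h.a4, h.a6, h.a7, h.a9]

theorem x23_23 (h : K23 p q x y U V W H) (g : K23 p' q' x' y' U V W H) (r : Rel (x - x') (y - y') (p - p') (q - q')) :
    p = p' ∧ q = q' := by
  rcases r with r | r | r | r
  · exact ⟨le_antisymm (by linarith only [g.a7, h.a7, r.a3]) (by linarith only [g.a8, h.a8, r.a0, r.a2]),
      le_antisymm (by linarith only [g.a9, h.a9]) (by linarith only [r.a1, r.a4])⟩
  · exact ⟨le_antisymm (by linarith only [g.a7, g.a8, h.a7, h.a8, r.a3]) (by linarith only [r.a0, r.a2]),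
      le_antisymm (by linarith only [g.a9, h.a9]) (by linarith only [g.a9, h.a9])⟩
  · exact ⟨le_antisymm (by linarith only [r.a0, r.a3]) (by linarith only [g.a7, g.a8, h.a7, h.a8, r.a2]),
      le_antisymm (by linarith only [g.a9, h.a9]) (by linarith only [g.a9, h.a9])⟩
  · exact ⟨le_antisymm (by linarith only [g.a8, h.a8, r.a0, r.a3]) (by linarith only [g.a7, h.a7, r.a2]),
      le_antisymm (by linarith only [r.a1, r.a5]) (by linarith only [g.a9, h.a9])⟩

theorem x23_24 (h : K23 p q x y U V W H) (g : K24 p' q' x' y' U V W H) :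
    p = p' ∧ q = q' := by
  exfalso; linarith only [g.a0, g.a10, g.a2, g.a4, g.a6, h.a1, h.a5, h.a9]

theorem x23_25 (h : K23 p q x y U V W H) (g : K25 p' q' x' y' U V W H) :
    p = p' ∧ q = q' := by
  exfalso; linarith only [g.a0, g.a3, g.a4, g.a6, g.a7, h.a6]

theorem x23_26 (h : K23 p q x y U V W H) (g : K26 p' q' x' y' U V W H) (r : Rel (x - x') (y - y') (p - p') (q - q')) :
    p = p' ∧ q = q' := by
  rcases r with r | r | r | r
  · exact ⟨le_antisymm (by linarith only [g.a10, g.a11, g.a9, h.a6, h.a7, h.a8, r.a1, r.a3]) (by linarith only [g.a2, g.a3, h.a2, r.a0, r.a2]),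
      le_antisymm (by linarith only [g.a12, h.a9]) (by linarith only [r.a1, r.a4])⟩
  · exact ⟨le_antisymm (by linarith only [g.a10, g.a11, g.a12, g.a9, h.a6, h.a7, h.a8, h.a9, r.a3, r.a5]) (by linarith only [r.a0, r.a2]),
      le_antisymm (by linarith only [g.a12, h.a9]) (by linarith only [g.a12, h.a9])⟩
  · exact ⟨le_antisymm (by linarith only [r.a0, r.a3]) (by linarith only [g.a2, g.a3, h.a1, h.a2, r.a2]),
      le_antisymm (by linarith only [g.a12, h.a9]) (by linarith only [g.a12, h.a9])⟩
  · exact ⟨le_antisymm (by linarith only [g.a12, h.a9, r.a0, r.a3, r.a5]) (by linarith only [g.a2, h.a1, h.a2, r.a2]),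
      le_antisymm (by linarith only [r.a1, r.a5]) (by linarith only [g.a12, h.a9])⟩

theorem x23_27 (h : K23 p q x y U V W H) (g : K27 p' q' x' y' U V W H) :
    p = p' ∧ q = q' := by
  exfalso; linarith only [g.a2, g.a4, g.a7, g.a8, h.a6]

theorem x23_28 (h : K23 p q x y U V W H) (g : K28 p' q' x' y' U V W H) (r : Rel (x - x') (y - y') (p - p') (q - q')) :
    p = p' ∧ q = q' := by
  rcases r with r | r | r | r
  · exact ⟨le_antisymm (by linarith only [g.a11, g.a12, h.a6, h.a7, r.a3]) (by linarith only [g.a14, h.a9, r.a0, r.a2, r.a4]),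
      le_antisymm (by linarith only [g.a14, h.a9]) (by linarith only [r.a1, r.a4])⟩
  · exact ⟨le_antisymm (by linarith only [g.a11, g.a12, g.a4, h.a1, h.a6, h.a7, r.a3]) (by linarith only [r.a0, r.a2]),
      le_antisymm (by linarith only [g.a14, h.a9]) (by linarith only [g.a14, h.a9])⟩
  · exact ⟨le_antisymm (by linarith only [r.a0, r.a3]) (by linarith only [g.a13, g.a3, h.a1, h.a2, h.a8, r.a2]),
      le_antisymm (by linarith only [g.a14, h.a9]) (by linarith only [g.a14, h.a9])⟩
  · exact ⟨le_antisymm (by linarith only [g.a4, h.a1, r.a0, r.a3]) (by linarith only [g.a3, h.a1, h.a2, r.a2]),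
      le_antisymm (by linarith only [r.a1, r.a5]) (by linarith only [g.a14, h.a9])⟩

theorem x23_29 (h : K23 p q x y U V W H) (g : K29 p' q' x' y' U V W H) :
    p = p' ∧ q = q' := by
  exfalso; linarith only [g.a2, g.a3, g.a5, g.a8, g.a9, h.a5, h.a8, h.a9]

theorem x23_30 (h : K23 p q x y U V W H) (g : K30 p' q' x' y' U V W H) :
    p = p' ∧ q = q' := by
  exfalso; linarith only [g.a12, g.a2, g.a6, g.a7, g.a9, h.a0, h.a2, h.a3, h.a4, h.a6, h.a9]

theorem x23_31 (h : K23 p q x y U V W H) (g : K31 p' q' x' y' U V W H) :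
    p = p' ∧ q = q' := by
  exfalso; linarith only [g.a1, g.a10, g.a4, g.a5, g.a7, h.a0, h.a2, h.a3, h.a4, h.a6, h.a9]

theorem x24_24 (h : K24 p q x y U V W H) (g : K24 p' q' x' y' U V W H) (r : Rel (x - x') (y - y') (p - p') (q - q')) :
    p = p' ∧ q = q' := by
  rcases r with r | r | r | r
  · exact ⟨le_antisymm (by linarith only [g.a9, h.a9, r.a3]) (by linarith only [g.a8, h.a8, r.a0, r.a2]),
      le_antisymm (by linarith only [g.a10, h.a10]) (by linarith only [r.a1, r.a4])⟩
  · exact ⟨le_antisymm (by linarith only [g.a8, g.a9, h.a8, h.a9, r.a3]) (by linarith only [r.a0, r.a2]),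
      le_antisymm (by linarith only [g.a10, h.a10]) (by linarith only [g.a10, h.a10])⟩
  · exact ⟨le_antisymm (by linarith only [r.a0, r.a3]) (by linarith only [g.a8, g.a9, h.a8, h.a9, r.a2]),
      le_antisymm (by linarith only [g.a10, h.a10]) (by linarith only [g.a10, h.a10])⟩
  · exact ⟨le_antisymm (by linarith only [g.a8, h.a8, r.a0, r.a3]) (by linarith only [g.a9, h.a9, r.a2]),
      le_antisymm (by linarith only [r.a1, r.a5]) (by linarith only [g.a10, h.a10])⟩

theorem x24_25 (h : K24 p q x y U V W H) (g : K25 p' q' x' y' U V W H) :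
    p = p' ∧ q = q' := by
  exfalso; linarith only [g.a3, g.a6, g.a7, g.a8, h.a0, h.a1, h.a2, h.a6, h.a7, h.a8]

theorem x24_26 (h : K24 p q x y U V W H) (g : K26 p' q' x' y' U V W H) :
    p = p' ∧ q = q' := by
  exfalso; linarith only [g.a12, g.a3, g.a6, h.a0, h.a10, h.a2, h.a4, h.a6]

theorem x24_27 (h : K24 p q x y U V W H) (g : K27 p' q' x' y' U V W H) :
    p = p' ∧ q = q' := by
  exfalso; linarith only [g.a2, g.a4, g.a7, g.a8, h.a7]

theorem x24_28 (h : K24 p q x y U V W H) (g : K28 p' q' x' y' U V W H) (r : Rel (x - x') (y - y') (p - p') (q - q')) :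
    p = p' ∧ q = q' := by
  rcases r with r | r | r | r
  · exact ⟨le_antisymm (by linarith only [g.a11, g.a13, h.a4, h.a7, h.a9, r.a1, r.a3]) (by linarith only [g.a5, h.a4, r.a0, r.a2]),
      le_antisymm (by linarith only [g.a14, h.a10]) (by linarith only [r.a1, r.a4])⟩
  · exact ⟨le_antisymm (by linarith only [g.a11, g.a13, g.a14, h.a10, h.a4, h.a7, h.a9, r.a3, r.a5]) (by linarith only [r.a0, r.a2]),
      le_antisymm (by linarith only [g.a14, h.a10]) (by linarith only [g.a14, h.a10])⟩
  · exact ⟨le_antisymm (by linarith only [r.a0, r.a3]) (by linarith only [g.a3, g.a5, h.a3, h.a4, r.a2]),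
      le_antisymm (by linarith only [g.a14, h.a10]) (by linarith only [g.a14, h.a10])⟩
  · exact ⟨le_antisymm (by linarith only [g.a14, h.a10, r.a0, r.a3, r.a5]) (by linarith only [g.a3, h.a3, r.a2]),
      le_antisymm (by linarith only [r.a1, r.a5]) (by linarith only [g.a14, h.a10])⟩

theorem x24_29 (h : K24 p q x y U V W H) (g : K29 p' q' x' y' U V W H) (r : Rel (x - x') (y - y') (p - p') (q - q')) :
    p = p' ∧ q = q' := by
  rcases r with r | r | r | r
  · exact ⟨le_antisymm (by linarith only [g.a6, g.a8, h.a7, h.a9, r.a3]) (by linarith only [g.a7, h.a8, r.a0, r.a2]),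
      le_antisymm (by linarith only [g.a9, h.a10]) (by linarith only [r.a1, r.a4])⟩
  · exact ⟨le_antisymm (by linarith only [g.a6, g.a7, g.a8, h.a7, h.a8, h.a9, r.a3]) (by linarith only [r.a0, r.a2]),
      le_antisymm (by linarith only [g.a9, h.a10]) (by linarith only [g.a9, h.a10])⟩
  · exact ⟨le_antisymm (by linarith only [r.a0, r.a3]) (by linarith only [g.a2, g.a7, h.a3, h.a8, r.a2]),
      le_antisymm (by linarith only [g.a9, h.a10]) (by linarith only [g.a9, h.a10])⟩
  · exact ⟨le_antisymm (by linarith only [g.a7, h.a8, r.a0, r.a3]) (by linarith only [g.a2, h.a3, r.a2]),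
      le_antisymm (by linarith only [r.a1, r.a5]) (by linarith only [g.a9, h.a10])⟩

theorem x24_30 (h : K24 p q x y U V W H) (g : K30 p' q' x' y' U V W H) :
    p = p' ∧ q = q' := by
  exfalso; linarith only [g.a11, g.a12, g.a2, g.a6, g.a7, g.a9, h.a10, h.a4, h.a6, h.a7, h.a9]

theorem x24_31 (h : K24 p q x y U V W H) (g : K31 p' q' x' y' U V W H) :
    p = p' ∧ q = q' := by
  exfalso; linarith only [g.a1, g.a10, g.a4, g.a5, g.a7, h.a0, h.a10, h.a2, h.a4, h.a6, h.a7]

theorem x25_25 (h : K25 p q x y U V W H) (g : K25 p' q' x' y' U V W H) (r : Rel (x - x') (y - y') (p - p') (q - q')) :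
    p = p' ∧ q = q' := by
  rcases r with r | r | r | r
  · exact ⟨le_antisymm (by linarith only [g.a10, g.a8, h.a10, h.a8, r.a2, r.a5]) (by linarith only [g.a10, h.a10, r.a1, r.a4]),
      le_antisymm (by linarith only [g.a10, g.a8, h.a10, h.a8, r.a2, r.a5]) (by linarith only [r.a1, r.a4])⟩
  · exact ⟨le_antisymm (by linarith only [g.a10, h.a10, r.a1, r.a2, r.a5]) (by linarith only [g.a10, g.a8, h.a10, h.a8, r.a4]),
      le_antisymm (by linarith only [g.a10, h.a10, r.a1, r.a2, r.a5]) (by linarith only [g.a8, h.a8, r.a4])⟩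
  · exact ⟨le_antisymm (by linarith only [g.a10, g.a8, h.a10, h.a8, r.a5]) (by linarith only [g.a10, h.a10, r.a1, r.a3, r.a4]),
      le_antisymm (by linarith only [g.a8, h.a8, r.a5]) (by linarith only [g.a10, h.a10, r.a1, r.a3, r.a4])⟩
  · exact ⟨le_antisymm (by linarith only [g.a10, h.a10, r.a1, r.a5]) (by linarith only [g.a10, g.a8, h.a10, h.a8, r.a3, r.a4]),
      le_antisymm (by linarith only [r.a1, r.a5]) (by linarith only [g.a10, g.a8, h.a10, h.a8, r.a3, r.a4])⟩

theorem x25_26 (h : K25 p q x y U V W H) (g : K26 p' q' x' y' U V W H) (r : Rel (x - x') (y - y') (p - p') (q - q')) :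
    p = p' ∧ q = q' := by
  rcases r with r | r | r | r
  · exact ⟨le_antisymm (by linarith only [g.a10, g.a12, g.a8, g.a9, h.a10, h.a7, h.a8, r.a5]) (by linarith only [g.a10, h.a8, r.a0, r.a2]),
      le_antisymm (by linarith only [g.a10, g.a9, h.a7, h.a8, r.a5]) (by linarith only [r.a1, r.a4])⟩
  · exact ⟨le_antisymm (by linarith only [g.a12, g.a8, g.a9, h.a10, h.a7, r.a1, r.a5]) (by linarith only [r.a0, r.a2]),
      le_antisymm (by linarith only [g.a9, h.a7, r.a1, r.a5]) (by linarith only [g.a10, h.a8, r.a4])⟩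
  · exact ⟨le_antisymm (by linarith only [g.a10, g.a12, g.a8, h.a10, h.a8, r.a5]) (by linarith only [g.a10, g.a9, h.a7, h.a8, r.a2]),
      le_antisymm (by linarith only [g.a10, h.a8, r.a5]) (by linarith only [g.a9, h.a7, r.a1, r.a4])⟩
  · exact ⟨le_antisymm (by linarith only [g.a12, g.a8, h.a10, r.a1, r.a5]) (by linarith only [g.a9, h.a7, r.a2]),
      le_antisymm (by linarith only [r.a1, r.a5]) (by linarith only [g.a10, g.a9, h.a7, h.a8, r.a4])⟩

theorem x25_27 (h : K25 p q x y U V W H) (g : K27 p' q' x' y' U V W H) (r : Rel (x - x') (y - y') (p - p') (q - q')) :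
    p = p' ∧ q = q' := by
  rcases r with r | r | r | r
  · exact ⟨le_antisymm (by linarith only [g.a10, g.a11, g.a8, g.a9, h.a10, h.a7, h.a8, h.a9, r.a5]) (by linarith only [g.a11, h.a10, r.a1, r.a4]),
      le_antisymm (by linarith only [g.a10, g.a8, g.a9, h.a7, h.a8, h.a9, r.a5]) (by linarith only [r.a1, r.a4])⟩
  · exact ⟨le_antisymm (by linarith only [g.a11, h.a10, r.a1, r.a2, r.a5]) (by linarith only [g.a11, g.a2, h.a1, h.a10, r.a4]),
      le_antisymm (by linarith only [g.a11, h.a10, r.a1, r.a2, r.a5]) (by linarith only [g.a2, h.a1, r.a4])⟩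
  · exact ⟨le_antisymm (by linarith only [g.a10, g.a11, g.a9, h.a10, h.a8, h.a9, r.a5]) (by linarith only [g.a11, h.a10, r.a1, r.a3, r.a4]),
      le_antisymm (by linarith only [g.a10, g.a9, h.a8, h.a9, r.a5]) (by linarith only [g.a11, h.a10, r.a1, r.a3, r.a4])⟩
  · exact ⟨le_antisymm (by linarith only [g.a11, h.a10, r.a1, r.a5]) (by linarith only [g.a11, g.a2, h.a1, h.a10, r.a3, r.a4]),
      le_antisymm (by linarith only [r.a1, r.a5]) (by linarith only [g.a11, g.a2, h.a1, h.a10, r.a3, r.a4])⟩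

theorem x25_28 (h : K25 p q x y U V W H) (g : K28 p' q' x' y' U V W H) (r : Rel (x - x') (y - y') (p - p') (q - q')) :
    p = p' ∧ q = q' := by
  rcases r with r | r | r | r
  · exact ⟨le_antisymm (by linarith only [g.a10, h.a6]) (by linarith only [g.a12, g.a13, h.a8, h.a9, r.a0, r.a2]),
      le_antisymm (by linarith only [g.a11, g.a12, g.a13, h.a7, h.a8, h.a9, r.a5]) (by linarith only [r.a1, r.a4])⟩
  · exact ⟨le_antisymm (by linarith only [g.a10, g.a11, g.a14, h.a10, h.a7, r.a1, r.a5]) (by linarith only [r.a0, r.a2]),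
      le_antisymm (by linarith only [g.a11, h.a7, r.a1, r.a5]) (by linarith only [g.a4, h.a1, r.a4])⟩
  · exact ⟨le_antisymm (by linarith only [r.a0, r.a3]) (by linarith only [g.a11, g.a12, g.a13, h.a7, h.a8, h.a9, r.a2]),
      le_antisymm (by linarith only [g.a12, g.a13, h.a8, h.a9, r.a5]) (by linarith only [g.a11, h.a7, r.a1, r.a4])⟩
  · exact ⟨le_antisymm (by linarith only [g.a10, g.a14, h.a10, r.a1, r.a5]) (by linarith only [g.a11, h.a7, r.a2]),
      le_antisymm (by linarith only [r.a1, r.a5]) (by linarith only [g.a11, g.a4, h.a1, h.a7, r.a4])⟩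

theorem x25_29 (h : K25 p q x y U V W H) (g : K29 p' q' x' y' U V W H) :
    p = p' ∧ q = q' := by
  exfalso; linarith only [g.a8, h.a9]

theorem x25_30 (h : K25 p q x y U V W H) (g : K30 p' q' x' y' U V W H) (r : Rel (x - x') (y - y') (p - p') (q - q')) :
    p = p' ∧ q = q' := by
  rcases r with r | r | r | r
  · exact ⟨le_antisymm (by linarith only [g.a10, g.a11, g.a12, h.a10, h.a8, h.a9, r.a2, r.a5]) (by linarith only [g.a12, h.a10, r.a1, r.a4]),
      le_antisymm (by linarith only [g.a10, g.a11, g.a12, h.a10, h.a8, h.a9, r.a2, r.a5]) (by linarith only [r.a1, r.a4])⟩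
  · exact ⟨le_antisymm (by linarith only [g.a12, h.a10, r.a1, r.a2, r.a5]) (by linarith only [g.a12, g.a3, h.a1, h.a10, r.a4]),
      le_antisymm (by linarith only [g.a12, h.a10, r.a1, r.a2, r.a5]) (by linarith only [g.a3, h.a1, r.a4])⟩
  · exact ⟨le_antisymm (by linarith only [g.a10, g.a11, g.a12, h.a10, h.a8, h.a9, r.a5]) (by linarith only [g.a12, h.a10, r.a1, r.a3, r.a4]),
      le_antisymm (by linarith only [g.a10, g.a11, h.a8, h.a9, r.a5]) (by linarith only [g.a12, h.a10, r.a1, r.a3, r.a4])⟩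
  · exact ⟨le_antisymm (by linarith only [g.a12, h.a10, r.a1, r.a5]) (by linarith only [g.a12, g.a3, h.a1, h.a10, r.a3, r.a4]),
      le_antisymm (by linarith only [r.a1, r.a5]) (by linarith only [g.a12, g.a3, h.a1, h.a10, r.a3, r.a4])⟩

theorem x25_31 (h : K25 p q x y U V W H) (g : K31 p' q' x' y' U V W H) (r : Rel (x - x') (y - y') (p - p') (q - q')) :
    p = p' ∧ q = q' := by
  rcases r with r | r | r | r
  · exact ⟨le_antisymm (by linarith only [g.a10, g.a8, h.a10, h.a8, r.a2, r.a5]) (by linarith only [g.a10, h.a10, r.a1, r.a4]),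
      le_antisymm (by linarith only [g.a10, g.a8, h.a10, h.a8, r.a2, r.a5]) (by linarith only [r.a1, r.a4])⟩
  · exact ⟨le_antisymm (by linarith only [g.a10, h.a10, r.a1, r.a2, r.a5]) (by linarith only [g.a10, g.a8, h.a10, h.a8, r.a4]),
      le_antisymm (by linarith only [g.a10, h.a10, r.a1, r.a2, r.a5]) (by linarith only [g.a8, h.a8, r.a4])⟩
  · exact ⟨le_antisymm (by linarith only [g.a10, g.a8, h.a10, h.a8, r.a5]) (by linarith only [g.a10, h.a10, r.a1, r.a3, r.a4]),
      le_antisymm (by linarith only [g.a8, h.a8, r.a5]) (by linarith only [g.a10, h.a10, r.a1, r.a3, r.a4])⟩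
  · exact ⟨le_antisymm (by linarith only [g.a10, h.a10, r.a1, r.a5]) (by linarith only [g.a10, g.a8, h.a10, h.a8, r.a3, r.a4]),
      le_antisymm (by linarith only [r.a1, r.a5]) (by linarith only [g.a10, g.a8, h.a10, h.a8, r.a3, r.a4])⟩

theorem x26_26 (h : K26 p q x y U V W H) (g : K26 p' q' x' y' U V W H) (r : Rel (x - x') (y - y') (p - p') (q - q')) :
    p = p' ∧ q = q' := by
  rcases r with r | r | r | r
  · exact ⟨le_antisymm (by linarith only [g.a9, h.a9, r.a3]) (by linarith only [g.a10, h.a10, r.a0, r.a2]),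
      le_antisymm (by linarith only [g.a12, h.a12]) (by linarith only [r.a1, r.a4])⟩
  · exact ⟨le_antisymm (by linarith only [g.a10, g.a9, h.a10, h.a9, r.a3]) (by linarith only [r.a0, r.a2]),
      le_antisymm (by linarith only [g.a12, h.a12]) (by linarith only [g.a12, h.a12])⟩
  · exact ⟨le_antisymm (by linarith only [r.a0, r.a3]) (by linarith only [g.a10, g.a9, h.a10, h.a9, r.a2]),
      le_antisymm (by linarith only [g.a12, h.a12]) (by linarith only [g.a12, h.a12])⟩
  · exact ⟨le_antisymm (by linarith only [g.a10, h.a10, r.a0, r.a3]) (by linarith only [g.a9, h.a9, r.a2]),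
      le_antisymm (by linarith only [r.a1, r.a5]) (by linarith only [g.a12, h.a12])⟩

theorem x26_27 (h : K26 p q x y U V W H) (g : K27 p' q' x' y' U V W H) (r : Rel (x - x') (y - y') (p - p') (q - q')) :
    p = p' ∧ q = q' := by
  rcases r with r | r | r | r
  · exact ⟨le_antisymm (by linarith only [g.a8, h.a9, r.a3]) (by linarith only [g.a11, h.a12, h.a8, r.a1, r.a4]),
      le_antisymm (by linarith only [g.a10, g.a8, g.a9, h.a10, h.a11, h.a9, r.a5]) (by linarith only [r.a1, r.a4])⟩
  · exact ⟨le_antisymm (by linarith only [g.a2, g.a8, h.a3, h.a9, r.a3]) (by linarith only [g.a11, g.a2, h.a12, h.a3, h.a8, r.a4]),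
      le_antisymm (by linarith only [g.a8, h.a9, r.a1, r.a5]) (by linarith only [g.a2, h.a3, r.a4])⟩
  · exact ⟨le_antisymm (by linarith only [r.a0, r.a3]) (by linarith only [g.a11, g.a8, h.a12, h.a8, h.a9, r.a1, r.a4]),
      le_antisymm (by linarith only [g.a10, g.a9, h.a10, h.a11, r.a5]) (by linarith only [g.a8, h.a9, r.a1, r.a4])⟩
  · exact ⟨le_antisymm (by linarith only [g.a2, h.a3, r.a0, r.a3]) (by linarith only [g.a11, g.a2, g.a8, h.a12, h.a3, h.a8, h.a9, r.a4]),
      le_antisymm (by linarith only [r.a1, r.a5]) (by linarith only [g.a2, g.a8, h.a3, h.a9, r.a4])⟩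

theorem x26_28 (h : K26 p q x y U V W H) (g : K28 p' q' x' y' U V W H) (r : Rel (x - x') (y - y') (p - p') (q - q')) :
    p = p' ∧ q = q' := by
  rcases r with r | r | r | r
  · exact ⟨le_antisymm (by linarith only [g.a11, h.a9, r.a3]) (by linarith only [g.a14, h.a12, r.a0, r.a2, r.a4]),
      le_antisymm (by linarith only [g.a14, h.a12]) (by linarith only [r.a1, r.a4])⟩
  · exact ⟨le_antisymm (by linarith only [g.a11, g.a4, h.a3, h.a9, r.a3]) (by linarith only [r.a0, r.a2]),
      le_antisymm (by linarith only [g.a14, h.a12]) (by linarith only [g.a14, h.a12])⟩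
  · exact ⟨le_antisymm (by linarith only [r.a0, r.a3]) (by linarith only [g.a11, g.a14, h.a12, h.a9, r.a2, r.a4]),
      le_antisymm (by linarith only [g.a14, h.a12]) (by linarith only [g.a14, h.a12])⟩
  · exact ⟨le_antisymm (by linarith only [g.a4, h.a3, r.a0, r.a3]) (by linarith only [g.a11, h.a9, r.a2]),
      le_antisymm (by linarith only [r.a1, r.a5]) (by linarith only [g.a14, h.a12])⟩

theorem x26_29 (h : K26 p q x y U V W H) (g : K29 p' q' x' y' U V W H) :
    p = p' ∧ q = q' := by
  exfalso; linarith only [g.a8, h.a11]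

theorem x26_30 (h : K26 p q x y U V W H) (g : K30 p' q' x' y' U V W H) (r : Rel (x - x') (y - y') (p - p') (q - q')) :
    p = p' ∧ q = q' := by
  rcases r with r | r | r | r
  · exact ⟨le_antisymm (by linarith only [g.a10, g.a11, g.a12, g.a6, g.a9, h.a10, h.a11, h.a12, h.a5, h.a9, r.a5]) (by linarith only [g.a12, h.a12, h.a8, r.a1, r.a4]),
      le_antisymm (by linarith only [g.a10, g.a11, g.a12, g.a6, g.a9, h.a10, h.a11, h.a12, h.a9, r.a5]) (by linarith only [r.a1, r.a4])⟩
  · exact ⟨le_antisymm (by linarith only [g.a12, g.a6, g.a9, h.a12, h.a5, h.a9, r.a1, r.a5]) (by linarith only [g.a12, g.a3, h.a12, h.a3, h.a8, r.a4]),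
      le_antisymm (by linarith only [g.a12, g.a6, g.a9, h.a12, h.a9, r.a1, r.a5]) (by linarith only [g.a3, h.a3, r.a4])⟩
  · exact ⟨le_antisymm (by linarith only [r.a0, r.a3]) (by linarith only [g.a12, h.a12, h.a8, r.a1, r.a3, r.a4]),
      le_antisymm (by linarith only [g.a10, g.a11, h.a10, h.a11, r.a5]) (by linarith only [g.a12, h.a12, h.a8, r.a1, r.a3, r.a4])⟩
  · exact ⟨le_antisymm (by linarith only [g.a3, h.a3, r.a0, r.a3]) (by linarith only [g.a12, g.a3, h.a12, h.a3, h.a8, r.a3, r.a4]),
      le_antisymm (by linarith only [r.a1, r.a5]) (by linarith only [g.a12, g.a3, h.a12, h.a3, h.a8, r.a3, r.a4])⟩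

theorem x26_31 (h : K26 p q x y U V W H) (g : K31 p' q' x' y' U V W H) (r : Rel (x - x') (y - y') (p - p') (q - q')) :
    p = p' ∧ q = q' := by
  rcases r with r | r | r | r
  · exact ⟨le_antisymm (by linarith only [g.a10, g.a4, g.a7, g.a8, h.a10, h.a12, h.a5, h.a9, r.a5]) (by linarith only [g.a10, h.a12, h.a8, r.a1, r.a4]),
      le_antisymm (by linarith only [g.a10, g.a4, g.a7, g.a8, h.a10, h.a12, h.a9, r.a5]) (by linarith only [r.a1, r.a4])⟩
  · exact ⟨le_antisymm (by linarith only [g.a10, g.a4, g.a7, h.a12, h.a5, h.a9, r.a1, r.a5]) (by linarith only [g.a10, g.a8, h.a10, h.a12, h.a8, r.a4]),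
      le_antisymm (by linarith only [g.a10, g.a4, g.a7, h.a12, h.a9, r.a1, r.a5]) (by linarith only [g.a8, h.a10, r.a4])⟩
  · exact ⟨le_antisymm (by linarith only [r.a0, r.a3]) (by linarith only [g.a10, h.a12, h.a8, r.a1, r.a3, r.a4]),
      le_antisymm (by linarith only [g.a8, h.a10, r.a5]) (by linarith only [g.a10, h.a12, h.a8, r.a1, r.a3, r.a4])⟩
  · exact ⟨le_antisymm (by linarith only [g.a8, h.a10, r.a0, r.a3]) (by linarith only [g.a10, g.a8, h.a10, h.a12, h.a8, r.a3, r.a4]),
      le_antisymm (by linarith only [r.a1, r.a5]) (by linarith only [g.a10, g.a8, h.a10, h.a12, h.a8, r.a3, r.a4])⟩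

theorem x27_27 (h : K27 p q x y U V W H) (g : K27 p' q' x' y' U V W H) (r : Rel (x - x') (y - y') (p - p') (q - q')) :
    p = p' ∧ q = q' := by
  rcases r with r | r | r | r
  · exact ⟨le_antisymm (by linarith only [g.a10, g.a11, h.a10, h.a11, r.a2, r.a5]) (by linarith only [g.a11, h.a11, r.a1, r.a4]),
      le_antisymm (by linarith only [g.a10, g.a11, h.a10, h.a11, r.a2, r.a5]) (by linarith only [r.a1, r.a4])⟩
  · exact ⟨le_antisymm (by linarith only [g.a11, h.a11, r.a1, r.a2, r.a5]) (by linarith only [g.a10, g.a11, h.a10, h.a11, r.a4]),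
      le_antisymm (by linarith only [g.a11, h.a11, r.a1, r.a2, r.a5]) (by linarith only [g.a10, h.a10, r.a4])⟩
  · exact ⟨le_antisymm (by linarith only [g.a10, g.a11, h.a10, h.a11, r.a5]) (by linarith only [g.a11, h.a11, r.a1, r.a3, r.a4]),
      le_antisymm (by linarith only [g.a10, h.a10, r.a5]) (by linarith only [g.a11, h.a11, r.a1, r.a3, r.a4])⟩
  · exact ⟨le_antisymm (by linarith only [g.a11, h.a11, r.a1, r.a5]) (by linarith only [g.a10, g.a11, h.a10, h.a11, r.a3, r.a4]),
      le_antisymm (by linarith only [r.a1, r.a5]) (by linarith only [g.a10, g.a11, h.a10, h.a11, r.a3, r.a4])⟩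

theorem x27_28 (h : K27 p q x y U V W H) (g : K28 p' q' x' y' U V W H) (r : Rel (x - x') (y - y') (p - p') (q - q')) :
    p = p' ∧ q = q' := by
  rcases r with r | r | r | r
  · exact ⟨le_antisymm (by linarith only [g.a10, g.a11, g.a13, g.a14, h.a10, h.a11, h.a8, r.a5]) (by linarith only [g.a13, h.a10, r.a0, r.a2]),
      le_antisymm (by linarith only [g.a11, g.a13, h.a10, h.a8, r.a5]) (by linarith only [r.a1, r.a4])⟩
  · exact ⟨le_antisymm (by linarith only [g.a10, g.a11, g.a14, h.a11, h.a8, r.a1, r.a5]) (by linarith only [r.a0, r.a2]),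
      le_antisymm (by linarith only [g.a11, h.a8, r.a1, r.a5]) (by linarith only [g.a13, h.a10, r.a4])⟩
  · exact ⟨le_antisymm (by linarith only [g.a10, g.a13, g.a14, h.a10, h.a11, r.a5]) (by linarith only [g.a11, g.a13, h.a10, h.a8, r.a2]),
      le_antisymm (by linarith only [g.a13, h.a10, r.a5]) (by linarith only [g.a11, h.a8, r.a1, r.a4])⟩
  · exact ⟨le_antisymm (by linarith only [g.a10, g.a14, h.a11, r.a1, r.a5]) (by linarith only [g.a11, h.a8, r.a2]),
      le_antisymm (by linarith only [r.a1, r.a5]) (by linarith only [g.a11, g.a13, h.a10, h.a8, r.a4])⟩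

theorem x27_29 (h : K27 p q x y U V W H) (g : K29 p' q' x' y' U V W H) :
    p = p' ∧ q = q' := by
  exfalso; linarith only [g.a0, g.a3, g.a5, g.a6, g.a8, g.a9, h.a10, h.a11, h.a4, h.a6, h.a8]

theorem x27_30 (h : K27 p q x y U V W H) (g : K30 p' q' x' y' U V W H) (r : Rel (x - x') (y - y') (p - p') (q - q')) :
    p = p' ∧ q = q' := by
  rcases r with r | r | r | r
  · exact ⟨le_antisymm (by linarith only [g.a11, g.a12, h.a10, h.a11, r.a2, r.a5]) (by linarith only [g.a12, h.a11, r.a1, r.a4]),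
      le_antisymm (by linarith only [g.a11, g.a12, h.a10, h.a11, r.a2, r.a5]) (by linarith only [r.a1, r.a4])⟩
  · exact ⟨le_antisymm (by linarith only [g.a12, h.a11, r.a1, r.a2, r.a5]) (by linarith only [g.a11, g.a12, h.a10, h.a11, r.a4]),
      le_antisymm (by linarith only [g.a12, h.a11, r.a1, r.a2, r.a5]) (by linarith only [g.a11, h.a10, r.a4])⟩
  · exact ⟨le_antisymm (by linarith only [g.a11, g.a12, h.a10, h.a11, r.a5]) (by linarith only [g.a12, h.a11, r.a1, r.a3, r.a4]),
      le_antisymm (by linarith only [g.a11, h.a10, r.a5]) (by linarith only [g.a12, h.a11, r.a1, r.a3, r.a4])⟩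
  · exact ⟨le_antisymm (by linarith only [g.a12, h.a11, r.a1, r.a5]) (by linarith only [g.a11, g.a12, h.a10, h.a11, r.a3, r.a4]),
      le_antisymm (by linarith only [r.a1, r.a5]) (by linarith only [g.a11, g.a12, h.a10, h.a11, r.a3, r.a4])⟩

theorem x27_31 (h : K27 p q x y U V W H) (g : K31 p' q' x' y' U V W H) (r : Rel (x - x') (y - y') (p - p') (q - q')) :
    p = p' ∧ q = q' := by
  rcases r with r | r | r | r
  · exact ⟨le_antisymm (by linarith only [g.a1, g.a10, h.a11, h.a2, r.a2, r.a5]) (by linarith only [g.a10, h.a11, r.a1, r.a4]),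
      le_antisymm (by linarith only [g.a1, g.a10, h.a11, h.a2, r.a2, r.a5]) (by linarith only [r.a1, r.a4])⟩
  · exact ⟨le_antisymm (by linarith only [g.a10, h.a11, r.a1, r.a2, r.a5]) (by linarith only [g.a10, g.a8, g.a9, h.a10, h.a11, h.a9, r.a4]),
      le_antisymm (by linarith only [g.a10, h.a11, r.a1, r.a2, r.a5]) (by linarith only [g.a8, g.a9, h.a10, h.a9, r.a4])⟩
  · exact ⟨le_antisymm (by linarith only [g.a1, g.a10, h.a11, h.a2, r.a5]) (by linarith only [g.a10, h.a11, r.a1, r.a3, r.a4]),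
      le_antisymm (by linarith only [g.a1, h.a2, r.a5]) (by linarith only [g.a10, h.a11, r.a1, r.a3, r.a4])⟩
  · exact ⟨le_antisymm (by linarith only [g.a10, h.a11, r.a1, r.a5]) (by linarith only [g.a10, g.a2, g.a8, g.a9, h.a10, h.a11, h.a3, h.a9, r.a4]),
      le_antisymm (by linarith only [r.a1, r.a5]) (by linarith only [g.a2, g.a8, g.a9, h.a10, h.a3, h.a9, r.a4])⟩

theorem x28_28 (h : K28 p q x y U V W H) (g : K28 p' q' x' y' U V W H) (r : Rel (x - x') (y - y') (p - p') (q - q')) :
    p = p' ∧ q = q' := by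
  rcases r with r | r | r | r
  · exact ⟨le_antisymm (by linarith only [g.a11, h.a11, r.a3]) (by linarith only [g.a13, h.a13, r.a0, r.a2]),
      le_antisymm (by linarith only [g.a14, h.a14]) (by linarith only [r.a1, r.a4])⟩
  · exact ⟨le_antisymm (by linarith only [g.a11, g.a13, h.a11, h.a13, r.a3]) (by linarith only [r.a0, r.a2]),
      le_antisymm (by linarith only [g.a14, h.a14]) (by linarith only [g.a14, h.a14])⟩
  · exact ⟨le_antisymm (by linarith only [r.a0, r.a3]) (by linarith only [g.a11, g.a13, h.a11, h.a13, r.a2]),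
      le_antisymm (by linarith only [g.a14, h.a14]) (by linarith only [g.a14, h.a14])⟩
  · exact ⟨le_antisymm (by linarith only [g.a13, h.a13, r.a0, r.a3]) (by linarith only [g.a11, h.a11, r.a2]),
      le_antisymm (by linarith only [r.a1, r.a5]) (by linarith only [g.a14, h.a14])⟩

theorem x28_29 (h : K28 p q x y U V W H) (g : K29 p' q' x' y' U V W H) (r : Rel (x - x') (y - y') (p - p') (q - q')) :
    p = p' ∧ q = q' := by
  rcases r with r | r | r | r
  · exact ⟨le_antisymm (by linarith only [g.a6, h.a11, r.a3]) (by linarith only [g.a9, h.a14, r.a0, r.a2, r.a4]),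
      le_antisymm (by linarith only [g.a9, h.a14]) (by linarith only [r.a1, r.a4])⟩
  · exact ⟨le_antisymm (by linarith only [g.a3, g.a6, h.a11, h.a5, r.a3]) (by linarith only [r.a0, r.a2]),
      le_antisymm (by linarith only [g.a9, h.a14]) (by linarith only [g.a9, h.a14])⟩
  · exact ⟨le_antisymm (by linarith only [r.a0, r.a3]) (by linarith only [g.a6, g.a9, h.a11, h.a14, r.a2, r.a4]),
      le_antisymm (by linarith only [g.a9, h.a14]) (by linarith only [g.a9, h.a14])⟩
  · exact ⟨le_antisymm (by linarith only [g.a3, h.a5, r.a0, r.a3]) (by linarith only [g.a6, h.a11, r.a2]),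
      le_antisymm (by linarith only [r.a1, r.a5]) (by linarith only [g.a9, h.a14])⟩

theorem x28_30 (h : K28 p q x y U V W H) (g : K30 p' q' x' y' U V W H) (r : Rel (x - x') (y - y') (p - p') (q - q')) :
    p = p' ∧ q = q' := by
  rcases r with r | r | r | r
  · exact ⟨le_antisymm (by linarith only [g.a11, g.a12, g.a6, g.a9, h.a11, h.a13, h.a14, h.a7, r.a5]) (by linarith only [g.a12, h.a10, h.a14, r.a1, r.a4]),
      le_antisymm (by linarith only [g.a11, g.a12, g.a6, g.a9, h.a11, h.a13, h.a14, r.a5]) (by linarith only [r.a1, r.a4])⟩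
  · exact ⟨le_antisymm (by linarith only [g.a12, g.a6, g.a9, h.a11, h.a14, h.a7, r.a1, r.a5]) (by linarith only [g.a11, g.a12, h.a10, h.a13, h.a14, r.a4]),
      le_antisymm (by linarith only [g.a12, g.a6, g.a9, h.a11, h.a14, r.a1, r.a5]) (by linarith only [g.a11, h.a13, r.a4])⟩
  · exact ⟨le_antisymm (by linarith only [r.a0, r.a3]) (by linarith only [g.a12, h.a10, h.a14, r.a1, r.a3, r.a4]),
      le_antisymm (by linarith only [g.a11, h.a13, r.a5]) (by linarith only [g.a12, h.a10, h.a14, r.a1, r.a3, r.a4])⟩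
  · exact ⟨le_antisymm (by linarith only [g.a11, h.a13, r.a0, r.a3]) (by linarith only [g.a11, g.a12, h.a10, h.a13, h.a14, r.a3, r.a4]),
      le_antisymm (by linarith only [r.a1, r.a5]) (by linarith only [g.a11, g.a12, h.a10, h.a13, h.a14, r.a3, r.a4])⟩

theorem x28_31 (h : K28 p q x y U V W H) (g : K31 p' q' x' y' U V W H) (r : Rel (x - x') (y - y') (p - p') (q - q')) :
    p = p' ∧ q = q' := by
  rcases r with r | r | r | r
  · exact ⟨le_antisymm (by linarith only [g.a1, g.a10, g.a4, g.a7, h.a11, h.a14, h.a4, h.a7, r.a5]) (by linarith only [g.a10, h.a10, h.a14, r.a1, r.a4]),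
      le_antisymm (by linarith only [g.a1, g.a10, g.a4, g.a7, h.a11, h.a14, h.a4, r.a5]) (by linarith only [r.a1, r.a4])⟩
  · exact ⟨le_antisymm (by linarith only [g.a10, g.a4, g.a7, h.a11, h.a14, h.a7, r.a1, r.a5]) (by linarith only [r.a0, r.a2]),
      le_antisymm (by linarith only [g.a10, g.a4, g.a7, h.a11, h.a14, r.a1, r.a5]) (by linarith only [g.a8, g.a9, h.a12, h.a13, r.a4])⟩
  · exact ⟨le_antisymm (by linarith only [r.a0, r.a3]) (by linarith only [g.a10, h.a10, h.a14, r.a1, r.a3, r.a4]),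
      le_antisymm (by linarith only [g.a1, h.a4, r.a5]) (by linarith only [g.a10, h.a10, h.a14, r.a1, r.a3, r.a4])⟩
  · exact ⟨le_antisymm (by linarith only [g.a8, g.a9, h.a12, h.a13, r.a0, r.a3]) (by linarith only [g.a10, g.a2, g.a8, g.a9, h.a10, h.a12, h.a13, h.a14, h.a7, r.a4]),
      le_antisymm (by linarith only [r.a1, r.a5]) (by linarith only [g.a2, g.a8, g.a9, h.a10, h.a12, h.a13, h.a7, r.a4])⟩

theorem x29_29 (h : K29 p q x y U V W H) (g : K29 p' q' x' y' U V W H) (r : Rel (x - x') (y - y') (p - p') (q - q')) :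
    p = p' ∧ q = q' := by
  rcases r with r | r | r | r
  · exact ⟨le_antisymm (by linarith only [g.a6, h.a6, r.a3]) (by linarith only [g.a7, h.a7, r.a0, r.a2]),
      le_antisymm (by linarith only [g.a9, h.a9]) (by linarith only [r.a1, r.a4])⟩
  · exact ⟨le_antisymm (by linarith only [g.a6, g.a7, h.a6, h.a7, r.a3]) (by linarith only [r.a0, r.a2]),
      le_antisymm (by linarith only [g.a9, h.a9]) (by linarith only [g.a9, h.a9])⟩
  · exact ⟨le_antisymm (by linarith only [r.a0, r.a3]) (by linarith only [g.a6, g.a7, h.a6, h.a7, r.a2]),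
      le_antisymm (by linarith only [g.a9, h.a9]) (by linarith only [g.a9, h.a9])⟩
  · exact ⟨le_antisymm (by linarith only [g.a7, h.a7, r.a0, r.a3]) (by linarith only [g.a6, h.a6, r.a2]),
      le_antisymm (by linarith only [r.a1, r.a5]) (by linarith only [g.a9, h.a9])⟩

theorem x29_30 (h : K29 p q x y U V W H) (g : K30 p' q' x' y' U V W H) :
    p = p' ∧ q = q' := by
  exfalso; linarith only [g.a11, g.a2, g.a9, h.a0, h.a3, h.a5, h.a6, h.a8]

theorem x29_31 (h : K29 p q x y U V W H) (g : K31 p' q' x' y' U V W H) :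
    p = p' ∧ q = q' := by
  exfalso; linarith only [g.a9, h.a8]

theorem x30_30 (h : K30 p q x y U V W H) (g : K30 p' q' x' y' U V W H) (r : Rel (x - x') (y - y') (p - p') (q - q')) :
    p = p' ∧ q = q' := by
  rcases r with r | r | r | r
  · exact ⟨le_antisymm (by linarith only [g.a11, g.a12, h.a11, h.a12, r.a2, r.a5]) (by linarith only [g.a12, h.a12, r.a1, r.a4]),
      le_antisymm (by linarith only [g.a11, g.a12, h.a11, h.a12, r.a2, r.a5]) (by linarith only [r.a1, r.a4])⟩
  · exact ⟨le_antisymm (by linarith only [g.a12, h.a12, r.a1, r.a2, r.a5]) (by linarith only [g.a11, g.a12, h.a11, h.a12, r.a4]),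
      le_antisymm (by linarith only [g.a12, h.a12, r.a1, r.a2, r.a5]) (by linarith only [g.a11, h.a11, r.a4])⟩
  · exact ⟨le_antisymm (by linarith only [g.a11, g.a12, h.a11, h.a12, r.a5]) (by linarith only [g.a12, h.a12, r.a1, r.a3, r.a4]),
      le_antisymm (by linarith only [g.a11, h.a11, r.a5]) (by linarith only [g.a12, h.a12, r.a1, r.a3, r.a4])⟩
  · exact ⟨le_antisymm (by linarith only [g.a12, h.a12, r.a1, r.a5]) (by linarith only [g.a11, g.a12, h.a11, h.a12, r.a3, r.a4]),
      le_antisymm (by linarith only [r.a1, r.a5]) (by linarith only [g.a11, g.a12, h.a11, h.a12, r.a3, r.a4])⟩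

theorem x30_31 (h : K30 p q x y U V W H) (g : K31 p' q' x' y' U V W H) (r : Rel (x - x') (y - y') (p - p') (q - q')) :
    p = p' ∧ q = q' := by
  rcases r with r | r | r | r
  · exact ⟨le_antisymm (by linarith only [g.a1, g.a10, h.a12, h.a3, r.a2, r.a5]) (by linarith only [g.a10, h.a12, r.a1, r.a4]),
      le_antisymm (by linarith only [g.a1, g.a10, h.a12, h.a3, r.a2, r.a5]) (by linarith only [r.a1, r.a4])⟩
  · exact ⟨le_antisymm (by linarith only [g.a10, h.a12, r.a1, r.a2, r.a5]) (by linarith only [g.a10, g.a8, g.a9, h.a10, h.a11, h.a12, r.a4]),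
      le_antisymm (by linarith only [g.a10, h.a12, r.a1, r.a2, r.a5]) (by linarith only [g.a8, g.a9, h.a10, h.a11, r.a4])⟩
  · exact ⟨le_antisymm (by linarith only [g.a1, g.a10, h.a12, h.a3, r.a5]) (by linarith only [g.a10, h.a12, r.a1, r.a3, r.a4]),
      le_antisymm (by linarith only [g.a1, h.a3, r.a5]) (by linarith only [g.a10, h.a12, r.a1, r.a3, r.a4])⟩
  · exact ⟨le_antisymm (by linarith only [g.a10, h.a12, r.a1, r.a5]) (by linarith only [g.a10, g.a7, g.a8, g.a9, h.a10, h.a11, h.a12, h.a9, r.a4]),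
      le_antisymm (by linarith only [r.a1, r.a5]) (by linarith only [g.a7, g.a8, g.a9, h.a10, h.a11, h.a9, r.a4])⟩

theorem x31_31 (h : K31 p q x y U V W H) (g : K31 p' q' x' y' U V W H) (r : Rel (x - x') (y - y') (p - p') (q - q')) :
    p = p' ∧ q = q' := by
  rcases r with r | r | r | r
  · exact ⟨le_antisymm (by linarith only [g.a10, g.a8, h.a10, h.a8, r.a2, r.a5]) (by linarith only [g.a10, h.a10, r.a1, r.a4]),
      le_antisymm (by linarith only [g.a10, g.a8, h.a10, h.a8, r.a2, r.a5]) (by linarith only [r.a1, r.a4])⟩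
  · exact ⟨le_antisymm (by linarith only [g.a10, h.a10, r.a1, r.a2, r.a5]) (by linarith only [g.a10, g.a8, h.a10, h.a8, r.a4]),
      le_antisymm (by linarith only [g.a10, h.a10, r.a1, r.a2, r.a5]) (by linarith only [g.a8, h.a8, r.a4])⟩
  · exact ⟨le_antisymm (by linarith only [g.a10, g.a8, h.a10, h.a8, r.a5]) (by linarith only [g.a10, h.a10, r.a1, r.a3, r.a4]),
      le_antisymm (by linarith only [g.a8, h.a8, r.a5]) (by linarith only [g.a10, h.a10, r.a1, r.a3, r.a4])⟩
  · exact ⟨le_antisymm (by linarith only [g.a10, h.a10, r.a1, r.a5]) (by linarith only [g.a10, g.a8, h.a10, h.a8, r.a3, r.a4]),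
      le_antisymm (by linarith only [r.a1, r.a5]) (by linarith only [g.a10, g.a8, h.a10, h.a8, r.a3, r.a4])⟩

theorem sw4 {a b c d : ℝ} (h : a = b ∧ c = d) : b = a ∧ d = c := ⟨h.1.symm, h.2.symm⟩

theorem hihi (h : Hi p q x y U V W H) (g : Hi p' q' x' y' U V W H)
    (r : Rel (x - x') (y - y') (p - p') (q - q')) (r2 : Rel (x' - x) (y' - y) (p' - p) (q' - q)) :
    p = p' ∧ q = q' := by
  rcases h with h | h | h | h | h | h | h | h | h | h | h | h
  · rcases g with g | g | g | g | g | g | g | g | g | g | g | g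
    · exact x20_20 h g r
    · exact x20_21 h g r
    · exact x20_22 h g
    · exact x20_23 h g
    · exact x20_24 h g r
    · exact x20_25 h g
    · exact x20_26 h g
    · exact x20_27 h g
    · exact x20_28 h g r
    · exact x20_29 h g r
    · exact x20_30 h g
    · exact x20_31 h g
  · rcases g with g | g | g | g | g | g | g | g | g | g | g | g
    · exact sw4 (x20_21 g h r2)
    · exact x21_21 h g r
    · exact x21_22 h g r
    · exact x21_23 h g r
    · exact x21_24 h g r
    · exact x21_25 h g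
    · exact x21_26 h g r
    · exact x21_27 h g
    · exact x21_28 h g r
    · exact x21_29 h g r
    · exact x21_30 h g
    · exact x21_31 h g
  · rcases g with g | g | g | g | g | g | g | g | g | g | g | g
    · exact sw4 (x20_22 g h)
    · exact sw4 (x21_22 g h r2)
    · exact x22_22 h g r
    · exact x22_23 h g r
    · exact x22_24 h g
    · exact x22_25 h g
    · exact x22_26 h g r
    · exact x22_27 h g
    · exact x22_28 h g r
    · exact x22_29 h g
    · exact x22_30 h g
    · exact x22_31 h g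
  · rcases g with g | g | g | g | g | g | g | g | g | g | g | g
    · exact sw4 (x20_23 g h)
    · exact sw4 (x21_23 g h r2)
    · exact sw4 (x22_23 g h r2)
    · exact x23_23 h g r
    · exact x23_24 h g
    · exact x23_25 h g
    · exact x23_26 h g r
    · exact x23_27 h g
    · exact x23_28 h g r
    · exact x23_29 h g
    · exact x23_30 h g
    · exact x23_31 h g
  · rcases g with g | g | g | g | g | g | g | g | g | g | g | g
    · exact sw4 (x20_24 g h r2)
    · exact sw4 (x21_24 g h r2)
    · exact sw4 (x22_24 g h)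
    · exact sw4 (x23_24 g h)
    · exact x24_24 h g r
    · exact x24_25 h g
    · exact x24_26 h g
    · exact x24_27 h g
    · exact x24_28 h g r
    · exact x24_29 h g r
    · exact x24_30 h g
    · exact x24_31 h g
  · rcases g with g | g | g | g | g | g | g | g | g | g | g | g
    · exact sw4 (x20_25 g h)
    · exact sw4 (x21_25 g h)
    · exact sw4 (x22_25 g h)
    · exact sw4 (x23_25 g h)
    · exact sw4 (x24_25 g h)
    · exact x25_25 h g r
    · exact x25_26 h g r
    · exact x25_27 h g r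
    · exact x25_28 h g r
    · exact x25_29 h g
    · exact x25_30 h g r
    · exact x25_31 h g r
  · rcases g with g | g | g | g | g | g | g | g | g | g | g | g
    · exact sw4 (x20_26 g h)
    · exact sw4 (x21_26 g h r2)
    · exact sw4 (x22_26 g h r2)
    · exact sw4 (x23_26 g h r2)
    · exact sw4 (x24_26 g h)
    · exact sw4 (x25_26 g h r2)
    · exact x26_26 h g r
    · exact x26_27 h g r
    · exact x26_28 h g r
    · exact x26_29 h g
    · exact x26_30 h g r
    · exact x26_31 h g r
  · rcases g with g | g | g | g | g | g | g | g | g | g | g | g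
    · exact sw4 (x20_27 g h)
    · exact sw4 (x21_27 g h)
    · exact sw4 (x22_27 g h)
    · exact sw4 (x23_27 g h)
    · exact sw4 (x24_27 g h)
    · exact sw4 (x25_27 g h r2)
    · exact sw4 (x26_27 g h r2)
    · exact x27_27 h g r
    · exact x27_28 h g r
    · exact x27_29 h g
    · exact x27_30 h g r
    · exact x27_31 h g r
  · rcases g with g | g | g | g | g | g | g | g | g | g | g | g
    · exact sw4 (x20_28 g h r2)
    · exact sw4 (x21_28 g h r2)
    · exact sw4 (x22_28 g h r2)
    · exact sw4 (x23_28 g h r2)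
    · exact sw4 (x24_28 g h r2)
    · exact sw4 (x25_28 g h r2)
    · exact sw4 (x26_28 g h r2)
    · exact sw4 (x27_28 g h r2)
    · exact x28_28 h g r
    · exact x28_29 h g r
    · exact x28_30 h g r
    · exact x28_31 h g r
  · rcases g with g | g | g | g | g | g | g | g | g | g | g | g
    · exact sw4 (x20_29 g h r2)
    · exact sw4 (x21_29 g h r2)
    · exact sw4 (x22_29 g h)
    · exact sw4 (x23_29 g h)
    · exact sw4 (x24_29 g h r2)
    · exact sw4 (x25_29 g h)
    · exact sw4 (x26_29 g h)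
    · exact sw4 (x27_29 g h)
    · exact sw4 (x28_29 g h r2)
    · exact x29_29 h g r
    · exact x29_30 h g
    · exact x29_31 h g
  · rcases g with g | g | g | g | g | g | g | g | g | g | g | g
    · exact sw4 (x20_30 g h)
    · exact sw4 (x21_30 g h)
    · exact sw4 (x22_30 g h)
    · exact sw4 (x23_30 g h)
    · exact sw4 (x24_30 g h)
    · exact sw4 (x25_30 g h r2)
    · exact sw4 (x26_30 g h r2)
    · exact sw4 (x27_30 g h r2)
    · exact sw4 (x28_30 g h r2)
    · exact sw4 (x29_30 g h)
    · exact x30_30 h g r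
    · exact x30_31 h g r
  · rcases g with g | g | g | g | g | g | g | g | g | g | g | g
    · exact sw4 (x20_31 g h)
    · exact sw4 (x21_31 g h)
    · exact sw4 (x22_31 g h)
    · exact sw4 (x23_31 g h)
    · exact sw4 (x24_31 g h)
    · exact sw4 (x25_31 g h r2)
    · exact sw4 (x26_31 g h r2)
    · exact sw4 (x27_31 g h r2)
    · exact sw4 (x28_31 g h r2)
    · exact sw4 (x29_31 g h)
    · exact sw4 (x30_31 g h r2)
    · exact x31_31 h g r


end LinjP

end Pool.Agent.P.MP_dba4bb_co.Ex
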