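import Pool.Agent.P.MP_dba4bb_co.Ex.Linj1

/-! Every point of the paper lies in one of the pieces. -/

namespace Pool.Agent.P.MP_dba4bb_co.Ex

namespace LinjP

variable {p q x y U V W H : ℝ}

theorem dA1 (f0 : p + q < 4) (f1 : -401 / 100 ≤ p + q) (f2 : -401 / 100 ≤ p - q) (f3 : p - q ≤ 401 / 100)
    (e0 : p + q ≤ 0 ∨ p - q ≤ 4) (e1 : p - q ≤ 0 ∨ -4 ≤ p + q)
    (s0 : q ≤ 1)
    (h : psi p q = (U, V, W))
    (hH : H = max (q - 1) 0 + 3 * max (-q - 1) 0 + 6 * max (-p - 1) 0) :
    Lo p q U V W H := by
  rcases psi_cases h with l | l | l | l | l | l | l | l | l | l | l | l | l | l | l | l | l | l | l | l | l | l | l | l | l | l | l | l | l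
  · have hH2 : H = q - 1 := by
      rw [hH, max_eq_left (show (0 : ℝ) ≤ q - 1 from by linarith only [l.a1]),
        max_eq_right (show -q - 1 ≤ (0 : ℝ) from by linarith only [l.a1]),
        max_eq_right (show -p - 1 ≤ (0 : ℝ) from by linarith only [l.a0])]
      ring
    exact Or.inl (⟨f0,
      s0,
      l.a0,
      by linarith only [l.a1],
      l.a3,
      l.a4,
      by linarith only [l.a1, l.a5, s0],
      l.a6,
      by linarith only [hH2, l.a1, s0]⟩)
  · exfalso; linarith only [f0, l.a1, l.a3]
  · exfalso; linarith only [l.a0, l.a2, s0]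
  · exfalso; linarith only [l.a3, s0]
  · exfalso; linarith only [l.a3, s0]
  · have hH2 : H = 0 := by
      rw [hH, max_eq_right (show q - 1 ≤ (0 : ℝ) from by linarith only [l.a1]),
        max_eq_right (show -q - 1 ≤ (0 : ℝ) from by linarith only [l.a2]),
        max_eq_right (show -p - 1 ≤ (0 : ℝ) from by linarith only [l.a0])]
      ring
    exact Or.inl (⟨f0,
      s0,
      l.a0,
      l.a2,
      l.a3,
      l.a4,
      l.a5,
      l.a6,
      hH2⟩)
  · have hH2 : H = 0 := by
      rw [hH, max_eq_right (show q - 1 ≤ (0 : ℝ) from by linarith only [f0, l.a3]),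
        max_eq_right (show -q - 1 ≤ (0 : ℝ) from by linarith only [l.a2]),
        max_eq_right (show -p - 1 ≤ (0 : ℝ) from by linarith only [l.a3])]
      ring
    exact Or.inr (Or.inl (⟨f0,
      f3,
      l.a2,
      by linarith only [l.a3],
      l.a4,
      l.a5,
      l.a6,
      hH2⟩))
  · have hH2 : H = 3 * (-q - 1) := by
      rw [hH, max_eq_right (show q - 1 ≤ (0 : ℝ) from by linarith only [l.a2]),
        max_eq_left (show (0 : ℝ) ≤ -q - 1 from by linarith only [l.a2]),
        max_eq_right (show -p - 1 ≤ (0 : ℝ) from by linarith only [l.a0])]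
      ring
    exact Or.inr (Or.inr (Or.inl (⟨f3,
      by linarith only [l.a2],
      l.a3,
      l.a4,
      l.a5,
      l.a6,
      l.a7,
      hH2⟩)))
  · rcases e0 with e | e
    · exfalso; linarith only [e, f3, l.a4]
    · exfalso; linarith only [e, l.a2, l.a4]
  · have hH2 : H = 3 * (-q - 1) := by
      rw [hH, max_eq_right (show q - 1 ≤ (0 : ℝ) from by linarith only [l.a2]),
        max_eq_left (show (0 : ℝ) ≤ -q - 1 from by linarith only [l.a2]),
        max_eq_right (show -p - 1 ≤ (0 : ℝ) from by linarith only [l.a0])]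
      ring
    exact Or.inr (Or.inr (Or.inr (Or.inl (⟨f3,
      l.a0,
      by linarith only [l.a3],
      l.a4,
      l.a5,
      l.a6,
      l.a7,
      hH2⟩))))
  · have hH2 : H = 3 * (-q - 1) := by
      rw [hH, max_eq_right (show q - 1 ≤ (0 : ℝ) from by linarith only [l.a4]),
        max_eq_left (show (0 : ℝ) ≤ -q - 1 from by linarith only [l.a4]),
        max_eq_right (show -p - 1 ≤ (0 : ℝ) from by linarith only [l.a0])]
      ring
    exact Or.inr (Or.inr (Or.inr (Or.inr (Or.inl (⟨f3,
      l.a0,
      l.a5,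
      l.a6,
      l.a7,
      l.a8,
      hH2⟩)))))
  · have hH2 : H = 3 * (-q - 1) := by
      rw [hH, max_eq_right (show q - 1 ≤ (0 : ℝ) from by linarith only [l.a4]),
        max_eq_left (show (0 : ℝ) ≤ -q - 1 from by linarith only [l.a4]),
        max_eq_right (show -p - 1 ≤ (0 : ℝ) from by linarith only [l.a0])]
      ring
    exact Or.inr (Or.inr (Or.inr (Or.inr (Or.inr (Or.inl (⟨f3,
      by linarith only [l.a4],
      by linarith only [l.a5],
      l.a6,
      l.a7,
      l.a8,
      hH2⟩))))))
  · exfalso; linarith only [l.a2, s0]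
  · have hH2 : H = q - 1 := by
      rw [hH, max_eq_left (show (0 : ℝ) ≤ q - 1 from by linarith only [l.a3]),
        max_eq_right (show -q - 1 ≤ (0 : ℝ) from by linarith only [l.a3]),
        max_eq_right (show -p - 1 ≤ (0 : ℝ) from by linarith only [l.a1])]
      ring
    exact Or.inr (Or.inr (Or.inr (Or.inr (Or.inr (Or.inr (Or.inl (⟨s0,
      by linarith only [l.a0],
      l.a1,
      by linarith only [l.a3],
      l.a4,
      by linarith only [l.a3, l.a5, s0],
      by linarith only [l.a3, l.a6, s0],
      by linarith only [hH2, l.a3, s0]⟩)))))))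
  · have hH2 : H = 0 := by
      rw [hH, max_eq_right (show q - 1 ≤ (0 : ℝ) from by linarith only [l.a3]),
        max_eq_right (show -q - 1 ≤ (0 : ℝ) from by linarith only [l.a4]),
        max_eq_right (show -p - 1 ≤ (0 : ℝ) from by linarith only [l.a1])]
      ring
    exact Or.inr (Or.inr (Or.inr (Or.inr (Or.inr (Or.inr (Or.inl (⟨s0,
      by linarith only [l.a0],
      l.a1,
      l.a4,
      l.a5,
      l.a6,
      l.a7,
      hH2⟩)))))))
  · have hH2 : H = 3 * (-q - 1) := by
      rw [hH, max_eq_right (show q - 1 ≤ (0 : ℝ) from by linarith only [l.a4]),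
        max_eq_left (show (0 : ℝ) ≤ -q - 1 from by linarith only [l.a4]),
        max_eq_right (show -p - 1 ≤ (0 : ℝ) from by linarith only [l.a1])]
      ring
    exact Or.inr (Or.inr (Or.inr (Or.inr (Or.inr (Or.inr (Or.inr (Or.inl (⟨by linarith only [l.a0],
      l.a1,
      by linarith only [l.a4],
      l.a5,
      l.a6,
      l.a7,
      l.a8,
      hH2⟩))))))))
  · have hH2 : H = 3 * (-q - 1) := by
      rw [hH, max_eq_right (show q - 1 ≤ (0 : ℝ) from by linarith only [l.a5]),
        max_eq_left (show (0 : ℝ) ≤ -q - 1 from by linarith only [l.a5]),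
        max_eq_right (show -p - 1 ≤ (0 : ℝ) from by linarith only [l.a1])]
      ring
    exact Or.inr (Or.inr (Or.inr (Or.inr (Or.inr (Or.inr (Or.inr (Or.inr (Or.inl (⟨f1,
      f3,
      by linarith only [l.a0],
      l.a1,
      by linarith only [l.a5],
      l.a6,
      l.a7,
      l.a8,
      hH2⟩)))))))))
  · exfalso; linarith only [l.a1, l.a3, s0]
  · exfalso; linarith only [l.a4, s0]
  · have hH2 : H = q - 1 + 6 * (-p - 1) := by
      rw [hH, max_eq_left (show (0 : ℝ) ≤ q - 1 from by linarith only [l.a2]),
        max_eq_right (show -q - 1 ≤ (0 : ℝ) from by linarith only [l.a2]),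
        max_eq_left (show (0 : ℝ) ≤ -p - 1 from by linarith only [l.a1])]
      ring
    exact Or.inr (Or.inr (Or.inr (Or.inr (Or.inr (Or.inr (Or.inr (Or.inr (Or.inr (Or.inl (⟨s0,
      by linarith only [l.a1],
      by linarith only [l.a2],
      by linarith only [l.a4],
      by linarith only [l.a2, l.a5, s0],
      by linarith only [l.a2, l.a6, s0],
      l.a7,
      by linarith only [hH2, l.a2, s0]⟩))))))))))
  · have hH2 : H = q - 1 + 6 * (-p - 1) := by
      rw [hH, max_eq_left (show (0 : ℝ) ≤ q - 1 from by linarith only [l.a2]),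
        max_eq_right (show -q - 1 ≤ (0 : ℝ) from by linarith only [l.a2]),
        max_eq_left (show (0 : ℝ) ≤ -p - 1 from by linarith only [l.a4])]
      ring
    exact Or.inr (Or.inr (Or.inr (Or.inr (Or.inr (Or.inr (Or.inr (Or.inr (Or.inr (Or.inr (Or.inl (⟨f1,
      f2,
      s0,
      by linarith only [l.a2],
      by linarith only [l.a4],
      l.a6,
      by linarith only [l.a2, l.a7, s0],
      by linarith only [l.a2, l.a8, s0],
      by linarith only [hH2, l.a2, s0]⟩)))))))))))
  · exfalso; linarith only [l.a4, l.a5, s0]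
  · have hH2 : H = 6 * (-p - 1) := by
      rw [hH, max_eq_right (show q - 1 ≤ (0 : ℝ) from by linarith only [l.a2]),
        max_eq_right (show -q - 1 ≤ (0 : ℝ) from by linarith only [l.a3]),
        max_eq_left (show (0 : ℝ) ≤ -p - 1 from by linarith only [l.a1])]
      ring
    exact Or.inr (Or.inr (Or.inr (Or.inr (Or.inr (Or.inr (Or.inr (Or.inr (Or.inr (Or.inl (⟨s0,
      by linarith only [l.a1],
      l.a3,
      l.a4,
      l.a5,
      l.a6,
      l.a7,
      hH2⟩))))))))))
  · have hH2 : H = 6 * (-p - 1) := by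
      rw [hH, max_eq_right (show q - 1 ≤ (0 : ℝ) from by linarith only [l.a2]),
        max_eq_right (show -q - 1 ≤ (0 : ℝ) from by linarith only [l.a3]),
        max_eq_left (show (0 : ℝ) ≤ -p - 1 from by linarith only [l.a4])]
      ring
    exact Or.inr (Or.inr (Or.inr (Or.inr (Or.inr (Or.inr (Or.inr (Or.inr (Or.inr (Or.inr (Or.inl (⟨f1,
      f2,
      s0,
      l.a3,
      by linarith only [l.a4],
      l.a5,
      l.a6,
      l.a7,
      hH2⟩)))))))))))
  · have hH2 : H = 3 * (-q - 1) + 6 * (-p - 1) := by
      rw [hH, max_eq_right (show q - 1 ≤ (0 : ℝ) from by linarith only [l.a3]),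
        max_eq_left (show (0 : ℝ) ≤ -q - 1 from by linarith only [l.a3]),
        max_eq_left (show (0 : ℝ) ≤ -p - 1 from by linarith only [l.a1])]
      ring
    exact Or.inr (Or.inr (Or.inr (Or.inr (Or.inr (Or.inr (Or.inr (Or.inr (Or.inr (Or.inr (Or.inr (Or.inl (⟨f1,
      by linarith only [l.a1],
      l.a4,
      l.a5,
      l.a6,
      l.a7,
      l.a8,
      hH2⟩))))))))))))
  · rcases e1 with e | e
    · exfalso; linarith only [e, f1, l.a5]
    · exfalso; linarith only [e, l.a1, l.a5]
  · have hH2 : H = 3 * (-q - 1) + 6 * (-p - 1) := by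
      rw [hH, max_eq_right (show q - 1 ≤ (0 : ℝ) from by linarith only [l.a3]),
        max_eq_left (show (0 : ℝ) ≤ -q - 1 from by linarith only [l.a3]),
        max_eq_left (show (0 : ℝ) ≤ -p - 1 from by linarith only [l.a1])]
      ring
    exact Or.inr (Or.inr (Or.inr (Or.inr (Or.inr (Or.inr (Or.inr (Or.inr (Or.inr (Or.inr (Or.inr (Or.inr (Or.inl (⟨f1,
      by linarith only [l.a3],
      by linarith only [l.a4],
      l.a5,
      l.a6,
      l.a7,
      l.a8,
      hH2⟩)))))))))))))
  · have hH2 : H = 3 * (-q - 1) + 6 * (-p - 1) := by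
      rw [hH, max_eq_right (show q - 1 ≤ (0 : ℝ) from by linarith only [l.a3]),
        max_eq_left (show (0 : ℝ) ≤ -q - 1 from by linarith only [l.a3]),
        max_eq_left (show (0 : ℝ) ≤ -p - 1 from by linarith only [l.a5])]
      ring
    exact Or.inr (Or.inr (Or.inr (Or.inr (Or.inr (Or.inr (Or.inr (Or.inr (Or.inr (Or.inr (Or.inr (Or.inr (Or.inr (Or.inl (⟨f1,
      by linarith only [l.a3],
      l.a6,
      l.a7,
      l.a8,
      l.a9,
      hH2⟩))))))))))))))
  · have hH2 : H = 3 * (-q - 1) + 6 * (-p - 1) := by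
      rw [hH, max_eq_right (show q - 1 ≤ (0 : ℝ) from by linarith only [l.a3]),
        max_eq_left (show (0 : ℝ) ≤ -q - 1 from by linarith only [l.a5, l.a6]),
        max_eq_left (show (0 : ℝ) ≤ -p - 1 from by linarith only [l.a5])]
      ring
    exact Or.inr (Or.inr (Or.inr (Or.inr (Or.inr (Or.inr (Or.inr (Or.inr (Or.inr (Or.inr (Or.inr (Or.inr (Or.inr (Or.inr (Or.inl (⟨f1,
      by linarith only [l.a5],
      by linarith only [l.a6],
      l.a7,
      l.a8,
      l.a9,
      hH2⟩)))))))))))))))

theorem dA2 (_f0 : p + q < 4) (_f1 : -401 / 100 ≤ p + q) (f2 : -401 / 100 ≤ p - q) (_f3 : p - q ≤ 401 / 100)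
    (_e0 : p + q ≤ 0 ∨ p - q ≤ 4) (_e1 : p - q ≤ 0 ∨ -4 ≤ p + q)
    (s0 : 1 < q) (s1 : p + q < 0)
    (h : psi p q = (U, V, W))
    (hH : H = max (q - 1) 0 + 3 * max (-q - 1) 0 + 6 * max (-p - 1) 0) :
    Lo p q U V W H := by
  rcases psi_cases h with l | l | l | l | l | l | l | l | l | l | l | l | l | l | l | l | l | l | l | l | l | l | l | l | l | l | l | l | l
  · exfalso; linarith only [l.a0, s0, s1]
  · exfalso; linarith only [l.a3, s0, s1]
  · exfalso; linarith only [l.a0, s0, s1]
  · exfalso; linarith only [l.a0, l.a3, s1]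
  · exfalso; linarith only [l.a0, l.a3, s1]
  · exfalso; linarith only [l.a0, s0, s1]
  · exfalso; linarith only [l.a3, s0, s1]
  · exfalso; linarith only [l.a2, s0]
  · exfalso; linarith only [l.a4, s0, s1]
  · exfalso; linarith only [l.a2, s0]
  · exfalso; linarith only [l.a4, s0]
  · exfalso; linarith only [l.a4, s0]
  · exfalso; linarith only [l.a1, l.a2, s1]
  · exfalso; linarith only [l.a1, s0, s1]
  · exfalso; linarith only [l.a3, s0]
  · exfalso; linarith only [l.a4, s0]
  · exfalso; linarith only [l.a5, s0]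
  · exfalso; linarith only [l.a3, s1]
  · exfalso; linarith only [f2, l.a4, s1]
  · have hH2 : H = q - 1 + 6 * (-p - 1) := by
      rw [hH, max_eq_left (show (0 : ℝ) ≤ q - 1 from by linarith only [s0]),
        max_eq_right (show -q - 1 ≤ (0 : ℝ) from by linarith only [s0]),
        max_eq_left (show (0 : ℝ) ≤ -p - 1 from by linarith only [s0, s1])]
      ring
    exact Or.inr (Or.inr (Or.inr (Or.inr (Or.inr (Or.inr (Or.inr (Or.inr (Or.inr (Or.inr (Or.inr (Or.inr (Or.inr (Or.inr (Or.inr (Or.inl (⟨f2,
      s0,
      s1,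
      l.a4,
      l.a5,
      l.a6,
      l.a7,
      hH2⟩))))))))))))))))
  · have hH2 : H = q - 1 + 6 * (-p - 1) := by
      rw [hH, max_eq_left (show (0 : ℝ) ≤ q - 1 from by linarith only [s0]),
        max_eq_right (show -q - 1 ≤ (0 : ℝ) from by linarith only [s0]),
        max_eq_left (show (0 : ℝ) ≤ -p - 1 from by linarith only [l.a4])]
      ring
    exact Or.inr (Or.inr (Or.inr (Or.inr (Or.inr (Or.inr (Or.inr (Or.inr (Or.inr (Or.inr (Or.inr (Or.inr (Or.inr (Or.inr (Or.inr (Or.inr (Or.inl (⟨f2,
      s0,
      l.a5,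
      l.a6,
      l.a7,
      l.a8,
      hH2⟩)))))))))))))))))
  · have hH2 : H = q - 1 + 6 * (-p - 1) := by
      rw [hH, max_eq_left (show (0 : ℝ) ≤ q - 1 from by linarith only [l.a4, l.a5]),
        max_eq_right (show -q - 1 ≤ (0 : ℝ) from by linarith only [s0]),
        max_eq_left (show (0 : ℝ) ≤ -p - 1 from by linarith only [l.a4])]
      ring
    exact Or.inr (Or.inr (Or.inr (Or.inr (Or.inr (Or.inr (Or.inr (Or.inr (Or.inr (Or.inr (Or.inr (Or.inr (Or.inr (Or.inr (Or.inr (Or.inr (Or.inr (Or.inl (⟨f2,
      s0,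
      by linarith only [l.a4],
      by linarith only [l.a5],
      l.a6,
      l.a7,
      l.a8,
      hH2⟩))))))))))))))))))
  · exfalso; linarith only [l.a2, s0]
  · exfalso; linarith only [l.a2, s0]
  · exfalso; linarith only [l.a3, s0]
  · exfalso; linarith only [l.a5, s0]
  · exfalso; linarith only [l.a3, s0]
  · exfalso; linarith only [l.a3, s0]
  · exfalso; linarith only [l.a3, s0]

theorem dA3 (f0 : p + q < 4) (_f1 : -401 / 100 ≤ p + q) (_f2 : -401 / 100 ≤ p - q) (_f3 : p - q ≤ 401 / 100)
    (_e0 : p + q ≤ 0 ∨ p - q ≤ 4) (_e1 : p - q ≤ 0 ∨ -4 ≤ p + q)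
    (s0 : 1 < q) (s1 : q - 1 ≤ 1 / 1000 * (p + 1))
    (h : psi p (2 - q) = (U, V, W))
    (hH : H = max (q - 1) 0 + 3 * max (-q - 1) 0 + 6 * max (-p - 1) 0) :
    Lo p q U V W H := by
  rcases psi_cases h with l | l | l | l | l | l | l | l | l | l | l | l | l | l | l | l | l | l | l | l | l | l | l | l | l | l | l | l | l
  · exfalso; linarith only [l.a1, s0]
  · exfalso; linarith only [f0, l.a3, s0]
  · exfalso; linarith only [l.a0, l.a2, s0]
  · exfalso; linarith only [l.a3, s0]
  · exfalso; linarith only [l.a3, s0]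
  · have hH2 : H = q - 1 := by
      rw [hH, max_eq_left (show (0 : ℝ) ≤ q - 1 from by linarith only [s0]),
        max_eq_right (show -q - 1 ≤ (0 : ℝ) from by linarith only [s0]),
        max_eq_right (show -p - 1 ≤ (0 : ℝ) from by linarith only [l.a0])]
      ring
    exact Or.inr (Or.inr (Or.inr (Or.inr (Or.inr (Or.inr (Or.inr (Or.inr (Or.inr (Or.inr (Or.inr (Or.inr (Or.inr (Or.inr (Or.inr (Or.inr (Or.inr (Or.inr (Or.inl (⟨f0,
      s0,
      s1,
      l.a0,
      l.a4,
      l.a5,
      l.a6,
      hH2⟩)))))))))))))))))))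
  · exfalso; linarith only [f0, l.a3, s0]
  · exfalso; linarith only [f0, l.a2, s1]
  · exfalso; linarith only [f0, l.a2, s1]
  · exfalso; linarith only [l.a2, l.a3, s1]
  · exfalso; linarith only [l.a4, l.a5, s1]
  · exfalso; linarith only [f0, l.a4, s1]
  · exfalso; linarith only [l.a2, s0]
  · exfalso; linarith only [l.a3, s0]
  · have hH2 : H = q - 1 := by
      rw [hH, max_eq_left (show (0 : ℝ) ≤ q - 1 from by linarith only [s0]),
        max_eq_right (show -q - 1 ≤ (0 : ℝ) from by linarith only [s0]),
        max_eq_right (show -p - 1 ≤ (0 : ℝ) from by linarith only [s0, s1])]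
      ring
    exact Or.inr (Or.inr (Or.inr (Or.inr (Or.inr (Or.inr (Or.inr (Or.inr (Or.inr (Or.inr (Or.inr (Or.inr (Or.inr (Or.inr (Or.inr (Or.inr (Or.inr (Or.inr (Or.inr (⟨s0,
      s1,
      by linarith only [l.a0],
      l.a5,
      l.a6,
      l.a7,
      hH2⟩)))))))))))))))))))
  · exfalso; linarith only [l.a0, l.a4, s1]
  · exfalso; linarith only [f0, l.a5, s1]
  · exfalso; linarith only [l.a1, l.a3, s0]
  · exfalso; linarith only [l.a4, s0]
  · exfalso; linarith only [l.a1, s0, s1]
  · exfalso; linarith only [l.a5, s0, s1]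
  · exfalso; linarith only [l.a4, s0, s1]
  · exfalso; linarith only [l.a1, s0, s1]
  · exfalso; linarith only [l.a4, s0, s1]
  · exfalso; linarith only [l.a1, l.a3, s1]
  · exfalso; linarith only [l.a1, l.a5, s1]
  · exfalso; linarith only [l.a1, l.a3, s1]
  · exfalso; linarith only [l.a3, l.a5, s1]
  · exfalso; linarith only [l.a3, l.a5, s1]

theorem dA4 (f0 : p + q < 4) (_f1 : -401 / 100 ≤ p + q) (f2 : -401 / 100 ≤ p - q) (_f3 : p - q ≤ 401 / 100)
    (_e0 : p + q ≤ 0 ∨ p - q ≤ 4) (_e1 : p - q ≤ 0 ∨ -4 ≤ p + q)
    (s0 : 1 < q) (s1 : 0 < q - 1 + (y - 1)) (s2 : q - 1 - 6 * (p + 1) < 6 * (y - 1) - (x + 1)) (s3 : x + 1 ≤ p + q) (s4 : 0 < x + y)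
    (s5 : 1 ≤ x → y ≤ 100 → y < q) (r : Rel (x + 1) (y - 1) (p + 1) (q - 1))
    (h : psi x y = (U, V, W))
    (hH : H = max (q - 1) 0 + 3 * max (-q - 1) 0 + 6 * max (-p - 1) 0) :
    Hi p q x y U V W H := by
  rcases psi_cases h with l | l | l | l | l | l | l | l | l | l | l | l | l | l | l | l | l | l | l | l | l | l | l | l | l | l | l | l | l
  · rcases r with r | r | r | r
    · have s6 : y < q := s5 (l.a0) (by linarith only [f0, l.a2, r.a2, r.a4])
      have hH2 : H = q - 1 := by
        rw [hH, max_eq_left (show (0 : ℝ) ≤ q - 1 from by linarith only [s0]),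
          max_eq_right (show -q - 1 ≤ (0 : ℝ) from by linarith only [s0]),
          max_eq_right (show -p - 1 ≤ (0 : ℝ) from by linarith only [l.a0, l.a2, r.a2])]
        ring
      exact Or.inl (⟨f0,
        s3,
        l.a2,
        r.a1,
        r.a2,
        r.a3,
        r.a5,
        s6,
        l.a4,
        l.a5,
        l.a6,
        hH2⟩)
    · have s6 : y < q := s5 (l.a0) (by linarith only [r.a1])
      have hH2 : H = q - 1 := by
        rw [hH, max_eq_left (show (0 : ℝ) ≤ q - 1 from by linarith only [s0]),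
          max_eq_right (show -q - 1 ≤ (0 : ℝ) from by linarith only [s0]),
          max_eq_right (show -p - 1 ≤ (0 : ℝ) from by linarith only [l.a0, r.a2])]
        ring
      exact Or.inl (⟨f0,
        s3,
        l.a2,
        by linarith only [l.a1],
        by linarith only [l.a1, r.a2],
        by linarith only [l.a1, r.a3],
        by linarith only [l.a1, r.a5],
        s6,
        l.a4,
        l.a5,
        l.a6,
        hH2⟩)
    · exfalso; linarith only [l.a0, r.a0]
    · exfalso; linarith only [l.a0, r.a0]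
  · exfalso; linarith only [f0, l.a3, s3]
  · rcases r with r | r | r | r
    · have s6 : y < q := s5 (l.a0) (by linarith only [l.a3])
      have hH2 : H = q - 1 := by
        rw [hH, max_eq_left (show (0 : ℝ) ≤ q - 1 from by linarith only [s0]),
          max_eq_right (show -q - 1 ≤ (0 : ℝ) from by linarith only [s0]),
          max_eq_right (show -p - 1 ≤ (0 : ℝ) from by linarith only [l.a0, l.a3, r.a2])]
        ring
      exact Or.inr (Or.inl (⟨f0,
        s3,
        l.a0,
        by linarith only [l.a2],
        l.a3,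
        r.a2,
        r.a3,
        r.a5,
        s6,
        l.a4,
        l.a5,
        l.a6,
        hH2⟩))
    · exfalso; linarith only [l.a0, l.a2, r.a1]
    · exfalso; linarith only [l.a0, r.a0]
    · exfalso; linarith only [l.a0, r.a0]
  · rcases r with r | r | r | r
    · have s6 : y < q := s5 (l.a0) (by linarith only [f0, f2, r.a4])
      have hH2 : H = q - 1 := by
        rw [hH, max_eq_left (show (0 : ℝ) ≤ q - 1 from by linarith only [l.a3, s6]),
          max_eq_right (show -q - 1 ≤ (0 : ℝ) from by linarith only [l.a3, s6]),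
          max_eq_right (show -p - 1 ≤ (0 : ℝ) from by linarith only [f2, l.a0, r.a2, s6])]
        ring
      exact Or.inr (Or.inr (Or.inl (⟨f0,
        l.a0,
        l.a4,
        r.a2,
        r.a5,
        s6,
        l.a5,
        l.a6,
        l.a7,
        hH2⟩)))
    · exfalso; linarith only [l.a3, r.a1]
    · exfalso; linarith only [l.a0, r.a0]
    · exfalso; linarith only [l.a3, r.a1]
  · rcases r with r | r | r | r
    · have s6 : y < q := s5 (l.a0) (by linarith only [f0, l.a4, r.a2, r.a4])
      have hH2 : H = q - 1 := by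
        rw [hH, max_eq_left (show (0 : ℝ) ≤ q - 1 from by linarith only [l.a3, s6]),
          max_eq_right (show -q - 1 ≤ (0 : ℝ) from by linarith only [l.a3, s6]),
          max_eq_right (show -p - 1 ≤ (0 : ℝ) from by linarith only [l.a0, l.a4, r.a2])]
        ring
      exact Or.inr (Or.inr (Or.inr (Or.inl (⟨f0,
        by linarith only [l.a3],
        by linarith only [l.a4],
        r.a2,
        r.a5,
        s6,
        l.a5,
        l.a6,
        l.a7,
        hH2⟩))))
    · exfalso; linarith only [l.a3, r.a1]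
    · exfalso; linarith only [l.a0, r.a0]
    · exfalso; linarith only [l.a0, r.a0]
  · rcases r with r | r | r | r
    · exfalso; linarith only [l.a1, r.a1]
    · have s6 : y < q := s5 (l.a0) (by linarith only [l.a1])
      have hH2 : H = q - 1 := by
        rw [hH, max_eq_left (show (0 : ℝ) ≤ q - 1 from by linarith only [l.a1, s1]),
          max_eq_right (show -q - 1 ≤ (0 : ℝ) from by linarith only [s0]),
          max_eq_right (show -p - 1 ≤ (0 : ℝ) from by linarith only [l.a0, r.a2])]
        ring
      exact Or.inr (Or.inr (Or.inr (Or.inr (Or.inl (⟨f0,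
        s1,
        s3,
        l.a0,
        r.a1,
        r.a3,
        r.a5,
        l.a4,
        l.a5,
        l.a6,
        hH2⟩)))))
    · exfalso; linarith only [l.a0, r.a0]
    · exfalso; linarith only [l.a0, r.a0]
  · exfalso; linarith only [f0, l.a3, s3]
  · exfalso; linarith only [f0, l.a0, l.a2, s1, s2]
  · exfalso; linarith only [f0, l.a2, l.a4, s1, s2]
  · exfalso; linarith only [f0, l.a0, l.a2, s1, s2]
  · exfalso; linarith only [f0, l.a4, s1, s2, s4]
  · exfalso; linarith only [f0, l.a4, s1, s2, s4]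
  · rcases r with r | r | r | r
    · rcases le_total 0 (-p - 1) with z | z
      · have hH2 : H = q - 1 + 6 * (-p - 1) := by
          rw [hH, max_eq_left (show (0 : ℝ) ≤ q - 1 from by linarith only [l.a2, r.a4]),
            max_eq_right (show -q - 1 ≤ (0 : ℝ) from by linarith only [l.a2, r.a4]),
            max_eq_left (show (0 : ℝ) ≤ -p - 1 from z)]
          ring
        exact Or.inr (Or.inr (Or.inr (Or.inr (Or.inr (Or.inl (⟨f2,
          l.a2,
          r.a0,
          r.a2,
          r.a4,
          r.a5,
          z,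
          l.a3,
          l.a4,
          l.a5,
          hH2⟩))))))
      · have hH2 : H = q - 1 := by
          rw [hH, max_eq_left (show (0 : ℝ) ≤ q - 1 from by linarith only [l.a2, r.a4]),
            max_eq_right (show -q - 1 ≤ (0 : ℝ) from by linarith only [l.a2, r.a4]),
            max_eq_right (show -p - 1 ≤ (0 : ℝ) from z)]
          ring
        exact Or.inr (Or.inr (Or.inr (Or.inr (Or.inr (Or.inr (Or.inl (⟨f0,
          f2,
          by linarith only [l.a0],
          l.a2,
          r.a2,
          r.a3,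
          r.a4,
          r.a5,
          z,
          l.a3,
          l.a4,
          l.a5,
          hH2⟩)))))))
    · exfalso; linarith only [l.a2, r.a1]
    · have hH2 : H = q - 1 + 6 * (-p - 1) := by
        rw [hH, max_eq_left (show (0 : ℝ) ≤ q - 1 from by linarith only [l.a1, l.a2, r.a4]),
          max_eq_right (show -q - 1 ≤ (0 : ℝ) from by linarith only [l.a1, l.a2, r.a4]),
          max_eq_left (show (0 : ℝ) ≤ -p - 1 from by linarith only [r.a0, r.a3])]
        ring
      exact Or.inr (Or.inr (Or.inr (Or.inr (Or.inr (Or.inl (⟨f2,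
        l.a2,
        by linarith only [l.a1],
        by linarith only [l.a1, r.a2],
        by linarith only [l.a1, r.a4],
        by linarith only [l.a1, r.a5],
        by linarith only [r.a0, r.a3],
        l.a3,
        l.a4,
        l.a5,
        hH2⟩))))))
    · exfalso; linarith only [l.a2, r.a1]
  · rcases r with r | r | r | r
    · rcases le_total 0 (-p - 1) with z | z
      · have hH2 : H = q - 1 + 6 * (-p - 1) := by
          rw [hH, max_eq_left (show (0 : ℝ) ≤ q - 1 from by linarith only [s0]),
            max_eq_right (show -q - 1 ≤ (0 : ℝ) from by linarith only [s0]),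
            max_eq_left (show (0 : ℝ) ≤ -p - 1 from z)]
          ring
        exact Or.inr (Or.inr (Or.inr (Or.inr (Or.inr (Or.inr (Or.inr (Or.inl (⟨f2,
          s4,
          by linarith only [l.a2],
          r.a0,
          r.a2,
          r.a4,
          r.a5,
          z,
          l.a4,
          l.a5,
          l.a6,
          hH2⟩))))))))
      · have hH2 : H = q - 1 := by
          rw [hH, max_eq_left (show (0 : ℝ) ≤ q - 1 from by linarith only [s0]),
            max_eq_right (show -q - 1 ≤ (0 : ℝ) from by linarith only [s0]),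
            max_eq_right (show -p - 1 ≤ (0 : ℝ) from z)]
          ring
        exact Or.inr (Or.inr (Or.inr (Or.inr (Or.inr (Or.inr (Or.inr (Or.inr (Or.inl (⟨f0,
          s1,
          s3,
          by linarith only [l.a0],
          by linarith only [l.a2],
          r.a1,
          r.a2,
          r.a3,
          r.a4,
          r.a5,
          z,
          l.a4,
          l.a5,
          l.a6,
          hH2⟩)))))))))
    · have hH2 : H = q - 1 := by
        rw [hH, max_eq_left (show (0 : ℝ) ≤ q - 1 from by linarith only [s0]),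
          max_eq_right (show -q - 1 ≤ (0 : ℝ) from by linarith only [s0]),
          max_eq_right (show -p - 1 ≤ (0 : ℝ) from by linarith only [r.a1, s0, s2, s4])]
        ring
      exact Or.inr (Or.inr (Or.inr (Or.inr (Or.inr (Or.inr (Or.inr (Or.inr (Or.inl (⟨f0,
        s1,
        s3,
        by linarith only [l.a0],
        by linarith only [r.a1],
        by linarith only [l.a3],
        by linarith only [l.a3, r.a2],
        by linarith only [l.a3, r.a3],
        by linarith only [r.a1, s0],
        by linarith only [l.a3, r.a5],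
        by linarith only [r.a1, s0, s2, s4],
        l.a4,
        l.a5,
        l.a6,
        hH2⟩)))))))))
    · have hH2 : H = q - 1 + 6 * (-p - 1) := by
        rw [hH, max_eq_left (show (0 : ℝ) ≤ q - 1 from by linarith only [s0]),
          max_eq_right (show -q - 1 ≤ (0 : ℝ) from by linarith only [s0]),
          max_eq_left (show (0 : ℝ) ≤ -p - 1 from by linarith only [r.a0, r.a3])]
        ring
      exact Or.inr (Or.inr (Or.inr (Or.inr (Or.inr (Or.inr (Or.inr (Or.inl (⟨f2,
        s4,
        by linarith only [l.a2],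
        by linarith only [l.a1],
        by linarith only [l.a1, r.a2],
        by linarith only [l.a1, r.a4],
        by linarith only [l.a1, r.a5],
        by linarith only [r.a0, r.a3],
        l.a4,
        l.a5,
        l.a6,
        hH2⟩))))))))
    · exfalso; linarith only [r.a1, r.a5, s0]
  · rcases r with r | r | r | r
    · exfalso; linarith only [l.a3, r.a1]
    · have hH2 : H = q - 1 := by
        rw [hH, max_eq_left (show (0 : ℝ) ≤ q - 1 from by linarith only [s0]),
          max_eq_right (show -q - 1 ≤ (0 : ℝ) from by linarith only [s0]),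
          max_eq_right (show -p - 1 ≤ (0 : ℝ) from by linarith only [l.a3, s1, s2, s4])]
        ring
      exact Or.inr (Or.inr (Or.inr (Or.inr (Or.inr (Or.inr (Or.inr (Or.inr (Or.inr (Or.inl (⟨s1,
        s3,
        by linarith only [l.a0],
        r.a1,
        r.a3,
        r.a5,
        l.a5,
        l.a6,
        l.a7,
        hH2⟩))))))))))
    · exfalso; linarith only [l.a3, r.a5, s1]
    · exfalso; linarith only [l.a3, r.a5, s1]
  · exfalso; linarith only [f0, l.a4, s1, s2, s4]
  · exfalso; linarith only [f0, l.a5, s1, s2, s4]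
  · rcases r with r | r | r | r
    · exfalso; linarith only [l.a1, r.a0]
    · exfalso; linarith only [l.a1, r.a1, s4]
    · have hH2 : H = q - 1 + 6 * (-p - 1) := by
        rw [hH, max_eq_left (show (0 : ℝ) ≤ q - 1 from by linarith only [s0]),
          max_eq_right (show -q - 1 ≤ (0 : ℝ) from by linarith only [s0]),
          max_eq_left (show (0 : ℝ) ≤ -p - 1 from by linarith only [l.a1, r.a3])]
        ring
      exact Or.inr (Or.inr (Or.inr (Or.inr (Or.inr (Or.inr (Or.inr (Or.inr (Or.inr (Or.inr (Or.inl (⟨f2,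
        s2,
        s4,
        l.a4,
        r.a0,
        r.a2,
        r.a3,
        r.a4,
        r.a5,
        l.a5,
        l.a6,
        l.a7,
        hH2⟩)))))))))))
    · exfalso; linarith only [l.a1, r.a1, s4]
  · rcases r with r | r | r | r
    · exfalso; linarith only [l.a1, r.a0]
    · exfalso; linarith only [l.a4, r.a1]
    · have hH2 : H = q - 1 + 6 * (-p - 1) := by
        rw [hH, max_eq_left (show (0 : ℝ) ≤ q - 1 from by linarith only [l.a4, r.a4, s4]),
          max_eq_right (show -q - 1 ≤ (0 : ℝ) from by linarith only [l.a4, r.a4, s4]),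
          max_eq_left (show (0 : ℝ) ≤ -p - 1 from by linarith only [l.a1, r.a3])]
        ring
      exact Or.inr (Or.inr (Or.inr (Or.inr (Or.inr (Or.inr (Or.inr (Or.inr (Or.inr (Or.inr (Or.inr (⟨f2,
        by linarith only [l.a4],
        r.a0,
        r.a2,
        r.a3,
        r.a4,
        r.a5,
        l.a5,
        l.a6,
        l.a7,
        hH2⟩)))))))))))
    · exfalso; linarith only [l.a4, r.a1]
  · exfalso; linarith only [l.a3, s4]
  · exfalso; linarith only [l.a5, s4]
  · exfalso; linarith only [l.a3, s4]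
  · exfalso; linarith only [l.a1, l.a2, s4]
  · exfalso; linarith only [l.a2, l.a4, s4]
  · exfalso; linarith only [l.a1, l.a3, s4]
  · exfalso; linarith only [l.a1, l.a5, s4]
  · exfalso; linarith only [l.a1, l.a3, s4]
  · exfalso; linarith only [l.a3, l.a5, s4]
  · exfalso; linarith only [l.a3, l.a5, s4]


end LinjP

end Pool.Agent.P.MP_dba4bb_co.Ex
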