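import Pool.Agent.P.MP_dba4bb_co.Ex.Linj2
import Pool.Agent.P.MP_dba4bb_co.Ex.Linj3
import Pool.Agent.P.MP_dba4bb_co.Ex.Linj4
import Pool.Agent.P.MP_dba4bb_co.Ex.Linj5

/-! Two points of the paper with the same image and the same height coincide. -/

namespace Pool.Agent.P.MP_dba4bb_co.Ex

namespace LinjP

variable {u t c s β : ℝ}

theorem s_eq (h : ParL u t c s β) : s = u * (1 + c) := by
  have h1 : (1 + u ^ 2) ≠ 0 := by positivity
  apply mul_right_cancel₀ h1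
  have : u * (1 + c) * (1 + u ^ 2) = u * (1 + u ^ 2) + u * (c * (1 + u ^ 2)) := by ring
  rw [this, h.hc, h.hs]; ring

theorem c_eq (h : ParL u t c s β) : c = 1 - u * s := by
  have h1 : (1 + u ^ 2) ≠ 0 := by positivity
  apply mul_right_cancel₀ h1
  have : (1 - u * s) * (1 + u ^ 2) = (1 + u ^ 2) - u * (s * (1 + u ^ 2)) := by ring
  rw [this, h.hc, h.hs]; ring

theorem cs1 (h : ParL u t c s β) : c ^ 2 + s ^ 2 = 1 := by
  have h1 := s_eq h
  have h2 := c_eq h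
  have : s ^ 2 = (u * s) * (1 + c) := by rw [sq]; nth_rewrite 2 [h1]; ring
  have h3 : u * s = 1 - c := by linarith
  rw [this, h3]; ring

theorem s_bd (h : ParL u t c s β) : 0 < s ∧ s ≤ 2 * u := by
  have u0 := h.u0
  have hs := h.hs
  have up : 0 < u ^ 2 := by positivity
  have s0 : 0 < s := by
    by_contra hh
    have : s * (1 + u ^ 2) ≤ 0 := mul_nonpos_of_nonpos_of_nonneg (le_of_not_gt hh) (by positivity)
    linarith
  exact ⟨s0, by nlinarith [mul_pos s0 up]⟩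

theorem bds (h : ParL u t c s β) :
    0 < t ∧ t ≤ 1 / 1000000 ∧ 0 < s ∧ s ≤ 1 / 100 ∧ 99 / 100 ≤ c ∧ c ≤ 1 ∧ 0 ≤ β ∧
      β ≤ 11 / 10000 := by
  have u0 := h.u0
  have u1 := h.u1
  have uu : u ^ 2 ≤ 1 / 1000000 := by nlinarith
  have up : 0 < u ^ 2 := by positivity
  have t0 : 0 < t := by linarith [h.t0]
  have t1 : t ≤ 1 / 1000000 := by linarith [h.t1]
  obtain ⟨s0, s1⟩ := s_bd h
  have hc := c_eq h
  have us0 : 0 < u * s := mul_pos u0 s0
  have us1 : u * s ≤ 1 / 1000 * (1 / 100) := mul_le_mul u1 (by linarith) s0.le (by norm_num)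
  have tu0 : 0 < t * u := mul_pos t0 u0
  have tu1 : t * u ≤ 1 / 1000000 * (1 / 1000) := mul_le_mul t1 u1 u0.le (by norm_num)
  have hb := h.hβ
  have uu2 : u ^ 2 ≤ u := by nlinarith
  refine ⟨t0, t1, s0, by linarith, by linarith, by linarith, ?_, ?_⟩
  · nlinarith
  · nlinarith

theorem scale (c0 : 99 / 100 ≤ c) (c1 : c ≤ 1) (s0 : 0 ≤ s) (s1 : s ≤ 1 / 100) {a : ℝ}
    (ha : 0 ≤ a) : 99 / 100 * a ≤ c * a ∧ c * a ≤ a ∧ 0 ≤ s * a ∧ s * a ≤ 1 / 100 * a :=
  ⟨mul_le_mul_of_nonneg_right c0 ha, by nlinarith, mul_nonneg s0 ha,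
    mul_le_mul_of_nonneg_right s1 ha⟩

theorem rel_of (h : ParL u t c s β) {a b x y : ℝ} (hx : x = c * a - s * b)
    (hy : y = c * b + s * a) : Rel a b x y := by
  obtain ⟨-, -, s0, s1, c0, c1, -, -⟩ := bds h
  rcases le_total 0 a with ha | ha <;> rcases le_total 0 b with hb | hb
  · obtain ⟨a1, a2, a3, a4⟩ := scale c0 c1 s0.le s1 ha
    obtain ⟨b1, b2, b3, b4⟩ := scale c0 c1 s0.le s1 hb
    exact Or.inl ⟨ha, hb, by linarith, by linarith, by linarith, by linarith⟩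
  · obtain ⟨a1, a2, a3, a4⟩ := scale c0 c1 s0.le s1 ha
    obtain ⟨b1, b2, b3, b4⟩ := scale c0 c1 s0.le s1 (neg_nonneg.2 hb)
    exact Or.inr (Or.inl ⟨ha, hb, by linarith, by linarith, by linarith, by linarith⟩)
  · obtain ⟨a1, a2, a3, a4⟩ := scale c0 c1 s0.le s1 (neg_nonneg.2 ha)
    obtain ⟨b1, b2, b3, b4⟩ := scale c0 c1 s0.le s1 hb
    exact Or.inr (Or.inr (Or.inl ⟨ha, hb, by linarith, by linarith, by linarith, by linarith⟩))
  · obtain ⟨a1, a2, a3, a4⟩ := scale c0 c1 s0.le s1 (neg_nonneg.2 ha)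
    obtain ⟨b1, b2, b3, b4⟩ := scale c0 c1 s0.le s1 (neg_nonneg.2 hb)
    exact Or.inr (Or.inr (Or.inr ⟨ha, hb, by linarith, by linarith, by linarith, by linarith⟩))

theorem paper_aux {S D : ℝ} (t0 : 0 < t) (t1 : t ≤ 1 / 1000000) (b1 : β ≤ 11 / 10000)
    (h1 : -4 ≤ S - t * D) (h2 : S - t * D ≤ 4 - 8 * t) (h3 : -4 - 4 * β ≤ t * S + D)
    (h4 : t * S + D ≤ 4) :
    S < 4 ∧ -401 / 100 ≤ S ∧ -401 / 100 ≤ D ∧ D ≤ 401 / 100 ∧ (S ≤ 0 ∨ D ≤ 4) ∧
      (D ≤ 0 ∨ -4 ≤ S) := by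
  have tt : 0 < t ^ 2 := by positivity
  have eS : S * (1 + t ^ 2) = (S - t * D) + t * (t * S + D) := by ring
  have eD : D * (1 + t ^ 2) = (t * S + D) - t * (S - t * D) := by ring
  have k1 : t * (t * S + D) ≤ t * 4 := mul_le_mul_of_nonneg_left h4 t0.le
  have k2 : t * (-5) ≤ t * (t * S + D) := mul_le_mul_of_nonneg_left (by linarith) t0.le
  have k3 : t * (S - t * D) ≤ t * 4 := mul_le_mul_of_nonneg_left (by linarith) t0.le
  have k4 : t * (-4) ≤ t * (S - t * D) := mul_le_mul_of_nonneg_left h1 t0.le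
  refine ⟨?_, ?_, ?_, ?_, ?_, ?_⟩
  · by_contra hh
    have : 0 ≤ S * t ^ 2 := mul_nonneg (by linarith [le_of_not_gt hh]) tt.le
    nlinarith [le_of_not_gt hh]
  · by_contra hh
    have : S * t ^ 2 ≤ 0 := mul_nonpos_of_nonpos_of_nonneg (by linarith [lt_of_not_ge hh]) tt.le
    nlinarith [lt_of_not_ge hh]
  · by_contra hh
    have : D * t ^ 2 ≤ 0 := mul_nonpos_of_nonpos_of_nonneg (by linarith [lt_of_not_ge hh]) tt.le
    nlinarith [lt_of_not_ge hh]
  · by_contra hh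
    have : 0 ≤ D * t ^ 2 := mul_nonneg (by linarith [lt_of_not_ge hh]) tt.le
    nlinarith [lt_of_not_ge hh]
  · rcases le_total S 0 with hS | hS
    · exact Or.inl hS
    · exact Or.inr (by linarith [mul_nonneg t0.le hS])
  · rcases le_total D 0 with hD | hD
    · exact Or.inl hD
    · exact Or.inr (by linarith [mul_nonneg t0.le hD])

theorem rot_facts (h : ParL u t c s β) {a b : ℝ} (hb : 0 < b)
    (h1 : 0 < (1 - u) * a + (1 + u) * b) (h2 : u * a < b) :
    0 < b + (c * b - s * a) ∧ b - 6 * a < 6 * (c * b - s * a) - (c * a + s * b) ∧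
      c * a + s * b ≤ a + b ∧ 0 < (c * a + s * b) + (c * b - s * a) := by
  obtain ⟨-, -, s0, s1, c0, c1, -, -⟩ := bds h
  have u0 := h.u0
  have u1 := h.u1
  have es := s_eq h
  refine ⟨?_, ?_, ?_, ?_⟩
  · have : b + (c * b - s * a) = (1 + c) * (b - u * a) := by rw [es]; ring
    rw [this]; exact mul_pos (by linarith) (by linarith)
  · have hp : 0 < 1 + u ^ 2 := by positivity
    have e : (6 * (c * b - s * a) - (c * a + s * b) - (b - 6 * a)) * (1 + u ^ 2) =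
        (5 - 7 * u) * ((1 - u) * a + (1 + u) * b) := by
      have e1 : (6 * (c * b - s * a) - (c * a + s * b) - (b - 6 * a)) * (1 + u ^ 2) =
          (6 * b - a) * (c * (1 + u ^ 2)) - (6 * a + b) * (s * (1 + u ^ 2)) -
            (b - 6 * a) * (1 + u ^ 2) := by ring
      rw [e1, h.hc, h.hs]; ring
    have p : 0 < (5 - 7 * u) * ((1 - u) * a + (1 + u) * b) := mul_pos (by linarith) h1
    rw [← e] at p
    have := (mul_pos_iff_of_pos_right hp).1 p
    linarith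
  · obtain ⟨-, -, b3, b4⟩ := scale c0 c1 s0.le s1 hb.le
    rcases le_total 0 a with ha | ha
    · obtain ⟨-, a2, -, -⟩ := scale c0 c1 s0.le s1 ha
      linarith
    · obtain ⟨a1, -, -, -⟩ := scale c0 c1 s0.le s1 (neg_nonneg.2 ha)
      have k1 : u * b ≤ 1 / 1000 * b := mul_le_mul_of_nonneg_right u1 hb.le
      have k2 : u * (-a) ≤ 1 / 1000 * (-a) := mul_le_mul_of_nonneg_right u1 (neg_nonneg.2 ha)
      nlinarith
  · obtain ⟨b1, -, b3, -⟩ := scale c0 c1 s0.le s1 hb.le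
    rcases le_total 0 a with ha | ha
    · obtain ⟨a1, -, -, a4⟩ := scale c0 c1 s0.le s1 ha
      linarith
    · have e : (1 + u) * ((c * a + s * b) + (c * b - s * a)) =
          (c + s) * ((1 - u) * a + (1 + u) * b) + 2 * u * (-a) := by
        rw [es]; ring
      have p1 : 0 < (c + s) * ((1 - u) * a + (1 + u) * b) := mul_pos (by linarith) h1
      have p2 : 0 ≤ 2 * u * (-a) := mul_nonneg (by linarith) (neg_nonneg.2 ha)
      have p : 0 < (1 + u) * ((c * a + s * b) + (c * b - s * a)) := by rw [e]; linarith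
      exact (mul_pos_iff_of_pos_left (by linarith)).1 p

theorem desc (h : ParL u t c s β) {P : P2} (hP : P ∈ Pp t β) {U V W : ℝ}
    (hf : ff u c s P = (U, V, W)) :
    Lo P.1 P.2 U V W (hh P) ∨ ∃ x y : ℝ, P.1 + 1 = c * (x + 1) - s * (y - 1) ∧
      P.2 - 1 = c * (y - 1) + s * (x + 1) ∧ Hi P.1 P.2 x y U V W (hh P) := by
  obtain ⟨p, q⟩ := P
  obtain ⟨t0, t1, s0, -, -, -, -, b1⟩ := bds h
  have u0 := h.u0
  have u1 := h.u1
  obtain ⟨w1, w2, w3, w4⟩ := hP
  obtain ⟨f0, f1, f2, f3, e0, e1⟩ := paper_aux t0 t1 b1 w1 w2 w3 w4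
  simp only at f0 f1 f2 f3 e0 e1 ⊢
  have hH : hh (p, q) = max (q - 1) 0 + 3 * max (-q - 1) 0 + 6 * max (-p - 1) 0 := rfl
  unfold ff ple at hf
  simp only at hf
  by_cases k1 : q ≤ 1
  · rw [if_pos (Or.inl k1)] at hf
    exact Or.inl (dA1 f0 f1 f2 f3 e0 e1 k1 hf hH)
  have q1 : 1 < q := lt_of_not_ge k1
  by_cases k2 : (1 - u) * (p + 1) + (1 + u) * (q - 1) ≤ 0
  · rw [if_pos (Or.inr k2)] at hf
    have z1 : 0 < (1 + u) * (q - 1) := mul_pos (by linarith) (by linarith)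
    have z2 : p + 1 < 0 := by
      by_contra hh
      have : 0 ≤ (1 - u) * (p + 1) := mul_nonneg (by linarith) (le_of_not_gt hh)
      linarith
    have z3 : 0 < u * ((q - 1) - (p + 1)) := mul_pos u0 (by linarith)
    exact Or.inl (dA2 f0 f1 f2 f3 e0 e1 q1 (by linarith only [z3, k2]) hf hH)
  rw [if_neg (not_or.2 ⟨k1, k2⟩)] at hf
  by_cases k3 : q - 1 ≤ u * (p + 1)
  · rw [if_pos k3] at hf
    have z2 : 0 ≤ p + 1 := by
      by_contra hh
      have : u * (p + 1) < 0 := mul_neg_of_pos_of_neg u0 (lt_of_not_ge hh)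
      linarith
    exact Or.inl (dA3 f0 f1 f2 f3 e0 e1 q1
      (k3.trans (mul_le_mul_of_nonneg_right u1 z2)) hf hH)
  rw [if_neg k3] at hf
  have cs := cs1 h
  obtain ⟨g1, g2, g3, g4⟩ := rot_facts h (a := p + 1) (b := q - 1) (by linarith)
    (lt_of_not_ge k2) (lt_of_not_ge k3)
  obtain ⟨x, hx⟩ : ∃ x, x = c * (p + 1) + s * (q - 1) - 1 := ⟨_, rfl⟩
  obtain ⟨y, hy⟩ : ∃ y, y = c * (q - 1) - s * (p + 1) + 1 := ⟨_, rfl⟩
  have hf2 : psi x y = (U, V, W) := by rw [hx, hy]; exact hf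
  have ea : p + 1 = c * (x + 1) - s * (y - 1) := by
    rw [hx, hy]; linear_combination (-(p + 1)) * cs
  have eb : q - 1 = c * (y - 1) + s * (x + 1) := by
    rw [hx, hy]; linear_combination (-(q - 1)) * cs
  refine Or.inr ⟨x, y, ea, eb, dA4 f0 f1 f2 f3 e0 e1 q1 (by linarith only [g1, hy])
    (by linarith only [g2, hx, hy]) (by linarith only [g3, hx]) (by linarith only [g4, hx, hy]) ?_ (rel_of h ea eb) hf2 hH⟩
  intro m1 m2
  have ec := c_eq h
  have e : q - y = s * ((x + 1) - u * (y - 1)) := by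
    have : q - y = c * (y - 1) + s * (x + 1) - (y - 1) := by linarith only [eb]
    rw [this]; linear_combination (y - 1) * ec
  have z0 : u * (y - 1) ≤ u * 100 := mul_le_mul_of_nonneg_left (by linarith only [m2]) u0.le
  have : 0 < s * ((x + 1) - u * (y - 1)) := mul_pos s0 (by linarith only [z0, u1, m1])
  linarith only [this, e]

end LinjP

open LinjP in
theorem sLinj : SLinj := by
  intro u t c s β h P hP Q hQ hf hh'
  obtain ⟨⟨U, V, W⟩, hZ⟩ : ∃ Z, ff u c s P = Z := ⟨_, rfl⟩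
  have d1 := desc h hP hZ
  have d2 := desc h hQ (hf.symm.trans hZ)
  rw [← hh'] at d2
  have key : P.1 = Q.1 ∧ P.2 = Q.2 := by
    rcases d1 with d1 | ⟨x, y, a1, a2, d1⟩ <;> rcases d2 with d2 | ⟨x', y', b1, b2, d2⟩
    · exact lolo d1 d2
    · exact lohi d1 d2
    · exact sw (lohi d2 d1)
    · exact hihi d1 d2 (rel_of h (by linear_combination a1 - b1) (by linear_combination a2 - b2))
        (rel_of h (by linear_combination b1 - a1) (by linear_combination b2 - a2))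
  exact Prod.ext key.1 key.2

end Pool.Agent.P.MP_dba4bb_co.Ex
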