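import Pool.Agent.P.MP_dba4bb_co.Ex.SL

/-! The pieces of the folding as linear conditions. -/

namespace Pool.Agent.P.MP_dba4bb_co.Ex

namespace LinjP

structure K0 (p q U V W H : ℝ) : Prop where
  a0 : p + q < 4
  a1 : q ≤ 1
  a2 : 1 ≤ p
  a3 : -1 ≤ q
  a4 : p ≤ 3
  a5 : U = 1
  a6 : V = q
  a7 : W = p - 2
  a8 : H = 0

structure K1 (p q U V W H : ℝ) : Prop where
  a0 : p + q < 4
  a1 : p - q ≤ 401 / 100
  a2 : -1 ≤ q
  a3 : 3 ≤ p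
  a4 : U = 4 - p
  a5 : V = q
  a6 : W = 1
  a7 : H = 0

structure K2 (p q U V W H : ℝ) : Prop where
  a0 : p - q ≤ 401 / 100
  a1 : q ≤ -1
  a2 : -q ≤ p
  a3 : p ≤ 3
  a4 : U = 1
  a5 : V = -2 - q
  a6 : W = p - 2
  a7 : H = 3 * (-q - 1)

structure K3 (p q U V W H : ℝ) : Prop where
  a0 : p - q ≤ 401 / 100
  a1 : 1 ≤ p
  a2 : p ≤ -q
  a3 : -q ≤ 3
  a4 : U = 1
  a5 : V = p - 2
  a6 : W = -q - 2
  a7 : H = 3 * (-q - 1)

structure K4 (p q U V W H : ℝ) : Prop where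
  a0 : p - q ≤ 401 / 100
  a1 : 1 ≤ p
  a2 : p + 2 ≤ -q
  a3 : U = 1
  a4 : V = -4 - q
  a5 : W = 2 - p
  a6 : H = 3 * (-q - 1)

structure K5 (p q U V W H : ℝ) : Prop where
  a0 : p - q ≤ 401 / 100
  a1 : 3 ≤ -q
  a2 : -q ≤ p + 2
  a3 : U = 1
  a4 : V = p - 2
  a5 : W = 4 + q
  a6 : H = 3 * (-q - 1)

structure K6 (p q U V W H : ℝ) : Prop where
  a0 : q ≤ 1
  a1 : p ≤ 1
  a2 : -1 ≤ p
  a3 : -1 ≤ q
  a4 : U = p
  a5 : V = q
  a6 : W = -1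
  a7 : H = 0

structure K7 (p q U V W H : ℝ) : Prop where
  a0 : p ≤ 1
  a1 : -1 ≤ p
  a2 : q ≤ -1
  a3 : -3 ≤ q
  a4 : U = p
  a5 : V = -1
  a6 : W = -q - 2
  a7 : H = 3 * (-q - 1)

structure K8 (p q U V W H : ℝ) : Prop where
  a0 : -401 / 100 ≤ p + q
  a1 : p - q ≤ 401 / 100
  a2 : p ≤ 1
  a3 : -1 ≤ p
  a4 : q ≤ -3
  a5 : U = p
  a6 : V = -4 - q
  a7 : W = 1
  a8 : H = 3 * (-q - 1)

structure K9 (p q U V W H : ℝ) : Prop where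
  a0 : q ≤ 1
  a1 : p ≤ -1
  a2 : -1 ≤ q
  a3 : -3 ≤ p
  a4 : U = -1
  a5 : V = q
  a6 : W = -p - 2
  a7 : H = 6 * (-p - 1)

structure K10 (p q U V W H : ℝ) : Prop where
  a0 : -401 / 100 ≤ p + q
  a1 : -401 / 100 ≤ p - q
  a2 : q ≤ 1
  a3 : -1 ≤ q
  a4 : p ≤ -3
  a5 : U = -4 - p
  a6 : V = q
  a7 : W = 1
  a8 : H = 6 * (-p - 1)

structure K11 (p q U V W H : ℝ) : Prop where
  a0 : -401 / 100 ≤ p + q
  a1 : p ≤ -1
  a2 : q ≤ p
  a3 : -q ≤ 3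
  a4 : U = -2 - p
  a5 : V = -1
  a6 : W = -q - 2
  a7 : H = 3 * (-q - 1) + 6 * (-p - 1)

structure K12 (p q U V W H : ℝ) : Prop where
  a0 : -401 / 100 ≤ p + q
  a1 : q ≤ -1
  a2 : p ≤ q
  a3 : -p ≤ 3
  a4 : U = -2 - q
  a5 : V = -1
  a6 : W = -p - 2
  a7 : H = 3 * (-q - 1) + 6 * (-p - 1)

structure K13 (p q U V W H : ℝ) : Prop where
  a0 : -401 / 100 ≤ p + q
  a1 : q ≤ -1
  a2 : -q + 2 ≤ -p
  a3 : U = -4 - p
  a4 : V = -1
  a5 : W = 2 + q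
  a6 : H = 3 * (-q - 1) + 6 * (-p - 1)

structure K14 (p q U V W H : ℝ) : Prop where
  a0 : -401 / 100 ≤ p + q
  a1 : 3 ≤ -p
  a2 : -p ≤ -q + 2
  a3 : U = -2 - q
  a4 : V = -1
  a5 : W = 4 + p
  a6 : H = 3 * (-q - 1) + 6 * (-p - 1)

structure K15 (p q U V W H : ℝ) : Prop where
  a0 : -401 / 100 ≤ p - q
  a1 : 1 < q
  a2 : p + q < 0
  a3 : -p ≤ 3
  a4 : U = q - 2
  a5 : V = 1
  a6 : W = -p - 2
  a7 : H = q - 1 + 6 * (-p - 1)

structure K16 (p q U V W H : ℝ) : Prop where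
  a0 : -401 / 100 ≤ p - q
  a1 : 1 < q
  a2 : q + 2 ≤ -p
  a3 : U = -4 - p
  a4 : V = 1
  a5 : W = 2 - q
  a6 : H = q - 1 + 6 * (-p - 1)

structure K17 (p q U V W H : ℝ) : Prop where
  a0 : -401 / 100 ≤ p - q
  a1 : 1 < q
  a2 : 3 ≤ -p
  a3 : -p ≤ q + 2
  a4 : U = q - 2
  a5 : V = 1
  a6 : W = 4 + p
  a7 : H = q - 1 + 6 * (-p - 1)

structure K18 (p q U V W H : ℝ) : Prop where
  a0 : p + q < 4
  a1 : 1 < q
  a2 : q - 1 ≤ 1 / 1000 * (p + 1)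
  a3 : 1 ≤ p
  a4 : U = 1
  a5 : V = (2 - q)
  a6 : W = p - 2
  a7 : H = q - 1

structure K19 (p q U V W H : ℝ) : Prop where
  a0 : 1 < q
  a1 : q - 1 ≤ 1 / 1000 * (p + 1)
  a2 : p ≤ 1
  a3 : U = p
  a4 : V = (2 - q)
  a5 : W = -1
  a6 : H = q - 1

structure K20 (p q x y U V W H : ℝ) : Prop where
  a0 : p + q < 4
  a1 : x + 1 ≤ p + q
  a2 : y ≤ x
  a3 : 0 ≤ (y - 1)
  a4 : 99 / 100 * (x + 1) - 1 / 100 * (y - 1) ≤ (p + 1)
  a5 : (p + 1) ≤ (x + 1)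
  a6 : (q - 1) ≤ (y - 1) + 1 / 100 * (x + 1)
  a7 : y < q
  a8 : U = 1
  a9 : V = 2 - y
  a10 : W = x - 2
  a11 : H = q - 1

structure K21 (p q x y U V W H : ℝ) : Prop where
  a0 : p + q < 4
  a1 : x + 1 ≤ p + q
  a2 : 1 ≤ x
  a3 : x ≤ y
  a4 : y ≤ 3
  a5 : 99 / 100 * (x + 1) - 1 / 100 * (y - 1) ≤ (p + 1)
  a6 : (p + 1) ≤ (x + 1)
  a7 : (q - 1) ≤ (y - 1) + 1 / 100 * (x + 1)
  a8 : y < q
  a9 : U = 1
  a10 : V = 2 - x
  a11 : W = y - 2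
  a12 : H = q - 1

structure K22 (p q x y U V W H : ℝ) : Prop where
  a0 : p + q < 4
  a1 : 1 ≤ x
  a2 : x + 2 ≤ y
  a3 : 99 / 100 * (x + 1) - 1 / 100 * (y - 1) ≤ (p + 1)
  a4 : (q - 1) ≤ (y - 1) + 1 / 100 * (x + 1)
  a5 : y < q
  a6 : U = 1
  a7 : V = 4 - y
  a8 : W = 2 - x
  a9 : H = q - 1

structure K23 (p q x y U V W H : ℝ) : Prop where
  a0 : p + q < 4
  a1 : 3 ≤ y
  a2 : y ≤ x + 2
  a3 : 99 / 100 * (x + 1) - 1 / 100 * (y - 1) ≤ (p + 1)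
  a4 : (q - 1) ≤ (y - 1) + 1 / 100 * (x + 1)
  a5 : y < q
  a6 : U = 1
  a7 : V = 2 - x
  a8 : W = 4 - y
  a9 : H = q - 1

structure K24 (p q x y U V W H : ℝ) : Prop where
  a0 : p + q < 4
  a1 : 0 < q - 1 + (y - 1)
  a2 : x + 1 ≤ p + q
  a3 : 1 ≤ x
  a4 : (y - 1) ≤ 0
  a5 : (p + 1) ≤ (x + 1) - 1 / 100 * (y - 1)
  a6 : (q - 1) ≤ 99 / 100 * (y - 1) + 1 / 100 * (x + 1)
  a7 : U = 1
  a8 : V = y
  a9 : W = x - 2
  a10 : H = q - 1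

structure K25 (p q x y U V W H : ℝ) : Prop where
  a0 : -401 / 100 ≤ p - q
  a1 : 3 ≤ y
  a2 : 0 ≤ (x + 1)
  a3 : 99 / 100 * (x + 1) - 1 / 100 * (y - 1) ≤ (p + 1)
  a4 : 99 / 100 * (y - 1) ≤ (q - 1)
  a5 : (q - 1) ≤ (y - 1) + 1 / 100 * (x + 1)
  a6 : 0 ≤ -p - 1
  a7 : U = x
  a8 : V = 4 - y
  a9 : W = 1
  a10 : H = q - 1 + 6 * (-p - 1)

structure K26 (p q x y U V W H : ℝ) : Prop where
  a0 : p + q < 4
  a1 : -401 / 100 ≤ p - q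
  a2 : x ≤ 1
  a3 : 3 ≤ y
  a4 : 99 / 100 * (x + 1) - 1 / 100 * (y - 1) ≤ (p + 1)
  a5 : (p + 1) ≤ (x + 1)
  a6 : 99 / 100 * (y - 1) ≤ (q - 1)
  a7 : (q - 1) ≤ (y - 1) + 1 / 100 * (x + 1)
  a8 : -p - 1 ≤ 0
  a9 : U = x
  a10 : V = 4 - y
  a11 : W = 1
  a12 : H = q - 1

structure K27 (p q x y U V W H : ℝ) : Prop where
  a0 : -401 / 100 ≤ p - q
  a1 : 0 < x + y
  a2 : y ≤ 3
  a3 : 0 ≤ (x + 1)
  a4 : 99 / 100 * (x + 1) - 1 / 100 * (y - 1) ≤ (p + 1)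
  a5 : 99 / 100 * (y - 1) ≤ (q - 1)
  a6 : (q - 1) ≤ (y - 1) + 1 / 100 * (x + 1)
  a7 : 0 ≤ -p - 1
  a8 : U = x
  a9 : V = 1
  a10 : W = y - 2
  a11 : H = q - 1 + 6 * (-p - 1)

structure K28 (p q x y U V W H : ℝ) : Prop where
  a0 : p + q < 4
  a1 : 0 < q - 1 + (y - 1)
  a2 : x + 1 ≤ p + q
  a3 : x ≤ 1
  a4 : y ≤ 3
  a5 : 0 ≤ (y - 1)
  a6 : 99 / 100 * (x + 1) - 1 / 100 * (y - 1) ≤ (p + 1)
  a7 : (p + 1) ≤ (x + 1)
  a8 : 99 / 100 * (y - 1) ≤ (q - 1)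
  a9 : (q - 1) ≤ (y - 1) + 1 / 100 * (x + 1)
  a10 : -p - 1 ≤ 0
  a11 : U = x
  a12 : V = 1
  a13 : W = y - 2
  a14 : H = q - 1

structure K29 (p q x y U V W H : ℝ) : Prop where
  a0 : 0 < q - 1 + (y - 1)
  a1 : x + 1 ≤ p + q
  a2 : x ≤ 1
  a3 : (y - 1) ≤ 0
  a4 : (p + 1) ≤ (x + 1) - 1 / 100 * (y - 1)
  a5 : (q - 1) ≤ 99 / 100 * (y - 1) + 1 / 100 * (x + 1)
  a6 : U = x
  a7 : V = y
  a8 : W = -1
  a9 : H = q - 1

structure K30 (p q x y U V W H : ℝ) : Prop where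
  a0 : -401 / 100 ≤ p - q
  a1 : q - 1 - 6 * (p + 1) < 6 * (y - 1) - (x + 1)
  a2 : 0 < x + y
  a3 : y ≤ 3
  a4 : (x + 1) ≤ 0
  a5 : (x + 1) - 1 / 100 * (y - 1) ≤ (p + 1)
  a6 : (p + 1) ≤ 99 / 100 * (x + 1)
  a7 : 99 / 100 * (y - 1) + 1 / 100 * (x + 1) ≤ (q - 1)
  a8 : (q - 1) ≤ (y - 1)
  a9 : U = -2 - x
  a10 : V = 1
  a11 : W = y - 2
  a12 : H = q - 1 + 6 * (-p - 1)

structure K31 (p q x y U V W H : ℝ) : Prop where
  a0 : -401 / 100 ≤ p - q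
  a1 : 3 ≤ y
  a2 : (x + 1) ≤ 0
  a3 : (x + 1) - 1 / 100 * (y - 1) ≤ (p + 1)
  a4 : (p + 1) ≤ 99 / 100 * (x + 1)
  a5 : 99 / 100 * (y - 1) + 1 / 100 * (x + 1) ≤ (q - 1)
  a6 : (q - 1) ≤ (y - 1)
  a7 : U = -2 - x
  a8 : V = 4 - y
  a9 : W = 1
  a10 : H = q - 1 + 6 * (-p - 1)

structure R0 (a b c d : ℝ) : Prop where
  a0 : 0 ≤ a
  a1 : 0 ≤ b
  a2 : 99 / 100 * a - 1 / 100 * b ≤ c
  a3 : c ≤ a
  a4 : 99 / 100 * b ≤ d
  a5 : d ≤ b + 1 / 100 * a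

structure R1 (a b c d : ℝ) : Prop where
  a0 : 0 ≤ a
  a1 : b ≤ 0
  a2 : 99 / 100 * a ≤ c
  a3 : c ≤ a - 1 / 100 * b
  a4 : b ≤ d
  a5 : d ≤ 99 / 100 * b + 1 / 100 * a

structure R2 (a b c d : ℝ) : Prop where
  a0 : a ≤ 0
  a1 : 0 ≤ b
  a2 : a - 1 / 100 * b ≤ c
  a3 : c ≤ 99 / 100 * a
  a4 : 99 / 100 * b + 1 / 100 * a ≤ d
  a5 : d ≤ b

structure R3 (a b c d : ℝ) : Prop where
  a0 : a ≤ 0
  a1 : b ≤ 0
  a2 : a ≤ c
  a3 : c ≤ 99 / 100 * a - 1 / 100 * b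
  a4 : b + 1 / 100 * a ≤ d
  a5 : d ≤ 99 / 100 * b

def Rel (a b c d : ℝ) : Prop := R0 a b c d ∨ R1 a b c d ∨ R2 a b c d ∨ R3 a b c d

def Lo (p q U V W H : ℝ) : Prop :=
  K0 p q U V W H ∨
  K1 p q U V W H ∨
  K2 p q U V W H ∨
  K3 p q U V W H ∨
  K4 p q U V W H ∨
  K5 p q U V W H ∨
  K6 p q U V W H ∨
  K7 p q U V W H ∨
  K8 p q U V W H ∨
  K9 p q U V W H ∨
  K10 p q U V W H ∨
  K11 p q U V W H ∨
  K12 p q U V W H ∨
  K13 p q U V W H ∨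
  K14 p q U V W H ∨
  K15 p q U V W H ∨
  K16 p q U V W H ∨
  K17 p q U V W H ∨
  K18 p q U V W H ∨
  K19 p q U V W H

def Hi (p q x y U V W H : ℝ) : Prop :=
  K20 p q x y U V W H ∨
  K21 p q x y U V W H ∨
  K22 p q x y U V W H ∨
  K23 p q x y U V W H ∨
  K24 p q x y U V W H ∨
  K25 p q x y U V W H ∨
  K26 p q x y U V W H ∨
  K27 p q x y U V W H ∨
  K28 p q x y U V W H ∨
  K29 p q x y U V W H ∨
  K30 p q x y U V W H ∨
  K31 p q x y U V W H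

structure L0 (x y U V W : ℝ) : Prop where
  a0 : 1 ≤ x
  a1 : 1 ≤ y
  a2 : y ≤ x
  a3 : x ≤ 3
  a4 : U = 1
  a5 : V = 2 - y
  a6 : W = x - 2

structure L1 (x y U V W : ℝ) : Prop where
  a0 : 1 ≤ x
  a1 : 1 ≤ y
  a2 : y ≤ x
  a3 : 3 < x
  a4 : U = 4 - x
  a5 : V = 2 - y
  a6 : W = 1

structure L2 (x y U V W : ℝ) : Prop where
  a0 : 1 ≤ x
  a1 : 1 ≤ y
  a2 : x < y
  a3 : y ≤ 3
  a4 : U = 1
  a5 : V = 2 - x
  a6 : W = y - 2

structure L3 (x y U V W : ℝ) : Prop where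
  a0 : 1 ≤ x
  a1 : 1 ≤ y
  a2 : x < y
  a3 : 3 < y
  a4 : x + 2 ≤ y
  a5 : U = 1
  a6 : V = 4 - y
  a7 : W = 2 - x

structure L4 (x y U V W : ℝ) : Prop where
  a0 : 1 ≤ x
  a1 : 1 ≤ y
  a2 : x < y
  a3 : 3 < y
  a4 : y < x + 2
  a5 : U = 1
  a6 : V = 2 - x
  a7 : W = 4 - y

structure L5 (x y U V W : ℝ) : Prop where
  a0 : 1 ≤ x
  a1 : y < 1
  a2 : -1 ≤ y
  a3 : x ≤ 3
  a4 : U = 1
  a5 : V = y
  a6 : W = x - 2

structure L6 (x y U V W : ℝ) : Prop where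
  a0 : 1 ≤ x
  a1 : y < 1
  a2 : -1 ≤ y
  a3 : 3 < x
  a4 : U = 4 - x
  a5 : V = y
  a6 : W = 1

structure L7 (x y U V W : ℝ) : Prop where
  a0 : 1 ≤ x
  a1 : y < 1
  a2 : y < -1
  a3 : -y ≤ x
  a4 : x ≤ 3
  a5 : U = 1
  a6 : V = -2 - y
  a7 : W = x - 2

structure L8 (x y U V W : ℝ) : Prop where
  a0 : 1 ≤ x
  a1 : y < 1
  a2 : y < -1
  a3 : -y ≤ x
  a4 : 3 < x
  a5 : U = 4 - x
  a6 : V = -2 - y
  a7 : W = 1

structure L9 (x y U V W : ℝ) : Prop where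
  a0 : 1 ≤ x
  a1 : y < 1
  a2 : y < -1
  a3 : x < -y
  a4 : -y ≤ 3
  a5 : U = 1
  a6 : V = x - 2
  a7 : W = -y - 2

structure L10 (x y U V W : ℝ) : Prop where
  a0 : 1 ≤ x
  a1 : y < 1
  a2 : y < -1
  a3 : x < -y
  a4 : 3 < -y
  a5 : x + 2 ≤ -y
  a6 : U = 1
  a7 : V = -4 - y
  a8 : W = 2 - x

structure L11 (x y U V W : ℝ) : Prop where
  a0 : 1 ≤ x
  a1 : y < 1
  a2 : y < -1
  a3 : x < -y
  a4 : 3 < -y
  a5 : -y < x + 2
  a6 : U = 1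
  a7 : V = x - 2
  a8 : W = 4 + y

structure L12 (x y U V W : ℝ) : Prop where
  a0 : x < 1
  a1 : -1 ≤ x
  a2 : 3 ≤ y
  a3 : U = x
  a4 : V = 4 - y
  a5 : W = 1

structure L13 (x y U V W : ℝ) : Prop where
  a0 : x < 1
  a1 : -1 ≤ x
  a2 : y < 3
  a3 : 1 ≤ y
  a4 : U = x
  a5 : V = 1
  a6 : W = y - 2

structure L14 (x y U V W : ℝ) : Prop where
  a0 : x < 1
  a1 : -1 ≤ x
  a2 : y < 3
  a3 : y < 1
  a4 : -1 ≤ y
  a5 : U = x
  a6 : V = y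
  a7 : W = -1

structure L15 (x y U V W : ℝ) : Prop where
  a0 : x < 1
  a1 : -1 ≤ x
  a2 : y < 3
  a3 : y < 1
  a4 : y < -1
  a5 : -3 ≤ y
  a6 : U = x
  a7 : V = -1
  a8 : W = -y - 2

structure L16 (x y U V W : ℝ) : Prop where
  a0 : x < 1
  a1 : -1 ≤ x
  a2 : y < 3
  a3 : y < 1
  a4 : y < -1
  a5 : y < -3
  a6 : U = x
  a7 : V = -4 - y
  a8 : W = 1

structure L17 (x y U V W : ℝ) : Prop where
  a0 : x < 1
  a1 : x < -1
  a2 : 1 ≤ y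
  a3 : -x ≤ y
  a4 : y ≤ 3
  a5 : U = -2 - x
  a6 : V = 1
  a7 : W = y - 2

structure L18 (x y U V W : ℝ) : Prop where
  a0 : x < 1
  a1 : x < -1
  a2 : 1 ≤ y
  a3 : -x ≤ y
  a4 : 3 < y
  a5 : U = -2 - x
  a6 : V = 4 - y
  a7 : W = 1

structure L19 (x y U V W : ℝ) : Prop where
  a0 : x < 1
  a1 : x < -1
  a2 : 1 ≤ y
  a3 : y < -x
  a4 : -x ≤ 3
  a5 : U = y - 2
  a6 : V = 1
  a7 : W = -x - 2

structure L20 (x y U V W : ℝ) : Prop where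
  a0 : x < 1
  a1 : x < -1
  a2 : 1 ≤ y
  a3 : y < -x
  a4 : 3 < -x
  a5 : y + 2 ≤ -x
  a6 : U = -4 - x
  a7 : V = 1
  a8 : W = 2 - y

structure L21 (x y U V W : ℝ) : Prop where
  a0 : x < 1
  a1 : x < -1
  a2 : 1 ≤ y
  a3 : y < -x
  a4 : 3 < -x
  a5 : -x < y + 2
  a6 : U = y - 2
  a7 : V = 1
  a8 : W = 4 + x

structure L22 (x y U V W : ℝ) : Prop where
  a0 : x < 1
  a1 : x < -1
  a2 : y < 1
  a3 : -1 ≤ y
  a4 : -3 ≤ x
  a5 : U = -1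
  a6 : V = y
  a7 : W = -x - 2

structure L23 (x y U V W : ℝ) : Prop where
  a0 : x < 1
  a1 : x < -1
  a2 : y < 1
  a3 : -1 ≤ y
  a4 : x < -3
  a5 : U = -4 - x
  a6 : V = y
  a7 : W = 1

structure L24 (x y U V W : ℝ) : Prop where
  a0 : x < 1
  a1 : x < -1
  a2 : y < 1
  a3 : y < -1
  a4 : y ≤ x
  a5 : -y ≤ 3
  a6 : U = -2 - x
  a7 : V = -1
  a8 : W = -y - 2

structure L25 (x y U V W : ℝ) : Prop where
  a0 : x < 1
  a1 : x < -1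
  a2 : y < 1
  a3 : y < -1
  a4 : y ≤ x
  a5 : 3 < -y
  a6 : U = -2 - x
  a7 : V = -4 - y
  a8 : W = 1

structure L26 (x y U V W : ℝ) : Prop where
  a0 : x < 1
  a1 : x < -1
  a2 : y < 1
  a3 : y < -1
  a4 : x < y
  a5 : -x ≤ 3
  a6 : U = -2 - y
  a7 : V = -1
  a8 : W = -x - 2

structure L27 (x y U V W : ℝ) : Prop where
  a0 : x < 1
  a1 : x < -1
  a2 : y < 1
  a3 : y < -1
  a4 : x < y
  a5 : 3 < -x
  a6 : -y + 2 ≤ -x
  a7 : U = -4 - x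
  a8 : V = -1
  a9 : W = 2 + y

structure L28 (x y U V W : ℝ) : Prop where
  a0 : x < 1
  a1 : x < -1
  a2 : y < 1
  a3 : y < -1
  a4 : x < y
  a5 : 3 < -x
  a6 : -x < -y + 2
  a7 : U = -2 - y
  a8 : V = -1
  a9 : W = 4 + x

theorem psi_cases {x y U V W : ℝ} (h : psi x y = (U, V, W)) :
    L0 x y U V W ∨
    L1 x y U V W ∨
    L2 x y U V W ∨
    L3 x y U V W ∨
    L4 x y U V W ∨
    L5 x y U V W ∨
    L6 x y U V W ∨
    L7 x y U V W ∨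
    L8 x y U V W ∨
    L9 x y U V W ∨
    L10 x y U V W ∨
    L11 x y U V W ∨
    L12 x y U V W ∨
    L13 x y U V W ∨
    L14 x y U V W ∨
    L15 x y U V W ∨
    L16 x y U V W ∨
    L17 x y U V W ∨
    L18 x y U V W ∨
    L19 x y U V W ∨
    L20 x y U V W ∨
    L21 x y U V W ∨
    L22 x y U V W ∨
    L23 x y U V W ∨
    L24 x y U V W ∨
    L25 x y U V W ∨
    L26 x y U V W ∨
    L27 x y U V W ∨
    L28 x y U V W := by
  unfold psi at h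
  by_cases c0 : 1 ≤ x
  · rw [if_pos c0] at h
    by_cases c1 : 1 ≤ y
    · rw [if_pos c1] at h
      by_cases c2 : y ≤ x
      · rw [if_pos c2] at h
        by_cases c3 : x ≤ 3
        · rw [if_pos c3] at h
          obtain ⟨e1, e23⟩ := Prod.mk.inj h
          obtain ⟨e2, e3⟩ := Prod.mk.inj e23
          exact Or.inl (⟨c0, c1, c2, c3, e1.symm, e2.symm, e3.symm⟩)
        · rw [if_neg c3] at h
          obtain ⟨e1, e23⟩ := Prod.mk.inj h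
          obtain ⟨e2, e3⟩ := Prod.mk.inj e23
          exact Or.inr (Or.inl (⟨c0, c1, c2, lt_of_not_ge c3, e1.symm, e2.symm, e3.symm⟩))
      · rw [if_neg c2] at h
        by_cases c3 : y ≤ 3
        · rw [if_pos c3] at h
          obtain ⟨e1, e23⟩ := Prod.mk.inj h
          obtain ⟨e2, e3⟩ := Prod.mk.inj e23
          exact Or.inr (Or.inr (Or.inl (⟨c0, c1, lt_of_not_ge c2, c3, e1.symm, e2.symm, e3.symm⟩)))
        · rw [if_neg c3] at h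
          by_cases c4 : x + 2 ≤ y
          · rw [if_pos c4] at h
            obtain ⟨e1, e23⟩ := Prod.mk.inj h
            obtain ⟨e2, e3⟩ := Prod.mk.inj e23
            exact Or.inr (Or.inr (Or.inr (Or.inl (⟨c0, c1, lt_of_not_ge c2, lt_of_not_ge c3, c4, e1.symm, e2.symm, e3.symm⟩))))
          · rw [if_neg c4] at h
            obtain ⟨e1, e23⟩ := Prod.mk.inj h
            obtain ⟨e2, e3⟩ := Prod.mk.inj e23
            exact Or.inr (Or.inr (Or.inr (Or.inr (Or.inl (⟨c0, c1, lt_of_not_ge c2, lt_of_not_ge c3, lt_of_not_ge c4, e1.symm, e2.symm, e3.symm⟩)))))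
    · rw [if_neg c1] at h
      by_cases c2 : -1 ≤ y
      · rw [if_pos c2] at h
        by_cases c3 : x ≤ 3
        · rw [if_pos c3] at h
          obtain ⟨e1, e23⟩ := Prod.mk.inj h
          obtain ⟨e2, e3⟩ := Prod.mk.inj e23
          exact Or.inr (Or.inr (Or.inr (Or.inr (Or.inr (Or.inl (⟨c0, lt_of_not_ge c1, c2, c3, e1.symm, e2.symm, e3.symm⟩))))))
        · rw [if_neg c3] at h
          obtain ⟨e1, e23⟩ := Prod.mk.inj h
          obtain ⟨e2, e3⟩ := Prod.mk.inj e23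
          exact Or.inr (Or.inr (Or.inr (Or.inr (Or.inr (Or.inr (Or.inl (⟨c0, lt_of_not_ge c1, c2, lt_of_not_ge c3, e1.symm, e2.symm, e3.symm⟩)))))))
      · rw [if_neg c2] at h
        by_cases c3 : -y ≤ x
        · rw [if_pos c3] at h
          by_cases c4 : x ≤ 3
          · rw [if_pos c4] at h
            obtain ⟨e1, e23⟩ := Prod.mk.inj h
            obtain ⟨e2, e3⟩ := Prod.mk.inj e23
            exact Or.inr (Or.inr (Or.inr (Or.inr (Or.inr (Or.inr (Or.inr (Or.inl (⟨c0, lt_of_not_ge c1, lt_of_not_ge c2, c3, c4, e1.symm, e2.symm, e3.symm⟩))))))))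
          · rw [if_neg c4] at h
            obtain ⟨e1, e23⟩ := Prod.mk.inj h
            obtain ⟨e2, e3⟩ := Prod.mk.inj e23
            exact Or.inr (Or.inr (Or.inr (Or.inr (Or.inr (Or.inr (Or.inr (Or.inr (Or.inl (⟨c0, lt_of_not_ge c1, lt_of_not_ge c2, c3, lt_of_not_ge c4, e1.symm, e2.symm, e3.symm⟩)))))))))
        · rw [if_neg c3] at h
          by_cases c4 : -y ≤ 3
          · rw [if_pos c4] at h
            obtain ⟨e1, e23⟩ := Prod.mk.inj h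
            obtain ⟨e2, e3⟩ := Prod.mk.inj e23
            exact Or.inr (Or.inr (Or.inr (Or.inr (Or.inr (Or.inr (Or.inr (Or.inr (Or.inr (Or.inl (⟨c0, lt_of_not_ge c1, lt_of_not_ge c2, lt_of_not_ge c3, c4, e1.symm, e2.symm, e3.symm⟩))))))))))
          · rw [if_neg c4] at h
            by_cases c5 : x + 2 ≤ -y
            · rw [if_pos c5] at h
              obtain ⟨e1, e23⟩ := Prod.mk.inj h
              obtain ⟨e2, e3⟩ := Prod.mk.inj e23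
              exact Or.inr (Or.inr (Or.inr (Or.inr (Or.inr (Or.inr (Or.inr (Or.inr (Or.inr (Or.inr (Or.inl (⟨c0, lt_of_not_ge c1, lt_of_not_ge c2, lt_of_not_ge c3, lt_of_not_ge c4, c5, e1.symm, e2.symm, e3.symm⟩)))))))))))
            · rw [if_neg c5] at h
              obtain ⟨e1, e23⟩ := Prod.mk.inj h
              obtain ⟨e2, e3⟩ := Prod.mk.inj e23
              exact Or.inr (Or.inr (Or.inr (Or.inr (Or.inr (Or.inr (Or.inr (Or.inr (Or.inr (Or.inr (Or.inr (Or.inl (⟨c0, lt_of_not_ge c1, lt_of_not_ge c2, lt_of_not_ge c3, lt_of_not_ge c4, lt_of_not_ge c5, e1.symm, e2.symm, e3.symm⟩))))))))))))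
  · rw [if_neg c0] at h
    by_cases c1 : -1 ≤ x
    · rw [if_pos c1] at h
      by_cases c2 : 3 ≤ y
      · rw [if_pos c2] at h
        obtain ⟨e1, e23⟩ := Prod.mk.inj h
        obtain ⟨e2, e3⟩ := Prod.mk.inj e23
        exact Or.inr (Or.inr (Or.inr (Or.inr (Or.inr (Or.inr (Or.inr (Or.inr (Or.inr (Or.inr (Or.inr (Or.inr (Or.inl (⟨lt_of_not_ge c0, c1, c2, e1.symm, e2.symm, e3.symm⟩)))))))))))))
      · rw [if_neg c2] at h
        by_cases c3 : 1 ≤ y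
        · rw [if_pos c3] at h
          obtain ⟨e1, e23⟩ := Prod.mk.inj h
          obtain ⟨e2, e3⟩ := Prod.mk.inj e23
          exact Or.inr (Or.inr (Or.inr (Or.inr (Or.inr (Or.inr (Or.inr (Or.inr (Or.inr (Or.inr (Or.inr (Or.inr (Or.inr (Or.inl (⟨lt_of_not_ge c0, c1, lt_of_not_ge c2, c3, e1.symm, e2.symm, e3.symm⟩))))))))))))))
        · rw [if_neg c3] at h
          by_cases c4 : -1 ≤ y
          · rw [if_pos c4] at h
            obtain ⟨e1, e23⟩ := Prod.mk.inj h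
            obtain ⟨e2, e3⟩ := Prod.mk.inj e23
            exact Or.inr (Or.inr (Or.inr (Or.inr (Or.inr (Or.inr (Or.inr (Or.inr (Or.inr (Or.inr (Or.inr (Or.inr (Or.inr (Or.inr (Or.inl (⟨lt_of_not_ge c0, c1, lt_of_not_ge c2, lt_of_not_ge c3, c4, e1.symm, e2.symm, e3.symm⟩)))))))))))))))
          · rw [if_neg c4] at h
            by_cases c5 : -3 ≤ y
            · rw [if_pos c5] at h
              obtain ⟨e1, e23⟩ := Prod.mk.inj h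
              obtain ⟨e2, e3⟩ := Prod.mk.inj e23
              exact Or.inr (Or.inr (Or.inr (Or.inr (Or.inr (Or.inr (Or.inr (Or.inr (Or.inr (Or.inr (Or.inr (Or.inr (Or.inr (Or.inr (Or.inr (Or.inl (⟨lt_of_not_ge c0, c1, lt_of_not_ge c2, lt_of_not_ge c3, lt_of_not_ge c4, c5, e1.symm, e2.symm, e3.symm⟩))))))))))))))))
            · rw [if_neg c5] at h
              obtain ⟨e1, e23⟩ := Prod.mk.inj h
              obtain ⟨e2, e3⟩ := Prod.mk.inj e23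
              exact Or.inr (Or.inr (Or.inr (Or.inr (Or.inr (Or.inr (Or.inr (Or.inr (Or.inr (Or.inr (Or.inr (Or.inr (Or.inr (Or.inr (Or.inr (Or.inr (Or.inl (⟨lt_of_not_ge c0, c1, lt_of_not_ge c2, lt_of_not_ge c3, lt_of_not_ge c4, lt_of_not_ge c5, e1.symm, e2.symm, e3.symm⟩)))))))))))))))))
    · rw [if_neg c1] at h
      by_cases c2 : 1 ≤ y
      · rw [if_pos c2] at h
        by_cases c3 : -x ≤ y
        · rw [if_pos c3] at h
          by_cases c4 : y ≤ 3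
          · rw [if_pos c4] at h
            obtain ⟨e1, e23⟩ := Prod.mk.inj h
            obtain ⟨e2, e3⟩ := Prod.mk.inj e23
            exact Or.inr (Or.inr (Or.inr (Or.inr (Or.inr (Or.inr (Or.inr (Or.inr (Or.inr (Or.inr (Or.inr (Or.inr (Or.inr (Or.inr (Or.inr (Or.inr (Or.inr (Or.inl (⟨lt_of_not_ge c0, lt_of_not_ge c1, c2, c3, c4, e1.symm, e2.symm, e3.symm⟩))))))))))))))))))
          · rw [if_neg c4] at h
            obtain ⟨e1, e23⟩ := Prod.mk.inj h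
            obtain ⟨e2, e3⟩ := Prod.mk.inj e23
            exact Or.inr (Or.inr (Or.inr (Or.inr (Or.inr (Or.inr (Or.inr (Or.inr (Or.inr (Or.inr (Or.inr (Or.inr (Or.inr (Or.inr (Or.inr (Or.inr (Or.inr (Or.inr (Or.inl (⟨lt_of_not_ge c0, lt_of_not_ge c1, c2, c3, lt_of_not_ge c4, e1.symm, e2.symm, e3.symm⟩)))))))))))))))))))
        · rw [if_neg c3] at h
          by_cases c4 : -x ≤ 3
          · rw [if_pos c4] at h
            obtain ⟨e1, e23⟩ := Prod.mk.inj h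
            obtain ⟨e2, e3⟩ := Prod.mk.inj e23
            exact Or.inr (Or.inr (Or.inr (Or.inr (Or.inr (Or.inr (Or.inr (Or.inr (Or.inr (Or.inr (Or.inr (Or.inr (Or.inr (Or.inr (Or.inr (Or.inr (Or.inr (Or.inr (Or.inr (Or.inl (⟨lt_of_not_ge c0, lt_of_not_ge c1, c2, lt_of_not_ge c3, c4, e1.symm, e2.symm, e3.symm⟩))))))))))))))))))))
          · rw [if_neg c4] at h
            by_cases c5 : y + 2 ≤ -x
            · rw [if_pos c5] at h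
              obtain ⟨e1, e23⟩ := Prod.mk.inj h
              obtain ⟨e2, e3⟩ := Prod.mk.inj e23
              exact Or.inr (Or.inr (Or.inr (Or.inr (Or.inr (Or.inr (Or.inr (Or.inr (Or.inr (Or.inr (Or.inr (Or.inr (Or.inr (Or.inr (Or.inr (Or.inr (Or.inr (Or.inr (Or.inr (Or.inr (Or.inl (⟨lt_of_not_ge c0, lt_of_not_ge c1, c2, lt_of_not_ge c3, lt_of_not_ge c4, c5, e1.symm, e2.symm, e3.symm⟩)))))))))))))))))))))
            · rw [if_neg c5] at h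
              obtain ⟨e1, e23⟩ := Prod.mk.inj h
              obtain ⟨e2, e3⟩ := Prod.mk.inj e23
              exact Or.inr (Or.inr (Or.inr (Or.inr (Or.inr (Or.inr (Or.inr (Or.inr (Or.inr (Or.inr (Or.inr (Or.inr (Or.inr (Or.inr (Or.inr (Or.inr (Or.inr (Or.inr (Or.inr (Or.inr (Or.inr (Or.inl (⟨lt_of_not_ge c0, lt_of_not_ge c1, c2, lt_of_not_ge c3, lt_of_not_ge c4, lt_of_not_ge c5, e1.symm, e2.symm, e3.symm⟩))))))))))))))))))))))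
      · rw [if_neg c2] at h
        by_cases c3 : -1 ≤ y
        · rw [if_pos c3] at h
          by_cases c4 : -3 ≤ x
          · rw [if_pos c4] at h
            obtain ⟨e1, e23⟩ := Prod.mk.inj h
            obtain ⟨e2, e3⟩ := Prod.mk.inj e23
            exact Or.inr (Or.inr (Or.inr (Or.inr (Or.inr (Or.inr (Or.inr (Or.inr (Or.inr (Or.inr (Or.inr (Or.inr (Or.inr (Or.inr (Or.inr (Or.inr (Or.inr (Or.inr (Or.inr (Or.inr (Or.inr (Or.inr (Or.inl (⟨lt_of_not_ge c0, lt_of_not_ge c1, lt_of_not_ge c2, c3, c4, e1.symm, e2.symm, e3.symm⟩)))))))))))))))))))))))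
          · rw [if_neg c4] at h
            obtain ⟨e1, e23⟩ := Prod.mk.inj h
            obtain ⟨e2, e3⟩ := Prod.mk.inj e23
            exact Or.inr (Or.inr (Or.inr (Or.inr (Or.inr (Or.inr (Or.inr (Or.inr (Or.inr (Or.inr (Or.inr (Or.inr (Or.inr (Or.inr (Or.inr (Or.inr (Or.inr (Or.inr (Or.inr (Or.inr (Or.inr (Or.inr (Or.inr (Or.inl (⟨lt_of_not_ge c0, lt_of_not_ge c1, lt_of_not_ge c2, c3, lt_of_not_ge c4, e1.symm, e2.symm, e3.symm⟩))))))))))))))))))))))))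
        · rw [if_neg c3] at h
          by_cases c4 : y ≤ x
          · rw [if_pos c4] at h
            by_cases c5 : -y ≤ 3
            · rw [if_pos c5] at h
              obtain ⟨e1, e23⟩ := Prod.mk.inj h
              obtain ⟨e2, e3⟩ := Prod.mk.inj e23
              exact Or.inr (Or.inr (Or.inr (Or.inr (Or.inr (Or.inr (Or.inr (Or.inr (Or.inr (Or.inr (Or.inr (Or.inr (Or.inr (Or.inr (Or.inr (Or.inr (Or.inr (Or.inr (Or.inr (Or.inr (Or.inr (Or.inr (Or.inr (Or.inr (Or.inl (⟨lt_of_not_ge c0, lt_of_not_ge c1, lt_of_not_ge c2, lt_of_not_ge c3, c4, c5, e1.symm, e2.symm, e3.symm⟩)))))))))))))))))))))))))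
            · rw [if_neg c5] at h
              obtain ⟨e1, e23⟩ := Prod.mk.inj h
              obtain ⟨e2, e3⟩ := Prod.mk.inj e23
              exact Or.inr (Or.inr (Or.inr (Or.inr (Or.inr (Or.inr (Or.inr (Or.inr (Or.inr (Or.inr (Or.inr (Or.inr (Or.inr (Or.inr (Or.inr (Or.inr (Or.inr (Or.inr (Or.inr (Or.inr (Or.inr (Or.inr (Or.inr (Or.inr (Or.inr (Or.inl (⟨lt_of_not_ge c0, lt_of_not_ge c1, lt_of_not_ge c2, lt_of_not_ge c3, c4, lt_of_not_ge c5, e1.symm, e2.symm, e3.symm⟩))))))))))))))))))))))))))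
          · rw [if_neg c4] at h
            by_cases c5 : -x ≤ 3
            · rw [if_pos c5] at h
              obtain ⟨e1, e23⟩ := Prod.mk.inj h
              obtain ⟨e2, e3⟩ := Prod.mk.inj e23
              exact Or.inr (Or.inr (Or.inr (Or.inr (Or.inr (Or.inr (Or.inr (Or.inr (Or.inr (Or.inr (Or.inr (Or.inr (Or.inr (Or.inr (Or.inr (Or.inr (Or.inr (Or.inr (Or.inr (Or.inr (Or.inr (Or.inr (Or.inr (Or.inr (Or.inr (Or.inr (Or.inl (⟨lt_of_not_ge c0, lt_of_not_ge c1, lt_of_not_ge c2, lt_of_not_ge c3, lt_of_not_ge c4, c5, e1.symm, e2.symm, e3.symm⟩)))))))))))))))))))))))))))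
            · rw [if_neg c5] at h
              by_cases c6 : -y + 2 ≤ -x
              · rw [if_pos c6] at h
                obtain ⟨e1, e23⟩ := Prod.mk.inj h
                obtain ⟨e2, e3⟩ := Prod.mk.inj e23
                exact Or.inr (Or.inr (Or.inr (Or.inr (Or.inr (Or.inr (Or.inr (Or.inr (Or.inr (Or.inr (Or.inr (Or.inr (Or.inr (Or.inr (Or.inr (Or.inr (Or.inr (Or.inr (Or.inr (Or.inr (Or.inr (Or.inr (Or.inr (Or.inr (Or.inr (Or.inr (Or.inr (Or.inl (⟨lt_of_not_ge c0, lt_of_not_ge c1, lt_of_not_ge c2, lt_of_not_ge c3, lt_of_not_ge c4, lt_of_not_ge c5, c6, e1.symm, e2.symm, e3.symm⟩))))))))))))))))))))))))))))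
              · rw [if_neg c6] at h
                obtain ⟨e1, e23⟩ := Prod.mk.inj h
                obtain ⟨e2, e3⟩ := Prod.mk.inj e23
                exact Or.inr (Or.inr (Or.inr (Or.inr (Or.inr (Or.inr (Or.inr (Or.inr (Or.inr (Or.inr (Or.inr (Or.inr (Or.inr (Or.inr (Or.inr (Or.inr (Or.inr (Or.inr (Or.inr (Or.inr (Or.inr (Or.inr (Or.inr (Or.inr (Or.inr (Or.inr (Or.inr (Or.inr (⟨lt_of_not_ge c0, lt_of_not_ge c1, lt_of_not_ge c2, lt_of_not_ge c3, lt_of_not_ge c4, lt_of_not_ge c5, lt_of_not_ge c6, e1.symm, e2.symm, e3.symm⟩))))))))))))))))))))))))))))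

end LinjP

end Pool.Agent.P.MP_dba4bb_co.Ex
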