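import Pool.Agent.P.MP_dba4bb_co.Ex.Linj1

/-! Two points away from the rotated part. -/

namespace Pool.Agent.P.MP_dba4bb_co.Ex

namespace LinjP

variable {p q x y p' q' x' y' U V W H : ℝ}

theorem x0_0 (h : K0 p q U V W H) (g : K0 p' q' U V W H) :
    p = p' ∧ q = q' := by
  exact ⟨le_antisymm (by linarith only [g.a7, h.a7]) (by linarith only [g.a7, h.a7]),
    le_antisymm (by linarith only [g.a6, h.a6]) (by linarith only [g.a6, h.a6])⟩

theorem x0_1 (h : K0 p q U V W H) (g : K1 p' q' U V W H) :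
    p = p' ∧ q = q' := by
  exact ⟨le_antisymm (by linarith only [g.a3, h.a4]) (by linarith only [g.a4, g.a6, h.a5, h.a7]),
    le_antisymm (by linarith only [g.a5, h.a6]) (by linarith only [g.a5, h.a6])⟩

theorem x0_2 (h : K0 p q U V W H) (g : K2 p' q' U V W H) :
    p = p' ∧ q = q' := by
  exact ⟨le_antisymm (by linarith only [g.a6, h.a7]) (by linarith only [g.a6, h.a7]),
    le_antisymm (by linarith only [g.a5, g.a7, h.a6, h.a8]) (by linarith only [g.a7, h.a3, h.a8])⟩

theorem x0_3 (h : K0 p q U V W H) (g : K3 p' q' U V W H) :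
    p = p' ∧ q = q' := by
  exact ⟨le_antisymm (by linarith only [g.a1, g.a6, g.a7, h.a7, h.a8]) (by linarith only [g.a2, g.a7, h.a2, h.a8]),
    le_antisymm (by linarith only [g.a2, g.a5, g.a7, h.a6, h.a8]) (by linarith only [g.a7, h.a3, h.a8])⟩

theorem x0_4 (h : K0 p q U V W H) (g : K4 p' q' U V W H) :
    p = p' ∧ q = q' := by
  exfalso; linarith only [g.a1, g.a2, g.a6, h.a8]

theorem x0_5 (h : K0 p q U V W H) (g : K5 p' q' U V W H) :
    p = p' ∧ q = q' := by
  exfalso; linarith only [g.a1, g.a6, h.a8]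

theorem x0_6 (h : K0 p q U V W H) (g : K6 p' q' U V W H) :
    p = p' ∧ q = q' := by
  exact ⟨le_antisymm (by linarith only [g.a4, g.a6, h.a5, h.a7]) (by linarith only [g.a1, h.a2]),
    le_antisymm (by linarith only [g.a5, h.a6]) (by linarith only [g.a5, h.a6])⟩

theorem x0_7 (h : K0 p q U V W H) (g : K7 p' q' U V W H) :
    p = p' ∧ q = q' := by
  exact ⟨le_antisymm (by linarith only [g.a4, g.a6, g.a7, h.a5, h.a7, h.a8]) (by linarith only [g.a0, h.a2]),
    le_antisymm (by linarith only [g.a5, g.a7, h.a6, h.a8]) (by linarith only [g.a7, h.a3, h.a8])⟩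

theorem x0_8 (h : K0 p q U V W H) (g : K8 p' q' U V W H) :
    p = p' ∧ q = q' := by
  exfalso; linarith only [g.a4, g.a8, h.a8]

theorem x0_9 (h : K0 p q U V W H) (g : K9 p' q' U V W H) :
    p = p' ∧ q = q' := by
  exfalso; linarith only [g.a4, h.a5]

theorem x0_10 (h : K0 p q U V W H) (g : K10 p' q' U V W H) :
    p = p' ∧ q = q' := by
  exfalso; linarith only [g.a5, g.a8, h.a5, h.a8]

theorem x0_11 (h : K0 p q U V W H) (g : K11 p' q' U V W H) :
    p = p' ∧ q = q' := by
  exfalso; linarith only [g.a2, g.a4, g.a7, h.a5, h.a8]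

theorem x0_12 (h : K0 p q U V W H) (g : K12 p' q' U V W H) :
    p = p' ∧ q = q' := by
  exfalso; linarith only [g.a2, g.a4, g.a7, h.a5, h.a8]

theorem x0_13 (h : K0 p q U V W H) (g : K13 p' q' U V W H) :
    p = p' ∧ q = q' := by
  exfalso; linarith only [g.a1, g.a3, g.a6, h.a5, h.a8]

theorem x0_14 (h : K0 p q U V W H) (g : K14 p' q' U V W H) :
    p = p' ∧ q = q' := by
  exfalso; linarith only [g.a1, g.a3, g.a6, h.a5, h.a8]

theorem x0_15 (h : K0 p q U V W H) (g : K15 p' q' U V W H) :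
    p = p' ∧ q = q' := by
  exfalso; linarith only [g.a2, g.a4, g.a7, h.a5, h.a8]

theorem x0_16 (h : K0 p q U V W H) (g : K16 p' q' U V W H) :
    p = p' ∧ q = q' := by
  exfalso; linarith only [g.a1, g.a3, g.a6, h.a5, h.a8]

theorem x0_17 (h : K0 p q U V W H) (g : K17 p' q' U V W H) :
    p = p' ∧ q = q' := by
  exfalso; linarith only [g.a2, g.a4, g.a7, h.a5, h.a8]

theorem x0_18 (h : K0 p q U V W H) (g : K18 p' q' U V W H) :
    p = p' ∧ q = q' := by
  exfalso; linarith only [g.a1, g.a7, h.a8]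

theorem x0_19 (h : K0 p q U V W H) (g : K19 p' q' U V W H) :
    p = p' ∧ q = q' := by
  exfalso; linarith only [g.a0, g.a6, h.a8]

theorem x1_1 (h : K1 p q U V W H) (g : K1 p' q' U V W H) :
    p = p' ∧ q = q' := by
  exact ⟨le_antisymm (by linarith only [g.a4, h.a4]) (by linarith only [g.a4, h.a4]),
    le_antisymm (by linarith only [g.a5, h.a5]) (by linarith only [g.a5, h.a5])⟩

theorem x1_2 (h : K1 p q U V W H) (g : K2 p' q' U V W H) :
    p = p' ∧ q = q' := by
  exact ⟨le_antisymm (by linarith only [g.a4, g.a6, h.a4, h.a6]) (by linarith only [g.a3, h.a3]),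
    le_antisymm (by linarith only [g.a5, g.a7, h.a5, h.a7]) (by linarith only [g.a7, h.a2, h.a7])⟩

theorem x1_3 (h : K1 p q U V W H) (g : K3 p' q' U V W H) :
    p = p' ∧ q = q' := by
  exfalso; linarith only [g.a6, g.a7, h.a6, h.a7]

theorem x1_4 (h : K1 p q U V W H) (g : K4 p' q' U V W H) :
    p = p' ∧ q = q' := by
  exfalso; linarith only [g.a1, g.a2, g.a6, h.a7]

theorem x1_5 (h : K1 p q U V W H) (g : K5 p' q' U V W H) :
    p = p' ∧ q = q' := by
  exfalso; linarith only [g.a1, g.a6, h.a7]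

theorem x1_6 (h : K1 p q U V W H) (g : K6 p' q' U V W H) :
    p = p' ∧ q = q' := by
  exfalso; linarith only [g.a6, h.a6]

theorem x1_7 (h : K1 p q U V W H) (g : K7 p' q' U V W H) :
    p = p' ∧ q = q' := by
  exfalso; linarith only [g.a6, g.a7, h.a6, h.a7]

theorem x1_8 (h : K1 p q U V W H) (g : K8 p' q' U V W H) :
    p = p' ∧ q = q' := by
  exfalso; linarith only [g.a4, g.a8, h.a7]

theorem x1_9 (h : K1 p q U V W H) (g : K9 p' q' U V W H) :
    p = p' ∧ q = q' := by
  exfalso; linarith only [g.a6, g.a7, h.a6, h.a7]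

theorem x1_10 (h : K1 p q U V W H) (g : K10 p' q' U V W H) :
    p = p' ∧ q = q' := by
  exfalso; linarith only [g.a4, g.a8, h.a7]

theorem x1_11 (h : K1 p q U V W H) (g : K11 p' q' U V W H) :
    p = p' ∧ q = q' := by
  exfalso; linarith only [g.a4, g.a5, g.a6, g.a7, h.a1, h.a4, h.a5, h.a6, h.a7]

theorem x1_12 (h : K1 p q U V W H) (g : K12 p' q' U V W H) :
    p = p' ∧ q = q' := by
  exfalso; linarith only [g.a1, g.a6, g.a7, h.a6, h.a7]

theorem x1_13 (h : K1 p q U V W H) (g : K13 p' q' U V W H) :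
    p = p' ∧ q = q' := by
  exfalso; linarith only [g.a1, g.a3, g.a6, h.a0, h.a1, h.a4, h.a7]

theorem x1_14 (h : K1 p q U V W H) (g : K14 p' q' U V W H) :
    p = p' ∧ q = q' := by
  exfalso; linarith only [g.a1, g.a3, g.a6, h.a0, h.a1, h.a4, h.a7]

theorem x1_15 (h : K1 p q U V W H) (g : K15 p' q' U V W H) :
    p = p' ∧ q = q' := by
  exfalso; linarith only [g.a1, g.a6, g.a7, h.a6, h.a7]

theorem x1_16 (h : K1 p q U V W H) (g : K16 p' q' U V W H) :
    p = p' ∧ q = q' := by
  exfalso; linarith only [g.a1, g.a3, g.a6, h.a0, h.a1, h.a4, h.a7]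

theorem x1_17 (h : K1 p q U V W H) (g : K17 p' q' U V W H) :
    p = p' ∧ q = q' := by
  exfalso; linarith only [g.a1, g.a2, g.a7, h.a7]

theorem x1_18 (h : K1 p q U V W H) (g : K18 p' q' U V W H) :
    p = p' ∧ q = q' := by
  exfalso; linarith only [g.a0, g.a1, g.a6, h.a6]

theorem x1_19 (h : K1 p q U V W H) (g : K19 p' q' U V W H) :
    p = p' ∧ q = q' := by
  exfalso; linarith only [g.a5, h.a6]

theorem x2_2 (h : K2 p q U V W H) (g : K2 p' q' U V W H) :
    p = p' ∧ q = q' := by
  exact ⟨le_antisymm (by linarith only [g.a6, h.a6]) (by linarith only [g.a6, h.a6]),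
    le_antisymm (by linarith only [g.a7, h.a7]) (by linarith only [g.a7, h.a7])⟩

theorem x2_3 (h : K2 p q U V W H) (g : K3 p' q' U V W H) :
    p = p' ∧ q = q' := by
  exact ⟨le_antisymm (by linarith only [g.a5, g.a6, g.a7, h.a5, h.a6, h.a7]) (by linarith only [g.a2, g.a7, h.a2, h.a7]),
    le_antisymm (by linarith only [g.a7, h.a7]) (by linarith only [g.a7, h.a7])⟩

theorem x2_4 (h : K2 p q U V W H) (g : K4 p' q' U V W H) :
    p = p' ∧ q = q' := by
  exfalso; linarith only [g.a4, g.a6, h.a5, h.a7]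

theorem x2_5 (h : K2 p q U V W H) (g : K5 p' q' U V W H) :
    p = p' ∧ q = q' := by
  exfalso; linarith only [g.a5, g.a6, h.a0, h.a6, h.a7]

theorem x2_6 (h : K2 p q U V W H) (g : K6 p' q' U V W H) :
    p = p' ∧ q = q' := by
  exact ⟨le_antisymm (by linarith only [g.a4, g.a6, h.a4, h.a6]) (by linarith only [g.a1, g.a7, h.a2, h.a7]),
    le_antisymm (by linarith only [g.a3, g.a7, h.a7]) (by linarith only [g.a5, g.a7, h.a5, h.a7])⟩

theorem x2_7 (h : K2 p q U V W H) (g : K7 p' q' U V W H) :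
    p = p' ∧ q = q' := by
  exact ⟨le_antisymm (by linarith only [g.a4, g.a5, g.a6, g.a7, h.a4, h.a5, h.a6, h.a7]) (by linarith only [g.a0, h.a1, h.a2]),
    le_antisymm (by linarith only [g.a7, h.a7]) (by linarith only [g.a7, h.a7])⟩

theorem x2_8 (h : K2 p q U V W H) (g : K8 p' q' U V W H) :
    p = p' ∧ q = q' := by
  exfalso; linarith only [g.a6, g.a8, h.a5, h.a7]

theorem x2_9 (h : K2 p q U V W H) (g : K9 p' q' U V W H) :
    p = p' ∧ q = q' := by
  exfalso; linarith only [g.a4, h.a4]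

theorem x2_10 (h : K2 p q U V W H) (g : K10 p' q' U V W H) :
    p = p' ∧ q = q' := by
  exfalso; linarith only [g.a5, g.a8, h.a0, h.a2, h.a4, h.a7]

theorem x2_11 (h : K2 p q U V W H) (g : K11 p' q' U V W H) :
    p = p' ∧ q = q' := by
  exfalso; linarith only [g.a2, g.a4, g.a5, g.a7, h.a4, h.a5, h.a7]

theorem x2_12 (h : K2 p q U V W H) (g : K12 p' q' U V W H) :
    p = p' ∧ q = q' := by
  exfalso; linarith only [g.a2, g.a4, g.a5, g.a7, h.a4, h.a5, h.a7]

theorem x2_13 (h : K2 p q U V W H) (g : K13 p' q' U V W H) :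
    p = p' ∧ q = q' := by
  exfalso; linarith only [g.a1, g.a3, g.a6, h.a0, h.a2, h.a4, h.a7]

theorem x2_14 (h : K2 p q U V W H) (g : K14 p' q' U V W H) :
    p = p' ∧ q = q' := by
  exfalso; linarith only [g.a1, g.a3, g.a4, g.a6, h.a4, h.a5, h.a7]

theorem x2_15 (h : K2 p q U V W H) (g : K15 p' q' U V W H) :
    p = p' ∧ q = q' := by
  exfalso; linarith only [g.a2, g.a4, g.a7, h.a0, h.a2, h.a4, h.a7]

theorem x2_16 (h : K2 p q U V W H) (g : K16 p' q' U V W H) :
    p = p' ∧ q = q' := by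
  exfalso; linarith only [g.a1, g.a3, g.a6, h.a0, h.a2, h.a4, h.a7]

theorem x2_17 (h : K2 p q U V W H) (g : K17 p' q' U V W H) :
    p = p' ∧ q = q' := by
  exfalso; linarith only [g.a2, g.a4, g.a6, g.a7, h.a0, h.a4, h.a6, h.a7]

theorem x2_18 (h : K2 p q U V W H) (g : K18 p' q' U V W H) :
    p = p' ∧ q = q' := by
  exfalso; linarith only [g.a0, g.a2, g.a5, g.a7, h.a5, h.a7]

theorem x2_19 (h : K2 p q U V W H) (g : K19 p' q' U V W H) :
    p = p' ∧ q = q' := by
  exfalso; linarith only [g.a1, g.a2, g.a4, g.a6, h.a5, h.a7]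

theorem x3_3 (h : K3 p q U V W H) (g : K3 p' q' U V W H) :
    p = p' ∧ q = q' := by
  exact ⟨le_antisymm (by linarith only [g.a5, h.a5]) (by linarith only [g.a5, h.a5]),
    le_antisymm (by linarith only [g.a7, h.a7]) (by linarith only [g.a7, h.a7])⟩

theorem x3_4 (h : K3 p q U V W H) (g : K4 p' q' U V W H) :
    p = p' ∧ q = q' := by
  exact ⟨le_antisymm (by linarith only [g.a1, g.a4, g.a6, h.a3, h.a5, h.a7]) (by linarith only [g.a2, g.a5, g.a6, h.a1, h.a6, h.a7]),
    le_antisymm (by linarith only [g.a6, h.a7]) (by linarith only [g.a6, h.a7])⟩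

theorem x3_5 (h : K3 p q U V W H) (g : K5 p' q' U V W H) :
    p = p' ∧ q = q' := by
  exact ⟨le_antisymm (by linarith only [g.a4, h.a5]) (by linarith only [g.a4, h.a5]),
    le_antisymm (by linarith only [g.a6, h.a7]) (by linarith only [g.a6, h.a7])⟩

theorem x3_6 (h : K3 p q U V W H) (g : K6 p' q' U V W H) :
    p = p' ∧ q = q' := by
  exact ⟨le_antisymm (by linarith only [g.a4, g.a7, h.a2, h.a4, h.a7]) (by linarith only [g.a1, h.a1]),
    le_antisymm (by linarith only [g.a3, g.a7, h.a7]) (by linarith only [g.a5, g.a7, h.a2, h.a5, h.a7])⟩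

theorem x3_7 (h : K3 p q U V W H) (g : K7 p' q' U V W H) :
    p = p' ∧ q = q' := by
  exact ⟨le_antisymm (by linarith only [g.a4, g.a5, h.a4, h.a5]) (by linarith only [g.a0, h.a1]),
    le_antisymm (by linarith only [g.a7, h.a7]) (by linarith only [g.a7, h.a7])⟩

theorem x3_8 (h : K3 p q U V W H) (g : K8 p' q' U V W H) :
    p = p' ∧ q = q' := by
  exact ⟨le_antisymm (by linarith only [g.a5, g.a6, g.a8, h.a3, h.a4, h.a5, h.a7]) (by linarith only [g.a2, h.a1]),
    le_antisymm (by linarith only [g.a8, h.a7]) (by linarith only [g.a8, h.a7])⟩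

theorem x3_9 (h : K3 p q U V W H) (g : K9 p' q' U V W H) :
    p = p' ∧ q = q' := by
  exfalso; linarith only [g.a4, h.a4]

theorem x3_10 (h : K3 p q U V W H) (g : K10 p' q' U V W H) :
    p = p' ∧ q = q' := by
  exfalso; linarith only [g.a5, g.a8, h.a3, h.a4, h.a7]

theorem x3_11 (h : K3 p q U V W H) (g : K11 p' q' U V W H) :
    p = p' ∧ q = q' := by
  exfalso; linarith only [g.a4, g.a6, g.a7, h.a4, h.a6, h.a7]

theorem x3_12 (h : K3 p q U V W H) (g : K12 p' q' U V W H) :
    p = p' ∧ q = q' := by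
  exfalso; linarith only [g.a2, g.a4, g.a6, g.a7, h.a4, h.a6, h.a7]

theorem x3_13 (h : K3 p q U V W H) (g : K13 p' q' U V W H) :
    p = p' ∧ q = q' := by
  exfalso; linarith only [g.a1, g.a3, g.a6, h.a3, h.a4, h.a7]

theorem x3_14 (h : K3 p q U V W H) (g : K14 p' q' U V W H) :
    p = p' ∧ q = q' := by
  exfalso; linarith only [g.a1, g.a3, g.a6, h.a3, h.a4, h.a7]

theorem x3_15 (h : K3 p q U V W H) (g : K15 p' q' U V W H) :
    p = p' ∧ q = q' := by
  exfalso; linarith only [g.a2, g.a4, g.a5, g.a7, h.a0, h.a4, h.a5, h.a7]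

theorem x3_16 (h : K3 p q U V W H) (g : K16 p' q' U V W H) :
    p = p' ∧ q = q' := by
  exfalso; linarith only [g.a1, g.a3, g.a6, h.a3, h.a4, h.a7]

theorem x3_17 (h : K3 p q U V W H) (g : K17 p' q' U V W H) :
    p = p' ∧ q = q' := by
  exfalso; linarith only [g.a2, g.a4, g.a5, g.a7, h.a0, h.a4, h.a5, h.a7]

theorem x3_18 (h : K3 p q U V W H) (g : K18 p' q' U V W H) :
    p = p' ∧ q = q' := by
  exfalso; linarith only [g.a2, g.a5, g.a6, g.a7, h.a2, h.a5, h.a6, h.a7]

theorem x3_19 (h : K3 p q U V W H) (g : K19 p' q' U V W H) :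
    p = p' ∧ q = q' := by
  exfalso; linarith only [g.a1, g.a2, g.a4, g.a6, h.a2, h.a5, h.a7]

theorem x4_4 (h : K4 p q U V W H) (g : K4 p' q' U V W H) :
    p = p' ∧ q = q' := by
  exact ⟨le_antisymm (by linarith only [g.a5, h.a5]) (by linarith only [g.a5, h.a5]),
    le_antisymm (by linarith only [g.a6, h.a6]) (by linarith only [g.a6, h.a6])⟩

theorem x4_5 (h : K4 p q U V W H) (g : K5 p' q' U V W H) :
    p = p' ∧ q = q' := by
  exact ⟨le_antisymm (by linarith only [g.a2, g.a6, h.a2, h.a6]) (by linarith only [g.a4, g.a5, g.a6, h.a4, h.a5, h.a6]),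
    le_antisymm (by linarith only [g.a6, h.a6]) (by linarith only [g.a6, h.a6])⟩

theorem x4_6 (h : K4 p q U V W H) (g : K6 p' q' U V W H) :
    p = p' ∧ q = q' := by
  exfalso; linarith only [g.a6, g.a7, h.a2, h.a5, h.a6]

theorem x4_7 (h : K4 p q U V W H) (g : K7 p' q' U V W H) :
    p = p' ∧ q = q' := by
  exact ⟨le_antisymm (by linarith only [g.a4, g.a6, g.a7, h.a2, h.a3, h.a5, h.a6]) (by linarith only [g.a0, h.a1]),
    le_antisymm (by linarith only [g.a7, h.a6]) (by linarith only [g.a7, h.a6])⟩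

theorem x4_8 (h : K4 p q U V W H) (g : K8 p' q' U V W H) :
    p = p' ∧ q = q' := by
  exact ⟨le_antisymm (by linarith only [g.a5, g.a7, h.a3, h.a5]) (by linarith only [g.a2, h.a1]),
    le_antisymm (by linarith only [g.a8, h.a6]) (by linarith only [g.a8, h.a6])⟩

theorem x4_9 (h : K4 p q U V W H) (g : K9 p' q' U V W H) :
    p = p' ∧ q = q' := by
  exfalso; linarith only [g.a4, h.a3]

theorem x4_10 (h : K4 p q U V W H) (g : K10 p' q' U V W H) :
    p = p' ∧ q = q' := by
  exfalso; linarith only [g.a5, g.a8, h.a0, h.a1, h.a3, h.a6]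

theorem x4_11 (h : K4 p q U V W H) (g : K11 p' q' U V W H) :
    p = p' ∧ q = q' := by
  exfalso; linarith only [g.a4, g.a6, g.a7, h.a0, h.a3, h.a5, h.a6]

theorem x4_12 (h : K4 p q U V W H) (g : K12 p' q' U V W H) :
    p = p' ∧ q = q' := by
  exfalso; linarith only [g.a2, g.a4, g.a6, g.a7, h.a0, h.a3, h.a5, h.a6]

theorem x4_13 (h : K4 p q U V W H) (g : K13 p' q' U V W H) :
    p = p' ∧ q = q' := by
  exfalso; linarith only [g.a1, g.a3, g.a4, g.a6, h.a3, h.a4, h.a6]

theorem x4_14 (h : K4 p q U V W H) (g : K14 p' q' U V W H) :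
    p = p' ∧ q = q' := by
  exfalso; linarith only [g.a1, g.a3, g.a4, g.a6, h.a3, h.a4, h.a6]

theorem x4_15 (h : K4 p q U V W H) (g : K15 p' q' U V W H) :
    p = p' ∧ q = q' := by
  exfalso; linarith only [g.a4, g.a5, g.a6, g.a7, h.a0, h.a3, h.a4, h.a5, h.a6]

theorem x4_16 (h : K4 p q U V W H) (g : K16 p' q' U V W H) :
    p = p' ∧ q = q' := by
  exfalso; linarith only [g.a1, g.a3, g.a6, h.a0, h.a1, h.a3, h.a6]

theorem x4_17 (h : K4 p q U V W H) (g : K17 p' q' U V W H) :
    p = p' ∧ q = q' := by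
  exfalso; linarith only [g.a2, g.a4, g.a7, h.a0, h.a1, h.a3, h.a6]

theorem x4_18 (h : K4 p q U V W H) (g : K18 p' q' U V W H) :
    p = p' ∧ q = q' := by
  exfalso; linarith only [g.a0, g.a2, g.a5, g.a7, h.a4, h.a6]

theorem x4_19 (h : K4 p q U V W H) (g : K19 p' q' U V W H) :
    p = p' ∧ q = q' := by
  exfalso; linarith only [g.a1, g.a2, g.a5, g.a6, h.a2, h.a5, h.a6]

theorem x5_5 (h : K5 p q U V W H) (g : K5 p' q' U V W H) :
    p = p' ∧ q = q' := by
  exact ⟨le_antisymm (by linarith only [g.a4, h.a4]) (by linarith only [g.a4, h.a4]),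
    le_antisymm (by linarith only [g.a6, h.a6]) (by linarith only [g.a6, h.a6])⟩

theorem x5_6 (h : K5 p q U V W H) (g : K6 p' q' U V W H) :
    p = p' ∧ q = q' := by
  exfalso; linarith only [g.a6, g.a7, h.a5, h.a6]

theorem x5_7 (h : K5 p q U V W H) (g : K7 p' q' U V W H) :
    p = p' ∧ q = q' := by
  exact ⟨le_antisymm (by linarith only [g.a4, g.a5, h.a3, h.a4]) (by linarith only [g.a0, h.a1, h.a2]),
    le_antisymm (by linarith only [g.a7, h.a6]) (by linarith only [g.a7, h.a6])⟩

theorem x5_8 (h : K5 p q U V W H) (g : K8 p' q' U V W H) :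
    p = p' ∧ q = q' := by
  exact ⟨le_antisymm (by linarith only [g.a5, g.a6, g.a7, g.a8, h.a3, h.a4, h.a5, h.a6]) (by linarith only [g.a2, h.a1, h.a2]),
    le_antisymm (by linarith only [g.a8, h.a6]) (by linarith only [g.a8, h.a6])⟩

theorem x5_9 (h : K5 p q U V W H) (g : K9 p' q' U V W H) :
    p = p' ∧ q = q' := by
  exfalso; linarith only [g.a4, h.a3]

theorem x5_10 (h : K5 p q U V W H) (g : K10 p' q' U V W H) :
    p = p' ∧ q = q' := by
  exfalso; linarith only [g.a5, g.a8, h.a0, h.a2, h.a3, h.a6]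

theorem x5_11 (h : K5 p q U V W H) (g : K11 p' q' U V W H) :
    p = p' ∧ q = q' := by
  exfalso; linarith only [g.a2, g.a4, g.a7, h.a0, h.a2, h.a3, h.a6]

theorem x5_12 (h : K5 p q U V W H) (g : K12 p' q' U V W H) :
    p = p' ∧ q = q' := by
  exfalso; linarith only [g.a2, g.a4, g.a7, h.a0, h.a2, h.a3, h.a6]

theorem x5_13 (h : K5 p q U V W H) (g : K13 p' q' U V W H) :
    p = p' ∧ q = q' := by
  exfalso; linarith only [g.a3, g.a5, g.a6, h.a3, h.a5, h.a6]

theorem x5_14 (h : K5 p q U V W H) (g : K14 p' q' U V W H) :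
    p = p' ∧ q = q' := by
  exfalso; linarith only [g.a1, g.a3, g.a5, g.a6, h.a3, h.a5, h.a6]

theorem x5_15 (h : K5 p q U V W H) (g : K15 p' q' U V W H) :
    p = p' ∧ q = q' := by
  exfalso; linarith only [g.a4, g.a5, g.a6, g.a7, h.a0, h.a3, h.a4, h.a5, h.a6]

theorem x5_16 (h : K5 p q U V W H) (g : K16 p' q' U V W H) :
    p = p' ∧ q = q' := by
  exfalso; linarith only [g.a3, g.a5, g.a6, h.a0, h.a2, h.a3, h.a5, h.a6]

theorem x5_17 (h : K5 p q U V W H) (g : K17 p' q' U V W H) :
    p = p' ∧ q = q' := by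
  exfalso; linarith only [g.a2, g.a4, g.a5, g.a7, h.a0, h.a3, h.a4, h.a6]

theorem x5_18 (h : K5 p q U V W H) (g : K18 p' q' U V W H) :
    p = p' ∧ q = q' := by
  exfalso; linarith only [g.a0, g.a2, g.a7, h.a1, h.a6]

theorem x5_19 (h : K5 p q U V W H) (g : K19 p' q' U V W H) :
    p = p' ∧ q = q' := by
  exfalso; linarith only [g.a1, g.a2, g.a5, g.a6, h.a5, h.a6]

theorem x6_6 (h : K6 p q U V W H) (g : K6 p' q' U V W H) :
    p = p' ∧ q = q' := by
  exact ⟨le_antisymm (by linarith only [g.a4, h.a4]) (by linarith only [g.a4, h.a4]),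
    le_antisymm (by linarith only [g.a5, h.a5]) (by linarith only [g.a5, h.a5])⟩

theorem x6_7 (h : K6 p q U V W H) (g : K7 p' q' U V W H) :
    p = p' ∧ q = q' := by
  exact ⟨le_antisymm (by linarith only [g.a4, h.a4]) (by linarith only [g.a4, h.a4]),
    le_antisymm (by linarith only [g.a5, g.a7, h.a5, h.a7]) (by linarith only [g.a7, h.a3, h.a7])⟩

theorem x6_8 (h : K6 p q U V W H) (g : K8 p' q' U V W H) :
    p = p' ∧ q = q' := by
  exfalso; linarith only [g.a4, g.a8, h.a7]

theorem x6_9 (h : K6 p q U V W H) (g : K9 p' q' U V W H) :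
    p = p' ∧ q = q' := by
  exact ⟨le_antisymm (by linarith only [g.a4, g.a7, h.a4, h.a7]) (by linarith only [g.a7, h.a2, h.a7]),
    le_antisymm (by linarith only [g.a5, h.a5]) (by linarith only [g.a5, h.a5])⟩

theorem x6_10 (h : K6 p q U V W H) (g : K10 p' q' U V W H) :
    p = p' ∧ q = q' := by
  exfalso; linarith only [g.a4, g.a8, h.a7]

theorem x6_11 (h : K6 p q U V W H) (g : K11 p' q' U V W H) :
    p = p' ∧ q = q' := by
  exact ⟨le_antisymm (by linarith only [g.a2, g.a4, g.a7, h.a4, h.a7]) (by linarith only [g.a1, h.a2]),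
    le_antisymm (by linarith only [g.a5, g.a6, h.a5, h.a6]) (by linarith only [g.a2, g.a7, h.a3, h.a7])⟩

theorem x6_12 (h : K6 p q U V W H) (g : K12 p' q' U V W H) :
    p = p' ∧ q = q' := by
  exact ⟨le_antisymm (by linarith only [g.a2, g.a4, g.a7, h.a4, h.a7]) (by linarith only [g.a2, g.a7, h.a2, h.a7]),
    le_antisymm (by linarith only [g.a2, g.a5, g.a7, h.a5, h.a7]) (by linarith only [g.a1, h.a3])⟩

theorem x6_13 (h : K6 p q U V W H) (g : K13 p' q' U V W H) :
    p = p' ∧ q = q' := by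
  exfalso; linarith only [g.a2, g.a5, g.a6, h.a6, h.a7]

theorem x6_14 (h : K6 p q U V W H) (g : K14 p' q' U V W H) :
    p = p' ∧ q = q' := by
  exfalso; linarith only [g.a2, g.a5, g.a6, h.a6, h.a7]

theorem x6_15 (h : K6 p q U V W H) (g : K15 p' q' U V W H) :
    p = p' ∧ q = q' := by
  exfalso; linarith only [g.a1, g.a2, g.a7, h.a7]

theorem x6_16 (h : K6 p q U V W H) (g : K16 p' q' U V W H) :
    p = p' ∧ q = q' := by
  exfalso; linarith only [g.a2, g.a5, g.a6, h.a6, h.a7]

theorem x6_17 (h : K6 p q U V W H) (g : K17 p' q' U V W H) :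
    p = p' ∧ q = q' := by
  exfalso; linarith only [g.a1, g.a6, g.a7, h.a6, h.a7]

theorem x6_18 (h : K6 p q U V W H) (g : K18 p' q' U V W H) :
    p = p' ∧ q = q' := by
  exfalso; linarith only [g.a1, g.a7, h.a7]

theorem x6_19 (h : K6 p q U V W H) (g : K19 p' q' U V W H) :
    p = p' ∧ q = q' := by
  exfalso; linarith only [g.a0, g.a6, h.a7]

theorem x7_7 (h : K7 p q U V W H) (g : K7 p' q' U V W H) :
    p = p' ∧ q = q' := by
  exact ⟨le_antisymm (by linarith only [g.a4, h.a4]) (by linarith only [g.a4, h.a4]),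
    le_antisymm (by linarith only [g.a7, h.a7]) (by linarith only [g.a7, h.a7])⟩

theorem x7_8 (h : K7 p q U V W H) (g : K8 p' q' U V W H) :
    p = p' ∧ q = q' := by
  exact ⟨le_antisymm (by linarith only [g.a5, h.a4]) (by linarith only [g.a5, h.a4]),
    le_antisymm (by linarith only [g.a8, h.a7]) (by linarith only [g.a8, h.a7])⟩

theorem x7_9 (h : K7 p q U V W H) (g : K9 p' q' U V W H) :
    p = p' ∧ q = q' := by
  exact ⟨le_antisymm (by linarith only [g.a4, g.a6, g.a7, h.a4, h.a6, h.a7]) (by linarith only [g.a7, h.a1, h.a2, h.a7]),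
    le_antisymm (by linarith only [g.a2, h.a2]) (by linarith only [g.a5, g.a6, g.a7, h.a5, h.a6, h.a7])⟩

theorem x7_10 (h : K7 p q U V W H) (g : K10 p' q' U V W H) :
    p = p' ∧ q = q' := by
  exfalso; linarith only [g.a4, g.a8, h.a3, h.a7]

theorem x7_11 (h : K7 p q U V W H) (g : K11 p' q' U V W H) :
    p = p' ∧ q = q' := by
  exact ⟨le_antisymm (by linarith only [g.a4, g.a6, g.a7, h.a4, h.a6, h.a7]) (by linarith only [g.a1, h.a1]),
    le_antisymm (by linarith only [g.a6, h.a6]) (by linarith only [g.a6, h.a6])⟩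

theorem x7_12 (h : K7 p q U V W H) (g : K12 p' q' U V W H) :
    p = p' ∧ q = q' := by
  exact ⟨le_antisymm (by linarith only [g.a4, g.a6, g.a7, h.a4, h.a6, h.a7]) (by linarith only [g.a2, g.a7, h.a1, h.a2, h.a7]),
    le_antisymm (by linarith only [g.a2, g.a7, h.a2, h.a7]) (by linarith only [g.a1, g.a6, g.a7, h.a6, h.a7])⟩

theorem x7_13 (h : K7 p q U V W H) (g : K13 p' q' U V W H) :
    p = p' ∧ q = q' := by
  exfalso; linarith only [g.a1, g.a2, g.a6, h.a3, h.a7]

theorem x7_14 (h : K7 p q U V W H) (g : K14 p' q' U V W H) :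
    p = p' ∧ q = q' := by
  exfalso; linarith only [g.a1, g.a2, g.a6, h.a3, h.a7]

theorem x7_15 (h : K7 p q U V W H) (g : K15 p' q' U V W H) :
    p = p' ∧ q = q' := by
  exfalso; linarith only [g.a5, h.a5]

theorem x7_16 (h : K7 p q U V W H) (g : K16 p' q' U V W H) :
    p = p' ∧ q = q' := by
  exfalso; linarith only [g.a4, h.a5]

theorem x7_17 (h : K7 p q U V W H) (g : K17 p' q' U V W H) :
    p = p' ∧ q = q' := by
  exfalso; linarith only [g.a5, h.a5]

theorem x7_18 (h : K7 p q U V W H) (g : K18 p' q' U V W H) :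
    p = p' ∧ q = q' := by
  exfalso; linarith only [g.a0, g.a2, g.a5, h.a5]

theorem x7_19 (h : K7 p q U V W H) (g : K19 p' q' U V W H) :
    p = p' ∧ q = q' := by
  exfalso; linarith only [g.a1, g.a2, g.a4, h.a5]

theorem x8_8 (h : K8 p q U V W H) (g : K8 p' q' U V W H) :
    p = p' ∧ q = q' := by
  exact ⟨le_antisymm (by linarith only [g.a5, h.a5]) (by linarith only [g.a5, h.a5]),
    le_antisymm (by linarith only [g.a8, h.a8]) (by linarith only [g.a8, h.a8])⟩

theorem x8_9 (h : K8 p q U V W H) (g : K9 p' q' U V W H) :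
    p = p' ∧ q = q' := by
  exfalso; linarith only [g.a4, g.a6, g.a7, h.a0, h.a5, h.a7, h.a8]

theorem x8_10 (h : K8 p q U V W H) (g : K10 p' q' U V W H) :
    p = p' ∧ q = q' := by
  exfalso; linarith only [g.a4, g.a5, g.a8, h.a0, h.a5, h.a8]

theorem x8_11 (h : K8 p q U V W H) (g : K11 p' q' U V W H) :
    p = p' ∧ q = q' := by
  exact ⟨le_antisymm (by linarith only [g.a4, g.a5, g.a6, g.a7, h.a5, h.a6, h.a7, h.a8]) (by linarith only [g.a1, h.a3]),
    le_antisymm (by linarith only [g.a3, h.a4]) (by linarith only [g.a5, g.a6, h.a6, h.a7])⟩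

theorem x8_12 (h : K8 p q U V W H) (g : K12 p' q' U V W H) :
    p = p' ∧ q = q' := by
  exfalso; linarith only [g.a1, g.a5, g.a6, g.a7, h.a6, h.a7, h.a8]

theorem x8_13 (h : K8 p q U V W H) (g : K13 p' q' U V W H) :
    p = p' ∧ q = q' := by
  exfalso; linarith only [g.a1, g.a2, g.a3, g.a6, h.a0, h.a5, h.a8]

theorem x8_14 (h : K8 p q U V W H) (g : K14 p' q' U V W H) :
    p = p' ∧ q = q' := by
  exfalso; linarith only [g.a1, g.a3, g.a6, h.a0, h.a5, h.a8]

theorem x8_15 (h : K8 p q U V W H) (g : K15 p' q' U V W H) :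
    p = p' ∧ q = q' := by
  exfalso; linarith only [g.a5, h.a0, h.a1, h.a6]

theorem x8_16 (h : K8 p q U V W H) (g : K16 p' q' U V W H) :
    p = p' ∧ q = q' := by
  exfalso; linarith only [g.a1, g.a3, g.a4, g.a6, h.a0, h.a5, h.a6, h.a8]

theorem x8_17 (h : K8 p q U V W H) (g : K17 p' q' U V W H) :
    p = p' ∧ q = q' := by
  exfalso; linarith only [g.a5, h.a0, h.a1, h.a6]

theorem x8_18 (h : K8 p q U V W H) (g : K18 p' q' U V W H) :
    p = p' ∧ q = q' := by
  exfalso; linarith only [g.a0, g.a2, g.a7, h.a4, h.a8]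

theorem x8_19 (h : K8 p q U V W H) (g : K19 p' q' U V W H) :
    p = p' ∧ q = q' := by
  exfalso; linarith only [g.a5, h.a7]

theorem x9_9 (h : K9 p q U V W H) (g : K9 p' q' U V W H) :
    p = p' ∧ q = q' := by
  exact ⟨le_antisymm (by linarith only [g.a7, h.a7]) (by linarith only [g.a7, h.a7]),
    le_antisymm (by linarith only [g.a5, h.a5]) (by linarith only [g.a5, h.a5])⟩

theorem x9_10 (h : K9 p q U V W H) (g : K10 p' q' U V W H) :
    p = p' ∧ q = q' := by
  exact ⟨le_antisymm (by linarith only [g.a8, h.a7]) (by linarith only [g.a8, h.a7]),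
    le_antisymm (by linarith only [g.a6, h.a5]) (by linarith only [g.a6, h.a5])⟩

theorem x9_11 (h : K9 p q U V W H) (g : K11 p' q' U V W H) :
    p = p' ∧ q = q' := by
  exact ⟨le_antisymm (by linarith only [g.a2, g.a7, h.a1, h.a7]) (by linarith only [g.a4, g.a6, g.a7, h.a4, h.a6, h.a7]),
    le_antisymm (by linarith only [g.a4, g.a5, g.a6, g.a7, h.a4, h.a5, h.a6, h.a7]) (by linarith only [g.a2, g.a7, h.a1, h.a2, h.a7])⟩

theorem x9_12 (h : K9 p q U V W H) (g : K12 p' q' U V W H) :
    p = p' ∧ q = q' := by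
  exact ⟨le_antisymm (by linarith only [g.a1, g.a7, h.a7]) (by linarith only [g.a4, g.a7, h.a4, h.a7]),
    le_antisymm (by linarith only [g.a4, g.a5, h.a4, h.a5]) (by linarith only [g.a1, h.a2])⟩

theorem x9_13 (h : K9 p q U V W H) (g : K13 p' q' U V W H) :
    p = p' ∧ q = q' := by
  exact ⟨le_antisymm (by linarith only [g.a1, g.a6, h.a7]) (by linarith only [g.a2, g.a5, g.a6, h.a6, h.a7]),
    le_antisymm (by linarith only [g.a2, g.a4, g.a5, g.a6, h.a5, h.a6, h.a7]) (by linarith only [g.a1, h.a2])⟩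

theorem x9_14 (h : K9 p q U V W H) (g : K14 p' q' U V W H) :
    p = p' ∧ q = q' := by
  exact ⟨le_antisymm (by linarith only [g.a2, g.a5, g.a6, h.a6, h.a7]) (by linarith only [g.a3, g.a6, h.a4, h.a7]),
    le_antisymm (by linarith only [g.a3, g.a4, h.a4, h.a5]) (by linarith only [g.a2, g.a5, g.a6, h.a2, h.a6, h.a7])⟩

theorem x9_15 (h : K9 p q U V W H) (g : K15 p' q' U V W H) :
    p = p' ∧ q = q' := by
  exfalso; linarith only [g.a1, g.a4, h.a4]

theorem x9_16 (h : K9 p q U V W H) (g : K16 p' q' U V W H) :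
    p = p' ∧ q = q' := by
  exfalso; linarith only [g.a1, g.a2, g.a5, g.a6, h.a6, h.a7]

theorem x9_17 (h : K9 p q U V W H) (g : K17 p' q' U V W H) :
    p = p' ∧ q = q' := by
  exfalso; linarith only [g.a1, g.a4, h.a4]

theorem x9_18 (h : K9 p q U V W H) (g : K18 p' q' U V W H) :
    p = p' ∧ q = q' := by
  exfalso; linarith only [g.a4, h.a4]

theorem x9_19 (h : K9 p q U V W H) (g : K19 p' q' U V W H) :
    p = p' ∧ q = q' := by
  exfalso; linarith only [g.a0, g.a1, g.a3, h.a4]

theorem x10_10 (h : K10 p q U V W H) (g : K10 p' q' U V W H) :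
    p = p' ∧ q = q' := by
  exact ⟨le_antisymm (by linarith only [g.a8, h.a8]) (by linarith only [g.a8, h.a8]),
    le_antisymm (by linarith only [g.a6, h.a6]) (by linarith only [g.a6, h.a6])⟩

theorem x10_11 (h : K10 p q U V W H) (g : K11 p' q' U V W H) :
    p = p' ∧ q = q' := by
  exfalso; linarith only [g.a0, g.a4, g.a7, h.a4, h.a5, h.a8]

theorem x10_12 (h : K10 p q U V W H) (g : K12 p' q' U V W H) :
    p = p' ∧ q = q' := by
  exact ⟨le_antisymm (by linarith only [g.a1, g.a7, h.a8]) (by linarith only [g.a3, g.a4, g.a7, h.a5, h.a8]),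
    le_antisymm (by linarith only [g.a3, g.a4, g.a5, g.a7, h.a5, h.a6, h.a8]) (by linarith only [g.a1, h.a3])⟩

theorem x10_13 (h : K10 p q U V W H) (g : K13 p' q' U V W H) :
    p = p' ∧ q = q' := by
  exact ⟨le_antisymm (by linarith only [g.a1, g.a6, h.a8]) (by linarith only [g.a5, g.a6, h.a7, h.a8]),
    le_antisymm (by linarith only [g.a4, g.a5, h.a6, h.a7]) (by linarith only [g.a1, h.a3])⟩

theorem x10_14 (h : K10 p q U V W H) (g : K14 p' q' U V W H) :
    p = p' ∧ q = q' := by
  exact ⟨le_antisymm (by linarith only [g.a2, g.a6, h.a4, h.a8]) (by linarith only [g.a3, g.a5, g.a6, h.a5, h.a7, h.a8]),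
    le_antisymm (by linarith only [g.a3, g.a4, g.a5, g.a6, h.a5, h.a6, h.a7, h.a8]) (by linarith only [g.a2, g.a6, h.a3, h.a4, h.a8])⟩

theorem x10_15 (h : K10 p q U V W H) (g : K15 p' q' U V W H) :
    p = p' ∧ q = q' := by
  exfalso; linarith only [g.a1, g.a3, g.a4, g.a7, h.a5, h.a8]

theorem x10_16 (h : K10 p q U V W H) (g : K16 p' q' U V W H) :
    p = p' ∧ q = q' := by
  exfalso; linarith only [g.a1, g.a5, h.a7]

theorem x10_17 (h : K10 p q U V W H) (g : K17 p' q' U V W H) :
    p = p' ∧ q = q' := by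
  exfalso; linarith only [g.a1, g.a4, g.a6, g.a7, h.a5, h.a7, h.a8]

theorem x10_18 (h : K10 p q U V W H) (g : K18 p' q' U V W H) :
    p = p' ∧ q = q' := by
  exfalso; linarith only [g.a0, g.a2, g.a4, g.a7, h.a5, h.a8]

theorem x10_19 (h : K10 p q U V W H) (g : K19 p' q' U V W H) :
    p = p' ∧ q = q' := by
  exfalso; linarith only [g.a1, g.a3, g.a6, h.a4, h.a5, h.a8]

theorem x11_11 (h : K11 p q U V W H) (g : K11 p' q' U V W H) :
    p = p' ∧ q = q' := by
  exact ⟨le_antisymm (by linarith only [g.a6, g.a7, h.a6, h.a7]) (by linarith only [g.a6, g.a7, h.a6, h.a7]),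
    le_antisymm (by linarith only [g.a6, h.a6]) (by linarith only [g.a6, h.a6])⟩

theorem x11_12 (h : K11 p q U V W H) (g : K12 p' q' U V W H) :
    p = p' ∧ q = q' := by
  exact ⟨le_antisymm (by linarith only [g.a4, g.a6, g.a7, h.a4, h.a6, h.a7]) (by linarith only [g.a2, g.a7, h.a2, h.a7]),
    le_antisymm (by linarith only [g.a2, g.a7, h.a2, h.a7]) (by linarith only [g.a4, g.a6, g.a7, h.a4, h.a6, h.a7])⟩

theorem x11_13 (h : K11 p q U V W H) (g : K13 p' q' U V W H) :
    p = p' ∧ q = q' := by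
  exfalso; linarith only [g.a1, g.a3, g.a6, h.a3, h.a4, h.a7]

theorem x11_14 (h : K11 p q U V W H) (g : K14 p' q' U V W H) :
    p = p' ∧ q = q' := by
  exfalso; linarith only [g.a1, g.a3, g.a6, h.a0, h.a4, h.a7]

theorem x11_15 (h : K11 p q U V W H) (g : K15 p' q' U V W H) :
    p = p' ∧ q = q' := by
  exfalso; linarith only [g.a5, h.a5]

theorem x11_16 (h : K11 p q U V W H) (g : K16 p' q' U V W H) :
    p = p' ∧ q = q' := by
  exfalso; linarith only [g.a4, h.a5]

theorem x11_17 (h : K11 p q U V W H) (g : K17 p' q' U V W H) :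
    p = p' ∧ q = q' := by
  exfalso; linarith only [g.a5, h.a5]

theorem x11_18 (h : K11 p q U V W H) (g : K18 p' q' U V W H) :
    p = p' ∧ q = q' := by
  exfalso; linarith only [g.a2, g.a4, g.a6, g.a7, h.a2, h.a4, h.a6, h.a7]

theorem x11_19 (h : K11 p q U V W H) (g : K19 p' q' U V W H) :
    p = p' ∧ q = q' := by
  exfalso; linarith only [g.a1, g.a3, g.a4, g.a6, h.a2, h.a4, h.a5, h.a7]

theorem x12_12 (h : K12 p q U V W H) (g : K12 p' q' U V W H) :
    p = p' ∧ q = q' := by
  exact ⟨le_antisymm (by linarith only [g.a4, g.a7, h.a4, h.a7]) (by linarith only [g.a4, g.a7, h.a4, h.a7]),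
    le_antisymm (by linarith only [g.a4, h.a4]) (by linarith only [g.a4, h.a4])⟩

theorem x12_13 (h : K12 p q U V W H) (g : K13 p' q' U V W H) :
    p = p' ∧ q = q' := by
  exact ⟨le_antisymm (by linarith only [g.a1, g.a3, g.a6, h.a3, h.a4, h.a7]) (by linarith only [g.a2, g.a6, h.a1, h.a3, h.a7]),
    le_antisymm (by linarith only [g.a2, g.a5, g.a6, h.a1, h.a6, h.a7]) (by linarith only [g.a1, g.a3, g.a6, h.a3, h.a4, h.a7])⟩

theorem x12_14 (h : K12 p q U V W H) (g : K14 p' q' U V W H) :
    p = p' ∧ q = q' := by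
  exact ⟨le_antisymm (by linarith only [g.a3, g.a6, h.a4, h.a7]) (by linarith only [g.a3, g.a6, h.a4, h.a7]),
    le_antisymm (by linarith only [g.a3, h.a4]) (by linarith only [g.a3, h.a4])⟩

theorem x12_15 (h : K12 p q U V W H) (g : K15 p' q' U V W H) :
    p = p' ∧ q = q' := by
  exfalso; linarith only [g.a5, h.a5]

theorem x12_16 (h : K12 p q U V W H) (g : K16 p' q' U V W H) :
    p = p' ∧ q = q' := by
  exfalso; linarith only [g.a4, h.a5]

theorem x12_17 (h : K12 p q U V W H) (g : K17 p' q' U V W H) :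
    p = p' ∧ q = q' := by
  exfalso; linarith only [g.a5, h.a5]

theorem x12_18 (h : K12 p q U V W H) (g : K18 p' q' U V W H) :
    p = p' ∧ q = q' := by
  exfalso; linarith only [g.a2, g.a4, g.a6, g.a7, h.a2, h.a4, h.a6, h.a7]

theorem x12_19 (h : K12 p q U V W H) (g : K19 p' q' U V W H) :
    p = p' ∧ q = q' := by
  exfalso; linarith only [g.a1, g.a3, g.a4, g.a6, h.a2, h.a4, h.a5, h.a7]

theorem x13_13 (h : K13 p q U V W H) (g : K13 p' q' U V W H) :
    p = p' ∧ q = q' := by
  exact ⟨le_antisymm (by linarith only [g.a5, g.a6, h.a5, h.a6]) (by linarith only [g.a5, g.a6, h.a5, h.a6]),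
    le_antisymm (by linarith only [g.a5, h.a5]) (by linarith only [g.a5, h.a5])⟩

theorem x13_14 (h : K13 p q U V W H) (g : K14 p' q' U V W H) :
    p = p' ∧ q = q' := by
  exact ⟨le_antisymm (by linarith only [g.a2, g.a6, h.a2, h.a6]) (by linarith only [g.a3, g.a5, g.a6, h.a3, h.a5, h.a6]),
    le_antisymm (by linarith only [g.a3, g.a5, g.a6, h.a3, h.a5, h.a6]) (by linarith only [g.a2, g.a6, h.a2, h.a6])⟩

theorem x13_15 (h : K13 p q U V W H) (g : K15 p' q' U V W H) :
    p = p' ∧ q = q' := by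
  exfalso; linarith only [g.a5, h.a4]

theorem x13_16 (h : K13 p q U V W H) (g : K16 p' q' U V W H) :
    p = p' ∧ q = q' := by
  exfalso; linarith only [g.a4, h.a4]

theorem x13_17 (h : K13 p q U V W H) (g : K17 p' q' U V W H) :
    p = p' ∧ q = q' := by
  exfalso; linarith only [g.a5, h.a4]

theorem x13_18 (h : K13 p q U V W H) (g : K18 p' q' U V W H) :
    p = p' ∧ q = q' := by
  exfalso; linarith only [g.a0, g.a2, g.a4, g.a7, h.a1, h.a3, h.a6]

theorem x13_19 (h : K13 p q U V W H) (g : K19 p' q' U V W H) :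
    p = p' ∧ q = q' := by
  exfalso; linarith only [g.a1, g.a3, g.a5, g.a6, h.a2, h.a3, h.a5, h.a6]

theorem x14_14 (h : K14 p q U V W H) (g : K14 p' q' U V W H) :
    p = p' ∧ q = q' := by
  exact ⟨le_antisymm (by linarith only [g.a3, g.a6, h.a3, h.a6]) (by linarith only [g.a3, g.a6, h.a3, h.a6]),
    le_antisymm (by linarith only [g.a3, h.a3]) (by linarith only [g.a3, h.a3])⟩

theorem x14_15 (h : K14 p q U V W H) (g : K15 p' q' U V W H) :
    p = p' ∧ q = q' := by
  exfalso; linarith only [g.a5, h.a4]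

theorem x14_16 (h : K14 p q U V W H) (g : K16 p' q' U V W H) :
    p = p' ∧ q = q' := by
  exfalso; linarith only [g.a4, h.a4]

theorem x14_17 (h : K14 p q U V W H) (g : K17 p' q' U V W H) :
    p = p' ∧ q = q' := by
  exfalso; linarith only [g.a5, h.a4]

theorem x14_18 (h : K14 p q U V W H) (g : K18 p' q' U V W H) :
    p = p' ∧ q = q' := by
  exfalso; linarith only [g.a0, g.a2, g.a4, g.a7, h.a1, h.a3, h.a6]

theorem x14_19 (h : K14 p q U V W H) (g : K19 p' q' U V W H) :
    p = p' ∧ q = q' := by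
  exfalso; linarith only [g.a1, g.a3, g.a5, g.a6, h.a2, h.a3, h.a5, h.a6]

theorem x15_15 (h : K15 p q U V W H) (g : K15 p' q' U V W H) :
    p = p' ∧ q = q' := by
  exact ⟨le_antisymm (by linarith only [g.a4, g.a7, h.a4, h.a7]) (by linarith only [g.a4, g.a7, h.a4, h.a7]),
    le_antisymm (by linarith only [g.a4, h.a4]) (by linarith only [g.a4, h.a4])⟩

theorem x15_16 (h : K15 p q U V W H) (g : K16 p' q' U V W H) :
    p = p' ∧ q = q' := by
  exfalso; linarith only [g.a1, g.a2, g.a3, g.a5, g.a6, h.a4, h.a6, h.a7]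

theorem x15_17 (h : K15 p q U V W H) (g : K17 p' q' U V W H) :
    p = p' ∧ q = q' := by
  exact ⟨le_antisymm (by linarith only [g.a4, g.a7, h.a4, h.a7]) (by linarith only [g.a4, g.a7, h.a4, h.a7]),
    le_antisymm (by linarith only [g.a4, h.a4]) (by linarith only [g.a4, h.a4])⟩

theorem x15_18 (h : K15 p q U V W H) (g : K18 p' q' U V W H) :
    p = p' ∧ q = q' := by
  exfalso; linarith only [g.a2, g.a4, g.a6, g.a7, h.a2, h.a4, h.a6, h.a7]

theorem x15_19 (h : K15 p q U V W H) (g : K19 p' q' U V W H) :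
    p = p' ∧ q = q' := by
  exfalso; linarith only [g.a1, g.a3, g.a6, h.a1, h.a2, h.a4, h.a7]

theorem x16_16 (h : K16 p q U V W H) (g : K16 p' q' U V W H) :
    p = p' ∧ q = q' := by
  exact ⟨le_antisymm (by linarith only [g.a5, g.a6, h.a5, h.a6]) (by linarith only [g.a5, g.a6, h.a5, h.a6]),
    le_antisymm (by linarith only [g.a5, h.a5]) (by linarith only [g.a5, h.a5])⟩

theorem x16_17 (h : K16 p q U V W H) (g : K17 p' q' U V W H) :
    p = p' ∧ q = q' := by
  exact ⟨le_antisymm (by linarith only [g.a3, g.a7, h.a2, h.a6]) (by linarith only [g.a4, g.a6, g.a7, h.a3, h.a5, h.a6]),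
    le_antisymm (by linarith only [g.a3, g.a7, h.a2, h.a6]) (by linarith only [g.a4, g.a6, g.a7, h.a3, h.a5, h.a6])⟩

theorem x16_18 (h : K16 p q U V W H) (g : K18 p' q' U V W H) :
    p = p' ∧ q = q' := by
  exfalso; linarith only [g.a0, g.a2, g.a4, g.a7, h.a1, h.a3, h.a6]

theorem x16_19 (h : K16 p q U V W H) (g : K19 p' q' U V W H) :
    p = p' ∧ q = q' := by
  exfalso; linarith only [g.a1, g.a3, g.a5, g.a6, h.a2, h.a3, h.a5, h.a6]

theorem x17_17 (h : K17 p q U V W H) (g : K17 p' q' U V W H) :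
    p = p' ∧ q = q' := by
  exact ⟨le_antisymm (by linarith only [g.a4, g.a7, h.a4, h.a7]) (by linarith only [g.a4, g.a7, h.a4, h.a7]),
    le_antisymm (by linarith only [g.a4, h.a4]) (by linarith only [g.a4, h.a4])⟩

theorem x17_18 (h : K17 p q U V W H) (g : K18 p' q' U V W H) :
    p = p' ∧ q = q' := by
  exfalso; linarith only [g.a0, g.a2, g.a4, g.a7, h.a2, h.a4, h.a7]

theorem x17_19 (h : K17 p q U V W H) (g : K19 p' q' U V W H) :
    p = p' ∧ q = q' := by
  exfalso; linarith only [g.a1, g.a3, g.a5, g.a6, h.a1, h.a4, h.a6, h.a7]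

theorem x18_18 (h : K18 p q U V W H) (g : K18 p' q' U V W H) :
    p = p' ∧ q = q' := by
  exact ⟨le_antisymm (by linarith only [g.a6, h.a6]) (by linarith only [g.a6, h.a6]),
    le_antisymm (by linarith only [g.a5, h.a5]) (by linarith only [g.a5, h.a5])⟩

theorem x18_19 (h : K18 p q U V W H) (g : K19 p' q' U V W H) :
    p = p' ∧ q = q' := by
  exact ⟨le_antisymm (by linarith only [g.a3, g.a5, h.a4, h.a6]) (by linarith only [g.a2, h.a3]),
    le_antisymm (by linarith only [g.a4, h.a5]) (by linarith only [g.a4, h.a5])⟩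

theorem x19_19 (h : K19 p q U V W H) (g : K19 p' q' U V W H) :
    p = p' ∧ q = q' := by
  exact ⟨le_antisymm (by linarith only [g.a3, h.a3]) (by linarith only [g.a3, h.a3]),
    le_antisymm (by linarith only [g.a4, h.a4]) (by linarith only [g.a4, h.a4])⟩

theorem sw {a b c d : ℝ} (h : a = b ∧ c = d) : b = a ∧ d = c := ⟨h.1.symm, h.2.symm⟩

theorem lolo (h : Lo p q U V W H) (g : Lo p' q' U V W H) :
    p = p' ∧ q = q' := by
  rcases h with h | h | h | h | h | h | h | h | h | h | h | h | h | h | h | h | h | h | h | h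
  · rcases g with g | g | g | g | g | g | g | g | g | g | g | g | g | g | g | g | g | g | g | g
    · exact x0_0 h g
    · exact x0_1 h g
    · exact x0_2 h g
    · exact x0_3 h g
    · exact x0_4 h g
    · exact x0_5 h g
    · exact x0_6 h g
    · exact x0_7 h g
    · exact x0_8 h g
    · exact x0_9 h g
    · exact x0_10 h g
    · exact x0_11 h g
    · exact x0_12 h g
    · exact x0_13 h g
    · exact x0_14 h g
    · exact x0_15 h g
    · exact x0_16 h g
    · exact x0_17 h g
    · exact x0_18 h g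
    · exact x0_19 h g
  · rcases g with g | g | g | g | g | g | g | g | g | g | g | g | g | g | g | g | g | g | g | g
    · exact sw (x0_1 g h)
    · exact x1_1 h g
    · exact x1_2 h g
    · exact x1_3 h g
    · exact x1_4 h g
    · exact x1_5 h g
    · exact x1_6 h g
    · exact x1_7 h g
    · exact x1_8 h g
    · exact x1_9 h g
    · exact x1_10 h g
    · exact x1_11 h g
    · exact x1_12 h g
    · exact x1_13 h g
    · exact x1_14 h g
    · exact x1_15 h g
    · exact x1_16 h g
    · exact x1_17 h g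
    · exact x1_18 h g
    · exact x1_19 h g
  · rcases g with g | g | g | g | g | g | g | g | g | g | g | g | g | g | g | g | g | g | g | g
    · exact sw (x0_2 g h)
    · exact sw (x1_2 g h)
    · exact x2_2 h g
    · exact x2_3 h g
    · exact x2_4 h g
    · exact x2_5 h g
    · exact x2_6 h g
    · exact x2_7 h g
    · exact x2_8 h g
    · exact x2_9 h g
    · exact x2_10 h g
    · exact x2_11 h g
    · exact x2_12 h g
    · exact x2_13 h g
    · exact x2_14 h g
    · exact x2_15 h g
    · exact x2_16 h g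
    · exact x2_17 h g
    · exact x2_18 h g
    · exact x2_19 h g
  · rcases g with g | g | g | g | g | g | g | g | g | g | g | g | g | g | g | g | g | g | g | g
    · exact sw (x0_3 g h)
    · exact sw (x1_3 g h)
    · exact sw (x2_3 g h)
    · exact x3_3 h g
    · exact x3_4 h g
    · exact x3_5 h g
    · exact x3_6 h g
    · exact x3_7 h g
    · exact x3_8 h g
    · exact x3_9 h g
    · exact x3_10 h g
    · exact x3_11 h g
    · exact x3_12 h g
    · exact x3_13 h g
    · exact x3_14 h g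
    · exact x3_15 h g
    · exact x3_16 h g
    · exact x3_17 h g
    · exact x3_18 h g
    · exact x3_19 h g
  · rcases g with g | g | g | g | g | g | g | g | g | g | g | g | g | g | g | g | g | g | g | g
    · exact sw (x0_4 g h)
    · exact sw (x1_4 g h)
    · exact sw (x2_4 g h)
    · exact sw (x3_4 g h)
    · exact x4_4 h g
    · exact x4_5 h g
    · exact x4_6 h g
    · exact x4_7 h g
    · exact x4_8 h g
    · exact x4_9 h g
    · exact x4_10 h g
    · exact x4_11 h g
    · exact x4_12 h g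
    · exact x4_13 h g
    · exact x4_14 h g
    · exact x4_15 h g
    · exact x4_16 h g
    · exact x4_17 h g
    · exact x4_18 h g
    · exact x4_19 h g
  · rcases g with g | g | g | g | g | g | g | g | g | g | g | g | g | g | g | g | g | g | g | g
    · exact sw (x0_5 g h)
    · exact sw (x1_5 g h)
    · exact sw (x2_5 g h)
    · exact sw (x3_5 g h)
    · exact sw (x4_5 g h)
    · exact x5_5 h g
    · exact x5_6 h g
    · exact x5_7 h g
    · exact x5_8 h g
    · exact x5_9 h g
    · exact x5_10 h g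
    · exact x5_11 h g
    · exact x5_12 h g
    · exact x5_13 h g
    · exact x5_14 h g
    · exact x5_15 h g
    · exact x5_16 h g
    · exact x5_17 h g
    · exact x5_18 h g
    · exact x5_19 h g
  · rcases g with g | g | g | g | g | g | g | g | g | g | g | g | g | g | g | g | g | g | g | g
    · exact sw (x0_6 g h)
    · exact sw (x1_6 g h)
    · exact sw (x2_6 g h)
    · exact sw (x3_6 g h)
    · exact sw (x4_6 g h)
    · exact sw (x5_6 g h)
    · exact x6_6 h g
    · exact x6_7 h g
    · exact x6_8 h g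
    · exact x6_9 h g
    · exact x6_10 h g
    · exact x6_11 h g
    · exact x6_12 h g
    · exact x6_13 h g
    · exact x6_14 h g
    · exact x6_15 h g
    · exact x6_16 h g
    · exact x6_17 h g
    · exact x6_18 h g
    · exact x6_19 h g
  · rcases g with g | g | g | g | g | g | g | g | g | g | g | g | g | g | g | g | g | g | g | g
    · exact sw (x0_7 g h)
    · exact sw (x1_7 g h)
    · exact sw (x2_7 g h)
    · exact sw (x3_7 g h)
    · exact sw (x4_7 g h)
    · exact sw (x5_7 g h)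
    · exact sw (x6_7 g h)
    · exact x7_7 h g
    · exact x7_8 h g
    · exact x7_9 h g
    · exact x7_10 h g
    · exact x7_11 h g
    · exact x7_12 h g
    · exact x7_13 h g
    · exact x7_14 h g
    · exact x7_15 h g
    · exact x7_16 h g
    · exact x7_17 h g
    · exact x7_18 h g
    · exact x7_19 h g
  · rcases g with g | g | g | g | g | g | g | g | g | g | g | g | g | g | g | g | g | g | g | g
    · exact sw (x0_8 g h)
    · exact sw (x1_8 g h)
    · exact sw (x2_8 g h)
    · exact sw (x3_8 g h)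
    · exact sw (x4_8 g h)
    · exact sw (x5_8 g h)
    · exact sw (x6_8 g h)
    · exact sw (x7_8 g h)
    · exact x8_8 h g
    · exact x8_9 h g
    · exact x8_10 h g
    · exact x8_11 h g
    · exact x8_12 h g
    · exact x8_13 h g
    · exact x8_14 h g
    · exact x8_15 h g
    · exact x8_16 h g
    · exact x8_17 h g
    · exact x8_18 h g
    · exact x8_19 h g
  · rcases g with g | g | g | g | g | g | g | g | g | g | g | g | g | g | g | g | g | g | g | g
    · exact sw (x0_9 g h)
    · exact sw (x1_9 g h)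
    · exact sw (x2_9 g h)
    · exact sw (x3_9 g h)
    · exact sw (x4_9 g h)
    · exact sw (x5_9 g h)
    · exact sw (x6_9 g h)
    · exact sw (x7_9 g h)
    · exact sw (x8_9 g h)
    · exact x9_9 h g
    · exact x9_10 h g
    · exact x9_11 h g
    · exact x9_12 h g
    · exact x9_13 h g
    · exact x9_14 h g
    · exact x9_15 h g
    · exact x9_16 h g
    · exact x9_17 h g
    · exact x9_18 h g
    · exact x9_19 h g
  · rcases g with g | g | g | g | g | g | g | g | g | g | g | g | g | g | g | g | g | g | g | g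
    · exact sw (x0_10 g h)
    · exact sw (x1_10 g h)
    · exact sw (x2_10 g h)
    · exact sw (x3_10 g h)
    · exact sw (x4_10 g h)
    · exact sw (x5_10 g h)
    · exact sw (x6_10 g h)
    · exact sw (x7_10 g h)
    · exact sw (x8_10 g h)
    · exact sw (x9_10 g h)
    · exact x10_10 h g
    · exact x10_11 h g
    · exact x10_12 h g
    · exact x10_13 h g
    · exact x10_14 h g
    · exact x10_15 h g
    · exact x10_16 h g
    · exact x10_17 h g
    · exact x10_18 h g
    · exact x10_19 h g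
  · rcases g with g | g | g | g | g | g | g | g | g | g | g | g | g | g | g | g | g | g | g | g
    · exact sw (x0_11 g h)
    · exact sw (x1_11 g h)
    · exact sw (x2_11 g h)
    · exact sw (x3_11 g h)
    · exact sw (x4_11 g h)
    · exact sw (x5_11 g h)
    · exact sw (x6_11 g h)
    · exact sw (x7_11 g h)
    · exact sw (x8_11 g h)
    · exact sw (x9_11 g h)
    · exact sw (x10_11 g h)
    · exact x11_11 h g
    · exact x11_12 h g
    · exact x11_13 h g
    · exact x11_14 h g
    · exact x11_15 h g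
    · exact x11_16 h g
    · exact x11_17 h g
    · exact x11_18 h g
    · exact x11_19 h g
  · rcases g with g | g | g | g | g | g | g | g | g | g | g | g | g | g | g | g | g | g | g | g
    · exact sw (x0_12 g h)
    · exact sw (x1_12 g h)
    · exact sw (x2_12 g h)
    · exact sw (x3_12 g h)
    · exact sw (x4_12 g h)
    · exact sw (x5_12 g h)
    · exact sw (x6_12 g h)
    · exact sw (x7_12 g h)
    · exact sw (x8_12 g h)
    · exact sw (x9_12 g h)
    · exact sw (x10_12 g h)
    · exact sw (x11_12 g h)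
    · exact x12_12 h g
    · exact x12_13 h g
    · exact x12_14 h g
    · exact x12_15 h g
    · exact x12_16 h g
    · exact x12_17 h g
    · exact x12_18 h g
    · exact x12_19 h g
  · rcases g with g | g | g | g | g | g | g | g | g | g | g | g | g | g | g | g | g | g | g | g
    · exact sw (x0_13 g h)
    · exact sw (x1_13 g h)
    · exact sw (x2_13 g h)
    · exact sw (x3_13 g h)
    · exact sw (x4_13 g h)
    · exact sw (x5_13 g h)
    · exact sw (x6_13 g h)
    · exact sw (x7_13 g h)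
    · exact sw (x8_13 g h)
    · exact sw (x9_13 g h)
    · exact sw (x10_13 g h)
    · exact sw (x11_13 g h)
    · exact sw (x12_13 g h)
    · exact x13_13 h g
    · exact x13_14 h g
    · exact x13_15 h g
    · exact x13_16 h g
    · exact x13_17 h g
    · exact x13_18 h g
    · exact x13_19 h g
  · rcases g with g | g | g | g | g | g | g | g | g | g | g | g | g | g | g | g | g | g | g | g
    · exact sw (x0_14 g h)
    · exact sw (x1_14 g h)
    · exact sw (x2_14 g h)
    · exact sw (x3_14 g h)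
    · exact sw (x4_14 g h)
    · exact sw (x5_14 g h)
    · exact sw (x6_14 g h)
    · exact sw (x7_14 g h)
    · exact sw (x8_14 g h)
    · exact sw (x9_14 g h)
    · exact sw (x10_14 g h)
    · exact sw (x11_14 g h)
    · exact sw (x12_14 g h)
    · exact sw (x13_14 g h)
    · exact x14_14 h g
    · exact x14_15 h g
    · exact x14_16 h g
    · exact x14_17 h g
    · exact x14_18 h g
    · exact x14_19 h g
  · rcases g with g | g | g | g | g | g | g | g | g | g | g | g | g | g | g | g | g | g | g | g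
    · exact sw (x0_15 g h)
    · exact sw (x1_15 g h)
    · exact sw (x2_15 g h)
    · exact sw (x3_15 g h)
    · exact sw (x4_15 g h)
    · exact sw (x5_15 g h)
    · exact sw (x6_15 g h)
    · exact sw (x7_15 g h)
    · exact sw (x8_15 g h)
    · exact sw (x9_15 g h)
    · exact sw (x10_15 g h)
    · exact sw (x11_15 g h)
    · exact sw (x12_15 g h)
    · exact sw (x13_15 g h)
    · exact sw (x14_15 g h)
    · exact x15_15 h g
    · exact x15_16 h g
    · exact x15_17 h g
    · exact x15_18 h g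
    · exact x15_19 h g
  · rcases g with g | g | g | g | g | g | g | g | g | g | g | g | g | g | g | g | g | g | g | g
    · exact sw (x0_16 g h)
    · exact sw (x1_16 g h)
    · exact sw (x2_16 g h)
    · exact sw (x3_16 g h)
    · exact sw (x4_16 g h)
    · exact sw (x5_16 g h)
    · exact sw (x6_16 g h)
    · exact sw (x7_16 g h)
    · exact sw (x8_16 g h)
    · exact sw (x9_16 g h)
    · exact sw (x10_16 g h)
    · exact sw (x11_16 g h)
    · exact sw (x12_16 g h)
    · exact sw (x13_16 g h)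
    · exact sw (x14_16 g h)
    · exact sw (x15_16 g h)
    · exact x16_16 h g
    · exact x16_17 h g
    · exact x16_18 h g
    · exact x16_19 h g
  · rcases g with g | g | g | g | g | g | g | g | g | g | g | g | g | g | g | g | g | g | g | g
    · exact sw (x0_17 g h)
    · exact sw (x1_17 g h)
    · exact sw (x2_17 g h)
    · exact sw (x3_17 g h)
    · exact sw (x4_17 g h)
    · exact sw (x5_17 g h)
    · exact sw (x6_17 g h)
    · exact sw (x7_17 g h)
    · exact sw (x8_17 g h)
    · exact sw (x9_17 g h)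
    · exact sw (x10_17 g h)
    · exact sw (x11_17 g h)
    · exact sw (x12_17 g h)
    · exact sw (x13_17 g h)
    · exact sw (x14_17 g h)
    · exact sw (x15_17 g h)
    · exact sw (x16_17 g h)
    · exact x17_17 h g
    · exact x17_18 h g
    · exact x17_19 h g
  · rcases g with g | g | g | g | g | g | g | g | g | g | g | g | g | g | g | g | g | g | g | g
    · exact sw (x0_18 g h)
    · exact sw (x1_18 g h)
    · exact sw (x2_18 g h)
    · exact sw (x3_18 g h)
    · exact sw (x4_18 g h)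
    · exact sw (x5_18 g h)
    · exact sw (x6_18 g h)
    · exact sw (x7_18 g h)
    · exact sw (x8_18 g h)
    · exact sw (x9_18 g h)
    · exact sw (x10_18 g h)
    · exact sw (x11_18 g h)
    · exact sw (x12_18 g h)
    · exact sw (x13_18 g h)
    · exact sw (x14_18 g h)
    · exact sw (x15_18 g h)
    · exact sw (x16_18 g h)
    · exact sw (x17_18 g h)
    · exact x18_18 h g
    · exact x18_19 h g
  · rcases g with g | g | g | g | g | g | g | g | g | g | g | g | g | g | g | g | g | g | g | g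
    · exact sw (x0_19 g h)
    · exact sw (x1_19 g h)
    · exact sw (x2_19 g h)
    · exact sw (x3_19 g h)
    · exact sw (x4_19 g h)
    · exact sw (x5_19 g h)
    · exact sw (x6_19 g h)
    · exact sw (x7_19 g h)
    · exact sw (x8_19 g h)
    · exact sw (x9_19 g h)
    · exact sw (x10_19 g h)
    · exact sw (x11_19 g h)
    · exact sw (x12_19 g h)
    · exact sw (x13_19 g h)
    · exact sw (x14_19 g h)
    · exact sw (x15_19 g h)
    · exact sw (x16_19 g h)
    · exact sw (x17_19 g h)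
    · exact sw (x18_19 g h)
    · exact x19_19 h g


end LinjP

end Pool.Agent.P.MP_dba4bb_co.Ex
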