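import Pool.Agent.P.MP_dba4bb_co.Ex.SL

/-! The pleated folding is an isometry on finitely many polygons. -/

namespace Pool.Agent.P.MP_dba4bb_co.Ex

open Set

namespace LisoP

def Aff (g : P2 → P2) : Prop :=
  ∃ m1 m2 m3 m4 v1 v2 : ℝ, ∀ P, g P = (m1 * P.1 + m2 * P.2 + v1, m3 * P.1 + m4 * P.2 + v2)

theorem poly_inter {A B : Set P2} (hA : PolyP A) (hB : PolyP B) : PolyP (A ∩ B) := by
  obtain ⟨L, rfl⟩ := hA
  obtain ⟨M, rfl⟩ := hB
  refine ⟨L ++ M, ?_⟩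
  ext P
  simp only [mem_inter_iff, mem_ofPred_eq, List.mem_append]
  constructor
  · rintro ⟨h1, h2⟩ c (hc | hc)
    exacts [h1 c hc, h2 c hc]
  · intro h
    exact ⟨fun c hc => h c (Or.inl hc), fun c hc => h c (Or.inr hc)⟩

theorem poly_pre {A : Set P2} (hA : PolyP A) {g : P2 → P2} (hg : Aff g) : PolyP (g ⁻¹' A) := by
  obtain ⟨L, rfl⟩ := hA
  obtain ⟨m1, m2, m3, m4, v1, v2, hg⟩ := hg
  refine ⟨L.map fun c => (c.1 * m1 + c.2.1 * m3, c.1 * m2 + c.2.1 * m4,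
    c.2.2 - c.1 * v1 - c.2.1 * v2), ?_⟩
  ext P
  simp only [mem_preimage, mem_ofPred_eq, hg P, List.mem_map, forall_exists_index, and_imp,
    forall_apply_eq_imp_iff₂]
  exact forall₂_congr fun c _ => ⟨fun h => by linarith, fun h => by linarith⟩

theorem poly_half (x y z : ℝ) : PolyP {P | x * P.1 + y * P.2 ≤ z} :=
  ⟨[(x, y, z)], by ext P; simp⟩

/-- the part of `PwIso` that concerns a subset `A` -/
def Pw (A R : Set P2) (f : P2 → P3) : Prop :=
  ∃ 𝓕 : Set (Set P2), 𝓕.Finite ∧ A ∩ R ⊆ ⋃₀ 𝓕 ∧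
    ∀ G ∈ 𝓕, PolyP G ∧ ∀ P ∈ G ∩ R, ∀ Q ∈ G ∩ R, e2 (f P) (f Q) = d2 P Q

theorem Pw.union {A B R : Set P2} {f : P2 → P3} (hA : Pw A R f) (hB : Pw B R f) :
    Pw (A ∪ B) R f := by
  obtain ⟨F1, h1, h2, h3⟩ := hA
  obtain ⟨F2, k1, k2, k3⟩ := hB
  refine ⟨F1 ∪ F2, h1.union k1, ?_, ?_⟩
  · rintro P ⟨hP | hP, hR⟩
    · obtain ⟨G, hG, hPG⟩ := h2 ⟨hP, hR⟩
      exact ⟨G, Or.inl hG, hPG⟩
    · obtain ⟨G, hG, hPG⟩ := k2 ⟨hP, hR⟩
      exact ⟨G, Or.inr hG, hPG⟩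
  · rintro G (hG | hG)
    exacts [h3 G hG, k3 G hG]

theorem piece {ψ f : P2 → P3} {O A R : Set P2} (h : PwIso O ψ) (hA : PolyP A) {g : P2 → P2}
    (hg : Aff g) (hi : ∀ P Q, d2 (g P) (g Q) = d2 P Q)
    (hm : ∀ P ∈ A, P ∈ R → g P ∈ O ∧ f P = ψ (g P)) : Pw A R f := by
  obtain ⟨F, h1, h2, h3⟩ := h
  refine ⟨(fun G => A ∩ g ⁻¹' G) '' F, h1.image _, ?_, ?_⟩
  · rintro P ⟨hP, hR⟩
    obtain ⟨G, hG, hPG⟩ := h2 (hm P hP hR).1
    exact ⟨_, ⟨G, hG, rfl⟩, hP, hPG⟩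
  · rintro _ ⟨G, hG, rfl⟩
    refine ⟨poly_inter hA (poly_pre (h3 G hG).1 hg), ?_⟩
    rintro P ⟨⟨hP, hPG⟩, hR⟩ Q ⟨⟨hQ, hQG⟩, hR'⟩
    rw [(hm P hP hR).2, (hm Q hQ hR').2,
      (h3 G hG).2 _ ⟨hPG, (hm P hP hR).1⟩ _ ⟨hQG, (hm Q hQ hR').1⟩, hi]

variable {u t c s β : ℝ}

theorem par (h : ParL u t c s β) :
    0 ≤ t ∧ t ≤ 1 / 1000000 ∧ 0 ≤ β ∧ β ≤ 1 / 900 ∧ 0 ≤ s ∧ s ≤ 1 / 500 ∧
      1 - 1 / 100000 ≤ c ∧ c ≤ 1 ∧ c ^ 2 + s ^ 2 = 1 ∧ c + s * u = 1 ∧ c * u - s = -u := by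
  obtain ⟨u0, u1, hc, hs, hβ, _, t0, t1⟩ := h
  have hu2 : u ^ 2 ≤ 1 / 1000000 := by nlinarith
  have hu3 : 0 < u ^ 2 := by positivity
  have hD : 0 < 1 + u ^ 2 := by linarith
  have ht0 : 0 ≤ t := by linarith
  have ht1 : t ≤ 1 / 1000000 := by linarith
  have htu : 0 ≤ t * u := by positivity
  have htu' : t * u ≤ 1 / 1000000 := by nlinarith
  have hs0 : 0 ≤ s := by
    by_contra hn
    push Not at hn
    nlinarith
  have hc0 : 0 ≤ c := by
    by_contra hn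
    push Not at hn
    nlinarith
  have hc1 : c ≤ 1 := by nlinarith
  refine ⟨ht0, ht1, by nlinarith, by nlinarith, hs0, by nlinarith, by nlinarith, hc1, ?_, ?_, ?_⟩
  · have : (c ^ 2 + s ^ 2) * (1 + u ^ 2) ^ 2 = 1 * (1 + u ^ 2) ^ 2 := by
      have e : (c ^ 2 + s ^ 2) * (1 + u ^ 2) ^ 2 =
        (c * (1 + u ^ 2)) ^ 2 + (s * (1 + u ^ 2)) ^ 2 := by ring
      rw [e, hc, hs]; ring
    exact mul_right_cancel₀ (by positivity) this
  · have : (c + s * u) * (1 + u ^ 2) = 1 * (1 + u ^ 2) := by linear_combination hc + u * hs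
    exact mul_right_cancel₀ hD.ne' this
  · have : (c * u - s) * (1 + u ^ 2) = -u * (1 + u ^ 2) := by linear_combination u * hc - hs
    exact mul_right_cancel₀ hD.ne' this

theorem box (h : ParL u t c s β) {P : P2} (hP : P ∈ Pp t β) :
    |P.1 + P.2| ≤ 401 / 100 ∧ |P.1 - P.2| ≤ 401 / 100 := by
  obtain ⟨t0, t1, b0, b1, -⟩ := par h
  obtain ⟨h1, h2, h3, h4⟩ := hP
  generalize P.1 + P.2 = x at *
  generalize P.1 - P.2 = y at *
  have k1 := mul_le_mul_of_nonneg_left h1 t0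
  have k2 := mul_le_mul_of_nonneg_left h2 t0
  have k3 := mul_le_mul_of_nonneg_left h3 t0
  have k4 := mul_le_mul_of_nonneg_left h4 t0
  have tb : t * β ≤ 1 / 1000000 := by nlinarith
  have tt : 0 ≤ t * t := by positivity
  have hx : x * (1 + t * t) ≤ 401 / 100 ∧ -(401 / 100) ≤ x * (1 + t * t) := by
    constructor <;> nlinarith
  have hy : y * (1 + t * t) ≤ 401 / 100 ∧ -(401 / 100) ≤ y * (1 + t * t) := by
    constructor <;> nlinarith
  refine ⟨abs_le.2 ⟨?_, ?_⟩, abs_le.2 ⟨?_, ?_⟩⟩ <;> by_contra hn <;> push Not at hn <;>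
    nlinarith [hx.1, hx.2, hy.1, hy.2]

theorem om_id (h : ParL u t c s β) {P : P2} (hP : P ∈ Pp t β) : P ∈ Om :=
  ⟨(box h hP).1.trans (by norm_num), (box h hP).2.trans (by norm_num)⟩

theorem om_near (h : ParL u t c s β) {P Q : P2} (hP : P ∈ Pp t β) (h1 : |Q.1 - P.1| ≤ 1 / 20)
    (h2 : |Q.2 - P.2| ≤ 1 / 20) : Q ∈ Om := by
  obtain ⟨k1, k2⟩ := box h hP
  rw [abs_le] at h1 h2 k1 k2
  exact ⟨abs_le.2 ⟨by linarith [h1.1, h2.1, k1.1], by linarith [h1.2, h2.2, k1.2]⟩,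
    abs_le.2 ⟨by linarith [h1.1, h2.2, k2.1], by linarith [h1.2, h2.1, k2.2]⟩⟩

theorem small {e x z : ℝ} (he : |e| ≤ z) (hx : |x| ≤ 6) : |e * x| ≤ z * 6 := by
  rw [abs_mul]
  exact mul_le_mul he hx (abs_nonneg _) ((abs_nonneg _).trans he)

theorem om_rt (h : ParL u t c s β) {P : P2} (hP : P ∈ Pp t β) : rt c s P ∈ Om := by
  obtain ⟨-, -, -, -, s0, s1, c0, c1, -⟩ := par h
  obtain ⟨k1, k2⟩ := box h hP
  rw [abs_le] at k1 k2
  have ha : |P.1 + 1| ≤ 6 := abs_le.2 ⟨by linarith [k1.1, k2.1], by linarith [k1.2, k2.2]⟩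
  have hb : |P.2 - 1| ≤ 6 := abs_le.2 ⟨by linarith [k1.1, k2.2], by linarith [k1.2, k2.1]⟩
  have hc : |c - 1| ≤ 1 / 500 := abs_le.2 ⟨by linarith, by linarith⟩
  have hs : |s| ≤ 1 / 500 := abs_le.2 ⟨by linarith, by linarith⟩
  have e1 := abs_le.1 (small hc ha)
  have e2 := abs_le.1 (small hc hb)
  have e3 := abs_le.1 (small hs ha)
  have e4 := abs_le.1 (small hs hb)
  refine om_near h hP (abs_le.2 ⟨?_, ?_⟩) (abs_le.2 ⟨?_, ?_⟩) <;> simp only [rt] <;>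
    linarith [e1.1, e1.2, e2.1, e2.2, e3.1, e3.2, e4.1, e4.2]

theorem psi_swap {p q : ℝ} (h1 : p < -1) (h2 : 1 ≤ q) (h3 : q < -p) (h4 : -p ≤ 3) :
    psi p q = psi (-q) (-p) := by
  have h5 : ¬ (1 ≤ p) := by linarith
  have h6 : ¬ (-1 ≤ p) := by linarith
  have h7 : ¬ (-p ≤ q) := by linarith
  have h8 : ¬ (1 ≤ -q) := by linarith
  have h9 : 1 ≤ -p := by linarith
  have e : psi p q = (q - 2, 1, -p - 2) := by
    unfold psi
    rw [if_neg h5, if_neg h6, if_pos h2, if_neg h7, if_pos h4]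
  rw [e]
  unfold psi
  rw [if_neg h8]
  by_cases hq : -1 ≤ -q
  · have hq1 : q = 1 := by linarith
    rw [if_pos hq]
    by_cases h3' : 3 ≤ -p
    · rw [if_pos h3']
      have : -p = 3 := by linarith
      rw [this, hq1]; norm_num
    · rw [if_neg h3', if_pos h9, hq1]; norm_num
  · rw [if_neg hq, if_pos h9, if_pos (by linarith : - -q ≤ -p), if_pos h4]
    congr 1; ring

def mir (P : P2) : P2 := (P.1, 2 - P.2)

theorem ple3 (h : ParL u t c s β) {P : P2} (h1 : 1 ≤ P.2) (h2 : P.2 - 1 ≤ u * (P.1 + 1)) :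
    ple u c s P = mir P := by
  have u0 := h.u0
  have u1 := h.u1
  unfold ple mir
  split_ifs with k
  · have ha : 0 ≤ P.1 + 1 := by
      by_contra hn
      push Not at hn
      nlinarith
    have hb : P.2 = 1 := by
      rcases k with k | k
      · linarith
      · have : 0 ≤ (1 - u) * (P.1 + 1) := mul_nonneg (by linarith) ha
        have : (1 + u) * (P.2 - 1) ≤ 0 := by linarith
        nlinarith
    exact Prod.ext rfl (by simp only; linarith)
  · rfl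

theorem ff4 (h : ParL u t c s β) {P : P2} (hP : P ∈ Pp t β) (h1 : u * (P.1 + 1) ≤ P.2 - 1)
    (h2 : 0 ≤ (1 - u) * (P.1 + 1) + (1 + u) * (P.2 - 1)) :
    ff u c s P = psi (rt c s P).1 (rt c s P).2 := by
  have u0 := h.u0
  have u1 := h.u1
  obtain ⟨-, -, -, -, -, -, -, -, -, i1, i2⟩ := par h
  obtain ⟨k1, k2⟩ := box h hP
  rw [abs_le] at k1 k2
  unfold ff ple
  by_cases hb : P.2 ≤ 1
  · rw [if_pos (Or.inl hb)]
    have ha : P.1 + 1 ≤ 0 := by
      by_contra hn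
      push Not at hn
      nlinarith
    have e1 : (1 - u) * (P.1 + 1) ≤ 0 := mul_nonpos_of_nonneg_of_nonpos (by linarith) ha
    have e2 : (1 + u) * (P.2 - 1) ≤ 0 := mul_nonpos_of_nonneg_of_nonpos (by linarith) (by linarith)
    have ha' : P.1 + 1 = 0 := by nlinarith
    have hb' : P.2 - 1 = 0 := by nlinarith
    simp only [rt, ha', hb']
    congr 1 <;> linarith
  · push Not at hb
    by_cases k : (1 - u) * (P.1 + 1) + (1 + u) * (P.2 - 1) ≤ 0
    · rw [if_pos (Or.inr k)]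
      have e : (1 - u) * (P.1 + 1) + (1 + u) * (P.2 - 1) = 0 := le_antisymm k h2
      have hu : (1 - u) ≠ 0 := by linarith
      have hcs : c * (1 + u) = (1 - u) * (1 + s) := by linear_combination i1 + i2
      have hcs' : c * (1 - u) + s * (1 + u) = 1 + u := by linear_combination i1 - i2
      have r1 : (rt c s P).1 = -P.2 := by
        simp only [rt]
        apply mul_left_cancel₀ hu
        linear_combination c * e - (P.2 - 1) * hcs
      have r2 : (rt c s P).2 = -P.1 := by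
        simp only [rt]
        apply mul_left_cancel₀ hu
        linear_combination (1 - s) * e + (P.2 - 1) * hcs'
      rw [r1, r2]
      have hb2 : 0 < (1 + u) * (P.2 - 1) := mul_pos (by linarith) (by linarith)
      have ha : P.1 + 1 < 0 := by
        by_contra hn
        push Not at hn
        have : 0 ≤ (1 - u) * (P.1 + 1) := mul_nonneg (by linarith) hn
        linarith
      have e3 : 0 < u * (P.2 - 1 - (P.1 + 1)) := mul_pos u0 (by linarith)
      have e4 : u * (P.2 - 1 - (P.1 + 1)) ≤ 1 / 1000 * 3 :=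
        mul_le_mul u1 (by linarith [k2.1]) (by linarith) (by norm_num)
      exact psi_swap (by linarith) hb.le (by linarith) (by linarith [k2.1])
    · rw [if_neg (by rintro (k' | k'); exacts [by linarith, k k'])]
      by_cases k' : P.2 - 1 ≤ u * (P.1 + 1)
      · rw [if_pos k']
        have e : P.2 - 1 = u * (P.1 + 1) := le_antisymm k' h1
        simp only [rt]
        congr 1
        · linear_combination (-s) * e - (P.1 + 1) * i1
        · linear_combination (-1 - c) * e - (P.1 + 1) * i2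
      · rw [if_neg k']

end LisoP

open LisoP in
theorem sLiso : SLiso := by
  rintro ⟨hψ, hS⟩ u t c s β h
  have u0 := h.u0
  have u1 := h.u1
  have aid : Aff fun P => P := ⟨1, 0, 0, 1, 0, 0, fun P => by simp⟩
  have amir : Aff mir := ⟨1, 0, 0, -1, 0, 2, fun P => by
    unfold mir; exact Prod.ext (by simp) (by simp only; ring)⟩
  have art : Aff (rt c s) := ⟨c, s, -s, c, c - s - 1, -c - s + 1, fun P => by
    unfold rt; exact Prod.ext (by simp only; ring) (by simp only; ring)⟩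
  have hcs := (par h).2.2.2.2.2.2.2.2.1
  have m1 : ∀ P ∈ {P : P2 | 0 * P.1 + 1 * P.2 ≤ 1}, P ∈ Pp t β →
      P ∈ Om ∧ ff u c s P = psi P.1 P.2 := fun P hP hR =>
    ⟨om_id h hR, by unfold ff ple; rw [if_pos (Or.inl (by simpa using hP))]⟩
  have m2 : ∀ P ∈ {P : P2 | (1 - u) * P.1 + (1 + u) * P.2 ≤ 2 * u}, P ∈ Pp t β →
      P ∈ Om ∧ ff u c s P = psi P.1 P.2 := fun P hP hR =>
    ⟨om_id h hR, by
      unfold ff ple
      rw [if_pos (Or.inr (by simp only [mem_ofPred_eq] at hP; linarith))]⟩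
  have m3 : ∀ P ∈ {P : P2 | 0 * P.1 + (-1) * P.2 ≤ -1} ∩
      {P : P2 | (-u) * P.1 + 1 * P.2 ≤ 1 + u}, P ∈ Pp t β →
      mir P ∈ Om ∧ ff u c s P = psi (mir P).1 (mir P).2 := by
    rintro P ⟨h1, h2⟩ hR
    simp only [mem_ofPred_eq] at h1 h2
    obtain ⟨k1, k2⟩ := box h hR
    rw [abs_le] at k1 k2
    have : u * (P.1 + 1) ≤ 1 / 1000 * 6 := by
      rcases le_total 0 (P.1 + 1) with ha | ha
      · exact mul_le_mul u1 (by linarith [k1.2, k2.2]) ha (by norm_num)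
      · nlinarith
    refine ⟨om_near h hR (by simp [mir]) (abs_le.2 ⟨?_, ?_⟩), ?_⟩
    · simp only [mir]; linarith
    · simp only [mir]; linarith
    · unfold ff; rw [ple3 h (by linarith) (by linarith)]
  have m4 : ∀ P ∈ {P : P2 | u * P.1 + (-1) * P.2 ≤ -1 - u} ∩
      {P : P2 | (-(1 - u)) * P.1 + (-(1 + u)) * P.2 ≤ -(2 * u)}, P ∈ Pp t β →
      rt c s P ∈ Om ∧ ff u c s P = psi (rt c s P).1 (rt c s P).2 := by
    rintro P ⟨h1, h2⟩ hR
    simp only [mem_ofPred_eq] at h1 h2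
    exact ⟨om_rt h hR, ff4 h hR (by linarith) (by linarith)⟩
  have cov : ∀ P : P2, P ∈ (({P : P2 | 0 * P.1 + 1 * P.2 ≤ 1} ∪
      {P : P2 | (1 - u) * P.1 + (1 + u) * P.2 ≤ 2 * u}) ∪
      ({P : P2 | 0 * P.1 + (-1) * P.2 ≤ -1} ∩ {P : P2 | (-u) * P.1 + 1 * P.2 ≤ 1 + u})) ∪
      ({P : P2 | u * P.1 + (-1) * P.2 ≤ -1 - u} ∩
      {P : P2 | (-(1 - u)) * P.1 + (-(1 + u)) * P.2 ≤ -(2 * u)}) := by
    intro P
    simp only [mem_union, mem_inter_iff, mem_ofPred_eq]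
    rcases le_total P.2 1 with k1 | k1
    · exact Or.inl (Or.inl (Or.inl (by linarith)))
    rcases le_total ((1 - u) * P.1 + (1 + u) * P.2) (2 * u) with k2 | k2
    · exact Or.inl (Or.inl (Or.inr k2))
    rcases le_total (P.2 - 1) (u * (P.1 + 1)) with k3 | k3
    · exact Or.inl (Or.inr ⟨by linarith, by linarith⟩)
    · exact Or.inr ⟨by linarith, by linarith⟩
  constructor
  · have p1 := piece (f := ff u c s) hψ (poly_half _ _ _) aid (fun _ _ => rfl) m1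
    have p2 := piece (f := ff u c s) hψ (poly_half _ _ _) aid (fun _ _ => rfl) m2
    have p3 := piece (f := ff u c s) hψ (poly_inter (poly_half _ _ _) (poly_half _ _ _)) amir
      (fun P Q => by unfold d2 mir; ring) m3
    have p4 := piece (f := ff u c s) hψ (poly_inter (poly_half _ _ _) (poly_half _ _ _)) art
      (fun P Q => by
        unfold d2 rt
        linear_combination ((P.1 - Q.1) ^ 2 + (P.2 - Q.2) ^ 2) * hcs) m4
    obtain ⟨F, f1, f2, f3⟩ := ((p1.union p2).union p3).union p4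
    exact ⟨F, f1, fun P hP => f2 ⟨cov P, hP⟩, f3⟩
  · intro P hP
    rcases cov P with ((k | k) | k) | k
    · rw [(m1 P k hP).2]; exact hS _ (m1 P k hP).1
    · rw [(m2 P k hP).2]; exact hS _ (m2 P k hP).1
    · rw [(m3 P k hP).2]; exact hS _ (m3 P k hP).1
    · rw [(m4 P k hP).2]; exact hS _ (m4 P k hP).1

end Pool.Agent.P.MP_dba4bb_co.Ex
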