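import Pool.Agent.P.MP_dba4bb_co.Ex.SL

/-! Surjectivity of the folding onto the faces `U = -1`, `V = 1`, `V = -1`, `W = -1`. -/

namespace Pool.Agent.P.MP_dba4bb_co.Ex

open Set

theorem lsurA_B {p q : ℝ} (h1 : -1 ≤ p) (h2 : p ≤ 1) (h3 : -1 ≤ q) (h4 : q ≤ 1) :
    psi p q = (p, q, -1) := by
  unfold psi
  split_ifs <;> first
    | rfl
    | (exfalso; linarith)
    | (refine Prod.ext ?_ (Prod.ext ?_ ?_) <;> dsimp only <;> linarith)

theorem lsurA_S {p q : ℝ} (h1 : -3 ≤ p) (h2 : p ≤ -1) (h3 : -1 ≤ q) (h4 : q ≤ 1) :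
    psi p q = (-1, q, -p - 2) := by
  unfold psi
  split_ifs <;> first
    | rfl
    | (exfalso; linarith)
    | (refine Prod.ext ?_ (Prod.ext ?_ ?_) <;> dsimp only <;> linarith)

theorem lsurA_E {p q : ℝ} (h1 : -1 ≤ p) (h2 : p ≤ 1) (h3 : 1 ≤ q) (h4 : q ≤ 3) :
    psi p q = (p, 1, q - 2) := by
  unfold psi
  split_ifs <;> first
    | rfl
    | (exfalso; linarith)
    | (refine Prod.ext ?_ (Prod.ext ?_ ?_) <;> dsimp only <;> linarith)

theorem lsurA_W {p q : ℝ} (h1 : -1 ≤ p) (h2 : p ≤ 1) (h3 : -3 ≤ q) (h4 : q ≤ -1) :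
    psi p q = (p, -1, -q - 2) := by
  unfold psi
  split_ifs <;> first
    | rfl
    | (exfalso; linarith)
    | (refine Prod.ext ?_ (Prod.ext ?_ ?_) <;> dsimp only <;> linarith)

theorem lsurA_F {p q : ℝ} (h1 : -3 ≤ p) (h2 : p ≤ q) (h4 : q ≤ -1) :
    psi p q = (-2 - q, -1, -p - 2) := by
  unfold psi
  split_ifs <;> first
    | rfl
    | (exfalso; linarith)
    | (refine Prod.ext ?_ (Prod.ext ?_ ?_) <;> dsimp only <;> linarith)

theorem lsurA_Q {p q : ℝ} (h1 : p ≤ q - 2) (h4 : q ≤ -1) :
    psi p q = (-4 - p, -1, 2 + q) := by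
  unfold psi
  split_ifs <;> first
    | rfl
    | (exfalso; linarith)
    | (refine Prod.ext ?_ (Prod.ext ?_ ?_) <;> dsimp only <;> linarith)

theorem lsurA_id (u c s : ℝ) {p q : ℝ} (h : q ≤ 1) : ff u c s (p, q) = psi p q := by
  unfold ff ple
  rw [if_pos (Or.inl h)]

theorem lsurA_facts {u t c s β : ℝ} (h : ParL u t c s β) :
    0 < t ∧ t ≤ 1 / 1000 ∧ t ≤ β ∧ c + u * s = 1 ∧ s - u * c = u ∧ c ^ 2 + s ^ 2 = 1 ∧
      0 < s ∧ s ≤ 1 / 100 ∧ 99 / 100 ≤ c ∧ c ≤ 1 ∧ c + s ≤ 1 + 2 * β ∧
      4 * c + 4 * (t * s) + 10 * t ≤ 4 := by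
  obtain ⟨u0, u1, hc, hs, hβ, -, t0, t1⟩ := h
  have hD : 0 < 1 + u ^ 2 := by positivity
  have hu2 : 0 < u ^ 2 := by positivity
  have hu3 : u ^ 2 ≤ u / 1000 := by linarith [mul_le_mul_of_nonneg_left u1 u0.le]
  have a1 : c + u * s = 1 := by
    apply mul_right_cancel₀ hD.ne'
    linear_combination hc + u * hs
  have a2 : s - u * c = u := by
    apply mul_right_cancel₀ hD.ne'
    linear_combination hs - u * hc
  have a3 : c ^ 2 + s ^ 2 = 1 := by
    apply mul_right_cancel₀ hD.ne'
    linear_combination (c + u * s + 1) * a1 + (s - u * c + u) * a2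
  have s0 : 0 < s := by
    by_contra hn
    have : s * (1 + u ^ 2) ≤ 0 := mul_nonpos_of_nonpos_of_nonneg (not_lt.1 hn) hD.le
    linarith
  have s1 : s ≤ 2 * u := by linarith [mul_pos s0 hu2]
  have us : 0 < u * s := mul_pos u0 s0
  have us1 : u * s ≤ 2 * u ^ 2 := by linarith [mul_le_mul_of_nonneg_left s1 u0.le]
  have c0 : 99 / 100 ≤ c := by linarith
  have s2 : 199 / 100 * u ≤ s := by linarith [mul_le_mul_of_nonneg_left c0 u0.le]
  have us2 : 199 / 100 * u ^ 2 ≤ u * s := by linarith [mul_le_mul_of_nonneg_left s2 u0.le]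
  have tp : 0 < t := by linarith
  have tu : 0 < t * u := mul_pos tp u0
  have ts : t * s ≤ t / 100 := by
    linarith [mul_le_mul_of_nonneg_left (show s ≤ 1 / 100 by linarith) tp.le]
  have uc : u * c ≤ u := by
    linarith [mul_le_mul_of_nonneg_left (show c ≤ 1 by linarith) u0.le]
  have cs : c + s ≤ 1 + 2 * u - u ^ 2 := by linarith
  refine ⟨tp, by linarith, by linarith, a1, a2, a3, s0, by linarith, c0, by linarith,
    by linarith, by linarith⟩

theorem sLsurA : SLsurA := by
  intro u t c s β h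
  obtain ⟨t0, t1, tβ, a1, a2, a3, s0, s1, c0, c1, cs, top⟩ := lsurA_facts h
  have u0 := h.u0
  have u1 := h.u1
  have bd : ∀ x : ℝ, -6 ≤ x → x ≤ 6 → -(6 * t) ≤ t * x ∧ t * x ≤ 6 * t := fun x h1 h2 =>
    ⟨by linarith [mul_le_mul_of_nonneg_left h1 t0.le],
      by linarith [mul_le_mul_of_nonneg_left h2 t0.le]⟩
  rintro ⟨U, V, W⟩ ⟨⟨U0, U1⟩, ⟨V0, V1⟩, ⟨W0, W1⟩, -⟩ hq
  dsimp only at U0 U1 V0 V1 W0 W1 hq
  rcases hq with rfl | rfl | rfl | rfl
  · refine ⟨(-W - 2, V), ?_, ?_⟩
    · have b1 := bd (-W - 2 - V) (by linarith) (by linarith)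
      have b2 : t * (-W - 2 - V) ≤ 0 := mul_nonpos_of_nonneg_of_nonpos t0.le (by linarith)
      have b3 : -(4 * t) ≤ t * (-W - 2 + V) := by
        linarith [mul_le_mul_of_nonneg_left (show -4 ≤ -W - 2 + V by linarith) t0.le]
      have b4 := bd (-W - 2 + V) (by linarith) (by linarith)
      refine ⟨?_, ?_, ?_, ?_⟩ <;> dsimp only <;> linarith
    · rw [lsurA_id _ _ _ V1, lsurA_S (by linarith) (by linarith) V0 V1]
      refine Prod.ext rfl (Prod.ext rfl ?_); dsimp only; ring
  · obtain ⟨a, rfl⟩ : ∃ a, U = a - 1 := ⟨U + 1, by ring⟩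
    obtain ⟨b, rfl⟩ : ∃ b, W = b - 1 := ⟨W + 1, by ring⟩
    have a0 : 0 ≤ a := by linarith
    have b0 : 0 ≤ b := by linarith
    have ca : 0 ≤ c * a := by positivity
    have cb : 0 ≤ c * b := by positivity
    have sa : 0 ≤ s * a := by positivity
    have sb : 0 ≤ s * b := by positivity
    have ca1 : c * a ≤ 2 := by linarith [mul_le_mul_of_nonneg_right c1 a0]
    have cb1 : c * b ≤ 2 := by linarith [mul_le_mul_of_nonneg_right c1 b0]
    have sa1 : s * a ≤ 1 / 50 := by linarith [mul_le_mul_of_nonneg_right s1 a0]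
    have sb1 : s * b ≤ 1 / 50 := by linarith [mul_le_mul_of_nonneg_right s1 b0]
    refine ⟨(c * a - s * b - 1, c * b + s * a + 1), ?_, ?_⟩
    · have b1 := bd (c * a - s * b - 1 - (c * b + s * a + 1)) (by linarith) (by linarith)
      have b2 := bd (c * a - s * b - 1 + (c * b + s * a + 1)) (by linarith) (by linarith)
      have k0 := bd (c - s) (by linarith) (by linarith)
      have k0' := bd (c + s) (by linarith) (by linarith)
      have k1 : 0 ≤ (2 - a) * (c + s - t * (c - s)) :=
        mul_nonneg (by linarith) (by linarith)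
      have k2 : 0 ≤ (2 - b) * (c - s + t * (c + s)) :=
        mul_nonneg (by linarith) (by linarith)
      have k6 : 0 ≤ (c - s) * b := mul_nonneg (by linarith) b0
      have k3 : 0 ≤ t * (c * a - s * b - 1 + (c * b + s * a + 1)) :=
        mul_nonneg t0.le (by linarith)
      have k4 : 0 ≤ (c - s) * a := mul_nonneg (by linarith) a0
      have k5 : 0 ≤ (c + s) * (2 - b) := mul_nonneg (by linarith) (by linarith)
      refine ⟨?_, ?_, ?_, ?_⟩ <;> dsimp only
      · linarith
      · linarith
      · linarith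
      · linarith
    · have e : ple u c s (c * a - s * b - 1, c * b + s * a + 1) = (a - 1, b + 1) := by
        have hr : rt c s (c * a - s * b - 1, c * b + s * a + 1) = (a - 1, b + 1) := by
          unfold rt
          refine Prod.ext ?_ ?_ <;> dsimp only
          · linear_combination a * a3
          · linear_combination b * a3
        have e1 : (1 - u) * (c * a - s * b - 1 + 1) + (1 + u) * (c * b + s * a + 1 - 1) =
            (1 + u) * a + (1 - u) * b := by
          linear_combination (a + b) * a1 + (a - b) * a2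
        have e2 : c * b + s * a + 1 - 1 - u * (c * a - s * b - 1 + 1) = b + u * a := by
          linear_combination b * a1 + a * a2
        by_cases z : a = 0 ∧ b = 0
        · obtain ⟨rfl, rfl⟩ := z
          unfold ple
          rw [if_pos (Or.inl (by simp))]
          simp
        · have z' : 0 < a ∨ 0 < b := by
            by_contra hn
            rw [not_or, not_lt, not_lt] at hn
            exact z ⟨le_antisymm hn.1 a0, le_antisymm hn.2 b0⟩
          have ua : 0 ≤ u * a := by positivity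
          have ub : u * b ≤ b / 1000 := by linarith [mul_le_mul_of_nonneg_right u1 b0]
          have p1 : 0 < c * b + s * a := by
            rcases z' with z' | z'
            · have := mul_pos s0 z'; linarith
            · have := mul_pos (show 0 < c by linarith) z'; linarith
          have p2 : 0 < (1 + u) * a + (1 - u) * b := by
            rcases z' with z' | z' <;> linarith
          have p3 : 0 < b + u * a := by
            rcases z' with z' | z'
            · have := mul_pos u0 z'; linarith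
            · linarith
          unfold ple
          rw [if_neg, if_neg, hr]
          · dsimp only; linarith
          · dsimp only; rw [e1, not_or]; exact ⟨by linarith, by linarith⟩
      unfold ff
      rw [e]
      dsimp only
      rw [lsurA_E (by linarith) (by linarith) (by linarith) (by linarith)]
      refine Prod.ext rfl (Prod.ext rfl ?_); dsimp only; ring
  · obtain ⟨a, rfl⟩ : ∃ a, U = a - 1 := ⟨U + 1, by ring⟩
    obtain ⟨w, rfl⟩ : ∃ w, W = 1 - w := ⟨1 - W, by ring⟩
    have a0 : 0 ≤ a := by linarith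
    have w0 : 0 ≤ w := by linarith
    have b1 := bd (2 + a - w) (by linarith) (by linarith)
    by_cases k : t * (2 + a - w) ≤ a + w
    · refine ⟨(a - 1, w - 3), ?_, ?_⟩
      · have b2 := bd (a - 1 + (w - 3)) (by linarith) (by linarith)
        have b3 : t * (a - 1 + (w - 3)) ≤ 0 := mul_nonpos_of_nonneg_of_nonpos t0.le (by linarith)
        refine ⟨?_, ?_, ?_, ?_⟩ <;> dsimp only <;> linarith
      · rw [lsurA_id _ _ _ (by linarith),
          lsurA_W (by linarith) (by linarith) (by linarith) (by linarith)]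
        refine Prod.ext rfl (Prod.ext rfl ?_); dsimp only; ring
    · by_cases k2 : w ≤ a
      · refine ⟨(-3 - a, -1 - w), ?_, ?_⟩
        · have b2 := bd (-3 - a + (-1 - w)) (by linarith) (by linarith)
          refine ⟨?_, ?_, ?_, ?_⟩ <;> dsimp only <;> linarith
        · rw [lsurA_id _ _ _ (by linarith), lsurA_Q (by linarith) (by linarith)]
          refine Prod.ext ?_ (Prod.ext rfl ?_) <;> dsimp only <;> ring
      · refine ⟨(w - 3, -1 - a), ?_, ?_⟩
        · have b2 := bd (w - 3 + (-1 - a)) (by linarith) (by linarith)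
          have b3 := bd (w - 3 - (-1 - a)) (by linarith) (by linarith)
          have b4 : t * (w - 3 - (-1 - a)) ≤ 0 :=
            mul_nonpos_of_nonneg_of_nonpos t0.le (by linarith)
          refine ⟨?_, ?_, ?_, ?_⟩ <;> dsimp only <;> linarith
        · rw [lsurA_id _ _ _ (by linarith), lsurA_F (by linarith) (by linarith) (by linarith)]
          refine Prod.ext ?_ (Prod.ext rfl ?_) <;> dsimp only <;> ring
  · refine ⟨(U, V), ?_, ?_⟩
    · have b1 := bd (U - V) (by linarith) (by linarith)
      have b2 := bd (U + V) (by linarith) (by linarith)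
      refine ⟨?_, ?_, ?_, ?_⟩ <;> dsimp only <;> linarith
    · rw [lsurA_id _ _ _ V1, lsurA_B U0 U1 V0 V1]

end Pool.Agent.P.MP_dba4bb_co.Ex
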