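import Pool.Agent.P.MP_dba4bb_co.Ex.SL

/-! The folding covers the face `U = 1`. -/

namespace Pool.Agent.P.MP_dba4bb_co.Ex

namespace LsurNP

theorem cs_one {u t c s β : ℝ} (h : ParL u t c s β) : c ^ 2 + s ^ 2 = 1 := by
  have h1 : (1 + u ^ 2) ≠ 0 := by positivity
  have h2 : (c ^ 2 + s ^ 2) * (1 + u ^ 2) ^ 2 = 1 * (1 + u ^ 2) ^ 2 := by
    have : (c ^ 2 + s ^ 2) * (1 + u ^ 2) ^ 2 = (c * (1 + u ^ 2)) ^ 2 + (s * (1 + u ^ 2)) ^ 2 := by
      ring
    rw [this, h.hc, h.hs]; ring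
  exact mul_right_cancel₀ (pow_ne_zero 2 h1) h2

theorem bounds {u t c s β : ℝ} (h : ParL u t c s β) :
    0 < t ∧ t ≤ 1 / 1000 ∧ 0 ≤ s ∧ s ≤ 1 / 100 ∧ 99 / 100 ≤ c ∧ c ≤ 1 ∧ 0 ≤ β := by
  have u0 := h.u0
  have u1 := h.u1
  have uu : u ^ 2 ≤ 1 / 1000000 := by nlinarith
  have up : 0 < u ^ 2 := by positivity
  have t0 : 0 < t := by linarith [h.t0]
  have t1 : t ≤ 1 / 1000 := by linarith [h.t1]
  have hs := h.hs
  have hc := h.hc
  have s0 : 0 ≤ s := by
    by_contra hh
    have : s * (1 + u ^ 2) < 0 := mul_neg_of_neg_of_pos (lt_of_not_ge hh) (by positivity)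
    linarith
  have c0 : 0 ≤ c := by
    by_contra hh
    have : c * (1 + u ^ 2) < 0 := mul_neg_of_neg_of_pos (lt_of_not_ge hh) (by positivity)
    linarith
  have c1 : c ≤ 1 := by nlinarith [mul_nonneg c0 up.le]
  refine ⟨t0, t1, s0, by nlinarith [mul_nonneg s0 up.le], ?_, c1, ?_⟩
  · nlinarith [mul_le_mul c1 uu up.le zero_le_one]
  · have := h.hβ
    nlinarith [mul_pos t0 u0]

theorem psiN {V W : ℝ} (h1 : -1 ≤ V) (h2 : V ≤ 1) (h3 : -1 ≤ W) (h4 : W ≤ 1) :
    psi (W + 2) V = (1, V, W) := by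
  unfold psi
  rw [if_pos (by linarith)]
  by_cases hV : 1 ≤ V
  · rw [if_pos hV, if_pos (by linarith), if_pos (by linarith)]
    exact Prod.ext rfl (Prod.ext (by simp only; linarith) (by simp only; ring))
  · rw [if_neg hV, if_pos h1, if_pos (by linarith)]
    exact Prod.ext rfl (Prod.ext rfl (by simp only; ring))

theorem psiF2 {m w : ℝ} (h1 : 0 ≤ m) (h2 : m ≤ 1 / 2) (h3 : 0 ≤ w) (h4 : w ≤ 1 / 2) :
    psi (m + 1) (w - 3) = (1, m - 1, 1 - w) := by
  unfold psi
  rw [if_pos (by linarith), if_neg (by linarith), if_neg (by linarith), if_neg (by linarith),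
    if_pos (by linarith)]
  exact Prod.ext rfl (Prod.ext (by simp only; ring) (by simp only; ring))

theorem psiQ2 {m w : ℝ} (h2 : m ≤ 1 / 2) (h3 : 0 ≤ w) (h4 : w ≤ m) :
    psi (1 + w) (-3 - m) = (1, m - 1, 1 - w) := by
  unfold psi
  rw [if_pos (by linarith), if_neg (by linarith), if_neg (by linarith), if_neg (by linarith)]
  by_cases hm : -(-3 - m) ≤ 3
  · rw [if_pos hm]
    exact Prod.ext rfl (Prod.ext (by simp only; linarith) (by simp only; linarith))
  · rw [if_neg hm, if_pos (by linarith)]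
    exact Prod.ext rfl (Prod.ext (by simp only; ring) (by simp only; ring))

theorem psiF1 {n w : ℝ} (h1 : 0 ≤ n) (h2 : n ≤ 1 / 2) (h3 : 0 ≤ w) (h4 : w ≤ 1 / 2) :
    psi (1 + n) (3 - w) = (1, 1 - n, 1 - w) := by
  unfold psi
  rw [if_pos (by linarith), if_pos (by linarith), if_neg (by linarith), if_pos (by linarith)]
  exact Prod.ext rfl (Prod.ext (by simp only; ring) (by simp only; ring))

theorem psiQ1 {n w : ℝ} (h2 : n ≤ 1 / 2) (h3 : 0 ≤ w) (h4 : w ≤ n) :
    psi (1 + w) (3 + n) = (1, 1 - n, 1 - w) := by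
  unfold psi
  rw [if_pos (by linarith), if_pos (by linarith), if_neg (by linarith)]
  by_cases hn : 3 + n ≤ 3
  · rw [if_pos hn]
    exact Prod.ext rfl (Prod.ext (by simp only; linarith) (by simp only; linarith))
  · rw [if_neg hn, if_pos (by linarith)]
    exact Prod.ext rfl (Prod.ext (by simp only; ring) (by simp only; ring))

theorem ff_id {u c s p q : ℝ} (h : q ≤ 1) : ff u c s (p, q) = psi p q := by
  unfold ff ple
  rw [if_pos (Or.inl h)]

/-- near the point `(1,3)` the pleat is the rotation -/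
theorem ff_rot {u t c s β x y : ℝ} (h : ParL u t c s β) (x0 : 0 ≤ x) (x1 : x ≤ 1 / 100)
    (y0 : -1 / 100 ≤ y) (y1 : y ≤ 1 / 100) :
    ff u c s (c * (2 + x) - s * (2 + y) - 1, c * (2 + y) + s * (2 + x) + 1) =
      psi (1 + x) (3 + y) := by
  obtain ⟨t0, t1, s0, s1, c0, c1, b0⟩ := bounds h
  have h1 := cs_one h
  have u0 := h.u0
  have u1 := h.u1
  have a0 : 1 ≤ c * (2 + x) - s * (2 + y) := by nlinarith
  have a1 : c * (2 + x) - s * (2 + y) ≤ 3 := by nlinarith
  have b1 : 1 ≤ c * (2 + y) + s * (2 + x) := by nlinarith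
  have e1 : (rt c s (c * (2 + x) - s * (2 + y) - 1, c * (2 + y) + s * (2 + x) + 1)).1 = 1 + x := by
    unfold rt; simp only; linear_combination (2 + x) * h1
  have e2 : (rt c s (c * (2 + x) - s * (2 + y) - 1, c * (2 + y) + s * (2 + x) + 1)).2 = 3 + y := by
    unfold rt; simp only; linear_combination (2 + y) * h1
  unfold ff ple
  rw [if_neg, if_neg, e1, e2]
  · simp only [not_le]
    generalize c * (2 + x) - s * (2 + y) = a at *
    generalize c * (2 + y) + s * (2 + x) = b at *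
    nlinarith
  · simp only [not_or, not_le]
    generalize c * (2 + x) - s * (2 + y) = a at *
    generalize c * (2 + y) + s * (2 + x) = b at *
    constructor
    · linarith
    · nlinarith

theorem mem_rot {u t c s β x y : ℝ} (h : ParL u t c s β) (x0 : 0 ≤ x) (x1 : x ≤ 1 / 100)
    (y0 : -1 / 100 ≤ y) (y1 : y ≤ 1 / 100)
    (hR : x * (c + t * s + (s - t * c)) + y * (c + t * s - (s - t * c)) ≤
      2 * (2 - 5 * t - 2 * c - 2 * t * s)) :
    ((c * (2 + x) - s * (2 + y) - 1, c * (2 + y) + s * (2 + x) + 1) : P2) ∈ Pp t β := by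
  obtain ⟨t0, t1, s0, s1, c0, c1, b0⟩ := bounds h
  have a0 : 1 ≤ c * (2 + x) - s * (2 + y) := by nlinarith
  have a1 : c * (2 + x) - s * (2 + y) ≤ 3 := by nlinarith
  have b1 : 1 ≤ c * (2 + y) + s * (2 + x) := by nlinarith
  have b2 : c * (2 + y) + s * (2 + x) ≤ 21 / 10 := by nlinarith
  refine ⟨?_, by simp only; linarith, ?_, ?_⟩
  all_goals
    simp only
    generalize c * (2 + x) - s * (2 + y) = a at *
    generalize c * (2 + y) + s * (2 + x) = b at *
    nlinarith

end LsurNP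

open LsurNP in
theorem sLsurN : SLsurN := by
  rintro u t c s β h ⟨U, V, W⟩ ⟨-, ⟨hV0, hV1⟩, ⟨hW0, hW1⟩, -⟩ hU
  simp only at hU hV0 hV1 hW0 hW1
  subst hU
  obtain ⟨t0, t1, s0, s1, c0, c1, b0⟩ := bounds h
  have h1 := cs_one h
  by_cases hT : (1 + t) * (1 - W) + (1 - t) * (1 + V) < 2 * t
  · obtain ⟨m, rfl⟩ : ∃ m, V = m - 1 := ⟨V + 1, by ring⟩
    obtain ⟨w, rfl⟩ : ∃ w, W = 1 - w := ⟨1 - W, by ring⟩
    have m0 : 0 ≤ m := by linarith
    have w0 : 0 ≤ w := by linarith
    have m1 : m ≤ 1 / 2 := by nlinarith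
    have w1 : w ≤ 1 / 2 := by nlinarith
    rcases le_total w m with hwm | hwm
    · refine ⟨(1 + w, -3 - m), ⟨?_, ?_, ?_, ?_⟩, ?_⟩
      · simp only; nlinarith
      · simp only; nlinarith
      · simp only; nlinarith
      · simp only; nlinarith
      · rw [ff_id (by linarith), psiQ2 m1 w0 hwm]
    · refine ⟨(m + 1, w - 3), ⟨?_, ?_, ?_, ?_⟩, ?_⟩
      · simp only; nlinarith
      · simp only; nlinarith
      · simp only; nlinarith
      · simp only; nlinarith
      · rw [ff_id (by linarith), psiF2 m0 m1 w0 w1]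
  by_cases hR : (1 + t) * (1 - V) + (1 - t) * (1 - W) < 6 * t
  · obtain ⟨n, rfl⟩ : ∃ n, V = 1 - n := ⟨1 - V, by ring⟩
    obtain ⟨w, rfl⟩ : ∃ w, W = 1 - w := ⟨1 - W, by ring⟩
    have n0 : 0 ≤ n := by linarith
    have w0 : 0 ≤ w := by linarith
    have hR' : (1 + t) * n + (1 - t) * w < 6 * t := by linarith
    have n6 : n ≤ 6 * t := by nlinarith
    have n1 : n ≤ 1 / 100 := by linarith
    have w1 : w ≤ 1 / 100 := by nlinarith
    have ht := h.ht
    by_cases h2 : n * (c + t * s + (s - t * c)) + -w * (c + t * s - (s - t * c)) ≤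
        2 * (2 - 5 * t - 2 * c - 2 * t * s)
    · refine ⟨_, mem_rot h n0 n1 (by linarith) (by linarith) h2, ?_⟩
      rw [ff_rot h n0 n1 (by linarith) (by linarith), ← sub_eq_add_neg,
        psiF1 n0 (by linarith) w0 (by linarith)]
    · generalize hK : 2 - 5 * t - 2 * c - 2 * t * s = K at h2 ht
      have h2' := lt_of_not_ge h2
      have hK1 : t ≤ K := by
        by_contra hh
        have : (c + s) * K < (c + s) * t :=
          mul_lt_mul_of_pos_left (lt_of_not_ge hh) (by linarith)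
        nlinarith
      have tc : 0 ≤ t * c := mul_nonneg t0.le (by linarith)
      have ts : 0 ≤ t * s := mul_nonneg t0.le s0
      have hwn : w ≤ n := by
        by_contra hh
        have h3 : n * (c + t * s - (s - t * c)) ≤ w * (c + t * s - (s - t * c)) :=
          mul_le_mul_of_nonneg_right (le_of_not_ge hh) (by linarith)
        have h4 : n * s ≤ 6 * t * (1 / 100) := mul_le_mul n6 s1 s0 (by linarith)
        have h5 : 0 ≤ n * (t * c) := mul_nonneg n0 tc
        nlinarith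
      have h3 : w * (c + t * s + (s - t * c)) + n * (c + t * s - (s - t * c)) ≤ 2 * K := by
        by_contra hh
        have h4 := mul_lt_mul_of_pos_left (lt_of_not_ge hh) (show 0 < c by linarith)
        have h5 := mul_le_mul_of_nonneg_left h2'.le s0
        have h6 : c * (w * (c + t * s + (s - t * c)) + n * (c + t * s - (s - t * c))) +
            s * (n * (c + t * s + (s - t * c)) + -w * (c + t * s - (s - t * c))) =
            (1 + t) * n + (1 - t) * w := by
          linear_combination ((1 + t) * n + (1 - t) * w) * h1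
        linarith
      refine ⟨_, mem_rot h w0 w1 (by linarith) n1 (by rw [hK]; exact h3), ?_⟩
      rw [ff_rot h w0 w1 (by linarith) n1, psiQ1 (by linarith) w0 hwn]
  · refine ⟨(W + 2, V), ⟨?_, ?_, ?_, ?_⟩, ?_⟩
    · simp only; nlinarith
    · simp only; linarith [le_of_not_gt hR]
    · simp only; nlinarith
    · simp only; linarith [le_of_not_gt hT]
    · rw [ff_id hV1, psiN hV0 hV1 hW0 hW1]

end Pool.Agent.P.MP_dba4bb_co.Ex
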