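import Pool.Agent.P.MP_dba4bb_co.Ex.SL

/-! The optimal folding covers the top face. -/

namespace Pool.Agent.P.MP_dba4bb_co.Ex

namespace LsurT

theorem psiTN (U V : ℝ) (h1 : U ≤ 1) (h2 : -1 ≤ V) (h3 : V ≤ 1) : psi (4 - U) V = (U, V, 1) := by
  unfold psi
  split_ifs <;> first
    | (exfalso; linarith)
    | (refine Prod.ext ?_ (Prod.ext ?_ ?_) <;> dsimp only <;> linarith)

theorem psiTW (U V : ℝ) (h0 : -1 ≤ U) (h1 : U ≤ 1) (h2 : -1 ≤ V) :
    psi U (-4 - V) = (U, V, 1) := by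
  unfold psi
  split_ifs <;> first
    | (exfalso; linarith)
    | (refine Prod.ext ?_ (Prod.ext ?_ ?_) <;> dsimp only <;> linarith)

theorem psiTS (U V : ℝ) (h0 : -1 ≤ U) (h2 : -1 ≤ V) (h3 : V ≤ 1) :
    psi (-4 - U) V = (U, V, 1) := by
  unfold psi
  split_ifs <;> first
    | (exfalso; linarith)
    | (refine Prod.ext ?_ (Prod.ext ?_ ?_) <;> dsimp only <;> linarith)

theorem psiTE (U V : ℝ) (h0 : -1 ≤ U) (h1 : U ≤ 1) (h3 : V ≤ 1) :
    psi U (4 - V) = (U, V, 1) := by
  unfold psi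
  split_ifs <;> first
    | (exfalso; linarith)
    | (refine Prod.ext ?_ (Prod.ext ?_ ?_) <;> dsimp only <;> linarith)

theorem ff_low (u c s p q : ℝ) (h : q ≤ 1) : ff u c s (p, q) = psi p q := by
  unfold ff ple
  rw [if_pos (Or.inl h)]

theorem ff_rot (u c s a b : ℝ) (h1 : 0 < b) (h2 : 0 < (1 - u) * a + (1 + u) * b)
    (h3 : u * a < b) :
    ff u c s (a - 1, b + 1) = psi (c * a + s * b - 1) (c * b - s * a + 1) := by
  unfold ff ple
  rw [if_neg, if_neg]
  · simp only [rt, sub_add_cancel, add_sub_cancel_right]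
  · simp only [sub_add_cancel, add_sub_cancel_right]
    linarith
  · simp only [sub_add_cancel, add_sub_cancel_right]
    rintro (h | h) <;> linarith

/-- numerical consequences of the parameter equations -/
theorem facts {u t c s β : ℝ} (h : ParL u t c s β) :
    c ^ 2 + s ^ 2 = 1 ∧ 99 / 100 ≤ c ∧ c ≤ 1 ∧ u ≤ s ∧ s ≤ 1 / 500 ∧ 0 < t ∧ t ≤ u ∧ 0 ≤ β ∧
      1 - c - 2 * s - 3 * t * s + 2 * β * (1 + c) = 0 := by
  obtain ⟨u0, u1, hc, hs, hβ, -, t0, t1⟩ := h
  have hu : 0 < 1 + u ^ 2 := by positivity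
  have hu2 : u ^ 2 ≤ u / 1000 := by nlinarith
  have hup : 0 < u ^ 2 := by positivity
  have ht : 0 < t := by linarith
  have e1 : c = (1 - u ^ 2) / (1 + u ^ 2) := by rw [eq_div_iff hu.ne']; exact hc
  have e2 : s = 2 * u / (1 + u ^ 2) := by rw [eq_div_iff hu.ne']; exact hs
  refine ⟨?_, ?_, ?_, ?_, ?_, ht, by linarith, ?_, ?_⟩
  · rw [e1, e2]; field_simp; ring
  · rw [e1, le_div_iff₀ hu]; linarith
  · rw [e1, div_le_iff₀ hu]; linarith
  · rw [e2, le_div_iff₀ hu]; nlinarith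
  · rw [e2, div_le_iff₀ hu]; linarith
  · have := mul_pos ht u0
    linarith
  · rw [hβ, e1, e2]; field_simp; ring

/-- the right wall -/
theorem wall {t c s x y : ℝ} (hcs : c ^ 2 + s ^ 2 = 1) (hc0 : 99 / 100 ≤ c) (hc1 : c ≤ 1)
    (hs1 : s ≤ 1 / 500) (ht0 : 0 < t) (hts : t ≤ s)
    (ht : 3 * t = (c + s) * (2 - 5 * t - 2 * c - 2 * t * s))
    (h1 : y ≤ t * (2 + x)) (h2 : x + y ≤ 1) :
    (c + t * s) * (2 + y) + (s - t * c) * (x - 1) ≤ 2 - 5 * t := by
  have hs0 : 0 < s := by linarith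
  obtain ⟨K, hK⟩ : ∃ K, K = 2 - 5 * t - 2 * c - 2 * t * s := ⟨_, rfl⟩
  rw [← hK] at ht
  have hK0 : 0 < K := by
    have : 0 < (c + s) * K := by linarith
    exact (pos_iff_pos_of_mul_pos this).1 (by linarith)
  obtain ⟨L, hL⟩ : ∃ L, L = c - s + t * (c + s) := ⟨_, rfl⟩
  have hL0 : 0 ≤ L := by
    have := mul_pos ht0 (show 0 < c + s by linarith)
    linarith
  have a1 : L * (y - t * (2 + x)) ≤ 0 := mul_nonpos_of_nonneg_of_nonpos hL0 (by linarith)
  have a2 : s * (1 + t ^ 2) * (x + y - 1) ≤ 0 :=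
    mul_nonpos_of_nonneg_of_nonpos (by positivity) (by linarith)
  have a3 : (c + s) * L ≤ 1 + t := by
    have b1 : (c + s) * L = 1 + t - 2 * s * (s - t * c) := by
      rw [hL]
      linear_combination (1 + t) * hcs
    have b3 : t * c ≤ t := mul_le_of_le_one_right ht0.le hc1
    have b2 : 0 ≤ s * (s - t * c) := mul_nonneg hs0.le (by linarith)
    linarith
  have a4 : 3 * t * L ≤ (1 + t) * K := by
    rw [ht]
    nlinarith [mul_le_mul_of_nonneg_right a3 hK0.le]
  have a5 : (1 + t) * ((c + t * s) * y + (s - t * c) * (x - 1)) =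
      L * (y - t * (2 + x)) + s * (1 + t ^ 2) * (x + y - 1) + 3 * t * L := by
    rw [hL]
    ring
  have a6 : (c + t * s) * y + (s - t * c) * (x - 1) ≤ K :=
    le_of_mul_le_mul_left (by linarith) (show 0 < 1 + t by linarith)
  linarith

end LsurT

open LsurT in
theorem sLsurT : SLsurT := by
  intro u t c s β h q hq hW
  obtain ⟨hcs, hc0, hc1, hus, hs1, ht0, htu, hβ0, hK⟩ := facts h
  have hu0 := h.u0
  have hu1 := h.u1
  obtain ⟨U, V, W⟩ := q
  obtain ⟨⟨hU0, hU1⟩, ⟨hV0, hV1⟩, -, -⟩ := hq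
  dsimp only at hU0 hU1 hV0 hV1 hW
  subst hW
  obtain ⟨x, y, rfl, rfl⟩ : ∃ x y, U = x + y ∧ V = x - y :=
    ⟨(U + V) / 2, (U - V) / 2, by ring, by ring⟩
  have hx0 : 0 ≤ t * (1 + x) := mul_nonneg ht0.le (by linarith)
  have hx1 : 0 ≤ t * (1 - x) := mul_nonneg ht0.le (by linarith)
  have hy0 : 0 ≤ t * (1 + y) := mul_nonneg ht0.le (by linarith)
  have hy1 : 0 ≤ t * (1 - y) := mul_nonneg ht0.le (by linarith)
  rcases le_total (t * (2 + x)) y with h1 | h1
  · rcases le_total (t * (2 - y)) x with h2 | h2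
    · refine ⟨(4 - (x + y), x - y), ⟨?_, ?_, ?_, ?_⟩, ?_⟩
      · dsimp only; linarith
      · dsimp only; linarith
      · dsimp only; linarith
      · dsimp only; linarith
      · rw [ff_low u c s _ _ hV1, psiTN _ _ hU1 hV0 hV1]
    · refine ⟨(x + y, -4 - (x - y)), ⟨?_, ?_, ?_, ?_⟩, ?_⟩
      · dsimp only; linarith
      · dsimp only; linarith
      · dsimp only; linarith
      · dsimp only; linarith
      · rw [ff_low u c s _ _ (by linarith), psiTW _ _ hU0 hU1 hV0]
  · rcases le_total x (2 * β - t * (2 + y)) with h2 | h2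
    · refine ⟨(-4 - (x + y), x - y), ⟨?_, ?_, ?_, ?_⟩, ?_⟩
      · dsimp only; linarith
      · dsimp only; linarith
      · dsimp only; linarith
      · dsimp only; linarith
      · rw [ff_low u c s _ _ hV1, psiTS _ _ hU0 hV0 hV1]
    · obtain ⟨a, ha⟩ : ∃ a, a = c * (1 + x + y) - s * (3 - x + y) := ⟨_, rfl⟩
      obtain ⟨b, hb⟩ : ∃ b, b = c * (3 - x + y) + s * (1 + x + y) := ⟨_, rfl⟩
      have hs0 : 0 < s := by linarith
      have k1 : 0 ≤ c * (1 + x + y) := mul_nonneg (by linarith) (by linarith)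
      have k2 : 0 ≤ (1 - c) * (1 + x + y) := mul_nonneg (by linarith) (by linarith)
      have k3 : 0 ≤ s * (3 - x + y) := mul_nonneg hs0.le (by linarith)
      have k4 : 0 ≤ s * (1 + x - y) := mul_nonneg hs0.le (by linarith)
      have k5 : 0 ≤ (c - 99 / 100) * (3 - x + y) := mul_nonneg (by linarith) (by linarith)
      have k6 : 0 ≤ (1 - c) * (3 - x + y) := mul_nonneg (by linarith) (by linarith)
      have k7 : 0 ≤ s * (1 + x + y) := mul_nonneg hs0.le (by linarith)
      have k8 : 0 ≤ s * (1 - x - y) := mul_nonneg hs0.le (by linarith)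
      have ha0 : -1 / 100 ≤ a := by rw [ha]; linarith
      have ha1 : a ≤ 2 := by rw [ha]; linarith
      have hb0 : 19 / 10 ≤ b := by rw [hb]; linarith
      have hb1 : b ≤ 5 := by rw [hb]; linarith
      have hta0 : 0 ≤ t * (a + 1) := mul_nonneg ht0.le (by linarith)
      have hta1 : 0 ≤ t * (2 - a) := mul_nonneg ht0.le (by linarith)
      have htb0 : 0 ≤ t * b := mul_nonneg ht0.le (by linarith)
      have htb1 : 0 ≤ t * (5 - b) := mul_nonneg ht0.le (by linarith)
      have hua : 0 ≤ u * (2 - a) := mul_nonneg hu0.le (by linarith)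
      have hub : 0 ≤ u * b := mul_nonneg hu0.le (by linarith)
      have hw := wall hcs hc0 hc1 hs1 ht0 (by linarith) h.ht h1 hU1
      have g1 : 0 ≤ c * (x - 2 * β + t * (2 + y)) := mul_nonneg (by linarith) (by linarith)
      have g2 : 0 ≤ s * (t * (2 + x) - y) := mul_nonneg hs0.le (by linarith)
      refine ⟨(a - 1, b + 1), ⟨?_, ?_, ?_, ?_⟩, ?_⟩
      · dsimp only; linarith
      · dsimp only; rw [ha, hb]; linarith
      · dsimp only; rw [ha, hb]; linarith
      · dsimp only; linarith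
      · rw [ff_rot u c s a b (by linarith) (by linarith) (by linarith)]
        have e1 : c * a + s * b - 1 = x + y := by
          rw [ha, hb]; linear_combination (1 + x + y) * hcs
        have e2 : c * b - s * a + 1 = 4 - (x - y) := by
          rw [ha, hb]; linear_combination (3 - x + y) * hcs
        rw [e1, e2, psiTE _ _ hU0 hU1 hV1]

end Pool.Agent.P.MP_dba4bb_co.Ex
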