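import Pool.Agent.P.MP_dba4bb_co.Ex.S1
import Pool.Agent.P.MP_3c7b76_co.G.PM

/-! Symmetric covers, and the two arms that touch on the top face. -/

namespace Pool.Agent.P.MP_dba4bb_co.Ex

open Set Metric

namespace NSP

variable {ε η k a b : ℝ} {F : P2 → P3}

theorem cx_flip (P : P2) : cx (flip F P) = -cx (F (-P.1, P.2)) := by unfold cx flip; ring
theorem cy_flip (P : P2) : cy (flip F P) = cy (F (-P.1, P.2)) := by unfold cy flip; ring
theorem cz_flip (P : P2) : cz (flip F P) = cz (F (-P.1, P.2)) := rfl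
theorem cx_rot (P : P2) : cx (rot F P) = -cx (F (-P.1, -P.2)) := by unfold cx rot; ring
theorem cy_rot (P : P2) : cy (rot F P) = -cy (F (-P.1, -P.2)) := by unfold cy rot; ring
theorem cz_rot (P : P2) : cz (rot F P) = cz (F (-P.1, -P.2)) := rfl

theorem e2_flip (X Y x y z : ℝ) :
    e2 (flip F (X, Y)) (cp x y z) = e2 (F (-X, Y)) (cp (-x) y z) := by
  unfold e2 flip cp; ring

theorem e2_rot (X Y x y z : ℝ) :
    e2 (rot F (X, Y)) (cp x y z) = e2 (F (-X, -Y)) (cp (-x) (-y) z) := by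
  unfold e2 rot cp; ring

theorem e2_self (p : P3) : e2 p p = 0 := by unfold e2; ring

theorem flip_iff {P : P2} {x y z : ℝ} : flip F P = cp x y z ↔ F (-P.1, P.2) = cp (-x) y z :=
  ⟨fun h => e2_eq_zero (by rw [← e2_flip, Prod.mk.eta, h, e2_self]),
    fun h => e2_eq_zero (by rw [← Prod.mk.eta (p := P), e2_flip, h, e2_self])⟩

theorem rot_iff {P : P2} {x y z : ℝ} : rot F P = cp x y z ↔ F (-P.1, -P.2) = cp (-x) (-y) z :=
  ⟨fun h => e2_eq_zero (by rw [← e2_rot, Prod.mk.eta, h, e2_self]),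
    fun h => e2_eq_zero (by rw [← Prod.mk.eta (p := P), e2_rot, h, e2_self])⟩

theorem ab {x y e : ℝ} (h : |x| ≤ e) (hxy : y = -x) : |y| ≤ e := by rwa [hxy, abs_neg]
theorem ab' {x y e : ℝ} (h : |x| ≤ e) (hxy : y = x) : |y| ≤ e := by rwa [hxy]

theorem near_flip (h : Near ε η F) : Near ε η (flip F) where
  tN P h1 h2 h3 h4 h5 := by
    have := h.tW (-P.1, P.2) (by simpa) (by simp only; linarith) h3 h4 h5
    rw [cx_flip, cy_flip]
    exact ⟨ab this.1 (by ring), ab' this.2 (by ring)⟩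
  tW P h1 h2 h3 h4 h5 := by
    have := h.tN (-P.1, P.2) (by simpa) (by simp only; linarith) h3 h4 h5
    rw [cx_flip, cy_flip]
    exact ⟨ab this.1 (by ring), ab' this.2 (by ring)⟩
  tS P h1 h2 h3 h4 h5 := by
    have := h.tE (-P.1, P.2) (by simpa) (by simp only; linarith) h3 h4 h5
    rw [cx_flip, cy_flip]
    exact ⟨ab this.1 (by ring), ab' this.2 (by ring)⟩
  tE P h1 h2 h3 h4 h5 := by
    have := h.tS (-P.1, P.2) (by simpa) (by simp only; linarith) h3 h4 h5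
    rw [cx_flip, cy_flip]
    exact ⟨ab this.1 (by ring), ab' this.2 (by ring)⟩
  w1 P h1 h2 h3 := by
    have := h.w3 (-P.1, P.2) (by simpa) h2 (flip_iff.1 h3)
    exact ⟨ab this.1 (by ring), this.2⟩
  w2 P h1 h2 h3 := by
    have := h.w2 (-P.1, P.2) (by simpa) h2 (by simpa using flip_iff.1 h3)
    exact ⟨ab this.1 (by ring), this.2⟩
  w3 P h1 h2 h3 := by
    have := h.w1 (-P.1, P.2) (by simpa) h2 (by simpa using flip_iff.1 h3)
    exact ⟨ab this.1 (by ring), this.2⟩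
  w4 P h1 h2 h3 := by
    have := h.w4 (-P.1, P.2) (by simpa) h2 (by simpa using flip_iff.1 h3)
    exact ⟨ab this.1 (by ring), this.2⟩
  sN s z h1 h2 h3 h4 := by
    rw [e2_flip, show -(s + z) = -s - z by ring]; exact h.sW s z h1 h2 h3 h4
  sW s z h1 h2 h3 h4 := by
    rw [e2_flip, show -(-s - z) = s + z by ring, neg_neg]; exact h.sN s z h1 h2 h3 h4
  sS s z h1 h2 h3 h4 := by
    rw [e2_flip, show -(-s - z) = s + z by ring, neg_neg]; exact h.sE s z h1 h2 h3 h4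
  sE s z h1 h2 h3 h4 := by
    rw [e2_flip, show -(s + z) = -s - z by ring]; exact h.sS s z h1 h2 h3 h4

theorem near_rot (h : Near ε η F) : Near ε η (rot F) where
  tN P h1 h2 h3 h4 h5 := by
    have := h.tS (-P.1, -P.2) (by simpa) (by simp only; linarith) (by simpa)
      (by simp only; linarith) h5
    rw [cx_rot, cy_rot]
    exact ⟨ab this.1 (by ring), ab this.2 (by ring)⟩
  tW P h1 h2 h3 h4 h5 := by
    have := h.tE (-P.1, -P.2) (by simpa) (by simp only; linarith) (by simpa)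
      (by simp only; linarith) h5
    rw [cx_rot, cy_rot]
    exact ⟨ab this.1 (by ring), ab this.2 (by ring)⟩
  tS P h1 h2 h3 h4 h5 := by
    have := h.tN (-P.1, -P.2) (by simpa) (by simp only; linarith) (by simpa)
      (by simp only; linarith) h5
    rw [cx_rot, cy_rot]
    exact ⟨ab this.1 (by ring), ab this.2 (by ring)⟩
  tE P h1 h2 h3 h4 h5 := by
    have := h.tW (-P.1, -P.2) (by simpa) (by simp only; linarith) (by simpa)
      (by simp only; linarith) h5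
    rw [cx_rot, cy_rot]
    exact ⟨ab this.1 (by ring), ab this.2 (by ring)⟩
  w1 P h1 h2 h3 := by
    have := h.w3 (-P.1, -P.2) (by simpa) (by simpa) (by simpa using rot_iff.1 h3)
    exact ⟨ab this.1 (by ring), ab this.2 (by ring)⟩
  w2 P h1 h2 h3 := by
    have := h.w4 (-P.1, -P.2) (by simpa) (by simpa) (by simpa using rot_iff.1 h3)
    exact ⟨ab this.1 (by ring), ab this.2 (by ring)⟩
  w3 P h1 h2 h3 := by
    have := h.w1 (-P.1, -P.2) (by simpa) (by simpa) (by simpa using rot_iff.1 h3)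
    exact ⟨ab this.1 (by ring), ab this.2 (by ring)⟩
  w4 P h1 h2 h3 := by
    have := h.w2 (-P.1, -P.2) (by simpa) (by simpa) (by simpa using rot_iff.1 h3)
    exact ⟨ab this.1 (by ring), ab this.2 (by ring)⟩
  sN s z h1 h2 h3 h4 := by
    rw [e2_rot, show -(s + z) = -s - z by ring, show -(1 - s + z) = -(1 - s) - z by ring]
    exact h.sS s z h1 h2 h3 h4
  sW s z h1 h2 h3 h4 := by
    rw [e2_rot, show -(-s - z) = s + z by ring, show -(1 - s + z) = -(1 - s) - z by ring, neg_neg]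
    exact h.sE s z h1 h2 h3 h4
  sS s z h1 h2 h3 h4 := by
    rw [e2_rot, show -(-s - z) = s + z by ring, show -(-(1 - s) - z) = 1 - s + z by ring, neg_neg,
      neg_neg]
    exact h.sN s z h1 h2 h3 h4
  sE s z h1 h2 h3 h4 := by
    rw [e2_rot, show -(s + z) = -s - z by ring, show -(-(1 - s) - z) = 1 - s + z by ring, neg_neg]
    exact h.sW s z h1 h2 h3 h4

variable {x y z : ℝ}

theorem rN : cp x y z ∈ QN a b (rot F) ↔ cp (-x) (-y) z ∈ QS a b F :=
  ⟨fun ⟨P, h1, h2, h3, h4, h5⟩ => ⟨(-P.1, -P.2), by simpa, by simpa, by simpa, by simpa,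
      rot_iff.1 h5⟩,
    fun ⟨P, h1, h2, h3, h4, h5⟩ => ⟨(-P.1, -P.2), by simpa, by simp only; linarith, by simpa,
      by simp only; linarith, rot_iff.2 (by simpa)⟩⟩

theorem rW : cp x y z ∈ QW a b (rot F) ↔ cp (-x) (-y) z ∈ QE a b F :=
  ⟨fun ⟨P, h1, h2, h3, h4, h5⟩ => ⟨(-P.1, -P.2), by simpa, by simp only; linarith, by simpa,
      by simpa, rot_iff.1 h5⟩,
    fun ⟨P, h1, h2, h3, h4, h5⟩ => ⟨(-P.1, -P.2), by simpa, by simpa, by simpa,
      by simp only; linarith, rot_iff.2 (by simpa)⟩⟩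

theorem rS : cp x y z ∈ QS a b (rot F) ↔ cp (-x) (-y) z ∈ QN a b F :=
  ⟨fun ⟨P, h1, h2, h3, h4, h5⟩ => ⟨(-P.1, -P.2), by simpa, by simp only; linarith, by simpa,
      by simp only; linarith, rot_iff.1 h5⟩,
    fun ⟨P, h1, h2, h3, h4, h5⟩ => ⟨(-P.1, -P.2), by simpa, by simpa, by simpa, by simpa,
      rot_iff.2 (by simpa)⟩⟩

theorem rE : cp x y z ∈ QE a b (rot F) ↔ cp (-x) (-y) z ∈ QW a b F :=
  ⟨fun ⟨P, h1, h2, h3, h4, h5⟩ => ⟨(-P.1, -P.2), by simpa, by simpa, by simpa,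
      by simp only; linarith, rot_iff.1 h5⟩,
    fun ⟨P, h1, h2, h3, h4, h5⟩ => ⟨(-P.1, -P.2), by simpa, by simp only; linarith, by simpa,
      by simpa, rot_iff.2 (by simpa)⟩⟩

theorem fN (h : cp x y z ∈ QW a b F) : cp (-x) y z ∈ QN a b (flip F) :=
  let ⟨P, h1, h2, h3, h4, h5⟩ := h
  ⟨(-P.1, P.2), by simpa, by simp only; linarith, h3, h4, flip_iff.2 (by simpa)⟩

theorem fW (h : cp x y z ∈ QN a b F) : cp (-x) y z ∈ QW a b (flip F) :=
  let ⟨P, h1, h2, h3, h4, h5⟩ := h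
  ⟨(-P.1, P.2), by simpa, by simpa, h3, h4, flip_iff.2 (by simpa)⟩

theorem fS (h : cp x y z ∈ QE a b F) : cp (-x) y z ∈ QS a b (flip F) :=
  let ⟨P, h1, h2, h3, h4, h5⟩ := h
  ⟨(-P.1, P.2), by simpa, by simpa, h3, h4, flip_iff.2 (by simpa)⟩

theorem fE (h : cp x y z ∈ QS a b F) : cp (-x) y z ∈ QE a b (flip F) :=
  let ⟨P, h1, h2, h3, h4, h5⟩ := h
  ⟨(-P.1, P.2), by simpa, by simp only; linarith, h3, h4, flip_iff.2 (by simpa)⟩

/-- four closed sets that cover a square, each near its own quarter -/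
structure Four (e : ℝ) (N W S E : Set P2) : Prop where
  cN : IsClosed N
  cW : IsClosed W
  cS : IsClosed S
  cE : IsClosed E
  cov : ∀ p : P2, |p.1| ≤ 1 / 4 → |p.2| ≤ 1 / 4 → p ∈ N ∨ p ∈ W ∨ p ∈ S ∨ p ∈ E
  sN : ∀ p ∈ N, -e ≤ p.1 ∧ -e ≤ p.2
  sW : ∀ p ∈ W, p.1 ≤ e ∧ -e ≤ p.2
  sS : ∀ p ∈ S, p.1 ≤ e ∧ p.2 ≤ e
  sE : ∀ p ∈ E, -e ≤ p.1 ∧ p.2 ≤ e

/-- the quarter turn -/
def qt (p : P2) : P2 := (-p.2, p.1)

theorem Four.turn {e : ℝ} {N W S E : Set P2} (h : Four e N W S E) :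
    Four e (qt ⁻¹' W) (qt ⁻¹' S) (qt ⁻¹' E) (qt ⁻¹' N) := by
  have c : Continuous qt := by unfold qt; fun_prop
  refine ⟨h.cW.preimage c, h.cS.preimage c, h.cE.preimage c, h.cN.preimage c,
    fun p h1 h2 => ?_, fun p hp => ?_, fun p hp => ?_, fun p hp => ?_, fun p hp => ?_⟩
  · have := h.cov (qt p) (by simpa [qt] using h2) h1
    simp only [mem_preimage]; tauto
  · have := h.sW _ hp; simp only [qt] at this; constructor <;> linarith [this.1, this.2]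
  · have := h.sS _ hp; simp only [qt] at this; constructor <;> linarith [this.1, this.2]
  · have := h.sE _ hp; simp only [qt] at this; constructor <;> linarith [this.1, this.2]
  · have := h.sN _ hp; simp only [qt] at this; constructor <;> linarith [this.1, this.2]

theorem both {A B : Set P2} (hA : IsClosed A) (hB : IsClosed B) (nA : A.Nonempty)
    (nB : B.Nonempty) {p : P2} (h : infDist p A - infDist p B = 0) (hp : p ∈ A ∨ p ∈ B) :
    p ∈ A ∧ p ∈ B := by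
  rw [hA.mem_iff_infDist_zero nA, hB.mem_iff_infDist_zero nB] at *
  rcases hp with hp | hp <;> constructor <;> linarith

theorem Four.kkm {e : ℝ} {N W S E : Set P2} (h : Four e N W S E) (he : e < 1 / 4) :
    (∃ p, p ∈ N ∧ p ∈ W ∧ p ∈ S) ∨ ∃ p, p ∈ N ∧ p ∈ W ∧ p ∈ E := by
  let L : Set P2 := {p | p.1 = -1 / 4}
  let R : Set P2 := {p | p.1 = 1 / 4}
  have cL : IsClosed L := isClosed_eq continuous_fst continuous_const
  have cR : IsClosed R := isClosed_eq continuous_fst continuous_const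
  let ι : (Fin 2 → ℝ) → P2 := fun v => (v 0, v 1)
  have cι : Continuous ι := by fun_prop
  have cd : ∀ A : Set P2, Continuous fun v => infDist (ι v) A := fun A =>
    (continuous_infDist_pt A).comp cι
  have cov : ∀ v : Fin 2 → ℝ, (∀ i, -1 / 4 ≤ v i ∧ v i ≤ 1 / 4) →
      ι v ∈ N ∪ W ∨ ι v ∈ S ∪ E := fun v hv => by
    have := h.cov (ι v) (abs_le.2 ⟨by linarith [(hv 0).1], (hv 0).2⟩)
      (abs_le.2 ⟨by linarith [(hv 1).1], (hv 1).2⟩)
    simp only [mem_union]; tauto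
  have top : ∀ v : Fin 2 → ℝ, (∀ i, -1 / 4 ≤ v i ∧ v i ≤ 1 / 4) → v 1 = 1 / 4 → ι v ∈ N ∪ W :=
    fun v hv e1 => (cov v hv).resolve_right fun c => by
      have : v 1 ≤ e := c.elim (fun c => (h.sS _ c).2) fun c => (h.sE _ c).2
      linarith
  have bot : ∀ v : Fin 2 → ℝ, (∀ i, -1 / 4 ≤ v i ∧ v i ≤ 1 / 4) → v 1 = -1 / 4 → ι v ∈ S ∪ E :=
    fun v hv e1 => (cov v hv).resolve_left fun c => by
      have : -e ≤ v 1 := c.elim (fun c => (h.sN _ c).2) fun c => (h.sW _ c).2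
      linarith
  obtain ⟨v, hv, hz⟩ := MP_3c7b76_co.G.miranda (fun _ : Fin 2 => -1 / 4) (fun _ => 1 / 4)
    (fun _ => by norm_num)
    (fun v => ![infDist (ι v) (W ∪ L) - infDist (ι v) (N ∪ R),
      infDist (ι v) (S ∪ E) - infDist (ι v) (N ∪ W)])
    (continuous_pi fun i => by fin_cases i <;> exact (cd _).sub (cd _))
    (fun v hv i hi => by
      fin_cases i
      · have : infDist (ι v) (W ∪ L) = 0 := infDist_zero_of_mem (.inr hi)
        simpa [this] using infDist_nonneg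
      · have : infDist (ι v) (S ∪ E) = 0 := infDist_zero_of_mem (bot v hv hi)
        simpa [this] using infDist_nonneg)
    (fun v hv i hi => by
      fin_cases i
      · have : infDist (ι v) (N ∪ R) = 0 := infDist_zero_of_mem (.inr hi)
        simpa [this] using infDist_nonneg
      · have : infDist (ι v) (N ∪ W) = 0 := infDist_zero_of_mem (top v hv hi)
        simpa [this] using infDist_nonneg)
  obtain ⟨h1, h2⟩ := both (h.cS.union h.cE) (h.cN.union h.cW)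
    ⟨_, bot (fun _ => -1 / 4) (fun _ => by norm_num) rfl⟩
    ⟨_, top (fun _ => 1 / 4) (fun _ => by norm_num) rfl⟩ (hz 1) (cov v hv).symm
  obtain ⟨h3, h4⟩ := both (h.cW.union cL) (h.cN.union cR) ⟨(-1 / 4, 0), .inr rfl⟩
    ⟨(1 / 4, 0), .inr rfl⟩ (hz 0) (h2.elim (fun c => .inr (.inl c)) fun c => .inl (.inl c))
  have hW : ι v ∈ W := h3.resolve_right fun c => by
    have c : (ι v).1 = -1 / 4 := c
    rcases h4 with d | d
    · linarith [(h.sN _ d).1]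
    · have d : (ι v).1 = 1 / 4 := d
      linarith
  have hN : ι v ∈ N := h4.resolve_right fun c => by
    have c : (ι v).1 = 1 / 4 := c
    linarith [(h.sW _ hW).1]
  exact h1.imp (fun c => ⟨_, hN, hW, c⟩) fun c => ⟨_, hN, hW, c⟩

theorem Four.two {e : ℝ} {N W S E : Set P2} (h : Four e N W S E) (he : e < 1 / 4) :
    ((∃ p, p ∈ N ∧ p ∈ W ∧ p ∈ S) ∧ ∃ p, p ∈ N ∧ p ∈ S ∧ p ∈ E) ∨
      ((∃ p, p ∈ W ∧ p ∈ N ∧ p ∈ E) ∧ ∃ p, p ∈ W ∧ p ∈ E ∧ p ∈ S) := by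
  have k1 : (∃ p, p ∈ N ∧ p ∈ W ∧ p ∈ S) ∨ ∃ p, p ∈ W ∧ p ∈ N ∧ p ∈ E :=
    (h.kkm he).imp id fun ⟨p, a, b, c⟩ => ⟨p, b, a, c⟩
  have k2 : (∃ p, p ∈ W ∧ p ∈ E ∧ p ∈ S) ∨ ∃ p, p ∈ N ∧ p ∈ W ∧ p ∈ S :=
    (h.turn.kkm he).imp (fun ⟨p, a, b, c⟩ => ⟨_, a, c, b⟩) fun ⟨p, a, b, c⟩ => ⟨_, c, a, b⟩
  have k3 : (∃ p, p ∈ N ∧ p ∈ S ∧ p ∈ E) ∨ ∃ p, p ∈ W ∧ p ∈ E ∧ p ∈ S :=
    (h.turn.turn.kkm he).imp (fun ⟨p, a, b, c⟩ => ⟨_, c, a, b⟩) fun ⟨p, a, b, c⟩ => ⟨_, c, b, a⟩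
  have k4 : (∃ p, p ∈ W ∧ p ∈ N ∧ p ∈ E) ∨ ∃ p, p ∈ N ∧ p ∈ S ∧ p ∈ E :=
    (h.turn.turn.turn.kkm he).imp (fun ⟨p, a, b, c⟩ => ⟨_, c, b, a⟩)
      fun ⟨p, a, b, c⟩ => ⟨_, b, c, a⟩
  rcases k1 with a | a
  · rcases k3 with c | c
    · exact .inl ⟨a, c⟩
    · exact k4.elim (fun d => .inr ⟨d, c⟩) fun d => .inl ⟨a, d⟩
  · rcases k2 with c | c
    · exact .inr ⟨a, c⟩
    · exact k3.elim (fun d => .inl ⟨c, d⟩) fun d => .inr ⟨a, d⟩

theorem closed_box (h : Cover k a b F) (l1 u1 l2 u2 : ℝ) {Q : Set P3}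
    (hQ : ∀ q, q ∈ Q ↔ ∃ P : P2, l1 ≤ P.1 ∧ P.1 ≤ u1 ∧ l2 ≤ P.2 ∧ P.2 ≤ u2 ∧ F P = q) :
    IsClosed {p : P2 | cp p.1 p.2 1 ∈ Q} := by
  have e : Q = F '' (Icc l1 u1 ×ˢ Icc l2 u2) := by
    ext q
    simp only [hQ, mem_image, mem_prod, mem_Icc, and_assoc]
  have c : Continuous fun p : P2 => cp p.1 p.2 1 := by unfold cp; fun_prop
  exact (e ▸ ((isCompact_Icc.prod isCompact_Icc).image h.cont).isClosed).preimage c

theorem four (h : Ok ε η k a b F) : Four (2 * ε) {p | cp p.1 p.2 1 ∈ QN a b F}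
    {p | cp p.1 p.2 1 ∈ QW a b F} {p | cp p.1 p.2 1 ∈ QS a b F} {p | cp p.1 p.2 1 ∈ QE a b F} := by
  have h0 := h.η0
  have h1 := h.ηε
  have h2 := h.a2
  have h3 := h.b2
  refine ⟨closed_box h.cov 0 a 0 b fun q => Iff.rfl,
    closed_box h.cov (-a) 0 0 b fun q => exists_congr fun P => by tauto,
    closed_box h.cov (-a) 0 (-b) 0 fun q => exists_congr fun P => by tauto,
    closed_box h.cov 0 a (-b) 0 fun q => exists_congr fun P => by tauto,
    fun p p1 p2 => ?_, ?_, ?_, ?_, ?_⟩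
  · rw [abs_le] at p1 p2
    obtain ⟨P, a1, a2, e⟩ := h.cov.surj _ (top_mem (x := p.1) (y := p.2) (by linarith)
      (by linarith) (by linarith) (by linarith))
    rw [abs_le] at a1 a2
    rcases le_total 0 P.1 with c | c <;> rcases le_total 0 P.2 with d | d
    exacts [.inl ⟨P, c, a1.2, d, a2.2, e⟩, .inr (.inr (.inr ⟨P, c, a1.2, d, a2.1, e⟩)),
      .inr (.inl ⟨P, c, a1.1, d, a2.2, e⟩), .inr (.inr (.inl ⟨P, c, a1.1, d, a2.1, e⟩))]
  · rintro p ⟨P, a1, a2, a3, a4, e⟩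
    have := h.near.tN P a1 (by linarith) a3 (by linarith) (by rw [e, cz_cp]; linarith)
    rw [e, cx_cp, cy_cp, abs_le, abs_le] at this
    constructor <;> linarith [this.1.1, this.1.2, this.2.1, this.2.2]
  · rintro p ⟨P, a1, a2, a3, a4, e⟩
    have := h.near.tW P a1 (by linarith) a3 (by linarith) (by rw [e, cz_cp]; linarith)
    rw [e, cx_cp, cy_cp, abs_le, abs_le] at this
    constructor <;> linarith [this.1.1, this.1.2, this.2.1, this.2.2]
  · rintro p ⟨P, a1, a2, a3, a4, e⟩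
    have := h.near.tS P a1 (by linarith) a3 (by linarith) (by rw [e, cz_cp]; linarith)
    rw [e, cx_cp, cy_cp, abs_le, abs_le] at this
    constructor <;> linarith [this.1.1, this.1.2, this.2.1, this.2.2]
  · rintro p ⟨P, a1, a2, a3, a4, e⟩
    have := h.near.tE P a1 (by linarith) a3 (by linarith) (by rw [e, cz_cp]; linarith)
    rw [e, cx_cp, cy_cp, abs_le, abs_le] at this
    constructor <;> linarith [this.1.1, this.1.2, this.2.1, this.2.2]

end NSP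

open NSP

theorem sSymm : SSymm := by
  intro ε η k a b F
  refine ⟨fun h => ⟨{ h with cov := h.cov.flip, near := near_flip h.near },
    { h with cov := h.cov.rot, near := near_rot h.near }⟩, ?_, ?_⟩
  · rintro ⟨⟨x, y, h1, h2, h3⟩, x', y', h4, h5, h6⟩
    exact ⟨⟨-x', -y', rN.2 (by simpa), rW.2 (by simpa), rS.2 (by simpa)⟩,
      -x, -y, rN.2 (by simpa), rS.2 (by simpa), rE.2 (by simpa)⟩
  · rintro σ ⟨p2, p4, A, B, C, D, h1, h3, ⟨a1, a2, a3⟩, ⟨b1, b2, b3⟩, ⟨c1, c2, c3, c4, c5⟩,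
      ⟨d1, d2, d3, d4, d5⟩, ⟨e1, e2, e3, e4, e5⟩, ⟨f1, f2, f3, f4, f5⟩, q1, q3, rfl⟩
    refine ⟨(-p4.1, -p4.2), (-p2.1, -p2.2), (-D.1, -D.2), (-C.1, -C.2), (-B.1, -B.2), (-A.1, -A.2),
      -h3, -h1, ⟨by simpa, by simpa, rot_iff.2 (by simpa)⟩,
      ⟨by simpa, by simpa, rot_iff.2 (by simpa)⟩,
      ⟨by simpa, by simp only; linarith, by simpa, by simp only; linarith, rot_iff.2 ?_⟩,
      ⟨by simpa, by simp only; linarith, by simpa, by simpa, rot_iff.2 ?_⟩,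
      ⟨by simpa, by simpa, by simpa, by simp only; linarith, rot_iff.2 ?_⟩,
      ⟨by simpa, by simpa, by simpa, by simpa, rot_iff.2 ?_⟩,
      q3.imp (by simp) fun c ⟨h, u1, u2, u3, u4⟩ => c ⟨-h, by linarith, by linarith, ?_, ?_⟩,
      q1.imp (by simp) fun c ⟨h, u1, u2, u3, u4⟩ => c ⟨-h, by linarith, by linarith, ?_, ?_⟩,
      by simp only; ring⟩
    · simp only [neg_neg, abs_neg, Prod.mk.eta, f5, show -(1 - |h3|) = -1 + |h3| by ring]
    · simp only [neg_neg, abs_neg, Prod.mk.eta, e5, show -(1 - |h3|) = -1 + |h3| by ring]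
    · simp only [neg_neg, abs_neg, Prod.mk.eta, d5, show -(-1 + |h1|) = 1 - |h1| by ring]
    · simp only [neg_neg, abs_neg, Prod.mk.eta, c5, show -(-1 + |h1|) = 1 - |h1| by ring]
    · simpa only [neg_add] using rE.1 u4
    · simpa only [neg_add] using rN.1 u3
    · simpa only [neg_add, neg_neg] using rS.1 u4
    · simpa only [neg_add, neg_neg] using rW.1 u3

theorem sNS : SNS := by
  intro ε η k a b F h
  rcases (four h).two (by linarith [h.ε1]) with ⟨⟨p, hp⟩, q, hq⟩ | ⟨⟨p, hp⟩, q, hq⟩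
  · exact .inl ⟨⟨_, _, hp⟩, _, _, hq⟩
  · exact .inr ⟨⟨_, _, fN hp.1, fW hp.2.1, fS hp.2.2⟩, _, _, fN hq.1, fS hq.2.1, fE hq.2.2⟩

end Pool.Agent.P.MP_dba4bb_co.Ex
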