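import Pool.Agent.P.MP_dba4bb_co.Ex.S1

/-! The parameters of the optimal configuration, and the range of the ratio. -/

namespace Pool.Agent.P.MP_dba4bb_co.Ex

open Set

namespace ParP

theorem den {u : ℝ} (h0 : 0 ≤ u) (h1 : u ≤ 1 / 1000) :
    0 < 4 + 7 * u + 7 * u ^ 2 + 3 * u ^ 3 - u ^ 4 := by
  have : u ^ 4 ≤ 1 := pow_le_one₀ h0 (by linarith)
  have := pow_nonneg h0 2
  have := pow_nonneg h0 3
  linarith

theorem step {u : ℝ} (h0 : 0 ≤ u) (h1 : u ≤ 1 / 1000) (k : ℕ) :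
    0 ≤ u ^ (k + 1) ∧ u ^ (k + 1) ≤ u ^ k / 1000 := by
  refine ⟨pow_nonneg h0 _, ?_⟩
  rw [pow_succ]
  nlinarith [pow_nonneg h0 k]

theorem tt_bd {u : ℝ} (h0 : 0 ≤ u) (h1 : u ≤ 1 / 1000) :
    u ^ 2 / 2 + u ^ 3 / 8 - 2 * u ^ 4 ≤ tt u ∧ tt u ≤ u ^ 2 / 2 + u ^ 3 / 8 := by
  have a4 := step h0 h1 3
  have a5 := step h0 h1 4
  have a6 := step h0 h1 5
  have a7 := step h0 h1 6
  have a8 := step h0 h1 7
  norm_num only at a4 a5 a6 a7 a8
  unfold tt
  rw [le_div_iff₀ (den h0 h1), div_le_iff₀ (den h0 h1)]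
  constructor <;> linarith [a4.1, a4.2, a5.1, a5.2, a6.1, a6.2, a7.1, a7.2, a8.1, a8.2]

theorem key {u c s : ℝ} (h0 : 0 ≤ u) (h1 : u ≤ 1 / 1000) (hc : c = (1 - u ^ 2) / (1 + u ^ 2))
    (hs : s = 2 * u / (1 + u ^ 2)) :
    3 * tt u = (c + s) * (2 - 5 * tt u - 2 * c - 2 * tt u * s) := by
  have e : tt u * (4 + 7 * u + 7 * u ^ 2 + 3 * u ^ 3 - u ^ 4) = 2 * u ^ 2 * (1 + 2 * u - u ^ 2) :=
    div_mul_cancel₀ _ (den h0 h1).ne'
  have p : (1 + u ^ 2) ≠ 0 := by positivity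
  generalize tt u = t at e ⊢
  subst hc hs
  field_simp
  linear_combination 2 * e

end ParP

open ParP

theorem sPar : SPar := by
  intro u u0 u1
  have h1 : u ≤ 1 / 1000 := u1.trans (by norm_num)
  obtain ⟨tl, tu⟩ := tt_bd u0.le h1
  have p : 0 < 1 + u ^ 2 := by positivity
  have k := key u0.le h1 rfl rfl
  have hc : (1 - u ^ 2) / (1 + u ^ 2) * (1 + u ^ 2) = 1 - u ^ 2 := div_mul_cancel₀ _ p.ne'
  have hs : 2 * u / (1 + u ^ 2) * (1 + u ^ 2) = 2 * u := div_mul_cancel₀ _ p.ne'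
  have cs : ((1 - u ^ 2) / (1 + u ^ 2)) ^ 2 + (2 * u / (1 + u ^ 2)) ^ 2 = 1 := by
    field_simp
    ring
  have e3 : 2 * bb u * (1 + (1 - u ^ 2) / (1 + u ^ 2)) = 2 * (2 * u / (1 + u ^ 2)) +
      3 * tt u * (2 * u / (1 + u ^ 2)) + (1 - u ^ 2) / (1 + u ^ 2) - 1 := by
    unfold bb
    field_simp
    ring
  have hb : bb u = u - u ^ 2 / 2 + 3 / 2 * tt u * u := rfl
  generalize (1 - u ^ 2) / (1 + u ^ 2) = c at k hc cs e3
  generalize 2 * u / (1 + u ^ 2) = s at k hs cs e3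
  generalize bb u = β at e3 hb ⊢
  generalize tt u = t at tl tu k e3 hb ⊢
  obtain ⟨a2, b2⟩ := step u0.le h1 1
  obtain ⟨a3, b3⟩ := step u0.le h1 2
  obtain ⟨a4, b4⟩ := step u0.le h1 3
  obtain ⟨a5, b5⟩ := step u0.le h1 4
  obtain ⟨a6, b6⟩ := step u0.le h1 5
  obtain ⟨a7, b7⟩ := step u0.le h1 6
  norm_num only [pow_one] at a2 b2 a3 b3 a4 b4 a5 b5 a6 b6 a7 b7
  have t0 : 0 ≤ t := by linarith
  have t1 : t ≤ 1 / 1000 := by linarith
  have tu0 : 0 ≤ t * u := by positivity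
  have tu1 : t * u ≤ (u ^ 2 / 2 + u ^ 3 / 8) * u := by gcongr
  have tt1 : t * t ≤ t * (1 / 1000) := by gcongr
  have β1 : β ≤ u - u ^ 2 / 2 + u ^ 3 := by linarith
  have uu : u * u ≤ u * (1 / 10000) := by
    gcongr
    exact u1.trans (by norm_num)
  have β2 : 9999 / 10000 * u ≤ β := by linarith
  have β0 : 0 < β := by linarith
  have q1 : β ^ 2 ≤ (u - u ^ 2 / 2 + u ^ 3) ^ 2 := by gcongr
  have q2 : (9999 / 10000 * u) ^ 2 ≤ β ^ 2 := by gcongr
  have q3 : β ^ 2 * (1 + 12475 / 10000 * β) ≤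
      (u - u ^ 2 / 2 + u ^ 3) ^ 2 * (1 + 12475 / 10000 * u) := by
    gcongr
    linarith
  have c0 : 0 ≤ c := nonneg_of_mul_nonneg_left (by rw [hc]; linarith) p
  have c1 : c ≤ 1 - u ^ 2 := by linarith [mul_nonneg c0 a2]
  have c2 : 1 - 2 * u ^ 2 ≤ c := by
    linarith [mul_le_mul_of_nonneg_right (show c ≤ 1 by linarith) a2]
  have s0 : 0 ≤ s := nonneg_of_mul_nonneg_left (by rw [hs]; linarith) p
  have s1 : s ≤ 2 * u := by linarith [mul_nonneg s0 a2]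
  have s2 : 2 * u - 2 * u ^ 3 ≤ s := by linarith [mul_le_mul_of_nonneg_right s1 a2]
  have tc0 : 0 ≤ t * c := by positivity
  have tc1 : t * c ≤ t * 1 := by
    gcongr
    linarith
  have ts0 : 0 ≤ t * s := by positivity
  have ts1 : t * s ≤ t * 1 := by
    gcongr
    linarith
  have cs1 : 1 ≤ c + s := by linarith
  have pt : 1 ≤ 1 + t ^ 2 := le_add_of_nonneg_right (sq_nonneg t)
  have pd : 1 ≤ (1 + t ^ 2) * (c + s) := one_le_mul_of_one_le_of_one_le pt cs1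
  have hρ : 3 * t / ((1 + t ^ 2) * (c + s)) * ((1 + t ^ 2) * (c + s)) = 3 * t :=
    div_mul_cancel₀ _ (by linarith)
  have ρ0 : 0 ≤ 3 * t / ((1 + t ^ 2) * (c + s)) := by positivity
  have ρ1 : 3 * t / ((1 + t ^ 2) * (c + s)) ≤ 3 * t := div_le_self (by linarith) pd
  have hx : (2 * β - 2 * t - 2 * t ^ 2) / (1 + t ^ 2) * (1 + t ^ 2) = 2 * β - 2 * t - 2 * t ^ 2 :=
    div_mul_cancel₀ _ (by linarith)
  have n0 : 0 ≤ 2 * β - 2 * t - 2 * t ^ 2 := by linarith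
  have x0 : 0 ≤ (2 * β - 2 * t - 2 * t ^ 2) / (1 + t ^ 2) := by positivity
  have x1 : (2 * β - 2 * t - 2 * t ^ 2) / (1 + t ^ 2) ≤ 2 * β - 2 * t - 2 * t ^ 2 :=
    div_le_self n0 pt
  have hh : t / (1 - t) * (1 - t) = t := div_mul_cancel₀ _ (by linarith)
  have g0 : 0 ≤ t / (1 - t) := div_nonneg t0 (by linarith)
  refine ⟨c + t * s, s - t * c, 3 * t / ((1 + t ^ 2) * (c + s)),
    (2 * β - 2 * t - 2 * t ^ 2) / (1 + t ^ 2), t * (2 + (2 * β - 2 * t - 2 * t ^ 2) / (1 + t ^ 2)),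
    t / (1 - t), ?_⟩
  generalize 3 * t / ((1 + t ^ 2) * (c + s)) = ρ at hρ ρ0 ρ1 ⊢
  generalize (2 * β - 2 * t - 2 * t ^ 2) / (1 + t ^ 2) = x at hx x0 x1 ⊢
  generalize t / (1 - t) = h at hh g0 ⊢
  have t2 := mul_self_nonneg t
  have x2 : x ≤ 1 / 100 := by linarith
  have tx : t * x ≤ t * (1 / 100) := by gcongr
  have xt : x * (t * t) ≤ 1 / 100 * (t * t) := by gcongr
  have xt0 : 0 ≤ x * (t * t) := by positivity
  have ht : h * t ≤ h * (1 / 1000) := by gcongr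
  have e1 : (1 + t ^ 2) * ρ = 2 - 5 * t - 2 * c - 2 * t * s :=
    mul_left_cancel₀ (show c + s ≠ 0 by linarith) (by linarith)
  have u40 : u ≤ 1 / 10 ^ 40 := u1.trans (by norm_num)
  exact
    { β0 := β0
      β1 := by linarith
      t0 := by linarith
      t1 := by linarith
      t2 := by linarith [mul_le_mul_of_nonneg_left uu a2]
      S0 := by linarith
      S1 := by linarith
      C0 := by linarith
      C1 := by linarith
      CS := by linear_combination (1 + t ^ 2) * cs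
      ρ0 := ρ0
      ρ1 := by linarith
      x0 := abs_le.2 ⟨by linarith, by linarith⟩
      y0 := by positivity
      y1 := by linarith
      h0 := g0
      h1 := by linarith
      e1 := by linarith
      e2 := by linear_combination hρ
      e3 := by linear_combination c * hx + e3
      e4 := by linear_combination hx
      e5 := rfl
      e6 := by linear_combination hh }

theorem sIvt : SIvt := by
  intro u0 p0
  have m0 : 0 < min u0 (1 / 1000) := lt_min p0 (by norm_num)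
  have m1 := min_le_left u0 (1 / 1000)
  have m2 := min_le_right u0 (1 / 1000)
  generalize min u0 (1 / 1000) = m at m0 m1 m2
  have bd : ∀ u ∈ Icc (0 : ℝ) m, 0 ≤ tt u ∧ tt u ≤ 1 / 1000 := fun u hu => by
    have h1 : u ≤ 1 / 1000 := hu.2.trans m2
    obtain ⟨tl, tu⟩ := tt_bd hu.1 h1
    obtain ⟨a2, b2⟩ := step hu.1 h1 1
    obtain ⟨a3, b3⟩ := step hu.1 h1 2
    obtain ⟨a4, b4⟩ := step hu.1 h1 3
    norm_num only [pow_one] at a2 b2 a3 b3 a4 b4
    constructor <;> linarith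
  have ct : ContinuousOn tt (Icc 0 m) :=
    ContinuousOn.div (by fun_prop) (by fun_prop) fun u hu => (den hu.1 (hu.2.trans m2)).ne'
  have cr : ContinuousOn rr (Icc 0 m) :=
    ContinuousOn.div (by fun_prop) (by fun_prop) fun u hu => by linarith [(bd u hu).2]
  have r0 : rr 0 = 1 := by norm_num [rr, tt]
  have r1 : 1 < rr m := by
    obtain ⟨a, b⟩ := bd m ⟨m0.le, le_rfl⟩
    unfold rr
    rw [lt_div_iff₀ (by linarith)]
    nlinarith [mul_nonneg a m0.le]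
  refine ⟨rr m - 1, by linarith, fun r hr => ?_⟩
  obtain ⟨u, hu, e⟩ := intermediate_value_Ioo m0.le cr (show r ∈ Ioo (rr 0) (rr m) from
    ⟨r0 ▸ hr.1, by linarith [hr.2]⟩)
  exact ⟨u, ⟨hu.1, hu.2.trans_le m1⟩, e.symm⟩

end Pool.Agent.P.MP_dba4bb_co.Ex
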