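import Pool.Agent.P.MP_dba4bb_co.Ex.SL

/-! The folding `psi` is a piecewise isometry onto the cube. -/

namespace Pool.Agent.P.MP_dba4bb_co.Ex

open Set

namespace PsiP

/-- the polygon of a list of inequalities -/
def Pg (L : List (ℝ × ℝ × ℝ)) : Set P2 := {P | ∀ c ∈ L, c.1 * P.1 + c.2.1 * P.2 ≤ c.2.2}

/-- `psi` is a piecewise isometry on the polygon -/
def Cv (L : List (ℝ × ℝ × ℝ)) : Prop :=
  (∃ 𝓕 : Set (Set P2), 𝓕.Finite ∧ Pg L ∩ Om ⊆ ⋃₀ 𝓕 ∧ ∀ G ∈ 𝓕, PolyP G ∧
    ∀ P ∈ G ∩ Om, ∀ Q ∈ G ∩ Om, e2 (psi P.1 P.2) (psi Q.1 Q.2) = d2 P Q) ∧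
  ∀ P ∈ Pg L ∩ Om, psi P.1 P.2 ∈ Sf

theorem split {a b c a' b' c' : ℝ} {L : List (ℝ × ℝ × ℝ)} (h : a' = -a ∧ b' = -b ∧ c' = -c)
    (h1 : Cv ((a, b, c) :: L)) (h2 : Cv ((a', b', c') :: L)) : Cv L := by
  obtain ⟨rfl, rfl, rfl⟩ := h
  have h0 : ∀ P ∈ Pg L ∩ Om, P ∈ Pg ((a, b, c) :: L) ∩ Om ∨ P ∈ Pg ((-a, -b, -c) :: L) ∩ Om :=
    fun P hP => (le_total (a * P.1 + b * P.2) c).imp
      (fun h => ⟨List.forall_mem_cons.2 ⟨h, hP.1⟩, hP.2⟩)
      fun h => ⟨List.forall_mem_cons.2 ⟨by dsimp only; linarith, hP.1⟩, hP.2⟩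
  obtain ⟨⟨A, a1, a2, a3⟩, a4⟩ := h1
  obtain ⟨⟨B, b1, b2, b3⟩, b4⟩ := h2
  refine ⟨⟨A ∪ B, a1.union b1, fun P hP => ?_, fun G hG => hG.elim (a3 G) (b3 G)⟩,
    fun P hP => (h0 P hP).elim (a4 P) (b4 P)⟩
  rw [sUnion_union]
  exact (h0 P hP).imp (fun h => a2 h) fun h => b2 h

theorem two {c : Prop} [Decidable c] {a b x : P3} (h1 : c → a = x) (h2 : ¬ c → b = x) :
    ite c a b = x := by
  split_ifs with h
  exacts [h1 h, h2 h]

theorem tr {a b c a' b' c' : ℝ} (h1 : a = a') (h2 : b = b') (h3 : c = c') :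
    ((a, b, c) : P3) = (a', b', c') := by rw [h1, h2, h3]

theorem leaf {L : List (ℝ × ℝ × ℝ)} (m : ℝ → ℝ → P3)
    (hm : ∀ P Q : P2, e2 (m P.1 P.2) (m Q.1 Q.2) = d2 P Q)
    (h : ∀ p q : ℝ, (∀ c ∈ L, c.1 * p + c.2.1 * q ≤ c.2.2) → -(21 / 5) ≤ p + q → p + q ≤ 21 / 5 →
      -(21 / 5) ≤ p - q → p - q ≤ 21 / 5 → psi p q = m p q ∧ m p q ∈ Sf) : Cv L := by
  have h0 : ∀ P ∈ Pg L ∩ Om, psi P.1 P.2 = m P.1 P.2 ∧ m P.1 P.2 ∈ Sf := fun P hP =>
    h _ _ hP.1 (abs_le.1 hP.2.1).1 (abs_le.1 hP.2.1).2 (abs_le.1 hP.2.2).1 (abs_le.1 hP.2.2).2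
  refine ⟨⟨{Pg L}, finite_singleton _, fun P hP => ⟨_, rfl, hP.1⟩, ?_⟩,
    fun P hP => (h0 P hP).1 ▸ (h0 P hP).2⟩
  rintro _ rfl
  exact ⟨⟨L, rfl⟩, fun P hP Q hQ => by rw [(h0 P hP).1, (h0 Q hQ).1, hm]⟩

theorem c1 : Cv [(1, 0, 3), (-1, 1, 0), (0, -1, -1), (-1, 0, -1)] := by
  refine leaf (fun p q => (1, 2 - q, p - 2)) (fun P Q => by unfold e2 d2; ring) fun p q h a1 a2 a3 a4 => ?_
  simp only [List.forall_mem_cons, zero_mul, one_mul, neg_mul, add_zero, zero_add] at h
  obtain ⟨h0, h1, h2, h3, -⟩ := h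
  refine ⟨?_, ⟨?_, ?_⟩, ⟨?_, ?_⟩, ⟨?_, ?_⟩, Or.inl rfl⟩
  · unfold psi
    exact
      ((if_pos (by linarith)).trans ((if_pos (by linarith)).trans ((if_pos (by linarith)).trans
      ((if_pos (by linarith)).trans rfl))))
  all_goals dsimp only; linarith

theorem c2 : Cv [(-1, 0, -3), (-1, 1, 0), (0, -1, -1), (-1, 0, -1)] := by
  refine leaf (fun p q => (4 - p, 2 - q, 1)) (fun P Q => by unfold e2 d2; ring) fun p q h a1 a2 a3 a4 => ?_
  simp only [List.forall_mem_cons, zero_mul, one_mul, neg_mul, add_zero, zero_add] at h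
  obtain ⟨h0, h1, h2, h3, -⟩ := h
  refine ⟨?_, ⟨?_, ?_⟩, ⟨?_, ?_⟩, ⟨?_, ?_⟩, Or.inr (Or.inr (Or.inr (Or.inr (Or.inl rfl))))⟩
  · unfold psi
    exact
      ((if_pos (by linarith)).trans ((if_pos (by linarith)).trans ((if_pos (by linarith)).trans
      (two (fun _ => (tr (by linarith) rfl (by linarith))) (fun _ => rfl)))))
  all_goals dsimp only; linarith

theorem c3 : Cv [(0, 1, 3), (1, -1, 0), (0, -1, -1), (-1, 0, -1)] := by
  refine leaf (fun p q => (1, 2 - p, q - 2)) (fun P Q => by unfold e2 d2; ring) fun p q h a1 a2 a3 a4 => ?_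
  simp only [List.forall_mem_cons, zero_mul, one_mul, neg_mul, add_zero, zero_add] at h
  obtain ⟨h0, h1, h2, h3, -⟩ := h
  refine ⟨?_, ⟨?_, ?_⟩, ⟨?_, ?_⟩, ⟨?_, ?_⟩, Or.inl rfl⟩
  · unfold psi
    exact
      ((if_pos (by linarith)).trans ((if_pos (by linarith)).trans (two (fun _ => ((if_pos (by
      linarith)).trans (tr rfl (by linarith) (by linarith)))) (fun _ => ((if_pos (by
      linarith)).trans rfl)))))
  all_goals dsimp only; linarith

theorem c4 : Cv [(1, -1, -2), (0, -1, -3), (1, -1, 0), (0, -1, -1), (-1, 0, -1)] := by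
  refine leaf (fun p q => (1, 4 - q, 2 - p)) (fun P Q => by unfold e2 d2; ring) fun p q h a1 a2 a3 a4 => ?_
  simp only [List.forall_mem_cons, zero_mul, one_mul, neg_mul, add_zero, zero_add] at h
  obtain ⟨h0, h1, h2, h3, h4, -⟩ := h
  refine ⟨?_, ⟨?_, ?_⟩, ⟨?_, ?_⟩, ⟨?_, ?_⟩, Or.inl rfl⟩
  · unfold psi
    exact
      ((if_pos (by linarith)).trans ((if_pos (by linarith)).trans ((if_neg fun _ => by
      linarith).trans (two (fun _ => (tr rfl (by linarith) (by linarith))) (fun _ => ((if_pos (by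
      linarith)).trans rfl))))))
  all_goals dsimp only; linarith

theorem c5 : Cv [(-1, 1, 2), (0, -1, -3), (1, -1, 0), (0, -1, -1), (-1, 0, -1)] := by
  refine leaf (fun p q => (1, 2 - p, 4 - q)) (fun P Q => by unfold e2 d2; ring) fun p q h a1 a2 a3 a4 => ?_
  simp only [List.forall_mem_cons, zero_mul, one_mul, neg_mul, add_zero, zero_add] at h
  obtain ⟨h0, h1, h2, h3, h4, -⟩ := h
  refine ⟨?_, ⟨?_, ?_⟩, ⟨?_, ?_⟩, ⟨?_, ?_⟩, Or.inl rfl⟩
  · unfold psi
    exact
      ((if_pos (by linarith)).trans ((if_pos (by linarith)).trans ((if_neg fun _ => by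
      linarith).trans (two (fun _ => (tr rfl rfl (by linarith))) (fun _ => (two (fun _ => (tr rfl
      (by linarith) (by linarith))) (fun _ => rfl)))))))
  all_goals dsimp only; linarith

theorem c6 : Cv [(1, 0, 3), (0, -1, 1), (0, 1, 1), (-1, 0, -1)] := by
  refine leaf (fun p q => (1, q, p - 2)) (fun P Q => by unfold e2 d2; ring) fun p q h a1 a2 a3 a4 => ?_
  simp only [List.forall_mem_cons, zero_mul, one_mul, neg_mul, add_zero, zero_add] at h
  obtain ⟨h0, h1, h2, h3, -⟩ := h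
  refine ⟨?_, ⟨?_, ?_⟩, ⟨?_, ?_⟩, ⟨?_, ?_⟩, Or.inl rfl⟩
  · unfold psi
    exact
      ((if_pos (by linarith)).trans (two (fun _ => ((if_pos (by linarith)).trans ((if_pos (by
      linarith)).trans (tr rfl (by linarith) rfl)))) (fun _ => ((if_pos (by linarith)).trans
      ((if_pos (by linarith)).trans rfl)))))
  all_goals dsimp only; linarith

theorem c7 : Cv [(-1, 0, -3), (0, -1, 1), (0, 1, 1), (-1, 0, -1)] := by
  refine leaf (fun p q => (4 - p, q, 1)) (fun P Q => by unfold e2 d2; ring) fun p q h a1 a2 a3 a4 => ?_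
  simp only [List.forall_mem_cons, zero_mul, one_mul, neg_mul, add_zero, zero_add] at h
  obtain ⟨h0, h1, h2, h3, -⟩ := h
  refine ⟨?_, ⟨?_, ?_⟩, ⟨?_, ?_⟩, ⟨?_, ?_⟩, Or.inr (Or.inr (Or.inr (Or.inr (Or.inl rfl))))⟩
  · unfold psi
    exact
      ((if_pos (by linarith)).trans (two (fun _ => ((if_pos (by linarith)).trans (two (fun _ =>
      (tr (by linarith) (by linarith) (by linarith))) (fun _ => (tr rfl (by linarith) rfl)))))
      (fun _ => ((if_pos (by linarith)).trans (two (fun _ => (tr (by linarith) rfl (by linarith)))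
      (fun _ => rfl))))))
  all_goals dsimp only; linarith

theorem c8 : Cv [(1, 0, 3), (-1, -1, 0), (0, 1, -1), (0, 1, 1), (-1, 0, -1)] := by
  refine leaf (fun p q => (1, -2 - q, p - 2)) (fun P Q => by unfold e2 d2; ring) fun p q h a1 a2 a3 a4 => ?_
  simp only [List.forall_mem_cons, zero_mul, one_mul, neg_mul, add_zero, zero_add] at h
  obtain ⟨h0, h1, h2, h3, h4, -⟩ := h
  refine ⟨?_, ⟨?_, ?_⟩, ⟨?_, ?_⟩, ⟨?_, ?_⟩, Or.inl rfl⟩
  · unfold psi
    exact
      ((if_pos (by linarith)).trans ((if_neg fun _ => by linarith).trans (two (fun _ => ((if_pos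
      (by linarith)).trans (tr rfl (by linarith) rfl))) (fun _ => ((if_pos (by linarith)).trans
      ((if_pos (by linarith)).trans rfl))))))
  all_goals dsimp only; linarith

theorem c9 : Cv [(-1, 0, -3), (-1, -1, 0), (0, 1, -1), (0, 1, 1), (-1, 0, -1)] := by
  refine leaf (fun p q => (4 - p, -2 - q, 1)) (fun P Q => by unfold e2 d2; ring) fun p q h a1 a2 a3 a4 => ?_
  simp only [List.forall_mem_cons, zero_mul, one_mul, neg_mul, add_zero, zero_add] at h
  obtain ⟨h0, h1, h2, h3, h4, -⟩ := h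
  refine ⟨?_, ⟨?_, ?_⟩, ⟨?_, ?_⟩, ⟨?_, ?_⟩, Or.inr (Or.inr (Or.inr (Or.inr (Or.inl rfl))))⟩
  · unfold psi
    exact
      ((if_pos (by linarith)).trans ((if_neg fun _ => by linarith).trans (two (fun _ => (two (fun
      _ => (tr (by linarith) (by linarith) (by linarith))) (fun _ => (tr rfl (by linarith) rfl))))
      (fun _ => ((if_pos (by linarith)).trans (two (fun _ => (tr (by linarith) rfl (by linarith)))
      (fun _ => rfl)))))))
  all_goals dsimp only; linarith

theorem c10 : Cv [(0, -1, 3), (1, 1, 0), (0, 1, -1), (0, 1, 1), (-1, 0, -1)] := by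
  refine leaf (fun p q => (1, p - 2, -q - 2)) (fun P Q => by unfold e2 d2; ring) fun p q h a1 a2 a3 a4 => ?_
  simp only [List.forall_mem_cons, zero_mul, one_mul, neg_mul, add_zero, zero_add] at h
  obtain ⟨h0, h1, h2, h3, h4, -⟩ := h
  refine ⟨?_, ⟨?_, ?_⟩, ⟨?_, ?_⟩, ⟨?_, ?_⟩, Or.inl rfl⟩
  · unfold psi
    exact
      ((if_pos (by linarith)).trans ((if_neg fun _ => by linarith).trans (two (fun _ => ((if_pos
      (by linarith)).trans (tr rfl (by linarith) (by linarith)))) (fun _ => (two (fun _ =>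
      ((if_pos (by linarith)).trans (tr rfl (by linarith) (by linarith)))) (fun _ => ((if_pos (by
      linarith)).trans rfl)))))))
  all_goals dsimp only; linarith

theorem c11 : Cv [(1, 1, -2), (0, 1, -3), (1, 1, 0), (0, 1, -1), (0, 1, 1), (-1, 0, -1)] := by
  refine leaf (fun p q => (1, -4 - q, 2 - p)) (fun P Q => by unfold e2 d2; ring) fun p q h a1 a2 a3 a4 => ?_
  simp only [List.forall_mem_cons, zero_mul, one_mul, neg_mul, add_zero, zero_add] at h
  obtain ⟨h0, h1, h2, h3, h4, h5, -⟩ := h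
  refine ⟨?_, ⟨?_, ?_⟩, ⟨?_, ?_⟩, ⟨?_, ?_⟩, Or.inl rfl⟩
  · unfold psi
    exact
      ((if_pos (by linarith)).trans ((if_neg fun _ => by linarith).trans ((if_neg fun _ => by
      linarith).trans ((if_neg fun _ => by linarith).trans (two (fun _ => (tr rfl (by linarith)
      (by linarith))) (fun _ => ((if_pos (by linarith)).trans rfl)))))))
  all_goals dsimp only; linarith

theorem c12 : Cv [(-1, -1, 2), (0, 1, -3), (1, 1, 0), (0, 1, -1), (0, 1, 1), (-1, 0, -1)] := by
  refine leaf (fun p q => (1, p - 2, 4 + q)) (fun P Q => by unfold e2 d2; ring) fun p q h a1 a2 a3 a4 => ?_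
  simp only [List.forall_mem_cons, zero_mul, one_mul, neg_mul, add_zero, zero_add] at h
  obtain ⟨h0, h1, h2, h3, h4, h5, -⟩ := h
  refine ⟨?_, ⟨?_, ?_⟩, ⟨?_, ?_⟩, ⟨?_, ?_⟩, Or.inl rfl⟩
  · unfold psi
    exact
      ((if_pos (by linarith)).trans ((if_neg fun _ => by linarith).trans ((if_neg fun _ => by
      linarith).trans ((if_neg fun _ => by linarith).trans (two (fun _ => (tr rfl rfl (by
      linarith))) (fun _ => (two (fun _ => (tr rfl (by linarith) (by linarith))) (fun _ =>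
      rfl))))))))
  all_goals dsimp only; linarith

theorem c13 : Cv [(0, -1, -3), (-1, 0, 1), (1, 0, 1)] := by
  refine leaf (fun p q => (p, 4 - q, 1)) (fun P Q => by unfold e2 d2; ring) fun p q h a1 a2 a3 a4 => ?_
  simp only [List.forall_mem_cons, zero_mul, one_mul, neg_mul, add_zero, zero_add] at h
  obtain ⟨h0, h1, h2, -⟩ := h
  refine ⟨?_, ⟨?_, ?_⟩, ⟨?_, ?_⟩, ⟨?_, ?_⟩, Or.inr (Or.inr (Or.inr (Or.inr (Or.inl rfl))))⟩
  · unfold psi
    exact
      (two (fun _ => ((if_pos (by linarith)).trans ((if_neg fun _ => by linarith).trans (two (fun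
      _ => (tr (by linarith) (by linarith) (by linarith))) (fun _ => ((if_pos (by linarith)).trans
      (tr (by linarith) rfl (by linarith)))))))) (fun _ => ((if_pos (by linarith)).trans ((if_pos
      (by linarith)).trans rfl))))
  all_goals dsimp only; linarith

theorem c14 : Cv [(0, -1, -1), (0, 1, 3), (-1, 0, 1), (1, 0, 1)] := by
  refine leaf (fun p q => (p, 1, q - 2)) (fun P Q => by unfold e2 d2; ring) fun p q h a1 a2 a3 a4 => ?_
  simp only [List.forall_mem_cons, zero_mul, one_mul, neg_mul, add_zero, zero_add] at h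
  obtain ⟨h0, h1, h2, h3, -⟩ := h
  refine ⟨?_, ⟨?_, ?_⟩, ⟨?_, ?_⟩, ⟨?_, ?_⟩, Or.inr (Or.inr (Or.inl rfl))⟩
  · unfold psi
    exact
      (two (fun _ => ((if_pos (by linarith)).trans (two (fun _ => ((if_pos (by linarith)).trans
      (tr (by linarith) (by linarith) (by linarith)))) (fun _ => ((if_pos (by linarith)).trans (tr
      (by linarith) (by linarith) rfl)))))) (fun _ => ((if_pos (by linarith)).trans (two (fun _ =>
      (tr rfl (by linarith) (by linarith))) (fun _ => ((if_pos (by linarith)).trans rfl))))))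
  all_goals dsimp only; linarith

theorem c15 : Cv [(0, -1, 1), (0, 1, 1), (0, 1, 3), (-1, 0, 1), (1, 0, 1)] := by
  refine leaf (fun p q => (p, q, -1)) (fun P Q => by unfold e2 d2; ring) fun p q h a1 a2 a3 a4 => ?_
  simp only [List.forall_mem_cons, zero_mul, one_mul, neg_mul, add_zero, zero_add] at h
  obtain ⟨h0, h1, h2, h3, h4, -⟩ := h
  refine ⟨?_, ⟨?_, ?_⟩, ⟨?_, ?_⟩, ⟨?_, ?_⟩, Or.inr (Or.inr (Or.inr (Or.inr (Or.inr (rfl)))))⟩
  · unfold psi
    exact
      (two (fun _ => (two (fun _ => ((if_pos (by linarith)).trans ((if_pos (by linarith)).trans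
      (tr (by linarith) (by linarith) (by linarith))))) (fun _ => ((if_pos (by linarith)).trans
      ((if_pos (by linarith)).trans (tr (by linarith) rfl (by linarith))))))) (fun _ => ((if_pos
      (by linarith)).trans ((if_neg fun _ => by linarith).trans (two (fun _ => (tr rfl (by
      linarith) (by linarith))) (fun _ => ((if_pos (by linarith)).trans rfl)))))))
  all_goals dsimp only; linarith

theorem c16 : Cv [(0, -1, 3), (0, 1, -1), (0, 1, 1), (0, 1, 3), (-1, 0, 1), (1, 0, 1)] := by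
  refine leaf (fun p q => (p, -1, -q - 2)) (fun P Q => by unfold e2 d2; ring) fun p q h a1 a2 a3 a4 => ?_
  simp only [List.forall_mem_cons, zero_mul, one_mul, neg_mul, add_zero, zero_add] at h
  obtain ⟨h0, h1, h2, h3, h4, h5, -⟩ := h
  refine ⟨?_, ⟨?_, ?_⟩, ⟨?_, ?_⟩, ⟨?_, ?_⟩, Or.inr (Or.inr (Or.inr (Or.inl rfl)))⟩
  · unfold psi
    exact
      (two (fun _ => ((if_neg fun _ => by linarith).trans (two (fun _ => ((if_pos (by
      linarith)).trans (tr (by linarith) (by linarith) (by linarith)))) (fun _ => ((if_neg fun _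
      => by linarith).trans ((if_pos (by linarith)).trans (tr (by linarith) (by linarith)
      rfl))))))) (fun _ => ((if_pos (by linarith)).trans ((if_neg fun _ => by linarith).trans
      ((if_neg fun _ => by linarith).trans (two (fun _ => (tr rfl (by linarith) (by linarith)))
      (fun _ => ((if_pos (by linarith)).trans rfl))))))))
  all_goals dsimp only; linarith

theorem c17 : Cv [(0, 1, -3), (0, 1, -1), (0, 1, 1), (0, 1, 3), (-1, 0, 1), (1, 0, 1)] := by
  refine leaf (fun p q => (p, -4 - q, 1)) (fun P Q => by unfold e2 d2; ring) fun p q h a1 a2 a3 a4 => ?_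
  simp only [List.forall_mem_cons, zero_mul, one_mul, neg_mul, add_zero, zero_add] at h
  obtain ⟨h0, h1, h2, h3, h4, h5, -⟩ := h
  refine ⟨?_, ⟨?_, ?_⟩, ⟨?_, ?_⟩, ⟨?_, ?_⟩, Or.inr (Or.inr (Or.inr (Or.inr (Or.inl rfl))))⟩
  · unfold psi
    exact
      (two (fun _ => ((if_neg fun _ => by linarith).trans ((if_neg fun _ => by linarith).trans
      ((if_neg fun _ => by linarith).trans (two (fun _ => (tr (by linarith) (by linarith) (by
      linarith))) (fun _ => ((if_pos (by linarith)).trans (tr (by linarith) rfl (by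
      linarith))))))))) (fun _ => ((if_pos (by linarith)).trans ((if_neg fun _ => by
      linarith).trans ((if_neg fun _ => by linarith).trans ((if_neg fun _ => by linarith).trans
      (two (fun _ => (tr rfl (by linarith) (by linarith))) (fun _ => rfl))))))))
  all_goals dsimp only; linarith

theorem c18 : Cv [(0, 1, 3), (-1, -1, 0), (0, -1, -1), (1, 0, -1), (1, 0, 1)] := by
  refine leaf (fun p q => (-2 - p, 1, q - 2)) (fun P Q => by unfold e2 d2; ring) fun p q h a1 a2 a3 a4 => ?_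
  simp only [List.forall_mem_cons, zero_mul, one_mul, neg_mul, add_zero, zero_add] at h
  obtain ⟨h0, h1, h2, h3, h4, -⟩ := h
  refine ⟨?_, ⟨?_, ?_⟩, ⟨?_, ?_⟩, ⟨?_, ?_⟩, Or.inr (Or.inr (Or.inl rfl))⟩
  · unfold psi
    exact
      ((if_neg fun _ => by linarith).trans (two (fun _ => (two (fun _ => (tr (by linarith) (by
      linarith) (by linarith))) (fun _ => ((if_pos (by linarith)).trans (tr (by linarith) rfl
      rfl))))) (fun _ => ((if_pos (by linarith)).trans ((if_pos (by linarith)).trans ((if_pos (by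
      linarith)).trans rfl))))))
  all_goals dsimp only; linarith

theorem c19 : Cv [(0, -1, -3), (-1, -1, 0), (0, -1, -1), (1, 0, -1), (1, 0, 1)] := by
  refine leaf (fun p q => (-2 - p, 4 - q, 1)) (fun P Q => by unfold e2 d2; ring) fun p q h a1 a2 a3 a4 => ?_
  simp only [List.forall_mem_cons, zero_mul, one_mul, neg_mul, add_zero, zero_add] at h
  obtain ⟨h0, h1, h2, h3, h4, -⟩ := h
  refine ⟨?_, ⟨?_, ?_⟩, ⟨?_, ?_⟩, ⟨?_, ?_⟩, Or.inr (Or.inr (Or.inr (Or.inr (Or.inl rfl))))⟩
  · unfold psi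
    exact
      ((if_neg fun _ => by linarith).trans (two (fun _ => ((if_pos (by linarith)).trans (tr (by
      linarith) rfl rfl))) (fun _ => ((if_pos (by linarith)).trans ((if_pos (by linarith)).trans
      (two (fun _ => (tr rfl (by linarith) (by linarith))) (fun _ => rfl)))))))
  all_goals dsimp only; linarith

theorem c20 : Cv [(-1, 0, 3), (1, 1, 0), (0, -1, -1), (1, 0, -1), (1, 0, 1)] := by
  refine leaf (fun p q => (q - 2, 1, -p - 2)) (fun P Q => by unfold e2 d2; ring) fun p q h a1 a2 a3 a4 => ?_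
  simp only [List.forall_mem_cons, zero_mul, one_mul, neg_mul, add_zero, zero_add] at h
  obtain ⟨h0, h1, h2, h3, h4, -⟩ := h
  refine ⟨?_, ⟨?_, ?_⟩, ⟨?_, ?_⟩, ⟨?_, ?_⟩, Or.inr (Or.inr (Or.inl rfl))⟩
  · unfold psi
    exact
      ((if_neg fun _ => by linarith).trans (two (fun _ => ((if_neg fun _ => by linarith).trans
      ((if_pos (by linarith)).trans (tr (by linarith) rfl (by linarith))))) (fun _ => ((if_pos (by
      linarith)).trans (two (fun _ => ((if_pos (by linarith)).trans (tr (by linarith) rfl (by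
      linarith)))) (fun _ => ((if_pos (by linarith)).trans rfl)))))))
  all_goals dsimp only; linarith

theorem c21 : Cv [(1, 1, -2), (1, 0, -3), (1, 1, 0), (0, -1, -1), (1, 0, -1), (1, 0, 1)] := by
  refine leaf (fun p q => (-4 - p, 1, 2 - q)) (fun P Q => by unfold e2 d2; ring) fun p q h a1 a2 a3 a4 => ?_
  simp only [List.forall_mem_cons, zero_mul, one_mul, neg_mul, add_zero, zero_add] at h
  obtain ⟨h0, h1, h2, h3, h4, h5, -⟩ := h
  refine ⟨?_, ⟨?_, ?_⟩, ⟨?_, ?_⟩, ⟨?_, ?_⟩, Or.inr (Or.inr (Or.inl rfl))⟩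
  · unfold psi
    exact
      ((if_neg fun _ => by linarith).trans ((if_neg fun _ => by linarith).trans ((if_pos (by
      linarith)).trans ((if_neg fun _ => by linarith).trans (two (fun _ => (tr (by linarith) rfl
      (by linarith))) (fun _ => ((if_pos (by linarith)).trans rfl)))))))
  all_goals dsimp only; linarith

theorem c22 : Cv [(-1, -1, 2), (1, 0, -3), (1, 1, 0), (0, -1, -1), (1, 0, -1), (1, 0, 1)] := by
  refine leaf (fun p q => (q - 2, 1, 4 + p)) (fun P Q => by unfold e2 d2; ring) fun p q h a1 a2 a3 a4 => ?_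
  simp only [List.forall_mem_cons, zero_mul, one_mul, neg_mul, add_zero, zero_add] at h
  obtain ⟨h0, h1, h2, h3, h4, h5, -⟩ := h
  refine ⟨?_, ⟨?_, ?_⟩, ⟨?_, ?_⟩, ⟨?_, ?_⟩, Or.inr (Or.inr (Or.inl rfl))⟩
  · unfold psi
    exact
      ((if_neg fun _ => by linarith).trans ((if_neg fun _ => by linarith).trans ((if_pos (by
      linarith)).trans ((if_neg fun _ => by linarith).trans (two (fun _ => (tr rfl rfl (by
      linarith))) (fun _ => (two (fun _ => (tr (by linarith) rfl (by linarith))) (fun _ =>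
      rfl))))))))
  all_goals dsimp only; linarith

theorem c23 : Cv [(-1, 0, 3), (0, -1, 1), (0, 1, 1), (1, 0, -1), (1, 0, 1)] := by
  refine leaf (fun p q => (-1, q, -p - 2)) (fun P Q => by unfold e2 d2; ring) fun p q h a1 a2 a3 a4 => ?_
  simp only [List.forall_mem_cons, zero_mul, one_mul, neg_mul, add_zero, zero_add] at h
  obtain ⟨h0, h1, h2, h3, h4, -⟩ := h
  refine ⟨?_, ⟨?_, ?_⟩, ⟨?_, ?_⟩, ⟨?_, ?_⟩, Or.inr (Or.inl rfl)⟩
  · unfold psi
    exact
      ((if_neg fun _ => by linarith).trans (two (fun _ => ((if_neg fun _ => by linarith).trans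
      (two (fun _ => (tr (by linarith) (by linarith) (by linarith))) (fun _ => ((if_pos (by
      linarith)).trans (tr (by linarith) rfl (by linarith))))))) (fun _ => (two (fun _ => ((if_neg
      fun _ => by linarith).trans ((if_pos (by linarith)).trans (tr (by linarith) (by linarith)
      rfl)))) (fun _ => ((if_pos (by linarith)).trans ((if_pos (by linarith)).trans rfl)))))))
  all_goals dsimp only; linarith

theorem c24 : Cv [(1, 0, -3), (0, -1, 1), (0, 1, 1), (1, 0, -1), (1, 0, 1)] := by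
  refine leaf (fun p q => (-4 - p, q, 1)) (fun P Q => by unfold e2 d2; ring) fun p q h a1 a2 a3 a4 => ?_
  simp only [List.forall_mem_cons, zero_mul, one_mul, neg_mul, add_zero, zero_add] at h
  obtain ⟨h0, h1, h2, h3, h4, -⟩ := h
  refine ⟨?_, ⟨?_, ?_⟩, ⟨?_, ?_⟩, ⟨?_, ?_⟩, Or.inr (Or.inr (Or.inr (Or.inr (Or.inl rfl))))⟩
  · unfold psi
    exact
      ((if_neg fun _ => by linarith).trans ((if_neg fun _ => by linarith).trans (two (fun _ =>
      ((if_neg fun _ => by linarith).trans (two (fun _ => (tr (by linarith) (by linarith) (by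
      linarith))) (fun _ => ((if_pos (by linarith)).trans (tr rfl (by linarith) (by
      linarith))))))) (fun _ => ((if_pos (by linarith)).trans (two (fun _ => (tr (by linarith) rfl
      (by linarith))) (fun _ => rfl)))))))
  all_goals dsimp only; linarith

theorem c25 : Cv [(0, -1, 3), (-1, 1, 0), (0, 1, -1), (0, 1, 1), (1, 0, -1), (1, 0, 1)] := by
  refine leaf (fun p q => (-2 - p, -1, -q - 2)) (fun P Q => by unfold e2 d2; ring) fun p q h a1 a2 a3 a4 => ?_
  simp only [List.forall_mem_cons, zero_mul, one_mul, neg_mul, add_zero, zero_add] at h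
  obtain ⟨h0, h1, h2, h3, h4, h5, -⟩ := h
  refine ⟨?_, ⟨?_, ?_⟩, ⟨?_, ?_⟩, ⟨?_, ?_⟩, Or.inr (Or.inr (Or.inr (Or.inl rfl)))⟩
  · unfold psi
    exact
      ((if_neg fun _ => by linarith).trans (two (fun _ => ((if_neg fun _ => by linarith).trans
      ((if_neg fun _ => by linarith).trans (two (fun _ => (tr (by linarith) (by linarith) (by
      linarith))) (fun _ => ((if_pos (by linarith)).trans (tr (by linarith) rfl rfl))))))) (fun _
      => ((if_neg fun _ => by linarith).trans ((if_neg fun _ => by linarith).trans ((if_pos (by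
      linarith)).trans ((if_pos (by linarith)).trans rfl)))))))
  all_goals dsimp only; linarith

theorem c26 : Cv [(0, 1, -3), (-1, 1, 0), (0, 1, -1), (0, 1, 1), (1, 0, -1), (1, 0, 1)] := by
  refine leaf (fun p q => (-2 - p, -4 - q, 1)) (fun P Q => by unfold e2 d2; ring) fun p q h a1 a2 a3 a4 => ?_
  simp only [List.forall_mem_cons, zero_mul, one_mul, neg_mul, add_zero, zero_add] at h
  obtain ⟨h0, h1, h2, h3, h4, h5, -⟩ := h
  refine ⟨?_, ⟨?_, ?_⟩, ⟨?_, ?_⟩, ⟨?_, ?_⟩, Or.inr (Or.inr (Or.inr (Or.inr (Or.inl rfl))))⟩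
  · unfold psi
    exact
      ((if_neg fun _ => by linarith).trans (two (fun _ => ((if_neg fun _ => by linarith).trans
      ((if_neg fun _ => by linarith).trans ((if_neg fun _ => by linarith).trans (two (fun _ => (tr
      (by linarith) (by linarith) (by linarith))) (fun _ => (tr (by linarith) rfl rfl))))))) (fun
      _ => ((if_neg fun _ => by linarith).trans ((if_neg fun _ => by linarith).trans ((if_pos (by
      linarith)).trans (two (fun _ => (tr rfl (by linarith) (by linarith))) (fun _ => rfl))))))))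
  all_goals dsimp only; linarith

theorem c27 : Cv [(-1, 0, 3), (1, -1, 0), (0, 1, -1), (0, 1, 1), (1, 0, -1), (1, 0, 1)] := by
  refine leaf (fun p q => (-2 - q, -1, -p - 2)) (fun P Q => by unfold e2 d2; ring) fun p q h a1 a2 a3 a4 => ?_
  simp only [List.forall_mem_cons, zero_mul, one_mul, neg_mul, add_zero, zero_add] at h
  obtain ⟨h0, h1, h2, h3, h4, h5, -⟩ := h
  refine ⟨?_, ⟨?_, ?_⟩, ⟨?_, ?_⟩, ⟨?_, ?_⟩, Or.inr (Or.inr (Or.inr (Or.inl rfl)))⟩
  · unfold psi
    exact
      ((if_neg fun _ => by linarith).trans (two (fun _ => ((if_neg fun _ => by linarith).trans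
      ((if_neg fun _ => by linarith).trans ((if_pos (by linarith)).trans (tr (by linarith) (by
      linarith) (by linarith)))))) (fun _ => ((if_neg fun _ => by linarith).trans (two (fun _ =>
      ((if_pos (by linarith)).trans (tr (by linarith) (by linarith) rfl))) (fun _ => (two (fun _
      => ((if_pos (by linarith)).trans (tr (by linarith) rfl (by linarith)))) (fun _ => ((if_pos
      (by linarith)).trans rfl)))))))))
  all_goals dsimp only; linarith

theorem c28 : Cv [(1, -1, -2), (1, 0, -3), (1, -1, 0), (0, 1, -1), (0, 1, 1), (1, 0, -1), (1, 0, 1)] := by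
  refine leaf (fun p q => (-4 - p, -1, 2 + q)) (fun P Q => by unfold e2 d2; ring) fun p q h a1 a2 a3 a4 => ?_
  simp only [List.forall_mem_cons, zero_mul, one_mul, neg_mul, add_zero, zero_add] at h
  obtain ⟨h0, h1, h2, h3, h4, h5, h6, -⟩ := h
  refine ⟨?_, ⟨?_, ?_⟩, ⟨?_, ?_⟩, ⟨?_, ?_⟩, Or.inr (Or.inr (Or.inr (Or.inl rfl)))⟩
  · unfold psi
    exact
      ((if_neg fun _ => by linarith).trans ((if_neg fun _ => by linarith).trans ((if_neg fun _ =>
      by linarith).trans (two (fun _ => (two (fun _ => (tr (by linarith) (by linarith) (by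
      linarith))) (fun _ => (tr rfl (by linarith) (by linarith))))) (fun _ => ((if_neg fun _ => by
      linarith).trans ((if_neg fun _ => by linarith).trans ((if_pos (by linarith)).trans
      rfl))))))))
  all_goals dsimp only; linarith

theorem c29 : Cv [(-1, 1, 2), (1, 0, -3), (1, -1, 0), (0, 1, -1), (0, 1, 1), (1, 0, -1), (1, 0, 1)] := by
  refine leaf (fun p q => (-2 - q, -1, 4 + p)) (fun P Q => by unfold e2 d2; ring) fun p q h a1 a2 a3 a4 => ?_
  simp only [List.forall_mem_cons, zero_mul, one_mul, neg_mul, add_zero, zero_add] at h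
  obtain ⟨h0, h1, h2, h3, h4, h5, h6, -⟩ := h
  refine ⟨?_, ⟨?_, ?_⟩, ⟨?_, ?_⟩, ⟨?_, ?_⟩, Or.inr (Or.inr (Or.inr (Or.inl rfl)))⟩
  · unfold psi
    exact
      ((if_neg fun _ => by linarith).trans ((if_neg fun _ => by linarith).trans ((if_neg fun _ =>
      by linarith).trans (two (fun _ => ((if_pos (by linarith)).trans (tr (by linarith) (by
      linarith) (by linarith)))) (fun _ => ((if_neg fun _ => by linarith).trans (two (fun _ => (tr
      rfl rfl (by linarith))) (fun _ => (two (fun _ => (tr (by linarith) rfl (by linarith))) (fun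
      _ => rfl))))))))))
  all_goals dsimp only; linarith

theorem all : Cv [] :=
  split (by norm_num) (split (by norm_num) (split (by norm_num) (split (by norm_num) c1 c2) (split
  (by norm_num) c3 (split (by norm_num) c4 c5))) (split (by norm_num) (split (by norm_num) c6 c7)
  (split (by norm_num) (split (by norm_num) c8 c9) (split (by norm_num) c10 (split (by norm_num)
  c11 c12))))) (split (by norm_num) (split (by norm_num) c13 (split (by norm_num) c14 (split (by
  norm_num) c15 (split (by norm_num) c16 c17)))) (split (by norm_num) (split (by norm_num) (split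
  (by norm_num) c18 c19) (split (by norm_num) c20 (split (by norm_num) c21 c22))) (split (by
  norm_num) (split (by norm_num) c23 c24) (split (by norm_num) (split (by norm_num) c25 c26)
  (split (by norm_num) c27 (split (by norm_num) c28 c29))))))

end PsiP

theorem sPsi : SPsi := by
  obtain ⟨⟨A, a1, a2, a3⟩, a4⟩ := PsiP.all
  exact ⟨⟨A, a1, fun P hP => a2 ⟨fun _ h => absurd h List.not_mem_nil, hP⟩, a3⟩,
    fun P hP => a4 P ⟨fun _ h => absurd h List.not_mem_nil, hP⟩⟩

end Pool.Agent.P.MP_dba4bb_co.Ex
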