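import Pool.Agent.P.MP_dba4bb_co.Ex.S1

/-! Package R0: covers by a nearly square paper are near the folding of the square. -/

namespace Pool.Agent.P.MP_dba4bb_co.Ex

open Set Filter Topology

namespace R0

theorem dist_sq_le_e2 (p q : P3) : dist p q ^ 2 ≤ e2 p q := by
  have s1 := sq_nonneg (p.1 - q.1)
  have s2 := sq_nonneg (p.2.1 - q.2.1)
  have s3 := sq_nonneg (p.2.2 - q.2.2)
  have h : dist p q ≤ √(e2 p q) := by
    simp only [Prod.dist_eq, Real.dist_eq]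
    refine max_le ?_ (max_le ?_ ?_) <;> refine Real.abs_le_sqrt ?_ <;> unfold e2 <;> linarith
  calc dist p q ^ 2 ≤ √(e2 p q) ^ 2 := pow_le_pow_left₀ dist_nonneg h 2
    _ = e2 p q := Real.sq_sqrt (e2_nonneg p q)

theorem e2_le_dist (p q : P3) : e2 p q ≤ 3 * dist p q ^ 2 := by
  have h1 : |p.1 - q.1| ≤ dist p q := by
    rw [Prod.dist_eq, ← Real.dist_eq]; exact le_max_left _ _
  have h2 : |p.2.1 - q.2.1| ≤ dist p q := by
    rw [Prod.dist_eq, Prod.dist_eq, ← Real.dist_eq]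
    exact (le_max_left _ _).trans (le_max_right _ _)
  have h3 : |p.2.2 - q.2.2| ≤ dist p q := by
    rw [Prod.dist_eq, Prod.dist_eq, ← Real.dist_eq]
    exact (le_max_right _ _).trans (le_max_right _ _)
  have k1 := sq_le_sq' (abs_le.1 h1).1 (abs_le.1 h1).2
  have k2 := sq_le_sq' (abs_le.1 h2).1 (abs_le.1 h2).2
  have k3 := sq_le_sq' (abs_le.1 h3).1 (abs_le.1 h3).2
  unfold e2
  linarith

theorem d2_le_dist (P Q : P2) : d2 P Q ≤ 2 * dist P Q ^ 2 := by
  have h1 : |P.1 - Q.1| ≤ dist P Q := by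
    rw [Prod.dist_eq, ← Real.dist_eq]; exact le_max_left _ _
  have h2 : |P.2 - Q.2| ≤ dist P Q := by
    rw [Prod.dist_eq, ← Real.dist_eq]; exact le_max_right _ _
  have k1 := sq_le_sq' (abs_le.1 h1).1 (abs_le.1 h1).2
  have k2 := sq_le_sq' (abs_le.1 h2).1 (abs_le.1 h2).2
  unfold d2
  linarith

theorem cover_dist {a b : ℝ} {F : P2 → P3} (h : Cover 1 a b F) (P Q : P2) :
    dist (F P) (F Q) ≤ 2 * dist P Q := by
  have h0 := h.lip P Q
  have h1 := dist_sq_le_e2 (F P) (F Q)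
  have h2 := d2_le_dist P Q
  have hd : 0 ≤ dist P Q := dist_nonneg
  exact (abs_le_of_sq_le_sq' (by nlinarith) (by positivity)).2

theorem sym_cont {g : P3 → P3} (hg : Sym g) : Continuous g := by
  refine (LipschitzWith.of_dist_le_mul (K := 2) fun p q => ?_).continuous
  have h0 := hg.iso p q
  have h1 := dist_sq_le_e2 (g p) (g q)
  have h2 := e2_le_dist p q
  have hd : 0 ≤ dist p q := dist_nonneg
  simp only [NNReal.coe_ofNat]
  exact (abs_le_of_sq_le_sq' (by nlinarith) (by positivity)).2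

theorem isClosed_Sf : IsClosed Sf := by
  have c1 : Continuous fun q : P3 => q.1 := by fun_prop
  have c2 : Continuous fun q : P3 => q.2.1 := by fun_prop
  have c3 : Continuous fun q : P3 => q.2.2 := by fun_prop
  have cc : ∀ x : ℝ, Continuous fun _ : P3 => x := fun _ => continuous_const
  exact ((isClosed_le (cc _) c1).inter (isClosed_le c1 (cc _))).inter
    (((isClosed_le (cc _) c2).inter (isClosed_le c2 (cc _))).inter
      (((isClosed_le (cc _) c3).inter (isClosed_le c3 (cc _))).inter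
        ((isClosed_eq c1 (cc _)).union ((isClosed_eq c1 (cc _)).union
          ((isClosed_eq c2 (cc _)).union ((isClosed_eq c2 (cc _)).union
            ((isClosed_eq c3 (cc _)).union (isClosed_eq c3 (cc _)))))))))

theorem isCompact_Sf : IsCompact Sf :=
  (isCompact_Icc (a := ((-1, -1, -1) : P3)) (b := (1, 1, 1))).of_isClosed_subset isClosed_Sf
    fun _ ⟨h1, h2, h3, _⟩ => ⟨⟨h1.1, h2.1, h3.1⟩, h1.2, h2.2, h3.2⟩

theorem box_lim (U : Ultrafilter ℕ) (Pn : ℕ → P2)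
    (h : ∀ᶠ n in U, |(Pn n).1| ≤ 3 ∧ |(Pn n).2| ≤ 3) : ∃ P, Tendsto Pn U (𝓝 P) := by
  have hc : IsCompact (Icc ((-3, -3) : P2) (3, 3)) := isCompact_Icc
  obtain ⟨P, -, hP⟩ := hc.ultrafilter_le_nhds (U.map Pn) (by
    rw [Ultrafilter.coe_map, le_principal_iff, mem_map]
    filter_upwards [h] with n hn
    exact ⟨⟨(abs_le.1 hn.1).1, (abs_le.1 hn.2).1⟩, (abs_le.1 hn.1).2, (abs_le.1 hn.2).2⟩)
  exact ⟨P, hP⟩

/-- continuous convergence along an ultrafilter -/
def Conv (U : Ultrafilter ℕ) (H : ℕ → P2 → P3) (K : P2 → P3) : Prop :=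
  ∀ (Pn : ℕ → P2) (P : P2), Tendsto Pn U (𝓝 P) → Tendsto (fun n => H n (Pn n)) U (𝓝 (K P))

theorem Conv.pre {U : Ultrafilter ℕ} {H : ℕ → P2 → P3} {K : P2 → P3} (h : Conv U H K)
    {φ : P2 → P2} (hφ : Continuous φ) : Conv U (fun n x => H n (φ x)) fun x => K (φ x) :=
  fun Pn P hP => h (fun n => φ (Pn n)) (φ P) ((hφ.tendsto P).comp hP)

theorem Conv.post {U : Ultrafilter ℕ} {H : ℕ → P2 → P3} {K : P2 → P3} (h : Conv U H K)
    {g : P3 → P3} (hg : Continuous g) : Conv U (fun n x => g (H n x)) fun x => g (K x) :=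
  fun Pn P hP => (hg.tendsto _).comp (h Pn P hP)

theorem clause {U : Ultrafilter ℕ} {H : ℕ → P2 → P3} {K : P2 → P3} (conv : Conv U H K)
    {η : ℕ → ℝ} (hη : Tendsto η U (𝓝 0)) (c Ψ : P2 × P3 → ℝ) (hc : Continuous c)
    (hΨ : Continuous Ψ) (h0 : ∀ P, 0 ≤ c (P, K P) → Ψ (P, K P) ≤ 0) {ε : ℝ} (hε : 0 < ε) :
    ∀ᶠ n in U, ∀ P : P2, |P.1| ≤ 3 → |P.2| ≤ 3 → -η n ≤ c (P, H n P) → Ψ (P, H n P) ≤ ε := by
  by_contra hcon
  have h1 := Ultrafilter.eventually_not.2 hcon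
  have h2 : ∀ᶠ n in U, ∃ P : P2,
      (|P.1| ≤ 3 ∧ |P.2| ≤ 3) ∧ -η n ≤ c (P, H n P) ∧ ε ≤ Ψ (P, H n P) := by
    filter_upwards [h1] with n hn
    by_contra h3
    refine hn fun P a1 a2 a3 => ?_
    by_contra a4
    exact h3 ⟨P, ⟨a1, a2⟩, a3, (not_le.1 a4).le⟩
  obtain ⟨Pn, hPn⟩ := h2.choice
  obtain ⟨P, hP⟩ := box_lim U Pn (hPn.mono fun n hn => hn.1)
  have hl : Tendsto (fun n => (Pn n, H n (Pn n))) U (𝓝 (P, K P)) := hP.prodMk_nhds (conv Pn P hP)
  have k1 : -0 ≤ c (P, K P) :=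
    le_of_tendsto_of_tendsto hη.neg ((hc.tendsto _).comp hl) (hPn.mono fun n hn => hn.2.1)
  have k2 : ε ≤ Ψ (P, K P) :=
    ge_of_tendsto ((hΨ.tendsto _).comp hl) (hPn.mono fun n hn => hn.2.2)
  have := h0 P (by linarith)
  linarith

/-- the limit of covers is a cover of the square -/
theorem limit (U : Ultrafilter ℕ) {η : ℕ → ℝ} (hη : Tendsto η U (𝓝 0)) (h1 : ∀ n, η n ≤ 1)
    (F : ℕ → P2 → P3) (hF : ∀ n, Cover 1 (2 + η n) (2 + η n) (F n)) :
    ∃ G, Cover 1 2 2 G ∧ Conv U F G := by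
  have ex : ∀ P, ∃ q ∈ Sf, Tendsto (fun n => F n P) U (𝓝 q) := fun P =>
    isCompact_Sf.ultrafilter_le_nhds (U.map fun n => F n P) (by
      rw [Ultrafilter.coe_map, le_principal_iff, mem_map]
      exact Eventually.of_forall fun n => (hF n).mem P)
  choose G hG1 hG2 using ex
  have conv : Conv U F G := fun Pn P hP => by
    refine (hG2 P).congr_dist (squeeze_zero (fun _ => dist_nonneg)
      (fun n => cover_dist (hF n) P (Pn n)) ?_)
    have : Tendsto (fun n => 2 * dist P (Pn n)) U (𝓝 (2 * dist P P)) :=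
      (tendsto_const_nhds.dist hP).const_mul 2
    simpa using this
  refine ⟨G, ⟨le_rfl, hG1, fun P Q => ?_, fun q hq => ?_⟩, conv⟩
  · have ce : Continuous fun x : P3 × P3 => 1 * e2 x.1 x.2 := by unfold e2; fun_prop
    exact le_of_tendsto ((ce.tendsto _).comp ((hG2 P).prodMk_nhds (hG2 Q)))
      (Eventually.of_forall fun n => (hF n).lip P Q)
  · choose Pn a1 a2 a3 using fun n => (hF n).surj q hq
    obtain ⟨P, hP⟩ := box_lim U Pn (Eventually.of_forall fun n =>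
      ⟨by linarith [a1 n, h1 n], by linarith [a2 n, h1 n]⟩)
    have e : Tendsto (fun n => 2 + η n) U (𝓝 (2 + 0)) := hη.const_add 2
    have b1 : |P.1| ≤ 2 + 0 := le_of_tendsto_of_tendsto'
      ((continuous_fst.tendsto P).comp hP).abs e a1
    have b2 : |P.2| ≤ 2 + 0 := le_of_tendsto_of_tendsto'
      ((continuous_snd.tendsto P).comp hP).abs e a2
    refine ⟨P, by linarith, by linarith, ?_⟩
    have t := conv Pn P hP
    simp only [a3] at t
    exact tendsto_nhds_unique t tendsto_const_nhds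

/-- a clause for a quadrant -/
theorem top {U : Ultrafilter ℕ} {H : ℕ → P2 → P3} {K : P2 → P3} (conv : Conv U H K)
    {η : ℕ → ℝ} (hη : Tendsto η U (𝓝 0)) (h0 : ∀ n, 0 ≤ η n) (h1 : ∀ n, η n ≤ 1)
    (s t : ℝ) (hs : s = 1 ∨ s = -1) (ht : t = 1 ∨ t = -1) (A B : P3 → ℝ) (hA : Continuous A)
    (hB : Continuous B)
    (h : ∀ P : P2, 0 ≤ s * P.1 → s * P.1 ≤ 2 → 0 ≤ t * P.2 → t * P.2 ≤ 2 → 1 ≤ cz (K P) →
      |P.1 - A (K P)| ≤ 0 ∧ |P.2 - B (K P)| ≤ 0) {ε : ℝ} (hε : 0 < ε) :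
    ∀ᶠ n in U, ∀ P : P2, 0 ≤ s * P.1 → s * P.1 ≤ 2 + η n → 0 ≤ t * P.2 → t * P.2 ≤ 2 + η n →
      1 - η n ≤ cz (H n P) → |P.1 - A (H n P)| ≤ ε ∧ |P.2 - B (H n P)| ≤ ε := by
  have := clause conv hη
    (fun x => min (s * x.1.1) (min (2 - s * x.1.1) (min (t * x.1.2) (min (2 - t * x.1.2)
      (cz x.2 - 1))))) (fun x => max |x.1.1 - A x.2| |x.1.2 - B x.2|)
    (by unfold cz; fun_prop) (by fun_prop) (fun P hP => by
      simp only [le_min_iff] at hP
      obtain ⟨a1, a2, a3, a4, a5⟩ := hP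
      exact max_le_iff.2 (h P a1 (by linarith) a3 (by linarith) (by linarith))) hε
  filter_upwards [this] with n hn P a1 a2 a3 a4 a5
  have b0 := h0 n
  have b1 := h1 n
  refine max_le_iff.1 (hn P ?_ ?_ ?_)
  · rcases hs with rfl | rfl <;> exact abs_le.2 ⟨by linarith, by linarith⟩
  · rcases ht with rfl | rfl <;> exact abs_le.2 ⟨by linarith, by linarith⟩
  · simp only [le_min_iff]
    exact ⟨by linarith, by linarith, by linarith, by linarith, by linarith⟩

/-- a clause for a vertex -/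
theorem vert {U : Ultrafilter ℕ} {H : ℕ → P2 → P3} {K : P2 → P3} (conv : Conv U H K)
    {η : ℕ → ℝ} (hη : Tendsto η U (𝓝 0)) (h0 : ∀ n, 0 ≤ η n) (h1 : ∀ n, η n ≤ 1)
    (w : P3) (x y : ℝ)
    (h : ∀ P : P2, |P.1| ≤ 2 → |P.2| ≤ 2 → K P = w → |P.1 - x| ≤ 0 ∧ |P.2 - y| ≤ 0)
    {ε : ℝ} (hε : 0 < ε) :
    ∀ᶠ n in U, ∀ P : P2, |P.1| ≤ 2 + η n → |P.2| ≤ 2 + η n → H n P = w →
      |P.1 - x| ≤ ε ∧ |P.2 - y| ≤ ε := by
  have := clause conv hη
    (fun p => min (2 - |p.1.1|) (min (2 - |p.1.2|) (-e2 p.2 w)))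
    (fun p => max |p.1.1 - x| |p.1.2 - y|)
    (by unfold e2; fun_prop) (by fun_prop) (fun P hP => by
      simp only [le_min_iff] at hP
      obtain ⟨a1, a2, a3⟩ := hP
      exact max_le_iff.2 (h P (by linarith) (by linarith) (e2_eq_zero (by linarith)))) hε
  filter_upwards [this] with n hn P a1 a2 a3
  have b0 := h0 n
  have b1 := h1 n
  refine max_le_iff.1 (hn P (by linarith) (by linarith) ?_)
  have e : e2 (H n P) w = 0 := by rw [a3]; simp [e2]
  simp only [le_min_iff]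
  exact ⟨by linarith, by linarith, by linarith⟩

/-- a clause for a side -/
theorem side {U : Ultrafilter ℕ} {H : ℕ → P2 → P3} {K : P2 → P3} (conv : Conv U H K)
    {η : ℕ → ℝ} (hη : Tendsto η U (𝓝 0)) (h0 : ∀ n, 0 ≤ η n)
    (φ : P2 → P2) (hφ : Continuous φ) (ψ : P2 → P3) (hψ : Continuous ψ)
    (h : ∀ s z : ℝ, 0 ≤ s → s ≤ 1 → 0 ≤ z → z ≤ 1 → e2 (K (φ (s, z))) (ψ (s, z)) ≤ 0 ^ 2)
    {ε : ℝ} (hε : 0 < ε) :
    ∀ᶠ n in U, ∀ s z : ℝ, 0 ≤ s → s ≤ 1 → 0 ≤ z → z ≤ 1 →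
      e2 (H n (φ (s, z))) (ψ (s, z)) ≤ ε ^ 2 := by
  have := clause (conv.pre hφ) hη
    (fun p => min p.1.1 (min (1 - p.1.1) (min p.1.2 (1 - p.1.2))))
    (fun p => e2 p.2 (ψ p.1))
    (by fun_prop) (by unfold e2; fun_prop) (fun P hP => by
      simp only [le_min_iff] at hP
      obtain ⟨a1, a2, a3, a4⟩ := hP
      have := h P.1 P.2 a1 (by linarith) a3 (by linarith)
      simpa using this) (pow_pos hε 2)
  filter_upwards [this] with n hn s z a1 a2 a3 a4
  have b0 := h0 n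
  refine hn (s, z) (abs_le.2 ⟨by linarith, by linarith⟩) (abs_le.2 ⟨by linarith, by linarith⟩) ?_
  simp only [le_min_iff]
  exact ⟨by linarith, by linarith, by linarith, by linarith⟩

theorem near {U : Ultrafilter ℕ} {H : ℕ → P2 → P3} {K : P2 → P3} (conv : Conv U H K)
    {η : ℕ → ℝ} (hη : Tendsto η U (𝓝 0)) (h0 : ∀ n, 0 ≤ η n) (h1 : ∀ n, η n ≤ 1)
    (hK : Near 0 0 K) {ε : ℝ} (hε : 0 < ε) : ∀ᶠ n in U, Near ε (η n) (H n) := by
  have cX : Continuous cx := by unfold cx; fun_prop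
  have cY : Continuous cy := by unfold cy; fun_prop
  have tN := top conv hη h0 h1 1 1 (.inl rfl) (.inl rfl) (fun q => 2 - cy q) (fun q => 2 - cx q)
    (by fun_prop) (by fun_prop) (fun P a1 a2 a3 a4 a5 => hK.tN P (by linarith) (by linarith)
      (by linarith) (by linarith) (by linarith)) hε
  have tW := top conv hη h0 h1 (-1) 1 (.inr rfl) (.inl rfl) (fun q => -2 + cy q)
    (fun q => 2 + cx q) (by fun_prop) (by fun_prop) (fun P a1 a2 a3 a4 a5 => hK.tW P
      (by linarith) (by linarith) (by linarith) (by linarith) (by linarith)) hε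
  have tS := top conv hη h0 h1 (-1) (-1) (.inr rfl) (.inr rfl) (fun q => -2 - cy q)
    (fun q => -2 - cx q) (by fun_prop) (by fun_prop) (fun P a1 a2 a3 a4 a5 => hK.tS P
      (by linarith) (by linarith) (by linarith) (by linarith) (by linarith)) hε
  have tE := top conv hη h0 h1 1 (-1) (.inl rfl) (.inr rfl) (fun q => 2 + cy q)
    (fun q => -2 + cx q) (by fun_prop) (by fun_prop) (fun P a1 a2 a3 a4 a5 => hK.tE P
      (by linarith) (by linarith) (by linarith) (by linarith) (by linarith)) hε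
  have w1 := vert conv hη h0 h1 (cp 1 0 0) 1 0 (fun P a1 a2 a3 => by
    simpa using hK.w1 P (by linarith) (by linarith) a3) hε
  have w2 := vert conv hη h0 h1 (cp 0 1 0) 0 1 (fun P a1 a2 a3 => by
    simpa using hK.w2 P (by linarith) (by linarith) a3) hε
  have w3 := vert conv hη h0 h1 (cp (-1) 0 0) (-1) 0 (fun P a1 a2 a3 => by
    simpa using hK.w3 P (by linarith) (by linarith) a3) hε
  have w4 := vert conv hη h0 h1 (cp 0 (-1) 0) 0 (-1) (fun P a1 a2 a3 => by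
    simpa using hK.w4 P (by linarith) (by linarith) a3) hε
  have sN := side conv hη h0 (fun x => (x.1 + x.2, 1 - x.1 + x.2)) (by fun_prop)
    (fun x => cp x.1 (1 - x.1) x.2) (by unfold cp; fun_prop) hK.sN hε
  have sW := side conv hη h0 (fun x => (-x.1 - x.2, 1 - x.1 + x.2)) (by fun_prop)
    (fun x => cp (-x.1) (1 - x.1) x.2) (by unfold cp; fun_prop) hK.sW hε
  have sS := side conv hη h0 (fun x => (-x.1 - x.2, -(1 - x.1) - x.2)) (by fun_prop)
    (fun x => cp (-x.1) (-(1 - x.1)) x.2) (by unfold cp; fun_prop) hK.sS hε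
  have sE := side conv hη h0 (fun x => (x.1 + x.2, -(1 - x.1) - x.2)) (by fun_prop)
    (fun x => cp x.1 (-(1 - x.1)) x.2) (by unfold cp; fun_prop) hK.sE hε
  filter_upwards [tN, tW, tS, tE, w1, w2, w3, w4, sN, sW, sS, sE] with n tN tW tS tE w1 w2 w3 w4
    sN sW sS sE
  exact ⟨fun P a1 a2 a3 a4 a5 => tN P (by linarith) (by linarith) (by linarith) (by linarith) a5,
    fun P a1 a2 a3 a4 a5 => tW P (by linarith) (by linarith) (by linarith) (by linarith) a5,
    fun P a1 a2 a3 a4 a5 => tS P (by linarith) (by linarith) (by linarith) (by linarith) a5,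
    fun P a1 a2 a3 a4 a5 => tE P (by linarith) (by linarith) (by linarith) (by linarith) a5,
    fun P a1 a2 a3 => by simpa using w1 P a1 a2 a3,
    fun P a1 a2 a3 => by simpa using w2 P a1 a2 a3,
    fun P a1 a2 a3 => by simpa using w3 P a1 a2 a3,
    fun P a1 a2 a3 => by simpa using w4 P a1 a2 a3, sN, sW, sS, sE⟩

end R0

open R0 in
theorem sR0 : SR0 := by
  intro hSq ε hε
  by_contra hcon
  let η : ℕ → ℝ := fun n => min ε (1 / ((n : ℝ) + 1))
  have p : ∀ n : ℕ, (0 : ℝ) < 1 / ((n : ℝ) + 1) := fun n => by positivity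
  have h0 : ∀ n, 0 < η n := fun n => lt_min hε (p n)
  have h1 : ∀ n, η n ≤ 1 := fun n => (min_le_right _ _).trans (by
    rw [div_le_one (by positivity)]; linarith [Nat.cast_nonneg (α := ℝ) n])
  have ex : ∀ n, ∃ F, Cover 1 (2 + η n) (2 + η n) F ∧
      ¬ ∃ g, Sym g ∧ Near ε (η n) fun P => g (F P) := fun n => by
    by_contra h
    refine hcon ⟨η n, h0 n, min_le_left _ _, fun a b F ha hb hF => ?_⟩
    by_contra h'
    exact h ⟨F, hF.mono (by linarith [(abs_le.1 ha).2]) (by linarith [(abs_le.1 hb).2]), h'⟩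
  choose F hF hbad using ex
  let U : Ultrafilter ℕ := Ultrafilter.of atTop
  have hη : Tendsto η U (𝓝 0) :=
    (squeeze_zero (fun n => (h0 n).le) (fun n => min_le_right _ _)
      tendsto_one_div_add_atTop_nhds_zero_nat).mono_left (Ultrafilter.of_le _)
  obtain ⟨G, hG, conv⟩ := limit U hη h1 F hF
  obtain ⟨g, hg, hK⟩ := hSq G hG
  obtain ⟨n, hn⟩ := (near (conv.post (sym_cont hg)) hη (fun n => (h0 n).le) h1 hK hε).exists
  exact hbad n ⟨g, hg, hn⟩

end Pool.Agent.P.MP_dba4bb_co.Ex
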