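import Pool.Agent.P.MP_dba4bb_co.Ex.LP3

/-! Struts between nodes near the optimal configuration. -/

namespace Pool.Agent.P.MP_dba4bb_co.Ex

theorem mul_le_abs {x y A B : ℝ} (hx : |x| ≤ A) (hy : |y| ≤ B) : x * y ≤ A * B := by
  refine (le_abs_self _).trans ?_
  rw [abs_mul]
  exact mul_le_mul hx hy (abs_nonneg _) ((abs_nonneg _).trans hx)

theorem row3 {t δ β X Y p q X' Y' p' q' W D : ℝ} (a1 a2 m g : ℝ)
    (h : (1 + t ^ 2) * W ≤ d2 (pt t δ β X Y p q) (pt t δ β X' Y' p' q'))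
    (e : (X - X') ^ 2 + (Y - Y') ^ 2 ≤ W + g) (hg : 0 ≤ g) (t0 : 0 ≤ t) (t1 : t ≤ m) (hm : m ≤ 1)
    (h1 : |X - X' - a1| ≤ m) (h2 : |Y - Y' - a2| ≤ m) (ha1 : |a1| ≤ 2) (ha2 : |a2| ≤ 2)
    (b1 : |p| ≤ D) (b2 : |q| ≤ D) (b3 : |p'| ≤ D) (b4 : |q'| ≤ D) :
    0 ≤ a1 * (p - p') + a2 * (q - q') + (16 * m * D + 4 * D ^ 2 + g) := by
  simp only [d2, pt] at h
  have d1 : |p - p'| ≤ 2 * D := (abs_sub _ _).trans (by linarith)
  have d2 : |q - q'| ≤ 2 * D := (abs_sub _ _).trans (by linarith)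
  have tt : |t| ≤ m := by rwa [abs_of_nonneg t0]
  have u1 : |X - X'| ≤ 3 := by
    have := abs_le.1 h1; have := abs_le.1 ha1; rw [abs_le]; constructor <;> linarith
  have u2 : |Y - Y'| ≤ 3 := by
    have := abs_le.1 h2; have := abs_le.1 ha2; rw [abs_le]; constructor <;> linarith
  have v1 : |X - X' - a1 - t * (Y - Y')| ≤ 4 * m := by
    refine (abs_sub _ _).trans ?_
    have := mul_le_abs (abs_abs t ▸ tt) (abs_abs (Y - Y') ▸ u2)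
    rw [abs_mul]; linarith
  have v2 : |Y - Y' - a2 + t * (X - X')| ≤ 4 * m := by
    refine (abs_add_le _ _).trans ?_
    have := mul_le_abs (abs_abs t ▸ tt) (abs_abs (X - X') ▸ u1)
    rw [abs_mul]; linarith
  have w1 := mul_le_abs v1 d1
  have w2 := mul_le_abs v2 d2
  have w3 := mul_le_abs d1 d1
  have w4 := mul_le_abs d2 d2
  have w5 : t ^ 2 * g ≤ g := mul_le_of_le_one_left hg (by nlinarith)
  have w6 := mul_le_mul_of_nonneg_left e (show 0 ≤ 1 + t ^ 2 by positivity)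
  linarith

theorem row4 {t δ β X Y p q X' Y' p' q' W D : ℝ} (a1 a2 : ℝ)
    (h : (1 + t ^ 2) * W ≤ d2 (pt t δ β X Y p q) (pt t δ β X' Y' p' q'))
    (e : (X - X') ^ 2 + (Y - Y') ^ 2 = W) (t0 : 0 ≤ t) (t1 : t ≤ β) (hm : β ≤ 1 / 10)
    (h1 : -(4 * β) ≤ X - X' - a1 ∧ X - X' - a1 ≤ 4 * β)
    (h2 : -(4 * β) ≤ Y - Y' - a2 ∧ Y - Y' - a2 ≤ 4 * β) (ha : |a1| ≤ 2 ∧ |a2| ≤ 2)
    (b1 : |p| ≤ D) (b2 : |q| ≤ D) (b3 : |p'| ≤ D) (b4 : |q'| ≤ D) :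
    0 ≤ a1 * (p - p') + a2 * (q - q') + (64 * β * D + 4 * D ^ 2) := by
  have := row3 a1 a2 (4 * β) 0 h (by linarith) le_rfl t0 (by linarith) (by linarith)
    (abs_le.2 h1) (abs_le.2 h2) ha.1 ha.2 b1 b2 b3 b4
  linarith

/-- the slides are small -/
structure Sl (β t C S ρ x y h : ℝ) (e : C3) : Prop where
  β0 : 0 < β
  β1 : β ≤ 1 / 100
  t0 : 0 ≤ t
  t1 : t ≤ β
  k2 : -β ≤ 3 / 2 * t + e.k2 ∧ 3 / 2 * t + e.k2 ≤ β
  k3 : -β ≤ 3 / 2 * t + e.k3 ∧ 3 / 2 * t + e.k3 ≤ β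
  x : 0 ≤ x + e.x ∧ x + e.x ≤ 3 * β
  y : -β ≤ y + e.y ∧ y + e.y ≤ β
  h : |h + e.h| ≤ β
  c : 0 ≤ C * (ρ + e.r) ∧ C * (ρ + e.r) ≤ β
  s : 0 ≤ S * (ρ + e.r) ∧ S * (ρ + e.r) ≤ C * (ρ + e.r)
  u : -β ≤ e.u - 7 / 8 ∧ e.u - 7 / 8 ≤ β
  v : -β ≤ e.v - 1 / 16 ∧ e.v - 1 / 16 ≤ β

variable {a b β t δ C S ρ x y h D : ℝ} {F : P2 → P3} {e : C3}

theorem Geo3.zN' (g : Geo3 β t δ C S ρ x y h F e) :
    F (pt t δ β (2 - (C + S) * (ρ + e.r)) (1 + (C - S) * (ρ + e.r)) e.zNx e.zNy) =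
      cp (1 - C * (ρ + e.r)) (1 - (1 - C * (ρ + e.r))) (1 - S * (ρ + e.r)) := by
  rw [sub_sub_cancel]; exact g.zN

theorem q_k2N_eN1 (c : Cover (1 + t ^ 2) a b F) (g : Geo3 β t δ C S ρ x y h F e)
    (s : Sl β t C S ρ x y h e) (bd : Bd3 D e) :
    0 ≤ 1 / 4 * e.k2Nx + 1 / 4 * e.k2Ny - 1 / 4 * e.eN1x - 1 / 4 * e.eN1y +
      (64 * β * D + 4 * D ^ 2) := by
  have := row4 (1 / 4) (1 / 4) (c.eu g.k2N g.eN1)
    (by ring) s.t0 s.t1 (by linarith [s.β1])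
    (by constructor <;> linarith [s.β0, s.k2.1, s.k2.2])
    (by constructor <;> linarith [s.β0, s.k2.1, s.k2.2])
    (by norm_num [abs_le]) bd.k2Nx bd.k2Ny bd.eN1x bd.eN1y
  linarith

theorem q_k2W_eW1 (c : Cover (1 + t ^ 2) a b F) (g : Geo3 β t δ C S ρ x y h F e)
    (s : Sl β t C S ρ x y h e) (bd : Bd3 D e) :
    0 ≤ -1 / 4 * e.k2Wx + 1 / 4 * e.k2Wy + 1 / 4 * e.eW1x - 1 / 4 * e.eW1y +
      (64 * β * D + 4 * D ^ 2) := by
  have := row4 (-1 / 4) (1 / 4) (c.eu g.k2W g.eW1)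
    (by ring) s.t0 s.t1 (by linarith [s.β1])
    (by constructor <;> linarith [s.β0, s.k2.1, s.k2.2])
    (by constructor <;> linarith [s.β0, s.k2.1, s.k2.2])
    (by norm_num [abs_le]) bd.k2Wx bd.k2Wy bd.eW1x bd.eW1y
  linarith

theorem q_k2W_k3W (c : Cover (1 + t ^ 2) a b F) (g : Geo3 β t δ C S ρ x y h F e)
    (s : Sl β t C S ρ x y h e) (bd : Bd3 D e) :
    0 ≤ 1 / 2 * e.k2Wx + 1 / 2 * e.k2Wy - 1 / 2 * e.k3Wx - 1 / 2 * e.k3Wy +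
      (64 * β * D + 4 * D ^ 2) := by
  have := row4 (1 / 2) (1 / 2) (c.eu g.k2W g.k3W)
    (by ring) s.t0 s.t1 (by linarith [s.β1])
    (by constructor <;> linarith [s.β0, s.k2.1, s.k2.2, s.k3.1, s.k3.2])
    (by constructor <;> linarith [s.β0, s.k2.1, s.k2.2, s.k3.1, s.k3.2])
    (by norm_num [abs_le]) bd.k2Wx bd.k2Wy bd.k3Wx bd.k3Wy
  linarith

theorem q_k3S_eS2 (c : Cover (1 + t ^ 2) a b F) (g : Geo3 β t δ C S ρ x y h F e)
    (s : Sl β t C S ρ x y h e) (bd : Bd3 D e) :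
    0 ≤ -1 / 2 * e.k3Sx + 1 / 2 * e.eS2x +
      (64 * β * D + 4 * D ^ 2) := by
  have := row4 (-1 / 2) 0 (c.eu g.k3S g.eS2)
    (by ring) s.t0 s.t1 (by linarith [s.β1])
    (by constructor <;> linarith [s.β0, s.k3.1, s.k3.2])
    (by constructor <;> linarith [s.β0, s.k3.1, s.k3.2])
    (by norm_num [abs_le]) bd.k3Sx bd.k3Sy bd.eS2x bd.eS2y
  linarith

theorem q_p2_eN1 (c : Cover (1 + t ^ 2) a b F) (g : Geo3 β t δ C S ρ x y h F e)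
    (s : Sl β t C S ρ x y h e) (bd : Bd3 D e) :
    0 ≤ -5 / 4 * e.p2x - 3 / 4 * e.p2y + 5 / 4 * e.eN1x + 3 / 4 * e.eN1y +
      (64 * β * D + 4 * D ^ 2) := by
  have := row4 (-5 / 4) (-3 / 4) (c.eu g.p2 g.eN1)
    (by ring) s.t0 s.t1 (by linarith [s.β1])
    (by constructor <;> linarith [s.β0])
    (by constructor <;> linarith [s.β0])
    (by norm_num [abs_le]) bd.p2x bd.p2y bd.eN1x bd.eN1y
  linarith

theorem q_p2_eW1 (c : Cover (1 + t ^ 2) a b F) (g : Geo3 β t δ C S ρ x y h F e)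
    (s : Sl β t C S ρ x y h e) (bd : Bd3 D e) :
    0 ≤ 5 / 4 * e.p2x - 3 / 4 * e.p2y - 5 / 4 * e.eW1x + 3 / 4 * e.eW1y +
      (64 * β * D + 4 * D ^ 2) := by
  have := row4 (5 / 4) (-3 / 4) (c.eu g.p2 g.eW1)
    (by ring) s.t0 s.t1 (by linarith [s.β1])
    (by constructor <;> linarith [s.β0])
    (by constructor <;> linarith [s.β0])
    (by norm_num [abs_le]) bd.p2x bd.p2y bd.eW1x bd.eW1y
  linarith

theorem q_p2_hN (c : Cover (1 + t ^ 2) a b F) (g : Geo3 β t δ C S ρ x y h F e)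
    (s : Sl β t C S ρ x y h e) (bd : Bd3 D e) :
    0 ≤ -15 / 16 * e.p2x + 13 / 16 * e.p2y + 15 / 16 * e.hNx - 13 / 16 * e.hNy +
      (64 * β * D + 4 * D ^ 2) := by
  have := row4 (-15 / 16) (13 / 16) (c.eu g.p2 g.hN)
    (by ring) s.t0 s.t1 (by linarith [s.β1])
    (by constructor <;> linarith [s.β0, s.u.1, s.u.2, s.v.1, s.v.2])
    (by constructor <;> linarith [s.β0, s.u.1, s.u.2, s.v.1, s.v.2])
    (by norm_num [abs_le]) bd.p2x bd.p2y bd.hNx bd.hNy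
  linarith

theorem q_p2_k3W (c : Cover (1 + t ^ 2) a b F) (g : Geo3 β t δ C S ρ x y h F e)
    (s : Sl β t C S ρ x y h e) (bd : Bd3 D e) :
    0 ≤ 2 * e.p2x - 1 / 2 * e.p2y - 2 * e.k3Wx + 1 / 2 * e.k3Wy +
      (64 * β * D + 4 * D ^ 2) := by
  have := row4 2 (-1 / 2) (c.v2 g.p2 g.k3W)
    (by norm_num [abs_of_neg]; ring) s.t0 s.t1 (by linarith [s.β1])
    (by constructor <;> linarith [s.β0, s.k3.1, s.k3.2])
    (by constructor <;> linarith [s.β0, s.k3.1, s.k3.2])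
    (by norm_num [abs_le]) bd.p2x bd.p2y bd.k3Wx bd.k3Wy
  linarith

theorem q_p2_p4 (c : Cover (1 + t ^ 2) a b F) (g : Geo3 β t δ C S ρ x y h F e)
    (s : Sl β t C S ρ x y h e) (bd : Bd3 D e) :
    0 ≤ 2 * e.p2y - 2 * e.p4y +
      (64 * β * D + 4 * D ^ 2) := by
  have := row4 0 2 (c.eu g.p2 g.p4)
    (by ring) s.t0 s.t1 (by linarith [s.β1])
    (by constructor <;> linarith [s.β0])
    (by constructor <;> linarith [s.β0])
    (by norm_num [abs_le]) bd.p2x bd.p2y bd.p4x bd.p4y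
  linarith

theorem q_p2_zN (c : Cover (1 + t ^ 2) a b F) (g : Geo3 β t δ C S ρ x y h F e)
    (s : Sl β t C S ρ x y h e) (bd : Bd3 D e) (z1 : |e.zNx| ≤ D) (z2 : |e.zNy| ≤ D) :
    0 ≤ -2 * e.p2x + 2 * e.zNx +
      (64 * β * D + 4 * D ^ 2) := by
  have := row4 (-2) 0 (c.eu g.p2 g.zN)
    (by ring) s.t0 s.t1 (by linarith [s.β1])
    (by constructor <;> linarith [s.β0, s.c.1, s.c.2, s.s.1, s.s.2])
    (by constructor <;> linarith [s.β0, s.c.1, s.c.2, s.s.1, s.s.2])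
    (by norm_num [abs_le]) bd.p2x bd.p2y z1 z2
  linarith

theorem q_p3_eS2 (c : Cover (1 + t ^ 2) a b F) (g : Geo3 β t δ C S ρ x y h F e)
    (s : Sl β t C S ρ x y h e) (bd : Bd3 D e) :
    0 ≤ 1 / 2 * e.p3x + 3 / 2 * e.p3y - 1 / 2 * e.eS2x - 3 / 2 * e.eS2y +
      (64 * β * D + 4 * D ^ 2) := by
  have := row4 (1 / 2) (3 / 2) (c.eu g.p3 g.eS2)
    (by ring) s.t0 s.t1 (by linarith [s.β1])
    (by constructor <;> linarith [s.β0])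
    (by constructor <;> linarith [s.β0])
    (by norm_num [abs_le]) bd.p3x bd.p3y bd.eS2x bd.eS2y
  linarith

theorem q_p3_eW1 (c : Cover (1 + t ^ 2) a b F) (g : Geo3 β t δ C S ρ x y h F e)
    (s : Sl β t C S ρ x y h e) (bd : Bd3 D e) :
    0 ≤ 1 / 4 * e.p3x - 7 / 4 * e.p3y - 1 / 4 * e.eW1x + 7 / 4 * e.eW1y +
      (64 * β * D + 4 * D ^ 2) := by
  have := row4 (1 / 4) (-7 / 4) (c.eu g.p3 g.eW1)
    (by ring) s.t0 s.t1 (by linarith [s.β1])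
    (by constructor <;> linarith [s.β0])
    (by constructor <;> linarith [s.β0])
    (by norm_num [abs_le]) bd.p3x bd.p3y bd.eW1x bd.eW1y
  linarith

theorem q_p3_k2W (c : Cover (1 + t ^ 2) a b F) (g : Geo3 β t δ C S ρ x y h F e)
    (s : Sl β t C S ρ x y h e) (bd : Bd3 D e) :
    0 ≤ 1 / 2 * e.p3x - 2 * e.p3y - 1 / 2 * e.k2Wx + 2 * e.k2Wy +
      (64 * β * D + 4 * D ^ 2) := by
  have := row4 (1 / 2) (-2) (c.v3 g.p3 g.k2W)
    (by norm_num [abs_of_pos]; ring) s.t0 s.t1 (by linarith [s.β1])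
    (by constructor <;> linarith [s.β0, s.k2.1, s.k2.2])
    (by constructor <;> linarith [s.β0, s.k2.1, s.k2.2])
    (by norm_num [abs_le]) bd.p3x bd.p3y bd.k2Wx bd.k2Wy
  linarith

theorem q_p4_eS2 (c : Cover (1 + t ^ 2) a b F) (g : Geo3 β t δ C S ρ x y h F e)
    (s : Sl β t C S ρ x y h e) (bd : Bd3 D e) :
    0 ≤ 3 / 2 * e.p4x + 1 / 2 * e.p4y - 3 / 2 * e.eS2x - 1 / 2 * e.eS2y +
      (64 * β * D + 4 * D ^ 2) := by
  have := row4 (3 / 2) (1 / 2) (c.eu g.p4 g.eS2)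
    (by ring) s.t0 s.t1 (by linarith [s.β1])
    (by constructor <;> linarith [s.β0])
    (by constructor <;> linarith [s.β0])
    (by norm_num [abs_le]) bd.p4x bd.p4y bd.eS2x bd.eS2y
  linarith

theorem q_p4_hN (c : Cover (1 + t ^ 2) a b F) (g : Geo3 β t δ C S ρ x y h F e)
    (s : Sl β t C S ρ x y h e) (bd : Bd3 D e) :
    0 ≤ -15 / 16 * e.p4x - 19 / 16 * e.p4y + 15 / 16 * e.hNx + 19 / 16 * e.hNy +
      (64 * β * D + 4 * D ^ 2) := by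
  have := row4 (-15 / 16) (-19 / 16) (c.v4N g.p4 g.hN (by linarith [s.u.1, s.β1]) (by linarith [s.u.2, s.v.2, s.β1]))
    (by ring) s.t0 s.t1 (by linarith [s.β1])
    (by constructor <;> linarith [s.β0, s.u.1, s.u.2, s.v.1, s.v.2])
    (by constructor <;> linarith [s.β0, s.u.1, s.u.2, s.v.1, s.v.2])
    (by norm_num [abs_le]) bd.p4x bd.p4y bd.hNx bd.hNy
  linarith

theorem q_p4_k3S (c : Cover (1 + t ^ 2) a b F) (g : Geo3 β t δ C S ρ x y h F e)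
    (s : Sl β t C S ρ x y h e) (bd : Bd3 D e) :
    0 ≤ 2 * e.p4x + 1 / 2 * e.p4y - 2 * e.k3Sx - 1 / 2 * e.k3Sy +
      (64 * β * D + 4 * D ^ 2) := by
  have := row4 2 (1 / 2) (c.v4 g.p4 g.k3S)
    (by norm_num [abs_of_neg]; ring) s.t0 s.t1 (by linarith [s.β1])
    (by constructor <;> linarith [s.β0, s.k3.1, s.k3.2])
    (by constructor <;> linarith [s.β0, s.k3.1, s.k3.2])
    (by norm_num [abs_le]) bd.p4x bd.p4y bd.k3Sx bd.k3Sy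
  linarith

theorem q_p4_p3 (c : Cover (1 + t ^ 2) a b F) (g : Geo3 β t δ C S ρ x y h F e)
    (s : Sl β t C S ρ x y h e) (bd : Bd3 D e) :
    0 ≤ e.p4x - e.p4y - e.p3x + e.p3y +
      (64 * β * D + 4 * D ^ 2) := by
  have := row4 1 (-1) (c.eu g.p4 g.p3)
    (by ring) s.t0 s.t1 (by linarith [s.β1])
    (by constructor <;> linarith [s.β0])
    (by constructor <;> linarith [s.β0])
    (by norm_num [abs_le]) bd.p4x bd.p4y bd.p3x bd.p3y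
  linarith

theorem q_t2S_eS2 (c : Cover (1 + t ^ 2) a b F) (g : Geo3 β t δ C S ρ x y h F e)
    (s : Sl β t C S ρ x y h e) (bd : Bd3 D e) :
    0 ≤ -1 / 2 * e.t2Sx - 1 / 2 * e.t2Sy + 1 / 2 * e.eS2x + 1 / 2 * e.eS2y +
      (64 * β * D + 4 * D ^ 2) := by
  have := row4 (-1 / 2) (-1 / 2) (c.eu g.t2S g.eS2)
    (by ring) s.t0 s.t1 (by linarith [s.β1])
    (by constructor <;> linarith [s.β0, s.x.1, s.x.2, s.y.1, s.y.2])
    (by constructor <;> linarith [s.β0, s.x.1, s.x.2, s.y.1, s.y.2])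
    (by norm_num [abs_le]) bd.t2Sx bd.t2Sy bd.eS2x bd.eS2y
  linarith

theorem q_t2S_k3S (c : Cover (1 + t ^ 2) a b F) (g : Geo3 β t δ C S ρ x y h F e)
    (s : Sl β t C S ρ x y h e) (bd : Bd3 D e) :
    0 ≤ -1 / 2 * e.t2Sy + 1 / 2 * e.k3Sy +
      (64 * β * D + 4 * D ^ 2) := by
  have := row4 0 (-1 / 2) (c.eu g.t2S g.k3S)
    (by ring) s.t0 s.t1 (by linarith [s.β1])
    (by constructor <;> linarith [s.β0, s.x.1, s.x.2, s.y.1, s.y.2, s.k3.1, s.k3.2])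
    (by constructor <;> linarith [s.β0, s.x.1, s.x.2, s.y.1, s.y.2, s.k3.1, s.k3.2])
    (by norm_num [abs_le]) bd.t2Sx bd.t2Sy bd.k3Sx bd.k3Sy
  linarith

theorem q_zN_eN1 (c : Cover (1 + t ^ 2) a b F) (g : Geo3 β t δ C S ρ x y h F e)
    (s : Sl β t C S ρ x y h e) (bd : Bd3 D e) (z1 : |e.zNx| ≤ D) (z2 : |e.zNy| ≤ D) :
    0 ≤ 3 / 4 * e.zNx - 3 / 4 * e.zNy - 3 / 4 * e.eN1x + 3 / 4 * e.eN1y +
      (64 * β * D + 4 * D ^ 2) := by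
  have := row4 (3 / 4) (-3 / 4) (c.eu g.zN g.eN1)
    (by ring) s.t0 s.t1 (by linarith [s.β1])
    (by constructor <;> linarith [s.β0, s.c.1, s.c.2, s.s.1, s.s.2])
    (by constructor <;> linarith [s.β0, s.c.1, s.c.2, s.s.1, s.s.2])
    (by norm_num [abs_le]) z1 z2 bd.eN1x bd.eN1y
  linarith

theorem q_zN_hN (c : Cover (1 + t ^ 2) a b F) (g : Geo3 β t δ C S ρ x y h F e)
    (s : Sl β t C S ρ x y h e) (bd : Bd3 D e) (z1 : |e.zNx| ≤ D) (z2 : |e.zNy| ≤ D) :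
    0 ≤ 17 / 16 * e.zNx + 13 / 16 * e.zNy - 17 / 16 * e.hNx - 13 / 16 * e.hNy +
      (64 * β * D + 4 * D ^ 2) := by
  have := row4 (17 / 16) (13 / 16) (c.eu g.zN g.hN)
    (by ring) s.t0 s.t1 (by linarith [s.β1])
    (by constructor <;> linarith [s.β0, s.c.1, s.c.2, s.s.1, s.s.2, s.u.1, s.u.2, s.v.1, s.v.2])
    (by constructor <;> linarith [s.β0, s.c.1, s.c.2, s.s.1, s.s.2, s.u.1, s.u.2, s.v.1, s.v.2])
    (by norm_num [abs_le]) z1 z2 bd.hNx bd.hNy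
  linarith

theorem q_zN_k2N (c : Cover (1 + t ^ 2) a b F) (g : Geo3 β t δ C S ρ x y h F e)
    (s : Sl β t C S ρ x y h e) (bd : Bd3 D e) (z1 : |e.zNx| ≤ D) (z2 : |e.zNy| ≤ D) :
    0 ≤ 1 / 2 * e.zNx - e.zNy - 1 / 2 * e.k2Nx + e.k2Ny +
      (64 * β * D + 4 * D ^ 2) := by
  have := row4 (1 / 2) (-1) (c.hN g.zN' g.k2N (by linarith [s.s.2]) (by linarith [s.s.2, s.c.2, s.β1]))
    (by ring) s.t0 s.t1 (by linarith [s.β1])
    (by constructor <;> linarith [s.β0, s.c.1, s.c.2, s.s.1, s.s.2, s.k2.1, s.k2.2])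
    (by constructor <;> linarith [s.β0, s.c.1, s.c.2, s.s.1, s.s.2, s.k2.1, s.k2.2])
    (by norm_num [abs_le]) z1 z2 bd.k2Nx bd.k2Ny
  linarith

end Pool.Agent.P.MP_dba4bb_co.Ex
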