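import Pool.Agent.P.MP_dba4bb_co.Ex.S3

/-! The inequalities `SZS` and `ST2`. -/

namespace Pool.Agent.P.MP_dba4bb_co.Ex

namespace ZSP

theorem vert {A B d1 d2 E : ℝ} (h : A ^ 2 + B ^ 2 ≤ (A + d1) ^ 2 + (B + d2) ^ 2)
    (hB : 2 / 5 ≤ B) (hd : 0 ≤ B + d2) (hE0 : 0 ≤ E) (hE : 2 * A * d1 + d1 ^ 2 ≤ E) :
    -(3 * E) ≤ d2 := by
  by_contra hc
  push Not at hc
  have h1 : 0 < -d2 := by linarith
  have h2 : 2 / 5 ≤ 2 * B + d2 := by linarith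
  have h3 : -d2 * (2 / 5) ≤ -d2 * (2 * B + d2) := mul_le_mul_of_nonneg_left h2 h1.le
  nlinarith

theorem small {A d D m : ℝ} (hA : |A| ≤ m) (hd : |d| ≤ 2 * D) (hm : m ≤ 1 / 100)
    (hD : D ≤ 1 / 100) : 2 * A * d + d ^ 2 ≤ D / 3 := by
  have hD0 : 0 ≤ D := by linarith [abs_nonneg d]
  have h1 : A * d ≤ |A| * |d| := by rw [← abs_mul]; exact le_abs_self _
  have h2 : |A| * |d| ≤ 1 / 100 * (2 * D) :=
    mul_le_mul (hA.trans hm) hd (abs_nonneg _) (by norm_num)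
  have h3 : d ^ 2 ≤ (2 * D) ^ 2 := by
    rw [← sq_abs d]; exact pow_le_pow_left₀ (abs_nonneg _) hd 2
  have h4 : D * D ≤ D * (1 / 100) := mul_le_mul_of_nonneg_left hD hD0
  nlinarith

theorem root {e p : ℝ} (h : 2 ≤ (1 + e) ^ 2 + p ^ 2) (hp : 0 ≤ p) (he : |e| ≤ 1 / 4) :
    1 - e - 2 * e ^ 2 ≤ p := by
  obtain ⟨he1, he2⟩ := abs_le.1 he
  have h1 : 0 ≤ e ^ 2 * (1 - 2 * e - 2 * e ^ 2) := by
    apply mul_nonneg (sq_nonneg _)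
    nlinarith
  have h2 : (1 - e - 2 * e ^ 2) ^ 2 ≤ p ^ 2 := by linarith
  exact (abs_le_of_sq_le_sq' h2 hp).2

end ZSP

open ZSP in
theorem sZS : SZS := by
  intro β t h hs k D b1 b2 c1 c2 l1 l2 z1 z2 hβ hβ1 ht1 ht2 hs0 hs1 hD hh hk hb1 hb2 hc1 hc2
    hl1 hl2 hz1 hz2 s1 s2 s3
  have hD0 : 0 ≤ D := (abs_nonneg _).trans hb1
  have hH0 : 0 ≤ |h| := abs_nonneg h
  have hH1 : h ≤ |h| := le_abs_self h
  have hH2 : -h ≤ |h| := neg_le_abs h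
  obtain ⟨hh1, hh2⟩ := abs_le.1 hh
  have hH3 : |h| ≤ 51 / 100 * β ^ 2 + D := abs_le.2 ⟨by linarith [sq_nonneg β], by linarith⟩
  generalize |h| = H at *
  obtain ⟨hk1, hk2⟩ := abs_le.1 hk
  obtain ⟨hb11, hb12⟩ := abs_le.1 hb1
  obtain ⟨hb21, hb22⟩ := abs_le.1 hb2
  obtain ⟨hc11, hc12⟩ := abs_le.1 hc1
  obtain ⟨hc21, hc22⟩ := abs_le.1 hc2
  obtain ⟨hl11, hl12⟩ := abs_le.1 hl1
  obtain ⟨hl21, hl22⟩ := abs_le.1 hl2
  obtain ⟨hz11, hz12⟩ := abs_le.1 hz1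
  obtain ⟨hz21, hz22⟩ := abs_le.1 hz2
  have hq0 : 0 ≤ β ^ 2 := sq_nonneg β
  have hq1 : β ^ 2 ≤ 1 / 10 ^ 18 := by
    calc β ^ 2 ≤ (1 / 10 ^ 9) ^ 2 := pow_le_pow_left₀ hβ.le hβ1 2
      _ = _ := by norm_num
  generalize β ^ 2 = q at *
  have hD1 : D ≤ 1 / 10 ^ 15 := by linarith
  have ht0 : 0 ≤ t := by linarith
  have ht3 : t ≤ 1 / 10 ^ 18 := by linarith
  have hH4 : H ≤ 1 / 10 ^ 14 := by linarith
  have htH0 : 0 ≤ t * H := mul_nonneg ht0 hH0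
  have htH1 : t * H ≤ t * (1 / 10 ^ 14) := mul_le_mul_of_nonneg_left hH4 ht0
  have hth1 : t * h ≤ t * H := mul_le_mul_of_nonneg_left hH1 ht0
  have hth2 : t * (-h) ≤ t * H := mul_le_mul_of_nonneg_left hH2 ht0
  have htk1 : t * (-k) ≤ t * 1 := mul_le_mul_of_nonneg_left (by linarith) ht0
  -- second strut
  have y1 : -(3 * (D / 3)) ≤ z2 - l2 := by
    apply vert (A := k - h - t * (1 / 2 - H)) (B := t * (k - h) + (1 / 2 - H)) (d1 := z1 - l1)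
    · calc _ = (1 + t ^ 2) * ((k - h) ^ 2 + (1 / 2 - H) ^ 2) := by ring
        _ ≤ _ := s2
    · linarith
    · linarith
    · linarith
    · apply small (m := 1 / 100)
      · exact abs_le.2 ⟨by linarith, by linarith⟩
      · exact abs_le.2 ⟨by linarith, by linarith⟩
      · exact le_rfl
      · linarith
  -- third strut
  obtain ⟨e, he⟩ : ∃ e, e = h - t - t * H - (z1 - c1) := ⟨_, rfl⟩
  have he1 : -(q + 3 * D) ≤ e := by linarith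
  have he2 : e ≤ q + 3 * D := by linarith
  have y2 : 1 - e - 2 * e ^ 2 ≤ 1 + H + t + t * h - (z2 - c2) := by
    apply root
    · calc (2 : ℝ) ≤ _ := s3
        _ = _ := by rw [he]; ring
    · linarith
    · exact abs_le.2 ⟨by linarith, by linarith⟩
  have he3 : e ^ 2 ≤ (q + 3 * D) ^ 2 := sq_le_sq' he1 he2
  have he4 : (q + 3 * D) * (q + 3 * D) ≤ (q + 3 * D) * (1 / 100) :=
    mul_le_mul_of_nonneg_left (by linarith) (by linarith)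
  have he5 : e ^ 2 ≤ (q + 3 * D) / 100 := by linarith
  obtain ⟨W, hW⟩ : ∃ W, W = 2 * t + t * h + H := ⟨_, rfl⟩
  have hW0 : 0 ≤ W := by linarith
  have hW1 : W ≤ 16 / 10 * q + D := by linarith
  obtain ⟨y, hy⟩ : ∃ y, y = z2 - b2 := ⟨_, rfl⟩
  have hy1 : -(W + 5 * D) ≤ y - W := by linarith
  have hy2 : y - W ≤ W + 5 * D := by linarith
  have hy3 : (y - W) ^ 2 ≤ (W + 5 * D) ^ 2 := sq_le_sq' hy1 hy2
  have hWD : D * W ≤ D * (16 / 10 * q + D) := mul_le_mul_of_nonneg_left hW1 hD0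
  obtain ⟨A, hA⟩ : ∃ A, A = 2 + h - t * H := ⟨_, rfl⟩
  have hA1 : 1 ≤ A := by linarith
  obtain ⟨d, hd⟩ : ∃ d, d = z1 - b1 := ⟨_, rfl⟩
  have hd1 : d ^ 2 ≤ (2 * D) ^ 2 := sq_le_sq' (by linarith) (by linarith)
  have s1' : A ^ 2 + W ^ 2 ≤ (A - d) ^ 2 + (y - W) ^ 2 := by
    calc _ = (1 + t ^ 2) * ((-2 - h) ^ 2 + (-H) ^ 2) := by rw [hA, hW]; ring
      _ ≤ _ := s1
      _ = _ := by rw [hA, hW, hd, hy]; ring
  rw [← hd]
  have hqD : 0 ≤ q * D := mul_nonneg hq0 hD0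
  have hDD : 0 ≤ D ^ 2 := sq_nonneg D
  rcases le_total d 0 with hd0 | hd0
  · linarith
  · have : d * 1 ≤ d * A := mul_le_mul_of_nonneg_left hA1 hd0
    linarith

open ZSP in
theorem sT2 : ST2 := by
  intro β t x y k o1 o2 D n1 n2 k1 k2 z1 z2 hβ hβ1 ht0 ht1 hD hx hy hk ho1 ho2 hn1 hk1 hk2
    hz1 hz2 hn2 wall s1 s2
  have hD0 : 0 ≤ D := (abs_nonneg _).trans hn1
  obtain ⟨hx1, hx2⟩ := abs_le.1 hx
  obtain ⟨hy1, hy2⟩ := abs_le.1 hy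
  obtain ⟨hk01, hk02⟩ := abs_le.1 hk
  obtain ⟨ho11, ho12⟩ := abs_le.1 ho1
  obtain ⟨ho21, ho22⟩ := abs_le.1 ho2
  obtain ⟨hn11, hn12⟩ := abs_le.1 hn1
  obtain ⟨hn21, hn22⟩ := abs_le.1 hn2
  obtain ⟨hk11, hk12⟩ := abs_le.1 hk1
  obtain ⟨hk21, hk22⟩ := abs_le.1 hk2
  obtain ⟨hz11, hz12⟩ := abs_le.1 hz1
  obtain ⟨hz21, hz22⟩ := abs_le.1 hz2
  have ht2 : t ≤ β / 10 ^ 9 := by
    have := mul_le_mul_of_nonneg_left hβ1 hβ.le
    linarith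
  have hty1 : t * y ≤ t * (1 / 4) := mul_le_mul_of_nonneg_left (by linarith) ht0
  have hty2 : t * (-y) ≤ t * (1 / 4) := mul_le_mul_of_nonneg_left (by linarith) ht0
  have hto1 : t * (-o1) ≤ t * (1 / 4) := mul_le_mul_of_nonneg_left (by linarith) ht0
  have hb1 : t * (1 - x - o2) ≤ t * 2 := mul_le_mul_of_nonneg_left (by linarith) ht0
  have hb0 : 0 ≤ t * (1 - x - o2) := mul_nonneg ht0 (by linarith)
  have hkx : t * (k - x) ≤ t * 1 := mul_le_mul_of_nonneg_left (by linarith) ht0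
  have y1 : -(3 * (D / 3)) ≤ n2 - z2 := by
    apply vert (A := o1 - y - t * (1 - x - o2)) (B := t * (o1 - y) + (1 - x - o2))
      (d1 := n1 - z1)
    · calc _ = (1 + t ^ 2) * ((o1 - y) ^ 2 + (1 - x - o2) ^ 2) := by ring
        _ ≤ _ := s2
    · linarith
    · linarith
    · linarith
    · apply small (m := 1 / 100)
      · exact abs_le.2 ⟨by linarith, by linarith⟩
      · exact abs_le.2 ⟨by linarith, by linarith⟩
      · exact le_rfl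
      · linarith
  obtain ⟨B, hB⟩ : ∃ B, B = -(t * (1 / 2 - y) + (k - x)) := ⟨_, rfl⟩
  have hB1 : β ≤ B := by linarith
  have hB2 : B ≤ 21 / 10 * β := by linarith
  obtain ⟨g, hg⟩ : ∃ g, g = n2 - k2 := ⟨_, rfl⟩
  have hg1 : -(B + 3 * D) ≤ g - B := by linarith
  have hg2 : g - B ≤ B + 3 * D := by linarith
  have hg3 : (g - B) ^ 2 ≤ (B + 3 * D) ^ 2 := sq_le_sq' hg1 hg2
  have hBD : D * B ≤ D * (21 / 10 * β) := mul_le_mul_of_nonneg_left hB2 hD0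
  obtain ⟨A, hA⟩ : ∃ A, A = 1 / 2 - y - t * (k - x) := ⟨_, rfl⟩
  have hA1 : 1 / 4 ≤ A := by linarith
  obtain ⟨d, hd⟩ : ∃ d, d = n1 - k1 := ⟨_, rfl⟩
  have hd1 : d ^ 2 ≤ (2 * D) ^ 2 := sq_le_sq' (by linarith) (by linarith)
  have s1' : A ^ 2 + B ^ 2 ≤ (A + d) ^ 2 + (g - B) ^ 2 := by
    calc _ = (1 + t ^ 2) * ((1 / 2 - y) ^ 2 + (k - x) ^ 2) := by rw [hA, hB]; ring
      _ ≤ _ := s1
      _ = _ := by rw [hA, hB, hd, hg]; ring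
  rw [← hd]
  have hqD : 0 ≤ β * D := mul_nonneg hβ.le hD0
  have hDD : 0 ≤ D ^ 2 := sq_nonneg D
  rcases le_total 0 d with hd0 | hd0
  · linarith
  · have : -d * (1 / 4) ≤ -d * A := mul_le_mul_of_nonneg_left hA1 (by linarith)
    linarith

end Pool.Agent.P.MP_dba4bb_co.Ex
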