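import Pool.Agent.P.MP_dba4bb_co.Ex.R3a
import Pool.Agent.P.MP_dba4bb_co.Ex.ZS

/-! The special struts near the optimal configuration. -/

namespace Pool.Agent.P.MP_dba4bb_co.Ex

variable {a b β t δ C S ρ x y h D : ℝ} {F : P2 → P3} {e : C3}

theorem Par.sm (p : Par β t C S ρ x y h) : 0 < β ^ 2 ∧ β ^ 2 ≤ β / 10 ^ 40 :=
  ⟨pow_pos p.β0 2, by nlinarith [p.β0, p.β1]⟩

theorem Par.tt (p : Par β t C S ρ x y h) : 0 ≤ t ∧ t ≤ β ^ 2 ∧ 0 ≤ t ^ 2 ∧ t ^ 2 ≤ t / 1000 := by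
  have := p.sm
  have h0 : 0 ≤ t := by linarith [p.t0]
  have h1 : t ≤ 1 / 1000 := by linarith [p.t1, p.β1]
  exact ⟨h0, by linarith [p.t1], by positivity, by nlinarith⟩

theorem es3 (hS : SES) (p : Par β t C S ρ x y h) (δ0 : 2 * t ≤ δ) (c : Cover (1 + t ^ 2) a b F)
    (g : Geo3 β t δ C S ρ x y h F e) (w : Wall3 β t δ C S ρ x y h e) (b0 : Bd3 (β / 10 ^ 9) e)
    (cr : Crude β ρ e) (bd : Bd3 D e) (hD : D ≤ β / 10 ^ 6) :
    (1 + t ^ 2) * (ρ + e.r) ≤ 16 / 10 * β ^ 2 ∧ (|e.r| ≤ D →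
      (1 + t ^ 2) * e.r + e.p4x + S * (e.L - e.p4y) + (2 * δ - 4 * t) ≤
        200 * (β ^ 2 * D + D ^ 2)) := by
  obtain ⟨s0, s1⟩ := p.sm
  obtain ⟨t0, t1, t2, t3⟩ := p.tt
  have β0 := p.β0
  have β1 := p.β1
  have k1 : (1 + t ^ 2) * ρ ≤ 152 / 100 * β ^ 2 := by
    have : t ^ 2 * ρ ≤ 1 / 1000 * ρ := mul_le_mul_of_nonneg_right (by linarith) p.ρ0
    linarith [p.ρ1]
  have e4 : pt t δ β 0 (-1) e.p4x e.p4y = (δ + t + e.p4x, β - 1 + e.p4y) :=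
    Prod.ext (by simp only [pt]; ring) (by simp only [pt]; ring)
  have bx := abs_le.1 b0.x
  have by' := abs_le.1 b0.y
  have px := abs_le.1 p.x0
  obtain ⟨-, k⟩ := hS (1 + t ^ 2) a b F β C S D (ρ + e.r) (x + e.x) (y + e.y) (δ + t) (β - 1)
    e.p4x e.p4y e.τ e.L e.ζ1 e.ζ2 e.f1 e.f2 c p.CS β0 (by linarith) p.S0 p.S1 p.C0 p.C1 hD cr.r0
    (by linarith [cr.r1]) (abs_le.2 ⟨by linarith, by linarith⟩)
    (abs_le.2 ⟨by linarith [p.y0], by linarith [p.y1]⟩) bd.p4x bd.p4y bd.L cr.τ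
    (by linarith [w.Rt2E, p.e1]) cr.f10 cr.f11 cr.f20 cr.f21 cr.ζ1 cr.ζ2
    (by linarith [w.zE, p.e1]) (e4 ▸ g.p4) g.zE g.t2E g.p1
  obtain ⟨k2, k3⟩ := k cr.p4
  refine ⟨k2, fun hr => ?_⟩
  have q := mul_le_abs (show |t ^ 2| ≤ 1 by rw [abs_of_nonneg t2]; linarith)
    (show |-e.r| ≤ D by rwa [abs_neg])
  have := k3 (by linarith [w.zE, p.e1, (abs_le.1 hr).1])
  linarith [w.zE, p.e1]

theorem sl3 (p : Par β t C S ρ x y h) (b0 : Bd3 (β / 10 ^ 9) e) (cr : Crude β ρ e)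
    (r : ρ + e.r ≤ 16 / 10 * β ^ 2) : Sl β t C S ρ x y h e := by
  obtain ⟨s0, s1⟩ := p.sm
  obtain ⟨t0, t1, t2, t3⟩ := p.tt
  have β0 := p.β0
  have β1 := p.β1
  have k2 := abs_le.1 b0.k2
  have k3 := abs_le.1 b0.k3
  have bx := abs_le.1 b0.x
  have by' := abs_le.1 b0.y
  have bh := abs_le.1 b0.h
  have px := abs_le.1 p.x0
  have c0 : 0 ≤ C := by linarith [p.C0]
  have c1 : C * (ρ + e.r) ≤ 1 * (ρ + e.r) := mul_le_mul_of_nonneg_right p.C1 cr.r0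
  refine ⟨β0, by linarith, t0, by linarith, ⟨by linarith, by linarith⟩, ⟨by linarith, by linarith⟩,
    ⟨by linarith, by linarith⟩, ⟨by linarith [p.y0], by linarith [p.y1]⟩,
    abs_le.2 ⟨by linarith [p.h0], by linarith [p.h1]⟩, ⟨mul_nonneg c0 cr.r0, by linarith⟩,
    ⟨mul_nonneg (by linarith [p.S0]) cr.r0,
      mul_le_mul_of_nonneg_right (by linarith [p.S1, p.C0]) cr.r0⟩, abs_le.1 cr.u, abs_le.1 cr.v⟩

theorem abs_m1 {H : ℝ} (h : |H| ≤ 1) : |-1 + (|H|)| = 1 - |H| := by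
  rw [abs_of_nonpos (by linarith)]; ring

theorem q_t2 (p : Par β t C S ρ x y h) (c : Cover (1 + t ^ 2) a b F)
    (g : Geo3 β t δ C S ρ x y h F e) (w : Wall3 β t δ C S ρ x y h e) (b0 : Bd3 (β / 10 ^ 9) e)
    (cr : Crude β ρ e) (s : Sl β t C S ρ x y h e) (r : ρ + e.r ≤ 16 / 10 * β ^ 2) (bd : All3 D e)
    (hD : D ≤ β / 10 ^ 6) : -(40 * (β * D + D ^ 2)) ≤ e.t2Nx - e.k2Nx := by
  obtain ⟨s0, s1⟩ := p.sm
  obtain ⟨t0, t1, t2, t3⟩ := p.tt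
  have β0 := p.β0
  have β1 := p.β1
  have k2 := abs_le.1 b0.k2
  have bx := abs_le.1 b0.x
  have by' := abs_le.1 b0.y
  have px := abs_le.1 p.x0
  have c1 : C * (ρ + e.r) ≤ 1 * (ρ + e.r) := mul_le_mul_of_nonneg_right p.C1 cr.r0
  have q1 := c.eu g.t2N g.k2N
  have q2 := c.hN g.zN' g.t2N (by linarith [s.s.2]) (by linarith [s.s.2, s.c.2])
  simp only [d2, pt] at q1 q2
  exact sT2 β t (x + e.x) (y + e.y) (3 / 2 * t + e.k2) ((C + S) * (ρ + e.r)) ((C - S) * (ρ + e.r))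
    D e.t2Nx e.t2Ny e.k2Nx e.k2Ny e.zNx e.zNy β0 (by linarith) t0 t1 hD
    (abs_le.2 ⟨by linarith, by linarith⟩) (abs_le.2 ⟨by linarith [p.y0], by linarith [p.y1]⟩)
    (abs_le.2 ⟨by linarith, by linarith⟩)
    (abs_le.2 ⟨by linarith [s.s.1, s.c.1], by linarith [s.s.2]⟩)
    (abs_le.2 ⟨by linarith [s.s.2], by linarith [s.s.1]⟩) bd.t2Nx bd.k2Nx bd.k2Ny bd.zNx bd.zNy
    cr.t2Ny w.Tt2N (by linarith) (by linarith)

theorem q_z3S (p : Par β t C S ρ x y h) (c : Cover (1 + t ^ 2) a b F)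
    (g : Geo3 β t δ C S ρ x y h F e) (cr : Crude β ρ e) (s : Sl β t C S ρ x y h e) (bd : Bd3 D e)
    (hD : D ≤ β / 10 ^ 6) : e.z3Sx - e.p4x ≤ 50 * (β ^ 2 * D + D ^ 2) := by
  have q1 := c.v4 g.p4 g.z3S
  have q2 := c.eu g.z3S g.k3S
  have q3 := c.weak.eu g.z3S g.p3
  rw [abs_m1 (by linarith [s.h, s.β1])] at q1
  simp only [d2, pt] at q1 q2 q3
  exact sZS β t (h + e.h) h (3 / 2 * t + e.k3) D e.p4x e.p4y e.p3x e.p3y e.k3Sx e.k3Sy e.z3Sx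
    e.z3Sy p.β0 (by linarith [p.β1]) p.t0 p.t1 p.h0 p.h1 hD (by simpa using bd.h)
    (by simpa using bd.k3) bd.p4x bd.p4y bd.p3x bd.p3y bd.k3Sx bd.k3Sy bd.z3Sx cr.z3Sy
    (by linarith) (by linarith) (by linarith [sq_nonneg (h + e.h), sq_nonneg |h + e.h|])

theorem q_z3W (p : Par β t C S ρ x y h) (c : Cover (1 + t ^ 2) a b F)
    (g : Geo3 β t δ C S ρ x y h F e) (s : Sl β t C S ρ x y h e) (bd : Bd3 D e)
    (hD : D ≤ β / 10 ^ 6) : 0 ≤ e.p2x - e.z3Wx + 10 * (β ^ 2 * D + D ^ 2) := by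
  obtain ⟨s0, s1⟩ := p.sm
  obtain ⟨t0, t1, t2, t3⟩ := p.tt
  have D0 : 0 ≤ D := (abs_nonneg _).trans bd.h
  have bh := abs_le.1 bd.h
  have hh : |h + e.h| ≤ β ^ 2 + D := abs_le.2 ⟨by linarith [p.h0], by linarith [p.h1]⟩
  have hh' := abs_le.1 hh
  have q1 := c.v2 g.p2 g.z3W
  rw [abs_m1 (by linarith [s.h, s.β1])] at q1
  have := row3 2 0 (β ^ 2 + D) 0 q1 (by linarith) le_rfl t0 (by linarith)
    (by linarith [s.β1]) (abs_le.2 ⟨by linarith, by linarith⟩)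
    (abs_le.2 ⟨by linarith, by linarith [abs_nonneg (h + e.h)]⟩) (by norm_num) (by norm_num)
    bd.p2x bd.p2y bd.z3Wx bd.z3Wy
  nlinarith [mul_nonneg s0.le D0]

theorem q_zN (p : Par β t C S ρ x y h) (c : Cover (1 + t ^ 2) a b F)
    (g : Geo3 β t δ C S ρ x y h F e) (cr : Crude β ρ e) (s : Sl β t C S ρ x y h e)
    (r : ρ + e.r ≤ 16 / 10 * β ^ 2) (bd : All3 D e) :
    0 ≤ e.zNx - e.p2x + 32 * (β ^ 2 * D + D ^ 2) := by
  obtain ⟨s0, s1⟩ := p.sm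
  obtain ⟨t0, t1, t2, t3⟩ := p.tt
  have c1 : C * (ρ + e.r) ≤ 1 * (ρ + e.r) := mul_le_mul_of_nonneg_right p.C1 cr.r0
  have := row3 (-2) 0 (4 * β ^ 2) 0 (c.eu g.p2 g.zN) (by linarith) le_rfl t0 (by linarith)
    (by linarith [s.β1]) (abs_le.2 ⟨by linarith [s.s.1, s.c.1], by linarith [s.s.2]⟩)
    (abs_le.2 ⟨by linarith [s.s.1], by linarith [s.s.2]⟩) (by norm_num) (by norm_num)
    bd.p2x bd.p2y bd.zNx bd.zNy
  linarith [sq_nonneg D]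

theorem q_up (c : Cover (1 + t ^ 2) a b F) (g : Geo3 β t δ C S ρ x y h F e)
    (s : Sl β t C S ρ x y h e) (bd : Bd3 D e) :
    0 ≤ e.k3Wy - e.z3Wy + 2 * (64 * β * D + 4 * D ^ 2) := by
  have hh := abs_le.1 s.h
  have := row4 0 (1 / 2) (c.eu g.k3W g.z3W) (by ring) s.t0 s.t1 (by linarith [s.β1])
    (by constructor <;> linarith [s.β0, s.k3.1, s.k3.2])
    (by constructor <;> linarith [s.β0, s.h, abs_nonneg (h + e.h)])
    (by norm_num [abs_le]) bd.k3Wx bd.k3Wy bd.z3Wx bd.z3Wy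
  linarith

theorem q_low (p : Par β t C S ρ x y h) (c : Cover (1 + t ^ 2) a b F)
    (g : Geo3 β t δ C S ρ x y h F e) (s : Sl β t C S ρ x y h e) (bd : Bd3 D e) :
    0 ≤ -e.z3Wx + e.p3x + e.z3Wy - e.p3y + 4 * |e.h| + (64 * β * D + 4 * D ^ 2) := by
  have hh := abs_le.1 s.h
  have h1 : |h + e.h| ≤ h + e.h + 2 * |e.h| := by
    have := neg_abs_le e.h
    have := abs_nonneg e.h
    exact abs_le.2 ⟨by linarith [p.h0], by linarith⟩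
  have := row3 (-1) 1 (4 * β) (4 * |e.h|) (c.eu g.z3W g.p3) (by linarith) (by positivity) s.t0
    (by linarith [s.t1, s.β0]) (by linarith [s.β1]) (abs_le.2 ⟨by linarith [s.β0], by linarith [s.β0]⟩)
    (abs_le.2 ⟨by linarith [s.β0, abs_nonneg (h + e.h)], by linarith [s.β0, s.h]⟩) (by norm_num)
    (by norm_num) bd.z3Wx bd.z3Wy bd.p3x bd.p3y
  linarith

end Pool.Agent.P.MP_dba4bb_co.Ex
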