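import Pool.Agent.P.MP_dba4bb_co.Ex.Tools
import Pool.Agent.P.MP_dba4bb_co.Ex.Cfg

/-! The inequalities between the nodes of a cover. -/

namespace Pool.Agent.P.MP_dba4bb_co.Ex

theorem nn_div {β E : ℝ} (hβ : 0 < β) (h : 0 ≤ β * E) : 0 ≤ E := by
  by_contra h'
  nlinarith [not_le.1 h']

theorem sm {β M x : ℝ} (hβ : 0 < β) (hM : β * M ≤ 1 / 200) (h : |x| ≤ M) :
    -1 / 200 ≤ β * x ∧ β * x ≤ 1 / 200 := by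
  have := abs_le.1 h
  constructor <;> nlinarith [this.1, this.2]

theorem lin_row {β M τ l x y s1 s2 s3 : ℝ} (hβ : 0 ≤ β) (hτ : 4 * β * M ^ 2 ≤ τ)
    (h : 0 ≤ l + β * (x ^ 2 + y ^ 2 - s1 ^ 2 - s2 ^ 2 - 2 * s3 ^ 2) / 2) (hx : |x| ≤ 2 * M)
    (hy : |y| ≤ 2 * M) : 0 ≤ l + τ := by
  have h1 := sq_le_sq' (abs_le.1 hx).1 (abs_le.1 hx).2
  have h2 := sq_le_sq' (abs_le.1 hy).1 (abs_le.1 hy).2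
  have : x ^ 2 + y ^ 2 - s1 ^ 2 - s2 ^ 2 - 2 * s3 ^ 2 ≤ 8 * M ^ 2 := by
    nlinarith [sq_nonneg s1, sq_nonneg s2, sq_nonneg s3]
  nlinarith [mul_le_mul_of_nonneg_left this hβ]

theorem ab2 {M x y : ℝ} (hx : |x| ≤ M) (hy : |y| ≤ M) : |x - y| ≤ 2 * M :=
  (abs_sub _ _).trans (by linarith)

theorem ab1 {M x : ℝ} (hx : |x| ≤ M) : |x| ≤ 2 * M := by linarith [abs_nonneg x]

theorem ab0 {M x : ℝ} (hx : |x| ≤ M) : |(0 : ℝ)| ≤ 2 * M := by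
  rw [abs_zero]; linarith [abs_nonneg x]

variable {a b β M : ℝ} {F : P2 → P3} {c : Cfg}

theorem r_p2_p4 (h : Cover 1 a b F) (g : Geo β F c) (hb : Bnd M c) (hβ : 0 < β)
    (hM : β * M ≤ 1 / 200) : 0 ≤ 2 * c.p2y - 2 * c.p4y +
    β * ((c.p2x - c.p4x) ^ 2 + (c.p2y - c.p4y) ^ 2 - (0) ^ 2 - (0) ^ 2 - 2 * (0) ^ 2) / 2 := by
  have e := h.eu g.p2 g.p4
  simp only [d2] at e
  exact nn_div hβ (by linear_combination 1 / 2 * e)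

theorem r_p2_p1 (h : Cover 1 a b F) (g : Geo β F c) (hb : Bnd M c) (hβ : 0 < β)
    (hM : β * M ≤ 1 / 200) : 0 ≤ -c.p2x + c.p2y + c.p1x - c.p1y +
    β * ((c.p2x - c.p1x) ^ 2 + (c.p2y - c.p1y) ^ 2 - (0) ^ 2 - (0) ^ 2 - 2 * (0) ^ 2) / 2 := by
  have e := h.eu g.p2 g.p1
  simp only [d2] at e
  exact nn_div hβ (by linear_combination 1 / 2 * e)

theorem r_p2_p3 (h : Cover 1 a b F) (g : Geo β F c) (hb : Bnd M c) (hβ : 0 < β)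
    (hM : β * M ≤ 1 / 200) : 0 ≤ c.p2x + c.p2y - c.p3x - c.p3y +
    β * ((c.p2x - c.p3x) ^ 2 + (c.p2y - c.p3y) ^ 2 - (0) ^ 2 - (0) ^ 2 - 2 * (0) ^ 2) / 2 := by
  have e := h.eu g.p2 g.p3
  simp only [d2] at e
  exact nn_div hβ (by linear_combination 1 / 2 * e)

theorem r_p2_z1Nu (h : Cover 1 a b F) (g : Geo β F c) (hb : Bnd M c) (hβ : 0 < β)
    (hM : β * M ≤ 1 / 200) : 0 ≤ -2 * c.p2x + 2 * c.z1Nx + c.s1 + c.h1 +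
    β * ((c.p2x - c.z1Nx) ^ 2 + (c.p2y - c.z1Ny) ^ 2 - (c.s1) ^ 2 - (-c.h1) ^ 2 - 2 * (0) ^ 2) / 2 := by
  have e := h.eu g.p2 g.z1N
  simp only [d2] at e
  exact nn_div hβ (by linear_combination 1 / 2 * e)

theorem r_p2_z1Nv (h : Cover 1 a b F) (g : Geo β F c) (hb : Bnd M c) (hβ : 0 < β)
    (hM : β * M ≤ 1 / 200) : 0 ≤ -2 * c.p2x + 2 * c.z1Nx + 2 * c.h1 +
    β * ((c.p2x - c.z1Nx) ^ 2 + (c.p2y - c.z1Ny) ^ 2 - (c.h1) ^ 2 - (-c.s1) ^ 2 - 2 * (0) ^ 2) / 2 := by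
  have s1 := sm hβ hM hb.s1
  have h1 := sm hβ hM hb.h1
  have e := h.v2 g.p2 g.z1N
  rw [abs_of_nonneg (by linarith [s1.1, s1.2, h1.1, h1.2])] at e
  simp only [d2] at e
  exact nn_div hβ (by linear_combination 1 / 2 * e)

theorem r_p2_z3Wu (h : Cover 1 a b F) (g : Geo β F c) (hb : Bnd M c) (hβ : 0 < β)
    (hM : β * M ≤ 1 / 200) : 0 ≤ 2 * c.p2x - 2 * c.z3Wx + c.s3 + c.h3 +
    β * ((c.p2x - c.z3Wx) ^ 2 + (c.p2y - c.z3Wy) ^ 2 - (-c.s3) ^ 2 - (-c.h3) ^ 2 - 2 * (0) ^ 2) / 2 := by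
  have e := h.eu g.p2 g.z3W
  simp only [d2] at e
  exact nn_div hβ (by linear_combination 1 / 2 * e)

theorem r_p2_z3Wv (h : Cover 1 a b F) (g : Geo β F c) (hb : Bnd M c) (hβ : 0 < β)
    (hM : β * M ≤ 1 / 200) : 0 ≤ 2 * c.p2x - 2 * c.z3Wx + 2 * c.h3 +
    β * ((c.p2x - c.z3Wx) ^ 2 + (c.p2y - c.z3Wy) ^ 2 - (-c.h3) ^ 2 - (-c.s3) ^ 2 - 2 * (0) ^ 2) / 2 := by
  have s3 := sm hβ hM hb.s3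
  have h3 := sm hβ hM hb.h3
  have e := h.v2 g.p2 g.z3W
  rw [abs_of_nonpos (by linarith [s3.1, s3.2, h3.1, h3.2])] at e
  simp only [d2] at e
  exact nn_div hβ (by linear_combination 1 / 2 * e)

theorem r_p2_k1Nv (h : Cover 1 a b F) (g : Geo β F c) (hb : Bnd M c) (hβ : 0 < β)
    (hM : β * M ≤ 1 / 200) : 0 ≤ -2 * c.p2x - 1 / 2 * c.p2y + 2 * c.k1Nx + 1 / 2 * c.k1Ny + 2 * c.k1 +
    β * ((c.p2x - c.k1Nx) ^ 2 + (c.p2y - c.k1Ny) ^ 2 - (c.k1) ^ 2 - (0) ^ 2 - 2 * (0) ^ 2) / 2 := by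
  have k1 := sm hβ hM hb.k1
  have e := h.v2 g.p2 g.k1N
  rw [abs_of_nonneg (by linarith [k1.1, k1.2])] at e
  simp only [d2] at e
  exact nn_div hβ (by linear_combination 1 / 2 * e)

theorem r_p2_k3Wv (h : Cover 1 a b F) (g : Geo β F c) (hb : Bnd M c) (hβ : 0 < β)
    (hM : β * M ≤ 1 / 200) : 0 ≤ 2 * c.p2x - 1 / 2 * c.p2y - 2 * c.k3Wx + 1 / 2 * c.k3Wy + 2 * c.k3 +
    β * ((c.p2x - c.k3Wx) ^ 2 + (c.p2y - c.k3Wy) ^ 2 - (-c.k3) ^ 2 - (0) ^ 2 - 2 * (0) ^ 2) / 2 := by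
  have k3 := sm hβ hM hb.k3
  have e := h.v2 g.p2 g.k3W
  rw [abs_of_nonpos (by linarith [k3.1, k3.2])] at e
  simp only [d2] at e
  exact nn_div hβ (by linear_combination 1 / 2 * e)

theorem r_p2_eN1 (h : Cover 1 a b F) (g : Geo β F c) (hb : Bnd M c) (hβ : 0 < β)
    (hM : β * M ≤ 1 / 200) : 0 ≤ -5 / 4 * c.p2x - 3 / 4 * c.p2y + 5 / 4 * c.eN1x + 3 / 4 * c.eN1y +
    β * ((c.p2x - c.eN1x) ^ 2 + (c.p2y - c.eN1y) ^ 2 - (0) ^ 2 - (0) ^ 2 - 2 * (0) ^ 2) / 2 := by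
  have e := h.eu g.p2 g.eN1
  simp only [d2] at e
  exact nn_div hβ (by linear_combination 1 / 2 * e)

theorem r_p2_eN2 (h : Cover 1 a b F) (g : Geo β F c) (hb : Bnd M c) (hβ : 0 < β)
    (hM : β * M ≤ 1 / 200) : 0 ≤ -3 / 2 * c.p2x - 1 / 2 * c.p2y + 3 / 2 * c.eN2x + 1 / 2 * c.eN2y +
    β * ((c.p2x - c.eN2x) ^ 2 + (c.p2y - c.eN2y) ^ 2 - (0) ^ 2 - (0) ^ 2 - 2 * (0) ^ 2) / 2 := by
  have e := h.eu g.p2 g.eN2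
  simp only [d2] at e
  exact nn_div hβ (by linear_combination 1 / 2 * e)

theorem r_p2_eW1 (h : Cover 1 a b F) (g : Geo β F c) (hb : Bnd M c) (hβ : 0 < β)
    (hM : β * M ≤ 1 / 200) : 0 ≤ 5 / 4 * c.p2x - 3 / 4 * c.p2y - 5 / 4 * c.eW1x + 3 / 4 * c.eW1y +
    β * ((c.p2x - c.eW1x) ^ 2 + (c.p2y - c.eW1y) ^ 2 - (0) ^ 2 - (0) ^ 2 - 2 * (0) ^ 2) / 2 := by
  have e := h.eu g.p2 g.eW1
  simp only [d2] at e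
  exact nn_div hβ (by linear_combination 1 / 2 * e)

theorem r_p2_gN (h : Cover 1 a b F) (g : Geo β F c) (hb : Bnd M c) (hβ : 0 < β)
    (hM : β * M ≤ 1 / 200) : 0 ≤ -113 / 64 * c.p2x - 1 / 64 * c.p2y - 7 / 4 * c.gNu - 57 / 32 * c.gNv +
    β * ((c.p2x) ^ 2 + (c.p2y) ^ 2 - (-c.gNu - c.gNv) ^ 2 - (c.gNu - c.gNv) ^ 2 - 2 * (0) ^ 2) / 2 := by
  have e := h.eu g.p2 g.gN
  simp only [d2] at e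
  exact nn_div hβ (by linear_combination 1 / 2 * e)

theorem r_p2_gW (h : Cover 1 a b F) (g : Geo β F c) (hb : Bnd M c) (hβ : 0 < β)
    (hM : β * M ≤ 1 / 200) : 0 ≤ 113 / 64 * c.p2x - 1 / 64 * c.p2y - 7 / 4 * c.gWu - 57 / 32 * c.gWv +
    β * ((c.p2x) ^ 2 + (c.p2y) ^ 2 - (c.gWu + c.gWv) ^ 2 - (c.gWu - c.gWv) ^ 2 - 2 * (0) ^ 2) / 2 := by
  have e := h.eu g.p2 g.gW
  simp only [d2] at e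
  exact nn_div hβ (by linear_combination 1 / 2 * e)

theorem r_p2_hN (h : Cover 1 a b F) (g : Geo β F c) (hb : Bnd M c) (hβ : 0 < β)
    (hM : β * M ≤ 1 / 200) : 0 ≤ -15 / 16 * c.p2x + 13 / 16 * c.p2y - 7 / 4 * c.hNu - 1 / 8 * c.hNv +
    β * ((c.p2x) ^ 2 + (c.p2y) ^ 2 - (-c.hNu - c.hNv) ^ 2 - (c.hNu - c.hNv) ^ 2 - 2 * (0) ^ 2) / 2 := by
  have e := h.eu g.p2 g.hN
  simp only [d2] at e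
  exact nn_div hβ (by linear_combination 1 / 2 * e)

theorem r_p2_hW (h : Cover 1 a b F) (g : Geo β F c) (hb : Bnd M c) (hβ : 0 < β)
    (hM : β * M ≤ 1 / 200) : 0 ≤ 15 / 16 * c.p2x + 13 / 16 * c.p2y - 7 / 4 * c.hWu - 1 / 8 * c.hWv +
    β * ((c.p2x) ^ 2 + (c.p2y) ^ 2 - (c.hWu + c.hWv) ^ 2 - (c.hWu - c.hWv) ^ 2 - 2 * (0) ^ 2) / 2 := by
  have e := h.eu g.p2 g.hW
  simp only [d2] at e
  exact nn_div hβ (by linear_combination 1 / 2 * e)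

theorem r_p4_p1 (h : Cover 1 a b F) (g : Geo β F c) (hb : Bnd M c) (hβ : 0 < β)
    (hM : β * M ≤ 1 / 200) : 0 ≤ -c.p4x - c.p4y + c.p1x + c.p1y +
    β * ((c.p4x - c.p1x) ^ 2 + (c.p4y - c.p1y) ^ 2 - (0) ^ 2 - (0) ^ 2 - 2 * (0) ^ 2) / 2 := by
  have e := h.eu g.p4 g.p1
  simp only [d2] at e
  exact nn_div hβ (by linear_combination 1 / 2 * e)

theorem r_p4_p3 (h : Cover 1 a b F) (g : Geo β F c) (hb : Bnd M c) (hβ : 0 < β)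
    (hM : β * M ≤ 1 / 200) : 0 ≤ c.p4x - c.p4y - c.p3x + c.p3y +
    β * ((c.p4x - c.p3x) ^ 2 + (c.p4y - c.p3y) ^ 2 - (0) ^ 2 - (0) ^ 2 - 2 * (0) ^ 2) / 2 := by
  have e := h.eu g.p4 g.p3
  simp only [d2] at e
  exact nn_div hβ (by linear_combination 1 / 2 * e)

theorem r_p4_z1Eu (h : Cover 1 a b F) (g : Geo β F c) (hb : Bnd M c) (hβ : 0 < β)
    (hM : β * M ≤ 1 / 200) : 0 ≤ -2 * c.p4x + 2 * c.z1Ex + c.s1 - c.h1 +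
    β * ((c.p4x - c.z1Ex) ^ 2 + (c.p4y - c.z1Ey) ^ 2 - (c.s1) ^ 2 - (-c.h1) ^ 2 - 2 * (0) ^ 2) / 2 := by
  have e := h.eu g.p4 g.z1E
  simp only [d2] at e
  exact nn_div hβ (by linear_combination 1 / 2 * e)

theorem r_p4_z1Ev (h : Cover 1 a b F) (g : Geo β F c) (hb : Bnd M c) (hβ : 0 < β)
    (hM : β * M ≤ 1 / 200) : 0 ≤ -2 * c.p4x + 2 * c.z1Ex - 2 * c.h1 +
    β * ((c.p4x - c.z1Ex) ^ 2 + (c.p4y - c.z1Ey) ^ 2 - (-c.h1) ^ 2 - (c.s1) ^ 2 - 2 * (0) ^ 2) / 2 := by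
  have s1 := sm hβ hM hb.s1
  have h1 := sm hβ hM hb.h1
  have e := h.v4 g.p4 g.z1E
  rw [abs_of_nonneg (by linarith [s1.1, s1.2, h1.1, h1.2])] at e
  simp only [d2] at e
  exact nn_div hβ (by linear_combination 1 / 2 * e)

theorem r_p4_z3Su (h : Cover 1 a b F) (g : Geo β F c) (hb : Bnd M c) (hβ : 0 < β)
    (hM : β * M ≤ 1 / 200) : 0 ≤ 2 * c.p4x - 2 * c.z3Sx + c.s3 - c.h3 +
    β * ((c.p4x - c.z3Sx) ^ 2 + (c.p4y - c.z3Sy) ^ 2 - (-c.s3) ^ 2 - (-c.h3) ^ 2 - 2 * (0) ^ 2) / 2 := by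
  have e := h.eu g.p4 g.z3S
  simp only [d2] at e
  exact nn_div hβ (by linear_combination 1 / 2 * e)

theorem r_p4_z3Sv (h : Cover 1 a b F) (g : Geo β F c) (hb : Bnd M c) (hβ : 0 < β)
    (hM : β * M ≤ 1 / 200) : 0 ≤ 2 * c.p4x - 2 * c.z3Sx - 2 * c.h3 +
    β * ((c.p4x - c.z3Sx) ^ 2 + (c.p4y - c.z3Sy) ^ 2 - (c.h3) ^ 2 - (c.s3) ^ 2 - 2 * (0) ^ 2) / 2 := by
  have s3 := sm hβ hM hb.s3
  have h3 := sm hβ hM hb.h3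
  have e := h.v4 g.p4 g.z3S
  rw [abs_of_nonpos (by linarith [s3.1, s3.2, h3.1, h3.2])] at e
  simp only [d2] at e
  exact nn_div hβ (by linear_combination 1 / 2 * e)

theorem r_p4_k1Ev (h : Cover 1 a b F) (g : Geo β F c) (hb : Bnd M c) (hβ : 0 < β)
    (hM : β * M ≤ 1 / 200) : 0 ≤ -2 * c.p4x + 1 / 2 * c.p4y + 2 * c.k1Ex - 1 / 2 * c.k1Ey - 2 * c.k1 +
    β * ((c.p4x - c.k1Ex) ^ 2 + (c.p4y - c.k1Ey) ^ 2 - (-c.k1) ^ 2 - (0) ^ 2 - 2 * (0) ^ 2) / 2 := by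
  have k1 := sm hβ hM hb.k1
  have e := h.v4 g.p4 g.k1E
  rw [abs_of_nonneg (by linarith [k1.1, k1.2])] at e
  simp only [d2] at e
  exact nn_div hβ (by linear_combination 1 / 2 * e)

theorem r_p4_k3Sv (h : Cover 1 a b F) (g : Geo β F c) (hb : Bnd M c) (hβ : 0 < β)
    (hM : β * M ≤ 1 / 200) : 0 ≤ 2 * c.p4x + 1 / 2 * c.p4y - 2 * c.k3Sx - 1 / 2 * c.k3Sy - 2 * c.k3 +
    β * ((c.p4x - c.k3Sx) ^ 2 + (c.p4y - c.k3Sy) ^ 2 - (c.k3) ^ 2 - (0) ^ 2 - 2 * (0) ^ 2) / 2 := by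
  have k3 := sm hβ hM hb.k3
  have e := h.v4 g.p4 g.k3S
  rw [abs_of_nonpos (by linarith [k3.1, k3.2])] at e
  simp only [d2] at e
  exact nn_div hβ (by linear_combination 1 / 2 * e)

theorem r_p4_eS1 (h : Cover 1 a b F) (g : Geo β F c) (hb : Bnd M c) (hβ : 0 < β)
    (hM : β * M ≤ 1 / 200) : 0 ≤ 5 / 4 * c.p4x + 3 / 4 * c.p4y - 5 / 4 * c.eS1x - 3 / 4 * c.eS1y +
    β * ((c.p4x - c.eS1x) ^ 2 + (c.p4y - c.eS1y) ^ 2 - (0) ^ 2 - (0) ^ 2 - 2 * (0) ^ 2) / 2 := by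
  have e := h.eu g.p4 g.eS1
  simp only [d2] at e
  exact nn_div hβ (by linear_combination 1 / 2 * e)

theorem r_p4_eS2 (h : Cover 1 a b F) (g : Geo β F c) (hb : Bnd M c) (hβ : 0 < β)
    (hM : β * M ≤ 1 / 200) : 0 ≤ 3 / 2 * c.p4x + 1 / 2 * c.p4y - 3 / 2 * c.eS2x - 1 / 2 * c.eS2y +
    β * ((c.p4x - c.eS2x) ^ 2 + (c.p4y - c.eS2y) ^ 2 - (0) ^ 2 - (0) ^ 2 - 2 * (0) ^ 2) / 2 := by
  have e := h.eu g.p4 g.eS2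
  simp only [d2] at e
  exact nn_div hβ (by linear_combination 1 / 2 * e)

theorem r_p4_gS (h : Cover 1 a b F) (g : Geo β F c) (hb : Bnd M c) (hβ : 0 < β)
    (hM : β * M ≤ 1 / 200) : 0 ≤ 113 / 64 * c.p4x + 1 / 64 * c.p4y - 7 / 4 * c.gSu - 57 / 32 * c.gSv +
    β * ((c.p4x) ^ 2 + (c.p4y) ^ 2 - (c.gSu + c.gSv) ^ 2 - (-c.gSu + c.gSv) ^ 2 - 2 * (0) ^ 2) / 2 := by
  have e := h.eu g.p4 g.gS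
  simp only [d2] at e
  exact nn_div hβ (by linear_combination 1 / 2 * e)

theorem r_p4_gE (h : Cover 1 a b F) (g : Geo β F c) (hb : Bnd M c) (hβ : 0 < β)
    (hM : β * M ≤ 1 / 200) : 0 ≤ -113 / 64 * c.p4x + 1 / 64 * c.p4y - 7 / 4 * c.gEu - 57 / 32 * c.gEv +
    β * ((c.p4x) ^ 2 + (c.p4y) ^ 2 - (-c.gEu - c.gEv) ^ 2 - (-c.gEu + c.gEv) ^ 2 - 2 * (0) ^ 2) / 2 := by
  have e := h.eu g.p4 g.gE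
  simp only [d2] at e
  exact nn_div hβ (by linear_combination 1 / 2 * e)

theorem r_p4_hNv (h : Cover 1 a b F) (g : Geo β F c) (hb : Bnd M c) (hβ : 0 < β)
    (hM : β * M ≤ 1 / 200) : 0 ≤ -15 / 16 * c.p4x - 19 / 16 * c.p4y + 1 / 4 * c.hNu - 17 / 8 * c.hNv +
    β * ((c.p4x) ^ 2 + (c.p4y) ^ 2 - (-c.hNu - c.hNv) ^ 2 - (c.hNu - c.hNv) ^ 2 - 2 * (0) ^ 2) / 2 := by
  have hNu := sm hβ hM hb.hNu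
  have hNv := sm hβ hM hb.hNv
  have e := h.v4N g.p4 g.hN (by linarith [hNu.1, hNu.2, hNv.1, hNv.2]) (by linarith [hNu.1, hNu.2, hNv.1, hNv.2])
  simp only [d2] at e
  exact nn_div hβ (by linear_combination 1 / 2 * e)

theorem r_p4_hWv (h : Cover 1 a b F) (g : Geo β F c) (hb : Bnd M c) (hβ : 0 < β)
    (hM : β * M ≤ 1 / 200) : 0 ≤ 15 / 16 * c.p4x - 19 / 16 * c.p4y + 1 / 4 * c.hWu - 17 / 8 * c.hWv +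
    β * ((c.p4x) ^ 2 + (c.p4y) ^ 2 - (c.hWu + c.hWv) ^ 2 - (c.hWu - c.hWv) ^ 2 - 2 * (0) ^ 2) / 2 := by
  have hWu := sm hβ hM hb.hWu
  have hWv := sm hβ hM hb.hWv
  have e := h.v4W g.p4 g.hW (by linarith [hWu.1, hWu.2, hWv.1, hWv.2]) (by linarith [hWu.1, hWu.2, hWv.1, hWv.2])
  simp only [d2] at e
  exact nn_div hβ (by linear_combination 1 / 2 * e)

theorem r_p1_p3 (h : Cover 1 a b F) (g : Geo β F c) (hb : Bnd M c) (hβ : 0 < β)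
    (hM : β * M ≤ 1 / 200) : 0 ≤ 2 * c.p1x - 2 * c.p3x +
    β * ((c.p1x - c.p3x) ^ 2 + (c.p1y - c.p3y) ^ 2 - (0) ^ 2 - (0) ^ 2 - 2 * (0) ^ 2) / 2 := by
  have e := h.eu g.p1 g.p3
  simp only [d2] at e
  exact nn_div hβ (by linear_combination 1 / 2 * e)

theorem r_p1_z1Nu (h : Cover 1 a b F) (g : Geo β F c) (hb : Bnd M c) (hβ : 0 < β)
    (hM : β * M ≤ 1 / 200) : 0 ≤ -c.p1x - c.p1y + c.z1Nx + c.z1Ny +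
    β * ((c.p1x - c.z1Nx) ^ 2 + (c.p1y - c.z1Ny) ^ 2 - (c.s1) ^ 2 - (-c.h1) ^ 2 - 2 * (0) ^ 2) / 2 := by
  have e := h.eu g.p1 g.z1N
  simp only [d2] at e
  exact nn_div hβ (by linear_combination 1 / 2 * e)

theorem r_p1_z1Eu (h : Cover 1 a b F) (g : Geo β F c) (hb : Bnd M c) (hβ : 0 < β)
    (hM : β * M ≤ 1 / 200) : 0 ≤ -c.p1x + c.p1y + c.z1Ex - c.z1Ey +
    β * ((c.p1x - c.z1Ex) ^ 2 + (c.p1y - c.z1Ey) ^ 2 - (c.s1) ^ 2 - (-c.h1) ^ 2 - 2 * (0) ^ 2) / 2 := by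
  have e := h.eu g.p1 g.z1E
  simp only [d2] at e
  exact nn_div hβ (by linear_combination 1 / 2 * e)

theorem r_p1_k2Nv (h : Cover 1 a b F) (g : Geo β F c) (hb : Bnd M c) (hβ : 0 < β)
    (hM : β * M ≤ 1 / 200) : 0 ≤ -1 / 2 * c.p1x - 2 * c.p1y + 1 / 2 * c.k2Nx + 2 * c.k2Ny + 2 * c.k2 +
    β * ((c.p1x - c.k2Nx) ^ 2 + (c.p1y - c.k2Ny) ^ 2 - (0) ^ 2 - (c.k2) ^ 2 - 2 * (0) ^ 2) / 2 := by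
  have k2 := sm hβ hM hb.k2
  have e := h.v1 g.p1 g.k2N
  rw [abs_of_nonneg (by linarith [k2.1, k2.2])] at e
  simp only [d2] at e
  exact nn_div hβ (by linear_combination 1 / 2 * e)

theorem r_p1_k4Ev (h : Cover 1 a b F) (g : Geo β F c) (hb : Bnd M c) (hβ : 0 < β)
    (hM : β * M ≤ 1 / 200) : 0 ≤ -1 / 2 * c.p1x + 2 * c.p1y + 1 / 2 * c.k4Ex - 2 * c.k4Ey + 2 * c.k4 +
    β * ((c.p1x - c.k4Ex) ^ 2 + (c.p1y - c.k4Ey) ^ 2 - (0) ^ 2 - (-c.k4) ^ 2 - 2 * (0) ^ 2) / 2 := by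
  have k4 := sm hβ hM hb.k4
  have e := h.v1 g.p1 g.k4E
  rw [abs_of_nonpos (by linarith [k4.1, k4.2])] at e
  simp only [d2] at e
  exact nn_div hβ (by linear_combination 1 / 2 * e)

theorem r_p1_eN1 (h : Cover 1 a b F) (g : Geo β F c) (hb : Bnd M c) (hβ : 0 < β)
    (hM : β * M ≤ 1 / 200) : 0 ≤ -1 / 4 * c.p1x - 7 / 4 * c.p1y + 1 / 4 * c.eN1x + 7 / 4 * c.eN1y +
    β * ((c.p1x - c.eN1x) ^ 2 + (c.p1y - c.eN1y) ^ 2 - (0) ^ 2 - (0) ^ 2 - 2 * (0) ^ 2) / 2 := by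
  have e := h.eu g.p1 g.eN1
  simp only [d2] at e
  exact nn_div hβ (by linear_combination 1 / 2 * e)

theorem r_p1_eN2 (h : Cover 1 a b F) (g : Geo β F c) (hb : Bnd M c) (hβ : 0 < β)
    (hM : β * M ≤ 1 / 200) : 0 ≤ -1 / 2 * c.p1x - 3 / 2 * c.p1y + 1 / 2 * c.eN2x + 3 / 2 * c.eN2y +
    β * ((c.p1x - c.eN2x) ^ 2 + (c.p1y - c.eN2y) ^ 2 - (0) ^ 2 - (0) ^ 2 - 2 * (0) ^ 2) / 2 := by
  have e := h.eu g.p1 g.eN2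
  simp only [d2] at e
  exact nn_div hβ (by linear_combination 1 / 2 * e)

theorem r_p1_gN (h : Cover 1 a b F) (g : Geo β F c) (hb : Bnd M c) (hβ : 0 < β)
    (hM : β * M ≤ 1 / 200) : 0 ≤ -49 / 64 * c.p1x - 65 / 64 * c.p1y + 1 / 4 * c.gNu - 57 / 32 * c.gNv +
    β * ((c.p1x) ^ 2 + (c.p1y) ^ 2 - (-c.gNu - c.gNv) ^ 2 - (c.gNu - c.gNv) ^ 2 - 2 * (0) ^ 2) / 2 := by
  have e := h.eu g.p1 g.gN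
  simp only [d2] at e
  exact nn_div hβ (by linear_combination 1 / 2 * e)

theorem r_p1_gE (h : Cover 1 a b F) (g : Geo β F c) (hb : Bnd M c) (hβ : 0 < β)
    (hM : β * M ≤ 1 / 200) : 0 ≤ -49 / 64 * c.p1x + 65 / 64 * c.p1y + 1 / 4 * c.gEu - 57 / 32 * c.gEv +
    β * ((c.p1x) ^ 2 + (c.p1y) ^ 2 - (-c.gEu - c.gEv) ^ 2 - (-c.gEu + c.gEv) ^ 2 - 2 * (0) ^ 2) / 2 := by
  have e := h.eu g.p1 g.gE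
  simp only [d2] at e
  exact nn_div hβ (by linear_combination 1 / 2 * e)

theorem r_p1_hN (h : Cover 1 a b F) (g : Geo β F c) (hb : Bnd M c) (hβ : 0 < β)
    (hM : β * M ≤ 1 / 200) : 0 ≤ 1 / 16 * c.p1x - 3 / 16 * c.p1y + 1 / 4 * c.hNu - 1 / 8 * c.hNv +
    β * ((c.p1x) ^ 2 + (c.p1y) ^ 2 - (-c.hNu - c.hNv) ^ 2 - (c.hNu - c.hNv) ^ 2 - 2 * (0) ^ 2) / 2 := by
  have e := h.eu g.p1 g.hN
  simp only [d2] at e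
  exact nn_div hβ (by linear_combination 1 / 2 * e)

theorem r_p1_hWv (h : Cover 1 a b F) (g : Geo β F c) (hb : Bnd M c) (hβ : 0 < β)
    (hM : β * M ≤ 1 / 200) : 0 ≤ 31 / 16 * c.p1x - 3 / 16 * c.p1y - 7 / 4 * c.hWu - 17 / 8 * c.hWv +
    β * ((c.p1x) ^ 2 + (c.p1y) ^ 2 - (c.hWu + c.hWv) ^ 2 - (c.hWu - c.hWv) ^ 2 - 2 * (0) ^ 2) / 2 := by
  have hWu := sm hβ hM hb.hWu
  have hWv := sm hβ hM hb.hWv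
  have e := h.v1W g.p1 g.hW (by linarith [hWu.1, hWu.2, hWv.1, hWv.2]) (by linarith [hWu.1, hWu.2, hWv.1, hWv.2])
  simp only [d2] at e
  exact nn_div hβ (by linear_combination 1 / 2 * e)

theorem r_p3_z3Wu (h : Cover 1 a b F) (g : Geo β F c) (hb : Bnd M c) (hβ : 0 < β)
    (hM : β * M ≤ 1 / 200) : 0 ≤ c.p3x - c.p3y - c.z3Wx + c.z3Wy +
    β * ((c.p3x - c.z3Wx) ^ 2 + (c.p3y - c.z3Wy) ^ 2 - (-c.s3) ^ 2 - (-c.h3) ^ 2 - 2 * (0) ^ 2) / 2 := by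
  have e := h.eu g.p3 g.z3W
  simp only [d2] at e
  exact nn_div hβ (by linear_combination 1 / 2 * e)

theorem r_p3_z3Su (h : Cover 1 a b F) (g : Geo β F c) (hb : Bnd M c) (hβ : 0 < β)
    (hM : β * M ≤ 1 / 200) : 0 ≤ c.p3x + c.p3y - c.z3Sx - c.z3Sy +
    β * ((c.p3x - c.z3Sx) ^ 2 + (c.p3y - c.z3Sy) ^ 2 - (-c.s3) ^ 2 - (-c.h3) ^ 2 - 2 * (0) ^ 2) / 2 := by
  have e := h.eu g.p3 g.z3S
  simp only [d2] at e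
  exact nn_div hβ (by linear_combination 1 / 2 * e)

theorem r_p3_k2Wv (h : Cover 1 a b F) (g : Geo β F c) (hb : Bnd M c) (hβ : 0 < β)
    (hM : β * M ≤ 1 / 200) : 0 ≤ 1 / 2 * c.p3x - 2 * c.p3y - 1 / 2 * c.k2Wx + 2 * c.k2Wy - 2 * c.k2 +
    β * ((c.p3x - c.k2Wx) ^ 2 + (c.p3y - c.k2Wy) ^ 2 - (0) ^ 2 - (-c.k2) ^ 2 - 2 * (0) ^ 2) / 2 := by
  have k2 := sm hβ hM hb.k2
  have e := h.v3 g.p3 g.k2W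
  rw [abs_of_nonneg (by linarith [k2.1, k2.2])] at e
  simp only [d2] at e
  exact nn_div hβ (by linear_combination 1 / 2 * e)

theorem r_p3_k4Sv (h : Cover 1 a b F) (g : Geo β F c) (hb : Bnd M c) (hβ : 0 < β)
    (hM : β * M ≤ 1 / 200) : 0 ≤ 1 / 2 * c.p3x + 2 * c.p3y - 1 / 2 * c.k4Sx - 2 * c.k4Sy - 2 * c.k4 +
    β * ((c.p3x - c.k4Sx) ^ 2 + (c.p3y - c.k4Sy) ^ 2 - (0) ^ 2 - (c.k4) ^ 2 - 2 * (0) ^ 2) / 2 := by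
  have k4 := sm hβ hM hb.k4
  have e := h.v3 g.p3 g.k4S
  rw [abs_of_nonpos (by linarith [k4.1, k4.2])] at e
  simp only [d2] at e
  exact nn_div hβ (by linear_combination 1 / 2 * e)

theorem r_p3_eW1 (h : Cover 1 a b F) (g : Geo β F c) (hb : Bnd M c) (hβ : 0 < β)
    (hM : β * M ≤ 1 / 200) : 0 ≤ 1 / 4 * c.p3x - 7 / 4 * c.p3y - 1 / 4 * c.eW1x + 7 / 4 * c.eW1y +
    β * ((c.p3x - c.eW1x) ^ 2 + (c.p3y - c.eW1y) ^ 2 - (0) ^ 2 - (0) ^ 2 - 2 * (0) ^ 2) / 2 := by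
  have e := h.eu g.p3 g.eW1
  simp only [d2] at e
  exact nn_div hβ (by linear_combination 1 / 2 * e)

theorem r_p3_eS1 (h : Cover 1 a b F) (g : Geo β F c) (hb : Bnd M c) (hβ : 0 < β)
    (hM : β * M ≤ 1 / 200) : 0 ≤ 1 / 4 * c.p3x + 7 / 4 * c.p3y - 1 / 4 * c.eS1x - 7 / 4 * c.eS1y +
    β * ((c.p3x - c.eS1x) ^ 2 + (c.p3y - c.eS1y) ^ 2 - (0) ^ 2 - (0) ^ 2 - 2 * (0) ^ 2) / 2 := by
  have e := h.eu g.p3 g.eS1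
  simp only [d2] at e
  exact nn_div hβ (by linear_combination 1 / 2 * e)

theorem r_p3_eS2 (h : Cover 1 a b F) (g : Geo β F c) (hb : Bnd M c) (hβ : 0 < β)
    (hM : β * M ≤ 1 / 200) : 0 ≤ 1 / 2 * c.p3x + 3 / 2 * c.p3y - 1 / 2 * c.eS2x - 3 / 2 * c.eS2y +
    β * ((c.p3x - c.eS2x) ^ 2 + (c.p3y - c.eS2y) ^ 2 - (0) ^ 2 - (0) ^ 2 - 2 * (0) ^ 2) / 2 := by
  have e := h.eu g.p3 g.eS2
  simp only [d2] at e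
  exact nn_div hβ (by linear_combination 1 / 2 * e)

theorem r_p3_gW (h : Cover 1 a b F) (g : Geo β F c) (hb : Bnd M c) (hβ : 0 < β)
    (hM : β * M ≤ 1 / 200) : 0 ≤ 49 / 64 * c.p3x - 65 / 64 * c.p3y + 1 / 4 * c.gWu - 57 / 32 * c.gWv +
    β * ((c.p3x) ^ 2 + (c.p3y) ^ 2 - (c.gWu + c.gWv) ^ 2 - (c.gWu - c.gWv) ^ 2 - 2 * (0) ^ 2) / 2 := by
  have e := h.eu g.p3 g.gW
  simp only [d2] at e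
  exact nn_div hβ (by linear_combination 1 / 2 * e)

theorem r_p3_gS (h : Cover 1 a b F) (g : Geo β F c) (hb : Bnd M c) (hβ : 0 < β)
    (hM : β * M ≤ 1 / 200) : 0 ≤ 49 / 64 * c.p3x + 65 / 64 * c.p3y + 1 / 4 * c.gSu - 57 / 32 * c.gSv +
    β * ((c.p3x) ^ 2 + (c.p3y) ^ 2 - (c.gSu + c.gSv) ^ 2 - (-c.gSu + c.gSv) ^ 2 - 2 * (0) ^ 2) / 2 := by
  have e := h.eu g.p3 g.gS
  simp only [d2] at e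
  exact nn_div hβ (by linear_combination 1 / 2 * e)

theorem r_p3_hNv (h : Cover 1 a b F) (g : Geo β F c) (hb : Bnd M c) (hβ : 0 < β)
    (hM : β * M ≤ 1 / 200) : 0 ≤ -31 / 16 * c.p3x - 3 / 16 * c.p3y - 7 / 4 * c.hNu - 17 / 8 * c.hNv +
    β * ((c.p3x) ^ 2 + (c.p3y) ^ 2 - (-c.hNu - c.hNv) ^ 2 - (c.hNu - c.hNv) ^ 2 - 2 * (0) ^ 2) / 2 := by
  have hNu := sm hβ hM hb.hNu
  have hNv := sm hβ hM hb.hNv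
  have e := h.v3N g.p3 g.hN (by linarith [hNu.1, hNu.2, hNv.1, hNv.2]) (by linarith [hNu.1, hNu.2, hNv.1, hNv.2])
  simp only [d2] at e
  exact nn_div hβ (by linear_combination 1 / 2 * e)

theorem r_p3_hW (h : Cover 1 a b F) (g : Geo β F c) (hb : Bnd M c) (hβ : 0 < β)
    (hM : β * M ≤ 1 / 200) : 0 ≤ -1 / 16 * c.p3x - 3 / 16 * c.p3y + 1 / 4 * c.hWu - 1 / 8 * c.hWv +
    β * ((c.p3x) ^ 2 + (c.p3y) ^ 2 - (c.hWu + c.hWv) ^ 2 - (c.hWu - c.hWv) ^ 2 - 2 * (0) ^ 2) / 2 := by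
  have e := h.eu g.p3 g.hW
  simp only [d2] at e
  exact nn_div hβ (by linear_combination 1 / 2 * e)

theorem r_z1N_t1N (h : Cover 1 a b F) (g : Geo β F c) (hb : Bnd M c) (hβ : 0 < β)
    (hM : β * M ≤ 1 / 200) : 0 ≤ -c.z1Ny + c.t1Ny + c.s1 + c.t1x +
    β * ((c.z1Nx - c.t1Nx) ^ 2 + (c.z1Ny - c.t1Ny) ^ 2 - (-c.h1 + c.t1y) ^ 2 - (c.s1 + c.t1x) ^ 2 - 2 * (0) ^ 2) / 2 := by
  have e := h.eu g.z1N g.t1N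
  simp only [d2] at e
  exact nn_div hβ (by linear_combination 1 / 2 * e)

theorem r_z1N_t2N (h : Cover 1 a b F) (g : Geo β F c) (hb : Bnd M c) (hβ : 0 < β)
    (hM : β * M ≤ 1 / 200) : 0 ≤ -c.z1Ny + c.t2Ny + c.s1 + c.t2x +
    β * ((c.z1Nx - c.t2Nx) ^ 2 + (c.z1Ny - c.t2Ny) ^ 2 - (-c.h1 + c.t2y) ^ 2 - (c.s1 + c.t2x) ^ 2 - 2 * (0) ^ 2) / 2 := by
  have e := h.eu g.z1N g.t2N
  simp only [d2] at e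
  exact nn_div hβ (by linear_combination 1 / 2 * e)

theorem r_z1N_k1N (h : Cover 1 a b F) (g : Geo β F c) (hb : Bnd M c) (hβ : 0 < β)
    (hM : β * M ≤ 1 / 200) : 0 ≤ -1 / 2 * c.z1Ny + 1 / 2 * c.k1Ny + 1 / 2 * c.s1 +
    β * ((c.z1Nx - c.k1Nx) ^ 2 + (c.z1Ny - c.k1Ny) ^ 2 - (-c.h1 + c.k1) ^ 2 - (c.s1) ^ 2 - 2 * (0) ^ 2) / 2 := by
  have e := h.eu g.z1N g.k1N
  simp only [d2] at e
  exact nn_div hβ (by linear_combination 1 / 2 * e)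

theorem r_z1N_k2N (h : Cover 1 a b F) (g : Geo β F c) (hb : Bnd M c) (hβ : 0 < β)
    (hM : β * M ≤ 1 / 200) : 0 ≤ 1 / 2 * c.z1Nx - c.z1Ny - 1 / 2 * c.k2Nx + c.k2Ny + 1 / 2 * c.h1 + c.s1 + c.k2 +
    β * ((c.z1Nx - c.k2Nx) ^ 2 + (c.z1Ny - c.k2Ny) ^ 2 - (-c.h1) ^ 2 - (c.s1 + c.k2) ^ 2 - 2 * (0) ^ 2) / 2 := by
  have e := h.eu g.z1N g.k2N
  simp only [d2] at e
  exact nn_div hβ (by linear_combination 1 / 2 * e)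

theorem r_z1N_eN1 (h : Cover 1 a b F) (g : Geo β F c) (hb : Bnd M c) (hβ : 0 < β)
    (hM : β * M ≤ 1 / 200) : 0 ≤ 3 / 4 * c.z1Nx - 3 / 4 * c.z1Ny - 3 / 4 * c.eN1x + 3 / 4 * c.eN1y + 3 / 4 * c.h1 + 3 / 4 * c.s1 +
    β * ((c.z1Nx - c.eN1x) ^ 2 + (c.z1Ny - c.eN1y) ^ 2 - (-c.h1) ^ 2 - (c.s1) ^ 2 - 2 * (0) ^ 2) / 2 := by
  have e := h.eu g.z1N g.eN1
  simp only [d2] at e
  exact nn_div hβ (by linear_combination 1 / 2 * e)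

theorem r_z1N_eN2 (h : Cover 1 a b F) (g : Geo β F c) (hb : Bnd M c) (hβ : 0 < β)
    (hM : β * M ≤ 1 / 200) : 0 ≤ 1 / 2 * c.z1Nx - 1 / 2 * c.z1Ny - 1 / 2 * c.eN2x + 1 / 2 * c.eN2y + 1 / 2 * c.h1 + 1 / 2 * c.s1 +
    β * ((c.z1Nx - c.eN2x) ^ 2 + (c.z1Ny - c.eN2y) ^ 2 - (-c.h1) ^ 2 - (c.s1) ^ 2 - 2 * (0) ^ 2) / 2 := by
  have e := h.eu g.z1N g.eN2
  simp only [d2] at e
  exact nn_div hβ (by linear_combination 1 / 2 * e)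

theorem r_z1N_gNu (h : Cover 1 a b F) (g : Geo β F c) (hb : Bnd M c) (hβ : 0 < β)
    (hM : β * M ≤ 1 / 200) : 0 ≤ 15 / 64 * c.z1Nx - 1 / 64 * c.z1Ny + 1 / 8 * c.s1 + 1 / 4 * c.gNu + 1 / 8 * c.h1 + 7 / 32 * c.gNv +
    β * ((c.z1Nx) ^ 2 + (c.z1Ny) ^ 2 - (-c.s1 - c.gNu) ^ 2 - (c.h1 + c.gNu) ^ 2 - 2 * (-c.gNv) ^ 2) / 2 := by
  have e := h.eu g.z1N g.gN
  simp only [d2] at e
  exact nn_div hβ (by linear_combination 1 / 2 * e)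

theorem r_z1N_gNh (h : Cover 1 a b F) (g : Geo β F c) (hb : Bnd M c) (hβ : 0 < β)
    (hM : β * M ≤ 1 / 200) : 0 ≤ 15 / 64 * c.z1Nx - 1 / 64 * c.z1Ny + 15 / 64 * c.h1 + 1 / 4 * c.gNu + 7 / 32 * c.gNv + 1 / 64 * c.s1 +
    β * ((c.z1Nx) ^ 2 + (c.z1Ny) ^ 2 - (-c.h1 - c.gNu - c.gNv) ^ 2 - (c.s1 + c.gNu - c.gNv) ^ 2 - 2 * (0) ^ 2) / 2 := by
  have s1 := sm hβ hM hb.s1
  have h1 := sm hβ hM hb.h1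
  have gNu := sm hβ hM hb.gNu
  have gNv := sm hβ hM hb.gNv
  have e := h.hN g.gN g.z1N (by linarith [s1.1, s1.2, h1.1, h1.2, gNu.1, gNu.2, gNv.1, gNv.2]) (by linarith [s1.1, s1.2, h1.1, h1.2, gNu.1, gNu.2, gNv.1, gNv.2])
  simp only [d2] at e
  exact nn_div hβ (by linear_combination 1 / 2 * e)

theorem r_z1N_hNu (h : Cover 1 a b F) (g : Geo β F c) (hb : Bnd M c) (hβ : 0 < β)
    (hM : β * M ≤ 1 / 200) : 0 ≤ 17 / 16 * c.z1Nx + 13 / 16 * c.z1Ny + 1 / 8 * c.s1 + 1 / 4 * c.hNu + 1 / 8 * c.h1 + 15 / 8 * c.hNv +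
    β * ((c.z1Nx) ^ 2 + (c.z1Ny) ^ 2 - (-c.s1 - c.hNu) ^ 2 - (c.h1 + c.hNu) ^ 2 - 2 * (-c.hNv) ^ 2) / 2 := by
  have e := h.eu g.z1N g.hN
  simp only [d2] at e
  exact nn_div hβ (by linear_combination 1 / 2 * e)

theorem r_z1E_t2E (h : Cover 1 a b F) (g : Geo β F c) (hb : Bnd M c) (hβ : 0 < β)
    (hM : β * M ≤ 1 / 200) : 0 ≤ c.z1Ey - c.t2Ey + c.s1 + c.t2x +
    β * ((c.z1Ex - c.t2Ex) ^ 2 + (c.z1Ey - c.t2Ey) ^ 2 - (c.h1 - c.t2y) ^ 2 - (-c.s1 - c.t2x) ^ 2 - 2 * (0) ^ 2) / 2 := by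
  have e := h.eu g.z1E g.t2E
  simp only [d2] at e
  exact nn_div hβ (by linear_combination 1 / 2 * e)

theorem r_z1E_k1E (h : Cover 1 a b F) (g : Geo β F c) (hb : Bnd M c) (hβ : 0 < β)
    (hM : β * M ≤ 1 / 200) : 0 ≤ 1 / 2 * c.z1Ey - 1 / 2 * c.k1Ey + 1 / 2 * c.s1 +
    β * ((c.z1Ex - c.k1Ex) ^ 2 + (c.z1Ey - c.k1Ey) ^ 2 - (c.h1 - c.k1) ^ 2 - (-c.s1) ^ 2 - 2 * (0) ^ 2) / 2 := by
  have e := h.eu g.z1E g.k1E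
  simp only [d2] at e
  exact nn_div hβ (by linear_combination 1 / 2 * e)

theorem r_z1E_k4E (h : Cover 1 a b F) (g : Geo β F c) (hb : Bnd M c) (hβ : 0 < β)
    (hM : β * M ≤ 1 / 200) : 0 ≤ 1 / 2 * c.z1Ex + c.z1Ey - 1 / 2 * c.k4Ex - c.k4Ey - 1 / 2 * c.h1 + c.s1 + c.k4 +
    β * ((c.z1Ex - c.k4Ex) ^ 2 + (c.z1Ey - c.k4Ey) ^ 2 - (c.h1) ^ 2 - (-c.s1 - c.k4) ^ 2 - 2 * (0) ^ 2) / 2 := by
  have e := h.eu g.z1E g.k4E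
  simp only [d2] at e
  exact nn_div hβ (by linear_combination 1 / 2 * e)

theorem r_z1E_gEu (h : Cover 1 a b F) (g : Geo β F c) (hb : Bnd M c) (hβ : 0 < β)
    (hM : β * M ≤ 1 / 200) : 0 ≤ 15 / 64 * c.z1Ex + 1 / 64 * c.z1Ey + 1 / 8 * c.s1 + 1 / 4 * c.gEu - 1 / 8 * c.h1 + 7 / 32 * c.gEv +
    β * ((c.z1Ex) ^ 2 + (c.z1Ey) ^ 2 - (-c.s1 - c.gEu) ^ 2 - (c.h1 - c.gEu) ^ 2 - 2 * (-c.gEv) ^ 2) / 2 := by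
  have e := h.eu g.z1E g.gE
  simp only [d2] at e
  exact nn_div hβ (by linear_combination 1 / 2 * e)

theorem r_z1E_gEh (h : Cover 1 a b F) (g : Geo β F c) (hb : Bnd M c) (hβ : 0 < β)
    (hM : β * M ≤ 1 / 200) : 0 ≤ 15 / 64 * c.z1Ex + 1 / 64 * c.z1Ey - 15 / 64 * c.h1 + 1 / 4 * c.gEu + 7 / 32 * c.gEv + 1 / 64 * c.s1 +
    β * ((c.z1Ex) ^ 2 + (c.z1Ey) ^ 2 - (c.h1 - c.gEu - c.gEv) ^ 2 - (-c.s1 - c.gEu + c.gEv) ^ 2 - 2 * (0) ^ 2) / 2 := by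
  have s1 := sm hβ hM hb.s1
  have h1 := sm hβ hM hb.h1
  have gEu := sm hβ hM hb.gEu
  have gEv := sm hβ hM hb.gEv
  have e := h.hE g.gE g.z1E (by linarith [s1.1, s1.2, h1.1, h1.2, gEu.1, gEu.2, gEv.1, gEv.2]) (by linarith [s1.1, s1.2, h1.1, h1.2, gEu.1, gEu.2, gEv.1, gEv.2])
  simp only [d2] at e
  exact nn_div hβ (by linear_combination 1 / 2 * e)

theorem r_z3W_t1W (h : Cover 1 a b F) (g : Geo β F c) (hb : Bnd M c) (hβ : 0 < β)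
    (hM : β * M ≤ 1 / 200) : 0 ≤ -c.z3Wy + c.t1Wy + c.s3 - c.t1x +
    β * ((c.z3Wx - c.t1Wx) ^ 2 + (c.z3Wy - c.t1Wy) ^ 2 - (c.h3 - c.t1y) ^ 2 - (c.s3 - c.t1x) ^ 2 - 2 * (0) ^ 2) / 2 := by
  have e := h.eu g.z3W g.t1W
  simp only [d2] at e
  exact nn_div hβ (by linear_combination 1 / 2 * e)

theorem r_z3W_k2W (h : Cover 1 a b F) (g : Geo β F c) (hb : Bnd M c) (hβ : 0 < β)
    (hM : β * M ≤ 1 / 200) : 0 ≤ -1 / 2 * c.z3Wx - c.z3Wy + 1 / 2 * c.k2Wx + c.k2Wy + 1 / 2 * c.h3 + c.s3 - c.k2 +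
    β * ((c.z3Wx - c.k2Wx) ^ 2 + (c.z3Wy - c.k2Wy) ^ 2 - (c.h3) ^ 2 - (c.s3 - c.k2) ^ 2 - 2 * (0) ^ 2) / 2 := by
  have e := h.eu g.z3W g.k2W
  simp only [d2] at e
  exact nn_div hβ (by linear_combination 1 / 2 * e)

theorem r_z3W_k3W (h : Cover 1 a b F) (g : Geo β F c) (hb : Bnd M c) (hβ : 0 < β)
    (hM : β * M ≤ 1 / 200) : 0 ≤ -1 / 2 * c.z3Wy + 1 / 2 * c.k3Wy + 1 / 2 * c.s3 +
    β * ((c.z3Wx - c.k3Wx) ^ 2 + (c.z3Wy - c.k3Wy) ^ 2 - (c.h3 - c.k3) ^ 2 - (c.s3) ^ 2 - 2 * (0) ^ 2) / 2 := by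
  have e := h.eu g.z3W g.k3W
  simp only [d2] at e
  exact nn_div hβ (by linear_combination 1 / 2 * e)

theorem r_z3W_eW1 (h : Cover 1 a b F) (g : Geo β F c) (hb : Bnd M c) (hβ : 0 < β)
    (hM : β * M ≤ 1 / 200) : 0 ≤ -3 / 4 * c.z3Wx - 3 / 4 * c.z3Wy + 3 / 4 * c.eW1x + 3 / 4 * c.eW1y + 3 / 4 * c.h3 + 3 / 4 * c.s3 +
    β * ((c.z3Wx - c.eW1x) ^ 2 + (c.z3Wy - c.eW1y) ^ 2 - (c.h3) ^ 2 - (c.s3) ^ 2 - 2 * (0) ^ 2) / 2 := by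
  have e := h.eu g.z3W g.eW1
  simp only [d2] at e
  exact nn_div hβ (by linear_combination 1 / 2 * e)

theorem r_z3W_gWu (h : Cover 1 a b F) (g : Geo β F c) (hb : Bnd M c) (hβ : 0 < β)
    (hM : β * M ≤ 1 / 200) : 0 ≤ -15 / 64 * c.z3Wx - 1 / 64 * c.z3Wy + 1 / 8 * c.s3 + 1 / 4 * c.gWu + 1 / 8 * c.h3 + 7 / 32 * c.gWv +
    β * ((c.z3Wx) ^ 2 + (c.z3Wy) ^ 2 - (c.s3 + c.gWu) ^ 2 - (c.h3 + c.gWu) ^ 2 - 2 * (-c.gWv) ^ 2) / 2 := by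
  have e := h.eu g.z3W g.gW
  simp only [d2] at e
  exact nn_div hβ (by linear_combination 1 / 2 * e)

theorem r_z3W_gWh (h : Cover 1 a b F) (g : Geo β F c) (hb : Bnd M c) (hβ : 0 < β)
    (hM : β * M ≤ 1 / 200) : 0 ≤ -15 / 64 * c.z3Wx - 1 / 64 * c.z3Wy + 15 / 64 * c.h3 + 1 / 4 * c.gWu + 7 / 32 * c.gWv + 1 / 64 * c.s3 +
    β * ((c.z3Wx) ^ 2 + (c.z3Wy) ^ 2 - (c.h3 + c.gWu + c.gWv) ^ 2 - (c.s3 + c.gWu - c.gWv) ^ 2 - 2 * (0) ^ 2) / 2 := by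
  have s3 := sm hβ hM hb.s3
  have h3 := sm hβ hM hb.h3
  have gWu := sm hβ hM hb.gWu
  have gWv := sm hβ hM hb.gWv
  have e := h.hW g.gW g.z3W (by linarith [s3.1, s3.2, h3.1, h3.2, gWu.1, gWu.2, gWv.1, gWv.2]) (by linarith [s3.1, s3.2, h3.1, h3.2, gWu.1, gWu.2, gWv.1, gWv.2])
  simp only [d2] at e
  exact nn_div hβ (by linear_combination 1 / 2 * e)

theorem r_z3W_hWu (h : Cover 1 a b F) (g : Geo β F c) (hb : Bnd M c) (hβ : 0 < β)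
    (hM : β * M ≤ 1 / 200) : 0 ≤ -17 / 16 * c.z3Wx + 13 / 16 * c.z3Wy + 1 / 8 * c.s3 + 1 / 4 * c.hWu + 1 / 8 * c.h3 + 15 / 8 * c.hWv +
    β * ((c.z3Wx) ^ 2 + (c.z3Wy) ^ 2 - (c.s3 + c.hWu) ^ 2 - (c.h3 + c.hWu) ^ 2 - 2 * (-c.hWv) ^ 2) / 2 := by
  have e := h.eu g.z3W g.hW
  simp only [d2] at e
  exact nn_div hβ (by linear_combination 1 / 2 * e)

theorem r_z3S_t1S (h : Cover 1 a b F) (g : Geo β F c) (hb : Bnd M c) (hβ : 0 < β)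
    (hM : β * M ≤ 1 / 200) : 0 ≤ c.z3Sy - c.t1Sy + c.s3 - c.t1x +
    β * ((c.z3Sx - c.t1Sx) ^ 2 + (c.z3Sy - c.t1Sy) ^ 2 - (-c.h3 + c.t1y) ^ 2 - (-c.s3 + c.t1x) ^ 2 - 2 * (0) ^ 2) / 2 := by
  have e := h.eu g.z3S g.t1S
  simp only [d2] at e
  exact nn_div hβ (by linear_combination 1 / 2 * e)

theorem r_z3S_t2S (h : Cover 1 a b F) (g : Geo β F c) (hb : Bnd M c) (hβ : 0 < β)
    (hM : β * M ≤ 1 / 200) : 0 ≤ c.z3Sy - c.t2Sy + c.s3 - c.t2x +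
    β * ((c.z3Sx - c.t2Sx) ^ 2 + (c.z3Sy - c.t2Sy) ^ 2 - (-c.h3 + c.t2y) ^ 2 - (-c.s3 + c.t2x) ^ 2 - 2 * (0) ^ 2) / 2 := by
  have e := h.eu g.z3S g.t2S
  simp only [d2] at e
  exact nn_div hβ (by linear_combination 1 / 2 * e)

theorem r_z3S_k3S (h : Cover 1 a b F) (g : Geo β F c) (hb : Bnd M c) (hβ : 0 < β)
    (hM : β * M ≤ 1 / 200) : 0 ≤ 1 / 2 * c.z3Sy - 1 / 2 * c.k3Sy + 1 / 2 * c.s3 +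
    β * ((c.z3Sx - c.k3Sx) ^ 2 + (c.z3Sy - c.k3Sy) ^ 2 - (-c.h3 + c.k3) ^ 2 - (-c.s3) ^ 2 - 2 * (0) ^ 2) / 2 := by
  have e := h.eu g.z3S g.k3S
  simp only [d2] at e
  exact nn_div hβ (by linear_combination 1 / 2 * e)

theorem r_z3S_k4S (h : Cover 1 a b F) (g : Geo β F c) (hb : Bnd M c) (hβ : 0 < β)
    (hM : β * M ≤ 1 / 200) : 0 ≤ -1 / 2 * c.z3Sx + c.z3Sy + 1 / 2 * c.k4Sx - c.k4Sy - 1 / 2 * c.h3 + c.s3 - c.k4 +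
    β * ((c.z3Sx - c.k4Sx) ^ 2 + (c.z3Sy - c.k4Sy) ^ 2 - (-c.h3) ^ 2 - (-c.s3 + c.k4) ^ 2 - 2 * (0) ^ 2) / 2 := by
  have e := h.eu g.z3S g.k4S
  simp only [d2] at e
  exact nn_div hβ (by linear_combination 1 / 2 * e)

theorem r_z3S_eS1 (h : Cover 1 a b F) (g : Geo β F c) (hb : Bnd M c) (hβ : 0 < β)
    (hM : β * M ≤ 1 / 200) : 0 ≤ -3 / 4 * c.z3Sx + 3 / 4 * c.z3Sy + 3 / 4 * c.eS1x - 3 / 4 * c.eS1y - 3 / 4 * c.h3 + 3 / 4 * c.s3 +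
    β * ((c.z3Sx - c.eS1x) ^ 2 + (c.z3Sy - c.eS1y) ^ 2 - (-c.h3) ^ 2 - (-c.s3) ^ 2 - 2 * (0) ^ 2) / 2 := by
  have e := h.eu g.z3S g.eS1
  simp only [d2] at e
  exact nn_div hβ (by linear_combination 1 / 2 * e)

theorem r_z3S_eS2 (h : Cover 1 a b F) (g : Geo β F c) (hb : Bnd M c) (hβ : 0 < β)
    (hM : β * M ≤ 1 / 200) : 0 ≤ -1 / 2 * c.z3Sx + 1 / 2 * c.z3Sy + 1 / 2 * c.eS2x - 1 / 2 * c.eS2y - 1 / 2 * c.h3 + 1 / 2 * c.s3 +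
    β * ((c.z3Sx - c.eS2x) ^ 2 + (c.z3Sy - c.eS2y) ^ 2 - (-c.h3) ^ 2 - (-c.s3) ^ 2 - 2 * (0) ^ 2) / 2 := by
  have e := h.eu g.z3S g.eS2
  simp only [d2] at e
  exact nn_div hβ (by linear_combination 1 / 2 * e)

theorem r_z3S_gSu (h : Cover 1 a b F) (g : Geo β F c) (hb : Bnd M c) (hβ : 0 < β)
    (hM : β * M ≤ 1 / 200) : 0 ≤ -15 / 64 * c.z3Sx + 1 / 64 * c.z3Sy + 1 / 8 * c.s3 + 1 / 4 * c.gSu - 1 / 8 * c.h3 + 7 / 32 * c.gSv +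
    β * ((c.z3Sx) ^ 2 + (c.z3Sy) ^ 2 - (c.s3 + c.gSu) ^ 2 - (c.h3 - c.gSu) ^ 2 - 2 * (-c.gSv) ^ 2) / 2 := by
  have e := h.eu g.z3S g.gS
  simp only [d2] at e
  exact nn_div hβ (by linear_combination 1 / 2 * e)

theorem r_z3S_gSh (h : Cover 1 a b F) (g : Geo β F c) (hb : Bnd M c) (hβ : 0 < β)
    (hM : β * M ≤ 1 / 200) : 0 ≤ -15 / 64 * c.z3Sx + 1 / 64 * c.z3Sy - 15 / 64 * c.h3 + 1 / 4 * c.gSu + 7 / 32 * c.gSv + 1 / 64 * c.s3 +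
    β * ((c.z3Sx) ^ 2 + (c.z3Sy) ^ 2 - (-c.h3 + c.gSu + c.gSv) ^ 2 - (-c.s3 - c.gSu + c.gSv) ^ 2 - 2 * (0) ^ 2) / 2 := by
  have s3 := sm hβ hM hb.s3
  have h3 := sm hβ hM hb.h3
  have gSu := sm hβ hM hb.gSu
  have gSv := sm hβ hM hb.gSv
  have e := h.hS g.gS g.z3S (by linarith [s3.1, s3.2, h3.1, h3.2, gSu.1, gSu.2, gSv.1, gSv.2]) (by linarith [s3.1, s3.2, h3.1, h3.2, gSu.1, gSu.2, gSv.1, gSv.2])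
  simp only [d2] at e
  exact nn_div hβ (by linear_combination 1 / 2 * e)

theorem r_t1N_k1N (h : Cover 1 a b F) (g : Geo β F c) (hb : Bnd M c) (hβ : 0 < β)
    (hM : β * M ≤ 1 / 200) : 0 ≤ 1 / 2 * c.t1Ny - 1 / 2 * c.k1Ny + 1 / 2 * c.t1x +
    β * ((c.t1Nx - c.k1Nx) ^ 2 + (c.t1Ny - c.k1Ny) ^ 2 - (-c.t1y + c.k1) ^ 2 - (-c.t1x) ^ 2 - 2 * (0) ^ 2) / 2 := by
  have e := h.eu g.t1N g.k1N
  simp only [d2] at e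
  exact nn_div hβ (by linear_combination 1 / 2 * e)

theorem r_t1N_k2N (h : Cover 1 a b F) (g : Geo β F c) (hb : Bnd M c) (hβ : 0 < β)
    (hM : β * M ≤ 1 / 200) : 0 ≤ 1 / 2 * c.t1Nx - 1 / 2 * c.k2Nx + 1 / 2 * c.t1y +
    β * ((c.t1Nx - c.k2Nx) ^ 2 + (c.t1Ny - c.k2Ny) ^ 2 - (-c.t1y) ^ 2 - (-c.t1x + c.k2) ^ 2 - 2 * (0) ^ 2) / 2 := by
  have e := h.eu g.t1N g.k2N
  simp only [d2] at e
  exact nn_div hβ (by linear_combination 1 / 2 * e)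

theorem r_t1N_eN1 (h : Cover 1 a b F) (g : Geo β F c) (hb : Bnd M c) (hβ : 0 < β)
    (hM : β * M ≤ 1 / 200) : 0 ≤ 3 / 4 * c.t1Nx + 1 / 4 * c.t1Ny - 3 / 4 * c.eN1x - 1 / 4 * c.eN1y + 3 / 4 * c.t1y + 1 / 4 * c.t1x +
    β * ((c.t1Nx - c.eN1x) ^ 2 + (c.t1Ny - c.eN1y) ^ 2 - (-c.t1y) ^ 2 - (-c.t1x) ^ 2 - 2 * (0) ^ 2) / 2 := by
  have e := h.eu g.t1N g.eN1
  simp only [d2] at e
  exact nn_div hβ (by linear_combination 1 / 2 * e)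

theorem r_t1N_eN2 (h : Cover 1 a b F) (g : Geo β F c) (hb : Bnd M c) (hβ : 0 < β)
    (hM : β * M ≤ 1 / 200) : 0 ≤ 1 / 2 * c.t1Nx + 1 / 2 * c.t1Ny - 1 / 2 * c.eN2x - 1 / 2 * c.eN2y + 1 / 2 * c.t1y + 1 / 2 * c.t1x +
    β * ((c.t1Nx - c.eN2x) ^ 2 + (c.t1Ny - c.eN2y) ^ 2 - (-c.t1y) ^ 2 - (-c.t1x) ^ 2 - 2 * (0) ^ 2) / 2 := by
  have e := h.eu g.t1N g.eN2
  simp only [d2] at e
  exact nn_div hβ (by linear_combination 1 / 2 * e)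

theorem r_t1N_gNh (h : Cover 1 a b F) (g : Geo β F c) (hb : Bnd M c) (hβ : 0 < β)
    (hM : β * M ≤ 1 / 200) : 0 ≤ 15 / 64 * c.t1Nx + 63 / 64 * c.t1Ny + 15 / 64 * c.t1y - 3 / 4 * c.gNu + 39 / 32 * c.gNv + 63 / 64 * c.t1x +
    β * ((c.t1Nx) ^ 2 + (c.t1Ny) ^ 2 - (-c.t1y - c.gNu - c.gNv) ^ 2 - (-c.t1x + c.gNu - c.gNv) ^ 2 - 2 * (0) ^ 2) / 2 := by
  have t1x := sm hβ hM hb.t1x
  have t1y := sm hβ hM hb.t1y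
  have gNu := sm hβ hM hb.gNu
  have gNv := sm hβ hM hb.gNv
  have e := h.hN g.gN g.t1N (by linarith [t1x.1, t1x.2, t1y.1, t1y.2, gNu.1, gNu.2, gNv.1, gNv.2]) (by linarith [t1x.1, t1x.2, t1y.1, t1y.2, gNu.1, gNu.2, gNv.1, gNv.2])
  simp only [d2] at e
  exact nn_div hβ (by linear_combination 1 / 2 * e)

theorem r_t1W_k2W (h : Cover 1 a b F) (g : Geo β F c) (hb : Bnd M c) (hβ : 0 < β)
    (hM : β * M ≤ 1 / 200) : 0 ≤ -1 / 2 * c.t1Wx + 1 / 2 * c.k2Wx + 1 / 2 * c.t1y +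
    β * ((c.t1Wx - c.k2Wx) ^ 2 + (c.t1Wy - c.k2Wy) ^ 2 - (c.t1y) ^ 2 - (c.t1x - c.k2) ^ 2 - 2 * (0) ^ 2) / 2 := by
  have e := h.eu g.t1W g.k2W
  simp only [d2] at e
  exact nn_div hβ (by linear_combination 1 / 2 * e)

theorem r_t1W_k3W (h : Cover 1 a b F) (g : Geo β F c) (hb : Bnd M c) (hβ : 0 < β)
    (hM : β * M ≤ 1 / 200) : 0 ≤ 1 / 2 * c.t1Wy - 1 / 2 * c.k3Wy - 1 / 2 * c.t1x +
    β * ((c.t1Wx - c.k3Wx) ^ 2 + (c.t1Wy - c.k3Wy) ^ 2 - (c.t1y - c.k3) ^ 2 - (c.t1x) ^ 2 - 2 * (0) ^ 2) / 2 := by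
  have e := h.eu g.t1W g.k3W
  simp only [d2] at e
  exact nn_div hβ (by linear_combination 1 / 2 * e)

theorem r_t1W_eW1 (h : Cover 1 a b F) (g : Geo β F c) (hb : Bnd M c) (hβ : 0 < β)
    (hM : β * M ≤ 1 / 200) : 0 ≤ -3 / 4 * c.t1Wx + 1 / 4 * c.t1Wy + 3 / 4 * c.eW1x - 1 / 4 * c.eW1y + 3 / 4 * c.t1y - 1 / 4 * c.t1x +
    β * ((c.t1Wx - c.eW1x) ^ 2 + (c.t1Wy - c.eW1y) ^ 2 - (c.t1y) ^ 2 - (c.t1x) ^ 2 - 2 * (0) ^ 2) / 2 := by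
  have e := h.eu g.t1W g.eW1
  simp only [d2] at e
  exact nn_div hβ (by linear_combination 1 / 2 * e)

theorem r_t1W_gWh (h : Cover 1 a b F) (g : Geo β F c) (hb : Bnd M c) (hβ : 0 < β)
    (hM : β * M ≤ 1 / 200) : 0 ≤ -15 / 64 * c.t1Wx + 63 / 64 * c.t1Wy + 15 / 64 * c.t1y - 3 / 4 * c.gWu + 39 / 32 * c.gWv - 63 / 64 * c.t1x +
    β * ((c.t1Wx) ^ 2 + (c.t1Wy) ^ 2 - (c.t1y + c.gWu + c.gWv) ^ 2 - (c.t1x + c.gWu - c.gWv) ^ 2 - 2 * (0) ^ 2) / 2 := by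
  have t1x := sm hβ hM hb.t1x
  have t1y := sm hβ hM hb.t1y
  have gWu := sm hβ hM hb.gWu
  have gWv := sm hβ hM hb.gWv
  have e := h.hW g.gW g.t1W (by linarith [t1x.1, t1x.2, t1y.1, t1y.2, gWu.1, gWu.2, gWv.1, gWv.2]) (by linarith [t1x.1, t1x.2, t1y.1, t1y.2, gWu.1, gWu.2, gWv.1, gWv.2])
  simp only [d2] at e
  exact nn_div hβ (by linear_combination 1 / 2 * e)

theorem r_t1S_k3S (h : Cover 1 a b F) (g : Geo β F c) (hb : Bnd M c) (hβ : 0 < β)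
    (hM : β * M ≤ 1 / 200) : 0 ≤ -1 / 2 * c.t1Sy + 1 / 2 * c.k3Sy - 1 / 2 * c.t1x +
    β * ((c.t1Sx - c.k3Sx) ^ 2 + (c.t1Sy - c.k3Sy) ^ 2 - (-c.t1y + c.k3) ^ 2 - (-c.t1x) ^ 2 - 2 * (0) ^ 2) / 2 := by
  have e := h.eu g.t1S g.k3S
  simp only [d2] at e
  exact nn_div hβ (by linear_combination 1 / 2 * e)

theorem r_t1S_k4S (h : Cover 1 a b F) (g : Geo β F c) (hb : Bnd M c) (hβ : 0 < β)
    (hM : β * M ≤ 1 / 200) : 0 ≤ -1 / 2 * c.t1Sx + 1 / 2 * c.k4Sx - 1 / 2 * c.t1y +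
    β * ((c.t1Sx - c.k4Sx) ^ 2 + (c.t1Sy - c.k4Sy) ^ 2 - (-c.t1y) ^ 2 - (-c.t1x + c.k4) ^ 2 - 2 * (0) ^ 2) / 2 := by
  have e := h.eu g.t1S g.k4S
  simp only [d2] at e
  exact nn_div hβ (by linear_combination 1 / 2 * e)

theorem r_t1S_eS1 (h : Cover 1 a b F) (g : Geo β F c) (hb : Bnd M c) (hβ : 0 < β)
    (hM : β * M ≤ 1 / 200) : 0 ≤ -3 / 4 * c.t1Sx - 1 / 4 * c.t1Sy + 3 / 4 * c.eS1x + 1 / 4 * c.eS1y - 3 / 4 * c.t1y - 1 / 4 * c.t1x +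
    β * ((c.t1Sx - c.eS1x) ^ 2 + (c.t1Sy - c.eS1y) ^ 2 - (-c.t1y) ^ 2 - (-c.t1x) ^ 2 - 2 * (0) ^ 2) / 2 := by
  have e := h.eu g.t1S g.eS1
  simp only [d2] at e
  exact nn_div hβ (by linear_combination 1 / 2 * e)

theorem r_t1S_eS2 (h : Cover 1 a b F) (g : Geo β F c) (hb : Bnd M c) (hβ : 0 < β)
    (hM : β * M ≤ 1 / 200) : 0 ≤ -1 / 2 * c.t1Sx - 1 / 2 * c.t1Sy + 1 / 2 * c.eS2x + 1 / 2 * c.eS2y - 1 / 2 * c.t1y - 1 / 2 * c.t1x +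
    β * ((c.t1Sx - c.eS2x) ^ 2 + (c.t1Sy - c.eS2y) ^ 2 - (-c.t1y) ^ 2 - (-c.t1x) ^ 2 - 2 * (0) ^ 2) / 2 := by
  have e := h.eu g.t1S g.eS2
  simp only [d2] at e
  exact nn_div hβ (by linear_combination 1 / 2 * e)

theorem r_t1S_gSh (h : Cover 1 a b F) (g : Geo β F c) (hb : Bnd M c) (hβ : 0 < β)
    (hM : β * M ≤ 1 / 200) : 0 ≤ -15 / 64 * c.t1Sx - 63 / 64 * c.t1Sy - 15 / 64 * c.t1y - 3 / 4 * c.gSu + 39 / 32 * c.gSv - 63 / 64 * c.t1x +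
    β * ((c.t1Sx) ^ 2 + (c.t1Sy) ^ 2 - (-c.t1y + c.gSu + c.gSv) ^ 2 - (-c.t1x - c.gSu + c.gSv) ^ 2 - 2 * (0) ^ 2) / 2 := by
  have t1x := sm hβ hM hb.t1x
  have t1y := sm hβ hM hb.t1y
  have gSu := sm hβ hM hb.gSu
  have gSv := sm hβ hM hb.gSv
  have e := h.hS g.gS g.t1S (by linarith [t1x.1, t1x.2, t1y.1, t1y.2, gSu.1, gSu.2, gSv.1, gSv.2]) (by linarith [t1x.1, t1x.2, t1y.1, t1y.2, gSu.1, gSu.2, gSv.1, gSv.2])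
  simp only [d2] at e
  exact nn_div hβ (by linear_combination 1 / 2 * e)

theorem r_t2N_k1N (h : Cover 1 a b F) (g : Geo β F c) (hb : Bnd M c) (hβ : 0 < β)
    (hM : β * M ≤ 1 / 200) : 0 ≤ 1 / 2 * c.t2Ny - 1 / 2 * c.k1Ny + 1 / 2 * c.t2x +
    β * ((c.t2Nx - c.k1Nx) ^ 2 + (c.t2Ny - c.k1Ny) ^ 2 - (-c.t2y + c.k1) ^ 2 - (-c.t2x) ^ 2 - 2 * (0) ^ 2) / 2 := by
  have e := h.eu g.t2N g.k1N
  simp only [d2] at e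
  exact nn_div hβ (by linear_combination 1 / 2 * e)

theorem r_t2N_k2N (h : Cover 1 a b F) (g : Geo β F c) (hb : Bnd M c) (hβ : 0 < β)
    (hM : β * M ≤ 1 / 200) : 0 ≤ 1 / 2 * c.t2Nx - 1 / 2 * c.k2Nx + 1 / 2 * c.t2y +
    β * ((c.t2Nx - c.k2Nx) ^ 2 + (c.t2Ny - c.k2Ny) ^ 2 - (-c.t2y) ^ 2 - (-c.t2x + c.k2) ^ 2 - 2 * (0) ^ 2) / 2 := by
  have e := h.eu g.t2N g.k2N
  simp only [d2] at e
  exact nn_div hβ (by linear_combination 1 / 2 * e)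

theorem r_t2N_eN1 (h : Cover 1 a b F) (g : Geo β F c) (hb : Bnd M c) (hβ : 0 < β)
    (hM : β * M ≤ 1 / 200) : 0 ≤ 3 / 4 * c.t2Nx + 1 / 4 * c.t2Ny - 3 / 4 * c.eN1x - 1 / 4 * c.eN1y + 3 / 4 * c.t2y + 1 / 4 * c.t2x +
    β * ((c.t2Nx - c.eN1x) ^ 2 + (c.t2Ny - c.eN1y) ^ 2 - (-c.t2y) ^ 2 - (-c.t2x) ^ 2 - 2 * (0) ^ 2) / 2 := by
  have e := h.eu g.t2N g.eN1
  simp only [d2] at e
  exact nn_div hβ (by linear_combination 1 / 2 * e)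

theorem r_t2N_eN2 (h : Cover 1 a b F) (g : Geo β F c) (hb : Bnd M c) (hβ : 0 < β)
    (hM : β * M ≤ 1 / 200) : 0 ≤ 1 / 2 * c.t2Nx + 1 / 2 * c.t2Ny - 1 / 2 * c.eN2x - 1 / 2 * c.eN2y + 1 / 2 * c.t2y + 1 / 2 * c.t2x +
    β * ((c.t2Nx - c.eN2x) ^ 2 + (c.t2Ny - c.eN2y) ^ 2 - (-c.t2y) ^ 2 - (-c.t2x) ^ 2 - 2 * (0) ^ 2) / 2 := by
  have e := h.eu g.t2N g.eN2
  simp only [d2] at e
  exact nn_div hβ (by linear_combination 1 / 2 * e)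

theorem r_t2N_gNh (h : Cover 1 a b F) (g : Geo β F c) (hb : Bnd M c) (hβ : 0 < β)
    (hM : β * M ≤ 1 / 200) : 0 ≤ 15 / 64 * c.t2Nx + 63 / 64 * c.t2Ny + 15 / 64 * c.t2y - 3 / 4 * c.gNu + 39 / 32 * c.gNv + 63 / 64 * c.t2x +
    β * ((c.t2Nx) ^ 2 + (c.t2Ny) ^ 2 - (-c.t2y - c.gNu - c.gNv) ^ 2 - (-c.t2x + c.gNu - c.gNv) ^ 2 - 2 * (0) ^ 2) / 2 := by
  have t2x := sm hβ hM hb.t2x
  have t2y := sm hβ hM hb.t2y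
  have gNu := sm hβ hM hb.gNu
  have gNv := sm hβ hM hb.gNv
  have e := h.hN g.gN g.t2N (by linarith [t2x.1, t2x.2, t2y.1, t2y.2, gNu.1, gNu.2, gNv.1, gNv.2]) (by linarith [t2x.1, t2x.2, t2y.1, t2y.2, gNu.1, gNu.2, gNv.1, gNv.2])
  simp only [d2] at e
  exact nn_div hβ (by linear_combination 1 / 2 * e)

theorem r_t2S_k3S (h : Cover 1 a b F) (g : Geo β F c) (hb : Bnd M c) (hβ : 0 < β)
    (hM : β * M ≤ 1 / 200) : 0 ≤ -1 / 2 * c.t2Sy + 1 / 2 * c.k3Sy - 1 / 2 * c.t2x +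
    β * ((c.t2Sx - c.k3Sx) ^ 2 + (c.t2Sy - c.k3Sy) ^ 2 - (-c.t2y + c.k3) ^ 2 - (-c.t2x) ^ 2 - 2 * (0) ^ 2) / 2 := by
  have e := h.eu g.t2S g.k3S
  simp only [d2] at e
  exact nn_div hβ (by linear_combination 1 / 2 * e)

theorem r_t2S_k4S (h : Cover 1 a b F) (g : Geo β F c) (hb : Bnd M c) (hβ : 0 < β)
    (hM : β * M ≤ 1 / 200) : 0 ≤ -1 / 2 * c.t2Sx + 1 / 2 * c.k4Sx - 1 / 2 * c.t2y +
    β * ((c.t2Sx - c.k4Sx) ^ 2 + (c.t2Sy - c.k4Sy) ^ 2 - (-c.t2y) ^ 2 - (-c.t2x + c.k4) ^ 2 - 2 * (0) ^ 2) / 2 := by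
  have e := h.eu g.t2S g.k4S
  simp only [d2] at e
  exact nn_div hβ (by linear_combination 1 / 2 * e)

theorem r_t2S_eS1 (h : Cover 1 a b F) (g : Geo β F c) (hb : Bnd M c) (hβ : 0 < β)
    (hM : β * M ≤ 1 / 200) : 0 ≤ -3 / 4 * c.t2Sx - 1 / 4 * c.t2Sy + 3 / 4 * c.eS1x + 1 / 4 * c.eS1y - 3 / 4 * c.t2y - 1 / 4 * c.t2x +
    β * ((c.t2Sx - c.eS1x) ^ 2 + (c.t2Sy - c.eS1y) ^ 2 - (-c.t2y) ^ 2 - (-c.t2x) ^ 2 - 2 * (0) ^ 2) / 2 := by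
  have e := h.eu g.t2S g.eS1
  simp only [d2] at e
  exact nn_div hβ (by linear_combination 1 / 2 * e)

theorem r_t2S_eS2 (h : Cover 1 a b F) (g : Geo β F c) (hb : Bnd M c) (hβ : 0 < β)
    (hM : β * M ≤ 1 / 200) : 0 ≤ -1 / 2 * c.t2Sx - 1 / 2 * c.t2Sy + 1 / 2 * c.eS2x + 1 / 2 * c.eS2y - 1 / 2 * c.t2y - 1 / 2 * c.t2x +
    β * ((c.t2Sx - c.eS2x) ^ 2 + (c.t2Sy - c.eS2y) ^ 2 - (-c.t2y) ^ 2 - (-c.t2x) ^ 2 - 2 * (0) ^ 2) / 2 := by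
  have e := h.eu g.t2S g.eS2
  simp only [d2] at e
  exact nn_div hβ (by linear_combination 1 / 2 * e)

theorem r_t2S_gSh (h : Cover 1 a b F) (g : Geo β F c) (hb : Bnd M c) (hβ : 0 < β)
    (hM : β * M ≤ 1 / 200) : 0 ≤ -15 / 64 * c.t2Sx - 63 / 64 * c.t2Sy - 15 / 64 * c.t2y - 3 / 4 * c.gSu + 39 / 32 * c.gSv - 63 / 64 * c.t2x +
    β * ((c.t2Sx) ^ 2 + (c.t2Sy) ^ 2 - (-c.t2y + c.gSu + c.gSv) ^ 2 - (-c.t2x - c.gSu + c.gSv) ^ 2 - 2 * (0) ^ 2) / 2 := by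
  have t2x := sm hβ hM hb.t2x
  have t2y := sm hβ hM hb.t2y
  have gSu := sm hβ hM hb.gSu
  have gSv := sm hβ hM hb.gSv
  have e := h.hS g.gS g.t2S (by linarith [t2x.1, t2x.2, t2y.1, t2y.2, gSu.1, gSu.2, gSv.1, gSv.2]) (by linarith [t2x.1, t2x.2, t2y.1, t2y.2, gSu.1, gSu.2, gSv.1, gSv.2])
  simp only [d2] at e
  exact nn_div hβ (by linear_combination 1 / 2 * e)

theorem r_t2E_k1E (h : Cover 1 a b F) (g : Geo β F c) (hb : Bnd M c) (hβ : 0 < β)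
    (hM : β * M ≤ 1 / 200) : 0 ≤ -1 / 2 * c.t2Ey + 1 / 2 * c.k1Ey + 1 / 2 * c.t2x +
    β * ((c.t2Ex - c.k1Ex) ^ 2 + (c.t2Ey - c.k1Ey) ^ 2 - (c.t2y - c.k1) ^ 2 - (c.t2x) ^ 2 - 2 * (0) ^ 2) / 2 := by
  have e := h.eu g.t2E g.k1E
  simp only [d2] at e
  exact nn_div hβ (by linear_combination 1 / 2 * e)

theorem r_t2E_k4E (h : Cover 1 a b F) (g : Geo β F c) (hb : Bnd M c) (hβ : 0 < β)
    (hM : β * M ≤ 1 / 200) : 0 ≤ 1 / 2 * c.t2Ex - 1 / 2 * c.k4Ex - 1 / 2 * c.t2y +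
    β * ((c.t2Ex - c.k4Ex) ^ 2 + (c.t2Ey - c.k4Ey) ^ 2 - (c.t2y) ^ 2 - (c.t2x - c.k4) ^ 2 - 2 * (0) ^ 2) / 2 := by
  have e := h.eu g.t2E g.k4E
  simp only [d2] at e
  exact nn_div hβ (by linear_combination 1 / 2 * e)

theorem r_t2E_gEh (h : Cover 1 a b F) (g : Geo β F c) (hb : Bnd M c) (hβ : 0 < β)
    (hM : β * M ≤ 1 / 200) : 0 ≤ 15 / 64 * c.t2Ex - 63 / 64 * c.t2Ey - 15 / 64 * c.t2y - 3 / 4 * c.gEu + 39 / 32 * c.gEv + 63 / 64 * c.t2x +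
    β * ((c.t2Ex) ^ 2 + (c.t2Ey) ^ 2 - (c.t2y - c.gEu - c.gEv) ^ 2 - (c.t2x - c.gEu + c.gEv) ^ 2 - 2 * (0) ^ 2) / 2 := by
  have t2x := sm hβ hM hb.t2x
  have t2y := sm hβ hM hb.t2y
  have gEu := sm hβ hM hb.gEu
  have gEv := sm hβ hM hb.gEv
  have e := h.hE g.gE g.t2E (by linarith [t2x.1, t2x.2, t2y.1, t2y.2, gEu.1, gEu.2, gEv.1, gEv.2]) (by linarith [t2x.1, t2x.2, t2y.1, t2y.2, gEu.1, gEu.2, gEv.1, gEv.2])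
  simp only [d2] at e
  exact nn_div hβ (by linear_combination 1 / 2 * e)

theorem r_k1N_k2N (h : Cover 1 a b F) (g : Geo β F c) (hb : Bnd M c) (hβ : 0 < β)
    (hM : β * M ≤ 1 / 200) : 0 ≤ 1 / 2 * c.k1Nx - 1 / 2 * c.k1Ny - 1 / 2 * c.k2Nx + 1 / 2 * c.k2Ny + 1 / 2 * c.k1 + 1 / 2 * c.k2 +
    β * ((c.k1Nx - c.k2Nx) ^ 2 + (c.k1Ny - c.k2Ny) ^ 2 - (-c.k1) ^ 2 - (c.k2) ^ 2 - 2 * (0) ^ 2) / 2 := by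
  have e := h.eu g.k1N g.k2N
  simp only [d2] at e
  exact nn_div hβ (by linear_combination 1 / 2 * e)

theorem r_k1N_eN1 (h : Cover 1 a b F) (g : Geo β F c) (hb : Bnd M c) (hβ : 0 < β)
    (hM : β * M ≤ 1 / 200) : 0 ≤ 3 / 4 * c.k1Nx - 1 / 4 * c.k1Ny - 3 / 4 * c.eN1x + 1 / 4 * c.eN1y + 3 / 4 * c.k1 +
    β * ((c.k1Nx - c.eN1x) ^ 2 + (c.k1Ny - c.eN1y) ^ 2 - (-c.k1) ^ 2 - (0) ^ 2 - 2 * (0) ^ 2) / 2 := by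
  have e := h.eu g.k1N g.eN1
  simp only [d2] at e
  exact nn_div hβ (by linear_combination 1 / 2 * e)

theorem r_k1N_eN2 (h : Cover 1 a b F) (g : Geo β F c) (hb : Bnd M c) (hβ : 0 < β)
    (hM : β * M ≤ 1 / 200) : 0 ≤ 1 / 2 * c.k1Nx - 1 / 2 * c.eN2x + 1 / 2 * c.k1 +
    β * ((c.k1Nx - c.eN2x) ^ 2 + (c.k1Ny - c.eN2y) ^ 2 - (-c.k1) ^ 2 - (0) ^ 2 - 2 * (0) ^ 2) / 2 := by
  have e := h.eu g.k1N g.eN2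
  simp only [d2] at e
  exact nn_div hβ (by linear_combination 1 / 2 * e)

theorem r_k1N_gNh (h : Cover 1 a b F) (g : Geo β F c) (hb : Bnd M c) (hβ : 0 < β)
    (hM : β * M ≤ 1 / 200) : 0 ≤ 15 / 64 * c.k1Nx + 31 / 64 * c.k1Ny + 15 / 64 * c.k1 - 1 / 4 * c.gNu + 23 / 32 * c.gNv +
    β * ((c.k1Nx) ^ 2 + (c.k1Ny) ^ 2 - (-c.k1 - c.gNu - c.gNv) ^ 2 - (c.gNu - c.gNv) ^ 2 - 2 * (0) ^ 2) / 2 := by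
  have k1 := sm hβ hM hb.k1
  have gNu := sm hβ hM hb.gNu
  have gNv := sm hβ hM hb.gNv
  have e := h.hN g.gN g.k1N (by linarith [k1.1, k1.2, gNu.1, gNu.2, gNv.1, gNv.2]) (by linarith [k1.1, k1.2, gNu.1, gNu.2, gNv.1, gNv.2])
  simp only [d2] at e
  exact nn_div hβ (by linear_combination 1 / 2 * e)

theorem r_k1E_k4E (h : Cover 1 a b F) (g : Geo β F c) (hb : Bnd M c) (hβ : 0 < β)
    (hM : β * M ≤ 1 / 200) : 0 ≤ 1 / 2 * c.k1Ex + 1 / 2 * c.k1Ey - 1 / 2 * c.k4Ex - 1 / 2 * c.k4Ey - 1 / 2 * c.k1 + 1 / 2 * c.k4 +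
    β * ((c.k1Ex - c.k4Ex) ^ 2 + (c.k1Ey - c.k4Ey) ^ 2 - (c.k1) ^ 2 - (-c.k4) ^ 2 - 2 * (0) ^ 2) / 2 := by
  have e := h.eu g.k1E g.k4E
  simp only [d2] at e
  exact nn_div hβ (by linear_combination 1 / 2 * e)

theorem r_k1E_gEh (h : Cover 1 a b F) (g : Geo β F c) (hb : Bnd M c) (hβ : 0 < β)
    (hM : β * M ≤ 1 / 200) : 0 ≤ 15 / 64 * c.k1Ex - 31 / 64 * c.k1Ey - 15 / 64 * c.k1 - 1 / 4 * c.gEu + 23 / 32 * c.gEv +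
    β * ((c.k1Ex) ^ 2 + (c.k1Ey) ^ 2 - (c.k1 - c.gEu - c.gEv) ^ 2 - (-c.gEu + c.gEv) ^ 2 - 2 * (0) ^ 2) / 2 := by
  have k1 := sm hβ hM hb.k1
  have gEu := sm hβ hM hb.gEu
  have gEv := sm hβ hM hb.gEv
  have e := h.hE g.gE g.k1E (by linarith [k1.1, k1.2, gEu.1, gEu.2, gEv.1, gEv.2]) (by linarith [k1.1, k1.2, gEu.1, gEu.2, gEv.1, gEv.2])
  simp only [d2] at e
  exact nn_div hβ (by linear_combination 1 / 2 * e)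

theorem r_k2N_eN1 (h : Cover 1 a b F) (g : Geo β F c) (hb : Bnd M c) (hβ : 0 < β)
    (hM : β * M ≤ 1 / 200) : 0 ≤ 1 / 4 * c.k2Nx + 1 / 4 * c.k2Ny - 1 / 4 * c.eN1x - 1 / 4 * c.eN1y + 1 / 4 * c.k2 +
    β * ((c.k2Nx - c.eN1x) ^ 2 + (c.k2Ny - c.eN1y) ^ 2 - (0) ^ 2 - (-c.k2) ^ 2 - 2 * (0) ^ 2) / 2 := by
  have e := h.eu g.k2N g.eN1
  simp only [d2] at e
  exact nn_div hβ (by linear_combination 1 / 2 * e)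

theorem r_k2N_eN2 (h : Cover 1 a b F) (g : Geo β F c) (hb : Bnd M c) (hβ : 0 < β)
    (hM : β * M ≤ 1 / 200) : 0 ≤ 1 / 2 * c.k2Ny - 1 / 2 * c.eN2y + 1 / 2 * c.k2 +
    β * ((c.k2Nx - c.eN2x) ^ 2 + (c.k2Ny - c.eN2y) ^ 2 - (0) ^ 2 - (-c.k2) ^ 2 - 2 * (0) ^ 2) / 2 := by
  have e := h.eu g.k2N g.eN2
  simp only [d2] at e
  exact nn_div hβ (by linear_combination 1 / 2 * e)

theorem r_k2N_gNh (h : Cover 1 a b F) (g : Geo β F c) (hb : Bnd M c) (hβ : 0 < β)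
    (hM : β * M ≤ 1 / 200) : 0 ≤ -17 / 64 * c.k2Nx + 63 / 64 * c.k2Ny - 5 / 4 * c.gNu + 23 / 32 * c.gNv + 63 / 64 * c.k2 +
    β * ((c.k2Nx) ^ 2 + (c.k2Ny) ^ 2 - (-c.gNu - c.gNv) ^ 2 - (-c.k2 + c.gNu - c.gNv) ^ 2 - 2 * (0) ^ 2) / 2 := by
  have k2 := sm hβ hM hb.k2
  have gNu := sm hβ hM hb.gNu
  have gNv := sm hβ hM hb.gNv
  have e := h.hN g.gN g.k2N (by linarith [k2.1, k2.2, gNu.1, gNu.2, gNv.1, gNv.2]) (by linarith [k2.1, k2.2, gNu.1, gNu.2, gNv.1, gNv.2])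
  simp only [d2] at e
  exact nn_div hβ (by linear_combination 1 / 2 * e)

theorem r_k2W_k3W (h : Cover 1 a b F) (g : Geo β F c) (hb : Bnd M c) (hβ : 0 < β)
    (hM : β * M ≤ 1 / 200) : 0 ≤ 1 / 2 * c.k2Wx + 1 / 2 * c.k2Wy - 1 / 2 * c.k3Wx - 1 / 2 * c.k3Wy + 1 / 2 * c.k3 - 1 / 2 * c.k2 +
    β * ((c.k2Wx - c.k3Wx) ^ 2 + (c.k2Wy - c.k3Wy) ^ 2 - (-c.k3) ^ 2 - (c.k2) ^ 2 - 2 * (0) ^ 2) / 2 := by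
  have e := h.eu g.k2W g.k3W
  simp only [d2] at e
  exact nn_div hβ (by linear_combination 1 / 2 * e)

theorem r_k2W_eW1 (h : Cover 1 a b F) (g : Geo β F c) (hb : Bnd M c) (hβ : 0 < β)
    (hM : β * M ≤ 1 / 200) : 0 ≤ -1 / 4 * c.k2Wx + 1 / 4 * c.k2Wy + 1 / 4 * c.eW1x - 1 / 4 * c.eW1y - 1 / 4 * c.k2 +
    β * ((c.k2Wx - c.eW1x) ^ 2 + (c.k2Wy - c.eW1y) ^ 2 - (0) ^ 2 - (c.k2) ^ 2 - 2 * (0) ^ 2) / 2 := by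
  have e := h.eu g.k2W g.eW1
  simp only [d2] at e
  exact nn_div hβ (by linear_combination 1 / 2 * e)

theorem r_k2W_gWh (h : Cover 1 a b F) (g : Geo β F c) (hb : Bnd M c) (hβ : 0 < β)
    (hM : β * M ≤ 1 / 200) : 0 ≤ 17 / 64 * c.k2Wx + 63 / 64 * c.k2Wy - 5 / 4 * c.gWu + 23 / 32 * c.gWv - 63 / 64 * c.k2 +
    β * ((c.k2Wx) ^ 2 + (c.k2Wy) ^ 2 - (c.gWu + c.gWv) ^ 2 - (c.k2 + c.gWu - c.gWv) ^ 2 - 2 * (0) ^ 2) / 2 := by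
  have k2 := sm hβ hM hb.k2
  have gWu := sm hβ hM hb.gWu
  have gWv := sm hβ hM hb.gWv
  have e := h.hW g.gW g.k2W (by linarith [k2.1, k2.2, gWu.1, gWu.2, gWv.1, gWv.2]) (by linarith [k2.1, k2.2, gWu.1, gWu.2, gWv.1, gWv.2])
  simp only [d2] at e
  exact nn_div hβ (by linear_combination 1 / 2 * e)

theorem r_k3W_eW1 (h : Cover 1 a b F) (g : Geo β F c) (hb : Bnd M c) (hβ : 0 < β)
    (hM : β * M ≤ 1 / 200) : 0 ≤ -3 / 4 * c.k3Wx - 1 / 4 * c.k3Wy + 3 / 4 * c.eW1x + 1 / 4 * c.eW1y + 3 / 4 * c.k3 +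
    β * ((c.k3Wx - c.eW1x) ^ 2 + (c.k3Wy - c.eW1y) ^ 2 - (c.k3) ^ 2 - (0) ^ 2 - 2 * (0) ^ 2) / 2 := by
  have e := h.eu g.k3W g.eW1
  simp only [d2] at e
  exact nn_div hβ (by linear_combination 1 / 2 * e)

theorem r_k3W_gWh (h : Cover 1 a b F) (g : Geo β F c) (hb : Bnd M c) (hβ : 0 < β)
    (hM : β * M ≤ 1 / 200) : 0 ≤ -15 / 64 * c.k3Wx + 31 / 64 * c.k3Wy + 15 / 64 * c.k3 - 1 / 4 * c.gWu + 23 / 32 * c.gWv +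
    β * ((c.k3Wx) ^ 2 + (c.k3Wy) ^ 2 - (c.k3 + c.gWu + c.gWv) ^ 2 - (c.gWu - c.gWv) ^ 2 - 2 * (0) ^ 2) / 2 := by
  have k3 := sm hβ hM hb.k3
  have gWu := sm hβ hM hb.gWu
  have gWv := sm hβ hM hb.gWv
  have e := h.hW g.gW g.k3W (by linarith [k3.1, k3.2, gWu.1, gWu.2, gWv.1, gWv.2]) (by linarith [k3.1, k3.2, gWu.1, gWu.2, gWv.1, gWv.2])
  simp only [d2] at e
  exact nn_div hβ (by linear_combination 1 / 2 * e)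

theorem r_k3S_k4S (h : Cover 1 a b F) (g : Geo β F c) (hb : Bnd M c) (hβ : 0 < β)
    (hM : β * M ≤ 1 / 200) : 0 ≤ -1 / 2 * c.k3Sx + 1 / 2 * c.k3Sy + 1 / 2 * c.k4Sx - 1 / 2 * c.k4Sy - 1 / 2 * c.k3 - 1 / 2 * c.k4 +
    β * ((c.k3Sx - c.k4Sx) ^ 2 + (c.k3Sy - c.k4Sy) ^ 2 - (-c.k3) ^ 2 - (c.k4) ^ 2 - 2 * (0) ^ 2) / 2 := by
  have e := h.eu g.k3S g.k4S
  simp only [d2] at e
  exact nn_div hβ (by linear_combination 1 / 2 * e)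

theorem r_k3S_eS1 (h : Cover 1 a b F) (g : Geo β F c) (hb : Bnd M c) (hβ : 0 < β)
    (hM : β * M ≤ 1 / 200) : 0 ≤ -3 / 4 * c.k3Sx + 1 / 4 * c.k3Sy + 3 / 4 * c.eS1x - 1 / 4 * c.eS1y - 3 / 4 * c.k3 +
    β * ((c.k3Sx - c.eS1x) ^ 2 + (c.k3Sy - c.eS1y) ^ 2 - (-c.k3) ^ 2 - (0) ^ 2 - 2 * (0) ^ 2) / 2 := by
  have e := h.eu g.k3S g.eS1
  simp only [d2] at e
  exact nn_div hβ (by linear_combination 1 / 2 * e)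

theorem r_k3S_eS2 (h : Cover 1 a b F) (g : Geo β F c) (hb : Bnd M c) (hβ : 0 < β)
    (hM : β * M ≤ 1 / 200) : 0 ≤ -1 / 2 * c.k3Sx + 1 / 2 * c.eS2x - 1 / 2 * c.k3 +
    β * ((c.k3Sx - c.eS2x) ^ 2 + (c.k3Sy - c.eS2y) ^ 2 - (-c.k3) ^ 2 - (0) ^ 2 - 2 * (0) ^ 2) / 2 := by
  have e := h.eu g.k3S g.eS2
  simp only [d2] at e
  exact nn_div hβ (by linear_combination 1 / 2 * e)

theorem r_k3S_gSh (h : Cover 1 a b F) (g : Geo β F c) (hb : Bnd M c) (hβ : 0 < β)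
    (hM : β * M ≤ 1 / 200) : 0 ≤ -15 / 64 * c.k3Sx - 31 / 64 * c.k3Sy - 15 / 64 * c.k3 - 1 / 4 * c.gSu + 23 / 32 * c.gSv +
    β * ((c.k3Sx) ^ 2 + (c.k3Sy) ^ 2 - (-c.k3 + c.gSu + c.gSv) ^ 2 - (-c.gSu + c.gSv) ^ 2 - 2 * (0) ^ 2) / 2 := by
  have k3 := sm hβ hM hb.k3
  have gSu := sm hβ hM hb.gSu
  have gSv := sm hβ hM hb.gSv
  have e := h.hS g.gS g.k3S (by linarith [k3.1, k3.2, gSu.1, gSu.2, gSv.1, gSv.2]) (by linarith [k3.1, k3.2, gSu.1, gSu.2, gSv.1, gSv.2])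
  simp only [d2] at e
  exact nn_div hβ (by linear_combination 1 / 2 * e)

theorem r_k4S_eS1 (h : Cover 1 a b F) (g : Geo β F c) (hb : Bnd M c) (hβ : 0 < β)
    (hM : β * M ≤ 1 / 200) : 0 ≤ -1 / 4 * c.k4Sx - 1 / 4 * c.k4Sy + 1 / 4 * c.eS1x + 1 / 4 * c.eS1y - 1 / 4 * c.k4 +
    β * ((c.k4Sx - c.eS1x) ^ 2 + (c.k4Sy - c.eS1y) ^ 2 - (0) ^ 2 - (-c.k4) ^ 2 - 2 * (0) ^ 2) / 2 := by
  have e := h.eu g.k4S g.eS1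
  simp only [d2] at e
  exact nn_div hβ (by linear_combination 1 / 2 * e)

theorem r_k4S_eS2 (h : Cover 1 a b F) (g : Geo β F c) (hb : Bnd M c) (hβ : 0 < β)
    (hM : β * M ≤ 1 / 200) : 0 ≤ -1 / 2 * c.k4Sy + 1 / 2 * c.eS2y - 1 / 2 * c.k4 +
    β * ((c.k4Sx - c.eS2x) ^ 2 + (c.k4Sy - c.eS2y) ^ 2 - (0) ^ 2 - (-c.k4) ^ 2 - 2 * (0) ^ 2) / 2 := by
  have e := h.eu g.k4S g.eS2
  simp only [d2] at e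
  exact nn_div hβ (by linear_combination 1 / 2 * e)

theorem r_k4S_gSh (h : Cover 1 a b F) (g : Geo β F c) (hb : Bnd M c) (hβ : 0 < β)
    (hM : β * M ≤ 1 / 200) : 0 ≤ 17 / 64 * c.k4Sx - 63 / 64 * c.k4Sy - 5 / 4 * c.gSu + 23 / 32 * c.gSv - 63 / 64 * c.k4 +
    β * ((c.k4Sx) ^ 2 + (c.k4Sy) ^ 2 - (c.gSu + c.gSv) ^ 2 - (-c.k4 - c.gSu + c.gSv) ^ 2 - 2 * (0) ^ 2) / 2 := by
  have k4 := sm hβ hM hb.k4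
  have gSu := sm hβ hM hb.gSu
  have gSv := sm hβ hM hb.gSv
  have e := h.hS g.gS g.k4S (by linarith [k4.1, k4.2, gSu.1, gSu.2, gSv.1, gSv.2]) (by linarith [k4.1, k4.2, gSu.1, gSu.2, gSv.1, gSv.2])
  simp only [d2] at e
  exact nn_div hβ (by linear_combination 1 / 2 * e)

theorem r_k4E_gEh (h : Cover 1 a b F) (g : Geo β F c) (hb : Bnd M c) (hβ : 0 < β)
    (hM : β * M ≤ 1 / 200) : 0 ≤ -17 / 64 * c.k4Ex - 63 / 64 * c.k4Ey - 5 / 4 * c.gEu + 23 / 32 * c.gEv + 63 / 64 * c.k4 +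
    β * ((c.k4Ex) ^ 2 + (c.k4Ey) ^ 2 - (-c.gEu - c.gEv) ^ 2 - (c.k4 - c.gEu + c.gEv) ^ 2 - 2 * (0) ^ 2) / 2 := by
  have k4 := sm hβ hM hb.k4
  have gEu := sm hβ hM hb.gEu
  have gEv := sm hβ hM hb.gEv
  have e := h.hE g.gE g.k4E (by linarith [k4.1, k4.2, gEu.1, gEu.2, gEv.1, gEv.2]) (by linarith [k4.1, k4.2, gEu.1, gEu.2, gEv.1, gEv.2])
  simp only [d2] at e
  exact nn_div hβ (by linear_combination 1 / 2 * e)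

theorem r_eN1_eN2 (h : Cover 1 a b F) (g : Geo β F c) (hb : Bnd M c) (hβ : 0 < β)
    (hM : β * M ≤ 1 / 200) : 0 ≤ -1 / 4 * c.eN1x + 1 / 4 * c.eN1y + 1 / 4 * c.eN2x - 1 / 4 * c.eN2y +
    β * ((c.eN1x - c.eN2x) ^ 2 + (c.eN1y - c.eN2y) ^ 2 - (0) ^ 2 - (0) ^ 2 - 2 * (0) ^ 2) / 2 := by
  have e := h.eu g.eN1 g.eN2
  simp only [d2] at e
  exact nn_div hβ (by linear_combination 1 / 2 * e)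

theorem r_eN1_gN (h : Cover 1 a b F) (g : Geo β F c) (hb : Bnd M c) (hβ : 0 < β)
    (hM : β * M ≤ 1 / 200) : 0 ≤ -33 / 64 * c.eN1x + 47 / 64 * c.eN1y - 5 / 4 * c.gNu + 7 / 32 * c.gNv +
    β * ((c.eN1x) ^ 2 + (c.eN1y) ^ 2 - (-c.gNu - c.gNv) ^ 2 - (c.gNu - c.gNv) ^ 2 - 2 * (0) ^ 2) / 2 := by
  have e := h.eu g.eN1 g.gN
  simp only [d2] at e
  exact nn_div hβ (by linear_combination 1 / 2 * e)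

theorem r_eN1_hN (h : Cover 1 a b F) (g : Geo β F c) (hb : Bnd M c) (hβ : 0 < β)
    (hM : β * M ≤ 1 / 200) : 0 ≤ 5 / 16 * c.eN1x + 25 / 16 * c.eN1y - 5 / 4 * c.hNu + 15 / 8 * c.hNv +
    β * ((c.eN1x) ^ 2 + (c.eN1y) ^ 2 - (-c.hNu - c.hNv) ^ 2 - (c.hNu - c.hNv) ^ 2 - 2 * (0) ^ 2) / 2 := by
  have e := h.eu g.eN1 g.hN
  simp only [d2] at e
  exact nn_div hβ (by linear_combination 1 / 2 * e)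

theorem r_eN2_gN (h : Cover 1 a b F) (g : Geo β F c) (hb : Bnd M c) (hβ : 0 < β)
    (hM : β * M ≤ 1 / 200) : 0 ≤ -17 / 64 * c.eN2x + 31 / 64 * c.eN2y - 3 / 4 * c.gNu + 7 / 32 * c.gNv +
    β * ((c.eN2x) ^ 2 + (c.eN2y) ^ 2 - (-c.gNu - c.gNv) ^ 2 - (c.gNu - c.gNv) ^ 2 - 2 * (0) ^ 2) / 2 := by
  have e := h.eu g.eN2 g.gN
  simp only [d2] at e
  exact nn_div hβ (by linear_combination 1 / 2 * e)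

theorem r_eN2_hN (h : Cover 1 a b F) (g : Geo β F c) (hb : Bnd M c) (hβ : 0 < β)
    (hM : β * M ≤ 1 / 200) : 0 ≤ 9 / 16 * c.eN2x + 21 / 16 * c.eN2y - 3 / 4 * c.hNu + 15 / 8 * c.hNv +
    β * ((c.eN2x) ^ 2 + (c.eN2y) ^ 2 - (-c.hNu - c.hNv) ^ 2 - (c.hNu - c.hNv) ^ 2 - 2 * (0) ^ 2) / 2 := by
  have e := h.eu g.eN2 g.hN
  simp only [d2] at e
  exact nn_div hβ (by linear_combination 1 / 2 * e)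

theorem r_eW1_gW (h : Cover 1 a b F) (g : Geo β F c) (hb : Bnd M c) (hβ : 0 < β)
    (hM : β * M ≤ 1 / 200) : 0 ≤ 33 / 64 * c.eW1x + 47 / 64 * c.eW1y - 5 / 4 * c.gWu + 7 / 32 * c.gWv +
    β * ((c.eW1x) ^ 2 + (c.eW1y) ^ 2 - (c.gWu + c.gWv) ^ 2 - (c.gWu - c.gWv) ^ 2 - 2 * (0) ^ 2) / 2 := by
  have e := h.eu g.eW1 g.gW
  simp only [d2] at e
  exact nn_div hβ (by linear_combination 1 / 2 * e)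

theorem r_eW1_hW (h : Cover 1 a b F) (g : Geo β F c) (hb : Bnd M c) (hβ : 0 < β)
    (hM : β * M ≤ 1 / 200) : 0 ≤ -5 / 16 * c.eW1x + 25 / 16 * c.eW1y - 5 / 4 * c.hWu + 15 / 8 * c.hWv +
    β * ((c.eW1x) ^ 2 + (c.eW1y) ^ 2 - (c.hWu + c.hWv) ^ 2 - (c.hWu - c.hWv) ^ 2 - 2 * (0) ^ 2) / 2 := by
  have e := h.eu g.eW1 g.hW
  simp only [d2] at e
  exact nn_div hβ (by linear_combination 1 / 2 * e)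

theorem r_eS1_eS2 (h : Cover 1 a b F) (g : Geo β F c) (hb : Bnd M c) (hβ : 0 < β)
    (hM : β * M ≤ 1 / 200) : 0 ≤ 1 / 4 * c.eS1x - 1 / 4 * c.eS1y - 1 / 4 * c.eS2x + 1 / 4 * c.eS2y +
    β * ((c.eS1x - c.eS2x) ^ 2 + (c.eS1y - c.eS2y) ^ 2 - (0) ^ 2 - (0) ^ 2 - 2 * (0) ^ 2) / 2 := by
  have e := h.eu g.eS1 g.eS2
  simp only [d2] at e
  exact nn_div hβ (by linear_combination 1 / 2 * e)

theorem r_eS1_gS (h : Cover 1 a b F) (g : Geo β F c) (hb : Bnd M c) (hβ : 0 < β)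
    (hM : β * M ≤ 1 / 200) : 0 ≤ 33 / 64 * c.eS1x - 47 / 64 * c.eS1y - 5 / 4 * c.gSu + 7 / 32 * c.gSv +
    β * ((c.eS1x) ^ 2 + (c.eS1y) ^ 2 - (c.gSu + c.gSv) ^ 2 - (-c.gSu + c.gSv) ^ 2 - 2 * (0) ^ 2) / 2 := by
  have e := h.eu g.eS1 g.gS
  simp only [d2] at e
  exact nn_div hβ (by linear_combination 1 / 2 * e)

theorem r_eS2_gS (h : Cover 1 a b F) (g : Geo β F c) (hb : Bnd M c) (hβ : 0 < β)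
    (hM : β * M ≤ 1 / 200) : 0 ≤ 17 / 64 * c.eS2x - 31 / 64 * c.eS2y - 3 / 4 * c.gSu + 7 / 32 * c.gSv +
    β * ((c.eS2x) ^ 2 + (c.eS2y) ^ 2 - (c.gSu + c.gSv) ^ 2 - (-c.gSu + c.gSv) ^ 2 - 2 * (0) ^ 2) / 2 := by
  have e := h.eu g.eS2 g.gS
  simp only [d2] at e
  exact nn_div hβ (by linear_combination 1 / 2 * e)

theorem r_gN_hN (h : Cover 1 a b F) (g : Geo β F c) (hb : Bnd M c) (hβ : 0 < β)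
    (hM : β * M ≤ 1 / 200) : 0 ≤ -53 / 32 * c.gNv + 53 / 32 * c.hNv +
    β * ((0) ^ 2 + (0) ^ 2 - (c.gNu + c.gNv - c.hNu - c.hNv) ^ 2 - (-c.gNu + c.gNv + c.hNu - c.hNv) ^ 2 - 2 * (0) ^ 2) / 2 := by
  have e := h.eu g.gN g.hN
  simp only [d2] at e
  exact nn_div hβ (by linear_combination 1 / 2 * e)

theorem r_gW_hW (h : Cover 1 a b F) (g : Geo β F c) (hb : Bnd M c) (hβ : 0 < β)
    (hM : β * M ≤ 1 / 200) : 0 ≤ -53 / 32 * c.gWv + 53 / 32 * c.hWv +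
    β * ((0) ^ 2 + (0) ^ 2 - (-c.gWu - c.gWv + c.hWu + c.hWv) ^ 2 - (-c.gWu + c.gWv + c.hWu - c.hWv) ^ 2 - 2 * (0) ^ 2) / 2 := by
  have e := h.eu g.gW g.hW
  simp only [d2] at e
  exact nn_div hβ (by linear_combination 1 / 2 * e)

theorem rows_of_geo (h : Cover 1 a b F) (g : Geo β F c) (hb : Bnd M c) (hβ : 0 < β)
    (hM : β * M ≤ 1 / 200) : Rows β c where
  p2_p4 := r_p2_p4 h g hb hβ hM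
  p2_p1 := r_p2_p1 h g hb hβ hM
  p2_p3 := r_p2_p3 h g hb hβ hM
  p2_z1Nu := r_p2_z1Nu h g hb hβ hM
  p2_z1Nv := r_p2_z1Nv h g hb hβ hM
  p2_z3Wu := r_p2_z3Wu h g hb hβ hM
  p2_z3Wv := r_p2_z3Wv h g hb hβ hM
  p2_k1Nv := r_p2_k1Nv h g hb hβ hM
  p2_k3Wv := r_p2_k3Wv h g hb hβ hM
  p2_eN1 := r_p2_eN1 h g hb hβ hM
  p2_eN2 := r_p2_eN2 h g hb hβ hM
  p2_eW1 := r_p2_eW1 h g hb hβ hM
  p2_gN := r_p2_gN h g hb hβ hM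
  p2_gW := r_p2_gW h g hb hβ hM
  p2_hN := r_p2_hN h g hb hβ hM
  p2_hW := r_p2_hW h g hb hβ hM
  p4_p1 := r_p4_p1 h g hb hβ hM
  p4_p3 := r_p4_p3 h g hb hβ hM
  p4_z1Eu := r_p4_z1Eu h g hb hβ hM
  p4_z1Ev := r_p4_z1Ev h g hb hβ hM
  p4_z3Su := r_p4_z3Su h g hb hβ hM
  p4_z3Sv := r_p4_z3Sv h g hb hβ hM
  p4_k1Ev := r_p4_k1Ev h g hb hβ hM
  p4_k3Sv := r_p4_k3Sv h g hb hβ hM
  p4_eS1 := r_p4_eS1 h g hb hβ hM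
  p4_eS2 := r_p4_eS2 h g hb hβ hM
  p4_gS := r_p4_gS h g hb hβ hM
  p4_gE := r_p4_gE h g hb hβ hM
  p4_hNv := r_p4_hNv h g hb hβ hM
  p4_hWv := r_p4_hWv h g hb hβ hM
  p1_p3 := r_p1_p3 h g hb hβ hM
  p1_z1Nu := r_p1_z1Nu h g hb hβ hM
  p1_z1Eu := r_p1_z1Eu h g hb hβ hM
  p1_k2Nv := r_p1_k2Nv h g hb hβ hM
  p1_k4Ev := r_p1_k4Ev h g hb hβ hM
  p1_eN1 := r_p1_eN1 h g hb hβ hM
  p1_eN2 := r_p1_eN2 h g hb hβ hM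
  p1_gN := r_p1_gN h g hb hβ hM
  p1_gE := r_p1_gE h g hb hβ hM
  p1_hN := r_p1_hN h g hb hβ hM
  p1_hWv := r_p1_hWv h g hb hβ hM
  p3_z3Wu := r_p3_z3Wu h g hb hβ hM
  p3_z3Su := r_p3_z3Su h g hb hβ hM
  p3_k2Wv := r_p3_k2Wv h g hb hβ hM
  p3_k4Sv := r_p3_k4Sv h g hb hβ hM
  p3_eW1 := r_p3_eW1 h g hb hβ hM
  p3_eS1 := r_p3_eS1 h g hb hβ hM
  p3_eS2 := r_p3_eS2 h g hb hβ hM
  p3_gW := r_p3_gW h g hb hβ hM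
  p3_gS := r_p3_gS h g hb hβ hM
  p3_hNv := r_p3_hNv h g hb hβ hM
  p3_hW := r_p3_hW h g hb hβ hM
  z1N_t1N := r_z1N_t1N h g hb hβ hM
  z1N_t2N := r_z1N_t2N h g hb hβ hM
  z1N_k1N := r_z1N_k1N h g hb hβ hM
  z1N_k2N := r_z1N_k2N h g hb hβ hM
  z1N_eN1 := r_z1N_eN1 h g hb hβ hM
  z1N_eN2 := r_z1N_eN2 h g hb hβ hM
  z1N_gNu := r_z1N_gNu h g hb hβ hM
  z1N_gNh := r_z1N_gNh h g hb hβ hM
  z1N_hNu := r_z1N_hNu h g hb hβ hM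
  z1E_t2E := r_z1E_t2E h g hb hβ hM
  z1E_k1E := r_z1E_k1E h g hb hβ hM
  z1E_k4E := r_z1E_k4E h g hb hβ hM
  z1E_gEu := r_z1E_gEu h g hb hβ hM
  z1E_gEh := r_z1E_gEh h g hb hβ hM
  z3W_t1W := r_z3W_t1W h g hb hβ hM
  z3W_k2W := r_z3W_k2W h g hb hβ hM
  z3W_k3W := r_z3W_k3W h g hb hβ hM
  z3W_eW1 := r_z3W_eW1 h g hb hβ hM
  z3W_gWu := r_z3W_gWu h g hb hβ hM
  z3W_gWh := r_z3W_gWh h g hb hβ hM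
  z3W_hWu := r_z3W_hWu h g hb hβ hM
  z3S_t1S := r_z3S_t1S h g hb hβ hM
  z3S_t2S := r_z3S_t2S h g hb hβ hM
  z3S_k3S := r_z3S_k3S h g hb hβ hM
  z3S_k4S := r_z3S_k4S h g hb hβ hM
  z3S_eS1 := r_z3S_eS1 h g hb hβ hM
  z3S_eS2 := r_z3S_eS2 h g hb hβ hM
  z3S_gSu := r_z3S_gSu h g hb hβ hM
  z3S_gSh := r_z3S_gSh h g hb hβ hM
  t1N_k1N := r_t1N_k1N h g hb hβ hM
  t1N_k2N := r_t1N_k2N h g hb hβ hM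
  t1N_eN1 := r_t1N_eN1 h g hb hβ hM
  t1N_eN2 := r_t1N_eN2 h g hb hβ hM
  t1N_gNh := r_t1N_gNh h g hb hβ hM
  t1W_k2W := r_t1W_k2W h g hb hβ hM
  t1W_k3W := r_t1W_k3W h g hb hβ hM
  t1W_eW1 := r_t1W_eW1 h g hb hβ hM
  t1W_gWh := r_t1W_gWh h g hb hβ hM
  t1S_k3S := r_t1S_k3S h g hb hβ hM
  t1S_k4S := r_t1S_k4S h g hb hβ hM
  t1S_eS1 := r_t1S_eS1 h g hb hβ hM
  t1S_eS2 := r_t1S_eS2 h g hb hβ hM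
  t1S_gSh := r_t1S_gSh h g hb hβ hM
  t2N_k1N := r_t2N_k1N h g hb hβ hM
  t2N_k2N := r_t2N_k2N h g hb hβ hM
  t2N_eN1 := r_t2N_eN1 h g hb hβ hM
  t2N_eN2 := r_t2N_eN2 h g hb hβ hM
  t2N_gNh := r_t2N_gNh h g hb hβ hM
  t2S_k3S := r_t2S_k3S h g hb hβ hM
  t2S_k4S := r_t2S_k4S h g hb hβ hM
  t2S_eS1 := r_t2S_eS1 h g hb hβ hM
  t2S_eS2 := r_t2S_eS2 h g hb hβ hM
  t2S_gSh := r_t2S_gSh h g hb hβ hM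
  t2E_k1E := r_t2E_k1E h g hb hβ hM
  t2E_k4E := r_t2E_k4E h g hb hβ hM
  t2E_gEh := r_t2E_gEh h g hb hβ hM
  k1N_k2N := r_k1N_k2N h g hb hβ hM
  k1N_eN1 := r_k1N_eN1 h g hb hβ hM
  k1N_eN2 := r_k1N_eN2 h g hb hβ hM
  k1N_gNh := r_k1N_gNh h g hb hβ hM
  k1E_k4E := r_k1E_k4E h g hb hβ hM
  k1E_gEh := r_k1E_gEh h g hb hβ hM
  k2N_eN1 := r_k2N_eN1 h g hb hβ hM
  k2N_eN2 := r_k2N_eN2 h g hb hβ hM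
  k2N_gNh := r_k2N_gNh h g hb hβ hM
  k2W_k3W := r_k2W_k3W h g hb hβ hM
  k2W_eW1 := r_k2W_eW1 h g hb hβ hM
  k2W_gWh := r_k2W_gWh h g hb hβ hM
  k3W_eW1 := r_k3W_eW1 h g hb hβ hM
  k3W_gWh := r_k3W_gWh h g hb hβ hM
  k3S_k4S := r_k3S_k4S h g hb hβ hM
  k3S_eS1 := r_k3S_eS1 h g hb hβ hM
  k3S_eS2 := r_k3S_eS2 h g hb hβ hM
  k3S_gSh := r_k3S_gSh h g hb hβ hM
  k4S_eS1 := r_k4S_eS1 h g hb hβ hM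
  k4S_eS2 := r_k4S_eS2 h g hb hβ hM
  k4S_gSh := r_k4S_gSh h g hb hβ hM
  k4E_gEh := r_k4E_gEh h g hb hβ hM
  eN1_eN2 := r_eN1_eN2 h g hb hβ hM
  eN1_gN := r_eN1_gN h g hb hβ hM
  eN1_hN := r_eN1_hN h g hb hβ hM
  eN2_gN := r_eN2_gN h g hb hβ hM
  eN2_hN := r_eN2_hN h g hb hβ hM
  eW1_gW := r_eW1_gW h g hb hβ hM
  eW1_hW := r_eW1_hW h g hb hβ hM
  eS1_eS2 := r_eS1_eS2 h g hb hβ hM
  eS1_gS := r_eS1_gS h g hb hβ hM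
  eS2_gS := r_eS2_gS h g hb hβ hM
  gN_hN := r_gN_hN h g hb hβ hM
  gW_hW := r_gW_hW h g hb hβ hM

theorem lin_of_rows {Δ τ : ℝ} (r : Rows β c) (w : Walls β Δ c) (hb : Bnd M c) (hβ : 0 ≤ β)
    (hΔ : 0 ≤ β * Δ) (hτ : 4 * β * M ^ 2 ≤ τ) : Lin τ c where
  p2_p4 := lin_row hβ hτ r.p2_p4 (ab2 hb.p2x hb.p4x) (ab2 hb.p2y hb.p4y)
  p2_p1 := lin_row hβ hτ r.p2_p1 (ab2 hb.p2x hb.p1x) (ab2 hb.p2y hb.p1y)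
  p2_p3 := lin_row hβ hτ r.p2_p3 (ab2 hb.p2x hb.p3x) (ab2 hb.p2y hb.p3y)
  p2_z1Nu := lin_row hβ hτ r.p2_z1Nu (ab2 hb.p2x hb.z1Nx) (ab2 hb.p2y hb.z1Ny)
  p2_z1Nv := lin_row hβ hτ r.p2_z1Nv (ab2 hb.p2x hb.z1Nx) (ab2 hb.p2y hb.z1Ny)
  p2_z3Wu := lin_row hβ hτ r.p2_z3Wu (ab2 hb.p2x hb.z3Wx) (ab2 hb.p2y hb.z3Wy)
  p2_z3Wv := lin_row hβ hτ r.p2_z3Wv (ab2 hb.p2x hb.z3Wx) (ab2 hb.p2y hb.z3Wy)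
  p2_k1Nv := lin_row hβ hτ r.p2_k1Nv (ab2 hb.p2x hb.k1Nx) (ab2 hb.p2y hb.k1Ny)
  p2_k3Wv := lin_row hβ hτ r.p2_k3Wv (ab2 hb.p2x hb.k3Wx) (ab2 hb.p2y hb.k3Wy)
  p2_eN1 := lin_row hβ hτ r.p2_eN1 (ab2 hb.p2x hb.eN1x) (ab2 hb.p2y hb.eN1y)
  p2_eN2 := lin_row hβ hτ r.p2_eN2 (ab2 hb.p2x hb.eN2x) (ab2 hb.p2y hb.eN2y)
  p2_eW1 := lin_row hβ hτ r.p2_eW1 (ab2 hb.p2x hb.eW1x) (ab2 hb.p2y hb.eW1y)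
  p2_gN := lin_row hβ hτ r.p2_gN (ab1 hb.p2x) (ab1 hb.p2y)
  p2_gW := lin_row hβ hτ r.p2_gW (ab1 hb.p2x) (ab1 hb.p2y)
  p2_hN := lin_row hβ hτ r.p2_hN (ab1 hb.p2x) (ab1 hb.p2y)
  p2_hW := lin_row hβ hτ r.p2_hW (ab1 hb.p2x) (ab1 hb.p2y)
  p4_p1 := lin_row hβ hτ r.p4_p1 (ab2 hb.p4x hb.p1x) (ab2 hb.p4y hb.p1y)
  p4_p3 := lin_row hβ hτ r.p4_p3 (ab2 hb.p4x hb.p3x) (ab2 hb.p4y hb.p3y)
  p4_z1Eu := lin_row hβ hτ r.p4_z1Eu (ab2 hb.p4x hb.z1Ex) (ab2 hb.p4y hb.z1Ey)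
  p4_z1Ev := lin_row hβ hτ r.p4_z1Ev (ab2 hb.p4x hb.z1Ex) (ab2 hb.p4y hb.z1Ey)
  p4_z3Su := lin_row hβ hτ r.p4_z3Su (ab2 hb.p4x hb.z3Sx) (ab2 hb.p4y hb.z3Sy)
  p4_z3Sv := lin_row hβ hτ r.p4_z3Sv (ab2 hb.p4x hb.z3Sx) (ab2 hb.p4y hb.z3Sy)
  p4_k1Ev := lin_row hβ hτ r.p4_k1Ev (ab2 hb.p4x hb.k1Ex) (ab2 hb.p4y hb.k1Ey)
  p4_k3Sv := lin_row hβ hτ r.p4_k3Sv (ab2 hb.p4x hb.k3Sx) (ab2 hb.p4y hb.k3Sy)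
  p4_eS1 := lin_row hβ hτ r.p4_eS1 (ab2 hb.p4x hb.eS1x) (ab2 hb.p4y hb.eS1y)
  p4_eS2 := lin_row hβ hτ r.p4_eS2 (ab2 hb.p4x hb.eS2x) (ab2 hb.p4y hb.eS2y)
  p4_gS := lin_row hβ hτ r.p4_gS (ab1 hb.p4x) (ab1 hb.p4y)
  p4_gE := lin_row hβ hτ r.p4_gE (ab1 hb.p4x) (ab1 hb.p4y)
  p4_hNv := lin_row hβ hτ r.p4_hNv (ab1 hb.p4x) (ab1 hb.p4y)
  p4_hWv := lin_row hβ hτ r.p4_hWv (ab1 hb.p4x) (ab1 hb.p4y)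
  p1_p3 := lin_row hβ hτ r.p1_p3 (ab2 hb.p1x hb.p3x) (ab2 hb.p1y hb.p3y)
  p1_z1Nu := lin_row hβ hτ r.p1_z1Nu (ab2 hb.p1x hb.z1Nx) (ab2 hb.p1y hb.z1Ny)
  p1_z1Eu := lin_row hβ hτ r.p1_z1Eu (ab2 hb.p1x hb.z1Ex) (ab2 hb.p1y hb.z1Ey)
  p1_k2Nv := lin_row hβ hτ r.p1_k2Nv (ab2 hb.p1x hb.k2Nx) (ab2 hb.p1y hb.k2Ny)
  p1_k4Ev := lin_row hβ hτ r.p1_k4Ev (ab2 hb.p1x hb.k4Ex) (ab2 hb.p1y hb.k4Ey)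
  p1_eN1 := lin_row hβ hτ r.p1_eN1 (ab2 hb.p1x hb.eN1x) (ab2 hb.p1y hb.eN1y)
  p1_eN2 := lin_row hβ hτ r.p1_eN2 (ab2 hb.p1x hb.eN2x) (ab2 hb.p1y hb.eN2y)
  p1_gN := lin_row hβ hτ r.p1_gN (ab1 hb.p1x) (ab1 hb.p1y)
  p1_gE := lin_row hβ hτ r.p1_gE (ab1 hb.p1x) (ab1 hb.p1y)
  p1_hN := lin_row hβ hτ r.p1_hN (ab1 hb.p1x) (ab1 hb.p1y)
  p1_hWv := lin_row hβ hτ r.p1_hWv (ab1 hb.p1x) (ab1 hb.p1y)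
  p3_z3Wu := lin_row hβ hτ r.p3_z3Wu (ab2 hb.p3x hb.z3Wx) (ab2 hb.p3y hb.z3Wy)
  p3_z3Su := lin_row hβ hτ r.p3_z3Su (ab2 hb.p3x hb.z3Sx) (ab2 hb.p3y hb.z3Sy)
  p3_k2Wv := lin_row hβ hτ r.p3_k2Wv (ab2 hb.p3x hb.k2Wx) (ab2 hb.p3y hb.k2Wy)
  p3_k4Sv := lin_row hβ hτ r.p3_k4Sv (ab2 hb.p3x hb.k4Sx) (ab2 hb.p3y hb.k4Sy)
  p3_eW1 := lin_row hβ hτ r.p3_eW1 (ab2 hb.p3x hb.eW1x) (ab2 hb.p3y hb.eW1y)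
  p3_eS1 := lin_row hβ hτ r.p3_eS1 (ab2 hb.p3x hb.eS1x) (ab2 hb.p3y hb.eS1y)
  p3_eS2 := lin_row hβ hτ r.p3_eS2 (ab2 hb.p3x hb.eS2x) (ab2 hb.p3y hb.eS2y)
  p3_gW := lin_row hβ hτ r.p3_gW (ab1 hb.p3x) (ab1 hb.p3y)
  p3_gS := lin_row hβ hτ r.p3_gS (ab1 hb.p3x) (ab1 hb.p3y)
  p3_hNv := lin_row hβ hτ r.p3_hNv (ab1 hb.p3x) (ab1 hb.p3y)
  p3_hW := lin_row hβ hτ r.p3_hW (ab1 hb.p3x) (ab1 hb.p3y)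
  z1N_t1N := lin_row hβ hτ r.z1N_t1N (ab2 hb.z1Nx hb.t1Nx) (ab2 hb.z1Ny hb.t1Ny)
  z1N_t2N := lin_row hβ hτ r.z1N_t2N (ab2 hb.z1Nx hb.t2Nx) (ab2 hb.z1Ny hb.t2Ny)
  z1N_k1N := lin_row hβ hτ r.z1N_k1N (ab2 hb.z1Nx hb.k1Nx) (ab2 hb.z1Ny hb.k1Ny)
  z1N_k2N := lin_row hβ hτ r.z1N_k2N (ab2 hb.z1Nx hb.k2Nx) (ab2 hb.z1Ny hb.k2Ny)
  z1N_eN1 := lin_row hβ hτ r.z1N_eN1 (ab2 hb.z1Nx hb.eN1x) (ab2 hb.z1Ny hb.eN1y)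
  z1N_eN2 := lin_row hβ hτ r.z1N_eN2 (ab2 hb.z1Nx hb.eN2x) (ab2 hb.z1Ny hb.eN2y)
  z1N_gNu := lin_row hβ hτ r.z1N_gNu (ab1 hb.z1Nx) (ab1 hb.z1Ny)
  z1N_gNh := lin_row hβ hτ r.z1N_gNh (ab1 hb.z1Nx) (ab1 hb.z1Ny)
  z1N_hNu := lin_row hβ hτ r.z1N_hNu (ab1 hb.z1Nx) (ab1 hb.z1Ny)
  z1E_t2E := lin_row hβ hτ r.z1E_t2E (ab2 hb.z1Ex hb.t2Ex) (ab2 hb.z1Ey hb.t2Ey)
  z1E_k1E := lin_row hβ hτ r.z1E_k1E (ab2 hb.z1Ex hb.k1Ex) (ab2 hb.z1Ey hb.k1Ey)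
  z1E_k4E := lin_row hβ hτ r.z1E_k4E (ab2 hb.z1Ex hb.k4Ex) (ab2 hb.z1Ey hb.k4Ey)
  z1E_gEu := lin_row hβ hτ r.z1E_gEu (ab1 hb.z1Ex) (ab1 hb.z1Ey)
  z1E_gEh := lin_row hβ hτ r.z1E_gEh (ab1 hb.z1Ex) (ab1 hb.z1Ey)
  z3W_t1W := lin_row hβ hτ r.z3W_t1W (ab2 hb.z3Wx hb.t1Wx) (ab2 hb.z3Wy hb.t1Wy)
  z3W_k2W := lin_row hβ hτ r.z3W_k2W (ab2 hb.z3Wx hb.k2Wx) (ab2 hb.z3Wy hb.k2Wy)
  z3W_k3W := lin_row hβ hτ r.z3W_k3W (ab2 hb.z3Wx hb.k3Wx) (ab2 hb.z3Wy hb.k3Wy)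
  z3W_eW1 := lin_row hβ hτ r.z3W_eW1 (ab2 hb.z3Wx hb.eW1x) (ab2 hb.z3Wy hb.eW1y)
  z3W_gWu := lin_row hβ hτ r.z3W_gWu (ab1 hb.z3Wx) (ab1 hb.z3Wy)
  z3W_gWh := lin_row hβ hτ r.z3W_gWh (ab1 hb.z3Wx) (ab1 hb.z3Wy)
  z3W_hWu := lin_row hβ hτ r.z3W_hWu (ab1 hb.z3Wx) (ab1 hb.z3Wy)
  z3S_t1S := lin_row hβ hτ r.z3S_t1S (ab2 hb.z3Sx hb.t1Sx) (ab2 hb.z3Sy hb.t1Sy)
  z3S_t2S := lin_row hβ hτ r.z3S_t2S (ab2 hb.z3Sx hb.t2Sx) (ab2 hb.z3Sy hb.t2Sy)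
  z3S_k3S := lin_row hβ hτ r.z3S_k3S (ab2 hb.z3Sx hb.k3Sx) (ab2 hb.z3Sy hb.k3Sy)
  z3S_k4S := lin_row hβ hτ r.z3S_k4S (ab2 hb.z3Sx hb.k4Sx) (ab2 hb.z3Sy hb.k4Sy)
  z3S_eS1 := lin_row hβ hτ r.z3S_eS1 (ab2 hb.z3Sx hb.eS1x) (ab2 hb.z3Sy hb.eS1y)
  z3S_eS2 := lin_row hβ hτ r.z3S_eS2 (ab2 hb.z3Sx hb.eS2x) (ab2 hb.z3Sy hb.eS2y)
  z3S_gSu := lin_row hβ hτ r.z3S_gSu (ab1 hb.z3Sx) (ab1 hb.z3Sy)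
  z3S_gSh := lin_row hβ hτ r.z3S_gSh (ab1 hb.z3Sx) (ab1 hb.z3Sy)
  t1N_k1N := lin_row hβ hτ r.t1N_k1N (ab2 hb.t1Nx hb.k1Nx) (ab2 hb.t1Ny hb.k1Ny)
  t1N_k2N := lin_row hβ hτ r.t1N_k2N (ab2 hb.t1Nx hb.k2Nx) (ab2 hb.t1Ny hb.k2Ny)
  t1N_eN1 := lin_row hβ hτ r.t1N_eN1 (ab2 hb.t1Nx hb.eN1x) (ab2 hb.t1Ny hb.eN1y)
  t1N_eN2 := lin_row hβ hτ r.t1N_eN2 (ab2 hb.t1Nx hb.eN2x) (ab2 hb.t1Ny hb.eN2y)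
  t1N_gNh := lin_row hβ hτ r.t1N_gNh (ab1 hb.t1Nx) (ab1 hb.t1Ny)
  t1W_k2W := lin_row hβ hτ r.t1W_k2W (ab2 hb.t1Wx hb.k2Wx) (ab2 hb.t1Wy hb.k2Wy)
  t1W_k3W := lin_row hβ hτ r.t1W_k3W (ab2 hb.t1Wx hb.k3Wx) (ab2 hb.t1Wy hb.k3Wy)
  t1W_eW1 := lin_row hβ hτ r.t1W_eW1 (ab2 hb.t1Wx hb.eW1x) (ab2 hb.t1Wy hb.eW1y)
  t1W_gWh := lin_row hβ hτ r.t1W_gWh (ab1 hb.t1Wx) (ab1 hb.t1Wy)
  t1S_k3S := lin_row hβ hτ r.t1S_k3S (ab2 hb.t1Sx hb.k3Sx) (ab2 hb.t1Sy hb.k3Sy)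
  t1S_k4S := lin_row hβ hτ r.t1S_k4S (ab2 hb.t1Sx hb.k4Sx) (ab2 hb.t1Sy hb.k4Sy)
  t1S_eS1 := lin_row hβ hτ r.t1S_eS1 (ab2 hb.t1Sx hb.eS1x) (ab2 hb.t1Sy hb.eS1y)
  t1S_eS2 := lin_row hβ hτ r.t1S_eS2 (ab2 hb.t1Sx hb.eS2x) (ab2 hb.t1Sy hb.eS2y)
  t1S_gSh := lin_row hβ hτ r.t1S_gSh (ab1 hb.t1Sx) (ab1 hb.t1Sy)
  t2N_k1N := lin_row hβ hτ r.t2N_k1N (ab2 hb.t2Nx hb.k1Nx) (ab2 hb.t2Ny hb.k1Ny)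
  t2N_k2N := lin_row hβ hτ r.t2N_k2N (ab2 hb.t2Nx hb.k2Nx) (ab2 hb.t2Ny hb.k2Ny)
  t2N_eN1 := lin_row hβ hτ r.t2N_eN1 (ab2 hb.t2Nx hb.eN1x) (ab2 hb.t2Ny hb.eN1y)
  t2N_eN2 := lin_row hβ hτ r.t2N_eN2 (ab2 hb.t2Nx hb.eN2x) (ab2 hb.t2Ny hb.eN2y)
  t2N_gNh := lin_row hβ hτ r.t2N_gNh (ab1 hb.t2Nx) (ab1 hb.t2Ny)
  t2S_k3S := lin_row hβ hτ r.t2S_k3S (ab2 hb.t2Sx hb.k3Sx) (ab2 hb.t2Sy hb.k3Sy)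
  t2S_k4S := lin_row hβ hτ r.t2S_k4S (ab2 hb.t2Sx hb.k4Sx) (ab2 hb.t2Sy hb.k4Sy)
  t2S_eS1 := lin_row hβ hτ r.t2S_eS1 (ab2 hb.t2Sx hb.eS1x) (ab2 hb.t2Sy hb.eS1y)
  t2S_eS2 := lin_row hβ hτ r.t2S_eS2 (ab2 hb.t2Sx hb.eS2x) (ab2 hb.t2Sy hb.eS2y)
  t2S_gSh := lin_row hβ hτ r.t2S_gSh (ab1 hb.t2Sx) (ab1 hb.t2Sy)
  t2E_k1E := lin_row hβ hτ r.t2E_k1E (ab2 hb.t2Ex hb.k1Ex) (ab2 hb.t2Ey hb.k1Ey)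
  t2E_k4E := lin_row hβ hτ r.t2E_k4E (ab2 hb.t2Ex hb.k4Ex) (ab2 hb.t2Ey hb.k4Ey)
  t2E_gEh := lin_row hβ hτ r.t2E_gEh (ab1 hb.t2Ex) (ab1 hb.t2Ey)
  k1N_k2N := lin_row hβ hτ r.k1N_k2N (ab2 hb.k1Nx hb.k2Nx) (ab2 hb.k1Ny hb.k2Ny)
  k1N_eN1 := lin_row hβ hτ r.k1N_eN1 (ab2 hb.k1Nx hb.eN1x) (ab2 hb.k1Ny hb.eN1y)
  k1N_eN2 := lin_row hβ hτ r.k1N_eN2 (ab2 hb.k1Nx hb.eN2x) (ab2 hb.k1Ny hb.eN2y)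
  k1N_gNh := lin_row hβ hτ r.k1N_gNh (ab1 hb.k1Nx) (ab1 hb.k1Ny)
  k1E_k4E := lin_row hβ hτ r.k1E_k4E (ab2 hb.k1Ex hb.k4Ex) (ab2 hb.k1Ey hb.k4Ey)
  k1E_gEh := lin_row hβ hτ r.k1E_gEh (ab1 hb.k1Ex) (ab1 hb.k1Ey)
  k2N_eN1 := lin_row hβ hτ r.k2N_eN1 (ab2 hb.k2Nx hb.eN1x) (ab2 hb.k2Ny hb.eN1y)
  k2N_eN2 := lin_row hβ hτ r.k2N_eN2 (ab2 hb.k2Nx hb.eN2x) (ab2 hb.k2Ny hb.eN2y)
  k2N_gNh := lin_row hβ hτ r.k2N_gNh (ab1 hb.k2Nx) (ab1 hb.k2Ny)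
  k2W_k3W := lin_row hβ hτ r.k2W_k3W (ab2 hb.k2Wx hb.k3Wx) (ab2 hb.k2Wy hb.k3Wy)
  k2W_eW1 := lin_row hβ hτ r.k2W_eW1 (ab2 hb.k2Wx hb.eW1x) (ab2 hb.k2Wy hb.eW1y)
  k2W_gWh := lin_row hβ hτ r.k2W_gWh (ab1 hb.k2Wx) (ab1 hb.k2Wy)
  k3W_eW1 := lin_row hβ hτ r.k3W_eW1 (ab2 hb.k3Wx hb.eW1x) (ab2 hb.k3Wy hb.eW1y)
  k3W_gWh := lin_row hβ hτ r.k3W_gWh (ab1 hb.k3Wx) (ab1 hb.k3Wy)
  k3S_k4S := lin_row hβ hτ r.k3S_k4S (ab2 hb.k3Sx hb.k4Sx) (ab2 hb.k3Sy hb.k4Sy)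
  k3S_eS1 := lin_row hβ hτ r.k3S_eS1 (ab2 hb.k3Sx hb.eS1x) (ab2 hb.k3Sy hb.eS1y)
  k3S_eS2 := lin_row hβ hτ r.k3S_eS2 (ab2 hb.k3Sx hb.eS2x) (ab2 hb.k3Sy hb.eS2y)
  k3S_gSh := lin_row hβ hτ r.k3S_gSh (ab1 hb.k3Sx) (ab1 hb.k3Sy)
  k4S_eS1 := lin_row hβ hτ r.k4S_eS1 (ab2 hb.k4Sx hb.eS1x) (ab2 hb.k4Sy hb.eS1y)
  k4S_eS2 := lin_row hβ hτ r.k4S_eS2 (ab2 hb.k4Sx hb.eS2x) (ab2 hb.k4Sy hb.eS2y)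
  k4S_gSh := lin_row hβ hτ r.k4S_gSh (ab1 hb.k4Sx) (ab1 hb.k4Sy)
  k4E_gEh := lin_row hβ hτ r.k4E_gEh (ab1 hb.k4Ex) (ab1 hb.k4Ey)
  eN1_eN2 := lin_row hβ hτ r.eN1_eN2 (ab2 hb.eN1x hb.eN2x) (ab2 hb.eN1y hb.eN2y)
  eN1_gN := lin_row hβ hτ r.eN1_gN (ab1 hb.eN1x) (ab1 hb.eN1y)
  eN1_hN := lin_row hβ hτ r.eN1_hN (ab1 hb.eN1x) (ab1 hb.eN1y)
  eN2_gN := lin_row hβ hτ r.eN2_gN (ab1 hb.eN2x) (ab1 hb.eN2y)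
  eN2_hN := lin_row hβ hτ r.eN2_hN (ab1 hb.eN2x) (ab1 hb.eN2y)
  eW1_gW := lin_row hβ hτ r.eW1_gW (ab1 hb.eW1x) (ab1 hb.eW1y)
  eW1_hW := lin_row hβ hτ r.eW1_hW (ab1 hb.eW1x) (ab1 hb.eW1y)
  eS1_eS2 := lin_row hβ hτ r.eS1_eS2 (ab2 hb.eS1x hb.eS2x) (ab2 hb.eS1y hb.eS2y)
  eS1_gS := lin_row hβ hτ r.eS1_gS (ab1 hb.eS1x) (ab1 hb.eS1y)
  eS2_gS := lin_row hβ hτ r.eS2_gS (ab1 hb.eS2x) (ab1 hb.eS2y)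
  gN_hN := lin_row hβ hτ r.gN_hN (ab0 hb.p2x) (ab0 hb.p2x)
  gW_hW := lin_row hβ hτ r.gW_hW (ab0 hb.p2x) (ab0 hb.p2x)
  wRz1N := by linarith [w.wRz1N]
  wRz1E := by linarith [w.wRz1E]
  wLz3W := by linarith [w.wLz3W]
  wLz3S := by linarith [w.wLz3S]
  wRt1N := by linarith [w.wRt1N]
  wTt1N := w.wTt1N
  wLt1W := by linarith [w.wLt1W]
  wTt1W := w.wTt1W
  wLt1S := by linarith [w.wLt1S]
  wBt1S := w.wBt1S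
  wRt2N := by linarith [w.wRt2N]
  wTt2N := w.wTt2N
  wLt2S := by linarith [w.wLt2S]
  wBt2S := w.wBt2S
  wRt2E := by linarith [w.wRt2E]
  wBt2E := w.wBt2E
  wRk1N := by linarith [w.wRk1N]
  wRk1E := by linarith [w.wRk1E]
  wTk2N := w.wTk2N
  wTk2W := w.wTk2W
  wLk3W := by linarith [w.wLk3W]
  wLk3S := by linarith [w.wLk3S]
  wBk4S := w.wBk4S
  wBk4E := w.wBk4E
  wl := w.wl

end Pool.Agent.P.MP_dba4bb_co.Ex
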