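import Pool.Agent.P.MP_dba4bb_co.Ex.Tools
import Pool.Agent.P.MP_dba4bb_co.Ex.Cfg

/-! Statements of the packages: the square, the nodes, the parameters. -/

namespace Pool.Agent.P.MP_dba4bb_co.Ex

open Set

def SCentre : Prop := ∀ F, Cover 1 2 2 F → ∃ g, Sym g ∧ g (F (0, 0)) = cp 0 0 0

def SCorner : Prop :=
  ∀ F, Cover 1 2 2 F → F (0, 0) = cp 0 0 0 → ∃ g, Sym g ∧ Std1 fun P => g (F P)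

def SWs : Prop := ∀ F, Cover 1 2 2 F → Std1 F → ∀ P : P2, |P.1| ≤ 2 → |P.2| ≤ 2 →
  (F P = cp 1 0 0 → P = (1, 0)) ∧ (F P = cp 0 1 0 → P = (0, 1)) ∧
  (F P = cp (-1) 0 0 → P = (-1, 0)) ∧ (F P = cp 0 (-1) 0 → P = (0, -1))

structure Std2 (F : P2 → P3) : Prop where
  p1 : F (1, 0) = cp 1 0 0
  p2 : F (0, 1) = cp 0 1 0
  p3 : F (-1, 0) = cp (-1) 0 0
  p4 : F (0, -1) = cp 0 (-1) 0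
  v1N : F (2, 1) = cp 1 0 1
  v1E : F (2, -1) = cp 1 0 1
  v2N : F (1, 2) = cp 0 1 1
  v2W : F (-1, 2) = cp 0 1 1
  v3W : F (-2, 1) = cp (-1) 0 1
  v3S : F (-2, -1) = cp (-1) 0 1
  v4S : F (-1, -2) = cp 0 (-1) 1
  v4E : F (1, -2) = cp 0 (-1) 1

def SVs : Prop := SWs → ∀ F, Cover 1 2 2 F → Std1 F → Std2 F

def SStd : Prop := SWs → ∀ F, Cover 1 2 2 F → Std1 F → Std2 F → Near 0 0 F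

def SSq : Prop := ∀ F, Cover 1 2 2 F → ∃ g, Sym g ∧ Near 0 0 fun P => g (F P)

def SR0 : Prop := SSq → ∀ ε > 0, ∃ η > 0, η ≤ ε ∧ ∀ a b F, |a - 2| ≤ η → |b - 2| ≤ η →
  Cover 1 a b F → ∃ g, Sym g ∧ Near ε η fun P => g (F P)

structure Ok (ε η k a b : ℝ) (F : P2 → P3) : Prop where
  cov : Cover k a b F
  near : Near ε η F
  η0 : 0 ≤ η
  ηε : η ≤ ε
  ε1 : ε ≤ 1 / 1000
  a1 : 1 ≤ a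
  a2 : a ≤ 2
  b1 : 1 ≤ b
  b2 : b ≤ 2 + η

def SSymm : Prop := ∀ ε η k a b F,
  (Ok ε η k a b F → Ok ε η k a b (flip F) ∧ Ok ε η k a b (rot F)) ∧
  (NS a b F → NS a b (rot F)) ∧ ∀ σ, ZD a b F σ → ZD a b (rot F) (-σ)

def SNS : Prop := ∀ ε η k a b F, Ok ε η k a b F → NS a b F ∨ NS a b (flip F)

def SZ : Prop := ∀ ε η k a b F, Ok ε η k a b F → (∃ σ, ZD a b F σ) ∧
  (¬ Q1 a b F → ∀ C S : ℝ, 1 / 2 ≤ C → C ≤ 1 → 0 ≤ S → S ≤ η → ∃ ρ, 0 < ρ ∧ ρ ≤ 1 / 4 ∧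
    cp (1 - C * ρ) (C * ρ) (1 - S * ρ) ∈ QN a b F ∧ cp (1 - C * ρ) (C * ρ) (1 - S * ρ) ∈ QE a b F)

def SK : Prop := ∀ ε η k a b F, Ok ε η k a b F →
  ((∃ y, cp (1 / 2) y 1 ∈ QN a b F ∧ cp (1 / 2) y 1 ∈ QE a b F) ∧
    (∃ x, cp x (1 / 2) 1 ∈ QN a b F ∧ cp x (1 / 2) 1 ∈ QW a b F) ∧
    (∃ y, cp (-1 / 2) y 1 ∈ QW a b F ∧ cp (-1 / 2) y 1 ∈ QS a b F) ∧
    (∃ x, cp x (-1 / 2) 1 ∈ QS a b F ∧ cp x (-1 / 2) 1 ∈ QE a b F)) ∧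
  (cp (1 / 4) (3 / 4) 1 ∈ QN a b F ∧ cp (1 / 2) (1 / 2) 1 ∈ QN a b F ∧
    cp (-1 / 4) (3 / 4) 1 ∈ QW a b F ∧ cp (-1 / 4) (-3 / 4) 1 ∈ QS a b F ∧
    cp (-1 / 2) (-1 / 2) 1 ∈ QS a b F) ∧
  ∀ s z : ℝ, 1 / 16 ≤ s → s ≤ 15 / 16 → 1 / 16 ≤ z → z ≤ 15 / 16 →
    (∃ u v, |u| ≤ ε ∧ |v| ≤ ε ∧ F (s + z, 1 - s + z) = cp (s + u) (1 - (s + u)) (z + v)) ∧
    (∃ u v, |u| ≤ ε ∧ |v| ≤ ε ∧ F (-s - z, 1 - s + z) = cp (-(s + u)) (1 - (s + u)) (z + v)) ∧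
    (∃ u v, |u| ≤ ε ∧ |v| ≤ ε ∧
      F (-s - z, -(1 - s) - z) = cp (-(s + u)) (-(1 - (s + u))) (z + v)) ∧
    (∃ u v, |u| ≤ ε ∧ |v| ≤ ε ∧ F (s + z, -(1 - s) - z) = cp (s + u) (-(1 - (s + u))) (z + v))

def SGeo : Prop := SK → ∀ ε η k β Δ σ F, 0 < β → Ok ε η k (2 - β ^ 2 * Δ) (2 + β) F →
  NS (2 - β ^ 2 * Δ) (2 + β) F → ZD (2 - β ^ 2 * Δ) (2 + β) F σ → σ ≤ 0 →
  ∃ c, Geo β F c ∧ Walls β Δ c ∧ Bnd (3 * ε / β) c ∧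
    (c.h1 ≤ 0 ∨ ¬ Q1 (2 - β ^ 2 * Δ) (2 + β) F)

def SCone : Prop := ∀ k a b F, Cover k a b F → ∀ (A Z : P2) (α ω n w : ℝ),
  0 ≤ α → α ≤ 1 / 4 → 0 ≤ ω → ω ≤ 1 / 4 → 0 ≤ n → n ≤ 1 / 4 → 0 ≤ w → w ≤ 1 / 4 →
  F A = (1 - α, 1, 1 - ω) → F Z = (1, 1 - n, 1 - w) →
  k * ((n + α) ^ 2 + (w - ω) ^ 2) ≤ 2 * d2 A Z ∨ k * ((w + α) ^ 2 + (n + ω) ^ 2) ≤ 2 * d2 A Z

def SW2C : Prop := ∀ k a b r s : ℝ, 1 ≤ k → 0 < s → Wraps 1 r s → √(2 * k) ≤ 2 * a * s →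
  √(2 * k) * r ≤ 2 * b * s → ∃ F, Cover k a b F

/-- the parameters of the optimal configuration -/
structure Par (β t C S ρ x y h : ℝ) : Prop where
  β0 : 0 < β
  β1 : β ≤ 1 / 10 ^ 40
  t0 : 499 / 1000 * β ^ 2 ≤ t
  t1 : t ≤ 501 / 1000 * β ^ 2
  t2 : β ^ 2 * (1 + 12475 / 10000 * β) ≤ 2 * t
  S0 : 1999 / 1000 * β ≤ S
  S1 : S ≤ 2001 / 1000 * β
  C0 : 1 - 3 * β ^ 2 ≤ C
  C1 : C ≤ 1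
  CS : C ^ 2 + S ^ 2 = 1 + t ^ 2
  ρ0 : 0 ≤ ρ
  ρ1 : ρ ≤ 151 / 100 * β ^ 2
  x0 : |x - 2 * β| ≤ 2 * β ^ 2
  y0 : 0 ≤ y
  y1 : y ≤ 11 / 10 * β ^ 2
  h0 : 0 ≤ h
  h1 : h ≤ 51 / 100 * β ^ 2
  e1 : t + 2 * C + (1 + t ^ 2) * ρ = 2 - 4 * t
  e2 : (C + S + t * (C - S)) * ρ = 3 * t
  e3 : -S * (2 + y) + C * (x - 1) = -1 - 2 * β
  e4 : x + t * (2 + y) = 2 * β
  e5 : y = t * (2 + x)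
  e6 : h = t * (1 + h)

noncomputable def bb (u : ℝ) : ℝ := u - u ^ 2 / 2 + 3 / 2 * tt u * u

def SPar : Prop := ∀ u : ℝ, 0 < u → u ≤ 1 / 10 ^ 41 →
  ∃ C S ρ x y h, Par (bb u) (tt u) C S ρ x y h

def SIvt : Prop := ∀ u0 > 0, ∃ ε > 0, ∀ r ∈ Ioo (1 : ℝ) (1 + ε), ∃ u ∈ Ioo (0 : ℝ) u0, r = rr u

end Pool.Agent.P.MP_dba4bb_co.Ex
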