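import Mathlib

/-! Real inequalities for the exact analysis at the optimum. -/

namespace Pool.Agent.P.MP_dba4bb_co.Ex

def SZS : Prop := ∀ β t h hs k D b1 b2 c1 c2 l1 l2 z1 z2 : ℝ, 0 < β → β ≤ 1 / 10 ^ 9 →
  499 / 1000 * β ^ 2 ≤ t → t ≤ 501 / 1000 * β ^ 2 → 0 ≤ hs → hs ≤ 51 / 100 * β ^ 2 →
  D ≤ β / 10 ^ 6 → |h - hs| ≤ D → |k - 3 / 2 * t| ≤ D → |b1| ≤ D → |b2| ≤ D → |c1| ≤ D →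
  |c2| ≤ D → |l1| ≤ D → |l2| ≤ D → |z1| ≤ D → |z2| ≤ 1 / 100 →
  (1 + t ^ 2) * ((-2 - h) ^ 2 + (-|h|) ^ 2) ≤
    (-2 - h - t * (-|h|) + (z1 - b1)) ^ 2 + (t * (-2 - h) + -|h| + (z2 - b2)) ^ 2 →
  (1 + t ^ 2) * ((k - h) ^ 2 + (1 / 2 - |h|) ^ 2) ≤
    (k - h - t * (1 / 2 - |h|) + (z1 - l1)) ^ 2 + (t * (k - h) + (1 / 2 - |h|) + (z2 - l2)) ^ 2 →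
  2 ≤ (-1 - h - t * (-1 - |h|) + (z1 - c1)) ^ 2 + (t * (-1 - h) + (-1 - |h|) + (z2 - c2)) ^ 2 →
  z1 - b1 ≤ 50 * (β ^ 2 * D + D ^ 2)

def ST2 : Prop := ∀ β t x y k o1 o2 D n1 n2 k1 k2 z1 z2 : ℝ, 0 < β → β ≤ 1 / 10 ^ 9 →
  0 ≤ t → t ≤ β ^ 2 → D ≤ β / 10 ^ 6 → |x - 2 * β| ≤ β / 100 → |y| ≤ β / 100 → |k| ≤ β / 100 →
  |o1| ≤ β / 100 → |o2| ≤ β / 100 → |n1| ≤ D → |k1| ≤ D → |k2| ≤ D → |z1| ≤ D → |z2| ≤ D →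
  |n2| ≤ 1 / 100 → t * (2 - y) + (2 - x) + n2 ≤ 2 →
  (1 + t ^ 2) * ((1 / 2 - y) ^ 2 + (k - x) ^ 2) ≤
    (1 / 2 - y - t * (k - x) + (n1 - k1)) ^ 2 + (t * (1 / 2 - y) + (k - x) + (n2 - k2)) ^ 2 →
  (1 + t ^ 2) * ((o1 - y) ^ 2 + (1 - x - o2) ^ 2) ≤
    (o1 - y - t * (1 - x - o2) + (n1 - z1)) ^ 2 + (t * (o1 - y) + (1 - x - o2) + (n2 - z2)) ^ 2 →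
  -(40 * (β * D + D ^ 2)) ≤ n1 - k1

/-- first bounds for the node `ζ` -/
def SZeta : Prop := ∀ β C S D r p1 p2 L τ Tx Ty f1 f2 ζ1 ζ2 : ℝ, 0 < β → β ≤ 1 / 10 ^ 9 →
  1999 / 1000 * β ≤ S → S ≤ 2001 / 1000 * β → 1 - 3 * β ^ 2 ≤ C → C ≤ 1 → D ≤ β / 10 ^ 6 →
  0 ≤ r → r ≤ 1 / 100 → |p1| ≤ D → |p2| ≤ D → |L| ≤ D → -(201 / 100 * β) ≤ Tx →
  Tx ≤ -(199 / 100 * β) → -1 ≤ Ty → Ty ≤ -(99 / 100) → |τ| ≤ 1 / 100 → Tx + τ ≤ 2 * β ^ 2 →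
  -(β / 1000) ≤ f1 → f1 ≤ 1 / 100 → -(1 / 100) ≤ f2 → f2 ≤ 401 / 100 * β →
  |ζ1| ≤ 1 / 100 → |ζ2| ≤ 1 / 100 → ζ1 ≤ 152 / 100 * β ^ 2 →
  (Tx + 2 * C) ^ 2 + (Ty - 2 * S) ^ 2 ≤ (Tx + 2 * C + τ - p1) ^ 2 + (Ty - 2 * S + L - p2) ^ 2 →
  (2 * C + r) ^ 2 + (r - 2 * S) ^ 2 ≤ (ζ1 + 2 * C - p1) ^ 2 + (ζ2 - 2 * S - p2) ^ 2 →
  (r - Tx) ^ 2 + (-r - Ty) ^ 2 ≤ (ζ1 - Tx - τ) ^ 2 + (ζ2 - Ty - L) ^ 2 →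
  2 - 4 * S * r ≤ (ζ1 + 1 - f1) ^ 2 + (ζ2 - 1 - f2) ^ 2 →
  -(3 * D) ≤ τ ∧ r ≤ 3 * D + 4 * β ^ 2 ∧ -(β / 50) ≤ ζ1 ∧ -(β / 50) ≤ ζ2 ∧ ζ2 ≤ 41 / 10 * β ∧
    (-p1 ≤ 6 / 100 * β ^ 2 → r ≤ 16 / 10 * β ^ 2)

/-- the upper case -/
def SEU : Prop := ∀ β C S D r p1 p2 L ζ1 ζ2 : ℝ, 0 < β → β ≤ 1 / 10 ^ 9 →
  1999 / 1000 * β ≤ S → S ≤ 2001 / 1000 * β → 1 - 3 * β ^ 2 ≤ C → C ≤ 1 → D ≤ β / 10 ^ 6 →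
  0 ≤ r → r ≤ 16 / 10 * β ^ 2 → |p1| ≤ D → |p2| ≤ D → |L| ≤ D → -(β / 50) ≤ ζ1 →
  r + L ≤ ζ2 → ζ2 ≤ 41 / 10 * β →
  (2 * C + r) ^ 2 + (r - 2 * S) ^ 2 ≤ (ζ1 + 2 * C - p1) ^ 2 + (ζ2 - 2 * S - p2) ^ 2 →
  r + p1 + S * (L - p2) - 200 * (β ^ 2 * D + D ^ 2) ≤ ζ1

/-- the lower case -/
def SEL : Prop := ∀ β C S D r p1 p2 L τ Tx Ty Tx' Ty' ζ1 ζ2 l θ : ℝ, 0 < β → β ≤ 1 / 10 ^ 9 →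
  1999 / 1000 * β ≤ S → S ≤ 2001 / 1000 * β → 1 - 3 * β ^ 2 ≤ C → C ≤ 1 → D ≤ β / 10 ^ 6 →
  0 ≤ r → r ≤ 16 / 10 * β ^ 2 → |p1| ≤ D → |p2| ≤ D → |L| ≤ D → -(201 / 100 * β) ≤ Tx →
  Tx ≤ -(199 / 100 * β) → -1 ≤ Ty → Ty ≤ -(99 / 100) → -(3 * D) ≤ τ → Tx + τ ≤ 2 * β ^ 2 →
  Tx' ≤ Tx → Ty ≤ Ty' → Ty' ≤ Ty + β ^ 2 / 100 →
  -(β / 50) ≤ ζ1 → ζ1 ≤ r + 2 * D → ζ1 ≤ 2 * β ^ 2 → -(β / 50) ≤ ζ2 → ζ2 ≤ r + L →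
  |l| ≤ 3 / 2 * β → |θ| ≤ 3 / 2 * β →
  (r - Tx) ^ 2 + (-r - Ty) ^ 2 ≤ (ζ1 - Tx - τ) ^ 2 + (ζ2 - Ty - L) ^ 2 →
  (2 * C - l) ^ 2 + (θ - 2 * S) ^ 2 ≤ (2 * C - 9 / 10 * β - p1) ^ 2 + (L - 2 * S - p2) ^ 2 →
  ((l + r) ^ 2 + (r - θ) ^ 2 ≤ (ζ1 + 9 / 10 * β) ^ 2 + (ζ2 - L) ^ 2 ∨
    (l + r) ^ 2 + (r + θ) ^ 2 ≤ (ζ1 + 9 / 10 * β) ^ 2 + (ζ2 - L) ^ 2) →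
  ((-l - Tx) ^ 2 + (θ - Ty) ^ 2 ≤ (-(9 / 10 * β) - Tx - τ) ^ 2 + Ty ^ 2 ∨
    S * l ≤ C * θ ∧ (-l - Tx') ^ 2 + (θ - Ty') ^ 2 ≤ (-(9 / 10 * β) - Tx - τ) ^ 2 + Ty ^ 2) →
  r + p1 + S * (L - p2) - 200 * (β ^ 2 * D + D ^ 2) ≤ ζ1

end Pool.Agent.P.MP_dba4bb_co.Ex
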