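import Pool.Agent.P.MP_dba4bb_co.Ex.Basic

/-! The optimal folding, in coordinates `p = X + Y`, `q = X - Y`. -/

namespace Pool.Agent.P.MP_dba4bb_co.Ex

open Set

/-- folding of the plane onto the cube -/
noncomputable def psi (p q : ℝ) : P3 :=
  if 1 ≤ p then
    if 1 ≤ q then
      if q ≤ p then (if p ≤ 3 then (1, 2 - q, p - 2) else (4 - p, 2 - q, 1))
      else if q ≤ 3 then (1, 2 - p, q - 2)
      else if p + 2 ≤ q then (1, 4 - q, 2 - p) else (1, 2 - p, 4 - q)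
    else if -1 ≤ q then (if p ≤ 3 then (1, q, p - 2) else (4 - p, q, 1))
    else if -q ≤ p then (if p ≤ 3 then (1, -2 - q, p - 2) else (4 - p, -2 - q, 1))
    else if -q ≤ 3 then (1, p - 2, -q - 2)
    else if p + 2 ≤ -q then (1, -4 - q, 2 - p) else (1, p - 2, 4 + q)
  else if -1 ≤ p then
    if 3 ≤ q then (p, 4 - q, 1) else if 1 ≤ q then (p, 1, q - 2)
    else if -1 ≤ q then (p, q, -1) else if -3 ≤ q then (p, -1, -q - 2) else (p, -4 - q, 1)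
  else if 1 ≤ q then
    if -p ≤ q then (if q ≤ 3 then (-2 - p, 1, q - 2) else (-2 - p, 4 - q, 1))
    else if -p ≤ 3 then (q - 2, 1, -p - 2)
    else if q + 2 ≤ -p then (-4 - p, 1, 2 - q) else (q - 2, 1, 4 + p)
  else if -1 ≤ q then (if -3 ≤ p then (-1, q, -p - 2) else (-4 - p, q, 1))
  else if q ≤ p then (if -q ≤ 3 then (-2 - p, -1, -q - 2) else (-2 - p, -4 - q, 1))
  else if -p ≤ 3 then (-2 - q, -1, -p - 2)
  else if -q + 2 ≤ -p then (-4 - p, -1, 2 + q) else (-2 - q, -1, 4 + p)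

/-- the region on which `psi` is a folding -/
def Om : Set P2 := {P | |P.1 + P.2| ≤ 21 / 5 ∧ |P.1 - P.2| ≤ 21 / 5}

/-- rotation about `w4 = (-1, 1)` -/
def rt (c s : ℝ) (P : P2) : P2 :=
  (c * (P.1 + 1) + s * (P.2 - 1) - 1, c * (P.2 - 1) - s * (P.1 + 1) + 1)

/-- the pleat -/
noncomputable def ple (u c s : ℝ) (P : P2) : P2 :=
  if P.2 ≤ 1 ∨ (1 - u) * (P.1 + 1) + (1 + u) * (P.2 - 1) ≤ 0 then P
  else if P.2 - 1 ≤ u * (P.1 + 1) then (P.1, 2 - P.2) else rt c s P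

noncomputable def ff (u c s : ℝ) (P : P2) : P3 := psi (ple u c s P).1 (ple u c s P).2

noncomputable def hh (P : P2) : ℝ :=
  max (P.2 - 1) 0 + 3 * max (-P.2 - 1) 0 + 6 * max (-P.1 - 1) 0

/-- the paper -/
def Pp (t β : ℝ) : Set P2 :=
  {P | -4 ≤ P.1 + P.2 - t * (P.1 - P.2) ∧ P.1 + P.2 - t * (P.1 - P.2) ≤ 4 - 8 * t ∧
    -4 - 4 * β ≤ t * (P.1 + P.2) + (P.1 - P.2) ∧ t * (P.1 + P.2) + (P.1 - P.2) ≤ 4}

structure ParL (u t c s β : ℝ) : Prop where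
  u0 : 0 < u
  u1 : u ≤ 1 / 1000
  hc : c * (1 + u ^ 2) = 1 - u ^ 2
  hs : s * (1 + u ^ 2) = 2 * u
  hβ : 2 * β = 2 * u - u ^ 2 + 3 * t * u
  ht : 3 * t = (c + s) * (2 - 5 * t - 2 * c - 2 * t * s)
  t0 : 49 / 100 * u ^ 2 ≤ t
  t1 : t ≤ 51 / 100 * u ^ 2

def PolyP (G : Set P2) : Prop :=
  ∃ L : List (ℝ × ℝ × ℝ), G = {P | ∀ c ∈ L, c.1 * P.1 + c.2.1 * P.2 ≤ c.2.2}

/-- `f` is an isometry on each of finitely many polygons that cover `R` -/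
def PwIso (R : Set P2) (f : P2 → P3) : Prop :=
  ∃ 𝓕 : Set (Set P2), 𝓕.Finite ∧ R ⊆ ⋃₀ 𝓕 ∧
    ∀ G ∈ 𝓕, PolyP G ∧ ∀ P ∈ G ∩ R, ∀ Q ∈ G ∩ R, e2 (f P) (f Q) = d2 P Q

def SPsi : Prop := PwIso Om (fun P => psi P.1 P.2) ∧ ∀ P ∈ Om, psi P.1 P.2 ∈ Sf

def SLiso : Prop := SPsi → ∀ u t c s β, ParL u t c s β →
  PwIso (Pp t β) (ff u c s) ∧ ∀ P ∈ Pp t β, ff u c s P ∈ Sf

def SLsurA : Prop := ∀ u t c s β, ParL u t c s β → ∀ q ∈ Sf,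
  q.1 = -1 ∨ q.2.1 = 1 ∨ q.2.1 = -1 ∨ q.2.2 = -1 → ∃ P ∈ Pp t β, ff u c s P = q

def SLsurN : Prop := ∀ u t c s β, ParL u t c s β → ∀ q ∈ Sf,
  q.1 = 1 → ∃ P ∈ Pp t β, ff u c s P = q

def SLsurT : Prop := ∀ u t c s β, ParL u t c s β → ∀ q ∈ Sf,
  q.2.2 = 1 → ∃ P ∈ Pp t β, ff u c s P = q

def SLinj : Prop := ∀ u t c s β, ParL u t c s β → ∀ P ∈ Pp t β, ∀ Q ∈ Pp t β,
  ff u c s P = ff u c s Q → hh P = hh Q → P = Q

def SLfin : Prop := SPsi → SLiso → SLsurA → SLsurN → SLsurT → SLinj →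
  ∀ u : ℝ, 0 < u → u ≤ 1 / 1000 → Folds 1 (rr u) (sg u)

end Pool.Agent.P.MP_dba4bb_co.Ex
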