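import Pool.Agent.P.MP_dba4bb_co.Ex.S1

/-! Forward rigidity: the twelve vertices determine the folding of the square. -/

namespace Pool.Agent.P.MP_dba4bb_co.Ex

namespace StdP

/-- one quadrant, in the coordinates of the quadrant N -/
structure Quad (f g h : ℝ → ℝ → ℝ) : Prop where
  lip : ∀ X Y X' Y', (f X Y - f X' Y') ^ 2 + (g X Y - g X' Y') ^ 2 + 2 * (h X Y - h X' Y') ^ 2 ≤
    (X - X') ^ 2 + (Y - Y') ^ 2
  p1 : f 1 0 = 1 ∧ g 1 0 = 0 ∧ h 1 0 = 0
  p2 : f 0 1 = 0 ∧ g 0 1 = 1 ∧ h 0 1 = 0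
  v1 : f 2 1 = 1 ∧ g 2 1 = 0 ∧ h 2 1 = 1
  v2 : f 1 2 = 0 ∧ g 1 2 = 1 ∧ h 1 2 = 1
  c : f 2 2 = 0 ∧ g 2 2 = 0 ∧ h 2 2 = 1

variable {f g h : ℝ → ℝ → ℝ}

theorem three {a b c : ℝ} (e : a ^ 2 + b ^ 2 + 2 * c ^ 2 ≤ 0) : a = 0 ∧ b = 0 ∧ c = 0 := by
  have h1 := sq_nonneg a
  have h2 := sq_nonneg b
  have h3 := sq_nonneg c
  exact ⟨pow_eq_zero_iff two_ne_zero |>.1 (by linarith),
    pow_eq_zero_iff two_ne_zero |>.1 (by linarith), pow_eq_zero_iff two_ne_zero |>.1 (by linarith)⟩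

theorem Quad.side (q : Quad f g h) {s z : ℝ} (s0 : 0 ≤ s) (s1 : s ≤ 1) (z0 : 0 ≤ z) (z1 : z ≤ 1) :
    f (s + z) (1 - s + z) = s ∧ g (s + z) (1 - s + z) = 1 - s ∧ h (s + z) (1 - s + z) = z := by
  have a1 := q.lip (s + z) (1 - s + z) 1 0
  have a2 := q.lip (s + z) (1 - s + z) 0 1
  have a3 := q.lip (s + z) (1 - s + z) 2 1
  have a4 := q.lip (s + z) (1 - s + z) 1 2
  rw [q.p1.1, q.p1.2.1, q.p1.2.2] at a1
  rw [q.p2.1, q.p2.2.1, q.p2.2.2] at a2
  rw [q.v1.1, q.v1.2.1, q.v1.2.2] at a3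
  rw [q.v2.1, q.v2.2.1, q.v2.2.2] at a4
  generalize f (s + z) (1 - s + z) = x at *
  generalize g (s + z) (1 - s + z) = y at *
  generalize h (s + z) (1 - s + z) = w at *
  have b1 := mul_le_mul_of_nonneg_left a1 (mul_nonneg s0 (sub_nonneg.2 z1))
  have b2 := mul_le_mul_of_nonneg_left a2 (mul_nonneg (sub_nonneg.2 s1) (sub_nonneg.2 z1))
  have b3 := mul_le_mul_of_nonneg_left a3 (mul_nonneg s0 z0)
  have b4 := mul_le_mul_of_nonneg_left a4 (mul_nonneg (sub_nonneg.2 s1) z0)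
  obtain ⟨e1, e2, e3⟩ := three (a := x - s) (b := y - (1 - s)) (c := w - z) (by linarith)
  exact ⟨by linarith, by linarith, by linarith⟩

theorem Quad.far (q : Quad f g h) {X Y s : ℝ} (hz : 1 ≤ h X Y) (s0 : 0 ≤ s) (s1 : s ≤ 1) :
    2 ≤ (X - s) ^ 2 + (Y - (1 - s)) ^ 2 := by
  have a := q.lip X Y (s + 0) (1 - s + 0)
  rw [(q.side s0 s1 le_rfl zero_le_one).2.2] at a
  nlinarith [sq_nonneg (f X Y - f (s + 0) (1 - s + 0)), sq_nonneg (g X Y - g (s + 0) (1 - s + 0))]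

theorem Quad.top (q : Quad f g h) {X Y : ℝ} (X0 : 0 ≤ X) (X2 : X ≤ 2) (Y0 : 0 ≤ Y) (Y2 : Y ≤ 2)
    (hz : 1 ≤ h X Y) : X = 2 - g X Y ∧ Y = 2 - f X Y := by
  have c1 : X - Y ≤ 1 := by
    by_contra c
    have := q.far hz zero_le_one le_rfl
    nlinarith
  have c2 : Y - X ≤ 1 := by
    by_contra c
    have := q.far hz le_rfl zero_le_one
    nlinarith
  have c3 : 0 ≤ X + Y - 3 := by
    by_contra c
    have := q.far (s := (X - Y + 1) / 2) hz (by linarith) (by linarith)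
    nlinarith
  have a1 := q.lip X Y 2 1
  have a2 := q.lip X Y 1 2
  have a3 := q.lip X Y 2 2
  rw [q.v1.1, q.v1.2.1, q.v1.2.2] at a1
  rw [q.v2.1, q.v2.2.1, q.v2.2.2] at a2
  rw [q.c.1, q.c.2.1, q.c.2.2] at a3
  generalize f X Y = x at *
  generalize g X Y = y at *
  generalize h X Y = w at *
  have b1 := mul_le_mul_of_nonneg_left a1 (sub_nonneg.2 Y2)
  have b2 := mul_le_mul_of_nonneg_left a2 (sub_nonneg.2 X2)
  have b3 := mul_le_mul_of_nonneg_left a3 c3
  obtain ⟨e1, e2, -⟩ := three (a := x - (2 - Y)) (b := y - (2 - X)) (c := w - 1) (by linarith)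
  exact ⟨by linarith, by linarith⟩

theorem quad {F : P2 → P3} (hF : Cover 1 2 2 F) {α β : ℝ} (hα : α ^ 2 = 1) (hβ : β ^ 2 = 1)
    (p1 : F (α * 1, β * 0) = cp α 0 0) (p2 : F (α * 0, β * 1) = cp 0 β 0)
    (v1 : F (α * 2, β * 1) = cp α 0 1) (v2 : F (α * 1, β * 2) = cp 0 β 1)
    (c : F (α * 2, β * 2) = cp 0 0 1) :
    Quad (fun X Y => α * cx (F (α * X, β * Y))) (fun X Y => β * cy (F (α * X, β * Y)))
      fun X Y => cz (F (α * X, β * Y)) := by
  have a : α * α = 1 := by rw [← hα, sq]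
  have b : β * β = 1 := by rw [← hβ, sq]
  refine ⟨fun X Y X' Y' => ?_, by simp only [p1]; simp [a], by simp only [p2]; simp [b],
    by simp only [v1]; simp [a], by simp only [v2]; simp [b], by simp only [c]; simp⟩
  have e := hF.eu (cp_eta (F (α * X, β * Y))).symm (cp_eta (F (α * X', β * Y'))).symm
  simp only [d2, ← mul_sub, mul_pow, hα, hβ, one_mul] at e ⊢
  exact e

theorem side_eq {F : P2 → P3} {α β : ℝ} (hα : α ^ 2 = 1) (hβ : β ^ 2 = 1)
    (q : Quad (fun X Y => α * cx (F (α * X, β * Y))) (fun X Y => β * cy (F (α * X, β * Y)))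
      fun X Y => cz (F (α * X, β * Y))) {s z : ℝ} (s0 : 0 ≤ s) (s1 : s ≤ 1) (z0 : 0 ≤ z)
    (z1 : z ≤ 1) {P : P2} {x y : ℝ} (hP : P = (α * (s + z), β * (1 - s + z))) (hx : x = α * s)
    (hy : y = β * (1 - s)) : e2 (F P) (cp x y z) ≤ 0 ^ 2 := by
  obtain ⟨e1, e2', e3⟩ := q.side s0 s1 z0 z1
  simp only [← hP] at e1 e2' e3
  have h1 : cx (F P) = x := by rw [hx, ← e1, ← mul_assoc, ← sq, hα, one_mul]
  have h2 : cy (F P) = y := by rw [hy, ← e2', ← mul_assoc, ← sq, hβ, one_mul]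
  rw [← cp_eta (F P), h1, h2, e3, e2_cp]
  simp

theorem top_eq {F : P2 → P3} {α β : ℝ} (hα : α ^ 2 = 1) (hβ : β ^ 2 = 1)
    (q : Quad (fun X Y => α * cx (F (α * X, β * Y))) (fun X Y => β * cy (F (α * X, β * Y)))
      fun X Y => cz (F (α * X, β * Y))) (P : P2) (X0 : 0 ≤ α * P.1) (X2 : α * P.1 ≤ 2)
    (Y0 : 0 ≤ β * P.2) (Y2 : β * P.2 ≤ 2) (hz : 1 ≤ cz (F P)) :
    α * P.1 = 2 - β * cy (F P) ∧ β * P.2 = 2 - α * cx (F P) := by
  have hP : (α * (α * P.1), β * (β * P.2)) = P := by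
    rw [← mul_assoc, ← mul_assoc, ← sq, ← sq, hα, hβ, one_mul, one_mul]
  have := q.top X0 X2 Y0 Y2 (by simp only [hP]; exact hz)
  simpa only [hP] using this

theorem ab0 {x : ℝ} (h : x = 0) : |x| ≤ 0 := by simp [h]

end StdP

open StdP in
theorem sStd : SStd := by
  intro hW F hF h1 h2
  have o : (1 : ℝ) ^ 2 = 1 := by norm_num
  have m : (-1 : ℝ) ^ 2 = 1 := by norm_num
  have qN := quad hF o o (by simpa using h2.p1) (by simpa using h2.p2) (by simpa using h2.v1N)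
    (by simpa using h2.v2N) (by simpa using h1.cN)
  have qW := quad hF m o (by simpa using h2.p3) (by simpa using h2.p2) (by simpa using h2.v3W)
    (by simpa using h2.v2W) (by simpa using h1.cW)
  have qS := quad hF m m (by simpa using h2.p3) (by simpa using h2.p4) (by simpa using h2.v3S)
    (by simpa using h2.v4S) (by simpa using h1.cS)
  have qE := quad hF o m (by simpa using h2.p1) (by simpa using h2.p4) (by simpa using h2.v1E)
    (by simpa using h2.v4E) (by simpa using h1.cE)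
  have w := fun (P : P2) (a : |P.1| ≤ 2 + 0) (b : |P.2| ≤ 2 + 0) =>
    hW F hF h1 P (by linarith) (by linarith)
  refine ⟨fun P a b c d e => ?_, fun P a b c d e => ?_, fun P a b c d e => ?_,
    fun P a b c d e => ?_, fun P a b e => ?_, fun P a b e => ?_, fun P a b e => ?_,
    fun P a b e => ?_, fun s z a b c d => ?_, fun s z a b c d => ?_, fun s z a b c d => ?_,
    fun s z a b c d => ?_⟩
  · have := top_eq o o qN P (by linarith) (by linarith) (by linarith) (by linarith) (by linarith)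
    exact ⟨ab0 (by linarith [this.1]), ab0 (by linarith [this.2])⟩
  · have := top_eq m o qW P (by linarith) (by linarith) (by linarith) (by linarith) (by linarith)
    exact ⟨ab0 (by linarith [this.1]), ab0 (by linarith [this.2])⟩
  · have := top_eq m m qS P (by linarith) (by linarith) (by linarith) (by linarith) (by linarith)
    exact ⟨ab0 (by linarith [this.1]), ab0 (by linarith [this.2])⟩
  · have := top_eq o m qE P (by linarith) (by linarith) (by linarith) (by linarith) (by linarith)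
    exact ⟨ab0 (by linarith [this.1]), ab0 (by linarith [this.2])⟩
  · rw [(w P a b).1 e]; simp
  · rw [(w P a b).2.1 e]; simp
  · rw [(w P a b).2.2.1 e]; simp
  · rw [(w P a b).2.2.2 e]; simp
  · exact side_eq o o qN a b c d (Prod.ext (by ring) (by ring)) (by ring) (by ring)
  · exact side_eq m o qW a b c d (Prod.ext (by ring) (by ring)) (by ring) (by ring)
  · exact side_eq m m qS a b c d (Prod.ext (by ring) (by ring)) (by ring) (by ring)
  · exact side_eq o m qE a b c d (Prod.ext (by ring) (by ring)) (by ring) (by ring)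

end Pool.Agent.P.MP_dba4bb_co.Ex
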