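import Pool.Agent.P.MP_dba4bb_co.Ex.PinD

/-! Third order bound near a maximiser. -/

namespace Pool.Agent.P.MP_dba4bb_co.Ex

variable {β Δ Ω : ℝ} {c : Cfg}

theorem hqII (p : PinII Ω c) (h0 : 0 ≤ Ω) (h1 : Ω ≤ 1) :
    (9511 / 248280) * ((c.p2x - c.p4x) ^ 2 + (c.p2y - c.p4y) ^ 2 - (0) ^ 2 - (0) ^ 2 - 2 * (0) ^ 2) +
    (99343 / 331040) * ((c.p2x - c.p3x) ^ 2 + (c.p2y - c.p3y) ^ 2 - (0) ^ 2 - (0) ^ 2 - 2 * (0) ^ 2) +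
    (130217 / 595872) * ((c.p2x - c.z1Nx) ^ 2 + (c.p2y - c.z1Ny) ^ 2 - (c.h1) ^ 2 - (-c.s1) ^ 2 - 2 * (0) ^ 2) +
    (277 / 8276) * ((c.p2x - c.z3Wx) ^ 2 + (c.p2y - c.z3Wy) ^ 2 - (-c.h3) ^ 2 - (-c.s3) ^ 2 - 2 * (0) ^ 2) +
    (4107 / 41380) * ((c.p2x - c.k3Wx) ^ 2 + (c.p2y - c.k3Wy) ^ 2 - (-c.k3) ^ 2 - (0) ^ 2 - 2 * (0) ^ 2) +
    (37 / 360) * ((c.p2x - c.eN1x) ^ 2 + (c.p2y - c.eN1y) ^ 2 - (0) ^ 2 - (0) ^ 2 - 2 * (0) ^ 2) +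
    (70493 / 132416) * ((c.p4x - c.p3x) ^ 2 + (c.p4y - c.p3y) ^ 2 - (0) ^ 2 - (0) ^ 2 - 2 * (0) ^ 2) +
    (801 / 16552) * ((c.p4x - c.z1Ex) ^ 2 + (c.p4y - c.z1Ey) ^ 2 - (-c.h1) ^ 2 - (c.s1) ^ 2 - 2 * (0) ^ 2) +
    (4223 / 66208) * ((c.p4x - c.eS2x) ^ 2 + (c.p4y - c.eS2y) ^ 2 - (0) ^ 2 - (0) ^ 2 - 2 * (0) ^ 2) +
    (17 / 30) * ((c.p4x) ^ 2 + (c.p4y) ^ 2 - (-c.hNu - c.hNv) ^ 2 - (c.hNu - c.hNv) ^ 2 - 2 * (0) ^ 2) +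
    (1 / 8) * ((c.p3x - c.z3Wx) ^ 2 + (c.p3y - c.z3Wy) ^ 2 - (-c.s3) ^ 2 - (-c.h3) ^ 2 - 2 * (0) ^ 2) +
    (17077 / 41380) * ((c.p3x - c.k2Wx) ^ 2 + (c.p3y - c.k2Wy) ^ 2 - (0) ^ 2 - (-c.k2) ^ 2 - 2 * (0) ^ 2) +
    (4223 / 66208) * ((c.p3x - c.eS2x) ^ 2 + (c.p3y - c.eS2y) ^ 2 - (0) ^ 2 - (0) ^ 2 - 2 * (0) ^ 2) +
    (1268 / 2069) * ((c.p3x) ^ 2 + (c.p3y) ^ 2 - (c.gSu + c.gSv) ^ 2 - (-c.gSu + c.gSv) ^ 2 - 2 * (0) ^ 2) +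
    (1 / 4) * ((c.z1Nx - c.t1Nx) ^ 2 + (c.z1Ny - c.t1Ny) ^ 2 - (-c.h1 + c.t1y) ^ 2 - (c.s1 + c.t1x) ^ 2 - 2 * (0) ^ 2) +
    (11 / 1080) * ((c.z1Nx - c.eN1x) ^ 2 + (c.z1Ny - c.eN1y) ^ 2 - (-c.h1) ^ 2 - (c.s1) ^ 2 - 2 * (0) ^ 2) +
    (19 / 120) * ((c.z1Nx - c.eN2x) ^ 2 + (c.z1Ny - c.eN2y) ^ 2 - (-c.h1) ^ 2 - (c.s1) ^ 2 - 2 * (0) ^ 2) +
    (22 / 9) * ((c.z1Nx) ^ 2 + (c.z1Ny) ^ 2 - (-c.h1 - c.gNu - c.gNv) ^ 2 - (c.s1 + c.gNu - c.gNv) ^ 2 - 2 * (0) ^ 2) +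
    (7 / 8) * ((c.z1Ex - c.t2Ex) ^ 2 + (c.z1Ey - c.t2Ey) ^ 2 - (c.h1 - c.t2y) ^ 2 - (-c.s1 - c.t2x) ^ 2 - 2 * (0) ^ 2) +
    (3747 / 10345) * ((c.z3Sx - c.t2Sx) ^ 2 + (c.z3Sy - c.t2Sy) ^ 2 - (-c.h3 + c.t2y) ^ 2 - (-c.s3 + c.t2x) ^ 2 - 2 * (0) ^ 2) +
    (8472 / 10345) * ((c.z3Sx) ^ 2 + (c.z3Sy) ^ 2 - (-c.h3 + c.gSu + c.gSv) ^ 2 - (-c.s3 - c.gSu + c.gSv) ^ 2 - 2 * (0) ^ 2) +
    (1297 / 4138) * ((c.t1Wx - c.k2Wx) ^ 2 + (c.t1Wy - c.k2Wy) ^ 2 - (c.t1y) ^ 2 - (c.t1x - c.k2) ^ 2 - 2 * (0) ^ 2) +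
    (4223 / 16552) * ((c.t1Sx - c.eS2x) ^ 2 + (c.t1Sy - c.eS2y) ^ 2 - (-c.t1y) ^ 2 - (-c.t1x) ^ 2 - 2 * (0) ^ 2) +
    (772 / 6207) * ((c.t1Sx) ^ 2 + (c.t1Sy) ^ 2 - (-c.t1y + c.gSu + c.gSv) ^ 2 - (-c.t1x - c.gSu + c.gSv) ^ 2 - 2 * (0) ^ 2) +
    (42439 / 41380) * ((c.t2Sx - c.k3Sx) ^ 2 + (c.t2Sy - c.k3Sy) ^ 2 - (-c.t2y + c.k3) ^ 2 - (-c.t2x) ^ 2 - 2 * (0) ^ 2) +
    (187 / 360) * ((c.k2Nx - c.eN1x) ^ 2 + (c.k2Ny - c.eN1y) ^ 2 - (0) ^ 2 - (-c.k2) ^ 2 - 2 * (0) ^ 2) +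
    (19 / 36) * ((c.k2Nx - c.eN2x) ^ 2 + (c.k2Ny - c.eN2y) ^ 2 - (0) ^ 2 - (-c.k2) ^ 2 - 2 * (0) ^ 2) +
    (22 / 45) * ((c.k2Nx) ^ 2 + (c.k2Ny) ^ 2 - (-c.gNu - c.gNv) ^ 2 - (-c.k2 + c.gNu - c.gNv) ^ 2 - 2 * (0) ^ 2) +
    (4107 / 41380) * ((c.k2Wx - c.k3Wx) ^ 2 + (c.k2Wy - c.k3Wy) ^ 2 - (-c.k3) ^ 2 - (c.k2) ^ 2 - 2 * (0) ^ 2) +
    (10952 / 10345) * ((c.k3Sx) ^ 2 + (c.k3Sy) ^ 2 - (-c.k3 + c.gSu + c.gSv) ^ 2 - (-c.gSu + c.gSv) ^ 2 - 2 * (0) ^ 2) +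
    (13 / 450) * ((c.eN1x) ^ 2 + (c.eN1y) ^ 2 - (-c.hNu - c.hNv) ^ 2 - (c.hNu - c.hNv) ^ 2 - 2 * (0) ^ 2) +
    (19 / 135) * ((c.eN2x) ^ 2 + (c.eN2y) ^ 2 - (-c.hNu - c.hNv) ^ 2 - (c.hNu - c.hNv) ^ 2 - 2 * (0) ^ 2) +
    (1276 / 2385) * ((0) ^ 2 + (0) ^ 2 - (c.gNu + c.gNv - c.hNu - c.hNv) ^ 2 - (-c.gNu + c.gNv + c.hNu - c.hNv) ^ 2 - 2 * (0) ^ 2) ≤
    (70547 / 8276) + 195 * Ω := by
  linear_combination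
    (9511 / 248280) * sq2 p.p2x p.p4x h1 +
    (9511 / 248280) * sq2 p.p2y p.p4y h1 +
    (99343 / 331040) * sq2 p.p2x p.p3x h1 +
    (99343 / 331040) * sq2 p.p2y p.p3y h1 +
    (130217 / 595872) * sq2 p.p2x p.z1Nx h1 +
    (130217 / 595872) * sq_nonneg (c.h1 - (-1 / 2)) +
    (130217 / 595872) * sq2 p.p2y p.z1Ny h1 +
    (130217 / 595872) * sq_nonneg (-c.s1 - (-1 / 2)) +
    (277 / 8276) * sq2 p.p2x p.z3Wx h1 +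
    (277 / 8276) * sq_nonneg (-c.h3 - (-1 / 2)) +
    (277 / 8276) * sq2 p.p2y p.z3Wy h1 +
    (277 / 8276) * sq_nonneg (-c.s3 - (-1 / 2)) +
    (4107 / 41380) * sq2 p.p2x p.k3Wx h1 +
    (4107 / 41380) * sq_nonneg (-c.k3 - (-3 / 4)) +
    (4107 / 41380) * sq2 p.p2y p.k3Wy h1 +
    (37 / 360) * sq2 p.p2x p.eN1x h1 +
    (37 / 360) * sq2 p.p2y p.eN1y h1 +
    (70493 / 132416) * sq2 p.p4x p.p3x h1 +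
    (70493 / 132416) * sq2 p.p4y p.p3y h1 +
    (801 / 16552) * sq2 p.p4x p.z1Ex h1 +
    (801 / 16552) * sq_nonneg (-c.h1 - (1 / 2)) +
    (801 / 16552) * sq2 p.p4y p.z1Ey h1 +
    (801 / 16552) * sq_nonneg (c.s1 - (1 / 2)) +
    (4223 / 66208) * sq2 p.p4x p.eS2x h1 +
    (4223 / 66208) * sq2 p.p4y p.eS2y h1 +
    (17 / 30) * sq1 p.p4x h1 +
    (17 / 30) * sq_nonneg (-c.hNu - c.hNv - (-3 / 32)) +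
    (17 / 30) * sq1 p.p4y h1 +
    (17 / 30) * sq_nonneg (c.hNu - c.hNv - (47 / 32)) +
    (1 / 8) * sq2 p.p3x p.z3Wx h1 +
    (1 / 8) * sq_nonneg (-c.s3 - (-1 / 2)) +
    (1 / 8) * sq2 p.p3y p.z3Wy h1 +
    (1 / 8) * sq_nonneg (-c.h3 - (-1 / 2)) +
    (17077 / 41380) * sq2 p.p3x p.k2Wx h1 +
    (17077 / 41380) * sq2 p.p3y p.k2Wy h1 +
    (17077 / 41380) * sq_nonneg (-c.k2 - (-3 / 4)) +
    (4223 / 66208) * sq2 p.p3x p.eS2x h1 +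
    (4223 / 66208) * sq2 p.p3y p.eS2y h1 +
    (1268 / 2069) * sq1 p.p3x h1 +
    (1268 / 2069) * sq_nonneg (c.gSu + c.gSv - (65 / 128)) +
    (1268 / 2069) * sq1 p.p3y h1 +
    (1268 / 2069) * sq_nonneg (-c.gSu + c.gSv - (15 / 128)) +
    (1 / 4) * prod_le (c := (7 / 4)) h0 h1 p.f0 p.f1 (by norm_num) +
    (1 / 4) * sq2 p.z1Ny p.t1Ny h1 +
    (1 / 4) * sq_nonneg (c.s1 + c.t1x - (3 / 2)) +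
    (11 / 1080) * sq2 p.z1Nx p.eN1x h1 +
    (11 / 1080) * sq_nonneg (-c.h1 - (1 / 2)) +
    (11 / 1080) * sq2 p.z1Ny p.eN1y h1 +
    (11 / 1080) * sq_nonneg (c.s1 - (1 / 2)) +
    (19 / 120) * sq2 p.z1Nx p.eN2x h1 +
    (19 / 120) * sq_nonneg (-c.h1 - (1 / 2)) +
    (19 / 120) * sq2 p.z1Ny p.eN2y h1 +
    (19 / 120) * sq_nonneg (c.s1 - (1 / 2)) +
    (22 / 9) * sq1 p.z1Nx h1 +
    (22 / 9) * sq_nonneg (-c.h1 - c.gNu - c.gNv - (-1 / 128)) +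
    (22 / 9) * sq1 p.z1Ny h1 +
    (22 / 9) * sq_nonneg (c.s1 + c.gNu - c.gNv - (305 / 128)) +
    (7 / 8) * prod_le (c := (15 / 4)) h0 h1 p.f2 p.f3 (by norm_num) +
    (7 / 8) * sq2 p.z1Ey p.t2Ey h1 +
    (7 / 8) * sq_nonneg (-c.s1 - c.t2x - (-3 / 2)) +
    (3747 / 10345) * prod_le (c := (7 / 4)) h0 h1 p.f4 p.f5 (by norm_num) +
    (3747 / 10345) * sq2 p.z3Sy p.t2Sy h1 +
    (3747 / 10345) * sq_nonneg (-c.s3 + c.t2x - (1 / 2)) +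
    (8472 / 10345) * sq1 p.z3Sx h1 +
    (8472 / 10345) * sq_nonneg (-c.h3 + c.gSu + c.gSv - (1 / 128)) +
    (8472 / 10345) * sq1 p.z3Sy h1 +
    (8472 / 10345) * sq_nonneg (-c.s3 - c.gSu + c.gSv - (-49 / 128)) +
    (1297 / 4138) * sq2 p.t1Wx p.k2Wx h1 +
    (1297 / 4138) * sq_nonneg (c.t1y - 1) +
    (1297 / 4138) * sq2 p.t1Wy p.k2Wy h1 +
    (1297 / 4138) * sq_nonneg (c.t1x - c.k2 - (1 / 4)) +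
    (4223 / 16552) * sq2 p.t1Sx p.eS2x h1 +
    (4223 / 16552) * sq_nonneg (-c.t1y - (-1)) +
    (4223 / 16552) * sq2 p.t1Sy p.eS2y h1 +
    (4223 / 16552) * sq_nonneg (-c.t1x - (-1)) +
    (772 / 6207) * sq1 p.t1Sx h1 +
    (772 / 6207) * sq_nonneg (-c.t1y + c.gSu + c.gSv - (-63 / 128)) +
    (772 / 6207) * sq1 p.t1Sy h1 +
    (772 / 6207) * sq_nonneg (-c.t1x - c.gSu + c.gSv - (-113 / 128)) +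
    (42439 / 41380) * prod_le (c := (15 / 16)) h0 h1 p.f6 p.f7 (by norm_num) +
    (42439 / 41380) * sq2 p.t2Sy p.k3Sy h1 +
    (42439 / 41380) * sq_nonneg (-c.t2x - (-1)) +
    (187 / 360) * sq2 p.k2Nx p.eN1x h1 +
    (187 / 360) * sq2 p.k2Ny p.eN1y h1 +
    (187 / 360) * sq_nonneg (-c.k2 - (-3 / 4)) +
    (19 / 36) * sq2 p.k2Nx p.eN2x h1 +
    (19 / 36) * sq2 p.k2Ny p.eN2y h1 +
    (19 / 36) * sq_nonneg (-c.k2 - (-3 / 4)) +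
    (22 / 45) * sq1 p.k2Nx h1 +
    (22 / 45) * sq_nonneg (-c.gNu - c.gNv - (-65 / 128)) +
    (22 / 45) * sq1 p.k2Ny h1 +
    (22 / 45) * sq_nonneg (-c.k2 + c.gNu - c.gNv - (145 / 128)) +
    (4107 / 41380) * sq2 p.k2Wx p.k3Wx h1 +
    (4107 / 41380) * sq_nonneg (-c.k3 - (-3 / 4)) +
    (4107 / 41380) * sq2 p.k2Wy p.k3Wy h1 +
    (4107 / 41380) * sq_nonneg (c.k2 - (3 / 4)) +
    (10952 / 10345) * sq1 p.k3Sx h1 +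
    (10952 / 10345) * sq_nonneg (-c.k3 + c.gSu + c.gSv - (-31 / 128)) +
    (10952 / 10345) * sq1 p.k3Sy h1 +
    (10952 / 10345) * sq_nonneg (-c.gSu + c.gSv - (15 / 128)) +
    (13 / 450) * sq1 p.eN1x h1 +
    (13 / 450) * sq_nonneg (-c.hNu - c.hNv - (-3 / 32)) +
    (13 / 450) * sq1 p.eN1y h1 +
    (13 / 450) * sq_nonneg (c.hNu - c.hNv - (47 / 32)) +
    (19 / 135) * sq1 p.eN2x h1 +
    (19 / 135) * sq_nonneg (-c.hNu - c.hNv - (-3 / 32)) +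
    (19 / 135) * sq1 p.eN2y h1 +
    (19 / 135) * sq_nonneg (c.hNu - c.hNv - (47 / 32)) +
    (1276 / 2385) * sq_nonneg (c.gNu + c.gNv - c.hNu - c.hNv - (53 / 128)) +
    (1276 / 2385) * sq_nonneg (-c.gNu + c.gNv + c.hNu - c.hNv - (-53 / 128)) +
    (1939201 / 2979360) * (abs_le.1 p.p2x).1 +
    (394647 / 331040) * (abs_le.1 p.p4x).2 +
    (150161 / 595872) * (abs_le.1 p.p2y).1 +
    (2085671 / 993120) * (abs_le.1 p.p4y).2 +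
    (16467 / 33104) * (abs_le.1 p.p3x).2 +
    (99377 / 165520) * (abs_le.1 p.p3y).1 +
    (2117681 / 4469040) * (abs_le.1 p.z1Nx).2 +
    (1775321 / 4469040) * (abs_le.1 p.h1).2 +
    (15511079 / 1117260) * (abs_le.1 p.z1Ny).2 +
    (17272559 / 1117260) * (abs_le.1 p.s1).1 +
    (277 / 8276) * (abs_le.1 p.z3Wx).2 +
    (1507 / 10345) * (abs_le.1 p.h3).1 +
    (277 / 8276) * (abs_le.1 p.z3Wy).1 +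
    (3503 / 8276) * (abs_le.1 p.s3).1 +
    (12321 / 41380) * (abs_le.1 p.k3Wx).2 +
    (67081 / 82760) * (abs_le.1 p.k3).1 +
    (4107 / 10345) * (abs_le.1 p.k3Wy).1 +
    (337 / 21600) * (abs_le.1 p.eN1x).1 +
    (18443 / 21600) * (abs_le.1 p.eN1y).2 +
    (801 / 16552) * (abs_le.1 p.z1Ex).1 +
    (6132 / 2069) * (abs_le.1 p.z1Ey).1 +
    (4223 / 8276) * (abs_le.1 p.eS2x).2 +
    (4223 / 8276) * (abs_le.1 p.eS2y).2 +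
    (191 / 135) * (abs_le.1 p.hNu).1 +
    (5467 / 2700) * (abs_le.1 p.hNv).2 +
    (17077 / 10345) * (abs_le.1 p.k2Wx).1 +
    (25291 / 41380) * (abs_le.1 p.k2Wy).2 +
    (640195 / 595872) * (abs_le.1 p.k2).1 +
    (14116 / 31035) * (abs_le.1 p.gSu).1 +
    (14116 / 31035) * (abs_le.1 p.gSv).2 +
    (3 / 4) * (abs_le.1 p.t1Ny).1 +
    (162533 / 99312) * (abs_le.1 p.t1x).1 +
    (133 / 720) * (abs_le.1 p.eN2x).1 +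
    (2261 / 2160) * (abs_le.1 p.eN2y).2 +
    (638 / 45) * (abs_le.1 p.gNu).1 +
    (110 / 9) * (abs_le.1 p.gNv).2 +
    (21 / 8) * (abs_le.1 p.t2Ey).2 +
    (416977 / 82760) * (abs_le.1 p.t2x).1 +
    (945 / 2069) * (abs_le.1 p.z3Sy).1 +
    (49933 / 20690) * (abs_le.1 p.t2Sy).1 +
    (1297 / 2069) * (abs_le.1 p.t1Wx).2 +
    (41697 / 33104) * (abs_le.1 p.t1y).1 +
    (12669 / 33104) * (abs_le.1 p.t1Sx).1 +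
    (88049 / 99312) * (abs_le.1 p.t1Sy).1 +
    (42439 / 20690) * (abs_le.1 p.k3Sy).2 +
    (395 / 288) * (abs_le.1 p.k2Nx).1 +
    (667 / 1440) * (abs_le.1 p.k2Ny).1 +
    (20429459 / 44690400) * h0

theorem thII (r : Rows β c) (w : Walls β Δ c) (p : PinII Ω c) (h0 : 0 ≤ Ω) (h1 : Ω ≤ 1)
    (hβ : 0 ≤ β) (e1 : c.s1 = -c.h1) (e3 : c.s3 = c.h3) :
    3 / 4 * c.z1Ny - 1 / 2 * c.p2y - 7 / 4 * c.z1Ey + 5 / 2 * c.p4y - 1 / 4 * c.z3Wy - 3 / 4 * c.z3Sy - 1 / 2 * c.s1 - 1 / 2 * c.s3 ≤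
    8 + β * ((70547 / 8276) + 195 * Ω) - (9878 / 2069) * (β * Δ) := by
  linear_combination
    (9511 / 124140) * r.p2_p4 + (99343 / 165520) * r.p2_p3 + (130217 / 297936) * r.p2_z1Nv
    + (277 / 4138) * r.p2_z3Wv + (4107 / 20690) * r.p2_k3Wv + (37 / 180) * r.p2_eN1
    + (70493 / 66208) * r.p4_p3 + (801 / 8276) * r.p4_z1Ev + (4223 / 33104) * r.p4_eS2
    + (17 / 15) * r.p4_hNv + (1 / 4) * r.p3_z3Wu + (17077 / 20690) * r.p3_k2Wv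
    + (4223 / 33104) * r.p3_eS2 + (2536 / 2069) * r.p3_gS + (1 / 2) * r.z1N_t1N
    + (11 / 540) * r.z1N_eN1 + (19 / 60) * r.z1N_eN2 + (44 / 9) * r.z1N_gNh + (7 / 4) * r.z1E_t2E
    + (7494 / 10345) * r.z3S_t2S + (16944 / 10345) * r.z3S_gSh + (1297 / 2069) * r.t1W_k2W
    + (4223 / 8276) * r.t1S_eS2 + (1544 / 6207) * r.t1S_gSh + (42439 / 20690) * r.t2S_k3S
    + (187 / 180) * r.k2N_eN1 + (19 / 18) * r.k2N_eN2 + (44 / 45) * r.k2N_gNh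
    + (4107 / 20690) * r.k2W_k3W + (21904 / 10345) * r.k3S_gSh + (13 / 225) * r.eN1_hN
    + (38 / 135) * r.eN2_hN + (2552 / 2385) * r.gN_hN + (9077 / 4138) * w.wRz1N
    + (801 / 4138) * w.wRz1E + (3177 / 8276) * w.wLz3W + (3177 / 8276) * w.wLz3S
    + (1 / 2) * w.wTt1N + (1297 / 4138) * w.wLt1W + (1297 / 4138) * w.wLt1S + (1 / 2) * w.wBt1S
    + (7 / 4) * w.wBt2S + (7 / 4) * w.wBt2E + (7 / 4) * w.wTk2N + (7 / 4) * w.wTk2W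
    + (4107 / 8276) * w.wLk3W + (4107 / 8276) * w.wLk3S
    + mul_le_mul_of_nonneg_left (hqII p h0 h1) hβ + 2 * e1 + (1 / 4) * e3


end Pool.Agent.P.MP_dba4bb_co.Ex
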