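import Pool.Agent.P.MP_dba4bb_co.Ex.S1

/-! The preimages of the bottom vertices and of the top vertices. -/

namespace Pool.Agent.P.MP_dba4bb_co.Ex

open Set

namespace Vs

theorem unit2 {A B : ℝ} (hA : 0 ≤ A) (hA2 : A ≤ 2) (hB : 0 ≤ B) (hB2 : B ≤ 2)
    (h5 : 5 ≤ (A - 2) ^ 2 + (B - 2) ^ 2) (h1 : 1 ≤ A ^ 2 + B ^ 2) :
    (A = 1 ∧ B = 0) ∨ (A = 0 ∧ B = 1) := by
  have hAB : 0 ≤ A * B := mul_nonneg hA hB
  have s1 : A + B ≤ 3 / 2 := by
    nlinarith [mul_nonneg hA (sub_nonneg.2 hA2), mul_nonneg hB (sub_nonneg.2 hB2)]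
  have s2 : 1 ≤ A + B := by nlinarith
  have s3 : A + B ≤ 1 := by nlinarith
  have s4 : A + B = 1 := le_antisymm s3 s2
  have s5 : A * B = 0 := by nlinarith
  rcases mul_eq_zero.1 s5 with h | h
  · right; exact ⟨h, by linarith⟩
  · left; exact ⟨by linarith, h⟩

theorem unit4 {X Y : ℝ} (hX : |X| ≤ 2) (hY : |Y| ≤ 2)
    (c1 : 5 ≤ (X - 2) ^ 2 + (Y - 2) ^ 2) (c2 : 5 ≤ (X - -2) ^ 2 + (Y - 2) ^ 2)
    (c3 : 5 ≤ (X - -2) ^ 2 + (Y - -2) ^ 2) (c4 : 5 ≤ (X - 2) ^ 2 + (Y - -2) ^ 2)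
    (h1 : 1 ≤ X ^ 2 + Y ^ 2) :
    (X = 1 ∧ Y = 0) ∨ (X = 0 ∧ Y = 1) ∨ (X = -1 ∧ Y = 0) ∨ (X = 0 ∧ Y = -1) := by
  obtain ⟨x1, x2⟩ := abs_le.1 hX
  obtain ⟨y1, y2⟩ := abs_le.1 hY
  rcases le_total 0 X with a | a <;> rcases le_total 0 Y with b | b
  · rcases unit2 a x2 b y2 c1 h1 with h | h
    · exact .inl h
    · exact .inr (.inl h)
  · rcases unit2 (B := -Y) a x2 (by linarith) (by linarith) (by linarith) (by linarith) with h | h
    · exact .inl ⟨h.1, by linarith [h.2]⟩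
    · exact .inr (.inr (.inr ⟨h.1, by linarith [h.2]⟩))
  · rcases unit2 (A := -X) (by linarith) (by linarith) b y2 (by linarith) (by linarith) with h | h
    · exact .inr (.inr (.inl ⟨by linarith [h.1], h.2⟩))
    · exact .inr (.inl ⟨by linarith [h.1], h.2⟩)
  · rcases unit2 (A := -X) (B := -Y) (by linarith) (by linarith) (by linarith) (by linarith)
      (by linarith) (by linarith) with h | h
    · exact .inr (.inr (.inl ⟨by linarith [h.1], by linarith [h.2]⟩))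
    · exact .inr (.inr (.inr ⟨by linarith [h.1], by linarith [h.2]⟩))

theorem LQ {a b x y u v : ℝ} (hu : |x| = u) (hv : |y| = v) (a0 : 0 ≤ a) (a2 : a ≤ 2) (b0 : 0 ≤ b)
    (b2 : b ≤ 2) (y0 : 0 ≤ y) (m : x + y ≤ 1) (e1 : x ^ 2 + y ^ 2 ≤ a ^ 2 + b ^ 2)
    (e2 : (2 + y) ^ 2 + (1 - u) ^ 2 ≤ (2 - a) ^ 2 + (1 - b) ^ 2)
    (e3 : (1 - v) ^ 2 + (2 - x) ^ 2 ≤ (1 - a) ^ 2 + (2 - b) ^ 2) : y = 0 ∧ a = 0 ∧ b = x := by
  rw [abs_of_nonneg y0] at hv
  subst hv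
  have aa : 0 ≤ a * (2 - a) := mul_nonneg a0 (by linarith)
  have bb : 0 ≤ b * (2 - b) := mul_nonneg b0 (by linarith)
  have yy := sq_nonneg y
  have xx := sq_nonneg x
  rcases lt_or_ge x 0 with x0 | x0
  · rw [abs_of_neg x0] at hu
    subst hu
    exfalso
    nlinarith
  · rw [abs_of_nonneg x0] at hu
    subst hu
    rcases lt_or_ge x b with t | t
    · exfalso
      have h1 : 4 * y ≤ (b - x) * (b + x - 2) := by nlinarith
      have h2 : (b - x) * (4 - b - x) ≤ 2 * y := by nlinarith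
      have h3 : 0 < (b - x) * (10 - 3 * (b + x)) := mul_pos (by linarith) (by linarith)
      nlinarith
    · have h1 : (x - b) ^ 2 ≤ a ^ 2 := by nlinarith [mul_nonneg (sub_nonneg.2 t) b0]
      have h2 : x - b ≤ a := abs_le_of_sq_le_sq' h1 a0 |>.2
      have h3 : 4 * y + y ^ 2 + 4 * a - a ^ 2 ≤ 2 * (x - b) := by
        nlinarith [mul_nonneg (sub_nonneg.2 t) (add_nonneg x0 b0)]
      have h4 : y = 0 := by nlinarith
      have h5 : a ≤ 1 := by nlinarith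
      have h6 : a = 0 := by nlinarith
      exact ⟨h4, h6, by linarith⟩

theorem LN {X Y x y u v : ℝ} (hu : |x| = u) (hv : |y| = v) (X0 : 0 ≤ X) (X2 : X ≤ 2)
    (Y0 : 0 ≤ Y) (Y2 : Y ≤ 2) (m1 : x - y ≤ 1) (m2 : y - x ≤ 1)
    (c : x ^ 2 + y ^ 2 ≤ (X - 2) ^ 2 + (Y - 2) ^ 2)
    (e1 : (1 - v) ^ 2 + (2 - x) ^ 2 ≤ (1 - X) ^ 2 + Y ^ 2)
    (e2 : (2 - y) ^ 2 + (1 - u) ^ 2 ≤ X ^ 2 + (1 - Y) ^ 2) :
    0 ≤ x ∧ 0 ≤ y ∧ (y = 0 → X = 2 ∧ Y = 2 - x) ∧ (x = 0 → X = 2 - y ∧ Y = 2) := by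
  have n1 : y ≤ 0 → y = 0 ∧ X = 2 ∧ Y = 2 - x := fun h => by
    obtain ⟨p, q, r⟩ := LQ (a := 2 - X) (b := 2 - Y) (x := x) (y := -y) hu
      ((abs_neg y).trans hv) (by linarith) (by linarith) (by linarith) (by linarith) (by linarith)
      (by linarith) (by linarith) (by linarith) (by linarith)
    exact ⟨by linarith, by linarith, by linarith⟩
  have n2 : x ≤ 0 → x = 0 ∧ X = 2 - y ∧ Y = 2 := fun h => by
    obtain ⟨p, q, r⟩ := LQ (a := 2 - Y) (b := 2 - X) (x := y) (y := -x) hv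
      ((abs_neg x).trans hu) (by linarith) (by linarith) (by linarith) (by linarith) (by linarith)
      (by linarith) (by linarith) (by linarith) (by linarith)
    exact ⟨by linarith, by linarith, by linarith⟩
  refine ⟨?_, ?_, fun h => (n1 h.le).2, fun h => (n2 h.le).2⟩
  · rcases le_total 0 x with h | h
    · exact h
    · exact (n2 h).1.ge
  · rcases le_total 0 y with h | h
    · exact h
    · exact (n1 h).1.ge

/-- the preimages of the four bottom vertices -/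
structure Pw (F : P2 → P3) : Prop where
  p1 : F (1, 0) = cp 1 0 0
  p2 : F (0, 1) = cp 0 1 0
  p3 : F (-1, 0) = cp (-1) 0 0
  p4 : F (0, -1) = cp 0 (-1) 0

variable {F : P2 → P3}

theorem quad (h : Cover 1 2 2 F) (s : Std1 F) (w : Pw F) {σ τ : ℝ} (hσ : σ = 1 ∨ σ = -1)
    (hτ : τ = 1 ∨ τ = -1) {P : P2} {x y : ℝ} (X0 : 0 ≤ σ * P.1) (X2 : σ * P.1 ≤ 2)
    (Y0 : 0 ≤ τ * P.2) (Y2 : τ * P.2 ≤ 2) (hP : F P = cp x y 1) :
    0 ≤ σ * x ∧ 0 ≤ τ * y ∧ (τ * y = 0 → σ * P.1 = 2 ∧ τ * P.2 = 2 - σ * x) ∧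
      (σ * x = 0 → σ * P.1 = 2 - τ * y ∧ τ * P.2 = 2) := by
  have m := hP ▸ h.mem P
  obtain ⟨⟨m1, m2⟩, ⟨m3, m4⟩, -⟩ := m
  simp only [cp] at m1 m2 m3 m4
  have v1 := h.v1 w.p1 hP
  have v2 := h.v2 w.p2 hP
  have v3 := h.v3 w.p3 hP
  have v4 := h.v4 w.p4 hP
  have cN := h.eu hP s.cN
  have cW := h.eu hP s.cW
  have cS := h.eu hP s.cS
  have cE := h.eu hP s.cE
  simp only [d2] at v1 v2 v3 v4 cN cW cS cE
  have au : |σ * x| = |x| := by rcases hσ with rfl | rfl <;> simp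
  have av : |τ * y| = |y| := by rcases hτ with rfl | rfl <;> simp
  refine LN au av X0 X2 Y0 Y2 ?_ ?_ ?_ ?_ ?_ <;>
    rcases hσ with rfl | rfl <;> rcases hτ with rfl | rfl <;> linarith

theorem pre (h : Cover 1 2 2 F) (s : Std1 F) (w : Pw F) {σ τ : ℝ} (hσ : σ = 1 ∨ σ = -1)
    (hτ : τ = 1 ∨ τ = -1) {x y : ℝ} (x0 : 0 < σ * x) (y0 : 0 < τ * y) (m : σ * x + τ * y ≤ 1) :
    ∃ P : P2, (0 ≤ σ * P.1 ∧ σ * P.1 ≤ 2 ∧ 0 ≤ τ * P.2 ∧ τ * P.2 ≤ 2) ∧ F P = cp x y 1 := by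
  have hq : cp x y 1 ∈ Sf := by
    refine top_mem ?_ ?_ ?_ ?_ <;>
      rcases hσ with rfl | rfl <;> rcases hτ with rfl | rfl <;> linarith
  obtain ⟨P, h1, h2, hP⟩ := h.surj _ hq
  obtain ⟨a1, a2⟩ := abs_le.1 h1
  obtain ⟨b1, b2⟩ := abs_le.1 h2
  have nσ : -σ = 1 ∨ -σ = -1 := by rcases hσ with rfl | rfl <;> simp
  have nτ : -τ = 1 ∨ -τ = -1 := by rcases hτ with rfl | rfl <;> simp
  have A1 : σ * P.1 ≤ 2 := by rcases hσ with rfl | rfl <;> linarith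
  have A2 : -σ * P.1 ≤ 2 := by rcases hσ with rfl | rfl <;> linarith
  have B1 : τ * P.2 ≤ 2 := by rcases hτ with rfl | rfl <;> linarith
  have B2 : -τ * P.2 ≤ 2 := by rcases hτ with rfl | rfl <;> linarith
  rcases le_total 0 (σ * P.1) with a | a <;> rcases le_total 0 (τ * P.2) with b | b
  · exact ⟨P, ⟨a, A1, b, B1⟩, hP⟩
  · have := (quad h s w hσ nτ a A1 (by linarith) B2 hP).2.1
    linarith
  · have := (quad h s w nσ hτ (by linarith) A2 b B1 hP).1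
    linarith
  · have := (quad h s w nσ nτ (by linarith) A2 (by linarith) B2 hP).1
    linarith

theorem pre0 (h : Cover 1 2 2 F) (s : Std1 F) (w : Pw F) {σ τ : ℝ} (hσ : σ = 1 ∨ σ = -1)
    (hτ : τ = 1 ∨ τ = -1) {x y : ℝ} (x0 : 0 ≤ σ * x) (y0 : 0 ≤ τ * y) (m : σ * x + τ * y ≤ 1) :
    ∃ P : P2, (0 ≤ σ * P.1 ∧ σ * P.1 ≤ 2 ∧ 0 ≤ τ * P.2 ∧ τ * P.2 ≤ 2) ∧ F P = cp x y 1 := by
  set K : Set P2 := {P | 0 ≤ σ * P.1 ∧ σ * P.1 ≤ 2 ∧ 0 ≤ τ * P.2 ∧ τ * P.2 ≤ 2} with hK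
  have cK : IsCompact K := by
    refine (isCompact_Icc (a := ((-2, -2) : P2)) (b := (2, 2))).of_isClosed_subset ?_ ?_
    · have c1 : Continuous fun P : P2 => σ * P.1 := by fun_prop
      have c2 : Continuous fun P : P2 => τ * P.2 := by fun_prop
      exact (isClosed_le continuous_const c1).inter ((isClosed_le c1 continuous_const).inter
        ((isClosed_le continuous_const c2).inter (isClosed_le c2 continuous_const)))
    · rintro P ⟨p1, p2, p3, p4⟩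
      refine ⟨⟨?_, ?_⟩, ⟨?_, ?_⟩⟩ <;> simp only <;>
        rcases hσ with rfl | rfl <;> rcases hτ with rfl | rfl <;> linarith
  have cI : IsClosed (F '' K) := (cK.image h.cont).isClosed
  have σσ : σ * σ = 1 := by rcases hσ with rfl | rfl <;> norm_num
  have ττ : τ * τ = 1 := by rcases hτ with rfl | rfl <;> norm_num
  let γ : ℝ → P3 := fun t => cp ((1 - t) * x + t * σ / 3) ((1 - t) * y + t * τ / 3) 1
  have cγ : Continuous γ := by unfold γ cp; fun_prop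
  have hsub : Ioc (0 : ℝ) 1 ⊆ γ ⁻¹' (F '' K) := fun t ⟨t0, t1⟩ => by
    have e1 : σ * ((1 - t) * x + t * σ / 3) = (1 - t) * (σ * x) + t / 3 := by
      linear_combination (t / 3) * σσ
    have e2 : τ * ((1 - t) * y + t * τ / 3) = (1 - t) * (τ * y) + t / 3 := by
      linear_combination (t / 3) * ττ
    have t2 : 0 ≤ 1 - t := by linarith
    exact pre h s w hσ hτ (by rw [e1]; nlinarith [mul_nonneg t2 x0])
      (by rw [e2]; nlinarith [mul_nonneg t2 y0])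
      (by rw [e1, e2]; nlinarith [mul_nonneg t2 (sub_nonneg.2 m)])
  have h0 : (0 : ℝ) ∈ γ ⁻¹' (F '' K) := by
    refine closure_minimal hsub (cI.preimage cγ) ?_
    rw [closure_Ioc zero_ne_one]
    exact ⟨le_rfl, zero_le_one⟩
  obtain ⟨P, hP, e⟩ := h0
  exact ⟨P, hP, by rw [e]; simp [γ]⟩

theorem vA (h : Cover 1 2 2 F) (s : Std1 F) (w : Pw F) {σ τ : ℝ} (hσ : σ = 1 ∨ σ = -1)
    (hτ : τ = 1 ∨ τ = -1) {X : ℝ} (hX : X = 2 * σ) : F (X, τ) = cp σ 0 1 := by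
  have σσ : σ * σ = 1 := by rcases hσ with rfl | rfl <;> norm_num
  obtain ⟨P, ⟨p1, p2, p3, p4⟩, hP⟩ := pre0 h s w hσ hτ (x := σ) (y := 0) (by linarith)
    (by linarith) (by linarith)
  obtain ⟨q1, q2⟩ := (quad h s w hσ hτ p1 p2 p3 p4 hP).2.2.1 (mul_zero _)
  rw [← hP]
  congr 1
  refine Prod.ext ?_ ?_ <;> simp only <;>
    rcases hσ with rfl | rfl <;> rcases hτ with rfl | rfl <;> linarith

theorem vB (h : Cover 1 2 2 F) (s : Std1 F) (w : Pw F) {σ τ : ℝ} (hσ : σ = 1 ∨ σ = -1)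
    (hτ : τ = 1 ∨ τ = -1) {Y : ℝ} (hY : Y = 2 * τ) : F (σ, Y) = cp 0 τ 1 := by
  have ττ : τ * τ = 1 := by rcases hτ with rfl | rfl <;> norm_num
  obtain ⟨P, ⟨p1, p2, p3, p4⟩, hP⟩ := pre0 h s w hσ hτ (x := 0) (y := τ) (by linarith)
    (by linarith) (by linarith)
  obtain ⟨q1, q2⟩ := (quad h s w hσ hτ p1 p2 p3 p4 hP).2.2.2 (mul_zero _)
  rw [← hP]
  congr 1
  refine Prod.ext ?_ ?_ <;> simp only <;>
    rcases hσ with rfl | rfl <;> rcases hτ with rfl | rfl <;> linarith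

end Vs

theorem sWs : SWs := by
  intro F h s P hX hY
  have fin : ∀ {X Y : ℝ}, P.1 = X ∧ P.2 = Y → P = (X, Y) := fun e => Prod.ext e.1 e.2
  refine ⟨fun hP => ?_, fun hP => ?_, fun hP => ?_, fun hP => ?_⟩
  all_goals
    have o := h.eu hP s.o
    have mN := h.eu hP s.mN
    have mW := h.eu hP s.mW
    have mS := h.eu hP s.mS
    have mE := h.eu hP s.mE
  · have cN := h.v1 hP s.cN
    have cW := h.v1 hP s.cW
    have cS := h.v1 hP s.cS
    have cE := h.v1 hP s.cE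
    simp only [d2, abs_zero] at o mN mW mS mE cN cW cS cE
    rcases Vs.unit4 hX hY (by linarith) (by linarith) (by linarith) (by linarith) (by linarith)
      with e | e | e | e
    · exact fin e
    all_goals
      rw [e.1, e.2] at mN mW mS mE
      exfalso
      linarith
  · have cN := h.v2 hP s.cN
    have cW := h.v2 hP s.cW
    have cS := h.v2 hP s.cS
    have cE := h.v2 hP s.cE
    simp only [d2, abs_zero] at o mN mW mS mE cN cW cS cE
    rcases Vs.unit4 hX hY (by linarith) (by linarith) (by linarith) (by linarith) (by linarith)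
      with e | e | e | e
    rotate_left
    · exact fin e
    all_goals
      rw [e.1, e.2] at mN mW mS mE
      exfalso
      linarith
  · have cN := h.v3 hP s.cN
    have cW := h.v3 hP s.cW
    have cS := h.v3 hP s.cS
    have cE := h.v3 hP s.cE
    simp only [d2, abs_zero] at o mN mW mS mE cN cW cS cE
    rcases Vs.unit4 hX hY (by linarith) (by linarith) (by linarith) (by linarith) (by linarith)
      with e | e | e | e
    rotate_left 2
    · exact fin e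
    all_goals
      rw [e.1, e.2] at mN mW mS mE
      exfalso
      linarith
  · have cN := h.v4 hP s.cN
    have cW := h.v4 hP s.cW
    have cS := h.v4 hP s.cS
    have cE := h.v4 hP s.cE
    simp only [d2, abs_zero] at o mN mW mS mE cN cW cS cE
    rcases Vs.unit4 hX hY (by linarith) (by linarith) (by linarith) (by linarith) (by linarith)
      with e | e | e | e
    rotate_left 3
    · exact fin e
    all_goals
      rw [e.1, e.2] at mN mW mS mE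
      exfalso
      linarith

theorem sVs : SVs := by
  intro hW F h s
  have w : Vs.Pw F := by
    refine ⟨?_, ?_, ?_, ?_⟩
    · obtain ⟨P, a, b, e⟩ := h.surj (cp 1 0 0) (by norm_num [cp, Sf])
      rw [← (hW F h s P a b).1 e, e]
    · obtain ⟨P, a, b, e⟩ := h.surj (cp 0 1 0) (by norm_num [cp, Sf])
      rw [← (hW F h s P a b).2.1 e, e]
    · obtain ⟨P, a, b, e⟩ := h.surj (cp (-1) 0 0) (by norm_num [cp, Sf])
      rw [← (hW F h s P a b).2.2.1 e, e]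
    · obtain ⟨P, a, b, e⟩ := h.surj (cp 0 (-1) 0) (by norm_num [cp, Sf])
      rw [← (hW F h s P a b).2.2.2 e, e]
  have p : (1 : ℝ) = 1 ∨ (1 : ℝ) = -1 := .inl rfl
  have n : (-1 : ℝ) = 1 ∨ (-1 : ℝ) = -1 := .inr rfl
  exact ⟨w.p1, w.p2, w.p3, w.p4, Vs.vA h s w p p (by norm_num), Vs.vA h s w p n (by norm_num),
    Vs.vB h s w p p (by norm_num), Vs.vB h s w n p (by norm_num), Vs.vA h s w n p (by norm_num),
    Vs.vA h s w n n (by norm_num), Vs.vB h s w n n (by norm_num), Vs.vB h s w p n (by norm_num)⟩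

end Pool.Agent.P.MP_dba4bb_co.Ex
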