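import Pool.Agent.P.MP_dba4bb_co.Ex.S1

/-! The nodes on the top face and the floating nodes. -/

namespace Pool.Agent.P.MP_dba4bb_co.Ex

open Set

namespace ZK

variable {ε η k a b : ℝ} {F : P2 → P3} {q : P3}

theorem closed_box (h : Continuous F) (x x' y y' : ℝ) {A : Set P3}
    (e : ∀ q, q ∈ A ↔ ∃ P : P2, ((x ≤ P.1 ∧ P.1 ≤ x') ∧ y ≤ P.2 ∧ P.2 ≤ y') ∧ F P = q) :
    IsClosed A := by
  rw [show A = F '' (Icc x x' ×ˢ Icc y y') from Set.ext e]
  exact ((isCompact_Icc.prod isCompact_Icc).image h).isClosed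

theorem cN (h : Continuous F) : IsClosed (QN a b F) :=
  closed_box h 0 a 0 b fun _ => exists_congr fun _ => by tauto

theorem cW (h : Continuous F) : IsClosed (QW a b F) :=
  closed_box h (-a) 0 0 b fun _ => exists_congr fun _ => by tauto

theorem cS (h : Continuous F) : IsClosed (QS a b F) :=
  closed_box h (-a) 0 (-b) 0 fun _ => exists_congr fun _ => by tauto

theorem cE (h : Continuous F) : IsClosed (QE a b F) :=
  closed_box h 0 a (-b) 0 fun _ => exists_congr fun _ => by tauto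

theorem four (h : Cover k a b F) (hq : q ∈ Sf) :
    q ∈ QN a b F ∨ q ∈ QW a b F ∨ q ∈ QS a b F ∨ q ∈ QE a b F := by
  obtain ⟨P, h1, h2, h3⟩ := h.surj q hq
  rw [abs_le] at h1 h2
  rcases le_total 0 P.1 with a1 | a1 <;> rcases le_total 0 P.2 with a2 | a2
  · exact Or.inl ⟨P, a1, h1.2, a2, h2.2, h3⟩
  · exact Or.inr (Or.inr (Or.inr ⟨P, a1, h1.2, a2, h2.1, h3⟩))
  · exact Or.inr (Or.inl ⟨P, a1, h1.1, a2, h2.2, h3⟩)
  · exact Or.inr (Or.inr (Or.inl ⟨P, a1, h1.1, a2, h2.1, h3⟩))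

variable {x y z : ℝ}

theorem sgN (h : Ok ε η k a b F) (hz : 1 - η ≤ z) (hq : cp x y z ∈ QN a b F) :
    -(1 / 100) ≤ x ∧ -(1 / 100) ≤ y := by
  obtain ⟨P, h1, h2, h3, h4, e⟩ := hq
  have := h.near.tN P h1 (by linarith [h.a2, h.η0]) h3 (h4.trans h.b2) (by rwa [e, cz_cp])
  rw [e, cx_cp, cy_cp, abs_le, abs_le] at this
  constructor <;> linarith [this.1.1, this.2.1, h.a2, h.b2, h.ηε, h.ε1]

theorem sgW (h : Ok ε η k a b F) (hz : 1 - η ≤ z) (hq : cp x y z ∈ QW a b F) :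
    x ≤ 1 / 100 ∧ -(1 / 100) ≤ y := by
  obtain ⟨P, h1, h2, h3, h4, e⟩ := hq
  have := h.near.tW P h1 (by linarith [h.a2, h.η0]) h3 (h4.trans h.b2) (by rwa [e, cz_cp])
  rw [e, cx_cp, cy_cp, abs_le, abs_le] at this
  constructor <;> linarith [this.1.2, this.2.1, h.a2, h.b2, h.ηε, h.ε1]

theorem sgS (h : Ok ε η k a b F) (hz : 1 - η ≤ z) (hq : cp x y z ∈ QS a b F) :
    x ≤ 1 / 100 ∧ y ≤ 1 / 100 := by
  obtain ⟨P, h1, h2, h3, h4, e⟩ := hq
  have := h.near.tS P h1 (by linarith [h.a2, h.η0]) h3 (by linarith [h.b2]) (by rwa [e, cz_cp])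
  rw [e, cx_cp, cy_cp, abs_le, abs_le] at this
  constructor <;> linarith [this.1.2, this.2.2, h.a2, h.b2, h.ηε, h.ε1]

theorem sgE (h : Ok ε η k a b F) (hz : 1 - η ≤ z) (hq : cp x y z ∈ QE a b F) :
    -(1 / 100) ≤ x ∧ y ≤ 1 / 100 := by
  obtain ⟨P, h1, h2, h3, h4, e⟩ := hq
  have := h.near.tE P h1 (by linarith [h.a2, h.η0]) h3 (by linarith [h.b2]) (by rwa [e, cz_cp])
  rw [e, cx_cp, cy_cp, abs_le, abs_le] at this
  constructor <;> linarith [this.1.1, this.2.2, h.a2, h.b2, h.ηε, h.ε1]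

theorem common {A B : Set P3} {γ : ℝ → P3} (hA : IsClosed A) (hB : IsClosed B) (hγ : Continuous γ)
    (h : ∀ t, -(1 / 4) ≤ t → t ≤ 1 / 4 → γ t ∈ A ∨ γ t ∈ B) (h1 : γ (-(1 / 4)) ∉ A)
    (h2 : γ (1 / 4) ∉ B) : ∃ t, -(1 / 4) ≤ t ∧ t ≤ 1 / 4 ∧ γ t ∈ A ∧ γ t ∈ B := by
  have a1 : (1 / 4 : ℝ) ∈ Icc (-(1 / 4) : ℝ) (1 / 4) := by norm_num
  have a2 : (-(1 / 4) : ℝ) ∈ Icc (-(1 / 4) : ℝ) (1 / 4) := by norm_num
  obtain ⟨t, b1, b2⟩ := isPreconnected_closed_iff.1 isPreconnected_Icc _ _ (hA.preimage hγ)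
    (hB.preimage hγ) (fun t ht => h t ht.1 ht.2) ⟨_, a1, (h _ a1.1 a1.2).resolve_right h2⟩
    ⟨_, a2, (h _ a2.1 a2.2).resolve_left h1⟩
  exact ⟨t, b1.1, b1.2, b2⟩

theorem NE (h : Ok ε η k a b F) (hz : 1 - η ≤ z) (hq : cp x y z ∈ Sf) (hx : 1 / 100 < x) :
    cp x y z ∈ QN a b F ∨ cp x y z ∈ QE a b F := by
  rcases four h.cov hq with e | e | e | e
  exacts [Or.inl e, absurd (sgW h hz e).1 hx.not_ge, absurd (sgS h hz e).1 hx.not_ge, Or.inr e]

theorem WS (h : Ok ε η k a b F) (hz : 1 - η ≤ z) (hq : cp x y z ∈ Sf) (hx : x < -(1 / 100)) :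
    cp x y z ∈ QW a b F ∨ cp x y z ∈ QS a b F := by
  rcases four h.cov hq with e | e | e | e
  exacts [absurd (sgN h hz e).1 hx.not_ge, Or.inl e, Or.inr e, absurd (sgE h hz e).1 hx.not_ge]

theorem NW (h : Ok ε η k a b F) (hz : 1 - η ≤ z) (hq : cp x y z ∈ Sf) (hy : 1 / 100 < y) :
    cp x y z ∈ QN a b F ∨ cp x y z ∈ QW a b F := by
  rcases four h.cov hq with e | e | e | e
  exacts [Or.inl e, Or.inr e, absurd (sgS h hz e).2 hy.not_ge, absurd (sgE h hz e).2 hy.not_ge]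

theorem ES (h : Ok ε η k a b F) (hz : 1 - η ≤ z) (hq : cp x y z ∈ Sf) (hy : y < -(1 / 100)) :
    cp x y z ∈ QE a b F ∨ cp x y z ∈ QS a b F := by
  rcases four h.cov hq with e | e | e | e
  exacts [absurd (sgN h hz e).2 hy.not_ge, absurd (sgW h hz e).2 hy.not_ge, Or.inr e, Or.inl e]

theorem one (h : Ok ε η k a b F) : 1 - η ≤ 1 := by linarith [h.η0]

theorem z1 (h : Ok ε η k a b F) : ∃ t, cp (1 - |t|) t 1 ∈ QN a b F ∧ cp (1 - |t|) t 1 ∈ QE a b F ∧
    (t ≤ 0 ∨ ¬ Q1 a b F) := by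
  by_cases e : Q1 a b F
  · obtain ⟨t, -, a2, a3⟩ := e
    refine ⟨t, ?_⟩
    rw [abs_of_nonpos a2, sub_neg_eq_add]
    exact ⟨a3.1, a3.2, Or.inl a2⟩
  obtain ⟨t, -, -, a1, a2⟩ := common (γ := fun t => cp (1 - |t|) t 1) (cN h.cov.cont)
    (cE h.cov.cont) (by unfold cp; fun_prop) (fun t a1 a2 => by
      have := abs_le.2 ⟨a1, a2⟩
      have := le_abs_self t
      have := neg_abs_le t
      exact NE h (one h) (top_mem (by linarith) (by linarith) (by linarith) (by linarith))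
        (by linarith))
    (fun e => by linarith [(sgN h (one h) e).2]) fun e => by linarith [(sgE h (one h) e).2]
  exact ⟨t, a1, a2, Or.inr e⟩

theorem z3 (h : Ok ε η k a b F) : ∃ t, cp (-1 + |t|) t 1 ∈ QW a b F ∧
    cp (-1 + |t|) t 1 ∈ QS a b F ∧ (0 ≤ t ∨ ¬ Q3 a b F) := by
  by_cases e : Q3 a b F
  · obtain ⟨t, a2, -, a3⟩ := e
    refine ⟨t, ?_⟩
    rw [abs_of_nonneg a2]
    exact ⟨a3.1, a3.2, Or.inl a2⟩
  obtain ⟨t, -, -, a1, a2⟩ := common (γ := fun t => cp (-1 + |t|) t 1) (cW h.cov.cont)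
    (cS h.cov.cont) (by unfold cp; fun_prop) (fun t a1 a2 => by
      have := abs_le.2 ⟨a1, a2⟩
      have := le_abs_self t
      have := neg_abs_le t
      exact WS h (one h) (top_mem (by linarith) (by linarith) (by linarith) (by linarith))
        (by linarith))
    (fun e => by linarith [(sgW h (one h) e).2]) fun e => by linarith [(sgS h (one h) e).2]
  exact ⟨t, a1, a2, Or.inr e⟩

theorem tilt (h : Ok ε η k a b F) (e : ¬ Q1 a b F) {C S : ℝ} (c1 : 1 / 2 ≤ C) (c2 : C ≤ 1)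
    (s1 : 0 ≤ S) (s2 : S ≤ η) : ∃ ρ, 0 < ρ ∧ ρ ≤ 1 / 4 ∧
      cp (1 - C * ρ) (C * ρ) (1 - S * ρ) ∈ QN a b F ∧
        cp (1 - C * ρ) (C * ρ) (1 - S * ρ) ∈ QE a b F := by
  have s3 : η ≤ 1 / 1000 := h.ηε.trans h.ε1
  obtain ⟨t, a1, a2, a3⟩ := common (γ := fun r => cp (1 - C * max r 0 - max (-r) 0)
    (C * max r 0 - max (-r) 0) (1 - S * max r 0)) (cN h.cov.cont) (cE h.cov.cont)
    (by unfold cp; fun_prop) (fun t a1 a2 => by
      rcases le_total t 0 with a3 | a3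
      · simp only [max_eq_right a3, max_eq_left (neg_nonneg.2 a3), mul_zero, sub_zero]
        exact NE h (one h) (top_mem (by linarith) (by linarith) (by linarith) (by linarith))
          (by linarith)
      · simp only [max_eq_left a3, max_eq_right (neg_nonpos.2 a3), sub_zero]
        have b1 : C * t ≤ 1 / 4 := by nlinarith
        have b2 : 0 ≤ C * t := by positivity
        have b3 : S * t ≤ η := by nlinarith
        have b4 : 0 ≤ S * t := by positivity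
        refine NE h (by linarith) ?_ (by linarith)
        refine ⟨⟨?_, ?_⟩, ⟨?_, ?_⟩, ⟨?_, ?_⟩, Or.inl ?_⟩ <;> simp only [cp] <;> linarith)
    (fun e => by
      have := (sgN h (by norm_num [h.η0]) e).2
      norm_num at this) fun e => by
      have := (sgE h (by norm_num; linarith) e).2
      norm_num at this
      linarith
  rcases le_or_gt t 0 with a4 | a4
  · simp only [max_eq_right a4, max_eq_left (neg_nonneg.2 a4), mul_zero, sub_zero, sub_neg_eq_add,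
      zero_add] at a3
    exact absurd ⟨t, by linarith, a4, a3⟩ e
  · simp only [max_eq_left a4.le, max_eq_right (neg_nonpos.2 a4.le), sub_zero] at a3
    exact ⟨t, a4, a2, a3⟩

theorem near3 {p : P3} (h0 : 0 ≤ ε) (h : e2 q p ≤ ε ^ 2) :
    |q.1 - p.1| ≤ ε ∧ |q.2.1 - p.2.1| ≤ ε ∧ |q.2.2 - p.2.2| ≤ ε := by
  unfold e2 at h
  have h1 := sq_nonneg (q.1 - p.1)
  have h2 := sq_nonneg (q.2.1 - p.2.1)
  have h3 := sq_nonneg (q.2.2 - p.2.2)
  exact ⟨abs_le_of_sq_le_sq (by linarith) h0, abs_le_of_sq_le_sq (by linarith) h0,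
    abs_le_of_sq_le_sq (by linarith) h0⟩

end ZK

open ZK

theorem sZ : SZ := by
  intro ε η k a b F h
  refine ⟨?_, fun e C S c1 c2 s1 s2 => tilt h e c1 c2 s1 s2⟩
  obtain ⟨p2, h2⟩ := h.cov.surj (cp 0 1 0) (by norm_num [cp, Sf])
  obtain ⟨p4, h4⟩ := h.cov.surj (cp 0 (-1) 0) (by norm_num [cp, Sf])
  obtain ⟨h1, ⟨A, hA⟩, ⟨B, hB⟩, e1⟩ := z1 h
  obtain ⟨h3, ⟨C, hC⟩, ⟨D, hD⟩, e3⟩ := z3 h
  exact ⟨_, p2, p4, A, B, C, D, h1, h3, h2, h4, hA, hB, hC, hD, e1, e3, rfl⟩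

theorem sK : SK := by
  intro ε η k a b F h
  have hc := h.cov.cont
  have o := one h
  have e0 : 0 ≤ ε := h.η0.trans h.ηε
  have e1 := h.ε1
  refine ⟨⟨?_, ?_, ?_, ?_⟩, ⟨?_, ?_, ?_, ?_, ?_⟩, fun s z s1 s2 z1 z2 => ⟨?_, ?_, ?_, ?_⟩⟩
  · obtain ⟨t, -, -, a⟩ := common (γ := fun t => cp (1 / 2) t 1) (cN hc) (cE hc)
      (by unfold cp; fun_prop) (fun t a1 a2 => NE h o
        (top_mem (by linarith) (by linarith) (by linarith) (by linarith)) (by norm_num))
      (fun e => by linarith [(sgN h o e).2]) fun e => by linarith [(sgE h o e).2]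
    exact ⟨t, a⟩
  · obtain ⟨t, -, -, a⟩ := common (γ := fun t => cp t (1 / 2) 1) (cN hc) (cW hc)
      (by unfold cp; fun_prop) (fun t a1 a2 => NW h o
        (top_mem (by linarith) (by linarith) (by linarith) (by linarith)) (by norm_num))
      (fun e => by linarith [(sgN h o e).1]) fun e => by linarith [(sgW h o e).1]
    exact ⟨t, a⟩
  · obtain ⟨t, -, -, a⟩ := common (γ := fun t => cp (-1 / 2) t 1) (cW hc) (cS hc)
      (by unfold cp; fun_prop) (fun t a1 a2 => WS h o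
        (top_mem (by linarith) (by linarith) (by linarith) (by linarith)) (by norm_num))
      (fun e => by linarith [(sgW h o e).2]) fun e => by linarith [(sgS h o e).2]
    exact ⟨t, a⟩
  · obtain ⟨t, -, -, a⟩ := common (γ := fun t => cp t (-1 / 2) 1) (cE hc) (cS hc)
      (by unfold cp; fun_prop) (fun t a1 a2 => ES h o
        (top_mem (by linarith) (by linarith) (by linarith) (by linarith)) (by norm_num))
      (fun e => by linarith [(sgE h o e).1]) fun e => by linarith [(sgS h o e).1]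
    exact ⟨t, a.symm⟩
  · exact (NE h o (top_mem (by norm_num) (by norm_num) (by norm_num) (by norm_num))
      (by norm_num)).resolve_right fun e => by linarith [(sgE h o e).2]
  · exact (NE h o (top_mem (by norm_num) (by norm_num) (by norm_num) (by norm_num))
      (by norm_num)).resolve_right fun e => by linarith [(sgE h o e).2]
  · exact (WS h o (top_mem (by norm_num) (by norm_num) (by norm_num) (by norm_num))
      (by norm_num)).resolve_right fun e => by linarith [(sgS h o e).2]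
  · exact (WS h o (top_mem (by norm_num) (by norm_num) (by norm_num) (by norm_num))
      (by norm_num)).resolve_left fun e => by linarith [(sgW h o e).2]
  · exact (WS h o (top_mem (by norm_num) (by norm_num) (by norm_num) (by norm_num))
      (by norm_num)).resolve_left fun e => by linarith [(sgW h o e).2]
  · obtain ⟨a1, a2, a3⟩ := near3 e0 (h.near.sN s z (by linarith) (by linarith) (by linarith)
      (by linarith))
    obtain ⟨-, -, -, a4⟩ := h.cov.mem (s + z, 1 - s + z)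
    generalize F (s + z, 1 - s + z) = q at *
    obtain ⟨U, V, W⟩ := q
    simp only [cp, abs_le] at *
    have : U = 1 := by rcases a4 with e | e | e | e | e | e <;> linarith [a1.1, a2.1, a2.2, a3.1, a3.2]
    refine ⟨(V - (2 * s - 1)) / 2, (W - (2 * z - 1)) / 2, ⟨?_, ?_⟩, ⟨?_, ?_⟩,
      Prod.ext ?_ (Prod.ext ?_ ?_)⟩ <;> linarith [a2.1, a2.2, a3.1, a3.2]
  · obtain ⟨a1, a2, a3⟩ := near3 e0 (h.near.sW s z (by linarith) (by linarith) (by linarith)
      (by linarith))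
    obtain ⟨-, -, -, a4⟩ := h.cov.mem (-s - z, 1 - s + z)
    generalize F (-s - z, 1 - s + z) = q at *
    obtain ⟨U, V, W⟩ := q
    simp only [cp, abs_le] at *
    have : V = -1 := by rcases a4 with e | e | e | e | e | e <;> linarith [a2.2, a1.1, a1.2, a3.1, a3.2]
    refine ⟨(1 - 2 * s - U) / 2, (W - (2 * z - 1)) / 2, ⟨?_, ?_⟩, ⟨?_, ?_⟩,
      Prod.ext ?_ (Prod.ext ?_ ?_)⟩ <;> linarith [a1.1, a1.2, a3.1, a3.2]
  · obtain ⟨a1, a2, a3⟩ := near3 e0 (h.near.sS s z (by linarith) (by linarith) (by linarith)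
      (by linarith))
    obtain ⟨-, -, -, a4⟩ := h.cov.mem (-s - z, -(1 - s) - z)
    generalize F (-s - z, -(1 - s) - z) = q at *
    obtain ⟨U, V, W⟩ := q
    simp only [cp, abs_le] at *
    have : U = -1 := by rcases a4 with e | e | e | e | e | e <;> linarith [a1.2, a2.1, a2.2, a3.1, a3.2]
    refine ⟨(1 - 2 * s - V) / 2, (W - (2 * z - 1)) / 2, ⟨?_, ?_⟩, ⟨?_, ?_⟩,
      Prod.ext ?_ (Prod.ext ?_ ?_)⟩ <;> linarith [a2.1, a2.2, a3.1, a3.2]
  · obtain ⟨a1, a2, a3⟩ := near3 e0 (h.near.sE s z (by linarith) (by linarith) (by linarith)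
      (by linarith))
    obtain ⟨-, -, -, a4⟩ := h.cov.mem (s + z, -(1 - s) - z)
    generalize F (s + z, -(1 - s) - z) = q at *
    obtain ⟨U, V, W⟩ := q
    simp only [cp, abs_le] at *
    have : V = 1 := by rcases a4 with e | e | e | e | e | e <;> linarith [a2.1, a1.1, a1.2, a3.1, a3.2]
    refine ⟨(U - (2 * s - 1)) / 2, (W - (2 * z - 1)) / 2, ⟨?_, ?_⟩, ⟨?_, ?_⟩,
      Prod.ext ?_ (Prod.ext ?_ ?_)⟩ <;> linarith [a1.1, a1.2, a3.1, a3.2]

end Pool.Agent.P.MP_dba4bb_co.Ex
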