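import Pool.Agent.P.MP_dba4bb_co.Ex.S4
import Pool.Agent.P.MP_dba4bb_co.Ex.Centre
import Pool.Agent.P.MP_dba4bb_co.Ex.Corner
import Pool.Agent.P.MP_dba4bb_co.Ex.Vs
import Pool.Agent.P.MP_dba4bb_co.Ex.Std
import Pool.Agent.P.MP_dba4bb_co.Ex.R0
import Pool.Agent.P.MP_dba4bb_co.Ex.NS
import Pool.Agent.P.MP_dba4bb_co.Ex.ZK
import Pool.Agent.P.MP_dba4bb_co.Ex.Cone
import Pool.Agent.P.MP_dba4bb_co.Ex.Par
import Pool.Agent.P.MP_dba4bb_co.Ex.Psi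
import Pool.Agent.P.MP_dba4bb_co.Ex.Liso
import Pool.Agent.P.MP_dba4bb_co.Ex.LsurA
import Pool.Agent.P.MP_dba4bb_co.Ex.LsurN
import Pool.Agent.P.MP_dba4bb_co.Ex.LsurT
import Pool.Agent.P.MP_dba4bb_co.Ex.Linj
import Pool.Agent.P.MP_dba4bb_co.Ex.Lfin
import Pool.Agent.P.MP_dba4bb_co.Ex.Rows

/-! The top level assembly. -/

namespace Pool.Agent.P.MP_dba4bb_co.Ex

open Set

namespace Top

theorem sSq : SSq := by
  intro F hF
  obtain ⟨g, hg, h0⟩ := sCentre F hF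
  obtain ⟨g', hg', h1⟩ := sCorner _ (hF.sym hg) h0
  have hc := (hF.sym hg).sym hg'
  exact ⟨fun q => g' (g q), hg'.comp hg, sStd sWs _ hc h1 (sVs sWs _ hc h1)⟩

theorem poly_closed {F : Set ℂ} (h : Poly F) : IsClosed F := by
  obtain ⟨L, rfl⟩ := h
  have : {p : ℂ | ∀ c ∈ L, c.1 * p.re + c.2.1 * p.im ≤ c.2.2} =
      ⋂ c ∈ L, {p : ℂ | c.1 * p.re + c.2.1 * p.im ≤ c.2.2} := by
    ext p
    simp
  rw [this]
  exact isClosed_iInter fun c => isClosed_iInter fun _ =>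
    isClosed_le (by fun_prop) continuous_const

theorem wraps_of_folds {x y s : ℝ} (h : Folds x y s) : Wraps x y s := by
  obtain ⟨f, -, 𝓕, h1, h2, h3, h4, -⟩ := h
  exact ⟨f, 𝓕, h1, h2, fun F hF => ⟨poly_closed (h3 F hF).1,
    fun p hp q hq => ((h3 F hF).2 p hp q hq).le⟩, h4⟩

theorem core (hGeo : SGeo) (hFin : SFin) (hG3 : SG3) (hES : SES) (hR3 : SR3)
    {η β t C S ρ x y h Δ σ : ℝ} {F : P2 → P3} (hp : Par β t C S ρ x y h)
    (h1 : 2 * t < β ^ 2 * Δ) (h2 : β ^ 2 * Δ ≤ 2 * t + β ^ 3) (hS : S ≤ η)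
    (hok : Ok (1 / 20000) η (1 + t ^ 2) (2 - β ^ 2 * Δ) (2 + β) F)
    (hns : NS (2 - β ^ 2 * Δ) (2 + β) F) (hz : ZD (2 - β ^ 2 * Δ) (2 + β) F σ) (hσ : σ ≤ 0) :
    False := by
  have hβ := hp.β0
  have hβ1 := hp.β1
  obtain ⟨c, hg, hw, hb, hq⟩ := hGeo sK _ _ _ _ _ _ _ hβ hok hns hz hσ
  have hM : β * (3 * (1 / 20000) / β) = 3 / 20000 := by field_simp
  have hΔ : 4 + 499 / 100 * β ≤ 4 * Δ := by
    have h3 : β ^ 2 * (1 + 12475 / 10000 * β) ≤ β ^ 2 * Δ := hp.t2.trans h1.le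
    have h4 := le_of_mul_le_mul_left h3 (pow_pos hβ 2)
    linarith
  obtain ⟨a1, a2, a3, a4⟩ := hFin β Δ _ c hβ hβ1 hΔ
    (rows_of_geo hok.cov.weak hg hb hβ (by rw [hM]; norm_num)) hw hb hM.le
  have hC : 1 / 2 ≤ C := by
    have := hp.C0
    nlinarith
  have hS0 : 0 ≤ S := by
    have := hp.S0
    linarith
  have hnode := (sZ _ _ _ _ _ _ hok).2 (hq.resolve_left (not_le.2 a1)) C S hC hp.C1 hS0 hS
  obtain ⟨e, e1, e2, e3, e4⟩ := hG3 _ _ _ _ _ _ _ _ _ _ _ _ _ _ hp h1.le h2 hS hok hg hw a4 a2 a3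
    hnode
  exact absurd (hR3 hES _ _ _ _ _ _ _ _ _ _ _ _ _ hp h1.le h2 hok.cov e1 e2 e3 e4) (not_le.2 h1)

theorem core2 (hGeo : SGeo) (hFin : SFin) (hG3 : SG3) (hES : SES) (hR3 : SR3)
    {η β t C S ρ x y h Δ : ℝ} {F : P2 → P3} (hp : Par β t C S ρ x y h)
    (h1 : 2 * t < β ^ 2 * Δ) (h2 : β ^ 2 * Δ ≤ 2 * t + β ^ 3) (hS : S ≤ η)
    (hok : Ok (1 / 20000) η (1 + t ^ 2) (2 - β ^ 2 * Δ) (2 + β) F)
    (hns : NS (2 - β ^ 2 * Δ) (2 + β) F) : False := by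
  obtain ⟨σ, hz⟩ := (sZ _ _ _ _ _ _ hok).1
  rcases le_total σ 0 with hσ | hσ
  · exact core hGeo hFin hG3 hES hR3 hp h1 h2 hS hok hns hz hσ
  · obtain ⟨s1, s2, s3⟩ := sSymm (1 / 20000) η (1 + t ^ 2) (2 - β ^ 2 * Δ) (2 + β) F
    exact core hGeo hFin hG3 hES hR3 hp h1 h2 hS (s1 hok).2 (s2 hns) (s3 σ hz) (by linarith)

end Top

theorem sTop : STop := by
  intro hGeo hFin hG3 hES hR3
  obtain ⟨η, hη, hηε, hR⟩ := sR0 Top.sSq (1 / 20000) (by norm_num)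
  obtain ⟨ε, hε, hI⟩ := sIvt (min (η / 10) (1 / 10 ^ 41)) (lt_min (by linarith) (by norm_num))
  refine ⟨ε, hε, fun r hr => ?_⟩
  obtain ⟨u, ⟨hu0, hu1⟩, rfl⟩ := hI r hr
  have hu2 : u < η / 10 := hu1.trans_le (min_le_left _ _)
  have hu3 : u < 1 / 10 ^ 41 := hu1.trans_le (min_le_right _ _)
  have hF : Folds 1 (rr u) (sg u) :=
    sLfin sPsi sLiso sLsurA sLsurN sLsurT sLinj u hu0 (by linarith [hu3])
  have hup : ∀ s, Wraps 1 (rr u) s → s ≤ sg u := by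
    intro s hs
    by_contra hlt
    rw [not_le] at hlt
    obtain ⟨C, S, ρ, x, y, h, hp⟩ := sPar u hu0 hu3.le
    have hrr : rr u = (2 + bb u) / (2 - 2 * tt u) := by
      unfold rr bb
      rw [show 4 * (1 - tt u) = 2 * (2 - 2 * tt u) by ring,
        show 4 + 2 * u - u ^ 2 + 3 * tt u * u = 2 * (2 + (u - u ^ 2 / 2 + 3 / 2 * tt u * u)) by
          ring, mul_div_mul_left _ _ two_ne_zero]
    have hsg : sg u = √(2 * (1 + tt u ^ 2)) / (2 * (2 - 2 * tt u)) := by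
      unfold sg
      rw [show 4 * (1 - tt u) = 2 * (2 - 2 * tt u) by ring,
        show 2 + 2 * tt u ^ 2 = 2 * (1 + tt u ^ 2) by ring]
    have hbu : bb u = u - u ^ 2 / 2 + 3 / 2 * tt u * u := rfl
    generalize bb u = β at hp hrr hbu
    generalize tt u = t at hp hrr hsg hbu
    have hβ := hp.β0
    have hβ1 := hp.β1
    have ht0 := hp.t0
    have ht1 := hp.t1
    have hβ2 : β ^ 2 ≤ β / 10 := by nlinarith
    have hβ3 : β ^ 3 ≤ β / 10 := by nlinarith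
    have hβ4 : 0 < β ^ 2 := pow_pos hβ 2
    have hβ5 : 0 < β ^ 3 := pow_pos hβ 3
    have ht2 : t ≤ 1 / 10 := by linarith
    have hβu : β ≤ 2 * u := by nlinarith
    have hd : 0 < 2 - 2 * t := by linarith
    rw [hsg] at hlt
    rw [hrr] at hs
    have hs0 : 0 < s := lt_of_le_of_lt (by positivity) hlt
    rw [div_lt_iff₀ (by linarith)] at hlt
    generalize hw : √(2 * (1 + t ^ 2)) = w at hlt
    obtain ⟨δ, d1, d2, d3⟩ : ∃ δ, 2 * t < δ ∧ δ ≤ 2 * t + β ^ 3 ∧ w ≤ 2 * (2 - δ) * s := by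
      refine ⟨min (2 * t + β ^ 3) (2 - w / (2 * s)), lt_min (by linarith) ?_, min_le_left _ _, ?_⟩
      · have : w / (2 * s) < 2 - 2 * t := by
          rw [div_lt_iff₀ (by linarith)]
          linarith
        linarith
      · have h1 : w / (2 * s) ≤ 2 - min (2 * t + β ^ 3) (2 - w / (2 * s)) := by
          have := min_le_right (2 * t + β ^ 3) (2 - w / (2 * s))
          linarith
        rw [div_le_iff₀ (by linarith)] at h1
        linarith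
    obtain ⟨Δ, rfl⟩ : ∃ Δ, δ = β ^ 2 * Δ := ⟨δ / β ^ 2, by field_simp⟩
    obtain ⟨F, hc⟩ := sW2C (1 + t ^ 2) (2 - β ^ 2 * Δ) (2 + β) _ s (by nlinarith) hs0 hs
      (by rw [hw]; exact d3) (by
        rw [hw, ← mul_div_assoc, div_le_iff₀ hd]
        nlinarith)
    obtain ⟨g, hg, hn⟩ := hR (2 - β ^ 2 * Δ) (2 + β) F
      (abs_le.2 ⟨by linarith, by linarith⟩) (abs_le.2 ⟨by linarith, by linarith⟩) hc.weak
    have hok : Ok (1 / 20000) η (1 + t ^ 2) (2 - β ^ 2 * Δ) (2 + β) fun P => g (F P) :=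
      ⟨hc.sym hg, hn, hη.le, hηε, by norm_num, by linarith, by linarith, by linarith, by linarith⟩
    have hS : S ≤ η := by
      have := hp.S1
      linarith
    rcases sNS _ _ _ _ _ _ hok with hns | hns
    · exact Top.core2 hGeo hFin hG3 hES hR3 hp d1 d2 hS hok hns
    · exact Top.core2 hGeo hFin hG3 hES hR3 hp d1 d2 hS ((sSymm _ _ _ _ _ _).1 hok).1 hns
  exact ⟨u, ⟨hu0, by linarith [hu3]⟩, rfl, ⟨hF, fun s hs => hup s (Top.wraps_of_folds hs)⟩,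
    ⟨Top.wraps_of_folds hF, fun s hs => hup s hs⟩⟩

end Pool.Agent.P.MP_dba4bb_co.Ex
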